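import Pool.Agent.Lib.MP_8501c9_pr.Wide.DefsU

/-!
# The correction for the sides much shorter than the average
-/

set_option autoImplicit false
open Set

namespace Pool.Agent.Lib.MP_8501c9_pr.Wide

open Pool.Agent.Lib.MP_8501c9_pr Pool.Agent.Lib.MP_8501c9_pr.Mid

/-! ### the function `gapl` -/

theorem v7_gapl_step (l : ℕ) {x : ℕ} (hx : 1 ≤ x) :
    gapl l x = gapl l (x + 1) +
      (Real.log (((x : ℝ) + 1) / x) - Real.log (((l : ℝ) + 1) / l)) := by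
  have hx0 : (0 : ℝ) < x := by exact_mod_cast hx
  unfold gapl
  rw [Real.log_div (by positivity) hx0.ne']
  push_cast
  ring

theorem v7_gapl_self (l : ℕ) : gapl l l = 0 := by
  unfold gapl
  ring

theorem v7_log_anti {a b : ℕ} (ha : 1 ≤ a) (hab : a ≤ b) :
    Real.log (((b : ℝ) + 1) / b) ≤ Real.log (((a : ℝ) + 1) / a) := by
  have ha0 : (0 : ℝ) < a := by exact_mod_cast ha
  have hab' : (a : ℝ) ≤ b := by exact_mod_cast hab
  have hb0 : (0 : ℝ) < b := ha0.trans_le hab'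
  apply Real.log_le_log (by positivity)
  rw [div_le_div_iff₀ hb0 ha0]
  nlinarith

/-- the harmonic sum is controlled by `gapl` -/
theorem v7_gapl_low (l : ℕ) : ∀ (j x : ℕ), x + j = l → 1 ≤ x →
    0 ≤ gapl l x ∧ ∑ m ∈ Finset.Ico x l, 1 / (m : ℝ) ≤ 2 * ((l : ℝ) + 1) * gapl l x := by
  intro j
  induction j with
  | zero =>
    intro x hx _
    rw [add_zero] at hx
    subst hx
    rw [v7_gapl_self, Finset.Ico_self, Finset.sum_empty]
    simp
  | succ j ih =>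
    intro x hx hx1
    obtain ⟨ih1, ih2⟩ := ih (x + 1) (by omega) (by omega)
    have hxl : x < l := by omega
    have hx0 : (0 : ℝ) < x := by exact_mod_cast hx1
    have hl0 : (0 : ℝ) < l := by exact_mod_cast (by omega : 0 < l)
    have hxl' : (x : ℝ) + 1 ≤ l := by exact_mod_cast hxl
    have hstep := v7_gapl_step l hx1
    have hkey : 1 / (2 * ((l : ℝ) + 1) * x) ≤
        Real.log (((x : ℝ) + 1) / x) - Real.log (((l : ℝ) + 1) / l) := by
      rw [← Real.log_div (by positivity) (by positivity)]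
      refine le_trans ?_ (Real.one_sub_inv_le_log_of_pos (by positivity))
      have e1 : (((x : ℝ) + 1) / x / (((l : ℝ) + 1) / l))⁻¹ = x * (l + 1) / ((x + 1) * l) := by
        field_simp
      rw [e1, le_sub_iff_add_le, div_add_div _ _ (by positivity) (by positivity),
        div_le_one (by positivity)]
      have h1 : (0 : ℝ) ≤ ((l : ℝ) - x - 1) * x := by
        apply mul_nonneg _ hx0.le
        linarith
      have h2 : ((x : ℝ) + 1) * l + 2 * (l + 1) * x * (x * (l + 1)) ≤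
          2 * (l + 1) * x * ((x + 1) * l) := by
        have h3 : (1 : ℝ) ≤ x := by exact_mod_cast hx1
        nlinarith [mul_nonneg h1 hl0.le, mul_nonneg hx0.le hl0.le, mul_nonneg h1 hx0.le]
      linarith
    refine ⟨?_, ?_⟩
    · rw [hstep]
      have : 0 < 1 / (2 * ((l : ℝ) + 1) * x) := by positivity
      linarith
    · rw [Finset.sum_eq_sum_Ico_succ_bot hxl, hstep]
      have h4 : 1 / (x : ℝ) = 2 * ((l : ℝ) + 1) * (1 / (2 * ((l : ℝ) + 1) * x)) := by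
        field_simp
      have h5 : 1 / (x : ℝ) ≤ 2 * ((l : ℝ) + 1) *
          (Real.log (((x : ℝ) + 1) / x) - Real.log (((l : ℝ) + 1) / l)) := by
        rw [h4]
        exact mul_le_mul_of_nonneg_left hkey (by positivity)
      linarith

theorem v7_gapl_high {l : ℕ} (hl : 1 ≤ l) : ∀ j : ℕ, 0 ≤ gapl l (l + j) := by
  intro j
  induction j with
  | zero => rw [add_zero, v7_gapl_self]
  | succ j ih =>
    have h1 := v7_gapl_step l (x := l + j) (by omega)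
    have h2 := v7_log_anti hl (Nat.le_add_right l j)
    rw [← add_assoc]
    linarith

theorem gapl_nonneg {l x : ℕ} (hl : 1 ≤ l) (hx : 1 ≤ x) : 0 ≤ gapl l x := by
  rcases le_total x l with h | h
  · obtain ⟨j, hj⟩ := Nat.exists_eq_add_of_le h
    exact (v7_gapl_low l j x hj.symm hx).1
  · obtain ⟨j, rfl⟩ := Nat.exists_eq_add_of_le h
    exact v7_gapl_high hl j

/-- the harmonic sum up to the level -/
theorem v7_gapl_sum {l x : ℕ} (hl : 1 ≤ l) (hx : 1 ≤ x) :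
    ∑ m ∈ Finset.Ico x l, 1 / (m : ℝ) ≤ 2 * ((l : ℝ) + 1) * gapl l x := by
  rcases le_total x l with h | h
  · obtain ⟨j, hj⟩ := Nat.exists_eq_add_of_le h
    exact (v7_gapl_low l j x hj.symm hx).2
  · rw [Finset.Ico_eq_empty_of_le h, Finset.sum_empty]
    have := gapl_nonneg hl hx
    positivity

/-! ### levels -/

theorem v7_one_le_lt (d t : ℕ) : 1 ≤ lt d t := by
  unfold lt
  have : (0 : ℝ) ≤ (t : ℝ) / d := by positivity
  linarith

theorem v7_lt_add (d t s : ℕ) : lt d (t + s) = lt d t + (s : ℝ) / d := by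
  unfold lt
  push_cast
  ring

theorem v7_lt_lt {d : ℕ} (hd : 1 ≤ d) (t : ℕ) : lt d t < (lev d t : ℝ) + 1 := by
  have hd0 : (0 : ℝ) < d := by exact_mod_cast hd
  unfold lt lev
  have h1 : t < d * (t / d + 1) := Nat.lt_mul_div_succ t hd
  have h2 : (t : ℝ) < d * ((t / d : ℕ) + 1) := by exact_mod_cast h1
  have h3 : (t : ℝ) / d < ((t / d : ℕ) : ℝ) + 1 := by
    rw [div_lt_iff₀ hd0]
    linarith
  push_cast
  linarith

theorem v7_lev_le {d : ℕ} (t : ℕ) : (lev d t : ℝ) ≤ lt d t := by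
  unfold lt lev
  have h1 : ((t / d : ℕ) : ℝ) ≤ (t : ℝ) / d := Nat.cast_div_le
  push_cast
  linarith

theorem v7_lev_pos (d t : ℕ) : 1 ≤ lev d t := by
  unfold lev
  exact Nat.le_add_left 1 _

theorem v7_lev_mono (d t s : ℕ) : lev d t ≤ lev d (t + s) := by
  unfold lev
  have := Nat.div_le_div_right (c := d) (Nat.le_add_right t s)
  omega

/-! ### the corrections -/

/-- the second entry of the maximum in `qt` -/
noncomputable def v7A (c ℓ l m : ℝ) : ℝ :=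
  l / m * Real.exp (c * ((l + ℓ) / 2) * (1 / m - 1 / l))

theorem v7_qt (c ℓ : ℝ) (d t m : ℕ) : qt c ℓ d t m = max 1 (v7A c ℓ (lt d t) m) := rfl

theorem v7A_self {m : ℝ} (hm : m ≠ 0) (c ℓ : ℝ) : v7A c ℓ m m = 1 := by
  unfold v7A
  rw [sub_self, mul_zero, Real.exp_zero, div_self hm, mul_one]

theorem v7A_le {c ℓ m l₁ l₂ : ℝ} (hc : 0 ≤ c) (hc2 : c ≤ 2) (hℓ : 0 ≤ ℓ) (hm : 1 ≤ m)
    (h1 : m ≤ l₁) (h2 : l₁ ≤ l₂) :
    v7A c ℓ l₂ m ≤ v7A c ℓ l₁ m * Real.exp ((l₂ - l₁) * (2 + ℓ) / m) := by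
  have hm0 : 0 < m := by linarith
  have hl1 : 0 < l₁ := by linarith
  have hl2 : 0 < l₂ := by linarith
  have hδ : 0 ≤ l₂ - l₁ := by linarith
  unfold v7A
  have e1 : l₂ / m ≤ l₁ / m * Real.exp ((l₂ - l₁) / m) := by
    have h3 : (l₂ - l₁) / m + 1 ≤ Real.exp ((l₂ - l₁) / m) := Real.add_one_le_exp _
    have h4 : l₂ / m ≤ l₁ / m * ((l₂ - l₁) / m + 1) := by
      rw [div_mul_eq_mul_div, div_le_div_iff_of_pos_right hm0]
      have h5 : (l₂ - l₁) * 1 ≤ (l₂ - l₁) * (l₁ / m) :=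
        mul_le_mul_of_nonneg_left ((one_le_div hm0).2 h1) hδ
      have h6 : l₁ * ((l₂ - l₁) / m + 1) = (l₂ - l₁) * (l₁ / m) + l₁ := by
        field_simp
      rw [h6]
      linarith
    exact h4.trans (mul_le_mul_of_nonneg_left h3 (by positivity))
  have e2 : c * ((l₂ + ℓ) / 2) * (1 / m - 1 / l₂) ≤
      c * ((l₁ + ℓ) / 2) * (1 / m - 1 / l₁) + (l₂ - l₁) * (1 + ℓ) / m := by
    have h3 : c * ((l₂ + ℓ) / 2) * (1 / m - 1 / l₂) - c * ((l₁ + ℓ) / 2) * (1 / m - 1 / l₁) =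
        c / 2 * ((l₂ - l₁) / m + ℓ * ((l₂ - l₁) / (l₁ * l₂))) := by
      field_simp
      ring
    have h4 : (l₂ - l₁) / (l₁ * l₂) ≤ (l₂ - l₁) / m := by
      apply div_le_div_of_nonneg_left hδ hm0
      nlinarith
    have h5 : ℓ * ((l₂ - l₁) / (l₁ * l₂)) ≤ ℓ * ((l₂ - l₁) / m) :=
      mul_le_mul_of_nonneg_left h4 hℓ
    have h6 : 0 ≤ (l₂ - l₁) / m + ℓ * ((l₂ - l₁) / (l₁ * l₂)) := by positivity
    have h7 : c / 2 * ((l₂ - l₁) / m + ℓ * ((l₂ - l₁) / (l₁ * l₂))) ≤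
        1 * ((l₂ - l₁) / m + ℓ * ((l₂ - l₁) / (l₁ * l₂))) :=
      mul_le_mul_of_nonneg_right (by linarith) h6
    have h8 : (l₂ - l₁) * (1 + ℓ) / m = (l₂ - l₁) / m + ℓ * ((l₂ - l₁) / m) := by ring
    rw [h8]
    linarith
  calc l₂ / m * Real.exp (c * ((l₂ + ℓ) / 2) * (1 / m - 1 / l₂))
      ≤ (l₁ / m * Real.exp ((l₂ - l₁) / m)) *
        Real.exp (c * ((l₁ + ℓ) / 2) * (1 / m - 1 / l₁) + (l₂ - l₁) * (1 + ℓ) / m) :=
        mul_le_mul e1 (Real.exp_le_exp.2 e2) (Real.exp_pos _).le (by positivity)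
    _ = l₁ / m * Real.exp (c * ((l₁ + ℓ) / 2) * (1 / m - 1 / l₁)) *
        Real.exp ((l₂ - l₁) * (2 + ℓ) / m) := by
        have e3 : (l₂ - l₁) * (2 + ℓ) / m = (l₂ - l₁) / m + (l₂ - l₁) * (1 + ℓ) / m := by ring
        rw [e3, Real.exp_add, Real.exp_add]
        ring

theorem v7A_le_one {c ℓ m l : ℝ} (hc : 0 ≤ c) (hℓ : 0 ≤ ℓ) (hl : 1 ≤ l) (h : l ≤ m) :
    v7A c ℓ l m ≤ 1 := by
  have hl0 : 0 < l := by linarith
  have hm0 : 0 < m := by linarith
  unfold v7A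
  have h1 : l / m ≤ 1 := (div_le_one hm0).2 h
  have h2 : Real.exp (c * ((l + ℓ) / 2) * (1 / m - 1 / l)) ≤ 1 := by
    rw [Real.exp_le_one_iff]
    have h3 : 1 / m ≤ 1 / l := one_div_le_one_div_of_le hl0 h
    have h4 : 0 ≤ c * ((l + ℓ) / 2) := by positivity
    nlinarith
  calc l / m * Real.exp (c * ((l + ℓ) / 2) * (1 / m - 1 / l)) ≤ 1 * 1 :=
        mul_le_mul h1 h2 (Real.exp_pos _).le zero_le_one
    _ = 1 := one_mul 1

theorem qt_eq_one {c ℓ : ℝ} (hc : 0 ≤ c) (hℓ : 0 ≤ ℓ) {d t m : ℕ} (hd : 1 ≤ d)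
    (hm : lt d t ≤ m) : qt c ℓ d t m = 1 := by
  have _ := hd
  rw [v7_qt]
  exact max_eq_left (v7A_le_one hc hℓ (v7_one_le_lt d t) hm)

theorem v7_one_le_qt (c ℓ : ℝ) (d t m : ℕ) : 1 ≤ qt c ℓ d t m := le_max_left _ _

theorem bet_succ {c ℓ : ℝ} (hc : 0 ≤ c) (hℓ : 0 ≤ ℓ) {d : ℕ} (hd : 1 ≤ d) (t x : ℕ)
    (hx : 1 ≤ x) : bet c ℓ d t x = qt c ℓ d t x * bet c ℓ d t (x + 1) := by
  have _ := hx
  unfold bet
  rcases le_or_gt x (lev d t) with h | h
  · rw [← Finset.insert_Icc_succ_left_eq_Icc h, Finset.prod_insert]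
    · rfl
    · simp
  · have h1 : lt d t ≤ x := by
      have h2 := v7_lt_lt hd t
      have h3 : (lev d t : ℝ) + 1 ≤ x := by exact_mod_cast h
      linarith
    rw [qt_eq_one hc hℓ hd h1, Finset.Icc_eq_empty (by omega), Finset.Icc_eq_empty (by omega),
      Finset.prod_empty, one_mul]

theorem one_le_bet (c ℓ : ℝ) (d t x : ℕ) : 1 ≤ bet c ℓ d t x := by
  unfold bet
  exact Finset.one_le_prod fun m _ => v7_one_le_qt c ℓ d t m

theorem bet_zero {c ℓ : ℝ} {d : ℕ} (hd : 1 ≤ d) : bet c ℓ d 0 1 = 1 := by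
  have _ := hd
  have h1 : lev d 0 = 1 := by
    unfold lev
    rw [Nat.zero_div]
  have h2 : lt d 0 = 1 := by
    unfold lt
    simp
  unfold bet
  rw [h1, Finset.Icc_self, Finset.prod_singleton, v7_qt, h2, Nat.cast_one,
    v7A_self one_ne_zero, max_self]

/-- growth of one factor -/
theorem v7_qt_add {c ℓ : ℝ} (hc : 0 ≤ c) (hc2 : c ≤ 2) (hℓ : 0 ≤ ℓ) {d : ℕ} (hd : 1 ≤ d)
    (t s : ℕ) {m : ℕ} (hm : 1 ≤ m) :
    qt c ℓ d (t + s) m ≤ qt c ℓ d t m * Real.exp ((s : ℝ) / d * (2 + ℓ) / m) := by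
  have hd0 : (0 : ℝ) < d := by exact_mod_cast hd
  have hm0 : (1 : ℝ) ≤ m := by exact_mod_cast hm
  have hexp : 1 ≤ Real.exp ((s : ℝ) / d * (2 + ℓ) / m) := by
    exact Real.one_le_exp (by positivity)
  have h1q := v7_one_le_qt c ℓ d t m
  have hR1 : 1 ≤ qt c ℓ d t m * Real.exp ((s : ℝ) / d * (2 + ℓ) / m) := by nlinarith
  rw [v7_qt c ℓ d (t + s)]
  refine max_le hR1 ?_
  have hadd := v7_lt_add d t s
  have hs0 : (0 : ℝ) ≤ (s : ℝ) / d := by positivity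
  rcases le_total (lt d (t + s)) m with h | h
  · exact (v7A_le_one hc hℓ (v7_one_le_lt d _) h).trans hR1
  · rcases le_total (lt d t) m with h' | h'
    · have h2 := v7A_le hc hc2 hℓ hm0 (le_refl (m : ℝ)) h
      rw [v7A_self (by positivity), one_mul] at h2
      refine h2.trans ?_
      have h3 : Real.exp ((lt d (t + s) - m) * (2 + ℓ) / m) ≤
          Real.exp ((s : ℝ) / d * (2 + ℓ) / m) := by
        rw [Real.exp_le_exp]
        apply div_le_div_of_nonneg_right _ (by positivity)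
        apply mul_le_mul_of_nonneg_right _ (by positivity)
        linarith
      refine h3.trans ?_
      nlinarith
    · have h2 := v7A_le hc hc2 hℓ hm0 h' (by linarith : lt d t ≤ lt d (t + s))
      have h3 : lt d (t + s) - lt d t = (s : ℝ) / d := by linarith
      rw [h3] at h2
      refine h2.trans (mul_le_mul_of_nonneg_right ?_ (Real.exp_pos _).le)
      exact le_max_right _ _

theorem v7_bet_ext {c ℓ : ℝ} (hc : 0 ≤ c) (hℓ : 0 ≤ ℓ) {d : ℕ} (hd : 1 ≤ d) (t x : ℕ) {N : ℕ}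
    (hN : lev d t ≤ N) : bet c ℓ d t x = ∏ m ∈ Finset.Icc x N, qt c ℓ d t m := by
  unfold bet
  refine Finset.prod_subset (Finset.Icc_subset_Icc_right hN) ?_
  intro m hm hm'
  rw [Finset.mem_Icc] at hm hm'
  have h1 : lev d t < m := by
    by_contra h
    exact hm' ⟨hm.1, by omega⟩
  apply qt_eq_one hc hℓ hd
  have h2 := v7_lt_lt hd t
  have h3 : (lev d t : ℝ) + 1 ≤ m := by exact_mod_cast h1
  linarith

theorem v7_bet_add {c ℓ : ℝ} (hc : 0 ≤ c) (hc2 : c ≤ 2) (hℓ : 0 ≤ ℓ) {d : ℕ} (hd : 1 ≤ d)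
    (t s : ℕ) {x : ℕ} (hx : 1 ≤ x) :
    bet c ℓ d (t + s) x ≤ bet c ℓ d t x * Real.exp ((s : ℝ) / d * (2 + ℓ) *
      ∑ m ∈ Finset.Icc x (lev d (t + s)), 1 / (m : ℝ)) := by
  rw [v7_bet_ext hc hℓ hd t x (v7_lev_mono d t s), Finset.mul_sum, Real.exp_sum,
    ← Finset.prod_mul_distrib]
  unfold bet
  refine Finset.prod_le_prod (fun m _ => zero_le_one.trans (v7_one_le_qt c ℓ d _ m)) ?_
  intro m hm
  rw [Finset.mem_Icc] at hm
  have h1 := v7_qt_add hc hc2 hℓ hd t s (hx.trans hm.1)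
  rw [mul_one_div]
  exact h1

/-- two units of size -/
theorem bet_add_two (η ε c ℓ : ℝ) (hη : 0 < η) (hε : 0 < ε) (hc : 0 ≤ c) (hc2 : c ≤ 2)
    (hℓ : 1 ≤ ℓ) : ∃ C₀ : ℝ, 0 ≤ C₀ ∧ ∃ l₀ : ℕ, ∃ c₂ : ℝ, 0 < c₂ ∧ ∃ D₀ : ℕ, ∀ d t x : ℕ,
      D₀ ≤ d → (t : ℝ) ≤ c₂ * d ^ 2 → 1 ≤ x →
      bet c ℓ d (t + 2) x ≤ bet c ℓ d t x *
        Real.exp (ε * gapl (lev d t) x + 2 * (if lev d t < l₀ then C₀ else η) / d) := by
  have hℓ0 : 0 ≤ ℓ := by linarith
  refine ⟨2 * (2 + ℓ), by positivity, ⌈2 * (2 + ℓ) / η⌉₊, ε / (8 * (2 + ℓ)), by positivity,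
    max 2 ⌈16 * (2 + ℓ) / ε⌉₊, ?_⟩
  intro d t x hD ht hx
  have hd2 : 2 ≤ d := (le_max_left _ _).trans hD
  have hd1 : 1 ≤ d := by omega
  have hd0 : (0 : ℝ) < d := by exact_mod_cast hd1
  have hdε : 16 * (2 + ℓ) / ε ≤ d := by
    refine (Nat.le_ceil _).trans ?_
    exact_mod_cast (le_max_right _ _).trans hD
  refine (v7_bet_add hc hc2 hℓ0 hd1 t 2 hx).trans ?_
  refine mul_le_mul_of_nonneg_left ?_ (zero_le_one.trans (one_le_bet c ℓ d t x))
  rw [Real.exp_le_exp]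
  set l := lev d t with hl
  have hl1 : 1 ≤ l := v7_lev_pos d t
  have hl0 : (0 : ℝ) < l := by exact_mod_cast hl1
  have hlev : lev d (t + 2) ≤ l + 1 := by
    rw [hl]
    unfold lev
    have : (t + 2) / d ≤ t / d + 1 := by
      calc (t + 2) / d ≤ (t + d) / d := Nat.div_le_div_right (by omega)
        _ = t / d + 1 := Nat.add_div_right t hd1
    omega
  have hsum : ∑ m ∈ Finset.Icc x (lev d (t + 2)), 1 / (m : ℝ) ≤
      2 * ((l : ℝ) + 1) * gapl l x + 2 / l := by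
    have h1 : ∑ m ∈ Finset.Icc x (lev d (t + 2)), 1 / (m : ℝ) ≤
        ∑ m ∈ Finset.Ico x l ∪ {l, l + 1}, 1 / (m : ℝ) := by
      refine Finset.sum_le_sum_of_subset_of_nonneg ?_ fun m _ _ => by positivity
      intro m hm
      rw [Finset.mem_Icc] at hm
      rw [Finset.mem_union, Finset.mem_Ico, Finset.mem_insert, Finset.mem_singleton]
      omega
    have h2 : ∑ m ∈ Finset.Ico x l ∪ {l, l + 1}, 1 / (m : ℝ) ≤
        ∑ m ∈ Finset.Ico x l, 1 / (m : ℝ) + ∑ m ∈ ({l, l + 1} : Finset ℕ), 1 / (m : ℝ) := by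
      rw [← Finset.sum_union_inter]
      have : 0 ≤ ∑ m ∈ Finset.Ico x l ∩ {l, l + 1}, 1 / (m : ℝ) :=
        Finset.sum_nonneg fun m _ => by positivity
      linarith
    have h3 : ∑ m ∈ ({l, l + 1} : Finset ℕ), 1 / (m : ℝ) ≤ 2 / l := by
      rw [Finset.sum_pair (by omega)]
      have h4 : 1 / (((l + 1 : ℕ) : ℝ)) ≤ 1 / (l : ℝ) := by
        apply one_div_le_one_div_of_le hl0
        push_cast
        linarith
      have h5 : (2 : ℝ) / l = 1 / l + 1 / l := by ring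
      rw [h5]
      linarith
    have h4 := v7_gapl_sum hl1 hx
    linarith
  have hg := gapl_nonneg hl1 hx
  have hlt : (l : ℝ) + 1 ≤ ε / (8 * (2 + ℓ)) * d + 2 := by
    have h1 : (l : ℝ) ≤ 1 + (t : ℝ) / d := v7_lev_le t
    have h2 : (t : ℝ) / d ≤ ε / (8 * (2 + ℓ)) * d := by
      rw [div_le_iff₀ hd0]
      calc (t : ℝ) ≤ ε / (8 * (2 + ℓ)) * d ^ 2 := ht
        _ = ε / (8 * (2 + ℓ)) * d * d := by ring
    linarith
  have hA : ((2 : ℕ) : ℝ) / d * (2 + ℓ) * (2 * ((l : ℝ) + 1) * gapl l x) ≤ ε * gapl l x := by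
    have h1 : ((2 : ℕ) : ℝ) / d * (2 + ℓ) * (2 * ((l : ℝ) + 1)) ≤ ε := by
      have h2 : ((2 : ℕ) : ℝ) / d * (2 + ℓ) * (2 * ((l : ℝ) + 1)) ≤
          2 / d * (2 + ℓ) * (2 * (ε / (8 * (2 + ℓ)) * d + 2)) := by
        push_cast
        apply mul_le_mul_of_nonneg_left _ (by positivity)
        linarith
      refine h2.trans ?_
      have h3 : 2 / (d : ℝ) * (2 + ℓ) * (2 * (ε / (8 * (2 + ℓ)) * d + 2)) =
          ε / 2 + 8 * (2 + ℓ) / d := by
        field_simp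
        ring
      rw [h3]
      have h4 : 8 * (2 + ℓ) / d ≤ ε / 2 := by
        rw [div_le_iff₀ hε] at hdε
        rw [div_le_iff₀ hd0]
        linarith
      linarith
    calc ((2 : ℕ) : ℝ) / d * (2 + ℓ) * (2 * ((l : ℝ) + 1) * gapl l x)
        = ((2 : ℕ) : ℝ) / d * (2 + ℓ) * (2 * ((l : ℝ) + 1)) * gapl l x := by ring
      _ ≤ ε * gapl l x := mul_le_mul_of_nonneg_right h1 hg
  have hB : ((2 : ℕ) : ℝ) / d * (2 + ℓ) * (2 / l) ≤
      2 * (if l < ⌈2 * (2 + ℓ) / η⌉₊ then 2 * (2 + ℓ) else η) / d := by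
    have h1 : ((2 : ℕ) : ℝ) / d * (2 + ℓ) * (2 / l) = 2 * (2 * (2 + ℓ) / l) / d := by
      push_cast
      ring
    rw [h1]
    apply div_le_div_of_nonneg_right _ hd0.le
    apply mul_le_mul_of_nonneg_left _ (by norm_num)
    split_ifs with h
    · apply div_le_self (by positivity)
      exact_mod_cast hl1
    · have h2 : 2 * (2 + ℓ) / η ≤ l := by
        refine (Nat.le_ceil _).trans ?_
        exact_mod_cast (not_lt.1 h)
      rw [div_le_iff₀ hη] at h2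
      rw [div_le_iff₀ hl0]
      linarith
  have hC : ((2 : ℕ) : ℝ) / d * (2 + ℓ) * ∑ m ∈ Finset.Icc x (lev d (t + 2)), 1 / (m : ℝ) ≤
      ((2 : ℕ) : ℝ) / d * (2 + ℓ) * (2 * ((l : ℝ) + 1) * gapl l x + 2 / l) :=
    mul_le_mul_of_nonneg_left hsum (by positivity)
  rw [mul_add] at hC
  linarith

theorem bet_add_one (c ℓ : ℝ) (hc : 0 ≤ c) (hc2 : c ≤ 2) (hℓ : 1 ≤ ℓ) : ∃ C : ℝ, 0 ≤ C ∧
    ∀ d t x : ℕ, 2 ≤ d → t ≤ d ^ 2 → 1 ≤ x →
      bet c ℓ d (t + 1) x ≤ bet c ℓ d t x * Real.exp (C * Real.log d / d) := by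
  have hℓ0 : 0 ≤ ℓ := by linarith
  refine ⟨4 * (2 + ℓ), by positivity, ?_⟩
  intro d t x hd2 ht hx
  have hd1 : 1 ≤ d := by omega
  have hd0 : (0 : ℝ) < d := by exact_mod_cast hd1
  refine (v7_bet_add hc hc2 hℓ0 hd1 t 1 hx).trans ?_
  refine mul_le_mul_of_nonneg_left ?_ (zero_le_one.trans (one_le_bet c ℓ d t x))
  rw [Real.exp_le_exp]
  have hlev : lev d (t + 1) ≤ d ^ 2 := by
    unfold lev
    have h1 : (t + 1) / d ≤ (d ^ 2 + (d - 1)) / d := Nat.div_le_div_right (by omega)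
    have h2 : (d ^ 2 + (d - 1)) / d = d := by
      rw [pow_two, Nat.mul_add_div hd1, Nat.div_eq_of_lt (by omega), add_zero]
    have h3 : d + 1 ≤ d ^ 2 := by nlinarith
    omega
  have hlog2 : 1 ≤ 2 * Real.log d := by
    have h1 : Real.log 2 ≤ Real.log d := Real.log_le_log (by norm_num) (by exact_mod_cast hd2)
    have h2 := Real.log_two_gt_d9
    linarith
  have hsum : ∑ m ∈ Finset.Icc x (lev d (t + 1)), 1 / (m : ℝ) ≤ 4 * Real.log d := by
    have h1 : ∑ m ∈ Finset.Icc x (lev d (t + 1)), 1 / (m : ℝ) ≤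
        ∑ m ∈ Finset.Icc 1 (d ^ 2), 1 / (m : ℝ) :=
      Finset.sum_le_sum_of_subset_of_nonneg (Finset.Icc_subset_Icc hx hlev)
        fun m _ _ => by positivity
    have h2 := harmonic_le_one_add_log (d ^ 2)
    have h3 : ((harmonic (d ^ 2) : ℚ) : ℝ) = ∑ m ∈ Finset.Icc 1 (d ^ 2), 1 / (m : ℝ) := by
      rw [harmonic_eq_sum_Icc]
      push_cast
      refine Finset.sum_congr rfl fun m _ => ?_
      rw [one_div]
    rw [h3] at h2
    push_cast at h2
    rw [Real.log_pow] at h2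
    push_cast at h2
    linarith
  have h1 : ((1 : ℕ) : ℝ) / d * (2 + ℓ) * ∑ m ∈ Finset.Icc x (lev d (t + 1)), 1 / (m : ℝ) ≤
      ((1 : ℕ) : ℝ) / d * (2 + ℓ) * (4 * Real.log d) :=
    mul_le_mul_of_nonneg_left hsum (by positivity)
  refine h1.trans (le_of_eq ?_)
  push_cast
  ring

/-! ### weights -/

theorem v7_Wt_mul (c ℓ : ℝ) (d t s : ℕ) {x : ℕ} (hx : 1 ≤ x) :
    Real.exp (c * lamt ℓ d s / lt d s) / lt d s * v7A c ℓ (lt d s) x =
      Real.exp (c * lamt ℓ d s / x) / x := by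
  have _ := t
  have hx0 : (0 : ℝ) < x := by exact_mod_cast hx
  have hl0 : 0 < lt d s := by linarith [v7_one_le_lt d s]
  unfold v7A lamt
  have h1 : Real.exp (c * ((lt d s + ℓ) / 2) / lt d s) *
      Real.exp (c * ((lt d s + ℓ) / 2) * (1 / x - 1 / lt d s)) =
      Real.exp (c * ((lt d s + ℓ) / 2) / x) := by
    rw [← Real.exp_add]
    congr 1
    ring
  rw [← h1]
  field_simp

/-- the weight of a direction, after two units -/
theorem weight_two (c ℓ : ℝ) (hc : 0 ≤ c) (hℓ : 0 ≤ ℓ) {d t x : ℕ} (hd : 1 ≤ d) (hx : 1 ≤ x) :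
    Real.exp (c * lamt ℓ d t / x) / x ≤ Wt c ℓ d t * qt c ℓ d (t + 2) x := by
  have _ := hd
  have _ := hℓ
  have hx0 : (0 : ℝ) < x := by exact_mod_cast hx
  have hl0 : 0 < lt d (t + 2) := by linarith [v7_one_le_lt d (t + 2)]
  have h1 := v7_Wt_mul c ℓ d t (t + 2) hx
  have h2 : Wt c ℓ d t * v7A c ℓ (lt d (t + 2)) x ≤ Wt c ℓ d t * qt c ℓ d (t + 2) x := by
    apply mul_le_mul_of_nonneg_left (le_max_right _ _)
    unfold Wt
    positivity
  refine le_trans ?_ h2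
  have h3 : Wt c ℓ d t * v7A c ℓ (lt d (t + 2)) x =
      Real.exp (c * lamt ℓ d (t + 2) / x) / x := h1
  rw [h3]
  apply div_le_div_of_nonneg_right _ hx0.le
  rw [Real.exp_le_exp]
  apply div_le_div_of_nonneg_right _ hx0.le
  apply mul_le_mul_of_nonneg_left _ hc
  unfold lamt
  have := v7_lt_add d t 2
  have h4 : (0 : ℝ) ≤ ((2 : ℕ) : ℝ) / d := by positivity
  linarith

/-- the weight of a direction, after one unit -/
theorem weight_one (c ℓ : ℝ) (hc : 0 ≤ c) (hc2 : c ≤ 2) (hℓ : 0 ≤ ℓ) : ∃ D₀ : ℕ, ∀ d t x : ℕ,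
    D₀ ≤ d → 1 ≤ x →
      Real.exp (c * lamt ℓ d t / x) / x ≤ 3 * (Wt c ℓ d t * qt c ℓ d (t + 1) x) := by
  refine ⟨max 1 ⌈3 * ℓ⌉₊, ?_⟩
  intro d t x hD hx
  have hd1 : 1 ≤ d := (le_max_left _ _).trans hD
  have hd0 : (0 : ℝ) < d := by exact_mod_cast hd1
  have hdℓ : 3 * ℓ ≤ d := by
    refine (Nat.le_ceil _).trans ?_
    exact_mod_cast (le_max_right _ _).trans hD
  have hx0 : (0 : ℝ) < x := by exact_mod_cast hx
  have hl1 : 1 ≤ lt d (t + 1) := v7_one_le_lt d (t + 1)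
  have hl2 : 1 ≤ lt d (t + 2) := v7_one_le_lt d (t + 2)
  have hl1p : 0 < lt d (t + 1) := by linarith
  have hl2p : 0 < lt d (t + 2) := by linarith
  have hadd : lt d (t + 2) = lt d (t + 1) + 1 / (d : ℝ) := by
    have := v7_lt_add d (t + 1) 1
    rw [show t + 1 + 1 = t + 2 from rfl] at this
    rw [this]
    push_cast
    ring
  have hd1r : 1 / (d : ℝ) ≤ 1 := by
    rw [div_le_one hd0]
    exact_mod_cast hd1
  -- the typical weights
  have hW : Real.exp (c * lamt ℓ d (t + 1) / lt d (t + 1)) / lt d (t + 1) ≤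
      3 * Wt c ℓ d t := by
    unfold Wt lamt
    have e1 : c * ((lt d (t + 1) + ℓ) / 2) / lt d (t + 1) ≤
        c * ((lt d (t + 2) + ℓ) / 2) / lt d (t + 2) + ℓ / d := by
      have h1 : c * ((lt d (t + 1) + ℓ) / 2) / lt d (t + 1) -
          c * ((lt d (t + 2) + ℓ) / 2) / lt d (t + 2) =
          c / 2 * (ℓ * ((lt d (t + 2) - lt d (t + 1)) / (lt d (t + 1) * lt d (t + 2)))) := by
        field_simp
        ring
      have h2 : lt d (t + 2) - lt d (t + 1) = 1 / (d : ℝ) := by linarith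
      rw [h2] at h1
      have h3 : 1 / (d : ℝ) / (lt d (t + 1) * lt d (t + 2)) ≤ 1 / (d : ℝ) := by
        apply div_le_self (by positivity)
        nlinarith
      have h4 : ℓ * (1 / (d : ℝ) / (lt d (t + 1) * lt d (t + 2))) ≤ ℓ * (1 / d) :=
        mul_le_mul_of_nonneg_left h3 hℓ
      have h5 : 0 ≤ ℓ * (1 / (d : ℝ) / (lt d (t + 1) * lt d (t + 2))) := by positivity
      have h6 : c / 2 * (ℓ * (1 / (d : ℝ) / (lt d (t + 1) * lt d (t + 2)))) ≤
          1 * (ℓ * (1 / (d : ℝ) / (lt d (t + 1) * lt d (t + 2)))) :=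
        mul_le_mul_of_nonneg_right (by linarith) h5
      have h7 : ℓ / (d : ℝ) = ℓ * (1 / d) := by ring
      rw [h7]
      linarith
    have e2 : Real.exp (ℓ / d) ≤ 3 / 2 := by
      have h1 : ℓ / (d : ℝ) ≤ 1 / 3 := by
        rw [div_le_iff₀ hd0]
        linarith
      have h2 : Real.exp (-(ℓ / d)) ≥ 1 - ℓ / d := by
        have := Real.add_one_le_exp (-(ℓ / d))
        linarith
      have h3 : 2 / 3 ≤ Real.exp (-(ℓ / d)) := by linarith
      rw [Real.exp_neg] at h3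
      rw [le_inv_comm₀ (by norm_num) (Real.exp_pos _)] at h3
      norm_num at h3
      linarith
    have e3 : Real.exp (c * ((lt d (t + 1) + ℓ) / 2) / lt d (t + 1)) ≤
        Real.exp (c * ((lt d (t + 2) + ℓ) / 2) / lt d (t + 2)) * (3 / 2) := by
      refine (Real.exp_le_exp.2 e1).trans ?_
      rw [Real.exp_add]
      exact mul_le_mul_of_nonneg_left e2 (Real.exp_pos _).le
    have e6 : 3 * (Real.exp (c * ((lt d (t + 2) + ℓ) / 2) / lt d (t + 2)) / lt d (t + 2)) =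
        (3 * Real.exp (c * ((lt d (t + 2) + ℓ) / 2) / lt d (t + 2))) / lt d (t + 2) := by ring
    rw [e6, div_le_div_iff₀ hl1p hl2p]
    have e4 : lt d (t + 2) ≤ 2 * lt d (t + 1) := by linarith
    have e5 : 0 < Real.exp (c * ((lt d (t + 2) + ℓ) / 2) / lt d (t + 2)) := Real.exp_pos _
    calc Real.exp (c * ((lt d (t + 1) + ℓ) / 2) / lt d (t + 1)) * lt d (t + 2)
        ≤ (Real.exp (c * ((lt d (t + 2) + ℓ) / 2) / lt d (t + 2)) * (3 / 2)) *
          (2 * lt d (t + 1)) := mul_le_mul e3 e4 hl2p.le (by positivity)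
      _ = 3 * Real.exp (c * ((lt d (t + 2) + ℓ) / 2) / lt d (t + 2)) * lt d (t + 1) := by ring
  have h1 := v7_Wt_mul c ℓ d t (t + 1) hx
  have hA0 : 0 ≤ v7A c ℓ (lt d (t + 1)) x := by
    unfold v7A
    positivity
  have h2 : Real.exp (c * lamt ℓ d t / x) / x ≤ Real.exp (c * lamt ℓ d (t + 1) / x) / x := by
    apply div_le_div_of_nonneg_right _ hx0.le
    rw [Real.exp_le_exp]
    apply div_le_div_of_nonneg_right _ hx0.le
    apply mul_le_mul_of_nonneg_left _ hc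
    unfold lamt
    have := v7_lt_add d t 1
    have h4 : (0 : ℝ) ≤ ((1 : ℕ) : ℝ) / d := by positivity
    linarith
  have hWt0 : 0 ≤ Wt c ℓ d t := by
    unfold Wt
    positivity
  calc Real.exp (c * lamt ℓ d t / x) / x
      ≤ Real.exp (c * lamt ℓ d (t + 1) / lt d (t + 1)) / lt d (t + 1) *
        v7A c ℓ (lt d (t + 1)) x := by rw [h1]; exact h2
    _ ≤ 3 * Wt c ℓ d t * v7A c ℓ (lt d (t + 1)) x := mul_le_mul_of_nonneg_right hW hA0
    _ ≤ 3 * Wt c ℓ d t * qt c ℓ d (t + 1) x :=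
        mul_le_mul_of_nonneg_left (le_max_right _ _) (by positivity)
    _ = 3 * (Wt c ℓ d t * qt c ℓ d (t + 1) x) := by ring

/-- the weight of a direction, long sides -/
theorem weight_long (c ℓ : ℝ) (hc : 0 ≤ c) (hℓ : 0 ≤ ℓ) : ∃ D₀ : ℕ, ∀ d t x : ℕ,
    D₀ ≤ d → lev d t < x →
      Real.exp (c * lamt ℓ d t / x) ≤ 3 * ((lev d t : ℝ) * Wt c ℓ d t) := by
  refine ⟨max 10 ⌈10 * (c * ℓ)⌉₊, ?_⟩
  intro d t x hD hx
  have hd10 : 10 ≤ d := (le_max_left _ _).trans hD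
  have hd1 : 1 ≤ d := by omega
  have hd10r : (10 : ℝ) ≤ d := by exact_mod_cast hd10
  have hd0 : (0 : ℝ) < d := by linarith
  have hdc : 10 * (c * ℓ) ≤ d := by
    refine (Nat.le_ceil _).trans ?_
    exact_mod_cast (le_max_right _ _).trans hD
  have hl1 : 1 ≤ lt d t := v7_one_le_lt d t
  have hl2 : 1 ≤ lt d (t + 2) := v7_one_le_lt d (t + 2)
  have hl1p : 0 < lt d t := by linarith
  have hl2p : 0 < lt d (t + 2) := by linarith
  have hadd : lt d (t + 2) = lt d t + 2 / (d : ℝ) := by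
    have := v7_lt_add d t 2
    rw [this]
    push_cast
    ring
  have hlev := v7_lt_lt hd1 t
  have hlev1 : (1 : ℝ) ≤ lev d t := by exact_mod_cast v7_lev_pos d t
  have hxl : lt d t ≤ x := by
    have h3 : (lev d t : ℝ) + 1 ≤ x := by exact_mod_cast hx
    linarith
  have hx0 : (0 : ℝ) < x := by linarith
  have h2d : 2 / (d : ℝ) ≤ 1 / 5 := by
    rw [div_le_iff₀ hd0]
    linarith
  unfold Wt
  have e1 : c * lamt ℓ d t / x ≤ c * lamt ℓ d (t + 2) / lt d (t + 2) + c * ℓ / d := by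
    have h1 : c * lamt ℓ d t / x ≤ c * lamt ℓ d t / lt d t := by
      apply div_le_div_of_nonneg_left _ hl1p hxl
      unfold lamt
      positivity
    have h2 : c * lamt ℓ d t / lt d t - c * lamt ℓ d (t + 2) / lt d (t + 2) =
        c * ℓ * ((lt d (t + 2) - lt d t) / 2 / (lt d t * lt d (t + 2))) := by
      unfold lamt
      field_simp
      ring
    have h3 : (lt d (t + 2) - lt d t) / 2 = 1 / (d : ℝ) := by
      rw [hadd]
      ring
    rw [h3] at h2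
    have h4 : 1 / (d : ℝ) / (lt d t * lt d (t + 2)) ≤ 1 / (d : ℝ) := by
      apply div_le_self (by positivity)
      nlinarith
    have h5 : c * ℓ * (1 / (d : ℝ) / (lt d t * lt d (t + 2))) ≤ c * ℓ * (1 / d) :=
      mul_le_mul_of_nonneg_left h4 (by positivity)
    have h6 : c * ℓ / (d : ℝ) = c * ℓ * (1 / d) := by ring
    rw [h6]
    linarith
  have e2 : Real.exp (c * ℓ / d) ≤ 10 / 9 := by
    have h1 : c * ℓ / (d : ℝ) ≤ 1 / 10 := by
      rw [div_le_iff₀ hd0]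
      linarith
    have h2 := Real.add_one_le_exp (-(c * ℓ / d))
    have h3 : 9 / 10 ≤ Real.exp (-(c * ℓ / d)) := by linarith
    rw [Real.exp_neg] at h3
    rw [le_inv_comm₀ (by norm_num) (Real.exp_pos _)] at h3
    norm_num at h3
    linarith
  have e3 : Real.exp (c * lamt ℓ d t / x) ≤
      Real.exp (c * lamt ℓ d (t + 2) / lt d (t + 2)) * (10 / 9) := by
    refine (Real.exp_le_exp.2 e1).trans ?_
    rw [Real.exp_add]
    exact mul_le_mul_of_nonneg_left e2 (Real.exp_pos _).le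
  have e4 : 1 ≤ 27 / 10 * ((lev d t : ℝ) / lt d (t + 2)) := by
    rw [← mul_div_assoc, le_div_iff₀ hl2p]
    linarith
  have e5 : 0 < Real.exp (c * lamt ℓ d (t + 2) / lt d (t + 2)) := Real.exp_pos _
  calc Real.exp (c * lamt ℓ d t / x)
      ≤ Real.exp (c * lamt ℓ d (t + 2) / lt d (t + 2)) * (10 / 9) * 1 := by rw [mul_one]; exact e3
    _ ≤ Real.exp (c * lamt ℓ d (t + 2) / lt d (t + 2)) * (10 / 9) *
        (27 / 10 * ((lev d t : ℝ) / lt d (t + 2))) :=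
        mul_le_mul_of_nonneg_left e4 (by positivity)
    _ = 3 * ((lev d t : ℝ) * (Real.exp (c * lamt ℓ d (t + 2) / lt d (t + 2)) /
        lt d (t + 2))) := by ring

end Pool.Agent.Lib.MP_8501c9_pr.Wide
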