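import Pool.Agent.Lib.MP_8501c9_pr.Wide.DefsU

/-!
# A lower bound for the deficit of the volume
-/

set_option autoImplicit false
open Set

namespace Pool.Agent.Lib.MP_8501c9_pr.Wide

open Pool.Agent.Lib.MP_8501c9_pr Pool.Agent.Lib.MP_8501c9_pr.Mid

lemma gl_diff {l y : ℕ} (hl : 1 ≤ l) (hy : 1 ≤ y) :
    gapl l (y + 1) - gapl l y = Real.log ((((l : ℝ) + 1) * y) / (l * ((y : ℝ) + 1))) := by
  have hl' : (0 : ℝ) < l := by exact_mod_cast hl
  have hy' : (0 : ℝ) < y := by exact_mod_cast hy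
  have e1 : Real.log ((((l : ℝ) + 1) * y) / (l * ((y : ℝ) + 1))) =
      Real.log ((l : ℝ) + 1) + Real.log y - (Real.log l + Real.log ((y : ℝ) + 1)) := by
    rw [Real.log_div (by positivity) (by positivity), Real.log_mul (by positivity) (by positivity),
      Real.log_mul (by positivity) (by positivity)]
  have e2 : Real.log (((l : ℝ) + 1) / l) = Real.log ((l : ℝ) + 1) - Real.log l :=
    Real.log_div (by positivity) (by positivity)
  unfold gapl
  rw [e1, e2]
  push_cast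
  ring

/-- above the average -/
lemma gl_up {l y : ℕ} (hl : 1 ≤ l) (hy : 1 ≤ y) :
    ((y : ℝ) - l) / (((l : ℝ) + 1) * y) ≤ gapl l (y + 1) - gapl l y := by
  have hl' : (0 : ℝ) < l := by exact_mod_cast hl
  have hy' : (0 : ℝ) < y := by exact_mod_cast hy
  rw [gl_diff hl hy]
  have h1 := Real.one_sub_inv_le_log_of_pos
    (x := (((l : ℝ) + 1) * y) / (l * ((y : ℝ) + 1))) (by positivity)
  refine le_trans (le_of_eq ?_) h1
  rw [inv_div]
  field_simp
  ring

/-- below the average -/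
lemma gl_down {l y : ℕ} (hl : 1 ≤ l) (hy : 1 ≤ y) (hyl : y + 1 ≤ l) :
    ((l : ℝ) - y) / (l : ℝ) ^ 2 ≤ gapl l y - gapl l (y + 1) := by
  have hl' : (0 : ℝ) < l := by exact_mod_cast hl
  have hy' : (0 : ℝ) < y := by exact_mod_cast hy
  have hyl' : (y : ℝ) + 1 ≤ l := by exact_mod_cast hyl
  have h0 := gl_diff hl hy
  have h1 := Real.log_le_sub_one_of_pos
    (x := (((l : ℝ) + 1) * y) / (l * ((y : ℝ) + 1))) (by positivity)
  have h2 : (((l : ℝ) + 1) * y) / (l * ((y : ℝ) + 1)) - 1 = -(((l : ℝ) - y) / (l * ((y : ℝ) + 1))) := by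
    field_simp
    ring
  rw [h2] at h1
  have h3 : ((l : ℝ) - y) / (l : ℝ) ^ 2 ≤ ((l : ℝ) - y) / (l * ((y : ℝ) + 1)) := by
    apply div_le_div_of_nonneg_left (by linarith) (by positivity)
    rw [pow_two]
    exact mul_le_mul_of_nonneg_left hyl' hl'.le
  linarith

lemma gl_self {l : ℕ} : gapl l l = 0 := by
  unfold gapl
  simp

lemma gl_self_succ {l : ℕ} (hl : 1 ≤ l) : gapl l (l + 1) = 0 := by
  have hl' : (0 : ℝ) < l := by exact_mod_cast hl
  unfold gapl
  rw [Real.log_div (by positivity) (by positivity)]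
  push_cast
  ring

lemma gl_below {l : ℕ} (hl : 1 ≤ l) : ∀ k x : ℕ, 1 ≤ x → x + k = l →
    (k : ℝ) * (k + 1) / (2 * (l : ℝ) ^ 2) ≤ gapl l x := by
  have hl' : (0 : ℝ) < l := by exact_mod_cast hl
  intro k
  induction k with
  | zero =>
    intro x _ hxl
    have : x = l := by omega
    subst this
    rw [gl_self]
    simp
  | succ k ih =>
    intro x hx hxl
    have h1 := ih (x + 1) (by omega) (by omega)
    have h2 := gl_down hl hx (by omega)
    have h3 : (l : ℝ) - x = k + 1 := by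
      have : (x : ℝ) + (k + 1 : ℕ) = l := by exact_mod_cast hxl
      push_cast at this
      linarith
    rw [h3] at h2
    have h4 : ((k + 1 : ℕ) : ℝ) * ((k + 1 : ℕ) + 1) / (2 * (l : ℝ) ^ 2) =
        (k : ℝ) * (k + 1) / (2 * (l : ℝ) ^ 2) + ((k : ℝ) + 1) / (l : ℝ) ^ 2 := by
      push_cast
      field_simp
      ring
    rw [h4]
    linarith

lemma gl_mono {l : ℕ} (hl : 1 ≤ l) {m m' : ℕ} (h : m ≤ m') :
    gapl l (l + 1 + m) ≤ gapl l (l + 1 + m') := by
  have hl' : (0 : ℝ) < l := by exact_mod_cast hl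
  induction m' , h using Nat.le_induction with
  | base => exact le_rfl
  | succ m' _ ih =>
    have h2 := gl_up (l := l) (y := l + 1 + m') hl (by omega)
    have h3 : (0 : ℝ) ≤ (((l + 1 + m' : ℕ) : ℝ) - l) / (((l : ℝ) + 1) * ((l + 1 + m' : ℕ) : ℝ)) := by
      push_cast
      apply div_nonneg _ (by positivity)
      linarith [Nat.cast_nonneg (α := ℝ) m']
    have h4 : l + 1 + (m' + 1) = l + 1 + m' + 1 := by ring
    rw [h4]
    linarith

lemma gl_above {l M : ℕ} (hl : 1 ≤ l) : ∀ m : ℕ, m ≤ M →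
    (m : ℝ) * (m + 1) / (2 * (((l : ℝ) + 1) * (l + M))) ≤ gapl l (l + 1 + m) := by
  have hl' : (0 : ℝ) < l := by exact_mod_cast hl
  intro m
  induction m with
  | zero =>
    intro _
    rw [add_zero, gl_self_succ hl]
    simp
  | succ m ih =>
    intro hm
    have h1 := ih (by omega)
    have h2 := gl_up (l := l) (y := l + 1 + m) hl (by omega)
    have hm' : (m : ℝ) + 1 ≤ M := by exact_mod_cast hm
    have h3 : ((m : ℝ) + 1) / (((l : ℝ) + 1) * (l + M)) ≤
        (((l + 1 + m : ℕ) : ℝ) - l) / (((l : ℝ) + 1) * ((l + 1 + m : ℕ) : ℝ)) := by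
      push_cast
      have e : (l : ℝ) + 1 + m - l = m + 1 := by ring
      rw [e]
      apply div_le_div_of_nonneg_left (by positivity) (by positivity)
      apply mul_le_mul_of_nonneg_left _ (by positivity)
      linarith
    have h4 : ((m + 1 : ℕ) : ℝ) * ((m + 1 : ℕ) + 1) / (2 * (((l : ℝ) + 1) * (l + M))) =
        (m : ℝ) * (m + 1) / (2 * (((l : ℝ) + 1) * (l + M))) +
          ((m : ℝ) + 1) / (((l : ℝ) + 1) * (l + M)) := by
      push_cast
      field_simp
      ring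
    have h5 : l + 1 + (m + 1) = l + 1 + m + 1 := by ring
    rw [h4, h5]
    linarith

theorem gapl_low (γ ε P : ℝ) (hγ : 0 < γ) (hε0 : 0 < ε) (hε1 : ε ≤ 1 / 4) (hP : 0 ≤ P) :
    ∃ D₀ : ℕ, ∀ d l x : ℕ, D₀ ≤ d → 1 ≤ l → (l : ℝ) ≤ γ * Real.sqrt d → 1 ≤ x →
      min ((1 - 2 * ε) / (4 * γ ^ 2) * (((x : ℝ) - l) * ((x : ℝ) - l - 1))) P ≤
        (1 - ε) * (d / 2) * gapl l x := by
  -- a bound for the offsets that matter
  obtain ⟨M, hM⟩ : ∃ M : ℕ, P ≤ (1 - 2 * ε) / (4 * γ ^ 2) * ((M : ℝ) * (M + 1)) := by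
    obtain ⟨M, hM⟩ := exists_nat_ge (P / ((1 - 2 * ε) / (4 * γ ^ 2)))
    refine ⟨M, ?_⟩
    have hc : 0 < (1 - 2 * ε) / (4 * γ ^ 2) := by
      apply div_pos (by linarith) (by positivity)
    rw [div_le_iff₀ hc] at hM
    have h1 : (M : ℝ) ≤ (M : ℝ) * (M + 1) := by
      nlinarith [Nat.cast_nonneg (α := ℝ) M]
    calc P ≤ M * ((1 - 2 * ε) / (4 * γ ^ 2)) := hM
      _ = (1 - 2 * ε) / (4 * γ ^ 2) * M := mul_comm _ _
      _ ≤ _ := mul_le_mul_of_nonneg_left h1 hc.le
  -- large levels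
  obtain ⟨l₁, hl₁⟩ : ∃ l₁ : ℕ, ∀ l : ℕ, l₁ ≤ l →
      (1 - 2 * ε) * (((l : ℝ) + 1) * (l + M)) ≤ (1 - ε) * (l : ℝ) ^ 2 := by
    obtain ⟨N, hN⟩ := exists_nat_ge ((2 * (M : ℝ) + 1) / ε)
    refine ⟨N + 1, fun l hl => ?_⟩
    have hN' : (2 * (M : ℝ) + 1) ≤ ε * N := by
      rw [div_le_iff₀ hε0] at hN
      linarith [mul_comm (N : ℝ) ε]
    have hlN : (N : ℝ) + 1 ≤ l := by exact_mod_cast hl
    have hM0 : (0 : ℝ) ≤ M := Nat.cast_nonneg M
    have hN0 : (0 : ℝ) ≤ N := Nat.cast_nonneg N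
    have hl1 : (1 : ℝ) ≤ l := by linarith
    have h1 : (2 * (M : ℝ) + 1) * l ≤ ε * l * l := by
      have h2 : (2 * (M : ℝ) + 1) ≤ ε * l := by
        refine hN'.trans ?_
        apply mul_le_mul_of_nonneg_left _ hε0.le
        linarith
      nlinarith
    have h3 : ((l : ℝ) + 1) * (l + M) ≤ (l : ℝ) ^ 2 + (2 * (M : ℝ) + 1) * l := by
      nlinarith
    have h4 : 0 ≤ 1 - 2 * ε := by linarith
    calc (1 - 2 * ε) * (((l : ℝ) + 1) * (l + M))
        ≤ (1 - 2 * ε) * ((l : ℝ) ^ 2 + ε * l * l) := by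
          apply mul_le_mul_of_nonneg_left _ h4
          linarith
      _ ≤ (1 - ε) * (l : ℝ) ^ 2 := by
          have h5 : 0 ≤ ε * ε * (l : ℝ) ^ 2 := by positivity
          nlinarith
  obtain ⟨D, hD⟩ := exists_nat_ge (3 * P * ((l₁ : ℝ) + 1) ^ 2)
  refine ⟨max D 1, ?_⟩
  intro d l x hd hl hld hx
  have hl' : (0 : ℝ) < l := by exact_mod_cast hl
  have hd1 : 1 ≤ d := (le_max_right _ _).trans hd
  have hd0 : (0 : ℝ) < d := by exact_mod_cast hd1
  have hdl : (l : ℝ) ^ 2 ≤ γ ^ 2 * d := by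
    calc (l : ℝ) ^ 2 ≤ (γ * Real.sqrt d) ^ 2 := pow_le_pow_left₀ hl'.le hld 2
      _ = γ ^ 2 * d := by rw [mul_pow, Real.sq_sqrt hd0.le]
  have hdl2 : (l : ℝ) ^ 2 / (2 * γ ^ 2) ≤ d / 2 := by
    rw [div_le_div_iff₀ (by positivity) (by norm_num)]
    linarith
  have hε' : 0 ≤ 1 - ε := by linarith
  have hε'' : 0 ≤ 1 - 2 * ε := by linarith
  rcases Nat.lt_or_ge l x with hlx | hxl
  · -- above
    obtain ⟨m, rfl⟩ : ∃ m, x = l + 1 + m := ⟨x - (l + 1), by omega⟩
    have ex : (((l + 1 + m : ℕ) : ℝ) - l) * (((l + 1 + m : ℕ) : ℝ) - l - 1) = (m : ℝ) * (m + 1) := by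
      push_cast
      ring
    rw [ex]
    rcases le_or_gt l₁ l with hll | hll
    · have key := hl₁ l hll
      have hbase : ∀ m' : ℕ, m' ≤ M → (1 - 2 * ε) / (4 * γ ^ 2) * ((m' : ℝ) * (m' + 1)) ≤
          (1 - ε) * (d / 2) * gapl l (l + 1 + m') := by
        intro m' hm'
        have h1 := gl_above hl m' hm'
        have hg : 0 ≤ gapl l (l + 1 + m') := le_trans (by positivity) h1
        have hX : 0 < ((l : ℝ) + 1) * (l + M) := by positivity
        calc (1 - 2 * ε) / (4 * γ ^ 2) * ((m' : ℝ) * (m' + 1))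
            = ((1 - 2 * ε) * (((l : ℝ) + 1) * (l + M))) / (2 * γ ^ 2) *
              ((m' : ℝ) * (m' + 1) / (2 * (((l : ℝ) + 1) * (l + M)))) := by
              field_simp
              ring
          _ ≤ ((1 - ε) * (l : ℝ) ^ 2) / (2 * γ ^ 2) *
              ((m' : ℝ) * (m' + 1) / (2 * (((l : ℝ) + 1) * (l + M)))) := by
              apply mul_le_mul_of_nonneg_right _ (by positivity)
              exact div_le_div_of_nonneg_right key (by positivity)
          _ ≤ ((1 - ε) * (l : ℝ) ^ 2) / (2 * γ ^ 2) * gapl l (l + 1 + m') := by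
              apply mul_le_mul_of_nonneg_left h1
              positivity
          _ = (1 - ε) * ((l : ℝ) ^ 2 / (2 * γ ^ 2)) * gapl l (l + 1 + m') := by ring
          _ ≤ (1 - ε) * (d / 2) * gapl l (l + 1 + m') := by
              apply mul_le_mul_of_nonneg_right _ hg
              exact mul_le_mul_of_nonneg_left hdl2 hε'
      rcases le_or_gt m M with hmM | hmM
      · exact (min_le_left _ _).trans (hbase m hmM)
      · refine (min_le_right _ _).trans (hM.trans ((hbase M le_rfl).trans ?_))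
        apply mul_le_mul_of_nonneg_left (gl_mono hl hmM.le)
        positivity
    · rcases Nat.eq_zero_or_pos m with hm0 | hm0
      · subst hm0
        rw [add_zero, gl_self_succ hl]
        simp
      · refine (min_le_right _ _).trans ?_
        have h1 : gapl l (l + 1 + 1) ≤ gapl l (l + 1 + m) := gl_mono hl hm0
        have h2 := gl_up (l := l) (y := l + 1) hl (by omega)
        rw [gl_self_succ hl, sub_zero] at h2
        have h3 : 1 / (((l₁ : ℝ) + 1) ^ 2) ≤ (((l + 1 : ℕ) : ℝ) - l) / (((l : ℝ) + 1) * ((l + 1 : ℕ) : ℝ)) := by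
          push_cast
          have e : (l : ℝ) + 1 - l = 1 := by ring
          rw [e]
          apply one_div_le_one_div_of_le (by positivity)
          have h4 : (l : ℝ) + 1 ≤ (l₁ : ℝ) + 1 := by
            have : (l : ℝ) ≤ l₁ := by exact_mod_cast hll.le
            linarith
          calc ((l : ℝ) + 1) * (l + 1) ≤ ((l₁ : ℝ) + 1) * ((l₁ : ℝ) + 1) :=
                mul_le_mul h4 h4 (by positivity) (by positivity)
            _ = ((l₁ : ℝ) + 1) ^ 2 := by ring
        have h5 : 1 / (((l₁ : ℝ) + 1) ^ 2) ≤ gapl l (l + 1 + m) := h3.trans (h2.trans h1)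
        have hdD : (D : ℝ) ≤ d := by exact_mod_cast (le_max_left _ _).trans hd
        have h6 : 3 * P * ((l₁ : ℝ) + 1) ^ 2 ≤ d := hD.trans hdD
        have hL : 0 < ((l₁ : ℝ) + 1) ^ 2 := by positivity
        calc P = 3 * P * ((l₁ : ℝ) + 1) ^ 2 * (1 / (3 * (((l₁ : ℝ) + 1) ^ 2))) := by
              field_simp
          _ ≤ d * (1 / (3 * (((l₁ : ℝ) + 1) ^ 2))) := by
              apply mul_le_mul_of_nonneg_right h6 (by positivity)
          _ = (1 / 3) * d * (1 / (((l₁ : ℝ) + 1) ^ 2)) := by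
              field_simp
          _ ≤ (1 - ε) * (d / 2) * (1 / (((l₁ : ℝ) + 1) ^ 2)) := by
              apply mul_le_mul_of_nonneg_right _ (by positivity)
              have : 3 / 4 ≤ 1 - ε := by linarith
              nlinarith
          _ ≤ (1 - ε) * (d / 2) * gapl l (l + 1 + m) := by
              apply mul_le_mul_of_nonneg_left h5
              positivity
  · -- below
    obtain ⟨k, hk⟩ : ∃ k, x + k = l := ⟨l - x, by omega⟩
    have h1 := gl_below hl k x hx hk
    have hk' : (x : ℝ) - l = -(k : ℝ) := by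
      have : (x : ℝ) + k = l := by exact_mod_cast hk
      linarith
    refine (min_le_left _ _).trans ?_
    rw [hk']
    have e : -(k : ℝ) * (-(k : ℝ) - 1) = (k : ℝ) * (k + 1) := by ring
    rw [e]
    have hg : 0 ≤ gapl l x := le_trans (by positivity) h1
    calc (1 - 2 * ε) / (4 * γ ^ 2) * ((k : ℝ) * (k + 1))
        ≤ (1 - ε) / (4 * γ ^ 2) * ((k : ℝ) * (k + 1)) := by
          apply mul_le_mul_of_nonneg_right _ (by positivity)
          apply div_le_div_of_nonneg_right _ (by positivity)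
          linarith
      _ = (1 - ε) * ((l : ℝ) ^ 2 / (2 * γ ^ 2)) * ((k : ℝ) * (k + 1) / (2 * (l : ℝ) ^ 2)) := by
          field_simp
          ring
      _ ≤ (1 - ε) * ((l : ℝ) ^ 2 / (2 * γ ^ 2)) * gapl l x := by
          apply mul_le_mul_of_nonneg_left h1
          positivity
      _ ≤ (1 - ε) * (d / 2) * gapl l x := by
          apply mul_le_mul_of_nonneg_right _ hg
          exact mul_le_mul_of_nonneg_left hdl2 hε'

end Pool.Agent.Lib.MP_8501c9_pr.Wide
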