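import Pool.Agent.Lib.MP_8501c9_pr.Wide.DefsL
import Pool.Agent.Lib.MP_8501c9_pr.Mid.CountsLow

/-!
# Counting the corner points of a box
-/

set_option autoImplicit false
open Set

namespace Pool.Agent.Lib.MP_8501c9_pr.Wide

open Pool.Agent.Lib.MP_8501c9_pr Pool.Agent.Lib.MP_8501c9_pr.Mid

variable {n d : ℕ}

theorem l2_mem_Cor {Q : BoxT n d} {i j : Fin d} {x : Vtx n d} :
    x ∈ Cor Q i j ↔ ∀ m, out Q x m = if m = i ∨ m = j then 1 else 0 := by
  unfold Cor
  rw [Finset.mem_filter]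
  simp

theorem l2_mem_cov {Q : BoxT n d} {x : Vtx n d} : x ∈ cov Q ↔ ∑ i, out Q x i ≤ 2 := by
  unfold cov
  rw [Finset.mem_filter]
  simp

theorem l2_sd_mono {Q' Q : BoxT n d} (hQ' : Q'.1 ≤ Q'.2) (hs : Sub Q' Q) (m : Fin d) :
    sd Q' m ≤ sd Q m := by
  obtain ⟨h1, h2⟩ := hs
  have e1 := d_le hQ' m
  have e2 : (Q.1 m : ℕ) ≤ Q'.1 m := Fin.le_def.1 (h1 m)
  have e3 : (Q'.2 m : ℕ) ≤ Q.2 m := Fin.le_def.1 (h2 m)
  unfold sd
  omega

theorem l2_vol_mono {Q' Q : BoxT n d} (hQ' : Q'.1 ≤ Q'.2) (hs : Sub Q' Q) :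
    vol Q' ≤ vol Q := by
  unfold vol
  refine Finset.prod_le_prod (fun _ _ => Nat.cast_nonneg _) fun m _ => ?_
  exact_mod_cast l2_sd_mono hQ' hs m

/-- at most one value if the side is longer by one -/
theorem l2_card_one {lo hi lo' hi' : Fin n} (h : (lo' : ℕ) ≤ hi') (h1 : (lo : ℕ) ≤ lo')
    (h2 : (hi' : ℕ) ≤ hi) (h3 : (((hi : ℕ) - lo) + 1) = (((hi' : ℕ) - lo') + 1) + 1) :
    (Finset.univ.filter (fun a : Fin n => ((lo : ℕ) - a) + ((a : ℕ) - hi) = 1 ∧
      ((lo' : ℕ) - a) + ((a : ℕ) - hi') = 1)).card ≤ 1 := by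
  rw [Finset.card_le_one]
  intro a ha b hb
  rw [Finset.mem_filter] at ha hb
  apply Fin.ext
  have := ha.2
  have := hb.2
  omega

theorem l2_card_cov {Q' Q : BoxT n d} (hQ' : Q'.1 ≤ Q'.2) (hs : Sub Q' Q)
    (ht : ∀ m, sd Q m ≤ sd Q' m + 1) {i j : Fin d} (hij : i ≠ j) :
    ((Cor Q i j ∩ cov Q').card : ℝ) * ((sd Q i : ℝ) * sd Q j) ≤ 4 * vol Q' := by
  classical
  obtain ⟨hs1, hs2⟩ := hs
  set o : Fin d → ℕ := fun m => if m = i ∨ m = j then 1 else 0 with ho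
  have hsum : ∑ m, o m = 2 := k_sum_pair hij
  let t : Fin d → Finset (Fin n) := fun m => Finset.univ.filter
    (fun a : Fin n => ((Q.1 m : ℕ) - a) + ((a : ℕ) - Q.2 m) = o m ∧
      ((Q'.1 m : ℕ) - a) + ((a : ℕ) - Q'.2 m) = o m)
  have hsub : Cor Q i j ∩ cov Q' ⊆ Fintype.piFinset t := by
    intro x hx
    rw [Finset.mem_inter, l2_mem_Cor, l2_mem_cov] at hx
    obtain ⟨h1, h2⟩ := hx
    have hle : ∀ m ∈ Finset.univ, o m ≤ out Q' x m := by
      intro m _
      rw [ho]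
      simp only
      rw [← h1 m]
      exact b_out_mono hs1 hs2 x m
    have heq : ∑ m, o m = ∑ m, out Q' x m :=
      le_antisymm (Finset.sum_le_sum hle) (by rw [hsum]; exact h2)
    have hall := (Finset.sum_eq_sum_iff_of_le hle).1 heq
    rw [Fintype.mem_piFinset]
    intro m
    rw [Finset.mem_filter]
    exact ⟨Finset.mem_univ _, h1 m, (hall m (Finset.mem_univ m)).symm⟩
  have hcard := Finset.card_le_card hsub
  rw [Fintype.card_piFinset] at hcard
  -- the two directions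
  have hdir : ∀ m, o m = 1 → (t m).card * sd Q m ≤ 2 * sd Q' m := by
    intro m hm
    have e1 := d_le hQ' m
    have e2 : (Q.1 m : ℕ) ≤ Q'.1 m := Fin.le_def.1 (hs1 m)
    have e3 : (Q'.2 m : ℕ) ≤ Q.2 m := Fin.le_def.1 (hs2 m)
    have e4 := ht m
    by_cases hc : sd Q m = sd Q' m
    · rw [hc]
      refine Nat.mul_le_mul_right _ ?_
      refine le_trans (Finset.card_le_card ?_) (d_card_two e1 (le_refl 1))
      intro a ha
      rw [Finset.mem_filter] at ha ⊢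
      rw [hm] at ha
      exact ⟨ha.1, ha.2.2⟩
    · have hc1 : sd Q m = sd Q' m + 1 := by
        unfold sd at hc e4 ⊢
        omega
      have h1 : (t m).card ≤ 1 := by
        have h2 := l2_card_one e1 e2 e3 (by unfold sd at hc1; exact hc1)
        simp only [t]
        rw [hm]
        exact h2
      have h3 := d_sd_pos Q' m
      calc (t m).card * sd Q m ≤ 1 * sd Q m := Nat.mul_le_mul_right _ h1
        _ ≤ 2 * sd Q' m := by omega
  have hoth : ∀ m, o m = 0 → (t m).card ≤ sd Q' m := by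
    intro m hm
    have e1 := d_le hQ' m
    unfold sd
    refine le_trans (Finset.card_le_card ?_) (d_card_zero e1)
    intro a ha
    rw [Finset.mem_filter] at ha ⊢
    rw [hm] at ha
    exact ⟨ha.1, ha.2.2⟩
  have hi1 : o i = 1 := by simp [ho]
  have hj1 : o j = 1 := by simp [ho]
  have h3 : (∏ m, (t m).card) * (sd Q i * sd Q j) ≤ 4 * ∏ m, sd Q' m := by
    rw [← Finset.mul_prod_erase _ _ (Finset.mem_univ i), ← Finset.mul_prod_erase _ _
      (Finset.mem_erase.2 ⟨hij.symm, Finset.mem_univ j⟩),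
      ← Finset.mul_prod_erase _ (fun m => sd Q' m) (Finset.mem_univ i),
      ← Finset.mul_prod_erase _ (fun m => sd Q' m)
      (Finset.mem_erase.2 ⟨hij.symm, Finset.mem_univ j⟩)]
    have e3 : ∏ m ∈ (Finset.univ.erase i).erase j, (t m).card ≤
        ∏ m ∈ (Finset.univ.erase i).erase j, sd Q' m := by
      refine Finset.prod_le_prod (fun _ _ => Nat.zero_le _) fun m hm => ?_
      have hm1 := Finset.ne_of_mem_erase hm
      have hm2 := Finset.ne_of_mem_erase (Finset.mem_of_mem_erase hm)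
      refine hoth m ?_
      simp [ho, hm1, hm2]
    have e1 := hdir i hi1
    have e2 := hdir j hj1
    calc (t i).card * ((t j).card * ∏ m ∈ (Finset.univ.erase i).erase j, (t m).card) *
          (sd Q i * sd Q j)
        = ((t i).card * sd Q i) * ((t j).card * sd Q j) *
          ∏ m ∈ (Finset.univ.erase i).erase j, (t m).card := by ring
      _ ≤ (2 * sd Q' i) * (2 * sd Q' j) *
          ∏ m ∈ (Finset.univ.erase i).erase j, sd Q' m :=
          Nat.mul_le_mul (Nat.mul_le_mul e1 e2) e3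
      _ = 4 * (sd Q' i * (sd Q' j *
          ∏ m ∈ (Finset.univ.erase i).erase j, sd Q' m)) := by ring
  have h4 : (Cor Q i j ∩ cov Q').card * (sd Q i * sd Q j) ≤ 4 * ∏ m, sd Q' m :=
    (Nat.mul_le_mul_right _ hcard).trans h3
  unfold vol
  exact_mod_cast h4

theorem card_NewC_ge {Q' Q : BoxT n d} (hQ' : Q'.1 ≤ Q'.2) (hs : Sub Q' Q)
    (ht : ∀ m, sd Q m ≤ sd Q' m + 1) {i j : Fin d} (hij : i ≠ j)
    (hroom : ∀ i, 1 ≤ (Q.1 i : ℕ) ∧ (Q.2 i : ℕ) + 1 < n) :
    4 * (vol Q - vol Q') / ((sd Q i : ℝ) * sd Q j) ≤ ((NewC Q' Q i j).card : ℝ) := by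
  classical
  have hQ : Q.1 ≤ Q.2 := hs.1.trans (hQ'.trans hs.2)
  have h1 : 4 * vol Q / (sd Q i * sd Q j) ≤ ((Cor Q i j).card : ℝ) := k_card_pair hQ hij hroom
  have h2 := l2_card_cov hQ' hs ht hij
  have hpos : (0 : ℝ) < (sd Q i : ℝ) * sd Q j := by
    have := d_sd_pos Q i
    have := d_sd_pos Q j
    positivity
  have h3 : (NewC Q' Q i j).card + (Cor Q i j ∩ cov Q').card = (Cor Q i j).card := by
    unfold NewC
    exact Finset.card_sdiff_add_card_inter _ _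
  have h4 : ((NewC Q' Q i j).card : ℝ) = (Cor Q i j).card - (Cor Q i j ∩ cov Q').card := by
    rw [← h3]
    push_cast
    ring
  rw [div_le_iff₀ hpos] at h1 ⊢
  rw [h4]
  linarith

theorem vol_sub_ge {Q' Q : BoxT n d} (hQ' : Q'.1 ≤ Q'.2) (hs : Sub Q' Q) {i j : Fin d}
    (hij : i ≠ j) (hi : sd Q' i < sd Q i) (hj : sd Q' j < sd Q j) {y : ℕ}
    (hy : ∀ m, sd Q m ≤ y) : vol Q * (2 * y - 1) / (y : ℝ) ^ 2 ≤ vol Q - vol Q' := by
  classical
  have hy0 : (0 : ℝ) < y := by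
    have := (d_sd_pos Q i).trans (hy i)
    exact_mod_cast this
  have hdir : ∀ m, sd Q' m < sd Q m → (sd Q' m : ℝ) ≤ sd Q m * ((y - 1) / y) := by
    intro m hm
    have e1 : (sd Q' m : ℝ) + 1 ≤ sd Q m := by exact_mod_cast hm
    have e2 : (sd Q m : ℝ) ≤ y := by exact_mod_cast hy m
    rw [← mul_div_assoc, le_div_iff₀ hy0]
    nlinarith
  have hv : vol Q' ≤ vol Q * ((y - 1) / y) ^ 2 := by
    unfold vol
    rw [← Finset.mul_prod_erase _ _ (Finset.mem_univ i), ← Finset.mul_prod_erase _ _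
      (Finset.mem_erase.2 ⟨hij.symm, Finset.mem_univ j⟩),
      ← Finset.mul_prod_erase _ (fun m => (sd Q m : ℝ)) (Finset.mem_univ i),
      ← Finset.mul_prod_erase _ (fun m => (sd Q m : ℝ))
      (Finset.mem_erase.2 ⟨hij.symm, Finset.mem_univ j⟩)]
    have e3 : ∏ m ∈ (Finset.univ.erase i).erase j, (sd Q' m : ℝ) ≤
        ∏ m ∈ (Finset.univ.erase i).erase j, (sd Q m : ℝ) := by
      refine Finset.prod_le_prod (fun _ _ => Nat.cast_nonneg _) fun m _ => ?_
      exact_mod_cast l2_sd_mono hQ' hs m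
    have e1 := hdir i hi
    have e2 := hdir j hj
    have n1 : (0 : ℝ) ≤ sd Q' i := Nat.cast_nonneg _
    have n2 : (0 : ℝ) ≤ sd Q' j := Nat.cast_nonneg _
    have n3 : (0 : ℝ) ≤ ∏ m ∈ (Finset.univ.erase i).erase j, (sd Q' m : ℝ) :=
      Finset.prod_nonneg fun _ _ => Nat.cast_nonneg _
    calc (sd Q' i : ℝ) * ((sd Q' j : ℝ) * ∏ m ∈ (Finset.univ.erase i).erase j, (sd Q' m : ℝ))
        ≤ (sd Q i * ((y - 1) / y)) * ((sd Q j * ((y - 1) / y)) *
          ∏ m ∈ (Finset.univ.erase i).erase j, (sd Q m : ℝ)) := by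
          refine mul_le_mul e1 (mul_le_mul e2 e3 n3 (n2.trans e2)) (mul_nonneg n2 n3)
            (n1.trans e1)
      _ = _ := by ring
  have hid : vol Q * (2 * y - 1) / (y : ℝ) ^ 2 = vol Q - vol Q * ((y - 1) / y) ^ 2 := by
    field_simp
    ring
  rw [hid]
  linarith

theorem l2_supp {Q' Q : BoxT n d} {i j : Fin d} {b : Vtx n d} (hb : b ∈ NewC Q' Q i j) :
    supp Q b = {i, j} := by
  unfold NewC at hb
  rw [Finset.mem_sdiff, l2_mem_Cor] at hb
  unfold supp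
  ext m
  rw [Finset.mem_filter, hb.1 m, Finset.mem_insert, Finset.mem_singleton]
  by_cases h : m = i ∨ m = j
  · simp [h]
  · simp [h]

theorem l2_mem_NewU {Q' Q : BoxT n d} {U : Finset (Fin d)} {b : Vtx n d} :
    b ∈ NewU Q' Q U ↔ (∀ m, out Q b m ≤ 1) ∧ (supp Q b).card = 2 ∧ Disjoint (supp Q b) U ∧
      b ∉ cov Q' := by
  unfold NewU
  rw [Finset.mem_filter]
  simp

theorem card_NewU_le {Q : BoxT n d} (hQ : Q.1 ≤ Q.2) (Q' : BoxT n d) (U : Finset (Fin d)) :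
    ((NewU Q' Q U).card : ℝ) ≤ 2 * (d : ℝ) ^ 2 * vol Q := by
  classical
  have hv := d_vol_pos Q
  have hmaps : ∀ b ∈ NewU Q' Q U, supp Q b ∈ (Finset.univ : Finset (Fin d)).powersetCard 2 := by
    intro b hb
    rw [l2_mem_NewU] at hb
    rw [Finset.mem_powersetCard]
    exact ⟨Finset.subset_univ _, hb.2.1⟩
  rw [Finset.card_eq_sum_card_fiberwise hmaps]
  push_cast
  have hfib : ∀ S ∈ (Finset.univ : Finset (Fin d)).powersetCard 2,
      (((NewU Q' Q U).filter (fun b => supp Q b = S)).card : ℝ) ≤ 4 * vol Q := by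
    intro S hS
    rw [Finset.mem_powersetCard] at hS
    obtain ⟨i, j, hij, rfl⟩ := Finset.card_eq_two.1 hS.2
    have hsub : (NewU Q' Q U).filter (fun b => supp Q b = {i, j}) ⊆
        Finset.univ.filter (fun x : Vtx n d =>
          out Q x i = 1 ∧ out Q x j = 1 ∧ ∑ m, out Q x m = 2) := by
      intro b hb
      rw [Finset.mem_filter, l2_mem_NewU] at hb
      obtain ⟨⟨h1, h2, -, -⟩, h3⟩ := hb
      have h4 : ∀ m, out Q b m = if m = i ∨ m = j then 1 else 0 := by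
        intro m
        have h5 : m ∈ supp Q b ↔ m = i ∨ m = j := by
          rw [h3, Finset.mem_insert, Finset.mem_singleton]
        unfold supp at h5
        rw [Finset.mem_filter] at h5
        have h6 := h1 m
        split_ifs with h7
        · have := (h5.2 h7).2
          omega
        · by_contra h8
          exact h7 (h5.1 ⟨Finset.mem_univ _, h8⟩)
      rw [Finset.mem_filter]
      refine ⟨Finset.mem_univ _, ?_, ?_, ?_⟩
      · rw [h4 i, if_pos (Or.inl rfl)]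
      · rw [h4 j, if_pos (Or.inr rfl)]
      · rw [Finset.sum_congr rfl fun m _ => h4 m]
        exact k_sum_pair hij
    have h1 : (((NewU Q' Q U).filter (fun b => supp Q b = {i, j})).card : ℝ) ≤
        ((Finset.univ.filter (fun x : Vtx n d =>
          out Q x i = 1 ∧ out Q x j = 1 ∧ ∑ m, out Q x m = 2)).card : ℝ) := by
      exact_mod_cast Finset.card_le_card hsub
    refine h1.trans ((d_card_pair hQ hij).trans (div_le_self (by positivity) ?_))
    have h2 : (1 : ℝ) ≤ sd Q i := by exact_mod_cast d_sd_pos Q i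
    have h3 : (1 : ℝ) ≤ sd Q j := by exact_mod_cast d_sd_pos Q j
    nlinarith
  refine (Finset.sum_le_card_nsmul _ _ _ hfib).trans ?_
  rw [Finset.card_powersetCard, Finset.card_univ, Fintype.card_fin, nsmul_eq_mul,
    Nat.cast_choose_two]
  have hd0 : (0 : ℝ) ≤ d := Nat.cast_nonneg d
  nlinarith [mul_nonneg hd0 hv.le]

/-- lower bound for the sum over the new corner points -/
theorem births_low {Q' Q : BoxT n d} (hQ' : Q'.1 ≤ Q'.2) (hs : Sub Q' Q)
    (ht : ∀ m, sd Q m ≤ sd Q' m + 1) (hroom : ∀ i, 1 ≤ (Q.1 i : ℕ) ∧ (Q.2 i : ℕ) + 1 < n)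
    (U : Finset (Fin d)) (w : Finset (Fin d) → ℝ) (hw : ∀ S, 0 ≤ w S) (x : ℕ) (hx0 : 1 ≤ x)
    (hx : ∀ i ∉ U, ∀ j ∉ U, i ≠ j → w (insert j (insert i U)) ≠ 0 → sd Q i ≤ x ∧ sd Q j ≤ x) :
    2 * (vol Q - vol Q') / (x : ℝ) ^ 2 *
        ∑ i ∈ Uᶜ, ∑ j ∈ (insert i U)ᶜ, w (insert j (insert i U)) ≤
      ∑ b ∈ NewU Q' Q U, w (U ∪ supp Q b) := by
  classical
  set P : Finset (Σ _ : Fin d, Fin d) := (Uᶜ).sigma (fun i => (insert i U)ᶜ) with hP
  have hPmem : ∀ p : Σ _ : Fin d, Fin d, p ∈ P → p.1 ∉ U ∧ p.2 ∉ U ∧ p.1 ≠ p.2 := by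
    intro p hp
    rw [hP, Finset.mem_sigma, Finset.mem_compl, Finset.mem_compl, Finset.mem_insert] at hp
    push Not at hp
    exact ⟨hp.1, hp.2.2, fun h => hp.2.1 h.symm⟩
  have hsum : ∑ i ∈ Uᶜ, ∑ j ∈ (insert i U)ᶜ, w (insert j (insert i U)) =
      ∑ p ∈ P, w (insert p.2 (insert p.1 U)) := by
    rw [hP, Finset.sum_sigma]
  have hD : 0 ≤ vol Q - vol Q' := sub_nonneg.2 (l2_vol_mono hQ' hs)
  have hx1 : (0 : ℝ) < x := by exact_mod_cast hx0
  -- each pair
  have h1 : ∀ p ∈ P, 2 * (vol Q - vol Q') / (x : ℝ) ^ 2 * w (insert p.2 (insert p.1 U)) ≤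
      1 / 2 * ∑ b ∈ NewC Q' Q p.1 p.2, w (U ∪ supp Q b) := by
    intro p hp
    obtain ⟨hp1, hp2, hp3⟩ := hPmem p hp
    have e1 : ∀ b ∈ NewC Q' Q p.1 p.2, w (U ∪ supp Q b) = w (insert p.2 (insert p.1 U)) := by
      intro b hb
      congr 1
      rw [l2_supp hb]
      ext m
      simp only [Finset.mem_union, Finset.mem_insert, Finset.mem_singleton]
      tauto
    rw [Finset.sum_congr rfl e1, Finset.sum_const, nsmul_eq_mul]
    by_cases hw0 : w (insert p.2 (insert p.1 U)) = 0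
    · rw [hw0]
      simp
    · obtain ⟨hs1, hs2⟩ := hx p.1 hp1 p.2 hp2 hp3 hw0
      have h2 := card_NewC_ge hQ' hs ht hp3 hroom
      have hpos : (0 : ℝ) < (sd Q p.1 : ℝ) * sd Q p.2 := by
        have := d_sd_pos Q p.1
        have := d_sd_pos Q p.2
        positivity
      have h3 : (sd Q p.1 : ℝ) * sd Q p.2 ≤ (x : ℝ) ^ 2 := by
        rw [pow_two]
        have : (sd Q p.1 : ℝ) ≤ x := by exact_mod_cast hs1
        have : (sd Q p.2 : ℝ) ≤ x := by exact_mod_cast hs2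
        exact mul_le_mul (by assumption) (by assumption) (Nat.cast_nonneg _) hx1.le
      have h4 : 4 * (vol Q - vol Q') / (x : ℝ) ^ 2 ≤
          4 * (vol Q - vol Q') / ((sd Q p.1 : ℝ) * sd Q p.2) :=
        div_le_div_of_nonneg_left (by positivity) hpos h3
      have h5 := mul_le_mul_of_nonneg_right (h4.trans h2) (hw (insert p.2 (insert p.1 U)))
      have h6 : 2 * (vol Q - vol Q') / (x : ℝ) ^ 2 * w (insert p.2 (insert p.1 U)) =
          1 / 2 * (4 * (vol Q - vol Q') / (x : ℝ) ^ 2 * w (insert p.2 (insert p.1 U))) := by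
        ring
      rw [h6]
      linarith
  have h2 : ∑ p ∈ P, ∑ b ∈ NewC Q' Q p.1 p.2, w (U ∪ supp Q b) =
      ∑ b ∈ NewU Q' Q U, ∑ p ∈ P.filter (fun p => b ∈ NewC Q' Q p.1 p.2),
        w (U ∪ supp Q b) := by
    refine Finset.sum_comm' ?_
    intro p b
    rw [Finset.mem_filter]
    constructor
    · rintro ⟨hp, hb⟩
      refine ⟨⟨hp, hb⟩, ?_⟩
      obtain ⟨hp1, hp2, hp3⟩ := hPmem p hp
      have hsb := l2_supp hb
      rw [l2_mem_NewU, hsb]
      unfold NewC at hb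
      rw [Finset.mem_sdiff, l2_mem_Cor] at hb
      refine ⟨?_, Finset.card_pair hp3, ?_, hb.2⟩
      · intro m
        rw [hb.1 m]
        split_ifs <;> omega
      · rw [Finset.disjoint_left]
        intro m hm
        rw [Finset.mem_insert, Finset.mem_singleton] at hm
        rcases hm with rfl | rfl
        · exact hp1
        · exact hp2
    · rintro ⟨⟨hp, hb⟩, -⟩
      exact ⟨hp, hb⟩
  have h3 : ∀ b ∈ NewU Q' Q U, ∑ p ∈ P.filter (fun p => b ∈ NewC Q' Q p.1 p.2),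
        w (U ∪ supp Q b) ≤ 2 * w (U ∪ supp Q b) := by
    intro b hb
    rw [Finset.sum_const, nsmul_eq_mul]
    refine mul_le_mul_of_nonneg_right ?_ (hw _)
    have hc : (P.filter (fun p => b ∈ NewC Q' Q p.1 p.2)).card ≤ (supp Q b).offDiag.card := by
      refine Finset.card_le_card_of_injOn (fun p => (p.1, p.2)) ?_ ?_
      · intro p hp
        rw [Finset.mem_coe, Finset.mem_filter] at hp
        obtain ⟨hp1, hp2, hp3⟩ := hPmem p hp.1
        rw [Finset.mem_coe, Finset.mem_offDiag, l2_supp hp.2]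
        exact ⟨by simp, by simp, hp3⟩
      · intro p _ q _ h
        obtain ⟨p1, p2⟩ := p
        obtain ⟨q1, q2⟩ := q
        simp only [Prod.mk.injEq] at h
        rw [h.1, h.2]
    rw [Finset.offDiag_card, (l2_mem_NewU.1 hb).2.1] at hc
    exact_mod_cast hc
  calc 2 * (vol Q - vol Q') / (x : ℝ) ^ 2 *
        ∑ i ∈ Uᶜ, ∑ j ∈ (insert i U)ᶜ, w (insert j (insert i U))
      = ∑ p ∈ P, 2 * (vol Q - vol Q') / (x : ℝ) ^ 2 * w (insert p.2 (insert p.1 U)) := by
        rw [hsum, Finset.mul_sum]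
    _ ≤ ∑ p ∈ P, 1 / 2 * ∑ b ∈ NewC Q' Q p.1 p.2, w (U ∪ supp Q b) := Finset.sum_le_sum h1
    _ = 1 / 2 * ∑ b ∈ NewU Q' Q U, ∑ p ∈ P.filter (fun p => b ∈ NewC Q' Q p.1 p.2),
        w (U ∪ supp Q b) := by rw [← Finset.mul_sum, h2]
    _ ≤ 1 / 2 * ∑ b ∈ NewU Q' Q U, 2 * w (U ∪ supp Q b) :=
        mul_le_mul_of_nonneg_left (Finset.sum_le_sum h3) (by norm_num)
    _ = ∑ b ∈ NewU Q' Q U, w (U ∪ supp Q b) := by
        rw [← Finset.mul_sum]
        ring

end Pool.Agent.Lib.MP_8501c9_pr.Wide
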