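import Pool.Agent.Lib.MP_8501c9_pr.Wide.Tree2
import Pool.Agent.Lib.MP_8501c9_pr.Wide.Corner
import Pool.Agent.Lib.MP_8501c9_pr.Mid.GrowPoint
import Pool.Agent.Lib.MP_8501c9_pr.Mid.Counts

/-!
# Invariants of the growth, steps with prescribed directions
-/

set_option autoImplicit false
open Set

namespace Pool.Agent.Lib.MP_8501c9_pr.Wide

open Pool.Agent.Lib.MP_8501c9_pr Pool.Agent.Lib.MP_8501c9_pr.Mid

variable {n d : ℕ}

theorem l3_sub_ext (Q : BoxT n d) (a : Vtx n d) : Sub Q (ext Q a) :=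
  ⟨(inf_le_left : Q.1 ⊓ a ≤ Q.1), (le_sup_left : Q.2 ≤ Q.2 ⊔ a)⟩

theorem l3_sub_trans {Q R S : BoxT n d} (h1 : Sub Q R) (h2 : Sub R S) : Sub Q S :=
  ⟨h2.1.trans h1.1, h1.2.trans h2.2⟩

theorem l3_cov_mono {Q R : BoxT n d} (h : Sub Q R) : cov Q ⊆ cov R := by
  intro x hx
  unfold cov at hx ⊢
  rw [Finset.mem_filter] at hx ⊢
  exact ⟨hx.1, (Finset.sum_le_sum fun i _ => b_out_mono h.1 h.2 x i).trans hx.2⟩

theorem l3_mem_ext (Q : BoxT n d) (a : Vtx n d) : (ext Q a).1 ≤ a ∧ a ≤ (ext Q a).2 :=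
  ⟨(inf_le_right : Q.1 ⊓ a ≤ a), (le_sup_right : a ≤ Q.2 ⊔ a)⟩

theorem l3_out_inside {Q : BoxT n d} {y : Vtx n d} (h : Q.1 ≤ y ∧ y ≤ Q.2) (m : Fin d) :
    out Q y m = 0 := by
  have h1 : (Q.1 m : ℕ) ≤ y m := h.1 m
  have h2 : (y m : ℕ) ≤ Q.2 m := h.2 m
  unfold out
  omega

/-- the supports of the other elements do not change -/
theorem l3_out_ext {Q : BoxT n d} {a b : Vtx n d} (h : Disjoint (supp Q a) (supp Q b))
    (m : Fin d) : out (ext Q a) b m = out Q b m := by
  rw [Finset.disjoint_left] at h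
  have h1 : out Q a m = 0 ∨ out Q b m = 0 := by
    by_contra hcon
    push Not at hcon
    exact h (Finset.mem_filter.2 ⟨Finset.mem_univ m, hcon.1⟩)
      (Finset.mem_filter.2 ⟨Finset.mem_univ m, hcon.2⟩)
  unfold out at h1 ⊢
  rw [b_ext_fst, b_ext_snd]
  omega

theorem l3_supp_ext {Q : BoxT n d} {a b : Vtx n d} (h : Disjoint (supp Q a) (supp Q b)) :
    supp (ext Q a) b = supp Q b := by
  unfold supp
  refine Finset.filter_congr fun m _ => ?_
  rw [l3_out_ext h]

theorem l3_que {Q : BoxT n d} {A : Finset (Vtx n d)} (hq : Que Q A) {a : Vtx n d}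
    (ha : a ∈ A) : Que (ext Q a) (A.erase a) := by
  have hd : ∀ b ∈ A.erase a, Disjoint (supp Q a) (supp Q b) := fun b hb =>
    hq.dis ha (Finset.mem_of_mem_erase hb) (Finset.ne_of_mem_erase hb).symm
  constructor
  · intro b hb
    rw [Finset.sum_congr rfl fun m _ => l3_out_ext (hd b hb) m]
    exact hq.two b (Finset.mem_of_mem_erase hb)
  · intro b hb c hc hbc
    rw [Function.onFun, l3_supp_ext (hd b hb), l3_supp_ext (hd c hc)]
    exact hq.dis (Finset.mem_of_mem_erase hb) (Finset.mem_of_mem_erase hc) hbc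

/-- the main part of the invariant -/
theorem l3_core {z : Vtx n d} {Q' Q : BoxT n d} {A Z T T₁ A₁ : Finset (Vtx n d)}
    (h : Inv z Q' Q A Z T) {a : Vtx n d} (ha : ∑ m, out Q a m = 2) (haT : a ∈ T₁)
    (hT : T ⊆ T₁) (hS : T₁ \ A₁ = insert a (T \ A)) :
    (∀ y ∈ T₁ \ A₁, (ext Q a).1 ≤ y ∧ y ≤ (ext Q a).2) ∧
    (∀ x, (ext Q a).1 ≤ x → x ≤ (ext Q a).2 →
      x ∈ bclosure 2 ((T₁ : Set (Vtx n d)) ∩ {y | (ext Q a).1 ≤ y ∧ y ≤ (ext Q a).2})) ∧
    2 * (T₁ \ A₁).card = phi (ext Q a) + 2 ∧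
    (∀ K, 2 * K ≤ phi (ext Q a) → ∃ S ⊆ T₁ \ A₁, z ∈ S ∧ S.card = K + 1 ∧
      ∀ y ∈ S, ∑ i, (((y i : ℕ) - z i) + ((z i : ℕ) - y i)) ≤ 2 * K) := by
  have hQ : Q.1 ≤ Q.2 := (h.sub.1.trans h.le).trans h.sub.2
  have hse := l3_sub_ext Q a
  have hphi : phi (ext Q a) = phi Q + 2 := by rw [phi_ext hQ, ha]
  have hin : ∀ y ∈ T₁ \ A₁, (ext Q a).1 ≤ y ∧ y ≤ (ext Q a).2 := by
    intro y hy
    rw [hS, Finset.mem_insert] at hy
    rcases hy with rfl | hy
    · exact l3_mem_ext Q y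
    · have := h.inside y hy
      exact ⟨hse.1.trans this.1, this.2.trans hse.2⟩
  have hnot : a ∉ T \ A := by
    intro hmem
    have := h.inside a hmem
    rw [Finset.sum_eq_zero fun m _ => l3_out_inside this m] at ha
    omega
  have hcard : 2 * (T₁ \ A₁).card = phi (ext Q a) + 2 := by
    rw [hS, Finset.card_insert_of_notMem hnot, hphi]
    have := h.card
    omega
  refine ⟨hin, ?_, hcard, ?_⟩
  · refine grow_ext (closed_bclosure _) hQ ?_ ?_ (by rw [hphi])
    · intro x hx1 hx2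
      refine bclosure_mono 2 ?_ (h.fill x hx1 hx2)
      rintro y ⟨hy1, hy2⟩
      exact ⟨by exact_mod_cast hT (by exact_mod_cast hy1), hse.1.trans hy2.1, hy2.2.trans hse.2⟩
    · exact subset_bclosure 2 _ ⟨by exact_mod_cast haT, l3_mem_ext Q a⟩
  · intro K hK
    by_cases hK' : 2 * K ≤ phi Q
    · obtain ⟨S, hS1, hS2, hS3, hS4⟩ := h.seed K hK'
      refine ⟨S, ?_, hS2, hS3, hS4⟩
      rw [hS]
      exact hS1.trans (Finset.subset_insert _ _)
    · have hc := h.card
      have hK2 : 2 * K = phi (ext Q a) := by omega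
      refine ⟨T₁ \ A₁, Finset.Subset.refl _, ?_, by omega, ?_⟩
      · obtain ⟨S, hS1, hS2, -, -⟩ := h.seed 0 (by omega)
        rw [hS]
        exact Finset.mem_insert_of_mem (hS1 hS2)
      · intro y hy
        rw [hK2]
        unfold phi
        refine Finset.sum_le_sum fun i _ => ?_
        have hy' := hin y hy
        have h1 : ((ext Q a).1 i : ℕ) ≤ y i := hy'.1 i
        have h2 : (y i : ℕ) ≤ (ext Q a).2 i := hy'.2 i
        have h3 : ((ext Q a).1 i : ℕ) ≤ z i := (hse.1.trans h.mem.1) i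
        have h4 : (z i : ℕ) ≤ (ext Q a).2 i := (h.mem.2.trans hse.2) i
        omega

theorem inv_step {z : Vtx n d} {Q' Q : BoxT n d} {A Z T N B : Finset (Vtx n d)}
    (h : Inv z Q' Q A Z T) (hN : N ⊆ cov Q \ cov Q') (hB : B ⊆ N) (hq : Que Q (A ∪ B))
    {a : Vtx n d} (ha : a ∈ A ∪ B) :
    Inv z Q (ext Q a) ((A ∪ B).erase a) (Z ∪ N) (T ∪ B) ∧
      Que (ext Q a) ((A ∪ B).erase a) := by
  have hQ : Q.1 ≤ Q.2 := (h.sub.1.trans h.le).trans h.sub.2
  have hse := l3_sub_ext Q a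
  have hdisj : ∀ y ∈ T, y ∉ B := by
    intro y hy hyB
    exact (Finset.mem_sdiff.1 (hN (hB hyB))).2 (h.cov (h.TZ hy))
  have haT : a ∈ T ∪ B := by
    rcases Finset.mem_union.1 ha with h1 | h1
    · exact Finset.mem_union_left _ (h.AT h1)
    · exact Finset.mem_union_right _ h1
  have hS : (T ∪ B) \ ((A ∪ B).erase a) = insert a (T \ A) := by
    ext y
    simp only [Finset.mem_sdiff, Finset.mem_union, Finset.mem_erase, Finset.mem_insert]
    constructor
    · rintro ⟨h1, h2⟩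
      by_cases hya : y = a
      · exact Or.inl hya
      · right
        push Not at h2
        have h3 := h2 hya
        rcases h1 with h1 | h1
        · exact ⟨h1, h3.1⟩
        · exact absurd h1 h3.2
    · rintro (rfl | ⟨h1, h2⟩)
      · exact ⟨Finset.mem_union.1 haT, by simp⟩
      · refine ⟨Or.inl h1, ?_⟩
        rintro ⟨-, h3 | h3⟩
        · exact h2 h3
        · exact hdisj y h1 h3
  obtain ⟨c1, c2, c3, c4⟩ := l3_core h (hq.two a ha) haT Finset.subset_union_left hS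
  refine ⟨?_, l3_que hq ha⟩
  refine ⟨hQ, hse, ⟨hse.1.trans h.mem.1, h.mem.2.trans hse.2⟩, ?_, ?_, ?_, c1, c2, c3, c4⟩
  · refine Finset.union_subset (h.cov.trans (l3_cov_mono h.sub)) ?_
    exact hN.trans Finset.sdiff_subset
  · intro y hy
    rcases Finset.mem_union.1 (Finset.mem_of_mem_erase hy) with h1 | h1
    · exact Finset.mem_union_left _ (h.AT h1)
    · exact Finset.mem_union_right _ h1
  · exact Finset.union_subset_union h.TZ hB

theorem inv_drain {z : Vtx n d} {Q' Q : BoxT n d} {A Z T : Finset (Vtx n d)}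
    (h : Inv z Q' Q A Z T) (hq : Que Q A) {a : Vtx n d} (ha : a ∈ A) :
    Inv z Q' (ext Q a) (A.erase a) Z T ∧ Que (ext Q a) (A.erase a) := by
  have hse := l3_sub_ext Q a
  have hS : T \ (A.erase a) = insert a (T \ A) := by
    ext y
    simp only [Finset.mem_sdiff, Finset.mem_erase, Finset.mem_insert]
    constructor
    · rintro ⟨h1, h2⟩
      by_cases hya : y = a
      · exact Or.inl hya
      · exact Or.inr ⟨h1, fun h3 => h2 ⟨hya, h3⟩⟩
    · rintro (rfl | ⟨h1, h2⟩)
      · exact ⟨h.AT ha, by simp⟩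
      · exact ⟨h1, fun h3 => h2 h3.2⟩
  obtain ⟨c1, c2, c3, c4⟩ := l3_core h (hq.two a ha) (h.AT ha) (Finset.Subset.refl T) hS
  refine ⟨?_, l3_que hq ha⟩
  exact ⟨h.le, l3_sub_trans h.sub hse, ⟨hse.1.trans h.mem.1, h.mem.2.trans hse.2⟩, h.cov,
    (Finset.erase_subset _ _).trans h.AT, h.TZ, c1, c2, c3, c4⟩

theorem inv_first {z b : Vtx n d} {Z : Finset (Vtx n d)} (hb : ∑ m, out (z, z) b m = 2)
    (hZ : Z ⊆ cov (z, z)) (hz : z ∈ Z) (hbZ : b ∈ Z) :
    Inv z (z, z) (ext (z, z) b) ∅ Z {z, b} := by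
  have hzb : z ≠ b := by
    rintro rfl
    rw [Finset.sum_eq_zero fun m _ => l3_out_inside (Q := (z, z)) ⟨le_rfl, le_rfl⟩ m] at hb
    omega
  have hphi : phi ((z, z) : BoxT n d) = 0 := by
    unfold phi
    simp
  have hS : ({z, b} : Finset (Vtx n d)) \ {b} = {z} := by
    ext y
    simp only [Finset.mem_sdiff, Finset.mem_insert, Finset.mem_singleton]
    constructor
    · rintro ⟨h1 | h1, h2⟩
      · exact h1
      · exact absurd h1 h2
    · rintro rfl
      exact ⟨Or.inl rfl, hzb⟩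
  have h0 : Inv z (z, z) (z, z) {b} Z {z, b} := by
    refine ⟨le_rfl, ⟨le_rfl, le_rfl⟩, ⟨le_rfl, le_rfl⟩, hZ, by simp, ?_, ?_, ?_, ?_, ?_⟩
    · intro y hy
      simp only [Finset.mem_insert, Finset.mem_singleton] at hy
      rcases hy with rfl | rfl
      · exact hz
      · exact hbZ
    · intro y hy
      rw [hS, Finset.mem_singleton] at hy
      rw [hy]
      exact ⟨le_rfl, le_rfl⟩
    · intro x hx1 hx2
      have hx : x = z := le_antisymm hx2 hx1
      refine subset_bclosure 2 _ ⟨?_, hx1, hx2⟩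
      simp [hx]
    · rw [hS, hphi]
      simp
    · intro K hK
      rw [hphi] at hK
      have hK0 : K = 0 := by omega
      refine ⟨{z}, by rw [hS], by simp, by simp [hK0], ?_⟩
      intro y hy
      rw [Finset.mem_singleton] at hy
      rw [hy]
      simp
  have hq : Que ((z, z) : BoxT n d) {b} := by
    constructor
    · intro c hc
      rw [Finset.mem_singleton] at hc
      rw [hc]
      exact hb
    · simp
  have := (inv_drain h0 hq (Finset.mem_singleton_self b)).1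
  rwa [Finset.erase_singleton] at this

theorem l3_mem_NewC {Q' Q : BoxT n d} {i j : Fin d} {b : Vtx n d} (hb : b ∈ NewC Q' Q i j) :
    (∀ m, out Q b m = if m = i ∨ m = j then 1 else 0) ∧ b ∉ cov Q' := by
  unfold NewC Cor at hb
  rw [Finset.mem_sdiff, Finset.mem_filter] at hb
  exact ⟨hb.1.2, hb.2⟩

theorem l3_sum_out {Q : BoxT n d} {i j : Fin d} (hij : i ≠ j) {b : Vtx n d}
    (hb : ∀ m, out Q b m = if m = i ∨ m = j then 1 else 0) : ∑ m, out Q b m = 2 := by
  rw [Finset.sum_congr rfl fun m _ => hb m]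
  exact k_sum_pair hij

theorem l3_NewC_sub {Q' Q : BoxT n d} {i j : Fin d} (hij : i ≠ j) :
    NewC Q' Q i j ⊆ cov Q \ cov Q' := by
  intro b hb
  obtain ⟨h1, h2⟩ := l3_mem_NewC hb
  refine Finset.mem_sdiff.2 ⟨?_, h2⟩
  unfold cov
  rw [Finset.mem_filter]
  exact ⟨Finset.mem_univ _, (l3_sum_out hij h1).le⟩

/-- a step with prescribed directions -/
theorem mst_chain {z : Vtx n d} {x : Fin d → ℕ} {Q' Q : BoxT n d} {Z T Y : Finset (Vtx n d)}
    (h : Mst z x Q' Q ∅ ∅ Z T) {i j : Fin d} (hij : i ≠ j) {b : Vtx n d}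
    (hb : b ∈ NewC Q' Q i j) (hY : Y ⊆ NewC Q' Q i j) (hbY : b ∈ Y) :
    Mst z (fun m => x m + if m = i ∨ m = j then 1 else 0) Q (ext Q b) ∅ ∅ (Z ∪ Y)
      (insert b T) := by
  have hQ : Q.1 ≤ Q.2 := (h.inv.sub.1.trans h.inv.le).trans h.inv.sub.2
  obtain ⟨ho, -⟩ := l3_mem_NewC hb
  have hq : Que Q (∅ ∪ {b}) := by
    rw [Finset.empty_union]
    constructor
    · intro c hc
      rw [Finset.mem_singleton] at hc
      rw [hc]
      exact l3_sum_out hij ho
    · simp
  have h1 := (inv_step h.inv (hY.trans (l3_NewC_sub hij)) (Finset.singleton_subset_iff.2 hbY) hq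
    (a := b) (by simp)).1
  have e1 : ((∅ : Finset (Vtx n d)) ∪ {b}).erase b = ∅ := by simp
  have e2 : T ∪ {b} = insert b T := by
    rw [Finset.union_comm]
    rfl
  rw [e1, e2] at h1
  refine ⟨h1, by simp, by simp, ?_, ?_, ?_⟩
  · intro m
    have h2 := h.sides m
    simp only [Finset.notMem_empty, false_and, exists_false, if_false, add_zero] at h2 ⊢
    rw [d_sd_ext hQ, ho m, h2]
  · intro m
    rw [d_sd_ext hQ, ho m]
    split_ifs <;> omega
  · refine ⟨i, j, hij, ?_, ?_⟩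
    · rw [d_sd_ext hQ, ho i]
      simp
    · rw [d_sd_ext hQ, ho j]
      simp

/-- the number of points in a step with prescribed directions -/
theorem l3_card {z : Vtx n d} {x : Fin d → ℕ} {y : ℕ} (hy : ∀ m, x m ≤ y)
    (hroom : Room (y + 1) z) {Q' Q : BoxT n d} {Z T : Finset (Vtx n d)}
    (h : Mst z x Q' Q ∅ ∅ Z T) {i j : Fin d} (hij : i ≠ j) :
    0 < 4 * (∏ m, (x m : ℝ)) / (y : ℝ) ^ 3 ∧
      4 * (∏ m, (x m : ℝ)) / (y : ℝ) ^ 3 ≤ ((NewC Q' Q i j).card : ℝ) := by
  have hsd : ∀ m, sd Q m = x m := by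
    intro m
    have h2 := h.sides m
    simpa using h2
  have hvol : vol Q = ∏ m, (x m : ℝ) := by
    unfold vol
    exact Finset.prod_congr rfl fun m _ => by rw [hsd m]
  have hvp : 0 < vol Q := d_vol_pos Q
  have hx1 : ∀ m, 1 ≤ x m := fun m => by
    rw [← hsd m]
    exact d_sd_pos Q m
  have hy1 : 1 ≤ y := (hx1 i).trans (hy i)
  have hyR : (1 : ℝ) ≤ y := by exact_mod_cast hy1
  have hroom' : ∀ i, 1 ≤ (Q.1 i : ℕ) ∧ (Q.2 i : ℕ) + 1 < n := by
    intro m
    have h1 := hroom m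
    have h2 : (Q.1 m : ℕ) ≤ z m := h.inv.mem.1 m
    have h3 : (z m : ℕ) ≤ Q.2 m := h.inv.mem.2 m
    have h4 : sd Q m ≤ y := by
      rw [hsd m]
      exact hy m
    unfold sd at h4
    omega
  obtain ⟨i', j', hij', hi', hj'⟩ := h.grow
  have h1 := card_NewC_ge h.inv.le h.inv.sub h.thin hij hroom'
  have h2 := vol_sub_ge h.inv.le h.inv.sub hij' hi' hj' (y := y)
    (fun m => by rw [hsd m]; exact hy m)
  rw [← hvol]
  refine ⟨by positivity, ?_⟩
  refine le_trans ?_ h1
  have hxi : (1 : ℝ) ≤ sd Q i := by exact_mod_cast d_sd_pos Q i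
  have hxj : (1 : ℝ) ≤ sd Q j := by exact_mod_cast d_sd_pos Q j
  have hxiy : (sd Q i : ℝ) ≤ y := by
    rw [hsd i]
    exact_mod_cast hy i
  have hxjy : (sd Q j : ℝ) ≤ y := by
    rw [hsd j]
    exact_mod_cast hy j
  have hpos : (0 : ℝ) < (sd Q i : ℝ) * sd Q j := by positivity
  have hle : (sd Q i : ℝ) * sd Q j ≤ (y : ℝ) ^ 2 := by nlinarith
  have h3 : vol Q / y ≤ vol Q - vol Q' := by
    refine le_trans ?_ h2
    rw [div_le_div_iff₀ (by positivity) (by positivity)]
    nlinarith [mul_nonneg hvp.le (mul_nonneg (by linarith : (0 : ℝ) ≤ y)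
      (by linarith : (0 : ℝ) ≤ y - 1))]
  have h4 : 0 ≤ vol Q / y := by positivity
  calc 4 * vol Q / (y : ℝ) ^ 3 = 4 * (vol Q / y) / (y : ℝ) ^ 2 := by
        field_simp
    _ ≤ 4 * (vol Q - vol Q') / (y : ℝ) ^ 2 := by
        apply div_le_div_of_nonneg_right _ (by positivity)
        linarith
    _ ≤ 4 * (vol Q - vol Q') / ((sd Q i : ℝ) * sd Q j) := by
        apply div_le_div_of_nonneg_left _ hpos hle
        linarith

/-- a step with prescribed directions, any lower bound for the probability -/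
theorem l3_reach {p : ℝ} (hp0 : 0 ≤ p) (hp1 : p ≤ 1) {z : Vtx n d} {x : Fin d → ℕ}
    {i j : Fin d} (hij : i ≠ j) {θ : ℝ}
    (hθ : ∀ Q' Q Z T, Mst z x Q' Q ∅ ∅ Z T → θ ≤ 1 - (1 - p) ^ (NewC Q' Q i j).card) :
    Reach p z (fun x' => x' = x) (fun x' => x' = fun m => x m + if m = i ∨ m = j then 1 else 0)
      θ := by
  intro g v hv hnext x' Z T hx' hc
  obtain ⟨Q', Q, h⟩ := hc
  rw [hx'] at h
  have hdisj : Disjoint (NewC Q' Q i j) Z := by
    rw [Finset.disjoint_left]
    intro b hb hbZ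
    exact (l3_mem_NewC hb).2 (h.inv.cov hbZ)
  refine Ach.mono (Ach.askFirst hp0 hp1 hdisj hv ?_)
    (mul_le_mul_of_nonneg_right (hθ Q' Q Z T h) hv)
  intro b hb Y hY hbY
  exact hnext _ _ _ rfl ⟨Q, ext Q b, mst_chain h hij hb hY hbY⟩

theorem reach_chain {p : ℝ} (hp0 : 0 ≤ p) (hp1 : p ≤ 1) {z : Vtx n d} {x : Fin d → ℕ} {y : ℕ}
    (hy : ∀ m, x m ≤ y) (hroom : Room (y + 1) z) {i j : Fin d} (hij : i ≠ j) :
    Reach p z (fun x' => x' = x) (fun x' => x' = fun m => x m + if m = i ∨ m = j then 1 else 0)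
      (fch p (∏ m, (x m : ℝ)) y) := by
  refine l3_reach hp0 hp1 hij ?_
  intro Q' Q Z T h
  obtain ⟨-, h1⟩ := l3_card hy hroom h hij
  unfold fch
  have h2 : (1 - p) ^ (NewC Q' Q i j).card ≤ Real.exp (-(p * (NewC Q' Q i j).card)) := by
    have h3 : 1 - p ≤ Real.exp (-p) := by
      have := Real.add_one_le_exp (-p)
      linarith
    calc (1 - p) ^ (NewC Q' Q i j).card ≤ (Real.exp (-p)) ^ (NewC Q' Q i j).card :=
          pow_le_pow_left₀ (by linarith) h3 _
      _ = Real.exp (-(p * (NewC Q' Q i j).card)) := by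
          rw [← Real.exp_nat_mul]
          congr 1
          ring
  have h4 : Real.exp (-(p * (NewC Q' Q i j).card)) ≤
      Real.exp (-(4 * p * (∏ m, (x m : ℝ)) / (y : ℝ) ^ 3)) := by
    apply Real.exp_le_exp.2
    have := mul_le_mul_of_nonneg_left h1 hp0
    have e : p * (4 * (∏ m, (x m : ℝ)) / (y : ℝ) ^ 3) =
        4 * p * (∏ m, (x m : ℝ)) / (y : ℝ) ^ 3 := by ring
    linarith
  linarith

/-- a step with prescribed directions has probability at least `p` -/
theorem l3_reach_p {p : ℝ} (hp0 : 0 ≤ p) (hp1 : p ≤ 1) {z : Vtx n d} {x : Fin d → ℕ} {y : ℕ}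
    (hy : ∀ m, x m ≤ y) (hroom : Room (y + 1) z) {i j : Fin d} (hij : i ≠ j) :
    Reach p z (fun x' => x' = x) (fun x' => x' = fun m => x m + if m = i ∨ m = j then 1 else 0)
      p := by
  refine l3_reach hp0 hp1 hij ?_
  intro Q' Q Z T h
  obtain ⟨h0, h1⟩ := l3_card hy hroom h hij
  have h2 : 0 < (NewC Q' Q i j).card := by exact_mod_cast h0.trans_le h1
  have h3 : (1 - p) ^ (NewC Q' Q i j).card ≤ (1 - p) ^ 1 :=
    pow_le_pow_of_le_one (by linarith) (by linarith) h2
  rw [pow_one] at h3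
  linarith

theorem reach_trans {p : ℝ} {z : Vtx n d} {P₀ P₁ P₂ : (Fin d → ℕ) → Prop} {θ₁ θ₂ : ℝ}
    (h2 : 0 ≤ θ₂) (h : Reach p z P₀ P₁ θ₁) (h' : Reach p z P₁ P₂ θ₂) :
    Reach p z P₀ P₂ (θ₁ * θ₂) := by
  intro g v hv hnext x Z T h0 hc
  rw [mul_assoc]
  exact h g (θ₂ * v) (mul_nonneg h2 hv) (fun x Z T h1 hc => h' g v hv hnext x Z T h1 hc) x Z T
    h0 hc

/-- the first two steps -/
theorem l3_first {p : ℝ} (hp0 : 0 ≤ p) (hp1 : p ≤ 1) {z : Vtx n d} (hroom : Room 1 z)
    {i j : Fin d} (hij : i ≠ j) {g : Finset (Vtx n d) → ℝ} {v : ℝ} (hv : 0 ≤ v)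
    (hnext : ∀ Z T, Cst z (fun m => 1 + if m = i ∨ m = j then 1 else 0) Z T → Ach p g Z T v) :
    Ach p g ∅ ∅ (p * (p * v)) := by
  have hzz : ((z, z) : BoxT n d).1 ≤ ((z, z) : BoxT n d).2 := le_rfl
  have hsd : ∀ m, sd ((z, z) : BoxT n d) m = 1 := by
    intro m
    unfold sd
    simp
  have hmem : ∀ b, b ∈ Cor (z, z) i j → ∀ m, out (z, z) b m = if m = i ∨ m = j then 1 else 0 := by
    intro b hb
    unfold Cor at hb
    exact (Finset.mem_filter.1 hb).2
  -- the second point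
  have hB : Ach p g {z} {z} (p * v) := by
    have hdisj : Disjoint (Cor (z, z) i j) {z} := by
      rw [Finset.disjoint_singleton_right]
      intro hz
      have h1 := hmem z hz i
      rw [l3_out_inside (Q := (z, z)) ⟨le_rfl, le_rfl⟩ i] at h1
      simp at h1
    have hcard : 0 < (Cor (z, z) i j).card := by
      have h1 := k_card_pair hzz hij hroom
      have h2 : (0 : ℝ) < 4 * vol ((z, z) : BoxT n d) / (sd ((z, z) : BoxT n d) i *
          sd ((z, z) : BoxT n d) j) := by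
        have := d_vol_pos ((z, z) : BoxT n d)
        rw [hsd, hsd]
        simpa using this
      exact_mod_cast h2.trans_le h1
    have h3 : (1 - p) ^ (Cor (z, z) i j).card ≤ (1 - p) ^ 1 :=
      pow_le_pow_of_le_one (by linarith) (by linarith) hcard
    rw [pow_one] at h3
    refine Ach.mono (Ach.askFirst hp0 hp1 hdisj hv ?_)
      (mul_le_mul_of_nonneg_right (by linarith : p ≤ 1 - (1 - p) ^ (Cor (z, z) i j).card) hv)
    intro b hb Y hY hbY
    apply hnext
    have ho := hmem b hb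
    have hsum := l3_sum_out hij ho
    have hcov : {z} ∪ Y ⊆ cov (z, z) := by
      intro c hc
      unfold cov
      rw [Finset.mem_filter]
      refine ⟨Finset.mem_univ _, ?_⟩
      rcases Finset.mem_union.1 hc with hc | hc
      · rw [Finset.mem_singleton] at hc
        rw [hc, Finset.sum_eq_zero fun m _ => l3_out_inside (Q := (z, z)) ⟨le_rfl, le_rfl⟩ m]
        omega
      · exact (l3_sum_out hij (hmem c (hY hc))).le
    have hinv := inv_first hsum hcov (by simp) (Finset.mem_union_right _ hbY)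
    rw [Finset.pair_comm] at hinv
    refine ⟨(z, z), ext (z, z) b, hinv, by simp, by simp, ?_, ?_, ?_⟩
    · intro m
      rw [d_sd_ext hzz, hsd, ho m]
      simp
    · intro m
      rw [d_sd_ext hzz, ho m]
      split_ifs <;> omega
    · refine ⟨i, j, hij, ?_, ?_⟩
      · rw [d_sd_ext hzz, ho i]
        simp
      · rw [d_sd_ext hzz, ho j]
        simp
  have h4 := Ach.askFirst (Z := (∅ : Finset (Vtx n d))) (T := ∅) (g := g) hp0 hp1
    (N := {z}) (Finset.disjoint_empty_right _) (mul_nonneg hp0 hv) (v := p * v) (by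
      intro x hx Y hY hxY
      rw [Finset.mem_singleton] at hx
      subst hx
      have hY' : Y = {x} := Finset.Subset.antisymm hY (Finset.singleton_subset_iff.2 hxY)
      rw [hY', Finset.empty_union]
      exact hB)
  rw [Finset.card_singleton, pow_one] at h4
  have e : (1 - (1 - p)) * (p * v) = p * (p * v) := by ring
  rwa [e] at h4

/-- the start: the directions of `E`, two or three of them, are enlarged by two -/
theorem ach_start {p : ℝ} (hp0 : 0 ≤ p) (hp1 : p ≤ 1) {z : Vtx n d} (hroom : Room 5 z)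
    {E : Finset (Fin d)} (hE : E.card = 2 ∨ E.card = 3) {g : Finset (Vtx n d) → ℝ} {v : ℝ}
    (hv : 0 ≤ v) (h : ∀ Z T, Cst z (fun m => 1 + if m ∈ E then 2 else 0) Z T → Ach p g Z T v) :
    Ach p g ∅ ∅ (p ^ (E.card + 1) * v) := by
  have hroom1 : Room 1 z := fun i => by
    have := hroom i
    omega
  rcases hE with hE | hE
  · obtain ⟨i, j, hij, rfl⟩ := Finset.card_eq_two.1 hE
    rw [hE]
    have e : p ^ (2 + 1) * v = p * (p * (p * v)) := by ring
    rw [e]
    refine l3_first hp0 hp1 hroom1 hij (mul_nonneg hp0 hv) ?_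
    intro Z T hc
    refine l3_reach_p hp0 hp1 (y := 4) ?_ hroom hij g v hv ?_ _ Z T rfl hc
    · intro m
      split_ifs <;> omega
    · intro x Z T hx hc
      apply h
      have e2 : (fun m => 1 + if m ∈ ({i, j} : Finset (Fin d)) then 2 else 0) = x := by
        rw [hx]
        funext m
        simp only [Finset.mem_insert, Finset.mem_singleton]
        split_ifs <;> omega
      rwa [e2]
  · obtain ⟨i, j, k, hij, hik, hjk, rfl⟩ := Finset.card_eq_three.1 hE
    rw [hE]
    have e : p ^ (3 + 1) * v = p * (p * (p * (p * v))) := by ring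
    rw [e]
    refine l3_first hp0 hp1 hroom1 hij (mul_nonneg hp0 (mul_nonneg hp0 hv)) ?_
    intro Z T hc
    refine l3_reach_p hp0 hp1 (y := 4) ?_ hroom hjk g (p * v) (mul_nonneg hp0 hv) ?_ _ Z T rfl hc
    · intro m
      split_ifs <;> omega
    · intro x Z T hx hc
      rw [hx] at hc
      refine l3_reach_p hp0 hp1 (y := 4) ?_ hroom hik.symm g v hv ?_ _ Z T rfl hc
      · intro m
        split_ifs <;> omega
      · intro x' Z T hx' hc
        apply h
        have e2 : (fun m => 1 + if m ∈ ({i, j, k} : Finset (Fin d)) then 2 else 0) = x' := by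
          rw [hx']
          funext m
          simp only [Finset.mem_insert, Finset.mem_singleton]
          by_cases h1 : m = i
          · subst h1
            simp [hij, hik]
          · by_cases h2 : m = j
            · subst h2
              simp [h1, hjk]
            · by_cases h3 : m = k
              · subst h3
                simp [h1, h2]
              · simp [h1, h2, h3]
        rwa [e2]

end Pool.Agent.Lib.MP_8501c9_pr.Wide
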