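import Pool.Agent.Lib.MP_8501c9_pr.Wide.DefsL
import Pool.Agent.Lib.MP_8501c9_pr.Wide.InvStep

/-!
# Enlarging a set of directions by pairs
-/

set_option autoImplicit false
open Set

namespace Pool.Agent.Lib.MP_8501c9_pr.Wide

open Pool.Agent.Lib.MP_8501c9_pr Pool.Agent.Lib.MP_8501c9_pr.Mid

variable {n d : ℕ}

theorem l9_fch_mono {p : ℝ} (hp0 : 0 ≤ p) {v w : ℝ} (h : w ≤ v) (y : ℕ) :
    fch p w y ≤ fch p v y := by
  unfold fch
  have h1 : 4 * p * w / (y : ℝ) ^ 3 ≤ 4 * p * v / (y : ℝ) ^ 3 := by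
    apply div_le_div_of_nonneg_right _ (by positivity)
    exact mul_le_mul_of_nonneg_left h (by positivity)
  have h2 := Real.exp_le_exp.mpr (neg_le_neg h1)
  linarith

theorem l9_fch_nonneg {p : ℝ} (hp0 : 0 ≤ p) {v : ℝ} (hv : 0 ≤ v) (y : ℕ) : 0 ≤ fch p v y := by
  unfold fch
  have h1 : 0 ≤ 4 * p * v / (y : ℝ) ^ 3 := by positivity
  have h2 : Real.exp (-(4 * p * v / (y : ℝ) ^ 3)) ≤ 1 := by
    rw [Real.exp_le_one_iff]
    linarith
  linarith

theorem l9_reach_mono {p : ℝ} {z : Vtx n d} {P₀ P₁ : (Fin d → ℕ) → Prop} {θ₁ θ₂ : ℝ}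
    (h : Reach p z P₀ P₁ θ₁) (h2 : θ₂ ≤ θ₁) : Reach p z P₀ P₁ θ₂ := by
  intro g v hv hg x Z T h0 hc
  obtain ⟨t, ht, hle⟩ := h g v hv hg x Z T h0 hc
  exact ⟨t, ht, (mul_le_mul_of_nonneg_right h2 hv).trans hle⟩

theorem l9_reach_refl {p : ℝ} {z : Vtx n d} {P₀ P₁ : (Fin d → ℕ) → Prop}
    (h : ∀ x, P₀ x → P₁ x) : Reach p z P₀ P₁ 1 := by
  intro g v hv hg x Z T h0 hc
  rw [one_mul]
  exact hg x Z T (h x h0) hc

/-- one more step -/
theorem l9_step {p : ℝ} (hp0 : 0 ≤ p) (hp1 : p ≤ 1) {z : Vtx n d} {x₀ x₁ x₂ : Fin d → ℕ} {y : ℕ}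
    {θ w : ℝ} (h : Reach p z (fun x' => x' = x₀) (fun x' => x' = x₁) θ) (hθ : 0 ≤ θ)
    (hy : ∀ m, x₁ m ≤ y) (hroom : Room (y + 1) z) {i j : Fin d} (hij : i ≠ j) (hw : 0 ≤ w)
    (hw1 : w ≤ ∏ m, (x₁ m : ℝ))
    (hx₂ : x₂ = fun m => x₁ m + if m = i ∨ m = j then 1 else 0) :
    Reach p z (fun x' => x' = x₀) (fun x' => x' = x₂) (θ * fch p w y) := by
  have h1 := reach_chain hp0 hp1 hy hroom hij
  rw [← hx₂] at h1
  have hw2 : 0 ≤ ∏ m, (x₁ m : ℝ) := hw.trans hw1
  refine l9_reach_mono (reach_trans (l9_fch_nonneg hp0 hw2 y) h h1) ?_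
  exact mul_le_mul_of_nonneg_left (l9_fch_mono hp0 hw1 y) hθ

/-- enlarge each direction of `G` once -/
theorem reach_pairs {p : ℝ} (hp0 : 0 ≤ p) (hp1 : p ≤ 1) {z : Vtx n d} {x₀ : Fin d → ℕ}
    {x y : ℕ} (G : Finset (Fin d)) (hG : Even G.card) (hx : ∀ m ∈ G, x₀ m ≤ x)
    (hx1 : ∀ m, 1 ≤ x₀ m) (hx0 : 1 ≤ x) (hy : ∀ m, x₀ m ≤ y) (hxy : x + 1 ≤ y)
    (hroom : Room (y + 1) z) :
    Reach p z (fun x' => x' = x₀) (fun x' => x' = fun m => x₀ m + if m ∈ G then 1 else 0)
      (∏ i ∈ Finset.range (G.card / 2),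
        fch p ((∏ m, (x₀ m : ℝ)) * (1 + 1 / (x : ℝ)) ^ (2 * i)) y) := by
  obtain ⟨k, hk⟩ := hG
  induction k generalizing G with
  | zero =>
    have hG0 : G = ∅ := by
      rw [← Finset.card_eq_zero]
      omega
    subst hG0
    simp only [Finset.card_empty, Nat.zero_div, Finset.range_zero, Finset.prod_empty]
    apply l9_reach_refl
    intro x' hx'
    rw [hx']
    funext m
    simp
  | succ k ih =>
    obtain ⟨i, hi⟩ : G.Nonempty := by
      rw [← Finset.card_pos]
      omega
    obtain ⟨j, hj⟩ : (G.erase i).Nonempty := by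
      rw [← Finset.card_pos, Finset.card_erase_of_mem hi]
      omega
    have hji : j ≠ i := Finset.ne_of_mem_erase hj
    have hjG : j ∈ G := Finset.mem_of_mem_erase hj
    have hcard : ((G.erase i).erase j).card = k + k := by
      rw [Finset.card_erase_of_mem hj, Finset.card_erase_of_mem hi]
      omega
    have hrec := ih ((G.erase i).erase j)
      (fun m hm => hx m (Finset.mem_of_mem_erase (Finset.mem_of_mem_erase hm))) hcard
    have h2 : G.card / 2 = k + 1 := by omega
    have h3 : ((G.erase i).erase j).card / 2 = k := by omega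
    rw [h2, Finset.prod_range_succ]
    rw [h3] at hrec
    have hxR : (0 : ℝ) < x := by exact_mod_cast hx0
    have hprod0 : 0 ≤ ∏ m, (x₀ m : ℝ) := Finset.prod_nonneg fun m _ => by positivity
    refine l9_step hp0 hp1 hrec ?_ ?_ hroom hji.symm ?_ ?_ ?_
    · refine Finset.prod_nonneg fun i _ => l9_fch_nonneg hp0 ?_ y
      positivity
    · intro m
      split_ifs with hm
      · exact (Nat.add_le_add_right (hx m
          (Finset.mem_of_mem_erase (Finset.mem_of_mem_erase hm))) 1).trans hxy
      · exact hy m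
    · positivity
    · have h4 : (∏ m, (x₀ m : ℝ)) * (1 + 1 / (x : ℝ)) ^ (2 * k) =
          ∏ m, ((x₀ m : ℝ) * if m ∈ (G.erase i).erase j then (1 + 1 / (x : ℝ)) else 1) := by
        rw [Finset.prod_mul_distrib, Finset.prod_ite_mem, Finset.univ_inter, Finset.prod_const, hcard]
        congr 2
        ring
      rw [h4]
      refine Finset.prod_le_prod (fun m _ => ?_) (fun m _ => ?_)
      · split_ifs <;> positivity
      · split_ifs with hm
        · have h5 : (x₀ m : ℝ) ≤ x := by
            exact_mod_cast hx m (Finset.mem_of_mem_erase (Finset.mem_of_mem_erase hm))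
          push_cast
          rw [mul_add, mul_one, mul_one_div]
          have : (x₀ m : ℝ) / x ≤ 1 := (div_le_one hxR).mpr h5
          linarith
        · simp
    · funext m
      by_cases hmi : m = i
      · subst hmi
        simp [hi]
      · by_cases hmj : m = j
        · subst hmj
          simp [hjG]
        · simp [hmi, hmj]

/-- enlarge each of the two or three directions of `E` by two -/
theorem reach_cycle {p : ℝ} (hp0 : 0 ≤ p) (hp1 : p ≤ 1) {z : Vtx n d} {x₀ : Fin d → ℕ}
    {y : ℕ} {E : Finset (Fin d)} (hE : E.card = 2 ∨ E.card = 3) (hx1 : ∀ m, 1 ≤ x₀ m)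
    (hy : ∀ m, x₀ m ≤ y) (hyE : ∀ m ∈ E, x₀ m + 2 ≤ y) (hroom : Room (y + 1) z) :
    Reach p z (fun x' => x' = x₀) (fun x' => x' = fun m => x₀ m + if m ∈ E then 2 else 0)
      (fch p (∏ m, (x₀ m : ℝ)) y ^ E.card) := by
  have hprod0 : 0 ≤ ∏ m, (x₀ m : ℝ) := Finset.prod_nonneg fun m _ => by positivity
  have hf := l9_fch_nonneg hp0 hprod0 y
  have hmon : ∀ x₁ : Fin d → ℕ, (∀ m, x₀ m ≤ x₁ m) → ∏ m, (x₀ m : ℝ) ≤ ∏ m, (x₁ m : ℝ) := by
    intro x₁ h
    exact Finset.prod_le_prod (fun m _ => by positivity) (fun m _ => by exact_mod_cast h m)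
  have hrefl : Reach p z (fun x' => x' = x₀) (fun x' => x' = x₀) 1 := l9_reach_refl fun _ h => h
  rcases hE with hE | hE
  · obtain ⟨a, b, hab, rfl⟩ := Finset.card_eq_two.mp hE
    have ha := hyE a (by simp)
    have hb := hyE b (by simp)
    have h1 := l9_step hp0 hp1 hrefl zero_le_one hy hroom hab hprod0 le_rfl rfl
    have h2 := l9_step (x₂ := fun m => x₀ m + if m ∈ ({a, b} : Finset (Fin d)) then 2 else 0)
      hp0 hp1 h1 (by positivity) (by
        intro m
        have := hy m
        split_ifs with hm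
        · rcases hm with rfl | rfl <;> omega
        · omega) hroom hab hprod0 (hmon _ fun m => Nat.le_add_right _ _) (by
        funext m
        by_cases hma : m = a
        · simp [hma]
        · by_cases hmb : m = b
          · simp [hmb]
          · simp [hma, hmb])
    rw [hE]
    convert h2 using 1
    ring
  · obtain ⟨a, b, c, hab, hac, hbc, rfl⟩ := Finset.card_eq_three.mp hE
    have ha := hyE a (by simp)
    have hb := hyE b (by simp)
    have hc := hyE c (by simp)
    have h1 := l9_step hp0 hp1 hrefl zero_le_one hy hroom hab hprod0 le_rfl rfl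
    have h2 := l9_step hp0 hp1 h1 (by positivity) (by
        intro m
        have := hy m
        split_ifs with hm
        · rcases hm with rfl | rfl <;> omega
        · omega) hroom hbc hprod0 (hmon _ fun m => Nat.le_add_right _ _) rfl
    have h3 := l9_step (x₂ := fun m => x₀ m + if m ∈ ({a, b, c} : Finset (Fin d)) then 2 else 0)
      hp0 hp1 h2 (by positivity) (by
        intro m
        have := hy m
        by_cases hma : m = a
        · subst hma
          simp [hab, hac]
          omega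
        · by_cases hmb : m = b
          · subst hmb
            simp
            omega
          · by_cases hmc : m = c
            · subst hmc
              simp [hma, hmb]
              omega
            · simp [hma, hmb, hmc]
              omega) hroom (Ne.symm hac) hprod0 (hmon _ fun m => by omega) (by
        funext m
        by_cases hma : m = a
        · subst hma
          simp [hab, hac]
        · by_cases hmb : m = b
          · subst hmb
            simp [hma, hbc]
          · by_cases hmc : m = c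
            · subst hmc
              simp [hma, hmb]
            · simp [hma, hmb, hmc])
    rw [hE]
    convert h3 using 1
    ring

end Pool.Agent.Lib.MP_8501c9_pr.Wide
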