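import Pool.Agent.Lib.MP_8501c9_pr.Wide.InvStep
import Pool.Agent.Lib.MP_8501c9_pr.Wide.Pairs
import Pool.Agent.Lib.MP_8501c9_pr.Wide.GapLow
import Pool.Agent.Lib.MP_8501c9_pr.Volume

/-!
# Steps with prescribed directions between two given states
-/

set_option autoImplicit false
open Set

namespace Pool.Agent.Lib.MP_8501c9_pr.Wide

open Pool.Agent.Lib.MP_8501c9_pr Pool.Agent.Lib.MP_8501c9_pr.Mid

variable {n d : ℕ}

theorem Fill_gap_eq (d t x : ℕ) : gap d t x = gapl (lev d t) x := rfl

/-- deficit below the average -/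
theorem Fill_gapl_down (k : ℕ) : ∀ (L x : ℕ), 1 ≤ x → x + k = L →
    gapl L x ≤ ((k : ℝ) * (k + 1) / 2) / (x * ((L : ℝ) + 1)) := by
  induction k with
  | zero =>
    intro L x hx h
    have : x = L := by omega
    subst this
    rw [gl_self]
    positivity
  | succ k ih =>
    intro L x hx h
    have h1 := ih L (x + 1) (by omega) (by omega)
    have hx' : (0 : ℝ) < x := by exact_mod_cast hx
    have hL : 1 ≤ L := by omega
    have hL' : (0 : ℝ) < L := by exact_mod_cast hL
    have hxL : (x : ℝ) + (k + 1) = L := by exact_mod_cast h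
    have h2 : gapl L x - gapl L (x + 1) ≤ ((k : ℝ) + 1) / (x * ((L : ℝ) + 1)) := by
      have h3 := gl_diff hL hx
      have h4 : gapl L x - gapl L (x + 1) =
          Real.log ((L * ((x : ℝ) + 1)) / ((((L : ℝ) + 1) * x))) := by
        rw [← inv_div, Real.log_inv, ← h3]
        ring
      rw [h4]
      refine (Real.log_le_sub_one_of_pos (by positivity)).trans (le_of_eq ?_)
      field_simp
      rw [← hxL]
      ring
    have h5 : ((k : ℝ) * (k + 1) / 2) / (((x + 1 : ℕ) : ℝ) * ((L : ℝ) + 1)) ≤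
        ((k : ℝ) * (k + 1) / 2) / (x * ((L : ℝ) + 1)) := by
      apply div_le_div_of_nonneg_left (by positivity) (by positivity)
      push_cast
      nlinarith
    have h6 : (((k + 1 : ℕ) : ℝ) * ((k + 1 : ℕ) + 1) / 2) / (x * ((L : ℝ) + 1)) =
        ((k : ℝ) * (k + 1) / 2) / (x * ((L : ℝ) + 1)) + ((k : ℝ) + 1) / (x * ((L : ℝ) + 1)) := by
      rw [← add_div]
      congr 1
      push_cast
      ring
    rw [h6]
    linarith

theorem Fill_gapl_le {l J L x : ℕ} (hl : 1 ≤ l) (h1 : l ≤ x) (h2 : x ≤ l + J) (h3 : l ≤ L)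
    (h4 : L ≤ l + J) : gapl L x ≤ ((J : ℝ) / l) ^ 2 := by
  have hl' : (0 : ℝ) < l := by exact_mod_cast hl
  have hx' : (l : ℝ) ≤ x := by exact_mod_cast h1
  have hL' : (l : ℝ) ≤ L := by exact_mod_cast h3
  have hx0 : (0 : ℝ) < x := by linarith
  have hL0 : (0 : ℝ) < L := by linarith
  rcases le_total x L with h | h
  · have h5 := Fill_gapl_down (L - x) L x (by omega) (by omega)
    refine h5.trans ?_
    rcases Nat.eq_zero_or_pos (L - x) with h0 | h0
    · rw [h0]
      simp
      positivity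
    · have hk : ((L - x : ℕ) : ℝ) ≤ J := by
        have : L - x ≤ J := by omega
        exact_mod_cast this
      have hk1 : (1 : ℝ) ≤ ((L - x : ℕ) : ℝ) := by exact_mod_cast h0
      rw [div_pow]
      apply div_le_div₀ (by positivity) _ (by positivity) _
      · nlinarith
      · nlinarith
  · -- above the average
    have hxL : (L : ℝ) ≤ x := by exact_mod_cast h
    have a1 : Real.log (((L : ℝ) + 1) / L) ≤ 1 / L := by
      refine (Real.log_le_sub_one_of_pos (by positivity)).trans (le_of_eq ?_)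
      field_simp
      ring
    have a2 : 1 - (L : ℝ) / x ≤ Real.log x - Real.log L := by
      rw [← Real.log_div hx0.ne' hL0.ne']
      have := Real.one_sub_inv_le_log_of_pos (x := (x : ℝ) / L) (by positivity)
      rwa [inv_div] at this
    have a3 : ((x : ℝ) - L) * Real.log (((L : ℝ) + 1) / L) ≤ ((x : ℝ) - L) * (1 / L) :=
      mul_le_mul_of_nonneg_left a1 (by linarith)
    have a4 : gapl L x ≤ ((x : ℝ) - L) ^ 2 / (L * x) := by
      unfold gapl
      have : ((x : ℝ) - L) ^ 2 / (L * x) = ((x : ℝ) - L) * (1 / L) - (1 - (L : ℝ) / x) := by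
        field_simp
      rw [this]
      linarith
    refine a4.trans ?_
    have a5 : (x : ℝ) - L ≤ J := by
      have : (x : ℝ) ≤ l + J := by exact_mod_cast h2
      linarith
    rw [div_pow]
    apply div_le_div₀ (by positivity) _ (by positivity) _
    · exact pow_le_pow_left₀ (by linarith) a5 2
    · nlinarith

/-- exact volume of a state -/
theorem Fill_log_prod (hd : 1 ≤ d) (x : Fin d → ℕ) (hx : ∀ m, 1 ≤ x m) :
    Real.log (∏ m, (x m : ℝ)) =
      sfun d (∑ m, (x m - 1)) - ∑ m, gap d (∑ m, (x m - 1)) (x m) := by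
  set t := ∑ m, (x m - 1) with ht
  have h0 : Real.log (∏ m, (x m : ℝ)) = ∑ m, Real.log (x m) := by
    rw [Real.log_prod]
    intro i _
    have := hx i
    have h : x i ≠ 0 := by omega
    exact_mod_cast h
  have hsum : ∑ m, x m = t + d := by
    rw [ht]
    have : ∀ m, x m = (x m - 1) + 1 := fun m => by
      have := hx m
      omega
    conv_lhs => rw [Finset.sum_congr rfl fun m _ => this m]
    rw [Finset.sum_add_distrib]
    simp
  rw [h0]
  unfold gap
  rw [Finset.sum_sub_distrib, Finset.sum_add_distrib, ← Finset.sum_mul, Finset.sum_sub_distrib]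
  have h2 : ∑ i, (x i : ℝ) = t + d := by exact_mod_cast hsum
  rw [h2]
  have hq1 : (t / d) * d ≤ t := Nat.div_mul_le_self _ _
  have hq2 : t ≤ (t / d + 1) * d := by
    have := Nat.lt_mul_of_div_lt (Nat.lt_succ_self (t / d)) hd
    exact this.le
  rw [sfun_eq d t hd (t / d) hq1 hq2]
  have e1 : (lev d t : ℝ) = ((t / d : ℕ) : ℝ) + 1 := by
    unfold lev
    push_cast
    rfl
  have hpos : (0 : ℝ) < lev d t := by
    rw [e1]
    positivity
  rw [Real.log_div (by positivity) (by positivity), e1]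
  unfold vslope
  simp only [Finset.sum_const, Finset.card_univ, Fintype.card_fin, nsmul_eq_mul]
  ring_nf

theorem Fill_vol {l J : ℕ} (hl : 1 ≤ l) (x : Fin d → ℕ) (h1 : ∀ m, l ≤ x m)
    (h2 : ∀ m, x m ≤ l + J) :
    Real.exp (sfun d (∑ m, (x m - 1)) - d * ((J : ℝ) / l) ^ 2) ≤ ∏ m, (x m : ℝ) := by
  have hpos : 0 < ∏ m, (x m : ℝ) := by
    refine Finset.prod_pos fun m _ => ?_
    have := h1 m
    have : 0 < x m := by omega
    exact_mod_cast this
  rw [← Real.exp_log hpos]
  apply Real.exp_le_exp.2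
  rcases Nat.eq_zero_or_pos d with hd | hd
  · subst hd
    simp [sfun]
  · rw [Fill_log_prod hd x fun m => hl.trans (h1 m)]
    set t := ∑ m, (x m - 1) with ht
    have hb1 : (l - 1) * d ≤ t := by
      rw [ht, mul_comm]
      have : ∑ _m : Fin d, (l - 1) ≤ ∑ m, (x m - 1) :=
        Finset.sum_le_sum fun m _ => Nat.sub_le_sub_right (h1 m) 1
      simpa using this
    have hb2 : t ≤ (l + J - 1) * d := by
      rw [ht, mul_comm]
      have : ∑ m, (x m - 1) ≤ ∑ _m : Fin d, (l + J - 1) :=
        Finset.sum_le_sum fun m _ => Nat.sub_le_sub_right (h2 m) 1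
      simpa using this
    have hL1 : l ≤ lev d t := by
      unfold lev
      have : l - 1 ≤ t / d := (Nat.le_div_iff_mul_le hd).mpr hb1
      omega
    have hL2 : lev d t ≤ l + J := by
      unfold lev
      have : t / d ≤ l + J - 1 := by
        calc t / d ≤ ((l + J - 1) * d) / d := Nat.div_le_div_right hb2
          _ = l + J - 1 := Nat.mul_div_cancel _ hd
      omega
    have hg : ∑ m, gap d t (x m) ≤ ∑ _m : Fin d, ((J : ℝ) / l) ^ 2 := by
      refine Finset.sum_le_sum fun m _ => ?_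
      rw [Fill_gap_eq]
      exact Fill_gapl_le hl (h1 m) (h2 m) hL1 hL2
    simp only [Finset.sum_const, Finset.card_univ, Fintype.card_fin, nsmul_eq_mul] at hg
    linarith

/-- the induction -/
theorem Fill_aux {p : ℝ} (hp0 : 0 ≤ p) (hp1 : p ≤ 1) {z : Vtx n d} {x₁ : Fin d → ℕ}
    {l y J : ℕ} (hl : 1 ≤ l) (hy : ∀ m, x₁ m ≤ y) (hyJ : y ≤ l + J) (hroom : Room (y + 1) z)
    (k : ℕ) : ∀ x₀ : Fin d → ℕ, (∀ m, x₀ m ≤ x₁ m) → (∀ m, l ≤ x₀ m) →
    ∑ m, (x₁ m - x₀ m) = 2 * k → (∀ m, x₁ m - x₀ m ≤ k) →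
    Reach p z (fun x => x = x₀) (fun x => x = x₁)
      (∏ i ∈ Finset.range k,
        fch p (Real.exp (sfun d (∑ m, (x₀ m - 1) + 2 * i) - d * ((J : ℝ) / l) ^ 2)) y) := by
  induction k with
  | zero =>
    intro x₀ h01 _ _ hmax
    rw [Finset.range_zero, Finset.prod_empty]
    apply l9_reach_refl
    intro x hx
    rw [hx]
    funext m
    have := hmax m
    have := h01 m
    omega
  | succ k ih =>
    intro x₀ h01 hl0 hsum hmax
    -- the first direction
    obtain ⟨i, -, hi⟩ : ∃ i ∈ (Finset.univ : Finset (Fin d)),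
        ∀ m ∈ (Finset.univ : Finset (Fin d)), x₁ m - x₀ m ≤ x₁ i - x₀ i := by
      apply Finset.exists_max_image
      by_contra hne
      rw [Finset.not_nonempty_iff_eq_empty] at hne
      rw [hne, Finset.sum_empty] at hsum
      omega
    have hisum : ∑ m, (x₁ m - x₀ m) = (x₁ i - x₀ i) +
        ∑ m ∈ Finset.univ.erase i, (x₁ m - x₀ m) :=
      (Finset.add_sum_erase _ _ (Finset.mem_univ i)).symm
    obtain ⟨j, hj, hjmax⟩ : ∃ j ∈ Finset.univ.erase i,
        ∀ m ∈ Finset.univ.erase i, x₁ m - x₀ m ≤ x₁ j - x₀ j := by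
      apply Finset.exists_max_image
      by_contra hne
      rw [Finset.not_nonempty_iff_eq_empty] at hne
      rw [hne, Finset.sum_empty] at hisum
      have := hmax i
      omega
    have hji : j ≠ i := Finset.ne_of_mem_erase hj
    have hjsum : ∑ m ∈ Finset.univ.erase i, (x₁ m - x₀ m) = (x₁ j - x₀ j) +
        ∑ m ∈ (Finset.univ.erase i).erase j, (x₁ m - x₀ m) :=
      (Finset.add_sum_erase _ _ hj).symm
    have hi0 : 0 < x₁ i - x₀ i := by
      by_contra h0
      have : ∑ m, (x₁ m - x₀ m) = 0 := Finset.sum_eq_zero fun m hm => by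
        have := hi m hm
        omega
      omega
    have hj0 : 0 < x₁ j - x₀ j := by
      by_contra h0
      have : ∑ m ∈ Finset.univ.erase i, (x₁ m - x₀ m) = 0 :=
        Finset.sum_eq_zero fun m hm => by
          have := hjmax m hm
          omega
      have := hmax i
      omega
    have hrest : ∀ m, m ≠ i → m ≠ j → x₁ m - x₀ m ≤ k := by
      intro m hmi hmj
      have hm : m ∈ (Finset.univ.erase i).erase j := by simp [hmi, hmj]
      have h1 : x₁ m - x₀ m ≤ ∑ m ∈ (Finset.univ.erase i).erase j, (x₁ m - x₀ m) :=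
        Finset.single_le_sum (f := fun m => x₁ m - x₀ m) (fun _ _ => Nat.zero_le _) hm
      have h2 := hi m (Finset.mem_univ _)
      have h3 := hjmax m (Finset.mem_of_mem_erase hm)
      omega
    set x₀' : Fin d → ℕ := fun m => x₀ m + if m = i ∨ m = j then 1 else 0 with hx₀'
    have hxi : x₀' i = x₀ i + 1 := by simp [hx₀']
    have hxj : x₀' j = x₀ j + 1 := by simp [hx₀']
    have hxm : ∀ m, m ≠ i → m ≠ j → x₀' m = x₀ m := by
      intro m hmi hmj
      simp [hx₀', hmi, hmj]
    have h01' : ∀ m, x₀' m ≤ x₁ m := by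
      intro m
      by_cases hmi : m = i
      · subst hmi
        rw [hxi]
        omega
      · by_cases hmj : m = j
        · subst hmj
          rw [hxj]
          omega
        · rw [hxm m hmi hmj]
          exact h01 m
    have hl0' : ∀ m, l ≤ x₀' m := fun m => (hl0 m).trans (Nat.le_add_right _ _)
    have hsum' : ∑ m, (x₁ m - x₀' m) = 2 * k := by
      have e1 : ∑ m, (x₁ m - x₀' m) = (x₁ i - x₀' i) + ((x₁ j - x₀' j) +
          ∑ m ∈ (Finset.univ.erase i).erase j, (x₁ m - x₀' m)) := by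
        rw [Finset.add_sum_erase _ (fun m => x₁ m - x₀' m) hj,
          Finset.add_sum_erase _ (fun m => x₁ m - x₀' m) (Finset.mem_univ i)]
      have e2 : ∑ m ∈ (Finset.univ.erase i).erase j, (x₁ m - x₀' m) =
          ∑ m ∈ (Finset.univ.erase i).erase j, (x₁ m - x₀ m) := by
        refine Finset.sum_congr rfl fun m hm => ?_
        rw [hxm m (Finset.ne_of_mem_erase (Finset.mem_of_mem_erase hm))
          (Finset.ne_of_mem_erase hm)]
      rw [e1, e2, hxi, hxj]
      omega
    have hmax' : ∀ m, x₁ m - x₀' m ≤ k := by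
      intro m
      by_cases hmi : m = i
      · subst hmi
        rw [hxi]
        have := hmax m
        omega
      · by_cases hmj : m = j
        · subst hmj
          rw [hxj]
          have := hmax m
          omega
        · rw [hxm m hmi hmj]
          exact hrest m hmi hmj
    have hrec := ih x₀' h01' hl0' hsum' hmax'
    have ht : ∑ m, (x₀' m - 1) = ∑ m, (x₀ m - 1) + 2 := by
      have e1 : ∀ m, x₀' m - 1 = (x₀ m - 1) + if m = i ∨ m = j then 1 else 0 := by
        intro m
        have := hl0 m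
        simp only [hx₀']
        omega
      rw [Finset.sum_congr rfl fun m _ => e1 m, Finset.sum_add_distrib]
      congr 1
      rw [Finset.sum_boole]
      have : Finset.univ.filter (fun m => m = i ∨ m = j) = {i, j} := by
        ext m
        simp
      rw [this, Finset.card_pair hji.symm]
      rfl
    have hstep := reach_chain hp0 hp1 (x := x₀) (y := y) (fun m => (h01 m).trans (hy m)) hroom
      hji.symm
    have hvol := Fill_vol hl x₀ hl0 (fun m => ((h01 m).trans (hy m)).trans hyJ)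
    have hstep' : Reach p z (fun x => x = x₀) (fun x => x = x₀')
        (fch p (Real.exp (sfun d (∑ m, (x₀ m - 1)) - d * ((J : ℝ) / l) ^ 2)) y) :=
      l9_reach_mono hstep (l9_fch_mono hp0 hvol y)
    have hnn : ∀ i, 0 ≤ fch p (Real.exp (sfun d (∑ m, (x₀' m - 1) + 2 * i) -
        d * ((J : ℝ) / l) ^ 2)) y := fun i => l9_fch_nonneg hp0 (Real.exp_pos _).le y
    have hcomb := reach_trans (Finset.prod_nonneg fun i _ => hnn i) hstep' hrec
    rw [Finset.prod_range_succ']
    rw [mul_comm] at hcomb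
    refine l9_reach_mono hcomb (le_of_eq ?_)
    congr 1
    refine Finset.prod_congr rfl fun i _ => ?_
    rw [ht]
    congr 4
    ring

/-- steps with prescribed directions leading from `x₀` to `x₁` -/
theorem reach_fill {p : ℝ} (hp0 : 0 ≤ p) (hp1 : p ≤ 1) {z : Vtx n d} {x₀ x₁ : Fin d → ℕ}
    {l y J : ℕ} (hl : 1 ≤ l) (h01 : ∀ m, x₀ m ≤ x₁ m) (hl0 : ∀ m, l ≤ x₀ m)
    (hy : ∀ m, x₁ m ≤ y) (hyJ : y ≤ l + J) (hev : Even (∑ m, (x₁ m - x₀ m)))
    (hmax : ∃ i j, i ≠ j ∧ ∀ m, x₁ m - x₀ m ≤ x₁ i - x₀ i ∧ x₁ m - x₀ m ≤ x₁ j - x₀ j)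
    (hroom : Room (y + 1) z) :
    Reach p z (fun x => x = x₀) (fun x => x = x₁)
      (∏ i ∈ Finset.range ((∑ m, (x₁ m - x₀ m)) / 2),
        fch p (Real.exp (sfun d (∑ m, (x₀ m - 1) + 2 * i) - d * ((J : ℝ) / l) ^ 2)) y) := by
  obtain ⟨k, hk⟩ := hev
  have hk2 : (∑ m, (x₁ m - x₀ m)) / 2 = k := by omega
  rw [hk2]
  refine Fill_aux hp0 hp1 hl hy hyJ hroom k x₀ h01 hl0 (by omega) ?_
  obtain ⟨i, j, hij, h⟩ := hmax
  intro m
  have h1 : (x₁ i - x₀ i) + (x₁ j - x₀ j) ≤ ∑ m, (x₁ m - x₀ m) := by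
    rw [← Finset.sum_pair (f := fun m => x₁ m - x₀ m) hij]
    exact Finset.sum_le_sum_of_subset (Finset.subset_univ _)
  have h2 := h m
  omega

end Pool.Agent.Lib.MP_8501c9_pr.Wide
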