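import Pool.Agent.Lib.MP_8501c9_pr.Wide.Defs
import Pool.Agent.Lib.MP_8501c9_pr.Mid.Ext2
import Pool.Agent.Lib.MP_8501c9_pr.Mid.Counts
import Pool.Agent.Lib.MP_8501c9_pr.Mid.Level

/-!
# Counting the points which become visible (task V3)
-/

set_option autoImplicit false
open Set

namespace Pool.Agent.Lib.MP_8501c9_pr.Wide

open Pool.Agent.Lib.MP_8501c9_pr Pool.Agent.Lib.MP_8501c9_pr.Mid

variable {n d : ℕ}

/-- number of pair births (upper bound) -/
noncomputable def n2 (Q Q' : BoxT n d) (i j : Fin d) : ℝ :=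
  4 * (vol Q' / ((sd Q' i : ℝ) * sd Q' j)) * (∑ m, ((sd Q' m : ℝ) - sd Q m) / sd Q' m +
    (if sd Q i < sd Q' i then 1 else 0) + (if sd Q j < sd Q' j then 1 else 0))

/-- number of straight births (upper bound) -/
noncomputable def n1 (Q Q' : BoxT n d) (i : Fin d) : ℝ :=
  2 * (vol Q' / (sd Q' i : ℝ)) * (∑ m, ((sd Q' m : ℝ) - sd Q m) / sd Q' m +
    (if sd Q i < sd Q' i then 1 else 0))

/-! ### shapes -/

/-- the vector of a direction, or zero -/
def v3_s : Option (Fin d) → Fin d → ℕ
  | none => 0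
  | some i => Pi.single i 1

theorem v3_shape_one {o : Fin d → ℕ} (h : ∑ m, o m ≤ 1) : ∃ j, o = v3_s j := by
  by_cases h0 : ∀ m, o m = 0
  · exact ⟨none, funext h0⟩
  · push Not at h0
    obtain ⟨j, hj⟩ := h0
    refine ⟨some j, ?_⟩
    funext m
    rw [← Finset.add_sum_erase _ _ (Finset.mem_univ j)] at h
    by_cases hm : m = j
    · subst hm
      simp only [v3_s, Pi.single_eq_same]
      omega
    · have h2 := Finset.single_le_sum (f := o) (fun a _ => Nat.zero_le _)
        (Finset.mem_erase.2 ⟨hm, Finset.mem_univ m⟩)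
      simp only [v3_s, Pi.single_eq_of_ne hm]
      omega

theorem v3_sum_single (i : Fin d) (c : ℕ) : ∑ m, (Pi.single i c : Fin d → ℕ) m = c := by
  rw [Finset.sum_pi_single']
  simp

theorem v3_shape_two {o : Fin d → ℕ} (h : ∑ m, o m ≤ 2) (i : Fin d) (hi : 1 ≤ o i) :
    ∃ j, o = Pi.single i 1 + v3_s j := by
  have h1 : o = Pi.single i 1 + (o - (Pi.single i 1 : Fin d → ℕ)) := by
    funext m
    by_cases hm : m = i
    · subst hm
      simp only [Pi.add_apply, Pi.sub_apply, Pi.single_eq_same]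
      omega
    · simp only [Pi.add_apply, Pi.sub_apply, Pi.single_eq_of_ne hm]
      omega
  have h2 : ∑ m, (o - (Pi.single i 1 : Fin d → ℕ)) m ≤ 1 := by
    have h3 : ∑ m, o m = ∑ m, (Pi.single i 1 : Fin d → ℕ) m + ∑ m, (o - (Pi.single i 1 : Fin d → ℕ)) m := by
      rw [← Finset.sum_add_distrib]
      exact Finset.sum_congr rfl fun m _ => congrFun h1 m
    rw [v3_sum_single] at h3
    omega
  obtain ⟨j, hj⟩ := v3_shape_one h2
  exact ⟨j, by rw [← hj]; exact h1⟩

theorem v3_shape {o : Fin d → ℕ} (h : ∑ m, o m ≤ 2) : ∃ i j, o = v3_s i + v3_s j := by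
  by_cases h0 : ∀ m, o m = 0
  · refine ⟨none, none, ?_⟩
    funext m
    simp [v3_s, h0 m]
  · push Not at h0
    obtain ⟨i, hi⟩ := h0
    obtain ⟨j, hj⟩ := v3_shape_two h i (by omega)
    exact ⟨some i, j, hj⟩

theorem v3_sum_s (j : Option (Fin d)) : ∑ m, (v3_s j : Fin d → ℕ) m ≤ 1 := by
  cases j with
  | none => simp [v3_s]
  | some j => exact (v3_sum_single j 1).le

theorem v3_eq_of_le {e o : Fin d → ℕ} (h : ∀ m, e m ≤ o m) (hs : ∑ m, o m ≤ ∑ m, e m) :
    e = o := by
  by_contra hne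
  have : ∃ m, e m ≠ o m := by
    by_contra hc
    push Not at hc
    exact hne (funext hc)
  obtain ⟨m, hm⟩ := this
  have hlt : ∑ m, e m < ∑ m, o m :=
    Finset.sum_lt_sum (fun a _ => h a) ⟨m, Finset.mem_univ _, lt_of_le_of_ne (h m) hm⟩
  omega

/-! ### counting -/

theorem v3_prod (s : Fin d → ℝ) (A : Finset (Vtx n d)) (T : Fin d → Finset (Fin n))
    (hA : ∀ x ∈ A, ∀ m, x m ∈ T m) (f : Fin d → ℝ) (hf : ∀ m, ((T m).card : ℝ) ≤ s m * f m) :
    (A.card : ℝ) ≤ (∏ m, s m) * ∏ m, f m := by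
  have h1 : A ⊆ Fintype.piFinset T := by
    intro x hx
    rw [Fintype.mem_piFinset]
    exact hA x hx
  have h2 : (A.card : ℝ) ≤ ∏ m, ((T m).card : ℝ) := by
    have := Finset.card_le_card h1
    rw [Fintype.card_piFinset] at this
    exact_mod_cast this
  refine h2.trans ?_
  rw [← Finset.prod_mul_distrib]
  exact Finset.prod_le_prod (fun m _ => Nat.cast_nonneg _) fun m _ => hf m

/-- the points of a direction with given distance to the box -/
def v3_T (Q : BoxT n d) (o : Fin d → ℕ) (m : Fin d) : Finset (Fin n) :=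
  Finset.univ.filter (fun a : Fin n => ((Q.1 m : ℕ) - a) + ((a : ℕ) - Q.2 m) = o m)

theorem v3_mem_T (Q : BoxT n d) (x : Vtx n d) (m : Fin d) : x m ∈ v3_T Q (out Q x) m := by
  unfold v3_T
  rw [Finset.mem_filter]
  exact ⟨Finset.mem_univ _, rfl⟩

theorem v3_T_zero {Q : BoxT n d} (hQ : Q.1 ≤ Q.2) {o : Fin d → ℕ} {m : Fin d} (h : o m = 0) :
    ((v3_T Q o m).card : ℝ) ≤ sd Q m := by
  unfold v3_T
  rw [h]
  exact_mod_cast d_card_zero (d_le hQ m)

theorem v3_T_pos {Q : BoxT n d} (hQ : Q.1 ≤ Q.2) {o : Fin d → ℕ} {m : Fin d} (h : 1 ≤ o m) :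
    ((v3_T Q o m).card : ℝ) ≤ 2 := by
  unfold v3_T
  exact_mod_cast d_card_two (d_le hQ m) h

theorem v3_sd_pos (Q : BoxT n d) (m : Fin d) : (1 : ℝ) ≤ sd Q m := by
  exact_mod_cast d_sd_pos Q m

/-- points of the larger box outside the smaller one in the direction `m` -/
theorem v3_T_new {Q Q' : BoxT n d} (hQ : Q.1 ≤ Q.2) (h1 : Sub Q Q') (m : Fin d) :
    (((v3_T Q' 0 m).filter (fun a : Fin n => a < Q.1 m ∨ Q.2 m < a)).card : ℝ) ≤
      (sd Q' m : ℝ) - sd Q m := by
  have hl := d_le hQ m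
  have a1 : (Q'.1 m : ℕ) ≤ Q.1 m := h1.1 m
  have a2 : (Q.2 m : ℕ) ≤ Q'.2 m := h1.2 m
  have hsub : (v3_T Q' 0 m).filter (fun a : Fin n => a < Q.1 m ∨ Q.2 m < a) ⊆
      Finset.Icc (Q'.1 m) (Q'.2 m) \ Finset.Icc (Q.1 m) (Q.2 m) := by
    intro a ha
    unfold v3_T at ha
    rw [Finset.mem_filter, Finset.mem_filter] at ha
    rw [Finset.mem_sdiff, Finset.mem_Icc, Finset.mem_Icc]
    have h3 := ha.1.2
    have h4 := ha.2
    simp only [Pi.zero_apply] at h3
    rw [Fin.lt_def, Fin.lt_def] at h4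
    rw [Fin.le_def, Fin.le_def, Fin.le_def, Fin.le_def]
    omega
  have h3 := Finset.card_le_card hsub
  have hsub2 : Finset.Icc (Q.1 m) (Q.2 m) ⊆ Finset.Icc (Q'.1 m) (Q'.2 m) :=
    Finset.Icc_subset_Icc (h1.1 m) (h1.2 m)
  rw [Finset.card_sdiff_of_subset hsub2, Fin.card_Icc, Fin.card_Icc] at h3
  have h4 : ((v3_T Q' 0 m).filter (fun a : Fin n => a < Q.1 m ∨ Q.2 m < a)).card + sd Q m ≤
      sd Q' m := by
    unfold sd
    omega
  have h5 : (((v3_T Q' 0 m).filter (fun a : Fin n => a < Q.1 m ∨ Q.2 m < a)).card : ℝ) + sd Q m ≤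
      sd Q' m := by
    exact_mod_cast h4
  linarith

theorem v3_prod_ite (i : Fin d) (c : ℝ) : ∏ m : Fin d, (if m = i then c else 1) = c := by
  rw [Finset.prod_ite_eq' Finset.univ i (fun _ => c)]
  simp

/-- the number of points with given distances is at most four times the volume -/
theorem v3_card_s {Q : BoxT n d} (hQ : Q.1 ≤ Q.2) (i j : Option (Fin d)) (A : Finset (Vtx n d))
    (hA : ∀ x ∈ A, out Q x = v3_s i + v3_s j) : (A.card : ℝ) ≤ 4 * vol Q := by
  have key : (A.card : ℝ) ≤ (∏ m, (sd Q m : ℝ)) *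
      ∏ m, ((if some m = i then (2 : ℝ) else 1) * (if some m = j then (2 : ℝ) else 1)) := by
    refine v3_prod _ A (v3_T Q (v3_s i + v3_s j)) (fun x hx m => ?_) _ fun m => ?_
    · have := v3_mem_T Q x m
      rw [hA x hx] at this
      exact this
    · have hs := v3_sd_pos Q m
      rcases Nat.eq_zero_or_pos ((v3_s i + v3_s j) m) with h0 | h0
      · refine (v3_T_zero hQ h0).trans ?_
        refine le_mul_of_one_le_right (by linarith) ?_
        split_ifs <;> norm_num
      · refine (v3_T_pos hQ h0).trans ?_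
        have h1 : some m = i ∨ some m = j := by
          by_contra hc
          push Not at hc
          have e1 : v3_s i m = 0 := by
            cases i with
            | none => rfl
            | some i =>
              have : m ≠ i := fun h => hc.1 (by rw [h])
              simp [v3_s, Pi.single_eq_of_ne this]
          have e2 : v3_s j m = 0 := by
            cases j with
            | none => rfl
            | some j =>
              have : m ≠ j := fun h => hc.2 (by rw [h])
              simp [v3_s, Pi.single_eq_of_ne this]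
          rw [Pi.add_apply, e1, e2] at h0
          omega
        rcases h1 with h1 | h1
        · rw [if_pos h1]
          split_ifs <;> nlinarith
        · rw [if_pos h1]
          split_ifs <;> nlinarith
  refine key.trans ?_
  rw [Finset.prod_mul_distrib]
  have h2 : ∀ i : Option (Fin d), ∏ m : Fin d, (if some m = i then (2 : ℝ) else 1) ≤ 2 := by
    intro i
    cases i with
    | none => simp
    | some i =>
      have : ∀ m : Fin d, (if some m = some i then (2 : ℝ) else 1) = if m = i then 2 else 1 := by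
        intro m
        simp
      simp only [this]
      rw [v3_prod_ite]
  have h3 : ∀ i : Option (Fin d), 0 ≤ ∏ m : Fin d, (if some m = i then (2 : ℝ) else 1) := by
    intro i
    refine Finset.prod_nonneg fun m _ => ?_
    split_ifs <;> norm_num
  have hv : 0 < ∏ m, (sd Q m : ℝ) := d_vol_pos Q
  have h4 : (∏ m : Fin d, (if some m = i then (2 : ℝ) else 1)) *
      (∏ m : Fin d, (if some m = j then (2 : ℝ) else 1)) ≤ 2 * 2 :=
    mul_le_mul (h2 i) (h2 j) (h3 j) (by norm_num)
  unfold vol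
  nlinarith

theorem v3_card_all {Q : BoxT n d} (hQ : Q.1 ≤ Q.2) (A : Finset (Vtx n d))
    (hA : ∀ x ∈ A, ∑ m, out Q x m ≤ 2) : (A.card : ℝ) ≤ 4 * ((d : ℝ) + 1) ^ 2 * vol Q := by
  classical
  have hsub : A ⊆ (Finset.univ : Finset (Option (Fin d) × Option (Fin d))).biUnion
      (fun P => A.filter (fun x => out Q x = v3_s P.1 + v3_s P.2)) := by
    intro x hx
    obtain ⟨i, j, hij⟩ := v3_shape (hA x hx)
    rw [Finset.mem_biUnion]
    exact ⟨(i, j), Finset.mem_univ _, Finset.mem_filter.2 ⟨hx, hij⟩⟩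
  have h1 := (Finset.card_le_card hsub).trans Finset.card_biUnion_le
  have h2 : (A.card : ℝ) ≤ ∑ P : Option (Fin d) × Option (Fin d),
      ((A.filter (fun x => out Q x = v3_s P.1 + v3_s P.2)).card : ℝ) := by
    exact_mod_cast h1
  refine h2.trans ((Finset.sum_le_card_nsmul _ _ (4 * vol Q) fun P _ => ?_).trans (le_of_eq ?_))
  · exact v3_card_s hQ P.1 P.2 _ fun x hx => (Finset.mem_filter.1 hx).2
  · rw [Finset.card_univ, Fintype.card_prod, Fintype.card_option, Fintype.card_fin, nsmul_eq_mul]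
    push_cast
    ring

theorem v3_card_dir {Q : BoxT n d} (hQ : Q.1 ≤ Q.2) (A : Finset (Vtx n d)) (i : Fin d)
    (hA : ∀ x ∈ A, ∑ m, out Q x m ≤ 2) (hi : ∀ x ∈ A, 1 ≤ out Q x i) :
    (A.card : ℝ) ≤ 4 * ((d : ℝ) + 1) * vol Q := by
  classical
  have hsub : A ⊆ (Finset.univ : Finset (Option (Fin d))).biUnion
      (fun j => A.filter (fun x => out Q x = v3_s (some i) + v3_s j)) := by
    intro x hx
    obtain ⟨j, hij⟩ := v3_shape_two (hA x hx) i (hi x hx)
    rw [Finset.mem_biUnion]
    exact ⟨j, Finset.mem_univ _, Finset.mem_filter.2 ⟨hx, hij⟩⟩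
  have h1 := (Finset.card_le_card hsub).trans Finset.card_biUnion_le
  have h2 : (A.card : ℝ) ≤ ∑ j : Option (Fin d),
      ((A.filter (fun x => out Q x = v3_s (some i) + v3_s j)).card : ℝ) := by
    exact_mod_cast h1
  refine h2.trans ((Finset.sum_le_card_nsmul _ _ (4 * vol Q) fun P _ => ?_).trans (le_of_eq ?_))
  · exact v3_card_s hQ (some i) P _ fun x hx => (Finset.mem_filter.1 hx).2
  · rw [Finset.card_univ, Fintype.card_option, Fintype.card_fin, nsmul_eq_mul]
    push_cast
    ring

/-! ### the general splitting -/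

theorem v3_split {Q' X : BoxT n d} (hQ' : Q'.1 ≤ Q'.2) (h2 : Sub Q' X) (B : Finset (Vtx n d))
    (hB : ∀ b ∈ B, ∑ m, out Q' b m ≤ 2)
    (Γ : (Fin d → ℕ) → ℝ) (hΓ : ∀ x, 0 ≤ Γ x) (N₂ : Fin d → Fin d → ℝ) (N₁ : Fin d → ℝ)
    (hN₂ : ∀ i j : Fin d, i < j →
      ((B.filter (fun b => out Q' b = Pi.single i 1 + Pi.single j 1)).card : ℝ) ≤ N₂ i j)
    (hN₁ : ∀ i : Fin d, ((B.filter (fun b => out Q' b = Pi.single i 2)).card : ℝ) ≤ N₁ i) :
    ∑ b ∈ B, Γ (sd (ext X b)) ≤
      ∑ P : Fin d × Fin d with P.1 < P.2,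
        N₂ P.1 P.2 * Γ (sd X + Pi.single P.1 1 + Pi.single P.2 1) +
      ∑ i, N₁ i * Γ (sd X + Pi.single i 2) +
      ∑ i, 4 * ((d : ℝ) + 1) * vol Q' * Γ (sd X + Pi.single i 1) +
      4 * ((d : ℝ) + 1) ^ 2 * vol Q' * Γ (sd X) := by
  classical
  have hX : X.1 ≤ X.2 := h2.1.trans (hQ'.trans h2.2)
  -- the pointwise bound
  have hpt : ∀ b ∈ B, Γ (sd (ext X b)) ≤
      ∑ P : Fin d × Fin d with P.1 < P.2, (if out Q' b = Pi.single P.1 1 + Pi.single P.2 1 then
        Γ (sd X + Pi.single P.1 1 + Pi.single P.2 1) else 0) +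
      ∑ i, (if out Q' b = Pi.single i 2 then Γ (sd X + Pi.single i 2) else 0) +
      ∑ i, (if 1 ≤ out Q' b i then Γ (sd X + Pi.single i 1) else 0) + Γ (sd X) := by
    intro b hb
    have hsd : sd (ext X b) = sd X + out X b := by
      funext m
      exact d_sd_ext hX b m
    have hle : ∀ m, out X b m ≤ out Q' b m := fun m => b_out_mono h2.1 h2.2 b m
    have ho := hB b hb
    have hes : ∑ m, out X b m ≤ 2 := (Finset.sum_le_sum fun m _ => hle m).trans ho
    have n1' : 0 ≤ ∑ P : Fin d × Fin d with P.1 < P.2,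
        (if out Q' b = Pi.single P.1 1 + Pi.single P.2 1 then
        Γ (sd X + Pi.single P.1 1 + Pi.single P.2 1) else 0) := by
      refine Finset.sum_nonneg fun P _ => ?_
      split_ifs
      · exact hΓ _
      · exact le_rfl
    have n2' : 0 ≤ ∑ i, (if out Q' b = Pi.single i 2 then Γ (sd X + Pi.single i 2) else 0) := by
      refine Finset.sum_nonneg fun P _ => ?_
      split_ifs
      · exact hΓ _
      · exact le_rfl
    have n3' : 0 ≤ ∑ i, (if 1 ≤ out Q' b i then Γ (sd X + Pi.single i 1) else 0) := by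
      refine Finset.sum_nonneg fun P _ => ?_
      split_ifs
      · exact hΓ _
      · exact le_rfl
    have n4' := hΓ (sd X)
    rw [hsd]
    by_cases h0 : ∀ m, out X b m = 0
    · have : sd X + out X b = sd X := by
        funext m
        simp [h0 m]
      rw [this]
      linarith
    · push Not at h0
      obtain ⟨i, hi⟩ := h0
      obtain ⟨j, hj⟩ := v3_shape_two hes i (by omega)
      cases j with
      | none =>
        have hoi : 1 ≤ out Q' b i := by
          have := hle i
          omega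
        have e1 : out X b = Pi.single i 1 := by
          rw [hj]
          simp [v3_s]
        rw [e1]
        have := Finset.single_le_sum
          (f := fun i => (if 1 ≤ out Q' b i then Γ (sd X + Pi.single i 1) else 0))
          (fun a _ => by
            try dsimp only
            split_ifs
            · exact hΓ _
            · exact le_rfl) (Finset.mem_univ i)
        try dsimp only at this
        rw [if_pos hoi] at this
        linarith
      | some j =>
        have e0 : out X b = Pi.single i 1 + Pi.single j 1 := hj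
        have hse : ∑ m, out X b m = 2 := by
          rw [e0]
          simp only [Pi.add_apply]
          rw [Finset.sum_add_distrib, v3_sum_single, v3_sum_single]
        have e1 : out X b = out Q' b := v3_eq_of_le hle (by omega)
        rcases lt_trichotomy i j with hij | hij | hij
        · have := Finset.single_le_sum
            (f := fun P : Fin d × Fin d => (if out Q' b = Pi.single P.1 1 + Pi.single P.2 1 then
              Γ (sd X + Pi.single P.1 1 + Pi.single P.2 1) else 0))
            (fun a _ => by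
              try dsimp only
              split_ifs
              · exact hΓ _
              · exact le_rfl) (show (i, j) ∈ Finset.univ.filter
                (fun P : Fin d × Fin d => P.1 < P.2) by simp [hij])
          try dsimp only at this
          rw [if_pos (by rw [← e1, e0])] at this
          rw [e0, ← add_assoc]
          linarith
        · subst hij
          have e2 : out X b = Pi.single i 2 := by
            rw [e0, ← Pi.single_add]
          have := Finset.single_le_sum
            (f := fun i => (if out Q' b = Pi.single i 2 then Γ (sd X + Pi.single i 2) else 0))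
            (fun a _ => by
              try dsimp only
              split_ifs
              · exact hΓ _
              · exact le_rfl) (Finset.mem_univ i)
          try dsimp only at this
          rw [if_pos (by rw [← e1, e2])] at this
          rw [e2]
          linarith
        · have := Finset.single_le_sum
            (f := fun P : Fin d × Fin d => (if out Q' b = Pi.single P.1 1 + Pi.single P.2 1 then
              Γ (sd X + Pi.single P.1 1 + Pi.single P.2 1) else 0))
            (fun a _ => by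
              try dsimp only
              split_ifs
              · exact hΓ _
              · exact le_rfl) (show (j, i) ∈ Finset.univ.filter
                (fun P : Fin d × Fin d => P.1 < P.2) by simp [hij])
          try dsimp only at this
          have e3 : (Pi.single i 1 + Pi.single j 1 : Fin d → ℕ) = Pi.single j 1 + Pi.single i 1 :=
            add_comm _ _
          rw [if_pos (by rw [← e1, e0, e3])] at this
          rw [e0, e3, ← add_assoc]
          linarith
  refine (Finset.sum_le_sum hpt).trans ?_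
  rw [Finset.sum_add_distrib, Finset.sum_add_distrib, Finset.sum_add_distrib]
  have c1 : ∑ b ∈ B, ∑ P : Fin d × Fin d with P.1 < P.2,
      (if out Q' b = Pi.single P.1 1 + Pi.single P.2 1 then
        Γ (sd X + Pi.single P.1 1 + Pi.single P.2 1) else 0) ≤
      ∑ P : Fin d × Fin d with P.1 < P.2,
        N₂ P.1 P.2 * Γ (sd X + Pi.single P.1 1 + Pi.single P.2 1) := by
    rw [Finset.sum_comm]
    refine Finset.sum_le_sum fun P hP => ?_
    rw [← Finset.sum_filter, Finset.sum_const, nsmul_eq_mul]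
    exact mul_le_mul_of_nonneg_right (hN₂ P.1 P.2 (Finset.mem_filter.1 hP).2) (hΓ _)
  have c2 : ∑ b ∈ B, ∑ i, (if out Q' b = Pi.single i 2 then Γ (sd X + Pi.single i 2) else 0) ≤
      ∑ i, N₁ i * Γ (sd X + Pi.single i 2) := by
    rw [Finset.sum_comm]
    refine Finset.sum_le_sum fun i _ => ?_
    rw [← Finset.sum_filter, Finset.sum_const, nsmul_eq_mul]
    exact mul_le_mul_of_nonneg_right (hN₁ i) (hΓ _)
  have c3 : ∑ b ∈ B, ∑ i, (if 1 ≤ out Q' b i then Γ (sd X + Pi.single i 1) else 0) ≤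
      ∑ i, 4 * ((d : ℝ) + 1) * vol Q' * Γ (sd X + Pi.single i 1) := by
    rw [Finset.sum_comm]
    refine Finset.sum_le_sum fun i _ => ?_
    rw [← Finset.sum_filter, Finset.sum_const, nsmul_eq_mul]
    refine mul_le_mul_of_nonneg_right ?_ (hΓ _)
    exact v3_card_dir hQ' _ i (fun x hx => hB x (Finset.mem_filter.1 hx).1)
      fun x hx => (Finset.mem_filter.1 hx).2
  have c4 : ∑ b ∈ B, Γ (sd X) ≤ 4 * ((d : ℝ) + 1) ^ 2 * vol Q' * Γ (sd X) := by
    rw [Finset.sum_const, nsmul_eq_mul]
    exact mul_le_mul_of_nonneg_right (v3_card_all hQ' B hB) (hΓ _)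
  linarith

/-! ### the new points -/

theorem v3_sd_le {Q Q' : BoxT n d} (hQ : Q.1 ≤ Q.2) (h1 : Sub Q Q') (m : Fin d) :
    (sd Q m : ℝ) ≤ sd Q' m := by
  have a0 := d_le hQ m
  have a1 : (Q'.1 m : ℕ) ≤ Q.1 m := h1.1 m
  have a2 : (Q.2 m : ℕ) ≤ Q'.2 m := h1.2 m
  have : sd Q m ≤ sd Q' m := by
    unfold sd
    omega
  exact_mod_cast this

theorem v3_ratio_nonneg {Q Q' : BoxT n d} (hQ : Q.1 ≤ Q.2) (h1 : Sub Q Q') (m : Fin d) :
    0 ≤ ((sd Q' m : ℝ) - sd Q m) / sd Q' m :=
  div_nonneg (by linarith [v3_sd_le hQ h1 m]) (by linarith [v3_sd_pos Q' m])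

/-- equal side lengths of nested boxes: the same distances -/
theorem v3_out_eq {Q Q' : BoxT n d} (hQ : Q.1 ≤ Q.2) (h1 : Sub Q Q') {i : Fin d}
    (h : ¬ sd Q i < sd Q' i) (x : Vtx n d) : out Q x i = out Q' x i := by
  have a0 := d_le hQ i
  have a1 : (Q'.1 i : ℕ) ≤ Q.1 i := h1.1 i
  have a2 : (Q.2 i : ℕ) ≤ Q'.2 i := h1.2 i
  unfold sd at h
  unfold out
  omega

/-- a direction in which the point is outside the smaller box -/
theorem v3_exists {Q Q' : BoxT n d} {x : Vtx n d} {o : Fin d → ℕ}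
    (ho : out Q' x = o) (hs : ∑ m, o m = 2)
    (hle : ∀ m, o m ≤ out Q x m) (hx : ¬ ∑ m, out Q x m ≤ 2)
    (hS : ∀ m, o m ≠ 0 → out Q x m = out Q' x m) :
    ∃ m, o m = 0 ∧ 1 ≤ out Q x m := by
  by_contra hc
  push Not at hc
  apply hx
  rw [← hs]
  refine Finset.sum_le_sum fun m _ => ?_
  by_cases h0 : o m = 0
  · have := hc m h0
    omega
  · rw [hS m h0, ho]

theorem v3_card_new_pair {Q Q' : BoxT n d} (hQ : Q.1 ≤ Q.2) (h1 : Sub Q Q') (A : Finset (Vtx n d))
    {i j m₀ : Fin d} (hij : i ≠ j) (hi : i ≠ m₀) (hj : j ≠ m₀)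
    (hA : ∀ x ∈ A, out Q' x = Pi.single i 1 + Pi.single j 1 ∧ 1 ≤ out Q x m₀) :
    (A.card : ℝ) ≤ 4 * (vol Q' / ((sd Q' i : ℝ) * sd Q' j)) *
      (((sd Q' m₀ : ℝ) - sd Q m₀) / sd Q' m₀) := by
  classical
  have hQ' : Q'.1 ≤ Q'.2 := h1.1.trans (hQ.trans h1.2)
  set o : Fin d → ℕ := Pi.single i 1 + Pi.single j 1 with ho
  have oi : o i = 1 := by simp [ho, Pi.single_eq_of_ne hij]
  have oj : o j = 1 := by simp [ho, Pi.single_eq_of_ne hij.symm]
  have om : ∀ m, m ≠ i → m ≠ j → o m = 0 := by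
    intro m hmi hmj
    simp [ho, Pi.single_eq_of_ne hmi, Pi.single_eq_of_ne hmj]
  have key : (A.card : ℝ) ≤ (∏ m, (sd Q' m : ℝ)) *
      ∏ m, ((if m = i then (2 : ℝ) / sd Q' i else 1) * (if m = j then (2 : ℝ) / sd Q' j else 1) *
        (if m = m₀ then ((sd Q' m₀ : ℝ) - sd Q m₀) / sd Q' m₀ else 1)) := by
    refine v3_prod _ A (fun m => (v3_T Q' o m).filter
      (fun a : Fin n => m = m₀ → (a < Q.1 m ∨ Q.2 m < a))) (fun x hx m => ?_) _ fun m => ?_
    · rw [Finset.mem_filter]
      refine ⟨?_, ?_⟩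
      · have := v3_mem_T Q' x m
        rw [(hA x hx).1] at this
        exact this
      · intro hm
        subst hm
        have h3 := (hA x hx).2
        unfold out at h3
        rw [Fin.lt_def, Fin.lt_def]
        omega
    · have hs := v3_sd_pos Q' m
      by_cases hm : m = m₀
      · subst hm
        rw [if_neg hi.symm, if_neg hj.symm, if_pos rfl, one_mul, one_mul]
        have e1 : (v3_T Q' o m).filter (fun a : Fin n => m = m → (a < Q.1 m ∨ Q.2 m < a)) =
            (v3_T Q' 0 m).filter (fun a : Fin n => a < Q.1 m ∨ Q.2 m < a) := by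
          have : v3_T Q' o m = v3_T Q' 0 m := by
            unfold v3_T
            rw [om m hi.symm hj.symm]
            rfl
          rw [this]
          simp
        rw [e1]
        refine (v3_T_new hQ h1 m).trans (le_of_eq ?_)
        field_simp
      · rw [if_neg hm, mul_one]
        have h3 : ((((v3_T Q' o m).filter
            (fun a : Fin n => m = m₀ → (a < Q.1 m ∨ Q.2 m < a))).card : ℕ) : ℝ) ≤
            ((v3_T Q' o m).card : ℝ) := by
          exact_mod_cast Finset.card_filter_le _ _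
        refine h3.trans ?_
        by_cases hmi : m = i
        · subst hmi
          rw [if_pos rfl, if_neg hij, mul_one]
          refine (v3_T_pos hQ' (by omega)).trans (le_of_eq ?_)
          field_simp
        · by_cases hmj : m = j
          · subst hmj
            rw [if_pos rfl, if_neg hij.symm, one_mul]
            refine (v3_T_pos hQ' (by omega)).trans (le_of_eq ?_)
            field_simp
          · rw [if_neg hmi, if_neg hmj, mul_one, mul_one]
            exact v3_T_zero hQ' (om m hmi hmj)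
  refine key.trans (le_of_eq ?_)
  rw [Finset.prod_mul_distrib, Finset.prod_mul_distrib, v3_prod_ite, v3_prod_ite, v3_prod_ite]
  unfold vol
  have := v3_sd_pos Q' i
  have := v3_sd_pos Q' j
  field_simp
  ring

theorem v3_card_new_single {Q Q' : BoxT n d} (hQ : Q.1 ≤ Q.2) (h1 : Sub Q Q')
    (A : Finset (Vtx n d)) {i m₀ : Fin d} (hi : i ≠ m₀)
    (hA : ∀ x ∈ A, out Q' x = Pi.single i 2 ∧ 1 ≤ out Q x m₀) :
    (A.card : ℝ) ≤ 2 * (vol Q' / (sd Q' i : ℝ)) *
      (((sd Q' m₀ : ℝ) - sd Q m₀) / sd Q' m₀) := by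
  classical
  have hQ' : Q'.1 ≤ Q'.2 := h1.1.trans (hQ.trans h1.2)
  set o : Fin d → ℕ := Pi.single i 2 with ho
  have oi : o i = 2 := by simp [ho]
  have om : ∀ m, m ≠ i → o m = 0 := by
    intro m hmi
    simp [ho, Pi.single_eq_of_ne hmi]
  have key : (A.card : ℝ) ≤ (∏ m, (sd Q' m : ℝ)) *
      ∏ m, ((if m = i then (2 : ℝ) / sd Q' i else 1) *
        (if m = m₀ then ((sd Q' m₀ : ℝ) - sd Q m₀) / sd Q' m₀ else 1)) := by
    refine v3_prod _ A (fun m => (v3_T Q' o m).filter
      (fun a : Fin n => m = m₀ → (a < Q.1 m ∨ Q.2 m < a))) (fun x hx m => ?_) _ fun m => ?_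
    · rw [Finset.mem_filter]
      refine ⟨?_, ?_⟩
      · have := v3_mem_T Q' x m
        rw [(hA x hx).1] at this
        exact this
      · intro hm
        subst hm
        have h3 := (hA x hx).2
        unfold out at h3
        rw [Fin.lt_def, Fin.lt_def]
        omega
    · have hs := v3_sd_pos Q' m
      by_cases hm : m = m₀
      · subst hm
        rw [if_neg hi.symm, if_pos rfl, one_mul]
        have e1 : (v3_T Q' o m).filter (fun a : Fin n => m = m → (a < Q.1 m ∨ Q.2 m < a)) =
            (v3_T Q' 0 m).filter (fun a : Fin n => a < Q.1 m ∨ Q.2 m < a) := by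
          have : v3_T Q' o m = v3_T Q' 0 m := by
            unfold v3_T
            rw [om m hi.symm]
            rfl
          rw [this]
          simp
        rw [e1]
        refine (v3_T_new hQ h1 m).trans (le_of_eq ?_)
        field_simp
      · rw [if_neg hm, mul_one]
        have h3 : ((((v3_T Q' o m).filter
            (fun a : Fin n => m = m₀ → (a < Q.1 m ∨ Q.2 m < a))).card : ℕ) : ℝ) ≤
            ((v3_T Q' o m).card : ℝ) := by
          exact_mod_cast Finset.card_filter_le _ _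
        refine h3.trans ?_
        by_cases hmi : m = i
        · subst hmi
          rw [if_pos rfl]
          refine (v3_T_pos hQ' (by omega)).trans (le_of_eq ?_)
          field_simp
        · rw [if_neg hmi, mul_one]
          exact v3_T_zero hQ' (om m hmi)
  refine key.trans (le_of_eq ?_)
  rw [Finset.prod_mul_distrib, v3_prod_ite, v3_prod_ite]
  unfold vol
  have := v3_sd_pos Q' i
  field_simp

/-- all points with a given shape, pair -/
theorem v3_card_pair {Q' : BoxT n d} (hQ' : Q'.1 ≤ Q'.2) {i j : Fin d} (hij : i ≠ j)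
    (A : Finset (Vtx n d)) (hA : ∀ x ∈ A, out Q' x = Pi.single i 1 + Pi.single j 1) :
    (A.card : ℝ) ≤ 4 * (vol Q' / ((sd Q' i : ℝ) * sd Q' j)) := by
  classical
  have h1 := d_card_pair hQ' hij
  have h2 : A ⊆ Finset.univ.filter (fun x : Vtx n d =>
      out Q' x i = 1 ∧ out Q' x j = 1 ∧ ∑ m, out Q' x m = 2) := by
    intro x hx
    rw [Finset.mem_filter]
    have h3 := hA x hx
    refine ⟨Finset.mem_univ _, ?_, ?_, ?_⟩
    · rw [h3]
      simp [Pi.single_eq_of_ne hij]
    · rw [h3]
      simp [Pi.single_eq_of_ne hij.symm]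
    · rw [h3]
      simp only [Pi.add_apply]
      rw [Finset.sum_add_distrib, v3_sum_single, v3_sum_single]
  have h3 : (A.card : ℝ) ≤ ((Finset.univ.filter (fun x : Vtx n d =>
      out Q' x i = 1 ∧ out Q' x j = 1 ∧ ∑ m, out Q' x m = 2)).card : ℝ) := by
    exact_mod_cast Finset.card_le_card h2
  rw [mul_div_assoc] at h1
  exact h3.trans h1

/-- all points with a given shape, straight -/
theorem v3_card_straight {Q' : BoxT n d} (hQ' : Q'.1 ≤ Q'.2) {i : Fin d}
    (A : Finset (Vtx n d)) (hA : ∀ x ∈ A, out Q' x = Pi.single i 2) :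
    (A.card : ℝ) ≤ 2 * (vol Q' / (sd Q' i : ℝ)) := by
  classical
  have h1 := d_card_straight hQ' i
  have h2 : A ⊆ Finset.univ.filter (fun x : Vtx n d =>
      out Q' x i = 2 ∧ ∑ m, out Q' x m = 2) := by
    intro x hx
    rw [Finset.mem_filter]
    have h3 := hA x hx
    refine ⟨Finset.mem_univ _, ?_, ?_⟩
    · rw [h3]
      simp
    · rw [h3, v3_sum_single]
  have h3 : (A.card : ℝ) ≤ ((Finset.univ.filter (fun x : Vtx n d =>
      out Q' x i = 2 ∧ ∑ m, out Q' x m = 2)).card : ℝ) := by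
    exact_mod_cast Finset.card_le_card h2
  rw [mul_div_assoc] at h1
  exact h3.trans h1

theorem v3_n2 {Q Q' : BoxT n d} (hQ : Q.1 ≤ Q.2) (h1 : Sub Q Q') {i j : Fin d} (hij : i ≠ j) :
    (((cov Q' \ cov Q).filter
      (fun b => out Q' b = Pi.single i 1 + Pi.single j 1)).card : ℝ) ≤ n2 Q Q' i j := by
  classical
  have hQ' : Q'.1 ≤ Q'.2 := h1.1.trans (hQ.trans h1.2)
  have hv := d_vol_pos Q'
  have si := v3_sd_pos Q' i
  have sj := v3_sd_pos Q' j
  have hc : 0 ≤ 4 * (vol Q' / ((sd Q' i : ℝ) * sd Q' j)) := by positivity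
  have hsum : 0 ≤ ∑ m, ((sd Q' m : ℝ) - sd Q m) / sd Q' m :=
    Finset.sum_nonneg fun m _ => v3_ratio_nonneg hQ h1 m
  set A := (cov Q' \ cov Q).filter (fun b => out Q' b = Pi.single i 1 + Pi.single j 1) with hAdef
  have hA : ∀ x ∈ A, out Q' x = Pi.single i 1 + Pi.single j 1 := fun x hx =>
    (Finset.mem_filter.1 hx).2
  unfold n2
  by_cases hcase : sd Q i < sd Q' i ∨ sd Q j < sd Q' j
  · refine (v3_card_pair hQ' hij A hA).trans ?_
    refine le_mul_of_one_le_right hc ?_
    rcases hcase with h | h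
    · rw [if_pos h]
      split_ifs <;> linarith
    · rw [if_pos h]
      split_ifs <;> linarith
  · push Not at hcase
    have hni : ¬ sd Q i < sd Q' i := not_lt.2 hcase.1
    have hnj : ¬ sd Q j < sd Q' j := not_lt.2 hcase.2
    rw [if_neg hni, if_neg hnj, add_zero, add_zero, Finset.mul_sum]
    have hsub : A ⊆ Finset.univ.biUnion (fun m₀ : Fin d => A.filter
        (fun x => (i ≠ m₀ ∧ j ≠ m₀) ∧ 1 ≤ out Q x m₀)) := by
      intro x hx
      have hx' := hx
      rw [hAdef, Finset.mem_filter, Finset.mem_sdiff] at hx'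
      obtain ⟨⟨-, hnc⟩, ho⟩ := hx'
      have hnc' : ¬ ∑ m, out Q x m ≤ 2 := by
        intro h
        exact hnc (Finset.mem_filter.2 ⟨Finset.mem_univ _, h⟩)
      have hmem : ∀ m, (Pi.single i 1 + Pi.single j 1 : Fin d → ℕ) m ≠ 0 → m = i ∨ m = j := by
        intro m hm
        by_contra hc
        push Not at hc
        apply hm
        simp [Pi.single_eq_of_ne hc.1, Pi.single_eq_of_ne hc.2]
      obtain ⟨m, hm0, hm1⟩ := v3_exists (Q := Q) ho (by
          simp only [Pi.add_apply]
          rw [Finset.sum_add_distrib, v3_sum_single, v3_sum_single])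
        (fun m => by
          rw [← ho]
          exact b_out_mono h1.1 h1.2 x m) hnc' (fun m hm => by
          rcases hmem m hm with rfl | rfl
          · exact v3_out_eq hQ h1 hni x
          · exact v3_out_eq hQ h1 hnj x)
      rw [Finset.mem_biUnion]
      refine ⟨m, Finset.mem_univ _, Finset.mem_filter.2 ⟨hx, ⟨?_, ?_⟩, hm1⟩⟩
      · intro him
        rw [← him] at hm0
        simp [Pi.single_eq_of_ne hij] at hm0
      · intro hjm
        rw [← hjm] at hm0
        simp [Pi.single_eq_of_ne hij.symm] at hm0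
    have h3 : (A.card : ℝ) ≤ ∑ m₀ : Fin d, ((A.filter
        (fun x => (i ≠ m₀ ∧ j ≠ m₀) ∧ 1 ≤ out Q x m₀)).card : ℝ) := by
      exact_mod_cast (Finset.card_le_card hsub).trans Finset.card_biUnion_le
    refine h3.trans (Finset.sum_le_sum fun m₀ _ => ?_)
    by_cases hm : i ≠ m₀ ∧ j ≠ m₀
    · refine v3_card_new_pair hQ h1 _ hij hm.1 hm.2 fun x hx => ?_
      rw [Finset.mem_filter] at hx
      exact ⟨hA x hx.1, hx.2.2⟩
    · have : A.filter (fun x => (i ≠ m₀ ∧ j ≠ m₀) ∧ 1 ≤ out Q x m₀) = ∅ := by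
        rw [Finset.filter_eq_empty_iff]
        intro x _ h
        exact hm h.1
      rw [this, Finset.card_empty, Nat.cast_zero]
      exact mul_nonneg hc (v3_ratio_nonneg hQ h1 m₀)

theorem v3_n1 {Q Q' : BoxT n d} (hQ : Q.1 ≤ Q.2) (h1 : Sub Q Q') (i : Fin d) :
    (((cov Q' \ cov Q).filter (fun b => out Q' b = Pi.single i 2)).card : ℝ) ≤ n1 Q Q' i := by
  classical
  have hQ' : Q'.1 ≤ Q'.2 := h1.1.trans (hQ.trans h1.2)
  have hv := d_vol_pos Q'
  have si := v3_sd_pos Q' i
  have hc : 0 ≤ 2 * (vol Q' / (sd Q' i : ℝ)) := by positivity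
  have hsum : 0 ≤ ∑ m, ((sd Q' m : ℝ) - sd Q m) / sd Q' m :=
    Finset.sum_nonneg fun m _ => v3_ratio_nonneg hQ h1 m
  set A := (cov Q' \ cov Q).filter (fun b => out Q' b = Pi.single i 2) with hAdef
  have hA : ∀ x ∈ A, out Q' x = Pi.single i 2 := fun x hx => (Finset.mem_filter.1 hx).2
  unfold n1
  by_cases hcase : sd Q i < sd Q' i
  · refine (v3_card_straight hQ' A hA).trans ?_
    refine le_mul_of_one_le_right hc ?_
    rw [if_pos hcase]
    linarith
  · rw [if_neg hcase, add_zero, Finset.mul_sum]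
    have hsub : A ⊆ Finset.univ.biUnion (fun m₀ : Fin d => A.filter
        (fun x => i ≠ m₀ ∧ 1 ≤ out Q x m₀)) := by
      intro x hx
      have hx' := hx
      rw [hAdef, Finset.mem_filter, Finset.mem_sdiff] at hx'
      obtain ⟨⟨-, hnc⟩, ho⟩ := hx'
      have hnc' : ¬ ∑ m, out Q x m ≤ 2 := by
        intro h
        exact hnc (Finset.mem_filter.2 ⟨Finset.mem_univ _, h⟩)
      obtain ⟨m, hm0, hm1⟩ := v3_exists (Q := Q) ho (v3_sum_single i 2)
        (fun m => by
          rw [← ho]
          exact b_out_mono h1.1 h1.2 x m) hnc' (fun m hm => by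
          have : m = i := by
            by_contra hmi
            apply hm
            simp [Pi.single_eq_of_ne hmi]
          rw [this]
          exact v3_out_eq hQ h1 hcase x)
      rw [Finset.mem_biUnion]
      refine ⟨m, Finset.mem_univ _, Finset.mem_filter.2 ⟨hx, ?_, hm1⟩⟩
      intro him
      rw [← him] at hm0
      simp at hm0
    have h3 : (A.card : ℝ) ≤ ∑ m₀ : Fin d, ((A.filter
        (fun x => i ≠ m₀ ∧ 1 ≤ out Q x m₀)).card : ℝ) := by
      exact_mod_cast (Finset.card_le_card hsub).trans Finset.card_biUnion_le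
    refine h3.trans (Finset.sum_le_sum fun m₀ _ => ?_)
    by_cases hm : i ≠ m₀
    · refine v3_card_new_single hQ h1 _ hm fun x hx => ?_
      rw [Finset.mem_filter] at hx
      exact ⟨hA x hx.1, hx.2.2⟩
    · have : A.filter (fun x => i ≠ m₀ ∧ 1 ≤ out Q x m₀) = ∅ := by
        rw [Finset.filter_eq_empty_iff]
        intro x _ h
        exact hm h.1
      rw [this, Finset.card_empty, Nat.cast_zero]
      exact mul_nonneg hc (v3_ratio_nonneg hQ h1 m₀)

theorem birth_sum_le {Q Q' X : BoxT n d} (hQ : Q.1 ≤ Q.2) (h1 : Sub Q Q') (h2 : Sub Q' X)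
    (Γ : (Fin d → ℕ) → ℝ) (hΓ : ∀ x, 0 ≤ Γ x) :
    ∑ b ∈ cov Q' \ cov Q, Γ (sd (ext X b)) ≤
      ∑ P : Fin d × Fin d with P.1 < P.2,
        n2 Q Q' P.1 P.2 * Γ (sd X + Pi.single P.1 1 + Pi.single P.2 1) +
      ∑ i, n1 Q Q' i * Γ (sd X + Pi.single i 2) +
      ∑ i, 4 * ((d : ℝ) + 1) * vol Q' * Γ (sd X + Pi.single i 1) +
      4 * ((d : ℝ) + 1) ^ 2 * vol Q' * Γ (sd X) := by
  have hQ' : Q'.1 ≤ Q'.2 := h1.1.trans (hQ.trans h1.2)
  refine v3_split hQ' h2 _ (fun b hb => ?_) Γ hΓ _ _ (fun i j hij => ?_) fun i => ?_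
  · exact (Finset.mem_filter.1 (Finset.mem_sdiff.1 hb).1).2
  · exact v3_n2 hQ h1 hij.ne
  · exact v3_n1 hQ h1 i

theorem birth_sum_zero_le {z : Vtx n d} {X : BoxT n d} (h2 : Sub (z, z) X)
    (Γ : (Fin d → ℕ) → ℝ) (hΓ : ∀ x, 0 ≤ Γ x) :
    ∑ b ∈ cov (z, z), Γ (sd (ext X b)) ≤
      ∑ P : Fin d × Fin d with P.1 < P.2, 4 * Γ (sd X + Pi.single P.1 1 + Pi.single P.2 1) +
      ∑ i, 2 * Γ (sd X + Pi.single i 2) + ∑ i, 4 * ((d : ℝ) + 1) * Γ (sd X + Pi.single i 1) +
      4 * ((d : ℝ) + 1) ^ 2 * Γ (sd X) := by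
  have hz : ((z, z) : BoxT n d).1 ≤ ((z, z) : BoxT n d).2 := le_rfl
  have hsd : ∀ m, sd ((z, z) : BoxT n d) m = 1 := by
    intro m
    simp [sd]
  have hv : vol ((z, z) : BoxT n d) = 1 := by
    unfold vol
    simp [hsd]
  have h := v3_split (Q' := (z, z)) hz h2 (cov (z, z))
    (fun b hb => (Finset.mem_filter.1 hb).2) Γ hΓ (fun _ _ => 4) (fun _ => 2)
    (fun i j hij => ?_) (fun i => ?_)
  · rw [hv] at h
    simpa only [mul_one] using h
  · have := v3_card_pair hz hij.ne ((cov ((z, z) : BoxT n d)).filter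
      (fun b => out (z, z) b = Pi.single i 1 + Pi.single j 1)) fun x hx => (Finset.mem_filter.1 hx).2
    rw [hv, hsd, hsd] at this
    simpa using this
  · have := v3_card_straight hz (i := i) ((cov ((z, z) : BoxT n d)).filter
      (fun b => out (z, z) b = Pi.single i 2)) fun x hx => (Finset.mem_filter.1 hx).2
    rw [hv, hsd] at this
    simpa using this

theorem gap_nonneg (d t x : ℕ) (hx : 1 ≤ x) : 0 ≤ gap d t x := by
  have hl : 1 ≤ lev d t := Nat.le_add_left 1 _
  have hl' : (1 : ℝ) ≤ lev d t := by exact_mod_cast hl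
  have h := E_log_le (lev d t) x hl hx
  have h2 : 0 ≤ Real.log (1 + 1 / ((lev d t : ℝ) * (lev d t + 2))) := by
    apply Real.log_nonneg
    have : 0 ≤ 1 / ((lev d t : ℝ) * (lev d t + 2)) := by positivity
    linarith
  have h3 : 0 ≤ Real.log (1 + 1 / ((lev d t : ℝ) * (lev d t + 2))) *
      (((x - (lev d t + 1) : ℕ) : ℝ) + ((lev d t - x : ℕ) : ℝ)) := by
    apply mul_nonneg h2
    positivity
  unfold gap
  rw [Real.log_div (by positivity) (by positivity)]
  linarith

theorem sum_sd (Q : BoxT n d) : ∑ i, sd Q i = phi Q + d := E_sum_sd Q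

/-- exact volume -/
theorem log_vol_eq (hd : 1 ≤ d) (Q : BoxT n d) :
    Real.log (vol Q) = sfun d (phi Q) - ∑ i, gap d (phi Q) (sd Q i) := by
  have h0 : Real.log (vol Q) = ∑ i, Real.log (sd Q i) := by
    unfold vol
    rw [Real.log_prod]
    intro i _
    have := E_sd_pos Q i
    have h : (sd Q i) ≠ 0 := by omega
    exact_mod_cast h
  rw [h0]
  unfold gap
  rw [Finset.sum_sub_distrib, Finset.sum_add_distrib, ← Finset.sum_mul, Finset.sum_sub_distrib]
  have h2 : ∑ i, (sd Q i : ℝ) = phi Q + d := by exact_mod_cast E_sum_sd Q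
  rw [h2]
  have hq1 : (phi Q / d) * d ≤ phi Q := Nat.div_mul_le_self _ _
  have hq2 : phi Q ≤ (phi Q / d + 1) * d := by
    have := Nat.lt_mul_of_div_lt (Nat.lt_succ_self (phi Q / d)) hd
    exact this.le
  rw [sfun_eq d (phi Q) hd (phi Q / d) hq1 hq2]
  have e1 : (lev d (phi Q) : ℝ) = ((phi Q / d : ℕ) : ℝ) + 1 := by
    unfold lev
    push_cast
    rfl
  have hpos : (0 : ℝ) < lev d (phi Q) := by
    rw [e1]
    positivity
  rw [Real.log_div (by positivity) (by positivity), e1]
  unfold vslope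
  simp only [Finset.sum_const, Finset.card_univ, Fintype.card_fin, nsmul_eq_mul]
  ring_nf

end Pool.Agent.Lib.MP_8501c9_pr.Wide
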