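import Pool.Agent.Lib.MP_8501c9_pr.Wide.DefsL
import Pool.Agent.Lib.MP_8501c9_pr.Mid.Tree

set_option autoImplicit false
open Set

/-!
# Binary decision trees and the second moment bound
-/

namespace Pool.Agent.Lib.MP_8501c9_pr.Wide

open Pool.Agent.Lib.MP_8501c9_pr Pool.Agent.Lib.MP_8501c9_pr.Mid

section
variable {V : Type} [DecidableEq V] {p : ℝ} {g : Finset V → ℝ} {Z T : Finset V}

theorem Ach.leaf : Ach p g Z T (g T) := ⟨BT.win, trivial, le_rfl⟩

theorem Ach.mono {v w : ℝ} (h : Ach p g Z T v) (hw : w ≤ v) : Ach p g Z T w := by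
  obtain ⟨t, ht, hv⟩ := h
  exact ⟨t, ht, hw.trans hv⟩

theorem Ach.zero : Ach p g Z T 0 := ⟨BT.lose, trivial, le_rfl⟩

private theorem l1_ask (hp0 : 0 ≤ p) (hp1 : p ≤ 1) {x : V} (hx : x ∉ Z) {v w : ℝ}
    (h1 : Ach p g (insert x Z) (insert x T) v) (h2 : Ach p g (insert x Z) T w) :
    Ach p g Z T (p * v + (1 - p) * w) := by
  obtain ⟨a, ha, hv⟩ := h1
  obtain ⟨b, hb, hw⟩ := h2
  refine ⟨BT.ask x a b, ⟨hx, ha, hb⟩, ?_⟩
  have hq : 0 ≤ 1 - p := by linarith
  exact add_le_add (mul_le_mul_of_nonneg_left hv hp0) (mul_le_mul_of_nonneg_left hw hq)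

/-- ask all sites of `N` -/
theorem Ach.askAll (hp0 : 0 ≤ p) (hp1 : p ≤ 1) {N : Finset V} (hN : Disjoint N Z)
    (v : Finset V → ℝ) (h : ∀ B ⊆ N, Ach p g (Z ∪ N) (T ∪ B) (v B)) :
    Ach p g Z T (∑ B ∈ N.powerset, p ^ B.card * (1 - p) ^ (N.card - B.card) * v B) := by
  induction N using Finset.induction_on generalizing Z T v with
  | empty =>
    have h1 := h ∅ (Finset.Subset.refl _)
    simp only [Finset.union_empty] at h1
    simpa using h1
  | insert x N hx ih =>
    rw [Finset.disjoint_insert_left] at hN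
    obtain ⟨hxZ, hNZ⟩ := hN
    have hd : Disjoint N (insert x Z) := Finset.disjoint_insert_right.mpr ⟨hx, hNZ⟩
    have e1 : insert x Z ∪ N = Z ∪ insert x N := by
      rw [Finset.insert_union, Finset.union_insert]
    have a1 := ih (Z := insert x Z) (T := insert x T) hd (fun B => v (insert x B)) (by
      intro B hB
      have h1 := h (insert x B) (Finset.insert_subset_insert x hB)
      rw [e1]
      have e2 : insert x T ∪ B = T ∪ insert x B := by
        rw [Finset.insert_union, Finset.union_insert]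
      rw [e2]
      exact h1)
    have a2 := ih (Z := insert x Z) (T := T) hd v (by
      intro B hB
      rw [e1]
      exact h B (hB.trans (Finset.subset_insert _ _)))
    refine (l1_ask hp0 hp1 hxZ a1 a2).mono (le_of_eq ?_)
    rw [Finset.sum_powerset_insert hx, add_comm, Finset.mul_sum, Finset.mul_sum]
    congr 1
    · refine Finset.sum_congr rfl fun B hB => ?_
      have hB' := Finset.mem_powerset.mp hB
      have hxB : x ∉ B := fun h => hx (hB' h)
      rw [Finset.card_insert_of_notMem hxB, Finset.card_insert_of_notMem hx, Nat.add_sub_add_right,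
        pow_succ]
      ring
    · refine Finset.sum_congr rfl fun B hB => ?_
      have hB' := Finset.card_le_card (Finset.mem_powerset.mp hB)
      rw [Finset.card_insert_of_notMem hx, Nat.sub_add_comm hB', pow_succ]
      ring

/-- ask the sites of `N` until one is found -/
theorem Ach.askFirst (hp0 : 0 ≤ p) (hp1 : p ≤ 1) {N : Finset V} (hN : Disjoint N Z) {v : ℝ}
    (hv : 0 ≤ v) (h : ∀ x ∈ N, ∀ Y ⊆ N, x ∈ Y → Ach p g (Z ∪ Y) (insert x T) v) :
    Ach p g Z T ((1 - (1 - p) ^ N.card) * v) := by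
  induction N using Finset.induction_on generalizing Z with
  | empty =>
    simpa using (Ach.zero : Ach p g Z T 0)
  | insert x N hx ih =>
    rw [Finset.disjoint_insert_left] at hN
    obtain ⟨hxZ, hNZ⟩ := hN
    have hd : Disjoint N (insert x Z) := Finset.disjoint_insert_right.mpr ⟨hx, hNZ⟩
    have a1 := h x (Finset.mem_insert_self _ _) {x} (by simp) (by simp)
    have e1 : Z ∪ {x} = insert x Z := by
      rw [Finset.union_comm, Finset.insert_eq]
    rw [e1] at a1
    have a2 := ih (Z := insert x Z) hd (by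
      intro y hy Y hY hyY
      have h1 := h y (Finset.mem_insert_of_mem hy) (insert x Y)
        (Finset.insert_subset_insert x hY) (Finset.mem_insert_of_mem hyY)
      have e2 : insert x Z ∪ Y = Z ∪ insert x Y := by
        rw [Finset.insert_union, Finset.union_insert]
      rw [e2]
      exact h1)
    refine (l1_ask hp0 hp1 hxZ a1 a2).mono (le_of_eq ?_)
    rw [Finset.card_insert_of_notMem hx, pow_succ]
    ring

/-- the tree reaches a winning leaf with a good found set -/
def l1_succ (G : Finset V → Prop) : BT V → Finset V → Finset V → Prop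
  | BT.win, T, _ => G T
  | BT.lose, _, _ => False
  | BT.ask x a b, T, A => (x ∈ A ∧ l1_succ G a (insert x T) A) ∨ (x ∉ A ∧ l1_succ G b T A)

theorem l1_found (G : Finset V → Prop) (t : BT V) : ∀ T A : Finset V, T ⊆ A → l1_succ G t T A →
    ∃ T' ⊆ A, G T' := by
  induction t with
  | win => exact fun T A hT h => ⟨T, hT, h⟩
  | lose => exact fun T A hT h => h.elim
  | ask x a b iha ihb =>
    rintro T A hT (⟨hx, h⟩ | ⟨hx, h⟩)
    · exact iha _ A (Finset.insert_subset hx hT) h
    · exact ihb _ A hT h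

end

section
variable {V : Type} [DecidableEq V] [Fintype V]

open Classical in
theorem l1_pr_succ (p : ℝ) (G : Finset V → Prop) (t : BT V) : ∀ (Z T : Finset V), t.Valid Z →
    ∀ f : Finset V → ℝ, Ex p (fun A => f (A ∩ Z) * (if l1_succ G t T A then 1 else 0)) =
      Ex p (fun A => f (A ∩ Z)) * t.ev p (ind G) T := by
  induction t with
  | win =>
    intro Z T _ f
    by_cases h : G T
    · simp [l1_succ, BT.ev, ind, h]
    · simp [l1_succ, BT.ev, ind, h, Ex]
  | lose =>
    intro Z T _ f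
    simp [l1_succ, BT.ev, Ex]
  | ask x a b iha ihb =>
    intro Z T hv f
    obtain ⟨hx, h1, h2⟩ := hv
    have e1 := iha (insert x Z) (insert x T) h1 (fun B => f (B ∩ Z) * (if x ∈ B then 1 else 0))
    have e2 := ihb (insert x Z) T h2 (fun B => f (B ∩ Z) * (if x ∈ B then 0 else 1))
    have hint : ∀ A : Finset V, (A ∩ insert x Z) ∩ Z = A ∩ Z := by
      intro A
      ext y
      simp only [Finset.mem_inter, Finset.mem_insert]
      tauto
    have hmem : ∀ A : Finset V, x ∈ A ∩ insert x Z ↔ x ∈ A := by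
      intro A
      simp
    simp only [hint, hmem] at e1 e2
    have hsplit : (fun A : Finset V => f (A ∩ Z) *
        (if l1_succ G (BT.ask x a b) T A then (1 : ℝ) else 0)) = fun A =>
        f (A ∩ Z) * (if x ∈ A then (1 : ℝ) else 0) *
          (if l1_succ G a (insert x T) A then 1 else 0) +
        f (A ∩ Z) * (if x ∈ A then 0 else 1) * (if l1_succ G b T A then 1 else 0) := by
      funext A
      by_cases h : x ∈ A
      · simp [l1_succ, h]
      · simp [l1_succ, h]
    rw [hsplit, I_Ex_add, e1, e2, I_Ex_mem p Z x hx f, I_Ex_not_mem p Z x hx f]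
    simp only [BT.ev]
    ring

omit [Fintype V] in
theorem l1_ev_nonneg {p : ℝ} (hp0 : 0 ≤ p) (hp1 : p ≤ 1) (G : Finset V → Prop) (t : BT V) :
    ∀ T, 0 ≤ t.ev p (ind G) T := by
  induction t with
  | win =>
    intro T
    simp only [BT.ev, ind]
    positivity
  | lose => exact fun T => le_rfl
  | ask x a b iha ihb =>
    intro T
    have hq : 0 ≤ 1 - p := by linarith
    exact add_nonneg (mul_nonneg hp0 (iha _)) (mul_nonneg hq (ihb _))

open Classical in
theorem l1_sum_pr {p : ℝ} (hp0 : 0 ≤ p) (hp1 : p ≤ 1) {κ : Type*} (J : Finset κ)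
    (S : κ → Finset V) (D : ℝ) (G : Finset V → Prop)
    (hD : ∀ T, G T → ∑ j ∈ J, p ^ (S j \ T).card ≤ D) (t : BT V) :
    ∀ (Z T0 : Finset V), t.Valid Z → T0 ⊆ Z →
    ∑ j ∈ J, Ex p (fun A => (if A ∩ Z = T0 then (1 : ℝ) else 0) *
      ((if l1_succ G t T0 A then 1 else 0) * (if S j ⊆ A then 1 else 0))) ≤
      D * (Ex p (fun A => if A ∩ Z = T0 then (1 : ℝ) else 0) * t.ev p (ind G) T0) := by
  induction t with
  | win =>
    intro Z T0 _ hT
    by_cases hG : G T0
    · have h1 := hD T0 hG
      simp only [l1_succ, hG, if_true, one_mul, BT.ev, ind, mul_one]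
      have h0 : 0 ≤ Ex p (fun A => if A ∩ Z = T0 then (1 : ℝ) else 0) := by
        rw [← Pr_eq_Ex]
        exact Pr_nonneg hp0 hp1 _
      calc _ ≤ ∑ j ∈ J, Ex p (fun A => if A ∩ Z = T0 then (1 : ℝ) else 0) *
            p ^ (S j \ T0).card := Finset.sum_le_sum fun j _ => I_base hp0 hp1 Z T0 (S j) hT
        _ = Ex p (fun A => if A ∩ Z = T0 then (1 : ℝ) else 0) *
            ∑ j ∈ J, p ^ (S j \ T0).card := by rw [Finset.mul_sum]
        _ ≤ Ex p (fun A => if A ∩ Z = T0 then (1 : ℝ) else 0) * D :=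
            mul_le_mul_of_nonneg_left h1 h0
        _ = _ := by ring
    · simp [l1_succ, BT.ev, ind, hG, Ex]
  | lose =>
    intro Z T0 _ hT
    simp [l1_succ, BT.ev, Ex]
  | ask x a b iha ihb =>
    intro Z T0 hv hT
    obtain ⟨hx, h1, h2⟩ := hv
    have hxT : x ∉ T0 := fun h => hx (hT h)
    have e1 := iha (insert x Z) (insert x T0) h1 (Finset.insert_subset_insert _ hT)
    have e2 := ihb (insert x Z) T0 h2 (hT.trans (Finset.subset_insert _ _))
    have c1 : ∀ A : Finset V, (if A ∩ insert x Z = insert x T0 then (1 : ℝ) else 0) =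
        (if A ∩ Z = T0 then (1 : ℝ) else 0) * (if x ∈ A then 1 else 0) := by
      intro A
      have : A ∩ insert x Z = insert x T0 ↔ A ∩ Z = T0 ∧ x ∈ A := by
        constructor
        · intro h
          have hxA : x ∈ A := by
            have : x ∈ A ∩ insert x Z := by rw [h]; simp
            exact (Finset.mem_inter.1 this).1
          refine ⟨?_, hxA⟩
          ext y
          constructor
          · intro hy
            have hy' := Finset.mem_inter.1 hy
            have : y ∈ A ∩ insert x Z := by simp [hy'.1, hy'.2]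
            rw [h, Finset.mem_insert] at this
            rcases this with rfl | h3
            · exact absurd hy'.2 hx
            · exact h3
          · intro hy
            have : y ∈ A ∩ insert x Z := by rw [h]; simp [hy]
            exact Finset.mem_inter.2 ⟨(Finset.mem_inter.1 this).1, hT hy⟩
        · rintro ⟨h, hxA⟩
          rw [Finset.inter_insert_of_mem hxA, h]
      simp only [this]
      by_cases ha : A ∩ Z = T0 <;> by_cases hb : x ∈ A <;> simp [ha, hb]
    have c2 : ∀ A : Finset V, (if A ∩ insert x Z = T0 then (1 : ℝ) else 0) =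
        (if A ∩ Z = T0 then (1 : ℝ) else 0) * (if x ∈ A then 0 else 1) := by
      intro A
      have : A ∩ insert x Z = T0 ↔ A ∩ Z = T0 ∧ x ∉ A := by
        constructor
        · intro h
          have hxA : x ∉ A := by
            intro hxA
            have : x ∈ A ∩ insert x Z := by simp [hxA]
            rw [h] at this
            exact hxT this
          refine ⟨?_, hxA⟩
          rw [← h, Finset.inter_insert_of_notMem hxA]
        · rintro ⟨h, hxA⟩
          rw [Finset.inter_insert_of_notMem hxA, h]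
      simp only [this]
      by_cases ha : A ∩ Z = T0 <;> by_cases hb : x ∈ A <;> simp [ha, hb]
    simp only [c1, c2] at e1 e2
    have m1 := I_Ex_mem p Z x hx (fun B => if B = T0 then (1 : ℝ) else 0)
    have m2 := I_Ex_not_mem p Z x hx (fun B => if B = T0 then (1 : ℝ) else 0)
    rw [m1] at e1
    rw [m2] at e2
    have hsplit : ∀ j, Ex p (fun A => (if A ∩ Z = T0 then (1 : ℝ) else 0) *
        ((if l1_succ G (BT.ask x a b) T0 A then 1 else 0) * (if S j ⊆ A then 1 else 0))) =
        Ex p (fun A => (if A ∩ Z = T0 then (1 : ℝ) else 0) * (if x ∈ A then 1 else 0) *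
          ((if l1_succ G a (insert x T0) A then 1 else 0) * (if S j ⊆ A then 1 else 0))) +
        Ex p (fun A => (if A ∩ Z = T0 then (1 : ℝ) else 0) * (if x ∈ A then 0 else 1) *
          ((if l1_succ G b T0 A then 1 else 0) * (if S j ⊆ A then 1 else 0))) := by
      intro j
      rw [← I_Ex_add]
      congr 1
      funext A
      by_cases h : x ∈ A
      · simp [l1_succ, h]
      · simp [l1_succ, h]
    rw [Finset.sum_congr rfl fun j _ => hsplit j, Finset.sum_add_distrib]
    simp only [BT.ev]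
    calc _ ≤ _ := add_le_add e1 e2
      _ = _ := by ring

/-- abstract second moment bound -/
theorem l1_abs {p : ℝ} (hp0 : 0 ≤ p) (hp1 : p ≤ 1) {ι κ : Type*} (I : Finset ι)
    (E : ι → Finset V → Prop) (J : Finset κ) (S : κ → Finset V) (D : ℝ) (hD0 : 0 ≤ D)
    (hdom : ∀ A : Finset V, {i | i ∈ I ∧ E i A}.ncard ≤ {j | j ∈ J ∧ S j ⊆ A}.ncard)
    (hD : ∀ i ∈ I, ∑ j ∈ J, Pr p (fun A => E i A ∧ S j ⊆ A) ≤ D * Pr p (E i)) :
    ∑ i ∈ I, Pr p (E i) ≤ D * Pr p (fun A => ∃ i ∈ I, E i A) := by
  classical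
  set X : Finset V → ℝ := fun A => ∑ i ∈ I, (if E i A then (1 : ℝ) else 0) with hX
  set Y : Finset V → ℝ := fun A => ∑ j ∈ J, (if S j ⊆ A then (1 : ℝ) else 0) with hY
  have hXY : ∀ A, X A ≤ Y A := by
    intro A
    have h := hdom A
    have h1 : {i | i ∈ I ∧ E i A} = ((I.filter fun i => E i A : Finset ι) : Set ι) := by
      ext i; simp
    have h2 : {j | j ∈ J ∧ S j ⊆ A} = ((J.filter fun j => S j ⊆ A : Finset κ) : Set κ) := by
      ext i; simp
    rw [h1, h2, Set.ncard_coe_finset, Set.ncard_coe_finset] at h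
    simp only [hX, hY, Finset.sum_boole]
    exact_mod_cast h
  have hX0 : ∀ A, 0 ≤ X A := fun A => Finset.sum_nonneg fun i _ => by positivity
  set v := ∑ i ∈ I, Pr p (E i) with hvdef
  have hv0 : 0 ≤ v := Finset.sum_nonneg fun i _ => Pr_nonneg hp0 hp1 _
  have hEX : Ex p X = v := by
    rw [hX, I_Ex_sum]
    refine Finset.sum_congr rfl fun i hi => ?_
    rw [← Pr_eq_Ex]
  have hEX2 : Ex p (fun A => X A * X A) ≤ D * v := by
    calc Ex p (fun A => X A * X A) ≤ Ex p (fun A => X A * Y A) :=
          I_Ex_mono hp0 hp1 fun A => mul_le_mul_of_nonneg_left (hXY A) (hX0 A)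
      _ = ∑ i ∈ I, ∑ j ∈ J, Pr p (fun A => E i A ∧ S j ⊆ A) := by
          have : (fun A => X A * Y A) = fun A => ∑ i ∈ I, ∑ j ∈ J,
              (if E i A ∧ S j ⊆ A then (1 : ℝ) else 0) := by
            funext A
            simp only [hX, hY, Finset.sum_mul_sum]
            refine Finset.sum_congr rfl fun i _ => Finset.sum_congr rfl fun j _ => ?_
            by_cases h1 : E i A <;> by_cases h2 : S j ⊆ A <;> simp [h1, h2]
          rw [this, I_Ex_sum]
          refine Finset.sum_congr rfl fun i _ => ?_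
          rw [I_Ex_sum]
          exact Finset.sum_congr rfl fun j _ => (Pr_eq_Ex _).symm
      _ ≤ ∑ i ∈ I, D * Pr p (E i) := Finset.sum_le_sum fun i hi => hD i hi
      _ = D * v := by rw [hvdef, Finset.mul_sum]
  set P := Pr p (fun A => ∃ i ∈ I, E i A) with hP
  have hP0 : 0 ≤ P := Pr_nonneg hp0 hp1 _
  rcases hv0.eq_or_lt with h0 | hpos
  · rw [← h0]
    exact mul_nonneg hD0 hP0
  · have hXX : ∀ A, X A ≤ X A * X A := by
      intro A
      simp only [hX, Finset.sum_boole]
      rcases Nat.eq_zero_or_pos (I.filter fun i => E i A).card with h | h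
      · simp [h]
      · have : (1 : ℝ) ≤ ((I.filter fun i => E i A).card : ℝ) := by exact_mod_cast h
        nlinarith
    have hD1 : v ≤ D * v := by
      rw [← hEX]
      exact (I_Ex_mono hp0 hp1 hXX).trans (hEX ▸ hEX2)
    have hDpos : 0 < D := by
      by_contra hneg
      have : D * v ≤ 0 := mul_nonpos_of_nonpos_of_nonneg (not_lt.1 hneg) hv0
      linarith
    have hquad : 0 ≤ Ex p (fun A => X A * X A) + (-2 * D) * Ex p X + D ^ 2 * P := by
      have e : Ex p (fun A => X A * X A) + (-2 * D) * Ex p X + D ^ 2 * P =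
          Ex p (fun A => (X A * X A + (-2 * D) * X A) +
            D ^ 2 * (if ∃ i ∈ I, E i A then (1 : ℝ) else 0)) := by
        rw [I_Ex_add, I_Ex_add, I_Ex_mul, I_Ex_mul, hP, Pr_eq_Ex]
      rw [e]
      have z : Ex p (fun _ : Finset V => (0 : ℝ)) = 0 := by simp [Ex]
      refine z.symm.le.trans (I_Ex_mono hp0 hp1 fun A => ?_)
      by_cases h : ∃ i ∈ I, E i A
      · rw [if_pos h]
        nlinarith [sq_nonneg (X A - D)]
      · rw [if_neg h]
        have : X A = 0 := by
          refine Finset.sum_eq_zero fun i hi => ?_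
          rw [if_neg]
          intro hs
          exact h ⟨i, hi, hs⟩
        rw [this]
        simp
    rw [hEX] at hquad
    have h1 : D * v ≤ D * (D * P) := by nlinarith
    exact le_of_mul_le_mul_left h1 hDpos

end

section
variable {V : Type} [DecidableEq V] {p : ℝ}

/-- second moment method for a family of decision trees -/
theorem ach_second_moment [Fintype V] (hp0 : 0 ≤ p) (hp1 : p ≤ 1) {ι κ : Type*} (I : Finset ι)
    (J : Finset κ) (S : κ → Finset V) (D : ℝ) (Good : ι → Finset V → Prop) (v : ι → ℝ)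
    (hach : ∀ i ∈ I, Ach p (ind (Good i)) ∅ ∅ (v i))
    (hdom : ∀ A : Finset V, {i | i ∈ I ∧ ∃ T ⊆ A, Good i T}.ncard ≤ {j | j ∈ J ∧ S j ⊆ A}.ncard)
    (hD : ∀ i ∈ I, ∀ T, Good i T → ∑ j ∈ J, p ^ (S j \ T).card ≤ D) :
    ∑ i ∈ I, v i ≤ D * Pr p (fun A => ∃ i ∈ I, ∃ T ⊆ A, Good i T) := by
  classical
  have hne : Nonempty (BT V) := ⟨BT.win⟩
  choose! t ht hv using hach
  have hPr : ∀ i ∈ I, Pr p (fun A => l1_succ (Good i) (t i) ∅ A) =
      (t i).ev p (ind (Good i)) ∅ := by
    intro i hi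
    have h := l1_pr_succ p (Good i) (t i) ∅ ∅ (ht i hi) (fun _ => 1)
    simp only [one_mul, Ex_one] at h
    rw [Pr_eq_Ex]
    exact h
  have hfound : ∀ (i : ι) (A : Finset V), l1_succ (Good i) (t i) ∅ A → ∃ T ⊆ A, Good i T :=
    fun i A h => l1_found (Good i) (t i) ∅ A (Finset.empty_subset _) h
  have hdom' : ∀ A : Finset V, {i | i ∈ I ∧ l1_succ (Good i) (t i) ∅ A}.ncard ≤
      {j | j ∈ J ∧ S j ⊆ A}.ncard := by
    intro A
    refine (Set.ncard_le_ncard ?_ ?_).trans (hdom A)
    · rintro i ⟨hi, h⟩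
      exact ⟨hi, hfound i A h⟩
    · exact I.finite_toSet.subset fun i hi => hi.1
  have hD' : ∀ i ∈ I, ∑ j ∈ J, Pr p (fun A => l1_succ (Good i) (t i) ∅ A ∧ S j ⊆ A) ≤
      max D 0 * Pr p (fun A => l1_succ (Good i) (t i) ∅ A) := by
    intro i hi
    have h := l1_sum_pr hp0 hp1 J S (max D 0) (Good i)
      (fun T hT => (hD i hi T hT).trans (le_max_left _ _)) (t i) ∅ ∅ (ht i hi)
      (Finset.Subset.refl _)
    simp only [Finset.inter_empty, if_true, one_mul, Ex_one] at h
    rw [hPr i hi]
    refine le_trans (le_of_eq ?_) h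
    refine Finset.sum_congr rfl fun j _ => ?_
    rw [Pr_eq_Ex]
    congr 1
    funext A
    by_cases h1 : l1_succ (Good i) (t i) ∅ A <;> by_cases h2 : S j ⊆ A <;> simp [h1, h2]
  have h1 := l1_abs hp0 hp1 I (fun i A => l1_succ (Good i) (t i) ∅ A) J S (max D 0)
    (le_max_right _ _) hdom' hD'
  have h2 : ∑ i ∈ I, v i ≤ ∑ i ∈ I, Pr p (fun A => l1_succ (Good i) (t i) ∅ A) :=
    Finset.sum_le_sum fun i hi => by
      rw [hPr i hi]
      exact hv i hi
  have h3 : Pr p (fun A => ∃ i ∈ I, l1_succ (Good i) (t i) ∅ A) ≤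
      Pr p (fun A => ∃ i ∈ I, ∃ T ⊆ A, Good i T) := by
    rw [Pr_eq_Ex, Pr_eq_Ex]
    refine I_Ex_mono hp0 hp1 fun A => ?_
    by_cases h : ∃ i ∈ I, l1_succ (Good i) (t i) ∅ A
    · have h' : ∃ i ∈ I, ∃ T ⊆ A, Good i T := by
        obtain ⟨i, hi, hs⟩ := h
        exact ⟨i, hi, hfound i A hs⟩
      rw [if_pos h, if_pos h']
    · rw [if_neg h]
      positivity
  refine (h2.trans h1).trans ((mul_le_mul_of_nonneg_left h3 (le_max_right _ _)).trans
    (le_of_eq ?_))
  rcases le_or_gt 0 D with hD0 | hD0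
  · rw [max_eq_left hD0]
  · have hno : ∀ i ∈ I, ∀ T, ¬ Good i T := by
      intro i hi T hT
      have h4 := hD i hi T hT
      have h5 : 0 ≤ ∑ j ∈ J, p ^ (S j \ T).card := Finset.sum_nonneg fun j _ => by positivity
      linarith
    have h6 : Pr p (fun A => ∃ i ∈ I, ∃ T ⊆ A, Good i T) = 0 := by
      rw [Pr_eq_Ex]
      have h7 : (fun A : Finset V => if ∃ i ∈ I, ∃ T ⊆ A, Good i T then (1 : ℝ) else 0) =
          fun _ => 0 := by
        funext A
        rw [if_neg]
        rintro ⟨i, hi, T, _, hT⟩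
        exact hno i hi T hT
      rw [h7]
      simp [Ex]
    rw [h6, mul_zero, mul_zero]

end

end Pool.Agent.Lib.MP_8501c9_pr.Wide
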