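import Pool.Agent.Lib.MP_8501c9_pr.Wide.DefsC
import Pool.Agent.Lib.MP_8501c9_pr.Wide.Tree2
import Pool.Agent.Lib.MP_8501c9_pr.Mid.UpperMid

/-!
# Task A7: from the growth started at one point to percolation
-/

set_option autoImplicit false
open Set

namespace Pool.Agent.Lib.MP_8501c9_pr.Wide

open Pool.Agent.Lib.MP_8501c9_pr Pool.Agent.Lib.MP_8501c9_pr.Mid

variable {n d : ℕ}

/-- the found set spans a cube of side `Y` around the point -/
def y7_good (Y : ℕ) (z : Vtx n d) (T : Finset (Vtx n d)) : Prop :=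
  ∃ Z, Cst z (fun _ => Y) Z T

theorem y7_spec {Y : ℕ} (hY : 1 ≤ Y) {z : Vtx n d} {T : Finset (Vtx n d)} (h : y7_good Y z T) :
    ∃ Q : BoxT n d, Q.1 ≤ z ∧ z ≤ Q.2 ∧ (∀ m, sd Q m = Y) ∧ phi Q = d * (Y - 1) ∧
      2 * T.card = phi Q + 2 ∧
      (∀ x, Q.1 ≤ x → x ≤ Q.2 →
        x ∈ bclosure 2 ((T : Set (Vtx n d)) ∩ {y | Q.1 ≤ y ∧ y ≤ Q.2})) ∧
      ∀ K, 2 * K ≤ phi Q → ∃ S ⊆ T, z ∈ S ∧ S.card = K + 1 ∧
        ∀ y ∈ S, ∑ i, (((y i : ℕ) - z i) + ((z i : ℕ) - y i)) ≤ 2 * K := by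
  obtain ⟨Z, Q', Q, hM⟩ := h
  have hsd : ∀ m, sd Q m = Y := by
    intro m
    have := hM.sides m
    simpa using this
  have hphi : phi Q = d * (Y - 1) := by
    unfold phi
    have : ∀ i ∈ (Finset.univ : Finset (Fin d)), ((Q.2 i : ℕ) - Q.1 i) = Y - 1 := by
      intro i _
      have := hsd i
      unfold sd at this
      omega
    rw [Finset.sum_congr rfl this]
    simp
  have hc := hM.inv.card
  rw [Finset.sdiff_empty] at hc
  refine ⟨Q, hM.inv.mem.1, hM.inv.mem.2, hsd, hphi, hc, hM.inv.fill, ?_⟩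
  intro K hK
  have := hM.inv.seed K hK
  rw [Finset.sdiff_empty] at this
  exact this

theorem y7_event {Y w B : ℕ} (hY : 1 ≤ Y) (hYw : Y ≤ w) {o : Fin d → ℕ} {z : Vtx n d}
    (hz : z ∈ Q_I n d w B o) {T A : Finset (Vtx n d)} (hTA : T ⊆ A) (h : y7_good Y z T) :
    ∃ R : BoxT n d, R.1 ≤ R.2 ∧ (∀ i, Y ≤ sd R i) ∧ ∀ x, R.1 ≤ x → x ≤ R.2 →
        x ∈ bclosure 2 ((A : Set (Vtx n d)) ∩ nbox o (fun _ => B)) := by
  obtain ⟨Q, hz1, hz2, hsd, hphi, hcard, hfill, hseed⟩ := y7_spec hY h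
  refine ⟨Q, hz1.trans hz2, fun i => (hsd i).ge, fun x hx1 hx2 => ?_⟩
  refine bclosure_mono 2 ?_ (hfill x hx1 hx2)
  rintro y ⟨hyT, hy1, hy2⟩
  refine ⟨hTA hyT, fun i => ?_⟩
  have h1 := Q_mem_I.1 hz i
  have h2 := hsd i
  unfold sd at h2
  have h3 : (Q.1 i : ℕ) ≤ z i := hz1 i
  have h4 : (z i : ℕ) ≤ Q.2 i := hz2 i
  have h5 : (Q.1 i : ℕ) ≤ y i := hy1 i
  have h6 : (y i : ℕ) ≤ Q.2 i := hy2 i
  constructor
  · omega
  · change (y i : ℕ) < o i + B
    omega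

theorem y7_moment {Y w B : ℕ} (hd : 1 ≤ d) (hY : 5 ≤ Y) (hYw : Y ≤ w) (hw : 1 ≤ w)
    {o : Fin d → ℕ} {p D W : ℝ} {m : ℕ} (hm : d * (Y - 1) ≤ 2 * m)
    (hp0 : 0 ≤ p) (hp1 : p ≤ 1)
    (hD : (B : ℝ) ^ d * (2 * d + 1) ^ (2 * 2 * (2 + 1)) * p ^ (2 + 1) +
        ((m : ℝ) + 1) * (2 * d + 1) ^ (2 * 2 * (2 + 2)) ≤ D)
    (hach : ∀ z ∈ Q_I n d w B o, Ach p (ind (y7_good Y z)) ∅ ∅ W) :
    ((Q_I n d w B o).card : ℝ) * W ≤
      D * Pr p (fun A : Finset (Vtx n d) =>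
      ∃ R : BoxT n d, R.1 ≤ R.2 ∧ (∀ i, Y ≤ sd R i) ∧ ∀ x, R.1 ≤ x → x ≤ R.2 →
        x ∈ bclosure 2 ((A : Set (Vtx n d)) ∩ nbox o (fun _ => B))) := by
  classical
  have hD0 : 0 ≤ D := le_trans (by positivity) hD
  have h1 := ach_second_moment hp0 hp1 (Q_I n d w B o) (seedJ 2 B o) (fun j => j.2) D
    (fun z T => y7_good Y z T) (fun _ => W) hach ?_ ?_
  · rw [Finset.sum_const, nsmul_eq_mul] at h1
    refine h1.trans (mul_le_mul_of_nonneg_left ?_ hD0)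
    apply Pr_mono hp0 hp1
    rintro A ⟨z, hz, T, hTA, hT⟩
    exact y7_event (by omega) hYw hz hTA hT
  · intro A
    have hch : ∀ z : Vtx n d, ∃ S : Finset (Vtx n d),
        (∃ T ⊆ A, y7_good Y z T) → S ⊆ A ∧ z ∈ S ∧ S.card = 2 + 1 ∧
        ∀ y ∈ S, ∑ i, (((y i : ℕ) - z i) + ((z i : ℕ) - y i)) ≤ 2 * 2 := by
      intro z
      by_cases h : ∃ T ⊆ A, y7_good Y z T
      · obtain ⟨T, hTA, hT⟩ := h
        obtain ⟨Q, -, -, -, hphi, -, -, hseed⟩ := y7_spec (by omega) hT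
        have h4 : 2 * 2 ≤ phi Q := by
          rw [hphi]
          calc 2 * 2 = 1 * 4 := by norm_num
            _ ≤ d * (Y - 1) := Nat.mul_le_mul hd (by omega)
        obtain ⟨S, hS1, hS2, hS3, hS4⟩ := hseed 2 h4
        exact ⟨S, fun _ => ⟨hS1.trans hTA, hS2, hS3, hS4⟩⟩
      · exact ⟨∅, fun h' => absurd h' h⟩
    choose S hS using hch
    apply Set.ncard_le_ncard_of_injOn (fun z => (z, S z))
    · rintro z ⟨hzI, hz⟩
      obtain ⟨h1, h2, h3, h4⟩ := hS z hz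
      refine ⟨?_, h1⟩
      unfold seedJ
      rw [Finset.mem_filter]
      refine ⟨Finset.mem_univ _, ?_, h2, h3, h4⟩
      intro i
      have := Q_mem_I.1 hzI i
      constructor
      · change o i ≤ (z i : ℕ)
        omega
      · change (z i : ℕ) < o i + B
        omega
    · intro z _ z' _ hzz
      exact (Prod.mk.inj hzz).1
  · intro z _ T hT
    obtain ⟨Q, -, -, -, hphi, hcard, -, -⟩ := y7_spec (by omega) hT
    have hcard' : T.card ≤ m + 1 := by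
      rw [hphi] at hcard
      omega
    exact (seeds_sum_le 2 B o hp0 hp1 m T hcard').trans hD

/-- success in one cell -/
theorem y7_box {Y w B : ℕ} (hd : 1 ≤ d) (hY : 5 ≤ Y) (hYw : Y ≤ w)
    {o : Fin d → ℕ} (ho : ∀ i, o i + B ≤ n) {p D W q : ℝ} {m : ℕ} (hm : d * (Y - 1) ≤ 2 * m)
    (hp0 : 0 ≤ p) (hp1 : p ≤ 1) (hD0 : 0 < D) (hW : 0 ≤ W)
    (hD : (B : ℝ) ^ d * (2 * d + 1) ^ (2 * 2 * (2 + 1)) * p ^ (2 + 1) +
        ((m : ℝ) + 1) * (2 * d + 1) ^ (2 * 2 * (2 + 2)) ≤ D)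
    (hach : ∀ z : Vtx n d, Room w z → Ach p (ind (y7_good Y z)) ∅ ∅ W)
    (hq : q = ((B - 2 * w : ℕ) : ℝ) ^ d * (W / D)) :
    q ≤ Pr p (fun A : Finset (Vtx n d) =>
      ∃ R : BoxT n d, R.1 ≤ R.2 ∧ (∀ i, Y ≤ sd R i) ∧ ∀ x, R.1 ≤ x → x ≤ R.2 →
        x ∈ bclosure 2 ((A : Set (Vtx n d)) ∩ nbox o (fun _ => B))) := by
  have h1 := y7_moment (n := n) (B := B) hd hY hYw (by omega) (o := o) (W := W) hm hp0 hp1 hD
    (fun z hz => hach z (Q_room ho hz))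
  have h2 : ((B - 2 * w : ℕ) : ℝ) ^ d * W ≤ ((Q_I n d w B o).card : ℝ) * W := by
    gcongr
    exact_mod_cast Q_card_I ho
  have h5 := h2.trans h1
  rw [hq, ← mul_div_assoc, div_le_iff₀ hD0]
  linarith

/-! ### numerical facts -/

open Filter in
theorem y7_ev_D {b : ℝ} (hb : 0 < b) : ∀ᶠ d : ℕ in atTop,
    (2 * (d : ℝ) + 1) ^ (2 * 2 * (2 + 1)) +
      ((d : ℝ) * (d + 3) + 1) * (2 * d + 1) ^ (2 * 2 * (2 + 2)) ≤ Real.exp (b * d) := by
  filter_upwards [Q_ev_rpow (3 ^ 12 + 5 * 3 ^ 16) ((18 : ℕ) : ℝ) b hb,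
    eventually_ge_atTop 1] with d hd hd1
  refine le_trans ?_ hd
  have hd1' : (1 : ℝ) ≤ d := by exact_mod_cast hd1
  rw [Real.rpow_natCast]
  have h1 : (2 * (d : ℝ) + 1) ^ (2 * 2 * (2 + 1)) ≤ 3 ^ 12 * (d : ℝ) ^ 18 := by
    calc (2 * (d : ℝ) + 1) ^ (2 * 2 * (2 + 1)) ≤ (3 * d) ^ 12 := by
          norm_num
          gcongr
          linarith
      _ = 3 ^ 12 * (d : ℝ) ^ 12 := by rw [mul_pow]
      _ ≤ 3 ^ 12 * (d : ℝ) ^ 18 := by
          gcongr
          norm_num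
  have h2 : ((d : ℝ) * (d + 3) + 1) * (2 * d + 1) ^ (2 * 2 * (2 + 2)) ≤
      5 * 3 ^ 16 * (d : ℝ) ^ 18 := by
    have h3 : (d : ℝ) * (d + 3) + 1 ≤ 5 * (d : ℝ) ^ 2 := by nlinarith
    calc ((d : ℝ) * (d + 3) + 1) * (2 * (d : ℝ) + 1) ^ (2 * 2 * (2 + 2))
        ≤ (5 * (d : ℝ) ^ 2) * (3 * d) ^ 16 := by
          norm_num
          gcongr
          linarith
      _ = 5 * 3 ^ 16 * (d : ℝ) ^ 18 := by ring
  linarith

open Filter in
theorem y7_ev_layer : ∀ᶠ d : ℕ in atTop,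
    (2 * ((d : ℝ) + 2)) * ((d : ℝ) ^ 8 * (Real.log d + (d + 1) * (d : ℝ) ^ 3 + 2)) ≤ 2 ^ d := by
  filter_upwards [Q_ev_rpow 30 ((13 : ℕ) : ℝ) (Real.log 2)
    (Real.log_pos one_lt_two), eventually_ge_atTop 1] with d hd hd1
  have hd1' : (1 : ℝ) ≤ d := by exact_mod_cast hd1
  have hd0 : (0 : ℝ) < d := by linarith
  have e1 : Real.exp (Real.log 2 * d) = 2 ^ d := by
    rw [mul_comm, Real.exp_nat_mul, Real.exp_log two_pos]
  rw [e1] at hd
  refine le_trans ?_ hd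
  rw [Real.rpow_natCast]
  have h2 : Real.log d ≤ d := (Real.log_le_sub_one_of_pos hd0).trans (by linarith)
  have h0 : (1 : ℝ) ≤ (d : ℝ) ^ 4 := one_le_pow₀ hd1'
  have h3 : (d : ℝ) ≤ (d : ℝ) ^ 4 := by
    calc (d : ℝ) = (d : ℝ) ^ 1 := by ring
      _ ≤ (d : ℝ) ^ 4 := pow_le_pow_right₀ hd1' (by norm_num)
  have h4 : ((d : ℝ) + 1) * (d : ℝ) ^ 3 ≤ 2 * (d : ℝ) ^ 4 := by
    calc ((d : ℝ) + 1) * (d : ℝ) ^ 3 ≤ (2 * d) * (d : ℝ) ^ 3 := by gcongr; linarith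
      _ = _ := by ring
  have h5 : Real.log d + (d + 1) * (d : ℝ) ^ 3 + 2 ≤ 5 * (d : ℝ) ^ 4 := by linarith
  calc (2 * ((d : ℝ) + 2)) * ((d : ℝ) ^ 8 * (Real.log d + (d + 1) * (d : ℝ) ^ 3 + 2))
      ≤ (2 * (3 * d)) * ((d : ℝ) ^ 8 * (5 * (d : ℝ) ^ 4)) := by
        have : 0 ≤ Real.log d := Real.log_nonneg hd1'
        gcongr
        linarith
    _ = _ := by ring

/-- failure of the layers -/
theorem y7_layer {n d k : ℕ} {L : ℝ} (hd : 1 ≤ d)
    (hev : (2 * ((d : ℝ) + 2)) * ((d : ℝ) ^ 8 * (Real.log d + (d + 1) * (d : ℝ) ^ 3 + 2)) ≤ 2 ^ d)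
    (hn : 1 ≤ n) (hk : k ≤ d ^ 2) (hlog : Real.log n ≤ (d : ℝ) ^ 3)
    (hL : L ≤ sfun d k + 8 * Real.log d) (hL0 : 0 ≤ L) :
    d * (n : ℝ) ^ (d + 1) * (1 - Real.exp (-L)) ^ ((2 * lev d k + 5) ^ (d - 1)) ≤ 1 / 4 := by
  have hd0 : (0 : ℝ) < d := by exact_mod_cast hd
  have hn0 : (0 : ℝ) < n := by exact_mod_cast hn
  set l := lev d k with hl
  have hld : l ≤ d + 1 := by
    rw [hl]
    unfold lev
    have : k / d ≤ d := by
      apply Nat.div_le_of_le_mul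
      rw [← pow_two]
      exact hk
    omega
  have hkl : k ≤ l * d := by
    rw [hl]
    unfold lev
    have h1 := Nat.div_add_mod k d
    have h2 := Nat.mod_lt k hd
    nlinarith
  set N : ℕ := (2 * l + 5) ^ (d - 1) with hN
  have hp1 : 0 ≤ 1 - Real.exp (-L) := by
    have : Real.exp (-L) ≤ 1 := Real.exp_le_one_iff.mpr (by linarith)
    linarith
  have h1 : (1 - Real.exp (-L)) ^ N ≤ Real.exp (-(Real.exp (-L) * N)) := by
    have h2 : 1 - Real.exp (-L) ≤ Real.exp (-Real.exp (-L)) := by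
      have := Real.add_one_le_exp (-Real.exp (-L))
      linarith
    calc (1 - Real.exp (-L)) ^ N ≤ (Real.exp (-Real.exp (-L))) ^ N := by gcongr
      _ = Real.exp (-(Real.exp (-L) * N)) := by
          rw [← Real.exp_nat_mul]; congr 1; ring
  -- the exponent
  have h3 : Real.log d + (d + 1) * (d : ℝ) ^ 3 + 2 ≤ Real.exp (-L) * N := by
    have h4 : L ≤ d * Real.log (l + 1) + 8 * Real.log d := by
      have := Q_sfun_le hd hkl
      linarith
    have h5 : Real.exp (-(d * Real.log (l + 1) + 8 * Real.log d)) ≤ Real.exp (-L) :=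
      Real.exp_le_exp.mpr (by linarith)
    have hM1 : (0 : ℝ) < l + 1 := by positivity
    have h6 : Real.exp (-(d * Real.log (l + 1) + 8 * Real.log d)) =
        (((l : ℝ) + 1) ^ d)⁻¹ * ((d : ℝ) ^ 8)⁻¹ := by
      have h8 : Real.exp (8 * Real.log d) = (d : ℝ) ^ 8 := by
        have := Real.exp_nat_mul (Real.log d) 8
        push_cast at this
        rw [this, Real.exp_log hd0]
      rw [neg_add, Real.exp_add, Real.exp_neg, Real.exp_neg, Real.exp_nat_mul,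
        Real.exp_log hM1, h8]
    have h7 : (2 : ℝ) ^ d * ((l : ℝ) + 1) ^ d ≤ (2 * ((d : ℝ) + 2)) * (N : ℝ) := by
      have h8 : (2 : ℝ) ^ d * ((l : ℝ) + 1) ^ d =
          (2 * ((l : ℝ) + 1)) * (2 * ((l : ℝ) + 1)) ^ (d - 1) := by
        rw [← mul_pow, ← pow_succ']
        congr 1
        omega
      rw [h8, hN]
      push_cast
      have hld' : (l : ℝ) ≤ d + 1 := by exact_mod_cast hld
      have h9 : 2 * ((l : ℝ) + 1) ≤ 2 * ((d : ℝ) + 2) := by linarith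
      have h10 : 2 * ((l : ℝ) + 1) ≤ 2 * (l : ℝ) + 5 := by linarith
      have h11 : (2 * ((l : ℝ) + 1)) ^ (d - 1) ≤ (2 * (l : ℝ) + 5) ^ (d - 1) :=
        pow_le_pow_left₀ (by positivity) h10 _
      exact mul_le_mul h9 h11 (by positivity) (by positivity)
    have hE : 0 < (d : ℝ) ^ 8 := by positivity
    have hMd : 0 < ((l : ℝ) + 1) ^ d := by positivity
    have h9 : Real.log d + (d + 1) * (d : ℝ) ^ 3 + 2 ≤
        (((l : ℝ) + 1) ^ d)⁻¹ * ((d : ℝ) ^ 8)⁻¹ * N := by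
      rw [← mul_inv, inv_mul_eq_div, le_div_iff₀ (by positivity)]
      have h23 : (0 : ℝ) < 2 * ((d : ℝ) + 2) := by positivity
      have h10 := mul_le_mul_of_nonneg_right hev hMd.le
      have h11 := h10.trans h7
      have h12 : (2 * ((d : ℝ) + 2)) * ((Real.log d + (d + 1) * (d : ℝ) ^ 3 + 2) *
          (((l : ℝ) + 1) ^ d * (d : ℝ) ^ 8)) ≤ (2 * ((d : ℝ) + 2)) * N := by
        refine le_trans (le_of_eq ?_) h11
        ring
      exact le_of_mul_le_mul_left h12 h23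
    calc _ ≤ (((l : ℝ) + 1) ^ d)⁻¹ * ((d : ℝ) ^ 8)⁻¹ * N := h9
      _ ≤ Real.exp (-L) * N := by rw [← h6]; gcongr
  have h13 : (d : ℝ) * (n : ℝ) ^ (d + 1) ≤ Real.exp (Real.log d + (d + 1) * (d : ℝ) ^ 3) := by
    rw [Real.exp_add, Real.exp_log hd0]
    gcongr
    have : (n : ℝ) ^ (d + 1) = Real.exp ((d + 1) * Real.log n) := by
      rw [show ((d : ℝ) + 1) = ((d + 1 : ℕ) : ℝ) by push_cast; ring, Real.exp_nat_mul,
        Real.exp_log hn0]
    rw [this, Real.exp_le_exp]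
    gcongr
  have h14 : Real.exp (-2) ≤ 1 / 4 := by
    rw [Real.exp_neg, one_div]
    gcongr
    have := Real.add_one_le_exp (1 : ℝ)
    have h2 : Real.exp 2 = Real.exp 1 * Real.exp 1 := by rw [← Real.exp_add]; norm_num
    rw [h2]
    nlinarith
  calc d * (n : ℝ) ^ (d + 1) * (1 - Real.exp (-L)) ^ N
      ≤ Real.exp (Real.log d + (d + 1) * (d : ℝ) ^ 3) * Real.exp (-(Real.exp (-L) * N)) := by
        gcongr
    _ = Real.exp (Real.log d + (d + 1) * (d : ℝ) ^ 3 + -(Real.exp (-L) * N)) := by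
        rw [← Real.exp_add]
    _ ≤ Real.exp (-2) := Real.exp_le_exp.mpr (by linarith)
    _ ≤ 1 / 4 := h14

theorem y7_sfun_ge {d k : ℕ} (hd : 1 ≤ d) : d * Real.log (lev d k) ≤ sfun d k := by
  have h1 : k / d * d ≤ k := Nat.div_mul_le_self k d
  have h2 := sfun_mono d hd h1
  rw [sfun_eq d (k / d * d) hd (k / d) le_rfl (by nlinarith)] at h2
  unfold lev
  push_cast at h2 ⊢
  simpa using h2

/-- from the growth started at one point to percolation -/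
theorem perc_of_ach (ε : ℝ) (hε : 0 < ε) : ∃ A D₀ : ℕ, ∀ (n d k : ℕ) (L V : ℝ), D₀ ≤ d →
    A * d ≤ k → k ≤ d ^ 2 → sfun d k ≤ L → L ≤ sfun d k + 8 * Real.log d →
    (k : ℝ) ≤ 16 * Real.log n → Real.log n ≤ (d : ℝ) ^ 3 →
    (∀ z : Vtx n d, Room (2 * lev d k + 9) z → ∀ (g : Finset (Vtx n d) → ℝ) (v : ℝ), 0 ≤ v →
      (∀ Z T, Cst z (fun _ => 2 * lev d k + 5) Z T → Ach (Real.exp (-L)) g Z T v) →
      Ach (Real.exp (-L)) g ∅ ∅ (Real.exp V * v)) →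
    ε * k ≤ d * Real.log n + V → 1 / 2 ≤ percProb n d 2 (Real.exp (-L)) := by
  classical
  obtain ⟨c, hc⟩ := exists_nat_ge (32 / ε + 4)
  have h32 : 0 ≤ 32 / ε := by positivity
  have hc4 : 4 ≤ c := by
    have : (4 : ℝ) ≤ c := by linarith
    exact_mod_cast this
  have hc32 : 32 / ε ≤ c := by linarith
  have hc0 : (0 : ℝ) < c := by
    have : 0 < c := by omega
    exact_mod_cast this
  have hev1 := Q_ev_rpow (26 * (c : ℝ)) 1 (1 / 16) (by norm_num)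
  have hev2 := y7_ev_D (b := ε / 8) (by positivity)
  have hev3 := y7_ev_layer
  have hev4 : ∀ᶠ d : ℕ in Filter.atTop, 4 / ε ≤ (d : ℝ) :=
    tendsto_natCast_atTop_atTop.eventually_ge_atTop _
  obtain ⟨D₁, hD₁⟩ := Filter.eventually_atTop.1 hev1
  obtain ⟨D₂, hD₂⟩ := Filter.eventually_atTop.1 hev2
  obtain ⟨D₃, hD₃⟩ := Filter.eventually_atTop.1 hev3
  obtain ⟨D₄, hD₄⟩ := Filter.eventually_atTop.1 hev4
  refine ⟨c + 10, D₁ + D₂ + D₃ + D₄ + 2, ?_⟩
  intro n d k L V hd hk1 hk2 hL1 hL2 hn1 hn2 hgrow hmain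
  have hd1 : 1 ≤ d := by omega
  have hd0' : (0 : ℝ) < d := by exact_mod_cast hd1
  have hdk : d ≤ k := by
    have : 1 * d ≤ (c + 10) * d := Nat.mul_le_mul_right d (by omega)
    omega
  have e1 := hD₁ k (by omega)
  have e2 := hD₂ d (by omega)
  have e3 := hD₃ d (by omega)
  have e4 := hD₄ d (by omega)
  rw [Real.rpow_one] at e1
  have hdk' : (d : ℝ) ≤ k := by exact_mod_cast hdk
  have hk0' : (0 : ℝ) < k := by linarith
  -- the level
  set l := lev d k with hl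
  have hl1 : c + 11 ≤ l := by
    rw [hl]
    unfold lev
    have : c + 10 ≤ k / d := (Nat.le_div_iff_mul_le hd1).2 hk1
    omega
  have hld : l ≤ d + 1 := by
    rw [hl]
    unfold lev
    have : k / d ≤ d := by
      apply Nat.div_le_of_le_mul
      rw [← pow_two]
      exact hk2
    omega
  have hlk : l * d ≤ k + d := by
    rw [hl]
    unfold lev
    have h1 : k / d * d ≤ k := Nat.div_mul_le_self k d
    nlinarith
  set w : ℕ := 2 * l + 9 with hw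
  set Y : ℕ := 2 * l + 5 with hY
  set B : ℕ := c * w with hB
  have hw0 : (0 : ℝ) < w := by rw [hw]; positivity
  have hBw : 4 * w ≤ B := Nat.mul_le_mul_right w hc4
  have hB0 : 1 ≤ B := by omega
  have hB0' : (0 : ℝ) < B := by exact_mod_cast hB0
  have hBcast : (B : ℝ) = c * w := by rw [hB]; push_cast; ring
  have hBe : 4 * (w : ℝ) / B ≤ ε / 8 := by
    rw [hBcast, div_le_iff₀ (by positivity)]
    rw [div_le_iff₀ hε] at hc32
    nlinarith
  -- n is large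
  have hn0 : 0 < n := by
    rcases Nat.eq_zero_or_pos n with h | h
    · rw [h] at hn1
      simp only [CharP.cast_eq_zero, Real.log_zero, mul_zero] at hn1
      linarith
    · exact h
  have hn0' : (0 : ℝ) < n := by exact_mod_cast hn0
  have hnB' : 2 * (B : ℝ) * d ≤ n := by
    have h1 : 2 * (B : ℝ) * d ≤ 26 * c * k := by
      rw [hBcast, hw]
      push_cast
      have hlk' : (l : ℝ) * d ≤ k + d := by exact_mod_cast hlk
      have h2 : 2 * (c * (2 * (l : ℝ) + 9)) * d = 2 * c * (2 * (l * d) + 9 * d) := by ring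
      have h3 : 26 * (c : ℝ) * k = 2 * c * (13 * k) := by ring
      rw [h2, h3]
      gcongr
      linarith
    refine h1.trans (e1.trans ?_)
    rw [← Real.exp_log hn0', Real.exp_le_exp]
    linarith
  have hnB : 2 * B * d ≤ n := by exact_mod_cast hnB'
  have hnB2 : 2 * B ≤ n := by
    have : 2 * B * 1 ≤ 2 * B * d := Nat.mul_le_mul_left (2 * B) hd1
    omega
  -- L is large
  have hsf : d * Real.log l ≤ sfun d k := y7_sfun_ge hd1
  have hl0' : (0 : ℝ) < l := by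
    have : 0 < l := by omega
    exact_mod_cast this
  have hl1' : (1 : ℝ) ≤ l := by
    have : 1 ≤ l := by omega
    exact_mod_cast this
  have hlogl : 0 ≤ Real.log l := Real.log_nonneg hl1'
  have hL0 : 0 ≤ L := by
    have : 0 ≤ d * Real.log l := by positivity
    linarith
  set p : ℝ := Real.exp (-L) with hp
  have hp0 : 0 < p := Real.exp_pos _
  have hp1 : p ≤ 1 := by
    rw [hp]
    exact Real.exp_le_one_iff.mpr (by linarith)
  -- the denominator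
  have hBl : B ≤ l ^ 3 := by
    have h1 : c ≤ l := by omega
    have h2 : w ≤ l ^ 2 := by
      rw [hw]
      nlinarith
    calc B ≤ l * l ^ 2 := Nat.mul_le_mul h1 h2
      _ = l ^ 3 := by ring
  have hBp : (B : ℝ) ^ d * p ^ (2 + 1) ≤ 1 := by
    have h1 : (B : ℝ) ^ d ≤ Real.exp (3 * (d * Real.log l)) := by
      calc (B : ℝ) ^ d ≤ ((l : ℝ) ^ 3) ^ d := by
            gcongr
            exact_mod_cast hBl
        _ = Real.exp (3 * (d * Real.log l)) := by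
            rw [show 3 * (d * Real.log l) = (d : ℝ) * (((3 : ℕ) : ℝ) * Real.log l) by
              push_cast; ring, Real.exp_nat_mul, Real.exp_nat_mul, Real.exp_log hl0']
    have h2 : p ^ (2 + 1) = Real.exp (-(3 * L)) := by
      rw [hp, ← Real.exp_nat_mul]; congr 1; push_cast; ring
    rw [h2]
    calc (B : ℝ) ^ d * Real.exp (-(3 * L))
        ≤ Real.exp (3 * (d * Real.log l)) * Real.exp (-(3 * L)) := by gcongr
      _ = Real.exp (3 * (d * Real.log l) + -(3 * L)) := by rw [Real.exp_add]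
      _ ≤ 1 := Real.exp_le_one_iff.mpr (by linarith)
  set m : ℕ := d * (l + 2) with hm
  have hmY : d * (Y - 1) ≤ 2 * m := by
    have : Y - 1 = 2 * (l + 2) := by omega
    rw [this, hm]
    exact le_of_eq (by ring)
  set D : ℝ := (2 * (d : ℝ) + 1) ^ (2 * 2 * (2 + 1)) +
      ((d : ℝ) * (d + 3) + 1) * (2 * d + 1) ^ (2 * 2 * (2 + 2)) with hD
  have hDpos : 0 < D := by positivity
  have hDge : (B : ℝ) ^ d * (2 * d + 1) ^ (2 * 2 * (2 + 1)) * p ^ (2 + 1) +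
        ((m : ℝ) + 1) * (2 * d + 1) ^ (2 * 2 * (2 + 2)) ≤ D := by
    rw [hD]
    have h1 : (B : ℝ) ^ d * (2 * d + 1) ^ (2 * 2 * (2 + 1)) * p ^ (2 + 1) ≤
        1 * (2 * (d : ℝ) + 1) ^ (2 * 2 * (2 + 1)) := by
      calc (B : ℝ) ^ d * (2 * d + 1) ^ (2 * 2 * (2 + 1)) * p ^ (2 + 1) =
            ((B : ℝ) ^ d * p ^ (2 + 1)) * (2 * (d : ℝ) + 1) ^ (2 * 2 * (2 + 1)) := by ring
        _ ≤ 1 * (2 * (d : ℝ) + 1) ^ (2 * 2 * (2 + 1)) := by gcongr
    have h2 : (m : ℝ) + 1 ≤ (d : ℝ) * (d + 3) + 1 := by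
      rw [hm]
      push_cast
      have h4 : (l : ℝ) ≤ d + 1 := by exact_mod_cast hld
      have h5 : (l : ℝ) + 2 ≤ d + 3 := by linarith
      have h6 := mul_le_mul_of_nonneg_left h5 hd0'.le
      linarith
    have h3 : ((m : ℝ) + 1) * (2 * d + 1) ^ (2 * 2 * (2 + 2)) ≤
        ((d : ℝ) * (d + 3) + 1) * (2 * d + 1) ^ (2 * 2 * (2 + 2)) := by gcongr
    linarith
  -- the value of the strategy
  have hach : ∀ z : Vtx n d, Room w z → Ach p (ind (y7_good Y z)) ∅ ∅ (Real.exp V) := by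
    intro z hz
    have h1 := hgrow z hz (ind (y7_good Y z)) 1 zero_le_one ?_
    · rw [mul_one] at h1
      exact h1
    · intro Z T hC
      have h2 : y7_good Y z T := ⟨Z, hC⟩
      have h3 : ind (y7_good Y z) T = 1 := by
        unfold ind
        rw [if_pos h2]
      have h4 := Ach.leaf (p := p) (g := ind (y7_good Y z)) (Z := Z) (T := T)
      rw [h3] at h4
      exact h4
  set X : ℝ := Real.exp V / D with hX
  have hXpos : 0 < X := by positivity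
  set q : ℝ := ((B - 2 * w : ℕ) : ℝ) ^ d * X with hq
  have hq0 : 0 ≤ q := by positivity
  have hbox : ∀ o : Fin d → ℕ, (∀ i, o i + B ≤ n) → q ≤ Pr p (fun A : Finset (Vtx n d) =>
      ∃ R : BoxT n d, R.1 ≤ R.2 ∧ (∀ i, Y ≤ sd R i) ∧ ∀ x, R.1 ≤ x → x ≤ R.2 →
        x ∈ bclosure 2 ((A : Set (Vtx n d)) ∩ nbox o (fun _ => B))) := fun o ho =>
    y7_box (w := w) (m := m) (D := D) (W := Real.exp V) hd1 (by omega) (by omega) ho hmY hp0.le
      hp1 hDpos (Real.exp_pos _).le hDge hach hq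
  have hq1 : q ≤ 1 := by
    have h1 := hbox (fun _ => 0) (fun _ => by omega)
    refine h1.trans ?_
    rw [← Pr_true (p := p) (V := Vtx n d)]
    exact Pr_mono hp0.le hp1 fun _ _ => trivial
  have hfin := percProb_ge_box n d hd1 p hp0.le hp1 Y B (by omega)
    (by omega) (by omega) q hq0 hq1 hbox
  have hlayer := y7_layer (n := n) (k := k) (L := L) hd1 e3 hn0 hk2 hn2 hL2 hL0
  have hcells := Q_cells (n := n) (d := d) (B := B) (w := w) (q := q) (X := X) (ε := ε) hB0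
    hBw hBe hnB hnB2 hq hq1 ?_ hXpos
  · rw [← hp, ← hl, ← hY] at hlayer
    linarith
  · -- the exponent
    have h1 : Real.log X = V - Real.log D := by
      rw [hX, Real.log_div (Real.exp_pos _).ne' hDpos.ne', Real.log_exp]
    have h2 : Real.log D ≤ ε / 8 * d := by
      rw [← Real.log_exp (ε / 8 * d)]
      exact Real.log_le_log hDpos e2
    have h4 : 4 ≤ ε * d := by
      rw [div_le_iff₀ hε] at e4
      linarith
    have h5 : ε * d ≤ ε * k := by gcongr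
    rw [h1]
    linarith

end Pool.Agent.Lib.MP_8501c9_pr.Wide
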