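import Pool.Agent.Lib.MP_8501c9_pr.Wide.DefsN
import Pool.Agent.Lib.MP_8501c9_pr.Mid.Aopt

/-!
# The minimiser in the definition of the rate function: bounds for large arguments
-/

set_option autoImplicit false
open Set

namespace Pool.Agent.Lib.MP_8501c9_pr.Wide

open Pool.Agent.Lib.MP_8501c9_pr Pool.Agent.Lib.MP_8501c9_pr.Mid

theorem vfun_sub_le_div {x y : ℝ} (hx : 0 < x) (hxy : x ≤ y) :
    vfun y - vfun x ≤ (y - x) / x := by
  have h1 := vfun_sub_le x y
  have h2 := vslope_le ⌊x⌋₊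
  have h3 : x < ⌊x⌋₊ + 1 := Nat.lt_floor_add_one x
  have h4 : 1 / ((⌊x⌋₊ : ℝ) + 1) ≤ 1 / x := one_div_le_one_div_of_le hx h3.le
  have h5 : (y - x) * vslope ⌊x⌋₊ ≤ (y - x) * (1 / x) :=
    mul_le_mul_of_nonneg_left (h2.trans h4) (sub_nonneg.2 hxy)
  calc vfun y - vfun x ≤ (y - x) * vslope ⌊x⌋₊ := h1
    _ ≤ (y - x) * (1 / x) := h5
    _ = (y - x) / x := by ring

theorem le_vfun_sub {x y : ℝ} (hx : 0 ≤ x) (hxy : x ≤ y) :
    (y - x) / (y + 2) ≤ vfun y - vfun x := by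
  have hy : 0 ≤ y := hx.trans hxy
  have h1 := vfun_sub_le y x
  have h2 := vslope_ge ⌊y⌋₊
  have h3 : (⌊y⌋₊ : ℝ) ≤ y := Nat.floor_le hy
  have h4 : 1 / (y + 2) ≤ 1 / ((⌊y⌋₊ : ℝ) + 2) :=
    one_div_le_one_div_of_le (by positivity) (by linarith)
  have h5 : (y - x) * (1 / (y + 2)) ≤ (y - x) * vslope ⌊y⌋₊ :=
    mul_le_mul_of_nonneg_left (h4.trans h2) (sub_nonneg.2 hxy)
  have h6 : (y - x) / (y + 2) = (y - x) * (1 / (y + 2)) := by ring
  rw [h6]
  linarith

private theorem aw_lip {x y : ℝ} (hx : 0 < x) (hy : 0 < y) :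
    |vfun y - vfun x| ≤ |y - x| / min x y := by
  rcases le_total x y with h | h
  · rw [min_eq_left h, abs_of_nonneg (sub_nonneg.2 h),
      abs_of_nonneg (sub_nonneg.2 (vfun_monotone h))]
    exact vfun_sub_le_div hx h
  · rw [min_eq_right h, abs_sub_comm, abs_sub_comm y x, abs_of_nonneg (sub_nonneg.2 h),
      abs_of_nonneg (sub_nonneg.2 (vfun_monotone h))]
    exact vfun_sub_le_div hy h

theorem aopt_quad_min {b α : ℝ} (hb : 0 < b) (hα : 0 < α) :
    |(2 * b + ∫ u in (0 : ℝ)..α, vfun u) - α * ell b| ≤ (α - aopt b) ^ 2 / min α (aopt b) := by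
  obtain ⟨h1, h2, h3, h4, h5⟩ := aopt_spec hb
  rw [h2]
  generalize aopt b = a at *
  have h6 := intervalIntegral.integral_add_adjacent_intervals (vfun_int 0 a) (vfun_int a α)
  have h7 : (2 * b + ∫ u in (0 : ℝ)..α, vfun u) - α * vfun a =
      (∫ u in a..α, vfun u) - (α - a) * vfun a := by
    rw [← h6]
    linarith
  rw [h7]
  have h8 := integral_vfun_tangent a α
  have h9 := integral_vfun_tangent α a
  rw [intervalIntegral.integral_symm] at h9
  rw [abs_of_nonneg (by linarith)]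
  have h10 : (∫ u in a..α, vfun u) - (α - a) * vfun a ≤ (α - a) * (vfun α - vfun a) := by
    nlinarith
  refine h10.trans ?_
  refine (le_abs_self _).trans ?_
  rw [abs_mul, ← sq_abs (α - a), sq, min_comm, mul_div_assoc]
  exact mul_le_mul_of_nonneg_left (aw_lip h1 hα) (abs_nonneg _)

end Pool.Agent.Lib.MP_8501c9_pr.Wide
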