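import Pool.Agent.Lib.MP_8501c9_pr.Wide.DefsU

/-!
# Two explicit certificates for the one-direction problem
-/

set_option autoImplicit false
open Set

namespace Pool.Agent.Lib.MP_8501c9_pr.Wide

open Pool.Agent.Lib.MP_8501c9_pr Pool.Agent.Lib.MP_8501c9_pr.Mid

theorem cbd_jj (j : ℤ) : (0 : ℝ) ≤ (j : ℝ) * ((j : ℝ) - 1) := by
  rcases le_or_gt j 0 with h | h
  · have h1 : (j : ℝ) ≤ 0 := by exact_mod_cast h
    nlinarith
  · have h1 : (1 : ℝ) ≤ (j : ℝ) := by exact_mod_cast h
    nlinarith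

theorem cbd_jj2 (j : ℤ) (hj : j ≤ -1 ∨ 2 ≤ j) : (1 : ℝ) ≤ (j : ℝ) * ((j : ℝ) - 1) := by
  rcases hj with h | h
  · have h1 : (j : ℝ) ≤ -1 := by exact_mod_cast h
    nlinarith
  · have h1 : (2 : ℝ) ≤ (j : ℝ) := by exact_mod_cast h
    nlinarith

theorem UAch.mono {κ κ' V V' : ℝ} (h : UAch κ V) (hκ : κ ≤ κ') (hV : V ≤ V') :
    UAch κ' V' := by
  intro ε hε
  obtain ⟨R, P, h₀, m, f, y, ρ, hc⟩ := h ε hε
  refine ⟨R, P, h₀, m, f, y, ρ, ?_⟩
  refine ⟨hc.m_pos, hc.h_pos, hc.P_nonneg, hc.f_ge, hc.f_le, hc.y_ge, hc.y_le, hc.y_const,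
    hc.ρ_nonneg, hc.ρ_le, hc.lip, ?_, hc.shift, ?_⟩
  · intro s h j hs hh hh0 hsh
    refine (hc.step s h j hs hh hh0 hsh).trans ?_
    have hf : 0 ≤ f s j := le_trans zero_le_one (hc.f_ge s j)
    refine mul_le_mul_of_nonneg_right ?_ hf
    apply Real.exp_le_exp.2
    refine mul_le_mul_of_nonneg_left ?_ hh.le
    have h1 : κ * ((j : ℝ) * ((j : ℝ) - 1)) ≤ κ' * ((j : ℝ) * ((j : ℝ) - 1)) :=
      mul_le_mul_of_nonneg_right hκ (cbd_jj j)
    have h2 := min_le_min_right P h1
    linarith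
  · exact hc.value.trans (by linarith)

theorem uach_one {κ : ℝ} (hκ : 0 ≤ κ) : UAch κ 1 := by
  intro ε hε
  refine ⟨1, 0, 1, 1, fun _ _ => 1, fun _ => 1, 1, ?_⟩
  refine ⟨le_refl _, one_pos, le_refl _, fun _ _ => le_refl _, fun _ _ => le_refl _,
    fun _ => by norm_num, fun _ => le_refl _, fun _ _ _ => rfl, zero_le_one, le_refl _, ?_, ?_,
    fun _ => le_refl _, ?_⟩
  · intro s h j _ hh _
    rw [one_mul, mul_one]
    exact Real.one_le_exp hh
  · intro s h j _ hh _ _
    have h1 : min (κ * ((j : ℝ) * ((j : ℝ) - 1))) 0 = 0 :=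
      min_eq_right (mul_nonneg hκ (cbd_jj j))
    rw [h1]
    simp
  · simp
    linarith

/-- the clamped phase -/
noncomputable def cbdC (s : ℝ) : ℝ := max 0 (min s 1)

theorem cbdC_eq {s : ℝ} (h0 : 0 ≤ s) (h1 : s ≤ 1) : cbdC s = s := by
  unfold cbdC
  rw [min_eq_left h1, max_eq_right h0]

theorem cbdC_le (s : ℝ) : cbdC s ≤ 1 := by
  unfold cbdC
  exact max_le zero_le_one (min_le_right _ _)

theorem cbdC_ge (s : ℝ) : 0 ≤ cbdC s := le_max_left _ _

/-- the certificate -/
noncomputable def cbdF (m : ℕ) (s : ℝ) (j : ℤ) : ℝ :=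
  if j ≤ -1 then 1
  else if j = 0 then max (m * (1 - cbdC s)) 1
  else if j = 1 then m
  else Real.exp (Real.log m * max 0 (m * (cbdC s - 1) + 1))

theorem cbdF_neg (m : ℕ) (s : ℝ) {j : ℤ} (h : j ≤ -1) : cbdF m s j = 1 := by
  unfold cbdF
  rw [if_pos h]

theorem cbdF_zero (m : ℕ) (s : ℝ) : cbdF m s 0 = max (m * (1 - cbdC s)) 1 := by
  unfold cbdF
  rw [if_neg (by norm_num), if_pos rfl]

theorem cbdF_one (m : ℕ) (s : ℝ) : cbdF m s 1 = m := by
  unfold cbdF
  rw [if_neg (by norm_num), if_neg (by norm_num), if_pos rfl]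

theorem cbdF_two (m : ℕ) (s : ℝ) {j : ℤ} (h : 2 ≤ j) :
    cbdF m s j = Real.exp (Real.log m * max 0 (m * (cbdC s - 1) + 1)) := by
  unfold cbdF
  rw [if_neg (by omega), if_neg (by omega), if_neg (by omega)]

theorem cbd_cases (j : ℤ) : j ≤ -1 ∨ j = 0 ∨ j = 1 ∨ 2 ≤ j := by omega

theorem cbdF_ge (m : ℕ) (hm : 1 ≤ m) (s : ℝ) (j : ℤ) : 1 ≤ cbdF m s j := by
  have hm1 : (1 : ℝ) ≤ m := by exact_mod_cast hm
  rcases cbd_cases j with h | h | h | h
  · rw [cbdF_neg m s h]
  · rw [h, cbdF_zero]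
    exact le_max_right _ _
  · rw [h, cbdF_one]
    exact hm1
  · rw [cbdF_two m s h]
    exact Real.one_le_exp (mul_nonneg (Real.log_nonneg hm1) (le_max_left _ _))

theorem cbdF_le (m : ℕ) (hm : 1 ≤ m) (s : ℝ) (j : ℤ) : cbdF m s j ≤ m := by
  have hm1 : (1 : ℝ) ≤ m := by exact_mod_cast hm
  have hs1 := cbdC_le s
  have hs0 := cbdC_ge s
  rcases cbd_cases j with h | h | h | h
  · rw [cbdF_neg m s h]
    exact hm1
  · rw [h, cbdF_zero]
    refine max_le ?_ hm1
    nlinarith
  · rw [h, cbdF_one]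
  · rw [cbdF_two m s h]
    have h1 : max 0 ((m : ℝ) * (cbdC s - 1) + 1) ≤ 1 := by
      refine max_le zero_le_one ?_
      nlinarith
    calc Real.exp (Real.log m * max 0 (m * (cbdC s - 1) + 1))
        ≤ Real.exp (Real.log m * 1) := by
          apply Real.exp_le_exp.2
          exact mul_le_mul_of_nonneg_left h1 (Real.log_nonneg hm1)
      _ = m := by
          rw [mul_one, Real.exp_log (by linarith)]

theorem cbdF_zero_anti (m : ℕ) {s h : ℝ} (hs : 0 ≤ s) (hh : 0 ≤ h) (hsh : s + h ≤ 1) :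
    cbdF m (s + h) 0 ≤ cbdF m s 0 := by
  rw [cbdF_zero, cbdF_zero, cbdC_eq hs (by linarith), cbdC_eq (by linarith) hsh]
  apply max_le_max_right
  have : (0 : ℝ) ≤ m := Nat.cast_nonneg m
  nlinarith

theorem cbdF_two_lip (m : ℕ) (hm : 1 ≤ m) {s h : ℝ} (hs : 0 ≤ s) (hh : 0 ≤ h) (hsh : s + h ≤ 1)
    {j : ℤ} (hj : 2 ≤ j) :
    cbdF m (s + h) j ≤ Real.exp (m * Real.log m * h) * cbdF m s j := by
  have hm1 : (1 : ℝ) ≤ m := by exact_mod_cast hm
  have hl := Real.log_nonneg hm1
  rw [cbdF_two m _ hj, cbdF_two m _ hj, cbdC_eq hs (by linarith), cbdC_eq (by linarith) hsh,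
    ← Real.exp_add]
  apply Real.exp_le_exp.2
  have h1 : max 0 ((m : ℝ) * (s + h - 1) + 1) ≤ m * h + max 0 ((m : ℝ) * (s - 1) + 1) := by
    refine max_le ?_ ?_
    · have h2 := le_max_left 0 ((m : ℝ) * (s - 1) + 1)
      have h3 : 0 ≤ (m : ℝ) * h := by positivity
      linarith
    · have h2 := le_max_right 0 ((m : ℝ) * (s - 1) + 1)
      nlinarith
  have h4 := mul_le_mul_of_nonneg_left h1 hl
  nlinarith

theorem cbd_exp_div {x : ℝ} (hx : 0 ≤ x) : Real.exp x ≤ (1 + x) * Real.exp (x ^ 2 / 2) := by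
  have h1 : 0 < 1 + x := by linarith
  have h2 : x - x ^ 2 / 2 ≤ Real.log (1 + x) := by
    have h3 : x ≤ Real.log (1 + x) + x ^ 2 / 2 := by
      rcases eq_or_lt_of_le hx with h | h
      · rw [← h]
        simp
      · have h5 := Real.le_log_one_add_of_nonneg hx
        have h6 : x - x ^ 2 / 2 ≤ 2 * x / (x + 2) := by
          rw [le_div_iff₀ (by linarith)]
          nlinarith [mul_nonneg (mul_nonneg hx hx) hx]
        linarith
    linarith
  calc Real.exp x ≤ Real.exp (Real.log (1 + x) + x ^ 2 / 2) := by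
        apply Real.exp_le_exp.2
        linarith
    _ = (1 + x) * Real.exp (x ^ 2 / 2) := by
        rw [Real.exp_add, Real.exp_log h1]

/-- existence of a large number of windows -/
theorem cbd_exists_m (ρ : ℝ) (hρ : 0 < ρ) : ∃ m : ℕ, 3 ≤ m ∧ 1 / ρ ≤ m ∧ ρ ≤ m ∧
    2 * Real.log (m / ρ) / m ≤ ρ := by
  obtain ⟨m, hm⟩ := exists_nat_ge (3 + 1 / ρ + ρ + 16 / ρ ^ 3)
  have h1 : 0 < 1 / ρ := by positivity
  have h2 : 0 < 16 / ρ ^ 3 := by positivity
  have hm3 : (3 : ℝ) ≤ m := by linarith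
  have hm0 : (0 : ℝ) < m := by linarith
  refine ⟨m, by exact_mod_cast hm3, by linarith, by linarith, ?_⟩
  have hq : 0 < (m : ℝ) / ρ := by positivity
  have h3 : Real.log (m / ρ) ≤ 2 * Real.sqrt (m / ρ) := by
    have h4 := Real.log_sqrt hq.le
    have h5 := Real.log_le_sub_one_of_pos (Real.sqrt_pos.2 hq)
    linarith
  rw [div_le_iff₀ hm0]
  have h6 : 4 * Real.sqrt (m / ρ) ≤ ρ * m := by
    have h7 : Real.sqrt (m / ρ) ≤ ρ * m / 4 := by
      apply Real.sqrt_le_iff.2
      refine ⟨by positivity, ?_⟩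
      rw [div_le_iff₀ hρ]
      have h8 : 16 / ρ ^ 3 ≤ m := by linarith
      rw [div_le_iff₀ (by positivity)] at h8
      nlinarith
    linarith
  linarith

theorem uach_small (ε : ℝ) (hε : 0 < ε) : ∃ κ₀ : ℝ, 0 ≤ κ₀ ∧ UAch κ₀ ε := by
  obtain ⟨ρ, hρ⟩ : ∃ ρ : ℝ, ρ = ε / 2 := ⟨_, rfl⟩
  have hρ0 : 0 < ρ := by rw [hρ]; linarith
  obtain ⟨m, hm3, hmρ, hρm, hval⟩ := cbd_exists_m ρ hρ0
  have hm3' : (3 : ℝ) ≤ m := by exact_mod_cast hm3
  have hm1 : 1 ≤ m := by omega
  have hm0 : (0 : ℝ) < m := by linarith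
  have hlog : 0 ≤ Real.log m := Real.log_nonneg (by linarith)
  have hml : 0 ≤ (m : ℝ) * Real.log m := by positivity
  obtain ⟨P, hP⟩ : ∃ P : ℝ, P = m * Real.log m + m + 1 := ⟨_, rfl⟩
  have hP0 : 0 ≤ P := by rw [hP]; positivity
  obtain ⟨R, hR⟩ : ∃ R : ℝ, R = m / ρ + m * Real.log m + m + 1 := ⟨_, rfl⟩
  have hmρ0 : 0 < (m : ℝ) / ρ := by positivity
  have hR1 : 1 ≤ R := by rw [hR]; linarith
  obtain ⟨y, hy⟩ : ∃ y : ℝ → ℝ, y = fun s => if ⌊(m : ℝ) * s⌋ < (m : ℤ) - 2 then 1 else ρ / m :=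
    ⟨_, rfl⟩
  have hy1 : ∀ s, ⌊(m : ℝ) * s⌋ < (m : ℤ) - 2 → y s = 1 := by
    intro s hs
    rw [hy]
    exact if_pos hs
  have hy2 : ∀ s, ¬ ⌊(m : ℝ) * s⌋ < (m : ℤ) - 2 → y s = ρ / m := by
    intro s hs
    rw [hy]
    exact if_neg hs
  have hρdm : ρ / m ≤ 1 := by
    rw [div_le_one hm0]
    exact hρm
  have hρdm0 : 0 < ρ / m := by positivity
  have hyle : ∀ s, y s ≤ 1 := by
    intro s
    by_cases hs : ⌊(m : ℝ) * s⌋ < (m : ℤ) - 2
    · rw [hy1 s hs]
    · rw [hy2 s hs]
      exact hρdm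
  have hy0 : ∀ s, 0 < y s := by
    intro s
    by_cases hs : ⌊(m : ℝ) * s⌋ < (m : ℤ) - 2
    · rw [hy1 s hs]
      exact one_pos
    · rw [hy2 s hs]
      exact hρdm0
  refine ⟨P, hP0, fun ε' hε' => ⟨R, P, min (ρ / m ^ 2) (1 / (2 * m)), m, cbdF m, y, ρ, ?_⟩⟩
  refine ⟨hm1, ?_, hP0, cbdF_ge m hm1, ?_, ?_, ?_, ?_, hρ0.le, ?_, ?_, ?_, ?_, ?_⟩
  · apply lt_min <;> positivity
  · intro s j
    refine (cbdF_le m hm1 s j).trans ?_
    rw [hR]
    linarith
  · intro s
    by_cases hs : ⌊(m : ℝ) * s⌋ < (m : ℤ) - 2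
    · rw [hy1 s hs]
      rw [div_le_one (by linarith)]
      exact hR1
    · rw [hy2 s hs]
      rw [div_le_div_iff₀ (by linarith) hm0]
      have h1 : (m : ℝ) / ρ ≤ R := by rw [hR]; linarith
      rw [div_le_iff₀ hρ0] at h1
      linarith
  · intro s
    exact (hyle s).trans hR1
  · intro s s' hs
    rw [hy]
    simp only [hs]
  · rw [hR]
    linarith
  · -- lip
    intro s h j hs hh hsh
    have hRh : 1 ≤ Real.exp (R * h) := Real.one_le_exp (by positivity)
    rcases cbd_cases j with hj | hj | hj | hj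
    · rw [cbdF_neg m _ hj, cbdF_neg m _ hj, mul_one]
      exact hRh
    · subst hj
      have h1 := cbdF_zero_anti m hs hh hsh
      have h2 := cbdF_ge m hm1 s 0
      nlinarith
    · subst hj
      rw [cbdF_one, cbdF_one]
      nlinarith
    · refine (cbdF_two_lip m hm1 hs hh hsh hj).trans ?_
      have h2 := cbdF_ge m hm1 s j
      refine mul_le_mul_of_nonneg_right ?_ (by linarith)
      apply Real.exp_le_exp.2
      refine mul_le_mul_of_nonneg_right ?_ hh
      rw [hR]
      linarith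
  · -- step
    intro s h j hs hh hh0 hsh
    have hh1 : h ≤ ρ / m ^ 2 := hh0.trans (min_le_left _ _)
    have hh2 : h ≤ 1 / (2 * m) := hh0.trans (min_le_right _ _)
    have hys := hyle s
    have hys0 := hy0 s
    rcases cbd_cases j with hj | hj | hj | hj
    · have hmin : min (P * ((j : ℝ) * ((j : ℝ) - 1))) P = P := by
        apply min_eq_right
        have := cbd_jj2 j (Or.inl hj)
        nlinarith
      rw [hmin, cbdF_neg m _ hj, cbdF_neg m _ hj, one_mul, mul_one, div_one]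
      apply Real.exp_le_exp.2
      rw [mul_assoc]
      refine mul_le_mul_of_nonneg_left ?_ hh.le
      have h1 := cbdF_le m hm1 (s + h) (j + 1)
      have h2 := cbdF_ge m hm1 (s + h) (j + 1)
      have h3 : y s * cbdF m (s + h) (j + 1) ≤ m := by nlinarith
      rw [hP]
      linarith
    · subst hj
      have hmin : min (P * (((0 : ℤ) : ℝ) * (((0 : ℤ) : ℝ) - 1))) P = 0 := by
        rw [Int.cast_zero, zero_mul, mul_zero]
        exact min_eq_left hP0
      rw [hmin, add_zero, zero_add, cbdF_one]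
      by_cases hw : ⌊(m : ℝ) * s⌋ < (m : ℤ) - 2
      · rw [hy1 s hw, mul_one]
        have h1 : (m : ℝ) * s < m - 2 := by
          have h2 := Int.lt_floor_add_one ((m : ℝ) * s)
          have h3 : ((⌊(m : ℝ) * s⌋ + 1 : ℤ) : ℝ) ≤ (((m : ℤ) - 2 : ℤ) : ℝ) := by
            exact_mod_cast hw
          push_cast at h3
          linarith
        have h4 : (m : ℝ) * h ≤ 1 / 2 := by
          have h5 := mul_le_mul_of_nonneg_left hh2 hm0.le
          have h6 : (m : ℝ) * (1 / (2 * m)) = 1 / 2 := by field_simp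
          linarith
        have h7 : cbdF m (s + h) 0 = m * (1 - (s + h)) := by
          rw [cbdF_zero, cbdC_eq (by linarith) hsh]
          apply max_eq_left
          nlinarith
        have h8 : cbdF m s 0 = m * (1 - s) := by
          rw [cbdF_zero, cbdC_eq hs (by linarith)]
          apply max_eq_left
          nlinarith
        rw [h7, h8]
        obtain ⟨a, ha⟩ : ∃ a : ℝ, a = m * (1 - (s + h)) := ⟨_, rfl⟩
        have ha1 : 1 ≤ a := by rw [ha]; nlinarith
        have ha0 : 0 < a := by linarith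
        have e1 : (m : ℝ) * (1 - s) = a * (1 + h * m / a) := by
          rw [mul_add, mul_one, mul_div_cancel₀ _ ha0.ne', ha]
          ring
        rw [← ha, e1]
        have e2 : h * ((m : ℝ) / a) = h * m / a := by ring
        rw [e2]
        have hx0 : 0 ≤ h * m / a := by positivity
        have h9 := cbd_exp_div hx0
        have h10 : (h * m / a) ^ 2 / 2 ≤ h * ρ := by
          have h11 : h * m / a ≤ h * m := div_le_self (by positivity) ha1
          have h12 : (h * m / a) ^ 2 ≤ (h * m) ^ 2 := pow_le_pow_left₀ hx0 h11 2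
          have h13 : h * m ^ 2 ≤ ρ := by
            rw [le_div_iff₀ (by positivity)] at hh1
            exact hh1
          nlinarith
        have h14 := Real.exp_le_exp.2 h10
        calc a * Real.exp (h * m / a) ≤ a * ((1 + h * m / a) * Real.exp ((h * m / a) ^ 2 / 2)) :=
              mul_le_mul_of_nonneg_left h9 ha0.le
          _ ≤ a * ((1 + h * m / a) * Real.exp (h * ρ)) := by
              refine mul_le_mul_of_nonneg_left ?_ ha0.le
              exact mul_le_mul_of_nonneg_left h14 (by linarith)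
          _ = Real.exp (h * ρ) * (a * (1 + h * m / a)) := by ring
      · rw [hy2 s hw]
        have h1 := cbdF_zero_anti m hs hh.le hsh
        have h2 := cbdF_ge m hm1 (s + h) 0
        have h3 := cbdF_ge m hm1 s 0
        have h4 : h * (ρ / m) * (m / cbdF m (s + h) 0) ≤ h * ρ := by
          have e : h * (ρ / m) * (m / cbdF m (s + h) 0) = h * ρ / cbdF m (s + h) 0 := by
            field_simp
          rw [e]
          exact div_le_self (by positivity) h2
        have h5 := Real.exp_le_exp.2 h4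
        calc cbdF m (s + h) 0 * Real.exp (h * (ρ / m) * (m / cbdF m (s + h) 0))
            ≤ cbdF m s 0 * Real.exp (h * ρ) :=
              mul_le_mul h1 h5 (Real.exp_pos _).le (by linarith)
          _ = Real.exp (h * ρ) * cbdF m s 0 := mul_comm _ _
    · subst hj
      have hmin : min (P * (((1 : ℤ) : ℝ) * (((1 : ℤ) : ℝ) - 1))) P = 0 := by
        rw [Int.cast_one, sub_self, mul_zero, mul_zero]
        exact min_eq_left hP0
      rw [hmin, add_zero, cbdF_one, cbdF_one]
      have e11 : (1 : ℤ) + 1 = 2 := by norm_num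
      rw [e11]
      have h1 := cbdF_le m hm1 (s + h) 2
      have h2 := cbdF_ge m hm1 (s + h) 2
      have h3 : y s * (cbdF m (s + h) 2 / m) ≤ ρ := by
        by_cases hw : ⌊(m : ℝ) * s⌋ < (m : ℤ) - 2
        · rw [hy1 s hw, one_mul]
          have h1 : (m : ℝ) * s < m - 2 := by
            have h2 := Int.lt_floor_add_one ((m : ℝ) * s)
            have h3 : ((⌊(m : ℝ) * s⌋ + 1 : ℤ) : ℝ) ≤ (((m : ℤ) - 2 : ℤ) : ℝ) := by
              exact_mod_cast hw
            push_cast at h3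
            linarith
          have h4 : (m : ℝ) * h ≤ 1 / 2 := by
            have h5 := mul_le_mul_of_nonneg_left hh2 hm0.le
            have h6 : (m : ℝ) * (1 / (2 * m)) = 1 / 2 := by field_simp
            linarith
          have h7 : cbdF m (s + h) 2 = 1 := by
            rw [cbdF_two m _ (le_refl _), cbdC_eq (by linarith) hsh]
            have h8 : max 0 ((m : ℝ) * (s + h - 1) + 1) = 0 := by
              apply max_eq_left
              nlinarith
            rw [h8, mul_zero, Real.exp_zero]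
          rw [h7, div_le_iff₀ hm0]
          rw [div_le_iff₀ hρ0] at hmρ
          linarith
        · rw [hy2 s hw]
          have h4 : cbdF m (s + h) 2 / m ≤ 1 := by
            rw [div_le_one hm0]
            exact h1
          have h5 : 0 ≤ cbdF m (s + h) 2 / m := by positivity
          have h6 : ρ / m ≤ ρ := div_le_self hρ0.le (by linarith)
          nlinarith
      have h4 : h * y s * (cbdF m (s + h) 2 / m) ≤ h * ρ := by
        rw [mul_assoc]
        exact mul_le_mul_of_nonneg_left h3 hh.le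
      rw [mul_comm (Real.exp (h * ρ)) (m : ℝ)]
      exact mul_le_mul_of_nonneg_left (Real.exp_le_exp.2 h4) hm0.le
    · have hmin : min (P * ((j : ℝ) * ((j : ℝ) - 1))) P = P := by
        apply min_eq_right
        have := cbd_jj2 j (Or.inr hj)
        nlinarith
      have hne := cbdF_ge m hm1 (s + h) j
      have e1 : cbdF m (s + h) (j + 1) / cbdF m (s + h) j = 1 := by
        rw [cbdF_two m _ (by omega : (2 : ℤ) ≤ j + 1), cbdF_two m _ hj]
        exact div_self (Real.exp_pos _).ne'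
      rw [hmin, e1, mul_one]
      have h1 := cbdF_two_lip m hm1 hs hh.le hsh hj
      have h2 := cbdF_ge m hm1 s j
      calc cbdF m (s + h) j * Real.exp (h * y s)
          ≤ (Real.exp (m * Real.log m * h) * cbdF m s j) * Real.exp (h * 1) := by
            refine mul_le_mul h1 ?_ (Real.exp_pos _).le (by positivity)
            exact Real.exp_le_exp.2 (mul_le_mul_of_nonneg_left hys hh.le)
        _ = Real.exp (m * Real.log m * h + h * 1) * cbdF m s j := by
            rw [Real.exp_add]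
            ring
        _ ≤ Real.exp (h * (ρ + P)) * cbdF m s j := by
            refine mul_le_mul_of_nonneg_right ?_ (by linarith)
            apply Real.exp_le_exp.2
            rw [hP]
            nlinarith
  · -- shift
    intro j
    have hC0 : cbdC 0 = 0 := cbdC_eq (le_refl _) zero_le_one
    have hC1 : cbdC 1 = 1 := cbdC_eq zero_le_one (le_refl _)
    rcases cbd_cases j with hj | hj | hj | hj
    · rw [cbdF_neg m _ hj]
      exact cbdF_ge m hm1 1 (j + 1)
    · subst hj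
      rw [zero_add, cbdF_one]
      exact cbdF_le m hm1 0 0
    · subst hj
      have e11 : (1 : ℤ) + 1 = 2 := by norm_num
      rw [e11, cbdF_one, cbdF_two m _ (le_refl _), hC1, sub_self, mul_zero, zero_add,
        max_eq_right zero_le_one, mul_one, Real.exp_log hm0]
    · rw [cbdF_two m _ hj, hC0]
      have h1 : max 0 ((m : ℝ) * (0 - 1) + 1) = 0 := by
        apply max_eq_left
        linarith
      rw [h1, mul_zero, Real.exp_zero]
      exact cbdF_ge m hm1 1 (j + 1)
  · -- value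
    have h1 : ∑ w ∈ Finset.range m, Real.log (y ((w : ℝ) / m)) = 2 * Real.log (ρ / m) := by
      obtain ⟨k, rfl⟩ : ∃ k, m = k + 2 := ⟨m - 2, by omega⟩
      have hfl : ∀ w : ℕ, ⌊((k + 2 : ℕ) : ℝ) * ((w : ℝ) / ((k + 2 : ℕ) : ℝ))⌋ = (w : ℤ) := by
        intro w
        rw [mul_div_cancel₀ _ hm0.ne']
        exact Int.floor_natCast w
      rw [Finset.sum_range_succ, Finset.sum_range_succ]
      have h2 : ∑ w ∈ Finset.range k, Real.log (y ((w : ℝ) / ((k + 2 : ℕ) : ℝ))) = 0 := by
        apply Finset.sum_eq_zero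
        intro w hw
        rw [Finset.mem_range] at hw
        rw [hy1 _ (by rw [hfl]; push_cast; omega), Real.log_one]
      rw [h2, hy2 _ (by rw [hfl]; push_cast; omega), hy2 _ (by rw [hfl]; push_cast; omega)]
      ring
    rw [h1]
    have h2 : Real.log (ρ / m) = - Real.log (m / ρ) := by
      rw [← Real.log_inv, inv_div]
    rw [h2]
    have h3 : ρ - 2 * -Real.log (m / ρ) / m = ρ + 2 * Real.log (m / ρ) / m := by ring
    rw [h3]
    have h4 : ε = 2 * ρ := by rw [hρ]; ring
    linarith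

end Pool.Agent.Lib.MP_8501c9_pr.Wide
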