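import Pool.Agent.Lib.MP_8501c9_pr.Wide.DefsC

/-!
# Two explicit schedules
-/

set_option autoImplicit false
open Set

namespace Pool.Agent.Lib.MP_8501c9_pr.Wide

open Pool.Agent.Lib.MP_8501c9_pr Pool.Agent.Lib.MP_8501c9_pr.Mid

theorem CertL_lcert_zero (κ : ℝ) : LCert κ 0 2 2 2 1
    (fun w j => if j = (w : ℤ) then 1 else 0) (fun w j => if j = (w : ℤ) then 1 else 0)
    (fun w => (w : ℤ)) (fun w => (w : ℤ)) where
  M_pos := by norm_num
  M_even := by decide
  J_even := by decide
  den_pos := le_refl _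
  supp := by
    intro w hw j hj
    have : j = (w : ℤ) := by
      by_contra h
      simp [h] at hj
    subst this
    constructor <;> push_cast <;> omega
  q_le := by
    intro w j
    exact le_refl _
  flow := by
    intro w _ j
    by_cases h1 : j = (w : ℤ)
    · subst h1
      simp
    · by_cases h2 : j = (w : ℤ) + 1
      · subst h2
        simp
      · have h3 : ¬ (j - 1 = (w : ℤ)) := by omega
        have h4 : ¬ (j = ((w + 1 : ℕ) : ℤ)) := by push_cast; omega
        simp only [if_neg h1, if_neg h3, if_neg h4]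
  per := by
    intro j
    by_cases h : j = 2
    · subst h
      simp
    · have h3 : ¬ (j - ((2 : ℕ) : ℤ) = ((0 : ℕ) : ℤ)) := by push_cast; omega
      have h4 : ¬ (j = ((2 : ℕ) : ℤ)) := by push_cast; omega
      simp only [if_neg h3, if_neg h4]
  tot := by decide
  tp_ge := by
    intro w _ j hj
    by_contra h
    have : ¬ (j = (w : ℤ)) := by omega
    simp [this] at hj
  tp_le := by
    intro w hw
    constructor <;> push_cast <;> omega
  lm_le := by
    intro w hw
    constructor <;> push_cast <;> omega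
  value := by
    have hent : ∀ (w : ℕ) (j : ℤ), ent (if j = (w : ℤ) then 1 else 0)
        (if j = (w : ℤ) then 1 else 0) = 0 := by
      intro w j
      by_cases h : j = (w : ℤ)
      · simp [h, ent]
      · simp [h, ent]
    have hf : ∀ w ∈ Finset.range 2, fsum 2 (fun w j => if j = (w : ℤ) then 1 else 0) w = 1 := by
      decide
    have hp : ∀ (w : ℕ), ∑ j ∈ Finset.Icc (-((2 : ℕ) : ℤ)) ((2 : ℕ) : ℤ),
        (((if j = (w : ℤ) then 1 else 0 : ℕ) : ℕ) : ℝ) *
          (((j : ℤ) - ((w : ℤ) : ℤ) : ℝ) * ((j : ℝ) - ((w : ℤ) : ℝ) - 1)) = 0 := by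
      intro w
      refine Finset.sum_eq_zero fun j _ => ?_
      by_cases h : j = (w : ℤ)
      · subst h
        simp
      · simp [h]
    have : (0 : ℝ) * ((2 : ℕ) : ℝ) = 0 := by simp
    rw [this]
    refine le_of_eq (Eq.symm (Finset.sum_eq_zero fun w hw => ?_))
    rw [hf w hw, hp w]
    simp only [hent]
    simp

theorem lach_zero {κ : ℝ} (hκ : 0 ≤ κ) : LAch κ 0 := by
  intro ε hε
  have h := CertL_lcert_zero κ
  refine ⟨2, 2, 2, 1, _, _, _, _, { h with value := ?_ }⟩
  have h2 := h.value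
  refine le_trans ?_ h2
  push_cast
  nlinarith

/-! ### Subsets of size `M` of a set with `W` elements -/

/-- binomial coefficient with an integer lower index -/
def chz (n : ℕ) (k : ℤ) : ℕ := if 0 ≤ k then n.choose k.toNat else 0

theorem chz_neg {n : ℕ} {k : ℤ} (h : k < 0) : chz n k = 0 := by
  unfold chz
  rw [if_neg (by omega)]

theorem chz_nat (n k : ℕ) : chz n (k : ℤ) = n.choose k := by
  unfold chz
  simp

theorem chz_zero_left {k : ℤ} (h : k ≠ 0) : chz 0 k = 0 := by
  unfold chz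
  split_ifs with h1
  · exact Nat.choose_eq_zero_of_lt (by omega)
  · rfl

theorem chz_zero_right (n : ℕ) : chz n 0 = 1 := by
  unfold chz
  simp

theorem chz_succ (n : ℕ) (k : ℤ) : chz (n + 1) k = chz n k + chz n (k - 1) := by
  rcases lt_trichotomy k 0 with h | h | h
  · rw [chz_neg h, chz_neg h, chz_neg (by omega)]
  · subst h
    rw [chz_zero_right, chz_zero_right, chz_neg (by omega)]
  · obtain ⟨j, rfl⟩ : ∃ j : ℕ, k = (j : ℤ) + 1 := ⟨(k - 1).toNat, by omega⟩
    have e1 : ((j : ℤ) + 1) = ((j + 1 : ℕ) : ℤ) := by push_cast; rfl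
    have e2 : ((j : ℤ) + 1 - 1) = (j : ℤ) := by ring
    rw [e2, e1, chz_nat, chz_nat, chz_nat, Nat.choose_succ_succ, add_comm]

/-- shift of the summation index -/
theorem CertL_shift {β : Type*} [AddCommMonoid β] (t : ℤ → β) (J : ℕ) (h1 : t J = 0)
    (h2 : t (-(J : ℤ) - 1) = 0) :
    ∑ j ∈ Finset.Icc (-(J : ℤ)) J, t (j - 1) = ∑ j ∈ Finset.Icc (-(J : ℤ)) J, t j := by
  have e1 : ∑ j ∈ Finset.Icc (-(J : ℤ)) J, t (j - 1) =
      ∑ j ∈ Finset.Icc (-(J : ℤ) - 1) (J - 1), t j := by
    refine Finset.sum_bij' (fun j _ => j - 1) (fun j _ => j + 1) ?_ ?_ ?_ ?_ ?_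
    · intro j hj
      rw [Finset.mem_Icc] at hj ⊢
      omega
    · intro j hj
      rw [Finset.mem_Icc] at hj ⊢
      omega
    · intro j _
      ring
    · intro j _
      ring
    · intro j _
      rfl
  have e2 : Finset.Icc (-(J : ℤ) - 1) ((J : ℤ) - 1) =
      insert (-(J : ℤ) - 1) (Finset.Icc (-(J : ℤ)) ((J : ℤ) - 1)) := by
    ext j
    simp only [Finset.mem_insert, Finset.mem_Icc]
    omega
  have e3 : Finset.Icc (-(J : ℤ)) (J : ℤ) =
      insert (J : ℤ) (Finset.Icc (-(J : ℤ)) ((J : ℤ) - 1)) := by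
    ext j
    simp only [Finset.mem_insert, Finset.mem_Icc]
    omega
  rw [e1, e2, e3, Finset.sum_insert (by simp), Finset.sum_insert (by simp), h1, h2]

/-- `N w j` -/
def cN (M W w : ℕ) (j : ℤ) : ℕ := chz w j * chz (W - w) (M - j)

/-- `q w j` -/
def cq (M W w : ℕ) (j : ℤ) : ℕ := if w < W then chz w j * chz (W - w - 1) (M - j - 1) else 0

theorem cN_supp {M W w : ℕ} {j : ℤ} (h : cN M W w j ≠ 0) : 0 ≤ j ∧ j ≤ M := by
  constructor
  · by_contra h1
    exact h (by unfold cN; rw [chz_neg (by omega), zero_mul])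
  · by_contra h1
    exact h (by unfold cN; rw [chz_neg (k := (M : ℤ) - j) (by omega), mul_zero])

theorem cN_split {M W w : ℕ} (hw : w < W) (j : ℤ) :
    cN M W w j = chz w j * chz (W - w - 1) (M - j) + cq M W w j := by
  unfold cN cq
  rw [if_pos hw]
  obtain ⟨r, hr⟩ : ∃ r, W - w = r + 1 := ⟨W - w - 1, by omega⟩
  rw [hr, chz_succ, Nat.add_sub_cancel, mul_add]

theorem cq_le (M W w : ℕ) (j : ℤ) : cq M W w j ≤ cN M W w j := by
  by_cases hw : w < W
  · rw [cN_split hw]
    exact Nat.le_add_left _ _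
  · unfold cq
    rw [if_neg hw]
    exact Nat.zero_le _

theorem cq_ne {M W w : ℕ} {j : ℤ} (h : cq M W w j ≠ 0) : 0 ≤ j ∧ j ≤ M := by
  refine cN_supp (W := W) (w := w) ?_
  have := cq_le M W w j
  omega

theorem cq_M {M W w : ℕ} {j : ℤ} (h : (M : ℤ) ≤ j) : cq M W w j = 0 := by
  unfold cq
  split_ifs
  · rw [chz_neg (k := (M : ℤ) - j - 1) (by omega), mul_zero]
  · rfl

theorem cq_neg {M W w : ℕ} {j : ℤ} (h : j < 0) : cq M W w j = 0 := by
  unfold cq
  split_ifs
  · rw [chz_neg h, zero_mul]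
  · rfl

theorem cN_flow {M W w : ℕ} (hw : w < W) (j : ℤ) :
    cN M W (w + 1) j + cq M W w j = cN M W w j + cq M W w (j - 1) := by
  rw [cN_split hw]
  have h1 : cN M W (w + 1) j = (chz w j + chz w (j - 1)) * chz (W - w - 1) (M - j) := by
    unfold cN
    rw [chz_succ, Nat.sub_sub]
  have h2 : cq M W w (j - 1) = chz w (j - 1) * chz (W - w - 1) (M - j) := by
    unfold cq
    rw [if_pos hw]
    congr 2
    ring
  rw [h1, h2]
  ring

theorem cN_sum {M W : ℕ} : ∀ w ≤ W, ∑ j ∈ Finset.Icc (-(M : ℤ)) M, cN M W w j = W.choose M := by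
  intro w
  induction w with
  | zero =>
    intro _
    have : ∀ j ∈ Finset.Icc (-(M : ℤ)) M, j ≠ 0 → cN M W 0 j = 0 := by
      intro j _ hj
      unfold cN
      rw [chz_zero_left hj, zero_mul]
    rw [Finset.sum_eq_single_of_mem 0 (by simp) this]
    unfold cN
    rw [chz_zero_right, one_mul, Nat.sub_zero, sub_zero, chz_nat]
  | succ w ih =>
    intro hw
    have h := ih (by omega)
    have e : ∑ j ∈ Finset.Icc (-(M : ℤ)) M, (cN M W (w + 1) j + cq M W w j) =
        ∑ j ∈ Finset.Icc (-(M : ℤ)) M, (cN M W w j + cq M W w (j - 1)) :=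
      Finset.sum_congr rfl fun j _ => cN_flow (by omega) j
    rw [Finset.sum_add_distrib, Finset.sum_add_distrib,
      CertL_shift (cq M W w) M (cq_M (le_refl _)) (cq_neg (by omega))] at e
    omega

theorem cq_sum {M W : ℕ} (hM : 1 ≤ M) : ∀ w < W,
    ∑ j ∈ Finset.Icc (-(M : ℤ)) M, cq M W w j = (W - 1).choose (M - 1) := by
  intro w hw
  have h := cN_sum (M := M - 1) (W := W - 1) w (by omega)
  have e : ∀ j : ℤ, cq M W w j = cN (M - 1) (W - 1) w j := by
    intro j
    unfold cq cN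
    rw [if_pos hw]
    congr 2
    · omega
    · push_cast [Nat.cast_sub hM]
      ring
  rw [← h]
  simp only [e]
  symm
  refine Finset.sum_subset ?_ ?_
  · intro j hj
    rw [Finset.mem_Icc] at hj ⊢
    omega
  · intro j _ hj
    by_contra h0
    have := cN_supp h0
    rw [Finset.mem_Icc] at hj
    omega

/-- `A log A` -/
noncomputable def xlx (a : ℕ) : ℝ := a * Real.log a

theorem ent_mul (c a b : ℕ) :
    ent (c * (a + b)) (c * b) = c * (xlx (a + b) - xlx b - xlx a) := by
  unfold ent xlx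
  have e : c * (a + b) - c * b = c * a := by
    rw [mul_add]
    omega
  rw [e]
  have hl : ∀ x : ℕ, ((c * x : ℕ) : ℝ) * Real.log ((c * x : ℕ) : ℝ) =
      (c : ℝ) * x * Real.log c + c * (x * Real.log x) := by
    intro x
    rcases Nat.eq_zero_or_pos c with hc | hc
    · subst hc
      simp
    · rcases Nat.eq_zero_or_pos x with hx | hx
      · subst hx
        simp
      · push_cast
        rw [Real.log_mul (by positivity) (by positivity)]
        ring
  rw [hl, hl, hl]
  push_cast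
  ring

/-- `∑_j C(w,j) A log A`, `A = C(W - w, M - j)` -/
noncomputable def cPhi (M W w : ℕ) : ℝ :=
  ∑ j ∈ Finset.Icc (-(M : ℤ)) M, (chz w j : ℝ) * xlx (chz (W - w) (M - j))

theorem cent_sum {M W w : ℕ} (hw : w < W) :
    ∑ j ∈ Finset.Icc (-(M : ℤ)) M, ent (cN M W w j) (cq M W w j) =
      cPhi M W w - cPhi M W (w + 1) := by
  have e1 : ∀ j : ℤ, ent (cN M W w j) (cq M W w j) =
      (chz w j : ℝ) * xlx (chz (W - w) (M - j)) -
        (chz w j : ℝ) * xlx (chz (W - w - 1) (M - j - 1)) -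
        (chz w j : ℝ) * xlx (chz (W - w - 1) (M - j)) := by
    intro j
    obtain ⟨r, hr⟩ : ∃ r, W - w = r + 1 := ⟨W - w - 1, by omega⟩
    unfold cN cq
    rw [if_pos hw, hr, Nat.add_sub_cancel, chz_succ, ent_mul]
    ring
  have e2 : cPhi M W (w + 1) =
      ∑ j ∈ Finset.Icc (-(M : ℤ)) M, (chz w j : ℝ) * xlx (chz (W - w - 1) (M - j)) +
      ∑ j ∈ Finset.Icc (-(M : ℤ)) M, (chz w j : ℝ) * xlx (chz (W - w - 1) (M - j - 1)) := by
    have hs := CertL_shift
      (fun j => (chz w j : ℝ) * xlx (chz (W - w - 1) (M - j - 1))) M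
      (by
        rw [chz_neg (k := (M : ℤ) - M - 1) (by omega)]
        simp [xlx])
      (by
        rw [chz_neg (k := -(M : ℤ) - 1) (by omega)]
        simp)
    rw [← hs, ← Finset.sum_add_distrib]
    unfold cPhi
    refine Finset.sum_congr rfl fun j _ => ?_
    rw [chz_succ, Nat.sub_sub]
    have : (M : ℤ) - (j - 1) - 1 = M - j := by ring
    rw [this]
    push_cast
    ring
  rw [e2]
  simp only [e1]
  unfold cPhi
  rw [Finset.sum_sub_distrib, Finset.sum_sub_distrib]
  ring

theorem cPhi_zero (M W : ℕ) : cPhi M W 0 = xlx (W.choose M) := by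
  unfold cPhi
  have : ∀ j ∈ Finset.Icc (-(M : ℤ)) M, j ≠ 0 →
      (chz 0 j : ℝ) * xlx (chz (W - 0) (M - j)) = 0 := by
    intro j _ hj
    rw [chz_zero_left hj]
    simp
  rw [Finset.sum_eq_single_of_mem 0 (by simp) this, chz_zero_right, Nat.sub_zero, sub_zero,
    chz_nat]
  simp

theorem cPhi_last (M W : ℕ) : cPhi M W W = 0 := by
  unfold cPhi
  refine Finset.sum_eq_zero fun j _ => ?_
  rw [Nat.sub_self]
  by_cases h : (M : ℤ) - j = 0
  · rw [h, chz_zero_right]
    simp [xlx]
  · rw [chz_zero_left h]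
    simp [xlx]

theorem cent_total (M W : ℕ) :
    ∑ w ∈ Finset.range W, ∑ j ∈ Finset.Icc (-(M : ℤ)) M, ent (cN M W w j) (cq M W w j) =
      xlx (W.choose M) := by
  have : ∑ w ∈ Finset.range W, ∑ j ∈ Finset.Icc (-(M : ℤ)) M, ent (cN M W w j) (cq M W w j) =
      ∑ w ∈ Finset.range W, (cPhi M W w - cPhi M W (w + 1)) :=
    Finset.sum_congr rfl fun w hw => cent_sum (Finset.mem_range.mp hw)
  rw [this, Finset.sum_range_sub', cPhi_zero, cPhi_last, sub_zero]

theorem CertL_log_factorial (M : ℕ) (hM : 1 ≤ M) :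
    Real.log (M.factorial : ℝ) ≤ M * Real.log M - M + Real.log M + 1 := by
  induction M, hM using Nat.le_induction with
  | base => simp
  | succ M hM ih =>
    have hM0 : (0 : ℝ) < M := by exact_mod_cast hM
    have h1 : Real.log ((M + 1).factorial : ℝ) = Real.log (M + 1) + Real.log (M.factorial) := by
      rw [Nat.factorial_succ]
      push_cast
      rw [Real.log_mul (by positivity) (by positivity)]
    have h2 := Real.one_sub_inv_le_log_of_pos (x := ((M : ℝ) + 1) / M) (by positivity)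
    rw [Real.log_div (by positivity) (by positivity)] at h2
    have h3 : 1 - (((M : ℝ) + 1) / M)⁻¹ = 1 / (M + 1) := by
      field_simp
      ring
    rw [h3] at h2
    have h4 : 1 ≤ ((M : ℝ) + 1) * (Real.log (M + 1) - Real.log M) := by
      have := mul_le_mul_of_nonneg_left h2 (by positivity : (0 : ℝ) ≤ (M : ℝ) + 1)
      rwa [mul_one_div_cancel (by positivity)] at this
    rw [h1]
    push_cast
    nlinarith [ih, h4]

theorem CertL_log_choose {M m : ℕ} (hM : 1 ≤ M) (hm : 2 ≤ m) :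
    M * Real.log ((m : ℝ) - 1) + M - Real.log M - 1 ≤ Real.log ((M * m).choose M : ℝ) := by
  have hM0 : (0 : ℝ) < M := by exact_mod_cast hM
  have hm0 : (2 : ℝ) ≤ m := by exact_mod_cast hm
  have h1 : (M * (m - 1)) ^ M ≤ (M * m).descFactorial M := by
    refine le_trans (Nat.pow_le_pow_left ?_ M) (Nat.pow_sub_le_descFactorial (M * m) M)
    rw [Nat.mul_sub, mul_one]
    omega
  rw [Nat.descFactorial_eq_factorial_mul_choose] at h1
  have h2 : ((M : ℝ) * (m - 1)) ^ M ≤ (M.factorial : ℝ) * ((M * m).choose M : ℝ) := by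
    have : (((M * (m - 1)) ^ M : ℕ) : ℝ) ≤ ((M.factorial * (M * m).choose M : ℕ) : ℝ) := by
      exact_mod_cast h1
    push_cast [Nat.cast_sub (show 1 ≤ m by omega)] at this
    exact this
  have hc : (0 : ℝ) < ((M * m).choose M : ℝ) := by
    have : 0 < (M * m).choose M := Nat.choose_pos (Nat.le_mul_of_pos_right M (by omega))
    exact_mod_cast this
  have h3 := Real.log_le_log (by
    have : (0 : ℝ) < (m : ℝ) - 1 := by linarith
    positivity) h2
  rw [Real.log_pow, Real.log_mul hM0.ne' (by linarith),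
    Real.log_mul (by positivity) hc.ne'] at h3
  have h4 := CertL_log_factorial M hM
  nlinarith [h3, h4]

theorem CertL_pen {M W w : ℕ} (hM : 1 ≤ M) (hw : w ≤ W) (l : ℤ) (hl0 : 0 ≤ l) (hl : l ≤ M) :
    ∑ j ∈ Finset.Icc (-(M : ℤ)) M, (cN M W w j : ℝ) * ((j - l) * (j - l - 1)) ≤
      2 * (M : ℝ) ^ 2 * (W.choose M : ℝ) := by
  have hM0 : (1 : ℝ) ≤ M := by exact_mod_cast hM
  rw [← cN_sum w hw]
  push_cast
  rw [Finset.mul_sum]
  refine Finset.sum_le_sum fun j hj => ?_
  by_cases h : cN M W w j = 0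
  · rw [h]
    simp
  · obtain ⟨h0, h1⟩ := cN_supp h
    rw [mul_comm]
    refine mul_le_mul_of_nonneg_right ?_ (Nat.cast_nonneg _)
    have a1 : ((j : ℝ) - l) ≤ M := by
      have : (j - l : ℤ) ≤ M := by omega
      exact_mod_cast this
    have a2 : -(M : ℝ) ≤ (j : ℝ) - l := by
      have : -(M : ℤ) ≤ (j - l : ℤ) := by omega
      exact_mod_cast this
    nlinarith

theorem CertL_lcert_one {M m : ℕ} (hM : 1 ≤ M) (hMe : Even M) (hm : 2 ≤ m) {κ V : ℝ}
    (hκ : 0 ≤ κ)
    (hV : V * M ≤ M * Real.log ((m : ℝ) - 1) + M - Real.log M - 1 - M * Real.log m -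
      κ * (3 * (M : ℝ) ^ 3)) :
    LCert κ V M (M * m) M ((M * m).choose M) (cN M (M * m)) (cq M (M * m))
      (fun w => ((w / m : ℕ) : ℤ)) (fun _ => (M : ℤ)) where
  M_pos := hM
  M_even := hMe
  J_even := hMe
  den_pos := Nat.choose_pos (Nat.le_mul_of_pos_right M (by omega))
  supp := by
    intro w _ j hj
    have := cN_supp hj
    omega
  q_le := cq_le M (M * m)
  flow := fun w hw j => cN_flow hw j
  per := by
    intro j
    unfold cN
    rw [Nat.sub_self, Nat.sub_zero]
    by_cases h : j = M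
    · subst h
      rw [sub_self, chz_zero_right, mul_one, one_mul, sub_zero]
    · rw [chz_zero_left (k := (M : ℤ) - j) (by omega), chz_zero_left (k := j - (M : ℤ)) (by omega),
        mul_zero, zero_mul]
  tot := cN_sum 0 (Nat.zero_le _)
  tp_ge := by
    intro w _ j hj
    exact (cq_ne hj).2
  tp_le := by
    intro w _
    constructor
    · omega
    · exact le_refl _
  lm_le := by
    intro w hw
    have h1 : w / m < M := by
      rw [Nat.div_lt_iff_lt_mul (by omega)]
      exact hw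
    generalize w / m = x at h1
    constructor <;> omega
  value := by
    have hM0 : (1 : ℝ) ≤ M := by exact_mod_cast hM
    have hm0 : (2 : ℝ) ≤ m := by exact_mod_cast hm
    have hden : (0 : ℝ) < ((M * m).choose M : ℝ) := by
      have : 0 < (M * m).choose M := Nat.choose_pos (Nat.le_mul_of_pos_right M (by omega))
      exact_mod_cast this
    have hfs : ∀ w < M * m, (fsum M (cq M (M * m)) w : ℝ) / ((M * m).choose M : ℝ) = 1 / m := by
      intro w hw
      unfold fsum
      rw [cq_sum hM w hw]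
      have h1 := Nat.add_one_mul_choose_eq (M * m - 1) (M - 1)
      have hp : 1 ≤ M * m := Nat.mul_pos hM (by omega)
      rw [Nat.sub_add_cancel hp, Nat.sub_add_cancel hM] at h1
      have h2 : ((M * m : ℕ) : ℝ) * ((M * m - 1).choose (M - 1) : ℝ) =
          ((M * m).choose M : ℝ) * M := by exact_mod_cast h1
      push_cast at h2
      rw [div_eq_div_iff hden.ne' (by positivity)]
      have h3 : (M : ℝ) ≠ 0 := by positivity
      have : (M : ℝ) * (((M * m - 1).choose (M - 1) : ℝ) * m) =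
          M * (1 * ((M * m).choose M : ℝ)) := by linarith
      exact mul_left_cancel₀ h3 this
    have hsum : ∑ w ∈ Finset.range (M * m),
        ((∑ j ∈ Finset.Icc (-(M : ℤ)) M, ent (cN M (M * m) w j) (cq M (M * m) w j)) /
          ((M * m).choose M : ℝ) + 1 / (m : ℝ) * (Real.log (1 / m) - κ * (3 * (M : ℝ) ^ 2))) =
        Real.log ((M * m).choose M : ℝ) - M * Real.log m - κ * (3 * (M : ℝ) ^ 3) := by
      rw [Finset.sum_add_distrib, ← Finset.sum_div, cent_total, Finset.sum_const,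
        Finset.card_range, nsmul_eq_mul, one_div, Real.log_inv]
      unfold xlx
      rw [mul_div_cancel_left₀ _ hden.ne']
      push_cast
      field_simp
      ring
    have hlc := CertL_log_choose hM hm
    refine hV.trans (le_trans ?_ (le_trans hsum.ge ?_))
    · linarith
    · refine Finset.sum_le_sum fun w hw => ?_
      have hw' := Finset.mem_range.mp hw
      rw [hfs w hw']
      have hl0 : (0 : ℤ) ≤ ((w / m : ℕ) : ℤ) := Int.natCast_nonneg _
      have hl1 : ((w / m : ℕ) : ℤ) ≤ M := by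
        have h1 : w / m < M := by
          rw [Nat.div_lt_iff_lt_mul (by omega)]
          exact hw'
        omega
      have hpen := CertL_pen hM hw'.le _ hl0 hl1
      have hpen' : (∑ j ∈ Finset.Icc (-(M : ℤ)) M,
          (cN M (M * m) w j : ℝ) * ((j - ((w / m : ℕ) : ℤ)) * (j - ((w / m : ℕ) : ℤ) - 1))) /
            ((M * m).choose M : ℝ) ≤ 2 * (M : ℝ) ^ 2 := by
        rw [div_le_iff₀ hden]
        exact hpen
      have hmax : 1 / (m : ℝ) * max 0 (((M : ℤ) : ℝ) - ((w / m : ℕ) : ℤ)) ≤ (M : ℝ) ^ 2 := by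
        have h1 : max 0 (((M : ℤ) : ℝ) - (((w / m : ℕ) : ℤ) : ℝ)) ≤ M := by
          refine max_le (by positivity) ?_
          have : (0 : ℝ) ≤ (((w / m : ℕ) : ℤ) : ℝ) := by exact_mod_cast hl0
          push_cast at this ⊢
          linarith
        have h2 : 1 / (m : ℝ) ≤ 1 := by
          rw [div_le_one (by positivity)]
          linarith
        calc 1 / (m : ℝ) * max 0 (((M : ℤ) : ℝ) - (((w / m : ℕ) : ℤ) : ℝ)) ≤ 1 * M := by
              gcongr
          _ ≤ (M : ℝ) ^ 2 := by nlinarith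
      have hkey : κ * ((∑ j ∈ Finset.Icc (-(M : ℤ)) M,
          (cN M (M * m) w j : ℝ) * ((j - ((w / m : ℕ) : ℤ)) * (j - ((w / m : ℕ) : ℤ) - 1))) /
            ((M * m).choose M : ℝ) +
          1 / (m : ℝ) * max 0 (((M : ℤ) : ℝ) - (((w / m : ℕ) : ℤ) : ℝ))) ≤
          κ * (3 * (M : ℝ) ^ 2) := by
        refine mul_le_mul_of_nonneg_left ?_ hκ
        linarith
      have hmp : (0 : ℝ) ≤ 1 / (m : ℝ) := by positivity
      have := mul_le_mul_of_nonneg_left (sub_le_sub_left hkey (Real.log (1 / (m : ℝ)))) hmp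
      linarith

theorem lach_one (ε : ℝ) (hε : 0 < ε) : ∃ κ₀ : ℝ, 0 < κ₀ ∧ LAch κ₀ (1 - ε) := by
  -- choice of `M`
  have h1 : ∀ᶠ x : ℝ in Filter.atTop, Real.log x ≤ ε / 6 * x := by
    have := Real.isLittleO_log_id_atTop.bound (show (0 : ℝ) < ε / 6 by positivity)
    filter_upwards [this, Filter.eventually_ge_atTop (0 : ℝ)] with x hx hx0
    rw [Real.norm_eq_abs, Real.norm_eq_abs, id, abs_of_nonneg hx0] at hx
    exact (le_abs_self _).trans hx
  obtain ⟨x0, hx0⟩ := Filter.eventually_atTop.mp h1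
  obtain ⟨n, hn⟩ := exists_nat_ge (max x0 (6 / ε))
  set M : ℕ := 2 * (n + 1) with hMdef
  have hM : 1 ≤ M := by omega
  have hMe : Even M := even_two_mul _
  have hMn : (n : ℝ) ≤ M := by
    rw [hMdef]
    push_cast
    have : (0 : ℝ) ≤ n := Nat.cast_nonneg _
    linarith
  have hM1 : Real.log (M : ℝ) ≤ ε / 6 * M := hx0 _ ((le_max_left _ _).trans (hn.trans hMn))
  have hM2 : 1 ≤ ε / 6 * (M : ℝ) := by
    have : 6 / ε ≤ (M : ℝ) := (le_max_right _ _).trans (hn.trans hMn)
    rw [div_le_iff₀ hε] at this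
    linarith
  have hM0 : (1 : ℝ) ≤ M := by exact_mod_cast hM
  -- choice of `m`
  obtain ⟨k, hk⟩ := exists_nat_ge (3 / ε)
  have hk0 : (0 : ℝ) < k := lt_of_lt_of_le (by positivity) hk
  have hk1 : 1 ≤ k := by exact_mod_cast hk0
  have hm : 2 ≤ k + 1 := by omega
  have hlog : Real.log ((k + 1 : ℕ) : ℝ) - Real.log (((k + 1 : ℕ) : ℝ) - 1) ≤ ε / 3 := by
    have e : (((k + 1 : ℕ) : ℝ) - 1) = k := by push_cast; ring
    rw [e, ← Real.log_div (by positivity) hk0.ne']
    refine (Real.log_le_sub_one_of_pos (by positivity)).trans ?_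
    have e2 : ((k + 1 : ℕ) : ℝ) / k - 1 = 1 / k := by
      push_cast
      field_simp
      ring
    rw [e2, div_le_div_iff₀ hk0 (by norm_num)]
    rw [div_le_iff₀ hε] at hk
    linarith
  refine ⟨ε / (9 * (M : ℝ) ^ 2), by positivity, fun ε' hε' => ?_⟩
  refine ⟨M, M * (k + 1), M, _, _, _, _, _,
    CertL_lcert_one hM hMe hm (by positivity) ?_⟩
  have e3 : ε / (9 * (M : ℝ) ^ 2) * (3 * (M : ℝ) ^ 3) = ε / 3 * M := by
    field_simp
    ring
  rw [e3]
  have h5 := mul_le_mul_of_nonneg_left hlog (by positivity : (0 : ℝ) ≤ (M : ℝ))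
  nlinarith [h5, hM1, hM2, mul_pos hε' (lt_of_lt_of_le one_pos hM0)]

end Pool.Agent.Lib.MP_8501c9_pr.Wide
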