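import Pool.Agent.Lib.MP_8501c9_pr.Wide.WideUpper
import Pool.Agent.Lib.MP_8501c9_pr.Wide.Beta
import Pool.Agent.Lib.MP_8501c9_pr.Wide.GapLow

/-!
# The upper bound of the percolation probability, values certified on finitely many slices
-/

set_option autoImplicit false
open Set

namespace Pool.Agent.Lib.MP_8501c9_pr.Wide

open Pool.Agent.Lib.MP_8501c9_pr Pool.Agent.Lib.MP_8501c9_pr.Mid

/-! ### floors -/

theorem floor_const_of_dvd {m M : ℕ} (h : m ∣ M) (hM : 0 < M) {s s' : ℝ}
    (hs : ⌊(M : ℝ) * s⌋ = ⌊(M : ℝ) * s'⌋) : ⌊(m : ℝ) * s⌋ = ⌊(m : ℝ) * s'⌋ := by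
  obtain ⟨q, rfl⟩ := h
  have hq : 0 < q := Nat.pos_of_mul_pos_left hM
  have hqR : (q : ℝ) ≠ 0 := by exact_mod_cast hq.ne'
  have h1 : ∀ u : ℝ, ⌊(m : ℝ) * u⌋ = ⌊((m * q : ℕ) : ℝ) * u⌋ / (q : ℤ) := by
    intro u
    rw [← Int.floor_div_natCast]
    congr 1
    push_cast
    field_simp
  rw [h1 s, h1 s', hs]

/-- least `r` with `w * d ≤ m * r` -/
def cw (m d w : ℕ) : ℕ := (w * d + (m - 1)) / m

theorem cw_le_iff {m : ℕ} (hm : 1 ≤ m) (d w r : ℕ) : cw m d w ≤ r ↔ w * d ≤ m * r := by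
  unfold cw
  rw [← Nat.lt_succ_iff, Nat.div_lt_iff_lt_mul (by omega), Nat.succ_mul, mul_comm r m]
  omega

theorem cw_zero {m : ℕ} (hm : 1 ≤ m) (d : ℕ) : cw m d 0 = 0 := by
  have := (cw_le_iff hm d 0 0).2 (by simp)
  omega

theorem cw_bounds {m : ℕ} (hm : 1 ≤ m) (d w : ℕ) :
    w * d ≤ m * cw m d w ∧ m * cw m d w ≤ w * d + (m - 1) := by
  constructor
  · exact (cw_le_iff hm d w _).1 le_rfl
  · unfold cw
    exact Nat.mul_div_le _ _

theorem cw_mono {m : ℕ} (hm : 1 ≤ m) (d : ℕ) {w w' : ℕ} (h : w ≤ w') : cw m d w ≤ cw m d w' := by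
  rw [cw_le_iff hm]
  exact le_trans (Nat.mul_le_mul_right _ h) (cw_bounds hm d w').1

/-- the window of `r` in a level of length `d` -/
theorem card_window {m : ℕ} (hm : 1 ≤ m) {d : ℕ} (hd : 1 ≤ d) {w : ℕ} (hw : w < m) :
    (Finset.range d).filter (fun r => m * r / d = w) = Finset.Ico (cw m d w) (cw m d (w + 1)) := by
  ext r
  rw [Finset.mem_filter, Finset.mem_range, Finset.mem_Ico, cw_le_iff hm, ← not_le, ← not_le,
    cw_le_iff hm]
  have h1 : m * r / d = w ↔ w * d ≤ m * r ∧ m * r < (w + 1) * d := by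
    rw [Nat.div_eq_iff (by omega)]
    constructor
    · rintro ⟨a, b⟩
      have : (w + 1) * d = w * d + d := by ring
      omega
    · rintro ⟨a, b⟩
      have : (w + 1) * d = w * d + d := by ring
      omega
  rw [h1]
  constructor
  · rintro ⟨_, b, c⟩
    exact ⟨b, by omega⟩
  · rintro ⟨b, c⟩
    refine ⟨?_, b, by omega⟩
    intro hdr
    apply c
    calc (w + 1) * d ≤ m * d := Nat.mul_le_mul_right _ (by omega)
      _ ≤ m * r := Nat.mul_le_mul_left _ hdr

/-- sum over one level of a function which is constant on windows -/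
theorem sum_level_le {m : ℕ} (hm : 1 ≤ m) {d : ℕ} (hd : 1 ≤ d) (a : ℕ → ℝ) {B : ℝ}
    (ha : ∀ w, |a w| ≤ B) :
    ∑ r ∈ Finset.range d, a (m * r / d) ≤
      (d : ℝ) * ((∑ w ∈ Finset.range m, a w) / m) + m * B := by
  have hmaps : ∀ r ∈ Finset.range d, m * r / d ∈ Finset.range m := by
    intro r hr
    rw [Finset.mem_range] at hr ⊢
    rw [Nat.div_lt_iff_lt_mul (by omega)]
    exact Nat.mul_lt_mul_of_pos_left hr (by omega)
  rw [← Finset.sum_fiberwise_of_maps_to hmaps]
  have h1 : ∀ w ∈ Finset.range m,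
      ∑ r ∈ (Finset.range d).filter (fun r => m * r / d = w), a (m * r / d) ≤
        (d : ℝ) / m * a w + B := by
    intro w hw
    rw [Finset.mem_range] at hw
    have h2 : ∑ r ∈ (Finset.range d).filter (fun r => m * r / d = w), a (m * r / d) =
        ∑ r ∈ (Finset.range d).filter (fun r => m * r / d = w), a w := by
      apply Finset.sum_congr rfl
      intro r hr
      rw [(Finset.mem_filter.1 hr).2]
    rw [h2, Finset.sum_const, card_window hm hd hw, Nat.card_Ico, nsmul_eq_mul,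
      Nat.cast_sub (cw_mono hm d (Nat.le_succ w))]
    obtain ⟨p1, p2⟩ := cw_bounds hm d w
    obtain ⟨q1, q2⟩ := cw_bounds hm d (w + 1)
    have hmR : (0 : ℝ) < m := by exact_mod_cast hm
    have P1 : (w : ℝ) * d ≤ m * cw m d w := by exact_mod_cast p1
    have P2 : (m : ℝ) * cw m d w ≤ w * d + m := by
      have : m * cw m d w ≤ w * d + m := by omega
      exact_mod_cast this
    have Q1 : ((w : ℝ) + 1) * d ≤ m * cw m d (w + 1) := by exact_mod_cast q1
    have Q2 : (m : ℝ) * cw m d (w + 1) ≤ (w + 1) * d + m := by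
      have : m * cw m d (w + 1) ≤ (w + 1) * d + m := by omega
      exact_mod_cast this
    have h3 : |((cw m d (w + 1) : ℝ) - cw m d w) - d / m| ≤ 1 := by
      rw [abs_le]
      constructor
      · have : (d : ℝ) / m ≤ ((cw m d (w + 1) : ℝ) - cw m d w) + 1 := by
          rw [div_le_iff₀ hmR]
          nlinarith
        linarith
      · have : ((cw m d (w + 1) : ℝ) - cw m d w) - 1 ≤ (d : ℝ) / m := by
          rw [le_div_iff₀ hmR]
          nlinarith
        linarith
    have h4 : (((cw m d (w + 1) : ℝ) - cw m d w) - d / m) * a w ≤ B := by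
      calc (((cw m d (w + 1) : ℝ) - cw m d w) - d / m) * a w
          ≤ |(((cw m d (w + 1) : ℝ) - cw m d w) - d / m) * a w| := le_abs_self _
        _ = |((cw m d (w + 1) : ℝ) - cw m d w) - d / m| * |a w| := abs_mul _ _
        _ ≤ 1 * |a w| := mul_le_mul_of_nonneg_right h3 (abs_nonneg _)
        _ = |a w| := one_mul _
        _ ≤ B := ha w
    linarith
  refine (Finset.sum_le_sum h1).trans ?_
  rw [Finset.sum_add_distrib, Finset.sum_const, Finset.card_range, nsmul_eq_mul,
    ← Finset.mul_sum]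
  apply le_of_eq
  ring

/-- the exponent of one level, from the certificate -/
theorem UCert.level {κ V R P h₀ : ℝ} {m : ℕ} {f : ℝ → ℤ → ℝ} {y : ℝ → ℝ} {ρ : ℝ}
    (hc : UCert κ V R P h₀ m f y ρ) {d : ℕ} (hd : 1 ≤ d) :
    ∑ r ∈ Finset.range d, (ρ - Real.log (y ((r : ℝ) / d))) ≤ d * V + m * Real.log R := by
  have hm := hc.m_pos
  have hdR : (0 : ℝ) < d := by exact_mod_cast hd
  have hmR : (0 : ℝ) < m := by exact_mod_cast hm
  have hR1 : 1 ≤ R := (hc.f_ge 0 0).trans (hc.f_le 0 0)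
  have hR0 : 0 < R := by linarith
  have hy0 : ∀ s, 0 < y s := fun s => lt_of_lt_of_le (by positivity) (hc.y_ge s)
  have hlog : ∀ s, |Real.log (y s)| ≤ Real.log R := by
    intro s
    rw [abs_le]
    constructor
    · rw [← Real.log_inv]
      apply Real.log_le_log (by positivity)
      rw [← one_div]
      exact hc.y_ge s
    · exact Real.log_le_log (hy0 s) (hc.y_le s)
  have h1 : ∀ r ∈ Finset.range d, (ρ - Real.log (y ((r : ℝ) / d))) =
      ρ + (fun w : ℕ => - Real.log (y ((w : ℝ) / m))) (m * r / d) := by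
    intro r _
    have : y ((r : ℝ) / d) = y (((m * r / d : ℕ) : ℝ) / m) := by
      apply hc.y_const
      have e1 : (m : ℝ) * (((m * r / d : ℕ) : ℝ) / m) = ((m * r / d : ℕ) : ℝ) := by
        field_simp
      have e2 : (m : ℝ) * ((r : ℝ) / d) = ((m * r : ℕ) : ℝ) / (d : ℕ) := by
        push_cast
        ring
      rw [e1, e2, Int.floor_natCast, Int.floor_div_natCast, Int.floor_natCast]
      norm_cast
    simp only [this]
    ring
  rw [Finset.sum_congr rfl h1, Finset.sum_add_distrib, Finset.sum_const, Finset.card_range,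
    nsmul_eq_mul]
  have h2 : ∑ r ∈ Finset.range d, (fun w : ℕ => - Real.log (y ((w : ℝ) / m))) (m * r / d) ≤
      (d : ℝ) * ((∑ w ∈ Finset.range m, -Real.log (y ((w : ℝ) / m))) / m) + m * Real.log R :=
    sum_level_le hm hd (fun w : ℕ => - Real.log (y ((w : ℝ) / m))) (B := Real.log R)
      (fun w => by rw [abs_neg]; exact hlog _)
  have h3 := hc.value
  have h4 : (d : ℝ) * (ρ - (∑ w ∈ Finset.range m, Real.log (y ((w : ℝ) / m))) / m) ≤ d * V :=
    mul_le_mul_of_nonneg_left h3 hdR.le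
  have h6 : ∑ w ∈ Finset.range m, -Real.log (y ((w : ℝ) / m)) =
      -∑ w ∈ Finset.range m, Real.log (y ((w : ℝ) / m)) := Finset.sum_neg_distrib _
  have h5 : (d : ℝ) * (-(∑ w ∈ Finset.range m, Real.log (y ((w : ℝ) / m))) / m) =
      -(d * ((∑ w ∈ Finset.range m, Real.log (y ((w : ℝ) / m))) / m)) := by ring
  rw [h6, h5] at h2
  linarith

/-! ### slices -/

theorem sidx_le (J : ℕ) (γ : ℕ → ℝ) (d l : ℕ) : sidx J γ d l ≤ J := by
  classical
  unfold sidx
  exact (Finset.card_filter_le _ _).trans (by simp)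

theorem sidx_mono (J : ℕ) (γ : ℕ → ℝ) (d : ℕ) : Monotone (sidx J γ d) := by
  classical
  intro l l' h
  unfold sidx
  apply Finset.card_le_card
  intro i hi
  rw [Finset.mem_filter] at hi ⊢
  refine ⟨hi.1, lt_of_lt_of_le hi.2 ?_⟩
  exact_mod_cast h

theorem le_of_sidx (J : ℕ) {γ : ℕ → ℝ} (hγ : StrictMono γ) {d l i : ℕ} (hi : sidx J γ d l = i)
    (hiJ : i < J) : (l : ℝ) ≤ γ i * Real.sqrt d := by
  classical
  by_contra hlt
  push Not at hlt
  have hsub : Finset.range (i + 1) ⊆ (Finset.range J).filter (fun j => γ j * Real.sqrt d < l) := by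
    intro j hj
    rw [Finset.mem_range] at hj
    rw [Finset.mem_filter, Finset.mem_range]
    refine ⟨by omega, lt_of_le_of_lt ?_ hlt⟩
    exact mul_le_mul_of_nonneg_right (hγ.monotone (by omega)) (Real.sqrt_nonneg _)
  have := Finset.card_le_card hsub
  rw [Finset.card_range] at this
  unfold sidx at hi
  have e : ((Finset.range J).filter (fun i => γ i * Real.sqrt d < l)).card = i := by
    convert hi
  omega

/-- the number of changes of slice is at most `J` -/
theorem sum_change_le (J : ℕ) (γ : ℕ → ℝ) (d N : ℕ) {B : ℝ} (hB : 0 ≤ B) :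
    ∑ l ∈ Finset.range N, (if sidx J γ d (l + 1) = sidx J γ d l then 0 else B) ≤ J * B := by
  have h1 : ∀ l ∈ Finset.range N, (if sidx J γ d (l + 1) = sidx J γ d l then 0 else B) ≤
      ((sidx J γ d (l + 1) : ℝ) - sidx J γ d l) * B := by
    intro l _
    have hm := sidx_mono J γ d (Nat.le_succ l)
    split_ifs with h
    · rw [h]
      simp
    · have h2 : sidx J γ d l + 1 ≤ sidx J γ d (l + 1) := by
        have : sidx J γ d l ≤ sidx J γ d (l + 1) := hm
        omega
      have h3 : (sidx J γ d l : ℝ) + 1 ≤ sidx J γ d (l + 1) := by exact_mod_cast h2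
      nlinarith
  refine (Finset.sum_le_sum h1).trans ?_
  rw [← Finset.sum_mul, Finset.sum_range_sub (fun l => (sidx J γ d l : ℝ))]
  have h4 : (sidx J γ d N : ℝ) ≤ J := by exact_mod_cast sidx_le J γ d N
  have h5 : (0 : ℝ) ≤ sidx J γ d 0 := Nat.cast_nonneg _
  apply mul_le_mul_of_nonneg_right _ hB
  linarith

/-- sum over `t < k` from the sums over the levels -/
theorem sum_levels_le {d k : ℕ} (hd : 1 ≤ d) (g v : ℕ → ℝ) {A B : ℝ} (hA : 0 ≤ A) (hB : 0 ≤ B)
    (hlev : ∀ q, ∑ r ∈ Finset.range d, g (d * q + r) ≤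
      ∑ r ∈ Finset.range d, v (d * q + r) + A)
    (hB1 : ∀ t, g t ≤ v t + B) :
    ∑ t ∈ Finset.range k, g t ≤ ∑ t ∈ Finset.range k, v t + A * (k / d) + B * d := by
  have h1 : ∀ q : ℕ, ∑ t ∈ Finset.range (d * q), g t ≤
      ∑ t ∈ Finset.range (d * q), v t + A * q := by
    intro q
    induction q with
    | zero => simp
    | succ q ih =>
      rw [Nat.mul_succ, Finset.sum_range_add, Finset.sum_range_add]
      have := hlev q
      push_cast
      linarith
  have hk : k = d * (k / d) + k % d := (Nat.div_add_mod k d).symm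
  have hdR : (0 : ℝ) < d := by exact_mod_cast hd
  have h2 : ∑ t ∈ Finset.range k, g t = ∑ t ∈ Finset.range (d * (k / d)), g t +
      ∑ t ∈ Finset.range (k % d), g (d * (k / d) + t) := by
    conv_lhs => rw [hk]
    rw [Finset.sum_range_add]
  have h3 : ∑ t ∈ Finset.range k, v t = ∑ t ∈ Finset.range (d * (k / d)), v t +
      ∑ t ∈ Finset.range (k % d), v (d * (k / d) + t) := by
    conv_lhs => rw [hk]
    rw [Finset.sum_range_add]
  have h4 : ∑ t ∈ Finset.range (k % d), g (d * (k / d) + t) ≤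
      ∑ t ∈ Finset.range (k % d), v (d * (k / d) + t) + B * d := by
    calc ∑ t ∈ Finset.range (k % d), g (d * (k / d) + t)
        ≤ ∑ t ∈ Finset.range (k % d), (v (d * (k / d) + t) + B) :=
          Finset.sum_le_sum (fun t _ => hB1 _)
      _ = ∑ t ∈ Finset.range (k % d), v (d * (k / d) + t) + (k % d : ℕ) * B := by
          rw [Finset.sum_add_distrib, Finset.sum_const, Finset.card_range, nsmul_eq_mul]
      _ ≤ _ := by
          have : ((k % d : ℕ) : ℝ) ≤ d := by exact_mod_cast (Nat.mod_lt k (by omega)).le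
          nlinarith
  have h5 : ((k / d : ℕ) : ℝ) ≤ (k : ℝ) / d := Nat.cast_div_le
  have h6 := h1 (k / d)
  have h7 : A * ((k / d : ℕ) : ℝ) ≤ A * ((k : ℝ) / d) := mul_le_mul_of_nonneg_left h5 hA
  rw [h2, h3]
  linarith

theorem exists_bound (J : ℕ) (g : ℕ → ℝ) : ∃ B : ℝ, 1 ≤ B ∧ ∀ i < J, |g i| ≤ B := by
  refine ⟨1 + ∑ i ∈ Finset.range J, |g i|, ?_, ?_⟩
  · have : 0 ≤ ∑ i ∈ Finset.range J, |g i| := Finset.sum_nonneg (fun i _ => abs_nonneg _)
    linarith
  · intro i hi
    have : |g i| ≤ ∑ i ∈ Finset.range J, |g i| :=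
      Finset.single_le_sum (f := fun i => |g i|) (fun i _ => abs_nonneg _)
        (Finset.mem_range.2 hi)
    linarith

theorem UCert.one_le_R {κ V R P h₀ : ℝ} {m : ℕ} {f : ℝ → ℤ → ℝ} {y : ℝ → ℝ} {ρ : ℝ}
    (hc : UCert κ V R P h₀ m f y ρ) : 1 ≤ R := (hc.f_ge 0 0).trans (hc.f_le 0 0)

open Classical in
/-- the family of supersolutions made of the certificates of the slices -/
theorem uf_slices {J : ℕ} {γ : ℕ → ℝ} (hγ : StrictMono γ) {ε : ℝ}
    (hε1 : ε ≤ 1 / 4) {R P h₀ W : ℕ → ℝ} {m : ℕ → ℕ} {f : ℕ → ℝ → ℤ → ℝ}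
    {y : ℕ → ℝ → ℝ} {ρ : ℕ → ℝ}
    (hc : ∀ i, i < J → UCert ((1 - 2 * ε) / (4 * γ i ^ 2)) (W i) (R i) (P i) (h₀ i) (m i)
      (f i) (y i) (ρ i))
    {d k M : ℕ} (hd : 1 ≤ d) (hM : 1 ≤ M) (hmM : ∀ i, i < J → m i ∣ M)
    (hgap : ∀ i, i < J → ∀ l x : ℕ, 1 ≤ l → (l : ℝ) ≤ γ i * Real.sqrt d → 1 ≤ x →
      min ((1 - 2 * ε) / (4 * γ i ^ 2) * (((x : ℝ) - l) * ((x : ℝ) - l - 1))) (P i) ≤
        (1 - ε) * (d / 2) * gapl l x)
    (hh : ∀ i, i < J → 2 / (d : ℝ) ≤ h₀ i)
    {Rm : ℝ} (hRm1 : 1 ≤ Rm) (hRm : ∀ i, i < J → R i ≤ Rm) :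
    UF d k M ε Rm
      (fun l s j => if sidx J γ d l < J then f (sidx J γ d l) s j else 1)
      (fun l s => if sidx J γ d l < J then y (sidx J γ d l) s else 1)
      (fun l => if sidx J γ d l < J then ρ (sidx J γ d l) else 1)
      (fun l => if sidx J γ d (l + 1) = sidx J γ d l then 0 else Real.log Rm) := by
  have hRm0 : 0 < Rm := by linarith
  have hdR : (0 : ℝ) < d := by exact_mod_cast hd
  have hlogR : 0 ≤ Real.log Rm := Real.log_nonneg hRm1
  have hF1 : ∀ l s j, 1 ≤ (if sidx J γ d l < J then f (sidx J γ d l) s j else 1) := by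
    intro l s j
    split_ifs with h
    · exact (hc _ h).f_ge s j
    · exact le_rfl
  have hF2 : ∀ l s j, (if sidx J γ d l < J then f (sidx J γ d l) s j else 1) ≤ Rm := by
    intro l s j
    split_ifs with h
    · exact ((hc _ h).f_le s j).trans (hRm _ h)
    · exact hRm1
  refine ⟨hF1, hF2, ?_, ?_, ?_, ?_, ?_, ?_, ?_, ?_, ?_⟩
  · intro l s
    split_ifs with h
    · refine le_trans ?_ ((hc _ h).y_ge s)
      have := (hc _ h).one_le_R
      exact one_div_le_one_div_of_le (by linarith) (hRm _ h)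
    · rw [div_le_one hRm0]
      exact hRm1
  · intro l s
    split_ifs with h
    · exact ((hc _ h).y_le s).trans (hRm _ h)
    · exact hRm1
  · intro l s s' hs
    split_ifs with h
    · exact (hc _ h).y_const s s' (floor_const_of_dvd (hmM _ h) (by omega) hs)
    · rfl
  · intro l
    split_ifs with h
    · exact (hc _ h).ρ_nonneg
    · exact zero_le_one
  · intro l
    split_ifs with h
    · exact ((hc _ h).ρ_le).trans (hRm _ h)
    · exact hRm1
  · intro l
    split_ifs
    · exact le_rfl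
    · exact hlogR
  · intro l s h j hs hh0 hsh
    split_ifs with hi
    · refine ((hc _ hi).lip s h j hs hh0 hsh).trans ?_
      apply mul_le_mul_of_nonneg_right _ (zero_le_one.trans ((hc _ hi).f_ge s j))
      apply Real.exp_le_exp.2
      exact mul_le_mul_of_nonneg_right (hRm _ hi) hh0
    · rw [mul_one]
      apply Real.one_le_exp
      positivity
  · intro l s x hl _ hx hs hsd
    split_ifs with hi
    · have h1 := (hc _ hi).step s (2 / (d : ℝ)) ((x : ℤ) - l) hs (by positivity) (hh _ hi) hsd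
      have e1 : ((x : ℤ) - l + 1) = (x : ℤ) + 1 - l := by ring
      rw [e1] at h1
      refine h1.trans ?_
      apply mul_le_mul_of_nonneg_right _ (zero_le_one.trans ((hc _ hi).f_ge s _))
      apply Real.exp_le_exp.2
      have h2 := hgap _ hi l x hl (le_of_sidx J hγ rfl hi) hx
      push_cast
      have h3 : 2 / (d : ℝ) * min ((1 - 2 * ε) / (4 * γ (sidx J γ d l) ^ 2) *
          (((x : ℝ) - l) * ((x : ℝ) - l - 1))) (P (sidx J γ d l)) ≤ (1 - ε) * gapl l x := by
        calc _ ≤ 2 / (d : ℝ) * ((1 - ε) * (d / 2) * gapl l x) :=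
              mul_le_mul_of_nonneg_left h2 (by positivity)
          _ = _ := by
              field_simp
      linarith
    · have h1 : 0 ≤ (1 - ε) * gapl l x := mul_nonneg (by linarith) (gapl_nonneg hl hx)
      rw [one_mul, div_one, mul_one, mul_one, mul_one]
      apply Real.exp_le_exp.2
      linarith
  · intro l x hl _ hx
    by_cases hch : sidx J γ d (l + 1) = sidx J γ d l
    · rw [if_pos hch, hch, Real.exp_zero, one_mul]
      split_ifs with hi
      · have h1 := (hc _ hi).shift ((x : ℤ) - (l + 1))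
        have e1 : ((x : ℤ) - (l + 1) + 1) = (x : ℤ) - l := by ring
        rw [e1] at h1
        exact h1
      · exact le_rfl
    · rw [if_neg hch, Real.exp_log hRm0]
      have h1 := hF1 l 1 ((x : ℤ) - l)
      have h2 := hF2 (l + 1) 0 ((x : ℤ) - (l + 1))
      refine h2.trans ?_
      nlinarith

/-- no percolation for smaller probabilities, values certified on finitely many slices -/
theorem wide_upper_slices (J : ℕ) (γ V : ℕ → ℝ) (hγ0 : ∀ i, 0 < γ i) (hγ : StrictMono γ)
    (ε ε₁ : ℝ) (hε0 : 0 < ε) (hε1 : ε ≤ 1 / 4) (hε₁ : 0 < ε₁)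
    (hU : ∀ i < J, UAch ((1 - 2 * ε) / (4 * γ i ^ 2)) (V i)) :
    ∃ c₂ : ℝ, 0 < c₂ ∧ ∃ C : ℝ, 0 ≤ C ∧ ∃ D₀ : ℕ, ∀ (n d k : ℕ) (L : ℝ),
      D₀ ≤ d → d ≤ k → (k : ℝ) ≤ c₂ * d ^ 2 → k ≤ d * (n - 1) →
      sfun d k + Real.sqrt (ε * d) ≤ L →
      percProb n d 2 (Real.exp (-L)) ≤ Real.exp (d * Real.log n - ((k : ℝ) / 2 + 1) * L +
        ∑ t ∈ Finset.range k, (Bx d t + sval J γ V d (lev d t)) + (ε + ε₁) * k + C * d +
        (L - sfun d k)) := by
  classical
  have hcert : ∀ i, i < J → ∃ (R P h₀ : ℝ) (m : ℕ) (f : ℝ → ℤ → ℝ) (y : ℝ → ℝ) (ρ : ℝ),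
      UCert ((1 - 2 * ε) / (4 * γ i ^ 2)) (V i + ε₁ / 4) R P h₀ m f y ρ :=
    fun i hi => hU i hi (ε₁ / 4) (by positivity)
  choose! R P h₀ m f y ρ hc using hcert
  have hgap : ∀ i, i < J → ∃ D : ℕ, ∀ d l x : ℕ, D ≤ d → 1 ≤ l →
      (l : ℝ) ≤ γ i * Real.sqrt d → 1 ≤ x →
      min ((1 - 2 * ε) / (4 * γ i ^ 2) * (((x : ℝ) - l) * ((x : ℝ) - l - 1))) (P i) ≤
        (1 - ε) * (d / 2) * gapl l x :=
    fun i hi => gapl_low (γ i) ε (P i) (hγ0 i) hε0 hε1 (hc i hi).P_nonneg
  choose! D hD using hgap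
  obtain ⟨Rm, hRm1, hRm'⟩ := exists_bound J R
  have hRm : ∀ i, i < J → R i ≤ Rm := fun i hi => (le_abs_self _).trans (hRm' i hi)
  obtain ⟨Vb, hVb1, hVb⟩ := exists_bound J V
  have hlogR : 0 ≤ Real.log Rm := Real.log_nonneg hRm1
  obtain ⟨M, hMdef⟩ : ∃ M : ℕ, M = ∏ i ∈ Finset.range J, m i := ⟨_, rfl⟩
  have hM : 1 ≤ M := by
    have h0 : 0 < ∏ i ∈ Finset.range J, m i := Finset.prod_pos (fun i hi =>
      Nat.lt_of_lt_of_le Nat.zero_lt_one (hc i (Finset.mem_range.1 hi)).m_pos)
    rw [hMdef]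
    exact h0
  have hmM : ∀ i, i < J → m i ∣ M := by
    intro i hi
    rw [hMdef]
    exact Finset.dvd_prod_of_mem _ (Finset.mem_range.2 hi)
  obtain ⟨c₂, hc₂, C, hC, D₁, hw⟩ := wide_upper ε Rm hε0 (by linarith) hRm1
  have hA : (0 : ℝ) ≤ M * Real.log Rm := by positivity
  have hB : (0 : ℝ) ≤ Rm + Real.log Rm + Vb := by linarith
  refine ⟨c₂, hc₂, (Rm + Real.log Rm + Vb) + J * Real.log Rm + C, by positivity,
    D₁ + ∑ i ∈ Finset.range J, (D i + ⌈2 / h₀ i⌉₊) + ⌈4 * (M * Real.log Rm + C * M) / ε₁⌉₊ + 1, ?_⟩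
  intro n d k L hD₀ hdk hk hkn hL
  have hd1 : 1 ≤ d := by omega
  have hdR : (0 : ℝ) < d := by exact_mod_cast hd1
  have hsum : ∀ i, i < J → D i + ⌈2 / h₀ i⌉₊ ≤ d := by
    intro i hi
    have : D i + ⌈2 / h₀ i⌉₊ ≤ ∑ i ∈ Finset.range J, (D i + ⌈2 / h₀ i⌉₊) :=
      Finset.single_le_sum (f := fun i => D i + ⌈2 / h₀ i⌉₊) (fun i _ => Nat.zero_le _)
        (Finset.mem_range.2 hi)
    omega
  have hh : ∀ i, i < J → 2 / (d : ℝ) ≤ h₀ i := by
    intro i hi
    have h1 : ⌈2 / h₀ i⌉₊ ≤ d := by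
      have := hsum i hi
      omega
    have h2 : 2 / h₀ i ≤ d := Nat.ceil_le.1 h1
    have h3 := (hc i hi).h_pos
    rw [div_le_iff₀ h3] at h2
    rw [div_le_iff₀ hdR]
    linarith
  have huf := uf_slices (k := k) hγ hε1 hc hd1 hM hmM
    (fun i hi l x hl hlγ hx => hD i hi d l x (by have := hsum i hi; omega) hl hlγ hx) hh
    hRm1 hRm
  have hmain := hw n d k M L _ _ _ _ (by omega) hdk hk hkn hM hL huf
  refine hmain.trans (Real.exp_le_exp.2 ?_)
  -- the sum of the exponents
  have hV : Vsum d k (fun l s => if sidx J γ d l < J then y (sidx J γ d l) s else 1)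
      (fun l => if sidx J γ d l < J then ρ (sidx J γ d l) else 1)
      (fun l => if sidx J γ d (l + 1) = sidx J γ d l then 0 else Real.log Rm) ≤
      ∑ t ∈ Finset.range k, (sval J γ V d (lev d t) + ε₁ / 4) + M * Real.log Rm * (k / d) +
        (Rm + Real.log Rm + Vb) * d + d * (J * Real.log Rm) := by
    unfold Vsum
    have hch := sum_change_le J γ d (lev d k + 2) hlogR
    have hch2 := mul_le_mul_of_nonneg_left hch hdR.le
    have hmain2 := sum_levels_le (k := k) hd1
      (fun t => (if sidx J γ d (lev d t) < J then ρ (sidx J γ d (lev d t)) else 1) -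
        Real.log (if sidx J γ d (lev d t) < J then
          y (sidx J γ d (lev d t)) (((t % d : ℕ) : ℝ) / d) else 1))
      (fun t => sval J γ V d (lev d t) + ε₁ / 4) hA hB ?_ ?_
    · linarith
    · intro q
      have hl : ∀ r ∈ Finset.range d, lev d (d * q + r) = q + 1 := by
        intro r hr
        rw [Finset.mem_range] at hr
        unfold lev
        rw [Nat.mul_add_div (by omega), Nat.div_eq_of_lt hr]
      have hr : ∀ r ∈ Finset.range d, (d * q + r) % d = r := by
        intro r hr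
        rw [Finset.mem_range] at hr
        rw [Nat.mul_add_mod, Nat.mod_eq_of_lt hr]
      by_cases hi : sidx J γ d (q + 1) < J
      · have e1 : ∑ r ∈ Finset.range d, ((fun t => (if sidx J γ d (lev d t) < J then
            ρ (sidx J γ d (lev d t)) else 1) -
            Real.log (if sidx J γ d (lev d t) < J then
              y (sidx J γ d (lev d t)) (((t % d : ℕ) : ℝ) / d) else 1)) (d * q + r)) =
            ∑ r ∈ Finset.range d, (ρ (sidx J γ d (q + 1)) -
              Real.log (y (sidx J γ d (q + 1)) ((r : ℝ) / d))) := by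
          apply Finset.sum_congr rfl
          intro r hr'
          simp only [hl r hr', hr r hr', if_pos hi]
        have e2 : ∑ r ∈ Finset.range d, ((fun t => sval J γ V d (lev d t) + ε₁ / 4)
            (d * q + r)) = d * (V (sidx J γ d (q + 1)) + ε₁ / 4) := by
          rw [Finset.sum_congr rfl (g := fun _ => V (sidx J γ d (q + 1)) + ε₁ / 4)
            (fun r hr' => by simp only [hl r hr', sval, if_pos hi]), Finset.sum_const,
            Finset.card_range, nsmul_eq_mul]
        rw [e1, e2]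
        have h1 := (hc _ hi).level hd1
        have h2 : (m (sidx J γ d (q + 1)) : ℝ) * Real.log (R (sidx J γ d (q + 1))) ≤
            M * Real.log Rm := by
          have h3 := (hc _ hi).one_le_R
          apply mul_le_mul
          · exact_mod_cast Nat.le_of_dvd (by omega) (hmM _ hi)
          · exact Real.log_le_log (by linarith) (hRm _ hi)
          · exact Real.log_nonneg h3
          · positivity
        linarith
      · have e1 : ∑ r ∈ Finset.range d, ((fun t => (if sidx J γ d (lev d t) < J then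
            ρ (sidx J γ d (lev d t)) else 1) -
            Real.log (if sidx J γ d (lev d t) < J then
              y (sidx J γ d (lev d t)) (((t % d : ℕ) : ℝ) / d) else 1)) (d * q + r)) =
            d * 1 := by
          rw [Finset.sum_congr rfl (g := fun _ => 1)
            (fun r hr' => by simp only [hl r hr', if_neg hi, Real.log_one, sub_zero]),
            Finset.sum_const, Finset.card_range, nsmul_eq_mul]
        have e2 : ∑ r ∈ Finset.range d, ((fun t => sval J γ V d (lev d t) + ε₁ / 4)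
            (d * q + r)) = d * (1 + ε₁ / 4) := by
          rw [Finset.sum_congr rfl (g := fun _ => 1 + ε₁ / 4)
            (fun r hr' => by simp only [hl r hr', sval, if_neg hi]), Finset.sum_const,
            Finset.card_range, nsmul_eq_mul]
        rw [e1, e2]
        have : 0 ≤ (d : ℝ) * (ε₁ / 4) := by positivity
        linarith
    · intro t
      unfold sval
      split_ifs with hi
      · have h1 := ((hc _ hi).ρ_le).trans (hRm _ hi)
        have h2 : -Real.log Rm ≤
            Real.log (y (sidx J γ d (lev d t)) (((t % d : ℕ) : ℝ) / d)) := by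
          rw [← Real.log_inv]
          have h3 := (hc _ hi).one_le_R
          apply Real.log_le_log (by positivity)
          rw [← one_div]
          refine le_trans ?_ ((hc _ hi).y_ge _)
          exact one_div_le_one_div_of_le (by linarith) (hRm _ hi)
        have h3 := (abs_le.1 (hVb _ hi)).1
        linarith
      · rw [Real.log_one]
        linarith
  rw [Finset.sum_add_distrib] at hV ⊢
  rw [Finset.sum_const, Finset.card_range, nsmul_eq_mul] at hV
  have hk0 : (0 : ℝ) ≤ k := Nat.cast_nonneg _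
  have h1 : (M * Real.log Rm + C * M) * ((k : ℝ) / d) ≤ ε₁ / 4 * k := by
    have h2 : 4 * (M * Real.log Rm + C * M) / ε₁ ≤ d := by
      apply Nat.ceil_le.1
      omega
    rw [div_le_iff₀ hε₁] at h2
    rw [mul_div_assoc', div_le_iff₀ hdR]
    nlinarith
  nlinarith

end Pool.Agent.Lib.MP_8501c9_pr.Wide
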