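import Pool.Agent.Lib.MP_8501c9_pr.Wide.DefsN
import Pool.Agent.Lib.MP_8501c9_pr.Mid.Sums

/-!
# Task N1: sums over the levels and integrals
-/

set_option autoImplicit false
open Set

namespace Pool.Agent.Lib.MP_8501c9_pr.Wide

open Pool.Agent.Lib.MP_8501c9_pr Pool.Agent.Lib.MP_8501c9_pr.Mid

section N1

/-! ### the sum of `Bx` -/

theorem N1_lev_lower (d t : ℕ) (hd : 1 ≤ d) : ((t : ℝ) + 1) / d ≤ lev d t := by
  have hd' : (0 : ℝ) < d := by exact_mod_cast hd
  rw [div_le_iff₀ hd']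
  unfold lev
  have h1 : t % d < d := Nat.mod_lt _ (by omega)
  have h2 : d * (t / d) + t % d = t := Nat.div_add_mod t d
  have h3 : t + 1 ≤ (t / d + 1) * d := by
    rw [add_mul, one_mul, mul_comm]
    omega
  exact_mod_cast h3

theorem N1_lev_upper (d t : ℕ) (hd : 1 ≤ d) : (lev d t : ℝ) ≤ ((t : ℝ) + d) / d := by
  have hd' : (0 : ℝ) < d := by exact_mod_cast hd
  rw [le_div_iff₀ hd']
  unfold lev
  have h1 : t / d * d ≤ t := Nat.div_mul_le_self t d
  have h3 : (t / d + 1) * d ≤ t + d := by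
    rw [add_mul, one_mul]
    omega
  exact_mod_cast h3

theorem N1_log_add_one_sub (x : ℝ) (hx : 0 < x) : 1 / (x + 1) ≤ Real.log (x + 1) - Real.log x := by
  have h := Real.one_sub_inv_le_log_of_pos (x := (x + 1) / x) (by positivity)
  rw [Real.log_div (by positivity) hx.ne'] at h
  refine le_trans (le_of_eq ?_) h
  field_simp
  ring

theorem N1_log_add_one_sub_le (x : ℝ) (hx : 0 < x) :
    Real.log (x + 1) - Real.log x ≤ 1 / x := by
  have h := Real.log_le_sub_one_of_pos (x := (x + 1) / x) (by positivity)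
  rw [Real.log_div (by positivity) hx.ne'] at h
  refine h.trans (le_of_eq ?_)
  field_simp
  ring

theorem N1_sum_lower (d k : ℕ) (hd : 1 ≤ d) :
    (k : ℝ) * Real.log ((k : ℝ) / d) - k ≤ ∑ t ∈ Finset.range k, Real.log (lev d t) := by
  have hd' : (0 : ℝ) < d := by exact_mod_cast hd
  induction k with
  | zero => simp
  | succ k ih =>
    rw [Finset.sum_range_succ]
    have h1 : Real.log (((k : ℝ) + 1) / d) ≤ Real.log (lev d k) :=
      Real.log_le_log (by positivity) (N1_lev_lower d k hd)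
    have h2 : Real.log (((k : ℝ) + 1) / d) = Real.log ((k : ℝ) + 1) - Real.log d :=
      Real.log_div (by positivity) hd'.ne'
    push_cast
    rcases Nat.eq_zero_or_pos k with h0 | h0
    · subst h0
      simp only [Nat.cast_zero, zero_add] at h1 h2
      simp only [Nat.cast_zero, zero_add, one_mul, Finset.range_zero, Finset.sum_empty]
      linarith
    · have hk : (0 : ℝ) < k := by exact_mod_cast h0
      have h3 : Real.log ((k : ℝ) / d) = Real.log k - Real.log d := Real.log_div hk.ne' hd'.ne'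
      have h4 := N1_log_add_one_sub_le k hk
      have h5 : (k : ℝ) * (Real.log ((k : ℝ) + 1) - Real.log k) ≤ 1 := by
        rw [le_div_iff₀ hk] at h4
        linarith
      rw [h3] at ih
      rw [h2] at h1 ⊢
      nlinarith

theorem N1_sum_upper (d k : ℕ) (hd : 1 ≤ d) : ∑ t ∈ Finset.range k, Real.log (lev d t) ≤
    ((k : ℝ) + d) * (Real.log ((k : ℝ) + d) - Real.log d) - k := by
  have hd' : (0 : ℝ) < d := by exact_mod_cast hd
  induction k with
  | zero => simp
  | succ k ih =>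
    rw [Finset.sum_range_succ]
    have hl : (0 : ℝ) < lev d k := by
      unfold lev
      positivity
    have h1 : Real.log (lev d k) ≤ Real.log ((k : ℝ) + d) - Real.log d := by
      rw [← Real.log_div (by positivity) hd'.ne']
      exact Real.log_le_log hl (N1_lev_upper d k hd)
    have hx : (0 : ℝ) < (k : ℝ) + d := by positivity
    have h2 := N1_log_add_one_sub _ hx
    have h3 : 1 ≤ ((k : ℝ) + d + 1) * (Real.log ((k : ℝ) + d + 1) - Real.log ((k : ℝ) + d)) := by
      rw [div_le_iff₀ (by positivity)] at h2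
      linarith
    push_cast
    have e : (k : ℝ) + 1 + d = k + d + 1 := by ring
    rw [e]
    nlinarith

theorem sum_Bx : ∃ C : ℝ, 0 ≤ C ∧ ∀ d k : ℕ, 1 ≤ d → d ≤ k →
    |∑ t ∈ Finset.range k, Bx d t - ((d : ℝ) ^ 2 * (∫ u in (0 : ℝ)..((k : ℝ) / d), vfun u) / 2 +
      k * (Real.log d + (Real.log 4 - 1) / 2) -
      3 / 2 * (k * Real.log ((k : ℝ) / d) - k))| ≤ C * (d * (1 + Real.log ((k : ℝ) / d))) := by
  refine ⟨4, by norm_num, fun d k hd hk => ?_⟩
  have hd' : (0 : ℝ) < d := by exact_mod_cast hd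
  have hk' : (0 : ℝ) < k := by exact_mod_cast (by omega : 0 < k)
  have hdk : (1 : ℝ) ≤ (k : ℝ) / d := by
    rw [le_div_iff₀ hd', one_mul]
    exact_mod_cast hk
  have h1 : ∀ t ∈ Finset.range k, Bx d t = sfun d t / 2 +
      (Real.log d + (Real.log 4 - 1) / 2) - 3 / 2 * Real.log (lev d t) := by
    intro t _
    have hl : (0 : ℝ) < lev d t := by
      unfold lev
      positivity
    unfold Bx
    rw [Real.log_div (by positivity) (by positivity), Real.log_mul (by norm_num) (by positivity),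
      Real.log_mul (by positivity) (by positivity), Real.log_exp, Real.log_pow, Real.log_pow]
    push_cast
    ring
  rw [Finset.sum_congr rfl h1, Finset.sum_sub_distrib, Finset.sum_add_distrib, ← Finset.sum_div,
    sum_sfun_eq d k hd, Finset.sum_const, Finset.card_range, nsmul_eq_mul, ← Finset.mul_sum]
  obtain ⟨S, hS⟩ : ∃ S, S = ∑ t ∈ Finset.range k, Real.log (lev d t : ℝ) := ⟨_, rfl⟩
  have a1 := N1_sum_lower d k hd
  have a2 := N1_sum_upper d k hd
  rw [← hS] at a1 a2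
  have e1 : ((d : ℝ) ^ 2 * (∫ u in (0 : ℝ)..((k : ℝ) / d), vfun u) - sfun d k / 2) / 2 +
      k * (Real.log d + (Real.log 4 - 1) / 2) - 3 / 2 * S -
      ((d : ℝ) ^ 2 * (∫ u in (0 : ℝ)..((k : ℝ) / d), vfun u) / 2 +
      k * (Real.log d + (Real.log 4 - 1) / 2) - 3 / 2 * (k * Real.log ((k : ℝ) / d) - k)) =
      -(sfun d k / 4) - 3 / 2 * (S - (k * Real.log ((k : ℝ) / d) - k)) := by ring
  rw [← hS, e1]
  have hl0 : 0 ≤ Real.log ((k : ℝ) / d) := Real.log_nonneg hdk
  have hlog2 : Real.log 2 ≤ 1 := by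
    have := Real.log_le_sub_one_of_pos (x := 2) (by norm_num)
    linarith
  have hlk : Real.log (1 + (k : ℝ) / d) ≤ 1 + Real.log ((k : ℝ) / d) := by
    have h3 : Real.log (1 + (k : ℝ) / d) ≤ Real.log (2 * ((k : ℝ) / d)) :=
      Real.log_le_log (by positivity) (by linarith)
    rw [Real.log_mul (by norm_num) (by positivity)] at h3
    linarith
  have b1 : 0 ≤ sfun d k := by
    unfold sfun
    exact mul_nonneg hd'.le (vfun_nonneg (by positivity))
  have b2 : sfun d k ≤ d * (1 + Real.log ((k : ℝ) / d)) := by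
    unfold sfun
    exact mul_le_mul_of_nonneg_left ((vfun_le_log (by positivity)).trans hlk) hd'.le
  have c1 : 0 ≤ S - (k * Real.log ((k : ℝ) / d) - k) := by linarith
  have c2 : S - (k * Real.log ((k : ℝ) / d) - k) ≤ d + d * (1 + Real.log ((k : ℝ) / d)) := by
    have h4 : Real.log ((k : ℝ) / d) = Real.log k - Real.log d := Real.log_div hk'.ne' hd'.ne'
    have h5 : Real.log (1 + (k : ℝ) / d) = Real.log ((k : ℝ) + d) - Real.log d := by
      rw [← Real.log_div (by positivity) hd'.ne']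
      congr 1
      field_simp
      ring
    have h6 : (k : ℝ) * (Real.log ((k : ℝ) + d) - Real.log k) ≤ d := by
      have h7 := Real.log_le_sub_one_of_pos (x := ((k : ℝ) + d) / k) (by positivity)
      rw [Real.log_div (by positivity) hk'.ne'] at h7
      have h8 := mul_le_mul_of_nonneg_left h7 hk'.le
      have h9 : (k : ℝ) * (((k : ℝ) + d) / k - 1) = d := by
        field_simp
        ring
      linarith
    have h10 := mul_le_mul_of_nonneg_left hlk hd'.le
    rw [h5] at h10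
    have h11 : ((k : ℝ) + d) * (Real.log ((k : ℝ) + d) - Real.log d) - k -
        (k * Real.log ((k : ℝ) / d) - k) = k * (Real.log ((k : ℝ) + d) - Real.log k) +
        d * (Real.log ((k : ℝ) + d) - Real.log d) := by
      rw [h4]
      ring
    linarith
  have hdl : 0 ≤ d * Real.log ((k : ℝ) / d) := by positivity
  rw [abs_le]
  constructor
  · nlinarith
  · nlinarith

/-! ### step functions -/

theorem N1_gidx_le (J : ℕ) (γ : ℕ → ℝ) (g : ℝ) : gidx J γ g ≤ J := by
  unfold gidx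
  exact (Finset.card_filter_le _ _).trans (by rw [Finset.card_range])

theorem N1_gidx_mono (J : ℕ) (γ : ℕ → ℝ) : Monotone (gidx J γ) := by
  intro a b hab
  unfold gidx
  exact Finset.card_le_card (Finset.monotone_filter_right _ (fun i _ hi => lt_of_lt_of_le hi hab))

theorem N1_gidx_meas (J : ℕ) (γ : ℕ → ℝ) : Measurable (gidx J γ) := by
  classical
  have h : gidx J γ = fun g => ∑ i ∈ Finset.range J, if γ i < g then 1 else 0 := by
    funext g
    unfold gidx
    rw [Finset.card_filter]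
  rw [h]
  refine Finset.measurable_sum _ fun i _ => ?_
  exact Measurable.ite measurableSet_Ioi measurable_const measurable_const

/-- step function with arbitrary values -/
noncomputable def N1W (F : ℕ → ℝ) (J : ℕ) (γ : ℕ → ℝ) (g : ℝ) : ℝ := F (gidx J γ g)

theorem N1W_VU (J : ℕ) (γ V : ℕ → ℝ) : VU J γ V = N1W (fun m => if m < J then V m else 1) J γ :=
  rfl

theorem N1W_VL (J : ℕ) (γ V : ℕ → ℝ) :
    VL J γ V = N1W (fun m => if m = 0 then 0 else V (m - 1)) J γ := rfl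

theorem N1W_meas (F : ℕ → ℝ) (J : ℕ) (γ : ℕ → ℝ) : Measurable (N1W F J γ) :=
  (measurable_of_countable F).comp (N1_gidx_meas J γ)

theorem N1W_bound (F : ℕ → ℝ) (J : ℕ) (γ : ℕ → ℝ) (C : ℝ) (hC : ∀ m ≤ J, |F m| ≤ C) (g : ℝ) :
    |N1W F J γ g| ≤ C := hC _ (N1_gidx_le J γ g)

theorem N1W_int (F : ℕ → ℝ) (J : ℕ) (γ : ℕ → ℝ) (d : ℕ) (a b : ℝ) :
    IntervalIntegrable (fun u => N1W F J γ (u / Real.sqrt d)) MeasureTheory.volume a b := by
  obtain ⟨C, hC⟩ : ∃ C : ℝ, ∀ m ≤ J, |F m| ≤ C := by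
    refine ⟨∑ i ∈ Finset.range (J + 1), |F i|, fun m hm => ?_⟩
    exact Finset.single_le_sum (f := fun i => |F i|) (fun i _ => abs_nonneg _)
      (Finset.mem_range.2 (by omega))
  have hm : Measurable (fun u => N1W F J γ (u / Real.sqrt d)) :=
    (N1W_meas F J γ).comp (measurable_id.div_const _)
  refine (intervalIntegrable_const (c := C)).mono_fun hm.aestronglyMeasurable ?_
  refine Filter.Eventually.of_forall fun u => ?_
  show ‖N1W F J γ (u / Real.sqrt d)‖ ≤ ‖C‖
  rw [Real.norm_eq_abs, Real.norm_eq_abs]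
  exact (N1W_bound F J γ C hC _).trans (le_abs_self C)

theorem N1W_cell (F : ℕ → ℝ) (J : ℕ) (γ : ℕ → ℝ) (C : ℝ) (hC : ∀ m ≤ J, |F m| ≤ C)
    (d t : ℕ) (hd : 1 ≤ d) :
    |N1W F J γ ((lev d t : ℝ) / Real.sqrt d) -
      d * ∫ u in ((t : ℝ) / d)..(((t + 1 : ℕ) : ℝ) / d), N1W F J γ (u / Real.sqrt d)| ≤
      2 * C * ((gidx J γ ((((t / d : ℕ) : ℝ) + 1) / Real.sqrt d) : ℝ) -
        gidx J γ (((t / d : ℕ) : ℝ) / Real.sqrt d)) := by
  have hd' : (0 : ℝ) < d := by exact_mod_cast hd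
  have hs : 0 < Real.sqrt d := Real.sqrt_pos.2 hd'
  obtain ⟨c, hc⟩ : ∃ c, c = N1W F J γ ((lev d t : ℝ) / Real.sqrt d) := ⟨_, rfl⟩
  have hlev : (lev d t : ℝ) = ((t / d : ℕ) : ℝ) + 1 := by
    unfold lev
    push_cast
    rfl
  have h0 : ((t : ℝ) / d) ≤ (((t + 1 : ℕ) : ℝ) / d) := by
    push_cast
    gcongr
    linarith
  have hlen : (((t + 1 : ℕ) : ℝ) / d) - ((t : ℝ) / d) = 1 / d := by
    push_cast
    ring
  have h1 : c - d * ∫ u in ((t : ℝ) / d)..(((t + 1 : ℕ) : ℝ) / d), N1W F J γ (u / Real.sqrt d) =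
      d * ∫ u in ((t : ℝ) / d)..(((t + 1 : ℕ) : ℝ) / d), (c - N1W F J γ (u / Real.sqrt d)) := by
    rw [intervalIntegral.integral_sub intervalIntegrable_const (N1W_int F J γ d _ _),
      intervalIntegral.integral_const, hlen, smul_eq_mul, mul_sub]
    field_simp
  have g1 : ((t / d : ℕ) : ℝ) ≤ (t : ℝ) / d := by
    rw [le_div_iff₀ hd']
    exact_mod_cast Nat.div_mul_le_self t d
  have g2 : (((t + 1 : ℕ) : ℝ) / d) ≤ ((t / d : ℕ) : ℝ) + 1 := by
    have := N1_lev_lower d t hd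
    rw [hlev] at this
    push_cast
    exact this
  obtain ⟨G, hG⟩ : ∃ G : ℝ, G = (gidx J γ ((((t / d : ℕ) : ℝ) + 1) / Real.sqrt d) : ℝ) -
        gidx J γ (((t / d : ℕ) : ℝ) / Real.sqrt d) := ⟨_, rfl⟩
  have hC0 : 0 ≤ C := (abs_nonneg _).trans (hC 0 (Nat.zero_le _))
  have h2 : ∀ u ∈ uIoc ((t : ℝ) / d) (((t + 1 : ℕ) : ℝ) / d),
      ‖c - N1W F J γ (u / Real.sqrt d)‖ ≤ 2 * C * G := by
    intro u hu
    rw [uIoc_of_le h0] at hu
    have hu1 : ((t / d : ℕ) : ℝ) ≤ u := g1.trans hu.1.le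
    have hu2 : u ≤ ((t / d : ℕ) : ℝ) + 1 := hu.2.trans g2
    have m1 : gidx J γ (((t / d : ℕ) : ℝ) / Real.sqrt d) ≤ gidx J γ (u / Real.sqrt d) :=
      N1_gidx_mono J γ (by gcongr)
    have m2 : gidx J γ (u / Real.sqrt d) ≤
        gidx J γ ((((t / d : ℕ) : ℝ) + 1) / Real.sqrt d) :=
      N1_gidx_mono J γ (by gcongr)
    rcases Nat.lt_or_ge (gidx J γ (((t / d : ℕ) : ℝ) / Real.sqrt d))
      (gidx J γ ((((t / d : ℕ) : ℝ) + 1) / Real.sqrt d)) with h | h
    · have hG1 : 1 ≤ G := by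
        rw [hG]
        have : (gidx J γ (((t / d : ℕ) : ℝ) / Real.sqrt d) : ℝ) + 1 ≤
          gidx J γ ((((t / d : ℕ) : ℝ) + 1) / Real.sqrt d) := by exact_mod_cast h
        linarith
      rw [Real.norm_eq_abs]
      have b1 : |c| ≤ C := by
        rw [hc]
        exact N1W_bound F J γ C hC _
      have b2 := N1W_bound F J γ C hC (u / Real.sqrt d)
      calc |c - N1W F J γ (u / Real.sqrt d)| ≤ |c| + |N1W F J γ (u / Real.sqrt d)| := abs_sub _ _
        _ ≤ 2 * C := by linarith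
        _ ≤ 2 * C * G := by nlinarith
    · have e1 : gidx J γ (u / Real.sqrt d) = gidx J γ ((((t / d : ℕ) : ℝ) + 1) / Real.sqrt d) :=
        le_antisymm m2 (h.trans m1)
      have e2 : c = N1W F J γ (u / Real.sqrt d) := by
        rw [hc, hlev]
        unfold N1W
        rw [e1]
      have hG0 : 0 ≤ G := by
        rw [hG]
        have : (gidx J γ (((t / d : ℕ) : ℝ) / Real.sqrt d) : ℝ) ≤
          gidx J γ ((((t / d : ℕ) : ℝ) + 1) / Real.sqrt d) := by exact_mod_cast m1.trans m2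
        linarith
      rw [e2, sub_self, norm_zero]
      positivity
  have h3 := intervalIntegral.norm_integral_le_of_norm_le_const h2
  rw [hlen, abs_of_pos (by positivity : (0 : ℝ) < 1 / d), Real.norm_eq_abs] at h3
  rw [← hc, ← hG, h1, abs_mul, abs_of_pos hd']
  calc (d : ℝ) * |∫ u in ((t : ℝ) / d)..(((t + 1 : ℕ) : ℝ) / d),
        (c - N1W F J γ (u / Real.sqrt d))| ≤ d * (2 * C * G * (1 / d)) :=
        mul_le_mul_of_nonneg_left h3 hd'.le
    _ = 2 * C * G := by field_simp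

theorem N1W_sum (F : ℕ → ℝ) (J : ℕ) (γ : ℕ → ℝ) (C : ℝ) (hC : ∀ m ≤ J, |F m| ≤ C)
    (d k : ℕ) (hd : 1 ≤ d) :
    |∑ t ∈ Finset.range k, N1W F J γ ((lev d t : ℝ) / Real.sqrt d) -
      d * ∫ u in (0 : ℝ)..((k : ℝ) / d), N1W F J γ (u / Real.sqrt d)| ≤ 2 * C * J * d := by
  have hd' : (0 : ℝ) < d := by exact_mod_cast hd
  have hC0 : 0 ≤ C := (abs_nonneg _).trans (hC 0 (Nat.zero_le _))
  obtain ⟨g, hg⟩ : ∃ g : ℕ → ℝ, g = fun l : ℕ =>
      (gidx J γ (((l : ℝ) + 1) / Real.sqrt d) : ℝ) - gidx J γ ((l : ℝ) / Real.sqrt d) := ⟨_, rfl⟩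
  have h1 : |∑ t ∈ Finset.range k, N1W F J γ ((lev d t : ℝ) / Real.sqrt d) -
      d * ∫ u in (0 : ℝ)..((k : ℝ) / d), N1W F J γ (u / Real.sqrt d)| ≤
      2 * C * ∑ t ∈ Finset.range k, g (t / d) := by
    induction k with
    | zero => simp
    | succ k ih =>
      rw [Finset.sum_range_succ, Finset.sum_range_succ,
        ← intervalIntegral.integral_add_adjacent_intervals (N1W_int F J γ d 0 ((k : ℝ) / d))
          (N1W_int F J γ d ((k : ℝ) / d) (((k + 1 : ℕ) : ℝ) / d))]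
      have h2 := N1W_cell F J γ C hC d k hd
      have h3 : g (k / d) = (gidx J γ ((((k / d : ℕ) : ℝ) + 1) / Real.sqrt d) : ℝ) -
        gidx J γ (((k / d : ℕ) : ℝ) / Real.sqrt d) := by rw [hg]
      rw [← h3] at h2
      rw [abs_le] at ih h2 ⊢
      constructor
      · nlinarith [ih.1, h2.1]
      · nlinarith [ih.2, h2.2]
  have h4 : ∀ l, 0 ≤ g l := by
    intro l
    rw [hg]
    have : (gidx J γ ((l : ℝ) / Real.sqrt d) : ℝ) ≤ gidx J γ (((l : ℝ) + 1) / Real.sqrt d) := by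
      exact_mod_cast N1_gidx_mono J γ (by gcongr; linarith)
    simpa using this
  have h5 : ∀ q : ℕ, ∑ l ∈ Finset.range q, g l ≤ J := by
    intro q
    have e : ∑ l ∈ Finset.range q, g l = (gidx J γ ((q : ℝ) / Real.sqrt d) : ℝ) -
        gidx J γ ((0 : ℝ) / Real.sqrt d) := by
      have := Finset.sum_range_sub (fun l : ℕ => (gidx J γ ((l : ℝ) / Real.sqrt d) : ℝ)) q
      push_cast at this
      rw [← this, hg]
    rw [e]
    have a1 : (gidx J γ ((q : ℝ) / Real.sqrt d) : ℝ) ≤ J := by exact_mod_cast N1_gidx_le J γ _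
    have a2 : (0 : ℝ) ≤ gidx J γ ((0 : ℝ) / Real.sqrt d) := Nat.cast_nonneg _
    linarith
  have h6 : ∑ t ∈ Finset.range k, g (t / d) ≤ d * J := by
    rw [R_sum_lev g d k hd]
    have h7 := h5 (k / d + 1)
    rw [Finset.sum_range_succ] at h7
    have h8 : ((k % d : ℕ) : ℝ) ≤ d := by exact_mod_cast (Nat.mod_lt k (by omega)).le
    have h9 := mul_le_mul_of_nonneg_right h8 (h4 (k / d))
    have h10 := mul_le_mul_of_nonneg_left h7 hd'.le
    rw [mul_add] at h10
    linarith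
  refine h1.trans ?_
  have := mul_le_mul_of_nonneg_left h6 (by positivity : 0 ≤ 2 * C)
  linarith

theorem N1_sidx (J : ℕ) (γ : ℕ → ℝ) (d l : ℕ) (hd : 1 ≤ d) :
    sidx J γ d l = gidx J γ ((l : ℝ) / Real.sqrt d) := by
  have hs : 0 < Real.sqrt d := Real.sqrt_pos.2 (by exact_mod_cast hd)
  unfold sidx gidx
  congr 1
  ext i
  simp only [Finset.mem_filter]
  rw [lt_div_iff₀ hs]

theorem VU_bound (J : ℕ) (γ V : ℕ → ℝ) : ∃ C : ℝ, 0 ≤ C ∧ ∀ g, |VU J γ V g| ≤ C ∧
    |VL J γ V g| ≤ C := by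
  have h0 : 0 ≤ ∑ i ∈ Finset.range J, |V i| := Finset.sum_nonneg fun i _ => abs_nonneg _
  have h1 : ∀ m < J, |V m| ≤ ∑ i ∈ Finset.range J, |V i| := fun m hm =>
    Finset.single_le_sum (f := fun i => |V i|) (fun i _ => abs_nonneg _) (Finset.mem_range.2 hm)
  refine ⟨1 + ∑ i ∈ Finset.range J, |V i|, by positivity, fun g => ⟨?_, ?_⟩⟩
  · unfold VU
    split_ifs with h
    · linarith [h1 _ h]
    · rw [abs_one]
      linarith
  · unfold VL
    split_ifs with h
    · rw [abs_zero]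
      positivity
    · have h2 := N1_gidx_le J γ g
      linarith [h1 (gidx J γ g - 1) (by omega)]

theorem VU_int (J : ℕ) (γ V : ℕ → ℝ) (d : ℕ) (a b : ℝ) :
    IntervalIntegrable (fun u => VU J γ V (u / Real.sqrt d)) MeasureTheory.volume a b ∧
      IntervalIntegrable (fun u => VL J γ V (u / Real.sqrt d)) MeasureTheory.volume a b :=
  ⟨N1W_int (fun m => if m < J then V m else 1) J γ d a b,
    N1W_int (fun m => if m = 0 then 0 else V (m - 1)) J γ d a b⟩

theorem sum_sval (J : ℕ) (γ V : ℕ → ℝ) : ∃ C : ℝ, 0 ≤ C ∧ ∀ d k : ℕ, 1 ≤ d →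
    |∑ t ∈ Finset.range k, sval J γ V d (lev d t) -
      d * ∫ u in (0 : ℝ)..((k : ℝ) / d), VU J γ V (u / Real.sqrt d)| ≤ C * d ∧
    |∑ t ∈ Finset.range k, svalL J γ V d (lev d t) -
      d * ∫ u in (0 : ℝ)..((k : ℝ) / d), VL J γ V (u / Real.sqrt d)| ≤ C * d := by
  have h0 : 0 ≤ ∑ i ∈ Finset.range J, |V i| := Finset.sum_nonneg fun i _ => abs_nonneg _
  have h1 : ∀ m < J, |V m| ≤ ∑ i ∈ Finset.range J, |V i| := fun m hm =>
    Finset.single_le_sum (f := fun i => |V i|) (fun i _ => abs_nonneg _) (Finset.mem_range.2 hm)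
  obtain ⟨C, hCe⟩ : ∃ C : ℝ, C = 1 + ∑ i ∈ Finset.range J, |V i| := ⟨_, rfl⟩
  have hC : 0 ≤ C := by rw [hCe]; positivity
  refine ⟨2 * C * J, by positivity, fun d k hd => ⟨?_, ?_⟩⟩
  · have e : ∀ t ∈ Finset.range k, sval J γ V d (lev d t) =
        N1W (fun m => if m < J then V m else 1) J γ ((lev d t : ℝ) / Real.sqrt d) := by
      intro t _
      unfold sval N1W
      rw [N1_sidx J γ d _ hd]
    rw [Finset.sum_congr rfl e]
    refine N1W_sum (fun m => if m < J then V m else 1) J γ C ?_ d k hd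
    intro m _
    show |if m < J then V m else 1| ≤ C
    split_ifs with h
    · linarith [h1 _ h]
    · rw [abs_one]
      linarith
  · have e : ∀ t ∈ Finset.range k, svalL J γ V d (lev d t) =
        N1W (fun m => if m = 0 then 0 else V (m - 1)) J γ ((lev d t : ℝ) / Real.sqrt d) := by
      intro t _
      unfold svalL N1W
      rw [N1_sidx J γ d _ hd]
    rw [Finset.sum_congr rfl e]
    refine N1W_sum (fun m => if m = 0 then 0 else V (m - 1)) J γ C ?_ d k hd
    intro m hm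
    show |if m = 0 then 0 else V (m - 1)| ≤ C
    split_ifs with h
    · rw [abs_zero]
      exact hC
    · linarith [h1 (m - 1) (by omega)]

end N1

end Pool.Agent.Lib.MP_8501c9_pr.Wide
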