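import Pool.Agent.Lib.MP_8501c9_pr.Wide.DefsN
import Pool.Agent.Lib.MP_8501c9_pr.Wide.CertBD
import Pool.Agent.Lib.MP_8501c9_pr.Wide.Slices
import Pool.Agent.Lib.MP_8501c9_pr.Wide.SumBx
import Pool.Agent.Lib.MP_8501c9_pr.Wide.AoptW
import Pool.Agent.Lib.MP_8501c9_pr.Mid.Final

/-!
# Lower bound for the critical probability, sizes between `d` and `d ^ 2`
-/

set_option autoImplicit false
open Set

namespace Pool.Agent.Lib.MP_8501c9_pr.Wide

open Pool.Agent.Lib.MP_8501c9_pr Pool.Agent.Lib.MP_8501c9_pr.Mid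

section PcLower

/-- the average over a slightly shorter interval -/
private theorem pcl_avg {W : ℝ → ℝ} {Cw a κ : ℝ} (hW : ∀ g, |W g| ≤ Cw) (hκ : 0 < κ) (hκa : κ ≤ a)
    (d : ℕ)
    (hi : ∀ x y : ℝ, IntervalIntegrable (fun u => W (u / Real.sqrt d)) MeasureTheory.volume x y) :
    (∫ u in (0 : ℝ)..κ, W (u / Real.sqrt d)) - κ * avW W a d ≤ 2 * Cw * (a - κ) ∧
      |avW W a d| ≤ Cw := by
  have ha : 0 < a := lt_of_lt_of_le hκ hκa
  have hb : ∀ x y : ℝ, x ≤ y → |∫ u in x..y, W (u / Real.sqrt d)| ≤ Cw * (y - x) := by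
    intro x y hxy
    have h := intervalIntegral.norm_integral_le_of_norm_le_const (a := x) (b := y) (C := Cw)
      (f := fun u => W (u / Real.sqrt d)) (fun u _ => by
        rw [Real.norm_eq_abs]; exact hW _)
    rwa [Real.norm_eq_abs, abs_of_nonneg (sub_nonneg.2 hxy)] at h
  have h1 := hb 0 κ hκ.le
  have h2 := hb κ a hκa
  have h3 := hb 0 a ha.le
  have h4 := intervalIntegral.integral_add_adjacent_intervals (hi 0 κ) (hi κ a)
  have hav : avW W a d * a = ∫ u in (0 : ℝ)..a, W (u / Real.sqrt d) := by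
    unfold avW
    field_simp
  rw [← h4] at hav
  generalize (∫ u in (0 : ℝ)..κ, W (u / Real.sqrt d)) = I1 at *
  generalize (∫ u in κ..a, W (u / Real.sqrt d)) = I2 at *
  generalize avW W a d = m at *
  rw [← h4] at h3
  rw [sub_zero] at h1 h3
  have hm : |m| ≤ Cw := by
    have e : m = (I1 + I2) / a := by rw [← hav]; field_simp
    rw [e, abs_div, abs_of_pos ha, div_le_iff₀ ha]
    exact h3
  refine ⟨?_, hm⟩
  have hC : 0 ≤ Cw := (abs_nonneg _).trans (hW 0)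
  rw [abs_le] at h1 h2 hm
  have e1 : a * (I1 - κ * m) = (a - κ) * I1 - κ * I2 := by
    have : m * a = I1 + I2 := hav
    linear_combination (-κ) * this
  have e2 : (a - κ) * I1 ≤ (a - κ) * (Cw * κ) :=
    mul_le_mul_of_nonneg_left h1.2 (sub_nonneg.2 hκa)
  have e3 : κ * (-(Cw * (a - κ))) ≤ κ * I2 := mul_le_mul_of_nonneg_left h2.1 hκ.le
  have e4 : a * (I1 - κ * m) ≤ a * (2 * Cw * (a - κ)) := by
    rw [e1]
    have e5 : Cw * (a - κ) * κ ≤ Cw * (a - κ) * a :=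
      mul_le_mul_of_nonneg_left hκa (mul_nonneg hC (sub_nonneg.2 hκa))
    nlinarith
  exact le_of_mul_le_mul_left e4 ha

/-- the algebra behind the lower bound -/
private theorem pcl_alg {d k a κ b ℓ I S m IW ld la lκ l4 L L0 sB sS e C₁ C₂ C₃ Cw ε τ : ℝ}
    (hd : 16 ≤ d) (hk : k = κ * d) (hκ1 : 1 ≤ κ) (hκa : κ ≤ a) (hε : 0 < ε)
    (he : 0 < e) (he' : e ≤ ε / 400) (hτ0 : 0 ≤ τ) (hτ1 : τ ≤ 1 / 10)
    (hτ2 : τ * (2 + 3 * Cw) ≤ ε / 50) (hCw : 0 ≤ Cw)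
    (hd2 : 100 ≤ ε * d) (hgap : a - κ ≤ a * τ) (hτ3 : d * τ ^ 2 ≤ 32 * e + 2 / d)
    (hL : L0 ≤ L) (hL0 : L0 = d * ℓ + 2 * ld - 3 * la + 2 + l4 + 2 * m + ε)
    (hB : sB ≤ d ^ 2 * I / 2 + k * (ld + (l4 - 1) / 2) - 3 / 2 * (k * lκ - k) +
      C₁ * (d * (1 + lκ)))
    (hs : sS ≤ d * IW + C₂ * d)
    (hq : (2 * b + I) - κ * ℓ ≤ (a - κ) ^ 2 / κ)
    (hW : IW - κ * m ≤ 2 * Cw * (a - κ))
    (hlog : la - lκ ≤ (a - κ) / κ)
    (hC : C₁ * (1 + lκ) + C₂ + C₃ ≤ ε / 50 * κ) (hS : 0 ≤ S) :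
    d * (b * d) - (k / 2 + 1) * L + (sB + sS) + (e + e) * k + C₃ * d + (L - S) ≤ -(ε / 4) * k := by
  have hd0 : 0 < d := by linarith
  have hκ0 : 0 < κ := by linarith
  have ha0 : 0 < a := by linarith
  have hk0 : 0 < k := by rw [hk]; positivity
  have haτ : a * τ ≤ a * (1 / 10) := mul_le_mul_of_nonneg_left hτ1 ha0.le
  have hκlow : a * (9 / 10) ≤ κ := by linarith
  have e7 : a * d ≤ (10 / 9) * k := by
    have := mul_le_mul_of_nonneg_right hκlow hd0.le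
    rw [hk]
    linarith
  -- monotone in L
  have h1 : -(k / 2 + 1) * L + L ≤ -(k / 2) * L0 := by
    have := mul_le_mul_of_nonneg_left hL (show 0 ≤ k / 2 by positivity)
    linarith
  -- quadratic term
  have h2 : d ^ 2 / 2 * ((a - κ) ^ 2 / κ) ≤ (ε / 20 + ε / 50) * k := by
    have g0 : 0 ≤ a - κ := sub_nonneg.2 hκa
    have e1 : (a - κ) ^ 2 ≤ (a * τ) ^ 2 := pow_le_pow_left₀ g0 hgap 2
    have e2 : (a - κ) ^ 2 / κ ≤ (a * τ) ^ 2 / (a * (9 / 10)) := by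
      gcongr
    have e3 : (a * τ) ^ 2 / (a * (9 / 10)) = a * τ ^ 2 * (10 / 9) := by
      field_simp
    have e4 : d ^ 2 / 2 * ((a - κ) ^ 2 / κ) ≤ d ^ 2 / 2 * (a * τ ^ 2 * (10 / 9)) := by
      rw [← e3]
      exact mul_le_mul_of_nonneg_left e2 (by positivity)
    have e5 : d ^ 2 / 2 * (a * τ ^ 2 * (10 / 9)) = (5 / 9) * (a * d) * (d * τ ^ 2) := by ring
    have e6 : (5 / 9) * (a * d) * (d * τ ^ 2) ≤ (5 / 9) * (a * d) * (32 * e + 2 / d) :=
      mul_le_mul_of_nonneg_left hτ3 (by positivity)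
    have e8 : 2 / d ≤ ε / 50 := by
      rw [div_le_div_iff₀ hd0 (by norm_num)]
      linarith
    have e9 : 0 ≤ 32 * e + 2 / d := by positivity
    have e10 : (5 / 9) * (a * d) * (32 * e + 2 / d) ≤ (5 / 9) * ((10 / 9) * k) * (32 * e + 2 / d) := by
      gcongr
    have e11 : (5 / 9) * ((10 / 9) * k) * (32 * e + 2 / d) ≤
        (5 / 9) * ((10 / 9) * k) * (32 * (ε / 400) + ε / 50) := by
      gcongr
    have e12 : (5 / 9) * ((10 / 9) * k) * (32 * (ε / 400) + ε / 50) ≤ (ε / 20 + ε / 50) * k := by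
      have : 0 < ε * k := by positivity
      linarith
    linarith
  -- the logarithm
  have h3 : 3 / 2 * k * (la - lκ) ≤ 2 * τ * k := by
    have e1 : (a - κ) / κ ≤ (a * τ) / (a * (9 / 10)) := by
      gcongr
    have e2 : (a * τ) / (a * (9 / 10)) = τ * (10 / 9) := by
      field_simp
    have e3 : la - lκ ≤ τ * (10 / 9) := by linarith
    have e4 : 3 / 2 * k * (la - lκ) ≤ 3 / 2 * k * (τ * (10 / 9)) :=
      mul_le_mul_of_nonneg_left e3 (by positivity)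
    have e5 : 0 ≤ τ * k := by positivity
    linarith
  -- the averages
  have h4 : d * (IW - κ * m) ≤ 3 * Cw * τ * k := by
    have e1 : d * (IW - κ * m) ≤ d * (2 * Cw * (a * τ)) := by
      refine mul_le_mul_of_nonneg_left (hW.trans ?_) hd0.le
      exact mul_le_mul_of_nonneg_left hgap (by positivity)
    have e2 : d * (2 * Cw * (a * τ)) = 2 * Cw * τ * (a * d) := by ring
    have e3 : 2 * Cw * τ * (a * d) ≤ 2 * Cw * τ * ((10 / 9) * k) :=
      mul_le_mul_of_nonneg_left e7 (by positivity)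
    have e5 : 0 ≤ Cw * τ * k := by positivity
    linarith
  have h5 : (τ * (2 + 3 * Cw)) * k ≤ ε / 50 * k := mul_le_mul_of_nonneg_right hτ2 hk0.le
  have h6 : d * (C₁ * (1 + lκ) + C₂ + C₃) ≤ ε / 50 * k := by
    have := mul_le_mul_of_nonneg_left hC hd0.le
    rw [hk]
    linarith
  have h7 : (e + e) * k ≤ (ε / 400 + ε / 400) * k := by gcongr
  have h8 : d ^ 2 / 2 * ((2 * b + I) - κ * ℓ) ≤ d ^ 2 / 2 * ((a - κ) ^ 2 / κ) :=
    mul_le_mul_of_nonneg_left hq (by positivity)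
  -- the identity
  have h9 : d * (b * d) - (k / 2) * L0 + (d ^ 2 * I / 2 + k * (ld + (l4 - 1) / 2) -
      3 / 2 * (k * lκ - k) + C₁ * (d * (1 + lκ)) + (d * IW + C₂ * d)) + C₃ * d =
      d ^ 2 / 2 * ((2 * b + I) - κ * ℓ) + 3 / 2 * k * (la - lκ) + d * (IW - κ * m) +
        d * (C₁ * (1 + lκ) + C₂ + C₃) - ε / 2 * k := by
    rw [hL0, hk]
    ring
  have h10 : 0 < ε * k := by positivity
  linarith

/-- square of a sum -/
private theorem pcl_sq (x y : ℝ) : (x + y) ^ 2 ≤ 2 * (x ^ 2 + y ^ 2) := by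
  nlinarith [sq_nonneg (x - y)]

/-- for nonpositive arguments the minimiser is small -/
private theorem pcl_aopt_nonpos {b : ℝ} (hb : b ≤ 0) : aopt b ≤ 1 := by
  unfold aopt
  refine csInf_le ⟨0, fun x hx => hx.1.le⟩ ⟨one_pos, ?_⟩
  have := vtheta_nonneg (u := 1) zero_le_one
  unfold vtheta at this
  linarith

private theorem pcl_const {K ε κ C₁ C₂ C₃ : ℝ} (hε : 0 < ε) (h1 : 0 ≤ C₁) (h2 : 0 ≤ C₂)
    (h3 : 0 ≤ C₃) (hK : K = C₁ + C₂ + C₃) (hκ : 1 ≤ κ) (h : (100 * K / ε) ^ 2 ≤ κ) :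
    C₁ * (1 + Real.log κ) + C₂ + C₃ ≤ ε / 50 * κ := by
  have hκ0 : 0 < κ := by linarith
  obtain ⟨r, hr, hr2⟩ : ∃ r, 1 ≤ r ∧ κ = r ^ 2 :=
    ⟨Real.sqrt κ, by rw [Real.one_le_sqrt]; exact hκ, (Real.sq_sqrt hκ0.le).symm⟩
  have hlog : Real.log κ ≤ 2 * r - 2 := by
    rw [hr2, Real.log_pow]
    have := Real.log_le_sub_one_of_pos (show 0 < r by linarith)
    push_cast
    linarith
  have hK0 : 0 ≤ K := by rw [hK]; positivity
  have h4 : 100 * K / ε ≤ r := by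
    rw [hr2] at h
    exact le_of_sq_le_sq h (by linarith)
  have h5 : 100 * K ≤ r * ε := by rwa [div_le_iff₀ hε] at h4
  have h6 : C₁ * (1 + Real.log κ) ≤ C₁ * (2 * r) :=
    mul_le_mul_of_nonneg_left (by linarith) h1
  have h7 : C₂ ≤ C₂ * (2 * r) := le_mul_of_one_le_right h2 (by linarith)
  have h8 : C₃ ≤ C₃ * (2 * r) := le_mul_of_one_le_right h3 (by linarith)
  have h9 : K * (2 * r) ≤ ε / 50 * κ := by
    rw [hr2]
    nlinarith
  rw [hK] at h9
  linarith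

private theorem pcl_large (e ε Cw : ℝ) (he : 0 < e) (hε : 0 < ε) (hCw : 0 ≤ Cw) :
    ∃ D : ℕ, ∀ d : ℕ, D ≤ d → (16 : ℝ) ≤ d ∧ 100 ≤ ε * d ∧
      4 * Real.sqrt (e / d) + 1 / d ≤ 1 / 10 ∧
      (4 * Real.sqrt (e / d) + 1 / d) * (2 + 3 * Cw) ≤ ε / 50 ∧
      Real.log d + 2 * Cw ≤ Real.sqrt (e * d) := by
  have hcast : Filter.Tendsto (fun d : ℕ => (d : ℝ)) Filter.atTop Filter.atTop :=
    tendsto_natCast_atTop_atTop
  have t0 : Filter.Tendsto (fun d : ℕ => 4 * Real.sqrt (e / d) + 1 / d) Filter.atTop (nhds 0) := by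
    have h1 : Filter.Tendsto (fun d : ℕ => e / (d : ℝ)) Filter.atTop (nhds 0) :=
      tendsto_const_div_atTop_nhds_zero_nat e
    have h2 := (Real.continuous_sqrt.tendsto 0).comp h1
    rw [Real.sqrt_zero] at h2
    have h3 := (h2.const_mul 4).add (tendsto_const_div_atTop_nhds_zero_nat (1 : ℝ))
    rw [mul_zero, add_zero] at h3
    exact h3
  have e1 := hcast.eventually_ge_atTop 16
  have e2 := hcast.eventually_ge_atTop (100 / ε)
  have e3 := t0.eventually_le_const (show (0 : ℝ) < 1 / 10 by norm_num)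
  have e4 := t0.eventually_le_const (show (0 : ℝ) < ε / 50 / (2 + 3 * Cw) by positivity)
  have hse : 0 < Real.sqrt e := Real.sqrt_pos.2 he
  have e5 : ∀ᶠ d : ℕ in Filter.atTop, Real.log d ≤ Real.sqrt e / 2 * Real.sqrt d := by
    have h1 := (isLittleO_log_rpow_atTop (show (0 : ℝ) < 1 / 2 by norm_num)).def
      (show 0 < Real.sqrt e / 2 by positivity)
    filter_upwards [hcast.eventually h1, e1] with d h hd
    rw [Real.norm_eq_abs, Real.norm_eq_abs] at h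
    rw [Real.sqrt_eq_rpow (d : ℝ)]
    refine (le_abs_self _).trans (h.trans_eq ?_)
    rw [abs_of_nonneg (Real.rpow_nonneg (Nat.cast_nonneg d) _)]
  have e6 : ∀ᶠ d : ℕ in Filter.atTop, 2 * Cw ≤ Real.sqrt e / 2 * Real.sqrt d := by
    have h1 : Filter.Tendsto (fun d : ℕ => Real.sqrt e / 2 * Real.sqrt d) Filter.atTop
        Filter.atTop :=
      (Real.tendsto_sqrt_atTop.comp hcast).const_mul_atTop (by positivity)
    exact h1.eventually_ge_atTop _
  obtain ⟨D, hD⟩ := Filter.eventually_atTop.1 (e1.and (e2.and (e3.and (e4.and (e5.and e6)))))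
  refine ⟨D, fun d hd => ?_⟩
  obtain ⟨h1, h2, h3, h4, h5, h6⟩ := hD d hd
  refine ⟨h1, ?_, h3, ?_, ?_⟩
  · rw [div_le_iff₀ hε] at h2
    linarith
  · rwa [le_div_iff₀ (by positivity)] at h4
  · rw [Real.sqrt_mul he.le]
    linarith

theorem pc_wide_lower (J : ℕ) (γ V : ℕ → ℝ) (hγ0 : ∀ i, 0 < γ i) (hγ : StrictMono γ)
    (δ ε : ℝ) (hδ0 : 0 < δ) (hδ1 : δ ≤ 1 / 4) (hε : 0 < ε)
    (hU : ∀ i < J, UAch ((1 - 2 * δ) / (4 * γ i ^ 2)) (V i)) :
    ∃ A c : ℝ, 0 < A ∧ 0 < c ∧ ∃ D₀ : ℕ, ∀ n d : ℕ, D₀ ≤ d → A ≤ aopt (Real.log n / d) →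
      aopt (Real.log n / d) ≤ c * d →
      Real.exp (-(Lw (VU J γ V) n d + ε)) ≤ pc n d 2 := by
  obtain ⟨Cw, hCw0, hCw⟩ := VU_bound J γ V
  obtain ⟨C₁, hC₁, hB⟩ := sum_Bx
  obtain ⟨C₂, hC₂, hS⟩ := sum_sval J γ V
  obtain ⟨e, hedef⟩ : ∃ e, e = min δ (ε / 400) := ⟨_, rfl⟩
  have he0 : 0 < e := by rw [hedef]; exact lt_min hδ0 (by positivity)
  have heδ : e ≤ δ := by rw [hedef]; exact min_le_left _ _
  have heε : e ≤ ε / 400 := by rw [hedef]; exact min_le_right _ _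
  obtain ⟨c₂, hc₂, C₃, hC₃, D₃, hP⟩ := wide_upper_slices J γ V hγ0 hγ e e he0 (heδ.trans hδ1) he0
    (fun i hi => (hU i hi).mono (by
      have := hγ0 i
      gcongr) le_rfl)
  obtain ⟨K, hK⟩ : ∃ K, K = C₁ + C₂ + C₃ := ⟨_, rfl⟩
  obtain ⟨D₁, hD₁⟩ := pcl_large e ε Cw he0 hε hCw0
  refine ⟨4 + 2 * (150 * K / ε) ^ 2, min c₂ 1, by positivity, lt_min hc₂ one_pos,
    max D₃ D₁, ?_⟩
  intro n d hd hA hc
  obtain ⟨hd16, hd100, hτ1, hτ2, hlogd⟩ := hD₁ d ((le_max_right _ _).trans hd)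
  have hd3 : D₃ ≤ d := (le_max_left _ _).trans hd
  have hd0 : (0 : ℝ) < d := by linarith
  obtain ⟨b, hb⟩ : ∃ b, b = Real.log n / d := ⟨_, rfl⟩
  have hlogn : Real.log n = b * d := by rw [hb]; field_simp
  rw [← hb] at hA hc
  have hKsq : 0 ≤ (150 * K / ε) ^ 2 := sq_nonneg _
  have hb0 : 0 < b := by
    by_contra hcon
    have := pcl_aopt_nonpos (not_lt.1 hcon)
    linarith
  obtain ⟨ha0, hell, hth, h2b, h4b⟩ := aopt_spec hb0
  have hquad := fun (α : ℝ) (hα : 0 < α) => aopt_quad_min (b := b) hb0 hα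
  have hLw : Lw (VU J γ V) n d = d * ell b + 2 * Real.log d - 3 * Real.log (aopt b) + 2 +
      Real.log 4 + 2 * avW (VU J γ V) (aopt b) d := by
    unfold Lw
    rw [← hb]
  obtain ⟨a, ha⟩ : ∃ a, a = aopt b := ⟨_, rfl⟩
  rw [← ha] at hA hc ha0 hell hth h2b h4b hLw
  simp only [← ha] at hquad
  have ha4 : 4 ≤ a := by linarith
  have had : a ≤ d := hc.trans (by
    have := mul_le_mul_of_nonneg_right (min_le_right c₂ 1) hd0.le
    linarith)
  have hac : a ≤ c₂ * d := hc.trans (mul_le_mul_of_nonneg_right (min_le_left c₂ 1) hd0.le)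
  obtain ⟨s, hs⟩ : ∃ s, s = Real.sqrt (e / d) := ⟨_, rfl⟩
  have hs0 : 0 ≤ s := by rw [hs]; exact Real.sqrt_nonneg _
  have hs2 : s ^ 2 = e / d := by rw [hs]; exact Real.sq_sqrt (by positivity)
  have hsd : Real.sqrt (e * d) = d * s := by
    have h1 : e * d = (d : ℝ) ^ 2 * (e / d) := by field_simp
    rw [h1, Real.sqrt_mul (sq_nonneg _), Real.sqrt_sq hd0.le, hs]
  rw [← hs] at hτ1 hτ2
  obtain ⟨τ, hτ⟩ : ∃ τ, τ = 4 * s + 1 / (d : ℝ) := ⟨_, rfl⟩
  rw [← hτ] at hτ1 hτ2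
  have h1d : 0 < 1 / (d : ℝ) := by positivity
  have hτ0 : 0 ≤ τ := by rw [hτ]; positivity
  have hs1 : 4 * s ≤ 1 / 10 := by linarith
  obtain ⟨α, hα⟩ : ∃ α, α = a * (1 - 4 * s) := ⟨_, rfl⟩
  have hα0 : 0 < α := by rw [hα]; exact mul_pos ha0 (by linarith)
  obtain ⟨k, hk⟩ : ∃ k, k = ⌊α * d⌋₊ := ⟨_, rfl⟩
  have hk1 : (k : ℝ) ≤ α * d := by rw [hk]; exact Nat.floor_le (by positivity)
  have hk2 : α * d < k + 1 := by rw [hk]; exact Nat.lt_floor_add_one _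
  obtain ⟨κ, hκ⟩ : ∃ κ, κ = (k : ℝ) / d := ⟨_, rfl⟩
  have hkκ : (k : ℝ) = κ * d := by rw [hκ]; field_simp
  have hκα : κ ≤ α := by rw [hκ, div_le_iff₀ hd0]; exact hk1
  have hακ : α ≤ κ + 1 / d := by
    have h1 : κ + 1 / d = ((k : ℝ) + 1) / d := by rw [hκ]; ring
    rw [h1, le_div_iff₀ hd0]; exact hk2.le
  have hαa : α ≤ a := by rw [hα]; exact mul_le_of_le_one_right ha0.le (by linarith)
  have hκa : κ ≤ a := hκα.trans hαa
  have hgap : a - κ ≤ a * τ := by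
    have h1 : a * τ = 4 * a * s + a * (1 / d) := by rw [hτ]; ring
    have h2 : 1 / (d : ℝ) ≤ a * (1 / d) := le_mul_of_one_le_left h1d.le (by linarith)
    have h3 : α = a - 4 * a * s := by rw [hα]; ring
    linarith
  have hgap2 : 4 * a * s ≤ a - κ := by
    have h3 : α = a - 4 * a * s := by rw [hα]; ring
    linarith
  have haτ : a * τ ≤ a * (1 / 10) := mul_le_mul_of_nonneg_left hτ1 ha0.le
  have hκlow : a * (9 / 10) ≤ κ := by linarith
  have hκ1 : 1 ≤ κ := by linarith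
  have hκ0 : 0 < κ := by linarith
  have hτ3 : d * τ ^ 2 ≤ 32 * e + 2 / d := by
    have h1 : τ ^ 2 ≤ 2 * (16 * s ^ 2 + (1 / (d : ℝ)) ^ 2) := by
      rw [hτ, show 16 * s ^ 2 = (4 * s) ^ 2 by ring]
      exact pcl_sq _ _
    have h2 : (d : ℝ) * (2 * (16 * s ^ 2 + (1 / (d : ℝ)) ^ 2)) = 32 * e + 2 / d := by
      rw [hs2]
      field_simp
      ring
    rw [← h2]
    exact mul_le_mul_of_nonneg_left h1 hd0.le
  -- the conditions on `k`
  have hdk : d ≤ k := by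
    have : (d : ℝ) ≤ k := by rw [hkκ]; exact le_mul_of_one_le_left hd0.le hκ1
    exact_mod_cast this
  have hkc : (k : ℝ) ≤ c₂ * d ^ 2 := by
    have h1 : (k : ℝ) ≤ a * d := hk1.trans (mul_le_mul_of_nonneg_right hαa hd0.le)
    have h2 : a * d ≤ c₂ * d * d := mul_le_mul_of_nonneg_right hac hd0.le
    have h3 : c₂ * d * d = c₂ * (d : ℝ) ^ 2 := by ring
    linarith
  have hn0 : n ≠ 0 := by
    rintro rfl
    rw [Nat.cast_zero, Real.log_zero] at hlogn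
    have : 0 < b * d := by positivity
    linarith
  have hnpos : (0 : ℝ) < n := by exact_mod_cast Nat.pos_of_ne_zero hn0
  have hkn : k ≤ d * (n - 1) := by
    have h1 : Real.log n + 1 ≤ n := by
      have := Real.log_le_sub_one_of_pos hnpos
      linarith
    have h2 : κ ≤ (n : ℝ) - 1 := by
      have h3 : b * 16 ≤ b * d := mul_le_mul_of_nonneg_left hd16 hb0.le
      linarith
    have h4 : (k : ℝ) ≤ d * ((n : ℝ) - 1) := by
      rw [hkκ, mul_comm]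
      exact mul_le_mul_of_nonneg_left h2 hd0.le
    have h5 : ((n - 1 : ℕ) : ℝ) = (n : ℝ) - 1 := by
      rw [Nat.cast_sub (Nat.one_le_iff_ne_zero.2 hn0), Nat.cast_one]
    rw [← h5] at h4
    exact_mod_cast h4
  -- averages
  obtain ⟨hW1, hW2⟩ := pcl_avg (W := VU J γ V) (fun g => (hCw g).1) hκ0 hκa d
    (fun x y => (VU_int J γ V d x y).1)
  rw [abs_le] at hW2
  -- the volume
  have hSd : sfun d k = d * vfun κ := by rw [hκ]; rfl
  have hS0 : 0 ≤ sfun d k := by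
    rw [hSd]
    exact mul_nonneg hd0.le (vfun_nonneg hκ0.le)
  have hSL : sfun d k + Real.sqrt (e * d) ≤ Lw (VU J γ V) n d + ε := by
    have h1 := le_vfun_sub hκ0.le hκa
    have h2 : 2 * s ≤ (a - κ) / (a + 2) := by
      rw [le_div_iff₀ (by linarith)]
      have h7 : 4 * s ≤ a * s := mul_le_mul_of_nonneg_right ha4 hs0
      have h8 : 2 * s * (a + 2) = 2 * (a * s) + 4 * s := by ring
      have h9 : 0 ≤ a * s := mul_nonneg ha0.le hs0
      have h10 : 4 * a * s = 4 * (a * s) := by ring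
      linarith
    have h3 : d * (2 * s) ≤ d * (vfun a - vfun κ) :=
      mul_le_mul_of_nonneg_left (h2.trans h1) hd0.le
    have h4 : Real.log a ≤ Real.log d := Real.log_le_log ha0 had
    have h5 : 0 ≤ Real.log 4 := Real.log_nonneg (by norm_num)
    rw [hLw, hell, hSd, hsd]
    rw [hsd] at hlogd
    linarith [hW2.1]
  -- the exponent
  have hlog : Real.log a - Real.log κ ≤ (a - κ) / κ := by
    rw [← Real.log_div ha0.ne' hκ0.ne']
    have h1 := Real.log_le_sub_one_of_pos (div_pos ha0 hκ0)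
    have h2 : (a - κ) / κ = a / κ - 1 := by field_simp
    rw [h2]
    exact h1
  have hconst : C₁ * (1 + Real.log κ) + C₂ + C₃ ≤ ε / 50 * κ := by
    refine pcl_const hε hC₁ hC₂ hC₃ hK hκ1 ?_
    have h1 : (100 * K / ε) ^ 2 ≤ (150 * K / ε) ^ 2 := by
      have : (150 * K / ε) ^ 2 = (9 / 4) * (100 * K / ε) ^ 2 := by ring
      rw [this]
      have := sq_nonneg (100 * K / ε)
      linarith
    linarith
  have hd1 : 1 ≤ d := by exact_mod_cast (show (1 : ℝ) ≤ d by linarith)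
  have hBk := (abs_le.1 (hB d k hd1 hdk)).2
  have hSk := (abs_le.1 (hS d k hd1).1).2
  have hqk := hquad κ hκ0
  rw [← hκ] at hBk hSk
  rw [min_eq_left hκa, hell] at hqk
  have hqk' := (abs_le.1 hqk).2
  rw [show (κ - a) ^ 2 = (a - κ) ^ 2 by ring] at hqk'
  have hd1n : 1 ≤ n := Nat.one_le_iff_ne_zero.2 hn0
  have hkd : (d : ℝ) ≤ k := by exact_mod_cast hdk
  refine le_pc_of n d _ fun p hp0 hp => ?_
  rcases eq_or_lt_of_le hp0 with h | hp0'
  · rw [← h, u_percProb_zero hd1n]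
    norm_num
  · obtain ⟨L, hL⟩ : ∃ L, L = -Real.log p := ⟨_, rfl⟩
    have hpL : p = Real.exp (-L) := by rw [hL, neg_neg, Real.exp_log hp0']
    have hLL : Lw (VU J γ V) n d + ε ≤ L := by
      rw [hpL] at hp
      have := Real.exp_le_exp.1 hp
      linarith
    rw [hpL]
    refine lt_of_le_of_lt (hP n d k L hd3 hdk hkc hkn (hSL.trans hLL)) ?_
    rw [Finset.sum_add_distrib, hlogn]
    have hE := pcl_alg (d := (d : ℝ)) (k := (k : ℝ)) (a := a) (κ := κ) (b := b) (ℓ := vfun a)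
      (I := ∫ u in (0 : ℝ)..κ, vfun u) (S := sfun d k) (m := avW (VU J γ V) a d)
      (IW := ∫ u in (0 : ℝ)..κ, VU J γ V (u / Real.sqrt d)) (ld := Real.log d)
      (la := Real.log a) (lκ := Real.log κ) (l4 := Real.log 4) (L := L)
      (L0 := Lw (VU J γ V) n d + ε)
      (sB := ∑ t ∈ Finset.range k, Bx d t)
      (sS := ∑ t ∈ Finset.range k, sval J γ V d (lev d t)) (e := e) (C₁ := C₁) (C₂ := C₂)
      (C₃ := C₃) (Cw := Cw) (ε := ε) (τ := τ) hd16 hkκ hκ1 hκa hε he0 heε hτ0 hτ1 hτ2 hCw0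
      hd100 hgap hτ3 hLL (by rw [hLw, hell]) (by linarith) (by linarith) hqk' hW1 hlog
      hconst hS0
    have h1 : ε / 4 * (k : ℝ) ≥ 25 := by
      have := mul_le_mul_of_nonneg_left hkd hε.le
      linarith
    refine lt_of_le_of_lt (Real.exp_le_exp.2 (hE.trans (by linarith : -(ε / 4) * (k : ℝ) ≤ -25))) ?_
    rw [Real.exp_neg]
    have h2 := Real.add_one_le_exp (25 : ℝ)
    rw [inv_lt_comm₀ (Real.exp_pos _) (by norm_num)]
    linarith

end PcLower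

end Pool.Agent.Lib.MP_8501c9_pr.Wide
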