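import Pool.Agent.Lib.MP_8501c9_pr.Wide.DefsL

/-!
# Weights for the length of the queue

The weights are `(j + 1) (K - j)`, up to a constant: the sum over `r` is `e (f j - 1)` up to
nonpositive terms, because a Poisson variable of mean one has variance one.
-/

set_option autoImplicit false
open Set

namespace Pool.Agent.Lib.MP_8501c9_pr.Wide

open Pool.Agent.Lib.MP_8501c9_pr Pool.Agent.Lib.MP_8501c9_pr.Mid

theorem l7_h0 : HasSum (fun r : ℕ => (1 : ℝ) / (r.factorial : ℝ)) (Real.exp 1) := by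
  have h := NormedSpace.expSeries_div_hasSum_exp (𝔸 := ℝ) (1 : ℝ)
  rw [← Real.exp_eq_exp_ℝ] at h
  simpa using h

theorem l7_h1 : HasSum (fun r : ℕ => (r : ℝ) / (r.factorial : ℝ)) (Real.exp 1) := by
  rw [← hasSum_nat_add_iff' 1]
  simp only [Finset.range_one, Finset.sum_singleton, Nat.cast_zero, zero_div, sub_zero]
  have h : (fun r : ℕ => (((r + 1 : ℕ)) : ℝ) / ((r + 1).factorial : ℝ)) =
      fun r : ℕ => (1 : ℝ) / (r.factorial : ℝ) := by
    funext r
    rw [Nat.factorial_succ, Nat.cast_mul]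
    have h1 : ((r + 1 : ℕ) : ℝ) ≠ 0 := by positivity
    have h2 : (r.factorial : ℝ) ≠ 0 := by positivity
    field_simp
  rw [h]
  exact l7_h0

theorem l7_h2 : HasSum (fun r : ℕ => (r : ℝ) * ((r : ℝ) - 1) / (r.factorial : ℝ))
    (Real.exp 1) := by
  rw [← hasSum_nat_add_iff' 1]
  simp only [Finset.range_one, Finset.sum_singleton, Nat.cast_zero, zero_mul, zero_div, sub_zero]
  have h : (fun r : ℕ => (((r + 1 : ℕ)) : ℝ) * (((r + 1 : ℕ) : ℝ) - 1) /
      ((r + 1).factorial : ℝ)) = fun r : ℕ => (r : ℝ) / (r.factorial : ℝ) := by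
    funext r
    rw [Nat.factorial_succ, Nat.cast_mul]
    have h1 : ((r + 1 : ℕ) : ℝ) ≠ 0 := by positivity
    have h2 : (r.factorial : ℝ) ≠ 0 := by positivity
    field_simp
    push_cast
    ring
  rw [h]
  exact l7_h1

/-- the infinite sum -/
theorem l7_sum (K j : ℝ) : HasSum (fun r : ℕ => (j + r) * (K - j - r + 1) / (r.factorial : ℝ))
    (Real.exp 1 * ((j + 1) * (K - j) - 1)) := by
  have h := ((l7_h0.mul_left (j * (K - j + 1))).add (l7_h1.mul_left (K - 2 * j))).sub l7_h2
  have e1 : (fun r : ℕ => (j + r) * (K - j - r + 1) / (r.factorial : ℝ)) = fun r : ℕ =>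
      j * (K - j + 1) * (1 / (r.factorial : ℝ)) + (K - 2 * j) * ((r : ℝ) / (r.factorial : ℝ)) -
        (r : ℝ) * ((r : ℝ) - 1) / (r.factorial : ℝ) := by
    funext r
    ring
  have e2 : Real.exp 1 * ((j + 1) * (K - j) - 1) =
      j * (K - j + 1) * Real.exp 1 + (K - 2 * j) * Real.exp 1 - Real.exp 1 := by ring
  rw [e1, e2]
  exact h

theorem exists_weights (ε : ℝ) (hε : 0 < ε) : ∃ (K : ℕ) (s : ℕ → ℝ), SW K s ε := by
  have hδ : 0 < 1 - Real.exp (-ε) := by
    have : Real.exp (-ε) < 1 := by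
      rw [Real.exp_lt_one_iff]
      linarith
    linarith
  obtain ⟨K, hK⟩ := exists_nat_ge (1 / (1 - Real.exp (-ε)))
  have hK1 : 1 ≤ (K : ℝ) * (1 - Real.exp (-ε)) := by
    rw [div_le_iff₀ hδ] at hK
    exact hK
  have hKpos : 1 ≤ K := by
    rcases Nat.eq_zero_or_pos K with h | h
    · rw [h] at hK1
      simp at hK1
      linarith
    · exact h
  have hKR : (1 : ℝ) ≤ K := by exact_mod_cast hKpos
  have hc : (0 : ℝ) < ((K : ℝ) + 1) ^ 2 := by positivity
  refine ⟨K, fun j => if j < K then ((j : ℝ) + 1) * ((K : ℝ) - j) / ((K : ℝ) + 1) ^ 2 else 0,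
    hKpos, ?_, ?_, ?_, ?_, ?_⟩
  · intro j hj
    have hjR : (j : ℝ) < K := by exact_mod_cast hj
    rw [if_pos hj]
    have : 0 < (K : ℝ) - j := by linarith
    positivity
  · intro j
    split_ifs with hj
    · have hjR : (j : ℝ) < K := by exact_mod_cast hj
      have : 0 < (K : ℝ) - j := by linarith
      positivity
    · exact le_rfl
  · intro j
    split_ifs with hj
    · have hjR : (j : ℝ) < K := by exact_mod_cast hj
      have hj0 : (0 : ℝ) ≤ j := by positivity
      rw [div_le_one hc]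
      nlinarith
    · exact zero_le_one
  · intro j hj
    rw [if_neg (by omega)]
  · intro j hj
    have hjR : (j : ℝ) + 1 ≤ K := by exact_mod_cast hj
    have hj0 : (0 : ℝ) ≤ j := by positivity
    have hsum := (l7_sum (K : ℝ) (j : ℝ)).neg
    have hle := sum_le_hasSum (Finset.range (K + 1 - j)) (fun r hr => by
      have hr' : K + 1 - j ≤ r := by simpa using hr
      have hr2 : (K : ℝ) + 1 ≤ r + j := by
        have : K + 1 ≤ r + j := by omega
        exact_mod_cast this
      have h1 : (0 : ℝ) ≤ r := by positivity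
      have h2 : 0 ≤ (j + (r : ℝ)) * (r + j - (K + 1)) := mul_nonneg (by linarith) (by linarith)
      have h3 : 0 ≤ (j + (r : ℝ)) * (r + j - (K + 1)) / (r.factorial : ℝ) :=
        div_nonneg h2 (by positivity)
      have h4 : (j + (r : ℝ)) * (r + j - (K + 1)) / (r.factorial : ℝ) =
        -((j + r) * (K - j - r + 1) / (r.factorial : ℝ)) := by ring
      rw [← h4]
      exact h3) hsum
    rw [Finset.sum_neg_distrib, neg_le_neg_iff] at hle
    have hterm : ∀ r ∈ Finset.range (K + 1 - j),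
        (if 1 ≤ j + r then (if j + r - 1 < K then (((j + r - 1 : ℕ) : ℝ) + 1) *
          ((K : ℝ) - ((j + r - 1 : ℕ) : ℝ)) / ((K : ℝ) + 1) ^ 2 else 0) else 0) /
          (r.factorial : ℝ) =
        ((j + r) * (K - j - r + 1) / (r.factorial : ℝ)) * (((K : ℝ) + 1) ^ 2)⁻¹ := by
      intro r hr
      rw [Finset.mem_range] at hr
      by_cases h0 : 1 ≤ j + r
      · rw [if_pos h0, if_pos (by omega), Nat.cast_sub h0]
        push_cast
        ring
      · have hj00 : j = 0 := by omega
        have hr00 : r = 0 := by omega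
        subst hj00
        subst hr00
        simp
    rw [Finset.sum_congr rfl hterm, ← Finset.sum_mul, if_pos hj]
    rw [div_eq_mul_inv, ← mul_assoc]
    apply mul_le_mul_of_nonneg_right _ (by positivity)
    refine le_trans ?_ hle
    rw [show (1 : ℝ) - ε = 1 + -ε by ring, Real.exp_add, mul_assoc]
    apply mul_le_mul_of_nonneg_left _ (Real.exp_pos 1).le
    have h1 : (K : ℝ) ≤ ((j : ℝ) + 1) * ((K : ℝ) - j) := by nlinarith
    have h2 := mul_le_mul_of_nonneg_right h1 hδ.le
    nlinarith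

end Pool.Agent.Lib.MP_8501c9_pr.Wide
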