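import Pool.Agent.Lib.MP_8501c9_pr.Wide.DefsL

/-!
# Quotas: the number of ways to complete a window is harmonic (task L5)
-/

set_option autoImplicit false
open Set

namespace Pool.Agent.Lib.MP_8501c9_pr.Wide

open Pool.Agent.Lib.MP_8501c9_pr Pool.Agent.Lib.MP_8501c9_pr.Mid

variable {n d : ℕ}

theorem l5_cnt_insert (x₀ : Fin d → ℕ) {U : Finset (Fin d)} {i : Fin d} (hi : i ∉ U) (c : ℕ) :
    cnt x₀ (insert i U) c = cnt x₀ U c + if x₀ i = c then 1 else 0 := by
  unfold cnt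
  rw [Finset.filter_insert]
  split_ifs with h
  · rw [Finset.card_insert_of_notMem]
    intro hm
    exact hi (Finset.mem_filter.1 hm).1
  · rfl

theorem l5_cnt_mono (x₀ : Fin d → ℕ) {U V : Finset (Fin d)} (h : U ⊆ V) (c : ℕ) :
    cnt x₀ U c ≤ cnt x₀ V c :=
  Finset.card_le_card (Finset.filter_subset_filter _ h)

theorem l5_cnt_compl (x₀ : Fin d → ℕ) (U : Finset (Fin d)) (c : ℕ) :
    cnt x₀ Finset.univ c = cnt x₀ U c + cnt x₀ Uᶜ c := by
  unfold cnt
  rw [← Finset.union_compl U, Finset.filter_union, Finset.card_union_of_disjoint]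
  exact Finset.disjoint_filter_filter disjoint_compl_right

theorem l5_sum_cnt {x₀ : Fin d → ℕ} {X : ℕ} (hX : ∀ m, x₀ m < X) (U : Finset (Fin d)) :
    ∑ c ∈ Finset.range X, cnt x₀ U c = U.card := by
  unfold cnt
  exact (Finset.card_eq_sum_card_fiberwise (fun m _ => by
    simpa using hX m)).symm

theorem WW_nonneg (x₀ : Fin d → ℕ) (qu : ℕ → ℕ) (X : ℕ) (U : Finset (Fin d)) :
    0 ≤ WW x₀ qu X U := by
  unfold WW
  split_ifs
  · positivity
  · exact le_rfl

/-- the sum of the remaining quotas -/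
theorem l5_rem {x₀ : Fin d → ℕ} {qu : ℕ → ℕ} {X : ℕ} (hX : ∀ m, x₀ m < X) {U : Finset (Fin d)}
    (hP : ∀ c < X, cnt x₀ U c ≤ qu c) :
    ∑ c ∈ Finset.range X, (qu c - cnt x₀ U c) = qtot qu X - U.card ∧ U.card ≤ qtot qu X := by
  have h1 : ∑ c ∈ Finset.range X, (qu c - cnt x₀ U c) + ∑ c ∈ Finset.range X, cnt x₀ U c =
      qtot qu X := by
    rw [← Finset.sum_add_distrib]
    unfold qtot
    apply Finset.sum_congr rfl
    intro c hc
    have := hP c (Finset.mem_range.1 hc)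
    omega
  rw [l5_sum_cnt hX] at h1
  omega

/-- one term -/
theorem l5_term {x₀ : Fin d → ℕ} {qu : ℕ → ℕ} {X : ℕ} (hX : ∀ m, x₀ m < X) {U : Finset (Fin d)}
    (_hU : U.card < qtot qu X) (hP : ∀ c < X, cnt x₀ U c ≤ qu c) {i : Fin d} (hi : i ∉ U) :
    WW x₀ qu X (insert i U) * (cnt x₀ Uᶜ (x₀ i) : ℝ) =
      ((qtot qu X - U.card - 1).factorial : ℝ) * ((qu (x₀ i) - cnt x₀ U (x₀ i) : ℕ) : ℝ) *
        ∏ c ∈ Finset.range X,
          (Nat.choose (cnt x₀ Finset.univ c - cnt x₀ U c) (qu c - cnt x₀ U c) : ℝ) := by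
  classical
  have hci : x₀ i ∈ Finset.range X := Finset.mem_range.2 (hX i)
  have hcard : (insert i U).card = U.card + 1 := Finset.card_insert_of_notMem hi
  by_cases hr : cnt x₀ U (x₀ i) + 1 ≤ qu (x₀ i)
  · have hP' : ∀ c < X, cnt x₀ (insert i U) c ≤ qu c := by
      intro c hc
      rw [l5_cnt_insert x₀ hi]
      split_ifs with h
      · rw [← h]; exact hr
      · exact hP c hc
    unfold WW
    rw [if_pos hP', hcard, ← Finset.mul_prod_erase _ _ hci, ← Finset.mul_prod_erase _ _ hci]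
    have e1 : ∏ c ∈ (Finset.range X).erase (x₀ i),
        (Nat.choose (cnt x₀ Finset.univ c - cnt x₀ (insert i U) c)
          (qu c - cnt x₀ (insert i U) c) : ℝ) = ∏ c ∈ (Finset.range X).erase (x₀ i),
        (Nat.choose (cnt x₀ Finset.univ c - cnt x₀ U c) (qu c - cnt x₀ U c) : ℝ) := by
      apply Finset.prod_congr rfl
      intro c hc
      rw [l5_cnt_insert x₀ hi, if_neg (Finset.ne_of_mem_erase hc).symm, Nat.add_zero]
    have e2 : cnt x₀ (insert i U) (x₀ i) = cnt x₀ U (x₀ i) + 1 := by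
      rw [l5_cnt_insert x₀ hi, if_pos rfl]
    have hcompl := l5_cnt_compl x₀ U (x₀ i)
    have hpos : 1 ≤ cnt x₀ Uᶜ (x₀ i) := by
      unfold cnt
      apply Finset.card_pos.2
      exact ⟨i, Finset.mem_filter.2 ⟨Finset.mem_compl.2 hi, rfl⟩⟩
    rw [e1, e2]
    obtain ⟨N, hN⟩ : ∃ N, cnt x₀ Uᶜ (x₀ i) = N + 1 := ⟨cnt x₀ Uᶜ (x₀ i) - 1, by omega⟩
    obtain ⟨r, hr'⟩ : ∃ r, qu (x₀ i) - cnt x₀ U (x₀ i) = r + 1 :=
      ⟨qu (x₀ i) - cnt x₀ U (x₀ i) - 1, by omega⟩
    have f1 : cnt x₀ Finset.univ (x₀ i) - (cnt x₀ U (x₀ i) + 1) = N := by omega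
    have f2 : qu (x₀ i) - (cnt x₀ U (x₀ i) + 1) = r := by omega
    have f3 : cnt x₀ Finset.univ (x₀ i) - cnt x₀ U (x₀ i) = N + 1 := by omega
    rw [f1, f2, f3, hr', hN]
    have f4 : qtot qu X - (U.card + 1) = qtot qu X - U.card - 1 := by omega
    rw [f4]
    have f5 : ((N + 1 : ℕ) : ℝ) * (N.choose r : ℝ) = ((N + 1).choose (r + 1) : ℝ) * ((r + 1 : ℕ) : ℝ) := by
      exact_mod_cast Nat.add_one_mul_choose_eq N r
    linear_combination ((qtot qu X - U.card - 1).factorial : ℝ) *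
      (∏ c ∈ (Finset.range X).erase (x₀ i),
        (Nat.choose (cnt x₀ Finset.univ c - cnt x₀ U c) (qu c - cnt x₀ U c) : ℝ)) * f5
  · have hP' : ¬ ∀ c < X, cnt x₀ (insert i U) c ≤ qu c := by
      intro h
      apply hr
      have := h _ (hX i)
      rwa [l5_cnt_insert x₀ hi, if_pos rfl] at this
    have hz : qu (x₀ i) - cnt x₀ U (x₀ i) = 0 := by omega
    unfold WW
    rw [if_neg hP', hz]
    simp

/-- the number of ways is harmonic -/
theorem WW_sum {x₀ : Fin d → ℕ} {qu : ℕ → ℕ} {X : ℕ} (hX : ∀ m, x₀ m < X) {U : Finset (Fin d)}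
    (hU : U.card < qtot qu X) : ∑ i ∈ Uᶜ, WW x₀ qu X (insert i U) = WW x₀ qu X U := by
  classical
  by_cases hP : ∀ c < X, cnt x₀ U c ≤ qu c
  · by_cases hz : ∀ c < X, qu c - cnt x₀ U c ≤ cnt x₀ Uᶜ c
    · -- all quotas can be met
      set Pr : ℝ := ∏ c ∈ Finset.range X,
          (Nat.choose (cnt x₀ Finset.univ c - cnt x₀ U c) (qu c - cnt x₀ U c) : ℝ) with hPr
      have hterm : ∀ i ∈ Uᶜ, WW x₀ qu X (insert i U) =
          ((qtot qu X - U.card - 1).factorial : ℝ) * Pr *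
            (((qu (x₀ i) - cnt x₀ U (x₀ i) : ℕ) : ℝ) / (cnt x₀ Uᶜ (x₀ i) : ℝ)) := by
        intro i hi
        have hi' := Finset.mem_compl.1 hi
        have h1 := l5_term hX hU hP hi'
        have hpos : (0 : ℝ) < (cnt x₀ Uᶜ (x₀ i) : ℝ) := by
          have : 0 < cnt x₀ Uᶜ (x₀ i) := by
            unfold cnt
            exact Finset.card_pos.2 ⟨i, Finset.mem_filter.2 ⟨hi, rfl⟩⟩
          exact_mod_cast this
        rw [← mul_div_assoc, eq_div_iff hpos.ne', h1]
        ring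
      rw [Finset.sum_congr rfl hterm, ← Finset.mul_sum]
      have hsum : ∑ i ∈ Uᶜ, (((qu (x₀ i) - cnt x₀ U (x₀ i) : ℕ) : ℝ) / (cnt x₀ Uᶜ (x₀ i) : ℝ)) =
          ((qtot qu X - U.card : ℕ) : ℝ) := by
        rw [← (l5_rem hX hP).1]
        rw [← Finset.sum_fiberwise_of_maps_to (s := Uᶜ) (t := Finset.range X) (g := x₀)
          (fun i _ => Finset.mem_range.2 (hX i))]
        push_cast
        apply Finset.sum_congr rfl
        intro c hc
        have hc' := Finset.mem_range.1 hc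
        have e1 : ∀ i ∈ Finset.filter (fun i => x₀ i = c) Uᶜ,
            (((qu (x₀ i) - cnt x₀ U (x₀ i) : ℕ) : ℝ) / (cnt x₀ Uᶜ (x₀ i) : ℝ)) =
            ((qu c - cnt x₀ U c : ℕ) : ℝ) / (cnt x₀ Uᶜ c : ℝ) := by
          intro i hi
          rw [(Finset.mem_filter.1 hi).2]
        rw [Finset.sum_congr rfl e1, Finset.sum_const, nsmul_eq_mul]
        have e2 : ((Finset.filter (fun i => x₀ i = c) Uᶜ).card : ℝ) = (cnt x₀ Uᶜ c : ℝ) := rfl
        rw [e2]
        by_cases h0 : cnt x₀ Uᶜ c = 0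
        · have := hz c hc'
          rw [h0] at this ⊢
          have h00 : qu c - cnt x₀ U c = 0 := by omega
          rw [h00]
          simp
        · have : (cnt x₀ Uᶜ c : ℝ) ≠ 0 := by exact_mod_cast h0
          field_simp
      rw [hsum]
      unfold WW
      rw [if_pos hP]
      obtain ⟨R, hR⟩ : ∃ R, qtot qu X - U.card = R + 1 := ⟨qtot qu X - U.card - 1, by omega⟩
      rw [hR, Nat.factorial_succ]
      simp only [Nat.add_sub_cancel]
      rw [← hPr]
      push_cast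
      ring
    · -- some quota cannot be met
      push Not at hz
      obtain ⟨c, hc, hlt⟩ := hz
      have hcompl := l5_cnt_compl x₀ U c
      have hprod : (∏ c ∈ Finset.range X,
          (Nat.choose (cnt x₀ Finset.univ c - cnt x₀ U c) (qu c - cnt x₀ U c) : ℝ)) = 0 := by
        apply Finset.prod_eq_zero (Finset.mem_range.2 hc)
        rw [Nat.choose_eq_zero_of_lt (by omega)]
        simp
      have h0 : WW x₀ qu X U = 0 := by
        unfold WW
        rw [if_pos hP, hprod, mul_zero]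
      rw [h0]
      apply Finset.sum_eq_zero
      intro i hi
      have h1 := l5_term hX hU hP (Finset.mem_compl.1 hi)
      rw [hprod, mul_zero] at h1
      have hpos : (cnt x₀ Uᶜ (x₀ i) : ℝ) ≠ 0 := by
        have : 0 < cnt x₀ Uᶜ (x₀ i) := by
          unfold cnt
          exact Finset.card_pos.2 ⟨i, Finset.mem_filter.2 ⟨hi, rfl⟩⟩
        exact_mod_cast this.ne'
      rcases mul_eq_zero.1 h1 with h | h
      · exact h
      · exact absurd h hpos
  · have h0 : WW x₀ qu X U = 0 := by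
      unfold WW
      rw [if_neg hP]
    rw [h0]
    apply Finset.sum_eq_zero
    intro i hi
    unfold WW
    rw [if_neg]
    intro h
    apply hP
    intro c hc
    exact (l5_cnt_mono x₀ (Finset.subset_insert i U) c).trans (h c hc)

theorem WW_sum2 {x₀ : Fin d → ℕ} {qu : ℕ → ℕ} {X : ℕ} (hX : ∀ m, x₀ m < X)
    {U : Finset (Fin d)} (hU : U.card + 1 < qtot qu X) :
    ∑ i ∈ Uᶜ, ∑ j ∈ (insert i U)ᶜ, WW x₀ qu X (insert j (insert i U)) = WW x₀ qu X U := by
  rw [← WW_sum hX (by omega : U.card < qtot qu X)]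
  apply Finset.sum_congr rfl
  intro i hi
  apply WW_sum hX
  rw [Finset.card_insert_of_notMem (Finset.mem_compl.1 hi)]
  exact hU

theorem WW_le {x₀ : Fin d → ℕ} {qu : ℕ → ℕ} {X : ℕ} (hX : ∀ m, x₀ m < X)
    (U : Finset (Fin d)) : WW x₀ qu X U ≤ (d : ℝ) ^ (qtot qu X - U.card) := by
  classical
  induction hR : qtot qu X - U.card generalizing U with
  | zero =>
    rw [pow_zero]
    unfold WW
    split_ifs with hP
    · obtain ⟨h1, h2⟩ := l5_rem hX hP
      rw [hR] at h1 ⊢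
      have h3 : ∀ c ∈ Finset.range X, qu c - cnt x₀ U c = 0 := Finset.sum_eq_zero_iff.1 h1
      rw [Finset.prod_congr rfl (fun c hc => by rw [h3 c hc])]
      simp
    · norm_num
  | succ R ih =>
    rw [← WW_sum hX (by omega : U.card < qtot qu X)]
    calc ∑ i ∈ Uᶜ, WW x₀ qu X (insert i U) ≤ ∑ i ∈ Uᶜ, (d : ℝ) ^ R := by
          apply Finset.sum_le_sum
          intro i hi
          apply ih
          rw [Finset.card_insert_of_notMem (Finset.mem_compl.1 hi)]
          omega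
      _ = (Uᶜ.card : ℝ) * (d : ℝ) ^ R := by rw [Finset.sum_const, nsmul_eq_mul]
      _ ≤ (d : ℝ) * (d : ℝ) ^ R := by
          apply mul_le_mul_of_nonneg_right _ (by positivity)
          have : Uᶜ.card ≤ d := by
            have := Finset.card_le_univ (Uᶜ)
            simpa using this
          exact_mod_cast this
      _ = (d : ℝ) ^ (R + 1) := by rw [pow_succ]; ring

theorem WW_empty {x₀ : Fin d → ℕ} {qu : ℕ → ℕ} {X : ℕ} : WW x₀ qu X ∅ =
    ((qtot qu X).factorial : ℝ) * ∏ c ∈ Finset.range X,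
      (Nat.choose (cnt x₀ Finset.univ c) (qu c) : ℝ) := by
  have h : ∀ c, cnt x₀ ∅ c = 0 := fun c => by simp [cnt]
  unfold WW
  rw [if_pos (fun c _ => by rw [h]; exact Nat.zero_le _)]
  simp only [h, Finset.card_empty, Nat.sub_zero]

/-- what a completed window looks like -/
theorem WW_ne_zero {x₀ : Fin d → ℕ} {qu : ℕ → ℕ} {X : ℕ} (hX : ∀ m, x₀ m < X)
    {U : Finset (Fin d)} (h : WW x₀ qu X U ≠ 0) :
    (∀ c < X, cnt x₀ U c ≤ qu c ∧ qu c - cnt x₀ U c ≤ cnt x₀ Uᶜ c) ∧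
      U.card ≤ qtot qu X := by
  unfold WW at h
  split_ifs at h with hP
  · refine ⟨fun c hc => ⟨hP c hc, ?_⟩, (l5_rem hX hP).2⟩
    have h1 := right_ne_zero_of_mul h
    rw [Finset.prod_ne_zero_iff] at h1
    have h2 := h1 c (Finset.mem_range.2 hc)
    have hcompl := l5_cnt_compl x₀ U c
    by_contra hlt
    push Not at hlt
    apply h2
    rw [Nat.choose_eq_zero_of_lt (by omega)]
    simp
  · exact absurd rfl h

end Pool.Agent.Lib.MP_8501c9_pr.Wide
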