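import Pool.Agent.Lib.MP_8501c9_pr.Mid.Counts
import Pool.Agent.Lib.MP_8501c9_pr.Wide.Tree2
import Pool.Agent.Lib.MP_8501c9_pr.Wide.InvStep

/-!
# The main step of the growth strategy
-/

set_option autoImplicit false
open Set

namespace Pool.Agent.Lib.MP_8501c9_pr.Wide

open Pool.Agent.Lib.MP_8501c9_pr Pool.Agent.Lib.MP_8501c9_pr.Mid

variable {n d : ℕ}

theorem l4_mem_supp {Q : BoxT n d} {x : Vtx n d} {m : Fin d} :
    m ∈ supp Q x ↔ out Q x m ≠ 0 := by
  unfold supp
  rw [Finset.mem_filter]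
  simp

theorem l4_out_ext_of {Q : BoxT n d} {a b : Vtx n d} {m : Fin d} (h : m ∉ supp Q a) :
    out (ext Q a) b m = out Q b m := by
  rw [l4_mem_supp, not_not] at h
  unfold out at h ⊢
  rw [d_ext1, d_ext2]
  omega

theorem l4_out_ext_zero {Q : BoxT n d} {a b : Vtx n d} {m : Fin d} (h : out Q b m = 0) :
    out (ext Q a) b m = 0 := by
  unfold out at h ⊢
  rw [d_ext1, d_ext2]
  omega

theorem l4_out_ext {Q : BoxT n d} {a b : Vtx n d} (h : Disjoint (supp Q a) (supp Q b))
    (m : Fin d) : out (ext Q a) b m = out Q b m := by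
  by_cases hm : m ∈ supp Q a
  · have h1 : m ∉ supp Q b := Finset.disjoint_left.1 h hm
    rw [l4_mem_supp, not_not] at h1
    rw [h1, l4_out_ext_zero h1]
  · exact l4_out_ext_of hm

theorem l4_supp_ext {Q : BoxT n d} {a b : Vtx n d} (h : Disjoint (supp Q a) (supp Q b)) :
    supp (ext Q a) b = supp Q b := by
  ext m
  rw [l4_mem_supp, l4_mem_supp, l4_out_ext h]

theorem l4_out_eq {Q : BoxT n d} {a : Vtx n d} (h1 : ∀ m, out Q a m ≤ 1) (m : Fin d) :
    out Q a m = if m ∈ supp Q a then 1 else 0 := by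
  have h := h1 m
  split_ifs with hm
  · rw [l4_mem_supp] at hm
    omega
  · rw [l4_mem_supp, not_not] at hm
    exact hm

theorem l4_sum {Q : BoxT n d} {a : Vtx n d} (h1 : ∀ m, out Q a m ≤ 1)
    (h2 : (supp Q a).card = 2) : ∑ m, out Q a m = 2 := by
  rw [Finset.sum_congr rfl fun m _ => l4_out_eq h1 m, Finset.sum_boole, ← h2]
  simp

theorem l4_sd {Q : BoxT n d} (hQ : Q.1 ≤ Q.2) {a : Vtx n d} (h1 : ∀ m, out Q a m ≤ 1)
    (m : Fin d) : sd (ext Q a) m = sd Q m + if m ∈ supp Q a then 1 else 0 := by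
  rw [d_sd_ext hQ, l4_out_eq h1]

/-- using one element `a` of the queue `C` -/
theorem l4_update {x₀ : Fin d → ℕ} {Q : BoxT n d} (hQ : Q.1 ≤ Q.2) {C : Finset (Vtx n d)}
    {U : Finset (Fin d)} {a : Vtx n d} (ha : a ∈ C)
    (h1 : ∀ b ∈ C, ∀ m, out Q b m ≤ 1) (h2 : ∀ b ∈ C, (supp Q b).card = 2)
    (hd : (C : Set (Vtx n d)).PairwiseDisjoint (supp Q))
    (hs : ∀ m, sd Q m + (if ∃ b ∈ C, m ∈ supp Q b then 1 else 0) =
      x₀ m + (if m ∈ U then 1 else 0)) :
    (∀ b ∈ C.erase a, supp (ext Q a) b = supp Q b ∧ (∀ m, out (ext Q a) b m ≤ 1) ∧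
      (supp (ext Q a) b).card = 2 ∧ ∀ m ∈ supp (ext Q a) b, sd (ext Q a) m = sd Q m) ∧
    ((C.erase a : Finset (Vtx n d)) : Set (Vtx n d)).PairwiseDisjoint (supp (ext Q a)) ∧
    (∀ m, sd (ext Q a) m + (if ∃ b ∈ C.erase a, m ∈ supp (ext Q a) b then 1 else 0) =
      x₀ m + (if m ∈ U then 1 else 0)) := by
  have hdis : ∀ b ∈ C.erase a, Disjoint (supp Q a) (supp Q b) := by
    intro b hb
    have hb1 := Finset.mem_of_mem_erase hb
    have hb2 := Finset.ne_of_mem_erase hb
    exact hd (Finset.mem_coe.2 ha) (Finset.mem_coe.2 hb1) hb2.symm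
  have hsp : ∀ b ∈ C.erase a, supp (ext Q a) b = supp Q b := fun b hb =>
    l4_supp_ext (hdis b hb)
  refine ⟨?_, ?_, ?_⟩
  · intro b hb
    have hb1 := Finset.mem_of_mem_erase hb
    refine ⟨hsp b hb, ?_, ?_, ?_⟩
    · intro m
      rw [l4_out_ext (hdis b hb)]
      exact h1 b hb1 m
    · rw [hsp b hb]
      exact h2 b hb1
    · intro m hm
      rw [hsp b hb] at hm
      rw [l4_sd hQ (h1 a ha), if_neg (Finset.disjoint_right.1 (hdis b hb) hm), add_zero]
  · intro b hb c hc hbc
    have hb' := Finset.mem_coe.1 hb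
    have hc' := Finset.mem_coe.1 hc
    have h3 : Disjoint (supp Q b) (supp Q c) :=
      hd (Finset.mem_coe.2 (Finset.mem_of_mem_erase hb'))
        (Finset.mem_coe.2 (Finset.mem_of_mem_erase hc')) hbc
    change Disjoint (supp (ext Q a) b) (supp (ext Q a) c)
    rw [hsp b hb', hsp c hc']
    exact h3
  · intro m
    rw [← hs m, l4_sd hQ (h1 a ha), add_assoc]
    congr 1
    by_cases hm : m ∈ supp Q a
    · have hno : ¬ ∃ b ∈ C.erase a, m ∈ supp (ext Q a) b := by
        rintro ⟨b, hb, hmb⟩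
        rw [hsp b hb] at hmb
        exact Finset.disjoint_left.1 (hdis b hb) hm hmb
      rw [if_pos hm, if_neg hno, if_pos ⟨a, ha, hm⟩]
    · rw [if_neg hm, zero_add]
      refine if_congr ?_ rfl rfl
      constructor
      · rintro ⟨b, hb, hmb⟩
        rw [hsp b hb] at hmb
        exact ⟨b, Finset.mem_of_mem_erase hb, hmb⟩
      · rintro ⟨b, hb, hmb⟩
        have hba : b ≠ a := by
          intro h
          rw [h] at hmb
          exact hm hmb
        have hb' := Finset.mem_erase.2 ⟨hba, hb⟩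
        refine ⟨b, hb', ?_⟩
        rw [hsp b hb']
        exact hmb

theorem l4_mem_NewU {Q' Q : BoxT n d} {U : Finset (Fin d)} {b : Vtx n d} :
    b ∈ NewU Q' Q U ↔ (∀ m, out Q b m ≤ 1) ∧ (supp Q b).card = 2 ∧ Disjoint (supp Q b) U ∧
      b ∉ cov Q' := by
  unfold NewU
  rw [Finset.mem_filter]
  simp

/-- the main step: ask all new corner points avoiding the directions `U` -/
theorem ach_main_step {p : ℝ} (hp0 : 0 ≤ p) (hp1 : p ≤ 1) {z : Vtx n d} {x₀ : Fin d → ℕ}
    {Q' Q : BoxT n d} {A Z T : Finset (Vtx n d)} {U : Finset (Fin d)}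
    {g : Finset (Vtx n d) → ℝ} (h : Mst z x₀ Q' Q A U Z T) (v : ℕ → Finset (Fin d) → ℝ)
    (hv : ∀ j S, 0 ≤ v j S)
    (hnext : ∀ Q₁ A₁ U₁ Z₁ T₁, Mst z x₀ Q Q₁ A₁ U₁ Z₁ T₁ → phi Q₁ = phi Q + 2 →
      U₁.card + 2 * A.card = U.card + 2 * A₁.card + 2 → Ach p g Z₁ T₁ (v A₁.card U₁)) :
    Ach p g Z T (∑ B ∈ (NewU Q' Q U).powerset,
      p ^ B.card * (1 - p) ^ ((NewU Q' Q U).card - B.card) *
        (ind (fun B : Finset (Vtx n d) => (B : Set (Vtx n d)).PairwiseDisjoint (supp Q) ∧
            1 ≤ A.card + B.card) B * v (A.card + B.card - 1) (U ∪ B.biUnion (supp Q)))) := by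
  classical
  have hQ : Q.1 ≤ Q.2 := le_trans h.inv.mem.1 h.inv.mem.2
  have hNc : NewU Q' Q U ⊆ cov Q \ cov Q' := by
    intro b hb
    rw [l4_mem_NewU] at hb
    rw [Finset.mem_sdiff]
    refine ⟨?_, hb.2.2.2⟩
    unfold cov
    rw [Finset.mem_filter]
    exact ⟨Finset.mem_univ _, (l4_sum hb.1 hb.2.1).le⟩
  have hNZ : Disjoint (NewU Q' Q U) Z := by
    rw [Finset.disjoint_left]
    intro b hb hbZ
    exact (Finset.mem_sdiff.1 (hNc hb)).2 (h.inv.cov hbZ)
  refine Ach.askAll hp0 hp1 hNZ (fun B => ind (fun B : Finset (Vtx n d) =>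
    (B : Set (Vtx n d)).PairwiseDisjoint (supp Q) ∧ 1 ≤ A.card + B.card) B *
      v (A.card + B.card - 1) (U ∪ B.biUnion (supp Q))) ?_
  intro B hB
  by_cases hgood : (B : Set (Vtx n d)).PairwiseDisjoint (supp Q) ∧ 1 ≤ A.card + B.card
  · have hind : ind (fun B : Finset (Vtx n d) =>
        (B : Set (Vtx n d)).PairwiseDisjoint (supp Q) ∧ 1 ≤ A.card + B.card) B = 1 := if_pos hgood
    rw [hind, one_mul]
    obtain ⟨hBd, hBc⟩ := hgood
    have hB' : ∀ b ∈ B, (∀ m, out Q b m ≤ 1) ∧ (supp Q b).card = 2 ∧ Disjoint (supp Q b) U :=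
      fun b hb => by
        have := l4_mem_NewU.1 (hB hb)
        exact ⟨this.1, this.2.1, this.2.2.1⟩
    have hcross : ∀ b ∈ A, ∀ c ∈ B, Disjoint (supp Q b) (supp Q c) := by
      intro b hb c hc
      exact (Disjoint.mono_right (h.two b hb).2.2.1 (hB' c hc).2.2).symm
    have hne : ∀ b : Vtx n d, (supp Q b).card = 2 → ¬ Disjoint (supp Q b) (supp Q b) := by
      intro b hb hdd
      rw [disjoint_self, Finset.bot_eq_empty] at hdd
      rw [hdd] at hb
      simp at hb
    have hAB : Disjoint A B := by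
      rw [Finset.disjoint_left]
      intro b hbA hbB
      exact hne b (hB' b hbB).2.1 (hcross b hbA b hbB)
    have hcard : (A ∪ B).card = A.card + B.card := Finset.card_union_of_disjoint hAB
    obtain ⟨a, ha⟩ : (A ∪ B).Nonempty := by
      rw [← Finset.card_pos, hcard]
      omega
    have hC1 : ∀ b ∈ A ∪ B, ∀ m, out Q b m ≤ 1 := by
      intro b hb
      rcases Finset.mem_union.1 hb with hb | hb
      · exact (h.two b hb).1
      · exact (hB' b hb).1
    have hC2 : ∀ b ∈ A ∪ B, (supp Q b).card = 2 := by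
      intro b hb
      rcases Finset.mem_union.1 hb with hb | hb
      · exact (h.two b hb).2.1
      · exact (hB' b hb).2.1
    have hCd : ((A ∪ B : Finset (Vtx n d)) : Set (Vtx n d)).PairwiseDisjoint (supp Q) := by
      intro b hb c hc hbc
      rcases Finset.mem_union.1 (Finset.mem_coe.1 hb) with hb | hb
      · rcases Finset.mem_union.1 (Finset.mem_coe.1 hc) with hc | hc
        · exact h.dis (Finset.mem_coe.2 hb) (Finset.mem_coe.2 hc) hbc
        · exact hcross b hb c hc
      · rcases Finset.mem_union.1 (Finset.mem_coe.1 hc) with hc | hc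
        · exact (hcross c hc b hb).symm
        · exact hBd (Finset.mem_coe.2 hb) (Finset.mem_coe.2 hc) hbc
    have hque : Que Q (A ∪ B) := ⟨fun b hb => l4_sum (hC1 b hb) (hC2 b hb), hCd⟩
    have hmU : ∀ m, m ∈ U ∪ B.biUnion (supp Q) ↔ m ∈ U ∨ ∃ b ∈ B, m ∈ supp Q b := by
      intro m
      rw [Finset.mem_union, Finset.mem_biUnion]
    have hCs : ∀ m, sd Q m + (if ∃ b ∈ A ∪ B, m ∈ supp Q b then 1 else 0) =
        x₀ m + (if m ∈ U ∪ B.biUnion (supp Q) then 1 else 0) := by
      intro m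
      have hs := h.sides m
      by_cases hmB : ∃ b ∈ B, m ∈ supp Q b
      · obtain ⟨b, hb, hmb⟩ := hmB
        have hmU' : m ∉ U := Finset.disjoint_left.1 (hB' b hb).2.2 hmb
        have hmA : ¬ ∃ c ∈ A, m ∈ supp Q c := by
          rintro ⟨c, hc, hmc⟩
          exact Finset.disjoint_left.1 (hcross c hc b hb) hmc hmb
        rw [if_neg hmA, if_neg hmU'] at hs
        rw [if_pos ⟨b, Finset.mem_union_right _ hb, hmb⟩, if_pos ((hmU m).2 (Or.inr ⟨b, hb, hmb⟩))]
        omega
      · have e1 : (∃ b ∈ A ∪ B, m ∈ supp Q b) ↔ ∃ b ∈ A, m ∈ supp Q b := by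
          constructor
          · rintro ⟨b, hb, hmb⟩
            rcases Finset.mem_union.1 hb with hb | hb
            · exact ⟨b, hb, hmb⟩
            · exact absurd ⟨b, hb, hmb⟩ hmB
          · rintro ⟨b, hb, hmb⟩
            exact ⟨b, Finset.mem_union_left _ hb, hmb⟩
        have e2 : m ∈ U ∪ B.biUnion (supp Q) ↔ m ∈ U := by
          rw [hmU]
          constructor
          · rintro (hm | hm)
            · exact hm
            · exact absurd hm hmB
          · exact Or.inl
        rw [if_congr e1 rfl rfl, if_congr e2 rfl rfl]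
        exact hs
    obtain ⟨k1, k2, k3⟩ := l4_update (x₀ := x₀) (U := U ∪ B.biUnion (supp Q)) hQ ha hC1 hC2 hCd hCs
    obtain ⟨i1, -⟩ := inv_step h.inv hNc hB hque ha
    have hsda := l4_sd hQ (hC1 a ha)
    have hUB : (U ∪ B.biUnion (supp Q)).card = U.card + 2 * B.card := by
      rw [Finset.card_union_of_disjoint, Finset.card_biUnion, Finset.sum_congr rfl
        fun b hb => (hB' b hb).2.1, Finset.sum_const, smul_eq_mul, mul_comm]
      · intro b hb c hc hbc
        exact hBd (Finset.mem_coe.2 hb) (Finset.mem_coe.2 hc) hbc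
      · rw [Finset.disjoint_biUnion_right]
        intro b hb
        exact (hB' b hb).2.2.symm
    have hA1 : ((A ∪ B).erase a).card = A.card + B.card - 1 := by
      rw [Finset.card_erase_of_mem ha, hcard]
    have hfin := hnext (ext Q a) ((A ∪ B).erase a) (U ∪ B.biUnion (supp Q)) (Z ∪ NewU Q' Q U)
      (T ∪ B) ?_ ?_ ?_
    · rw [hA1] at hfin
      exact hfin
    · refine ⟨i1, ?_, k2, k3, ?_, ?_⟩
      · intro b hb
        obtain ⟨q1, q2, q3, q4⟩ := k1 b hb
        refine ⟨q2, q3, ?_, fun m hm => (q4 m hm).le⟩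
        rw [q1]
        intro m hm
        rw [hmU]
        rcases Finset.mem_union.1 (Finset.mem_of_mem_erase hb) with hb' | hb'
        · exact Or.inl ((h.two b hb').2.2.1 hm)
        · exact Or.inr ⟨b, hb', hm⟩
      · intro m
        rw [hsda]
        split_ifs <;> omega
      · obtain ⟨i, j, hij, hsij⟩ := Finset.card_eq_two.1 (hC2 a ha)
        refine ⟨i, j, hij, ?_, ?_⟩
        · rw [hsda, if_pos (by rw [hsij]; exact Finset.mem_insert_self _ _)]
          omega
        · rw [hsda, if_pos (by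
            rw [hsij]
            exact Finset.mem_insert_of_mem (Finset.mem_singleton_self _))]
          omega
    · rw [d_phi_ext hQ, l4_sum (hC1 a ha) (hC2 a ha)]
    · rw [hUB, hA1]
      omega
  · have hind : ind (fun B : Finset (Vtx n d) =>
        (B : Set (Vtx n d)).PairwiseDisjoint (supp Q) ∧ 1 ≤ A.card + B.card) B = 0 :=
      if_neg hgood
    rw [hind, zero_mul]
    exact Ach.zero

/-- without asking, the queue can be used up -/
theorem mst_drain {z : Vtx n d} {x₀ : Fin d → ℕ} {Q' Q : BoxT n d} {A Z T : Finset (Vtx n d)}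
    {U : Finset (Fin d)} (h : Mst z x₀ Q' Q A U Z T) :
    Cst z (fun m => x₀ m + if m ∈ U then 1 else 0) Z T := by
  classical
  have key : ∀ (k : ℕ) (Q : BoxT n d) (A : Finset (Vtx n d)), A.card = k →
      Mst z x₀ Q' Q A U Z T → Cst z (fun m => x₀ m + if m ∈ U then 1 else 0) Z T := by
    intro k
    induction k with
    | zero =>
      intro Q A hA h
      rw [Finset.card_eq_zero] at hA
      subst hA
      refine ⟨Q', Q, h.inv, ?_, ?_, ?_, h.thin, h.grow⟩
      · intro b hb
        exact absurd hb (Finset.notMem_empty b)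
      · intro b hb
        exact absurd (Finset.mem_coe.1 hb) (Finset.notMem_empty b)
      · intro m
        have hs := h.sides m
        simpa using hs
    | succ k ih =>
      intro Q A hA h
      have hQ : Q.1 ≤ Q.2 := le_trans h.inv.mem.1 h.inv.mem.2
      obtain ⟨a, ha⟩ : A.Nonempty := by
        rw [← Finset.card_pos]
        omega
      have hC1 : ∀ b ∈ A, ∀ m, out Q b m ≤ 1 := fun b hb => (h.two b hb).1
      have hC2 : ∀ b ∈ A, (supp Q b).card = 2 := fun b hb => (h.two b hb).2.1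
      obtain ⟨k1, k2, k3⟩ := l4_update (x₀ := x₀) (U := U) hQ ha hC1 hC2 h.dis h.sides
      have hque : Que Q A := ⟨fun b hb => l4_sum (hC1 b hb) (hC2 b hb), h.dis⟩
      obtain ⟨i1, -⟩ := inv_drain h.inv hque ha
      have hsda := l4_sd hQ (hC1 a ha)
      refine ih (ext Q a) (A.erase a) (by rw [Finset.card_erase_of_mem ha]; omega)
        ⟨i1, ?_, k2, k3, ?_, ?_⟩
      · intro b hb
        obtain ⟨q1, q2, q3, q4⟩ := k1 b hb
        have hb' := Finset.mem_of_mem_erase hb
        refine ⟨q2, q3, ?_, ?_⟩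
        · rw [q1]
          exact (h.two b hb').2.2.1
        · intro m hm
          rw [q4 m hm]
          rw [q1] at hm
          exact (h.two b hb').2.2.2 m hm
      · intro m
        rw [hsda]
        split_ifs with hm
        · have := (h.two a ha).2.2.2 m hm
          omega
        · have := h.thin m
          omega
      · obtain ⟨i, j, hij, hi, hj⟩ := h.grow
        refine ⟨i, j, hij, ?_, ?_⟩
        · rw [hsda]
          omega
        · rw [hsda]
          omega
  exact key A.card Q A rfl h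

end Pool.Agent.Lib.MP_8501c9_pr.Wide
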