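import Pool.Agent.Lib.MP_8501c9_pr.Wide.DefsL

/-!
# Choosing several compatible points
-/

set_option autoImplicit false
open Set

namespace Pool.Agent.Lib.MP_8501c9_pr.Wide

/-- double counting: ordered choice of one more point -/
private theorem subsets_step {V D : Type*} [DecidableEq V] [DecidableEq D] (N : Finset V)
    (sp : V → Finset D) (hsp : ∀ b ∈ N, (sp b).card = 2) (U : Finset D) (p : ℝ)
    (H : Finset D → ℝ) (r : ℕ) :
    ((r : ℝ) + 1) * ∑ B ∈ N.powerset with (B.card = r + 1 ∧ (∀ b ∈ B, Disjoint (sp b) U) ∧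
        ∀ b ∈ B, ∀ b' ∈ B, b ≠ b' → Disjoint (sp b) (sp b')),
        p ^ (r + 1) * H (U ∪ B.biUnion sp) =
      ∑ B ∈ N.powerset with (B.card = r ∧ (∀ b ∈ B, Disjoint (sp b) U) ∧
        ∀ b ∈ B, ∀ b' ∈ B, b ≠ b' → Disjoint (sp b) (sp b')),
        p ^ r * ∑ b ∈ N with Disjoint (sp b) (U ∪ B.biUnion sp),
          p * H ((U ∪ B.biUnion sp) ∪ sp b) := by
  have hL : ((r : ℝ) + 1) * ∑ B ∈ N.powerset with (B.card = r + 1 ∧
        (∀ b ∈ B, Disjoint (sp b) U) ∧
        ∀ b ∈ B, ∀ b' ∈ B, b ≠ b' → Disjoint (sp b) (sp b')),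
        p ^ (r + 1) * H (U ∪ B.biUnion sp) =
      ∑ B ∈ N.powerset with (B.card = r + 1 ∧ (∀ b ∈ B, Disjoint (sp b) U) ∧
        ∀ b ∈ B, ∀ b' ∈ B, b ≠ b' → Disjoint (sp b) (sp b')),
        ∑ _b ∈ B, p ^ (r + 1) * H (U ∪ B.biUnion sp) := by
    rw [Finset.mul_sum]
    refine Finset.sum_congr rfl fun B hB => ?_
    rw [Finset.sum_const, (Finset.mem_filter.1 hB).2.1, nsmul_eq_mul]
    push_cast
    ring
  have hR : ∑ B ∈ N.powerset with (B.card = r ∧ (∀ b ∈ B, Disjoint (sp b) U) ∧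
        ∀ b ∈ B, ∀ b' ∈ B, b ≠ b' → Disjoint (sp b) (sp b')),
        p ^ r * ∑ b ∈ N with Disjoint (sp b) (U ∪ B.biUnion sp),
          p * H ((U ∪ B.biUnion sp) ∪ sp b) =
      ∑ B ∈ N.powerset with (B.card = r ∧ (∀ b ∈ B, Disjoint (sp b) U) ∧
        ∀ b ∈ B, ∀ b' ∈ B, b ≠ b' → Disjoint (sp b) (sp b')),
        ∑ b ∈ N with Disjoint (sp b) (U ∪ B.biUnion sp),
          p ^ (r + 1) * H ((U ∪ B.biUnion sp) ∪ sp b) := by
    refine Finset.sum_congr rfl fun B _ => ?_
    rw [Finset.mul_sum]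
    refine Finset.sum_congr rfl fun b _ => ?_
    ring
  rw [hL, hR, Finset.sum_sigma', Finset.sum_sigma']
  refine Finset.sum_bij' (fun q _ => ⟨q.1.erase q.2, q.2⟩) (fun q _ => ⟨insert q.2 q.1, q.2⟩)
    ?_ ?_ ?_ ?_ ?_
  · rintro ⟨B, b⟩ hq
    simp only [Finset.mem_sigma, Finset.mem_filter, Finset.mem_powerset] at hq ⊢
    obtain ⟨⟨hBN, hc, hU, hd⟩, hb⟩ := hq
    refine ⟨⟨(Finset.erase_subset _ _).trans hBN, ?_, ?_, ?_⟩, hBN hb, ?_⟩
    · rw [Finset.card_erase_of_mem hb, hc]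
      rfl
    · intro b' hb'
      exact hU b' (Finset.mem_of_mem_erase hb')
    · intro b' hb' b'' hb'' hne
      exact hd b' (Finset.mem_of_mem_erase hb') b'' (Finset.mem_of_mem_erase hb'') hne
    · rw [Finset.disjoint_union_right]
      refine ⟨hU b hb, ?_⟩
      rw [Finset.disjoint_biUnion_right]
      intro b' hb'
      exact hd b hb b' (Finset.mem_of_mem_erase hb') (Finset.ne_of_mem_erase hb').symm
  · rintro ⟨B, b⟩ hq
    simp only [Finset.mem_sigma, Finset.mem_filter, Finset.mem_powerset] at hq ⊢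
    obtain ⟨⟨hBN, hc, hU, hd⟩, hbN, hbd⟩ := hq
    rw [Finset.disjoint_union_right, Finset.disjoint_biUnion_right] at hbd
    have hbB : b ∉ B := by
      intro hbB
      have h1 := hbd.2 b hbB
      rw [disjoint_self, Finset.bot_eq_empty] at h1
      have h2 := hsp b hbN
      rw [h1] at h2
      simp at h2
    refine ⟨⟨Finset.insert_subset hbN hBN, ?_, ?_, ?_⟩, Finset.mem_insert_self _ _⟩
    · rw [Finset.card_insert_of_notMem hbB, hc]
    · intro b' hb'
      rcases Finset.mem_insert.1 hb' with rfl | hb'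
      · exact hbd.1
      · exact hU b' hb'
    · intro b' hb' b'' hb'' hne
      rcases Finset.mem_insert.1 hb' with hb1 | hb1
      · rcases Finset.mem_insert.1 hb'' with hb2 | hb2
        · exact absurd (hb1.trans hb2.symm) hne
        · rw [hb1]
          exact hbd.2 b'' hb2
      · rcases Finset.mem_insert.1 hb'' with hb2 | hb2
        · rw [hb2]
          exact (hbd.2 b' hb1).symm
        · exact hd b' hb1 b'' hb2 hne
  · rintro ⟨B, b⟩ hq
    simp only [Finset.mem_sigma, Finset.mem_filter, Finset.mem_powerset] at hq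
    simp only [Finset.insert_erase hq.2]
  · rintro ⟨B, b⟩ hq
    simp only [Finset.mem_sigma, Finset.mem_filter, Finset.mem_powerset] at hq
    obtain ⟨⟨hBN, hc, hU, hd⟩, hbN, hbd⟩ := hq
    rw [Finset.disjoint_union_right, Finset.disjoint_biUnion_right] at hbd
    have hbB : b ∉ B := by
      intro hbB
      have h1 := hbd.2 b hbB
      rw [disjoint_self, Finset.bot_eq_empty] at h1
      have h2 := hsp b hbN
      rw [h1] at h2
      simp at h2
    simp only [Finset.erase_insert hbB]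
  · rintro ⟨B, b⟩ hq
    simp only [Finset.mem_sigma, Finset.mem_filter, Finset.mem_powerset] at hq
    have h1 : (U ∪ (B.erase b).biUnion sp) ∪ sp b = U ∪ B.biUnion sp := by
      conv_rhs => rw [← Finset.insert_erase hq.2, Finset.biUnion_insert]
      rw [Finset.union_assoc, Finset.union_comm ((B.erase b).biUnion sp) (sp b)]
    simp only [h1]

/-- choosing several compatible points -/
theorem subsets_sum_ge {V D : Type*} [DecidableEq V] [DecidableEq D] (N : Finset V)
    (sp : V → Finset D) (hsp : ∀ b ∈ N, (sp b).card = 2) (U : Finset D) (p θ : ℝ) (hp : 0 ≤ p)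
    (hθ : 0 ≤ θ) (H : Finset D → ℝ) (hH : ∀ S, 0 ≤ H S) (K : ℕ)
    (h : ∀ U₁, U ⊆ U₁ → U₁.card < U.card + 2 * K →
      θ * H U₁ ≤ ∑ b ∈ N with Disjoint (sp b) U₁, p * H (U₁ ∪ sp b)) :
    ∀ r ≤ K, θ ^ r / (r.factorial : ℝ) * H U ≤
      ∑ B ∈ N.powerset with (B.card = r ∧ (∀ b ∈ B, Disjoint (sp b) U) ∧
        ∀ b ∈ B, ∀ b' ∈ B, b ≠ b' → Disjoint (sp b) (sp b')),
        p ^ r * H (U ∪ B.biUnion sp) := by
  intro r
  induction r with
  | zero =>
    intro _
    have h1 : (N.powerset.filter fun B => B.card = 0 ∧ (∀ b ∈ B, Disjoint (sp b) U) ∧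
        ∀ b ∈ B, ∀ b' ∈ B, b ≠ b' → Disjoint (sp b) (sp b')) = {∅} := by
      ext B
      simp only [Finset.mem_filter, Finset.mem_powerset, Finset.card_eq_zero,
        Finset.mem_singleton]
      constructor
      · rintro ⟨_, h2, _⟩
        exact h2
      · rintro rfl
        simp
    rw [h1]
    simp
  | succ r ih =>
    intro hr
    have h1 := ih (by omega)
    have h2 := subsets_step N sp hsp U p H r
    have h3 : θ * ∑ B ∈ N.powerset with (B.card = r ∧ (∀ b ∈ B, Disjoint (sp b) U) ∧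
        ∀ b ∈ B, ∀ b' ∈ B, b ≠ b' → Disjoint (sp b) (sp b')),
        p ^ r * H (U ∪ B.biUnion sp) ≤
        ∑ B ∈ N.powerset with (B.card = r ∧ (∀ b ∈ B, Disjoint (sp b) U) ∧
        ∀ b ∈ B, ∀ b' ∈ B, b ≠ b' → Disjoint (sp b) (sp b')),
        p ^ r * ∑ b ∈ N with Disjoint (sp b) (U ∪ B.biUnion sp),
          p * H ((U ∪ B.biUnion sp) ∪ sp b) := by
      rw [Finset.mul_sum]
      refine Finset.sum_le_sum fun B hB => ?_
      obtain ⟨hBN, hc, hU, hd⟩ := Finset.mem_filter.1 hB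
      rw [Finset.mem_powerset] at hBN
      have h4 : (U ∪ B.biUnion sp).card < U.card + 2 * K := by
        have h5 : (B.biUnion sp).card ≤ 2 * r := by
          refine le_trans Finset.card_biUnion_le ?_
          rw [Finset.sum_congr rfl fun b hb => hsp b (hBN hb), Finset.sum_const, hc, smul_eq_mul]
          omega
        have h6 := Finset.card_union_le U (B.biUnion sp)
        omega
      have h7 := h _ Finset.subset_union_left h4
      have h8 := mul_le_mul_of_nonneg_left h7 (pow_nonneg hp r)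
      linarith
    have hr1 : (0 : ℝ) < (r : ℝ) + 1 := by positivity
    have hfac : (0 : ℝ) < (r.factorial : ℝ) := by exact_mod_cast r.factorial_pos
    have h9 : θ * (θ ^ r / (r.factorial : ℝ) * H U) ≤
        ((r : ℝ) + 1) * ∑ B ∈ N.powerset with (B.card = r + 1 ∧ (∀ b ∈ B, Disjoint (sp b) U) ∧
        ∀ b ∈ B, ∀ b' ∈ B, b ≠ b' → Disjoint (sp b) (sp b')),
        p ^ (r + 1) * H (U ∪ B.biUnion sp) := by
      rw [h2]
      exact (mul_le_mul_of_nonneg_left h1 hθ).trans h3
    have h10 : θ * (θ ^ r / (r.factorial : ℝ) * H U) =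
        ((r : ℝ) + 1) * (θ ^ (r + 1) / ((r + 1).factorial : ℝ) * H U) := by
      rw [Nat.factorial_succ]
      push_cast
      field_simp
      ring
    rw [h10] at h9
    exact le_of_mul_le_mul_left h9 hr1

end Pool.Agent.Lib.MP_8501c9_pr.Wide
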