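import Pool.Agent.Lib.MP_8501c9_pr.Wide.DefsL
import Pool.Agent.Lib.MP_8501c9_pr.Wide.Tree2
import Pool.Agent.Lib.MP_8501c9_pr.Wide.Corner
import Pool.Agent.Lib.MP_8501c9_pr.Wide.MainStep
import Pool.Agent.Lib.MP_8501c9_pr.Wide.Quota
import Pool.Agent.Lib.MP_8501c9_pr.Wide.Subsets

/-!
# The main part of a window (task L8)
-/

set_option autoImplicit false
open Set

namespace Pool.Agent.Lib.MP_8501c9_pr.Wide

open Pool.Agent.Lib.MP_8501c9_pr Pool.Agent.Lib.MP_8501c9_pr.Mid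

variable {n d : ℕ}

/-! ### elementary inequalities -/

theorem l8_exp_le {p : ℝ} (hp0 : 0 < p) (hp1 : p ≤ 1 / 2) : Real.exp (-(2 * p)) ≤ 1 - p := by
  have h1 : 1 + 2 * p ≤ Real.exp (2 * p) := by
    have := Real.add_one_le_exp (2 * p)
    linarith
  have h2 : 0 < 1 + 2 * p := by linarith
  rw [Real.exp_neg]
  calc (Real.exp (2 * p))⁻¹ ≤ (1 + 2 * p)⁻¹ := inv_anti₀ h2 h1
    _ ≤ 1 - p := by
        rw [inv_eq_one_div, div_le_iff₀ h2]
        nlinarith

theorem l8_pow_ge {p ε : ℝ} (hp0 : 0 < p) (hp1 : p ≤ 1 / 2) (N : ℕ) (h : p * N ≤ ε / 2) :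
    Real.exp (-ε) ≤ (1 - p) ^ N := by
  have h1 : Real.exp (-(2 * p)) ^ N ≤ (1 - p) ^ N :=
    pow_le_pow_left₀ (Real.exp_pos _).le (l8_exp_le hp0 hp1) N
  refine le_trans ?_ h1
  rw [← Real.exp_nat_mul]
  apply Real.exp_le_exp.2
  nlinarith

theorem l8_hst_nonneg {K x y : ℕ} {p v : ℝ} (hp : 0 ≤ p) (hv : 0 ≤ v) (hy : 1 ≤ y) (u : ℕ) :
    0 ≤ hst K x y p v u := by
  unfold hst
  have h1 : (1 : ℝ) ≤ y := by exact_mod_cast hy
  have h2 : (0 : ℝ) ≤ 2 * y - 1 := by linarith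
  positivity

/-! ### the product part of the value -/

/-- the part of the value which depends only on the set of used directions -/
noncomputable def l8H (K x y X : ℕ) (p v : ℝ) (x₀ : Fin d → ℕ) (qu : ℕ → ℕ)
    (S : Finset (Fin d)) : ℝ :=
  WW x₀ qu X S * ∏ i ∈ Finset.range ((qtot qu X - S.card) / 2), hst K x y p v (S.card + 2 * i)

theorem l8H_nonneg {K x y X : ℕ} {p v : ℝ} (hp : 0 ≤ p) (hv : 0 ≤ v) (hy : 1 ≤ y)
    (x₀ : Fin d → ℕ) (qu : ℕ → ℕ) (S : Finset (Fin d)) : 0 ≤ l8H K x y X p v x₀ qu S :=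
  mul_nonneg (WW_nonneg _ _ _ _) (Finset.prod_nonneg (fun _ _ => l8_hst_nonneg hp hv hy _))

theorem l8_vz_eq {K x y X : ℕ} {s : ℕ → ℝ} {ε p v : ℝ} {x₀ : Fin d → ℕ} {qu : ℕ → ℕ} (j : ℕ)
    (U : Finset (Fin d)) : vz K x y X s ε p v x₀ qu j U =
      Real.exp (-(ε * ((qtot qu X : ℝ) + 2 * j - U.card))) * Real.exp j * s j *
        l8H K x y X p v x₀ qu U := by
  unfold vz l8H
  ring

/-- enlarged directions have admissible side lengths -/
theorem l8_mem {x₀ : Fin d → ℕ} {qu : ℕ → ℕ} {X xm x : ℕ} (hX : ∀ m, x₀ m < X)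
    (hqu : ∀ c, qu c ≠ 0 → xm ≤ c ∧ c ≤ x) {U : Finset (Fin d)} (hW : WW x₀ qu X U ≠ 0)
    {m : Fin d} (hm : m ∈ U) : xm ≤ x₀ m ∧ x₀ m ≤ x := by
  have h1 := ((WW_ne_zero hX hW).1 (x₀ m) (hX m)).1
  apply hqu
  have h2 : 0 < cnt x₀ U (x₀ m) := by
    unfold cnt
    exact Finset.card_pos.2 ⟨m, Finset.mem_filter.2 ⟨hm, rfl⟩⟩
  omega

theorem l8_sides_le {z : Vtx n d} {x₀ : Fin d → ℕ} {Q' Q : BoxT n d} {A Z T : Finset (Vtx n d)}
    {U : Finset (Fin d)} (h : Mst z x₀ Q' Q A U Z T) (m : Fin d) :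
    sd Q m ≤ x₀ m + (if m ∈ U then 1 else 0) := by
  have := h.sides m
  omega

theorem l8_sd_le {z : Vtx n d} {x₀ : Fin d → ℕ} {Q' Q : BoxT n d} {A Z T : Finset (Vtx n d)}
    {U : Finset (Fin d)} (h : Mst z x₀ Q' Q A U Z T) {qu : ℕ → ℕ} {X xm x y : ℕ}
    (hX : ∀ m, x₀ m < X) (hqu : ∀ c, qu c ≠ 0 → xm ≤ c ∧ c ≤ x) (hy : ∀ m, x₀ m ≤ y)
    (hxy : x + 1 ≤ y) (hW : WW x₀ qu X U ≠ 0) (m : Fin d) : sd Q m ≤ y := by
  have h1 := l8_sides_le h m
  by_cases hm : m ∈ U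
  · rw [if_pos hm] at h1
    have := (l8_mem hX hqu hW hm).2
    omega
  · rw [if_neg hm] at h1
    have := hy m
    omega

theorem l8_vol_le {z : Vtx n d} {x₀ : Fin d → ℕ} {Q' Q : BoxT n d} {A Z T : Finset (Vtx n d)}
    {U : Finset (Fin d)} (h : Mst z x₀ Q' Q A U Z T) {qu : ℕ → ℕ} {X xm x : ℕ}
    (hX : ∀ m, x₀ m < X) (hqu : ∀ c, qu c ≠ 0 → xm ≤ c ∧ c ≤ x) (hxm0 : 1 ≤ xm)
    (hW : WW x₀ qu X U ≠ 0) :
    vol Q ≤ (∏ m, (x₀ m : ℝ)) * (1 + 1 / (xm : ℝ)) ^ U.card := by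
  have hxm : (0 : ℝ) < xm := by exact_mod_cast hxm0
  have h1 : (∏ m, (x₀ m : ℝ)) * (1 + 1 / (xm : ℝ)) ^ U.card =
      ∏ m, ((x₀ m : ℝ) * (if m ∈ U then (1 + 1 / (xm : ℝ)) else 1)) := by
    rw [Finset.prod_mul_distrib, Finset.prod_ite_mem, Finset.univ_inter, Finset.prod_const]
  rw [h1]
  unfold vol
  refine Finset.prod_le_prod (fun m _ => Nat.cast_nonneg _) (fun m _ => ?_)
  have h2 := l8_sides_le h m
  by_cases hm : m ∈ U
  · rw [if_pos hm] at h2 ⊢
    have h3 := (l8_mem hX hqu hW hm).1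
    have h4 : ((sd Q m : ℕ) : ℝ) ≤ x₀ m + 1 := by exact_mod_cast h2
    have h5 : (xm : ℝ) ≤ x₀ m := by exact_mod_cast h3
    have h6 : (1 : ℝ) ≤ x₀ m * (1 / xm) := by
      rw [mul_one_div, le_div_iff₀ hxm]
      linarith
    calc ((sd Q m : ℕ) : ℝ) ≤ x₀ m + 1 := h4
      _ ≤ x₀ m * (1 + 1 / xm) := by linarith
  · rw [if_neg hm] at h2 ⊢
    have h4 : ((sd Q m : ℕ) : ℝ) ≤ x₀ m := by exact_mod_cast h2
    linarith

theorem l8_card_used {z : Vtx n d} {x₀ : Fin d → ℕ} {Q' Q : BoxT n d}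
    {A Z T : Finset (Vtx n d)} {U : Finset (Fin d)} (h : Mst z x₀ Q' Q A U Z T) :
    (A.biUnion (supp Q)).card = 2 * A.card ∧ A.biUnion (supp Q) ⊆ U := by
  constructor
  · rw [Finset.card_biUnion (fun b hb b' hb' hbb => h.dis hb hb' hbb)]
    rw [Finset.sum_congr rfl (fun b hb => (h.two b hb).2.1)]
    rw [Finset.sum_const, smul_eq_mul, mul_comm]
  · exact Finset.biUnion_subset.2 (fun b hb => (h.two b hb).2.2.1)

theorem l8_vol_ge {z : Vtx n d} {x₀ : Fin d → ℕ} {Q' Q : BoxT n d} {A Z T : Finset (Vtx n d)}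
    {U : Finset (Fin d)} (h : Mst z x₀ Q' Q A U Z T) {qu : ℕ → ℕ} {X xm x : ℕ}
    (hX : ∀ m, x₀ m < X) (hqu : ∀ c, qu c ≠ 0 → xm ≤ c ∧ c ≤ x) (hx0 : 1 ≤ x)
    (hW : WW x₀ qu X U ≠ 0) :
    (∏ m, (x₀ m : ℝ)) * (1 + 1 / (x : ℝ)) ^ (U.card - 2 * A.card) ≤ vol Q := by
  have hx : (0 : ℝ) < x := by exact_mod_cast hx0
  obtain ⟨hc, hsub⟩ := l8_card_used h
  have hcard : (U \ A.biUnion (supp Q)).card = U.card - 2 * A.card := by
    rw [Finset.card_sdiff_of_subset hsub, hc]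
  have h1 : (∏ m, (x₀ m : ℝ)) * (1 + 1 / (x : ℝ)) ^ (U.card - 2 * A.card) =
      ∏ m, ((x₀ m : ℝ) * (if m ∈ U \ A.biUnion (supp Q) then (1 + 1 / (x : ℝ)) else 1)) := by
    rw [Finset.prod_mul_distrib, Finset.prod_ite_mem, Finset.univ_inter, Finset.prod_const, hcard]
  rw [h1]
  unfold vol
  refine Finset.prod_le_prod (fun m _ => ?_) (fun m _ => ?_)
  · split_ifs <;> positivity
  have h2 := h.sides m
  by_cases hm : m ∈ U \ A.biUnion (supp Q)
  · rw [if_pos hm]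
    rw [Finset.mem_sdiff, Finset.mem_biUnion] at hm
    rw [if_pos hm.1, if_neg (fun ⟨b, hb, hbm⟩ => hm.2 ⟨b, hb, hbm⟩)] at h2
    have h3 := (l8_mem hX hqu hW hm.1).2
    have h4 : ((sd Q m : ℕ) : ℝ) = x₀ m + 1 := by exact_mod_cast h2
    have h5 : ((x₀ m : ℕ) : ℝ) ≤ x := by exact_mod_cast h3
    have h6 : x₀ m * (1 / (x : ℝ)) ≤ 1 := by
      rw [mul_one_div, div_le_iff₀ hx]
      linarith
    rw [h4]
    linarith
  · rw [if_neg hm, mul_one]
    have h3 : x₀ m ≤ sd Q m := by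
      rw [Finset.mem_sdiff, Finset.mem_biUnion] at hm
      by_cases hU : m ∈ U
      · rw [if_pos hU] at h2
        split_ifs at h2 with hA
        · omega
        · omega
      · rw [if_neg hU] at h2
        have : ¬ ∃ b ∈ A, m ∈ supp Q b := by
          rintro ⟨b, hb, hbm⟩
          exact hU (hsub (Finset.mem_biUnion.2 ⟨b, hb, hbm⟩))
        rw [if_neg this] at h2
        omega
    exact_mod_cast h3

theorem l8_room {z : Vtx n d} {x₀ : Fin d → ℕ} {Q' Q : BoxT n d} {A Z T : Finset (Vtx n d)}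
    {U : Finset (Fin d)} (h : Mst z x₀ Q' Q A U Z T) {y : ℕ} (hsd : ∀ m, sd Q m ≤ y)
    (hroom : Room (y + 1) z) (i : Fin d) : 1 ≤ (Q.1 i : ℕ) ∧ (Q.2 i : ℕ) + 1 < n := by
  have h1 := hroom i
  have h2 := hsd i
  have h3 : (Q.1 i : ℕ) ≤ z i := h.inv.mem.1 i
  have h4 : (z i : ℕ) ≤ Q.2 i := h.inv.mem.2 i
  unfold sd at h2
  omega

/-! ### the two-step recursion -/

/-- inequality between the value and the sum over the new corner points -/
theorem l8_births {K : ℕ} {p : ℝ} (hp0 : 0 < p) {z : Vtx n d} {x₀ : Fin d → ℕ} {qu : ℕ → ℕ}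
    {X x xm y : ℕ} (hX : ∀ m, x₀ m < X) (hx0 : 1 ≤ x)
    (hqu : ∀ c, qu c ≠ 0 → xm ≤ c ∧ c ≤ x) (hy : ∀ m, x₀ m ≤ y) (hxy : x + 1 ≤ y)
    (hroom : Room (y + 1) z)
    {Q' Q : BoxT n d} {A Z T : Finset (Vtx n d)} {U : Finset (Fin d)}
    (h : Mst z x₀ Q' Q A U Z T) (hW : WW x₀ qu X U ≠ 0) (haK : A.card < K)
    (hq : U.card + 2 * K < qtot qu X) {U₁ : Finset (Fin d)} (hU : U ⊆ U₁)
    (hc : U₁.card < U.card + 2 * (K - A.card)) :
    Real.exp (-1) * l8H K x y X p (∏ m, (x₀ m : ℝ)) x₀ qu U₁ ≤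
      ∑ b ∈ NewU Q' Q U with Disjoint (supp Q b) U₁,
        p * l8H K x y X p (∏ m, (x₀ m : ℝ)) x₀ qu (U₁ ∪ supp Q b) := by
  set v : ℝ := ∏ m, (x₀ m : ℝ) with hv
  have hv0 : 0 ≤ v := Finset.prod_nonneg (fun _ _ => Nat.cast_nonneg _)
  have hy1 : 1 ≤ y := by omega
  have hyR : (1 : ℝ) ≤ y := by exact_mod_cast hy1
  have hxR : (1 : ℝ) ≤ x := by exact_mod_cast hx0
  have hHn : ∀ S, 0 ≤ l8H K x y X p v x₀ qu S := l8H_nonneg hp0.le hv0 hy1 x₀ qu
  have hfil : (NewU Q' Q U).filter (fun b => Disjoint (supp Q b) U₁) = NewU Q' Q U₁ := by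
    ext b
    simp only [NewU, Finset.mem_filter, Finset.mem_univ, true_and]
    constructor
    · rintro ⟨⟨h1, h2, -, h4⟩, h5⟩
      exact ⟨h1, h2, h5, h4⟩
    · rintro ⟨h1, h2, h5, h4⟩
      exact ⟨⟨h1, h2, h5.mono_right (by exact_mod_cast hU), h4⟩, h5⟩
  rw [hfil, ← Finset.mul_sum]
  have hsd := l8_sd_le h hX hqu hy hxy hW
  have hrm := l8_room h hsd hroom
  have hx : ∀ i ∉ U₁, ∀ j ∉ U₁, i ≠ j →
      l8H K x y X p v x₀ qu (insert j (insert i U₁)) ≠ 0 → sd Q i ≤ x ∧ sd Q j ≤ x := by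
    intro i hi j hj hij hne
    have hW1 : WW x₀ qu X (insert j (insert i U₁)) ≠ 0 := left_ne_zero_of_mul hne
    have hi1 := (l8_mem hX hqu hW1 (m := i) (by simp)).2
    have hj1 := (l8_mem hX hqu hW1 (m := j) (by simp)).2
    have hi2 := l8_sides_le h i
    have hj2 := l8_sides_le h j
    rw [if_neg (fun hh => hi (hU hh))] at hi2
    rw [if_neg (fun hh => hj (hU hh))] at hj2
    omega
  have hb := births_low h.inv.le h.inv.sub h.thin hrm U₁ (l8H K x y X p v x₀ qu) hHn x hx0 hx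
  have hU1 : U₁.card + 1 < qtot qu X := by omega
  -- the sum over pairs of directions
  have hsum : ∑ i ∈ U₁ᶜ, ∑ j ∈ (insert i U₁)ᶜ,
      l8H K x y X p v x₀ qu (insert j (insert i U₁)) =
      WW x₀ qu X U₁ * ∏ i ∈ Finset.range ((qtot qu X - (U₁.card + 2)) / 2),
        hst K x y p v (U₁.card + 2 + 2 * i) := by
    rw [← WW_sum2 hX hU1, Finset.sum_mul]
    refine Finset.sum_congr rfl (fun i hi => ?_)
    rw [Finset.sum_mul]
    refine Finset.sum_congr rfl (fun j hj => ?_)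
    have hcj : (insert j (insert i U₁)).card = U₁.card + 2 := by
      rw [Finset.card_insert_of_notMem (Finset.mem_compl.1 hj),
        Finset.card_insert_of_notMem (Finset.mem_compl.1 hi)]
    unfold l8H
    rw [hcj]
  rw [hsum] at hb
  -- the value one step before
  have hH1 : l8H K x y X p v x₀ qu U₁ = hst K x y p v U₁.card *
      (WW x₀ qu X U₁ * ∏ i ∈ Finset.range ((qtot qu X - (U₁.card + 2)) / 2),
        hst K x y p v (U₁.card + 2 + 2 * i)) := by
    unfold l8H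
    have hr : (qtot qu X - U₁.card) / 2 = (qtot qu X - (U₁.card + 2)) / 2 + 1 := by omega
    rw [hr, Finset.prod_range_succ']
    have : ∀ i, U₁.card + 2 * (i + 1) = U₁.card + 2 + 2 * i := fun i => by ring
    simp only [this, mul_zero, add_zero]
    ring
  set P₂ : ℝ := WW x₀ qu X U₁ * ∏ i ∈ Finset.range ((qtot qu X - (U₁.card + 2)) / 2),
        hst K x y p v (U₁.card + 2 + 2 * i) with hP₂
  have hP0 : 0 ≤ P₂ :=
    mul_nonneg (WW_nonneg _ _ _ _) (Finset.prod_nonneg (fun _ _ => l8_hst_nonneg hp0.le hv0 hy1 _))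
  -- volumes
  obtain ⟨i, j, hij, hgi, hgj⟩ := h.grow
  have hvs := vol_sub_ge h.inv.le h.inv.sub hij hgi hgj hsd
  have hvg := l8_vol_ge h hX hqu hx0 hW
  have hpow : (1 + 1 / (x : ℝ)) ^ U₁.card / (1 + 1 / (x : ℝ)) ^ (2 * K) ≤
      (1 + 1 / (x : ℝ)) ^ (U.card - 2 * A.card) := by
    have h1 : (1 : ℝ) ≤ 1 + 1 / (x : ℝ) := by
      have : (0 : ℝ) ≤ 1 / (x : ℝ) := by positivity
      linarith
    rw [div_le_iff₀ (by positivity), ← pow_add]
    apply pow_le_pow_right₀ h1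
    have := (Finset.card_le_card (l8_card_used h).2)
    rw [(l8_card_used h).1] at this
    omega
  have hkey : Real.exp (-1) * hst K x y p v U₁.card ≤
      p * (2 * (vol Q - vol Q') / (x : ℝ) ^ 2) := by
    have h1 : Real.exp (-1) * hst K x y p v U₁.card =
        p * (2 * (v * ((1 + 1 / (x : ℝ)) ^ U₁.card / (1 + 1 / (x : ℝ)) ^ (2 * K)) *
          (2 * y - 1) / (y : ℝ) ^ 2) / (x : ℝ) ^ 2) := by
      unfold hst
      have he : Real.exp (-1) * Real.exp 1 = 1 := by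
        rw [← Real.exp_add]; simp
      have : Real.exp (-1) * (2 * Real.exp 1 * p * v * (1 + 1 / (x : ℝ)) ^ U₁.card /
          (1 + 1 / (x : ℝ)) ^ (2 * K) * (2 * y - 1) / ((y : ℝ) ^ 2 * (x : ℝ) ^ 2)) =
          (Real.exp (-1) * Real.exp 1) * (2 * p * v * (1 + 1 / (x : ℝ)) ^ U₁.card /
          (1 + 1 / (x : ℝ)) ^ (2 * K) * (2 * y - 1) / ((y : ℝ) ^ 2 * (x : ℝ) ^ 2)) := by
        ring
      rw [this, he]
      have hy0 : (y : ℝ) ≠ 0 := by positivity
      have hx0' : (x : ℝ) ≠ 0 := by positivity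
      field_simp
    rw [h1]
    apply mul_le_mul_of_nonneg_left _ hp0.le
    apply div_le_div_of_nonneg_right _ (by positivity)
    apply mul_le_mul_of_nonneg_left _ (by norm_num)
    refine le_trans ?_ hvs
    apply div_le_div_of_nonneg_right _ (by positivity)
    apply mul_le_mul_of_nonneg_right _ (by linarith)
    exact le_trans (mul_le_mul_of_nonneg_left hpow hv0) hvg
  calc Real.exp (-1) * l8H K x y X p v x₀ qu U₁
      = Real.exp (-1) * hst K x y p v U₁.card * P₂ := by rw [hH1]; ring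
    _ ≤ p * (2 * (vol Q - vol Q') / (x : ℝ) ^ 2) * P₂ := mul_le_mul_of_nonneg_right hkey hP0
    _ = p * (2 * (vol Q - vol Q') / (x : ℝ) ^ 2 * P₂) := by ring
    _ ≤ p * ∑ b ∈ NewU Q' Q U₁, l8H K x y X p v x₀ qu (U₁ ∪ supp Q b) :=
        mul_le_mul_of_nonneg_left hb hp0.le

/-! ### summation over the found sets -/

theorem l8_abs {V D : Type*} [DecidableEq V] [DecidableEq D] {N : Finset V} {sp : V → Finset D}
    {U : Finset D} (hsp : ∀ b ∈ N, (sp b).card = 2)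
    {K a : ℕ} {s : ℕ → ℝ} {ε : ℝ} (hs : SW K s ε) (ha : a < K) (qt : ℝ) {p : ℝ} (hp0 : 0 < p)
    (hp1 : p ≤ 1 / 2) (hN : p * N.card ≤ ε / 2) {H : Finset D → ℝ} (hH : ∀ S, 0 ≤ H S)
    (hP : ∀ U₁, U ⊆ U₁ → U₁.card < U.card + 2 * (K - a) →
      Real.exp (-1) * H U₁ ≤ ∑ b ∈ N with Disjoint (sp b) U₁, p * H (U₁ ∪ sp b)) :
    Real.exp (-(ε * (qt + 2 * a - U.card))) * Real.exp a * s a * H U ≤
      ∑ B ∈ N.powerset, p ^ B.card * (1 - p) ^ (N.card - B.card) *
        (ind (fun B : Finset V => (B : Set V).PairwiseDisjoint sp ∧ 1 ≤ a + B.card) B *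
          (Real.exp (-(ε * (qt + 2 * ((a + B.card - 1 : ℕ) : ℝ) -
            (U ∪ B.biUnion sp).card))) * Real.exp ((a + B.card - 1 : ℕ) : ℝ) *
            s (a + B.card - 1) * H (U ∪ B.biUnion sp))) := by
  classical
  have h1p : 0 ≤ 1 - p := by linarith
  set f : Finset V → ℝ := fun B => p ^ B.card * (1 - p) ^ (N.card - B.card) *
        (ind (fun B : Finset V => (B : Set V).PairwiseDisjoint sp ∧ 1 ≤ a + B.card) B *
          (Real.exp (-(ε * (qt + 2 * ((a + B.card - 1 : ℕ) : ℝ) -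
            (U ∪ B.biUnion sp).card))) * Real.exp ((a + B.card - 1 : ℕ) : ℝ) *
            s (a + B.card - 1) * H (U ∪ B.biUnion sp))) with hf
  have hf0 : ∀ B, 0 ≤ f B := by
    intro B
    have h1 : (0 : ℝ) ≤ ind (fun B : Finset V => (B : Set V).PairwiseDisjoint sp ∧
        1 ≤ a + B.card) B := by
      unfold ind; split_ifs <;> norm_num
    have h2 := hs.nonneg (a + B.card - 1)
    have h3 := hH (U ∪ B.biUnion sp)
    simp only [hf]
    positivity
  set F : ℕ → Finset (Finset V) := fun r => N.powerset.filter (fun B =>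
    B.card = r ∧ (∀ b ∈ B, Disjoint (sp b) U) ∧
        ∀ b ∈ B, ∀ b' ∈ B, b ≠ b' → Disjoint (sp b) (sp b')) with hF
  have hstep1 : ∑ r ∈ Finset.range (K + 1 - a), ∑ B ∈ F r, f B ≤ ∑ B ∈ N.powerset, f B := by
    rw [← Finset.sum_biUnion]
    · apply Finset.sum_le_sum_of_subset_of_nonneg
      · intro B hB
        rw [Finset.mem_biUnion] at hB
        obtain ⟨r, -, hB⟩ := hB
        exact (Finset.mem_filter.1 hB).1
      · intro B _ _
        exact hf0 B
    · intro r _ r' _ hrr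
      rw [Function.onFun, Finset.disjoint_left]
      intro B hB hB'
      exact hrr ((Finset.mem_filter.1 hB).2.1.symm.trans (Finset.mem_filter.1 hB').2.1)
  have hpow : Real.exp (-ε) ≤ (1 - p) ^ N.card := l8_pow_ge hp0 hp1 _ hN
  set c : ℝ := Real.exp (-(ε * (qt + 2 * a - U.card))) * Real.exp ε * Real.exp (a - 1) * H U
    with hc
  have hc0 : 0 ≤ c := by
    have := hH U
    simp only [hc]
    positivity
  have hstep2 : ∀ r ∈ Finset.range (K + 1 - a),
      c * ((if 1 ≤ a + r then s (a + r - 1) else 0) / (r.factorial : ℝ)) ≤ ∑ B ∈ F r, f B := by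
    intro r hr
    rw [Finset.mem_range] at hr
    by_cases har : 1 ≤ a + r
    · rw [if_pos har]
      have hsub := subsets_sum_ge N sp hsp U p (Real.exp (-1)) hp0.le (Real.exp_pos _).le H hH
        (K - a) hP r (by omega)
      have hterm : ∀ B ∈ F r, Real.exp (-ε) * Real.exp (-(ε * (qt + 2 * a - U.card)) + 2 * ε) *
          Real.exp (a + r - 1) * s (a + r - 1) * (p ^ r * H (U ∪ B.biUnion sp)) ≤ f B := by
        intro B hB
        obtain ⟨hBN, hBr, hBU, hBB⟩ := Finset.mem_filter.1 hB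
        rw [Finset.mem_powerset] at hBN
        have hcard : (U ∪ B.biUnion sp).card = U.card + 2 * r := by
          rw [Finset.card_union_of_disjoint, Finset.card_biUnion hBB,
            Finset.sum_congr rfl (fun b hb => hsp b (hBN hb)), Finset.sum_const, smul_eq_mul, hBr,
            mul_comm]
          rw [Finset.disjoint_biUnion_right]
          intro b hb
          exact (hBU b hb).symm
        have hind : ind (fun B : Finset V => (B : Set V).PairwiseDisjoint sp ∧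
            1 ≤ a + B.card) B = 1 := by
          unfold ind
          rw [if_pos]
          refine ⟨?_, by rw [hBr]; exact har⟩
          intro b hb b' hb' hbb
          exact hBB b hb b' hb' hbb
        have hcast : ((a + r - 1 : ℕ) : ℝ) = a + r - 1 := by
          rw [Nat.cast_sub har]; push_cast; ring
        have hfB : f B = p ^ r * (1 - p) ^ (N.card - r) *
            (Real.exp (-(ε * (qt + 2 * a - U.card)) + 2 * ε) * Real.exp (a + r - 1) *
              s (a + r - 1) * H (U ∪ B.biUnion sp)) := by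
          simp only [hf]
          rw [hind, hBr, hcard, hcast, one_mul]
          have : -(ε * (qt + 2 * ((a : ℝ) + r - 1) - ((U.card + 2 * r : ℕ) : ℝ))) =
              -(ε * (qt + 2 * a - U.card)) + 2 * ε := by
            push_cast; ring
          rw [this]
        rw [hfB]
        have hp' : Real.exp (-ε) ≤ (1 - p) ^ (N.card - r) :=
          le_trans hpow (pow_le_pow_of_le_one h1p (by linarith) (Nat.sub_le _ _))
        have h2 := hs.nonneg (a + r - 1)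
        have h3 := hH (U ∪ B.biUnion sp)
        have h4 : 0 ≤ p ^ r * (Real.exp (-(ε * (qt + 2 * a - U.card)) + 2 * ε) *
            Real.exp (a + r - 1) * s (a + r - 1) * H (U ∪ B.biUnion sp)) := by positivity
        nlinarith [mul_le_mul_of_nonneg_right hp' h4]
      refine le_trans ?_ (Finset.sum_le_sum hterm)
      rw [← Finset.mul_sum]
      have h2 := hs.nonneg (a + r - 1)
      have h5 : 0 ≤ Real.exp (-ε) * Real.exp (-(ε * (qt + 2 * a - U.card)) + 2 * ε) *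
          Real.exp (a + r - 1) * s (a + r - 1) := by positivity
      refine le_trans (le_of_eq ?_) (mul_le_mul_of_nonneg_left hsub h5)
      have he : Real.exp ε * Real.exp ((a : ℝ) - 1) =
          Real.exp (-ε) * Real.exp (2 * ε) * (Real.exp ((a : ℝ) + r - 1) * Real.exp (-1) ^ r) := by
        rw [← Real.exp_nat_mul, ← Real.exp_add, ← Real.exp_add, ← Real.exp_add, ← Real.exp_add]
        congr 1
        ring
      have he2 : Real.exp (-(ε * (qt + 2 * a - U.card)) + 2 * ε) =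
          Real.exp (-(ε * (qt + 2 * a - U.card))) * Real.exp (2 * ε) := Real.exp_add _ _
      rw [hc, he2]
      calc Real.exp (-(ε * (qt + 2 * a - U.card))) * Real.exp ε * Real.exp ((a : ℝ) - 1) * H U *
          (s (a + r - 1) / (r.factorial : ℝ))
          = Real.exp (-(ε * (qt + 2 * a - U.card))) * (Real.exp ε * Real.exp ((a : ℝ) - 1)) *
            H U * (s (a + r - 1) / (r.factorial : ℝ)) := by ring
        _ = _ := by rw [he]; ring
    · rw [if_neg har, zero_div, mul_zero]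
      exact Finset.sum_nonneg (fun B _ => hf0 B)
  have hsum := hs.sum a ha
  calc Real.exp (-(ε * (qt + 2 * a - U.card))) * Real.exp a * s a * H U
      = c * (Real.exp (1 - ε) * s a) := by
        have he : Real.exp (a : ℝ) = Real.exp ε * Real.exp ((a : ℝ) - 1) * Real.exp (1 - ε) := by
          rw [← Real.exp_add, ← Real.exp_add]
          congr 1
          ring
        rw [hc, he]
        ring
    _ ≤ c * ∑ r ∈ Finset.range (K + 1 - a),
          (if 1 ≤ a + r then s (a + r - 1) else 0) / (r.factorial : ℝ) :=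
        mul_le_mul_of_nonneg_left hsum hc0
    _ = ∑ r ∈ Finset.range (K + 1 - a),
          c * ((if 1 ≤ a + r then s (a + r - 1) else 0) / (r.factorial : ℝ)) := Finset.mul_sum _ _ _
    _ ≤ ∑ r ∈ Finset.range (K + 1 - a), ∑ B ∈ F r, f B := Finset.sum_le_sum hstep2
    _ ≤ ∑ B ∈ N.powerset, f B := hstep1

/-! ### the main part of a window -/

theorem l8_vz_nonneg {K : ℕ} {s : ℕ → ℝ} {ε : ℝ} (hs : SW K s ε) {p v : ℝ} (hp : 0 ≤ p)
    (hv : 0 ≤ v) {x y X : ℕ} (hy : 1 ≤ y) (x₀ : Fin d → ℕ) (qu : ℕ → ℕ) (j : ℕ)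
    (S : Finset (Fin d)) : 0 ≤ vz K x y X s ε p v x₀ qu j S := by
  rw [l8_vz_eq]
  have h1 := hs.nonneg j
  have h2 := l8H_nonneg (K := K) (x := x) (X := X) hp hv hy x₀ qu S
  positivity

/-- the main part of a window -/
theorem ach_zone {K : ℕ} {s : ℕ → ℝ} {ε : ℝ} (hs : SW K s ε) (hε0 : 0 < ε) {p : ℝ}
    (hp0 : 0 < p) (hp1 : p ≤ 1 / 2) {z : Vtx n d} {x₀ : Fin d → ℕ} {qu : ℕ → ℕ}
    {X x xm y : ℕ} (hX : ∀ m, x₀ m < X) (hxm0 : 1 ≤ xm) (hxmx : xm ≤ x)
    (hqu : ∀ c, qu c ≠ 0 → xm ≤ c ∧ c ≤ x) (hy : ∀ m, x₀ m ≤ y) (hxy : x + 1 ≤ y)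
    (hroom : Room (y + 1) z) (hev : Even (qtot qu X))
    (hV : p * (2 * (d : ℝ) ^ 2 * ((∏ m, (x₀ m : ℝ)) * (1 + 1 / (xm : ℝ)) ^ qtot qu X)) ≤ ε / 2)
    {g : Finset (Vtx n d) → ℝ} {C₁ : ℝ} (hC : 0 ≤ C₁)
    (hend : ∀ Q' Q A U Z T, Mst z x₀ Q' Q A U Z T → WW x₀ qu X U ≠ 0 → Even U.card →
      qtot qu X ≤ U.card + 2 * K → A.card < K →
      Ach p g Z T (C₁ * vz K x y X s ε p (∏ m, (x₀ m : ℝ)) x₀ qu A.card U))
    {Q' Q : BoxT n d} {A Z T : Finset (Vtx n d)} {U : Finset (Fin d)}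
    (h : Mst z x₀ Q' Q A U Z T) (hU : Even U.card) :
    Ach p g Z T (C₁ * vz K x y X s ε p (∏ m, (x₀ m : ℝ)) x₀ qu A.card U) := by
  have hv0 : 0 ≤ ∏ m, (x₀ m : ℝ) := Finset.prod_nonneg (fun _ _ => Nat.cast_nonneg _)
  have hy1 : 1 ≤ y := by omega
  have hx0 : 1 ≤ x := by omega
  -- strong induction
  suffices hmain : ∀ k : ℕ, ∀ (Q' Q : BoxT n d) (A Z T : Finset (Vtx n d)) (U : Finset (Fin d)),
      Mst z x₀ Q' Q A U Z T → Even U.card → qtot qu X + 2 * A.card - U.card = k →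
      Ach p g Z T (C₁ * vz K x y X s ε p (∏ m, (x₀ m : ℝ)) x₀ qu A.card U) from
    hmain _ Q' Q A Z T U h hU rfl
  intro k
  induction k using Nat.strong_induction_on with
  | _ k ih =>
  intro Q' Q A Z T U h hU hk
  by_cases hW : WW x₀ qu X U = 0
  · have : C₁ * vz K x y X s ε p (∏ m, (x₀ m : ℝ)) x₀ qu A.card U = 0 := by
      unfold vz; rw [hW]; ring
    rw [this]
    exact Ach.zero
  by_cases haK : K ≤ A.card
  · have : C₁ * vz K x y X s ε p (∏ m, (x₀ m : ℝ)) x₀ qu A.card U = 0 := by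
      unfold vz; rw [hs.zero _ haK]; ring
    rw [this]
    exact Ach.zero
  push Not at haK
  by_cases hq : qtot qu X ≤ U.card + 2 * K
  · exact hend Q' Q A U Z T h hW hU hq haK
  push Not at hq
  have hstep := ach_main_step hp0.le (by linarith) (g := g) h
    (fun j S => C₁ * vz K x y X s ε p (∏ m, (x₀ m : ℝ)) x₀ qu j S)
    (fun j S => mul_nonneg hC (l8_vz_nonneg hs hp0.le hv0 hy1 x₀ qu j S))
    (by
      intro Q₁ A₁ U₁ Z₁ T₁ h₁ _ hcard
      have hU₁ : Even U₁.card := by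
        rw [Nat.even_iff] at hU ⊢
        omega
      exact ih _ (by omega) Q Q₁ A₁ Z₁ T₁ U₁ h₁ hU₁ rfl)
  refine hstep.mono ?_
  -- the size of the asked set
  have hQle : Q.1 ≤ Q.2 := le_trans h.inv.mem.1 h.inv.mem.2
  have hNc := card_NewU_le hQle Q' U
  have hvol := l8_vol_le h hX hqu hxm0 hW
  have hUq : U.card ≤ qtot qu X := (WW_ne_zero hX hW).2
  have hN : p * ((NewU Q' Q U).card : ℝ) ≤ ε / 2 := by
    refine le_trans ?_ hV
    apply mul_le_mul_of_nonneg_left _ hp0.le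
    refine le_trans hNc ?_
    apply mul_le_mul_of_nonneg_left _ (by positivity)
    refine le_trans hvol ?_
    apply mul_le_mul_of_nonneg_left _ hv0
    apply pow_le_pow_right₀ _ hUq
    have : (0 : ℝ) ≤ 1 / (xm : ℝ) := by positivity
    linarith
  have habs := l8_abs (N := NewU Q' Q U) (sp := supp Q) (U := U)
    (fun b hb => by
      simp only [NewU, Finset.mem_filter, Finset.mem_univ, true_and] at hb
      exact hb.2.1)
    hs haK (qtot qu X : ℝ) hp0 hp1 hN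
    (H := l8H K x y X p (∏ m, (x₀ m : ℝ)) x₀ qu)
    (l8H_nonneg hp0.le hv0 hy1 x₀ qu)
    (fun U₁ hU₁ hc => l8_births hp0 hX hx0 hqu hy hxy hroom h hW haK hq hU₁ hc)
  calc C₁ * vz K x y X s ε p (∏ m, (x₀ m : ℝ)) x₀ qu A.card U
      = C₁ * (Real.exp (-(ε * ((qtot qu X : ℝ) + 2 * A.card - U.card))) * Real.exp A.card *
          s A.card * l8H K x y X p (∏ m, (x₀ m : ℝ)) x₀ qu U) := by rw [l8_vz_eq]
    _ ≤ C₁ * _ := mul_le_mul_of_nonneg_left habs hC
    _ = _ := by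
        rw [Finset.mul_sum]
        refine Finset.sum_congr rfl (fun B _ => ?_)
        simp only [l8_vz_eq]
        ring

end Pool.Agent.Lib.MP_8501c9_pr.Wide
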