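import Pool.Agent.Lib.MP_8501c9_pr.Wide.MainStep
import Pool.Agent.Lib.MP_8501c9_pr.Wide.Quota
import Pool.Agent.Lib.MP_8501c9_pr.Wide.Zone
import Pool.Agent.Lib.MP_8501c9_pr.Wide.Pairs

set_option autoImplicit false
open Set

/-!
# Assembly of a window
-/

namespace Pool.Agent.Lib.MP_8501c9_pr.Wide

open Pool.Agent.Lib.MP_8501c9_pr Pool.Agent.Lib.MP_8501c9_pr.Mid

variable {n d : ℕ}

/-- cardinality as a sum over the values -/
theorem l10_card {x₀ : Fin d → ℕ} {X : ℕ} (hX : ∀ m, x₀ m < X) (U : Finset (Fin d)) :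
    ∑ c ∈ Finset.range X, cnt x₀ U c = U.card := by
  unfold cnt
  exact (Finset.card_eq_sum_card_fiberwise (fun m _ => Finset.mem_coe.mpr
    (Finset.mem_range.mpr (hX m)))).symm

/-- completing the set `U` -/
theorem l10_exists {x₀ : Fin d → ℕ} {X : ℕ} {qu : ℕ → ℕ} {U : Finset (Fin d)}
    (h : ∀ c < X, cnt x₀ U c ≤ qu c ∧ qu c - cnt x₀ U c ≤ cnt x₀ Uᶜ c) :
    ∃ G : Finset (Fin d), Disjoint U G ∧ (∀ m ∈ G, x₀ m < X) ∧
      ∀ c < X, cnt x₀ G c = qu c - cnt x₀ U c := by
  have h1 : ∀ c : ℕ, ∃ G : Finset (Fin d), c < X → G ⊆ Uᶜ.filter (fun m => x₀ m = c) ∧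
      G.card = qu c - cnt x₀ U c := by
    intro c
    by_cases hc : c < X
    · obtain ⟨G, hG, hGc⟩ := Finset.exists_subset_card_eq (h c hc).2
      exact ⟨G, fun _ => ⟨hG, hGc⟩⟩
    · exact ⟨∅, fun h => absurd h hc⟩
  choose G hG using h1
  refine ⟨(Finset.range X).biUnion G, ?_, ?_, ?_⟩
  · rw [Finset.disjoint_biUnion_right]
    intro c hc
    rw [Finset.disjoint_right]
    intro m hm
    have h2 := (hG c (Finset.mem_range.mp hc)).1 hm
    rw [Finset.mem_filter, Finset.mem_compl] at h2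
    exact h2.1
  · intro m hm
    obtain ⟨c, hc, hmc⟩ := Finset.mem_biUnion.mp hm
    have hc' := Finset.mem_range.mp hc
    have h2 := (hG c hc').1 hmc
    rw [Finset.mem_filter] at h2
    rw [h2.2]
    exact hc'
  · intro c hc
    rw [← (hG c hc).2]
    unfold cnt
    congr 1
    ext m
    rw [Finset.mem_filter, Finset.mem_biUnion]
    constructor
    · rintro ⟨⟨c', hc', hm⟩, hmc⟩
      have h2 := (hG c' (Finset.mem_range.mp hc')).1 hm
      rw [Finset.mem_filter] at h2
      have h3 : c' = c := by rw [← h2.2, hmc]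
      rwa [h3] at hm
    · intro hm
      have h2 := (hG c hc).1 hm
      rw [Finset.mem_filter] at h2
      exact ⟨⟨c, Finset.mem_range.mpr hc, hm⟩, h2.2⟩

/-- one factor -/
theorem l10_factor {K x y u : ℕ} {p V W : ℝ} (hp0 : 0 < p) (hx : 1 ≤ x) (hxy : x + 1 ≤ y)
    (hV0 : 0 ≤ V) (hW : V * (1 + 1 / (x : ℝ)) ^ u ≤ W)
    (h4 : 4 * p * (V * (1 + 1 / (x : ℝ)) ^ u) ≤ 1) :
    hst K x y p V u ≤ 2 * Real.exp 1 * (y : ℝ) ^ 2 * fch p W y := by
  set Q := V * (1 + 1 / (x : ℝ)) ^ u with hQ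
  have hx1 : (1 : ℝ) ≤ x := by exact_mod_cast hx
  have hy1 : (1 : ℝ) ≤ y := by
    have : 1 ≤ y := by omega
    exact_mod_cast this
  have hQ0 : 0 ≤ Q := by positivity
  have hy3 : (1 : ℝ) ≤ (y : ℝ) ^ 3 := one_le_pow₀ hy1
  set t : ℝ := 4 * p * Q / (y : ℝ) ^ 3 with ht
  have ht0 : 0 ≤ t := by positivity
  have ht1 : t ≤ 1 := by
    rw [ht, div_le_one (by positivity)]
    linarith
  have hexp : t / 2 ≤ 1 - Real.exp (-t) := by
    have h2 : Real.exp (-t) ≤ 1 / (1 + t) := by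
      rw [Real.exp_neg, ← one_div]
      apply one_div_le_one_div_of_le (by linarith)
      have := Real.add_one_le_exp t
      linarith
    have h3 : 1 / (1 + t) ≤ 1 - t / 2 := by
      rw [div_le_iff₀ (by linarith)]
      nlinarith
    linarith
  have hmono : t / 2 ≤ fch p W y := by
    unfold fch
    have h1 : Real.exp (-(4 * p * W / (y : ℝ) ^ 3)) ≤ Real.exp (-t) := by
      apply Real.exp_le_exp.mpr
      rw [ht, neg_le_neg_iff]
      apply div_le_div_of_nonneg_right _ (by positivity)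
      exact mul_le_mul_of_nonneg_left hW (by positivity)
    linarith
  have hpos : (0 : ℝ) ≤ 2 * Real.exp 1 * (y : ℝ) ^ 2 := by positivity
  refine le_trans ?_ (mul_le_mul_of_nonneg_left hmono hpos)
  have hR : 2 * Real.exp 1 * (y : ℝ) ^ 2 * (t / 2) = 4 * Real.exp 1 * p * Q / y := by
    rw [ht]
    field_simp
  rw [hR]
  unfold hst
  have hK : (1 : ℝ) ≤ (1 + 1 / (x : ℝ)) ^ (2 * K) := by
    apply one_le_pow₀
    have : (0 : ℝ) ≤ 1 / (x : ℝ) := by positivity
    linarith
  have hq : 2 * Real.exp 1 * p * V * (1 + 1 / (x : ℝ)) ^ u / (1 + 1 / (x : ℝ)) ^ (2 * K) *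
      (2 * y - 1) / ((y : ℝ) ^ 2 * (x : ℝ) ^ 2) =
      (2 * Real.exp 1 * p * Q) / (1 + 1 / (x : ℝ)) ^ (2 * K) *
      ((2 * y - 1) / ((y : ℝ) ^ 2 * (x : ℝ) ^ 2)) := by
    rw [hQ]
    ring
  rw [hq]
  have h5 : (2 * Real.exp 1 * p * Q) / (1 + 1 / (x : ℝ)) ^ (2 * K) ≤ 2 * Real.exp 1 * p * Q :=
    div_le_self (by positivity) hK
  have h6 : (2 * (y : ℝ) - 1) / ((y : ℝ) ^ 2 * (x : ℝ) ^ 2) ≤ 2 / y := by
    rw [div_le_div_iff₀ (by positivity) (by positivity)]
    have hx2 : (1 : ℝ) ≤ (x : ℝ) ^ 2 := one_le_pow₀ hx1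
    have : (y : ℝ) ^ 2 ≤ (y : ℝ) ^ 2 * (x : ℝ) ^ 2 := le_mul_of_one_le_right (by positivity) hx2
    nlinarith
  have h7 : (0 : ℝ) ≤ (2 * (y : ℝ) - 1) / ((y : ℝ) ^ 2 * (x : ℝ) ^ 2) := by
    apply div_nonneg (by linarith) (by positivity)
  calc _ ≤ (2 * Real.exp 1 * p * Q) * (2 / y) :=
        mul_le_mul h5 h6 h7 (by positivity)
    _ = _ := by ring

/-- a whole window -/
theorem reach_window {K : ℕ} {s : ℕ → ℝ} {ε : ℝ} (hs : SW K s ε) (hε0 : 0 < ε) (hε1 : ε ≤ 1)
    {p : ℝ} (hp0 : 0 < p) (hp1 : p ≤ 1 / 2) {z : Vtx n d} {x₀ : Fin d → ℕ} {qu : ℕ → ℕ}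
    {X x xm y : ℕ} (hd : 1 ≤ d) (hX : ∀ m, x₀ m < X) (hx1 : ∀ m, 1 ≤ x₀ m) (hxm0 : 1 ≤ xm)
    (hxmx : xm ≤ x)
    (hqu : ∀ c, qu c ≠ 0 → xm ≤ c ∧ c ≤ x) (hy : ∀ m, x₀ m ≤ y) (hxy : x + 1 ≤ y)
    (hroom : Room (y + 1) z) (hev : Even (qtot qu X))
    (hV : p * (2 * (d : ℝ) ^ 2 * ((∏ m, (x₀ m : ℝ)) * (1 + 1 / (xm : ℝ)) ^ qtot qu X)) ≤ ε / 2) :
    Reach p z (fun x' => x' = x₀)
      (fun x' => ∃ U : Finset (Fin d), (∀ c < X, cnt x₀ U c = qu c) ∧
        x' = fun m => x₀ m + if m ∈ U then 1 else 0)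
      (s 0 * (4 * (d : ℝ) * y)⁻¹ ^ (2 * K) * Real.exp (-(ε * qtot qu X)) * WW x₀ qu X ∅ *
        ∏ i ∈ Finset.range (qtot qu X / 2), hst K x y p (∏ m, (x₀ m : ℝ)) (2 * i)) := by
  intro g v hv hfin x' Z T hx' hC
  have hx'0 : x' = x₀ := hx'
  subst hx'0
  obtain ⟨Q', Q, hM⟩ := hC
  have hx1' : 1 ≤ x := hxm0.trans hxmx
  have hy1 : (1 : ℝ) ≤ y := by
    have : 1 ≤ y := by omega
    exact_mod_cast this
  have hd1 : (1 : ℝ) ≤ d := by exact_mod_cast hd
  set V : ℝ := ∏ m, (x' m : ℝ) with hVdef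
  have hV0 : 0 ≤ V := Finset.prod_nonneg fun m _ => Nat.cast_nonneg _
  set C₁ : ℝ := (4 * (d : ℝ) * y)⁻¹ ^ (2 * K) * v with hC₁
  have hC0 : 0 ≤ C₁ := by positivity
  have hbig : (0 : ℝ) < 4 * (d : ℝ) * y := by positivity
  -- the end of a window
  have hend : ∀ Q' Q A U Z T, Mst z x' Q' Q A U Z T → WW x' qu X U ≠ 0 → Even U.card →
      qtot qu X ≤ U.card + 2 * K → A.card < K →
      Ach p g Z T (C₁ * vz K x y X s ε p V x' qu A.card U) := by
    intro Q' Q A U Z T h hW hUe hUK hAK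
    obtain ⟨hW1, hW2⟩ := WW_ne_zero hX hW
    obtain ⟨G, hUG, hGX, hGc⟩ := l10_exists hW1
    have hcU : ∀ m ∈ U, qu (x' m) ≠ 0 := by
      intro m hm h0
      have h1 := (hW1 (x' m) (hX m)).1
      rw [h0] at h1
      have h2 : 0 < cnt x' U (x' m) := Finset.card_pos.mpr ⟨m, by simp [hm]⟩
      omega
    have hcG : ∀ m ∈ G, qu (x' m) ≠ 0 := by
      intro m hm h0
      have h1 := hGc (x' m) (hX m)
      rw [h0] at h1
      have h2 : 0 < cnt x' G (x' m) := Finset.card_pos.mpr ⟨m, by simp [hm]⟩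
      omega
    have hGcard : G.card = qtot qu X - U.card := by
      rw [← l10_card hX G, ← l10_card hX U, qtot, ← Finset.sum_tsub_distrib]
      · exact Finset.sum_congr rfl fun c hc => hGc c (Finset.mem_range.mp hc)
      · intro c hc
        exact (hW1 c (Finset.mem_range.mp hc)).1
    have hGe : Even G.card := by
      rw [hGcard]
      exact (Nat.even_sub hW2).mpr ⟨fun _ => hUe, fun _ => hev⟩
    have hdr := mst_drain h
    set x₁ : Fin d → ℕ := fun m => x' m + if m ∈ U then 1 else 0 with hx₁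
    have hGU : ∀ m ∈ G, m ∉ U := fun m hm hmU => (Finset.disjoint_left.mp hUG hmU) hm
    have hre := reach_pairs (z := z) (x₀ := x₁) (x := x) (y := y) hp0.le (by linarith : p ≤ 1) G hGe
      (by
        intro m hm
        rw [hx₁]
        simp only [hGU m hm, if_false, add_zero]
        exact (hqu _ (hcG m hm)).2)
      (by
        intro m
        exact (hx1 m).trans (Nat.le_add_right _ _)) hx1'
      (by
        intro m
        rw [hx₁]
        by_cases hm : m ∈ U
        · simp only [hm, if_true]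
          have := (hqu _ (hcU m hm)).2
          omega
        · simp only [hm, if_false, add_zero]
          exact hy m) hxy hroom
    have hfinal := hre g v hv (by
      intro x'' Z' T' hx'' hC'
      refine hfin x'' Z' T' ⟨U ∪ G, ?_, ?_⟩ hC'
      · intro c hc
        have h1 : cnt x' (U ∪ G) c = cnt x' U c + cnt x' G c := by
          unfold cnt
          rw [Finset.filter_union, Finset.card_union_of_disjoint]
          exact Finset.disjoint_filter_filter hUG
        rw [h1, hGc c hc]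
        have := (hW1 c hc).1
        omega
      · rw [hx'']
        funext m
        rw [hx₁]
        by_cases hmU : m ∈ U
        · have hmG : m ∉ G := Finset.disjoint_left.mp hUG hmU
          simp [hmU, hmG]
        · by_cases hmG : m ∈ G
          · simp [hmU, hmG]
          · simp [hmU, hmG]) x₁ Z T rfl hdr
    refine hfinal.mono ?_
    -- comparison of the values
    set θ := ∏ i ∈ Finset.range (G.card / 2),
      fch p ((∏ m, (x₁ m : ℝ)) * (1 + 1 / (x : ℝ)) ^ (2 * i)) y with hθ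
    have hprodV : V * (1 + 1 / (x : ℝ)) ^ U.card ≤ ∏ m, (x₁ m : ℝ) := by
      have h1 : (1 + 1 / (x : ℝ)) ^ U.card = ∏ m : Fin d, (if m ∈ U then (1 + 1 / (x : ℝ)) else 1) := by
        rw [Finset.prod_ite_mem, Finset.univ_inter, Finset.prod_const]
      rw [h1, hVdef, ← Finset.prod_mul_distrib]
      refine Finset.prod_le_prod (fun m _ => ?_) fun m _ => ?_
      · split_ifs <;> positivity
      · rw [hx₁]
        by_cases hm : m ∈ U
        · simp only [hm, if_true]
          have h2 : (x' m : ℝ) ≤ x := by exact_mod_cast (hqu _ (hcU m hm)).2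
          have h3 : (0 : ℝ) < x := by exact_mod_cast hx1'
          push_cast
          have h4 : (x' m : ℝ) * (1 / (x : ℝ)) ≤ 1 := by
            rw [mul_one_div, div_le_one h3]
            exact h2
          linarith
        · simp only [hm, if_false, add_zero, mul_one, le_refl]
    have hfac : ∀ i ∈ Finset.range ((qtot qu X - U.card) / 2),
        hst K x y p V (U.card + 2 * i) ≤ 2 * Real.exp 1 * (y : ℝ) ^ 2 *
          fch p ((∏ m, (x₁ m : ℝ)) * (1 + 1 / (x : ℝ)) ^ (2 * i)) y := by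
      intro i hi
      have hi' := Finset.mem_range.mp hi
      refine l10_factor hp0 hx1' hxy hV0 ?_ ?_
      · rw [pow_add, ← mul_assoc]
        exact mul_le_mul_of_nonneg_right hprodV (by positivity)
      · have h1 : (1 + 1 / (x : ℝ)) ^ (U.card + 2 * i) ≤ (1 + 1 / (xm : ℝ)) ^ qtot qu X := by
          have h2 : (1 : ℝ) / x ≤ 1 / xm := by
            apply one_div_le_one_div_of_le
            · exact_mod_cast hxm0
            · exact_mod_cast hxmx
          calc (1 + 1 / (x : ℝ)) ^ (U.card + 2 * i) ≤ (1 + 1 / (xm : ℝ)) ^ (U.card + 2 * i) :=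
                pow_le_pow_left₀ (by positivity) (by linarith) _
            _ ≤ (1 + 1 / (xm : ℝ)) ^ qtot qu X := by
                apply pow_le_pow_right₀
                · have : (0 : ℝ) ≤ 1 / (xm : ℝ) := by positivity
                  linarith
                · omega
        have h3 : V * (1 + 1 / (x : ℝ)) ^ (U.card + 2 * i) ≤
            V * (1 + 1 / (xm : ℝ)) ^ qtot qu X := mul_le_mul_of_nonneg_left h1 hV0
        have h4 : V * (1 + 1 / (xm : ℝ)) ^ qtot qu X ≤
            (d : ℝ) ^ 2 * (V * (1 + 1 / (xm : ℝ)) ^ qtot qu X) :=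
          le_mul_of_one_le_left (by positivity) (one_le_pow₀ hd1)
        have h5 : p * (2 * ((d : ℝ) ^ 2 * (V * (1 + 1 / (xm : ℝ)) ^ qtot qu X))) ≤ ε / 2 := by
          rw [← mul_assoc 2]
          exact hV
        have h6 : p * (V * (1 + 1 / (x : ℝ)) ^ (U.card + 2 * i)) ≤
            p * ((d : ℝ) ^ 2 * (V * (1 + 1 / (xm : ℝ)) ^ qtot qu X)) :=
          mul_le_mul_of_nonneg_left (h3.trans h4) hp0.le
        nlinarith
    have hhst0 : ∀ u, 0 ≤ hst K x y p V u := by
      intro u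
      unfold hst
      have h1 : (0 : ℝ) ≤ 2 * y - 1 := by linarith
      positivity
    have hθ0 : 0 ≤ θ := by
      refine Finset.prod_nonneg fun i hi => ?_
      unfold fch
      have h1 : Real.exp (-(4 * p * ((∏ m, (x₁ m : ℝ)) * (1 + 1 / (x : ℝ)) ^ (2 * i)) /
          (y : ℝ) ^ 3)) ≤ 1 := by
        rw [Real.exp_le_one_iff, neg_nonpos]
        have h2 : (0 : ℝ) ≤ ∏ m, (x₁ m : ℝ) := Finset.prod_nonneg fun m _ => Nat.cast_nonneg _
        positivity
      linarith
    set M : ℝ := 2 * Real.exp 1 * (y : ℝ) ^ 2 with hMd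
    have hM1 : 1 ≤ M := by
      have h1 : (1 : ℝ) ≤ Real.exp 1 := Real.one_le_exp (by norm_num)
      have h2 : (1 : ℝ) ≤ (y : ℝ) ^ 2 := one_le_pow₀ hy1
      rw [hMd]
      nlinarith
    have hprod : ∏ i ∈ Finset.range ((qtot qu X - U.card) / 2), hst K x y p V (U.card + 2 * i) ≤
        M ^ K * θ := by
      calc _ ≤ ∏ i ∈ Finset.range ((qtot qu X - U.card) / 2), (M *
            fch p ((∏ m, (x₁ m : ℝ)) * (1 + 1 / (x : ℝ)) ^ (2 * i)) y) :=
            Finset.prod_le_prod (fun i _ => hhst0 _) hfac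
        _ = M ^ ((qtot qu X - U.card) / 2) * θ := by
            rw [Finset.prod_mul_distrib, Finset.prod_const, Finset.card_range, hθ, hGcard]
        _ ≤ M ^ K * θ := by
            refine mul_le_mul_of_nonneg_right (pow_le_pow_right₀ hM1 ?_) hθ0
            omega
    have hWle : WW x' qu X U ≤ (d : ℝ) ^ (2 * K) := by
      refine (WW_le hX U).trans (pow_le_pow_right₀ hd1 ?_)
      omega
    have hvz : vz K x y X s ε p V x' qu A.card U ≤
        (Real.exp 1 ^ K * (d : ℝ) ^ (2 * K)) * (M ^ K * θ) := by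
      unfold vz
      have h1 : Real.exp (-(ε * ((qtot qu X : ℝ) + 2 * A.card - U.card))) ≤ 1 := by
        rw [Real.exp_le_one_iff, neg_nonpos]
        have h2 : (U.card : ℝ) ≤ qtot qu X := by exact_mod_cast hW2
        apply mul_nonneg hε0.le
        have : (0 : ℝ) ≤ A.card := Nat.cast_nonneg _
        linarith
      have h2 : Real.exp (A.card : ℝ) ≤ Real.exp 1 ^ K := by
        rw [← Real.exp_nat_mul, mul_one]
        apply Real.exp_le_exp.mpr
        exact_mod_cast hAK.le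
      have h3 := hs.nonneg A.card
      have h4 := hs.le_one A.card
      have h5 := WW_nonneg x' qu X U
      have h6 : (0 : ℝ) ≤ ∏ i ∈ Finset.range ((qtot qu X - U.card) / 2),
          hst K x y p V (U.card + 2 * i) := Finset.prod_nonneg fun i _ => hhst0 _
      have h7 : Real.exp (-(ε * ((qtot qu X : ℝ) + 2 * A.card - U.card))) *
          Real.exp (A.card : ℝ) * s A.card ≤ Real.exp 1 ^ K := by
        calc _ ≤ 1 * Real.exp 1 ^ K * 1 := by
              refine mul_le_mul (mul_le_mul h1 h2 (Real.exp_pos _).le (by norm_num)) h4 h3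
                (by positivity)
          _ = _ := by ring
      calc _ = (Real.exp (-(ε * ((qtot qu X : ℝ) + 2 * A.card - U.card))) *
          Real.exp (A.card : ℝ) * s A.card * WW x' qu X U) *
            ∏ i ∈ Finset.range ((qtot qu X - U.card) / 2), hst K x y p V (U.card + 2 * i) := by
            ring
        _ ≤ _ := by
            refine mul_le_mul (mul_le_mul h7 hWle h5 (by positivity)) hprod h6 (by positivity)
    have hconst : (Real.exp 1 ^ K * (d : ℝ) ^ (2 * K)) * M ^ K ≤ (4 * (d : ℝ) * y) ^ (2 * K) := by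
      have e1 : (Real.exp 1 ^ K * (d : ℝ) ^ (2 * K)) * M ^ K =
          (2 * (Real.exp 1 * Real.exp 1) * ((d : ℝ) * y) ^ 2) ^ K := by
        rw [hMd, pow_mul, ← mul_pow, ← mul_pow]
        congr 1
        ring
      have e2 : (4 * (d : ℝ) * y) ^ (2 * K) = (16 * ((d : ℝ) * y) ^ 2) ^ K := by
        rw [pow_mul]
        congr 1
        ring
      rw [e1, e2]
      apply pow_le_pow_left₀ (by positivity)
      apply mul_le_mul_of_nonneg_right _ (by positivity)
      have h1 := Real.exp_one_lt_d9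
      have h2 := Real.exp_pos 1
      nlinarith
    have hstep : (4 * (d : ℝ) * y)⁻¹ ^ (2 * K) * vz K x y X s ε p V x' qu A.card U ≤ θ := by
      rw [inv_pow, inv_mul_le_iff₀ (by positivity)]
      calc _ ≤ (Real.exp 1 ^ K * (d : ℝ) ^ (2 * K)) * (M ^ K * θ) := hvz
        _ = ((Real.exp 1 ^ K * (d : ℝ) ^ (2 * K)) * M ^ K) * θ := by ring
        _ ≤ _ := mul_le_mul_of_nonneg_right hconst hθ0
    calc C₁ * vz K x y X s ε p V x' qu A.card U =
        ((4 * (d : ℝ) * y)⁻¹ ^ (2 * K) * vz K x y X s ε p V x' qu A.card U) * v := by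
          rw [hC₁]
          ring
      _ ≤ θ * v := mul_le_mul_of_nonneg_right hstep hv
  have hz := ach_zone hs hε0 hp0 hp1 hX hxm0 hxmx hqu hy hxy hroom hev hV hC0 hend hM
    (by simp : Even (∅ : Finset (Fin d)).card)
  refine hz.mono (le_of_eq ?_)
  unfold vz
  rw [hC₁]
  simp only [Finset.card_empty, Nat.cast_zero, mul_zero, add_zero, sub_zero, Nat.sub_zero,
    zero_add, Real.exp_zero]
  ring

end Pool.Agent.Lib.MP_8501c9_pr.Wide
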