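import Pool.Agent.Lib.MP_8501c9_pr.Wide.DefsC
import Pool.Agent.Lib.MP_8501c9_pr.Wide.Window
import Pool.Agent.Lib.MP_8501c9_pr.Wide.Sine
import Pool.Agent.Lib.MP_8501c9_pr.Mid.Sums

/-!
# One window of the balanced schedule
-/

set_option autoImplicit false
open Set

namespace Pool.Agent.Lib.MP_8501c9_pr.Wide

open Pool.Agent.Lib.MP_8501c9_pr Pool.Agent.Lib.MP_8501c9_pr.Mid

variable {n d : ℕ}

theorem reach_of_forall {p : ℝ} {z : Vtx n d} {P₀ P₁ : (Fin d → ℕ) → Prop} {θ : ℝ}
    (h : ∀ x₀, P₀ x₀ → Reach p z (fun x => x = x₀) P₁ θ) : Reach p z P₀ P₁ θ := by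
  intro g v hv hfin x Z T hx hC
  exact h x hx g v hv hfin x Z T rfl hC

theorem reach_mono {p : ℝ} {z : Vtx n d} {P₀ P₀' P₁ P₁' : (Fin d → ℕ) → Prop} {θ θ' : ℝ}
    (h0 : ∀ x, P₀' x → P₀ x) (h1 : ∀ x, P₁ x → P₁' x) (hθ : θ' ≤ θ)
    (h : Reach p z P₀ P₁ θ) : Reach p z P₀' P₁' θ' := by
  intro g v hv hfin x Z T hx hC
  exact Ach.mono (h g v hv (fun x Z T hx hC => hfin x Z T (h1 x hx) hC) x Z T (h0 x hx) hC)
    (mul_le_mul_of_nonneg_right hθ hv)

theorem reach_refl {p : ℝ} {z : Vtx n d} {P : (Fin d → ℕ) → Prop} : Reach p z P P 1 := by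
  intro g v _ hfin x Z T hx hC
  rw [one_mul]
  exact hfin x Z T hx hC

/-! ### counting -/

/-- number of ordered choices -/
theorem w1_desc {d a q : ℕ} (hd : 6 ≤ d) (ha : a ≤ 3) (hq : q ≤ d - a) :
    (q : ℝ) * (Real.log d - 1) - Real.log d - 7 ≤
      Real.log ((d - a).factorial) - Real.log ((d - a - q).factorial) := by
  set D := d - a with hD
  have hD1 : 1 ≤ D := by omega
  have hdR : (6 : ℝ) ≤ d := by exact_mod_cast hd
  have hDR : (D : ℝ) = d - a := by rw [hD, Nat.cast_sub (by omega)]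
  have haR : (a : ℝ) ≤ 3 := by exact_mod_cast ha
  have ha0 : (0 : ℝ) ≤ a := by positivity
  have hD0 : (0 : ℝ) < D := by exact_mod_cast hD1
  have hD1R : (1 : ℝ) ≤ D := by exact_mod_cast hD1
  have hDd : Real.log D ≤ Real.log d := Real.log_le_log hD0 (by linarith)
  have hlogD0 : 0 ≤ Real.log D := Real.log_nonneg hD1R
  have hqR : (q : ℝ) ≤ D := by exact_mod_cast hq
  have hq0 : (0 : ℝ) ≤ q := by positivity
  have h1 := (R_stirling' hD1).1
  have h2 : (q : ℝ) * Real.log D - q - 1 - Real.log D ≤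
      Real.log (D.factorial) - Real.log ((D - q).factorial) := by
    rcases Nat.lt_or_ge q D with h | h
    · have hm1 : 1 ≤ D - q := by omega
      have h3 := (R_stirling' hm1).2
      have hm : ((D - q : ℕ) : ℝ) = D - q := by rw [Nat.cast_sub hq]
      have hm0 : (0 : ℝ) < ((D - q : ℕ) : ℝ) := by exact_mod_cast hm1
      have h4 : Real.log ((D - q : ℕ) : ℝ) ≤ Real.log D :=
        Real.log_le_log hm0 (by rw [hm]; linarith)
      have h5 : ((D - q : ℕ) : ℝ) * Real.log ((D - q : ℕ) : ℝ) ≤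
          ((D - q : ℕ) : ℝ) * Real.log D := mul_le_mul_of_nonneg_left h4 hm0.le
      rw [hm] at h5 h3 h4
      nlinarith
    · have hqD : q = D := le_antisymm hq h
      rw [hqD, Nat.sub_self, Nat.factorial_zero, Nat.cast_one, Real.log_one]
      nlinarith
  have h3 : Real.log d - Real.log D ≤ 6 / d := by
    rw [← Real.log_div (by linarith) hD0.ne']
    have h4 := Real.log_le_sub_one_of_pos (x := (d : ℝ) / D) (by positivity)
    refine h4.trans ?_
    rw [hDR]
    have h5 : (0 : ℝ) < d - a := by linarith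
    rw [div_sub_one h5.ne', div_le_div_iff₀ h5 (by linarith)]
    nlinarith
  have h4 : (q : ℝ) * (Real.log d - Real.log D) ≤ 6 := by
    have h5 : (q : ℝ) * (Real.log d - Real.log D) ≤ d * (6 / d) :=
      mul_le_mul (by linarith) h3 (by linarith) (by linarith)
    have h6 : (d : ℝ) * (6 / d) = 6 := by field_simp
    linarith
  nlinarith

/-- the balanced state -/
def w1x (E : Finset (Fin d)) (l e : ℕ) : Fin d → ℕ := fun m => if m ∈ E then e else l

/-- the quotas of the balanced window -/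
def w1q (l q : ℕ) : ℕ → ℕ := fun c => if c = l then q else 0

theorem w1_qtot (l q X : ℕ) (h : l < X) : qtot (w1q l q) X = q := by
  unfold qtot w1q
  rw [Finset.sum_ite_eq' (Finset.range X) l (fun _ => q), if_pos (Finset.mem_range.2 h)]

theorem w1_cnt (E : Finset (Fin d)) {l e : ℕ} (he : l < e) :
    cnt (w1x E l e) Finset.univ l = d - E.card := by
  unfold cnt
  have h1 : Finset.univ.filter (fun m => w1x E l e m = l) = Eᶜ := by
    ext m
    rw [Finset.mem_filter, Finset.mem_compl]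
    unfold w1x
    by_cases hm : m ∈ E
    · simp [hm, he.ne']
    · simp [hm]
  rw [h1, Finset.card_compl, Fintype.card_fin]

theorem w1_WW (E : Finset (Fin d)) {l e q X : ℕ} (he : l < e) (hX : l < X)
    (hq : q ≤ d - E.card) : Real.log (WW (w1x E l e) (w1q l q) X ∅) =
      Real.log ((d - E.card).factorial) - Real.log ((d - E.card - q).factorial) ∧
      0 < WW (w1x E l e) (w1q l q) X ∅ := by
  have h0 : ∀ c, cnt (w1x E l e) ∅ c = 0 := by
    intro c
    unfold cnt
    simp
  have h1 : WW (w1x E l e) (w1q l q) X ∅ =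
      (q.factorial : ℝ) * (Nat.choose (d - E.card) q : ℝ) := by
    unfold WW
    rw [if_pos (fun c _ => by rw [h0]; exact Nat.zero_le _), w1_qtot l q X hX,
      Finset.card_empty, Nat.sub_zero]
    congr 1
    rw [Finset.prod_eq_single l]
    · rw [h0, Nat.sub_zero, Nat.sub_zero, w1_cnt E he]
      unfold w1q
      rw [if_pos rfl]
    · intro c _ hc
      rw [h0, Nat.sub_zero, Nat.sub_zero]
      unfold w1q
      rw [if_neg hc, Nat.choose_zero_right, Nat.cast_one]
    · intro h
      exact absurd (Finset.mem_range.2 hX) h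
  have h2 := Nat.choose_mul_factorial_mul_factorial hq
  have h3 : (0 : ℝ) < ((d - E.card - q).factorial : ℝ) := by
    exact_mod_cast Nat.factorial_pos _
  have h4 : (q.factorial : ℝ) * (Nat.choose (d - E.card) q : ℝ) =
      ((d - E.card).factorial : ℝ) / ((d - E.card - q).factorial : ℝ) := by
    rw [eq_div_iff h3.ne']
    rw [← h2]
    push_cast
    ring
  have h5 : (0 : ℝ) < ((d - E.card).factorial : ℝ) := by
    exact_mod_cast Nat.factorial_pos _
  rw [h1, h4]
  exact ⟨Real.log_div h5.ne' h3.ne', by positivity⟩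

theorem w1_vol_ge (E : Finset (Fin d)) {l e : ℕ} (he : l ≤ e) :
    (l : ℝ) ^ d ≤ ∏ m, (w1x E l e m : ℝ) := by
  have h1 : (l : ℝ) ^ d = ∏ _m : Fin d, (l : ℝ) := by
    rw [Finset.prod_const, Finset.card_univ, Fintype.card_fin]
  rw [h1]
  apply Finset.prod_le_prod
  · intro m _
    positivity
  · intro m _
    unfold w1x
    split_ifs
    · exact_mod_cast he
    · exact le_refl _

theorem w1_vol_le (E : Finset (Fin d)) (hE : E.card ≤ 3) {l e : ℕ} (hl : 1 ≤ l)
    (he : e ≤ l + 2) : ∏ m, (w1x E l e m : ℝ) ≤ 27 * (l : ℝ) ^ d := by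
  have h1 : ∏ m, (w1x E l e m : ℝ) ≤ ∏ m : Fin d, ((l : ℝ) * if m ∈ E then 3 else 1) := by
    apply Finset.prod_le_prod
    · intro m _
      positivity
    · intro m _
      unfold w1x
      split_ifs
      · have h2 : e ≤ l * 3 := by omega
        exact_mod_cast h2
      · rw [mul_one]
  refine h1.trans ?_
  rw [Finset.prod_mul_distrib, Finset.prod_const, Finset.card_univ, Fintype.card_fin]
  have h2 : (∏ m : Fin d, (if m ∈ E then (3 : ℝ) else 1)) = 3 ^ E.card := by
    rw [Finset.prod_ite_mem, Finset.univ_inter, Finset.prod_const]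
  rw [h2, mul_comm]
  apply mul_le_mul_of_nonneg_right _ (by positivity)
  calc (3 : ℝ) ^ E.card ≤ 3 ^ 3 := pow_le_pow_right₀ (by norm_num) hE
    _ = 27 := by norm_num

/-- volume of the balanced box -/
theorem w1_sfun {d l u : ℕ} (hd : 1 ≤ d) (hl : 1 ≤ l) (hu : u ≤ d) :
    Real.exp (sfun d ((l - 1) * d + u)) = (l : ℝ) ^ d * (1 + 1 / (l : ℝ)) ^ u := by
  obtain ⟨k, rfl⟩ : ∃ k, l = k + 1 := ⟨l - 1, by omega⟩
  rw [Nat.add_sub_cancel, sfun_eq d (k * d + u) hd k (by omega) (by nlinarith), Real.exp_add]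
  have hk : (0 : ℝ) < (k : ℝ) + 1 := by positivity
  congr 1
  · rw [Real.exp_nat_mul, Real.exp_log hk]
    push_cast
    rfl
  · rw [vslope_eq]
    push_cast
    have h1 : (k : ℝ) * d + u - k * d = u := by ring
    rw [h1, Real.exp_nat_mul, Real.exp_log (by positivity)]

theorem w1_lev {d l j : ℕ} (hl : 1 ≤ l) (hj : j < d) : lev d ((l - 1) * d + j) = l := by
  unfold lev
  have hd : 0 < d := by omega
  have h1 : ((l - 1) * d + j) / d = l - 1 := by
    rw [Nat.mul_comm, Nat.mul_add_div hd, Nat.div_eq_of_lt hj, Nat.add_zero]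
  rw [h1]
  omega

/-- pairing the terms -/
theorem w1_pairs (F : ℕ → ℝ) (t₀ r : ℕ) :
    ∑ t ∈ Finset.Ico t₀ (t₀ + 2 * r), F t =
      ∑ i ∈ Finset.range r, (F (t₀ + 2 * i) + F (t₀ + 2 * i + 1)) := by
  induction r with
  | zero => simp
  | succ r ih =>
    rw [Finset.sum_range_succ, ← ih]
    have h1 : t₀ + 2 * (r + 1) = t₀ + 2 * r + 1 + 1 := by ring
    rw [h1, Finset.sum_Ico_succ_top (by omega), Finset.sum_Ico_succ_top (by omega)]
    ring

/-- one factor of the window -/
theorem w1_factor {d l i K : ℕ} {L v : ℝ} (hl : 1 ≤ l) (hi : 2 * i + 1 < d)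
    (hv : (l : ℝ) ^ d ≤ v) :
    Real.exp (Bx d ((l - 1) * d + 2 * i) - L / 2 + (Bx d ((l - 1) * d + 2 * i + 1) - L / 2) +
        (2 - 2 * Real.log d - (2 * K + 8) / l)) ≤
      hst K l (l + 2) (Real.exp (-L)) v (2 * i) := by
  have hd1 : 1 ≤ d := by omega
  have hdR : (1 : ℝ) ≤ d := by exact_mod_cast hd1
  have hlR : (1 : ℝ) ≤ l := by exact_mod_cast hl
  have hl0 : (0 : ℝ) < l := by linarith
  set t := (l - 1) * d + 2 * i with ht
  have hlev1 : lev d t = l := w1_lev hl (by omega)
  have hlev2 : lev d (t + 1) = l := by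
    have : t + 1 = (l - 1) * d + (2 * i + 1) := by rw [ht]; ring
    rw [this]
    exact w1_lev hl hi
  have hS : sfun d (t + 1) ≤ sfun d t + 1 / l := by
    rw [sfun_succ' d t hd1]
    have h1 := vslope_le (t / d)
    have h2 : ((t / d : ℕ) : ℝ) + 1 = l := by
      have h3 : t / d + 1 = l := hlev1
      exact_mod_cast h3
    rw [h2] at h1
    linarith
  have hlog : Real.log (4 * (d : ℝ) ^ 2 / (Real.exp 1 * (l : ℝ) ^ 3)) =
      Real.log 4 + 2 * Real.log d - 1 - 3 * Real.log l := by
    rw [Real.log_div (by positivity) (by positivity), Real.log_mul (by norm_num) (by positivity),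
      Real.log_mul (by positivity) (by positivity), Real.log_exp, Real.log_pow, Real.log_pow]
    push_cast
    ring
  have hexp : Bx d t - L / 2 + (Bx d (t + 1) - L / 2) +
      (2 - 2 * Real.log d - (2 * K + 8) / l) ≤
      sfun d t + (-L) + Real.log 4 + 1 + (-(3 * Real.log l)) + (-(7 / l)) + (-(2 * K / l)) := by
    unfold Bx
    rw [hlev1, hlev2, hlog]
    have h1 : (2 * (K : ℝ) + 8) / l = 2 * K / l + 7 / l + 1 / l := by ring
    have h2 : (0 : ℝ) < 1 / (l : ℝ) := by positivity
    rw [h1]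
    linarith
  refine (Real.exp_le_exp.2 hexp).trans ?_
  rw [Real.exp_add, Real.exp_add, Real.exp_add, Real.exp_add, Real.exp_add, Real.exp_add]
  have e1 : Real.exp (sfun d t) = (l : ℝ) ^ d * (1 + 1 / (l : ℝ)) ^ (2 * i) := by
    rw [ht]
    exact w1_sfun hd1 hl (by omega)
  have e2 : Real.exp (Real.log 4) = 4 := Real.exp_log (by norm_num)
  have e3 : Real.exp (-(3 * Real.log l)) = 1 / (l : ℝ) ^ 3 := by
    rw [Real.exp_neg, ← one_div]
    congr 1
    have : 3 * Real.log l = Real.log ((l : ℝ) ^ 3) := by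
      rw [Real.log_pow]
      push_cast
      ring
    rw [this, Real.exp_log (by positivity)]
  have e4 : Real.exp (-(7 / (l : ℝ))) ≤ l / (l + 7) := by
    rw [Real.exp_neg]
    have h1 := Real.add_one_le_exp (7 / (l : ℝ))
    have h2 : 7 / (l : ℝ) + 1 = (l + 7) / l := by
      field_simp
      ring
    rw [h2] at h1
    have h3 : (l : ℝ) / (l + 7) = (((l : ℝ) + 7) / l)⁻¹ := by rw [inv_div]
    rw [h3]
    exact inv_anti₀ (by positivity) h1
  have e5 : Real.exp (-(2 * K / (l : ℝ))) ≤ 1 / (1 + 1 / (l : ℝ)) ^ (2 * K) := by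
    rw [Real.exp_neg, ← one_div]
    apply one_div_le_one_div_of_le (by positivity)
    have h1 := Real.add_one_le_exp (1 / (l : ℝ))
    have h2 : Real.exp (2 * K / (l : ℝ)) = Real.exp (1 / (l : ℝ)) ^ (2 * K) := by
      rw [← Real.exp_nat_mul]
      congr 1
      push_cast
      ring
    rw [h2]
    exact pow_le_pow_left₀ (by positivity) (by linarith) _
  rw [e1, e2, e3]
  unfold hst
  push_cast
  set p := Real.exp (-L) with hp
  have hp0 : 0 < p := Real.exp_pos _
  set A := (1 + 1 / (l : ℝ)) ^ (2 * i) with hA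
  have hA0 : 0 < A := by positivity
  set M := (1 + 1 / (l : ℝ)) ^ (2 * K) with hM
  have hM0 : 0 < M := by positivity
  have he0 : 0 < Real.exp 1 := Real.exp_pos _
  have hkey : 4 * (1 / (l : ℝ) ^ 3) * (l / (l + 7)) ≤
      2 * ((2 * (l + 2) - 1) / ((l + 2) ^ 2 * l ^ 2)) := by
    have h1 : 4 * (1 / (l : ℝ) ^ 3) * (l / (l + 7)) = 4 / ((l : ℝ) ^ 2 * (l + 7)) := by
      field_simp
    have h2 : 2 * ((2 * ((l : ℝ) + 2) - 1) / ((l + 2) ^ 2 * l ^ 2)) =
        (2 * (2 * (l + 2) - 1)) / ((l + 2) ^ 2 * l ^ 2) := by ring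
    rw [h1, h2, div_le_div_iff₀ (by positivity) (by positivity)]
    have h3 : 0 < (l : ℝ) ^ 2 := by positivity
    have h4 : 4 * ((l : ℝ) + 2) ^ 2 ≤ 2 * (2 * (l + 2) - 1) * (l + 7) := by nlinarith
    nlinarith
  calc (l : ℝ) ^ d * A * p * 4 * Real.exp 1 * (1 / (l : ℝ) ^ 3) * Real.exp (-(7 / (l : ℝ))) *
        Real.exp (-(2 * K / (l : ℝ)))
      ≤ (l : ℝ) ^ d * A * p * 4 * Real.exp 1 * (1 / (l : ℝ) ^ 3) * (l / (l + 7)) * (1 / M) := by
        apply mul_le_mul _ e5 (Real.exp_pos _).le (by positivity)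
        exact mul_le_mul_of_nonneg_left e4 (by positivity)
    _ = ((l : ℝ) ^ d * (A * p * Real.exp 1 * (1 / M))) *
          (4 * (1 / (l : ℝ) ^ 3) * (l / (l + 7))) := by ring
    _ ≤ (v * (A * p * Real.exp 1 * (1 / M))) *
          (2 * ((2 * (l + 2) - 1) / ((l + 2) ^ 2 * l ^ 2))) := by
        apply mul_le_mul _ hkey (by positivity)
        · have : 0 ≤ v := le_trans (by positivity) hv
          positivity
        · exact mul_le_mul_of_nonneg_right hv (by positivity)
    _ = 2 * Real.exp 1 * p * v * A / M * (2 * (l + 2) - 1) / ((l + 2) ^ 2 * l ^ 2) := by ring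

/-- one window of the balanced schedule: `q` of the directions outside `E`, all of side length
`l`, are enlarged -/
theorem reach_bwin (ε : ℝ) (hε : 0 < ε) : ∃ C : ℝ, 0 ≤ C ∧ ∃ D₀ : ℕ, ∀ (n d l e q k : ℕ)
    (L : ℝ) (z : Vtx n d) (E : Finset (Fin d)), D₀ ≤ d → (E.card = 2 ∨ E.card = 3) → 1 ≤ l →
    (e = l + 1 ∨ e = l + 2) → Even q → q ≤ d - E.card →
    (l - 1) * d + (e - l) * E.card + q ≤ k → k ≤ d ^ 2 → sfun d k + 6 * Real.log d ≤ L →
    Room (l + 4) z →
    Reach (Real.exp (-L)) z (fun x => ∀ m, x m = if m ∈ E then e else l)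
      (fun x => ∃ U : Finset (Fin d), Disjoint U E ∧ U.card = q ∧
        ∀ m, x m = (if m ∈ E then e else l) + if m ∈ U then 1 else 0)
      (Real.exp (∑ t ∈ Finset.Ico ((l - 1) * d) ((l - 1) * d + q), (Bx d t - L / 2) -
        ε * q - C * (d / l + Real.log d))) := by
  set ε' := min ε 1 / 2 with hε'
  have hε'0 : 0 < ε' := by
    have : 0 < min ε 1 := lt_min hε one_pos
    linarith
  have hε'1 : ε' ≤ 1 := by
    have := min_le_right ε 1
    linarith
  have hε'ε : ε' ≤ ε := by
    have := min_le_left ε 1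
    linarith
  obtain ⟨K, s, hs⟩ := exists_weights ε' hε'0
  have hs0 : 0 < s 0 := hs.pos 0 (by have := hs.one; omega)
  have hs1 : s 0 ≤ 1 := hs.le_one 0
  have hlogs : Real.log (s 0) ≤ 0 := Real.log_nonpos hs0.le hs1
  obtain ⟨D₁, hD₁⟩ := exists_nat_ge (108 / ε')
  refine ⟨(7 - Real.log (s 0)) + 8 * K + 1 + (K + 4), by
    have : (0 : ℝ) ≤ K := by positivity
    linarith, max 6 D₁, ?_⟩
  intro n d l e q k L z E hd hE hl he hqe hq hk hkd hL hroom
  have hd6 : 6 ≤ d := le_trans (le_max_left _ _) hd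
  have hdD : D₁ ≤ d := le_trans (le_max_right _ _) hd
  have hd1 : 1 ≤ d := by omega
  have hd6R : (6 : ℝ) ≤ d := by exact_mod_cast hd6
  have hd0 : (0 : ℝ) < d := by linarith
  have hdDR : 108 / ε' ≤ d := hD₁.trans (by exact_mod_cast hdD)
  have hlR : (1 : ℝ) ≤ l := by exact_mod_cast hl
  have hl0 : (0 : ℝ) < l := by linarith
  have hE2 : 2 ≤ E.card := by omega
  have hE3 : E.card ≤ 3 := by omega
  have hle : l < e := by omega
  have hel : e ≤ l + 2 := by omega
  have hlogd : 1 ≤ Real.log d := by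
    rw [Real.le_log_iff_exp_le hd0]
    have := Real.exp_one_lt_d9
    linarith
  obtain ⟨r, hr⟩ := hqe
  have hr2 : q = 2 * r := by omega
  have hlk : l - 1 ≤ d := by
    have h1 : (l - 1) * d ≤ d * d := by nlinarith
    exact Nat.le_of_mul_le_mul_right h1 (by omega)
  have hp0 : 0 < Real.exp (-L) := Real.exp_pos _
  have hSk : 0 ≤ sfun d k := by
    have := sfun_mono d hd1 (Nat.zero_le k)
    rwa [sfun_zero] at this
  have hp1 : Real.exp (-L) ≤ 1 / 2 := by
    have h1 : Real.exp (-L) ≤ Real.exp (-1) := Real.exp_le_exp.2 (by linarith)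
    have h2 : Real.exp (-1) ≤ 1 / 2 := by
      rw [Real.exp_neg, ← one_div]
      apply one_div_le_one_div_of_le (by norm_num)
      have := Real.add_one_le_exp 1
      linarith
    exact h1.trans h2
  have hvolge : (l : ℝ) ^ d ≤ ∏ m, (w1x E l e m : ℝ) := w1_vol_ge E hle.le
  have hvolle : ∏ m, (w1x E l e m : ℝ) ≤ 27 * (l : ℝ) ^ d := w1_vol_le E hE3 hl hel
  have hqt : qtot (w1q l q) (l + 3) = q := w1_qtot l q (l + 3) (by omega)
  apply reach_of_forall
  intro x₀ hx₀
  have hx₀' : x₀ = w1x E l e := funext hx₀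
  subst hx₀'
  have hV : Real.exp (-L) * (2 * (d : ℝ) ^ 2 * ((∏ m, (w1x E l e m : ℝ)) *
      (1 + 1 / (l : ℝ)) ^ qtot (w1q l q) (l + 3))) ≤ ε' / 2 := by
    rw [hqt]
    have h1 : (∏ m, (w1x E l e m : ℝ)) * (1 + 1 / (l : ℝ)) ^ q ≤ 27 * Real.exp (sfun d k) := by
      calc (∏ m, (w1x E l e m : ℝ)) * (1 + 1 / (l : ℝ)) ^ q
          ≤ 27 * (l : ℝ) ^ d * (1 + 1 / (l : ℝ)) ^ q :=
            mul_le_mul_of_nonneg_right hvolle (by positivity)
        _ = 27 * ((l : ℝ) ^ d * (1 + 1 / (l : ℝ)) ^ q) := by ring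
        _ = 27 * Real.exp (sfun d ((l - 1) * d + q)) := by
            rw [w1_sfun hd1 hl (by omega)]
        _ ≤ 27 * Real.exp (sfun d k) := by
            apply mul_le_mul_of_nonneg_left _ (by norm_num)
            exact Real.exp_le_exp.2 (sfun_mono d hd1 (by omega))
    have h2 : Real.exp (-L) ≤ Real.exp (-(sfun d k)) * (1 / (d : ℝ) ^ 6) := by
      have h3 : (1 : ℝ) / (d : ℝ) ^ 6 = Real.exp (-(6 * Real.log d)) := by
        have h4 : 6 * Real.log d = Real.log ((d : ℝ) ^ 6) := by
          rw [Real.log_pow]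
          push_cast
          ring
        rw [Real.exp_neg, h4, Real.exp_log (by positivity), one_div]
      rw [h3, ← Real.exp_add]
      exact Real.exp_le_exp.2 (by linarith)
    have h3 : Real.exp (-(sfun d k)) * Real.exp (sfun d k) = 1 := by
      rw [← Real.exp_add, neg_add_cancel, Real.exp_zero]
    calc Real.exp (-L) * (2 * (d : ℝ) ^ 2 * ((∏ m, (w1x E l e m : ℝ)) *
          (1 + 1 / (l : ℝ)) ^ q))
        ≤ (Real.exp (-(sfun d k)) * (1 / (d : ℝ) ^ 6)) *
          (2 * (d : ℝ) ^ 2 * (27 * Real.exp (sfun d k))) := by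
          apply mul_le_mul h2 _ (by positivity) (by positivity)
          exact mul_le_mul_of_nonneg_left h1 (by positivity)
      _ = (Real.exp (-(sfun d k)) * Real.exp (sfun d k)) * (54 / (d : ℝ) ^ 4) := by
          field_simp
          ring
      _ = 54 / (d : ℝ) ^ 4 := by rw [h3, one_mul]
      _ ≤ ε' / 2 := by
          have h4 : (d : ℝ) ≤ (d : ℝ) ^ 4 := by
            have : (1 : ℝ) ≤ (d : ℝ) ^ 3 := one_le_pow₀ (by linarith)
            nlinarith
          have h5 : 54 / (d : ℝ) ^ 4 ≤ 54 / d :=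
            div_le_div_of_nonneg_left (by norm_num) hd0 h4
          refine h5.trans ?_
          rw [div_le_iff₀ hε'0] at hdDR
          rw [div_le_iff₀ hd0]
          linarith
  have key := reach_window hs hε'0 hε'1 hp0 hp1 (z := z) (x₀ := w1x E l e)
    (qu := w1q l q) (X := l + 3) (x := l) (xm := l) (y := l + 2) hd1
    (fun m => by unfold w1x; split_ifs <;> omega)
    (fun m => by unfold w1x; split_ifs <;> omega) hl le_rfl
    (fun c hc => by
      have : c = l := by
        by_contra h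
        exact hc (by unfold w1q; rw [if_neg h])
      rw [this]
      exact ⟨le_rfl, le_rfl⟩)
    (fun m => by unfold w1x; split_ifs <;> omega) (by omega)
    (fun i => by
      obtain ⟨h1, h2⟩ := hroom i
      exact ⟨by omega, by omega⟩)
    (by rw [hqt, hr2]; exact even_two_mul r) hV
  refine reach_mono (fun x h => h) ?_ ?_ key
  · rintro x ⟨U, hU, rfl⟩
    refine ⟨U, ?_, ?_, fun m => rfl⟩
    · rw [Finset.disjoint_left]
      intro m hm hmE
      have h1 := hU e (by omega)
      have h2 : w1q l q e = 0 := by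
        unfold w1q
        rw [if_neg hle.ne']
      rw [h2] at h1
      unfold cnt at h1
      rw [Finset.card_eq_zero] at h1
      have h3 : m ∈ U.filter (fun m => w1x E l e m = e) := by
        rw [Finset.mem_filter]
        refine ⟨hm, ?_⟩
        unfold w1x
        rw [if_pos hmE]
      rw [h1] at h3
      exact absurd h3 (Finset.notMem_empty m)
    · rw [← l10_card (x₀ := w1x E l e) (X := l + 3)
        (fun m => by unfold w1x; split_ifs <;> omega) U, ← hqt]
      exact Finset.sum_congr rfl fun c hc => hU c (Finset.mem_range.1 hc)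
  · rw [hqt]
    obtain ⟨hW1, hW2⟩ := w1_WW E hle (X := l + 3) (by omega) hq
    have hW3 := w1_desc hd6 hE3 hq
    rw [← hW1] at hW3
    have f1 : Real.exp (Real.log (s 0)) = s 0 := Real.exp_log hs0
    have f2 : Real.exp (-(8 * K * Real.log d)) ≤
        (4 * (d : ℝ) * ((l + 2 : ℕ) : ℝ))⁻¹ ^ (2 * K) := by
      have h1 : Real.exp (-(8 * K * Real.log d)) = (((d : ℝ) ^ 4)⁻¹) ^ (2 * K) := by
        rw [Real.exp_neg, inv_pow]
        congr 1
        have h2 : 8 * (K : ℝ) * Real.log d = Real.log (((d : ℝ) ^ 4) ^ (2 * K)) := by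
          rw [Real.log_pow, Real.log_pow]
          push_cast
          ring
        rw [h2, Real.exp_log (by positivity)]
      rw [h1]
      apply pow_le_pow_left₀ (by positivity)
      apply inv_anti₀ (by positivity)
      have h2 : (l : ℝ) ≤ d + 1 := by exact_mod_cast (by omega : l ≤ d + 1)
      push_cast
      have h3 : 4 * (d : ℝ) * (l + 2) ≤ 4 * d * (d + 3) := by
        apply mul_le_mul_of_nonneg_left _ (by positivity)
        linarith
      refine h3.trans ?_
      have h4 : (36 : ℝ) ≤ (d : ℝ) ^ 2 := by nlinarith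
      have h5 : (d : ℝ) ^ 4 = (d : ℝ) ^ 2 * (d : ℝ) ^ 2 := by ring
      rw [h5]
      nlinarith
    have f3 : Real.exp ((q : ℝ) * (Real.log d - 1) - Real.log d - 7) ≤
        WW (w1x E l e) (w1q l q) (l + 3) ∅ := by
      rw [← Real.le_log_iff_exp_le hW2]
      exact hW3
    have f4 : Real.exp (∑ i ∈ Finset.range (q / 2),
        (Bx d ((l - 1) * d + 2 * i) - L / 2 + (Bx d ((l - 1) * d + 2 * i + 1) - L / 2) +
        (2 - 2 * Real.log d - (2 * K + 8) / l))) ≤
        ∏ i ∈ Finset.range (q / 2),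
          hst K l (l + 2) (Real.exp (-L)) (∏ m, (w1x E l e m : ℝ)) (2 * i) := by
      rw [Real.exp_sum]
      apply Finset.prod_le_prod
      · intro i _
        exact (Real.exp_pos _).le
      · intro i hi
        rw [Finset.mem_range] at hi
        exact w1_factor hl (by omega) hvolge
    have f5 : ∑ i ∈ Finset.range (q / 2),
        (Bx d ((l - 1) * d + 2 * i) - L / 2 + (Bx d ((l - 1) * d + 2 * i + 1) - L / 2) +
        (2 - 2 * Real.log d - (2 * K + 8) / l)) =
        ∑ t ∈ Finset.Ico ((l - 1) * d) ((l - 1) * d + q), (Bx d t - L / 2) +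
          r * (2 - 2 * Real.log d - (2 * K + 8) / l) := by
      have h1 : q / 2 = r := by omega
      rw [Finset.sum_add_distrib, h1, Finset.sum_const, Finset.card_range, nsmul_eq_mul, hr2,
        w1_pairs]
    rw [f5] at f4
    have hqR : (q : ℝ) = 2 * r := by rw [hr2]; push_cast; ring
    have hrd : (2 : ℝ) * r ≤ d := by
      have : 2 * r ≤ d := by omega
      exact_mod_cast this
    have hK0 : (0 : ℝ) ≤ K := by positivity
    have g1 : (r : ℝ) * ((2 * K + 8) / l) ≤ (K + 4) * (d / l) := by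
      have h1 : (r : ℝ) * ((2 * K + 8) / l) = (K + 4) * (2 * r / l) := by ring
      rw [h1]
      apply mul_le_mul_of_nonneg_left _ (by linarith)
      exact div_le_div_of_nonneg_right hrd hl0.le
    have g2 : (7 - Real.log (s 0)) ≤ (7 - Real.log (s 0)) * Real.log d :=
      le_mul_of_one_le_right (by linarith) hlogd
    have g3 : 0 ≤ (d : ℝ) / l := by positivity
    have g4 : ε' * (q : ℝ) ≤ ε * q := mul_le_mul_of_nonneg_right hε'ε (by positivity)
    set Sg := ∑ t ∈ Finset.Ico ((l - 1) * d) ((l - 1) * d + q), (Bx d t - L / 2) with hSg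
    have hexp : Sg - ε * q - ((7 - Real.log (s 0)) + 8 * K + 1 + (K + 4)) *
        (d / l + Real.log d) ≤ Real.log (s 0) + -(8 * K * Real.log d) + -(ε' * q) +
        ((q : ℝ) * (Real.log d - 1) - Real.log d - 7) +
        (Sg + r * (2 - 2 * Real.log d - (2 * K + 8) / l)) := by
      have h1 : (r : ℝ) * (2 - 2 * Real.log d - (2 * K + 8) / l) =
          2 * r - 2 * r * Real.log d - r * ((2 * K + 8) / l) := by ring
      rw [h1, hqR]
      have h2 : ((7 - Real.log (s 0)) + 8 * K + 1 + (K + 4)) * (d / l + Real.log d) =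
          (7 - Real.log (s 0)) * Real.log d + 8 * K * Real.log d + Real.log d +
            (K + 4) * (d / l) + ((7 - Real.log (s 0)) + 8 * K + 1) * (d / l) +
            (K + 4) * Real.log d := by ring
      rw [h2]
      have h3 : 0 ≤ ((7 - Real.log (s 0)) + 8 * K + 1) * (d / l) := by
        apply mul_nonneg _ g3
        linarith
      have h4 : 0 ≤ ((K : ℝ) + 4) * Real.log d := by
        apply mul_nonneg (by linarith) (by linarith)
      rw [hqR] at g4
      linarith
    refine (Real.exp_le_exp.2 hexp).trans ?_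
    rw [Real.exp_add, Real.exp_add, Real.exp_add, Real.exp_add, f1]
    apply mul_le_mul _ f4 (Real.exp_pos _).le (by positivity)
    apply mul_le_mul _ f3 (Real.exp_pos _).le (by positivity)
    apply mul_le_mul_of_nonneg_right _ (Real.exp_pos _).le
    exact mul_le_mul_of_nonneg_left f2 hs0.le

end Pool.Agent.Lib.MP_8501c9_pr.Wide
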