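import Pool.Agent.Lib.MP_8501c9_pr.Wide.DefsC
import Pool.Agent.Lib.MP_8501c9_pr.Wide.Window
import Pool.Agent.Lib.MP_8501c9_pr.Wide.Sine

set_option autoImplicit false
open Set

/-!
# One window of a schedule
-/

namespace Pool.Agent.Lib.MP_8501c9_pr.Wide

open Pool.Agent.Lib.MP_8501c9_pr Pool.Agent.Lib.MP_8501c9_pr.Mid

variable {n d : ℕ}

/-! ### factorials and binomial coefficients -/

theorem cw_fact_ge (m : ℕ) : (m : ℝ) * Real.log m - m ≤ Real.log (m.factorial : ℝ) := by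
  induction m with
  | zero => simp
  | succ m ih =>
    rcases Nat.eq_zero_or_pos m with h | h
    · subst h; simp
    · have hm : (0:ℝ) < m := by exact_mod_cast h
      have hf : (0:ℝ) < (m.factorial : ℝ) := by exact_mod_cast Nat.factorial_pos m
      have h1 : Real.log (((m+1).factorial : ℕ) : ℝ) =
          Real.log ((m:ℝ)+1) + Real.log (m.factorial : ℝ) := by
        rw [Nat.factorial_succ]; push_cast
        rw [Real.log_mul (by positivity) hf.ne']
      have h2 : Real.log ((m:ℝ)+1) - Real.log m ≤ 1 / m := by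
        rw [← Real.log_div (by positivity) hm.ne']
        have := Real.log_le_sub_one_of_pos (x := ((m:ℝ)+1)/m) (by positivity)
        have e : ((m:ℝ)+1)/m - 1 = 1/m := by field_simp; ring
        linarith
      have h3 : (m:ℝ) * (Real.log ((m:ℝ)+1) - Real.log m) ≤ 1 := by
        have := mul_le_mul_of_nonneg_left h2 hm.le
        rwa [mul_one_div_cancel hm.ne'] at this
      rw [h1]; push_cast
      nlinarith

theorem cw_fact_le (m : ℕ) :
    Real.log (m.factorial : ℝ) ≤ m * Real.log m - m + Real.log ((m : ℝ) + 1) + 1 := by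
  rcases Nat.eq_zero_or_pos m with h | h
  · subst h; simp
  · have key : ∀ k : ℕ, 1 ≤ k →
        Real.log (k.factorial : ℝ) ≤ k * Real.log k - k + Real.log (k : ℝ) + 1 := by
      intro k hk
      induction k, hk using Nat.le_induction with
      | base => simp
      | succ k hk ih =>
        have hm : (0:ℝ) < k := by exact_mod_cast hk
        have hf : (0:ℝ) < (k.factorial : ℝ) := by exact_mod_cast Nat.factorial_pos k
        have h1 : Real.log (((k+1).factorial : ℕ) : ℝ) =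
            Real.log ((k:ℝ)+1) + Real.log (k.factorial : ℝ) := by
          rw [Nat.factorial_succ]; push_cast
          rw [Real.log_mul (by positivity) hf.ne']
        have h2 : 1 / ((k:ℝ)+1) ≤ Real.log ((k:ℝ)+1) - Real.log k := by
          have := Real.log_le_sub_one_of_pos (x := (k:ℝ)/((k:ℝ)+1)) (by positivity)
          rw [Real.log_div hm.ne' (by positivity)] at this
          have e : (k:ℝ)/((k:ℝ)+1) - 1 = -(1/((k:ℝ)+1)) := by field_simp; ring
          linarith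
        have h3 : 1 ≤ ((k:ℝ)+1) * (Real.log ((k:ℝ)+1) - Real.log k) := by
          have := mul_le_mul_of_nonneg_left h2 (by positivity : (0:ℝ) ≤ (k:ℝ)+1)
          rwa [mul_one_div_cancel (by positivity : ((k:ℝ)+1) ≠ 0)] at this
        rw [h1]; push_cast
        nlinarith
    have h1 := key m h
    have hm : (0:ℝ) < m := by exact_mod_cast h
    have h2 : Real.log (m:ℝ) ≤ Real.log ((m:ℝ)+1) := Real.log_le_log hm (by linarith)
    linarith

theorem cw_choose_ge {a b : ℕ} (h : b ≤ a) :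
    ent a b - 2 * (Real.log ((a:ℝ) + 1) + 1) ≤ Real.log (Nat.choose a b : ℝ) := by
  have hb : (0:ℝ) < (b.factorial : ℝ) := by exact_mod_cast Nat.factorial_pos b
  have hab : (0:ℝ) < ((a-b).factorial : ℝ) := by exact_mod_cast Nat.factorial_pos (a-b)
  have hc : (0:ℝ) < (Nat.choose a b : ℝ) := by exact_mod_cast Nat.choose_pos h
  have h1 : (Nat.choose a b : ℝ) * (b.factorial : ℝ) * ((a-b).factorial : ℝ) =
      (a.factorial : ℝ) := by
    exact_mod_cast Nat.choose_mul_factorial_mul_factorial h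
  have h2 : Real.log (Nat.choose a b : ℝ) + Real.log (b.factorial : ℝ) +
      Real.log ((a-b).factorial : ℝ) = Real.log (a.factorial : ℝ) := by
    rw [← h1, Real.log_mul (mul_pos hc hb).ne' hab.ne', Real.log_mul hc.ne' hb.ne']
  have h3 := cw_fact_ge a
  have h4 := cw_fact_le b
  have h5 := cw_fact_le (a-b)
  have h8 : ((a - b : ℕ) : ℝ) = a - b := Nat.cast_sub h
  have hb0 : (0:ℝ) ≤ b := Nat.cast_nonneg b
  have hba : (b:ℝ) ≤ a := by exact_mod_cast h
  have h6 : Real.log ((b:ℝ)+1) ≤ Real.log ((a:ℝ)+1) :=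
    Real.log_le_log (by positivity) (by linarith)
  have h7 : Real.log (((a-b : ℕ):ℝ)+1) ≤ Real.log ((a:ℝ)+1) :=
    Real.log_le_log (by positivity) (by rw [h8]; linarith)
  unfold ent
  linarith

theorem cw_mul_log (a m : ℕ) (ha : 1 ≤ a) :
    ((a * m : ℕ) : ℝ) * Real.log ((a * m : ℕ) : ℝ) =
      a * m * Real.log a + a * (m * Real.log m) := by
  rcases Nat.eq_zero_or_pos m with h | h
  · subst h; simp
  · have hm : (0:ℝ) < m := by exact_mod_cast h
    have ha' : (0:ℝ) < a := by exact_mod_cast ha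
    push_cast
    rw [Real.log_mul ha'.ne' hm.ne']
    ring

theorem cw_ent_smul {a N q : ℕ} (ha : 1 ≤ a) (h : q ≤ N) :
    ent (a * N) (a * q) = a * ent N q := by
  unfold ent
  rw [← Nat.mul_sub, cw_mul_log a N ha, cw_mul_log a q ha, cw_mul_log a (N - q) ha,
    Nat.cast_sub h]
  ring

/-! ### reaching -/

theorem cw_reach_of_forall {p : ℝ} {z : Vtx n d} {P₀ P₁ : (Fin d → ℕ) → Prop} {θ : ℝ}
    (h : ∀ x₀, P₀ x₀ → Reach p z (fun x => x = x₀) P₁ θ) : Reach p z P₀ P₁ θ := by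
  intro g v hv hf x Z T hx hC
  exact h x hx g v hv hf x Z T rfl hC

theorem cw_reach_mono {p : ℝ} {z : Vtx n d} {P₀ P₁ P₁' : (Fin d → ℕ) → Prop} {θ θ' : ℝ}
    (h1 : ∀ x, P₁ x → P₁' x) (hθ : θ' ≤ θ)
    (h : Reach p z P₀ P₁ θ) : Reach p z P₀ P₁' θ' := by
  intro g v hv hf x Z T hx hC
  obtain ⟨t, ht, hv'⟩ := h g v hv (fun x Z T hx => hf x Z T (h1 x hx)) x Z T hx hC
  exact ⟨t, ht, le_trans (mul_le_mul_of_nonneg_right hθ hv) hv'⟩

/-! ### the deficit of the volume -/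

theorem cw_slope {l x b : ℕ} (hb : 1 ≤ b) (hl : b ≤ l) (hx : b ≤ x) (hlx : l ≤ x) :
    Real.log (((l:ℝ)+1)/l) - Real.log (((x:ℝ)+1)/x) ≤ ((x:ℝ) - l) / (b:ℝ)^2 := by
  have hb' : (0:ℝ) < b := by exact_mod_cast hb
  have hl' : (0:ℝ) < l := by exact_mod_cast (by omega : 0 < l)
  have hx' : (0:ℝ) < x := by exact_mod_cast (by omega : 0 < x)
  have hbl : (b:ℝ) ≤ l := by exact_mod_cast hl
  have hbx : (b:ℝ) ≤ x := by exact_mod_cast hx
  have hlx' : (l:ℝ) ≤ x := by exact_mod_cast hlx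
  rw [← Real.log_div (by positivity) (by positivity)]
  have h1 := Real.log_le_sub_one_of_pos
    (x := (((l:ℝ)+1)/l) / (((x:ℝ)+1)/x)) (by positivity)
  have h2 : (((l:ℝ)+1)/l) / (((x:ℝ)+1)/x) - 1 = ((x:ℝ) - l) / (l * (x + 1)) := by
    field_simp
    ring
  rw [h2] at h1
  refine le_trans h1 ?_
  apply div_le_div_of_nonneg_left (by linarith) (by positivity)
  nlinarith

theorem cw_gapl_le {b l x : ℕ} (hb : 1 ≤ b) (hl : b ≤ l) (hx : b ≤ x) :
    gapl l x ≤ (((x : ℝ) - l) * ((x : ℝ) - l - 1)) / (2 * (b : ℝ) ^ 2) := by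
  have hb' : (0:ℝ) < b := by exact_mod_cast hb
  have hl' : (0:ℝ) < l := by exact_mod_cast (by omega : 0 < l)
  have hself : gapl l l = 0 := by unfold gapl; ring
  rcases le_total l x with h | h
  · induction x, h using Nat.le_induction with
    | base => rw [hself]; simp
    | succ x hlx ih =>
      have hbx : b ≤ x := by omega
      have hx' : (0:ℝ) < x := by exact_mod_cast (by omega : 0 < x)
      have h1 := ih hbx
      have h2 := cw_slope hb hl hbx hlx
      have h3 : gapl l (x+1) = gapl l x + (Real.log (((l:ℝ)+1)/l) -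
          Real.log (((x:ℝ)+1)/x)) := by
        unfold gapl
        rw [Real.log_div (x := (x:ℝ)+1) (by positivity) hx'.ne']
        push_cast
        ring
      rw [h3]
      have h4 : (((x + 1 : ℕ) : ℝ) - l) * (((x + 1 : ℕ) : ℝ) - l - 1) / (2 * (b:ℝ)^2) =
          (((x : ℝ) - l) * ((x : ℝ) - l - 1)) / (2 * (b : ℝ) ^ 2) + ((x:ℝ) - l) / (b:ℝ)^2 := by
        push_cast
        field_simp
        ring
      rw [h4]
      linarith
  · obtain ⟨i, hi⟩ : ∃ i, l = x + i := ⟨l - x, by omega⟩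
    have key : ∀ i x : ℕ, b ≤ x → l = x + i →
        gapl l x ≤ (((x : ℝ) - l) * ((x : ℝ) - l - 1)) / (2 * (b : ℝ) ^ 2) := by
      intro i
      induction i with
      | zero => intro x _ hx2; rw [add_zero] at hx2; rw [← hx2, hself]; simp
      | succ i ih =>
        intro x hbx hx2
        have h1 := ih (x+1) (by omega) (by omega)
        have hx' : (0:ℝ) < x := by exact_mod_cast (by omega : 0 < x)
        have h2 := cw_slope hb hbx hl (by omega : x ≤ l)
        have h3 : gapl l (x+1) = gapl l x + (Real.log (((l:ℝ)+1)/l) -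
            Real.log (((x:ℝ)+1)/x)) := by
          unfold gapl
          rw [Real.log_div (x := (x:ℝ)+1) (by positivity) hx'.ne']
          push_cast
          ring
        have h4 : (((x + 1 : ℕ) : ℝ) - l) * (((x + 1 : ℕ) : ℝ) - l - 1) / (2 * (b:ℝ)^2) =
            (((x : ℝ) - l) * ((x : ℝ) - l - 1)) / (2 * (b : ℝ) ^ 2) + ((x:ℝ) - l) / (b:ℝ)^2 := by
          push_cast
          field_simp
          ring
        rw [h4] at h1
        have h5 : ((l:ℝ) - x) / (b:ℝ)^2 = -(((x:ℝ) - l) / (b:ℝ)^2) := by ring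
        linarith
    exact key i x hx hi

theorem cw_sfun_le (N t lam : ℕ) (hN : 1 ≤ N) (hlam : 1 ≤ lam) :
    sfun N t ≤ N * Real.log lam +
      ((t : ℝ) - N * ((lam : ℝ) - 1)) * Real.log (((lam:ℝ) + 1) / lam) := by
  obtain ⟨μ, rfl⟩ : ∃ μ, lam = μ + 1 := ⟨lam - 1, by omega⟩
  have h1 : (t / N) * N ≤ t := Nat.div_mul_le_self t N
  have h2 : t + 1 ≤ (t / N + 1) * N :=
    Nat.lt_mul_of_div_lt (Nat.lt_succ_self (t / N)) hN
  have hN' : (0:ℝ) < N := by exact_mod_cast hN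
  rw [sfun_eq N t hN (t / N) h1 (by omega)]
  set q := t / N with hq
  have c1 := log_le_chord μ q
  have c2 := log_le_chord μ (q + 1)
  have hv : vslope μ = Real.log ((((μ + 1 : ℕ) : ℝ) + 1) / ((μ + 1 : ℕ) : ℝ)) := by
    unfold vslope
    rw [Real.log_div (by positivity) (by positivity)]
    push_cast
    have : (μ:ℝ) + 1 + 1 = μ + 2 := by ring
    rw [this]
  rw [← hv]
  have h1' : (q:ℝ) * N ≤ t := by exact_mod_cast h1
  have h2' : (t:ℝ) ≤ ((q:ℝ) + 1) * N := by exact_mod_cast (by omega : t ≤ (q + 1) * N)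
  have e1 : Real.log (1 + ((q + 1 : ℕ) : ℝ)) = Real.log (1 + (q:ℝ)) + vslope q := by
    unfold vslope
    push_cast
    have e1 : (1:ℝ) + (q + 1) = q + 2 := by ring
    have e2 : (1:ℝ) + q = q + 1 := by ring
    rw [e1, e2]
    ring
  rw [e1] at c2
  push_cast at c1 c2 ⊢
  have e3 : Real.log ((q:ℝ) + 1) = Real.log (1 + (q:ℝ)) := by rw [add_comm]
  rw [e3]
  have k1 : 0 ≤ (t:ℝ) - q * N := by linarith
  have k2 : 0 ≤ (N:ℝ) - (t - q * N) := by nlinarith
  have m1 := mul_le_mul_of_nonneg_left c1 k2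
  have m2 := mul_le_mul_of_nonneg_left c2 k1
  nlinarith

/-! ### distributions -/

theorem cw_sum_range {A : Type*} [AddCommMonoid A] {l J X : ℕ} (hJl : J ≤ l) (hX : l + J < X)
    (g : ℤ → A) (hg : ∀ j : ℤ, ¬ (-(J:ℤ) ≤ j ∧ j ≤ J) → g j = 0) :
    ∑ c ∈ Finset.range X, g ((c:ℤ) - l) = ∑ j ∈ Finset.Icc (-(J:ℤ)) J, g j := by
  symm
  have h1 : ∑ c ∈ Finset.range X, g ((c:ℤ) - l) =
      ∑ c ∈ (Finset.range X).filter (fun c : ℕ => -(J:ℤ) ≤ (c:ℤ) - l ∧ (c:ℤ) - l ≤ J),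
        g ((c:ℤ) - l) := by
    symm
    apply Finset.sum_filter_of_ne
    intro c _ hc
    by_contra hh
    exact hc (hg _ hh)
  rw [h1]
  refine Finset.sum_bij' (fun j _ => (j + l).toNat) (fun c _ => (c:ℤ) - l) ?_ ?_ ?_ ?_ ?_
  · intro j hj
    rw [Finset.mem_Icc] at hj
    rw [Finset.mem_filter, Finset.mem_range]
    omega
  · intro c hc
    rw [Finset.mem_filter] at hc
    rw [Finset.mem_Icc]
    exact hc.2
  · intro j hj
    rw [Finset.mem_Icc] at hj
    omega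
  · intro c hc
    omega
  · intro j hj
    rw [Finset.mem_Icc] at hj
    congr 1
    omega

theorem cw_dst_range {l J e a : ℕ} {E : Finset (Fin d)} {Nw : ℤ → ℕ}
    (hN : ∀ j, Nw j ≠ 0 → -(J:ℤ) ≤ j ∧ j ≤ J) {x₀ : Fin d → ℕ}
    (hx : Dst E e (fun c => a * Nw ((c:ℤ) - l)) x₀) {m : Fin d} (hm : m ∉ E) :
    l ≤ x₀ m + J ∧ x₀ m ≤ l + J := by
  have h1 := hx.2 (x₀ m)
  have h2 : 0 < (Eᶜ.filter (fun m' => x₀ m' = x₀ m)).card :=
    Finset.card_pos.mpr ⟨m, Finset.mem_filter.mpr ⟨Finset.mem_compl.mpr hm, rfl⟩⟩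
  rw [h1] at h2
  have h3 : Nw ((x₀ m : ℤ) - l) ≠ 0 := by
    intro h0
    simp only [h0, mul_zero] at h2
    exact lt_irrefl _ h2
  have h4 := hN _ h3
  omega

theorem cw_sum_dst {l J e a : ℕ} {E : Finset (Fin d)} {Nw : ℤ → ℕ} (hJl : J ≤ l)
    (hN : ∀ j, Nw j ≠ 0 → -(J:ℤ) ≤ j ∧ j ≤ J) {x₀ : Fin d → ℕ}
    (hx : Dst E e (fun c => a * Nw ((c:ℤ) - l)) x₀) (f : ℕ → ℝ) :
    ∑ m, f (x₀ m) = a * ∑ j ∈ Finset.Icc (-(J:ℤ)) J, (Nw j : ℝ) * f (((l:ℤ) + j).toNat) +
      E.card * f e := by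
  rw [← Finset.sum_add_sum_compl E]
  have h1 : ∑ m ∈ E, f (x₀ m) = E.card * f e := by
    rw [Finset.sum_congr rfl (fun m hm => by rw [hx.1 m hm]), Finset.sum_const, nsmul_eq_mul]
  have h2 : ∑ m ∈ Eᶜ, f (x₀ m) =
      ∑ c ∈ Finset.range (l + J + 1), ∑ m ∈ Eᶜ.filter (fun m => x₀ m = c), f (x₀ m) := by
    symm
    apply Finset.sum_fiberwise_of_maps_to
    intro m hm
    have := cw_dst_range hN hx (Finset.mem_compl.mp hm)
    rw [Finset.mem_range]
    omega
  have h3 : ∀ c ∈ Finset.range (l + J + 1), ∑ m ∈ Eᶜ.filter (fun m => x₀ m = c), f (x₀ m) =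
      (fun j : ℤ => (a:ℝ) * ((Nw j : ℝ) * f (((l:ℤ) + j).toNat))) ((c:ℤ) - l) := by
    intro c _
    rw [Finset.sum_congr rfl (g := fun _ => f c)
      (fun m hm => by rw [(Finset.mem_filter.mp hm).2]), Finset.sum_const, nsmul_eq_mul, hx.2 c]
    have e1 : ((l:ℤ) + ((c:ℤ) - l)).toNat = c := by omega
    simp only [e1]
    push_cast
    ring
  rw [h1, h2, Finset.sum_congr rfl h3]
  rw [cw_sum_range hJl (by omega) (fun j : ℤ => (a:ℝ) * ((Nw j : ℝ) * f (((l:ℤ) + j).toNat)))]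
  · rw [Finset.mul_sum]
    ring
  · intro j hj
    have : Nw j = 0 := by
      by_contra hh
      exact hj (hN j hh)
    simp [this]

theorem cw_cnt {l e a : ℕ} {E : Finset (Fin d)} {Nw : ℤ → ℕ} {x₀ : Fin d → ℕ}
    (hx : Dst E e (fun c => a * Nw ((c:ℤ) - l)) x₀) {c : ℕ} (hc : c ≠ e) :
    cnt x₀ Finset.univ c = a * Nw ((c:ℤ) - l) := by
  have h0 : (Eᶜ.filter (fun m => x₀ m = c)).card = a * Nw ((c:ℤ) - l) := hx.2 c
  rw [← h0]
  unfold cnt
  congr 1
  ext m
  rw [Finset.mem_filter, Finset.mem_filter, Finset.mem_compl]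
  constructor
  · rintro ⟨_, h⟩
    refine ⟨fun hm => hc ?_, h⟩
    rw [← h, hx.1 m hm]
  · rintro ⟨_, h⟩
    exact ⟨Finset.mem_univ _, h⟩

theorem cw_qtot {l J M a : ℕ} {Nw qw : ℤ → ℕ} (hJl : J ≤ l)
    (hN : ∀ j, Nw j ≠ 0 → -(J:ℤ) ≤ j ∧ j ≤ J) (hq : ∀ j, qw j ≤ Nw j) :
    qtot (fun c => a * qw ((c:ℤ) - l)) (l + J + M + 1) =
      a * ∑ j ∈ Finset.Icc (-(J:ℤ)) J, qw j := by
  unfold qtot
  rw [cw_sum_range hJl (by omega) (fun j : ℤ => a * qw j), Finset.mul_sum]
  intro j hj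
  have h1 : Nw j = 0 := by
    by_contra hh
    exact hj (hN j hh)
  have h2 := hq j
  have h3 : qw j = 0 := by omega
  simp [h3]

theorem cw_log_WW {l J M a : ℕ} {E : Finset (Fin d)} {Nw qw : ℤ → ℕ} (ha : 1 ≤ a)
    (hM : 1 ≤ M) (hJl : J ≤ l) (hN : ∀ j, Nw j ≠ 0 → -(J:ℤ) ≤ j ∧ j ≤ J)
    (hq : ∀ j, qw j ≤ Nw j) {x₀ : Fin d → ℕ}
    (hx : Dst E (l + J + M) (fun c => a * Nw ((c:ℤ) - l)) x₀) {R : ℕ}
    (hR : R = a * ∑ j ∈ Finset.Icc (-(J:ℤ)) J, qw j) :
    0 < WW x₀ (fun c => a * qw ((c:ℤ) - l)) (l + J + M + 1) ∅ ∧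
    (R:ℝ) * Real.log R - R + ∑ j ∈ Finset.Icc (-(J:ℤ)) J, ((a:ℝ) * ent (Nw j) (qw j) -
      2 * (Real.log (((a * Nw j : ℕ) : ℝ) + 1) + 1)) ≤
      Real.log (WW x₀ (fun c => a * qw ((c:ℤ) - l)) (l + J + M + 1) ∅) := by
  have hqt := cw_qtot (a := a) (M := M) hJl hN hq
  rw [← hR] at hqt
  have hch : ∀ c ∈ Finset.range (l + J + M + 1),
      (Nat.choose (cnt x₀ Finset.univ c) (a * qw ((c:ℤ) - l)) : ℝ) =
      (fun j : ℤ => (Nat.choose (a * Nw j) (a * qw j) : ℝ)) ((c:ℤ) - l) := by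
    intro c _
    rcases eq_or_ne c (l + J + M) with h | h
    · have h1 : Nw ((c:ℤ) - l) = 0 := by
        by_contra hh
        have := hN _ hh
        omega
      have h2 := hq ((c:ℤ) - l)
      have h3 : qw ((c:ℤ) - l) = 0 := by omega
      simp [h3]
    · rw [cw_cnt hx h]
  have hpos : ∀ j : ℤ, (0:ℝ) < (Nat.choose (a * Nw j) (a * qw j) : ℝ) := fun j => by
    exact_mod_cast Nat.choose_pos (Nat.mul_le_mul_left a (hq j))
  rw [WW_empty, hqt, Finset.prod_congr rfl hch]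
  have hf : (0:ℝ) < (R.factorial : ℝ) := by exact_mod_cast Nat.factorial_pos R
  have hp : (0:ℝ) < ∏ c ∈ Finset.range (l + J + M + 1),
      (fun j : ℤ => (Nat.choose (a * Nw j) (a * qw j) : ℝ)) ((c:ℤ) - l) :=
    Finset.prod_pos (fun c _ => hpos _)
  refine ⟨mul_pos hf hp, ?_⟩
  rw [Real.log_mul hf.ne' hp.ne', Real.log_prod (fun c _ => (hpos _).ne')]
  rw [cw_sum_range hJl (by omega)
    (fun j : ℤ => Real.log (Nat.choose (a * Nw j) (a * qw j) : ℝ))]
  · have h1 := cw_fact_ge R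
    have h2 : ∑ j ∈ Finset.Icc (-(J:ℤ)) J, ((a:ℝ) * ent (Nw j) (qw j) -
        2 * (Real.log (((a * Nw j : ℕ) : ℝ) + 1) + 1)) ≤
        ∑ j ∈ Finset.Icc (-(J:ℤ)) J, Real.log (Nat.choose (a * Nw j) (a * qw j) : ℝ) := by
      apply Finset.sum_le_sum
      intro j _
      rw [← cw_ent_smul ha (hq j)]
      exact cw_choose_ge (Nat.mul_le_mul_left a (hq j))
    linarith
  · intro j hj
    have h1 : Nw j = 0 := by
      by_contra hh
      exact hj (hN j hh)
    have h2 := hq j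
    have h3 : qw j = 0 := by omega
    simp [h1, h3]

theorem cw_next {l J M a : ℕ} {E : Finset (Fin d)} {Nw qw Nn : ℤ → ℕ}
    (hM : 1 ≤ M) (hJl : J ≤ l) (hN : ∀ j, Nw j ≠ 0 → -(J:ℤ) ≤ j ∧ j ≤ J)
    (hq : ∀ j, qw j ≤ Nw j) (hflow : ∀ j, Nn j + qw j = Nw j + qw (j - 1))
    {x₀ : Fin d → ℕ} (hx : Dst E (l + J + M) (fun c => a * Nw ((c:ℤ) - l)) x₀)
    {U : Finset (Fin d)} (hU : ∀ c < l + J + M + 1, cnt x₀ U c = a * qw ((c:ℤ) - l)) :
    Dst E (l + J + M) (fun c => a * Nn ((c:ℤ) - l))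
      (fun m => x₀ m + if m ∈ U then 1 else 0) := by
  have hq0 : ∀ j : ℤ, ¬ (-(J:ℤ) ≤ j ∧ j ≤ J) → qw j = 0 := by
    intro j hj
    have h1 : Nw j = 0 := by
      by_contra hh
      exact hj (hN j hh)
    have h2 := hq j
    omega
  have hEU : ∀ m ∈ E, m ∉ U := by
    intro m hm hmU
    have h1 := hU (l + J + M) (by omega)
    rw [hq0 _ (by omega), mul_zero] at h1
    have h2 : m ∈ U.filter (fun m => x₀ m = l + J + M) :=
      Finset.mem_filter.mpr ⟨hmU, hx.1 m hm⟩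
    have h3 : (U.filter (fun m => x₀ m = l + J + M)).card = 0 := h1
    rw [Finset.card_eq_zero] at h3
    rw [h3] at h2
    exact absurd h2 (Finset.notMem_empty m)
  have hUc : ∀ c, cnt x₀ U c = a * qw ((c:ℤ) - l) := by
    intro c
    rcases lt_or_ge c (l + J + M + 1) with h | h
    · exact hU c h
    · rw [hq0 _ (by omega), mul_zero]
      unfold cnt
      rw [Finset.card_eq_zero, Finset.filter_eq_empty_iff]
      intro m hmU hmc
      have h1 := cw_dst_range hN hx (m := m) (fun hm => hEU m hm hmU)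
      omega
  constructor
  · intro m hm
    have h1 := hx.1 m hm
    have h2 := hEU m hm
    simp only [h1, h2, if_false, add_zero]
  · intro c
    have hsplit : Eᶜ.filter (fun m => (x₀ m + if m ∈ U then 1 else 0) = c) =
        (Eᶜ.filter (fun m => x₀ m = c) \ U.filter (fun m => x₀ m = c)) ∪
          U.filter (fun m => x₀ m + 1 = c) := by
      ext m
      simp only [Finset.mem_filter, Finset.mem_union, Finset.mem_sdiff, Finset.mem_compl]
      by_cases hmU : m ∈ U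
      · have hmE : m ∉ E := fun hm => hEU m hm hmU
        simp only [hmU, hmE, if_true, true_and, not_false_eq_true]
        constructor
        · intro h; right; exact h
        · rintro (⟨h, h'⟩ | h)
          · exact absurd h h'
          · exact h
      · simp only [hmU, if_false, add_zero, false_and, not_false_eq_true, and_true, or_false]
    have hsub : U.filter (fun m => x₀ m = c) ⊆ Eᶜ.filter (fun m => x₀ m = c) := by
      intro m hm
      rw [Finset.mem_filter] at hm ⊢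
      exact ⟨Finset.mem_compl.mpr (fun h => hEU m h hm.1), hm.2⟩
    have hdisj : Disjoint (Eᶜ.filter (fun m => x₀ m = c) \ U.filter (fun m => x₀ m = c))
        (U.filter (fun m => x₀ m + 1 = c)) := by
      rw [Finset.disjoint_left]
      intro m hm hm'
      rw [Finset.mem_sdiff, Finset.mem_filter] at hm
      rw [Finset.mem_filter] at hm'
      omega
    rw [hsplit, Finset.card_union_of_disjoint hdisj, Finset.card_sdiff_of_subset hsub, hx.2 c]
    have h1 : (U.filter (fun m => x₀ m = c)).card = a * qw ((c:ℤ) - l) := hUc c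
    have h2 : (U.filter (fun m => x₀ m + 1 = c)).card = a * qw ((c:ℤ) - l - 1) := by
      rcases Nat.eq_zero_or_pos c with h | h
      · subst h
        rw [hq0 _ (by omega), mul_zero, Finset.card_eq_zero, Finset.filter_eq_empty_iff]
        intro m _ hm
        omega
      · have h3 := hUc (c - 1)
        have e1 : ((c - 1 : ℕ) : ℤ) - l = (c:ℤ) - l - 1 := by omega
        rw [e1] at h3
        rw [← h3]
        unfold cnt
        congr 1
        ext m
        rw [Finset.mem_filter, Finset.mem_filter]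
        constructor
        · rintro ⟨h, h'⟩; exact ⟨h, by omega⟩
        · rintro ⟨h, h'⟩; exact ⟨h, by omega⟩
    rw [h1, h2]
    have h3 := congrArg (fun t => a * t) (hflow ((c:ℤ) - l))
    simp only [Nat.mul_add] at h3
    have h4 := Nat.mul_le_mul_left a (hq ((c:ℤ) - l))
    simp only
    omega

/-! ### estimates -/

theorem cw_hst {K x y l b J M u : ℕ} {L v : ℝ} (hb : 1 ≤ b) (hbl : b ≤ l) (hbx : b ≤ x)
    (hxl : x ≤ l + J) (hy : y = l + J + M + 1) (hv : 0 < v) :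
    0 < hst K x y (Real.exp (-L)) v u ∧
    2 * Real.log 2 + 1 - L + Real.log v + u * Real.log (((x:ℝ)+1)/x) - 3 * Real.log l -
      (2 * K + 3 * J + M + 2) / b ≤ Real.log (hst K x y (Real.exp (-L)) v u) := by
  have hb' : (0:ℝ) < b := by exact_mod_cast hb
  have hl' : (0:ℝ) < l := by exact_mod_cast (by omega : 0 < l)
  have hx' : (0:ℝ) < x := by exact_mod_cast (by omega : 0 < x)
  have hy' : (0:ℝ) < y := by exact_mod_cast (by omega : 0 < y)
  have hbl' : (b:ℝ) ≤ l := by exact_mod_cast hbl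
  have hbx' : (b:ℝ) ≤ x := by exact_mod_cast hbx
  have hxl' : (x:ℝ) ≤ l + J := by exact_mod_cast hxl
  have hyv : (y:ℝ) = l + J + M + 1 := by rw [hy]; push_cast; ring
  have hJ0 : (0:ℝ) ≤ J := Nat.cast_nonneg J
  have hM0 : (0:ℝ) ≤ M := Nat.cast_nonneg M
  have hK0 : (0:ℝ) ≤ K := Nat.cast_nonneg K
  have hy1 : (0:ℝ) < 2 * y - 1 := by
    have : (1:ℝ) ≤ y := by exact_mod_cast (by omega : 1 ≤ y)
    linarith
  have hA : (0:ℝ) < 1 + 1 / x := by positivity
  have hAe : (1:ℝ) + 1 / x = ((x:ℝ)+1)/x := by field_simp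
  have hpos : 0 < hst K x y (Real.exp (-L)) v u := by
    unfold hst
    positivity
  refine ⟨hpos, ?_⟩
  have hlog : Real.log (hst K x y (Real.exp (-L)) v u) = Real.log 2 + 1 + (-L) + Real.log v +
      u * Real.log (1 + 1 / (x:ℝ)) - (2 * K : ℕ) * Real.log (1 + 1 / (x:ℝ)) +
      Real.log (2 * (y:ℝ) - 1) - (2 * Real.log y + 2 * Real.log x) := by
    unfold hst
    rw [Real.log_div (by positivity) (by positivity), Real.log_mul (by positivity) hy1.ne',
      Real.log_div (by positivity) (by positivity), Real.log_mul (by positivity) (by positivity),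
      Real.log_mul (by positivity) hv.ne', Real.log_mul (by positivity) (by positivity),
      Real.log_mul (by positivity) (by positivity), Real.log_mul (by positivity) (by positivity),
      Real.log_exp, Real.log_exp, Real.log_pow, Real.log_pow, Real.log_pow, Real.log_pow]
    push_cast
    ring
  rw [hlog, hAe]
  have h1 : Real.log (((x:ℝ)+1)/x) ≤ 1 / b := by
    have := Real.log_le_sub_one_of_pos (x := ((x:ℝ)+1)/x) (by positivity)
    have e : ((x:ℝ)+1)/x - 1 = 1 / x := by field_simp; ring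
    rw [e] at this
    exact le_trans this (one_div_le_one_div_of_le hb' hbx')
  have h2 : Real.log 2 + Real.log y - 1 / b ≤ Real.log (2 * (y:ℝ) - 1) := by
    have h := Real.log_le_sub_one_of_pos (x := (2 * (y:ℝ)) / (2 * y - 1)) (by positivity)
    rw [Real.log_div (by positivity) hy1.ne', Real.log_mul (by norm_num) hy'.ne'] at h
    have e : (2 * (y:ℝ)) / (2 * y - 1) - 1 = 1 / (2 * y - 1) := by
      field_simp
      ring
    rw [e] at h
    have h3 : 1 / (2 * (y:ℝ) - 1) ≤ 1 / b := one_div_le_one_div_of_le hb' (by linarith)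
    linarith
  have h3 : Real.log y ≤ Real.log l + (J + M + 1) / b := by
    have h := Real.log_le_sub_one_of_pos (x := (y:ℝ) / l) (by positivity)
    rw [Real.log_div hy'.ne' hl'.ne'] at h
    have e : (y:ℝ) / l - 1 = (J + M + 1) / l := by
      rw [hyv]; field_simp; ring
    rw [e] at h
    have h4 : ((J:ℝ) + M + 1) / l ≤ (J + M + 1) / b :=
      div_le_div_of_nonneg_left (by positivity) hb' hbl'
    linarith
  have h4 : Real.log x ≤ Real.log l + J / b := by
    have h := Real.log_le_sub_one_of_pos (x := ((l:ℝ) + J) / l) (by positivity)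
    rw [Real.log_div (by positivity) hl'.ne'] at h
    have e : ((l:ℝ) + J) / l - 1 = J / l := by field_simp; ring
    rw [e] at h
    have h4 : (J:ℝ) / l ≤ J / b := div_le_div_of_nonneg_left hJ0 hb' hbl'
    have h5 : Real.log x ≤ Real.log ((l:ℝ) + J) := Real.log_le_log hx' hxl'
    linarith
  have h5 : ((2 * K : ℕ) : ℝ) * Real.log (((x:ℝ)+1)/x) ≤ 2 * K * (1 / b) := by
    push_cast
    exact mul_le_mul_of_nonneg_left h1 (by positivity)
  have e1 : (2 * (K:ℝ) + 3 * J + M + 2) / b =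
      2 * K * (1 / b) + 1 / b + (J + M + 1) / b + 2 * (J / b) := by
    field_simp
    ring
  rw [e1]
  linarith

theorem cw_Bx {l b J t : ℕ} (hd : 1 ≤ d) (hb : 1 ≤ b) (hbl : b + J = l)
    (ht : (b - 1) * d ≤ t) :
    Bx d t + Bx d (t + 1) ≤ sfun d t + 2 * Real.log 2 + 2 * Real.log d - 1 -
      3 * Real.log l + (3 * J + 1) / b := by
  have hb' : (0:ℝ) < b := by exact_mod_cast hb
  have hd' : (0:ℝ) < d := by exact_mod_cast hd
  have hJ0 : (0:ℝ) ≤ J := Nat.cast_nonneg J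
  have hl' : (0:ℝ) < l := by exact_mod_cast (by omega : 0 < l)
  have hlv : (l:ℝ) = b + J := by rw [← hbl]; push_cast; ring
  have hlev : ∀ s, t ≤ s → b ≤ lev d s := by
    intro s hs
    unfold lev
    have : b - 1 ≤ s / d := (Nat.le_div_iff_mul_le hd).mpr (le_trans ht hs)
    omega
  have hB : ∀ s, t ≤ s → Bx d s ≤ (sfun d s + (2 * Real.log 2 + 2 * Real.log d - 1 -
      3 * Real.log b)) / 2 := by
    intro s hs
    have h1 : (b:ℝ) ≤ lev d s := by exact_mod_cast hlev s hs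
    have h2 : (0:ℝ) < lev d s := lt_of_lt_of_le hb' h1
    have h3 : Real.log (4 * (d : ℝ) ^ 2 / (Real.exp 1 * (lev d s : ℝ) ^ 3)) =
        2 * Real.log 2 + 2 * Real.log d - 1 - 3 * Real.log (lev d s) := by
      rw [Real.log_div (by positivity) (by positivity), Real.log_mul (by norm_num) (by positivity),
        Real.log_mul (by positivity) (by positivity), Real.log_exp, Real.log_pow, Real.log_pow,
        show (4:ℝ) = 2 ^ 2 by norm_num, Real.log_pow]
      push_cast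
      ring
    unfold Bx
    rw [h3]
    have h4 : Real.log b ≤ Real.log (lev d s) := Real.log_le_log hb' h1
    linarith
  have h1 := hB t le_rfl
  have h2 := hB (t + 1) (by omega)
  have h3 : sfun d (t + 1) ≤ sfun d t + 1 / b := by
    rw [sfun_succ' d t hd]
    have h4 := vslope_le (t / d)
    have h5 : (b:ℝ) ≤ ((t / d : ℕ) : ℝ) + 1 := by
      have := hlev t le_rfl
      unfold lev at this
      exact_mod_cast this
    have h6 := one_div_le_one_div_of_le hb' h5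
    linarith
  have h4 : Real.log l ≤ Real.log b + J / b := by
    have h := Real.log_le_sub_one_of_pos (x := (l:ℝ) / b) (by positivity)
    rw [Real.log_div hl'.ne' hb'.ne'] at h
    have e : (l:ℝ) / b - 1 = J / b := by rw [hlv]; field_simp; ring
    rw [e] at h
    linarith
  have e1 : (3 * (J:ℝ) + 1) / b = 3 * (J / b) + 1 / b := by ring
  have h0 : 0 ≤ 1 / (b:ℝ) := by positivity
  rw [e1]
  linarith

theorem cw_sum_two (f : ℕ → ℝ) (t r : ℕ) :
    ∑ s ∈ Finset.Ico t (t + 2 * r), f s =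
      ∑ i ∈ Finset.range r, (f (t + 2 * i) + f (t + 2 * i + 1)) := by
  induction r with
  | zero => simp
  | succ r ih =>
    rw [Finset.sum_range_succ, ← ih, show t + 2 * (r + 1) = (t + 2 * r + 1) + 1 by ring,
      Finset.sum_Ico_succ_top (by omega), Finset.sum_Ico_succ_top (by omega)]
    ring

theorem cw_sum_idx (r : ℕ) (G h : ℝ) (hh : 0 ≤ h) :
    ∑ i ∈ Finset.range r, (G + ((2 * i : ℕ) : ℝ) * h) ≤ r * G + (r:ℝ) ^ 2 * h := by
  induction r with
  | zero => simp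
  | succ r ih =>
    rw [Finset.sum_range_succ]
    push_cast at ih ⊢
    nlinarith

/-- the penalties -/
theorem cw_penalty {κ b a F D den P Q h e R G : ℝ} (hκ : 0 ≤ κ) (hb : 0 < b) (hD : 0 < D)
    (hden : 0 < den) (ha : 0 ≤ a) (hF : 0 ≤ F) (hP : 0 ≤ P) (hQ : 0 ≤ Q) (hh : 0 ≤ h)
    (he : 0 ≤ e) (hR : R = a * F) (hRD : R ≤ D) (haD : a * den ≤ D)
    (hb2 : D ≤ 4 * κ * b ^ 2) (hG : G ≤ (a * P + e * Q) / (2 * b ^ 2)) :
    R / 2 * G + (R / 2) ^ 2 * (h / b ^ 2) ≤
      D * (F / den * (κ * (P / den + F / den * h))) + e * Q * κ := by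
  have hb2' : (0:ℝ) < b ^ 2 := by positivity
  have hinv : 1 / b ^ 2 ≤ 4 * κ / D := by
    rw [div_le_div_iff₀ hb2' hD]
    linarith
  have hR0 : 0 ≤ R := by rw [hR]; positivity
  have h1 : R / 2 * G ≤ R / 2 * ((a * P + e * Q) / (2 * b ^ 2)) :=
    mul_le_mul_of_nonneg_left hG (by positivity)
  have h2 : R / 2 * ((a * P + e * Q) / (2 * b ^ 2)) + (R / 2) ^ 2 * (h / b ^ 2) =
      (R * (a * P + e * Q) / 4 + R ^ 2 * h / 4) * (1 / b ^ 2) := by
    field_simp
    ring
  have h3 : (R * (a * P + e * Q) / 4 + R ^ 2 * h / 4) * (1 / b ^ 2) ≤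
      (R * (a * P + e * Q) / 4 + R ^ 2 * h / 4) * (4 * κ / D) :=
    mul_le_mul_of_nonneg_left hinv (by positivity)
  have h4 : (R * (a * P + e * Q) / 4 + R ^ 2 * h / 4) * (4 * κ / D) =
      a ^ 2 * (F * κ * (P + F * h)) / D + R / D * (e * Q * κ) := by
    rw [hR]
    field_simp
    ring
  have h5 : a ^ 2 * (F * κ * (P + F * h)) / D ≤
      D * (F / den * (κ * (P / den + F / den * h))) := by
    have e1 : D * (F / den * (κ * (P / den + F / den * h))) =
        (D / den) ^ 2 * (F * κ * (P + F * h)) / D := by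
      field_simp
    rw [e1]
    apply div_le_div_of_nonneg_right _ hD.le
    apply mul_le_mul_of_nonneg_right _ (by positivity)
    apply pow_le_pow_left₀ ha
    rw [le_div_iff₀ hden]
    exact haD
  have h6 : R / D * (e * Q * κ) ≤ 1 * (e * Q * κ) := by
    apply mul_le_mul_of_nonneg_right _ (by positivity)
    rw [div_le_one hD]
    exact hRD
  linarith

/-- the entropy part -/
theorem cw_entropy {a F D den e S R : ℝ} (hden : 0 < den) (ha : 0 < a) (hF : 0 ≤ F)
    (he : 0 ≤ e) (hR : R = a * F) (hRD : R ≤ D) (haD : a * den + e = D) (heD : 2 * e ≤ D)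
    (hD : 0 < D) :
    D * (S / den + F / den * Real.log (F / den)) + R * Real.log D -
      e * (2 + |S / den + F / den * Real.log (F / den)|) ≤ R * Real.log R + a * S := by
  set A := S / den + F / den * Real.log (F / den) with hA
  have hR0 : 0 ≤ R := by rw [hR]; positivity
  have h1 : Real.log D - 2 * e / D ≤ Real.log (a * den) := by
    have hpos : 0 < a * den := by positivity
    have h := Real.log_le_sub_one_of_pos (x := D / (a * den)) (by positivity)
    rw [Real.log_div hD.ne' hpos.ne'] at h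
    have e1 : D / (a * den) - 1 = e / (a * den) := by
      rw [← haD]; field_simp; ring
    rw [e1] at h
    have h2 : e / (a * den) ≤ 2 * e / D := by
      rw [div_le_div_iff₀ hpos hD]
      nlinarith
    linarith
  have h2 : R * Real.log R = R * Real.log (a * den) + R * Real.log (F / den) := by
    rcases eq_or_lt_of_le hF with h0 | h0
    · rw [hR, ← h0]; simp
    · have e1 : R = (a * den) * (F / den) := by rw [hR]; field_simp
      have h3 : Real.log R = Real.log (a * den) + Real.log (F / den) := by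
        rw [e1, Real.log_mul (by positivity) (by positivity)]
      rw [h3]
      ring
  have h3 : R * (Real.log D - 2 * e / D) ≤ R * Real.log (a * den) :=
    mul_le_mul_of_nonneg_left h1 hR0
  have h4 : R * (2 * e / D) ≤ 2 * e := by
    have : R * (2 * e / D) = R / D * (2 * e) := by ring
    rw [this]
    have h5 : R / D ≤ 1 := by rw [div_le_one hD]; exact hRD
    nlinarith
  have h5 : R * Real.log (F / den) + a * S = a * den * A := by
    rw [hA, hR]
    field_simp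
    ring
  have h6 : a * den * A = D * A - e * A := by rw [← haD]; ring
  have h7 : e * A ≤ e * |A| := mul_le_mul_of_nonneg_left (le_abs_self A) he
  rw [h2]
  nlinarith

theorem cw_consec_nonneg (j : ℤ) : (0:ℝ) ≤ (j:ℝ) * ((j:ℝ) - 1) := by
  have h : (0:ℤ) ≤ j * (j - 1) := by
    rcases le_or_gt 1 j with h | h
    · exact mul_nonneg (by omega) (by omega)
    · exact mul_nonneg_of_nonpos_of_nonpos (by omega) (by omega)
  exact_mod_cast h

theorem cw_sum_split (r : ℕ) (A G : ℕ → ℝ) (c₁ c₂ : ℝ) :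
    ∑ i ∈ Finset.range r, (A i - c₁ - G i - c₂) =
      ∑ i ∈ Finset.range r, A i - r * c₁ - ∑ i ∈ Finset.range r, G i - r * c₂ := by
  rw [Finset.sum_sub_distrib, Finset.sum_sub_distrib, Finset.sum_sub_distrib, Finset.sum_const,
    Finset.sum_const, Finset.card_range, nsmul_eq_mul, nsmul_eq_mul]

theorem cw_cho {J a : ℕ} {D : ℝ} {Nw : ℤ → ℕ} (hD : 1 ≤ D) (hlog : 1 ≤ Real.log D)
    (hcount : (a:ℝ) * ∑ j ∈ Finset.Icc (-(J : ℤ)) J, (Nw j : ℝ) ≤ D) :
    ∑ j ∈ Finset.Icc (-(J:ℤ)) J, (2 * (Real.log (((a * Nw j : ℕ) : ℝ) + 1) + 1)) ≤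
        (2 * J + 1) * 6 * Real.log D := by
  have hd0 : 0 < D := by linarith
  have h1 : ∀ j ∈ Finset.Icc (-(J:ℤ)) J,
      2 * (Real.log (((a * Nw j : ℕ) : ℝ) + 1) + 1) ≤ 6 * Real.log D := by
    intro j hj
    have h2 : (Nw j : ℝ) ≤ ∑ j ∈ Finset.Icc (-(J : ℤ)) J, (Nw j : ℝ) :=
      Finset.single_le_sum (f := fun j => (Nw j : ℝ)) (fun i _ => Nat.cast_nonneg _) hj
    have h3 : ((a * Nw j : ℕ) : ℝ) ≤ D := by
      push_cast
      have := mul_le_mul_of_nonneg_left h2 (Nat.cast_nonneg (α := ℝ) a)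
      linarith
    have h4 : Real.log (((a * Nw j : ℕ) : ℝ) + 1) ≤ Real.log (D * 2) := by
      apply Real.log_le_log (by positivity)
      linarith
    rw [Real.log_mul hd0.ne' (by norm_num)] at h4
    have h5 := Real.log_two_lt_d9
    linarith
  refine le_trans (Finset.sum_le_sum h1) (le_of_eq ?_)
  rw [Finset.sum_const, Int.card_Icc, nsmul_eq_mul]
  have h6 : ((J:ℤ) + 1 - -(J:ℤ)).toNat = 2 * J + 1 := by omega
  rw [h6]
  push_cast
  ring

theorem cw_Lbound {t₀ k R l b J M : ℕ} {L κ lv : ℝ} (hd1 : 1 ≤ d) (hb1 : 1 ≤ b)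
    (hb : l = b + J) (hκ : 0 ≤ κ) (hvS : lv ≤ sfun d t₀) (hk : t₀ + R ≤ k)
    (hL : sfun d k + 6 * Real.log d ≤ L) (htu : (t₀:ℝ) + d ≤ d * (l + J + M))
    (hRd : (R:ℝ) ≤ d) (hb2 : (d:ℝ) ≤ 4 * κ * (b:ℝ) ^ 2) :
    lv - L + R * Real.log (1 + 1 / (b:ℝ)) ≤ 4 * κ * (2 * J + M + 2) - 6 * Real.log d := by
  have hb' : (0:ℝ) < b := by exact_mod_cast hb1
  have hd0 : (0:ℝ) < d := by exact_mod_cast hd1
  have hR0 : (0:ℝ) ≤ R := Nat.cast_nonneg R
  have hJ0 : (0:ℝ) ≤ J := Nat.cast_nonneg J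
  have hM0 : (0:ℝ) ≤ M := Nat.cast_nonneg M
  have hlb : (l:ℝ) = b + J := by rw [hb]; push_cast; ring
  have h1 : sfun d (t₀ + R) ≤ sfun d k := sfun_mono d hd1 hk
  have h2 := le_sfun_add d t₀ R hd1
  have h3 : Real.log (1 + 1 / (b:ℝ)) ≤ 1 / b := by
    have := Real.log_le_sub_one_of_pos (x := 1 + 1 / (b:ℝ)) (by positivity)
    linarith
  have h4 : (R:ℝ) * Real.log (1 + 1 / (b:ℝ)) ≤ R * (1 / b) := mul_le_mul_of_nonneg_left h3 hR0
  have hY : (0:ℝ) < l + J + M + 2 := by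
    have : (0:ℝ) ≤ l := Nat.cast_nonneg l
    positivity
  have h5 : 1 / ((l:ℝ) + J + M + 2) ≤ (d:ℝ) / (t₀ + R + 2 * d) := by
    rw [div_le_div_iff₀ hY (by positivity)]
    nlinarith
  have h6 : (R:ℝ) * (1 / ((l:ℝ) + J + M + 2)) ≤ R * ((d:ℝ) / (t₀ + R + 2 * d)) :=
    mul_le_mul_of_nonneg_left h5 hR0
  have h7 : (R:ℝ) * (1 / b) - R * (1 / ((l:ℝ) + J + M + 2)) ≤ 4 * κ * (2 * J + M + 2) := by
    have e1 : (R:ℝ) * (1 / b) - R * (1 / ((l:ℝ) + J + M + 2)) =
        R * (2 * J + M + 2) / (b * (l + J + M + 2)) := by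
      rw [hlb] at hY ⊢
      field_simp
      ring
    rw [e1, div_le_iff₀ (by positivity)]
    have h8 : (R:ℝ) ≤ 4 * κ * (b:ℝ) ^ 2 := le_trans hRd hb2
    have h9 : (b:ℝ) ^ 2 ≤ b * (l + J + M + 2) := by
      rw [hlb]
      nlinarith
    calc (R:ℝ) * (2 * J + M + 2) ≤ (4 * κ * (b:ℝ) ^ 2) * (2 * J + M + 2) :=
          mul_le_mul_of_nonneg_right h8 (by positivity)
      _ ≤ (4 * κ * (b * (l + J + M + 2))) * (2 * J + M + 2) := by
          apply mul_le_mul_of_nonneg_right _ (by positivity)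
          exact mul_le_mul_of_nonneg_left h9 (by positivity)
      _ = _ := by ring
  linarith

/-- the volume hypothesis -/
theorem cw_volhyp {R b : ℕ} {L κ v η X : ℝ} (hd1 : 1 ≤ d) (hb1 : 1 ≤ b) (hv0 : 0 < v)
    (hη0 : 0 < η)
    (h : Real.log v - L + R * Real.log (1 + 1 / (b:ℝ)) ≤ 4 * κ * X - 6 * Real.log d)
    (hD : (Real.log 2 + 4 * κ * X - Real.log (η / 2)) / 4 ≤ Real.log d) :
    Real.exp (-L) * (2 * (d : ℝ) ^ 2 * (v * (1 + 1 / (b : ℝ)) ^ R)) ≤ η / 2 := by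
  have hb' : (0:ℝ) < b := by exact_mod_cast hb1
  have hd0 : (0:ℝ) < d := by exact_mod_cast hd1
  have hpos : 0 < Real.exp (-L) * (2 * (d : ℝ) ^ 2 * (v * (1 + 1 / (b : ℝ)) ^ R)) := by
    positivity
  rw [← Real.log_le_log_iff hpos (by positivity)]
  rw [Real.log_mul (by positivity) (by positivity), Real.log_exp,
    Real.log_mul (by positivity) (by positivity), Real.log_mul (by norm_num) (by positivity),
    Real.log_mul (by positivity) (by positivity), Real.log_pow, Real.log_pow]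
  push_cast
  linarith

theorem cw_half {L S D : ℝ} (hlogd : 1 ≤ Real.log D) (hS : 0 ≤ S)
    (hL : S + 6 * Real.log D ≤ L) : Real.exp (-L) ≤ 1 / 2 := by
  have h1 : Real.exp (-L) ≤ Real.exp (-1) := Real.exp_le_exp.mpr (by linarith)
  have h2 : Real.exp (-1) ≤ 1 / 2 := by
    rw [Real.exp_neg, ← one_div]
    apply one_div_le_one_div_of_le (by norm_num)
    have := Real.add_one_le_exp (1:ℝ)
    linarith
  linarith

theorem cw_hy4 {d' y l J M : ℕ} (hd1 : 1 ≤ d') (hy : y = l + J + M + 1) (hld : l ≤ d')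
    (hlogd : 1 ≤ Real.log d') : Real.log (4 * (d':ℝ) * y) ≤
      (2 + Real.log 4 + Real.log (J + M + 2)) * Real.log d' := by
  have hd0 : (0:ℝ) < d' := by exact_mod_cast hd1
  have hd1' : (1:ℝ) ≤ d' := by exact_mod_cast hd1
  have hyp : (0:ℝ) < y := by exact_mod_cast (by omega : 0 < y)
  have hJ0 : (0:ℝ) ≤ J := Nat.cast_nonneg J
  have hM0 : (0:ℝ) ≤ M := Nat.cast_nonneg M
  have h1 : (y:ℝ) ≤ d' * (J + M + 2) := by
    have h2 : (y:ℝ) = l + J + M + 1 := by rw [hy]; push_cast; ring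
    have h3 : (l:ℝ) ≤ d' := by exact_mod_cast hld
    rw [h2]
    nlinarith
  have h2 : Real.log (4 * (d':ℝ) * y) ≤ Real.log (4 * (d':ℝ) * (d' * (J + M + 2))) := by
    apply Real.log_le_log (by positivity)
    exact mul_le_mul_of_nonneg_left h1 (by positivity)
  rw [Real.log_mul (x := 4 * (d':ℝ)) (y := d' * (J + M + 2)) (by positivity) (by positivity),
    Real.log_mul (x := 4) (y := (d':ℝ)) (by norm_num) hd0.ne',
    Real.log_mul (x := (d':ℝ)) (y := J + M + 2) hd0.ne' (by positivity)] at h2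
  have h3 : 0 ≤ Real.log 4 := Real.log_nonneg (by norm_num)
  have h4 : 0 ≤ Real.log ((J:ℝ) + M + 2) := Real.log_nonneg (by linarith)
  nlinarith

/-- the final comparison -/
theorem cw_final {K J : ℕ} {ld ls ly sB R G hb A Pn Qn eE e₀ aA lW aS sC sH η ε C3b Rl c4 κ
    tgt C : ℝ} (hlogd : 1 ≤ ld) (hR0 : 0 ≤ R) (hε : 0 ≤ ε) (hη : η ≤ ε / 2) (hC3 : C3b ≤ ε / 2)
    (hls : -aA ≤ ls) (haA : 0 ≤ aA)
    (hy4 : ly ≤ c4 * ld)
    (hW : Rl - R + (aS - sC) ≤ lW) (hcho : sC ≤ (2 * J + 1) * 6 * ld)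
    (hent : tgt + R * ld - eE * (2 + |A|) ≤ Rl + aS)
    (hpen : R / 2 * G + (R / 2) ^ 2 * hb ≤ Pn + eE * Qn * κ)
    (hS1 : sB - (R * ld - R) - (R / 2 * G + (R / 2) ^ 2 * hb) - R / 2 * C3b ≤ sH)
    (hQ0 : 0 ≤ Qn) (hκ : 0 ≤ κ) (heE : 0 ≤ eE) (hE : eE ≤ e₀)
    (hCe : C = 2 * K * c4 + aA + e₀ * (2 + |A|) + (2 * J + 1) * 6 + e₀ * Qn * κ) :
    sB + (tgt - Pn) - ε * R - C * ld ≤
      ls + ((2 * K : ℕ) : ℝ) * -ly + -(η * R) + lW + sH := by
  have he0 : 0 ≤ e₀ := le_trans heE hE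
  have hyK : ((2 * K : ℕ) : ℝ) * ly ≤ 2 * K * (c4 * ld) := by
    push_cast
    exact mul_le_mul_of_nonneg_left hy4 (by positivity)
  have hη' : η * R ≤ ε / 2 * R := mul_le_mul_of_nonneg_right hη hR0
  have hC3' : R / 2 * C3b ≤ R / 2 * (ε / 2) := mul_le_mul_of_nonneg_left hC3 (by positivity)
  have hε' : 0 ≤ R * ε := mul_nonneg hR0 hε
  have hEA : eE * (2 + |A|) ≤ e₀ * (2 + |A|) := mul_le_mul_of_nonneg_right hE (by positivity)
  have hEQ : eE * Qn * κ ≤ e₀ * Qn * κ := by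
    apply mul_le_mul_of_nonneg_right _ hκ
    exact mul_le_mul_of_nonneg_right hE hQ0
  have hc1 : aA ≤ aA * ld := le_mul_of_one_le_right haA hlogd
  have hc2 : e₀ * (2 + |A|) ≤ e₀ * (2 + |A|) * ld :=
    le_mul_of_one_le_right (by positivity) hlogd
  have hc3 : e₀ * Qn * κ ≤ e₀ * Qn * κ * ld := le_mul_of_one_le_right (by positivity) hlogd
  have hCe' : C * ld = 2 * K * (c4 * ld) + aA * ld + e₀ * (2 + |A|) * ld +
      (2 * J + 1) * 6 * ld + e₀ * Qn * κ * ld := by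
    rw [hCe]; ring
  rw [hCe']
  linarith

/-- one window -/
theorem cw_window {κ V : ℝ} {M W J den : ℕ} {N q : ℕ → ℤ → ℕ} {lm tp : ℕ → ℤ}
    (hC : LCert κ V M W J den N q lm tp) (hκ : 0 ≤ κ) (ε : ℝ) (hε : 0 < ε) (w : ℕ) (hw : w < W) :
    ∃ C : ℝ, 0 ≤ C ∧ ∃ D₀ : ℕ, ∀ (n d a l t₀ k : ℕ) (L : ℝ) (z : Vtx n d)
      (E : Finset (Fin d)), D₀ ≤ d → Even a → a * den + E.card = d → E.card ≤ 4 * den + 4 →
      (1 + ε) * d ≤ 4 * κ * ((l : ℝ) - J) ^ 2 → 2 * J ≤ l → l ≤ d →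
      t₀ + d = a * (∑ j ∈ Finset.Icc (-(J : ℤ)) J, N w j * (l + j).toNat) +
        E.card * (l + J + M) →
      t₀ + a * fsum J q w ≤ k → k ≤ d ^ 2 → sfun d k + 6 * Real.log d ≤ L →
      Room (l + J + M + 3) z →
      Reach (Real.exp (-L)) z (Dst E (l + J + M) (fun c => a * N w ((c : ℤ) - l)))
        (Dst E (l + J + M) (fun c => a * N (w + 1) ((c : ℤ) - l)))
        (Real.exp (∑ t ∈ Finset.Ico t₀ (t₀ + a * fsum J q w), (Bx d t - L / 2) +
          d * ((∑ j ∈ Finset.Icc (-(J : ℤ)) J, ent (N w j) (q w j)) / den +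
            (fsum J q w : ℝ) / den * (Real.log ((fsum J q w : ℝ) / den) -
              κ * ((∑ j ∈ Finset.Icc (-(J : ℤ)) J,
                  (N w j : ℝ) * ((j - lm w) * (j - lm w - 1))) / den +
                (fsum J q w : ℝ) / den * max 0 ((tp w : ℝ) - lm w)))) -
          ε * (a * fsum J q w : ℕ) - C * Real.log d)) := by
  classical
  set η : ℝ := min (ε / 2) 1 with hη
  have hη0 : 0 < η := lt_min (by linarith) one_pos
  have hη1 : η ≤ 1 := min_le_right _ _
  have hηε : η ≤ ε / 2 := min_le_left _ _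
  obtain ⟨K, s, hs⟩ := exists_weights η hη0
  set F : ℕ := fsum J q w with hF
  set Sent : ℝ := ∑ j ∈ Finset.Icc (-(J : ℤ)) J, ent (N w j) (q w j) with hSent
  set P : ℝ := ∑ j ∈ Finset.Icc (-(J : ℤ)) J, (N w j : ℝ) * ((j - lm w) * (j - lm w - 1))
    with hP
  set h : ℝ := max 0 ((tp w : ℝ) - lm w) with hh
  set A : ℝ := Sent / den + (F:ℝ) / den * Real.log ((F:ℝ) / den) with hA
  set Q : ℝ := ((J : ℝ) + M - lm w) * ((J : ℝ) + M - lm w - 1) with hQ
  set e₀ : ℝ := 4 * den + 4 with he₀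
  set C3 : ℝ := (2 * K + 3 * J + M + 2) + (3 * J + 1) with hC3
  have hden1 : 1 ≤ den := hC.den_pos
  have hM1 : 1 ≤ M := hC.M_pos
  have hdenp : (0:ℝ) < den := by exact_mod_cast hden1
  have hh0 : 0 ≤ h := le_max_left _ _
  have hP0 : 0 ≤ P := by
    apply Finset.sum_nonneg
    intro j _
    have h1 := cw_consec_nonneg (j - lm w)
    push_cast at h1
    exact mul_nonneg (Nat.cast_nonneg _) h1
  have hQ0 : 0 ≤ Q := by
    have h1 := cw_consec_nonneg ((J:ℤ) + M - lm w)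
    push_cast at h1
    exact h1
  have he00 : 0 ≤ e₀ := by positivity
  have hC30 : 0 ≤ C3 := by positivity
  set C : ℝ := 2 * K * (2 + Real.log 4 + Real.log (J + M + 2)) + |Real.log (s 0)| +
    e₀ * (2 + |A|) + (2 * J + 1) * 6 + e₀ * Q * κ with hCdef
  have hC0 : 0 ≤ C := by
    have h1 : 0 ≤ Real.log 4 := Real.log_nonneg (by norm_num)
    have h2 : 0 ≤ Real.log ((J:ℝ) + M + 2) := Real.log_nonneg (by
      have : (0:ℝ) ≤ J := Nat.cast_nonneg J
      have : (0:ℝ) ≤ M := Nat.cast_nonneg M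
      linarith)
    positivity
  refine ⟨C, hC0, ?_⟩
  obtain ⟨D₁, hD₁⟩ := exists_nat_ge (4 * κ * (C3 / (ε / 2)) ^ 2 +
    Real.exp ((Real.log 2 + 4 * κ * (2 * J + M + 2) - Real.log (η / 2)) / 4) + 2 * e₀ + 3)
  refine ⟨D₁, ?_⟩
  intro n d a l t₀ k L z E hd haev haE hEc hcond hJl hld ht₀ hk hkd hL hroom
  have hdR : (D₁:ℝ) ≤ d := by exact_mod_cast hd
  have hexp0 := Real.exp_pos
    ((Real.log 2 + 4 * κ * (2 * J + M + 2) - Real.log (η / 2)) / 4)
  have hk1 : 0 ≤ 4 * κ * (C3 / (ε / 2)) ^ 2 := by positivity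
  have hd3 : (3:ℝ) ≤ d := by linarith
  have hde : 2 * e₀ ≤ d := by linarith
  have hdC : 4 * κ * (C3 / (ε / 2)) ^ 2 ≤ d := by linarith
  have hdx : Real.exp ((Real.log 2 + 4 * κ * (2 * J + M + 2) - Real.log (η / 2)) / 4) ≤ d := by
    linarith
  have hd0 : (0:ℝ) < d := by linarith
  have hd1 : 1 ≤ d := by
    have : (1:ℝ) ≤ d := by linarith
    exact_mod_cast this
  have hlogd : 1 ≤ Real.log d := by
    rw [Real.le_log_iff_exp_le hd0]
    have := Real.exp_one_lt_d9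
    linarith
  have hlogd4 : (Real.log 2 + 4 * κ * (2 * J + M + 2) - Real.log (η / 2)) / 4 ≤ Real.log d := by
    rw [Real.le_log_iff_exp_le hd0]
    exact hdx
  -- `b = l - J`
  have hJl' : J ≤ l := by omega
  obtain ⟨b, hb⟩ : ∃ b, l = b + J := ⟨l - J, by omega⟩
  have hbR : (l:ℝ) - J = b := by rw [hb]; push_cast; ring
  rw [hbR] at hcond
  have hJ0 : (0:ℝ) ≤ J := Nat.cast_nonneg J
  have hM0 : (0:ℝ) ≤ M := Nat.cast_nonneg M
  have hb2 : (d:ℝ) ≤ 4 * κ * (b:ℝ) ^ 2 := by nlinarith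
  have hb1 : 1 ≤ b := by
    rcases Nat.eq_zero_or_pos b with h0 | h0
    · exfalso
      rw [h0] at hb2
      norm_num at hb2
      linarith
    · exact h0
  have hb' : (0:ℝ) < b := by exact_mod_cast hb1
  have hκ' : 0 < κ := by
    rcases eq_or_lt_of_le hκ with h0 | h0
    · exfalso
      rw [← h0] at hb2
      simp at hb2
      linarith
    · exact h0
  have hbC : C3 / b ≤ ε / 2 := by
    rw [div_le_iff₀ hb', ← div_le_iff₀' (by linarith : (0:ℝ) < ε / 2)]
    have h1 : (C3 / (ε / 2)) ^ 2 ≤ (b:ℝ) ^ 2 := by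
      have h2 := le_trans hdC hb2
      exact le_of_mul_le_mul_left h2 (by positivity)
    exact le_of_sq_le_sq h1 hb'.le
  -- side lengths
  have htp := hC.tp_le w hw
  have hlm := hC.lm_le w hw
  obtain ⟨x, hx⟩ : ∃ x : ℕ, (x:ℤ) = l + tp w := ⟨((l:ℤ) + tp w).toNat, by omega⟩
  obtain ⟨lam, hlam⟩ : ∃ lam : ℕ, (lam:ℤ) = l + lm w := ⟨((l:ℤ) + lm w).toNat, by omega⟩
  have hbx : b ≤ x := by omega
  have hbl : b ≤ lam := by omega
  have hxl : x ≤ l + J := by omega
  obtain ⟨y, hy⟩ : ∃ y, y = l + J + M + 1 := ⟨_, rfl⟩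
  -- certificate
  have hNs : ∀ j, N w j ≠ 0 → -(J:ℤ) ≤ j ∧ j ≤ J := hC.supp w hw.le
  have hqN : ∀ j, q w j ≤ N w j := hC.q_le w
  obtain ⟨R, hR⟩ : ∃ R, R = a * F := ⟨_, rfl⟩
  have haden : (a:ℝ) * den + E.card = d := by exact_mod_cast haE
  have hEcR : (E.card : ℝ) ≤ e₀ := by rw [he₀]; exact_mod_cast hEc
  have ha1 : 1 ≤ a := by
    rcases Nat.eq_zero_or_pos a with h0 | h0
    · exfalso
      rw [h0] at haden
      norm_num at haden
      rw [haden] at hEcR
      linarith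
    · exact h0
  have ha0 : (0:ℝ) < a := by exact_mod_cast ha1
  rw [← hR] at hk
  rw [← hR]
  apply cw_reach_of_forall
  intro x₀ hx₀
  -- counting
  have hcount : (d:ℝ) = a * ∑ j ∈ Finset.Icc (-(J : ℤ)) J, (N w j : ℝ) + E.card := by
    have h1 := cw_sum_dst hJl' hNs hx₀ (fun _ => (1:ℝ))
    simpa using h1
  have hsumR : ∑ m, (x₀ m : ℝ) = t₀ + d := by
    have h1 := cw_sum_dst hJl' hNs hx₀ (fun c => (c:ℝ))
    have h2 : ((t₀ + d : ℕ) : ℝ) = ((a * (∑ j ∈ Finset.Icc (-(J : ℤ)) J,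
        N w j * ((l:ℤ) + j).toNat) + E.card * (l + J + M) : ℕ) : ℝ) := by rw [ht₀]
    push_cast at h1 h2
    rw [h1, h2]
  have hsumN : ∑ m, x₀ m = t₀ + d := by exact_mod_cast hsumR
  have hFN : (F:ℝ) ≤ ∑ j ∈ Finset.Icc (-(J : ℤ)) J, (N w j : ℝ) := by
    rw [hF]
    unfold fsum
    push_cast
    exact Finset.sum_le_sum (fun j _ => by exact_mod_cast hqN j)
  have hF0 : (0:ℝ) ≤ F := Nat.cast_nonneg F
  have hRaF : (R:ℝ) = a * F := by rw [hR]; push_cast; ring
  have hE0 : (0:ℝ) ≤ E.card := Nat.cast_nonneg _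
  have hRd : (R:ℝ) ≤ d := by
    rw [hRaF]
    have := mul_le_mul_of_nonneg_left hFN ha0.le
    linarith
  have hR0 : (0:ℝ) ≤ R := Nat.cast_nonneg R
  have hxb : ∀ m, b ≤ x₀ m := by
    intro m
    by_cases hm : m ∈ E
    · rw [hx₀.1 m hm]; omega
    · have := (cw_dst_range hNs hx₀ hm).1
      omega
  have hxu : ∀ m, x₀ m ≤ l + J + M := by
    intro m
    by_cases hm : m ∈ E
    · rw [hx₀.1 m hm]
    · have := (cw_dst_range hNs hx₀ hm).2
      omega
  have hxpos : ∀ m, (0:ℝ) < x₀ m := fun m => by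
    have := hxb m
    exact_mod_cast (by omega : 0 < x₀ m)
  obtain ⟨v, hv⟩ : ∃ v : ℝ, v = ∏ m, (x₀ m : ℝ) := ⟨_, rfl⟩
  have hv0 : 0 < v := by rw [hv]; exact Finset.prod_pos (fun m _ => hxpos m)
  have hlogv : Real.log v = ∑ m, Real.log (x₀ m) := by
    rw [hv, Real.log_prod (fun m _ => (hxpos m).ne')]
  have hbt : (b - 1) * d ≤ t₀ := by
    have h1 : ∑ _m : Fin d, b ≤ ∑ m, x₀ m := Finset.sum_le_sum (fun m _ => hxb m)
    rw [Finset.sum_const, Finset.card_univ, Fintype.card_fin, smul_eq_mul, hsumN] at h1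
    have h2 : (b - 1) * d = d * b - d := by
      rw [Nat.sub_mul, one_mul, mul_comm]
    omega
  have htu : (t₀:ℝ) + d ≤ d * (l + J + M) := by
    have h1 : ∑ m, x₀ m ≤ ∑ _m : Fin d, (l + J + M) := Finset.sum_le_sum (fun m _ => hxu m)
    rw [Finset.sum_const, Finset.card_univ, Fintype.card_fin, smul_eq_mul, hsumN] at h1
    exact_mod_cast h1
  -- volume at most
  have hvS : Real.log v ≤ sfun d t₀ := by
    have h1 := sum_log_le_sfun (Finset.univ : Finset (Fin d)) d t₀ hd1 (by simp)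
      (fun m => x₀ m - 1) (by
        have h2 : ∑ m, (x₀ m - 1) + d = ∑ m, x₀ m := by
          have h3 : ∑ m, x₀ m = ∑ m, ((x₀ m - 1) + 1) := Finset.sum_congr rfl (fun m _ => by
            have := hxb m
            omega)
          rw [h3, Finset.sum_add_distrib]
          simp
        omega)
    rw [hlogv]
    refine le_trans (le_of_eq ?_) h1
    apply Finset.sum_congr rfl
    intro m _
    congr 1
    have := hxb m
    have h2 : ((x₀ m - 1 : ℕ) : ℝ) = x₀ m - 1 := by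
      rw [Nat.cast_sub (by omega)]; simp
    rw [h2]; ring
  -- volume at least
  obtain ⟨G, hG⟩ : ∃ G : ℝ, G = ∑ m, gapl lam (x₀ m) := ⟨_, rfl⟩
  have hlam0 : (0:ℝ) < lam := by exact_mod_cast (by omega : 0 < lam)
  have hlamR : (lam:ℝ) = l + lm w := by exact_mod_cast hlam
  have hxR : (x:ℝ) = l + tp w := by exact_mod_cast hx
  have hSv : ∀ u : ℕ, sfun d (t₀ + u) ≤
      Real.log v + G + u * Real.log (((lam:ℝ) + 1) / lam) := by
    intro u
    have h1 := cw_sfun_le d (t₀ + u) lam hd1 (by omega)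
    have h2 : G = d * Real.log lam + ((t₀:ℝ) + d - d * lam) *
        Real.log (((lam:ℝ) + 1) / lam) - Real.log v := by
      rw [hG, hlogv]
      unfold gapl
      rw [Finset.sum_sub_distrib, Finset.sum_add_distrib, ← Finset.sum_mul,
        Finset.sum_sub_distrib, hsumR]
      simp
    push_cast at h1
    rw [h2]
    nlinarith
  have hGle : G ≤ (a * P + E.card * Q) / (2 * (b:ℝ) ^ 2) := by
    have h1 : G ≤ ∑ m, (((x₀ m : ℝ) - lam) * ((x₀ m : ℝ) - lam - 1)) / (2 * (b : ℝ) ^ 2) := by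
      rw [hG]
      exact Finset.sum_le_sum (fun m _ => cw_gapl_le hb1 hbl (hxb m))
    have h2 := cw_sum_dst hJl' hNs hx₀
      (fun c => (((c : ℝ) - lam) * ((c : ℝ) - lam - 1)) / (2 * (b : ℝ) ^ 2))
    rw [h2] at h1
    refine le_trans h1 (le_of_eq ?_)
    have h3 : ∑ j ∈ Finset.Icc (-(J:ℤ)) J, (N w j : ℝ) *
        (((((((l:ℤ) + j).toNat : ℕ) : ℝ) - lam) * (((((l:ℤ) + j).toNat : ℕ) : ℝ) - lam - 1)) /
          (2 * (b : ℝ) ^ 2)) = P / (2 * (b:ℝ) ^ 2) := by
      rw [hP, Finset.sum_div]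
      apply Finset.sum_congr rfl
      intro j hj
      rw [Finset.mem_Icc] at hj
      have h4 : ((((l:ℤ) + j).toNat : ℕ) : ℤ) = l + j := Int.toNat_of_nonneg (by omega)
      have h5 : ((((l:ℤ) + j).toNat : ℕ) : ℝ) = l + j := by exact_mod_cast h4
      rw [h5, hlamR]
      ring
    rw [h3, hQ, hlamR]
    push_cast
    ring
  -- the slope
  have hslope : Real.log (((lam:ℝ) + 1) / lam) ≤ Real.log (((x:ℝ) + 1) / x) + h / (b:ℝ) ^ 2 := by
    have hx0 : (0:ℝ) < x := by exact_mod_cast (by omega : 0 < x)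
    rcases le_total lam x with h1 | h1
    · have h2 := cw_slope hb1 hbl hbx h1
      have h3 : ((x:ℝ) - lam) / (b:ℝ) ^ 2 ≤ h / (b:ℝ) ^ 2 := by
        apply div_le_div_of_nonneg_right _ (by positivity)
        rw [hxR, hlamR, hh]
        refine le_trans (le_of_eq ?_) (le_max_right _ _)
        ring
      linarith
    · have h2 : Real.log (((lam:ℝ) + 1) / lam) ≤ Real.log (((x:ℝ) + 1) / x) := by
        apply Real.log_le_log (by positivity)
        rw [div_le_div_iff₀ hlam0 hx0]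
        have : (x:ℝ) ≤ lam := by exact_mod_cast h1
        nlinarith
      have h3 : 0 ≤ h / (b:ℝ) ^ 2 := by positivity
      linarith
  -- each step
  have hstep : ∀ i : ℕ, Bx d (t₀ + 2 * i) + Bx d (t₀ + 2 * i + 1) - L -
      (2 * Real.log d - 2) - (G + ((2 * i : ℕ) : ℝ) * (h / (b:ℝ) ^ 2)) - C3 / b ≤
      Real.log (hst K x y (Real.exp (-L)) v (2 * i)) := by
    intro i
    have h1 := (cw_hst (K := K) (u := 2 * i) (L := L) hb1 (by omega) hbx hxl hy hv0).2
    have h2 := cw_Bx (t := t₀ + 2 * i) (J := J) (l := l) hd1 hb1 hb.symm (by omega)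
    have h3 := hSv (2 * i)
    have h4 : ((2 * i : ℕ) : ℝ) * Real.log (((lam:ℝ) + 1) / lam) ≤
        ((2 * i : ℕ) : ℝ) * (Real.log (((x:ℝ) + 1) / x) + h / (b:ℝ) ^ 2) :=
      mul_le_mul_of_nonneg_left hslope (Nat.cast_nonneg _)
    have h5 : C3 / b = (2 * K + 3 * J + M + 2) / b + (3 * J + 1) / b := by
      rw [hC3]; ring
    rw [h5]
    linarith
  -- the hypothesis on the volume
  have hLlog := cw_Lbound (M := M) hd1 hb1 hb hκ hvS hk hL htu hRd hb2
  have hV' : Real.exp (-L) * (2 * (d : ℝ) ^ 2 * ((∏ m, (x₀ m : ℝ)) *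
      (1 + 1 / (b : ℝ)) ^ R)) ≤ η / 2 := by
    rw [← hv]
    exact cw_volhyp hd1 hb1 hv0 hη0 hLlog hlogd4
  have hlogd6 : 0 ≤ sfun d k := by
    rw [← sfun_zero d]
    exact sfun_mono d hd1 (Nat.zero_le k)
  have hp1 : Real.exp (-L) ≤ 1 / 2 := cw_half hlogd hlogd6 hL
  have hqt : qtot (fun c => a * q w ((c:ℤ) - l)) (l + J + M + 1) = R := by
    rw [cw_qtot hJl' hNs hqN, hR, hF]
    rfl
  have hevR : Even R := by
    rw [hR]
    exact haev.mul_right F
  have hWW := cw_log_WW ha1 hM1 hJl' hNs hqN hx₀ (R := R) (by rw [hR, hF]; rfl)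
  have hwin := reach_window hs hη0 hη1 (Real.exp_pos (-L)) hp1 (z := z) (x₀ := x₀)
    (qu := fun c => a * q w ((c:ℤ) - l)) (X := l + J + M + 1) (x := x) (xm := b) (y := y) hd1
    (fun m => by have := hxu m; omega) (fun m => by have := hxb m; omega) hb1 hbx
    (fun c hc => by
      have h1 : q w ((c:ℤ) - l) ≠ 0 := fun h0 => hc (by simp [h0])
      have h2 : N w ((c:ℤ) - l) ≠ 0 := by
        have := hqN ((c:ℤ) - l)
        omega
      have h3 := hNs _ h2
      have h4 := hC.tp_ge w hw _ h1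
      omega)
    (fun m => by have := hxu m; omega) (by omega)
    (fun i => by have := hroom i; omega) (by rw [hqt]; exact hevR) (by rw [hqt]; exact hV')
  refine cw_reach_mono ?_ ?_ hwin
  · rintro x' ⟨U, hU, rfl⟩
    exact cw_next hM1 hJl' hNs hqN (hC.flow w hw) hx₀ hU
  · rw [hqt, ← hv]
    obtain ⟨r, hr⟩ := hevR
    have hR2 : R / 2 = r := by omega
    have hRr : (R:ℝ) = 2 * r := by rw [hr]; push_cast; ring
    rw [hR2]
    have hs0 : 0 < s 0 := hs.pos 0 hs.one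
    have hyp : (0:ℝ) < y := by exact_mod_cast (by omega : 0 < y)
    have hhp : ∀ i ∈ Finset.range r, 0 < hst K x y (Real.exp (-L)) v (2 * i) := fun i _ =>
      (cw_hst (K := K) (u := 2 * i) (L := L) hb1 (by omega) hbx hxl hy hv0).1
    have hprod : 0 < ∏ i ∈ Finset.range r, hst K x y (Real.exp (-L)) v (2 * i) :=
      Finset.prod_pos hhp
    have hWp := hWW.1
    rw [← Real.exp_log (x := s 0 * (4 * (d : ℝ) * y)⁻¹ ^ (2 * K) * Real.exp (-(η * R)) *
      WW x₀ (fun c => a * q w ((c:ℤ) - l)) (l + J + M + 1) ∅ *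
        ∏ i ∈ Finset.range r, hst K x y (Real.exp (-L)) v (2 * i)) (by positivity)]
    apply Real.exp_le_exp.mpr
    rw [Real.log_mul (by positivity) hprod.ne', Real.log_mul (by positivity) hWp.ne',
      Real.log_mul (by positivity) (by positivity), Real.log_mul hs0.ne' (by positivity),
      Real.log_exp, Real.log_pow, Real.log_inv, Real.log_prod (fun i hi => (hhp i hi).ne')]
    -- sum over the steps
    have hS1 : ∑ t ∈ Finset.Ico t₀ (t₀ + R), (Bx d t - L / 2) - (R * Real.log d - R) -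
        (R / 2 * G + (R / 2) ^ 2 * (h / (b:ℝ) ^ 2)) - R / 2 * (C3 / b) ≤
        ∑ i ∈ Finset.range r, Real.log (hst K x y (Real.exp (-L)) v (2 * i)) := by
      have h1 : ∑ t ∈ Finset.Ico t₀ (t₀ + R), (Bx d t - L / 2) =
          ∑ i ∈ Finset.range r, (Bx d (t₀ + 2 * i) + Bx d (t₀ + 2 * i + 1) - L) := by
        have : t₀ + R = t₀ + 2 * r := by omega
        rw [this, cw_sum_two]
        apply Finset.sum_congr rfl
        intro i _
        ring
      have h2 : ∑ i ∈ Finset.range r, (Bx d (t₀ + 2 * i) + Bx d (t₀ + 2 * i + 1) - L -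
          (2 * Real.log d - 2) - (G + ((2 * i : ℕ) : ℝ) * (h / (b:ℝ) ^ 2)) - C3 / b) ≤
          ∑ i ∈ Finset.range r, Real.log (hst K x y (Real.exp (-L)) v (2 * i)) :=
        Finset.sum_le_sum (fun i _ => hstep i)
      refine le_trans ?_ h2
      rw [cw_sum_split, ← h1]
      have h3 := cw_sum_idx r G (h / (b:ℝ) ^ 2) (div_nonneg hh0 (sq_nonneg _))
      have h4 : (R:ℝ) / 2 = r := by rw [hRr]; ring
      have h5 : (R:ℝ) * Real.log d - R = r * (2 * Real.log d - 2) := by rw [hRr]; ring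
      rw [h4, h5]
      linarith only [h3]
    -- entropy
    have hent := cw_entropy (S := Sent) hdenp ha0 hF0 hE0 hRaF hRd haden
      (by linarith only [hEcR, hde]) hd0
    rw [← hA] at hent
    have hpen := cw_penalty hκ hb' hd0 hdenp ha0.le hF0 hP0 hQ0 hh0 hE0 hRaF hRd
      (by linarith only [haden, hE0]) hb2 hGle
    have hcho := cw_cho (J := J) (a := a) (Nw := N w) (by linarith only [hd3]) hlogd
      (by linarith only [hcount, hE0])
    have hW2 := hWW.2
    rw [Finset.sum_sub_distrib, ← Finset.mul_sum, ← hSent] at hW2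
    have hy4 := cw_hy4 hd1 hy hld hlogd
    have hmid : (d:ℝ) * (Sent / den + (F:ℝ) / den * (Real.log ((F:ℝ) / den) -
        κ * (P / den + (F:ℝ) / den * h))) =
        d * A - d * ((F:ℝ) / den * (κ * (P / den + (F:ℝ) / den * h))) := by
      rw [hA]; ring
    rw [hmid]
    exact cw_final hlogd hR0 hε.le hηε hbC (neg_abs_le _) (abs_nonneg _) hy4 hW2 hcho hent hpen
      hS1 hQ0 hκ hE0 hEcR hCdef

/-- one window of a schedule -/
theorem reach_cwin {κ V : ℝ} {M W J den : ℕ} {N q : ℕ → ℤ → ℕ} {lm tp : ℕ → ℤ}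
    (hC : LCert κ V M W J den N q lm tp) (hκ : 0 ≤ κ) (ε : ℝ) (hε : 0 < ε) :
    ∃ C : ℝ, 0 ≤ C ∧ ∃ D₀ : ℕ, ∀ (n d a l w t₀ k : ℕ) (L : ℝ) (z : Vtx n d)
      (E : Finset (Fin d)), D₀ ≤ d → Even a → a * den + E.card = d → E.card ≤ 4 * den + 4 →
      (1 + ε) * d ≤ 4 * κ * ((l : ℝ) - J) ^ 2 → 2 * J ≤ l → l ≤ d → w < W →
      t₀ + d = a * (∑ j ∈ Finset.Icc (-(J : ℤ)) J, N w j * (l + j).toNat) +
        E.card * (l + J + M) →
      t₀ + a * fsum J q w ≤ k → k ≤ d ^ 2 → sfun d k + 6 * Real.log d ≤ L →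
      Room (l + J + M + 3) z →
      Reach (Real.exp (-L)) z (Dst E (l + J + M) (fun c => a * N w ((c : ℤ) - l)))
        (Dst E (l + J + M) (fun c => a * N (w + 1) ((c : ℤ) - l)))
        (Real.exp (∑ t ∈ Finset.Ico t₀ (t₀ + a * fsum J q w), (Bx d t - L / 2) +
          d * ((∑ j ∈ Finset.Icc (-(J : ℤ)) J, ent (N w j) (q w j)) / den +
            (fsum J q w : ℝ) / den * (Real.log ((fsum J q w : ℝ) / den) -
              κ * ((∑ j ∈ Finset.Icc (-(J : ℤ)) J,
                  (N w j : ℝ) * ((j - lm w) * (j - lm w - 1))) / den +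
                (fsum J q w : ℝ) / den * max 0 ((tp w : ℝ) - lm w)))) -
          ε * (a * fsum J q w : ℕ) - C * Real.log d)) := by
  have h1 : ∀ w : ℕ, ∃ C : ℝ, 0 ≤ C ∧ ∃ D₀ : ℕ, ∀ (n d a l t₀ k : ℕ) (L : ℝ) (z : Vtx n d)
      (E : Finset (Fin d)), w < W → D₀ ≤ d → Even a → a * den + E.card = d →
      E.card ≤ 4 * den + 4 →
      (1 + ε) * d ≤ 4 * κ * ((l : ℝ) - J) ^ 2 → 2 * J ≤ l → l ≤ d →
      t₀ + d = a * (∑ j ∈ Finset.Icc (-(J : ℤ)) J, N w j * (l + j).toNat) +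
        E.card * (l + J + M) →
      t₀ + a * fsum J q w ≤ k → k ≤ d ^ 2 → sfun d k + 6 * Real.log d ≤ L →
      Room (l + J + M + 3) z →
      Reach (Real.exp (-L)) z (Dst E (l + J + M) (fun c => a * N w ((c : ℤ) - l)))
        (Dst E (l + J + M) (fun c => a * N (w + 1) ((c : ℤ) - l)))
        (Real.exp (∑ t ∈ Finset.Ico t₀ (t₀ + a * fsum J q w), (Bx d t - L / 2) +
          d * ((∑ j ∈ Finset.Icc (-(J : ℤ)) J, ent (N w j) (q w j)) / den +
            (fsum J q w : ℝ) / den * (Real.log ((fsum J q w : ℝ) / den) -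
              κ * ((∑ j ∈ Finset.Icc (-(J : ℤ)) J,
                  (N w j : ℝ) * ((j - lm w) * (j - lm w - 1))) / den +
                (fsum J q w : ℝ) / den * max 0 ((tp w : ℝ) - lm w)))) -
          ε * (a * fsum J q w : ℕ) - C * Real.log d)) := by
    intro w
    by_cases hw : w < W
    · obtain ⟨C, hC0, D₀, hD⟩ := cw_window hC hκ ε hε w hw
      exact ⟨C, hC0, D₀, fun n d a l t₀ k L z E _ => hD n d a l t₀ k L z E⟩
    · exact ⟨0, le_rfl, 0, fun n d a l t₀ k L z E h => absurd h hw⟩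
  choose C hC0 D hD using h1
  refine ⟨∑ w ∈ Finset.range W, C w, Finset.sum_nonneg (fun w _ => hC0 w),
    ∑ w ∈ Finset.range W, D w + 1, ?_⟩
  intro n d a l w t₀ k L z E hd haev haE hEc hcond hJl hld hw ht₀ hk hkd hL hroom
  have hwr : w ∈ Finset.range W := Finset.mem_range.mpr hw
  have hDw : D w ≤ ∑ w ∈ Finset.range W, D w :=
    Finset.single_le_sum (f := D) (fun i _ => Nat.zero_le _) hwr
  have hCw : C w ≤ ∑ w ∈ Finset.range W, C w :=
    Finset.single_le_sum (f := C) (fun i _ => hC0 i) hwr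
  have h2 := hD w n d a l t₀ k L z E hw (by omega) haev haE hEc hcond hJl hld ht₀ hk hkd hL
    hroom
  refine cw_reach_mono (fun _ h => h) ?_ h2
  apply Real.exp_le_exp.mpr
  have hlogd : 0 ≤ Real.log (d:ℝ) := Real.log_natCast_nonneg d
  have h3 := mul_le_mul_of_nonneg_right hCw hlogd
  linarith

end Pool.Agent.Lib.MP_8501c9_pr.Wide
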