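import Pool.Agent.Lib.MP_8501c9_pr.Wide.DefsC
import Pool.Agent.Lib.MP_8501c9_pr.Wide.BrunWin
import Pool.Agent.Lib.MP_8501c9_pr.Wide.Fill
import Pool.Agent.Lib.MP_8501c9_pr.Wide.CertWin

/-!
# Schedules between two balanced states

The blocks of a schedule for one direction are used for all directions outside a small set `E`.
-/

set_option autoImplicit false
open Set

namespace Pool.Agent.Lib.MP_8501c9_pr.Wide

open Pool.Agent.Lib.MP_8501c9_pr Pool.Agent.Lib.MP_8501c9_pr.Mid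

variable {n d : ℕ}


/-- exponent per unit of size in a schedule -/
noncomputable def a6_F (d : ℕ) (L : ℝ) (t : ℕ) : ℝ := Bx d t - L / 2

theorem a6_room_mono {w w' : ℕ} {z : Vtx n d} (h : Room w z) (hw : w' ≤ w) : Room w' z :=
  fun i => ⟨hw.trans (h i).1, by have := (h i).2; omega⟩

theorem a6_L_nonneg {d k : ℕ} {L : ℝ} (hd : 2 ≤ d) (hk : sfun d k + 6 * Real.log d ≤ L) :
    0 ≤ L := by
  have h1 : 0 ≤ sfun d k := by
    have := sfun_mono d (by omega) (Nat.zero_le k)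
    rwa [sfun_zero] at this
  have h2 : 0 ≤ Real.log d := Real.log_natCast_nonneg d
  linarith

theorem a6_F_pair {d t : ℕ} {L : ℝ} (hd : 2 ≤ d) :
    a6_F d L t + a6_F d L (t + 1) ≤ sfun d t - L + 2 * Real.log d + 1 := by
  have hdpos : (0 : ℝ) < d := by exact_mod_cast (by omega : 0 < d)
  have hlog : ∀ s : ℕ, Real.log (4 * (d : ℝ) ^ 2 / (Real.exp 1 * (lev d s : ℝ) ^ 3)) ≤
      2 * Real.log 2 + 2 * Real.log d - 1 := by
    intro s
    have hlev : (1 : ℝ) ≤ lev d s := by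
      have : 1 ≤ lev d s := Nat.le_add_left 1 _
      exact_mod_cast this
    have h3 : (1 : ℝ) ≤ (lev d s : ℝ) ^ 3 := one_le_pow₀ hlev
    have e : 2 * Real.log 2 + 2 * Real.log d - 1 = Real.log (4 * (d : ℝ) ^ 2 / Real.exp 1) := by
      rw [Real.log_div (by positivity) (by positivity), Real.log_exp,
        Real.log_mul (by norm_num) (by positivity), Real.log_pow]
      have : Real.log 4 = 2 * Real.log 2 := by
        rw [show (4 : ℝ) = 2 ^ 2 by norm_num, Real.log_pow]; norm_num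
      rw [this]; push_cast; ring
    rw [e]
    refine Real.log_le_log (by positivity) ?_
    gcongr
    exact le_mul_of_one_le_right (by positivity) h3
  have h1 := hlog t
  have h2 := hlog (t + 1)
  have h3 := sfun_add_le d t 1 (by omega)
  have h4 := Real.log_two_lt_d9
  unfold a6_F Bx
  push_cast at h3
  linarith

theorem a6_fch_ge {d k t y : ℕ} {L c : ℝ} (hd : 2 ≤ d) (hk : sfun d k + 6 * Real.log d ≤ L)
    (ht : t ≤ k) (hy1 : 1 ≤ y) (hyd : y ≤ d) (hc : 0 ≤ c) :
    Real.exp (a6_F d L t + a6_F d L (t + 1) - (c + 1 + 5 * Real.log d)) ≤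
      fch (Real.exp (-L)) (Real.exp (sfun d t - c)) y := by
  have hdpos : (0 : ℝ) < d := by exact_mod_cast (by omega : 0 < d)
  have hypos : (0 : ℝ) < y := by exact_mod_cast (by omega : 0 < y)
  have hy1' : (1 : ℝ) ≤ y := by exact_mod_cast hy1
  have hyd' : (y : ℝ) ≤ d := by exact_mod_cast hyd
  have hmono := sfun_mono d (by omega) ht
  set v : ℝ := Real.exp (sfun d t - c - L) with hv
  have hv0 : 0 < v := Real.exp_pos _
  have hpv : Real.exp (-L) * Real.exp (sfun d t - c) = v := by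
    rw [hv, ← Real.exp_add]; congr 1; ring
  have hlog2 : Real.log 2 ≤ Real.log d := by
    refine Real.log_le_log (by norm_num) ?_
    exact_mod_cast hd
  have hv1 : v ≤ 1 / 64 := by
    have h1 : v ≤ Real.exp (-(6 * Real.log 2)) := by
      rw [hv]
      refine Real.exp_le_exp.2 ?_
      linarith
    have h2 : Real.exp (-(6 * Real.log 2)) = 1 / 64 := by
      rw [Real.exp_neg, mul_comm, Real.exp_mul, Real.exp_log (by norm_num)]
      norm_num
    rwa [h2] at h1
  set x : ℝ := 4 * v / (y : ℝ) ^ 3 with hx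
  have hy3 : (1 : ℝ) ≤ (y : ℝ) ^ 3 := one_le_pow₀ hy1'
  have hx0 : 0 < x := by positivity
  have hx1 : x ≤ 1 := by
    rw [hx, div_le_one (by positivity)]
    linarith
  have hf : fch (Real.exp (-L)) (Real.exp (sfun d t - c)) y = 1 - Real.exp (-x) := by
    unfold fch
    rw [hx, ← hpv]
    congr 4
    ring
  rw [hf]
  have h5 : Real.exp (-x) ≤ 1 / (1 + x) := by
    rw [Real.exp_neg, ← one_div]
    exact one_div_le_one_div_of_le (by linarith) (by linarith [Real.add_one_le_exp x])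
  have h6 : x / 2 ≤ 1 - Real.exp (-x) := by
    have h7 : 1 - 1 / (1 + x) = x / (1 + x) := by field_simp; ring
    have h8 : x / 2 ≤ x / (1 + x) := by
      apply div_le_div_of_nonneg_left hx0.le (by linarith) (by linarith)
    linarith
  refine le_trans ?_ h6
  have h9 : v / (d : ℝ) ^ 3 ≤ x / 2 := by
    rw [hx, div_div, div_le_div_iff₀ (by positivity) (by positivity)]
    have : (y : ℝ) ^ 3 ≤ (d : ℝ) ^ 3 := by gcongr
    nlinarith
  refine le_trans ?_ h9
  have h10 : v / (d : ℝ) ^ 3 = Real.exp (sfun d t - c - L - 3 * Real.log d) := by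
    rw [Real.exp_sub _ (3 * Real.log d), ← hv]
    congr 1
    rw [mul_comm, Real.exp_mul, Real.exp_log hdpos]
    norm_cast
  rw [h10]
  refine Real.exp_le_exp.2 ?_
  have := a6_F_pair (t := t) (L := L) hd
  linarith

theorem a6_sum_pairs (f : ℕ → ℝ) (t₀ R : ℕ) :
    ∑ t ∈ Finset.Ico t₀ (t₀ + 2 * R), f t =
      ∑ i ∈ Finset.range R, (f (t₀ + 2 * i) + f (t₀ + 2 * i + 1)) := by
  induction R with
  | zero => simp
  | succ R ih =>
    rw [Finset.sum_range_succ, ← ih, show t₀ + 2 * (R + 1) = t₀ + 2 * R + 1 + 1 by ring,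
      Finset.sum_Ico_succ_top (by omega), Finset.sum_Ico_succ_top (by omega)]
    ring

theorem a6_prod_ge {d k t₀ R y : ℕ} {L c : ℝ} (hd : 2 ≤ d)
    (hk : sfun d k + 6 * Real.log d ≤ L) (ht : t₀ + 2 * R ≤ k) (hy1 : 1 ≤ y) (hyd : y ≤ d)
    (hc : 0 ≤ c) :
    Real.exp (∑ t ∈ Finset.Ico t₀ (t₀ + 2 * R), a6_F d L t - R * (c + 1 + 5 * Real.log d)) ≤
      ∏ i ∈ Finset.range R, fch (Real.exp (-L)) (Real.exp (sfun d (t₀ + 2 * i) - c)) y := by
  have e : ∑ t ∈ Finset.Ico t₀ (t₀ + 2 * R), a6_F d L t - R * (c + 1 + 5 * Real.log d) =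
      ∑ i ∈ Finset.range R, (a6_F d L (t₀ + 2 * i) + a6_F d L (t₀ + 2 * i + 1) -
        (c + 1 + 5 * Real.log d)) := by
    rw [a6_sum_pairs, Finset.sum_sub_distrib, Finset.sum_const, Finset.card_range,
      nsmul_eq_mul]
  rw [e, Real.exp_sum]
  refine Finset.prod_le_prod (fun i _ => (Real.exp_pos _).le) fun i hi => ?_
  have hi' := Finset.mem_range.1 hi
  exact a6_fch_ge hd hk (by omega) hy1 hyd hc

/-- filling with the loss per step made explicit -/
theorem a6_fill {k l y J t₀ t₁ : ℕ} {L cm : ℝ} {z : Vtx n d} {x₀ x₁ : Fin d → ℕ} (hd : 2 ≤ d)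
    (hk : sfun d k + 6 * Real.log d ≤ L) (hl : 1 ≤ l) (h01 : ∀ m, x₀ m ≤ x₁ m)
    (hl0 : ∀ m, l ≤ x₀ m) (hy : ∀ m, x₁ m ≤ y) (hyJ : y ≤ l + J) (hyd : y ≤ d)
    (ht0 : t₀ + d = ∑ m, x₀ m) (ht1 : t₁ + d = ∑ m, x₁ m) (ht1k : t₁ ≤ k)
    (hev : Even (t₁ - t₀))
    (hmax : ∃ i j, i ≠ j ∧ ∀ m, x₁ m - x₀ m ≤ x₁ i - x₀ i ∧ x₁ m - x₀ m ≤ x₁ j - x₀ j)
    (hroom : Room (y + 1) z) (hcm : d * ((J : ℝ) / l) ^ 2 ≤ cm) :
    t₀ ≤ t₁ ∧ Reach (Real.exp (-L)) z (fun x => x = x₀) (fun x => x = x₁)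
      (Real.exp (∑ t ∈ Finset.Ico t₀ t₁, a6_F d L t -
        ((t₁ : ℝ) - t₀) / 2 * (cm + 1 + 5 * Real.log d))) := by
  have hL := a6_L_nonneg hd hk
  have hsum : ∑ m, x₀ m ≤ ∑ m, x₁ m := Finset.sum_le_sum fun m _ => h01 m
  have ht : t₀ ≤ t₁ := by omega
  refine ⟨ht, ?_⟩
  have hdiff : ∑ m, (x₁ m - x₀ m) = t₁ - t₀ := by
    have h1 : ∑ m, (x₁ m - x₀ m) + ∑ m, x₀ m = ∑ m, x₁ m := by
      rw [← Finset.sum_add_distrib]
      exact Finset.sum_congr rfl fun m _ => by have := h01 m; omega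
    omega
  have hsz : ∑ m, (x₀ m - 1) = t₀ := by
    have h2 : ∑ m : Fin d, (1 : ℕ) = d := by simp
    have h1 : ∑ m, (x₀ m - 1) + ∑ m : Fin d, (1 : ℕ) = ∑ m, x₀ m := by
      rw [← Finset.sum_add_distrib]
      exact Finset.sum_congr rfl fun m _ => by have := hl0 m; omega
    omega
  have hd0 : 0 < d := by omega
  have hy1 : 1 ≤ y := (hl.trans (hl0 ⟨0, hd0⟩)).trans ((h01 _).trans (hy _))
  have hlog : 0 ≤ Real.log d := Real.log_natCast_nonneg d
  obtain ⟨R, hR⟩ := hev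
  have hR' : t₁ = t₀ + 2 * R := by omega
  have hfill := reach_fill (p := Real.exp (-L)) (Real.exp_pos _).le
    (Real.exp_le_one_iff.2 (by linarith)) (z := z) hl h01 hl0 hy hyJ
    (by rw [hdiff]; exact ⟨R, hR⟩) hmax hroom
  rw [hdiff, hsz] at hfill
  have hR2 : (t₁ - t₀) / 2 = R := by omega
  rw [hR2] at hfill
  refine reach_mono (fun _ h => h) (fun _ h => h) ?_ hfill
  have h1 := a6_prod_ge (k := k) (t₀ := t₀) (R := R) (y := y) (L := L)
    (c := d * ((J : ℝ) / l) ^ 2) hd hk (by omega) hy1 hyd (by positivity)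
  refine le_trans ?_ h1
  refine Real.exp_le_exp.2 ?_
  rw [← hR']
  have h2 : ((t₁ : ℝ) - t₀) / 2 = R := by
    rw [hR']; push_cast; ring
  rw [h2]
  have h3 : (R : ℝ) * (d * ((J : ℝ) / l) ^ 2 + 1 + 5 * Real.log d) ≤
      R * (cm + 1 + 5 * Real.log d) := by
    refine mul_le_mul_of_nonneg_left ?_ (Nat.cast_nonneg R)
    linarith
  linarith


/-! ### sums over the offsets -/

theorem a6_shift {J : ℕ} {q f : ℤ → ℕ} (h1 : q (-(J : ℤ) - 1) = 0) (h2 : q J = 0) :
    ∑ j ∈ Finset.Icc (-(J : ℤ)) J, q (j - 1) * f j =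
      ∑ j ∈ Finset.Icc (-(J : ℤ)) J, q j * f (j + 1) := by
  have e1 : ∑ j ∈ Finset.Icc (-(J : ℤ)) J, q (j - 1) * f j =
      ∑ i ∈ Finset.Icc (-(J : ℤ) - 1) (J - 1), q i * f (i + 1) := by
    refine Finset.sum_nbij' (fun j => j - 1) (fun i => i + 1) ?_ ?_ ?_ ?_ ?_
    · intro j hj; rw [Finset.mem_Icc] at hj ⊢; omega
    · intro j hj; rw [Finset.mem_Icc] at hj ⊢; omega
    · intro j _; ring
    · intro j _; ring
    · intro j _
      rw [sub_add_cancel]
  have e2 : ∑ i ∈ Finset.Icc (-(J : ℤ)) (J - 1), q i * f (i + 1) =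
      ∑ i ∈ Finset.Icc (-(J : ℤ) - 1) (J - 1), q i * f (i + 1) := by
    refine Finset.sum_subset ?_ ?_
    · intro j hj; rw [Finset.mem_Icc] at hj ⊢; omega
    · intro j hj hj'
      rw [Finset.mem_Icc] at hj hj'
      have : j = -(J : ℤ) - 1 := by omega
      rw [this, h1, zero_mul]
  have e3 : ∑ i ∈ Finset.Icc (-(J : ℤ)) (J - 1), q i * f (i + 1) =
      ∑ i ∈ Finset.Icc (-(J : ℤ)) J, q i * f (i + 1) := by
    refine Finset.sum_subset ?_ ?_
    · intro j hj; rw [Finset.mem_Icc] at hj ⊢; omega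
    · intro j hj hj'
      rw [Finset.mem_Icc] at hj hj'
      have : j = (J : ℤ) := by omega
      rw [this, h2, zero_mul]
  rw [e1, ← e2, e3]

section cert

variable {κ V : ℝ} {M W J den : ℕ} {N q : ℕ → ℤ → ℕ} {lm tp : ℕ → ℤ}

theorem a6_q_lo (hC : LCert κ V M W J den N q lm tp) {w : ℕ} (hw : w < W) :
    q w (-(J : ℤ) - 1) = 0 := by
  by_contra h
  have h1 := hC.q_le w (-(J : ℤ) - 1)
  have h2 := hC.supp w hw.le (-(J : ℤ) - 1) (by omega)
  omega

theorem a6_q_hi (hC : LCert κ V M W J den N q lm tp) {w : ℕ} (hw : w < W) :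
    q w J = 0 := by
  by_contra h
  have h1 := hC.flow w hw (J + 1)
  rw [add_sub_cancel_right] at h1
  have h2 : N (w + 1) (J + 1) = 0 := by
    by_contra h3
    have := hC.supp (w + 1) hw _ h3
    omega
  have h3 := hC.q_le w (J + 1)
  omega

theorem a6_flow_sum (hC : LCert κ V M W J den N q lm tp) {w : ℕ} (hw : w < W) (g : ℤ → ℕ)
    (c : ℕ) (hg : ∀ j, -(J : ℤ) ≤ j → g (j + 1) = g j + c) :
    ∑ j ∈ Finset.Icc (-(J : ℤ)) J, N (w + 1) j * g j =
      ∑ j ∈ Finset.Icc (-(J : ℤ)) J, N w j * g j + c * fsum J q w := by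
  have h1 : ∑ j ∈ Finset.Icc (-(J : ℤ)) J, N (w + 1) j * g j +
      ∑ j ∈ Finset.Icc (-(J : ℤ)) J, q w j * g j =
      ∑ j ∈ Finset.Icc (-(J : ℤ)) J, N w j * g j +
      ∑ j ∈ Finset.Icc (-(J : ℤ)) J, q w (j - 1) * g j := by
    rw [← Finset.sum_add_distrib, ← Finset.sum_add_distrib]
    refine Finset.sum_congr rfl fun j _ => ?_
    rw [← add_mul, ← add_mul, hC.flow w hw j]
  rw [a6_shift (a6_q_lo hC hw) (a6_q_hi hC hw)] at h1
  have h2 : ∑ j ∈ Finset.Icc (-(J : ℤ)) J, q w j * g (j + 1) =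
      ∑ j ∈ Finset.Icc (-(J : ℤ)) J, q w j * g j + c * fsum J q w := by
    unfold fsum
    rw [Finset.mul_sum, ← Finset.sum_add_distrib]
    refine Finset.sum_congr rfl fun j hj => ?_
    rw [Finset.mem_Icc] at hj
    rw [hg j hj.1]
    ring
  rw [h2] at h1
  omega

theorem a6_tot (hC : LCert κ V M W J den N q lm tp) {w : ℕ} (hw : w ≤ W) :
    ∑ j ∈ Finset.Icc (-(J : ℤ)) J, N w j = den := by
  induction w with
  | zero => exact hC.tot
  | succ w ih =>
    have h1 := a6_flow_sum hC (by omega : w < W) (fun _ => 1) 0 (fun _ _ => rfl)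
    simp only [mul_one, zero_mul, add_zero] at h1
    rw [h1]
    exact ih (by omega)

/-- the sum of the side lengths of the directions outside `E`, divided by `a` -/
noncomputable def a6_sz (N : ℕ → ℤ → ℕ) (J l w : ℕ) : ℕ :=
  ∑ j ∈ Finset.Icc (-(J : ℤ)) J, N w j * (l + j).toNat

theorem a6_sz_succ (hC : LCert κ V M W J den N q lm tp) {l w : ℕ} (hw : w < W) (hl : J ≤ l) :
    a6_sz N J l (w + 1) = a6_sz N J l w + fsum J q w := by
  have h1 := a6_flow_sum hC hw (fun j => ((l : ℤ) + j).toNat) 1 (fun j hj => by omega)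
  rw [one_mul] at h1
  exact h1

theorem a6_sz_sum (hC : LCert κ V M W J den N q lm tp) {l w : ℕ} (hw : w ≤ W) (hl : J ≤ l) :
    a6_sz N J l w = a6_sz N J l 0 + ∑ i ∈ Finset.range w, fsum J q i := by
  induction w with
  | zero => simp
  | succ w ih =>
    rw [a6_sz_succ hC (by omega) hl, ih (by omega), Finset.sum_range_succ, add_assoc]

/-- changing the base level -/
theorem a6_sz_add (hC : LCert κ V M W J den N q lm tp) {l w c : ℕ} (hw : w ≤ W) (hl : J ≤ l) :
    a6_sz N J (l + c) w = a6_sz N J l w + c * den := by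
  unfold a6_sz
  rw [← a6_tot hC hw, Finset.mul_sum, ← Finset.sum_add_distrib]
  refine Finset.sum_congr rfl fun j hj => ?_
  rw [Finset.mem_Icc] at hj
  have : (((l + c : ℕ) : ℤ) + j).toNat = ((l : ℤ) + j).toNat + c := by omega
  rw [this]
  ring

theorem a6_sz_per (hC : LCert κ V M W J den N q lm tp) {l : ℕ} (hl : J ≤ l) :
    a6_sz N J l W = a6_sz N J (l + M) 0 := by
  unfold a6_sz
  have e1 : ∑ j ∈ Finset.Icc (-(J : ℤ)) J, N W j * ((l : ℤ) + j).toNat =
      ∑ i ∈ Finset.Icc (-(J : ℤ) - M) (J - M), N 0 i * (((l + M : ℕ) : ℤ) + i).toNat := by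
    refine Finset.sum_nbij' (fun j => j - M) (fun i => i + M) ?_ ?_ ?_ ?_ ?_
    · intro j hj; rw [Finset.mem_Icc] at hj ⊢; omega
    · intro j hj; rw [Finset.mem_Icc] at hj ⊢; omega
    · intro j _; ring
    · intro j _; ring
    · intro j _
      rw [hC.per j]
      congr 2
      push_cast; ring
  have e2 : ∑ i ∈ Finset.Icc (-(J : ℤ) - M) (J - M), N 0 i * (((l + M : ℕ) : ℤ) + i).toNat =
      ∑ i ∈ Finset.Icc (-(J : ℤ) - M) J, N 0 i * (((l + M : ℕ) : ℤ) + i).toNat := by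
    refine Finset.sum_subset ?_ ?_
    · intro j hj; rw [Finset.mem_Icc] at hj ⊢; omega
    · intro j hj hj'
      rw [Finset.mem_Icc] at hj hj'
      have : N 0 j = 0 := by
        by_contra h
        have h1 := hC.per (j + M)
        rw [add_sub_cancel_right] at h1
        have h2 := hC.supp W le_rfl (j + M) (by omega)
        omega
      rw [this, zero_mul]
  have e3 : ∑ i ∈ Finset.Icc (-(J : ℤ)) J, N 0 i * (((l + M : ℕ) : ℤ) + i).toNat =
      ∑ i ∈ Finset.Icc (-(J : ℤ) - M) J, N 0 i * (((l + M : ℕ) : ℤ) + i).toNat := by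
    refine Finset.sum_subset ?_ ?_
    · intro j hj; rw [Finset.mem_Icc] at hj ⊢; omega
    · intro j hj hj'
      rw [Finset.mem_Icc] at hj hj'
      have : N 0 j = 0 := by
        by_contra h
        have h2 := hC.supp 0 (Nat.zero_le _) j h
        omega
      rw [this, zero_mul]
  rw [e1, e2, e3]

theorem a6_fsum_total (hC : LCert κ V M W J den N q lm tp) :
    ∑ i ∈ Finset.range W, fsum J q i = M * den := by
  have h1 := a6_sz_sum hC (l := J) (w := W) le_rfl le_rfl
  have h2 := a6_sz_per hC (l := J) le_rfl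
  have h3 := a6_sz_add hC (l := J) (w := 0) (c := M) (Nat.zero_le _) le_rfl
  omega

theorem a6_sz_le (hC : LCert κ V M W J den N q lm tp) {l w : ℕ} (hw : w ≤ W) :
    a6_sz N J l w ≤ den * (l + J) := by
  unfold a6_sz
  rw [← a6_tot hC hw, Finset.sum_mul]
  refine Finset.sum_le_sum fun j hj => ?_
  rw [Finset.mem_Icc] at hj
  exact Nat.mul_le_mul_left _ (by omega)

theorem a6_le_sz (hC : LCert κ V M W J den N q lm tp) {l w : ℕ} (hw : w ≤ W) :
    den * (l - J) ≤ a6_sz N J l w := by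
  unfold a6_sz
  rw [← a6_tot hC hw, Finset.sum_mul]
  refine Finset.sum_le_sum fun j hj => ?_
  rw [Finset.mem_Icc] at hj
  exact Nat.mul_le_mul_left _ (by omega)

/-- the side length of a direction outside `E` -/
theorem a6_dst_mem (hC : LCert κ V M W J den N q lm tp) {w : ℕ} (hw : w ≤ W) {l a e : ℕ}
    {E : Finset (Fin d)} {x : Fin d → ℕ} (hx : Dst E e (fun c => a * N w ((c : ℤ) - l)) x)
    {m : Fin d} (hm : m ∉ E) :
    N w ((x m : ℤ) - l) ≠ 0 ∧ (l : ℤ) - J ≤ x m ∧ (x m : ℤ) ≤ l + J := by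
  have h1 := hx.2 (x m)
  have h2 : m ∈ (Eᶜ).filter (fun m' => x m' = x m) := by
    simp [hm]
  have h3 : 0 < ((Eᶜ).filter (fun m' => x m' = x m)).card := Finset.card_pos.2 ⟨m, h2⟩
  rw [h1] at h3
  have h4 : N w ((x m : ℤ) - l) ≠ 0 := by
    intro h
    simp only [h, mul_zero, lt_self_iff_false] at h3
  have h5 := hC.supp w hw _ h4
  exact ⟨h4, by omega, by omega⟩

theorem a6_dst_sum (hC : LCert κ V M W J den N q lm tp) {w : ℕ} (hw : w ≤ W) {l a e : ℕ}
    (hl : J ≤ l) {E : Finset (Fin d)} {x : Fin d → ℕ}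
    (hx : Dst E e (fun c => a * N w ((c : ℤ) - l)) x) :
    ∑ m, x m = E.card * e + a * a6_sz N J l w := by
  have h1 : ∑ m, x m = ∑ m ∈ E, x m + ∑ m ∈ Eᶜ, x m := (Finset.sum_add_sum_compl E _).symm
  have h2 : ∑ m ∈ E, x m = E.card * e := by
    rw [Finset.sum_congr rfl hx.1, Finset.sum_const, smul_eq_mul]
  have h3 : ∑ m ∈ Eᶜ, x m = ∑ j ∈ Finset.Icc (-(J : ℤ)) J,
      ∑ m ∈ (Eᶜ).filter (fun m => (x m : ℤ) - l = j), x m := by
    refine (Finset.sum_fiberwise_of_maps_to ?_ _).symm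
    intro m hm
    have hm' : m ∉ E := by simpa using hm
    have := a6_dst_mem hC hw hx hm'
    rw [Finset.mem_Icc]
    omega
  have h4 : ∀ j ∈ Finset.Icc (-(J : ℤ)) J,
      ∑ m ∈ (Eᶜ).filter (fun m => (x m : ℤ) - l = j), x m = a * (N w j * (l + j).toNat) := by
    intro j hj
    rw [Finset.mem_Icc] at hj
    have e1 : (Eᶜ).filter (fun m => (x m : ℤ) - l = j) =
        (Eᶜ).filter (fun m => x m = ((l : ℤ) + j).toNat) := by
      refine Finset.filter_congr fun m _ => ?_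
      constructor <;> intro h <;> omega
    rw [e1]
    have e2 : ∑ m ∈ (Eᶜ).filter (fun m => x m = ((l : ℤ) + j).toNat), x m =
        ((Eᶜ).filter (fun m => x m = ((l : ℤ) + j).toNat)).card * ((l : ℤ) + j).toNat := by
      rw [Finset.sum_congr rfl (fun m hm => (Finset.mem_filter.1 hm).2), Finset.sum_const,
        smul_eq_mul]
    rw [e2, hx.2]
    have e3 : (((((l : ℤ) + j).toNat : ℕ) : ℤ) - l) = j := by omega
    simp only [e3]
    ring
  rw [h1, h2, h3, Finset.sum_congr rfl h4, ← Finset.mul_sum]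
  rfl

/-- functions with prescribed sizes of the fibres -/
theorem a6_exists_fibres {α : Type*} [DecidableEq α] (S : Finset α) (R : ℕ) (cls : ℕ → ℕ)
    (h : ∑ c ∈ Finset.range R, cls c = S.card) :
    ∃ x : α → ℕ, (∀ m ∈ S, x m < R) ∧ ∀ c < R, (S.filter (fun m => x m = c)).card = cls c := by
  induction R generalizing S with
  | zero =>
    simp only [Finset.range_zero, Finset.sum_empty] at h
    have : S = ∅ := Finset.card_eq_zero.1 h.symm
    subst this
    exact ⟨fun _ => 0, by simp, by simp⟩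
  | succ R ih =>
    rw [Finset.sum_range_succ] at h
    obtain ⟨S', hS', hc⟩ := Finset.exists_subset_card_eq (show cls R ≤ S.card by omega)
    have hsd : (S \ S').card = ∑ c ∈ Finset.range R, cls c := by
      rw [Finset.card_sdiff_of_subset hS']; omega
    obtain ⟨x, hx1, hx2⟩ := ih (S \ S') hsd.symm
    classical
    refine ⟨fun m => if m ∈ S' then R else x m, ?_, ?_⟩
    · intro m hm
      by_cases h1 : m ∈ S'
      · simp [h1]
      · simp only [h1, if_false]
        have := hx1 m (Finset.mem_sdiff.2 ⟨hm, h1⟩)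
        omega
    · intro c hcR
      by_cases h1 : c = R
      · subst h1
        have : S.filter (fun m => (if m ∈ S' then c else x m) = c) = S' := by
          ext m
          simp only [Finset.mem_filter]
          constructor
          · rintro ⟨h2, h3⟩
            by_contra h4
            rw [if_neg h4] at h3
            have := hx1 m (Finset.mem_sdiff.2 ⟨h2, h4⟩)
            omega
          · intro h2
            exact ⟨hS' h2, by simp [h2]⟩
        rw [this, hc]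
      · have hlt : c < R := by omega
        rw [← hx2 c hlt]
        congr 1
        ext m
        simp only [Finset.mem_filter, Finset.mem_sdiff]
        constructor
        · rintro ⟨h2, h3⟩
          by_cases h4 : m ∈ S'
          · rw [if_pos h4] at h3; omega
          · rw [if_neg h4] at h3
            exact ⟨⟨h2, h4⟩, h3⟩
        · rintro ⟨⟨h2, h4⟩, h3⟩
          exact ⟨h2, by rw [if_neg h4]; exact h3⟩

/-- a state with the distribution `N w` -/
theorem a6_dst_exists (hC : LCert κ V M W J den N q lm tp) {w : ℕ} (hw : w ≤ W) {l a e : ℕ}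
    (hl : J ≤ l) {E : Finset (Fin d)} (hE : a * den + E.card = d) :
    ∃ x : Fin d → ℕ, Dst E e (fun c => a * N w ((c : ℤ) - l)) x := by
  have hcard : (Eᶜ : Finset (Fin d)).card = a * den := by
    rw [Finset.card_compl, Fintype.card_fin]; omega
  have hsum : ∑ c ∈ Finset.range (l + J + 1), a * N w ((c : ℤ) - l) = (Eᶜ : Finset (Fin d)).card := by
    rw [hcard, ← Finset.mul_sum, ← a6_tot hC hw]
    congr 1
    have e1 : ∑ j ∈ Finset.Icc (-(J : ℤ)) J, N w j =
        ∑ c ∈ Finset.Icc (l - J) (l + J), N w ((c : ℤ) - l) := by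
      refine Finset.sum_nbij' (fun j => ((l : ℤ) + j).toNat) (fun c => (c : ℤ) - l) ?_ ?_ ?_ ?_ ?_
      · intro j hj; rw [Finset.mem_Icc] at hj ⊢; omega
      · intro j hj; rw [Finset.mem_Icc] at hj ⊢; omega
      · intro j hj; rw [Finset.mem_Icc] at hj; omega
      · intro j hj; rw [Finset.mem_Icc] at hj; omega
      · intro j hj
        rw [Finset.mem_Icc] at hj
        congr 1
        omega
    rw [e1]
    symm
    refine Finset.sum_subset ?_ ?_
    · intro c hc; rw [Finset.mem_Icc] at hc; rw [Finset.mem_range]; omega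
    · intro c hc hc'
      rw [Finset.mem_range] at hc
      rw [Finset.mem_Icc] at hc'
      by_contra h
      have := hC.supp w hw _ h
      omega
  obtain ⟨x, hx1, hx2⟩ := a6_exists_fibres (Eᶜ) (l + J + 1) _ hsum
  classical
  refine ⟨fun m => if m ∈ E then e else x m, fun m hm => by simp [hm], fun c => ?_⟩
  have e2 : (Eᶜ).filter (fun m => (if m ∈ E then e else x m) = c) =
      (Eᶜ).filter (fun m => x m = c) := by
    refine Finset.filter_congr fun m hm => ?_
    have : m ∉ E := by simpa using hm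
    rw [if_neg this]
  rw [e2]
  by_cases hc : c < l + J + 1
  · exact hx2 c hc
  · have h1 : N w ((c : ℤ) - l) = 0 := by
      by_contra h
      have := hC.supp w hw _ h
      omega
    change ((Eᶜ).filter (fun m => x m = c)).card = a * N w ((c : ℤ) - l)
    rw [h1, mul_zero, Finset.card_eq_zero, Finset.filter_eq_empty_iff]
    intro m hm hmc
    have := hx1 m hm
    omega

end cert


/-- growth from size `t₀` to size `t₁`, with the correction `v` in the exponent -/
def a6_R (L : ℝ) (z : Vtx n d) (P Q : (Fin d → ℕ) → Prop) (t₀ t₁ : ℕ) (v : ℝ) : Prop :=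
  t₀ ≤ t₁ ∧ Reach (Real.exp (-L)) z P Q (Real.exp (∑ t ∈ Finset.Ico t₀ t₁, a6_F d L t + v))

theorem a6_R_trans {L : ℝ} {z : Vtx n d} {P Q S : (Fin d → ℕ) → Prop} {t₀ t₁ t₂ : ℕ} {v v' : ℝ}
    (h : a6_R L z P Q t₀ t₁ v) (h' : a6_R L z Q S t₁ t₂ v') : a6_R L z P S t₀ t₂ (v + v') := by
  refine ⟨h.1.trans h'.1, ?_⟩
  have := reach_trans (Real.exp_pos _).le h.2 h'.2
  rw [← Real.exp_add] at this
  rw [← Finset.sum_Ico_consecutive _ h.1 h'.1]
  convert this using 2
  ring

theorem a6_R_mono {L : ℝ} {z : Vtx n d} {P Q : (Fin d → ℕ) → Prop} {t₀ t₁ : ℕ} {v v' : ℝ}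
    (h : a6_R L z P Q t₀ t₁ v) (hv : v' ≤ v) : a6_R L z P Q t₀ t₁ v' :=
  ⟨h.1, reach_mono (fun _ h => h) (fun _ h => h) (Real.exp_le_exp.2 (by linarith)) h.2⟩

theorem a6_R_forall {L : ℝ} {z : Vtx n d} {P Q : (Fin d → ℕ) → Prop} {t₀ t₁ : ℕ} {v : ℝ}
    (ht : t₀ ≤ t₁) (h : ∀ x₀, P x₀ → ∃ x₁, Q x₁ ∧ a6_R L z (fun x => x = x₀) (fun x => x = x₁)
      t₀ t₁ v) : a6_R L z P Q t₀ t₁ v := by
  refine ⟨ht, reach_of_forall fun x₀ hx₀ => ?_⟩
  obtain ⟨x₁, hx₁, h1⟩ := h x₀ hx₀
  exact reach_mono (fun _ h => h) (fun x hx => by rw [hx]; exact hx₁) le_rfl h1.2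

section cert

variable {κ V : ℝ} {M W J den : ℕ} {N q : ℕ → ℤ → ℕ} {lm tp : ℕ → ℤ}

/-- value of a window -/
noncomputable def a6_val (κ : ℝ) (J den : ℕ) (N q : ℕ → ℤ → ℕ) (lm tp : ℕ → ℤ) (w : ℕ) : ℝ :=
  (∑ j ∈ Finset.Icc (-(J : ℤ)) J, ent (N w j) (q w j)) / den +
    (fsum J q w : ℝ) / den * (Real.log ((fsum J q w : ℝ) / den) -
      κ * ((∑ j ∈ Finset.Icc (-(J : ℤ)) J,
          (N w j : ℝ) * ((j - lm w) * (j - lm w - 1))) / den +
        (fsum J q w : ℝ) / den * max 0 ((tp w : ℝ) - lm w)))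

/-- the windows of one block -/
theorem a6_windows (hC : LCert κ V M W J den N q lm tp) {C ε L : ℝ} {a l k T : ℕ}
    {z : Vtx n d} {E : Finset (Fin d)} (hl : J ≤ l)
    (hwin : ∀ (w t₀ : ℕ), w < W →
      t₀ + d = a * (∑ j ∈ Finset.Icc (-(J : ℤ)) J, N w j * (l + j).toNat) +
        E.card * (l + J + M) →
      t₀ + a * fsum J q w ≤ k →
      Reach (Real.exp (-L)) z (Dst E (l + J + M) (fun c => a * N w ((c : ℤ) - l)))
        (Dst E (l + J + M) (fun c => a * N (w + 1) ((c : ℤ) - l)))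
        (Real.exp (∑ t ∈ Finset.Ico t₀ (t₀ + a * fsum J q w), (Bx d t - L / 2) +
          d * a6_val κ J den N q lm tp w -
          ε * (a * fsum J q w : ℕ) - C * Real.log d)))
    (hT : T + d = a * a6_sz N J l 0 + E.card * (l + J + M)) {w : ℕ} (hw : w ≤ W)
    (hk : T + a * ∑ i ∈ Finset.range w, fsum J q i ≤ k) :
    a6_R L z (Dst E (l + J + M) (fun c => a * N 0 ((c : ℤ) - l)))
      (Dst E (l + J + M) (fun c => a * N w ((c : ℤ) - l))) T
      (T + a * ∑ i ∈ Finset.range w, fsum J q i)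
      (d * ∑ i ∈ Finset.range w, a6_val κ J den N q lm tp i -
        ε * (a * ∑ i ∈ Finset.range w, fsum J q i : ℕ) - w * (C * Real.log d)) := by
  induction w with
  | zero =>
    refine ⟨by simp, ?_⟩
    simp only [Finset.range_zero, Finset.sum_empty, mul_zero, add_zero, Finset.Ico_self,
      Nat.cast_zero, sub_zero, zero_mul, Real.exp_zero]
    exact reach_refl
  | succ w ih =>
    rw [Finset.sum_range_succ, mul_add] at hk
    have h1 := ih (by omega) (by omega)
    have hsz := a6_sz_sum hC (l := l) (w := w) (by omega) hl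
    have h2 := hwin w (T + a * ∑ i ∈ Finset.range w, fsum J q i) (by omega)
      (by
        have e : (∑ j ∈ Finset.Icc (-(J : ℤ)) J, N w j * (l + j).toNat) = a6_sz N J l w := rfl
        rw [e, hsz, mul_add]
        omega) (by omega)
    have h3 : a6_R L z (Dst E (l + J + M) (fun c => a * N w ((c : ℤ) - l)))
        (Dst E (l + J + M) (fun c => a * N (w + 1) ((c : ℤ) - l)))
        (T + a * ∑ i ∈ Finset.range w, fsum J q i)
        (T + a * ∑ i ∈ Finset.range w, fsum J q i + a * fsum J q w)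
        (d * a6_val κ J den N q lm tp w - ε * (a * fsum J q w : ℕ) - C * Real.log d) := by
      refine ⟨by omega, ?_⟩
      convert h2 using 2
      unfold a6_F
      ring
    have h4 := a6_R_trans h1 h3
    rw [Finset.sum_range_succ, Finset.sum_range_succ, mul_add, ← add_assoc]
    refine a6_R_mono h4 (le_of_eq ?_)
    push_cast
    ring

theorem a6_block (hC : LCert κ V M W J den N q lm tp) {C ε L : ℝ} {a l k T : ℕ}
    {z : Vtx n d} {E : Finset (Fin d)} (hl : J ≤ l)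
    (hwin : ∀ (w t₀ : ℕ), w < W →
      t₀ + d = a * (∑ j ∈ Finset.Icc (-(J : ℤ)) J, N w j * (l + j).toNat) +
        E.card * (l + J + M) →
      t₀ + a * fsum J q w ≤ k →
      Reach (Real.exp (-L)) z (Dst E (l + J + M) (fun c => a * N w ((c : ℤ) - l)))
        (Dst E (l + J + M) (fun c => a * N (w + 1) ((c : ℤ) - l)))
        (Real.exp (∑ t ∈ Finset.Ico t₀ (t₀ + a * fsum J q w), (Bx d t - L / 2) +
          d * a6_val κ J den N q lm tp w -
          ε * (a * fsum J q w : ℕ) - C * Real.log d)))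
    (hT : T + d = a * a6_sz N J l 0 + E.card * (l + J + M)) (hk : T + a * (M * den) ≤ k) :
    a6_R L z (Dst E (l + J + M) (fun c => a * N 0 ((c : ℤ) - l)))
      (Dst E (l + M + J) (fun c => a * N 0 ((c : ℤ) - (l + M : ℕ)))) T (T + a * (M * den))
      (d * (V * M) - ε * (a * (M * den) : ℕ) - W * (C * Real.log d)) := by
  have hs := a6_fsum_total hC
  have h1 := a6_windows hC hl hwin hT (w := W) le_rfl (by rw [hs]; exact hk)
  rw [hs] at h1
  have e1 : (fun c : ℕ => a * N W ((c : ℤ) - l)) =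
      (fun c : ℕ => a * N 0 ((c : ℤ) - (l + M : ℕ))) := by
    funext c
    rw [hC.per]
    congr 2
    push_cast
    ring
  have e2 : l + J + M = l + M + J := by ring
  rw [e1] at h1
  have h2 : Dst E (l + J + M) (fun c : ℕ => a * N 0 ((c : ℤ) - (l + M : ℕ))) =
      Dst E (l + M + J) (fun c : ℕ => a * N 0 ((c : ℤ) - (l + M : ℕ))) := by rw [e2]
  rw [h2] at h1
  refine a6_R_mono h1 ?_
  have h3 : V * M ≤ ∑ i ∈ Finset.range W, a6_val κ J den N q lm tp i := hC.value
  have h4 : (0 : ℝ) ≤ d := Nat.cast_nonneg d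
  have := mul_le_mul_of_nonneg_left h3 h4
  linarith

/-- filling, as a statement on `a6_R` -/
theorem a6_fillR {k l y J t₀ t₁ : ℕ} {L cm : ℝ} {z : Vtx n d} {x₀ x₁ : Fin d → ℕ} (hd : 2 ≤ d)
    (hk : sfun d k + 6 * Real.log d ≤ L) (hl : 1 ≤ l) (h01 : ∀ m, x₀ m ≤ x₁ m)
    (hl0 : ∀ m, l ≤ x₀ m) (hy : ∀ m, x₁ m ≤ y) (hyJ : y ≤ l + J) (hyd : y ≤ d)
    (ht0 : t₀ + d = ∑ m, x₀ m) (ht1 : t₁ + d = ∑ m, x₁ m) (ht1k : t₁ ≤ k)
    (hev : Even (t₁ - t₀))
    (hmax : ∃ i j, i ≠ j ∧ ∀ m, x₁ m - x₀ m ≤ x₁ i - x₀ i ∧ x₁ m - x₀ m ≤ x₁ j - x₀ j)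
    (hroom : Room (y + 1) z) (hcm : d * ((J : ℝ) / l) ^ 2 ≤ cm) :
    a6_R L z (fun x => x = x₀) (fun x => x = x₁) t₀ t₁
      (-(((t₁ : ℝ) - t₀) / 2 * (cm + 1 + 5 * Real.log d))) := by
  obtain ⟨h1, h2⟩ := a6_fill hd hk hl h01 hl0 hy hyJ hyd ht0 ht1 ht1k hev hmax hroom hcm
  refine ⟨h1, ?_⟩
  rwa [sub_eq_add_neg] at h2

theorem a6_exists_two {E : Finset (Fin d)} (hE : 2 ≤ E.card) : ∃ i ∈ E, ∃ j ∈ E, i ≠ j := by
  obtain ⟨i, hi, j, hj, hij⟩ := Finset.one_lt_card.1 (by omega : 1 < E.card)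
  exact ⟨i, hi, j, hj, hij⟩

/-- the directions `E` are raised by `M` -/
theorem a6_raise (hC : LCert κ V M W J den N q lm tp) {L cm : ℝ} {a l k T : ℕ}
    {z : Vtx n d} {E : Finset (Fin d)} (hd : 2 ≤ d) (hl : J + 1 ≤ l) (hE2 : 2 ≤ E.card)
    (hk : sfun d k + 6 * Real.log d ≤ L) (hyd : l + J + M ≤ d) (hroom : Room (l + J + M + 1) z)
    (hcm : d * (((2 * J + M : ℕ) : ℝ) / (l - J : ℕ)) ^ 2 ≤ cm)
    (hT : T + d = a * a6_sz N J l 0 + E.card * (l + J)) (hTk : T + E.card * M ≤ k) :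
    a6_R L z (Dst E (l + J) (fun c => a * N 0 ((c : ℤ) - l)))
      (Dst E (l + J + M) (fun c => a * N 0 ((c : ℤ) - l))) T (T + E.card * M)
      (-(((E.card * M : ℕ) : ℝ) / 2 * (cm + 1 + 5 * Real.log d))) := by
  refine a6_R_forall (by omega) fun x₀ hx₀ => ?_
  classical
  obtain ⟨i, hi, j, hj, hij⟩ := a6_exists_two hE2
  set x₁ : Fin d → ℕ := fun m => if m ∈ E then l + J + M else x₀ m with hx₁
  have hD : Dst E (l + J + M) (fun c => a * N 0 ((c : ℤ) - l)) x₁ := by
    refine ⟨fun m hm => by simp [hx₁, hm], fun c => ?_⟩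
    rw [← hx₀.2 c]
    congr 1
    refine Finset.filter_congr fun m hm => ?_
    have : m ∉ E := by simpa using hm
    simp [hx₁, this]
  refine ⟨x₁, hD, ?_⟩
  have hval : ∀ m, x₀ m = l + J ∧ x₁ m = l + J + M ∨ (x₀ m = x₁ m ∧ l ≤ x₀ m + J ∧ x₀ m ≤ l + J) := by
    intro m
    by_cases hm : m ∈ E
    · left
      exact ⟨hx₀.1 m hm, by simp [hx₁, hm]⟩
    · right
      have := a6_dst_mem hC (Nat.zero_le _) hx₀ hm
      refine ⟨by simp [hx₁, hm], by omega, by omega⟩
  have hi1 := hx₀.1 i hi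
  have hj1 := hx₀.1 j hj
  have hi2 : x₁ i = l + J + M := by simp [hx₁, hi]
  have hj2 : x₁ j = l + J + M := by simp [hx₁, hj]
  have hs0 := a6_dst_sum hC (Nat.zero_le W) (by omega : J ≤ l) hx₀
  have hs1 := a6_dst_sum hC (Nat.zero_le W) (by omega : J ≤ l) hD
  have h := a6_fillR (k := k) (l := l - J) (y := l + J + M) (J := 2 * J + M) (t₀ := T)
    (t₁ := T + E.card * M) (L := L) (cm := cm) (z := z) (x₀ := x₀) (x₁ := x₁) hd hk (by omega)
    (fun m => by rcases hval m with h | h <;> omega)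
    (fun m => by rcases hval m with h | h <;> omega)
    (fun m => by rcases hval m with h | h <;> omega)
    (by omega) hyd (by rw [hs0]; omega)
    (by rw [hs1, mul_add E.card (l + J) M]; omega) hTk
    (by
      have : T + E.card * M - T = E.card * M := by omega
      rw [this]
      exact hC.M_even.mul_left _)
    ⟨i, j, hij, fun m => by rcases hval m with h | h <;> omega⟩ hroom hcm
  refine a6_R_mono h (le_of_eq ?_)
  push_cast
  ring

/-- several blocks -/
theorem a6_chain (hC : LCert κ V M W J den N q lm tp) {C ε L cm : ℝ} {a l k X' T : ℕ}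
    {z : Vtx n d} {E : Finset (Fin d)} (hd : 2 ≤ d) (hl : J + 1 ≤ l) (hE2 : 2 ≤ E.card)
    (hE : a * den + E.card = d) (hk : sfun d k + 6 * Real.log d ≤ L) (hX'd : X' ≤ d)
    (hX'k : (X' - 1) * d ≤ k) (hroom : Room (X' + 1) z)
    (hcm : d * (((2 * J + M : ℕ) : ℝ) / (l - J : ℕ)) ^ 2 ≤ cm)
    (hwin : ∀ l', l ≤ l' → l' + J + M ≤ X' → ∀ (w t₀ : ℕ), w < W →
      t₀ + d = a * (∑ j ∈ Finset.Icc (-(J : ℤ)) J, N w j * (l' + j).toNat) +
        E.card * (l' + J + M) →
      t₀ + a * fsum J q w ≤ k →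
      Reach (Real.exp (-L)) z (Dst E (l' + J + M) (fun c => a * N w ((c : ℤ) - l')))
        (Dst E (l' + J + M) (fun c => a * N (w + 1) ((c : ℤ) - l')))
        (Real.exp (∑ t ∈ Finset.Ico t₀ (t₀ + a * fsum J q w), (Bx d t - L / 2) +
          d * a6_val κ J den N q lm tp w -
          ε * (a * fsum J q w : ℕ) - C * Real.log d)))
    (hT : T + d = a * a6_sz N J l 0 + E.card * (l + J + M)) (b : ℕ) :
    l + (b + 1) * M + J ≤ X' → ∀ t, t + E.card * M = T + (b + 1) * (d * M) →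
    a6_R L z (Dst E (l + J + M) (fun c => a * N 0 ((c : ℤ) - l)))
      (Dst E (l + (b + 1) * M + J) (fun c => a * N 0 ((c : ℤ) - (l + (b + 1) * M : ℕ)))) T t
      ((b + 1) * (d * (V * M) - ε * (a * (M * den) : ℕ) - W * (C * Real.log d) -
        ((E.card * M : ℕ) : ℝ) / 2 * (cm + 1 + 5 * Real.log d))) := by
  have hcm0 : 0 ≤ cm := le_trans (by positivity) hcm
  have hlog : 0 ≤ Real.log d := Real.log_natCast_nonneg d
  have hraise0 : 0 ≤ ((E.card * M : ℕ) : ℝ) / 2 * (cm + 1 + 5 * Real.log d) := by positivity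
  have hX'1 : ∀ c, c ≤ X' → 1 ≤ c → (c - 1) * d ≤ k := fun c hc _ =>
    (Nat.mul_le_mul_right d (by omega)).trans hX'k
  have hEx : ∀ x : ℕ, d * x = a * den * x + E.card * x := fun x => by rw [← add_mul, hE]
  have hEy : ∀ c : ℕ, c * (d * M) = a * (c * M * den) + E.card * (c * M) := fun c => by
    rw [hEx M]; ring
  have hdM : d * M = a * (M * den) + E.card * M := by rw [hEx M]; ring
  -- the block at base `l + b M`
  have hblk : ∀ b : ℕ, l + (b + 1) * M + J ≤ X' →
      a6_R L z (Dst E (l + b * M + J + M) (fun c => a * N 0 ((c : ℤ) - (l + b * M : ℕ))))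
        (Dst E (l + (b + 1) * M + J) (fun c => a * N 0 ((c : ℤ) - (l + (b + 1) * M : ℕ))))
        (T + b * (d * M)) (T + b * (d * M) + a * (M * den))
        (d * (V * M) - ε * (a * (M * den) : ℕ) - W * (C * Real.log d)) := by
    intro b hb
    have e0 : l + b * M + M = l + (b + 1) * M := by ring
    have hsz := a6_sz_add hC (l := l) (w := 0) (c := b * M) (Nat.zero_le _) (by omega)
    have hTb : T + b * (d * M) + d = a * a6_sz N J (l + b * M) 0 + E.card * (l + b * M + J + M) := by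
      rw [hsz]
      have e1 := hEy b
      rw [e1]
      have e2 : E.card * (l + b * M + J + M) = E.card * (l + J + M) + E.card * (b * M) := by ring
      rw [e2, mul_add]
      omega
    have hle : T + b * (d * M) + a * (M * den) ≤ k := by
      have h1 := a6_sz_le hC (l := l + b * M) (w := 0) (Nat.zero_le _)
      have h2 : a * a6_sz N J (l + b * M) 0 + a * (M * den) ≤ a * den * (l + (b + 1) * M + J) := by
        calc a * a6_sz N J (l + b * M) 0 + a * (M * den)
            ≤ a * (den * (l + b * M + J)) + a * (M * den) := by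
              have := Nat.mul_le_mul_left a h1
              omega
          _ = a * den * (l + (b + 1) * M + J) := by ring
      have h3 : T + b * (d * M) + a * (M * den) + d ≤ d * (l + (b + 1) * M + J) := by
        have e3 : E.card * (l + b * M + J + M) = E.card * (l + (b + 1) * M + J) := by ring
        rw [e3] at hTb
        calc T + b * (d * M) + a * (M * den) + d
            ≤ a * den * (l + (b + 1) * M + J) + E.card * (l + (b + 1) * M + J) := by omega
          _ = d * (l + (b + 1) * M + J) := by rw [← add_mul, hE]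
      have h4 := hX'1 _ hb (by omega)
      have h5 : (l + (b + 1) * M + J - 1) * d + d = d * (l + (b + 1) * M + J) := by
        have : l + (b + 1) * M + J - 1 + 1 = l + (b + 1) * M + J := by omega
        calc (l + (b + 1) * M + J - 1) * d + d = (l + (b + 1) * M + J - 1 + 1) * d := by ring
          _ = d * (l + (b + 1) * M + J) := by rw [this]; ring
      omega
    have h := a6_block hC (l := l + b * M) (T := T + b * (d * M)) (by omega)
      (hwin (l + b * M) (by omega) (by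
        have : l + b * M + J + M = l + (b + 1) * M + J := by ring
        omega)) hTb hle
    have e4 : l + b * M + M + J = l + (b + 1) * M + J := by ring
    have e5 : (fun c : ℕ => a * N 0 ((c : ℤ) - (l + b * M + M : ℕ))) =
        (fun c : ℕ => a * N 0 ((c : ℤ) - (l + (b + 1) * M : ℕ))) := by rw [e0]
    rw [e4, e5] at h
    exact h
  induction b with
  | zero =>
    intro hb t ht
    have h := hblk 0 hb
    have e1 : T + 0 * (d * M) = T := by ring
    have e2 : t = T + 0 * (d * M) + a * (M * den) := by omega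
    rw [← e2, e1] at h
    have e3 : l + 0 * M + J + M = l + J + M := by ring
    have e4 : (fun c : ℕ => a * N 0 ((c : ℤ) - (l + 0 * M : ℕ))) =
        (fun c : ℕ => a * N 0 ((c : ℤ) - l)) := by
      rw [Nat.zero_mul, Nat.add_zero]
    rw [e3, e4] at h
    refine a6_R_mono h ?_
    push_cast
    push_cast at hraise0
    linarith
  | succ b ih =>
    intro hb t ht
    have hb' : l + (b + 1) * M + J + M ≤ X' := by
      have : l + (b + 1 + 1) * M + J = l + (b + 1) * M + J + M := by ring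
      omega
    have hEM : E.card * M ≤ (b + 1) * (d * M) := by
      calc E.card * M ≤ d * M := by omega
        _ ≤ (b + 1) * (d * M) := Nat.le_mul_of_pos_left _ (by omega)
    obtain ⟨t₁, ht₁⟩ : ∃ t₁, t₁ + E.card * M = T + (b + 1) * (d * M) :=
      ⟨T + (b + 1) * (d * M) - E.card * M, by omega⟩
    have h1 := ih (by omega) t₁ ht₁
    -- raise
    have hsz := a6_sz_add hC (l := l) (w := 0) (c := (b + 1) * M) (Nat.zero_le _) (by omega)
    have hT1 : t₁ + d = a * a6_sz N J (l + (b + 1) * M) 0 + E.card * (l + (b + 1) * M + J) := by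
      rw [hsz]
      have e1 := hEy (b + 1)
      have e2 : E.card * (l + (b + 1) * M + J) + E.card * M =
          E.card * (l + J + M) + E.card * ((b + 1) * M) := by ring
      rw [mul_add]
      omega
    have hle : t₁ + E.card * M ≤ k := by
      have h1 := a6_sz_le hC (l := l + (b + 1) * M) (w := 0) (Nat.zero_le _)
      have h3 : t₁ + E.card * M + d ≤ d * (l + (b + 1) * M + J + M) := by
        calc t₁ + E.card * M + d
            ≤ a * (den * (l + (b + 1) * M + J)) + E.card * (l + (b + 1) * M + J) + E.card * M := by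
              have := Nat.mul_le_mul_left a h1
              omega
          _ ≤ a * (den * (l + (b + 1) * M + J + M)) + E.card * (l + (b + 1) * M + J + M) := by
              have : a * (den * (l + (b + 1) * M + J)) ≤ a * (den * (l + (b + 1) * M + J + M)) :=
                Nat.mul_le_mul_left _ (Nat.mul_le_mul_left _ (by omega))
              have e : E.card * (l + (b + 1) * M + J + M) =
                E.card * (l + (b + 1) * M + J) + E.card * M := by ring
              omega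
          _ = d * (l + (b + 1) * M + J + M) := by rw [← mul_assoc, ← add_mul, hE]
      have h4 := hX'1 _ hb' (by omega)
      have h5 : (l + (b + 1) * M + J + M - 1) * d + d = d * (l + (b + 1) * M + J + M) := by
        have : l + (b + 1) * M + J + M - 1 + 1 = l + (b + 1) * M + J + M := by omega
        calc (l + (b + 1) * M + J + M - 1) * d + d = (l + (b + 1) * M + J + M - 1 + 1) * d := by
              ring
          _ = d * (l + (b + 1) * M + J + M) := by rw [this]; ring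
      omega
    have h2 := a6_raise hC (l := l + (b + 1) * M) (T := t₁) (k := k) (L := L) (cm := cm)
      (z := z) (E := E) (a := a) hd (by omega) hE2 hk (by omega)
      (a6_room_mono hroom (by omega)) (by
        refine le_trans ?_ hcm
        have h6 : (0 : ℝ) < (l - J : ℕ) := by exact_mod_cast (by omega : 0 < l - J)
        have h7 : ((l - J : ℕ) : ℝ) ≤ (l + (b + 1) * M - J : ℕ) := by
          exact_mod_cast (by omega : l - J ≤ l + (b + 1) * M - J)
        gcongr) hT1 hle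
    have h3 := hblk (b + 1) hb
    have e1 : t₁ + E.card * M = T + (b + 1) * (d * M) := ht₁
    rw [e1] at h2
    have h4 := a6_R_trans (a6_R_trans h1 h2) h3
    have e2 : t = T + (b + 1) * (d * M) + a * (M * den) := by
      have : (b + 1 + 1) * (d * M) = (b + 1) * (d * M) + d * M := by ring
      omega
    rw [← e2] at h4
    refine a6_R_mono h4 (le_of_eq ?_)
    push_cast
    ring

end cert


theorem a6_cm {κ ε : ℝ} (hε : 0 < ε) {d X l J J₁ : ℕ} (hX : 1 ≤ X)
    (h : (1 + ε) * d ≤ 4 * κ * (X : ℝ) ^ 2) (hl : X ≤ l) (hJ : J ≤ J₁) :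
    d * ((J : ℝ) / l) ^ 2 ≤ 4 * κ * (J₁ : ℝ) ^ 2 := by
  have hX0 : (0 : ℝ) < X := by exact_mod_cast hX
  have hXl : (X : ℝ) ≤ l := by exact_mod_cast hl
  have hl0 : (0 : ℝ) < l := hX0.trans_le hXl
  have hJJ : (J : ℝ) ≤ J₁ := by exact_mod_cast hJ
  have hd0 : (0 : ℝ) ≤ d := Nat.cast_nonneg d
  have h1 : (d : ℝ) ≤ 4 * κ * (X : ℝ) ^ 2 := by nlinarith
  have hκ : 0 ≤ κ := by
    by_contra hneg
    have : 4 * κ * (X : ℝ) ^ 2 < 0 := by
      have : 0 < (X : ℝ) ^ 2 := by positivity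
      nlinarith
    linarith
  have h2 : (J : ℝ) / l ≤ (J₁ : ℝ) / X := by gcongr
  calc d * ((J : ℝ) / l) ^ 2 ≤ (4 * κ * (X : ℝ) ^ 2) * ((J₁ : ℝ) / X) ^ 2 := by gcongr
    _ = 4 * κ * (J₁ : ℝ) ^ 2 := by field_simp

theorem a6_const_sum (X : ℕ) (hX : 1 ≤ X) : (X - 1) * d + d = ∑ _m : Fin d, X := by
  rw [Finset.sum_const, Finset.card_univ, Fintype.card_fin, smul_eq_mul]
  obtain ⟨Y, rfl⟩ : ∃ Y, X = Y + 1 := ⟨X - 1, by omega⟩
  rw [Nat.add_sub_cancel]
  ring

/-- short distances are filled directly -/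
theorem a6_short {κ ε : ℝ} (hε : 0 < ε) {k X X' J₁ : ℕ} {L : ℝ} {z : Vtx n d} (hd : 2 ≤ d)
    (hX : Odd X) (hX' : Odd X') (hXX : X ≤ X') (h : (1 + ε) * d ≤ 4 * κ * (X : ℝ) ^ 2)
    (hX'd : X' ≤ d) (hX'k : (X' - 1) * d ≤ k) (hk : sfun d k + 6 * Real.log d ≤ L)
    (hroom : Room (X' + 1) z) (hJ₁ : X' ≤ X + J₁) :
    a6_R L z (fun x => ∀ m, x m = X) (fun x => ∀ m, x m = X') ((X - 1) * d) ((X' - 1) * d)
      (-((((X' - 1) * d : ℕ) : ℝ) - (((X - 1) * d : ℕ) : ℝ)) / 2 *
        (4 * κ * (J₁ : ℝ) ^ 2 + 1 + 5 * Real.log d)) := by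
  have hX1 : 1 ≤ X := hX.pos
  have hX'1 : 1 ≤ X' := hX'.pos
  refine a6_R_forall (Nat.mul_le_mul_right d (by omega)) fun x₀ hx₀ => ?_
  refine ⟨fun _ => X', fun _ => rfl, ?_⟩
  have hx : x₀ = fun _ => X := funext hx₀
  subst hx
  have hev : Even ((X' - 1) * d - (X - 1) * d) := by
    rw [← Nat.sub_mul]
    have : Even (X' - 1 - (X - 1)) := by
      obtain ⟨u, hu⟩ := hX
      obtain ⟨u', hu'⟩ := hX'
      exact ⟨u' - u, by omega⟩
    exact this.mul_right _
  have h1 := a6_fillR (k := k) (l := X) (y := X') (J := J₁) (t₀ := (X - 1) * d)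
    (t₁ := (X' - 1) * d) (L := L) (cm := 4 * κ * (J₁ : ℝ) ^ 2) (z := z) (x₀ := fun _ => X)
    (x₁ := fun _ => X') hd hk hX1 (fun _ => hXX) (fun _ => le_rfl) (fun _ => le_rfl) hJ₁ hX'd
    (a6_const_sum X hX1) (a6_const_sum X' hX'1) hX'k hev
    ⟨⟨0, by omega⟩, ⟨1, by omega⟩, by simp, fun m => ⟨le_rfl, le_rfl⟩⟩ hroom
    (a6_cm hε hX1 h le_rfl le_rfl)
  refine a6_R_mono h1 (le_of_eq ?_)
  ring

section cert

variable {κ V : ℝ} {M W J den : ℕ} {N q : ℕ → ℤ → ℕ} {lm tp : ℕ → ℤ}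

/-- the first filling: from a balanced state to the distribution `N 0` -/
theorem a6_first (hC : LCert κ V M W J den N q lm tp) {L cm : ℝ} {a X k T J₁ : ℕ}
    {z : Vtx n d} {E : Finset (Fin d)} (hd : 2 ≤ d) (hX : 1 ≤ X) (hE2 : 2 ≤ E.card)
    (hE : a * den + E.card = d) (ha : Even a) (hk : sfun d k + 6 * Real.log d ≤ L)
    (hyd : X + J + J + M ≤ d) (hroom : Room (X + J + J + M + 1) z) (hJ₁ : 2 * J + M ≤ J₁)
    (hcm : d * ((J₁ : ℝ) / X) ^ 2 ≤ cm)
    (hT : T + d = a * a6_sz N J (X + J) 0 + E.card * (X + J + J + M)) (hTk : T ≤ k) :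
    a6_R L z (fun x => ∀ m, x m = X)
      (Dst E (X + J + J + M) (fun c => a * N 0 ((c : ℤ) - (X + J : ℕ)))) ((X - 1) * d) T
      (-(((T : ℝ) - (((X - 1) * d : ℕ) : ℝ)) / 2 * (cm + 1 + 5 * Real.log d))) := by
  have hEx : ∀ x : ℕ, d * x = a * den * x + E.card * x := fun x => by rw [← add_mul, hE]
  have h1 := a6_le_sz hC (l := X + J) (w := 0) (Nat.zero_le _)
  rw [Nat.add_sub_cancel] at h1
  have h2 := Nat.mul_le_mul_left a h1
  have h3 := a6_const_sum (d := d) X hX
  have h4 : ∑ _m : Fin d, X = d * X := by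
    rw [Finset.sum_const, Finset.card_univ, Fintype.card_fin, smul_eq_mul]
  have h5 := hEx X
  have h6 : a * (den * X) = a * den * X := by ring
  have h7 : E.card * (X + J + J + M) = E.card * X + E.card * (2 * J + M) := by ring
  refine a6_R_forall (by omega) fun x₀ hx₀ => ?_
  have hx : x₀ = fun _ => X := funext hx₀
  subst hx
  obtain ⟨x₁, hx₁⟩ := a6_dst_exists hC (w := 0) (Nat.zero_le _) (l := X + J) (a := a)
    (e := X + J + J + M) (by omega) hE
  refine ⟨x₁, hx₁, ?_⟩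
  have hs := a6_dst_sum hC (Nat.zero_le W) (by omega : J ≤ X + J) hx₁
  obtain ⟨i, hi, j, hj, hij⟩ := a6_exists_two hE2
  have hval : ∀ m, x₁ m = X + J + J + M ∨ (X ≤ x₁ m ∧ x₁ m ≤ X + J + J) := by
    intro m
    by_cases hm : m ∈ E
    · left; exact hx₁.1 m hm
    · right
      have := a6_dst_mem hC (Nat.zero_le _) hx₁ hm
      constructor <;> omega
  have hi1 := hx₁.1 i hi
  have hj1 := hx₁.1 j hj
  have hdiff : T - (X - 1) * d = a * (a6_sz N J (X + J) 0 - den * X) + E.card * (2 * J + M) := by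
    have h8 : a * (a6_sz N J (X + J) 0 - den * X) + a * (den * X) = a * a6_sz N J (X + J) 0 := by
      rw [← mul_add]
      congr 1
      omega
    omega
  refine a6_fillR (k := k) (l := X) (y := X + J + J + M) (J := J₁) hd hk hX
    (fun m => by rcases hval m with h | h <;> omega) (fun _ => le_rfl)
    (fun m => by rcases hval m with h | h <;> omega) (by omega) hyd
    (a6_const_sum X hX) (by rw [hs]; omega) hTk ?_
    ⟨i, j, hij, fun m => by rcases hval m with h | h <;> omega⟩ hroom hcm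
  rw [hdiff]
  have hJM : Even (2 * J + M) := (even_two_mul J).add hC.M_even
  exact (ha.mul_right _).add (hJM.mul_left _)

/-- the last filling: from the distribution `N 0` to a balanced state -/
theorem a6_last (hC : LCert κ V M W J den N q lm tp) {L cm : ℝ} {a X' l k T J₁ : ℕ}
    {z : Vtx n d} {E : Finset (Fin d)} (hd : 2 ≤ d) (hl : J + 1 ≤ l)
    (hE : a * den + E.card = d) (ha : Even a) (ha0 : 0 < a)
    (hk : sfun d k + 6 * Real.log d ≤ L)
    (hX'd : X' ≤ d) (hX'k : (X' - 1) * d ≤ k) (hroom : Room (X' + 1) z) (hlX : l + J ≤ X')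
    (hJ₁ : X' ≤ l - J + J₁) (hev : Even (X' - (l + J)))
    (hcm : d * ((J₁ : ℝ) / (l - J : ℕ)) ^ 2 ≤ cm)
    (hT : T + d = a * a6_sz N J l 0 + E.card * (l + J)) :
    a6_R L z (Dst E (l + J) (fun c => a * N 0 ((c : ℤ) - l)))
      (fun x => ∀ m, x m = X') T ((X' - 1) * d)
      (-(((((X' - 1) * d : ℕ) : ℝ) - T) / 2 * (cm + 1 + 5 * Real.log d))) := by
  have hEx : ∀ x : ℕ, d * x = a * den * x + E.card * x := fun x => by rw [← add_mul, hE]
  have h1 := a6_sz_le hC (l := l) (w := 0) (Nat.zero_le _)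
  have h1' : a6_sz N J l 0 ≤ den * X' := h1.trans (Nat.mul_le_mul_left _ hlX)
  have h2 := Nat.mul_le_mul_left a h1'
  have h3 := a6_const_sum (d := d) X' (by omega)
  have h4 : ∑ _m : Fin d, X' = d * X' := by
    rw [Finset.sum_const, Finset.card_univ, Fintype.card_fin, smul_eq_mul]
  have h5 := hEx X'
  have h6 : a * (den * X') = a * den * X' := by ring
  have h7 : E.card * (l + J) + E.card * (X' - (l + J)) = E.card * X' := by
    rw [← mul_add]; congr 1; omega
  have hTle : T ≤ (X' - 1) * d := by omega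
  refine a6_R_forall hTle fun x₀ hx₀ => ?_
  refine ⟨fun _ => X', fun _ => rfl, ?_⟩
  have hs := a6_dst_sum hC (Nat.zero_le W) (by omega : J ≤ l) hx₀
  have hval : ∀ m, l ≤ x₀ m + J ∧ x₀ m ≤ l + J := by
    intro m
    by_cases hm : m ∈ E
    · have := hx₀.1 m hm
      constructor <;> omega
    · have := a6_dst_mem hC (Nat.zero_le _) hx₀ hm
      constructor <;> omega
  -- two shortest directions
  have hne : (Eᶜ : Finset (Fin d)).Nonempty := by
    rw [← Finset.card_pos, Finset.card_compl, Fintype.card_fin]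
    have : 0 < a * den := Nat.mul_pos ha0 hC.den_pos
    omega
  obtain ⟨i, hi, hmin⟩ := Finset.exists_min_image (Eᶜ) x₀ hne
  have hiE : i ∉ E := by simpa using hi
  have hcard : 1 < ((Eᶜ).filter (fun m => x₀ m = x₀ i)).card := by
    have h8 := hx₀.2 (x₀ i)
    have h9 : 0 < ((Eᶜ).filter (fun m => x₀ m = x₀ i)).card :=
      Finset.card_pos.2 ⟨i, by simp [hiE]⟩
    have h10 : Even (((Eᶜ).filter (fun m => x₀ m = x₀ i)).card) := by
      rw [h8]; exact ha.mul_right _
    obtain ⟨r, hr⟩ := h10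
    omega
  obtain ⟨i₁, hi₁, i₂, hi₂, hii⟩ := Finset.one_lt_card.1 hcard
  have hi₁' := (Finset.mem_filter.1 hi₁).2
  have hi₂' := (Finset.mem_filter.1 hi₂).2
  have hmin' : ∀ m, x₀ i ≤ x₀ m := by
    intro m
    by_cases hm : m ∈ E
    · have := hx₀.1 m hm
      have := hval i
      omega
    · exact hmin m (by simpa using hm)
  have hdiff : (X' - 1) * d - T = a * (den * X' - a6_sz N J l 0) + E.card * (X' - (l + J)) := by
    have h8 : a * (den * X' - a6_sz N J l 0) + a * a6_sz N J l 0 = a * (den * X') := by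
      rw [← mul_add]
      congr 1
      omega
    omega
  refine a6_fillR (k := k) (l := l - J) (y := X') (J := J₁) hd hk (by omega)
    (fun m => by have := hval m; show x₀ m ≤ X'; omega)
    (fun m => by have := hval m; omega)
    (fun m => le_rfl) hJ₁ hX'd
    (by rw [hs]; omega) (a6_const_sum X' (by omega)) hX'k ?_
    ⟨i₁, i₂, hii, fun m => by
      have := hmin' m
      constructor
      · show X' - x₀ m ≤ X' - x₀ i₁; omega
      · show X' - x₀ m ≤ X' - x₀ i₂; omega⟩ hroom hcm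
  rw [hdiff]
  exact (ha.mul_right _).add (hev.mul_left _)

end cert


/-- the loss per step -/
theorem a6_loss {cm Λ : ℝ} (hΛ : 1 ≤ Λ) (hcm : 0 ≤ cm) : cm + 1 + 5 * Λ ≤ (cm + 6) * Λ := by
  nlinarith

theorem a6_arith {V ε cm Λ Cw : ℝ} {B d M den W J₁ S a e : ℕ} (hΛ : 1 ≤ Λ) (hcm : 0 ≤ cm)
    (hCw : 0 ≤ Cw) (hBd : B ≤ d) (hS1 : B * M ≤ S) (hS2 : S ≤ B * M + J₁) (hε : 0 < ε)
    (haM : a * den ≤ d) (he : e ≤ 2 * den + 1) :
    (S : ℝ) * d * (V - ε) - (J₁ * (|V| + cm + 6) + W * Cw + (2 * den + 1) * M * (cm + 6)) *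
        (d * Λ) ≤
      -(J₁ * d * (cm + 1 + 5 * Λ)) + B * (d * ((V - ε / 4) * M) - ε / 4 * (a * (M * den) : ℕ) -
        W * (Cw * Λ) - ((e * M : ℕ) : ℝ) / 2 * (cm + 1 + 5 * Λ)) := by
  have hloss := a6_loss hΛ hcm
  have hl0 : 0 ≤ cm + 1 + 5 * Λ := by linarith
  have hB0 : (0 : ℝ) ≤ B := Nat.cast_nonneg B
  have hd0 : (0 : ℝ) ≤ d := Nat.cast_nonneg d
  have hM0 : (0 : ℝ) ≤ M := Nat.cast_nonneg M
  have hJ0 : (0 : ℝ) ≤ J₁ := Nat.cast_nonneg J₁
  have hW0 : (0 : ℝ) ≤ W := Nat.cast_nonneg W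
  have hBd' : (B : ℝ) ≤ d := by exact_mod_cast hBd
  have hS1' : (B : ℝ) * M ≤ S := by exact_mod_cast hS1
  have hS2' : (S : ℝ) ≤ B * M + J₁ := by exact_mod_cast hS2
  have haM' : (a : ℝ) * den ≤ d := by exact_mod_cast haM
  have he' : (e : ℝ) ≤ 2 * den + 1 := by exact_mod_cast he
  have hV := abs_nonneg V
  have hV1 := le_abs_self V
  -- (1)
  have h1 : (S : ℝ) * (V - ε) ≤ J₁ * |V| + B * M * (V - ε / 2) := by
    have e1 : (S : ℝ) * (V - ε) = (S - B * M) * (V - ε) + B * M * (V - ε) := by ring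
    have e2 : ((S : ℝ) - B * M) * (V - ε) ≤ (S - B * M) * |V| :=
      mul_le_mul_of_nonneg_left (by linarith) (by linarith)
    have e3 : ((S : ℝ) - B * M) * |V| ≤ J₁ * |V| :=
      mul_le_mul_of_nonneg_right (by linarith) hV
    have e4 : (B : ℝ) * M * (V - ε) ≤ B * M * (V - ε / 2) :=
      mul_le_mul_of_nonneg_left (by linarith) (by positivity)
    linarith
  have h1' : (S : ℝ) * d * (V - ε) ≤ J₁ * |V| * (d * Λ) + d * (B * M * (V - ε / 2)) := by
    have e1 : (S : ℝ) * d * (V - ε) = d * (S * (V - ε)) := by ring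
    have e2 := mul_le_mul_of_nonneg_left h1 hd0
    have e3 : (J₁ : ℝ) * |V| * (d * 1) ≤ J₁ * |V| * (d * Λ) := by gcongr
    have e4 : (d : ℝ) * (J₁ * |V| + B * M * (V - ε / 2)) =
      J₁ * |V| * (d * 1) + d * (B * M * (V - ε / 2)) := by ring
    linarith
  -- (2)
  have h2 : (J₁ : ℝ) * d * (cm + 1 + 5 * Λ) ≤ J₁ * (cm + 6) * (d * Λ) := by
    calc (J₁ : ℝ) * d * (cm + 1 + 5 * Λ) ≤ J₁ * d * ((cm + 6) * Λ) := by gcongr
      _ = J₁ * (cm + 6) * (d * Λ) := by ring
  -- (3)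
  have h3 : (B : ℝ) * (W * (Cw * Λ)) ≤ W * Cw * (d * Λ) := by
    calc (B : ℝ) * (W * (Cw * Λ)) ≤ d * (W * (Cw * Λ)) := by gcongr
      _ = W * Cw * (d * Λ) := by ring
  -- (4)
  have h4 : (B : ℝ) * (ε / 4 * (a * (M * den) : ℕ)) ≤ B * (ε / 4 * (M * d)) := by
    have e1 : ((a * (M * den) : ℕ) : ℝ) = M * (a * den) := by push_cast; ring
    rw [e1]
    gcongr
  -- (5)
  have h5 : (B : ℝ) * (((e * M : ℕ) : ℝ) / 2 * (cm + 1 + 5 * Λ)) ≤
      (2 * den + 1) * M * (cm + 6) * (d * Λ) := by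
    have e1 : ((e * M : ℕ) : ℝ) / 2 ≤ (2 * den + 1) * M := by
      have e2 : ((e * M : ℕ) : ℝ) = e * M := by push_cast; ring
      rw [e2]
      have e3 : (e : ℝ) * M ≤ (2 * den + 1) * M := by gcongr
      have e4 : (0 : ℝ) ≤ e * M := by positivity
      linarith
    calc (B : ℝ) * (((e * M : ℕ) : ℝ) / 2 * (cm + 1 + 5 * Λ))
        ≤ d * (((2 * den + 1) * M) * ((cm + 6) * Λ)) := by gcongr
      _ = (2 * den + 1) * M * (cm + 6) * (d * Λ) := by ring
  have e6 : (B : ℝ) * (d * ((V - ε / 4) * M)) - B * (ε / 4 * (M * d)) =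
      d * (B * M * (V - ε / 2)) := by ring
  nlinarith [h1', h2, h3, h4, h5, e6]

section cert

variable {κ V : ℝ} {M W J den : ℕ} {N q : ℕ → ℤ → ℕ} {lm tp : ℕ → ℤ}

/-- balanced states at long distance -/
theorem a6_long (hC : LCert κ V M W J den N q lm tp) {C ε L cm : ℝ} {a k X X' J₁ : ℕ}
    {z : Vtx n d} {E : Finset (Fin d)} (hd : 2 ≤ d) (hX : Odd X) (hX' : Odd X')
    (hE2 : 2 ≤ E.card) (hE : a * den + E.card = d) (ha : Even a) (ha0 : 0 < a)
    (hk : sfun d k + 6 * Real.log d ≤ L) (hX'd : X' ≤ d) (hX'k : (X' - 1) * d ≤ k)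
    (hroom : Room (X' + 1) z) (hJ₁ : 2 * J + M ≤ J₁) (hXX : X + J₁ ≤ X')
    (hcm : ∀ J' l, J' ≤ J₁ → X ≤ l → d * ((J' : ℝ) / l) ^ 2 ≤ cm)
    (hwin : ∀ l', X + J ≤ l' → l' + J + M ≤ X' → ∀ (w t₀ : ℕ), w < W →
      t₀ + d = a * (∑ j ∈ Finset.Icc (-(J : ℤ)) J, N w j * (l' + j).toNat) +
        E.card * (l' + J + M) →
      t₀ + a * fsum J q w ≤ k →
      Reach (Real.exp (-L)) z (Dst E (l' + J + M) (fun c => a * N w ((c : ℤ) - l')))
        (Dst E (l' + J + M) (fun c => a * N (w + 1) ((c : ℤ) - l')))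
        (Real.exp (∑ t ∈ Finset.Ico t₀ (t₀ + a * fsum J q w), (Bx d t - L / 2) +
          d * a6_val κ J den N q lm tp w -
          ε * (a * fsum J q w : ℕ) - C * Real.log d))) :
    ∃ B : ℕ, B ≤ d ∧ B * M ≤ X' - X ∧ X' - X ≤ B * M + J₁ ∧
      a6_R L z (fun x => ∀ m, x m = X) (fun x => ∀ m, x m = X') ((X - 1) * d) ((X' - 1) * d)
        (-(J₁ * d * (cm + 1 + 5 * Real.log d)) +
          B * (d * (V * M) - ε * (a * (M * den) : ℕ) - W * (C * Real.log d) -
            ((E.card * M : ℕ) : ℝ) / 2 * (cm + 1 + 5 * Real.log d))) := by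
  have hX1 : 1 ≤ X := hX.pos
  have hX'1 : 1 ≤ X' := hX'.pos
  have hM := hC.M_pos
  have hEx : ∀ x : ℕ, d * x = a * den * x + E.card * x := fun x => by rw [← add_mul, hE]
  have hcm0 : 0 ≤ cm := le_trans (by positivity) (hcm 0 X (Nat.zero_le _) le_rfl)
  have hlog : 0 ≤ Real.log d := Real.log_natCast_nonneg d
  -- number of blocks
  obtain ⟨b, hb1, hb2⟩ : ∃ b : ℕ, X + 2 * J + (b + 1) * M ≤ X' ∧
      X' < X + 2 * J + (b + 1) * M + M := by
    refine ⟨(X' - X - 2 * J) / M - 1, ?_, ?_⟩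
    · have h1 : 1 ≤ (X' - X - 2 * J) / M := (Nat.one_le_div_iff (by omega)).2 (by omega)
      rw [Nat.sub_add_cancel h1]
      have h2 := Nat.div_mul_le_self (X' - X - 2 * J) M
      omega
    · have h1 : 1 ≤ (X' - X - 2 * J) / M := (Nat.one_le_div_iff (by omega)).2 (by omega)
      rw [Nat.sub_add_cancel h1]
      have h2 := Nat.lt_div_mul_add (a := X' - X - 2 * J) (b := M) (by omega)
      omega
  have hBM : (b + 1) * 1 ≤ (b + 1) * M := Nat.mul_le_mul_left _ hM
  refine ⟨b + 1, by omega, by omega, by omega, ?_⟩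
  -- the sizes
  have hsz := a6_sz_add hC (l := X + J) (w := 0) (c := (b + 1) * M) (Nat.zero_le _) (by omega)
  have hlo := a6_le_sz hC (l := X + J) (w := 0) (Nat.zero_le _)
  have hhi := a6_sz_le hC (l := X + J) (w := 0) (Nat.zero_le _)
  rw [Nat.add_sub_cancel] at hlo
  have hlo' := Nat.mul_le_mul_left a hlo
  have hhi' := Nat.mul_le_mul_left a hhi
  have a1 : a * (den * X) = a * den * X := by ring
  have a2 : a * (den * (X + J + J)) = a * den * X + a * den * (2 * J) := by ring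
  have a3 := hEx X
  have a4 := hEx (2 * J + M)
  have a5 : a * den * (2 * J + M) = a * den * (2 * J) + a * den * M := by ring
  have a6 : E.card * (X + J + J + M) = E.card * X + E.card * (2 * J + M) := by ring
  have a7 : (X - 1) * d + d = d * X := by
    obtain ⟨Y, hY⟩ : ∃ Y, X = Y + 1 := ⟨X - 1, by omega⟩
    rw [hY, Nat.add_sub_cancel]; ring
  have hJd : d * (2 * J + M) ≤ d * J₁ := Nat.mul_le_mul_left d hJ₁
  obtain ⟨T, hT⟩ : ∃ T, T + d = a * a6_sz N J (X + J) 0 + E.card * (X + J + J + M) :=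
    ⟨a * a6_sz N J (X + J) 0 + E.card * (X + J + J + M) - d, by
      have : d * 1 ≤ d * X := Nat.mul_le_mul_left d hX1
      omega⟩
  have hT1 : (X - 1) * d ≤ T := by omega
  have hT2 : T ≤ (X - 1) * d + d * J₁ := by omega
  -- the size at the end of the blocks
  have c1 : (b + 1) * (d * M) = a * ((b + 1) * M * den) + E.card * ((b + 1) * M) := by
    rw [hEx M]; ring
  have c2 : E.card * M ≤ (b + 1) * (d * M) := by
    calc E.card * M ≤ d * M := Nat.mul_le_mul_right _ (by omega)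
      _ ≤ (b + 1) * (d * M) := Nat.le_mul_of_pos_left _ (by omega)
  obtain ⟨t, ht⟩ : ∃ t, t + E.card * M = T + (b + 1) * (d * M) :=
    ⟨T + (b + 1) * (d * M) - E.card * M, by omega⟩
  have hTt : t + d = a * a6_sz N J (X + J + (b + 1) * M) 0 +
      E.card * (X + J + (b + 1) * M + J) := by
    rw [hsz, mul_add]
    have e1 : E.card * (X + J + (b + 1) * M + J) + E.card * M =
      E.card * (X + J + J + M) + E.card * ((b + 1) * M) := by ring
    omega
  have hev : Even (X' - (X + J + (b + 1) * M + J)) := by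
    obtain ⟨u, hu⟩ := hX
    obtain ⟨u', hu'⟩ := hX'
    obtain ⟨s, hs⟩ := hC.M_even
    have e1 : (b + 1) * M = 2 * ((b + 1) * s) := by rw [hs]; ring
    exact ⟨u' - u - J - (b + 1) * s, by omega⟩
  have hdX' : d ≤ d * X' := Nat.le_mul_of_pos_right _ (by omega)
  have c7 : (X' - 1) * d + d = d * X' := by
    obtain ⟨Y, hY⟩ : ∃ Y, X' = Y + 1 := ⟨X' - 1, by omega⟩
    rw [hY, Nat.add_sub_cancel]; ring
  have hTk : T ≤ k := by
    have e1 : d * (X + (2 * J + M)) ≤ d * X' := Nat.mul_le_mul_left d (by omega)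
    rw [mul_add] at e1
    omega
  have ht2 : (X' - 1) * d ≤ t + d * J₁ := by
    have e1 : d * X' ≤ d * (X + (b + 1) * M + J₁) := Nat.mul_le_mul_left d (by omega)
    have e2 : d * (X + (b + 1) * M + J₁) = a * den * X + E.card * X + (b + 1) * (d * M) + d * J₁ := by
      rw [mul_add, mul_add, a3]
      ring
    have e3 : a * (a6_sz N J (X + J) 0 + (b + 1) * M * den) =
      a * a6_sz N J (X + J) 0 + a * ((b + 1) * M * den) := by ring
    have e4 : E.card * (X + J + (b + 1) * M + J) = E.card * X + E.card * ((b + 1) * M) +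
      E.card * (2 * J) := by ring
    rw [hsz, e3] at hTt
    omega
  -- first filling
  have s1 := a6_first hC (L := L) (cm := cm) (a := a) (X := X) (k := k) (T := T) (J₁ := J₁)
    (z := z) (E := E) hd hX1 hE2 hE ha hk (by omega) (a6_room_mono hroom (by omega)) hJ₁
    (hcm J₁ X le_rfl le_rfl) hT hTk
  -- blocks
  have s2 := a6_chain hC (C := C) (ε := ε) (L := L) (cm := cm) (a := a) (l := X + J) (k := k)
    (X' := X') (T := T) (z := z) (E := E) hd (by omega) hE2 hE hk hX'd hX'k hroom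
    (by rw [Nat.add_sub_cancel]; exact hcm _ X hJ₁ le_rfl) hwin hT b (by omega) t ht
  -- last filling
  have s3 := a6_last hC (L := L) (cm := cm) (a := a) (X' := X') (l := X + J + (b + 1) * M)
    (k := k) (T := t) (J₁ := J₁) (z := z) (E := E) hd (by omega) hE ha ha0 hk hX'd hX'k hroom
    (by omega) (by omega) hev (hcm J₁ _ le_rfl (by omega)) hTt
  have s := a6_R_trans (a6_R_trans s1 s2) s3
  refine a6_R_mono s ?_
  have hT2' : (T : ℝ) ≤ (((X - 1) * d : ℕ) : ℝ) + d * J₁ := by exact_mod_cast hT2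
  have ht2' : (((X' - 1) * d : ℕ) : ℝ) ≤ t + d * J₁ := by exact_mod_cast ht2
  have hl0 : 0 ≤ cm + 1 + 5 * Real.log d := by linarith
  have v1 : ((T : ℝ) - (((X - 1) * d : ℕ) : ℝ)) / 2 * (cm + 1 + 5 * Real.log d) ≤
      (d * J₁) / 2 * (cm + 1 + 5 * Real.log d) :=
    mul_le_mul_of_nonneg_right (by linarith) hl0
  have v2 : ((((X' - 1) * d : ℕ) : ℝ) - t) / 2 * (cm + 1 + 5 * Real.log d) ≤
      (d * J₁) / 2 * (cm + 1 + 5 * Real.log d) :=
    mul_le_mul_of_nonneg_right (by linarith) hl0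
  push_cast at v1 v2 ⊢
  linarith

end cert

/-- the balanced states are connected by a schedule -/
theorem reach_slice (κ V ε : ℝ) (hV : LAch κ V) (hκ : 0 < κ) (hε : 0 < ε) :
    ∃ C : ℝ, 0 ≤ C ∧ ∃ D₀ : ℕ, ∀ (n d X X' k : ℕ) (L : ℝ) (z : Vtx n d), D₀ ≤ d →
      Odd X → Odd X' → X ≤ X' → (1 + ε) * d ≤ 4 * κ * (X : ℝ) ^ 2 → X' ≤ d →
      (X' - 1) * d ≤ k → k ≤ d ^ 2 → sfun d k + 6 * Real.log d ≤ L → Room (X' + 3) z →
      Reach (Real.exp (-L)) z (fun x => ∀ m, x m = X) (fun x => ∀ m, x m = X')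
        (Real.exp (∑ t ∈ Finset.Ico ((X - 1) * d) ((X' - 1) * d), (Bx d t - L / 2 + V - ε) -
          C * (d * Real.log d))) := by
  obtain ⟨M, W, J, den, N, q, lm, tp, hC⟩ := hV (ε / 4) (by linarith)
  obtain ⟨Cw, hCw, Dw, hw⟩ := reach_cwin hC hκ.le (ε / 4) (by linarith)
  set J₁ : ℕ := 2 * J + 2 * M + 2 with hJ₁
  set cm : ℝ := 4 * κ * (J₁ : ℝ) ^ 2 with hcmdef
  have hcm0 : 0 ≤ cm := by positivity
  obtain ⟨D1, hD1⟩ := exists_nat_ge (4 * κ * (J : ℝ) ^ 2)
  have hden := hC.den_pos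
  refine ⟨J₁ * (|V| + cm + 6) + W * Cw + (2 * den + 1) * M * (cm + 6), by positivity,
    Dw + 3 + (2 * den + 2) + D1, ?_⟩
  intro n d X X' k L z hDd hX hX' hXX hκX hX'd hX'k hkd hk hroom
  have hX1 : 1 ≤ X := hX.pos
  have hX'1 : 1 ≤ X' := hX'.pos
  have hd2 : 2 ≤ d := by omega
  have hd3 : (3 : ℝ) ≤ d := by exact_mod_cast (by omega : 3 ≤ d)
  have hd0 : (0 : ℝ) ≤ d := by linarith
  have hΛ : 1 ≤ Real.log d := by
    rw [Real.le_log_iff_exp_le (by linarith)]
    have := Real.exp_one_lt_d9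
    linarith
  -- the value
  have key : ∀ v : ℝ, ((X' - X : ℕ) : ℝ) * d * (V - ε) -
      (J₁ * (|V| + cm + 6) + W * Cw + (2 * den + 1) * M * (cm + 6)) * (d * Real.log d) ≤ v →
      a6_R L z (fun x => ∀ m, x m = X) (fun x => ∀ m, x m = X') ((X - 1) * d) ((X' - 1) * d) v →
      Reach (Real.exp (-L)) z (fun x => ∀ m, x m = X) (fun x => ∀ m, x m = X')
        (Real.exp (∑ t ∈ Finset.Ico ((X - 1) * d) ((X' - 1) * d), (Bx d t - L / 2 + V - ε) -
          (J₁ * (|V| + cm + 6) + W * Cw + (2 * den + 1) * M * (cm + 6)) *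
            (d * Real.log d))) := by
    intro v hv h
    refine reach_mono (fun _ h => h) (fun _ h => h) (Real.exp_le_exp.2 ?_) h.2
    have e1 : ∑ t ∈ Finset.Ico ((X - 1) * d) ((X' - 1) * d), (Bx d t - L / 2 + V - ε) =
        ∑ t ∈ Finset.Ico ((X - 1) * d) ((X' - 1) * d), a6_F d L t +
          ((X' - X : ℕ) : ℝ) * d * (V - ε) := by
      have e2 : ((X' - 1) * d - (X - 1) * d : ℕ) = (X' - X) * d := by
        rw [← Nat.sub_mul]
        congr 1
        omega
      calc ∑ t ∈ Finset.Ico ((X - 1) * d) ((X' - 1) * d), (Bx d t - L / 2 + V - ε)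
          = ∑ t ∈ Finset.Ico ((X - 1) * d) ((X' - 1) * d), (a6_F d L t + (V - ε)) := by
            refine Finset.sum_congr rfl fun t _ => ?_
            unfold a6_F
            ring
        _ = _ := by
            rw [Finset.sum_add_distrib, Finset.sum_const, Nat.card_Ico, e2, nsmul_eq_mul]
            push_cast
            ring
    rw [e1]
    linarith
  by_cases hshort : X' ≤ X + J₁
  · -- short distance
    refine key _ ?_ (a6_short hε hd2 hX hX' hXX hκX hX'd hX'k hk (a6_room_mono hroom (by omega))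
      hshort)
    rw [← hcmdef]
    have hloss := a6_loss hΛ hcm0
    have e1 : ((((X' - 1) * d : ℕ) : ℝ) - (((X - 1) * d : ℕ) : ℝ)) = ((X' - X : ℕ) : ℝ) * d := by
      rw [Nat.cast_mul, Nat.cast_mul, Nat.cast_sub hX1, Nat.cast_sub hX'1, Nat.cast_sub hXX]
      ring
    have e2 : ((X' - X : ℕ) : ℝ) ≤ J₁ := by exact_mod_cast (by omega : X' - X ≤ J₁)
    have e3 : (0 : ℝ) ≤ ((X' - X : ℕ) : ℝ) := Nat.cast_nonneg _
    have hJ0 : (0 : ℝ) ≤ J₁ := Nat.cast_nonneg J₁
    have hV0 := abs_nonneg V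
    have hV1 := le_abs_self V
    have h1 : ((X' - X : ℕ) : ℝ) * d * (V - ε) ≤ J₁ * |V| * (d * Real.log d) := by
      calc ((X' - X : ℕ) : ℝ) * d * (V - ε) ≤ ((X' - X : ℕ) : ℝ) * d * |V| :=
            mul_le_mul_of_nonneg_left (by linarith) (by positivity)
        _ ≤ J₁ * d * |V| := by gcongr
        _ = J₁ * |V| * (d * 1) := by ring
        _ ≤ J₁ * |V| * (d * Real.log d) := by gcongr
    have h2 : (((((X' - 1) * d : ℕ) : ℝ) - (((X - 1) * d : ℕ) : ℝ))) / 2 *
        (cm + 1 + 5 * Real.log d) ≤ J₁ * (cm + 6) * (d * Real.log d) := by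
      rw [e1]
      calc ((X' - X : ℕ) : ℝ) * d / 2 * (cm + 1 + 5 * Real.log d)
          ≤ (J₁ * d) * ((cm + 6) * Real.log d) := by
            apply mul_le_mul _ hloss (by linarith) (by positivity)
            have : ((X' - X : ℕ) : ℝ) * d ≤ J₁ * d := by gcongr
            have h0 : (0 : ℝ) ≤ ((X' - X : ℕ) : ℝ) * d := by positivity
            linarith
        _ = J₁ * (cm + 6) * (d * Real.log d) := by ring
    have h3 : 0 ≤ (W : ℝ) * Cw * (d * Real.log d) := by positivity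
    have h4 : 0 ≤ (2 * (den : ℝ) + 1) * M * (cm + 6) * (d * Real.log d) := by positivity
    have e5 : -((((X' - 1) * d : ℕ) : ℝ) - (((X - 1) * d : ℕ) : ℝ)) / 2 *
        (cm + 1 + 5 * Real.log d) = -((((((X' - 1) * d : ℕ) : ℝ) - (((X - 1) * d : ℕ) : ℝ))) / 2 *
        (cm + 1 + 5 * Real.log d)) := by ring
    rw [e5]
    nlinarith [h1, h2, h3, h4]
  · -- long distance
    rw [not_le] at hshort
    -- the parameters
    obtain ⟨a, ha, ha0, haE1, haE2⟩ : ∃ a : ℕ, Even a ∧ 0 < a ∧ a * den + 2 ≤ d ∧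
        d ≤ a * den + (2 * den + 1) := by
      refine ⟨2 * ((d - 2) / (2 * den)), even_two_mul _, ?_, ?_, ?_⟩
      · have : 1 ≤ (d - 2) / (2 * den) := (Nat.one_le_div_iff (by omega)).2 (by omega)
        omega
      · have := Nat.div_mul_le_self (d - 2) (2 * den)
        have e : 2 * ((d - 2) / (2 * den)) * den = (d - 2) / (2 * den) * (2 * den) := by ring
        omega
      · have := Nat.lt_div_mul_add (a := d - 2) (b := 2 * den) (by omega)
        have e : 2 * ((d - 2) / (2 * den)) * den = (d - 2) / (2 * den) * (2 * den) := by ring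
        omega
    obtain ⟨E, -, hEc⟩ := Finset.exists_subset_card_eq (s := (Finset.univ : Finset (Fin d)))
      (n := d - a * den) (by rw [Finset.card_univ, Fintype.card_fin]; omega)
    have hE2 : 2 ≤ E.card := by omega
    have hE : a * den + E.card = d := by omega
    have hcm : ∀ J' l, J' ≤ J₁ → X ≤ l → d * ((J' : ℝ) / l) ^ 2 ≤ cm := fun J' l h1 h2 =>
      a6_cm hε hX1 hκX h2 h1
    have hJX : J ≤ X := by
      have h1 : 4 * κ * (J : ℝ) ^ 2 ≤ 4 * κ * (X : ℝ) ^ 2 := by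
        have h2 : (D1 : ℝ) ≤ d := by exact_mod_cast (by omega : D1 ≤ d)
        nlinarith
      have h3 : (J : ℝ) ^ 2 ≤ (X : ℝ) ^ 2 := le_of_mul_le_mul_left h1 (by linarith)
      have h4 : (J : ℝ) ≤ X :=
        (pow_le_pow_iff_left₀ (Nat.cast_nonneg J) (Nat.cast_nonneg X) two_ne_zero).1 h3
      exact_mod_cast h4
    obtain ⟨B, hBd, hB1, hB2, hR⟩ := a6_long hC (C := Cw) (ε := ε / 4) (L := L) (cm := cm)
      (a := a) (k := k) (X := X) (X' := X') (J₁ := J₁) (z := z) (E := E) hd2 hX hX' hE2 hE ha ha0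
      hk hX'd hX'k (a6_room_mono hroom (by omega)) (by omega) (by omega) hcm (by
        intro l' hl1 hl2 w t₀ hwW ht hle
        have hXl : (X : ℝ) ≤ (l' : ℝ) - J := by
          have : (X : ℝ) + J ≤ l' := by exact_mod_cast hl1
          linarith
        have hXp : (0 : ℝ) ≤ X := Nat.cast_nonneg X
        have := hw n d a l' w t₀ k L z E (by omega) ha hE (by omega) (by
          have h1 : (X : ℝ) ^ 2 ≤ ((l' : ℝ) - J) ^ 2 := by gcongr
          have h2 : 4 * κ * (X : ℝ) ^ 2 ≤ 4 * κ * ((l' : ℝ) - J) ^ 2 := by gcongr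
          nlinarith) (by omega) (by omega) hwW ht hle hkd hk (a6_room_mono hroom (by omega))
        exact this)
    refine key _ ?_ hR
    exact a6_arith hΛ hcm0 hCw hBd hB1 hB2 hε (by omega) (by omega)

end Pool.Agent.Lib.MP_8501c9_pr.Wide
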