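import Pool.Agent.Lib.MP_8501c9_pr.Wide.DefsC
import Pool.Agent.Lib.MP_8501c9_pr.Wide.Pairs
import Pool.Agent.Lib.MP_8501c9_pr.Ell

/-!
# Near and after the critical size: steps with prescribed directions
-/

set_option autoImplicit false
open Set

namespace Pool.Agent.Lib.MP_8501c9_pr.Wide

open Pool.Agent.Lib.MP_8501c9_pr Pool.Agent.Lib.MP_8501c9_pr.Mid

variable {n d : ℕ}

/-! ### volumes -/

/-- line containing one piece of the logarithm of the volume -/
noncomputable def tpLin (d q t : ℕ) : ℝ := d * Real.log (q + 1) + ((t : ℝ) - q * d) * vslope q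

theorem tp_sfun_le (hd : 1 ≤ d) (q t : ℕ) : sfun d t ≤ tpLin d q t := by
  have hdR : (0 : ℝ) < d := by exact_mod_cast hd
  unfold sfun tpLin
  have h := mul_le_mul_of_nonneg_left (vfun_le_line q ((t : ℝ) / d)) hdR.le
  refine h.trans (le_of_eq ?_)
  field_simp

theorem tp_prod_ge {x₀ : Fin d → ℕ} {g : Fin d → ℝ} (h : ∀ m, Real.exp (g m) ≤ x₀ m) :
    Real.exp (∑ m, g m) ≤ ∏ m, (x₀ m : ℝ) := by
  rw [Real.exp_sum]
  exact Finset.prod_le_prod (fun m _ => (Real.exp_pos _).le) (fun m _ => h m)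

theorem tp_exp_vslope (q : ℕ) : Real.exp (Real.log ((q : ℝ) + 1) + vslope q) = q + 2 := by
  unfold vslope
  rw [add_sub_cancel, Real.exp_log (by positivity)]

theorem tp_vol_one {E U : Finset (Fin d)} (hEU : Disjoint U E) (hE : E.card ≤ 3) {q : ℕ}
    {x₀ : Fin d → ℕ} (hx : ∀ m, x₀ m = q + 1 + (if m ∈ E then 2 else 0) + if m ∈ U then 1 else 0) :
    Real.exp (tpLin d q (q * d + 2 * E.card + U.card) - 4) ≤ ∏ m, (x₀ m : ℝ) := by
  have hq : (0 : ℝ) ≤ q := Nat.cast_nonneg q
  refine le_trans ?_ (tp_prod_ge (g := fun m => Real.log ((q : ℝ) + 1) +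
    (if m ∈ E then 2 * vslope q - 4 / 3 else 0) + (if m ∈ U then vslope q else 0)) ?_)
  · apply Real.exp_le_exp.2
    rw [Finset.sum_add_distrib, Finset.sum_add_distrib, Finset.sum_const, Finset.card_univ,
      Fintype.card_fin, nsmul_eq_mul, Finset.sum_ite_mem, Finset.univ_inter, Finset.sum_const,
      Finset.sum_ite_mem, Finset.univ_inter, Finset.sum_const, nsmul_eq_mul, nsmul_eq_mul]
    unfold tpLin
    push_cast
    have h3 : (E.card : ℝ) ≤ 3 := by exact_mod_cast hE
    nlinarith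
  · intro m
    rw [hx m]
    by_cases hm : m ∈ E
    · have hU : m ∉ U := fun h => (Finset.disjoint_left.1 hEU h) hm
      rw [if_pos hm, if_pos hm, if_neg hU, if_neg hU]
      push_cast
      have e1 : Real.exp (Real.log ((q : ℝ) + 1) + (2 * vslope q - 4 / 3) + 0) =
          (Real.exp (Real.log ((q : ℝ) + 1) + vslope q)) ^ 2 / (q + 1) * Real.exp (-(4 / 3)) := by
        rw [← Real.exp_nat_mul, div_mul_eq_mul_div, ← Real.exp_add, eq_div_iff (by positivity)]
        nth_rewrite 2 [← Real.exp_log (show (0 : ℝ) < q + 1 by positivity)]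
        rw [← Real.exp_add]
        congr 1
        push_cast
        ring
      rw [e1, tp_exp_vslope]
      have e2 : Real.exp (-(4 / 3)) ≤ 3 / 4 := by
        rw [Real.exp_neg]
        have : (4 : ℝ) / 3 + 1 ≤ Real.exp (4 / 3) := Real.add_one_le_exp _
        rw [inv_le_comm₀ (Real.exp_pos _) (by norm_num)]
        linarith
      calc ((q : ℝ) + 2) ^ 2 / (q + 1) * Real.exp (-(4 / 3))
          ≤ ((q : ℝ) + 2) ^ 2 / (q + 1) * (3 / 4) :=
            mul_le_mul_of_nonneg_left e2 (by positivity)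
        _ ≤ (q : ℝ) + 1 + 2 + 0 := by
            rw [div_mul_eq_mul_div, div_le_iff₀ (by positivity)]
            nlinarith
    · by_cases hU : m ∈ U
      · rw [if_neg hm, if_neg hm, if_pos hU, if_pos hU, add_zero, tp_exp_vslope]
        push_cast
        linarith
      · rw [if_neg hm, if_neg hm, if_neg hU, if_neg hU, add_zero, add_zero,
          Real.exp_log (by positivity)]
        push_cast
        linarith

theorem tp_vol_two {W : Finset (Fin d)} {q : ℕ}
    {x₀ : Fin d → ℕ} (hx : ∀ m, x₀ m = q + 1 + if m ∈ W then 1 else 0) :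
    Real.exp (tpLin d q (q * d + W.card) - 4) ≤ ∏ m, (x₀ m : ℝ) := by
  refine le_trans ?_ (tp_prod_ge (g := fun m => Real.log ((q : ℝ) + 1) +
    (if m ∈ W then vslope q else 0)) ?_)
  · apply Real.exp_le_exp.2
    rw [Finset.sum_add_distrib, Finset.sum_const, Finset.card_univ,
      Fintype.card_fin, nsmul_eq_mul, Finset.sum_ite_mem, Finset.univ_inter, Finset.sum_const,
      nsmul_eq_mul]
    unfold tpLin
    push_cast
    nlinarith
  · intro m
    rw [hx m]
    by_cases hU : m ∈ W
    · rw [if_pos hU, if_pos hU, tp_exp_vslope]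
      push_cast
      linarith
    · rw [if_neg hU, if_neg hU, add_zero, Real.exp_log (by positivity)]
      push_cast
      linarith

/-! ### products of probabilities -/

/-- lower bound for the probability of a step at size `t` -/
noncomputable def tpH (d : ℕ) (p : ℝ) (y t : ℕ) : ℝ := fch p (Real.exp (sfun d t - 4)) y

/-- lower bound for the probability of `N` steps from size `t` -/
noncomputable def tpP (d : ℕ) (p : ℝ) (y t N : ℕ) : ℝ := ∏ i ∈ Finset.range N, tpH d p y (t + 2 * i)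

theorem tpH_nonneg {p : ℝ} (hp0 : 0 ≤ p) (y t : ℕ) : 0 ≤ tpH d p y t :=
  l9_fch_nonneg hp0 (Real.exp_pos _).le y

theorem tpP_nonneg {p : ℝ} (hp0 : 0 ≤ p) (y t N : ℕ) : 0 ≤ tpP d p y t N :=
  Finset.prod_nonneg fun _ _ => tpH_nonneg hp0 y _

theorem tpP_add (p : ℝ) (y t N M : ℕ) :
    tpP d p y t (N + M) = tpP d p y t N * tpP d p y (t + 2 * N) M := by
  unfold tpP
  rw [Finset.prod_range_add]
  congr 1
  apply Finset.prod_congr rfl
  intro i _
  congr 1
  ring

theorem tp_pairs {p : ℝ} (hp0 : 0 ≤ p) (hp1 : p ≤ 1) {z : Vtx n d} (hd : 1 ≤ d)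
    {x₀ x₁ : Fin d → ℕ} {q y t : ℕ} (G : Finset (Fin d)) (hG : Even G.card)
    (hx : ∀ m ∈ G, x₀ m ≤ q + 1) (hx1 : ∀ m, 1 ≤ x₀ m) (hy : ∀ m, x₀ m ≤ y) (hqy : q + 2 ≤ y)
    (hroom : Room (y + 1) z) (hvol : Real.exp (tpLin d q t - 4) ≤ ∏ m, (x₀ m : ℝ))
    (hx₁ : ∀ m, x₁ m = x₀ m + if m ∈ G then 1 else 0) :
    Reach p z (fun x' => x' = x₀) (fun x' => x' = x₁) (tpP d p y t (G.card / 2)) := by
  have hx₁' : x₁ = fun m => x₀ m + if m ∈ G then 1 else 0 := funext hx₁
  subst hx₁'
  have h := reach_pairs hp0 hp1 G hG hx hx1 (by omega) hy (by omega) hroom (z := z)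
  refine l9_reach_mono h ?_
  unfold tpP tpH
  refine Finset.prod_le_prod (fun i _ => l9_fch_nonneg hp0 (Real.exp_pos _).le y)
    (fun i _ => l9_fch_mono hp0 ?_ y)
  have h1 : (1 + 1 / (((q + 1 : ℕ) : ℝ))) = Real.exp (vslope q) := by
    rw [vslope_eq, Real.exp_log (by positivity)]
    push_cast
    rfl
  rw [h1, ← Real.exp_nat_mul]
  calc Real.exp (sfun d (t + 2 * i) - 4) ≤ Real.exp (tpLin d q (t + 2 * i) - 4) := by
        apply Real.exp_le_exp.2
        linarith [tp_sfun_le hd q (t + 2 * i)]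
    _ = Real.exp (tpLin d q t - 4) * Real.exp (((2 * i : ℕ) : ℝ) * vslope q) := by
        rw [← Real.exp_add]
        congr 1
        unfold tpLin
        push_cast
        ring
    _ ≤ _ := mul_le_mul_of_nonneg_right hvol (Real.exp_pos _).le

theorem tp_cycle {p : ℝ} (hp0 : 0 ≤ p) (hp1 : p ≤ 1) {z : Vtx n d} (hd : 1 ≤ d)
    {x₀ x₁ : Fin d → ℕ} {q y : ℕ} {E : Finset (Fin d)} (hE : E.card = 2 ∨ E.card = 3)
    (hx : ∀ m, x₀ m = q + 1) (hqy : q + 3 ≤ y) (hroom : Room (y + 1) z)
    (hx₁ : ∀ m, x₁ m = x₀ m + if m ∈ E then 2 else 0) :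
    Reach p z (fun x' => x' = x₀) (fun x' => x' = x₁) (tpP d p y (q * d) E.card) := by
  have hx₁' : x₁ = fun m => x₀ m + if m ∈ E then 2 else 0 := funext hx₁
  subst hx₁'
  have h := reach_cycle hp0 hp1 hE (fun m => by rw [hx m]; omega) (fun m => by rw [hx m]; omega)
    (fun m _ => by rw [hx m]; omega) hroom (z := z) (x₀ := x₀)
  refine l9_reach_mono h ?_
  unfold tpP tpH
  rw [← Finset.card_range E.card, ← Finset.prod_const, Finset.card_range]
  refine Finset.prod_le_prod (fun i _ => l9_fch_nonneg hp0 (Real.exp_pos _).le y)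
    (fun i hi => l9_fch_mono hp0 ?_ y)
  rw [Finset.mem_range] at hi
  have hi2 : (i : ℝ) ≤ 2 := by
    have : i ≤ 2 := by omega
    exact_mod_cast this
  have hprod : ∏ m, (x₀ m : ℝ) = Real.exp (d * Real.log (q + 1)) := by
    rw [Real.exp_nat_mul, Real.exp_log (by positivity)]
    simp only [hx]
    push_cast
    rw [Finset.prod_const, Finset.card_univ, Fintype.card_fin]
  rw [hprod]
  apply Real.exp_le_exp.2
  have h1 := tp_sfun_le hd q (q * d + 2 * i)
  unfold tpLin at h1
  push_cast at h1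
  have h2 := vslope_le_log_two q
  have h3 := vslope_nonneg q
  have h4 := Real.log_two_lt_d9
  have h5 : (2 * (i : ℝ)) * vslope q ≤ 4 * vslope q := by nlinarith
  have h6 : ((q : ℝ) * d + 2 * i - q * d) = 2 * i := by ring
  rw [h6] at h1
  linarith

theorem tp_trans {p : ℝ} (hp0 : 0 ≤ p) {z : Vtx n d} {P₀ P₁ P₂ : (Fin d → ℕ) → Prop}
    {y t t' N M : ℕ} (h : Reach p z P₀ P₁ (tpP d p y t N))
    (h' : Reach p z P₁ P₂ (tpP d p y t' M)) (ht : t' = t + 2 * N) :
    Reach p z P₀ P₂ (tpP d p y t (N + M)) := by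
  subst ht
  rw [tpP_add]
  exact reach_trans (tpP_nonneg hp0 _ _ _) h h'

/-- one block of two levels -/
theorem tp_block {p : ℝ} (hp0 : 0 ≤ p) (hp1 : p ≤ 1) {z : Vtx n d} (hd : 1 ≤ d)
    {x₀ x₁ : Fin d → ℕ} {q y : ℕ} {E : Finset (Fin d)} (hE : E.card = 2 ∨ E.card = 3)
    (hEv : Even (d - E.card)) (hEd : E.card ≤ d)
    (hx : ∀ m, x₀ m = q + 1) (hqy : q + 3 ≤ y) (hroom : Room (y + 1) z)
    (hx₁ : ∀ m, x₁ m = q + 3) :
    Reach p z (fun x' => x' = x₀) (fun x' => x' = x₁) (tpP d p y (q * d) d) := by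
  obtain ⟨r, hr⟩ := hEv
  have hG : Eᶜ.card = d - E.card := by rw [Finset.card_compl, Fintype.card_fin]
  have hGe : Even Eᶜ.card := ⟨r, by omega⟩
  have hG2 : Eᶜ.card / 2 = r := by omega
  have h1 := tp_cycle hp0 hp1 hd (x₁ := fun m => q + 1 + if m ∈ E then 2 else 0) hE hx hqy hroom
    (fun m => by rw [hx m])
  have h2 := tp_pairs hp0 hp1 hd (z := z) (x₀ := fun m => q + 1 + if m ∈ E then 2 else 0)
    (x₁ := fun m => q + 2 + if m ∈ E then 1 else 0) (q := q) (y := y)
    (t := q * d + 2 * E.card) Eᶜ hGe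
    (fun m hm => by
      have hm' : m ∉ E := Finset.mem_compl.1 hm
      simp [hm'])
    (fun m => by omega)
    (fun m => by split_ifs <;> omega) (by omega) hroom
    (by
      have := tp_vol_one (E := E) (U := (∅ : Finset (Fin d))) (q := q)
        (x₀ := fun m => q + 1 + if m ∈ E then 2 else 0) (Finset.disjoint_empty_left _)
        (by omega) (fun m => by simp)
      simpa using this)
    (fun m => by
      by_cases hm : m ∈ E
      · simp [hm]
      · simp [hm])
  have h3 := tp_pairs hp0 hp1 hd (z := z) (x₀ := fun m => q + 2 + if m ∈ E then 1 else 0)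
    (x₁ := x₁) (q := q + 1) (y := y)
    (t := (q + 1) * d + E.card) Eᶜ hGe
    (fun m hm => by
      have hm' : m ∉ E := Finset.mem_compl.1 hm
      simp [hm'])
    (fun m => by omega)
    (fun m => by split_ifs <;> omega) (by omega) hroom
    (tp_vol_two (W := E) (fun m => by rfl))
    (fun m => by
      rw [hx₁ m]
      by_cases hm : m ∈ E
      · simp [hm]
      · simp [hm])
  have h12 := tp_trans hp0 h1 h2 rfl
  have hqd : (q + 1) * d = q * d + d := by ring
  have h123 := tp_trans hp0 h12 h3 (by rw [hG2]; omega)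
  have e : E.card + Eᶜ.card / 2 + Eᶜ.card / 2 = d := by omega
  rw [e] at h123
  exact h123

/-- blocks of two levels -/
theorem tp_blocks {p : ℝ} (hp0 : 0 ≤ p) (hp1 : p ≤ 1) {z : Vtx n d} (hd : 1 ≤ d)
    {y : ℕ} {E : Finset (Fin d)} (hE : E.card = 2 ∨ E.card = 3)
    (hEv : Even (d - E.card)) (hEd : E.card ≤ d) (q b : ℕ) (hqy : q + 1 + 2 * b ≤ y)
    (hroom : Room (y + 1) z) :
    Reach p z (fun x' => x' = fun _ => q + 1) (fun x' => x' = fun _ => q + 1 + 2 * b)
      (tpP d p y (q * d) (b * d)) := by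
  induction b with
  | zero =>
    have : tpP d p y (q * d) (0 * d) = 1 := by
      unfold tpP
      simp
    rw [this]
    exact l9_reach_refl (fun x h => by rw [h])
  | succ b ih =>
    have h1 := ih (by omega)
    have h2 := tp_block hp0 hp1 hd (z := z) (x₀ := fun _ => q + 1 + 2 * b)
      (x₁ := fun _ => q + 1 + 2 * (b + 1)) (q := q + 2 * b) (y := y) hE hEv hEd
      (fun m => by ring) (by omega) hroom (fun m => by ring)
    have h3 := tp_trans hp0 h1 h2 (by ring)
    rw [show (b + 1) * d = b * d + d by ring]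
    exact h3

/-- from a state of the balanced schedule to a balanced state -/
theorem tp_start {p : ℝ} (hp0 : 0 ≤ p) (hp1 : p ≤ 1) {z : Vtx n d} (hd : 1 ≤ d)
    {y k : ℕ} {E : Finset (Fin d)} (hE : E.card = 2 ∨ E.card = 3)
    (hEv : Even (d - E.card)) (hEd : E.card ≤ d) {x : Fin d → ℕ} (hx : Bst E k x)
    (hy : lev d k + 3 ≤ y) (hroom : Room (y + 1) z) :
    ∃ q N : ℕ, Even q ∧ q + 3 ≤ y ∧ k + 2 * N = (q + 2) * d ∧
      Reach p z (fun x' => x' = x) (fun x' => x' = fun _ => q + 3) (tpP d p y k N) := by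
  obtain ⟨X, U, hX, hUE, hU, hform, hsum⟩ := hx
  obtain ⟨r, hr⟩ := hEv
  obtain ⟨u, hu⟩ := hU
  obtain ⟨q, rfl⟩ : ∃ q, X = q + 1 := ⟨X - 1, by have := hX.pos; omega⟩
  have hqe : Even q := by
    rcases Nat.even_or_odd q with h | h
    · exact h
    · exfalso
      have := h.add_one
      exact (Nat.not_odd_iff_even.2 this) hX
  have hG : Eᶜ.card = d - E.card := by rw [Finset.card_compl, Fintype.card_fin]
  have hGe : Even Eᶜ.card := ⟨r, by omega⟩
  have hUG : U ⊆ Eᶜ := fun m hm => Finset.mem_compl.2 (Finset.disjoint_left.1 hUE hm)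
  have hcU : (Eᶜ \ U).card = d - E.card - U.card := by
    rw [Finset.card_sdiff_of_subset hUG, hG]
  have hUle : U.card ≤ d - E.card := by
    rw [← hG]
    exact Finset.card_le_card hUG
  have hcUe : Even (Eᶜ \ U).card := ⟨r - u, by omega⟩
  rcases hform with hform | hform
  · -- first form
    have hk : k = q * d + 2 * E.card + U.card := by
      have h1 : ∑ m, x m = (q + 1) * d + 2 * E.card + U.card := by
        simp only [hform]
        rw [Finset.sum_add_distrib, Finset.sum_add_distrib, Finset.sum_const, Finset.card_univ,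
          Fintype.card_fin, Finset.sum_ite_mem, Finset.univ_inter, Finset.sum_const,
          Finset.sum_ite_mem, Finset.univ_inter, Finset.sum_const]
        simp only [smul_eq_mul]
        ring
      rw [h1] at hsum
      have : (q + 1) * d = q * d + d := by ring
      omega
    have hlev : q + 1 ≤ lev d k := by
      unfold lev
      have : q ≤ k / d := (Nat.le_div_iff_mul_le (by omega)).2 (by omega)
      omega
    refine ⟨q, (Eᶜ \ U).card / 2 + Eᶜ.card / 2, hqe, by omega, ?_, ?_⟩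
    · have : (q + 2) * d = q * d + 2 * d := by ring
      have h2 : 2 * ((Eᶜ \ U).card / 2) = (Eᶜ \ U).card := by
        have := hcUe.two_dvd
        omega
      have h3 : 2 * (Eᶜ.card / 2) = Eᶜ.card := by
        have := hGe.two_dvd
        omega
      omega
    · have h1 := tp_pairs hp0 hp1 hd (z := z) (x₀ := x)
        (x₁ := fun m => q + 2 + if m ∈ E then 1 else 0) (q := q) (y := y)
        (t := k) (Eᶜ \ U) hcUe
        (fun m hm => by
          rw [Finset.mem_sdiff, Finset.mem_compl] at hm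
          rw [hform m]
          simp [hm.1, hm.2])
        (fun m => by rw [hform m]; omega)
        (fun m => by
          rw [hform m]
          by_cases hm : m ∈ E
          · have : m ∉ U := fun h => (Finset.disjoint_left.1 hUE h) hm
            simp [hm, this]
            omega
          · split_ifs <;> omega) (by omega) hroom
        (by
          rw [hk]
          exact tp_vol_one hUE (by omega) hform)
        (fun m => by
          rw [hform m]
          by_cases hm : m ∈ E
          · have : m ∉ U := fun h => (Finset.disjoint_left.1 hUE h) hm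
            simp [hm, this]
          · by_cases hm2 : m ∈ U
            · simp [hm, hm2]
            · simp [hm, hm2])
      have h3 := tp_pairs hp0 hp1 hd (z := z) (x₀ := fun m => q + 2 + if m ∈ E then 1 else 0)
        (x₁ := fun _ => q + 3) (q := q + 1) (y := y)
        (t := (q + 1) * d + E.card) Eᶜ hGe
        (fun m hm => by
          have hm' : m ∉ E := Finset.mem_compl.1 hm
          simp [hm'])
        (fun m => by omega)
        (fun m => by split_ifs <;> omega) (by omega) hroom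
        (tp_vol_two (W := E) (fun m => by rfl))
        (fun m => by
          by_cases hm : m ∈ E
          · simp [hm]
          · simp [hm])
      refine tp_trans hp0 h1 h3 ?_
      have h2 : 2 * ((Eᶜ \ U).card / 2) = (Eᶜ \ U).card := by
        have := hcUe.two_dvd
        omega
      have : (q + 1) * d = q * d + d := by ring
      omega
  · -- second form
    have hk : k = (q + 1) * d + E.card + U.card := by
      have h1 : ∑ m, x m = (q + 2) * d + E.card + U.card := by
        simp only [hform]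
        rw [Finset.sum_add_distrib, Finset.sum_add_distrib, Finset.sum_const, Finset.card_univ,
          Fintype.card_fin, Finset.sum_ite_mem, Finset.univ_inter, Finset.sum_const,
          Finset.sum_ite_mem, Finset.univ_inter, Finset.sum_const]
        simp only [smul_eq_mul]
        ring
      rw [h1] at hsum
      have : (q + 2) * d = q * d + 2 * d := by ring
      have : (q + 1) * d = q * d + d := by ring
      omega
    have hlev : q + 2 ≤ lev d k := by
      unfold lev
      have : q + 1 ≤ k / d := (Nat.le_div_iff_mul_le (by omega)).2 (by omega)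
      omega
    refine ⟨q, (Eᶜ \ U).card / 2, hqe, by omega, ?_, ?_⟩
    · have : (q + 2) * d = q * d + 2 * d := by ring
      have : (q + 1) * d = q * d + d := by ring
      have h2 : 2 * ((Eᶜ \ U).card / 2) = (Eᶜ \ U).card := by
        have := hcUe.two_dvd
        omega
      omega
    · refine tp_pairs hp0 hp1 hd (z := z) (x₀ := x)
        (x₁ := fun _ => q + 3) (q := q + 1) (y := y)
        (t := k) (Eᶜ \ U) hcUe
        (fun m hm => by
          rw [Finset.mem_sdiff, Finset.mem_compl] at hm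
          rw [hform m]
          simp [hm.1, hm.2])
        (fun m => by rw [hform m]; omega)
        (fun m => by
          rw [hform m]
          by_cases hm : m ∈ E
          · have : m ∉ U := fun h => (Finset.disjoint_left.1 hUE h) hm
            simp [hm, this]
            omega
          · split_ifs <;> omega) (by omega) hroom ?_ ?_
      · have h1 := tp_vol_two (W := E ∪ U) (q := q + 1) (x₀ := x) (fun m => by
          rw [hform m]
          by_cases hm : m ∈ E
          · have : m ∉ U := fun h => (Finset.disjoint_left.1 hUE h) hm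
            simp [hm, this]
          · by_cases hm2 : m ∈ U
            · simp [hm, hm2]
            · simp [hm, hm2])
        rw [Finset.card_union_of_disjoint hUE.symm, ← add_assoc, ← hk] at h1
        exact h1
      · intro m
        rw [hform m]
        by_cases hm : m ∈ E
        · have : m ∉ U := fun h => (Finset.disjoint_left.1 hUE h) hm
          simp [hm, this]
        · by_cases hm2 : m ∈ U
          · simp [hm, hm2]
          · simp [hm, hm2]

/-! ### the product of the probabilities -/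

theorem tp_one_sub_exp {w : ℝ} (hw : 0 ≤ w) : w / (1 + w) ≤ 1 - Real.exp (-w) := by
  have h1 : 1 + w ≤ Real.exp w := by linarith [Real.add_one_le_exp w]
  have h2 : Real.exp (-w) ≤ 1 / (1 + w) := by
    rw [Real.exp_neg, ← one_div]
    exact one_div_le_one_div_of_le (by linarith) h1
  have h3 : w / (1 + w) = 1 - 1 / (1 + w) := by
    field_simp
    ring
  linarith

theorem tp_one_sub_exp_mono {w w' : ℝ} (hw : w ≤ w') : 1 - Real.exp (-w) ≤ 1 - Real.exp (-w') := by
  have := Real.exp_le_exp.2 (neg_le_neg hw)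
  linarith

/-- exponent of a step -/
theorem tp_w_ge {C₀ L : ℝ} {k Y i : ℕ} (hd : 1 ≤ d) (hlog : 7 ≤ Real.log d)
    (hL : L ≤ sfun d k + C₀ * Real.log d) (hY1 : 1 ≤ Y) (hY : Y ≤ 4 * d)
    (hi : k + 2 * i ≤ (Y - 1) * d) :
    Real.exp (2 * i / ((Y : ℝ) + 1) - (C₀ + 4) * Real.log d) ≤
      4 * Real.exp (-L) * Real.exp (sfun d (k + 2 * i) - 4) / (Y : ℝ) ^ 3 := by
  have hdR : (0 : ℝ) < d := by exact_mod_cast hd
  have hYR : (0 : ℝ) < Y := by exact_mod_cast hY1
  have hYd : (Y : ℝ) ≤ 4 * d := by exact_mod_cast hY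
  have h1 : (4 : ℝ) * Real.exp (-L) * Real.exp (sfun d (k + 2 * i) - 4) / (Y : ℝ) ^ 3 =
      Real.exp (Real.log 4 - L + (sfun d (k + 2 * i) - 4) - 3 * Real.log Y) := by
    have e3 : (Y : ℝ) ^ 3 = Real.exp (3 * Real.log Y) := by
      rw [show (3 : ℝ) * Real.log Y = ((3 : ℕ) : ℝ) * Real.log Y by norm_num, Real.exp_nat_mul,
        Real.exp_log hYR]
    have e4 : (4 : ℝ) = Real.exp (Real.log 4) := (Real.exp_log (by norm_num)).symm
    rw [e3, div_eq_mul_inv, ← Real.exp_neg]
    nth_rewrite 1 [e4]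
    rw [← Real.exp_add, ← Real.exp_add, ← Real.exp_add]
    congr 1
  rw [h1]
  apply Real.exp_le_exp.2
  have h2 := le_sfun_add d k (2 * i) hd
  have h3 : 2 * (i : ℝ) / ((Y : ℝ) + 1) ≤ ((2 * i : ℕ) : ℝ) * ((d : ℝ) / (k + (2 * i : ℕ) + 2 * d)) := by
    push_cast
    rw [mul_div_assoc', div_le_div_iff₀ (by positivity) (by positivity)]
    have h4 : (k : ℝ) + 2 * i ≤ (Y - 1) * d := by
      have : ((k + 2 * i : ℕ) : ℝ) ≤ (((Y - 1) * d : ℕ) : ℝ) := by exact_mod_cast hi
      rw [Nat.cast_mul, Nat.cast_sub hY1] at this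
      push_cast at this
      exact this
    have h5 : (k : ℝ) + 2 * i + 2 * d ≤ d * (Y + 1) := by nlinarith
    have h6 : (0 : ℝ) ≤ 2 * i := by positivity
    calc 2 * (i : ℝ) * (k + 2 * i + 2 * d) ≤ 2 * i * (d * (Y + 1)) :=
          mul_le_mul_of_nonneg_left h5 h6
      _ = 2 * i * d * (Y + 1) := by ring
  have h7 : Real.log Y ≤ Real.log 4 + Real.log d := by
    rw [← Real.log_mul (by norm_num) hdR.ne']
    exact Real.log_le_log hYR hYd
  have h8 : Real.log 4 ≤ 1.4 := by
    have : Real.log 4 = 2 * Real.log 2 := by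
      rw [show (4 : ℝ) = 2 ^ 2 by norm_num, Real.log_pow]
      norm_num
    rw [this]
    have := Real.log_two_lt_d9
    linarith
  linarith

/-- the product of the probabilities -/
theorem tp_prod_lower (ε C₀ : ℝ) (hε : 0 < ε) (hC₀ : 0 ≤ C₀) : ∃ D₀ : ℕ, ∀ (d k Y N : ℕ)
    (L : ℝ), D₀ ≤ d → d ≤ k → k ≤ d ^ 2 → L ≤ sfun d k + C₀ * Real.log d → 1 ≤ Y →
    Y ≤ 3 * lev d k + 10 → k + 2 * N = (Y - 1) * d →
    Real.exp (-(ε * k)) ≤ tpP d (Real.exp (-L)) Y k N := by
  -- the threshold
  have hev1 : ∀ᶠ x : ℝ in Filter.atTop, 20 * (C₀ + 5) ^ 2 * Real.log x ^ 2 ≤ ε * x := by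
    have h := Real.isLittleO_pow_log_id_atTop (n := 2)
    have h2 := h.bound (c := ε / (20 * (C₀ + 5) ^ 2)) (by positivity)
    filter_upwards [h2, Filter.eventually_ge_atTop (1 : ℝ)] with x hx hx1
    rw [Real.norm_eq_abs, Real.norm_eq_abs, id, abs_of_nonneg (sq_nonneg _),
      abs_of_nonneg (by linarith)] at hx
    have h3 := mul_le_mul_of_nonneg_left hx (show 0 ≤ 20 * (C₀ + 5) ^ 2 by positivity)
    calc 20 * (C₀ + 5) ^ 2 * Real.log x ^ 2 ≤ 20 * (C₀ + 5) ^ 2 * (ε / (20 * (C₀ + 5) ^ 2) * x) := h3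
      _ = ε * x := by
        field_simp
  have hev2 : ∀ᶠ x : ℝ in Filter.atTop, 7 ≤ Real.log x :=
    Real.tendsto_log_atTop.eventually_ge_atTop 7
  have hexp : Real.exp (-(ε / 16)) < 1 := by
    rw [Real.exp_lt_one_iff]
    linarith
  have hev3 : ∀ᶠ x : ℝ in Filter.atTop, 1 / (1 - Real.exp (-(ε / 16))) ≤ x :=
    Filter.eventually_ge_atTop _
  obtain ⟨x₀, hx₀⟩ := Filter.eventually_atTop.1 ((hev1.and hev2).and hev3)
  refine ⟨⌈x₀⌉₊ + 13, ?_⟩
  intro d k Y N L hD hdk hkd hL hY1 hY hN
  have hxd : x₀ ≤ d := by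
    have h1 : x₀ ≤ ⌈x₀⌉₊ := Nat.le_ceil _
    have h2 : ((⌈x₀⌉₊ : ℕ) : ℝ) ≤ d := by
      have : ⌈x₀⌉₊ ≤ d := by omega
      exact_mod_cast this
    linarith
  obtain ⟨⟨hA, hlog⟩, hB⟩ := hx₀ d hxd
  have hd1 : 1 ≤ d := by omega
  have hdR : (0 : ℝ) < d := by exact_mod_cast hd1
  have hdkR : (d : ℝ) ≤ k := by exact_mod_cast hdk
  have hlev : (lev d k : ℝ) ≤ k / d + 1 := by
    unfold lev
    push_cast
    have := Nat.cast_div_le (α := ℝ) (m := k) (n := d)
    linarith
  have hlevd : lev d k ≤ d + 1 := by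
    unfold lev
    have : k / d ≤ d := by
      apply Nat.div_le_of_le_mul
      rw [← sq]
      exact hkd
    omega
  have hY4 : Y ≤ 4 * d := by omega
  have hkdR : (1 : ℝ) ≤ k / d := by
    rw [le_div_iff₀ hdR]
    linarith
  have hYR : (Y : ℝ) + 1 ≤ 17 * (k / d) := by
    have h1 : (Y : ℝ) ≤ 3 * lev d k + 10 := by exact_mod_cast hY
    linarith
  obtain ⟨a, ha⟩ : ∃ a : ℝ, a = (C₀ + 5) * Real.log d := ⟨_, rfl⟩
  have ha1 : 1 ≤ a := by
    rw [ha]
    nlinarith
  obtain ⟨i₀, hi₀⟩ : ∃ i₀ : ℕ, i₀ = ⌈((Y : ℝ) + 1) * a / 2⌉₊ := ⟨_, rfl⟩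
  have hi₀1 : ((Y : ℝ) + 1) * a / 2 ≤ i₀ := by
    rw [hi₀]
    exact Nat.le_ceil _
  have hi₀2 : (i₀ : ℝ) ≤ ((Y : ℝ) + 1) * a / 2 + 1 := by
    rw [hi₀]
    exact (Nat.ceil_lt_add_one (by positivity)).le
  -- each factor
  have hfac : ∀ i ∈ Finset.range N, Real.exp (-(ε / 16 + if i < i₀ then a else 0)) ≤
      tpH d (Real.exp (-L)) Y (k + 2 * i) := by
    intro i hi
    rw [Finset.mem_range] at hi
    have hw := tp_w_ge (C₀ := C₀) (L := L) (k := k) (Y := Y) (i := i) hd1 hlog hL hY1 hY4 (by omega)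
    unfold tpH fch
    by_cases hii : i < i₀
    · rw [if_pos hii]
      obtain ⟨w, hwdef⟩ : ∃ w : ℝ, w = Real.exp (-((C₀ + 4) * Real.log d)) := ⟨_, rfl⟩
      have hw1 : w ≤ 4 * Real.exp (-L) * Real.exp (sfun d (k + 2 * i) - 4) / (Y : ℝ) ^ 3 := by
        refine le_trans ?_ hw
        rw [hwdef]
        apply Real.exp_le_exp.2
        have : (0 : ℝ) ≤ 2 * i / ((Y : ℝ) + 1) := by positivity
        linarith
      have hw0 : 0 < w := by
        rw [hwdef]
        exact Real.exp_pos _
      have hwle : w ≤ 1 := by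
        rw [hwdef, Real.exp_le_one_iff]
        nlinarith
      refine le_trans ?_ (tp_one_sub_exp_mono hw1)
      refine le_trans ?_ (tp_one_sub_exp hw0.le)
      have h2 : w / 2 ≤ w / (1 + w) := div_le_div_of_nonneg_left hw0.le (by linarith) (by linarith)
      refine le_trans ?_ h2
      rw [hwdef, le_div_iff₀ (by norm_num)]
      have h3 : (2 : ℝ) ≤ Real.exp (Real.log d) := by
        have := Real.add_one_le_exp (Real.log d)
        linarith
      calc Real.exp (-(ε / 16 + a)) * 2 ≤ Real.exp (-(ε / 16 + a)) * Real.exp (Real.log d) :=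
            mul_le_mul_of_nonneg_left h3 (Real.exp_pos _).le
        _ ≤ Real.exp (-((C₀ + 4) * Real.log d)) := by
            rw [← Real.exp_add]
            apply Real.exp_le_exp.2
            rw [ha]
            linarith
    · rw [if_neg hii, add_zero]
      have hii' : (i₀ : ℝ) ≤ i := by
        have : i₀ ≤ i := by omega
        exact_mod_cast this
      have hw1 : (d : ℝ) ≤ 4 * Real.exp (-L) * Real.exp (sfun d (k + 2 * i) - 4) / (Y : ℝ) ^ 3 := by
        refine le_trans ?_ hw
        rw [← Real.exp_log hdR]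
        apply Real.exp_le_exp.2
        rw [Real.exp_log hdR]
        have h2 : a ≤ 2 * i / ((Y : ℝ) + 1) := by
          rw [le_div_iff₀ (by positivity)]
          linarith
        rw [ha] at h2
        linarith
      refine le_trans ?_ (tp_one_sub_exp_mono hw1)
      refine le_trans ?_ (tp_one_sub_exp hdR.le)
      have h2 : (d : ℝ) / (1 + d) = 1 - 1 / (1 + d) := by
        field_simp
        ring
      rw [h2]
      have h3 : 1 / (1 + (d : ℝ)) ≤ 1 - Real.exp (-(ε / 16)) := by
        rw [div_le_iff₀ (by positivity)]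
        rw [div_le_iff₀ (by linarith)] at hB
        nlinarith
      linarith
  unfold tpP
  refine le_trans ?_ (Finset.prod_le_prod (fun i _ => (Real.exp_pos _).le) hfac)
  rw [← Real.exp_sum]
  apply Real.exp_le_exp.2
  rw [Finset.sum_neg_distrib, neg_le_neg_iff, Finset.sum_add_distrib, Finset.sum_const,
    Finset.card_range, nsmul_eq_mul]
  have hcard : ∑ i ∈ Finset.range N, (if i < i₀ then a else 0) ≤ i₀ * a := by
    rw [← Finset.sum_filter, Finset.sum_const, nsmul_eq_mul]
    apply mul_le_mul_of_nonneg_right _ (by linarith)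
    have : ((Finset.range N).filter (fun i => i < i₀)).card ≤ (Finset.range i₀).card := by
      apply Finset.card_le_card
      intro i hi
      rw [Finset.mem_filter] at hi
      exact Finset.mem_range.2 hi.2
    rw [Finset.card_range] at this
    exact_mod_cast this
  have hN2 : (N : ℝ) ≤ 8 * k := by
    have h1 : ((k + 2 * N : ℕ) : ℝ) = (((Y - 1) * d : ℕ) : ℝ) := by rw [hN]
    rw [Nat.cast_mul, Nat.cast_sub hY1] at h1
    push_cast at h1
    have h2 : ((Y : ℝ) + 1) * d ≤ 17 * k := by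
      have := mul_le_mul_of_nonneg_right hYR hdR.le
      calc ((Y : ℝ) + 1) * d ≤ 17 * (k / d) * d := this
        _ = 17 * k := by field_simp
    nlinarith
  have h5 : (i₀ : ℝ) * a ≤ ε / 2 * k := by
    have h6 : (i₀ : ℝ) ≤ 10 * (k / d) * a := by
      have h7 : ((Y : ℝ) + 1) * a ≤ 17 * (k / d) * a :=
        mul_le_mul_of_nonneg_right hYR (by linarith)
      have h8 : 1 ≤ (k / d : ℝ) * a := by nlinarith
      nlinarith
    have h9 : (i₀ : ℝ) * a ≤ 10 * (k / d) * a * a := mul_le_mul_of_nonneg_right h6 (by linarith)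
    refine h9.trans ?_
    have h10 : 20 * a ^ 2 ≤ ε * d := by
      rw [ha]
      calc 20 * ((C₀ + 5) * Real.log d) ^ 2 = 20 * (C₀ + 5) ^ 2 * Real.log d ^ 2 := by ring
        _ ≤ ε * d := hA
    have h11 : 10 * ((k : ℝ) / d) * a * a = (k / d) / 2 * (20 * a ^ 2) := by ring
    rw [h11]
    have h12 : 0 ≤ (k : ℝ) / d / 2 := by positivity
    calc (k : ℝ) / d / 2 * (20 * a ^ 2) ≤ k / d / 2 * (ε * d) :=
          mul_le_mul_of_nonneg_left h10 h12
      _ = ε / 2 * k := by field_simp
  nlinarith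

/-- near and after the critical size: steps with prescribed directions -/
theorem reach_top (ε C₀ : ℝ) (hε : 0 < ε) (hC₀ : 0 ≤ C₀) : ∃ D₀ : ℕ, ∀ (n d k Y : ℕ)
    (L : ℝ) (z : Vtx n d) (E : Finset (Fin d)), D₀ ≤ d → (E.card = 2 ∨ E.card = 3) →
    Even (d - E.card) → Adm d E.card k → d ≤ k → k ≤ d ^ 2 → 0 ≤ L →
    L ≤ sfun d k + C₀ * Real.log d →
    Odd Y → lev d k + 3 ≤ Y → Y ≤ 3 * lev d k + 10 → Room (Y + 3) z →
    Reach (Real.exp (-L)) z (Bst E k) (fun x => ∀ m, x m = Y) (Real.exp (-(ε * k))) := by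
  obtain ⟨D₀, hD₀⟩ := tp_prod_lower ε C₀ hε hC₀
  refine ⟨D₀ + 3, ?_⟩
  intro n d k Y L z E hD hE hEv _ hdk hkd hL0 hL hYo hY3 hY hroom
  have hp0 : 0 ≤ Real.exp (-L) := (Real.exp_pos _).le
  have hp1 : Real.exp (-L) ≤ 1 := by
    rw [Real.exp_le_one_iff]
    linarith
  have hd1 : 1 ≤ d := by omega
  have hroom' : Room (Y + 1) z := fun i => by
    have := hroom i
    omega
  intro g v hv hg x Z T hx hc
  obtain ⟨q, N, hq, hqY, hkN, hreach⟩ := tp_start hp0 hp1 hd1 (z := z) (y := Y) hE hEv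
    (by omega) hx hY3 hroom'
  obtain ⟨b, hb⟩ : ∃ b, Y = q + 3 + 2 * b := by
    obtain ⟨s, hs⟩ := hYo
    obtain ⟨r, hr⟩ := hq
    exact ⟨s - r - 1, by omega⟩
  have hbl := tp_blocks hp0 hp1 hd1 (z := z) (y := Y) hE hEv (by omega) (q + 2) b (by omega) hroom'
  have htot := tp_trans hp0 hreach hbl hkN.symm
  have hlow := hD₀ d k Y (N + b * d) L (by omega) hdk hkd hL (by omega) hY (by
    have : (Y - 1) * d = (q + 2) * d + 2 * (b * d) := by
      rw [hb, show q + 3 + 2 * b - 1 = q + 2 + 2 * b by omega]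
      ring
    omega)
  have := l9_reach_mono htot hlow
  refine this g v hv ?_ x Z T rfl hc
  intro x' Z' T' hx' hc'
  refine hg x' Z' T' ?_ hc'
  intro m
  rw [hx']
  simp only []
  omega

end Pool.Agent.Lib.MP_8501c9_pr.Wide
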