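import Pool.Agent.Lib.MP_8501c9_pr.Wide.Brun
import Pool.Agent.Lib.MP_8501c9_pr.Wide.Top
import Pool.Agent.Lib.MP_8501c9_pr.Wide.Slice
import Pool.Agent.Lib.MP_8501c9_pr.Wide.Cells

/-!
# Percolation from the balanced schedule and the slices (assembly)
-/

set_option autoImplicit false
open Set

namespace Pool.Agent.Lib.MP_8501c9_pr.Wide

open Pool.Agent.Lib.MP_8501c9_pr Pool.Agent.Lib.MP_8501c9_pr.Mid

variable {n d : ℕ}

private theorem wl_int_prod_nonneg (a : ℤ) : (0 : ℝ) ≤ (a : ℝ) * ((a : ℝ) - 1) := by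
  have h : 0 ≤ a * (a - 1) := by
    rcases le_or_gt a 0 with h | h
    · nlinarith
    · have h1 : 1 ≤ a := h
      nlinarith
  have : (0 : ℝ) ≤ ((a * (a - 1) : ℤ) : ℝ) := by exact_mod_cast h
  push_cast at this
  exact this

theorem LAch.mono {κ κ' V V' : ℝ} (h : LAch κ V) (hκ0 : 0 ≤ κ') (hκ : κ' ≤ κ) (hV : V' ≤ V) :
    LAch κ' V' := by
  intro ε hε
  obtain ⟨M, W, J, den, N, q, lm, tp, hC⟩ := h ε hε
  refine ⟨M, W, J, den, N, q, lm, tp, ?_⟩
  refine { M_pos := hC.M_pos, M_even := hC.M_even, J_even := hC.J_even, den_pos := hC.den_pos,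
           supp := hC.supp, q_le := hC.q_le, flow := hC.flow, per := hC.per, tot := hC.tot,
           tp_ge := hC.tp_ge, tp_le := hC.tp_le, lm_le := hC.lm_le, value := ?_ }
  have hM : (0 : ℝ) ≤ M := by positivity
  have h1 : (V' - ε) * M ≤ (V - ε) * M := mul_le_mul_of_nonneg_right (by linarith) hM
  refine (h1.trans hC.value).trans (Finset.sum_le_sum fun w _ => ?_)
  have hden : (0 : ℝ) ≤ (den : ℝ) := by positivity
  have hP1 : 0 ≤ (∑ j ∈ Finset.Icc (-(J : ℤ)) J, (N w j : ℝ) * ((j - lm w) * (j - lm w - 1))) /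
      den := by
    refine div_nonneg (Finset.sum_nonneg fun j _ => mul_nonneg (by positivity) ?_) hden
    have := wl_int_prod_nonneg (j - lm w)
    push_cast at this
    exact this
  have hf : 0 ≤ (fsum J q w : ℝ) / den := by positivity
  have hP2 : 0 ≤ (fsum J q w : ℝ) / den * max 0 ((tp w : ℝ) - lm w) :=
    mul_nonneg hf (le_max_left _ _)
  have hP := mul_le_mul_of_nonneg_right hκ (add_nonneg hP1 hP2)
  have h2 : Real.log ((fsum J q w : ℝ) / den) -
      κ * ((∑ j ∈ Finset.Icc (-(J : ℤ)) J, (N w j : ℝ) * ((j - lm w) * (j - lm w - 1))) / den +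
        (fsum J q w : ℝ) / den * max 0 ((tp w : ℝ) - lm w)) ≤
      Real.log ((fsum J q w : ℝ) / den) -
      κ' * ((∑ j ∈ Finset.Icc (-(J : ℤ)) J, (N w j : ℝ) * ((j - lm w) * (j - lm w - 1))) / den +
        (fsum J q w : ℝ) / den * max 0 ((tp w : ℝ) - lm w)) := by linarith
  have h3 := mul_le_mul_of_nonneg_left h2 hf
  linarith

/-! ### the slices -/

/-- first odd level of the slice `i` -/
private noncomputable def wlo (γ : ℕ → ℝ) (d i : ℕ) : ℕ := 2 * ⌈γ i * Real.sqrt d / 2⌉₊ + 1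

private theorem wlo_odd (γ : ℕ → ℝ) (d i : ℕ) : Odd (wlo γ d i) := ⟨_, rfl⟩

private theorem wlo_ge (γ : ℕ → ℝ) (d i : ℕ) : γ i * Real.sqrt d + 1 ≤ (wlo γ d i : ℝ) := by
  have h := Nat.le_ceil (γ i * Real.sqrt d / 2)
  unfold wlo
  push_cast
  linarith

private theorem wlo_le {γ : ℕ → ℝ} {d i : ℕ} (h0 : 0 ≤ γ i) :
    (wlo γ d i : ℝ) ≤ γ i * Real.sqrt d + 3 := by
  have h := Nat.ceil_lt_add_one (a := γ i * Real.sqrt d / 2) (by positivity)
  unfold wlo
  push_cast
  linarith

private theorem wlo_mono {γ : ℕ → ℝ} (hγ : Monotone γ) (d : ℕ) : Monotone (wlo γ d) := by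
  intro i j hij
  have h1 : γ i * Real.sqrt d / 2 ≤ γ j * Real.sqrt d / 2 := by
    have := mul_le_mul_of_nonneg_right (hγ hij) (Real.sqrt_nonneg d)
    linarith
  have h2 := Nat.ceil_mono h1
  unfold wlo
  omega

/-- index of the slice containing the level `l`, with the odd levels -/
private noncomputable def wli (J : ℕ) (γ : ℕ → ℝ) (d l : ℕ) : ℕ :=
  ((Finset.range J).filter (fun i => wlo γ d i ≤ l)).card

/-- values with the odd levels -/
private noncomputable def wlv (J : ℕ) (γ V : ℕ → ℝ) (d l : ℕ) : ℝ :=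
  if wli J γ d l = 0 then 0 else V (wli J γ d l - 1)

private theorem wli_eq {J : ℕ} {γ : ℕ → ℝ} (hγ : Monotone γ) {d l i : ℕ} (hi : i < J)
    (h1 : wlo γ d i ≤ l) (h2 : i + 1 < J → l < wlo γ d (i + 1)) : wli J γ d l = i + 1 := by
  unfold wli
  have h : (Finset.range J).filter (fun j => wlo γ d j ≤ l) = Finset.range (i + 1) := by
    ext j
    simp only [Finset.mem_filter, Finset.mem_range]
    constructor
    · rintro ⟨hj, hjl⟩
      by_contra hcon
      push Not at hcon
      have h3 := wlo_mono hγ d hcon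
      have h4 := h2 (by omega)
      omega
    · intro hj
      exact ⟨by omega, (wlo_mono hγ d (by omega : j ≤ i)).trans h1⟩
  rw [h, Finset.card_range]

private theorem wlv_zero {J : ℕ} {γ V : ℕ → ℝ} (hγ : Monotone γ) {d l : ℕ}
    (h : 0 < J → l < wlo γ d 0) : wlv J γ V d l = 0 := by
  unfold wlv
  rw [if_pos]
  unfold wli
  rw [Finset.card_eq_zero, Finset.filter_eq_empty_iff]
  intro j hj
  rw [Finset.mem_range] at hj
  have h1 := wlo_mono hγ d (Nat.zero_le j)
  have h2 := h (by omega)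
  omega

private theorem wlv_eq {J : ℕ} {γ V : ℕ → ℝ} (hγ : Monotone γ) {d l i : ℕ} (hi : i < J)
    (h1 : wlo γ d i ≤ l) (h2 : i + 1 < J → l < wlo γ d (i + 1)) : wlv J γ V d l = V i := by
  unfold wlv
  rw [wli_eq hγ hi h1 h2]
  simp

/-- bound for the values -/
private theorem wlv_abs {J : ℕ} {γ V : ℕ → ℝ} (d l : ℕ) :
    |wlv J γ V d l| ≤ ∑ i ∈ Finset.range J, |V i| := by
  unfold wlv
  split_ifs with h
  · rw [abs_zero]
    exact Finset.sum_nonneg fun i _ => abs_nonneg _
  · have h1 : wli J γ d l ≤ J := by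
      unfold wli
      exact (Finset.card_filter_le _ _).trans (by rw [Finset.card_range])
    exact Finset.single_le_sum (f := fun i => |V i|) (fun i _ => abs_nonneg _)
      (Finset.mem_range.2 (by omega : wli J γ d l - 1 < J))

private theorem wl_sval_abs {J : ℕ} {γ V : ℕ → ℝ} (d l : ℕ) :
    |svalL J γ V d l| ≤ ∑ i ∈ Finset.range J, |V i| := by
  unfold svalL
  split_ifs with h
  · rw [abs_zero]
    exact Finset.sum_nonneg fun i _ => abs_nonneg _
  · have h1 : sidx J γ d l ≤ J := by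
      unfold sidx
      exact (Finset.card_filter_le _ _).trans (by rw [Finset.card_range])
    exact Finset.single_le_sum (f := fun i => |V i|) (fun i _ => abs_nonneg _)
      (Finset.mem_range.2 (by omega : sidx J γ d l - 1 < J))

/-- the two values differ only at exceptional levels -/
private theorem wl_sval_eq {J : ℕ} {γ V : ℕ → ℝ} {d l : ℕ}
    (h : ∀ i < J, γ i * Real.sqrt d < l → wlo γ d i ≤ l) :
    svalL J γ V d l = wlv J γ V d l := by
  have h1 : sidx J γ d l = wli J γ d l := by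
    unfold sidx wli
    congr 1
    ext i
    simp only [Finset.mem_filter, Finset.mem_range]
    constructor
    · rintro ⟨hi, h1⟩
      exact ⟨hi, h i hi h1⟩
    · rintro ⟨hi, h1⟩
      refine ⟨hi, ?_⟩
      have h2 := wlo_ge γ d i
      have h3 : (wlo γ d i : ℝ) ≤ l := by exact_mod_cast h1
      linarith
  unfold svalL wlv
  rw [h1]

private theorem wl_bad_card {γ : ℕ → ℝ} {d i : ℕ} (hd : 1 ≤ d) (h0 : 0 ≤ γ i) (k : ℕ) :
    ((Finset.range k).filter (fun t => γ i * Real.sqrt d < lev d t ∧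
      lev d t < wlo γ d i)).card ≤ 2 * d := by
  set a := γ i * Real.sqrt d with ha
  have ha0 : 0 ≤ a := by positivity
  have h1 : wlo γ d i ≤ ⌊a⌋₊ + 3 := by
    have h2 : (wlo γ d i : ℝ) ≤ a + 3 := wlo_le h0
    have h3 : 3 ≤ wlo γ d i ∨ wlo γ d i < 3 := by omega
    rcases h3 with h3 | h3
    · have h4 : ((wlo γ d i - 3 : ℕ) : ℝ) ≤ a := by
        rw [Nat.cast_sub h3]
        push_cast
        linarith
      have h5 := Nat.le_floor h4
      omega
    · omega
  have hsub : (Finset.range k).filter (fun t => a < lev d t ∧ lev d t < wlo γ d i) ⊆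
      Finset.Ico (⌊a⌋₊ * d) ((wlo γ d i - 1) * d) := by
    intro t ht
    rw [Finset.mem_filter] at ht
    obtain ⟨-, h2, h3⟩ := ht
    have h4 : ⌊a⌋₊ < lev d t := (Nat.floor_lt ha0).2 h2
    unfold lev at h3 h4
    rw [Finset.mem_Ico]
    constructor
    · exact (Nat.mul_le_mul_right d (by omega : ⌊a⌋₊ ≤ t / d)).trans (Nat.div_mul_le_self t d)
    · have h5 : t / d < wlo γ d i - 1 := by omega
      exact (Nat.div_lt_iff_lt_mul (by omega)).1 h5
  refine (Finset.card_le_card hsub).trans ?_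
  rw [Nat.card_Ico, ← Nat.sub_mul]
  exact Nat.mul_le_mul_right d (by omega)

/-- comparison of the two values -/
private theorem wl_compare {J : ℕ} {γ V : ℕ → ℝ} {d : ℕ} (hd : 1 ≤ d) (h0 : ∀ i, 0 ≤ γ i)
    (k : ℕ) : ∑ t ∈ Finset.range k, svalL J γ V d (lev d t) ≤
      ∑ t ∈ Finset.range k, wlv J γ V d (lev d t) +
        4 * J * (∑ i ∈ Finset.range J, |V i|) * d := by
  set B := ∑ i ∈ Finset.range J, |V i| with hB
  have hB0 : 0 ≤ B := Finset.sum_nonneg fun i _ => abs_nonneg _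
  have hpt : ∀ t, svalL J γ V d (lev d t) ≤ wlv J γ V d (lev d t) +
      ∑ i ∈ Finset.range J, (if γ i * Real.sqrt d < lev d t ∧ lev d t < wlo γ d i then 2 * B
        else 0) := by
    intro t
    by_cases h : ∀ i < J, γ i * Real.sqrt d < lev d t → wlo γ d i ≤ lev d t
    · rw [wl_sval_eq h]
      have : 0 ≤ ∑ i ∈ Finset.range J, (if γ i * Real.sqrt d < lev d t ∧
          lev d t < wlo γ d i then 2 * B else 0) := by
        refine Finset.sum_nonneg fun i _ => ?_
        split_ifs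
        · linarith
        · exact le_rfl
      linarith
    · push Not at h
      obtain ⟨i, hi, h1, h2⟩ := h
      have h3 : 2 * B ≤ ∑ i ∈ Finset.range J, (if γ i * Real.sqrt d < lev d t ∧
          lev d t < wlo γ d i then 2 * B else 0) := by
        have h4 := Finset.single_le_sum (f := fun i => if γ i * Real.sqrt d < lev d t ∧
          lev d t < wlo γ d i then 2 * B else 0) (s := Finset.range J) (fun i _ => by
            show 0 ≤ if γ i * Real.sqrt d < lev d t ∧ lev d t < wlo γ d i then 2 * B else 0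
            split_ifs
            · linarith
            · exact le_rfl) (Finset.mem_range.2 hi)
        simp only [h1, h2, and_self, if_true] at h4
        exact h4
      have h5 := abs_le.1 (wl_sval_abs (J := J) (γ := γ) (V := V) d (lev d t))
      have h6 := abs_le.1 (wlv_abs (J := J) (γ := γ) (V := V) d (lev d t))
      linarith [h5.2, h6.1]
  calc ∑ t ∈ Finset.range k, svalL J γ V d (lev d t)
      ≤ ∑ t ∈ Finset.range k, (wlv J γ V d (lev d t) +
        ∑ i ∈ Finset.range J, (if γ i * Real.sqrt d < lev d t ∧ lev d t < wlo γ d i then 2 * B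
        else 0)) := Finset.sum_le_sum fun t _ => hpt t
    _ = ∑ t ∈ Finset.range k, wlv J γ V d (lev d t) + ∑ i ∈ Finset.range J,
          ∑ t ∈ Finset.range k, (if γ i * Real.sqrt d < lev d t ∧ lev d t < wlo γ d i then 2 * B
        else 0) := by rw [Finset.sum_add_distrib, Finset.sum_comm]
    _ ≤ ∑ t ∈ Finset.range k, wlv J γ V d (lev d t) + ∑ i ∈ Finset.range J,
          ((2 * d : ℕ) : ℝ) * (2 * B) := by
        gcongr with i hi
        rw [← Finset.sum_filter, Finset.sum_const, nsmul_eq_mul]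
        refine mul_le_mul_of_nonneg_right ?_ (by linarith)
        exact_mod_cast wl_bad_card hd (h0 i) k
    _ = _ := by
        rw [Finset.sum_const, Finset.card_range, nsmul_eq_mul]
        push_cast
        ring

/-- odd levels between the slices, up to the last one -/
private noncomputable def wlf (J : ℕ) (γ : ℕ → ℝ) (d X i : ℕ) : ℕ :=
  if i < J then min (wlo γ d i) X else X

private theorem wlf_odd {J : ℕ} {γ : ℕ → ℝ} {d X : ℕ} (hX : Odd X) (i : ℕ) :
    Odd (wlf J γ d X i) := by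
  unfold wlf
  split_ifs
  · rcases min_choice (wlo γ d i) X with h | h <;> rw [h]
    · exact wlo_odd γ d i
    · exact hX
  · exact hX

private theorem wlf_le {J : ℕ} {γ : ℕ → ℝ} {d X : ℕ} (i : ℕ) : wlf J γ d X i ≤ X := by
  unfold wlf
  split_ifs
  · exact min_le_right _ _
  · exact le_rfl

private theorem wlf_mono {J : ℕ} {γ : ℕ → ℝ} (hγ : Monotone γ) {d X : ℕ} :
    Monotone (wlf J γ d X) := by
  intro i j hij
  unfold wlf
  split_ifs with h1 h2 h2
  · exact min_le_min_right _ (wlo_mono hγ d hij)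
  · exact min_le_right _ _
  · omega
  · exact le_rfl

private theorem wl_slices (J : ℕ) (γ V : ℕ → ℝ) (hγ0 : ∀ i, 0 < γ i) (hγ : StrictMono γ)
    (ε : ℝ) (hε0 : 0 < ε) (hL : ∀ i < J, LAch ((1 + ε) / (4 * γ i ^ 2)) (V i))
    (ε₁ : ℝ) (hε₁ : 0 < ε₁) (hle : ε₁ ≤ ε) :
    ∃ C : ℝ, 0 ≤ C ∧ ∃ D₀ : ℕ, ∀ (n d X k : ℕ) (L : ℝ) (z : Vtx n d), D₀ ≤ d → Odd X → X ≤ d →
      (X - 1) * d ≤ k → k ≤ d ^ 2 → sfun d k + 6 * Real.log d ≤ L → Room (X + 3) z →
      ∀ i ≤ J, Reach (Real.exp (-L)) z (fun x => ∀ m, x m = wlf J γ d X 0)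
        (fun x => ∀ m, x m = wlf J γ d X i)
        (Real.exp (∑ t ∈ Finset.Ico ((wlf J γ d X 0 - 1) * d) ((wlf J γ d X i - 1) * d),
          (Bx d t - L / 2 + wlv J γ V d (lev d t) - ε₁) -
          (if wlf J γ d X 0 < X then i * (C * (d * Real.log d)) else 0))) := by
  have hκ : ∀ i, 0 < (1 + ε) / (4 * γ i ^ 2) := fun i => by
    have := hγ0 i
    positivity
  have hex : ∀ i : ℕ, ∃ (C : ℝ) (D₀ : ℕ), 0 ≤ C ∧ (i < J → ∀ (n d X X' k : ℕ) (L : ℝ)
      (z : Vtx n d), D₀ ≤ d →
      Odd X → Odd X' → X ≤ X' → (1 + ε₁) * d ≤ 4 * ((1 + ε) / (4 * γ i ^ 2)) * (X : ℝ) ^ 2 →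
      X' ≤ d → (X' - 1) * d ≤ k → k ≤ d ^ 2 → sfun d k + 6 * Real.log d ≤ L → Room (X' + 3) z →
      Reach (Real.exp (-L)) z (fun x => ∀ m, x m = X) (fun x => ∀ m, x m = X')
        (Real.exp (∑ t ∈ Finset.Ico ((X - 1) * d) ((X' - 1) * d), (Bx d t - L / 2 + V i - ε₁) -
          C * (d * Real.log d)))) := by
    intro i
    by_cases hi : i < J
    · obtain ⟨C, hC, D₀, h⟩ := reach_slice ((1 + ε) / (4 * γ i ^ 2)) (V i) ε₁ (hL i hi) (hκ i) hε₁
      exact ⟨C, D₀, hC, fun _ => h⟩
    · exact ⟨0, 0, le_rfl, fun h => absurd h hi⟩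
  choose C D₀ hC h using hex
  refine ⟨∑ i ∈ Finset.range J, C i, Finset.sum_nonneg fun i _ => hC i,
    ∑ i ∈ Finset.range J, D₀ i + 1, ?_⟩
  intro n d X k L z hd hX hXd hXk hkd hLk hroom i
  have hd1 : 1 ≤ d := by omega
  have hlogd : 0 ≤ Real.log d := Real.log_natCast_nonneg d
  have hdl : 0 ≤ (d : ℝ) * Real.log d := by positivity
  set CC := ∑ i ∈ Finset.range J, C i with hCC
  have hCC0 : 0 ≤ CC := Finset.sum_nonneg fun i _ => hC i
  set f := wlf J γ d X with hf
  have hmon : Monotone f := wlf_mono hγ.monotone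
  induction i with
  | zero =>
    intro _
    refine reach_mono (fun x hx => hx) (fun x hx => hx) ?_ reach_refl
    rw [Finset.Ico_self, Finset.sum_empty, zero_sub]
    have : (if f 0 < X then ((0 : ℕ) : ℝ) * (CC * (d * Real.log d)) else 0) = 0 := by
      split_ifs
      · push_cast; ring
      · rfl
    rw [this, neg_zero, Real.exp_zero]
  | succ i ih =>
    intro hiJ
    have hi : i < J := by omega
    have ih' := ih (by omega)
    rcases le_or_gt X (wlo γ d i) with hcase | hcase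
    · -- nothing happens
      have e1 : f i = X := by
        rw [hf]
        unfold wlf
        rw [if_pos hi, min_eq_right hcase]
      have e2 : f (i + 1) = X := by
        have h1 : f i ≤ f (i + 1) := hmon (Nat.le_succ i)
        have h2 : f (i + 1) ≤ X := wlf_le _
        omega
      rw [e2]
      rw [e1] at ih'
      refine reach_mono (fun x hx => hx) (fun x hx => hx) ?_ ih'
      apply Real.exp_le_exp.2
      apply sub_le_sub_left
      split_ifs
      · push_cast
        have : 0 ≤ CC * (d * Real.log d) := by positivity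
        nlinarith
      · exact le_rfl
    · have e1 : f i = wlo γ d i := by
        rw [hf]
        unfold wlf
        rw [if_pos hi, min_eq_left hcase.le]
      have h0X : f 0 < X := by
        have := hmon (Nat.zero_le i)
        omega
      rw [if_pos h0X] at ih' ⊢
      have h2 : f (i + 1) ≤ X := wlf_le _
      have hlo1 : 1 ≤ f i := by
        have := (wlf_odd (J := J) (γ := γ) (d := d) hX i).pos
        exact this
      have hlo2 : 1 ≤ f (i + 1) := by
        have := (wlf_odd (J := J) (γ := γ) (d := d) hX (i + 1)).pos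
        exact this
      have hD : D₀ i ≤ d := by
        have := Finset.single_le_sum (f := D₀) (fun i _ => Nat.zero_le _) (Finset.mem_range.2 hi)
        omega
      have hcond : (1 + ε₁) * d ≤ 4 * ((1 + ε) / (4 * γ i ^ 2)) * ((f i : ℕ) : ℝ) ^ 2 := by
        have h3 := wlo_ge γ d i
        rw [← e1] at h3
        have h4 := hγ0 i
        have h5 : γ i * Real.sqrt d ≤ (f i : ℝ) := by linarith
        have h6 : (γ i * Real.sqrt d) ^ 2 ≤ (f i : ℝ) ^ 2 := by
          apply pow_le_pow_left₀ (by positivity) h5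
        rw [mul_pow, Real.sq_sqrt (by positivity)] at h6
        have h7 : 4 * ((1 + ε) / (4 * γ i ^ 2)) * ((f i : ℕ) : ℝ) ^ 2 =
            (1 + ε) * ((f i : ℝ) ^ 2 / γ i ^ 2) := by
          field_simp
        rw [h7]
        have h8 : (d : ℝ) ≤ (f i : ℝ) ^ 2 / γ i ^ 2 := by
          rw [le_div_iff₀ (by positivity)]
          linarith
        have h9 : (0 : ℝ) ≤ d := by positivity
        nlinarith
      have hstep := h i hi n d (f i) (f (i + 1)) k L z hD (wlf_odd hX i) (wlf_odd hX (i + 1))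
        (hmon (Nat.le_succ i)) hcond (h2.trans hXd)
        ((Nat.mul_le_mul_right d (by omega : f (i + 1) - 1 ≤ X - 1)).trans hXk) hkd hLk
        (fun m => by have := hroom m; omega)
      have htr := reach_trans (Real.exp_pos _).le ih' hstep
      rw [← Real.exp_add] at htr
      refine reach_mono (fun x hx => hx) (fun x hx => hx) ?_ htr
      apply Real.exp_le_exp.2
      have hsum : ∑ t ∈ Finset.Ico ((f i - 1) * d) ((f (i + 1) - 1) * d),
          (Bx d t - L / 2 + V i - ε₁) = ∑ t ∈ Finset.Ico ((f i - 1) * d) ((f (i + 1) - 1) * d),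
          (Bx d t - L / 2 + wlv J γ V d (lev d t) - ε₁) := by
        refine Finset.sum_congr rfl fun t ht => ?_
        rw [Finset.mem_Ico] at ht
        have h3 : f i - 1 ≤ t / d := (Nat.le_div_iff_mul_le (by omega)).2 ht.1
        have h4 : t / d < f (i + 1) - 1 := (Nat.div_lt_iff_lt_mul (by omega)).2 ht.2
        rw [wlv_eq hγ.monotone hi (l := lev d t) (by unfold lev; omega) (by
          intro hi1
          have h5 : f (i + 1) ≤ wlo γ d (i + 1) := by
            rw [hf]
            unfold wlf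
            rw [if_pos hi1]
            exact min_le_left _ _
          unfold lev
          omega)]
      rw [hsum]
      have hcons := Finset.sum_Ico_consecutive
        (fun t => Bx d t - L / 2 + wlv J γ V d (lev d t) - ε₁)
        (Nat.mul_le_mul_right d (Nat.sub_le_sub_right (hmon (Nat.zero_le i)) 1))
        (Nat.mul_le_mul_right d (Nat.sub_le_sub_right (hmon (Nat.le_succ i)) 1))
      have hCi : C i ≤ CC := Finset.single_le_sum (f := C) (fun i _ => hC i)
        (Finset.mem_range.2 hi)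
      have h5 := mul_le_mul_of_nonneg_right hCi hdl
      have hcons' : ∑ t ∈ Finset.Ico ((f 0 - 1) * d) ((f (i + 1) - 1) * d),
          (Bx d t - L / 2 + wlv J γ V d (lev d t) - ε₁) =
          ∑ t ∈ Finset.Ico ((f 0 - 1) * d) ((f i - 1) * d),
            (Bx d t - L / 2 + wlv J γ V d (lev d t) - ε₁) +
          ∑ t ∈ Finset.Ico ((f i - 1) * d) ((f (i + 1) - 1) * d),
            (Bx d t - L / 2 + wlv J γ V d (lev d t) - ε₁) := hcons.symm
      rw [hcons']
      push_cast
      linarith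


/-! ### auxiliary statements for the assembly -/

private theorem wl_log (δ : ℝ) (hδ : 0 < δ) : ∃ N : ℕ, ∀ x : ℝ, (N : ℝ) ≤ x →
    Real.log x ≤ δ * x := by
  have h := Real.isLittleO_log_id_atTop.bound hδ
  rw [Filter.eventually_atTop] at h
  obtain ⟨a, ha⟩ := h
  refine ⟨⌈max a 0⌉₊, fun x hx => ?_⟩
  have h1 : max a 0 ≤ x := (Nat.le_ceil _).trans hx
  have h2 := ha x ((le_max_left _ _).trans h1)
  have h3 : 0 ≤ x := (le_max_right _ _).trans h1
  simp only [id, Real.norm_eq_abs, abs_of_nonneg h3] at h2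
  exact (le_abs_self _).trans h2

private theorem wl_adm {d e k : ℕ} (he : e = 2 ∨ e = 3) (hd : 4 ≤ d) (hk : 6 ≤ k) :
    ∃ k', k ≤ k' ∧ k' ≤ k + 6 ∧ Adm d e k' := by
  obtain ⟨k₁, h1, h2, h3⟩ : ∃ k₁, k ≤ k₁ ∧ k₁ ≤ k + 1 ∧ Even k₁ := by
    rcases Nat.even_or_odd k with h | h
    · exact ⟨k, le_rfl, by omega, h⟩
    · exact ⟨k + 1, by omega, le_rfl, h.add_one⟩
  obtain ⟨a, ha⟩ := h3
  have h4 : k₁ % (2 * d) < 2 * d := Nat.mod_lt _ (by omega)
  have h5 : Even (k₁ % (2 * d)) := by
    rw [Nat.even_iff, Nat.mod_mul_right_mod]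
    omega
  obtain ⟨b, hb⟩ := h5
  by_cases h6 : k₁ % (2 * d) = 0 ∨ 2 * e ≤ k₁ % (2 * d)
  · exact ⟨k₁, h1, by omega, ⟨a, ha⟩, by omega, h6⟩
  · push Not at h6
    refine ⟨k₁ + (2 * e - k₁ % (2 * d)), by omega, by omega, ⟨a + (e - b), by omega⟩,
      by omega, Or.inr ?_⟩
    have h7 : (k₁ + (2 * e - k₁ % (2 * d))) % (2 * d) = 2 * e := by
      rw [Nat.add_mod]
      have h8 : (2 * e - k₁ % (2 * d)) % (2 * d) = 2 * e - k₁ % (2 * d) :=
        Nat.mod_eq_of_lt (by omega)
      rw [h8, Nat.mod_eq_of_lt (by omega)]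
      omega
    omega

private theorem wl_cycle {n d X : ℕ} {L : ℝ} (hL : 0 ≤ L) {z : Vtx n d} {E : Finset (Fin d)}
    (hE : E.card = 2 ∨ E.card = 3) (hX1 : 1 ≤ X) (hXd : X ≤ d) (hd : 8 ≤ d)
    (hroom : Room (X + 3) z) :
    Reach (Real.exp (-L)) z (fun x => ∀ m, x m = X)
      (fun x => ∀ m, x m = X + if m ∈ E then 2 else 0)
      (Real.exp (-(3 * L) - 21 * Real.log d)) := by
  have hp0 : 0 ≤ Real.exp (-L) := (Real.exp_pos _).le
  have hp1 : Real.exp (-L) ≤ 1 := Real.exp_le_one_iff.2 (by linarith)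
  have hd0 : (0 : ℝ) < d := by
    have : 0 < d := by omega
    exact_mod_cast this
  have hd1 : (1 : ℝ) ≤ d := by
    have : 1 ≤ d := by omega
    exact_mod_cast this
  have hd8 : (8 : ℝ) ≤ d := by exact_mod_cast hd
  have hc := reach_cycle hp0 hp1 (z := z) (x₀ := fun _ : Fin d => X) (y := X + 2) hE
    (fun _ => hX1) (fun _ => by omega) (fun _ _ => le_rfl) (fun m => by
      have := hroom m; omega)
  refine reach_of_forall fun x₀ hx₀ => ?_
  have hx : x₀ = fun _ => X := funext hx₀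
  subst hx
  refine reach_mono (fun x hx => hx) (fun x hx m => by rw [hx]) ?_ hc
  -- the estimate
  have hv : (1 : ℝ) ≤ ∏ m : Fin d, ((fun _ : Fin d => X) m : ℝ) := by
    rw [Finset.prod_const]
    exact one_le_pow₀ (by exact_mod_cast hX1)
  set v := ∏ m : Fin d, ((fun _ : Fin d => X) m : ℝ) with hvdef
  have hy0 : (0 : ℝ) < ((X + 2 : ℕ) : ℝ) := by positivity
  have hyd : ((X + 2 : ℕ) : ℝ) ≤ d ^ 2 := by
    have h1 : ((X + 2 : ℕ) : ℝ) ≤ d + 2 := by
      push_cast
      have : (X : ℝ) ≤ d := by exact_mod_cast hXd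
      linarith
    nlinarith
  have hy3 : ((X + 2 : ℕ) : ℝ) ^ 3 ≤ d ^ 6 := by
    calc ((X + 2 : ℕ) : ℝ) ^ 3 ≤ ((d : ℝ) ^ 2) ^ 3 := pow_le_pow_left₀ hy0.le hyd 3
      _ = d ^ 6 := by ring
  have hq : Real.exp (-L - 7 * Real.log d) ≤ fch (Real.exp (-L)) v (X + 2) := by
    have hr0 : 0 ≤ Real.exp (-L) / d ^ 6 := by positivity
    have hr1 : Real.exp (-L) / d ^ 6 ≤ 1 := by
      rw [div_le_one (by positivity)]
      exact hp1.trans (one_le_pow₀ hd1)
    have hu : Real.exp (-L) / d ^ 6 ≤ 4 * Real.exp (-L) * v / ((X + 2 : ℕ) : ℝ) ^ 3 := by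
      rw [div_le_div_iff₀ (by positivity) (by positivity)]
      calc Real.exp (-L) * ((X + 2 : ℕ) : ℝ) ^ 3 ≤ Real.exp (-L) * d ^ 6 := by gcongr
        _ = 1 * Real.exp (-L) * 1 * d ^ 6 := by ring
        _ ≤ 4 * Real.exp (-L) * v * d ^ 6 := by gcongr; norm_num
    have h1 : Real.exp (-(4 * Real.exp (-L) * v / ((X + 2 : ℕ) : ℝ) ^ 3)) ≤
        Real.exp (-(Real.exp (-L) / d ^ 6)) := Real.exp_le_exp.2 (neg_le_neg hu)
    have h2 : Real.exp (-(Real.exp (-L) / d ^ 6)) ≤ 1 - Real.exp (-L) / d ^ 6 / 2 := by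
      set r := Real.exp (-L) / d ^ 6
      have h3 : Real.exp (-r) ≤ 1 / (1 + r) := by
        rw [Real.exp_neg, ← one_div]
        apply one_div_le_one_div_of_le (by linarith)
        have := Real.add_one_le_exp r
        linarith
      refine h3.trans ?_
      rw [div_le_iff₀ (by linarith)]
      nlinarith
    have h3 : Real.exp (-L - 7 * Real.log d) = Real.exp (-L) / d ^ 6 / d := by
      rw [sub_eq_add_neg, Real.exp_add, Real.exp_neg (7 * Real.log d)]
      have : Real.exp (7 * Real.log d) = (d : ℝ) ^ 7 := by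
        have h7 : (7 : ℝ) * Real.log d = ((7 : ℕ) : ℝ) * Real.log d := by norm_num
        rw [h7, Real.exp_nat_mul, Real.exp_log hd0]
      rw [this]
      field_simp
    unfold fch
    rw [h3]
    have h4 : Real.exp (-L) / d ^ 6 / d ≤ Real.exp (-L) / d ^ 6 / 2 := by
      apply div_le_div_of_nonneg_left hr0 (by norm_num) (by linarith)
    linarith
  have hq1 : fch (Real.exp (-L)) v (X + 2) ≤ 1 := by
    unfold fch
    linarith [Real.exp_pos (-(4 * Real.exp (-L) * v / ((X + 2 : ℕ) : ℝ) ^ 3))]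
  have hq0 : 0 ≤ fch (Real.exp (-L)) v (X + 2) := (Real.exp_pos _).le.trans hq
  have h5 : Real.exp (-(3 * L) - 21 * Real.log d) = Real.exp (-L - 7 * Real.log d) ^ 3 := by
    rw [← Real.exp_nat_mul]
    congr 1
    push_cast
    ring
  rw [h5]
  calc Real.exp (-L - 7 * Real.log d) ^ 3 ≤ fch (Real.exp (-L)) v (X + 2) ^ 3 :=
        pow_le_pow_left₀ (Real.exp_pos _).le hq 3
    _ ≤ fch (Real.exp (-L)) v (X + 2) ^ E.card :=
        pow_le_pow_of_le_one hq0 hq1 (by omega)


/-- the whole growth started at one point -/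
private theorem wl_chain (J : ℕ) (γ V : ℕ → ℝ) (hγ0 : ∀ i, 0 < γ i) (hγ : StrictMono γ)
    (ε : ℝ) (hε0 : 0 < ε) (hL : ∀ i < J, LAch ((1 + ε) / (4 * γ i ^ 2)) (V i))
    (ε₁ : ℝ) (hε₁ : 0 < ε₁) (hle : ε₁ ≤ ε) :
    ∃ C₁ C₂ : ℝ, 0 ≤ C₁ ∧ 0 ≤ C₂ ∧ ∃ D₀ : ℕ, ∀ (n d X k : ℕ) (L : ℝ) (z : Vtx n d)
      (E : Finset (Fin d)), D₀ ≤ d → (E.card = 2 ∨ E.card = 3) → Even (d - E.card) → Odd X →
      3 ≤ X → (X - 1) * d + 2 * E.card ≤ k → Adm d E.card k → k ≤ d ^ 2 →
      sfun d k + 6 * Real.log d ≤ L → L ≤ sfun d k + 8 * Real.log d →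
      Room (2 * lev d k + 9) z →
      ∀ (g : Finset (Vtx n d) → ℝ) (v : ℝ), 0 ≤ v →
        (∀ Z T, Cst z (fun _ => 2 * lev d k + 5) Z T → Ach (Real.exp (-L)) g Z T v) →
        Ach (Real.exp (-L)) g ∅ ∅ (Real.exp (-(7 * L) - 21 * Real.log d +
          ∑ t ∈ Finset.range k, (Bx d t - L / 2) +
          ∑ t ∈ Finset.Ico ((wlf J γ d X 0 - 1) * d) ((X - 1) * d), wlv J γ V d (lev d t) -
          2 * (ε₁ * k) - C₁ * d -
          (if wlf J γ d X 0 < X then C₂ * (d * Real.log d) else 0)) * v) := by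
  obtain ⟨C₁, hC₁, D₁, hbrun⟩ := reach_brun ε₁ hε₁
  obtain ⟨C₂, hC₂, D₂, hsl⟩ := wl_slices J γ V hγ0 hγ ε hε0 hL ε₁ hε₁ hle
  obtain ⟨D₃, htop⟩ := reach_top ε₁ 8 hε₁ (by norm_num)
  refine ⟨2 * C₁, J * C₂, by positivity, by positivity, D₁ + D₂ + D₃ + 64, ?_⟩
  intro n d X k L z E hd hE hpar hX hX3 hXk hadm hkd hL1 hL2 hroom g v hv hfin
  have hd8 : 8 ≤ d := by omega
  have hd1 : (1 : ℝ) ≤ d := by
    have : 1 ≤ d := by omega
    exact_mod_cast this
  have hlogd : 0 ≤ Real.log d := Real.log_natCast_nonneg d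
  have hL0 : 0 ≤ L := by
    have h1 := sfun_mono d (by omega) (Nat.zero_le k)
    rw [sfun_zero] at h1
    linarith
  have hp0 : 0 ≤ Real.exp (-L) := (Real.exp_pos _).le
  have hp1 : Real.exp (-L) ≤ 1 := Real.exp_le_one_iff.2 (by linarith)
  -- sizes
  have hXd : X ≤ d := by
    by_contra hcon
    push Not at hcon
    have h1 : d ≤ X - 1 := by omega
    have h2 := Nat.mul_le_mul_right d h1
    have h3 : d ^ 2 = d * d := by ring
    omega
  have hXlev : X ≤ lev d k := by
    unfold lev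
    have : X - 1 ≤ k / d := (Nat.le_div_iff_mul_le (by omega)).2 (by omega)
    omega
  have hlev : 1 ≤ lev d k := Nat.le_add_left 1 _
  set f := wlf J γ d X with hf
  have hf0 : f 0 ≤ X := wlf_le _
  have hfodd : Odd (f 0) := wlf_odd hX 0
  have hf3 : 3 ≤ f 0 := by
    rw [hf]
    unfold wlf
    split_ifs with h
    · refine le_min ?_ hX3
      unfold wlo
      have h1 : 0 < γ 0 * Real.sqrt d / 2 := by
        have := hγ0 0
        have : 0 < Real.sqrt d := Real.sqrt_pos.2 (by linarith)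
        positivity
      have h2 := Nat.ceil_pos.2 h1
      omega
    · exact hX3
  have hfJ : f J = X := by
    rw [hf]
    unfold wlf
    rw [if_neg (by omega)]
  have hmulf : (f 0 - 1) * d ≤ (X - 1) * d := Nat.mul_le_mul_right d (by omega)
  have hroomle : ∀ w, w ≤ 2 * lev d k + 9 → Room w z := fun w hw m => by
    have := hroom m
    omega
  -- balanced part up to the first slice
  have hsf : sfun d ((f 0 - 1) * d) + 6 * Real.log d ≤ L := by
    have := sfun_mono d (by omega) (hmulf.trans (by omega : (X - 1) * d ≤ k))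
    linarith
  have h2d : 2 * d ≤ (f 0 - 1) * d := Nat.mul_le_mul_right d (by omega)
  have hadm0 : Adm d E.card ((f 0 - 1) * d) := by
    obtain ⟨a, ha⟩ := hfodd
    have e1 : f 0 - 1 = 2 * a := by omega
    refine ⟨⟨a * d, by rw [e1]; ring⟩, by omega, Or.inl ?_⟩
    rw [e1, show 2 * a * d = a * (2 * d) by ring]
    exact Nat.mul_mod_left a (2 * d)
  have hlevle : lev d ((f 0 - 1) * d) ≤ lev d k := by
    unfold lev
    have := Nat.div_le_div_right (c := d) (hmulf.trans (by omega : (X - 1) * d ≤ k))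
    omega
  have hb1 := hbrun n d 1 ((f 0 - 1) * d) L z E (by omega) hE hpar odd_one (by omega) hadm0
    ((hmulf.trans (by omega : (X - 1) * d ≤ k)).trans hkd) hsf (hroomle _ (by omega))
  have hb1' : Reach (Real.exp (-L)) z (fun x => ∀ m, x m = 1 + if m ∈ E then 2 else 0)
      (fun x => ∀ m, x m = f 0) _ :=
    reach_mono (fun x hx => hx)
      (fun x hx => bst_balanced hE (by omega) hfodd hf3 hx) le_rfl hb1
  -- the slices
  have hs := hsl n d X k L z (by omega) hX hXd (by omega) hkd hL1 (hroomle _ (by omega)) J le_rfl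
  rw [← hf, hfJ] at hs
  -- the cycle
  have hc := wl_cycle hL0 (z := z) hE (by omega : 1 ≤ X) hXd hd8 (hroomle _ (by omega))
  -- balanced part
  have hb2 := hbrun n d X k L z E (by omega) hE hpar hX hXk hadm hkd hL1
    (hroomle _ (by omega))
  -- the end
  have hdk : d ≤ k := by omega
  have ht := htop n d k (2 * lev d k + 5) L z E (by omega) hE hpar hadm hdk hkd hL0 hL2
    ⟨lev d k + 2, by ring⟩ (by omega) (by omega) (hroomle _ (by omega))
  have hall := reach_trans (Real.exp_pos _).le (reach_trans (Real.exp_pos _).le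
    (reach_trans (Real.exp_pos _).le (reach_trans (Real.exp_pos _).le hb1' hs) hc) hb2) ht
  rw [← Real.exp_add, ← Real.exp_add, ← Real.exp_add, ← Real.exp_add] at hall
  have hstart := ach_start hp0 hp1 (z := z) (hroomle 5 (by omega)) hE (g := g)
    (v := Real.exp (-(7 * L) + (((E.card + 1 : ℕ) : ℝ) * L) - 21 * Real.log d +
          ∑ t ∈ Finset.range k, (Bx d t - L / 2) +
          ∑ t ∈ Finset.Ico ((f 0 - 1) * d) ((X - 1) * d), wlv J γ V d (lev d t) -
          2 * (ε₁ * k) - 2 * C₁ * d -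
          (if f 0 < X then J * C₂ * (d * Real.log d) else 0)) * v) (by positivity) ?_
  · rw [← mul_assoc, ← Real.exp_nat_mul, ← Real.exp_add] at hstart
    refine cast (congrArg (fun r => Ach (Real.exp (-L)) g ∅ ∅ (Real.exp r * v)) ?_) hstart
    ring
  · intro Z T hZT
    refine (reach_mono (P₀' := fun x => ∀ m, x m = 1 + if m ∈ E then 2 else 0)
      (P₁' := fun x => ∀ m, x m = 2 * lev d k + 5) (fun x hx => hx) (fun x hx => hx) ?_ hall)
      g v hv (fun x Z T hx hc => ?_) (fun m => 1 + if m ∈ E then 2 else 0) Z T (fun m => rfl) hZT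
    · apply Real.exp_le_exp.2
      have hcard : ((E.card + 1 : ℕ) : ℝ) ≤ 4 := by
        have : E.card + 1 ≤ 4 := by omega
        exact_mod_cast this
      have hcL : ((E.card + 1 : ℕ) : ℝ) * L ≤ 4 * L := mul_le_mul_of_nonneg_right hcard hL0
      have e0 : (1 - 1) * d = 0 := by simp
      rw [e0]
      have hXk' : (X - 1) * d ≤ k := by omega
      have hsum1 := Finset.sum_Ico_consecutive (fun t => Bx d t - L / 2)
        (Nat.zero_le ((f 0 - 1) * d)) hmulf
      have hsum2 := Finset.sum_Ico_consecutive (fun t => Bx d t - L / 2)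
        (Nat.zero_le ((X - 1) * d)) hXk'
      have hsum3 : ∑ t ∈ Finset.Ico ((f 0 - 1) * d) ((X - 1) * d),
          (Bx d t - L / 2 + wlv J γ V d (lev d t) - ε₁) =
          ∑ t ∈ Finset.Ico ((f 0 - 1) * d) ((X - 1) * d), (Bx d t - L / 2) +
          ∑ t ∈ Finset.Ico ((f 0 - 1) * d) ((X - 1) * d), wlv J γ V d (lev d t) -
          ((((X - 1) * d : ℕ) : ℝ) - (((f 0 - 1) * d : ℕ) : ℝ)) * ε₁ := by
        rw [Finset.sum_sub_distrib, Finset.sum_add_distrib, Finset.sum_const, Nat.card_Ico,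
          nsmul_eq_mul, Nat.cast_sub hmulf]
      rw [hsum3, Finset.range_eq_Ico, ← hsum2, ← hsum1]
      have hite : (if f 0 < X then (J : ℝ) * (C₂ * (d * Real.log d)) else 0) =
          (if f 0 < X then J * C₂ * (d * Real.log d) else 0) := by
        split_ifs
        · ring
        · rfl
      rw [hite]
      push_cast at hcL ⊢
      linarith
    · have : x = fun _ => 2 * lev d k + 5 := funext hx
      rw [this] at hc
      exact hfin Z T hc


/-- the comparison of the exponents -/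
private theorem wl_final {J : ℕ} {γ V : ℕ → ℝ} {ε C₁ C₂ : ℝ} (hγ0 : ∀ i, 0 < γ i)
    (hγ : StrictMono γ) {d k k' X : ℕ} {L ln : ℝ} (hd : 64 ≤ d) (hε0 : 0 < ε)
    (h1 : k ≤ k') (h2 : k' ≤ k + 6) (hk6 : 6 ≤ k) (hkd : k + 6 ≤ d ^ 2)
    (hXk : (X - 1) * d ≤ k') (hXk2 : k' ≤ (X - 1) * d + 4 * d)
    (hL1 : sfun d k + 7 * Real.log d ≤ L) (hL2 : L ≤ sfun d k + 15 / 2 * Real.log d)
    (hN1 : 6 * sfun d k ≤ ε / 8 * k)
    (hN2 : (96 + (10 * (∑ i ∈ Finset.range J, |V i|) + 4 * J * (∑ i ∈ Finset.range J, |V i|) +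
      C₁)) * d ≤ ε / 8 * k)
    (hN3 : (if wlf J γ d X 0 < X then C₂ * (d * Real.log d) else 0) ≤ ε / 8 * k)
    (hmain : ((k : ℝ) / 2 + 1) * L + ε * k ≤ ln +
        ∑ t ∈ Finset.range k, (Bx d t + svalL J γ V d (lev d t))) :
    ε / 16 * k' ≤ ln + (-(7 * L) - 21 * Real.log d +
          ∑ t ∈ Finset.range k', (Bx d t - L / 2) +
          ∑ t ∈ Finset.Ico ((wlf J γ d X 0 - 1) * d) ((X - 1) * d), wlv J γ V d (lev d t) -
          2 * (ε / 16 * k') - C₁ * d -
          (if wlf J γ d X 0 < X then C₂ * (d * Real.log d) else 0)) := by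
  set B := ∑ i ∈ Finset.range J, |V i| with hB
  have hB0 : 0 ≤ B := Finset.sum_nonneg fun i _ => abs_nonneg _
  have hd0 : (0 : ℝ) < d := by
    have : 0 < d := by omega
    exact_mod_cast this
  have hd1 : (1 : ℝ) ≤ d := by
    have : 1 ≤ d := by omega
    exact_mod_cast this
  have hlogd : 0 ≤ Real.log d := Real.log_natCast_nonneg d
  have hlogdd : Real.log d ≤ d := (Real.log_le_sub_one_of_pos hd0).trans (by linarith)
  have hfle : wlf J γ d X 0 ≤ X := wlf_le _
  have hmulf : (wlf J γ d X 0 - 1) * d ≤ (X - 1) * d := Nat.mul_le_mul_right d (by omega)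
  -- first sum
  have hS1 : ∑ t ∈ Finset.range k', (Bx d t - L / 2) ≥
      ∑ t ∈ Finset.range k, (Bx d t - L / 2) - 30 * Real.log d := by
    rw [← Finset.sum_range_add_sum_Ico _ h1]
    have h3 : ∑ t ∈ Finset.Ico k k', (Bx d t - L / 2) ≥
        ∑ t ∈ Finset.Ico k k', (-(5 * Real.log d)) := by
      refine Finset.sum_le_sum fun t ht => ?_
      rw [Finset.mem_Ico] at ht
      have h4 : lev d t ≤ d := by
        have : t / d < d := (Nat.div_lt_iff_lt_mul (by omega)).2 (by nlinarith)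
        unfold lev
        omega
      have h5 : (0 : ℝ) < lev d t := by
        have : 0 < lev d t := Nat.succ_pos _
        exact_mod_cast this
      have h6 : Real.log (1 / d) ≤ Real.log (4 * (d : ℝ) ^ 2 / (Real.exp 1 *
          (lev d t : ℝ) ^ 3)) := by
        apply Real.log_le_log (by positivity)
        rw [div_le_div_iff₀ hd0 (by positivity)]
        have h7 : (lev d t : ℝ) ^ 3 ≤ d ^ 3 := pow_le_pow_left₀ h5.le (by exact_mod_cast h4) 3
        have h8 : Real.exp 1 ≤ 4 := by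
          have := Real.exp_one_lt_d9
          linarith
        calc 1 * (Real.exp 1 * (lev d t : ℝ) ^ 3) ≤ 1 * (4 * (d : ℝ) ^ 3) := by gcongr
          _ = 4 * (d : ℝ) ^ 2 * d := by ring
      rw [one_div, Real.log_inv] at h6
      have h9 := sfun_mono d (by omega) ht.1
      unfold Bx
      linarith
    have h10 : ∑ t ∈ Finset.Ico k k', (-(5 * Real.log d)) ≥ -(30 * Real.log d) := by
      rw [Finset.sum_const, Nat.card_Ico, nsmul_eq_mul]
      have h11 : ((k' - k : ℕ) : ℝ) ≤ 6 := by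
        have : k' - k ≤ 6 := by omega
        exact_mod_cast this
      nlinarith
    linarith
  -- second sum
  have hS2 : ∑ t ∈ Finset.Ico ((wlf J γ d X 0 - 1) * d) ((X - 1) * d), wlv J γ V d (lev d t) ≥
      ∑ t ∈ Finset.range k, svalL J γ V d (lev d t) - 4 * J * B * d - 6 * B - 4 * d * B := by
    have hw := fun t => abs_le.1 (wlv_abs (J := J) (γ := γ) (V := V) d (lev d t))
    have h3 := wl_compare (J := J) (γ := γ) (V := V) (d := d) (by omega) (fun i => (hγ0 i).le) k
    have h4 : ∑ t ∈ Finset.range k', wlv J γ V d (lev d t) =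
        ∑ t ∈ Finset.range k, wlv J γ V d (lev d t) +
        ∑ t ∈ Finset.Ico k k', wlv J γ V d (lev d t) :=
      (Finset.sum_range_add_sum_Ico _ h1).symm
    have h5 : ∑ t ∈ Finset.Ico k k', wlv J γ V d (lev d t) ≥ -(6 * B) := by
      have h6 : ∑ t ∈ Finset.Ico k k', wlv J γ V d (lev d t) ≥
          ∑ t ∈ Finset.Ico k k', (-B) := Finset.sum_le_sum fun t _ => (hw t).1
      have h7 : ∑ t ∈ Finset.Ico k k', (-B) ≥ -(6 * B) := by
        rw [Finset.sum_const, Nat.card_Ico, nsmul_eq_mul]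
        have h11 : ((k' - k : ℕ) : ℝ) ≤ 6 := by
          have : k' - k ≤ 6 := by omega
          exact_mod_cast this
        nlinarith
      linarith
    have h8 : ∑ t ∈ Finset.range k', wlv J γ V d (lev d t) =
        ∑ t ∈ Finset.range ((X - 1) * d), wlv J γ V d (lev d t) +
        ∑ t ∈ Finset.Ico ((X - 1) * d) k', wlv J γ V d (lev d t) :=
      (Finset.sum_range_add_sum_Ico _ hXk).symm
    have h9 : ∑ t ∈ Finset.Ico ((X - 1) * d) k', wlv J γ V d (lev d t) ≤ 4 * d * B := by
      have h6 : ∑ t ∈ Finset.Ico ((X - 1) * d) k', wlv J γ V d (lev d t) ≤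
          ∑ t ∈ Finset.Ico ((X - 1) * d) k', B := Finset.sum_le_sum fun t _ => (hw t).2
      refine h6.trans ?_
      rw [Finset.sum_const, Nat.card_Ico, nsmul_eq_mul]
      refine mul_le_mul_of_nonneg_right ?_ hB0
      have : k' - (X - 1) * d ≤ 4 * d := by omega
      exact_mod_cast this
    have h10 : ∑ t ∈ Finset.range ((X - 1) * d), wlv J γ V d (lev d t) =
        ∑ t ∈ Finset.range ((wlf J γ d X 0 - 1) * d), wlv J γ V d (lev d t) +
        ∑ t ∈ Finset.Ico ((wlf J γ d X 0 - 1) * d) ((X - 1) * d), wlv J γ V d (lev d t) :=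
      (Finset.sum_range_add_sum_Ico _ hmulf).symm
    have h11 : ∑ t ∈ Finset.range ((wlf J γ d X 0 - 1) * d), wlv J γ V d (lev d t) = 0 := by
      refine Finset.sum_eq_zero fun t ht => ?_
      rw [Finset.mem_range] at ht
      refine wlv_zero hγ.monotone fun hJ => ?_
      have h12 : t / d < wlf J γ d X 0 - 1 := (Nat.div_lt_iff_lt_mul (by omega)).2 ht
      have h13 : wlf J γ d X 0 ≤ wlo γ d 0 := by
        unfold wlf
        rw [if_pos hJ]
        exact min_le_left _ _
      have h14 : ∀ q a b : ℕ, q < a - 1 → a ≤ b → q + 1 < b := fun q a b _ _ => by omega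
      exact h14 _ _ _ h12 h13
    linarith
  -- the main inequality
  have hS3 : ∑ t ∈ Finset.range k, (Bx d t - L / 2) =
      ∑ t ∈ Finset.range k, Bx d t - k * (L / 2) := by
    rw [Finset.sum_sub_distrib, Finset.sum_const, Finset.card_range, nsmul_eq_mul]
  rw [Finset.sum_add_distrib] at hmain
  have hk1 : (k' : ℝ) ≤ k + 6 := by exact_mod_cast h2
  have hk2 : (6 : ℝ) ≤ k := by exact_mod_cast hk6
  have h6B : 6 * B ≤ 6 * B * d := le_mul_of_one_le_right (by positivity) hd1
  have hk3 : 3 * (ε / 16 * k') ≤ 6 / 16 * (ε * k) := by nlinarith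
  have hεk : 0 ≤ ε * k := by positivity
  have hexp : (96 + (10 * B + 4 * J * B + C₁)) * d = 96 * d + 10 * B * d + 4 * J * B * d +
      C₁ * d := by ring
  rw [hexp] at hN2
  have e1 : ((k : ℝ) / 2 + 1) * L = k * (L / 2) + L := by ring
  rw [e1] at hmain
  nlinarith

theorem wide_lower_slices (J : ℕ) (γ V : ℕ → ℝ) (hγ0 : ∀ i, 0 < γ i) (hγ : StrictMono γ)
    (ε : ℝ) (hε0 : 0 < ε) (hL : ∀ i < J, LAch ((1 + ε) / (4 * γ i ^ 2)) (V i)) :
    ∃ A D₀ : ℕ, ∀ (n d k : ℕ) (L : ℝ), D₀ ≤ d → A * d ≤ k → k + 6 ≤ d ^ 2 →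
      sfun d k + 7 * Real.log d ≤ L → L ≤ sfun d k + 15 / 2 * Real.log d →
      (k : ℝ) ≤ 15 * Real.log n → Real.log n ≤ (d : ℝ) ^ 3 →
      ((k : ℝ) / 2 + 1) * L + ε * k ≤ d * Real.log n +
        ∑ t ∈ Finset.range k, (Bx d t + svalL J γ V d (lev d t)) →
      1 / 2 ≤ percProb n d 2 (Real.exp (-L)) := by
  set B := ∑ i ∈ Finset.range J, |V i| with hB
  have hB0 : 0 ≤ B := Finset.sum_nonneg fun i _ => abs_nonneg _
  obtain ⟨C₁, C₂, hC₁, hC₂, D₁, hchain⟩ := wl_chain J γ V hγ0 hγ ε hε0 hL (ε / 16)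
    (by positivity) (by linarith)
  obtain ⟨A₄, D₄, hperc⟩ := perc_of_ach (ε / 16) (by positivity)
  have hγ00 := hγ0 0
  obtain ⟨N₁, hN₁⟩ := wl_log (ε / 144) (by positivity)
  obtain ⟨N₂, hN₂⟩ := wl_log (ε * γ 0 / (64 * (C₂ + 1))) (by positivity)
  refine ⟨A₄ + N₁ + 100 + ⌈(96 + (10 * B + 4 * J * B + C₁)) * 8 / ε⌉₊,
    D₁ + D₄ + N₂ ^ 2 + 64, ?_⟩
  intro n d k L hd hAk hkd hL1 hL2 hkn hnd hmain
  have hd0 : (0 : ℝ) < d := by
    have : 0 < d := by omega
    exact_mod_cast this
  have hd1 : (1 : ℝ) ≤ d := by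
    have : 1 ≤ d := by omega
    exact_mod_cast this
  have hlogd : 0 ≤ Real.log d := Real.log_natCast_nonneg d
  have hlogdd : Real.log d ≤ d := (Real.log_le_sub_one_of_pos hd0).trans (by linarith)
  have hk100 : 100 * d ≤ k := (Nat.mul_le_mul_right d (by omega)).trans hAk
  have hkA4 : A₄ * d ≤ k := (Nat.mul_le_mul_right d (by omega)).trans hAk
  have hkN1 : N₁ * d ≤ k := (Nat.mul_le_mul_right d (by omega)).trans hAk
  obtain ⟨e, he, hpar⟩ : ∃ e, (e = 2 ∨ e = 3) ∧ Even (d - e) := by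
    rcases Nat.even_or_odd d with ⟨a, ha⟩ | ⟨a, ha⟩
    · exact ⟨2, Or.inl rfl, a - 1, by omega⟩
    · exact ⟨3, Or.inr rfl, a - 1, by omega⟩
  obtain ⟨E, hEc⟩ : ∃ E : Finset (Fin d), E.card = e := by
    obtain ⟨E, -, hE⟩ := Finset.exists_subset_card_eq (s := (Finset.univ : Finset (Fin d)))
      (n := e) (by rw [Finset.card_univ, Fintype.card_fin]; omega)
    exact ⟨E, hE⟩
  rw [← hEc] at he hpar
  obtain ⟨k', h1, h2, hadm⟩ := wl_adm (d := d) (e := E.card) (k := k) he (by omega) (by omega)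
  obtain ⟨X, hXdef⟩ : ∃ X, X = 2 * ((k' - 2 * E.card) / (2 * d)) + 1 := ⟨_, rfl⟩
  have hXodd : Odd X := ⟨_, hXdef⟩
  have hX1 : (X - 1) * d = 2 * d * ((k' - 2 * E.card) / (2 * d)) := by
    rw [hXdef, Nat.add_sub_cancel]
    ring
  have hX2 : 2 * d * ((k' - 2 * E.card) / (2 * d)) + (k' - 2 * E.card) % (2 * d) =
    k' - 2 * E.card := Nat.div_add_mod _ _
  have hX3 : (k' - 2 * E.card) % (2 * d) < 2 * d := Nat.mod_lt _ (by omega)
  have hXk : (X - 1) * d + 2 * E.card ≤ k' := by omega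
  have hXk2 : k' ≤ (X - 1) * d + 4 * d := by omega
  have hXge : 3 ≤ X := by
    have : 1 ≤ (k' - 2 * E.card) / (2 * d) := by
      rw [Nat.one_le_div_iff (by omega)]
      omega
    omega
  have hk'd : k' ≤ d ^ 2 := by omega
  have hsk : sfun d k ≤ sfun d k' := sfun_mono d (by omega) h1
  have hsk' : sfun d k' ≤ sfun d k + Real.log d := by
    have h3 := sfun_mono d (by omega) h2
    have h4 := sfun_add_le d k 6 (by omega)
    have h5 : ((6 : ℕ) : ℝ) * Real.log 2 ≤ Real.log d := by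
      rw [← Real.log_pow]
      apply Real.log_le_log (by positivity)
      have : 64 ≤ d := by omega
      have : (64 : ℝ) ≤ d := by exact_mod_cast this
      norm_num
      linarith
    linarith
  have hk1 : (k' : ℝ) ≤ k + 6 := by exact_mod_cast h2
  have hk100' : (100 : ℝ) ≤ k := by
    have : 100 ≤ k := by omega
    exact_mod_cast this
  refine hperc n d k' L (-(7 * L) - 21 * Real.log d +
          ∑ t ∈ Finset.range k', (Bx d t - L / 2) +
          ∑ t ∈ Finset.Ico ((wlf J γ d X 0 - 1) * d) ((X - 1) * d), wlv J γ V d (lev d t) -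
          2 * (ε / 16 * k') - C₁ * d -
          (if wlf J γ d X 0 < X then C₂ * (d * Real.log d) else 0)) (by omega)
    (hkA4.trans h1) hk'd (by linarith) (by linarith) (by linarith) hnd ?_ ?_
  · intro z hz g v hv hg
    exact hchain n d X k' L z E (by omega) he hpar hXodd hXge hXk hadm hk'd (by linarith)
      (by linarith) hz g v hv hg
  · refine wl_final hγ0 hγ (by omega) hε0 h1 h2 (by omega) hkd (by omega) hXk2 hL1 hL2
      ?_ ?_ ?_ hmain
    · -- the entropy term
      have h3 : k ≤ (k / d + 1) * d := by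
        have h4 := Nat.div_add_mod k d
        have h5 : k % d < d := Nat.mod_lt _ (by omega)
        nlinarith
      have h6 := Q_sfun_le (M := k / d + 1) (by omega : 1 ≤ d) h3
      have h7 : N₁ ≤ k / d := (Nat.le_div_iff_mul_le (by omega)).2 hkN1
      have h8 : 100 ≤ k / d := (Nat.le_div_iff_mul_le (by omega)).2 hk100
      have h7' : (N₁ : ℝ) ≤ ((k / d : ℕ) : ℝ) := by exact_mod_cast h7
      have h8' : (100 : ℝ) ≤ ((k / d : ℕ) : ℝ) := by exact_mod_cast h8
      have h9 := hN₁ (((k / d + 1 : ℕ) : ℝ) + 1) (by push_cast; linarith)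
      have h10 : ((k / d : ℕ) : ℝ) * d ≤ k := by
        have := Nat.div_mul_le_self k d
        exact_mod_cast this
      have h11 : (d : ℝ) * Real.log (((k / d + 1 : ℕ) : ℝ) + 1) ≤
          d * (ε / 144 * (3 * ((k / d : ℕ) : ℝ))) := by
        refine mul_le_mul_of_nonneg_left (h9.trans ?_) hd0.le
        refine mul_le_mul_of_nonneg_left ?_ (by positivity)
        push_cast
        linarith
      have h12 : ε / 48 * (((k / d : ℕ) : ℝ) * d) ≤ ε / 48 * k :=
        mul_le_mul_of_nonneg_left h10 (by positivity)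
      have h13 : (d : ℝ) * (ε / 144 * (3 * ((k / d : ℕ) : ℝ))) =
          ε / 48 * (((k / d : ℕ) : ℝ) * d) := by ring
      linarith
    · have h3 := Nat.le_ceil ((96 + (10 * B + 4 * J * B + C₁)) * 8 / ε)
      have h4 : ((⌈(96 + (10 * B + 4 * J * B + C₁)) * 8 / ε⌉₊ : ℕ) : ℝ) * d ≤ k := by
        have h5 : ⌈(96 + (10 * B + 4 * J * B + C₁)) * 8 / ε⌉₊ * d ≤ k :=
          (Nat.mul_le_mul_right d (by omega)).trans hAk
        exact_mod_cast h5
      have h6 := mul_le_mul_of_nonneg_right h3 hd0.le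
      have h7 : (96 + (10 * B + 4 * J * B + C₁)) * 8 / ε * d ≤ k := h6.trans h4
      rw [div_mul_eq_mul_div, div_le_iff₀ hε0] at h7
      linarith
    · split_ifs with hif
      · -- there is a slice
        have hJ : 0 < J := by
          by_contra hcon
          have : J = 0 := by omega
          subst this
          unfold wlf at hif
          simp at hif
        have hlo : wlo γ d 0 < X := by
          unfold wlf at hif
          rw [if_pos hJ] at hif
          rcases min_lt_iff.1 hif with h | h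
          · exact h
          · omega
        have h3 := wlo_ge γ d 0
        have h4 : ((wlo γ d 0 : ℕ) : ℝ) ≤ ((X - 1 : ℕ) : ℝ) := by
          have : wlo γ d 0 ≤ X - 1 := by omega
          exact_mod_cast this
        have h5 : γ 0 * Real.sqrt d * d ≤ k' := by
          have h6 : ((X - 1 : ℕ) : ℝ) * d ≤ k' := by
            have : (X - 1) * d ≤ k' := by omega
            exact_mod_cast this
          have h7 : γ 0 * Real.sqrt d * d ≤ ((X - 1 : ℕ) : ℝ) * d :=
            mul_le_mul_of_nonneg_right (by linarith) hd0.le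
          linarith
        have h8 : (N₂ : ℝ) ≤ Real.sqrt d := by
          apply Real.le_sqrt_of_sq_le
          have : N₂ ^ 2 ≤ d := by omega
          exact_mod_cast this
        have h9 := hN₂ _ h8
        rw [Real.log_sqrt hd0.le] at h9
        have h10 : C₂ * Real.log d ≤ ε * γ 0 / 32 * Real.sqrt d * (C₂ / (C₂ + 1)) := by
          have h11 := mul_le_mul_of_nonneg_left h9 hC₂
          have h12 : C₂ * (ε * γ 0 / (64 * (C₂ + 1)) * Real.sqrt d) =
            ε * γ 0 / 64 * Real.sqrt d * (C₂ / (C₂ + 1)) := by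
            field_simp
          linarith
        have h13 : C₂ / (C₂ + 1) ≤ 1 := (div_le_one (by linarith)).2 (by linarith)
        have h14 : ε * γ 0 / 32 * Real.sqrt d * (C₂ / (C₂ + 1)) ≤
            ε * γ 0 / 32 * Real.sqrt d * 1 :=
          mul_le_mul_of_nonneg_left h13 (by positivity)
        have h15 : C₂ * Real.log d * d ≤ ε * γ 0 / 32 * Real.sqrt d * d :=
          mul_le_mul_of_nonneg_right (by linarith) hd0.le
        have h16 : ε / 32 * (γ 0 * Real.sqrt d * d) ≤ ε / 32 * k' :=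
          mul_le_mul_of_nonneg_left h5 (by positivity)
        have h17 : ε / 32 * k' ≤ ε / 32 * (2 * k) :=
          mul_le_mul_of_nonneg_left (by linarith) (by positivity)
        have h18 : ε * γ 0 / 32 * Real.sqrt d * d = ε / 32 * (γ 0 * Real.sqrt d * d) := by ring
        have h19 : 0 ≤ ε * k := by positivity
        have h20 : C₂ * (d * Real.log d) = C₂ * Real.log d * d := by ring
        rw [h20]
        linarith
      · positivity

end Pool.Agent.Lib.MP_8501c9_pr.Wide
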