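import Pool.Agent.Lib.MP_8501c9_pr.Wide.SumBx
import Pool.Agent.Lib.MP_8501c9_pr.Wide.AoptW
import Pool.Agent.Lib.MP_8501c9_pr.Wide.WideLower
import Pool.Agent.Lib.MP_8501c9_pr.Basic

/-!
# The upper bound of the critical probability for `1 ≪ a ≪ d`
-/

set_option autoImplicit false
open Set

namespace Pool.Agent.Lib.MP_8501c9_pr.Wide

open Pool.Agent.Lib.MP_8501c9_pr Pool.Agent.Lib.MP_8501c9_pr.Mid

theorem PcUpper_large (K : ℝ) : ∃ D : ℕ, ∀ d : ℕ, D ≤ d →
    K ≤ Real.log d ∧ K * Real.log d ^ 2 ≤ d ∧ 4 ≤ d := by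
  have h1 : Filter.Tendsto (fun d : ℕ => Real.log d) Filter.atTop Filter.atTop :=
    Real.tendsto_log_atTop.comp tendsto_natCast_atTop_atTop
  have h2 : ∀ᶠ d : ℕ in Filter.atTop, K * Real.log d ^ 2 ≤ d := by
    have h3 : (fun x : ℝ => K * Real.log x ^ 2) =o[Filter.atTop] (fun x : ℝ => x) :=
      (Real.isLittleO_pow_log_id_atTop (n := 2)).const_mul_left K
    have h4 := (h3.bound one_pos).and (Filter.eventually_ge_atTop (0 : ℝ))
    have h5 := tendsto_natCast_atTop_atTop.eventually h4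
    filter_upwards [h5] with d hd
    have h6 := hd.1
    rw [Real.norm_eq_abs, Real.norm_eq_abs, abs_of_nonneg hd.2, one_mul] at h6
    exact (le_abs_self _).trans h6
  obtain ⟨D, hD⟩ := Filter.eventually_atTop.1
    (((h1.eventually_ge_atTop K).and h2).and (Filter.eventually_ge_atTop 4))
  exact ⟨D, fun d hd => ⟨(hD d hd).1.1, (hD d hd).1.2, (hD d hd).2⟩⟩

theorem PcUpper_sfun_succ {d : ℕ} (hd : 1 ≤ d) (k : ℕ) :
    sfun d (k + 1) ≤ sfun d k + Real.log 2 := by
  have hd0 : (0 : ℝ) < d := by exact_mod_cast hd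
  unfold sfun
  have h1 := vfun_sub_le ((k : ℝ) / d) (((k + 1 : ℕ) : ℝ) / d)
  have h2 : ((k + 1 : ℕ) : ℝ) / d - (k : ℝ) / d = 1 / d := by
    push_cast
    ring
  rw [h2] at h1
  have h3 : 1 / (d : ℝ) * vslope ⌊(k : ℝ) / d⌋₊ ≤ 1 / d * Real.log 2 :=
    mul_le_mul_of_nonneg_left (vslope_le_log_two _) (by positivity)
  have h4 : (d : ℝ) * (vfun (((k + 1 : ℕ) : ℝ) / d) - vfun ((k : ℝ) / d)) ≤
      d * (1 / d * Real.log 2) := mul_le_mul_of_nonneg_left (h1.trans h3) hd0.le
  have h5 : (d : ℝ) * (1 / d * Real.log 2) = Real.log 2 := by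
    field_simp
  rw [h5] at h4
  linarith

/-- the critical size -/
theorem PcUpper_exists_k {d : ℕ} (hd : 4 ≤ d) {L : ℝ} (h0 : 7 * Real.log d ≤ L)
    (hx : 2 * Real.log 2 ≤ Real.log d) : ∃ k : ℕ,
    sfun d k + 7 * Real.log d ≤ L ∧ L ≤ sfun d k + 15 / 2 * Real.log d := by
  classical
  have hex : ∃ k : ℕ, L < sfun d (k + 1) + 7 * Real.log d := by
    obtain ⟨m, hm⟩ := exists_nat_gt (Real.exp L)
    have hm1 : 1 ≤ m := by
      have : (0 : ℝ) < m := (Real.exp_pos L).trans hm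
      exact_mod_cast this
    refine ⟨d * m - 1, ?_⟩
    have h1 : d * m - 1 + 1 = d * m := Nat.sub_add_cancel (Nat.mul_pos (by omega) hm1)
    rw [h1]
    have hd0 : (0 : ℝ) < d := by
      have : 0 < d := by omega
      exact_mod_cast this
    have h2 : sfun d (d * m) = d * Real.log (m + 1) := by
      unfold sfun
      have : ((d * m : ℕ) : ℝ) / d = (m : ℕ) := by
        push_cast
        field_simp
      rw [this, vfun_nat]
    rw [h2]
    have h3 : L < Real.log (m + 1) := by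
      rw [Real.lt_log_iff_exp_lt (by positivity)]
      linarith
    have h4 : 0 ≤ Real.log d := Real.log_nonneg (by
      have : 1 ≤ d := by omega
      exact_mod_cast this)
    have h5 : (1 : ℝ) ≤ d := by
      have : 1 ≤ d := by omega
      exact_mod_cast this
    have h6 : 0 ≤ Real.log ((m : ℝ) + 1) := Real.log_nonneg (by
      have : (0 : ℝ) ≤ m := Nat.cast_nonneg m
      linarith)
    have h7 := le_mul_of_one_le_left h6 h5
    linarith
  refine ⟨Nat.find hex, ?_, ?_⟩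
  · rcases Nat.eq_zero_or_pos (Nat.find hex) with h | h
    · rw [h]
      have : sfun d 0 = 0 := by
        unfold sfun
        simp [vfun_zero]
      rw [this]
      linarith
    · have h1 := Nat.find_min hex (Nat.sub_lt h one_pos)
      push Not at h1
      rw [Nat.sub_add_cancel (show 1 ≤ Nat.find hex from h)] at h1
      exact h1
  · have h1 := Nat.find_spec hex
    have h2 := PcUpper_sfun_succ (d := d) (by omega) (Nat.find hex)
    linarith

theorem PcUpper_avW_le (W : ℝ → ℝ) {C : ℝ} (hC : ∀ g, |W g| ≤ C) {a : ℝ} (ha : 0 < a) (d : ℕ) :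
    |avW W a d| ≤ C := by
  unfold avW
  rw [abs_div, abs_of_pos ha, div_le_iff₀ ha]
  have h1 := intervalIntegral.norm_integral_le_of_norm_le_const (a := 0) (b := a)
    (f := fun u => W (u / Real.sqrt d)) (C := C) (fun x _ => hC _)
  rw [Real.norm_eq_abs, sub_zero, abs_of_pos ha] at h1
  exact h1

/-- the computation at the end -/
theorem PcUpper_calc {d k a α x ℓ ε e C₁ C₂ C₃ b I Q av IW SB SV L n la lα : ℝ}
    (hd : 0 < d) (ha : 4 ≤ a) (hk : k = α * d) (hα : a / 2 ≤ α) (hαa : α ≤ a)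
    (hdiff : a - α ≤ 30 * a * x / d) (hx : 1 ≤ x) (hε : 0 < ε) (he : e ≤ ε / 8)
    (hC₁ : 0 ≤ C₁) (hC₂ : 0 ≤ C₂) (hC₃ : 0 ≤ C₃)
    (hQ : (2 * b + I) - α * ℓ = Q) (hQb : |Q| ≤ 1800 * a * x ^ 2 / d ^ 2)
    (hav : |av| ≤ C₃) (hIW : a * av - C₃ * (a - α) ≤ IW)
    (hSB : d ^ 2 * I / 2 + k * (x + (Real.log 4 - 1) / 2) - 3 / 2 * (k * lα - k) -
      C₁ * (d * (1 + lα)) ≤ SB)
    (hSV : d * IW - C₂ * d ≤ SV) (hL : L = d * ℓ + 2 * x - 3 * la + 2 + Real.log 4 + 2 * av - ε)
    (hn : n = b * d) (hll : lα ≤ la) (hlα : 0 ≤ lα) {M : ℝ} (hla : la ≤ M)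
    (hLM : L ≤ d * M + d)
    (hM : 16 * ((C₁ + C₂ + 1) * (1 + M)) ≤ ε * a)
    (h1 : 28800 * x ^ 2 ≤ ε * d) (h2 : 1920 * C₃ * x ≤ ε * d) :
    (k / 2 + 1) * L + e * k ≤ d * n + (SB + SV) := by
  have hk0 : 0 ≤ k := by
    rw [hk]
    have : 0 ≤ α := by linarith
    positivity
  have hkd : a * d / 2 ≤ k := by
    rw [hk]
    have := mul_le_mul_of_nonneg_right hα hd.le
    linarith
  have hdd : d * (a - α) ≤ 30 * a * x := by
    have := mul_le_mul_of_nonneg_left hdiff hd.le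
    have e1 : d * (30 * a * x / d) = 30 * a * x := by field_simp
    linarith
  have hQ1 : -(900 * a * x ^ 2) ≤ d ^ 2 * Q / 2 := by
    have h3 := (abs_le.1 hQb).1
    have h4 : d ^ 2 * (-(1800 * a * x ^ 2 / d ^ 2)) ≤ d ^ 2 * Q :=
      mul_le_mul_of_nonneg_left h3 (by positivity)
    have h5 : d ^ 2 * (-(1800 * a * x ^ 2 / d ^ 2)) = -(1800 * a * x ^ 2) := by field_simp
    linarith
  have hmain : d ^ 2 * b + d ^ 2 * I / 2 = k * (d * ℓ) / 2 + d ^ 2 * Q / 2 := by
    rw [hk, ← hQ]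
    ring
  have hIWd : k * av - 60 * C₃ * a * x ≤ d * IW := by
    have h3 := mul_le_mul_of_nonneg_left hIW hd.le
    have h4 : d * (a * av - C₃ * (a - α)) = k * av + d * (a - α) * av - C₃ * (d * (a - α)) := by
      rw [hk]
      ring
    have h5 : 0 ≤ d * (a - α) := mul_nonneg hd.le (by linarith)
    have h6 : -(d * (a - α) * C₃) ≤ d * (a - α) * av := by
      have := mul_le_mul_of_nonneg_left (abs_le.1 hav).1 h5
      linarith
    have h7 : C₃ * (d * (a - α)) ≤ C₃ * (30 * a * x) := mul_le_mul_of_nonneg_left hdd hC₃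
    rw [h4] at h3
    linarith
  have hLk : (k / 2 + 1) * L = k * (d * ℓ) / 2 + k * x - 3 / 2 * (k * la) + k +
      k * Real.log 4 / 2 + k * av - k * ε / 2 + L := by
    have : (k / 2 + 1) * L = k / 2 * L + L := by ring
    rw [this]
    nth_rewrite 1 [hL]
    ring
  have hkl : k * lα ≤ k * la := mul_le_mul_of_nonneg_left hll hk0
  have hC1 : C₁ * (d * (1 + lα)) + C₂ * d + (d * M + d) ≤ (C₁ + C₂ + 1) * (1 + M) * d := by
    have h3 : C₁ * (d * (1 + lα)) ≤ C₁ * (d * (1 + M)) := by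
      apply mul_le_mul_of_nonneg_left _ hC₁
      apply mul_le_mul_of_nonneg_left _ hd.le
      linarith
    have h4 : C₂ * d ≤ C₂ * (d * (1 + M)) := by
      apply mul_le_mul_of_nonneg_left _ hC₂
      exact le_mul_of_one_le_right hd.le (by linarith)
    linarith
  have ha0 : 0 ≤ a := by linarith
  have hMd : 16 * ((C₁ + C₂ + 1) * (1 + M) * d) ≤ ε * a * d := by
    have := mul_le_mul_of_nonneg_right hM hd.le
    linarith
  have hx2 : 900 * a * x ^ 2 ≤ ε * (a * d) / 32 := by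
    have := mul_le_mul_of_nonneg_left h1 ha0
    linarith
  have hx3 : 60 * C₃ * a * x ≤ ε * (a * d) / 32 := by
    have := mul_le_mul_of_nonneg_left h2 ha0
    linarith
  have hpos : 0 ≤ ε * (a * d) := by positivity
  have hek : e * k ≤ ε / 8 * k := mul_le_mul_of_nonneg_right he hk0
  have hεk : ε * (a * d / 2) ≤ ε * k := mul_le_mul_of_nonneg_left hkd hε.le
  have hnd : d * n = d ^ 2 * b := by rw [hn]; ring
  rw [hLk, hnd]
  linarith

theorem pc_wide_upper (J : ℕ) (γ V : ℕ → ℝ) (hγ0 : ∀ i, 0 < γ i) (hγ : StrictMono γ)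
    (δ ε : ℝ) (hδ0 : 0 < δ) (hε : 0 < ε)
    (hL : ∀ i < J, LAch ((1 + δ) / (4 * γ i ^ 2)) (V i)) :
    ∃ A c : ℝ, 0 < A ∧ 0 < c ∧ ∃ D₀ : ℕ, ∀ n d : ℕ, D₀ ≤ d → A ≤ aopt (Real.log n / d) →
      aopt (Real.log n / d) ≤ c * d →
      pc n d 2 ≤ Real.exp (-(Lw (VL J γ V) n d - ε)) := by
  obtain ⟨C₁, hC₁, hBx⟩ := sum_Bx
  obtain ⟨C₂, hC₂, hSv⟩ := sum_sval J γ V
  obtain ⟨C₃, hC₃, hVb⟩ := VU_bound J γ V
  set e : ℝ := min δ (ε / 8) with he
  have he0 : 0 < e := lt_min hδ0 (by positivity)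
  have heδ : e ≤ δ := min_le_left _ _
  have heε : e ≤ ε / 8 := min_le_right _ _
  obtain ⟨A', D', hW⟩ := wide_lower_slices J γ V hγ0 hγ e he0 (fun i hi =>
    (hL i hi).mono (by positivity) (by
      have := hγ0 i
      gcongr) le_rfl)
  obtain ⟨D₁, hD₁⟩ := PcUpper_large (100 + 2 * C₃ + ε + 28800 / ε + 1920 * C₃ / ε)
  obtain ⟨R, hR⟩ := exists_log_le (16 * (C₁ + C₂ + 1)) (16 * (C₁ + C₂ + 1)) ε hε
  refine ⟨max 4 (max (2 * A') R), 1 / 2, by positivity, by norm_num, max D' D₁, ?_⟩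
  intro n d hd hA hc
  obtain ⟨hx, hx2, hd4⟩ := hD₁ d (le_trans (le_max_right _ _) hd)
  have hdD' : D' ≤ d := le_trans (le_max_left _ _) hd
  obtain ⟨x, hxd⟩ : ∃ x, x = Real.log d := ⟨_, rfl⟩
  rw [← hxd] at hx hx2
  have hd4' : (4 : ℝ) ≤ d := by exact_mod_cast hd4
  have hd0 : (0 : ℝ) < d := by linarith
  have hε1 : 0 < 28800 / ε := by positivity
  have hε2 : 0 ≤ 1920 * C₃ / ε := by positivity
  have hx100 : 100 ≤ x := by linarith
  have hxx : x ≤ x ^ 2 := by
    rw [sq]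
    exact le_mul_of_one_le_left (by linarith) (by linarith)
  have hd1 : 28800 * x ^ 2 ≤ ε * d := by
    have h3 : 28800 / ε * x ^ 2 ≤ d :=
      le_trans (mul_le_mul_of_nonneg_right (by linarith) (sq_nonneg x)) hx2
    have h4 := mul_le_mul_of_nonneg_left h3 hε.le
    have h5 : ε * (28800 / ε * x ^ 2) = 28800 * x ^ 2 := by field_simp
    linarith
  have hd2 : 1920 * C₃ * x ≤ ε * d := by
    have h3 : 1920 * C₃ / ε * x ^ 2 ≤ d :=
      le_trans (mul_le_mul_of_nonneg_right (by linarith) (sq_nonneg x)) hx2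
    have h4 := mul_le_mul_of_nonneg_left h3 hε.le
    have h5 : ε * (1920 * C₃ / ε * x ^ 2) = 1920 * C₃ * x ^ 2 := by field_simp
    have h6 : 1920 * C₃ * x ≤ 1920 * C₃ * x ^ 2 :=
      mul_le_mul_of_nonneg_left hxx (by positivity)
    linarith
  have hd3 : 100 * x ≤ d := by
    have h3 : 100 * x ^ 2 ≤ d :=
      le_trans (mul_le_mul_of_nonneg_right (by linarith) (sq_nonneg x)) hx2
    linarith
  -- the minimiser
  obtain ⟨b, hb⟩ : ∃ b, b = Real.log n / d := ⟨_, rfl⟩
  have hn : Real.log n = b * d := by rw [hb]; field_simp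
  have hb0 : 0 < b := by
    by_contra hcon
    push Not at hcon
    have hln : 0 ≤ Real.log n := Real.log_natCast_nonneg n
    have hb00 : b = 0 := by
      apply le_antisymm hcon
      rw [hb]
      positivity
    have h3 : aopt b = 0 := by
      unfold aopt
      apply le_antisymm
      · apply le_of_forall_pos_le_add
        intro η hη
        rw [zero_add]
        refine csInf_le ⟨0, fun y hy => hy.1.le⟩ ⟨hη, ?_⟩
        have := vtheta_nonneg hη.le
        unfold vtheta at this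
        rw [hb00]
        linarith
      · refine Real.sInf_nonneg fun y hy => hy.1.le
    rw [← hb, h3] at hA
    have := le_trans (le_max_left (4 : ℝ) _) hA
    linarith
  rw [← hb] at hA hc
  obtain ⟨ha0, hell, -, hba, hab⟩ := aopt_spec hb0
  obtain ⟨a, haa⟩ : ∃ a, a = aopt b := ⟨_, rfl⟩
  have hquad := fun α (hα : 0 < α) => aopt_quad_min (b := b) (α := α) hb0 hα
  have hLw : Lw (VL J γ V) n d - ε = d * ell b + 2 * x - 3 * Real.log a + 2 + Real.log 4 +
      2 * avW (VL J γ V) a d - ε := by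
    unfold Lw
    rw [← hb, ← haa, ← hxd]
  rw [← haa] at hA hc ha0 hell hba hab hquad
  have ha4 : 4 ≤ a := le_trans (le_max_left _ _) hA
  have haA' : 2 * (A' : ℝ) ≤ a := le_trans (le_trans (le_max_left _ _) (le_max_right _ _)) hA
  have haR : R ≤ a := le_trans (le_trans (le_max_right _ _) (le_max_right _ _)) hA
  have hlog2 : Real.log 2 ≤ 1 := by
    have := Real.log_two_lt_d9
    linarith
  have hlog2' : 1 / 2 ≤ Real.log 2 := by
    have := Real.log_two_gt_d9
    linarith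
  have hlog4 : Real.log 4 = 2 * Real.log 2 := by
    rw [show (4 : ℝ) = 2 ^ 2 by norm_num, Real.log_pow]
    norm_num
  have hla0 : 0 ≤ Real.log a := Real.log_nonneg (by linarith)
  have hlax : Real.log a ≤ x := by
    rw [hxd]
    exact Real.log_le_log ha0 (by linarith)
  have hav := PcUpper_avW_le (VL J γ V) (fun g => (hVb g).2) ha0 d
  obtain ⟨av, hav'⟩ : ∃ av, av = avW (VL J γ V) a d := ⟨_, rfl⟩
  rw [← hav'] at hav hLw
  obtain ⟨L, hLd⟩ : ∃ L, L = Lw (VL J γ V) n d - ε := ⟨_, rfl⟩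
  rw [← hLd] at hLw ⊢
  have hav2 := abs_le.1 hav
  have hL1 : d * ell b - 2 * x ≤ L := by
    rw [hLw]
    linarith [hav2.1]
  have hL2 : L ≤ d * ell b + 3 * x := by
    rw [hLw]
    linarith [hav2.2]
  have hv1 : Real.log 2 ≤ vfun a := by
    have h3 : vfun 1 = Real.log 2 := by
      have := vfun_nat 1
      push_cast at this
      rw [this]
      norm_num
    rw [← h3]
    exact vfun_monotone (by linarith)
  have h7 : 7 * Real.log d ≤ L := by
    rw [← hxd]
    have : (d : ℝ) * (1 / 2) ≤ d * ell b := by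
      apply mul_le_mul_of_nonneg_left _ hd0.le
      rw [hell]
      linarith
    linarith
  obtain ⟨k, hk1, hk2⟩ := PcUpper_exists_k hd4 h7 (by rw [← hxd]; linarith)
  obtain ⟨α, hα⟩ : ∃ α : ℝ, α = (k : ℝ) / d := ⟨_, rfl⟩
  have hkα : (k : ℝ) = α * d := by rw [hα]; field_simp
  have hsf : sfun d k = d * vfun α := by
    unfold sfun
    rw [hα]
  have hα0 : 0 ≤ α := by rw [hα]; positivity
  have hva1 : d * vfun α ≤ d * vfun a - 4 * x := by
    rw [hsf, ← hxd] at hk1
    rw [← hell]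
    linarith
  have hva2 : d * vfun a - 10 * x ≤ d * vfun α := by
    rw [hsf, ← hxd] at hk2
    rw [← hell]
    linarith
  have hαa : α ≤ a := by
    by_contra hcon
    push Not at hcon
    have h3 := vfun_monotone hcon.le
    have h4 := mul_le_mul_of_nonneg_left h3 hd0.le
    linarith
  have hdiff : a - α ≤ 30 * a * x / d := by
    have h3 := le_vfun_sub hα0 hαa
    have h4 : vfun a - vfun α ≤ 10 * x / d := by
      rw [le_div_iff₀ hd0]
      linarith
    have h5 : a - α ≤ 10 * x / d * (a + 2) := by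
      have := h3.trans h4
      rwa [div_le_iff₀ (by linarith)] at this
    have h6 : 10 * x / d * (a + 2) ≤ 10 * x / d * (3 * a) := by
      apply mul_le_mul_of_nonneg_left _ (by positivity)
      linarith
    have h8 : 10 * x / d * (3 * a) = 30 * a * x / d := by ring
    linarith
  have hα2 : a / 2 ≤ α := by
    have h3 : 30 * a * x / d ≤ a / 2 := by
      rw [div_le_iff₀ hd0]
      have := mul_le_mul_of_nonneg_left hd3 ha0.le
      have h5 : 0 ≤ a * x := mul_nonneg ha0.le (by linarith)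
      linarith
    linarith
  have hαpos : 0 < α := by linarith
  have hQb : |(2 * b + ∫ u in (0 : ℝ)..α, vfun u) - α * ell b| ≤
      1800 * a * x ^ 2 / (d : ℝ) ^ 2 := by
    refine (hquad α hαpos).trans ?_
    rw [min_eq_left hαa]
    have h3 : (α - a) ^ 2 ≤ (30 * a * x / d) ^ 2 := by
      have : (α - a) ^ 2 = (a - α) ^ 2 := by ring
      rw [this]
      have : 0 ≤ a - α := by linarith
      gcongr
    calc (α - a) ^ 2 / α ≤ (30 * a * x / d) ^ 2 / (a / 2) := by gcongr
      _ = 1800 * a * x ^ 2 / (d : ℝ) ^ 2 := by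
        field_simp
        ring
  have hIW : a * av - C₃ * (a - α) ≤ ∫ u in (0 : ℝ)..α, VL J γ V (u / Real.sqrt d) := by
    have h3 := intervalIntegral.integral_add_adjacent_intervals
      (VU_int J γ V d 0 α).2 (VU_int J γ V d α a).2
    have h4 := intervalIntegral.norm_integral_le_of_norm_le_const (a := α) (b := a)
      (f := fun u => VL J γ V (u / Real.sqrt d)) (C := C₃) (fun y _ => (hVb _).2)
    rw [Real.norm_eq_abs, abs_of_nonneg (by linarith : 0 ≤ a - α)] at h4
    have h5 : a * av = ∫ u in (0 : ℝ)..a, VL J γ V (u / Real.sqrt d) := by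
      rw [hav']
      unfold avW
      field_simp
    rw [h5, ← h3]
    linarith [(abs_le.1 h4).2]
  have hdk : d ≤ k := by
    have : (d : ℝ) ≤ k := by
      rw [hkα]
      exact le_mul_of_one_le_left hd0.le (by linarith)
    exact_mod_cast this
  have hd1' : 1 ≤ d := by omega
  have hSB := (abs_le.1 (hBx d k hd1' hdk)).1
  have hSV := (abs_le.1 (hSv d k hd1').2).1
  rw [← hα] at hSB hSV
  rw [← hxd] at hSB
  have hlα : 0 ≤ Real.log α := Real.log_nonneg (by linarith)
  have hll : Real.log α ≤ Real.log a := Real.log_le_log hαpos hαa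
  have hM : Real.log (1 + a) ≤ Real.log (4 * a) := Real.log_le_log (by linarith) (by linarith)
  have hMR := hR a haR
  have hvlog : ell b ≤ Real.log (1 + a) := by
    rw [hell]
    exact vfun_le_log ha0.le
  have hfinal := PcUpper_calc (d := (d : ℝ)) (k := (k : ℝ)) (a := a) (α := α) (x := x)
    (ℓ := ell b) (ε := ε) (e := e) (C₁ := C₁) (C₂ := C₂) (C₃ := C₃) (b := b)
    (I := ∫ u in (0 : ℝ)..α, vfun u) (Q := (2 * b + ∫ u in (0 : ℝ)..α, vfun u) - α * ell b)
    (av := av) (IW := ∫ u in (0 : ℝ)..α, VL J γ V (u / Real.sqrt d))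
    (SB := ∑ t ∈ Finset.range k, Bx d t) (SV := ∑ t ∈ Finset.range k, svalL J γ V d (lev d t))
    (L := L) (n := Real.log n) (la := Real.log a) (lα := Real.log α)
    hd0 ha4 hkα hα2 hαa hdiff (by linarith) hε heε hC₁ hC₂ hC₃ rfl hQb hav hIW
    (by linarith) (by linarith) hLw hn hll hlα (M := Real.log (4 * a))
    (Real.log_le_log ha0 (by linarith))
    (by
      have h3 : d * ell b ≤ d * Real.log (4 * a) :=
        mul_le_mul_of_nonneg_left (hvlog.trans hM) hd0.le
      linarith)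
    (by linarith) hd1 hd2
  have hsum : ∑ t ∈ Finset.range k, (Bx d t + svalL J γ V d (lev d t)) =
      ∑ t ∈ Finset.range k, Bx d t + ∑ t ∈ Finset.range k, svalL J γ V d (lev d t) :=
    Finset.sum_add_distrib
  rw [← hsum] at hfinal
  have hb12 : 1 / 2 ≤ b := by linarith
  refine pc_le_of n d _ (Real.exp_nonneg _) ?_ (hW n d k L hdD' ?_ ?_ hk1 hk2 ?_ ?_ hfinal)
  · apply Real.exp_le_one_iff.2
    have : 0 ≤ Real.log d := by rw [← hxd]; linarith
    linarith
  · have : ((A' * d : ℕ) : ℝ) ≤ k := by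
      push_cast
      rw [hkα]
      exact mul_le_mul_of_nonneg_right (by linarith) hd0.le
    exact_mod_cast this
  · have : ((k + 6 : ℕ) : ℝ) ≤ ((d ^ 2 : ℕ) : ℝ) := by
      push_cast
      rw [hkα]
      have h3 := mul_le_mul_of_nonneg_right (hαa.trans hc) hd0.le
      have h4 := mul_le_mul_of_nonneg_right hd4' hd0.le
      linarith
    exact_mod_cast this
  · rw [hn, hkα]
    have h3 : α * d ≤ (15 * b) * d := mul_le_mul_of_nonneg_right (by linarith) hd0.le
    linarith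
  · rw [hn]
    have h3 : b * d ≤ d * d := mul_le_mul_of_nonneg_right (by linarith) hd0.le
    have h4 : (d : ℝ) * d * 1 ≤ d * d * d :=
      mul_le_mul_of_nonneg_left (by linarith) (by positivity)
    linarith

end Pool.Agent.Lib.MP_8501c9_pr.Wide
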