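import Pool.Agent.Lib.MP_8501c9_pr.Wide.SumBx
import Pool.Agent.Lib.MP_8501c9_pr.Wide.AoptW
import Pool.Agent.Lib.MP_8501c9_pr.Wide.PcLower
import Pool.Agent.Lib.MP_8501c9_pr.Wide.PcUpper
import Pool.Agent.Lib.MP_8501c9_pr.Wide.CertBD
import Pool.Agent.Lib.MP_8501c9_pr.Wide.CertL
import Pool.Agent.Lib.MP_8501c9_pr.Mid.Final

/-!
# The regimes `1 ≪ a ≪ √d` and `√d ≪ a ≪ d`
-/

set_option autoImplicit false
open Set

namespace Pool.Agent.Lib.MP_8501c9_pr.Wide

open Pool.Agent.Lib.MP_8501c9_pr Pool.Agent.Lib.MP_8501c9_pr.Mid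

/-! ### step functions with at most one step -/

theorem rbd_VL_zero (γ V : ℕ → ℝ) : VL 0 γ V = fun _ => 0 := by
  funext g
  unfold VL gidx
  simp

theorem rbd_VU_zero (γ V : ℕ → ℝ) : VU 0 γ V = fun _ => 1 := by
  funext g
  unfold VU
  simp

theorem rbd_VU_one_low (γ V : ℕ → ℝ) {g : ℝ} (h : g ≤ γ 0) : VU 1 γ V g = V 0 := by
  have h1 : gidx 1 γ g = 0 := by
    unfold gidx
    rw [Finset.card_eq_zero, Finset.filter_eq_empty_iff]
    intro i hi
    have : i = 0 := by simpa using hi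
    rw [this]
    exact not_lt.2 h
  unfold VU
  rw [h1]
  simp

theorem rbd_VL_one_low (γ V : ℕ → ℝ) {g : ℝ} (h : g ≤ γ 0) : VL 1 γ V g = 0 := by
  have h1 : gidx 1 γ g = 0 := by
    unfold gidx
    rw [Finset.card_eq_zero, Finset.filter_eq_empty_iff]
    intro i hi
    have : i = 0 := by simpa using hi
    rw [this]
    exact not_lt.2 h
  unfold VL
  rw [h1]
  simp

theorem rbd_VL_one_high (γ V : ℕ → ℝ) {g : ℝ} (h : γ 0 < g) : VL 1 γ V g = V 0 := by
  have h1 : gidx 1 γ g = 1 := by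
    unfold gidx
    have : (Finset.range 1).filter (fun i => γ i < g) = Finset.range 1 := by
      rw [Finset.filter_eq_self]
      intro i hi
      have : i = 0 := by simpa using hi
      rw [this]
      exact h
    rw [this]
    simp
  unfold VL
  rw [h1]
  simp

/-- `g = s / √d` and `γ₀ > 0`: choose `γ₀` with `c / (4 γ₀²) = κ`. -/
theorem rbd_gamma {c κ : ℝ} (hc : 0 < c) (hκ : 0 < κ) :
    ∃ γ₀ : ℝ, 0 < γ₀ ∧ c / (4 * γ₀ ^ 2) = κ := by
  refine ⟨Real.sqrt (c / (4 * κ)), Real.sqrt_pos.2 (by positivity), ?_⟩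
  rw [Real.sq_sqrt (by positivity)]
  field_simp

theorem rbd_seq {γ₀ : ℝ} (h : 0 < γ₀) :
    (∀ i : ℕ, 0 < γ₀ * ((i : ℝ) + 1)) ∧ StrictMono (fun i : ℕ => γ₀ * ((i : ℝ) + 1)) := by
  refine ⟨fun i => by positivity, ?_⟩
  intro i j hij
  have : (i : ℝ) < j := by exact_mod_cast hij
  exact mul_lt_mul_of_pos_left (by linarith) h

theorem rbd_avW_const (c : ℝ) {a : ℝ} (ha : 0 < a) (d : ℕ) : avW (fun _ => c) a d = c := by
  unfold avW
  rw [intervalIntegral.integral_const, smul_eq_mul, sub_zero, mul_comm, mul_div_assoc,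
    div_self ha.ne', mul_one]

/-- `√d` is large. -/
theorem rbd_sqrt_large (x : ℝ) : ∃ D : ℕ, ∀ d : ℕ, D ≤ d → x ≤ Real.sqrt d := by
  have h : Filter.Tendsto (fun d : ℕ => Real.sqrt d) Filter.atTop Filter.atTop :=
    Real.tendsto_sqrt_atTop.comp tendsto_natCast_atTop_atTop
  obtain ⟨D, hD⟩ := Filter.eventually_atTop.1 (h.eventually_ge_atTop x)
  exact ⟨D, hD⟩

theorem rbd_Lw_const (W : ℝ → ℝ) (c : ℝ) (n d : ℕ)
    (h : avW W (aopt (Real.log n / d)) d = c) (h0 : 0 < aopt (Real.log n / d)) :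
    Lw W n d = Lw (fun _ => 0) n d + 2 * c := by
  unfold Lw
  rw [h, rbd_avW_const 0 h0]
  ring

/-- `1 ≪ a ≪ √d` -/
theorem pc_B (ε : ℝ) (hε : 0 < ε) : ∃ A g : ℝ, 0 < A ∧ 0 < g ∧ ∃ D₀ : ℕ, ∀ n d : ℕ, D₀ ≤ d →
    A ≤ aopt (Real.log n / d) → aopt (Real.log n / d) ≤ g * Real.sqrt d →
    Real.exp (-(Lw (fun _ => 0) n d + ε)) ≤ pc n d 2 ∧
      pc n d 2 ≤ Real.exp (-(Lw (fun _ => 0) n d - ε)) := by
  -- the lower bound
  obtain ⟨κ₀, hκ0, hκ⟩ := uach_small (ε / 4) (by positivity)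
  obtain ⟨γ₀, hγ0, hγ⟩ := rbd_gamma (c := 1 - 2 * (1 / 8)) (κ := κ₀ + 1) (by norm_num)
    (by linarith)
  obtain ⟨hs0, hs1⟩ := rbd_seq hγ0
  obtain ⟨A₁, c₁, hA₁, hc₁, D₁, h1⟩ := pc_wide_lower 1 (fun i : ℕ => γ₀ * ((i : ℝ) + 1))
    (fun _ => ε / 4) hs0 hs1 (1 / 8) (ε / 2) (by norm_num) (by norm_num) (by positivity) (by
      intro i hi
      have : i = 0 := by omega
      subst this
      have e : (1 - 2 * (1 / 8)) / (4 * (γ₀ * (((0 : ℕ) : ℝ) + 1)) ^ 2) = κ₀ + 1 := by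
        rw [← hγ]
        norm_num
      rw [e]
      exact hκ.mono (by linarith) le_rfl)
  -- the upper bound
  obtain ⟨A₂, c₂, hA₂, hc₂, D₂, h2⟩ := pc_wide_upper 0 (fun i : ℕ => γ₀ * ((i : ℝ) + 1))
    (fun _ => 0) hs0 hs1 1 ε one_pos hε (by intro i hi; omega)
  rw [rbd_VL_zero] at h2
  obtain ⟨D₃, h3⟩ := rbd_sqrt_large (γ₀ / c₁ + γ₀ / c₂)
  refine ⟨max A₁ A₂, γ₀, lt_max_of_lt_left hA₁, hγ0, max (max D₁ D₂) (max D₃ 1), ?_⟩
  intro n d hd hA hg
  have hd1 : D₁ ≤ d := le_trans (le_max_left _ _) ((le_max_left _ _).trans hd)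
  have hd2 : D₂ ≤ d := le_trans (le_max_right _ _) ((le_max_left _ _).trans hd)
  have hd3 : D₃ ≤ d := le_trans (le_max_left _ _) ((le_max_right _ _).trans hd)
  have hd4 : 1 ≤ d := le_trans (le_max_right _ _) ((le_max_right _ _).trans hd)
  have hd0 : (0 : ℝ) < d := by exact_mod_cast hd4
  have hsq0 : 0 < Real.sqrt d := Real.sqrt_pos.2 hd0
  have hsq : Real.sqrt d * Real.sqrt d = d := Real.mul_self_sqrt hd0.le
  have hS := h3 d hd3
  have ha0 : 0 < aopt (Real.log n / d) := lt_of_lt_of_le (lt_max_of_lt_left hA₁) hA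
  have hq1 : 0 < γ₀ / c₁ := by positivity
  have hq2 : 0 < γ₀ / c₂ := by positivity
  have hc1' : aopt (Real.log n / d) ≤ c₁ * d := by
    refine hg.trans ?_
    have : γ₀ ≤ c₁ * Real.sqrt d := by
      have : γ₀ / c₁ ≤ Real.sqrt d := by linarith
      rw [div_le_iff₀ hc₁] at this
      linarith
    calc γ₀ * Real.sqrt d ≤ c₁ * Real.sqrt d * Real.sqrt d :=
          mul_le_mul_of_nonneg_right this hsq0.le
      _ = c₁ * d := by rw [mul_assoc, hsq]
  have hc2' : aopt (Real.log n / d) ≤ c₂ * d := by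
    refine hg.trans ?_
    have : γ₀ ≤ c₂ * Real.sqrt d := by
      have : γ₀ / c₂ ≤ Real.sqrt d := by linarith
      rw [div_le_iff₀ hc₂] at this
      linarith
    calc γ₀ * Real.sqrt d ≤ c₂ * Real.sqrt d * Real.sqrt d :=
          mul_le_mul_of_nonneg_right this hsq0.le
      _ = c₂ * d := by rw [mul_assoc, hsq]
  have l1 := h1 n d hd1 ((le_max_left _ _).trans hA) hc1'
  have l2 := h2 n d hd2 ((le_max_right _ _).trans hA) hc2'
  refine ⟨?_, l2⟩
  have hav : avW (VU 1 (fun i : ℕ => γ₀ * ((i : ℝ) + 1)) (fun _ => ε / 4))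
      (aopt (Real.log n / d)) d = ε / 4 := by
    have hcongr : avW (VU 1 (fun i : ℕ => γ₀ * ((i : ℝ) + 1)) (fun _ => ε / 4))
        (aopt (Real.log n / d)) d = avW (fun _ => ε / 4) (aopt (Real.log n / d)) d := by
      unfold avW
      congr 1
      apply intervalIntegral.integral_congr
      intro u hu
      rw [uIcc_of_le ha0.le] at hu
      show VU 1 (fun i : ℕ => γ₀ * ((i : ℝ) + 1)) (fun _ => ε / 4) (u / Real.sqrt d) = ε / 4
      rw [rbd_VU_one_low]
      show u / Real.sqrt d ≤ γ₀ * (((0 : ℕ) : ℝ) + 1)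
      rw [div_le_iff₀ hsq0]
      norm_num
      exact hu.2.trans hg
    rw [hcongr, rbd_avW_const _ ha0]
  rw [rbd_Lw_const _ _ n d hav ha0] at l1
  have e : Lw (fun _ => 0) n d + 2 * (ε / 4) + ε / 2 = Lw (fun _ => 0) n d + ε := by ring
  rwa [e] at l1

/-- `√d ≪ a ≪ d` -/
theorem pc_D (ε : ℝ) (hε : 0 < ε) : ∃ G c : ℝ, 0 < G ∧ 0 < c ∧ ∃ D₀ : ℕ, ∀ n d : ℕ, D₀ ≤ d →
    G * Real.sqrt d ≤ aopt (Real.log n / d) → aopt (Real.log n / d) ≤ c * d →
    Real.exp (-(Lw (fun _ => 1) n d + ε)) ≤ pc n d 2 ∧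
      pc n d 2 ≤ Real.exp (-(Lw (fun _ => 1) n d - ε)) := by
  set η : ℝ := min ε 1 with hη
  have hη0 : 0 < η := lt_min hε one_pos
  have hη1 : η ≤ 1 := min_le_right _ _
  have hηε : η ≤ ε := min_le_left _ _
  obtain ⟨κ₀, hκ0, hκ⟩ := lach_one (η / 8) (by positivity)
  obtain ⟨γ₀, hγ0, hγ⟩ := rbd_gamma (c := 1 + 1) (κ := κ₀) (by norm_num) hκ0
  obtain ⟨hs0, hs1⟩ := rbd_seq hγ0
  obtain ⟨A₁, c₁, hA₁, hc₁, D₁, h1⟩ := pc_wide_lower 0 (fun i : ℕ => γ₀ * ((i : ℝ) + 1))
    (fun _ => 0) hs0 hs1 (1 / 8) ε (by norm_num) (by norm_num) hε (by intro i hi; omega)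
  rw [rbd_VU_zero] at h1
  obtain ⟨A₂, c₂, hA₂, hc₂, D₂, h2⟩ := pc_wide_upper 1 (fun i : ℕ => γ₀ * ((i : ℝ) + 1))
    (fun _ => 1 - η / 8) hs0 hs1 1 (η / 2) one_pos (by positivity) (by
      intro i hi
      have : i = 0 := by omega
      subst this
      have e : (1 + 1) / (4 * (γ₀ * (((0 : ℕ) : ℝ) + 1)) ^ 2) = κ₀ := by
        rw [← hγ]
        norm_num
      rw [e]
      exact hκ)
  obtain ⟨D₃, h3⟩ := rbd_sqrt_large (max A₁ A₂ / (8 * γ₀ / η))
  refine ⟨8 * γ₀ / η, min c₁ c₂, by positivity, lt_min hc₁ hc₂,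
    max (max D₁ D₂) (max D₃ 1), ?_⟩
  intro n d hd hG hc
  have hd1 : D₁ ≤ d := le_trans (le_max_left _ _) ((le_max_left _ _).trans hd)
  have hd2 : D₂ ≤ d := le_trans (le_max_right _ _) ((le_max_left _ _).trans hd)
  have hd3 : D₃ ≤ d := le_trans (le_max_left _ _) ((le_max_right _ _).trans hd)
  have hd4 : 1 ≤ d := le_trans (le_max_right _ _) ((le_max_right _ _).trans hd)
  have hd0 : (0 : ℝ) < d := by exact_mod_cast hd4
  have hsq0 : 0 < Real.sqrt d := Real.sqrt_pos.2 hd0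
  have hG0 : 0 < 8 * γ₀ / η := by positivity
  have hS := h3 d hd3
  rw [div_le_iff₀ hG0] at hS
  have hA : max A₁ A₂ ≤ aopt (Real.log n / d) := by linarith
  have ha0 : 0 < aopt (Real.log n / d) := lt_of_lt_of_le (lt_max_of_lt_left hA₁) hA
  have l1 := h1 n d hd1 ((le_max_left _ _).trans hA)
    (hc.trans (mul_le_mul_of_nonneg_right (min_le_left _ _) hd0.le))
  have l2 := h2 n d hd2 ((le_max_right _ _).trans hA)
    (hc.trans (mul_le_mul_of_nonneg_right (min_le_right _ _) hd0.le))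
  refine ⟨l1, l2.trans ?_⟩
  apply Real.exp_le_exp.2
  set a := aopt (Real.log n / d) with hadef
  set W := VL 1 (fun i : ℕ => γ₀ * ((i : ℝ) + 1)) (fun _ => 1 - η / 8) with hW
  set s := γ₀ * Real.sqrt d with hs
  have hs0' : 0 < s := by positivity
  have hsa : s ≤ η / 8 * a := by
    have : 8 * γ₀ / η * Real.sqrt d = s * (8 / η) := by rw [hs]; ring
    rw [this] at hG
    have h5 : s = η / 8 * (s * (8 / η)) := by field_simp
    rw [h5]
    exact mul_le_mul_of_nonneg_left hG (by positivity)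
  have hsa' : s ≤ a := hsa.trans (by nlinarith)
  have hint : ∀ x y : ℝ, IntervalIntegrable (fun u => W (u / Real.sqrt d))
      MeasureTheory.volume x y := fun x y => (VU_int 1 _ _ d x y).2
  have i1 : ∫ u in (0 : ℝ)..s, W (u / Real.sqrt d) = 0 := by
    have : ∫ u in (0 : ℝ)..s, W (u / Real.sqrt d) = ∫ u in (0 : ℝ)..s, (0 : ℝ) := by
      apply intervalIntegral.integral_congr
      intro u hu
      rw [uIcc_of_le hs0'.le] at hu
      show W (u / Real.sqrt d) = 0
      rw [hW, rbd_VL_one_low]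
      show u / Real.sqrt d ≤ γ₀ * (((0 : ℕ) : ℝ) + 1)
      rw [div_le_iff₀ hsq0]
      norm_num
      exact hu.2
    rw [this]
    simp
  have i2 : ∫ u in s..a, W (u / Real.sqrt d) = (1 - η / 8) * (a - s) := by
    have : ∫ u in s..a, W (u / Real.sqrt d) = ∫ u in s..a, (1 - η / 8 : ℝ) := by
      apply intervalIntegral.integral_congr_ae
      filter_upwards with u hu
      rw [uIoc_of_le hsa'] at hu
      rw [hW, rbd_VL_one_high]
      show γ₀ * (((0 : ℕ) : ℝ) + 1) < u / Real.sqrt d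
      rw [lt_div_iff₀ hsq0]
      norm_num
      exact hu.1
    rw [this, intervalIntegral.integral_const, smul_eq_mul, mul_comm]
  have i3 : ∫ u in (0 : ℝ)..a, W (u / Real.sqrt d) = (1 - η / 8) * (a - s) := by
    rw [← intervalIntegral.integral_add_adjacent_intervals (hint 0 s) (hint s a), i1, i2,
      zero_add]
  have hav : 1 - η / 4 ≤ avW W a d := by
    unfold avW
    rw [i3, le_div_iff₀ ha0]
    have h6 : 0 ≤ 1 - η / 8 := by linarith
    have h7 : (1 - η / 8) * s ≤ η / 8 * a := by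
      calc (1 - η / 8) * s ≤ 1 * s := mul_le_mul_of_nonneg_right (by linarith) hs0'.le
        _ ≤ η / 8 * a := by rw [one_mul]; exact hsa
    nlinarith
  have hL1 : Lw (fun _ => 1) n d = Lw (fun _ => 0) n d + 2 * 1 :=
    rbd_Lw_const _ _ n d (rbd_avW_const 1 ha0 d) ha0
  have hL2 : Lw W n d = Lw (fun _ => 0) n d + 2 * avW W a d := rbd_Lw_const _ _ n d rfl ha0
  rw [hL1, hL2]
  linarith

/-! ### continuity of the minimiser and of the constant -/

theorem rbd_theta {a a' : ℝ} (ha : 0 ≤ a) (h : a ≤ a') :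
    a * ((a' - a) / (a' + 2)) ≤
      (a' * vfun a' - ∫ u in (0 : ℝ)..a', vfun u) - (a * vfun a - ∫ u in (0 : ℝ)..a, vfun u) := by
  have h1 := intervalIntegral.integral_add_adjacent_intervals (vfun_int 0 a) (vfun_int a a')
  have h2 := integral_vfun_upper h
  have h3 := mul_le_mul_of_nonneg_left (le_vfun_sub ha h) ha
  rw [← h1]
  linarith

theorem rbd_aopt_lip {b b' M : ℝ} (hb : 0 < b) (hb' : b / 2 ≤ b') (hM : aopt b ≤ M)
    (hM' : aopt b' ≤ M) : |aopt b' - aopt b| ≤ 2 * (M + 2) / b * |b' - b| := by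
  have hb0' : 0 < b' := by linarith
  obtain ⟨a0, -, a1, a2, a3⟩ := aopt_spec hb
  obtain ⟨c0, -, c1, c2, c3⟩ := aopt_spec hb0'
  have key : ∀ x y z : ℝ, b ≤ x → x ≤ y → y ≤ M → x * ((y - x) / (y + 2)) ≤ 2 * z →
      y - x ≤ 2 * (M + 2) / b * z := by
    intro x y z hx hxy hyM hz
    have hy2 : 0 < y + 2 := by linarith
    have h1 : b * (y - x) ≤ x * (y - x) := mul_le_mul_of_nonneg_right hx (sub_nonneg.2 hxy)
    have h2 : x * (y - x) ≤ 2 * z * (y + 2) := by
      have : x * ((y - x) / (y + 2)) * (y + 2) ≤ 2 * z * (y + 2) :=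
        mul_le_mul_of_nonneg_right hz hy2.le
      have e : x * ((y - x) / (y + 2)) * (y + 2) = x * (y - x) := by field_simp
      rwa [e] at this
    have hz0 : 0 ≤ z := by
      have : 0 ≤ x * ((y - x) / (y + 2)) := by
        apply mul_nonneg (by linarith)
        exact div_nonneg (sub_nonneg.2 hxy) hy2.le
      linarith
    have h3 : 2 * z * (y + 2) ≤ 2 * z * (M + 2) :=
      mul_le_mul_of_nonneg_left (by linarith) (by linarith)
    have e : 2 * (M + 2) / b * z = 2 * z * (M + 2) / b := by ring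
    rw [e, le_div_iff₀ hb]
    linarith
  rcases le_total (aopt b) (aopt b') with h | h
  · have h1 := rbd_theta a0.le h
    rw [a1, c1] at h1
    have h2 := key (aopt b) (aopt b') (b' - b) (by linarith) h hM' (by linarith)
    have h3 : 0 ≤ b' - b := by
      have : 0 ≤ aopt b * ((aopt b' - aopt b) / (aopt b' + 2)) := by
        apply mul_nonneg a0.le
        exact div_nonneg (sub_nonneg.2 h) (by linarith)
      linarith
    rw [abs_of_nonneg (sub_nonneg.2 h), abs_of_nonneg h3]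
    exact h2
  · have h1 := rbd_theta c0.le h
    rw [a1, c1] at h1
    have h2 := key (aopt b') (aopt b) (b - b') (by linarith) h hM (by linarith)
    have h3 : 0 ≤ b - b' := by
      have : 0 ≤ aopt b' * ((aopt b - aopt b') / (aopt b + 2)) := by
        apply mul_nonneg c0.le
        exact div_nonneg (sub_nonneg.2 h) (by linarith)
      linarith
    rw [abs_sub_comm, abs_of_nonneg (sub_nonneg.2 h), abs_sub_comm, abs_of_nonneg h3]
    exact h2

theorem rbd_aopt_continuousAt {b : ℝ} (hb : 0 < b) : ContinuousAt aopt b := by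
  obtain ⟨a0, -, a1, a2, a3⟩ := aopt_spec hb
  set M : ℝ := 4 * (b + 1) + 2 with hM
  have hlim : Filter.Tendsto (fun b' : ℝ => 2 * (M + 2) / b * |b' - b|) (nhds b) (nhds 0) := by
    have hc : Continuous (fun b' : ℝ => 2 * (M + 2) / b * |b' - b|) := by fun_prop
    have := hc.tendsto b
    simpa using this
  have hev : ∀ᶠ b' in nhds b, |aopt b' - aopt b| ≤ 2 * (M + 2) / b * |b' - b| := by
    have h1 : ∀ᶠ b' in nhds b, b / 2 < b' := lt_mem_nhds (by linarith)
    have h2 : ∀ᶠ b' in nhds b, b' < b + 1 := gt_mem_nhds (by linarith)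
    filter_upwards [h1, h2] with b' h1 h2
    refine rbd_aopt_lip hb h1.le (by linarith) ?_
    obtain ⟨-, -, -, -, c3⟩ := aopt_spec (show 0 < b' by linarith)
    linarith
  unfold ContinuousAt
  rw [tendsto_iff_norm_sub_tendsto_zero]
  refine squeeze_zero' (Filter.Eventually.of_forall fun _ => norm_nonneg _) ?_ hlim
  filter_upwards [hev] with b' h
  rwa [Real.norm_eq_abs]

theorem rbd_brk_continuousAt {a : ℝ} (ha : 0 < a) : ContinuousAt (brk lam) a := by
  obtain ⟨C, hC⟩ := brk_sub_le (⌈a⌉₊ + 1) lam (fun l hl _ => lam_pos l hl)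
  have hlim : Filter.Tendsto (fun x : ℝ => C * Real.negMulLog |x - a|) (nhds a) (nhds 0) := by
    have hc : Continuous (fun x : ℝ => C * Real.negMulLog |x - a|) :=
      continuous_const.mul (Real.continuous_negMulLog.comp (by fun_prop))
    have := hc.tendsto a
    simpa using this
  unfold ContinuousAt
  rw [tendsto_iff_norm_sub_tendsto_zero]
  refine squeeze_zero' (Filter.Eventually.of_forall fun _ => norm_nonneg _) ?_ hlim
  have hM : a ≤ (⌈a⌉₊ : ℝ) := Nat.le_ceil a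
  have h1 : ∀ᶠ x in nhds a, 0 < x := lt_mem_nhds ha
  have h2 : ∀ᶠ x in nhds a, x < a + 1 / 4 := gt_mem_nhds (by linarith)
  have h3 : ∀ᶠ x in nhds a, a - 1 / 4 < x := lt_mem_nhds (by linarith)
  filter_upwards [h1, h2, h3] with x h1 h2 h3
  rw [Real.norm_eq_abs]
  by_cases hx : x = a
  · rw [hx]; simp
  · have hpos : 0 < |x - a| := abs_pos.2 (sub_ne_zero.2 hx)
    have h4 : |x - a| ≤ 1 / 4 := by
      rw [abs_le]; constructor <;> linarith
    have h5 := hC x a |x - a| h1.le ha.le (by push_cast; linarith) (by push_cast; linarith)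
      le_rfl hpos h4
    have e : C * |x - a| * Real.log (1 / |x - a|) = C * Real.negMulLog |x - a| := by
      unfold Real.negMulLog
      rw [one_div, Real.log_inv]
      ring
    rwa [e] at h5

theorem rbd_cexp_continuousAt {b : ℝ} (hb : 0 < b) : ContinuousAt cexp b := by
  obtain ⟨a0, -, -, -, -⟩ := aopt_spec hb
  have h1 := rbd_aopt_continuousAt hb
  have h2 : ContinuousAt (fun b => brk lam (aopt b)) b :=
    ContinuousAt.comp (f := aopt) (g := brk lam) (rbd_brk_continuousAt a0) h1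
  have h3 : ContinuousAt (fun b => vfun (aopt b)) b :=
    ContinuousAt.comp (f := aopt) (g := vfun) vfun_continuous.continuousAt h1
  have h4 : ContinuousAt (fun b => (2 * brk lam (aopt b) + 2 * vfun (aopt b)) / aopt b) b :=
    ((h2.const_mul 2).add (h3.const_mul 2)).div h1 a0.ne'
  exact h4

/-- the sequence of box sizes -/
theorem rbd_seq_tendsto {b : ℝ} (hb : 0 < b) :
    Filter.Tendsto (fun d : ℕ => Real.log (⌈Real.exp (b * d)⌉₊ : ℝ) / d) Filter.atTop
      (nhds b) := by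
  have h0 : Filter.Tendsto (fun d : ℕ => b + Real.log 2 / (d : ℝ)) Filter.atTop (nhds b) := by
    have := (tendsto_const_div_atTop_nhds_zero_nat (Real.log 2)).const_add b
    simpa using this
  refine tendsto_of_tendsto_of_tendsto_of_le_of_le' tendsto_const_nhds h0 ?_ ?_
  · filter_upwards [Filter.eventually_ge_atTop 1] with d hd
    have hd0 : (0 : ℝ) < d := by exact_mod_cast hd
    rw [le_div_iff₀ hd0]
    have h1 := Real.log_le_log (Real.exp_pos _) (Nat.le_ceil (Real.exp (b * d)))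
    rwa [Real.log_exp] at h1
  · filter_upwards [Filter.eventually_ge_atTop 1] with d hd
    have hd0 : (0 : ℝ) < d := by exact_mod_cast hd
    rw [div_le_iff₀ hd0]
    have h1 : (⌈Real.exp (b * d)⌉₊ : ℝ) ≤ 2 * Real.exp (b * d) := by
      have h2 := Nat.ceil_lt_add_one (Real.exp_pos (b * d)).le
      have h3 : 1 ≤ Real.exp (b * d) := Real.one_le_exp (by positivity)
      linarith
    have h4 : (0 : ℝ) < (⌈Real.exp (b * d)⌉₊ : ℝ) :=
      lt_of_lt_of_le (Real.exp_pos _) (Nat.le_ceil _)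
    have h5 := Real.log_le_log h4 h1
    rw [Real.log_mul (by norm_num) (Real.exp_pos _).ne', Real.log_exp] at h5
    have e : (b + Real.log 2 / (d : ℝ)) * d = b * d + Real.log 2 := by field_simp
    rw [e]
    linarith

theorem rbd_window {x e : ℝ} (h : |x - 1| ≤ 1 - Real.exp (-e)) :
    0 < x ∧ |Real.log x| ≤ e := by
  rw [abs_le] at h
  have h0 : Real.exp (-e) ≤ x := by linarith [h.1]
  have hx : 0 < x := lt_of_lt_of_le (Real.exp_pos _) h0
  have h1 : x ≤ Real.exp e := by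
    have h2 : x ≤ 2 - Real.exp (-e) := by linarith [h.2]
    have h3 : 1 ≤ Real.exp e * Real.exp (-e) := by rw [← Real.exp_add]; simp
    have h4 : 0 < Real.exp e := Real.exp_pos _
    have h5 : 0 < Real.exp (-e) := Real.exp_pos _
    nlinarith [sq_nonneg (Real.exp e - 1), sq_nonneg (Real.exp e - Real.exp (-e))]
  refine ⟨hx, ?_⟩
  rw [abs_le]
  constructor
  · have := Real.log_le_log (Real.exp_pos _) h0
    rwa [Real.log_exp] at this
  · have := Real.log_le_log hx h1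
    rwa [Real.log_exp] at this

/-- the two expansions at one pair `n, d` -/
theorem rbd_compare {P D el c a L e₁ e₂ : ℝ} (hD : 0 < D)
    (hL : L = el + 2 * Real.log D - 3 * Real.log a + 2 + Real.log 4)
    (h1 : Real.exp (-(L + e₁)) ≤ P) (h2 : P ≤ Real.exp (-(L - e₁)))
    (h3 : |P * D ^ 2 * Real.exp (el - c) - 1| ≤ 1 - Real.exp (-e₂)) :
    |c - (3 * Real.log a - 2 - Real.log 4)| ≤ e₁ + e₂ := by
  have hP : 0 < P := lt_of_lt_of_le (Real.exp_pos _) h1
  obtain ⟨-, h4⟩ := rbd_window h3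
  have h5 : Real.log (P * D ^ 2 * Real.exp (el - c)) =
      Real.log P + 2 * Real.log D + (el - c) := by
    rw [Real.log_mul (by positivity) (Real.exp_pos _).ne', Real.log_mul hP.ne' (by positivity),
      Real.log_exp, Real.log_pow]
    push_cast
    ring
  rw [h5, abs_le] at h4
  have h6 := Real.log_le_log (Real.exp_pos _) h1
  rw [Real.log_exp] at h6
  have h7 := Real.log_le_log hP h2
  rw [Real.log_exp] at h7
  rw [abs_le]
  constructor <;> linarith [h4.1, h4.2]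

theorem rbd_Lw_zero {n d : ℕ} (h0 : 0 < aopt (Real.log n / d)) :
    Lw (fun _ => 0) n d = d * ell (Real.log n / d) + 2 * Real.log d -
      3 * Real.log (aopt (Real.log n / d)) + 2 + Real.log 4 := by
  unfold Lw
  rw [rbd_avW_const 0 h0]
  ring

/-- comparison of the two expansions for large `b` -/
theorem cexp_asymp (ε : ℝ) (hε : 0 < ε) : ∃ A : ℝ, 0 < A ∧ ∀ b : ℝ, 0 < b → A ≤ aopt b →
    |cexp b - (3 * Real.log (aopt b) - 2 - Real.log 4)| ≤ ε := by
  obtain ⟨A, g, hA, hg, D₁, h1⟩ := pc_B (ε / 2) (by positivity)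
  refine ⟨A + 1, by linarith, ?_⟩
  intro b hb hAb
  obtain ⟨a0, -, -, a2, a3⟩ := aopt_spec hb
  have hwin : 0 < 1 - Real.exp (-(ε / 2)) := by
    have : Real.exp (-(ε / 2)) < 1 := by
      rw [← Real.exp_zero]
      exact Real.exp_lt_exp.2 (by linarith)
    linarith
  obtain ⟨D₂, h2⟩ := pc_mid (b / 2) (b + 1) (1 - Real.exp (-(ε / 2))) (by positivity) hwin
  have hseq := rbd_seq_tendsto hb
  have haopt := (rbd_aopt_continuousAt hb).tendsto.comp hseq
  have hcexp := (rbd_cexp_continuousAt hb).tendsto.comp hseq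
  have hlog : Filter.Tendsto (fun d : ℕ => Real.log (aopt (Real.log (⌈Real.exp (b * d)⌉₊ : ℝ) / d)))
      Filter.atTop (nhds (Real.log (aopt b))) :=
    ((Real.continuousAt_log a0.ne').tendsto.comp haopt)
  have hF : Filter.Tendsto (fun d : ℕ =>
      |cexp (Real.log (⌈Real.exp (b * d)⌉₊ : ℝ) / d) -
        (3 * Real.log (aopt (Real.log (⌈Real.exp (b * d)⌉₊ : ℝ) / d)) - 2 - Real.log 4)|)
      Filter.atTop (nhds |cexp b - (3 * Real.log (aopt b) - 2 - Real.log 4)|) :=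
    (hcexp.sub (((hlog.const_mul 3).sub_const 2).sub_const (Real.log 4))).abs
  refine le_of_tendsto hF ?_
  have ev1 : ∀ᶠ d : ℕ in Filter.atTop, A < aopt (Real.log (⌈Real.exp (b * d)⌉₊ : ℝ) / d) :=
    haopt.eventually (lt_mem_nhds (by linarith))
  have ev2 : ∀ᶠ d : ℕ in Filter.atTop,
      aopt (Real.log (⌈Real.exp (b * d)⌉₊ : ℝ) / d) < aopt b + 1 :=
    haopt.eventually (gt_mem_nhds (by linarith))
  have ev3 : ∀ᶠ d : ℕ in Filter.atTop, b / 2 < Real.log (⌈Real.exp (b * d)⌉₊ : ℝ) / d :=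
    hseq.eventually (lt_mem_nhds (by linarith))
  have ev4 : ∀ᶠ d : ℕ in Filter.atTop, Real.log (⌈Real.exp (b * d)⌉₊ : ℝ) / d < b + 1 :=
    hseq.eventually (gt_mem_nhds (by linarith))
  obtain ⟨D₃, h3⟩ := rbd_sqrt_large ((aopt b + 1) / g)
  filter_upwards [ev1, ev2, ev3, ev4, Filter.eventually_ge_atTop D₁,
    Filter.eventually_ge_atTop D₂, Filter.eventually_ge_atTop D₃,
    Filter.eventually_ge_atTop 1] with d e1 e2 e3 e4 e5 e6 e7 e8
  have hd0 : (0 : ℝ) < d := by exact_mod_cast e8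
  set n : ℕ := ⌈Real.exp (b * d)⌉₊ with hn
  have hsq := h3 d e7
  rw [div_le_iff₀ hg] at hsq
  obtain ⟨l1, l2⟩ := h1 n d e5 e1.le (by linarith)
  have l3 := h2 n d e6 (by rw [lt_div_iff₀ hd0] at e3; exact e3.le)
    (by rw [div_lt_iff₀ hd0] at e4; exact e4.le)
  have ha0 : 0 < aopt (Real.log n / d) := by linarith
  have := rbd_compare (P := pc n d 2) (D := d) (el := d * ell (Real.log n / d))
    (c := cexp (Real.log n / d)) (a := aopt (Real.log n / d)) (L := Lw (fun _ => 0) n d)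
    (e₁ := ε / 2) (e₂ := ε / 2) hd0 (rbd_Lw_zero ha0) l1 l2 l3
  linarith

/-- `d = O(log n)` and `a ≪ √d` -/
theorem pc_AB (c₀ ε : ℝ) (hc₀ : 0 < c₀) (hε : 0 < ε) : ∃ g : ℝ, 0 < g ∧ ∃ D₀ : ℕ,
    ∀ n d : ℕ, D₀ ≤ d → c₀ * d ≤ Real.log n → aopt (Real.log n / d) ≤ g * Real.sqrt d →
    |pc n d 2 / (Real.exp (cexp (Real.log n / d) - d * ell (Real.log n / d)) / d ^ 2) - 1| ≤ ε := by
  set e : ℝ := Real.log (1 + ε) with he
  have he0 : 0 < e := Real.log_pos (by linarith)
  obtain ⟨A₁, g, hA₁, hg, D₁, h1⟩ := pc_B (e / 2) (by positivity)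
  obtain ⟨A₂, hA₂, h2⟩ := cexp_asymp (e / 2) (by positivity)
  obtain ⟨D₂, h3⟩ := pc_mid c₀ (max A₁ A₂ / 2) ε hc₀ hε
  refine ⟨g, hg, max (max D₁ D₂) 1, ?_⟩
  intro n d hd hn ha
  have hd1 : D₁ ≤ d := le_trans (le_max_left _ _) ((le_max_left _ _).trans hd)
  have hd2 : D₂ ≤ d := le_trans (le_max_right _ _) ((le_max_left _ _).trans hd)
  have hd4 : 1 ≤ d := (le_max_right _ _).trans hd
  have hd0 : (0 : ℝ) < d := by exact_mod_cast hd4
  have hb0 : 0 < Real.log n / d := by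
    apply div_pos _ hd0
    have : 0 < c₀ * d := by positivity
    linarith
  obtain ⟨a0, -, -, a2, a3⟩ := aopt_spec hb0
  have heq : pc n d 2 / (Real.exp (cexp (Real.log n / d) - d * ell (Real.log n / d)) / d ^ 2)
      = pc n d 2 * d ^ 2 * Real.exp (d * ell (Real.log n / d) - cexp (Real.log n / d)) := by
    have h5 : Real.exp (d * ell (Real.log n / d) - cexp (Real.log n / d)) =
        (Real.exp (cexp (Real.log n / d) - d * ell (Real.log n / d)))⁻¹ := by
      rw [← Real.exp_neg]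
      congr 1
      ring
    rw [h5]
    have h6 : Real.exp (cexp (Real.log n / d) - d * ell (Real.log n / d)) ≠ 0 :=
      (Real.exp_pos _).ne'
    field_simp
  rw [heq]
  rcases le_total (aopt (Real.log n / d)) (max A₁ A₂) with hA | hA
  · refine h3 n d hd2 hn ?_
    have h7 : Real.log n / d ≤ max A₁ A₂ / 2 := by linarith
    rwa [div_le_iff₀ hd0] at h7
  · obtain ⟨l1, l2⟩ := h1 n d hd1 ((le_max_left _ _).trans hA) ha
    have l3 := h2 _ hb0 ((le_max_right _ _).trans hA)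
    rw [rbd_Lw_zero a0] at l1 l2
    rw [abs_le] at l3
    have hpos : 0 < (d : ℝ) ^ 2 *
        Real.exp (d * ell (Real.log n / d) - cexp (Real.log n / d)) := by positivity
    have hdd : (d : ℝ) ^ 2 = Real.exp (2 * Real.log d) := by
      rw [mul_comm, Real.exp_mul, Real.exp_log hd0]
      norm_num
    rw [mul_assoc]
    have m1 := mul_le_mul_of_nonneg_right l1 hpos.le
    have m2 := mul_le_mul_of_nonneg_right l2 hpos.le
    have hee : Real.exp e = 1 + ε := Real.exp_log (by linarith)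
    have b1 : (1 + ε)⁻¹ ≤ pc n d 2 * ((d : ℝ) ^ 2 *
        Real.exp (d * ell (Real.log n / d) - cexp (Real.log n / d))) := by
      refine le_trans ?_ m1
      rw [hdd, ← Real.exp_add, ← Real.exp_add, ← hee, ← Real.exp_neg]
      apply Real.exp_le_exp.2
      linarith [l3.1, l3.2]
    have b2 : pc n d 2 * ((d : ℝ) ^ 2 *
        Real.exp (d * ell (Real.log n / d) - cexp (Real.log n / d))) ≤ 1 + ε := by
      refine m2.trans ?_
      rw [hdd, ← Real.exp_add, ← Real.exp_add, ← hee]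
      apply Real.exp_le_exp.2
      linarith [l3.1, l3.2]
    have h5 : 1 - ε ≤ (1 + ε)⁻¹ := by
      rw [← one_div, le_div_iff₀ (by linarith)]
      nlinarith
    rw [abs_le]
    constructor <;> linarith

end Pool.Agent.Lib.MP_8501c9_pr.Wide
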