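import Pool.Agent.Lib.MP_8501c9_pr.Wide.DefsE

/-!
# The iterates of the one-level operator are comparable with the return weight

Task E4b of the wide window of `MP_8501c9_pr`. An abstract comparison theorem for a positive
operator on functions on the integers, and the estimates for `Kop`.
-/

set_option autoImplicit false
open Set

namespace Pool.Agent.Lib.MP_8501c9_pr.Wide

open Pool.Agent.Lib.MP_8501c9_pr Pool.Agent.Lib.MP_8501c9_pr.Mid

/-! ## The abstract comparison -/

theorem e4b_iter_mono {K : (ℤ → ℝ) → ℤ → ℝ}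
    (hmono : ∀ f g : ℤ → ℝ, (∀ j, f j ≤ g j) → ∀ j, K f j ≤ K g j) (n : ℕ) :
    ∀ f g : ℤ → ℝ, (∀ j, f j ≤ g j) → ∀ j, (K^[n] f) j ≤ (K^[n] g) j := by
  induction n with
  | zero => intro f g h j; exact h j
  | succ n ih =>
    intro f g h j
    rw [Function.iterate_succ_apply, Function.iterate_succ_apply]
    exact ih _ _ (hmono f g h) j

theorem e4b_iter_lin {K : (ℤ → ℝ) → ℤ → ℝ}
    (hlin : ∀ (a b : ℝ) (f g : ℤ → ℝ),
      K (fun j => a * f j + b * g j) = fun j => a * K f j + b * K g j) (n : ℕ) :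
    ∀ (a b : ℝ) (f g : ℤ → ℝ),
      K^[n] (fun j => a * f j + b * g j) = fun j => a * (K^[n] f) j + b * (K^[n] g) j := by
  induction n with
  | zero => intro a b f g; rfl
  | succ n ih =>
    intro a b f g
    rw [Function.iterate_succ_apply, hlin, ih]
    simp only [Function.iterate_succ_apply]

theorem e4b_iter_const {K : (ℤ → ℝ) → ℤ → ℝ}
    (hlin : ∀ (a b : ℝ) (f g : ℤ → ℝ),
      K (fun j => a * f j + b * g j) = fun j => a * K f j + b * K g j) (n : ℕ) (M : ℝ) (j : ℤ) :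
    (K^[n] (fun _ => M)) j = M * (K^[n] (fun _ => 1)) j := by
  have h := congrFun (e4b_iter_lin hlin n M 0 (fun _ => 1) (fun _ => 1)) j
  simpa using h

theorem e4b_abstract {K : (ℤ → ℝ) → ℤ → ℝ}
    (hmono : ∀ f g : ℤ → ℝ, (∀ j, f j ≤ g j) → ∀ j, K f j ≤ K g j)
    (hlin : ∀ (a b : ℝ) (f g : ℤ → ℝ),
      K (fun j => a * f j + b * g j) = fun j => a * K f j + b * K g j)
    {E δ κ₁ : ℝ} {J₁ : ℤ} {τ : ℕ} (hE : 1 ≤ E) (hκ₁ : 0 < κ₁) (hκ₁' : κ₁ ≤ 1)
    (hτ : 1 ≤ τ) (hδ : 0 ≤ δ) (hδE : 2 * (δ * E ^ τ) ≤ 1)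
    (hrow : ∀ i, K (fun _ => 1) i ≤ E)
    (hhold : ∀ f : ℤ → ℝ, (∀ j, 0 ≤ f j) → f 0 ≤ K f 0)
    (hfar : ∀ i : ℤ, J₁ ≤ |i| → K (fun _ => 1) i ≤ δ)
    (hto : ∀ f : ℤ → ℝ, (∀ j, 0 ≤ f j) → ∀ i : ℤ, |i| < J₁ → κ₁ * f 0 ≤ (K^[τ] f) i)
    (hfrom : ∀ f : ℤ → ℝ, (∀ j, 0 ≤ f j) → ∀ i : ℤ, |i| < J₁ → κ₁ * f i ≤ (K^[τ] f) 0)
    (n : ℕ) (i : ℤ) :
    (K^[n] (fun _ => 1)) i ≤
      (E ^ τ / κ₁) * (2 * E ^ τ / κ₁) * (K^[n] (fun j => if j = 0 then 1 else 0)) 0 := by
  have hE0 : 0 < E := by linarith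
  -- constants
  have hEτ1 : 1 ≤ E ^ τ := one_le_pow₀ hE
  have hC1 : E ^ τ ≤ E ^ τ / κ₁ := by
    rw [le_div_iff₀ hκ₁]
    exact mul_le_of_le_one_right (by positivity) hκ₁'
  have hC1' : 1 ≤ E ^ τ / κ₁ := le_trans hEτ1 hC1
  -- nonnegativity of iterates
  have hK0 : K (fun _ => 0) = fun _ => 0 := by
    have h := hlin 0 0 (fun _ => 0) (fun _ => 0)
    simpa using h
  have hpos : ∀ (p : ℕ) (f : ℤ → ℝ), (∀ j, 0 ≤ f j) → ∀ j, 0 ≤ (K^[p] f) j := by
    intro p f hf j
    have h0 : (K^[p] (fun _ => 0)) = fun _ => 0 := Function.iterate_fixed hK0 p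
    have h1 := e4b_iter_mono hmono p (fun _ => 0) f hf j
    rw [h0] at h1
    exact h1
  have hone : ∀ j : ℤ, (0 : ℝ) ≤ (fun _ : ℤ => (1 : ℝ)) j := fun j => zero_le_one
  have hd0 : ∀ j : ℤ, (0 : ℝ) ≤ (fun j : ℤ => if j = 0 then (1 : ℝ) else 0) j := by
    intro j
    dsimp only
    split_ifs <;> norm_num
  -- powers of the row bound
  have hrowp : ∀ (p : ℕ) (j : ℤ), (K^[p] (fun _ => 1)) j ≤ E ^ p := by
    intro p
    induction p with
    | zero => intro j; simp
    | succ p ih =>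
      intro j
      rw [Function.iterate_succ_apply]
      calc (K^[p] (K (fun _ => 1))) j ≤ (K^[p] (fun _ => E)) j :=
            e4b_iter_mono hmono p _ _ hrow j
        _ = E * (K^[p] (fun _ => 1)) j := e4b_iter_const hlin p E j
        _ ≤ E * E ^ p := mul_le_mul_of_nonneg_left (ih j) hE0.le
        _ = E ^ (p + 1) := by ring
  -- monotonicity at the origin
  have hmon0 : ∀ (f : ℤ → ℝ), (∀ j, 0 ≤ f j) → ∀ p q : ℕ, p ≤ q →
      (K^[p] f) 0 ≤ (K^[q] f) 0 := by
    intro f hf p q hpq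
    induction q, hpq using Nat.le_induction with
    | base => exact le_refl _
    | succ q hq ih =>
      rw [Function.iterate_succ_apply']
      exact le_trans ih (hhold _ (hpos q f hf))
  have ha1 : ∀ p : ℕ, 1 ≤ (K^[p] (fun _ => 1)) 0 := by
    intro p
    have h := hmon0 (fun _ => 1) hone 0 p (Nat.zero_le p)
    simpa using h
  have hk1 : ∀ p : ℕ, 1 ≤ (K^[p] (fun j => if j = 0 then 1 else 0)) 0 := by
    intro p
    have h := hmon0 (fun j => if j = 0 then 1 else 0) hd0 0 p (Nat.zero_le p)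
    simpa using h
  -- first claim
  have hclaim1 : ∀ (p : ℕ) (j : ℤ),
      (K^[p] (fun _ => 1)) j ≤ (E ^ τ / κ₁) * (K^[p] (fun _ => 1)) 0 := by
    intro p
    induction p using Nat.strong_induction_on with
    | _ p ih =>
      intro j
      by_cases hp : p ≤ τ
      · calc (K^[p] (fun _ => 1)) j ≤ E ^ p := hrowp p j
          _ ≤ E ^ τ := pow_le_pow_right₀ hE hp
          _ ≤ E ^ τ / κ₁ := hC1
          _ = (E ^ τ / κ₁) * 1 := by ring
          _ ≤ (E ^ τ / κ₁) * (K^[p] (fun _ => 1)) 0 :=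
            mul_le_mul_of_nonneg_left (ha1 p) (by linarith)
      · obtain ⟨q, rfl⟩ : ∃ q, p = τ + (q + 1) := ⟨p - τ - 1, by omega⟩
        have hiter : K^[τ + (q + 1)] (fun _ => 1) = K^[τ] (K^[q + 1] (fun _ => 1)) :=
          Function.iterate_add_apply K τ (q + 1) _
        set A : ℝ := (K^[τ + (q + 1)] (fun _ => 1)) 0 with hA
        have hA1 : 1 ≤ A := ha1 _
        have hg : ∀ l : ℤ, (K^[q + 1] (fun _ => 1)) l ≤ A / κ₁ := by
          intro l
          by_cases hl : |l| < J₁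
          · have h := hfrom (K^[q + 1] (fun _ => 1)) (hpos _ _ hone) l hl
            rw [← hiter, ← hA] at h
            rw [le_div_iff₀ hκ₁]
            linarith
          · have hl' : J₁ ≤ |l| := not_lt.mp hl
            rw [Function.iterate_succ_apply']
            calc K (K^[q] (fun _ => 1)) l
                ≤ K (fun _ => (E ^ τ / κ₁) * (K^[q] (fun _ => 1)) 0) l :=
                  hmono _ _ (fun j' => ih q (by omega) j') l
              _ = ((E ^ τ / κ₁) * (K^[q] (fun _ => 1)) 0) * K (fun _ => 1) l :=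
                  e4b_iter_const hlin 1 _ l
              _ ≤ ((E ^ τ / κ₁) * (K^[q] (fun _ => 1)) 0) * δ :=
                  mul_le_mul_of_nonneg_left (hfar l hl')
                    (mul_nonneg (by linarith) (by linarith [ha1 q]))
              _ = (δ * E ^ τ) * ((K^[q] (fun _ => 1)) 0 / κ₁) := by ring
              _ ≤ 1 * (A / κ₁) := by
                  apply mul_le_mul
                  · nlinarith [mul_nonneg hδ (by positivity : (0:ℝ) ≤ E ^ τ)]
                  · apply div_le_div_of_nonneg_right _ hκ₁.le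
                    exact hmon0 _ hone q _ (by omega)
                  · exact div_nonneg (by linarith [ha1 q]) hκ₁.le
                  · norm_num
              _ = A / κ₁ := one_mul _
        rw [hiter]
        calc (K^[τ] (K^[q + 1] (fun _ => 1))) j ≤ (K^[τ] (fun _ => A / κ₁)) j :=
              e4b_iter_mono hmono τ _ _ hg j
          _ = (A / κ₁) * (K^[τ] (fun _ => 1)) j := e4b_iter_const hlin τ _ j
          _ ≤ (A / κ₁) * E ^ τ :=
              mul_le_mul_of_nonneg_left (hrowp τ j) (div_nonneg (by linarith) hκ₁.le)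
          _ = (E ^ τ / κ₁) * A := by ring
  -- second claim
  have hclaim2 : ∀ p : ℕ, (K^[p] (fun _ => 1)) 0 ≤
      (2 * E ^ τ / κ₁) * (K^[p] (fun j => if j = 0 then 1 else 0)) 0 := by
    intro p
    induction p using Nat.strong_induction_on with
    | _ p ih =>
      have hC2 : E ^ τ ≤ 2 * E ^ τ / κ₁ := by
        have h : 2 * E ^ τ / κ₁ = 2 * (E ^ τ / κ₁) := by ring
        rw [h]
        linarith
      by_cases hp : p ≤ τ
      · calc (K^[p] (fun _ => 1)) 0 ≤ E ^ p := hrowp p 0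
          _ ≤ E ^ τ := pow_le_pow_right₀ hE hp
          _ ≤ 2 * E ^ τ / κ₁ := hC2
          _ = (2 * E ^ τ / κ₁) * 1 := by ring
          _ ≤ (2 * E ^ τ / κ₁) * (K^[p] (fun j => if j = 0 then 1 else 0)) 0 :=
            mul_le_mul_of_nonneg_left (hk1 p) (by linarith)
      · obtain ⟨q, rfl⟩ : ∃ q, p = q + τ := ⟨p - τ, by omega⟩
        obtain ⟨τ', rfl⟩ : ∃ τ', τ = τ' + 1 := ⟨τ - 1, by omega⟩
        have hg : ∀ l : ℤ, (K^[τ' + 1] (fun _ => 1)) l ≤
            (E ^ (τ' + 1) / κ₁) * (K^[τ' + 1] (fun j => if j = 0 then 1 else 0)) l +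
              (δ * E ^ τ') * (fun _ : ℤ => (1 : ℝ)) l := by
          intro l
          have hp0 := hpos (τ' + 1) _ hd0 l
          by_cases hl : |l| < J₁
          · have h1 := hto (fun j => if j = 0 then 1 else 0) hd0 l hl
            simp only [if_true, mul_one] at h1
            have h2 := hrowp (τ' + 1) l
            have h3 : E ^ (τ' + 1) ≤ (E ^ (τ' + 1) / κ₁) *
                (K^[τ' + 1] (fun j => if j = 0 then 1 else 0)) l := by
              calc E ^ (τ' + 1) = (E ^ (τ' + 1) / κ₁) * κ₁ := by field_simp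
                _ ≤ _ := mul_le_mul_of_nonneg_left h1 (by linarith)
            have h4 : 0 ≤ (δ * E ^ τ') * (1 : ℝ) := by positivity
            linarith
          · have hl' : J₁ ≤ |l| := not_lt.mp hl
            have h1 : (K^[τ' + 1] (fun _ => 1)) l ≤ (δ * E ^ τ') * 1 := by
              rw [Function.iterate_succ_apply']
              calc K (K^[τ'] (fun _ => 1)) l ≤ K (fun _ => E ^ τ') l :=
                    hmono _ _ (hrowp τ') l
                _ = E ^ τ' * K (fun _ => 1) l := e4b_iter_const hlin 1 _ l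
                _ ≤ E ^ τ' * δ := mul_le_mul_of_nonneg_left (hfar l hl') (by positivity)
                _ = (δ * E ^ τ') * 1 := by ring
            have h2 : 0 ≤ (E ^ (τ' + 1) / κ₁) *
                (K^[τ' + 1] (fun j => if j = 0 then 1 else 0)) l :=
              mul_nonneg (by linarith) hp0
            linarith
        have hit1 : K^[q + (τ' + 1)] (fun _ => 1) = K^[q] (K^[τ' + 1] (fun _ => 1)) :=
          Function.iterate_add_apply K q (τ' + 1) _
        have hit2 : K^[q + (τ' + 1)] (fun j => if j = 0 then 1 else 0) =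
            K^[q] (K^[τ' + 1] (fun j => if j = 0 then 1 else 0)) :=
          Function.iterate_add_apply K q (τ' + 1) _
        have h1 := e4b_iter_mono hmono q _ _ hg 0
        rw [e4b_iter_lin hlin q, ← hit1] at h1
        rw [← hit2] at h1
        have h2 := ih q (by omega)
        have h3 : (K^[q] (fun j => if j = 0 then 1 else 0)) 0 ≤
            (K^[q + (τ' + 1)] (fun j => if j = 0 then 1 else 0)) 0 :=
          hmon0 _ hd0 q _ (by omega)
        set k := (K^[q + (τ' + 1)] (fun j => if j = 0 then 1 else 0)) 0 with hk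
        have hkk : 1 ≤ k := hk1 _
        have h4 : (δ * E ^ τ') * (K^[q] (fun _ => 1)) 0 ≤ (E ^ (τ' + 1) / κ₁) * k := by
          calc (δ * E ^ τ') * (K^[q] (fun _ => 1)) 0
              ≤ (δ * E ^ τ') * ((2 * E ^ (τ' + 1) / κ₁) * k) := by
                apply mul_le_mul_of_nonneg_left _ (by positivity)
                exact le_trans h2 (mul_le_mul_of_nonneg_left h3 (by linarith))
            _ = (2 * (δ * E ^ τ')) * ((E ^ (τ' + 1) / κ₁) * k) := by ring
            _ ≤ 1 * ((E ^ (τ' + 1) / κ₁) * k) := by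
                apply mul_le_mul_of_nonneg_right _ (mul_nonneg (by linarith) (by linarith))
                have h5 : δ * E ^ τ' ≤ δ * E ^ (τ' + 1) :=
                  mul_le_mul_of_nonneg_left (pow_le_pow_right₀ hE (Nat.le_succ _)) hδ
                linarith
            _ = (E ^ (τ' + 1) / κ₁) * k := one_mul _
        calc (K^[q + (τ' + 1)] (fun _ => 1)) 0
            ≤ (E ^ (τ' + 1) / κ₁) * k + (δ * E ^ τ') * (K^[q] (fun _ => 1)) 0 := h1
          _ ≤ (E ^ (τ' + 1) / κ₁) * k + (E ^ (τ' + 1) / κ₁) * k := by linarith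
          _ = (2 * E ^ (τ' + 1) / κ₁) * k := by ring
  calc (K^[n] (fun _ => 1)) i ≤ (E ^ τ / κ₁) * (K^[n] (fun _ => 1)) 0 := hclaim1 n i
    _ ≤ (E ^ τ / κ₁) *
        ((2 * E ^ τ / κ₁) * (K^[n] (fun j => if j = 0 then 1 else 0)) 0) :=
      mul_le_mul_of_nonneg_left (hclaim2 n) (by linarith)
    _ = _ := by ring

/-! ## One level -/

/-- weights of `k` steps in `r` windows -/
noncomputable def e4b_es (d : ℕ → ℝ) : ℕ → ℕ → ℝ
  | 0, 0 => 1
  | 0, _ + 1 => 0
  | _ + 1, 0 => 1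
  | r + 1, k + 1 => e4b_es d r (k + 1) + d r * e4b_es d r k

theorem e4b_es_zero (d : ℕ → ℝ) (r : ℕ) : e4b_es d r 0 = 1 := by
  cases r <;> rfl

theorem e4b_es_nonneg {d : ℕ → ℝ} (hd : ∀ s, 0 ≤ d s) (r : ℕ) : ∀ k, 0 ≤ e4b_es d r k := by
  induction r with
  | zero =>
    intro k
    cases k with
    | zero => exact zero_le_one
    | succ k => exact le_refl _
  | succ r ih =>
    intro k
    cases k with
    | zero => exact zero_le_one
    | succ k => exact add_nonneg (ih _) (mul_nonneg (hd r) (ih k))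

theorem e4b_es_mono {d : ℕ → ℝ} (hd : ∀ s, 0 ≤ d s) {r r' : ℕ} (h : r ≤ r') (k : ℕ) :
    e4b_es d r k ≤ e4b_es d r' k := by
  induction r', h using Nat.le_induction with
  | base => exact le_refl _
  | succ r' hr ih =>
    refine le_trans ih ?_
    cases k with
    | zero => rw [e4b_es_zero, e4b_es_zero]
    | succ k =>
      have h0 := mul_nonneg (hd r') (e4b_es_nonneg hd r' k)
      show e4b_es d r' (k + 1) ≤ e4b_es d r' (k + 1) + d r' * e4b_es d r' k
      linarith

/-- taking one step in the windows `r, …, r' - 1` -/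
theorem e4b_es_step {d : ℕ → ℝ} (hd : ∀ s, 0 ≤ d s) {r r' : ℕ} (h : r ≤ r') (k : ℕ) :
    (∑ s ∈ Finset.range r', d s - ∑ s ∈ Finset.range r, d s) * e4b_es d r k ≤
      e4b_es d r' (k + 1) := by
  induction r', h using Nat.le_induction with
  | base => rw [sub_self, zero_mul]; exact e4b_es_nonneg hd _ _
  | succ r' hr ih =>
    rw [Finset.sum_range_succ]
    show _ ≤ e4b_es d r' (k + 1) + d r' * e4b_es d r' k
    have h1 := mul_le_mul_of_nonneg_left (e4b_es_mono hd hr k) (hd r')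
    linarith

theorem e4b_es_lower {d : ℕ → ℝ} (hd : ∀ s, 0 ≤ d s) {c₀ η : ℝ} (hc₀ : 0 ≤ c₀)
    (hη : 0 ≤ η) (hdc : ∀ s, d s ≤ c₀) (k : ℕ) : ∀ r : ℕ,
    k * (η + c₀) ≤ ∑ s ∈ Finset.range r, d s → η ^ k ≤ e4b_es d r k := by
  induction k with
  | zero => intro r _; rw [e4b_es_zero, pow_zero]
  | succ k ih =>
    intro r hr
    push_cast at hr
    -- the smallest number of windows for `k` steps
    have hex : ∃ q, (k : ℝ) * (η + c₀) ≤ ∑ s ∈ Finset.range q, d s := ⟨r, by linarith⟩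
    classical
    obtain ⟨q, hq, hmin⟩ : ∃ q, (k : ℝ) * (η + c₀) ≤ ∑ s ∈ Finset.range q, d s ∧
        ∀ q' < q, ¬ ((k : ℝ) * (η + c₀) ≤ ∑ s ∈ Finset.range q', d s) :=
      ⟨Nat.find hex, Nat.find_spec hex, fun q' hq' => Nat.find_min hex hq'⟩
    have hqr : q ≤ r := by
      by_contra hcon
      exact hmin r (not_le.mp hcon) (by linarith)
    have hqu : ∑ s ∈ Finset.range q, d s ≤ k * (η + c₀) + c₀ := by
      cases q with
      | zero =>
        rw [Finset.sum_range_zero]
        positivity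
      | succ q =>
        rw [Finset.sum_range_succ]
        have h1 := not_le.mp (hmin q (Nat.lt_succ_self q))
        linarith [hdc q]
    have h1 := e4b_es_step hd hqr k
    have h2 := ih q hq
    calc η ^ (k + 1) = η * η ^ k := by ring
      _ ≤ (∑ s ∈ Finset.range r, d s - ∑ s ∈ Finset.range q, d s) * e4b_es d q k := by
          apply mul_le_mul _ h2 (by positivity) (by linarith)
          linarith
      _ ≤ e4b_es d r (k + 1) := h1

theorem e4b_Kw_mono (P : ℤ → ℝ) (m : ℕ) (c : ℕ → ℝ) (hc : ∀ s, 0 ≤ c (m - (s + 1)))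
    (f g : ℤ → ℝ) (h : ∀ j, f j ≤ g j) (r : ℕ) : ∀ j, Kw P m c r f j ≤ Kw P m c r g j := by
  induction r with
  | zero => intro j; exact h (j - 1)
  | succ r ih =>
    intro j
    show Real.exp (-(P j / m)) * (Kw P m c r f j + c (m - (r + 1)) * Kw P m c r f (j + 1)) ≤
      Real.exp (-(P j / m)) * (Kw P m c r g j + c (m - (r + 1)) * Kw P m c r g (j + 1))
    apply mul_le_mul_of_nonneg_left _ (Real.exp_pos _).le
    exact add_le_add (ih j) (mul_le_mul_of_nonneg_left (ih (j + 1)) (hc r))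

theorem e4b_Kw_lin (P : ℤ → ℝ) (m : ℕ) (c : ℕ → ℝ) (a b : ℝ) (f g : ℤ → ℝ) (r : ℕ) :
    Kw P m c r (fun j => a * f j + b * g j) = fun j => a * Kw P m c r f j + b * Kw P m c r g j := by
  induction r with
  | zero => rfl
  | succ r ih =>
    funext j
    show Real.exp (-(P j / m)) * (Kw P m c r (fun j => a * f j + b * g j) j +
        c (m - (r + 1)) * Kw P m c r (fun j => a * f j + b * g j) (j + 1)) =
      a * (Real.exp (-(P j / m)) * (Kw P m c r f j + c (m - (r + 1)) * Kw P m c r f (j + 1))) +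
      b * (Real.exp (-(P j / m)) * (Kw P m c r g j + c (m - (r + 1)) * Kw P m c r g (j + 1)))
    rw [ih]
    ring

theorem e4b_Kw_nonneg (P : ℤ → ℝ) (m : ℕ) (c : ℕ → ℝ) (hc : ∀ s, 0 ≤ c (m - (s + 1)))
    (f : ℤ → ℝ) (h : ∀ j, 0 ≤ f j) (r : ℕ) : ∀ j, 0 ≤ Kw P m c r f j := by
  induction r with
  | zero => intro j; exact h (j - 1)
  | succ r ih =>
    intro j
    show 0 ≤ Real.exp (-(P j / m)) * (Kw P m c r f j + c (m - (r + 1)) * Kw P m c r f (j + 1))
    exact mul_nonneg (Real.exp_pos _).le (add_nonneg (ih j) (mul_nonneg (hc r) (ih (j + 1))))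

/-- lower bound by the paths with exactly `k` steps -/
theorem e4b_Kw_lower (P : ℤ → ℝ) (m : ℕ) (c : ℕ → ℝ) (hc : ∀ s, 0 ≤ c (m - (s + 1)))
    (f : ℤ → ℝ) (hf : ∀ j, 0 ≤ f j) (B : ℝ) (r : ℕ) : ∀ (k : ℕ) (j : ℤ),
    (∀ l : ℕ, l ≤ k → P (j + l) ≤ B) →
    Real.exp (-(r * (B / m))) * e4b_es (fun s => c (m - (s + 1))) r k * f (j + k - 1) ≤
      Kw P m c r f j := by
  induction r with
  | zero =>
    intro k j _
    cases k with
    | zero =>
      have h1 : e4b_es (fun s => c (m - (s + 1))) 0 0 = 1 := rfl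
      rw [h1]
      simp [Kw]
    | succ k =>
      have h1 : e4b_es (fun s => c (m - (s + 1))) 0 (k + 1) = 0 := rfl
      rw [h1, mul_zero, zero_mul]
      exact hf _
  | succ r ih =>
    intro k j hP
    have hPj : P j ≤ B := by simpa using hP 0 (Nat.zero_le _)
    have hm0 : (0 : ℝ) ≤ m := Nat.cast_nonneg m
    have hexp : Real.exp (-(((r + 1 : ℕ) : ℝ) * (B / m))) =
        Real.exp (-(B / m)) * Real.exp (-((r : ℝ) * (B / m))) := by
      rw [← Real.exp_add]
      congr 1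
      push_cast
      ring
    have hexp2 : Real.exp (-(B / m)) ≤ Real.exp (-(P j / m)) := by
      apply Real.exp_le_exp.mpr
      have := div_le_div_of_nonneg_right hPj hm0
      linarith
    show _ ≤ Real.exp (-(P j / m)) * (Kw P m c r f j + c (m - (r + 1)) * Kw P m c r f (j + 1))
    have hn1 := e4b_Kw_nonneg P m c hc f hf r j
    have hn2 := e4b_Kw_nonneg P m c hc f hf r (j + 1)
    rw [hexp]
    cases k with
    | zero =>
      have h1 := ih 0 j hP
      rw [e4b_es_zero] at h1 ⊢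
      calc Real.exp (-(B / m)) * Real.exp (-((r : ℝ) * (B / m))) * 1 * f (j + (0 : ℕ) - 1)
          = Real.exp (-(B / m)) *
            (Real.exp (-((r : ℝ) * (B / m))) * 1 * f (j + (0 : ℕ) - 1)) := by ring
        _ ≤ Real.exp (-(P j / m)) *
            (Kw P m c r f j + c (m - (r + 1)) * Kw P m c r f (j + 1)) := by
            apply mul_le_mul hexp2 _ _ (Real.exp_pos _).le
            · have := mul_nonneg (hc r) hn2
              linarith
            · exact mul_nonneg (by positivity) (hf _)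
    | succ k =>
      have h1 := ih (k + 1) j hP
      have h2 := ih k (j + 1) (fun l hl => by
        have := hP (l + 1) (by omega)
        have he : j + 1 + (l : ℤ) = j + ((l + 1 : ℕ) : ℤ) := by push_cast; ring
        rw [he]
        exact this)
      have he : j + 1 + (k : ℤ) - 1 = j + ((k + 1 : ℕ) : ℤ) - 1 := by push_cast; ring
      rw [he] at h2
      have h3 : e4b_es (fun s => c (m - (s + 1))) (r + 1) (k + 1) =
          e4b_es (fun s => c (m - (s + 1))) r (k + 1) +
            c (m - (r + 1)) * e4b_es (fun s => c (m - (s + 1))) r k := rfl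
      rw [h3]
      set x := e4b_es (fun s => c (m - (s + 1))) r (k + 1) with hx
      set y := e4b_es (fun s => c (m - (s + 1))) r k with hy
      set F := f (j + ((k + 1 : ℕ) : ℤ) - 1) with hF
      have hx0 : 0 ≤ x := e4b_es_nonneg hc r (k + 1)
      have hy0 : 0 ≤ y := e4b_es_nonneg hc r k
      have hF0 : 0 ≤ F := hf _
      calc Real.exp (-(B / m)) * Real.exp (-((r : ℝ) * (B / m))) *
            (x + c (m - (r + 1)) * y) * F
          = Real.exp (-(B / m)) *
            (Real.exp (-((r : ℝ) * (B / m))) * x * F +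
              c (m - (r + 1)) * (Real.exp (-((r : ℝ) * (B / m))) * y * F)) := by ring
        _ ≤ Real.exp (-(P j / m)) *
            (Kw P m c r f j + c (m - (r + 1)) * Kw P m c r f (j + 1)) := by
            apply mul_le_mul hexp2 _ _ (Real.exp_pos _).le
            · exact add_le_add h1 (mul_le_mul_of_nonneg_left h2 (hc r))
            · have := hc r
              positivity

/-- row sums -/
theorem e4b_Kw_row (P : ℤ → ℝ) (m : ℕ) (c : ℕ → ℝ) (hc : ∀ s, 0 ≤ c (m - (s + 1)))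
    (hP : ∀ j, 0 ≤ P j) (r : ℕ) : ∀ j,
    Kw P m c r (fun _ => 1) j ≤ Real.exp (∑ s ∈ Finset.range r, c (m - (s + 1))) := by
  induction r with
  | zero => intro j; simp [Kw]
  | succ r ih =>
    intro j
    show Real.exp (-(P j / m)) * (Kw P m c r (fun _ => 1) j +
      c (m - (r + 1)) * Kw P m c r (fun _ => 1) (j + 1)) ≤ _
    have h0 : Real.exp (-(P j / m)) ≤ 1 := by
      apply Real.exp_le_one_iff.mpr
      have := div_nonneg (hP j) (Nat.cast_nonneg (α := ℝ) m)
      linarith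
    have hpos : ∀ j, 0 ≤ Kw P m c r (fun _ => 1) j :=
      e4b_Kw_nonneg P m c hc _ (fun _ => zero_le_one) r
    rw [Finset.sum_range_succ, Real.exp_add]
    set x := Real.exp (∑ s ∈ Finset.range r, c (m - (s + 1))) with hx
    have hx0 : 0 < x := Real.exp_pos _
    have h1 : Kw P m c r (fun _ => 1) j + c (m - (r + 1)) * Kw P m c r (fun _ => 1) (j + 1) ≤
        x * Real.exp (c (m - (r + 1))) := by
      calc Kw P m c r (fun _ => 1) j + c (m - (r + 1)) * Kw P m c r (fun _ => 1) (j + 1)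
          ≤ x + c (m - (r + 1)) * x :=
            add_le_add (ih j) (mul_le_mul_of_nonneg_left (ih (j + 1)) (hc r))
        _ = x * (c (m - (r + 1)) + 1) := by ring
        _ ≤ x * Real.exp (c (m - (r + 1))) :=
            mul_le_mul_of_nonneg_left (Real.add_one_le_exp _) hx0.le
    have h2 : 0 ≤ Kw P m c r (fun _ => 1) j +
        c (m - (r + 1)) * Kw P m c r (fun _ => 1) (j + 1) :=
      add_nonneg (hpos j) (mul_nonneg (hc r) (hpos (j + 1)))
    calc _ ≤ 1 * (Kw P m c r (fun _ => 1) j +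
          c (m - (r + 1)) * Kw P m c r (fun _ => 1) (j + 1)) :=
          mul_le_mul_of_nonneg_right h0 h2
      _ ≤ _ := by rw [one_mul]; exact h1

/-- far starting points on the right -/
theorem e4b_Kw_right (P : ℤ → ℝ) (m : ℕ) (c : ℕ → ℝ) (hc : ∀ s, 0 ≤ c (m - (s + 1)))
    (B : ℝ) (J : ℤ) (hP : ∀ j, J ≤ j → B ≤ P j) (r : ℕ) : ∀ j, J ≤ j →
    Kw P m c r (fun _ => 1) j ≤
      Real.exp (-(r * (B / m))) * Real.exp (∑ s ∈ Finset.range r, c (m - (s + 1))) := by
  induction r with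
  | zero => intro j _; simp [Kw]
  | succ r ih =>
    intro j hj
    show Real.exp (-(P j / m)) * (Kw P m c r (fun _ => 1) j +
      c (m - (r + 1)) * Kw P m c r (fun _ => 1) (j + 1)) ≤ _
    have h0 : Real.exp (-(P j / m)) ≤ Real.exp (-(B / m)) := by
      apply Real.exp_le_exp.mpr
      have := div_le_div_of_nonneg_right (hP j hj) (Nat.cast_nonneg (α := ℝ) m)
      linarith
    have hexp : Real.exp (-(((r + 1 : ℕ) : ℝ) * (B / m))) =
        Real.exp (-(B / m)) * Real.exp (-((r : ℝ) * (B / m))) := by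
      rw [← Real.exp_add]
      congr 1
      push_cast
      ring
    have hpos : ∀ j, 0 ≤ Kw P m c r (fun _ => 1) j :=
      e4b_Kw_nonneg P m c hc _ (fun _ => zero_le_one) r
    rw [Finset.sum_range_succ, Real.exp_add, hexp]
    set x := Real.exp (∑ s ∈ Finset.range r, c (m - (s + 1))) with hx
    have hx0 : 0 < x := Real.exp_pos _
    set y := Real.exp (-((r : ℝ) * (B / m))) with hy
    have hy0 : 0 < y := Real.exp_pos _
    have h1 : Kw P m c r (fun _ => 1) j + c (m - (r + 1)) * Kw P m c r (fun _ => 1) (j + 1) ≤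
        y * x * Real.exp (c (m - (r + 1))) := by
      calc Kw P m c r (fun _ => 1) j + c (m - (r + 1)) * Kw P m c r (fun _ => 1) (j + 1)
          ≤ y * x + c (m - (r + 1)) * (y * x) :=
            add_le_add (ih j hj) (mul_le_mul_of_nonneg_left (ih (j + 1) (by omega)) (hc r))
        _ = (y * x) * (c (m - (r + 1)) + 1) := by ring
        _ ≤ (y * x) * Real.exp (c (m - (r + 1))) :=
            mul_le_mul_of_nonneg_left (Real.add_one_le_exp _) (by positivity)
    have h2 : 0 ≤ Kw P m c r (fun _ => 1) j +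
        c (m - (r + 1)) * Kw P m c r (fun _ => 1) (j + 1) :=
      add_nonneg (hpos j) (mul_nonneg (hc r) (hpos (j + 1)))
    calc _ ≤ Real.exp (-(B / m)) * (y * x * Real.exp (c (m - (r + 1)))) :=
          mul_le_mul h0 h1 h2 (Real.exp_pos _).le
      _ = _ := by ring

/-- far starting points on the left: exponential moments of the number of steps -/
theorem e4b_Kw_left (P : ℤ → ℝ) (m : ℕ) (c : ℕ → ℝ) (hc : ∀ s, 0 ≤ c (m - (s + 1)))
    (hP0 : ∀ j, 0 ≤ P j) (B t : ℝ) (J : ℤ) (ht : 0 ≤ t) (hP : ∀ j, j ≤ -J → B ≤ P j) (r : ℕ) :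
    ∀ j : ℤ, Kw P m c r (fun _ => 1) j ≤
      Real.exp (-(r * (B / m))) * Real.exp (∑ s ∈ Finset.range r, c (m - (s + 1))) +
      Real.exp (t * (j + J)) *
        Real.exp (Real.exp t * ∑ s ∈ Finset.range r, c (m - (s + 1))) := by
  induction r with
  | zero =>
    intro j
    have := Real.exp_pos (t * ((j : ℝ) + J))
    simp [Kw]
    exact this.le
  | succ r ih =>
    intro j
    have hS0 : ∀ q : ℕ, 0 ≤ ∑ s ∈ Finset.range q, c (m - (s + 1)) :=
      fun q => Finset.sum_nonneg (fun s _ => hc s)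
    have het : 1 ≤ Real.exp t := Real.one_le_exp ht
    by_cases hj : j ≤ -J
    · show Real.exp (-(P j / m)) * (Kw P m c r (fun _ => 1) j +
        c (m - (r + 1)) * Kw P m c r (fun _ => 1) (j + 1)) ≤ _
      have hPj := hP j hj
      have h0 : Real.exp (-(P j / m)) ≤ Real.exp (-(B / m)) := by
        apply Real.exp_le_exp.mpr
        have := div_le_div_of_nonneg_right hPj (Nat.cast_nonneg (α := ℝ) m)
        linarith
      have h00 : Real.exp (-(P j / m)) ≤ 1 := by
        apply Real.exp_le_one_iff.mpr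
        have := div_nonneg (hP0 j) (Nat.cast_nonneg (α := ℝ) m)
        linarith
      have hexp : Real.exp (-(((r + 1 : ℕ) : ℝ) * (B / m))) =
          Real.exp (-(B / m)) * Real.exp (-((r : ℝ) * (B / m))) := by
        rw [← Real.exp_add]
        congr 1
        push_cast
        ring
      have ih1 := ih j
      have ih2 := ih (j + 1)
      have he : Real.exp (t * (((j + 1 : ℤ) : ℝ) + J)) =
          Real.exp t * Real.exp (t * ((j : ℝ) + J)) := by
        rw [← Real.exp_add]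
        congr 1
        push_cast
        ring
      rw [he] at ih2
      rw [Finset.sum_range_succ, mul_add (Real.exp t), Real.exp_add, Real.exp_add, hexp]
      set x := Real.exp (∑ s ∈ Finset.range r, c (m - (s + 1))) with hx
      have hx0 : 0 < x := Real.exp_pos _
      set y := Real.exp (-((r : ℝ) * (B / m))) with hy
      have hy0 : 0 < y := Real.exp_pos _
      set z := Real.exp (t * ((j : ℝ) + J)) with hz
      have hz0 : 0 < z := Real.exp_pos _
      set v := Real.exp (Real.exp t * ∑ s ∈ Finset.range r, c (m - (s + 1))) with hv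
      have hv0 : 0 < v := Real.exp_pos _
      set T := Real.exp t with hT
      set e := c (m - (r + 1)) with hedef
      have he0 : 0 ≤ e := hc r
      have ha : 1 + e ≤ Real.exp e := by linarith [Real.add_one_le_exp e]
      have hb : 1 + T * e ≤ Real.exp (T * e) := by linarith [Real.add_one_le_exp (T * e)]
      have h1 : Kw P m c r (fun _ => 1) j + e * Kw P m c r (fun _ => 1) (j + 1) ≤
          y * x * (1 + e) + z * v * (1 + T * e) := by
        have := mul_le_mul_of_nonneg_left ih2 he0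
        calc _ ≤ (y * x + z * v) + e * (y * x + T * z * v) := add_le_add ih1 this
          _ = _ := by ring
      have hE0 : 0 ≤ Real.exp (-(P j / m)) := (Real.exp_pos _).le
      calc Real.exp (-(P j / m)) * (Kw P m c r (fun _ => 1) j +
            e * Kw P m c r (fun _ => 1) (j + 1))
          ≤ Real.exp (-(P j / m)) * (y * x * (1 + e) + z * v * (1 + T * e)) :=
            mul_le_mul_of_nonneg_left h1 hE0
        _ = Real.exp (-(P j / m)) * (y * x * (1 + e)) +
            Real.exp (-(P j / m)) * (z * v * (1 + T * e)) := by ring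
        _ ≤ Real.exp (-(B / m)) * (y * x * Real.exp e) + 1 * (z * v * Real.exp (T * e)) := by
            apply add_le_add
            · apply mul_le_mul h0 _ (by positivity) (Real.exp_pos _).le
              exact mul_le_mul_of_nonneg_left ha (by positivity)
            · apply mul_le_mul h00 _ (by positivity) zero_le_one
              exact mul_le_mul_of_nonneg_left hb (by positivity)
        _ = _ := by ring
    · have hj' : (0 : ℝ) ≤ (j : ℝ) + J := by
        have : (0 : ℤ) ≤ j + J := by omega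
        exact_mod_cast this
      have h1 := e4b_Kw_row P m c hc hP0 (r + 1) j
      have h2 : Real.exp (∑ s ∈ Finset.range (r + 1), c (m - (s + 1))) ≤
          Real.exp (Real.exp t * ∑ s ∈ Finset.range (r + 1), c (m - (s + 1))) := by
        apply Real.exp_le_exp.mpr
        exact le_mul_of_one_le_left (hS0 _) het
      have h3 : 1 ≤ Real.exp (t * ((j : ℝ) + J)) := Real.one_le_exp (mul_nonneg ht hj')
      have h4 : Real.exp (Real.exp t * ∑ s ∈ Finset.range (r + 1), c (m - (s + 1))) ≤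
          Real.exp (t * ((j : ℝ) + J)) *
          Real.exp (Real.exp t * ∑ s ∈ Finset.range (r + 1), c (m - (s + 1))) :=
        le_mul_of_one_le_left (Real.exp_pos _).le h3
      have h5 : 0 ≤ Real.exp (-(((r + 1 : ℕ) : ℝ) * (B / m))) *
          Real.exp (∑ s ∈ Finset.range (r + 1), c (m - (s + 1))) := by positivity
      linarith

/-! ## Connections -/

theorem e4b_conn_to {K : (ℤ → ℝ) → ℤ → ℝ}
    (hnn : ∀ f : ℤ → ℝ, (∀ j, 0 ≤ f j) → ∀ j, 0 ≤ K f j) {θ : ℝ} (hθ : 0 ≤ θ) {J : ℕ}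
    (hstep : ∀ f : ℤ → ℝ, (∀ j, 0 ≤ f j) → ∀ (j : ℤ) (k : ℕ), -(J : ℤ) ≤ j → k ≤ J + 1 →
      j + k ≤ J + 1 → θ * f (j + k - 1) ≤ K f j) (s : ℕ) (hs : s ≤ J) :
    ∀ (f : ℤ → ℝ), (∀ j, 0 ≤ f j) → ∀ i : ℤ, -(J : ℤ) ≤ i → i ≤ s →
      θ ^ (s + 1) * f 0 ≤ (K^[s + 1] f) i := by
  induction s with
  | zero =>
    intro f hf i h1 h2
    have h := hstep f hf i (Int.toNat (1 - i)) h1 (by omega) (by omega)
    have he : i + (Int.toNat (1 - i) : ℤ) - 1 = 0 := by omega
    rw [he] at h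
    simpa using h
  | succ s ih =>
    intro f hf i h1 h2
    have hnn' : ∀ j, 0 ≤ (K^[s + 1] f) j := by
      have hgen : ∀ p : ℕ, ∀ j, 0 ≤ (K^[p] f) j := by
        intro p
        induction p with
        | zero => exact hf
        | succ p ihp => rw [Function.iterate_succ_apply']; exact hnn _ ihp
      exact hgen _
    rw [Function.iterate_succ_apply', pow_succ']
    by_cases hi : i ≤ 0
    · have h := hstep (K^[s + 1] f) hnn' i (Int.toNat (1 - i)) h1 (by omega) (by omega)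
      have he : i + (Int.toNat (1 - i) : ℤ) - 1 = 0 := by omega
      rw [he] at h
      have h3 := ih (by omega) f hf 0 (by omega) (by omega)
      calc θ * θ ^ (s + 1) * f 0 = θ * (θ ^ (s + 1) * f 0) := by ring
        _ ≤ θ * (K^[s + 1] f) 0 := mul_le_mul_of_nonneg_left h3 hθ
        _ ≤ _ := h
    · have h := hstep (K^[s + 1] f) hnn' i 0 h1 (by omega) (by push_cast; omega)
      have he : i + ((0 : ℕ) : ℤ) - 1 = i - 1 := by push_cast; ring
      rw [he] at h
      have h3 := ih (by omega) f hf (i - 1) (by omega) (by push_cast at h2; omega)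
      calc θ * θ ^ (s + 1) * f 0 = θ * (θ ^ (s + 1) * f 0) := by ring
        _ ≤ θ * (K^[s + 1] f) (i - 1) := mul_le_mul_of_nonneg_left h3 hθ
        _ ≤ _ := h

theorem e4b_conn_from {K : (ℤ → ℝ) → ℤ → ℝ}
    (hnn : ∀ f : ℤ → ℝ, (∀ j, 0 ≤ f j) → ∀ j, 0 ≤ K f j) {θ : ℝ} (hθ : 0 ≤ θ) {J : ℕ}
    (hstep : ∀ f : ℤ → ℝ, (∀ j, 0 ≤ f j) → ∀ (j : ℤ) (k : ℕ), -(J : ℤ) ≤ j → k ≤ J + 1 →
      j + k ≤ J + 1 → θ * f (j + k - 1) ≤ K f j) (s : ℕ) (hs : s ≤ J) :
    ∀ (f : ℤ → ℝ), (∀ j, 0 ≤ f j) → ∀ i : ℤ, -(s : ℤ) ≤ i → i ≤ J →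
      θ ^ (s + 1) * f i ≤ (K^[s + 1] f) 0 := by
  induction s with
  | zero =>
    intro f hf i h1 h2
    have h := hstep f hf 0 (Int.toNat (i + 1)) (by omega) (by omega) (by omega)
    have he : 0 + (Int.toNat (i + 1) : ℤ) - 1 = i := by push_cast at h1; omega
    rw [he] at h
    simpa using h
  | succ s ih =>
    intro f hf i h1 h2
    rw [Function.iterate_succ_apply, pow_succ]
    by_cases hi : 0 ≤ i
    · have h := hstep f hf 0 (Int.toNat (i + 1)) (by omega) (by omega) (by omega)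
      have he : 0 + (Int.toNat (i + 1) : ℤ) - 1 = i := by omega
      rw [he] at h
      have h3 := ih (by omega) (K f) (hnn f hf) 0 (by omega) (by omega)
      calc θ ^ (s + 1) * θ * f i = θ ^ (s + 1) * (θ * f i) := by ring
        _ ≤ θ ^ (s + 1) * K f 0 := mul_le_mul_of_nonneg_left h (pow_nonneg hθ _)
        _ ≤ _ := h3
    · have h := hstep f hf (i + 1) 0 (by push_cast at h1; omega) (by omega) (by push_cast; omega)
      have he : i + 1 + ((0 : ℕ) : ℤ) - 1 = i := by push_cast; ring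
      rw [he] at h
      have h3 := ih (by omega) (K f) (hnn f hf) (i + 1) (by push_cast at h1; omega) (by omega)
      calc θ ^ (s + 1) * θ * f i = θ ^ (s + 1) * (θ * f i) := by ring
        _ ≤ θ ^ (s + 1) * K f (i + 1) := mul_le_mul_of_nonneg_left h (pow_nonneg hθ _)
        _ ≤ _ := h3

/-! ## The capped penalty -/

theorem e4b_Pcap_nonneg {κ Pc : ℝ} (hκ : 0 ≤ κ) (hPc : 0 ≤ Pc) (j : ℤ) : 0 ≤ Pcap κ Pc j := by
  unfold Pcap
  refine le_min (mul_nonneg hκ ?_) hPc
  have h : 0 ≤ j * (j - 1) := by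
    rcases le_or_gt j 0 with h | h
    · nlinarith
    · nlinarith
  exact_mod_cast h

theorem e4b_Pcap_ge {κ Pc : ℝ} (hκ : 0 ≤ κ) {J : ℤ} (hJ : 1 ≤ J)
    (hPc : κ * (J * (J - 1)) ≤ Pc) (j : ℤ) (hj : J ≤ |j|) :
    κ * (J * (J - 1)) ≤ Pcap κ Pc j := by
  unfold Pcap
  refine le_min (mul_le_mul_of_nonneg_left ?_ hκ) hPc
  have h : J * (J - 1) ≤ j * (j - 1) := by
    rcases le_or_gt 0 j with h | h
    · rw [abs_of_nonneg h] at hj; nlinarith
    · rw [abs_of_neg h] at hj; nlinarith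
  exact_mod_cast h

theorem e4b_Pcap_le {κ Pc : ℝ} (hκ : 0 ≤ κ) {J : ℤ} (j : ℤ) (h1 : -J ≤ j) (h2 : j ≤ J + 1) :
    Pcap κ Pc j ≤ κ * (J * (J + 1)) := by
  unfold Pcap
  refine (min_le_left _ _).trans (mul_le_mul_of_nonneg_left ?_ hκ)
  have h : j * (j - 1) ≤ J * (J + 1) := by
    nlinarith [mul_nonneg (by linarith : 0 ≤ j + J) (by linarith : 0 ≤ J + 1 - j)]
  exact_mod_cast h

/-! ## Constants -/

theorem e4b_consts (κ : ℝ) (hκ : 0 < κ) : ∃ J₂ : ℕ, 1 ≤ J₂ ∧
    2 * ((Real.exp (-(κ * ((J₂ : ℝ) * (J₂ - 1)))) * Real.exp (Real.exp 1) +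
      Real.exp (-((2 * Real.exp 1 + 1) * J₂)) *
        Real.exp (Real.exp (2 * Real.exp 1 + 1) * Real.exp 1)) *
      Real.exp (Real.exp 1) ^ (2 * J₂ + 1)) ≤ 1 := by
  set e := Real.exp 1 with he
  have he0 : 0 < e := Real.exp_pos 1
  obtain ⟨J, hJ⟩ := exists_nat_ge (1 + (4 * e + 2) / κ + Real.exp (2 * e + 1) * e + e + 2)
  have h1 : 0 < (4 * e + 2) / κ := by positivity
  have h2 : 0 < Real.exp (2 * e + 1) * e := by positivity
  have hJ1 : (1 : ℝ) ≤ J := by linarith
  have hq : Real.exp (-2) ≤ 1 / 4 := by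
    have h3 : (2 : ℝ) ≤ Real.exp 1 := by linarith [Real.add_one_le_exp (1 : ℝ)]
    have h4 : Real.exp 2 = Real.exp 1 * Real.exp 1 := by
      rw [← Real.exp_add]; norm_num
    have h5 : (4 : ℝ) ≤ Real.exp 2 := by
      rw [h4]
      calc (4 : ℝ) = 2 * 2 := by norm_num
        _ ≤ _ := mul_le_mul h3 h3 (by norm_num) (by linarith)
    rw [Real.exp_neg, ← one_div]
    exact one_div_le_one_div_of_le (by norm_num) h5
  have hpow : Real.exp e ^ (2 * J + 1) = Real.exp ((2 * J + 1) * e) := by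
    rw [← Real.exp_nat_mul]
    congr 1
    push_cast
    ring
  refine ⟨J, by exact_mod_cast hJ1, ?_⟩
  rw [hpow, add_mul]
  have hA : Real.exp (-(κ * ((J : ℝ) * (J - 1)))) * Real.exp e * Real.exp ((2 * J + 1) * e) ≤
      1 / 4 := by
    rw [← Real.exp_add, ← Real.exp_add]
    refine le_trans (Real.exp_le_exp.mpr ?_) hq
    have h3 : 4 * e + 2 ≤ κ * (J - 1) := by
      have h4 : (4 * e + 2) / κ ≤ J - 1 := by linarith
      rw [div_le_iff₀ hκ] at h4
      linarith
    have h5 : (4 * e + 2) * J ≤ κ * ((J : ℝ) * (J - 1)) := by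
      have := mul_le_mul_of_nonneg_right h3 (by linarith : (0 : ℝ) ≤ J)
      linarith
    have h6 : 0 ≤ e * (J - 1) := mul_nonneg he0.le (by linarith)
    linarith
  have hB : Real.exp (-((2 * e + 1) * J)) * Real.exp (Real.exp (2 * e + 1) * e) *
      Real.exp ((2 * J + 1) * e) ≤ 1 / 4 := by
    rw [← Real.exp_add, ← Real.exp_add]
    refine le_trans (Real.exp_le_exp.mpr ?_) hq
    linarith
  linarith

theorem e4b_sum_reflect (c : ℕ → ℝ) (m : ℕ) :
    ∑ s ∈ Finset.range m, c (m - (s + 1)) = ∑ w ∈ Finset.range m, c w := by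
  rw [← Finset.sum_range_reflect]
  apply Finset.sum_congr rfl
  intro s hs
  rw [Finset.mem_range] at hs
  congr 1
  omega

/-! ## The bound -/

theorem kernel_bound (κ : ℝ) (hκ : 0 < κ) : ∃ C : ℝ, 1 ≤ C ∧ ∃ P₀ c₀ : ℝ, 0 < c₀ ∧
    ∀ (Pc : ℝ) (n m : ℕ) (c : ℕ → ℝ), P₀ ≤ Pc → 1 ≤ m → (∀ w < m, 0 ≤ c w) →
      (∀ w < m, c w ≤ c₀) → 1 ≤ ∑ w ∈ Finset.range m, c w →
      ∑ w ∈ Finset.range m, c w ≤ Real.exp 1 → ∀ i : ℤ,
      ((Kop (Pcap κ Pc) m c)^[n] (fun _ => 1)) i ≤
        C * ((Kop (Pcap κ Pc) m c)^[n] (fun j => if j = 0 then 1 else 0)) 0 := by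
  obtain ⟨J₂, hJ₂, hconst⟩ := e4b_consts κ hκ
  set e : ℝ := Real.exp 1 with he
  set E : ℝ := Real.exp e with hEdef
  set t : ℝ := 2 * e + 1 with ht
  set B : ℝ := κ * ((J₂ : ℝ) * (J₂ - 1)) with hB
  set δ : ℝ := Real.exp (-B) * E + Real.exp (-(t * J₂)) * Real.exp (Real.exp t * e) with hδ
  set J : ℕ := 2 * J₂ with hJ
  set B₁ : ℝ := κ * ((J : ℝ) * (J + 1)) with hB₁
  set c₀ : ℝ := 1 / (2 * ((J : ℝ) + 2)) with hc₀
  set θ : ℝ := Real.exp (-B₁) * c₀ ^ (J + 1) with hθ
  set κ₁ : ℝ := θ ^ (J + 1) with hκ₁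
  have he0 : 0 < e := Real.exp_pos 1
  have hE1 : 1 ≤ E := Real.one_le_exp he0.le
  have hJ₂r : (1 : ℝ) ≤ J₂ := by exact_mod_cast hJ₂
  have hB0 : 0 ≤ B := mul_nonneg hκ.le (mul_nonneg (by linarith) (by linarith))
  have hB₁0 : 0 ≤ B₁ := by positivity
  have hc₀0 : 0 < c₀ := by positivity
  have hc₀1 : c₀ ≤ 1 := by
    rw [hc₀, div_le_one (by positivity)]
    have : (0 : ℝ) ≤ J := Nat.cast_nonneg J
    linarith
  have hθ0 : 0 < θ := by positivity
  have hθ1 : θ ≤ 1 := by
    have h1 : Real.exp (-B₁) ≤ 1 := Real.exp_le_one_iff.mpr (by linarith)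
    have h2 : c₀ ^ (J + 1) ≤ 1 := pow_le_one₀ hc₀0.le hc₀1
    exact mul_le_one₀ h1 (by positivity) h2
  have hκ₁0 : 0 < κ₁ := by positivity
  have hκ₁1 : κ₁ ≤ 1 := pow_le_one₀ hθ0.le hθ1
  have hEτ1 : 1 ≤ E ^ (J + 1) := one_le_pow₀ hE1
  have hC1 : 1 ≤ E ^ (J + 1) / κ₁ := by
    rw [le_div_iff₀ hκ₁0]
    linarith
  have hC : 1 ≤ (E ^ (J + 1) / κ₁) * (2 * E ^ (J + 1) / κ₁) := by
    have h2 : 2 * E ^ (J + 1) / κ₁ = 2 * (E ^ (J + 1) / κ₁) := by ring
    rw [h2]
    exact one_le_mul_of_one_le_of_one_le hC1 (by linarith)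
  refine ⟨(E ^ (J + 1) / κ₁) * (2 * E ^ (J + 1) / κ₁), hC, B, c₀, hc₀0, ?_⟩
  intro Pc n m c hPc hm hcn hcc hS1 hSe i
  have hPc0 : 0 ≤ Pc := le_trans hB0 hPc
  have hmr : (0 : ℝ) < m := by exact_mod_cast hm
  have hd : ∀ s, 0 ≤ c (m - (s + 1)) := fun s => hcn _ (by omega)
  have hdc : ∀ s, c (m - (s + 1)) ≤ c₀ := fun s => hcc _ (by omega)
  have hP0 : ∀ j, 0 ≤ Pcap κ Pc j := e4b_Pcap_nonneg hκ.le hPc0
  have hsum := e4b_sum_reflect c m
  have hcancel : ∀ x : ℝ, (m : ℝ) * (x / m) = x := fun x => by field_simp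
  have hnn : ∀ f : ℤ → ℝ, (∀ j, 0 ≤ f j) → ∀ j, 0 ≤ Kop (Pcap κ Pc) m c f j :=
    fun f hf => e4b_Kw_nonneg _ m c hd f hf m
  -- the one-level step
  have hstep : ∀ f : ℤ → ℝ, (∀ j, 0 ≤ f j) → ∀ (j : ℤ) (k : ℕ), -(J : ℤ) ≤ j → k ≤ J + 1 →
      j + k ≤ J + 1 → θ * f (j + k - 1) ≤ Kop (Pcap κ Pc) m c f j := by
    intro f hf j k h1 h2 h3
    have h4 := e4b_Kw_lower (Pcap κ Pc) m c hd f hf B₁ m k j (fun l hl => by
      have := e4b_Pcap_le (κ := κ) (Pc := Pc) hκ.le (J := (J : ℤ)) (j + l) (by omega) (by omega)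
      push_cast at this
      exact this)
    rw [hcancel] at h4
    refine le_trans (mul_le_mul_of_nonneg_right ?_ (hf _)) h4
    apply mul_le_mul_of_nonneg_left _ (Real.exp_pos _).le
    have h5 : c₀ ^ k ≤ e4b_es (fun s => c (m - (s + 1))) m k := by
      apply e4b_es_lower hd hc₀0.le hc₀0.le hdc k m
      rw [hsum]
      refine le_trans ?_ hS1
      have h6 : (k : ℝ) ≤ J + 1 := by exact_mod_cast h2
      have h7 : c₀ + c₀ = 1 / ((J : ℝ) + 2) := by
        rw [hc₀]
        field_simp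
        ring
      rw [h7]
      have hJ0 : (0 : ℝ) ≤ J := Nat.cast_nonneg J
      rw [mul_one_div, div_le_one (by linarith)]
      linarith
    exact le_trans (pow_le_pow_of_le_one hc₀0.le hc₀1 h2) h5
  refine e4b_abstract (K := Kop (Pcap κ Pc) m c) (E := E) (δ := δ) (κ₁ := κ₁) (J₁ := (J : ℤ))
    (τ := J + 1) ?_ ?_ hE1 hκ₁0 hκ₁1 (by omega) (by positivity) ?_ ?_ ?_ ?_ ?_ ?_ n i
  · exact fun f g h => e4b_Kw_mono _ m c hd f g h m
  · exact fun a b f g => e4b_Kw_lin _ m c a b f g m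
  · exact hconst
  · intro j
    have h := e4b_Kw_row _ m c hd hP0 m j
    rw [hsum] at h
    exact le_trans h (Real.exp_le_exp.mpr hSe)
  · intro f hf
    have h4 := e4b_Kw_lower (Pcap κ Pc) m c hd f hf 0 m 1 0 (fun l hl => by
      have := e4b_Pcap_le (κ := κ) (Pc := Pc) hκ.le (J := (0 : ℤ)) (0 + l) (by omega) (by omega)
      simpa using this)
    have h5 := e4b_es_step hd (Nat.zero_le m) 0
    rw [hsum, Finset.sum_range_zero, sub_zero, e4b_es_zero, mul_one] at h5
    have h6 : (1 : ℝ) ≤ e4b_es (fun s => c (m - (s + 1))) m 1 := le_trans hS1 h5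
    have h7 : Real.exp (-((m : ℝ) * (0 / m))) = 1 := by simp
    have h8 : (0 : ℤ) + ((1 : ℕ) : ℤ) - 1 = 0 := by norm_num
    rw [h7, h8, one_mul] at h4
    calc f 0 = 1 * f 0 := (one_mul _).symm
      _ ≤ e4b_es (fun s => c (m - (s + 1))) m 1 * f 0 := mul_le_mul_of_nonneg_right h6 (hf 0)
      _ ≤ _ := h4
  · intro j hj
    have hge : ∀ l : ℤ, (J₂ : ℤ) ≤ |l| → B ≤ Pcap κ Pc l := by
      intro l hl
      have h := e4b_Pcap_ge (κ := κ) (Pc := Pc) hκ.le (J := (J₂ : ℤ)) (by exact_mod_cast hJ₂)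
        (by push_cast; exact hPc) l hl
      push_cast at h
      exact h
    have hsec : 0 ≤ Real.exp (-(t * J₂)) * Real.exp (Real.exp t * e) := by positivity
    have hfirst : Real.exp (-((m : ℝ) * (B / m))) *
        Real.exp (∑ s ∈ Finset.range m, c (m - (s + 1))) ≤ Real.exp (-B) * E := by
      rw [hcancel, hsum]
      exact mul_le_mul_of_nonneg_left (Real.exp_le_exp.mpr hSe) (Real.exp_pos _).le
    rcases le_or_gt 0 j with h0 | h0
    · rw [abs_of_nonneg h0] at hj
      have h := e4b_Kw_right (Pcap κ Pc) m c hd B (J₂ : ℤ)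
        (fun l hl => hge l (le_trans hl (le_abs_self l))) m j (by omega)
      calc Kop (Pcap κ Pc) m c (fun _ => 1) j ≤ _ := h
        _ ≤ Real.exp (-B) * E := hfirst
        _ ≤ δ := by rw [hδ]; linarith
    · rw [abs_of_neg h0] at hj
      have h := e4b_Kw_left (Pcap κ Pc) m c hd hP0 B t (J₂ : ℤ) (by positivity)
        (fun l hl => hge l (by rw [abs_of_nonpos (by omega)]; omega)) m j
      have h2 : Real.exp (t * ((j : ℝ) + ((J₂ : ℤ) : ℝ))) *
          Real.exp (Real.exp t * ∑ s ∈ Finset.range m, c (m - (s + 1))) ≤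
          Real.exp (-(t * J₂)) * Real.exp (Real.exp t * e) := by
        apply mul_le_mul _ _ (Real.exp_pos _).le (Real.exp_pos _).le
        · apply Real.exp_le_exp.mpr
          have h3 : (j : ℝ) ≤ -(2 * (J₂ : ℝ)) := by
            have : j ≤ -(2 * (J₂ : ℤ)) := by omega
            exact_mod_cast this
          have h4 : (j : ℝ) + ((J₂ : ℤ) : ℝ) ≤ -(J₂ : ℝ) := by push_cast; linarith
          have h5 := mul_le_mul_of_nonneg_left h4 (by positivity : (0 : ℝ) ≤ t)
          linarith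
        · apply Real.exp_le_exp.mpr
          rw [hsum]
          exact mul_le_mul_of_nonneg_left hSe (Real.exp_pos _).le
      calc Kop (Pcap κ Pc) m c (fun _ => 1) j ≤ _ := h
        _ ≤ Real.exp (-B) * E + Real.exp (-(t * J₂)) * Real.exp (Real.exp t * e) :=
          add_le_add hfirst h2
        _ = δ := hδ.symm
  · intro f hf j hj
    exact e4b_conn_to hnn hθ0.le hstep J le_rfl f hf j
      (by have := abs_lt.mp hj; omega) (by have := abs_lt.mp hj; omega)
  · intro f hf j hj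
    exact e4b_conn_from hnn hθ0.le hstep J le_rfl f hf j
      (by have := abs_lt.mp hj; omega) (by have := abs_lt.mp hj; omega)

end Pool.Agent.Lib.MP_8501c9_pr.Wide
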