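import Pool.Agent.Lib.MP_8501c9_pr.Wide.DefsE

/-!
# MP_8501c9_pr, Wide task E4a: path expansion of the iterated one-level operator
-/

set_option autoImplicit false
open Set

namespace Pool.Agent.Lib.MP_8501c9_pr.Wide

open Pool.Agent.Lib.MP_8501c9_pr Pool.Agent.Lib.MP_8501c9_pr.Mid

/-- one window, including the shift at the end of a level -/
noncomputable def e4aT (P : ℤ → ℝ) (m : ℕ) (c : ℕ → ℝ) (τ : ℕ) (F : ℤ → ℝ) : ℤ → ℝ :=
  Tw P m (c (τ % m)) (fun j => F (j - if m ∣ τ + 1 then 1 else 0))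

/-- the first `N` windows -/
noncomputable def e4aO (P : ℤ → ℝ) (m : ℕ) (c : ℕ → ℝ) : ℕ → (ℤ → ℝ) → ℤ → ℝ
  | 0, F => F
  | N + 1, F => e4aO P m c N (e4aT P m c N F)

lemma e4a_posn_insert (m : ℕ) {N τ : ℕ} (A : Finset ℕ) (hτ : τ ≤ N) :
    posn m (insert N A) τ = posn m A τ := by
  unfold posn
  rw [Finset.filter_insert, if_neg (by omega)]

lemma e4a_filter {N τ : ℕ} {A : Finset ℕ} (hA : A ⊆ Finset.range N) (hτ : N ≤ τ) :
    A.filter (fun σ => σ < τ) = A := by
  refine Finset.filter_true_of_mem fun σ hσ => ?_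
  have := Finset.mem_range.1 (hA hσ)
  omega

lemma e4a_posn_succ (m : ℕ) {N : ℕ} {A : Finset ℕ} (hA : A ⊆ Finset.range N) :
    posn m A (N + 1) = posn m A N - if m ∣ N + 1 then 1 else 0 := by
  unfold posn
  rw [e4a_filter hA (Nat.le_succ N), e4a_filter hA le_rfl, Nat.succ_div]
  split_ifs <;> push_cast <;> ring

lemma e4a_posn_insert_succ (m : ℕ) {N : ℕ} {A : Finset ℕ} (hA : A ⊆ Finset.range N) :
    posn m (insert N A) (N + 1) = posn m A N + 1 - if m ∣ N + 1 then 1 else 0 := by
  have hN : N ∉ A := fun h => by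
    have := Finset.mem_range.1 (hA h)
    omega
  have hA' : insert N A ⊆ Finset.range (N + 1) := by
    intro x hx
    rw [Finset.mem_insert] at hx
    rw [Finset.mem_range]
    rcases hx with rfl | hx
    · omega
    · have := Finset.mem_range.1 (hA hx)
      omega
  unfold posn
  rw [e4a_filter hA' le_rfl, e4a_filter hA le_rfl, Nat.succ_div, Finset.card_insert_of_notMem hN]
  split_ifs <;> push_cast <;> ring

/-- path expansion -/
theorem e4a_expand (P : ℤ → ℝ) (m : ℕ) (c : ℕ → ℝ) (N : ℕ) (F : ℤ → ℝ) (i : ℤ) :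
    e4aO P m c N F i = ∑ A ∈ (Finset.range N).powerset, (∏ τ ∈ A, c (τ % m)) *
      Real.exp (-(∑ τ ∈ Finset.range N, P (i + posn m A τ) / m)) * F (i + posn m A N) := by
  induction N generalizing F with
  | zero =>
    simp [e4aO, posn]
  | succ N ih =>
    have h0 : e4aO P m c (N + 1) F i = e4aO P m c N (e4aT P m c N F) i := rfl
    rw [h0, ih, Finset.range_add_one, Finset.sum_powerset_insert Finset.notMem_range_self,
      ← Finset.sum_add_distrib]
    refine Finset.sum_congr rfl fun A hA => ?_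
    rw [Finset.mem_powerset] at hA
    have hN : N ∉ A := fun h => by
      have := Finset.mem_range.1 (hA h)
      omega
    have h1 : ∑ τ ∈ insert N (Finset.range N), P (i + posn m (insert N A) τ) / m =
        ∑ τ ∈ insert N (Finset.range N), P (i + posn m A τ) / m := by
      refine Finset.sum_congr rfl fun τ hτ => ?_
      rw [e4a_posn_insert]
      rw [Finset.mem_insert, Finset.mem_range] at hτ
      omega
    rw [h1, Finset.prod_insert hN, Finset.sum_insert Finset.notMem_range_self, neg_add,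
      Real.exp_add, e4a_posn_succ m hA, e4a_posn_insert_succ m hA]
    have h2 : e4aT P m c N F (i + posn m A N) = Real.exp (-(P (i + posn m A N) / m)) *
        (F (i + posn m A N - if m ∣ N + 1 then 1 else 0) +
          c (N % m) * F (i + posn m A N + 1 - if m ∣ N + 1 then 1 else 0)) := rfl
    have h3 : i + (posn m A N - if m ∣ N + 1 then 1 else 0)
        = i + posn m A N - if m ∣ N + 1 then 1 else 0 := by ring
    have h4 : i + (posn m A N + 1 - if m ∣ N + 1 then 1 else 0)
        = i + posn m A N + 1 - if m ∣ N + 1 then 1 else 0 := by ring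
    rw [h2, h3, h4]
    ring

lemma e4a_level (P : ℤ → ℝ) (m : ℕ) (c : ℕ → ℝ) (n : ℕ) (F : ℤ → ℝ) (r : ℕ) (hr : r + 1 ≤ m) :
    e4aO P m c (n * m + (m - (r + 1))) (Kw P m c (r + 1) F) = e4aO P m c (n * m + m) F := by
  induction r with
  | zero =>
    have e : n * m + m = n * m + (m - (0 + 1)) + 1 := by omega
    have h1 : (n * m + (m - (0 + 1))) % m = m - 1 := by
      rw [Nat.mul_comm, Nat.mul_add_mod, Nat.mod_eq_of_lt (by omega)]
    have h2 : m ∣ n * m + (m - (0 + 1)) + 1 := ⟨n + 1, by rw [← e]; ring⟩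
    rw [e]
    show _ = e4aO P m c (n * m + (m - (0 + 1))) (e4aT P m c (n * m + (m - (0 + 1))) F)
    congr 1
    unfold e4aT
    rw [h1]
    funext j
    simp only [if_pos h2]
    rfl
  | succ r ih =>
    rw [← ih (by omega)]
    have e : n * m + (m - (r + 1)) = n * m + (m - (r + 1 + 1)) + 1 := by omega
    have h1 : (n * m + (m - (r + 1 + 1))) % m = m - (r + 1 + 1) := by
      rw [Nat.mul_comm, Nat.mul_add_mod, Nat.mod_eq_of_lt (by omega)]
    have h2 : ¬ m ∣ n * m + (m - (r + 1 + 1)) + 1 := by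
      rw [← e]
      intro h
      have h3 : m ∣ m - (r + 1) := (Nat.dvd_add_right (Dvd.intro_left n rfl)).1 h
      have := Nat.le_of_dvd (by omega) h3
      omega
    rw [e]
    show _ = e4aO P m c (n * m + (m - (r + 1 + 1)))
      (e4aT P m c (n * m + (m - (r + 1 + 1))) (Kw P m c (r + 1) F))
    congr 1
    unfold e4aT
    rw [h1]
    funext j
    simp only [if_neg h2, sub_zero]
    rfl

lemma e4a_iter (P : ℤ → ℝ) (m : ℕ) (hm : 1 ≤ m) (c : ℕ → ℝ) (n : ℕ) (F : ℤ → ℝ) :
    (Kop P m c)^[n] F = e4aO P m c (n * m) F := by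
  induction n generalizing F with
  | zero => simp [e4aO]
  | succ n ih =>
    rw [Function.iterate_succ_apply, ih]
    have h := e4a_level P m c n F (m - 1) (by omega)
    have e1 : m - 1 + 1 = m := by omega
    rw [e1, Nat.sub_self, add_zero] at h
    rw [Nat.succ_mul, ← h]
    rfl

theorem kop_eq_ZZ (κ Pc : ℝ) (hκ : 0 ≤ κ) (n m : ℕ) (hm : 1 ≤ m) (hPc : κ * (n * (n + 1)) ≤ Pc)
    (u : ℕ → ℝ) : ((Kop (Pcap κ Pc) m (fun w => Real.exp (u w) / m))^[n]
      (fun j => if j = 0 then 1 else 0)) 0 = ZZ κ n m u := by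
  rw [e4a_iter _ m hm, e4a_expand]
  have hm0 : (0 : ℝ) < m := by exact_mod_cast hm
  have hpos : ∀ A ∈ (Finset.range (n * m)).powerset,
      posn m A (n * m) = (A.card : ℤ) - n := by
    intro A hA
    rw [Finset.mem_powerset] at hA
    unfold posn
    rw [e4a_filter hA le_rfl, Nat.mul_div_cancel _ (by omega)]
  unfold ZZ pats
  rw [← Finset.sum_filter_add_sum_filter_not (Finset.range (n * m)).powerset
    (fun A => A.card = n)]
  have h2 : ∑ A ∈ (Finset.range (n * m)).powerset.filter (fun A => ¬ A.card = n),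
      (∏ τ ∈ A, (fun w => Real.exp (u w) / m) (τ % m)) *
      Real.exp (-(∑ τ ∈ Finset.range (n * m), Pcap κ Pc (0 + posn m A τ) / m)) *
      (fun j : ℤ => if j = 0 then (1 : ℝ) else 0) (0 + posn m A (n * m)) = 0 := by
    refine Finset.sum_eq_zero fun A hA => ?_
    rw [Finset.mem_filter] at hA
    rw [hpos A hA.1]
    simp only [zero_add]
    rw [if_neg (by omega), mul_zero]
  rw [h2, add_zero, Finset.powersetCard_eq_filter]
  refine Finset.sum_congr rfl fun A hA => ?_
  rw [Finset.mem_filter] at hA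
  rw [hpos A hA.1]
  simp only [zero_add]
  rw [if_pos (by omega), mul_one]
  unfold pwt
  have hAr := Finset.mem_powerset.1 hA.1
  have h3 : ∀ τ ∈ Finset.range (n * m), Pcap κ Pc (posn m A τ) / m =
      κ / m * ((posn m A τ : ℝ) * ((posn m A τ : ℝ) - 1)) := by
    intro τ hτ
    rw [Finset.mem_range] at hτ
    have hb1 : posn m A τ ≤ n := by
      unfold posn
      have h8 := Finset.card_filter_le A (fun σ => σ < τ)
      have h8' : ((A.filter (fun σ => σ < τ)).card : ℤ) ≤ n := by
        exact_mod_cast h8.trans hA.2.le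
      have h9 : (0 : ℤ) ≤ ((τ / m : ℕ) : ℤ) := Int.natCast_nonneg _
      linarith
    have hb2 : -(n : ℤ) ≤ posn m A τ := by
      unfold posn
      have h4 : τ / m < n := Nat.div_lt_of_lt_mul (by rw [Nat.mul_comm]; exact hτ)
      have h4' : ((τ / m : ℕ) : ℤ) < n := Int.ofNat_lt.2 h4
      have h7 : (0 : ℤ) ≤ ((A.filter (fun σ => σ < τ)).card : ℤ) := Int.natCast_nonneg _
      linarith
    have hb1' : (posn m A τ : ℝ) ≤ n := by exact_mod_cast hb1
    have hb2' : -(n : ℝ) ≤ posn m A τ := by exact_mod_cast hb2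
    have h5 : (posn m A τ : ℝ) * ((posn m A τ : ℝ) - 1) ≤ n * (n + 1) := by nlinarith
    have h6 : Pcap κ Pc (posn m A τ) = κ * ((posn m A τ : ℝ) * ((posn m A τ : ℝ) - 1)) := by
      unfold Pcap
      exact min_eq_left ((mul_le_mul_of_nonneg_left h5 hκ).trans hPc)
    rw [h6]
    ring
  rw [Finset.sum_congr rfl h3, ← Finset.mul_sum, sub_eq_add_neg, Real.exp_add]
  congr 1
  rw [Real.exp_sum]
  refine Finset.prod_congr rfl fun τ _ => ?_
  rw [Real.exp_sub, Real.exp_log hm0]

end Pool.Agent.Lib.MP_8501c9_pr.Wide
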