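import Mathlib

/-!
# MP_8501c9_pr, Wide task E2: rational approximation preserving integral linear relations
-/

set_option autoImplicit false
open Set

namespace Pool.Agent.Lib.MP_8501c9_pr.Wide

theorem rat_approx {ι : Type*} [Fintype ι] (x : ι → ℝ) (ε : ℝ) (hε : 0 < ε) :
    ∃ q : ι → ℚ, (∀ i, |(q i : ℝ) - x i| < ε) ∧
      ∀ (a : ι → ℤ) (b : ℤ), ∑ i, (a i : ℝ) * x i = b → ∑ i, (a i : ℚ) * q i = b := by
  classical
  let s : Set ℝ := insert (1 : ℝ) (Set.range x)
  have hs : s.Finite := (Set.finite_range x).insert 1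
  let W : Submodule ℚ ℝ := Submodule.span ℚ s
  have : FiniteDimensional ℚ W := FiniteDimensional.span_of_finite ℚ hs
  let B := Module.finBasis ℚ W
  let one : W := ⟨1, Submodule.subset_span (Set.mem_insert _ _)⟩
  let y : ι → W := fun i => ⟨x i, Submodule.subset_span (Set.mem_insert_of_mem _ ⟨i, rfl⟩)⟩
  -- coordinates
  let L : W → (Fin (Module.finrank ℚ W) → ℝ) → ℝ := fun v t => ∑ k, ((B.repr v k : ℚ) : ℝ) * t k
  have hL : ∀ v : W, L v (fun k => (B k : ℝ)) = v := by
    intro v
    have h := congrArg (Subtype.val) (B.sum_repr v)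
    simp only [L]
    rw [← h]
    simp only [Submodule.coe_sum, Submodule.coe_smul, Rat.smul_def]
  have hLc : ∀ v, Continuous (L v) := fun v => by
    simp only [L]
    fun_prop
  have hone : L one (fun k => (B k : ℝ)) = 1 := hL one
  have hy : ∀ i, L (y i) (fun k => (B k : ℝ)) = x i := fun i => hL (y i)
  have hev1 : ∀ᶠ t in nhds (fun k => (B k : ℝ)), L one t ≠ 0 :=
    (hLc one).continuousAt.eventually_ne (by rw [hone]; exact one_ne_zero)
  have hev2 : ∀ᶠ t in nhds (fun k => (B k : ℝ)), ∀ i, |L (y i) t / L one t - x i| < ε := by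
    rw [Filter.eventually_all]
    intro i
    have hc : ContinuousAt (fun t => |L (y i) t / L one t - x i|) (fun k => (B k : ℝ)) := by
      refine ((ContinuousAt.div (hLc (y i)).continuousAt (hLc one).continuousAt ?_).sub
        continuousAt_const).abs
      rw [hone]; exact one_ne_zero
    have h0 : |L (y i) (fun k => (B k : ℝ)) / L one (fun k => (B k : ℝ)) - x i| < ε := by
      rw [hone, hy, div_one, sub_self, abs_zero]
      exact hε
    exact hc.eventually (gt_mem_nhds h0)
  have hd : DenseRange (Pi.map fun (_ : Fin (Module.finrank ℚ W)) (q : ℚ) => (q : ℝ)) :=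
    DenseRange.piMap fun _ => Rat.denseRange_cast
  obtain ⟨U, hU1, hU2, hU3⟩ := mem_nhds_iff.1 (hev1.and hev2)
  obtain ⟨r, hr⟩ := hd.exists_mem_open hU2 ⟨_, hU3⟩
  have ht := hU1 hr
  obtain ⟨ht1, ht2⟩ := ht
  let φ : W →ₗ[ℚ] ℚ := B.constr ℚ r
  have hφ : ∀ v, ((φ v : ℚ) : ℝ) = L v (Pi.map (fun _ (q : ℚ) => (q : ℝ)) r) := by
    intro v
    simp only [φ, L, Module.Basis.constr_apply_fintype, Pi.map_apply, Module.Basis.equivFun_apply,
      smul_eq_mul]
    push_cast
    rfl
  have hφ1 : φ one ≠ 0 := by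
    intro h
    apply ht1
    rw [← hφ, h, Rat.cast_zero]
  refine ⟨fun i => φ (y i) / φ one, fun i => ?_, fun a b hab => ?_⟩
  · rw [Rat.cast_div, hφ, hφ]
    exact ht2 i
  · have hW : ∑ i, (a i : ℚ) • y i = (b : ℚ) • one := by
      apply Subtype.ext
      rw [Submodule.coe_sum, Submodule.coe_smul]
      simp only [Submodule.coe_smul, Rat.smul_def, y, one]
      push_cast
      rw [mul_one, hab]
    have h := congrArg φ hW
    rw [map_sum, map_smul] at h
    simp only [map_smul, smul_eq_mul] at h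
    calc ∑ i, (a i : ℚ) * (φ (y i) / φ one) = (∑ i, (a i : ℚ) * φ (y i)) / φ one := by
          rw [Finset.sum_div]
          exact Finset.sum_congr rfl fun i _ => by ring
      _ = b := by
          rw [h, mul_div_assoc, div_self hφ1, mul_one]

end Pool.Agent.Lib.MP_8501c9_pr.Wide
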