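import Pool.Agent.Lib.MP_8501c9_pr.Wide.DefsE
import Pool.Agent.Lib.MP_8501c9_pr.Wide.RatApprox

/-!
# Real flows can be replaced by integral ones
-/

set_option autoImplicit false
open Set

namespace Pool.Agent.Lib.MP_8501c9_pr.Wide

open Pool.Agent.Lib.MP_8501c9_pr Pool.Agent.Lib.MP_8501c9_pr.Mid

/-! ### rational approximation of finitely supported families -/

theorem fc_approx {T : Type} [DecidableEq T] (S : Finset T) (X : T → ℝ)
    (hX : ∀ t, t ∉ S → X t = 0) (ε : ℝ) (hε : 0 < ε) :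
    ∃ Y : T → ℚ, (∀ t, |(Y t : ℝ) - X t| < ε) ∧ (∀ t, t ∉ S → Y t = 0) ∧
      ∀ (ι : Type) (s : Finset ι) (c : ι → ℤ) (t : ι → T) (b : ℤ),
        ∑ i ∈ s, (c i : ℝ) * X (t i) = b → ∑ i ∈ s, (c i : ℚ) * Y (t i) = b := by
  classical
  obtain ⟨q, hq, hrel⟩ := rat_approx (fun t : S => X t) ε hε
  refine ⟨fun t => if h : t ∈ S then q ⟨t, h⟩ else 0, fun t => ?_, fun t ht => ?_, ?_⟩
  · by_cases h : t ∈ S
    · simp only [dif_pos h]
      exact hq ⟨t, h⟩
    · simp only [dif_neg h, hX t h]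
      simpa using hε
  · simp only [dif_neg ht]
  · intro ι s c t b h
    have h1 : ∀ i, X (t i) = ∑ τ : S, (if t i = τ then 1 else 0) * X τ := by
      intro i
      by_cases hi : t i ∈ S
      · rw [Finset.sum_eq_single (⟨t i, hi⟩ : S)]
        · simp
        · intro τ _ hτ
          rw [if_neg, zero_mul]
          intro h'
          exact hτ (Subtype.ext h'.symm)
        · intro h'
          exact absurd (Finset.mem_univ _) h'
      · rw [hX _ hi]
        symm
        refine Finset.sum_eq_zero fun τ _ => ?_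
        rw [if_neg, zero_mul]
        intro h'
        exact hi (h' ▸ τ.2)
    have h2 : ∀ i, (if h : t i ∈ S then q ⟨t i, h⟩ else 0) =
        ∑ τ : S, (if t i = τ then 1 else 0) * q τ := by
      intro i
      by_cases hi : t i ∈ S
      · rw [Finset.sum_eq_single (⟨t i, hi⟩ : S), dif_pos hi]
        · simp
        · intro τ _ hτ
          rw [if_neg, zero_mul]
          intro h'
          exact hτ (Subtype.ext h'.symm)
        · intro h'
          exact absurd (Finset.mem_univ _) h'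
      · rw [dif_neg hi]
        symm
        refine Finset.sum_eq_zero fun τ _ => ?_
        rw [if_neg, zero_mul]
        intro h'
        exact hi (h' ▸ τ.2)
    have h3 := hrel (fun τ => ∑ i ∈ s, c i * (if t i = τ then 1 else 0)) b (by
      rw [← h]
      push_cast
      simp only [Finset.sum_mul]
      rw [Finset.sum_comm]
      refine Finset.sum_congr rfl fun i _ => ?_
      rw [h1 i, Finset.mul_sum]
      refine Finset.sum_congr rfl fun τ _ => ?_
      ring)
    rw [← h3]
    push_cast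
    simp only [Finset.sum_mul]
    rw [Finset.sum_comm (s := Finset.univ) (t := s)]
    refine Finset.sum_congr rfl fun i _ => ?_
    rw [h2 i, Finset.mul_sum]
    refine Finset.sum_congr rfl fun τ _ => ?_
    ring

/-- the value -/
noncomputable def fcv (κ : ℝ) (m J : ℕ) (Z : ℕ × ℤ × Bool → ℝ) : ℝ :=
  ∑ w ∈ Finset.range m, ∑ j ∈ Finset.Icc (-(J : ℤ)) J,
      (Z (w, j, false) * Real.log (Z (w, j, false)) - Z (w, j, true) * Real.log (Z (w, j, true)) -
        (Z (w, j, false) - Z (w, j, true)) * Real.log (Z (w, j, false) - Z (w, j, true)) -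
          κ / m * (Z (w, j, false) * (j * (j - 1))))

theorem fcv_continuous (κ : ℝ) (m J : ℕ) : Continuous (fcv κ m J) := by
  unfold fcv
  refine continuous_finsetSum _ fun w _ => continuous_finsetSum _ fun j _ => ?_
  have h1 : Continuous fun Z : ℕ × ℤ × Bool → ℝ => Z (w, j, false) := continuous_apply _
  have h2 : Continuous fun Z : ℕ × ℤ × Bool → ℝ => Z (w, j, true) := continuous_apply _
  have h3 := Real.continuous_mul_log.comp h1
  have h4 := Real.continuous_mul_log.comp h2
  have h5 := Real.continuous_mul_log.comp (h1.sub h2)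
  exact ((h3.sub h4).sub h5).sub (continuous_const.mul (h1.mul continuous_const))

theorem fc_value (κ : ℝ) (m J : ℕ) (S : Finset (ℕ × ℤ × Bool)) (X : ℕ × ℤ × Bool → ℝ)
    (hX : ∀ t, t ∉ S → X t = 0) (ε : ℝ) (hε : 0 < ε) :
    ∃ δ : ℝ, 0 < δ ∧ ∀ Z : ℕ × ℤ × Bool → ℝ, (∀ t, t ∉ S → Z t = 0) → (∀ t, |Z t - X t| < δ) →
      fcv κ m J X - ε < fcv κ m J Z := by
  classical
  let ext : (S → ℝ) → (ℕ × ℤ × Bool → ℝ) := fun z t => if h : t ∈ S then z ⟨t, h⟩ else 0
  have hext : Continuous ext := by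
    refine continuous_pi fun t => ?_
    by_cases h : t ∈ S
    · simp only [ext, dif_pos h]
      exact continuous_apply _
    · simp only [ext, dif_neg h]
      exact continuous_const
  have hres : ∀ Z : ℕ × ℤ × Bool → ℝ, (∀ t, t ∉ S → Z t = 0) → ext (fun t => Z t) = Z := by
    intro Z hZ
    funext t
    by_cases h : t ∈ S
    · simp only [ext, dif_pos h]
    · simp only [ext, dif_neg h, hZ t h]
  have hc := Metric.continuous_iff.1 ((fcv_continuous κ m J).comp hext) (fun t => X t) ε hε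
  obtain ⟨δ, hδ, h⟩ := hc
  refine ⟨δ, hδ, fun Z hZ hZX => ?_⟩
  have h1 : dist (fun t : S => Z t) (fun t : S => X t) < δ := by
    rw [dist_pi_lt_iff hδ]
    intro t
    rw [Real.dist_eq]
    exact hZX t
  have h2 := h _ h1
  simp only [Function.comp_apply] at h2
  rw [hres Z hZ, hres X hX, Real.dist_eq, abs_lt] at h2
  linarith [h2.1]

theorem fc_min {T : Type} (S : Finset T) (f : T → ℝ) :
    ∃ δ : ℝ, 0 < δ ∧ ∀ t ∈ S, 0 < f t → δ < f t := by
  classical
  induction S using Finset.induction_on with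
  | empty => exact ⟨1, one_pos, fun t ht => absurd ht (Finset.notMem_empty t)⟩
  | insert a S _ ih =>
    obtain ⟨δ, hδ, h⟩ := ih
    by_cases ha : 0 < f a
    · refine ⟨min δ (f a / 2), lt_min hδ (by linarith), fun t ht h0 => ?_⟩
      rcases Finset.mem_insert.1 ht with rfl | ht
      · exact (min_le_right _ _).trans_lt (by linarith)
      · exact (min_le_left _ _).trans_lt (h t ht h0)
    · refine ⟨δ, hδ, fun t ht h0 => ?_⟩
      rcases Finset.mem_insert.1 ht with rfl | ht
      · exact absurd h0 ha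
      · exact h t ht h0

/-! ### common denominators -/

theorem fc_den {T : Type} (S : Finset T) (Y : T → ℚ) (hY : ∀ t, t ∉ S → Y t = 0)
    (h0 : ∀ t, 0 ≤ Y t) : ∃ (den : ℕ) (n : T → ℕ), 1 ≤ den ∧ ∀ t, (n t : ℚ) = den * Y t := by
  classical
  refine ⟨∏ t ∈ S, (Y t).den, fun t => ((∏ t ∈ S, ((Y t).den : ℚ)) * Y t).num.toNat, ?_, ?_⟩
  · exact Nat.one_le_iff_ne_zero.2 (Finset.prod_ne_zero_iff.2 fun t _ => (Y t).den_ne_zero)
  · intro t
    have h1 : ∃ z : ℤ, ((∏ t ∈ S, ((Y t).den : ℚ)) * Y t) = z := by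
      by_cases h : t ∈ S
      · refine ⟨(∏ s ∈ S.erase t, ((Y s).den : ℤ)) * (Y t).num, ?_⟩
        rw [← Finset.prod_erase_mul S (fun t => ((Y t).den : ℚ)) h]
        push_cast
        rw [mul_assoc]
        congr 1
        rw [mul_comm]
        exact Rat.mul_den_eq_num (Y t)
      · exact ⟨0, by rw [hY t h, mul_zero, Int.cast_zero]⟩
    obtain ⟨z, hz⟩ := h1
    have h2 : 0 ≤ z := by
      have h3 : (0 : ℚ) ≤ (z : ℚ) := by
        rw [← hz]
        exact mul_nonneg (Finset.prod_nonneg fun s _ => Nat.cast_nonneg _) (h0 t)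
      exact_mod_cast h3
    push_cast
    rw [hz, Rat.num_intCast]
    have h4 : ((z.toNat : ℤ) : ℚ) = (z : ℚ) := by rw [Int.toNat_of_nonneg h2]
    exact_mod_cast h4

/-! ### the entropy terms -/

theorem fc_xlog (c x : ℝ) (hc : 0 < c) :
    (c * x) * Real.log (c * x) = c * (x * Real.log x) + c * x * Real.log c := by
  by_cases hx : x = 0
  · subst hx
    simp
  · rw [Real.log_mul hc.ne' hx]
    ring

theorem fc_ent (den a b : ℕ) (x y : ℝ) (hd : 1 ≤ den) (ha : (a : ℝ) = den * x)
    (hb : (b : ℝ) = den * y) (hab : b ≤ a) :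
    ent a b / den = x * Real.log x - y * Real.log y - (x - y) * Real.log (x - y) := by
  have hd' : (0 : ℝ) < den := by exact_mod_cast hd
  unfold ent
  rw [Nat.cast_sub hab, ha, hb]
  have h1 : (den : ℝ) * x - den * y = den * (x - y) := by ring
  rw [h1, fc_xlog _ _ hd', fc_xlog _ _ hd', fc_xlog _ _ hd']
  field_simp
  ring

/-- shift of a sum -/
theorem fc_shift (J : ℕ) (F : ℤ → ℝ) (h1 : F (-(J : ℤ) - 1) = 0) (h2 : F J = 0) :
    ∑ j ∈ Finset.Icc (-(J : ℤ)) J, F (j - 1) = ∑ j ∈ Finset.Icc (-(J : ℤ)) J, F j := by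
  have h3 : ∑ j ∈ Finset.Icc (-(J : ℤ)) J, F (j - 1) =
      ∑ j ∈ Finset.Icc (-(J : ℤ) - 1) (J - 1), F j := by
    refine Finset.sum_bij (fun j _ => j - 1) ?_ ?_ ?_ ?_
    · intro j hj
      rw [Finset.mem_Icc] at hj ⊢
      omega
    · intro a _ b _ h
      linarith
    · intro b hb
      rw [Finset.mem_Icc] at hb
      exact ⟨b + 1, by rw [Finset.mem_Icc]; omega, by ring⟩
    · intro j _
      rfl
  rw [h3]
  have h4 : Finset.Icc (-(J : ℤ) - 1) (J - 1) = insert (-(J : ℤ) - 1) (Finset.Icc (-(J : ℤ)) (J - 1)) := by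
    ext x
    rw [Finset.mem_insert, Finset.mem_Icc, Finset.mem_Icc]
    omega
  have h5 : Finset.Icc (-(J : ℤ)) J = insert (J : ℤ) (Finset.Icc (-(J : ℤ)) (J - 1)) := by
    ext x
    rw [Finset.mem_insert, Finset.mem_Icc, Finset.mem_Icc]
    omega
  rw [h4, h5, Finset.sum_insert (by rw [Finset.mem_Icc]; omega),
    Finset.sum_insert (by rw [Finset.mem_Icc]; omega), h1, h2]

theorem fc_term1 (κ : ℝ) (m J den : ℕ) (hm : 1 ≤ m) (hden : 1 ≤ den) (a b : ℤ → ℕ)
    (y z : ℤ → ℝ) (lam : ℤ) (t : ℝ) (hab : ∀ j, b j ≤ a j) (ha : ∀ j, (a j : ℝ) = den * y j)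
    (hb : ∀ j, (b j : ℝ) = den * z j)
    (hsum : (m : ℝ) * ∑ j ∈ Finset.Icc (-(J : ℤ)) J, z j = 1) :
    (∑ j ∈ Finset.Icc (-(J : ℤ)) J, ent (a j) (b j)) / den +
      ((∑ j ∈ Finset.Icc (-(J : ℤ)) J, b j : ℕ) : ℝ) / den *
        (Real.log (((∑ j ∈ Finset.Icc (-(J : ℤ)) J, b j : ℕ) : ℝ) / den) -
        κ * ((∑ j ∈ Finset.Icc (-(J : ℤ)) J, (a j : ℝ) * ((j - lam) * (j - lam - 1))) / den +
          ((∑ j ∈ Finset.Icc (-(J : ℤ)) J, b j : ℕ) : ℝ) / den * t)) =
    ∑ j ∈ Finset.Icc (-(J : ℤ)) J, (y j * Real.log (y j) - z j * Real.log (z j) -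
        (y j - z j) * Real.log (y j - z j) - κ / m * (y j * ((j - lam) * (j - lam - 1)))) -
      Real.log m / m - κ / m * (t / m) := by
  have hd' : (0 : ℝ) < den := by exact_mod_cast hden
  have hm' : (0 : ℝ) < m := by exact_mod_cast hm
  have h1 : ((∑ j ∈ Finset.Icc (-(J : ℤ)) J, b j : ℕ) : ℝ) / den = 1 / m := by
    push_cast
    simp only [hb]
    rw [← Finset.mul_sum, mul_div_assoc, mul_div_cancel₀ _ hd'.ne', eq_div_iff hm'.ne', mul_comm]
    exact hsum
  have h2 : (∑ j ∈ Finset.Icc (-(J : ℤ)) J, ent (a j) (b j)) / den =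
      ∑ j ∈ Finset.Icc (-(J : ℤ)) J, (y j * Real.log (y j) - z j * Real.log (z j) -
        (y j - z j) * Real.log (y j - z j)) := by
    rw [Finset.sum_div]
    exact Finset.sum_congr rfl fun j _ => fc_ent den _ _ _ _ hden (ha j) (hb j) (hab j)
  have h3 : (∑ j ∈ Finset.Icc (-(J : ℤ)) J, (a j : ℝ) * ((j - lam) * (j - lam - 1))) / den =
      ∑ j ∈ Finset.Icc (-(J : ℤ)) J, y j * ((j - lam) * (j - lam - 1)) := by
    rw [Finset.sum_div]
    refine Finset.sum_congr rfl fun j _ => ?_
    rw [ha j]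
    field_simp
  rw [h1, h2, h3, Real.log_div one_ne_zero hm'.ne', Real.log_one, zero_sub,
    Finset.sum_sub_distrib (f := fun j => y j * Real.log (y j) - z j * Real.log (z j) -
        (y j - z j) * Real.log (y j - z j)), ← Finset.mul_sum]
  field_simp
  ring

theorem fc_final (κ : ℝ) (hκ : 0 ≤ κ) (m J T den : ℕ) (hm : 1 ≤ m)
    (hJ : Even J) (hTJ : T + 1 ≤ J) (hden : 1 ≤ den) (V ε : ℝ)
    (n : ℕ × ℤ × Bool → ℕ) (y : ℕ × ℤ × Bool → ℝ) (hn : ∀ t, (n t : ℝ) = den * y t)
    (hsupp : ∀ w < m, ∀ j, n (w, j, false) ≠ 0 → -(J : ℤ) ≤ j ∧ j ≤ T)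
    (hsuppq : ∀ w < m, ∀ j, n (w, j, true) ≠ 0 → j + 1 ≤ T)
    (hle : ∀ w < m, ∀ j, n (w, j, true) ≤ n (w, j, false))
    (hfl : ∀ w, w + 1 < m → ∀ j, n (w + 1, j, false) + n (w, j, true) =
      n (w, j, false) + n (w, j - 1, true))
    (hper : ∀ j, n (0, j - 1, false) + n (m - 1, j, true) =
      n (m - 1, j, false) + n (m - 1, j - 1, true))
    (htot : ∑ j ∈ Finset.Icc (-(J : ℤ)) J, n (0, j, false) = den)
    (hr : ∀ w < m, (m : ℝ) * ∑ j ∈ Finset.Icc (-(J : ℤ)) J, y (w, j, true) = 1)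
    (hval : V - ε ≤ fcv κ m J y - Real.log m) :
    ∃ (den : ℕ) (N' q' : ℕ → ℤ → ℕ) (lm tp : ℕ → ℤ),
      LCert κ (V - κ * T / m - ε) 2 (2 * m) J den N' q' lm tp := by
  have hd' : (0 : ℝ) < den := by exact_mod_cast hden
  have hm' : (0 : ℝ) < m := by exact_mod_cast hm
  have hsuppN0 : ∀ j, n (0, j, false) ≠ 0 → j + 1 ≤ T := by
    intro j hj
    have h1 := hper (j + 1)
    rw [add_sub_cancel_right] at h1
    by_cases h2 : n (m - 1, j + 1, false) = 0
    · have h3 : n (m - 1, j, true) ≠ 0 := by omega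
      exact hsuppq (m - 1) (by omega) j h3
    · exact (hsupp (m - 1) (by omega) (j + 1) h2).2
  let N' : ℕ → ℤ → ℕ := fun w j =>
    if w < m then n (w, j, false) else if w < 2 * m then n (w - m, j - 1, false) else
      n (0, j - 2, false)
  let q' : ℕ → ℤ → ℕ := fun w j =>
    if w < m then n (w, j, true) else if w < 2 * m then n (w - m, j - 1, true) else 0
  let lm : ℕ → ℤ := fun w => if w < m then 0 else 1
  let tp : ℕ → ℤ := fun w => if w < m then (T : ℤ) - 1 else T
  have N1 : ∀ w, w < m → ∀ j, N' w j = n (w, j, false) := fun w hw j => if_pos hw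
  have N2 : ∀ w, m ≤ w → w < 2 * m → ∀ j, N' w j = n (w - m, j - 1, false) := by
    intro w hw hw2 j
    show (if w < m then n (w, j, false) else if w < 2 * m then n (w - m, j - 1, false) else
      n (0, j - 2, false)) = _
    rw [if_neg (by omega), if_pos hw2]
  have N3 : ∀ w, 2 * m ≤ w → ∀ j, N' w j = n (0, j - 2, false) := by
    intro w hw j
    show (if w < m then n (w, j, false) else if w < 2 * m then n (w - m, j - 1, false) else
      n (0, j - 2, false)) = _
    rw [if_neg (by omega), if_neg (by omega)]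
  have q1 : ∀ w, w < m → ∀ j, q' w j = n (w, j, true) := fun w hw j => if_pos hw
  have q2 : ∀ w, m ≤ w → w < 2 * m → ∀ j, q' w j = n (w - m, j - 1, true) := by
    intro w hw hw2 j
    show (if w < m then n (w, j, true) else if w < 2 * m then n (w - m, j - 1, true) else 0) = _
    rw [if_neg (by omega), if_pos hw2]
  have q3 : ∀ w, 2 * m ≤ w → ∀ j, q' w j = 0 := by
    intro w hw j
    show (if w < m then n (w, j, true) else if w < 2 * m then n (w - m, j - 1, true) else 0) = _
    rw [if_neg (by omega), if_neg (by omega)]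
  have lm1 : ∀ w, w < m → lm w = 0 := fun w hw => if_pos hw
  have lm2 : ∀ w, m ≤ w → lm w = 1 := fun w hw => if_neg (by omega)
  have tp1 : ∀ w, w < m → tp w = (T : ℤ) - 1 := fun w hw => if_pos hw
  have tp2 : ∀ w, m ≤ w → tp w = T := fun w hw => if_neg (by omega)
  refine ⟨den, N', q', lm, tp, ⟨by norm_num, by decide, hJ, hden, ?_, ?_, ?_, ?_, ?_, ?_, ?_, ?_,
    ?_⟩⟩
  · -- supp
    intro w hw j hj
    rcases Nat.lt_or_ge w m with h | h
    · rw [N1 w h] at hj
      have := hsupp w h j hj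
      omega
    · rcases Nat.lt_or_ge w (2 * m) with h2 | h2
      · rw [N2 w h h2] at hj
        have := hsupp (w - m) (by omega) (j - 1) hj
        omega
      · rw [N3 w h2] at hj
        have h3 := hsuppN0 (j - 2) hj
        have h4 := hsupp 0 (by omega) (j - 2) hj
        omega
  · -- q_le
    intro w j
    rcases Nat.lt_or_ge w m with h | h
    · rw [N1 w h, q1 w h]
      exact hle w h j
    · rcases Nat.lt_or_ge w (2 * m) with h2 | h2
      · rw [N2 w h h2, q2 w h h2]
        exact hle (w - m) (by omega) (j - 1)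
      · rw [q3 w h2]
        exact Nat.zero_le _
  · -- flow
    intro w hw j
    rcases Nat.lt_or_ge w m with h | h
    · rw [N1 w h, q1 w h, q1 w h]
      rcases Nat.lt_or_ge (w + 1) m with h1 | h1
      · rw [N1 (w + 1) h1]
        exact hfl w h1 j
      · have h3 : w = m - 1 := by omega
        rw [N2 (w + 1) h1 (by omega)]
        have h4 : w + 1 - m = 0 := by omega
        rw [h4, h3]
        exact hper j
    · rw [N2 w h hw, q2 w h hw, q2 w h hw]
      rcases Nat.lt_or_ge (w + 1) (2 * m) with h1 | h1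
      · rw [N2 (w + 1) (by omega) h1]
        have h3 := hfl (w - m) (by omega) (j - 1)
        have h4 : w + 1 - m = w - m + 1 := by omega
        rw [h4]
        exact h3
      · rw [N3 (w + 1) h1]
        have h3 := hper (j - 1)
        have h4 : w - m = m - 1 := by omega
        have h5 : j - 2 = j - 1 - 1 := by ring
        rw [h4, h5]
        exact h3
  · -- per
    intro j
    rw [N3 (2 * m) le_rfl, N1 0 (by omega)]
    rfl
  · -- tot
    rw [← htot]
    exact Finset.sum_congr rfl fun j _ => N1 0 (by omega) j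
  · -- tp_ge
    intro w hw j hj
    rcases Nat.lt_or_ge w m with h | h
    · rw [q1 w h] at hj
      rw [tp1 w h]
      have := hsuppq w h j hj
      omega
    · rw [q2 w h hw] at hj
      rw [tp2 w h]
      have := hsuppq (w - m) (by omega) (j - 1) hj
      omega
  · -- tp_le
    intro w _
    rcases Nat.lt_or_ge w m with h | h
    · rw [tp1 w h]
      omega
    · rw [tp2 w h]
      omega
  · -- lm_le
    intro w _
    rcases Nat.lt_or_ge w m with h | h
    · rw [lm1 w h]
      omega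
    · rw [lm2 w h]
      omega
  · -- value
    have hy0 : ∀ t, n t = 0 → y t = 0 := by
      intro t ht
      have h1 := hn t
      rw [ht, Nat.cast_zero] at h1
      rcases mul_eq_zero.1 h1.symm with h2 | h2
      · exact absurd h2 hd'.ne'
      · exact h2
    have hyf : ∀ w < m, ∀ j : ℤ, (j < -(J : ℤ) ∨ (T : ℤ) < j) → y (w, j, false) = 0 := by
      intro w hw j hj
      refine hy0 _ ?_
      by_contra hcon
      have := hsupp w hw j hcon
      omega
    have hyt : ∀ w < m, ∀ j : ℤ, (j < -(J : ℤ) ∨ (T : ℤ) < j) → y (w, j, true) = 0 := by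
      intro w hw j hj
      refine hy0 _ ?_
      have h1 : n (w, j, false) = 0 := by
        by_contra hcon
        have := hsupp w hw j hcon
        omega
      have h2 := hle w hw j
      omega
    let F : ℕ → ℤ → ℝ := fun w j =>
      (y (w, j, false) * Real.log (y (w, j, false)) - y (w, j, true) * Real.log (y (w, j, true)) -
        (y (w, j, false) - y (w, j, true)) * Real.log (y (w, j, false) - y (w, j, true)) -
          κ / m * (y (w, j, false) * (j * (j - 1))))
    have hF0 : ∀ w < m, ∀ j : ℤ, (j < -(J : ℤ) ∨ (T : ℤ) < j) → F w j = 0 := by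
      intro w hw j hj
      simp only [F, hyf w hw j hj, hyt w hw j hj]
      simp
    have hmax : max 0 ((T : ℝ) - 1) ≤ T := by
      refine max_le (Nat.cast_nonneg _) (by linarith)
    have hA : ∀ w < m,
        ((∑ j ∈ Finset.Icc (-(J : ℤ)) J, ent (N' w j) (q' w j)) / den +
          (fsum J q' w : ℝ) / den * (Real.log ((fsum J q' w : ℝ) / den) -
          κ * ((∑ j ∈ Finset.Icc (-(J : ℤ)) J, (N' w j : ℝ) * ((j - lm w) * (j - lm w - 1))) / den +
          (fsum J q' w : ℝ) / den * max 0 ((tp w : ℝ) - lm w)))) =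
        ∑ j ∈ Finset.Icc (-(J : ℤ)) J, F w j - Real.log m / m -
          κ / m * (max 0 ((T : ℝ) - 1) / m) := by
      intro w hw
      have h1 := fc_term1 κ m J den hm hden (fun j => n (w, j, false)) (fun j => n (w, j, true))
        (fun j => y (w, j, false)) (fun j => y (w, j, true)) 0 (max 0 ((T : ℝ) - 1))
        (fun j => hle w hw j) (fun j => hn _) (fun j => hn _) (hr w hw)
      have h2 : fsum J q' w = ∑ j ∈ Finset.Icc (-(J : ℤ)) J, n (w, j, true) :=
        Finset.sum_congr rfl fun j _ => q1 w hw j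
      have h3 : (tp w : ℝ) - lm w = (T : ℝ) - 1 := by
        rw [tp1 w hw, lm1 w hw]
        push_cast
        ring
      rw [h2, h3]
      simp only [N1 w hw, q1 w hw, lm1 w hw]
      rw [h1]
      simp only [Int.cast_zero, sub_zero, F]
    have hB : ∀ w < m,
        ((∑ j ∈ Finset.Icc (-(J : ℤ)) J, ent (N' (m + w) j) (q' (m + w) j)) / den +
          (fsum J q' (m + w) : ℝ) / den * (Real.log ((fsum J q' (m + w) : ℝ) / den) -
          κ * ((∑ j ∈ Finset.Icc (-(J : ℤ)) J,
            (N' (m + w) j : ℝ) * ((j - lm (m + w)) * (j - lm (m + w) - 1))) / den +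
          (fsum J q' (m + w) : ℝ) / den * max 0 ((tp (m + w) : ℝ) - lm (m + w))))) =
        ∑ j ∈ Finset.Icc (-(J : ℤ)) J, F w j - Real.log m / m -
          κ / m * (max 0 ((T : ℝ) - 1) / m) := by
      intro w hw
      have e0 : m + w - m = w := by omega
      have hsh : (m : ℝ) * ∑ j ∈ Finset.Icc (-(J : ℤ)) J, y (w, j - 1, true) = 1 := by
        rw [← hr w hw]
        congr 1
        exact fc_shift J (fun j => y (w, j, true)) (hyt w hw _ (by omega)) (hyt w hw _ (by omega))
      have h1 := fc_term1 κ m J den hm hden (fun j => n (w, j - 1, false))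
        (fun j => n (w, j - 1, true)) (fun j => y (w, j - 1, false)) (fun j => y (w, j - 1, true)) 1
        (max 0 ((T : ℝ) - 1)) (fun j => hle w hw (j - 1)) (fun j => hn _) (fun j => hn _) hsh
      have q2' : ∀ j, q' (m + w) j = n (w, j - 1, true) := by
        intro j
        rw [q2 (m + w) (by omega) (by omega), e0]
      have N2' : ∀ j, N' (m + w) j = n (w, j - 1, false) := by
        intro j
        rw [N2 (m + w) (by omega) (by omega), e0]
      have h2 : fsum J q' (m + w) = ∑ j ∈ Finset.Icc (-(J : ℤ)) J, n (w, j - 1, true) :=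
        Finset.sum_congr rfl fun j _ => q2' j
      have h3 : (tp (m + w) : ℝ) - lm (m + w) = (T : ℝ) - 1 := by
        rw [tp2 (m + w) (by omega), lm2 (m + w) (by omega)]
        push_cast
        ring
      rw [h2, h3]
      simp only [N2', q2', lm2 (m + w) (by omega)]
      rw [h1]
      have h4 := fc_shift J (F w) (hF0 w hw _ (by omega)) (hF0 w hw _ (by omega))
      rw [← h4]
      congr 2
      refine Finset.sum_congr rfl fun j _ => ?_
      simp only [F]
      push_cast
      ring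
    have e2 : 2 * m = m + m := by ring
    rw [e2, Finset.sum_range_add, Finset.sum_congr rfl fun w hw => hA w (Finset.mem_range.1 hw),
      Finset.sum_congr rfl fun w hw => hB w (Finset.mem_range.1 hw)]
    have e3 : ∑ w ∈ Finset.range m, (∑ j ∈ Finset.Icc (-(J : ℤ)) J, F w j - Real.log m / m -
          κ / m * (max 0 ((T : ℝ) - 1) / m)) =
        fcv κ m J y - Real.log m - κ / m * max 0 ((T : ℝ) - 1) := by
      rw [Finset.sum_sub_distrib, Finset.sum_sub_distrib, Finset.sum_const, Finset.sum_const,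
        Finset.card_range, nsmul_eq_mul, nsmul_eq_mul, mul_div_cancel₀ _ hm'.ne']
      have e4 : (m : ℝ) * (κ / m * (max 0 ((T : ℝ) - 1) / m)) = κ / m * max 0 ((T : ℝ) - 1) := by
        field_simp
      rw [e4]
      rfl
    rw [e3]
    have e5 : κ / m * max 0 ((T : ℝ) - 1) ≤ κ * T / m := by
      rw [mul_div_right_comm]
      exact mul_le_mul_of_nonneg_left hmax (div_nonneg hκ hm'.le)
    push_cast
    linarith

/-- real flows can be replaced by integral ones -/
theorem lcert_of_real (κ V ε : ℝ) (hκ : 0 ≤ κ) (hε : 0 < ε) (m J T : ℕ) (hm : 1 ≤ m)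
    (hJ : Even J) (hTJ : T + 1 ≤ J) (N q : ℕ → ℤ → ℝ)
    (hN : ∀ w < m, ∀ j, N w j ≠ 0 → -(J : ℤ) ≤ j ∧ j ≤ T)
    (hq0 : ∀ w < m, ∀ j, 0 ≤ q w j) (hqN : ∀ w < m, ∀ j, q w j ≤ N w j)
    (hqT : ∀ w < m, ∀ j, q w j ≠ 0 → j + 1 ≤ T)
    (hfl : ∀ w, w + 1 < m → ∀ j, N (w + 1) j + q w j = N w j + q w (j - 1))
    (hper : ∀ j, N 0 (j - 1) + q (m - 1) j = N (m - 1) j + q (m - 1) (j - 1))
    (htot : ∑ j ∈ Finset.Icc (-(J : ℤ)) J, N 0 j = 1)
    (hr : ∀ w < m, ∑ j ∈ Finset.Icc (-(J : ℤ)) J, q w j = 1 / m)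
    (hval : V ≤ ∑ w ∈ Finset.range m, ∑ j ∈ Finset.Icc (-(J : ℤ)) J,
      (N w j * Real.log (N w j) - q w j * Real.log (q w j) -
        (N w j - q w j) * Real.log (N w j - q w j) - κ / m * (N w j * (j * (j - 1)))) -
      Real.log m) :
    ∃ (den : ℕ) (N' q' : ℕ → ℤ → ℕ) (lm tp : ℕ → ℤ),
      LCert κ (V - κ * T / m - ε) 2 (2 * m) J den N' q' lm tp := by
  classical
  have hm' : (0 : ℝ) < m := by exact_mod_cast hm
  let X : ℕ × ℤ × Bool → ℝ := fun t =>
    if t.1 < m then (if t.2.2 = true then q t.1 t.2.1 else N t.1 t.2.1) else 0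
  have hXN : ∀ w < m, ∀ j, X (w, j, false) = N w j := by
    intro w hw j
    simp [X, hw]
  have hXq : ∀ w < m, ∀ j, X (w, j, true) = q w j := by
    intro w hw j
    simp [X, hw]
  have hXm : ∀ w, m ≤ w → ∀ j b, X (w, j, b) = 0 := by
    intro w hw j b
    have : ¬ w < m := by omega
    simp [X, this]
  have hN0 : ∀ w < m, ∀ j, 0 ≤ N w j := fun w hw j => (hq0 w hw j).trans (hqN w hw j)
  have hqz : ∀ w < m, ∀ j, N w j = 0 → q w j = 0 := fun w hw j h =>
    le_antisymm (h ▸ hqN w hw j) (hq0 w hw j)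
  let S : Finset (ℕ × ℤ × Bool) :=
    Finset.range m ×ˢ (Finset.Icc (-(J : ℤ)) J ×ˢ (Finset.univ : Finset Bool))
  have hS : ∀ w < m, ∀ j : ℤ, ∀ b, N w j ≠ 0 → (w, j, b) ∈ S := by
    intro w hw j b h
    have h1 := hN w hw j h
    simp only [S, Finset.mem_product, Finset.mem_range, Finset.mem_Icc, Finset.mem_univ, and_true]
    omega
  have hX0 : ∀ t, t ∉ S → X t = 0 := by
    rintro ⟨w, j, b⟩ ht
    rcases Nat.lt_or_ge w m with hw | hw
    · have h1 : N w j = 0 := by
        by_contra h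
        exact ht (hS w hw j b h)
      cases b with
      | false => rw [hXN w hw, h1]
      | true => rw [hXq w hw, hqz w hw j h1]
    · exact hXm w hw j b
  have hXpos : ∀ t, 0 ≤ X t := by
    rintro ⟨w, j, b⟩
    rcases Nat.lt_or_ge w m with hw | hw
    · cases b with
      | false => rw [hXN w hw]; exact hN0 w hw j
      | true => rw [hXq w hw]; exact hq0 w hw j
    · rw [hXm w hw]
  obtain ⟨δ₁, hδ₁, hv⟩ := fc_value κ m J S X hX0 (ε / 2) (half_pos hε)
  obtain ⟨δ₂, hδ₂, hmq⟩ := fc_min S X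
  obtain ⟨δ₃, hδ₃, hmd⟩ := fc_min S (fun t => X (t.1, t.2.1, false) - X (t.1, t.2.1, true))
  obtain ⟨Y, hY, hY0, hrel⟩ := fc_approx S X hX0 (min δ₁ (min δ₂ (δ₃ / 2)))
    (lt_min hδ₁ (lt_min hδ₂ (half_pos hδ₃)))
  have hY1 : ∀ t, |(Y t : ℝ) - X t| < δ₁ := fun t => (hY t).trans_le (min_le_left _ _)
  have hY2 : ∀ t, |(Y t : ℝ) - X t| < δ₂ := fun t =>
    (hY t).trans_le ((min_le_right _ _).trans (min_le_left _ _))
  have hY3 : ∀ t, |(Y t : ℝ) - X t| < δ₃ / 2 := fun t =>
    (hY t).trans_le ((min_le_right _ _).trans (min_le_right _ _))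
  have z1 : ∀ t, X t = 0 → Y t = 0 := by
    intro t ht
    have h1 := hrel Unit {()} (fun _ => 1) (fun _ => t) 0 (by simp [ht])
    simpa using h1
  have z4 : ∀ a b c d, X a + X b = X c + X d → Y a + Y b = Y c + Y d := by
    intro a b c d h
    have h1 := hrel (Fin 4) Finset.univ ![1, 1, -1, -1] ![a, b, c, d] 0 (by
      simp [Fin.sum_univ_four]
      linarith)
    simp [Fin.sum_univ_four] at h1
    linarith
  have hYpos : ∀ t, 0 ≤ Y t := by
    intro t
    rcases (hXpos t).eq_or_lt with h | h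
    · rw [z1 t h.symm]
    · have ht : t ∈ S := by
        by_contra hcon
        rw [hX0 t hcon] at h
        exact lt_irrefl _ h
      have h1 := hmq t ht h
      have h2 := (abs_lt.1 (hY2 t)).1
      have h3 : (0 : ℝ) < (Y t : ℝ) := by linarith
      have h4 : 0 < Y t := by exact_mod_cast h3
      exact h4.le
  have hYle : ∀ w < m, ∀ j, Y (w, j, true) ≤ Y (w, j, false) := by
    intro w hw j
    rcases (hqN w hw j).eq_or_lt with h | h
    · have h1 := z4 (w, j, true) (w, j, true) (w, j, false) (w, j, true) (by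
        rw [hXN w hw, hXq w hw, h])
      exact (add_right_cancel h1).le
    · have h0 : N w j ≠ 0 := by
        intro h0
        have := hq0 w hw j
        linarith
      have h1 := hmd (w, j, true) (hS w hw j true h0) (by
        show 0 < X (w, j, false) - X (w, j, true)
        rw [hXN w hw, hXq w hw]
        linarith)
      have h1' : δ₃ < X (w, j, false) - X (w, j, true) := h1
      have h2 := (abs_lt.1 (hY3 (w, j, false))).1
      have h3 := (abs_lt.1 (hY3 (w, j, true))).2
      have h4 : ((Y (w, j, true) : ℚ) : ℝ) ≤ (Y (w, j, false) : ℚ) := by linarith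
      exact_mod_cast h4
  obtain ⟨den, n, hden, hn⟩ := fc_den S Y hY0 hYpos
  have hd' : (0 : ℚ) < den := by exact_mod_cast hden
  have n0 : ∀ t, n t ≠ 0 → X t ≠ 0 := by
    intro t ht h
    have h1 := hn t
    rw [z1 t h, mul_zero] at h1
    exact ht (by exact_mod_cast h1)
  have n4 : ∀ a b c d, X a + X b = X c + X d → n a + n b = n c + n d := by
    intro a b c d h
    have h1 := z4 a b c d h
    have h2 : (n a : ℚ) + n b = n c + n d := by
      rw [hn, hn, hn, hn, ← mul_add, ← mul_add, h1]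
    exact_mod_cast h2
  refine fc_final κ hκ m J T den hm hJ hTJ hden V ε n (fun t => (Y t : ℝ)) ?_ ?_ ?_ ?_ ?_ ?_ ?_ ?_
    ?_
  · intro t
    have h1 := hn t
    have h2 : ((n t : ℚ) : ℝ) = ((den * Y t : ℚ) : ℝ) := by rw [h1]
    push_cast at h2
    exact h2
  · intro w hw j hj
    have h1 := n0 _ hj
    rw [hXN w hw] at h1
    exact hN w hw j h1
  · intro w hw j hj
    have h1 := n0 _ hj
    rw [hXq w hw] at h1
    exact hqT w hw j h1
  · intro w hw j
    have h1 : (n (w, j, true) : ℚ) ≤ n (w, j, false) := by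
      rw [hn, hn]
      exact mul_le_mul_of_nonneg_left (hYle w hw j) hd'.le
    exact_mod_cast h1
  · intro w hw j
    refine n4 _ _ _ _ ?_
    rw [hXN (w + 1) hw, hXq w (by omega), hXN w (by omega), hXq w (by omega)]
    exact hfl w hw j
  · intro j
    refine n4 _ _ _ _ ?_
    rw [hXN 0 (by omega), hXq (m - 1) (by omega), hXN (m - 1) (by omega), hXq (m - 1) (by omega)]
    exact hper j
  · have h1 := hrel ℤ (Finset.Icc (-(J : ℤ)) J) (fun _ => 1) (fun j => (0, j, false)) 1 (by
      simp only [Int.cast_one, one_mul]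
      rw [← htot]
      exact Finset.sum_congr rfl fun j _ => hXN 0 (by omega) j)
    simp only [Int.cast_one, one_mul] at h1
    have h2 : ((∑ j ∈ Finset.Icc (-(J : ℤ)) J, n (0, j, false) : ℕ) : ℚ) = den := by
      push_cast
      simp only [hn]
      rw [← Finset.mul_sum, h1, mul_one]
    exact_mod_cast h2
  · intro w hw
    have h1 := hrel ℤ (Finset.Icc (-(J : ℤ)) J) (fun _ => m) (fun j => (w, j, true)) 1 (by
      rw [← Finset.mul_sum, Finset.sum_congr rfl fun j _ => hXq w hw j, hr w hw]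
      push_cast
      field_simp)
    rw [← Finset.mul_sum] at h1
    push_cast at h1
    have h2 : (((m : ℚ) * ∑ j ∈ Finset.Icc (-(J : ℤ)) J, Y (w, j, true) : ℚ) : ℝ) = 1 := by
      rw [h1]
      norm_num
    push_cast at h2
    exact h2
  · have h1 := hv (fun t => (Y t : ℝ)) (fun t ht => by rw [hY0 t ht]; simp) hY1
    have h2 : fcv κ m J X = ∑ w ∈ Finset.range m, ∑ j ∈ Finset.Icc (-(J : ℤ)) J,
      (N w j * Real.log (N w j) - q w j * Real.log (q w j) -
        (N w j - q w j) * Real.log (N w j - q w j) - κ / m * (N w j * (j * (j - 1)))) := by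
      unfold fcv
      refine Finset.sum_congr rfl fun w hw => Finset.sum_congr rfl fun j _ => ?_
      rw [hXN w (Finset.mem_range.1 hw), hXq w (Finset.mem_range.1 hw)]
    rw [h2] at h1
    linarith

end Pool.Agent.Lib.MP_8501c9_pr.Wide
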