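import Pool.Agent.Lib.MP_8501c9_pr.Wide.DefsE
import Pool.Agent.Lib.MP_8501c9_pr.Wide.FlowCert

/-!
# The flow of the optimal pattern
-/

set_option autoImplicit false
open Set

namespace Pool.Agent.Lib.MP_8501c9_pr.Wide

open Pool.Agent.Lib.MP_8501c9_pr Pool.Agent.Lib.MP_8501c9_pr.Mid

theorem e3_sum_blocks (f : ℕ → ℝ) (n m : ℕ) :
    ∑ t ∈ Finset.range (n * m), f t =
      ∑ w ∈ Finset.range m, ∑ l ∈ Finset.range n, f (l * m + w) := by
  induction n with
  | zero => simp
  | succ n ih =>
    rw [Nat.add_mul, one_mul, Finset.sum_range_add, ih, ← Finset.sum_add_distrib]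
    refine Finset.sum_congr rfl fun w _ => ?_
    rw [Finset.sum_range_succ]

theorem e3_lt {n m l w : ℕ} (hl : l < n) (hw : w < m) : l * m + w < n * m := by
  calc l * m + w < l * m + m := by omega
    _ = (l + 1) * m := by ring
    _ ≤ n * m := Nat.mul_le_mul_right m hl

theorem e3_div {m l w : ℕ} (hw : w < m) : (l * m + w) / m = l := by
  rw [mul_comm, Nat.mul_add_div (by omega), Nat.div_eq_of_lt hw, add_zero]

theorem e3_mod {m l w : ℕ} (hw : w < m) : (l * m + w) % m = w := by
  rw [mul_comm, Nat.mul_add_mod, Nat.mod_eq_of_lt hw]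

theorem e3_card {n m : ℕ} {A : Finset ℕ} (hA : A ∈ pats n m) : A.card = n :=
  (Finset.mem_powersetCard.1 hA).2

theorem e3_sub {n m : ℕ} {A : Finset ℕ} (hA : A ∈ pats n m) : A ⊆ Finset.range (n * m) :=
  (Finset.mem_powersetCard.1 hA).1

theorem e3_posn_abs {n m : ℕ} {A : Finset ℕ} (hA : A ∈ pats n m) {t : ℕ} (ht : t ≤ n * m) :
    -(n : ℤ) ≤ posn m A t ∧ posn m A t ≤ n := by
  have h1 : (A.filter (fun σ => σ < t)).card ≤ n := (e3_card hA) ▸ Finset.card_filter_le _ _
  have h2 : t / m ≤ n := Nat.div_le_of_le_mul (by rwa [mul_comm] at ht)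
  unfold posn
  generalize t / m = s at h2 ⊢
  constructor <;> omega

theorem e3_card_succ (A : Finset ℕ) (t : ℕ) : (A.filter (fun σ => σ < t + 1)).card =
    (A.filter (fun σ => σ < t)).card + if t ∈ A then 1 else 0 := by
  by_cases h : t ∈ A
  · have e : A.filter (fun σ => σ < t + 1) = insert t (A.filter (fun σ => σ < t)) := by
      ext σ
      simp only [Finset.mem_filter, Finset.mem_insert]
      constructor
      · rintro ⟨h1, h2⟩
        by_cases h3 : σ = t
        · exact Or.inl h3
        · exact Or.inr ⟨h1, by omega⟩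
      · rintro (rfl | ⟨h1, h2⟩)
        · exact ⟨h, by omega⟩
        · exact ⟨h1, by omega⟩
    rw [e, Finset.card_insert_of_notMem (by simp), if_pos h]
  · have e : A.filter (fun σ => σ < t + 1) = A.filter (fun σ => σ < t) := by
      refine Finset.filter_congr fun σ hσ => ?_
      have : σ ≠ t := fun h' => h (h' ▸ hσ)
      omega
    rw [e, if_neg h, add_zero]

/-- within a level -/
theorem e3_posn_step {m l w : ℕ} (A : Finset ℕ) (hw : w + 1 < m) :
    posn m A (l * m + (w + 1)) = posn m A (l * m + w) + if l * m + w ∈ A then 1 else 0 := by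
  unfold posn
  rw [e3_div hw, e3_div (by omega : w < m), ← add_assoc, e3_card_succ]
  split_ifs <;> push_cast <;> ring

/-- at the end of a level -/
theorem e3_posn_last {m l : ℕ} (A : Finset ℕ) (hm : 1 ≤ m) :
    posn m A ((l + 1) * m) = posn m A (l * m + (m - 1)) +
      (if l * m + (m - 1) ∈ A then 1 else 0) - 1 := by
  unfold posn
  have e : (l + 1) * m = l * m + (m - 1) + 1 := by
    rw [add_mul, one_mul]; omega
  have e2 : (l + 1) * m / m = l + 1 := Nat.mul_div_cancel _ (by omega)
  rw [e2, e3_div (by omega : m - 1 < m), e, e3_card_succ]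
  split_ifs <;> push_cast <;> ring

theorem e3_posn_zero (m : ℕ) (A : Finset ℕ) : posn m A 0 = 0 := by
  unfold posn; simp

theorem e3_posn_end {n m : ℕ} {A : Finset ℕ} (hA : A ∈ pats n m) (hm : 1 ≤ m) :
    posn m A (n * m) = 0 := by
  unfold posn
  have e : A.filter (fun σ => σ < n * m) = A :=
    Finset.filter_true_of_mem fun σ hσ => Finset.mem_range.1 (e3_sub hA hσ)
  rw [e, e3_card hA, Nat.mul_div_cancel _ (by omega)]
  simp

/-- distribution of the offset before the window `w` -/
noncomputable def e3_N (pi : Finset ℕ → ℝ) (n m w : ℕ) (j : ℤ) : ℝ :=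
  (∑ l ∈ Finset.range n, ∑ A ∈ pats n m, if posn m A (l * m + w) = j then pi A else 0) / n

/-- the part enlarged in the window `w` -/
noncomputable def e3_q (pi : Finset ℕ → ℝ) (n m w : ℕ) (j : ℤ) : ℝ :=
  (∑ l ∈ Finset.range n, ∑ A ∈ pats n m,
    if posn m A (l * m + w) = j ∧ l * m + w ∈ A then pi A else 0) / n

section flow

variable {pi : Finset ℕ → ℝ} {n m : ℕ}

theorem e3_supp {w : ℕ} (hw : w < m) {j : ℤ} (h : e3_N pi n m w j ≠ 0) :
    -(n : ℤ) ≤ j ∧ j ≤ n := by
  by_contra hj
  apply h
  unfold e3_N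
  rw [Finset.sum_eq_zero, zero_div]
  intro l hl
  refine Finset.sum_eq_zero fun A hA => ?_
  rw [if_neg]
  rintro rfl
  exact hj (e3_posn_abs hA (e3_lt (Finset.mem_range.1 hl) hw).le)

theorem e3_q_nonneg (hpi : ∀ A ∈ pats n m, 0 ≤ pi A) (w : ℕ) (j : ℤ) : 0 ≤ e3_q pi n m w j := by
  unfold e3_q
  refine div_nonneg (Finset.sum_nonneg fun l _ => Finset.sum_nonneg fun A hA => ?_)
    (Nat.cast_nonneg n)
  split_ifs
  · exact hpi A hA
  · exact le_rfl

theorem e3_q_le (hpi : ∀ A ∈ pats n m, 0 ≤ pi A) (w : ℕ) (j : ℤ) :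
    e3_q pi n m w j ≤ e3_N pi n m w j := by
  unfold e3_q e3_N
  refine div_le_div_of_nonneg_right ?_ (Nat.cast_nonneg n)
  refine Finset.sum_le_sum fun l _ => Finset.sum_le_sum fun A hA => ?_
  have := hpi A hA
  split_ifs with h1 h2 h2
  · exact le_rfl
  · exact absurd h1.1 h2
  · exact this
  · exact le_rfl

theorem e3_flow {w : ℕ} (hw : w + 1 < m) (j : ℤ) :
    e3_N pi n m (w + 1) j + e3_q pi n m w j = e3_N pi n m w j + e3_q pi n m w (j - 1) := by
  unfold e3_N e3_q
  rw [← add_div, ← add_div, ← Finset.sum_add_distrib, ← Finset.sum_add_distrib]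
  congr 1
  refine Finset.sum_congr rfl fun l _ => ?_
  rw [← Finset.sum_add_distrib, ← Finset.sum_add_distrib]
  refine Finset.sum_congr rfl fun A _ => ?_
  rw [e3_posn_step A hw]
  by_cases h : l * m + w ∈ A
  · simp only [h, if_true, and_true]
    have e : (posn m A (l * m + w) + 1 = j) = (posn m A (l * m + w) = j - 1) := by
      apply propext; constructor <;> intro h <;> omega
    simp only [e]
    ring
  · simp only [h, if_false, and_false, add_zero]

theorem e3_per (hm : 1 ≤ m) (j : ℤ) :
    e3_N pi n m 0 (j - 1) + e3_q pi n m (m - 1) j =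
      e3_N pi n m (m - 1) j + e3_q pi n m (m - 1) (j - 1) := by
  have h1 : ∑ l ∈ Finset.range n, ∑ A ∈ pats n m,
        (if posn m A (l * m + 0) = j - 1 then pi A else 0) =
      ∑ l ∈ Finset.range n, ∑ A ∈ pats n m,
        (if posn m A ((l + 1) * m) = j - 1 then pi A else 0) := by
    have h2 := Finset.sum_range_succ (fun l => ∑ A ∈ pats n m,
      (if posn m A (l * m) = j - 1 then pi A else 0)) n
    have h3 := Finset.sum_range_succ' (fun l => ∑ A ∈ pats n m,
      (if posn m A (l * m) = j - 1 then pi A else 0)) n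
    have h4 : ∑ A ∈ pats n m, (if posn m A (n * m) = j - 1 then pi A else 0) =
        ∑ A ∈ pats n m, (if posn m A (0 * m) = j - 1 then pi A else 0) := by
      refine Finset.sum_congr rfl fun A hA => ?_
      rw [e3_posn_end hA hm, zero_mul, e3_posn_zero]
    simp only [add_zero]
    linarith
  unfold e3_N e3_q
  rw [h1, ← add_div, ← add_div, ← Finset.sum_add_distrib, ← Finset.sum_add_distrib]
  congr 1
  refine Finset.sum_congr rfl fun l _ => ?_
  rw [← Finset.sum_add_distrib, ← Finset.sum_add_distrib]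
  refine Finset.sum_congr rfl fun A _ => ?_
  rw [e3_posn_last A hm]
  by_cases h : l * m + (m - 1) ∈ A
  · simp only [h, if_true, and_true]
    have e : (posn m A (l * m + (m - 1)) + 1 - 1 = j - 1) =
        (posn m A (l * m + (m - 1)) = j - 1) := by
      apply propext; constructor <;> intro h <;> omega
    simp only [e]
    ring
  · simp only [h, if_false, and_false, add_zero]
    have e : (posn m A (l * m + (m - 1)) - 1 = j - 1) =
        (posn m A (l * m + (m - 1)) = j) := by
      apply propext; constructor <;> intro h <;> omega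
    simp only [e]

theorem e3_sum_N {J w : ℕ} (hJ : n ≤ J) (hw : w < m) (g : ℤ → ℝ) :
    ∑ j ∈ Finset.Icc (-(J : ℤ)) J, e3_N pi n m w j * g j =
      (∑ l ∈ Finset.range n, ∑ A ∈ pats n m, pi A * g (posn m A (l * m + w))) / n := by
  unfold e3_N
  simp_rw [div_mul_eq_mul_div]
  rw [← Finset.sum_div]
  congr 1
  simp_rw [Finset.sum_mul]
  rw [Finset.sum_comm]
  refine Finset.sum_congr rfl fun l hl => ?_
  rw [Finset.sum_comm]
  refine Finset.sum_congr rfl fun A hA => ?_
  have h1 := e3_posn_abs hA (e3_lt (Finset.mem_range.1 hl) hw).le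
  rw [Finset.sum_eq_single (posn m A (l * m + w))]
  · rw [if_pos rfl]
  · intro j _ hj
    rw [if_neg (fun h => hj h.symm), zero_mul]
  · intro h
    exact absurd (Finset.mem_Icc.2 ⟨by omega, by omega⟩) h

theorem e3_sum_q {J w : ℕ} (hJ : n ≤ J) (hw : w < m) (g : ℤ → ℝ) :
    ∑ j ∈ Finset.Icc (-(J : ℤ)) J, e3_q pi n m w j * g j =
      (∑ l ∈ Finset.range n, ∑ A ∈ pats n m,
        if l * m + w ∈ A then pi A * g (posn m A (l * m + w)) else 0) / n := by
  unfold e3_q
  simp_rw [div_mul_eq_mul_div]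
  rw [← Finset.sum_div]
  congr 1
  simp_rw [Finset.sum_mul]
  rw [Finset.sum_comm]
  refine Finset.sum_congr rfl fun l hl => ?_
  rw [Finset.sum_comm]
  refine Finset.sum_congr rfl fun A hA => ?_
  have h1 := e3_posn_abs hA (e3_lt (Finset.mem_range.1 hl) hw).le
  rw [Finset.sum_eq_single (posn m A (l * m + w))]
  · simp only [true_and]
    split_ifs <;> simp
  · intro j _ hj
    rw [if_neg (fun h => hj h.1.symm), zero_mul]
  · intro h
    exact absurd (Finset.mem_Icc.2 ⟨by omega, by omega⟩) h

theorem e3_kw {A : Finset ℕ} (hA : A ∈ pats n m) {w : ℕ} (hw : w < m) :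
    ∑ l ∈ Finset.range n, (if l * m + w ∈ A then (1 : ℝ) else 0) = kw m A w := by
  unfold kw
  rw [Finset.sum_ite, Finset.sum_const_zero, add_zero, Finset.sum_const, nsmul_eq_mul, mul_one]
  congr 1
  refine Finset.card_nbij' (fun l => l * m + w) (fun t => t / m) ?_ ?_ ?_ ?_
  · intro l hl
    simp only [Finset.coe_filter, Set.mem_ofPred_eq, Finset.mem_range] at hl ⊢
    exact ⟨hl.2, e3_mod hw⟩
  · intro t ht
    simp only [Finset.coe_filter, Set.mem_ofPred_eq, Finset.mem_range] at ht ⊢
    have h1 := Finset.mem_range.1 (e3_sub hA ht.1)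
    have h2 : t / m * m + w = t := by
      have := Nat.div_add_mod' t m
      rw [ht.2] at this
      exact this
    rw [h2]
    exact ⟨Nat.div_lt_of_lt_mul (by rwa [mul_comm] at h1), ht.1⟩
  · intro l _
    exact e3_div hw
  · intro t ht
    simp only [Finset.coe_filter, Set.mem_ofPred_eq] at ht
    have := Nat.div_add_mod' t m
    rw [ht.2] at this
    exact this

end flow

/-- the Markov measure on subsets of the windows -/
noncomputable def e3_mu (p : ℕ → ℤ → ℝ) (m R : ℕ) (A : Finset ℕ) : ℝ :=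
  ∏ t ∈ Finset.range R,
    if t ∈ A then p (t % m) (posn m A t) else 1 - p (t % m) (posn m A t)

theorem e3_mu_sum (p : ℕ → ℤ → ℝ) (m R : ℕ) :
    ∑ A ∈ (Finset.range R).powerset, e3_mu p m R A = 1 := by
  induction R with
  | zero => simp [e3_mu]
  | succ R ih =>
    rw [Finset.range_add_one, Finset.sum_powerset_insert Finset.notMem_range_self,
      ← Finset.sum_add_distrib, ← ih]
    refine Finset.sum_congr rfl fun A hA => ?_
    have hRA : R ∉ A := fun h => by
      have := Finset.mem_range.1 (Finset.mem_powerset.1 hA h)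
      omega
    have hpos : ∀ t ≤ R, posn m (insert R A) t = posn m A t := by
      intro t ht
      unfold posn
      rw [Finset.filter_insert, if_neg (by omega)]
    have h1 : e3_mu p m (R + 1) A = e3_mu p m R A * (1 - p (R % m) (posn m A R)) := by
      unfold e3_mu
      rw [Finset.prod_range_succ, if_neg hRA]
    have h2 : e3_mu p m (R + 1) (insert R A) = e3_mu p m R A * p (R % m) (posn m A R) := by
      unfold e3_mu
      rw [Finset.prod_range_succ, if_pos (Finset.mem_insert_self _ _), hpos R le_rfl]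
      congr 1
      refine Finset.prod_congr rfl fun t ht => ?_
      have ht' := Finset.mem_range.1 ht
      rw [hpos t ht'.le]
      have e : (t ∈ insert R A) = (t ∈ A) := by
        apply propext
        rw [Finset.mem_insert]
        constructor
        · rintro (h | h)
          · omega
          · exact h
        · exact Or.inr
      simp only [e]
    rw [h1, h2]
    ring

/-- Gibbs inequality -/
theorem e3_gibbs {ι : Type*} (S : Finset ι) (a b : ι → ℝ) (ha : ∀ i ∈ S, 0 < a i)
    (hb : ∀ i ∈ S, 0 < b i) (h : ∑ i ∈ S, b i ≤ ∑ i ∈ S, a i) :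
    ∑ i ∈ S, a i * Real.log (b i) ≤ ∑ i ∈ S, a i * Real.log (a i) := by
  have h1 : ∑ i ∈ S, (a i * Real.log (b i) - a i * Real.log (a i)) ≤ ∑ i ∈ S, (b i - a i) := by
    refine Finset.sum_le_sum fun i hi => ?_
    have h2 := Real.log_le_sub_one_of_pos (div_pos (hb i hi) (ha i hi))
    rw [Real.log_div (hb i hi).ne' (ha i hi).ne'] at h2
    have h3 := mul_le_mul_of_nonneg_left h2 (ha i hi).le
    have h4 : a i * (b i / a i - 1) = b i - a i := by
      have := (ha i hi).ne'
      field_simp
    rw [h4] at h3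
    linarith
  rw [Finset.sum_sub_distrib, Finset.sum_sub_distrib] at h1
  linarith

theorem e3_ent_id {N q : ℝ} (h0 : 0 ≤ q) (h1 : q ≤ N) :
    q * Real.log (q / N) + N * Real.log (1 - q / N) - q * Real.log (1 - q / N) =
      q * Real.log q + (N - q) * Real.log (N - q) - N * Real.log N := by
  rcases eq_or_lt_of_le h0 with h | h
  · rw [← h]; simp
  have hN : 0 < N := h.trans_le h1
  rcases eq_or_lt_of_le h1 with h2 | h2
  · rw [h2, div_self hN.ne']; simp
  have e : 1 - q / N = (N - q) / N := by field_simp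
  rw [e, Real.log_div h.ne' hN.ne', Real.log_div (sub_pos.2 h2).ne' hN.ne']
  ring

theorem e3_sum_mod {m : ℕ} (hm : 1 ≤ m) (A : Finset ℕ) (f : ℕ → ℝ) :
    ∑ t ∈ A, f (t % m) = ∑ w ∈ Finset.range m, (kw m A w : ℝ) * f w := by
  rw [← Finset.sum_fiberwise_of_maps_to (g := fun t => t % m) (t := Finset.range m)
    (fun t _ => Finset.mem_range.2 (Nat.mod_lt _ hm))]
  refine Finset.sum_congr rfl fun w _ => ?_
  rw [Finset.sum_congr rfl (g := fun _ => f w) (fun t ht => by rw [(Finset.mem_filter.1 ht).2]),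
    Finset.sum_const, nsmul_eq_mul]
  rfl

theorem e3_ZZ_pos (κ : ℝ) (n m : ℕ) (hm : 1 ≤ m) (u : ℕ → ℝ) : 0 < ZZ κ n m u := by
  unfold ZZ
  refine Finset.sum_pos (fun A _ => Real.exp_pos _) ?_
  refine Finset.powersetCard_nonempty.2 ?_
  rw [Finset.card_range]
  exact Nat.le_mul_of_pos_right n hm

/-- the entropy of the pattern is at most the entropy of the flow -/
theorem e3_entropy {pi : Finset ℕ → ℝ} {n m J : ℕ} (hn : 1 ≤ n) (hm : 1 ≤ m) (hJ : n ≤ J)
    (hpi : ∀ A ∈ pats n m, 0 < pi A) (h1 : ∑ A ∈ pats n m, pi A = 1) :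
    -∑ A ∈ pats n m, pi A * Real.log (pi A) ≤
      n * ∑ w ∈ Finset.range m, ∑ j ∈ Finset.Icc (-(J : ℤ)) J,
        (e3_N pi n m w j * Real.log (e3_N pi n m w j) -
          e3_q pi n m w j * Real.log (e3_q pi n m w j) -
          (e3_N pi n m w j - e3_q pi n m w j) * Real.log (e3_N pi n m w j - e3_q pi n m w j)) := by
  have hn0 : (0 : ℝ) < n := by exact_mod_cast hn
  have hpi0 : ∀ A ∈ pats n m, 0 ≤ pi A := fun A hA => (hpi A hA).le
  set p : ℕ → ℤ → ℝ := fun w j => e3_q pi n m w j / e3_N pi n m w j with hp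
  -- positivity of the factors
  have hpos : ∀ A ∈ pats n m, ∀ t ∈ Finset.range (n * m),
      0 < (if t ∈ A then p (t % m) (posn m A t) else 1 - p (t % m) (posn m A t)) := by
    intro A hA t ht
    have ht' := Finset.mem_range.1 ht
    have hw : t % m < m := Nat.mod_lt _ hm
    have hl : t / m < n := Nat.div_lt_of_lt_mul (by rwa [mul_comm] at ht')
    have htt : t / m * m + t % m = t := Nat.div_add_mod' t m
    have hle := e3_q_le (pi := pi) hpi0 (t % m) (posn m A t)
    have hq0 := e3_q_nonneg (pi := pi) hpi0 (t % m) (posn m A t)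
    split_ifs with h
    · have hq : 0 < e3_q pi n m (t % m) (posn m A t) := by
        unfold e3_q
        refine div_pos (Finset.sum_pos' (fun l _ => Finset.sum_nonneg fun B hB => ?_)
          ⟨t / m, Finset.mem_range.2 hl, Finset.sum_pos' (fun B hB => ?_) ⟨A, hA, ?_⟩⟩) hn0
        · split_ifs
          · exact hpi0 B hB
          · exact le_rfl
        · split_ifs
          · exact hpi0 B hB
          · exact le_rfl
        · rw [htt, if_pos ⟨rfl, h⟩]
          exact hpi A hA
      exact div_pos hq (hq.trans_le hle)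
    · have hq : 0 < e3_N pi n m (t % m) (posn m A t) - e3_q pi n m (t % m) (posn m A t) := by
        unfold e3_q e3_N
        rw [← sub_div, ← Finset.sum_sub_distrib]
        have hB : ∀ l : ℕ, ∀ B ∈ pats n m,
            0 ≤ (if posn m B (l * m + t % m) = posn m A t then pi B else 0) -
              (if posn m B (l * m + t % m) = posn m A t ∧ l * m + t % m ∈ B then pi B else 0) := by
          intro l B hB
          have := hpi0 B hB
          split_ifs with h1 h2 h2
          · simp
          · simpa using this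
          · exact absurd h2.1 h1
          · simp
        refine div_pos (Finset.sum_pos' (fun l _ => ?_)
          ⟨t / m, Finset.mem_range.2 hl, ?_⟩) hn0
        · rw [← Finset.sum_sub_distrib]
          exact Finset.sum_nonneg fun B hB' => hB l B hB'
        · rw [← Finset.sum_sub_distrib]
          refine Finset.sum_pos' (fun B hB' => hB (t / m) B hB') ⟨A, hA, ?_⟩
          rw [htt, if_pos rfl, if_neg (fun h' => h h'.2), sub_zero]
          exact hpi A hA
      have hN : 0 < e3_N pi n m (t % m) (posn m A t) := by linarith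
      have : p (t % m) (posn m A t) < 1 := by
        rw [hp]
        exact (div_lt_one hN).2 (by linarith)
      linarith
  have hmu : ∀ A ∈ pats n m, 0 < e3_mu p m (n * m) A := fun A hA => Finset.prod_pos (hpos A hA)
  -- total mass
  have hp01 : ∀ w j, 0 ≤ p w j ∧ p w j ≤ 1 := fun w j =>
    ⟨div_nonneg (e3_q_nonneg hpi0 w j) ((e3_q_nonneg hpi0 w j).trans (e3_q_le hpi0 w j)),
      div_le_one_of_le₀ (e3_q_le hpi0 w j) ((e3_q_nonneg hpi0 w j).trans (e3_q_le hpi0 w j))⟩
  have hmass : ∑ A ∈ pats n m, e3_mu p m (n * m) A ≤ 1 := by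
    rw [← e3_mu_sum p m (n * m)]
    refine Finset.sum_le_sum_of_subset_of_nonneg (fun A hA => ?_) fun A _ _ => ?_
    · exact Finset.mem_powerset.2 (e3_sub hA)
    · refine Finset.prod_nonneg fun t _ => ?_
      have := hp01 (t % m) (posn m A t)
      split_ifs <;> linarith
  have hG := e3_gibbs (pats n m) pi (fun A => e3_mu p m (n * m) A) hpi hmu (by rw [h1]; exact hmass)
  -- evaluation of the logarithm
  have hlog : ∀ A ∈ pats n m, Real.log (e3_mu p m (n * m) A) =
      ∑ w ∈ Finset.range m, ∑ l ∈ Finset.range n,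
        (if l * m + w ∈ A then Real.log (p w (posn m A (l * m + w)))
          else Real.log (1 - p w (posn m A (l * m + w)))) := by
    intro A hA
    unfold e3_mu
    rw [Real.log_prod (fun t ht => (hpos A hA t ht).ne'), e3_sum_blocks]
    refine Finset.sum_congr rfl fun w hw => Finset.sum_congr rfl fun l _ => ?_
    rw [e3_mod (Finset.mem_range.1 hw)]
    split_ifs <;> rfl
  have hsum : ∑ A ∈ pats n m, pi A * Real.log (e3_mu p m (n * m) A) =
      ∑ w ∈ Finset.range m, n * ∑ j ∈ Finset.Icc (-(J : ℤ)) J,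
        (e3_q pi n m w j * Real.log (e3_q pi n m w j) +
          (e3_N pi n m w j - e3_q pi n m w j) *
            Real.log (e3_N pi n m w j - e3_q pi n m w j) -
          e3_N pi n m w j * Real.log (e3_N pi n m w j)) := by
    rw [Finset.sum_congr rfl (fun A hA => by rw [hlog A hA, Finset.mul_sum]), Finset.sum_comm]
    refine Finset.sum_congr rfl fun w hw => ?_
    have hw' := Finset.mem_range.1 hw
    have a1 := e3_sum_q (pi := pi) hJ hw' (fun j => Real.log (p w j))
    have a2 := e3_sum_q (pi := pi) hJ hw' (fun j => Real.log (1 - p w j))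
    have a3 := e3_sum_N (pi := pi) hJ hw' (fun j => Real.log (1 - p w j))
    have a4 : ∑ j ∈ Finset.Icc (-(J : ℤ)) J,
        (e3_q pi n m w j * Real.log (e3_q pi n m w j) +
          (e3_N pi n m w j - e3_q pi n m w j) *
            Real.log (e3_N pi n m w j - e3_q pi n m w j) -
          e3_N pi n m w j * Real.log (e3_N pi n m w j)) =
        ∑ j ∈ Finset.Icc (-(J : ℤ)) J, e3_q pi n m w j * Real.log (p w j) +
        ∑ j ∈ Finset.Icc (-(J : ℤ)) J, e3_N pi n m w j * Real.log (1 - p w j) -
        ∑ j ∈ Finset.Icc (-(J : ℤ)) J, e3_q pi n m w j * Real.log (1 - p w j) := by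
      rw [← Finset.sum_add_distrib, ← Finset.sum_sub_distrib]
      refine Finset.sum_congr rfl fun j _ => ?_
      exact (e3_ent_id (e3_q_nonneg hpi0 w j) (e3_q_le hpi0 w j)).symm
    rw [a4, a1, a2, a3, ← add_div, ← sub_div, mul_div_cancel₀ _ hn0.ne',
      ← Finset.sum_add_distrib, ← Finset.sum_sub_distrib]
    rw [Finset.sum_congr rfl (fun A _ => by rw [Finset.mul_sum]), Finset.sum_comm]
    refine Finset.sum_congr rfl fun l _ => ?_
    rw [← Finset.sum_add_distrib, ← Finset.sum_sub_distrib]
    refine Finset.sum_congr rfl fun A _ => ?_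
    split_ifs <;> ring
  rw [hsum] at hG
  have hfin : ∑ w ∈ Finset.range m, (n : ℝ) * ∑ j ∈ Finset.Icc (-(J : ℤ)) J,
        (e3_q pi n m w j * Real.log (e3_q pi n m w j) +
          (e3_N pi n m w j - e3_q pi n m w j) *
            Real.log (e3_N pi n m w j - e3_q pi n m w j) -
          e3_N pi n m w j * Real.log (e3_N pi n m w j)) =
      -(n * ∑ w ∈ Finset.range m, ∑ j ∈ Finset.Icc (-(J : ℤ)) J,
        (e3_N pi n m w j * Real.log (e3_N pi n m w j) -
          e3_q pi n m w j * Real.log (e3_q pi n m w j) -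
          (e3_N pi n m w j - e3_q pi n m w j) *
            Real.log (e3_N pi n m w j - e3_q pi n m w j))) := by
    rw [← Finset.mul_sum, ← mul_neg, ← Finset.sum_neg_distrib]
    congr 1
    refine Finset.sum_congr rfl fun w _ => ?_
    rw [← Finset.sum_neg_distrib]
    refine Finset.sum_congr rfl fun j _ => ?_
    ring
  rw [hfin] at hG
  linarith

/-- the flow of the optimal pattern -/
theorem lcert_of_min (κ ε : ℝ) (hκ : 0 < κ) (hε : 0 < ε) (n m : ℕ) (hn : 1 ≤ n) (hm : 1 ≤ m)
    (u : ℕ → ℝ) (hu : ∑ w ∈ Finset.range m, u w = 0)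
    (hr : ∀ w < m, ∑ A ∈ pats n m, pwt κ n m u A * kw m A w = (n : ℝ) / m * ZZ κ n m u) :
    ∃ (J den : ℕ) (N q : ℕ → ℤ → ℕ) (lm tp : ℕ → ℤ),
      LCert κ (Real.log (ZZ κ n m u) / n - κ * (n + 1) / m - ε) 2 (2 * m) J den N q lm tp := by
  have hn0 : (0 : ℝ) < n := by exact_mod_cast hn
  have hm0 : (0 : ℝ) < m := by exact_mod_cast hm
  have hZ := e3_ZZ_pos κ n m hm u
  set pi : Finset ℕ → ℝ := fun A => pwt κ n m u A / ZZ κ n m u with hpidef
  have hpi : ∀ A ∈ pats n m, 0 < pi A := fun A _ => div_pos (Real.exp_pos _) hZ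
  have hpi0 : ∀ A ∈ pats n m, 0 ≤ pi A := fun A hA => (hpi A hA).le
  have h1 : ∑ A ∈ pats n m, pi A = 1 := by
    rw [hpidef, ← Finset.sum_div]
    exact div_self hZ.ne'
  have hkw : ∀ w < m, ∑ A ∈ pats n m, pi A * kw m A w = n / m := by
    intro w hw
    have : ∑ A ∈ pats n m, pi A * kw m A w =
        (∑ A ∈ pats n m, pwt κ n m u A * kw m A w) / ZZ κ n m u := by
      rw [Finset.sum_div]
      refine Finset.sum_congr rfl fun A _ => ?_
      rw [hpidef]; ring
    rw [this, hr w hw, mul_div_assoc, div_self hZ.ne', mul_one]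
  obtain ⟨J, hJ, hJn⟩ : ∃ J : ℕ, Even J ∧ n + 2 ≤ J := ⟨2 * (n + 2), even_two_mul _, by omega⟩
  have hNtot : ∀ w < m, ∑ j ∈ Finset.Icc (-(J : ℤ)) J, e3_N pi n m w j = 1 := by
    intro w hw
    have := e3_sum_N (pi := pi) (n := n) (m := m) (J := J) (by omega) hw (fun _ => 1)
    simp only [mul_one] at this
    rw [this, h1, Finset.sum_const, Finset.card_range, nsmul_eq_mul, mul_one, div_self hn0.ne']
  have hqtot : ∀ w < m, ∑ j ∈ Finset.Icc (-(J : ℤ)) J, e3_q pi n m w j = 1 / m := by
    intro w hw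
    have h2 := e3_sum_q (pi := pi) (n := n) (m := m) (J := J) (by omega) hw (fun _ => 1)
    simp only [mul_one] at h2
    rw [h2, Finset.sum_comm]
    have h3 : ∑ A ∈ pats n m, ∑ l ∈ Finset.range n, (if l * m + w ∈ A then pi A else 0) =
        n / m := by
      rw [← hkw w hw]
      refine Finset.sum_congr rfl fun A hA => ?_
      rw [← e3_kw hA hw, Finset.mul_sum]
      refine Finset.sum_congr rfl fun l _ => ?_
      split_ifs <;> simp
    rw [h3]
    field_simp
  -- the value
  have hent := e3_entropy (pi := pi) (J := J) hn hm (by omega) hpi h1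
  have hpen : ∑ A ∈ pats n m, pi A * ∑ t ∈ Finset.range (n * m),
      ((posn m A t : ℝ) * ((posn m A t : ℝ) - 1)) =
      n * ∑ w ∈ Finset.range m, ∑ j ∈ Finset.Icc (-(J : ℤ)) J,
        e3_N pi n m w j * ((j : ℝ) * ((j : ℝ) - 1)) := by
    rw [Finset.sum_congr rfl (fun A _ => by rw [e3_sum_blocks, Finset.mul_sum]),
      Finset.sum_comm, Finset.mul_sum]
    refine Finset.sum_congr rfl fun w hw => ?_
    rw [e3_sum_N (by omega) (Finset.mem_range.1 hw) (fun j => (j : ℝ) * ((j : ℝ) - 1)),
      mul_div_cancel₀ _ hn0.ne',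
      Finset.sum_congr rfl (fun A _ => by rw [Finset.mul_sum]), Finset.sum_comm]
  have hsteps : ∑ A ∈ pats n m, pi A * ∑ t ∈ A, (u (t % m) - Real.log m) =
      -(n * Real.log m) := by
    have h2 : ∀ A ∈ pats n m, pi A * ∑ t ∈ A, (u (t % m) - Real.log m) =
        ∑ w ∈ Finset.range m, (pi A * kw m A w) * (u w - Real.log m) := by
      intro A _
      rw [e3_sum_mod hm A (fun w => u w - Real.log m), Finset.mul_sum]
      refine Finset.sum_congr rfl fun w _ => ?_
      ring
    rw [Finset.sum_congr rfl h2, Finset.sum_comm]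
    have h3 : ∀ w ∈ Finset.range m, ∑ A ∈ pats n m, (pi A * kw m A w) * (u w - Real.log m) =
        n / m * (u w - Real.log m) := by
      intro w hw
      rw [← Finset.sum_mul, hkw w (Finset.mem_range.1 hw)]
    rw [Finset.sum_congr rfl h3, ← Finset.mul_sum, Finset.sum_sub_distrib, hu, Finset.sum_const,
      Finset.card_range, nsmul_eq_mul]
    field_simp
    ring
  have hlogZ : Real.log (ZZ κ n m u) = -(n * Real.log m) -
      κ / m * (n * ∑ w ∈ Finset.range m, ∑ j ∈ Finset.Icc (-(J : ℤ)) J,
        e3_N pi n m w j * ((j : ℝ) * ((j : ℝ) - 1))) -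
      ∑ A ∈ pats n m, pi A * Real.log (pi A) := by
    rw [← hpen, ← hsteps, Finset.mul_sum, ← Finset.sum_sub_distrib, ← Finset.sum_sub_distrib]
    calc Real.log (ZZ κ n m u) = ∑ A ∈ pats n m, pi A * Real.log (ZZ κ n m u) := by
          rw [← Finset.sum_mul, h1, one_mul]
      _ = _ := by
          refine Finset.sum_congr rfl fun A _ => ?_
          have h2 : Real.log (pi A) = (∑ t ∈ A, (u (t % m) - Real.log m) -
              κ / m * ∑ t ∈ Finset.range (n * m),
                ((posn m A t : ℝ) * ((posn m A t : ℝ) - 1))) - Real.log (ZZ κ n m u) := by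
            rw [hpidef]
            show Real.log (pwt κ n m u A / ZZ κ n m u) = _
            have h3 : pwt κ n m u A ≠ 0 := (Real.exp_pos _).ne'
            rw [Real.log_div h3 hZ.ne']
            unfold pwt
            rw [Real.log_exp]
          rw [h2]
          ring
  have hval : Real.log (ZZ κ n m u) / n ≤
      ∑ w ∈ Finset.range m, ∑ j ∈ Finset.Icc (-(J : ℤ)) J,
        (e3_N pi n m w j * Real.log (e3_N pi n m w j) -
          e3_q pi n m w j * Real.log (e3_q pi n m w j) -
          (e3_N pi n m w j - e3_q pi n m w j) *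
            Real.log (e3_N pi n m w j - e3_q pi n m w j) -
          κ / m * (e3_N pi n m w j * (j * (j - 1)))) - Real.log m := by
    rw [div_le_iff₀ hn0]
    have h2 : ∑ w ∈ Finset.range m, ∑ j ∈ Finset.Icc (-(J : ℤ)) J,
        (e3_N pi n m w j * Real.log (e3_N pi n m w j) -
          e3_q pi n m w j * Real.log (e3_q pi n m w j) -
          (e3_N pi n m w j - e3_q pi n m w j) *
            Real.log (e3_N pi n m w j - e3_q pi n m w j) -
          κ / m * (e3_N pi n m w j * (j * (j - 1)))) =
        ∑ w ∈ Finset.range m, ∑ j ∈ Finset.Icc (-(J : ℤ)) J,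
        (e3_N pi n m w j * Real.log (e3_N pi n m w j) -
          e3_q pi n m w j * Real.log (e3_q pi n m w j) -
          (e3_N pi n m w j - e3_q pi n m w j) *
            Real.log (e3_N pi n m w j - e3_q pi n m w j)) -
        κ / m * ∑ w ∈ Finset.range m, ∑ j ∈ Finset.Icc (-(J : ℤ)) J,
          e3_N pi n m w j * ((j : ℝ) * ((j : ℝ) - 1)) := by
      rw [Finset.mul_sum, ← Finset.sum_sub_distrib]
      refine Finset.sum_congr rfl fun w _ => ?_
      rw [Finset.mul_sum, ← Finset.sum_sub_distrib]
    rw [h2, hlogZ]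
    linarith
  obtain ⟨den, N', q', lm, tp, hC⟩ := lcert_of_real κ (Real.log (ZZ κ n m u) / n) ε hκ.le hε m J
    (n + 1) hm hJ (by omega) (fun w j => e3_N pi n m w j) (fun w j => e3_q pi n m w j)
    (fun w hw j h => by
      have := e3_supp hw h
      push_cast
      constructor <;> omega)
    (fun w _ j => e3_q_nonneg hpi0 w j) (fun w _ j => e3_q_le hpi0 w j)
    (fun w hw j h => by
      have h2 : e3_N pi n m w j ≠ 0 := by
        intro h3
        have h4 := e3_q_le hpi0 (n := n) (m := m) w j
        have h5 := e3_q_nonneg hpi0 (n := n) (m := m) w j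
        rw [h3] at h4
        exact h (le_antisymm h4 h5)
      have := e3_supp hw h2
      push_cast
      omega)
    (fun w hw j => e3_flow hw j) (fun j => e3_per hm j) (hNtot 0 hm) hqtot hval
  refine ⟨J, den, N', q', lm, tp, ?_⟩
  push_cast at hC
  exact hC

end Pool.Agent.Lib.MP_8501c9_pr.Wide
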