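import Pool.Agent.Lib.MP_8501c9_pr.Wide.DefsE

/-!
# The optimal time profile of the one-direction problem
-/

set_option autoImplicit false
open Set

namespace Pool.Agent.Lib.MP_8501c9_pr.Wide

open Pool.Agent.Lib.MP_8501c9_pr Pool.Agent.Lib.MP_8501c9_pr.Mid

/-! ### elementary facts on patterns -/

theorem e1_mem_pats {n m : ℕ} {A : Finset ℕ} :
    A ∈ pats n m ↔ (∀ τ ∈ A, τ < n * m) ∧ A.card = n := by
  unfold pats
  rw [Finset.mem_powersetCard]
  constructor
  · rintro ⟨h1, h2⟩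
    exact ⟨fun τ hτ => Finset.mem_range.mp (h1 hτ), h2⟩
  · rintro ⟨h1, h2⟩
    exact ⟨fun τ hτ => Finset.mem_range.mpr (h1 τ hτ), h2⟩

theorem e1_pwt_pos (κ : ℝ) (n m : ℕ) (u : ℕ → ℝ) (A : Finset ℕ) : 0 < pwt κ n m u A :=
  Real.exp_pos _

theorem e1_int_nonneg (j : ℤ) : (0 : ℝ) ≤ (j : ℝ) * ((j : ℝ) - 1) := by
  have h : 0 ≤ j * (j - 1) := by
    rcases le_or_gt j 0 with h | h
    · nlinarith
    · have : 1 ≤ j := h
      nlinarith
  exact_mod_cast h

theorem e1_posn_abs {n m : ℕ} (hm : 1 ≤ m) {A : Finset ℕ} (hA : A.card ≤ n) {τ : ℕ}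
    (hτ : τ < n * m) : |(posn m A τ : ℝ)| ≤ n := by
  have h1 : (A.filter (fun σ => σ < τ)).card ≤ n := (Finset.card_filter_le _ _).trans hA
  have h2 : τ / m ≤ n := by
    rw [Nat.div_le_iff_le_mul_add_pred (by omega)]
    nlinarith
  have h3 : |posn m A τ| ≤ n := by
    unfold posn
    generalize τ / m = a at h2 ⊢
    rw [abs_le]
    constructor <;> omega
  exact_mod_cast h3

theorem e1_kw_eq {n m : ℕ} (hm : 1 ≤ m) {A : Finset ℕ} (hA : A ∈ pats n m) {w : ℕ} (hw : w < m) :
    (kw m A w : ℝ) = ∑ l ∈ Finset.range n, if l * m + w ∈ A then (1 : ℝ) else 0 := by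
  rw [← Finset.sum_filter, Finset.sum_const, nsmul_eq_mul, mul_one]
  have hA' := e1_mem_pats.mp hA
  unfold kw
  congr 1
  apply Finset.card_bij' (fun τ _ => τ / m) (fun l _ => l * m + w)
  · intro τ hτ
    rw [Finset.mem_filter] at hτ
    have h1 : τ / m * m + w = τ := by
      have := Nat.div_add_mod τ m
      rw [hτ.2] at this
      rw [mul_comm]; exact this
    rw [Finset.mem_filter, Finset.mem_range, h1]
    refine ⟨?_, hτ.1⟩
    have h2 := hA'.1 τ hτ.1
    exact Nat.div_lt_of_lt_mul (by rw [mul_comm]; exact h2)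
  · intro l hl
    rw [Finset.mem_filter] at hl ⊢
    refine ⟨hl.2, ?_⟩
    rw [mul_comm, Nat.mul_add_mod]
    exact Nat.mod_eq_of_lt hw
  · intro τ hτ
    rw [Finset.mem_filter] at hτ
    have := Nat.div_add_mod τ m
    rw [hτ.2] at this
    show τ / m * m + w = τ
    rw [mul_comm]; exact this
  · intro l hl
    show (l * m + w) / m = l
    rw [mul_comm, Nat.mul_add_div (by omega), Nat.div_eq_of_lt hw, add_zero]

/-! ### the swap of two neighbouring windows -/

/-- move a step from the window `τ` to the window `τ + 1` -/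
def e1_sw (τ : ℕ) (A : Finset ℕ) : Finset ℕ := insert (τ + 1) (A.erase τ)

/-- move a step from the window `τ + 1` to the window `τ` -/
def e1_ws (τ : ℕ) (A : Finset ℕ) : Finset ℕ := insert τ (A.erase (τ + 1))

theorem e1_ws_sw {τ : ℕ} {A : Finset ℕ} (h1 : τ ∈ A) (h2 : τ + 1 ∉ A) : e1_ws τ (e1_sw τ A) = A := by
  ext x
  simp only [e1_ws, e1_sw, Finset.mem_insert, Finset.mem_erase]
  by_cases hx : x = τ
  · simp [hx, h1]
  · by_cases hx' : x = τ + 1
    · simp [hx', h2]
    · simp [hx, hx']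

theorem e1_sw_ws {τ : ℕ} {A : Finset ℕ} (h1 : τ ∉ A) (h2 : τ + 1 ∈ A) : e1_sw τ (e1_ws τ A) = A := by
  ext x
  simp only [e1_ws, e1_sw, Finset.mem_insert, Finset.mem_erase]
  by_cases hx : x = τ
  · simp [hx, h1]
  · by_cases hx' : x = τ + 1
    · simp [hx', h2]
    · simp [hx, hx']

theorem e1_sum_sw {τ : ℕ} {A : Finset ℕ} (h1 : τ ∈ A) (h2 : τ + 1 ∉ A) (g : ℕ → ℝ) :
    ∑ σ ∈ e1_sw τ A, g σ = ∑ σ ∈ A, g σ - g τ + g (τ + 1) := by
  unfold e1_sw
  rw [Finset.sum_insert (by simp [h2]), ← Finset.add_sum_erase A g h1]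
  ring

theorem e1_card_sw {τ : ℕ} {A : Finset ℕ} (h1 : τ ∈ A) (h2 : τ + 1 ∉ A) :
    (e1_sw τ A).card = A.card := by
  unfold e1_sw
  rw [Finset.card_insert_of_notMem (by simp [h2]), Finset.card_erase_of_mem h1]
  have : 0 < A.card := Finset.card_pos.mpr ⟨τ, h1⟩
  omega

theorem e1_posn_sw (m : ℕ) {τ : ℕ} {A : Finset ℕ} (h1 : τ ∈ A) (h2 : τ + 1 ∉ A) (t : ℕ) :
    (posn m (e1_sw τ A) t : ℝ) = (posn m A t : ℝ) - if t = τ + 1 then 1 else 0 := by
  have key : ∀ B : Finset ℕ, ((B.filter (fun σ => σ < t)).card : ℝ) =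
      ∑ σ ∈ B, if σ < t then (1 : ℝ) else 0 := by
    intro B
    rw [← Finset.sum_filter, Finset.sum_const, nsmul_eq_mul, mul_one]
  unfold posn
  push_cast
  rw [key, key, e1_sum_sw h1 h2]
  have : (if τ + 1 < t then (1 : ℝ) else 0) - (if τ < t then (1 : ℝ) else 0) =
      - if t = τ + 1 then 1 else 0 := by
    split_ifs <;> first | omega | norm_num
  linarith

theorem e1_pwt_sw (κ : ℝ) (n m : ℕ) (u : ℕ → ℝ) {τ : ℕ} {A : Finset ℕ} (h1 : τ ∈ A)
    (h2 : τ + 1 ∉ A) (hτ : τ + 1 < n * m) :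
    pwt κ n m u A = pwt κ n m u (e1_sw τ A) *
      Real.exp (u (τ % m) - u ((τ + 1) % m) - 2 * κ / m * (posn m (e1_sw τ A) (τ + 1) : ℝ)) := by
  unfold pwt
  rw [← Real.exp_add]
  congr 1
  rw [e1_sum_sw h1 h2]
  have h3 : ∑ t ∈ Finset.range (n * m), (posn m A t : ℝ) * ((posn m A t : ℝ) - 1) =
      ∑ t ∈ Finset.range (n * m), ((posn m (e1_sw τ A) t : ℝ) *
        ((posn m (e1_sw τ A) t : ℝ) - 1) +
        if t = τ + 1 then 2 * (posn m (e1_sw τ A) (τ + 1) : ℝ) else 0) := by
    refine Finset.sum_congr rfl (fun t _ => ?_)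
    have h4 := e1_posn_sw m h1 h2 t
    split_ifs at h4 ⊢ with ht
    · subst ht
      have h5 : (posn m A (τ + 1) : ℝ) = (posn m (e1_sw τ A) (τ + 1) : ℝ) + 1 := by linarith
      rw [h5]
      ring
    · rw [h4]
      ring
  rw [h3, Finset.sum_add_distrib, Finset.sum_ite_eq' (Finset.range (n * m)) (τ + 1),
    if_pos (Finset.mem_range.mpr hτ)]
  ring

/-- patterns with a step in the window `τ` but not in `τ + 1` -/
def e1_X (n m τ : ℕ) : Finset (Finset ℕ) := (pats n m).filter fun A => τ ∈ A ∧ τ + 1 ∉ A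

/-- patterns with a step in the window `τ + 1` but not in `τ` -/
def e1_Y (n m τ : ℕ) : Finset (Finset ℕ) := (pats n m).filter fun A => τ ∉ A ∧ τ + 1 ∈ A

theorem e1_sw_mem {n m τ : ℕ} (hτ : τ + 1 < n * m) {A : Finset ℕ} (hA : A ∈ e1_X n m τ) :
    e1_sw τ A ∈ e1_Y n m τ := by
  unfold e1_X at hA
  unfold e1_Y
  rw [Finset.mem_filter] at hA ⊢
  obtain ⟨h0, h1, h2⟩ := hA
  have h0' := e1_mem_pats.mp h0
  refine ⟨e1_mem_pats.mpr ⟨?_, by rw [e1_card_sw h1 h2]; exact h0'.2⟩, ?_, ?_⟩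
  · intro σ hσ
    unfold e1_sw at hσ
    rw [Finset.mem_insert, Finset.mem_erase] at hσ
    rcases hσ with rfl | hσ
    · exact hτ
    · exact h0'.1 σ hσ.2
  · unfold e1_sw
    simp
  · unfold e1_sw
    simp

theorem e1_ws_mem {n m τ : ℕ} (hτ : τ + 1 < n * m) {A : Finset ℕ} (hA : A ∈ e1_Y n m τ) :
    e1_ws τ A ∈ e1_X n m τ := by
  unfold e1_Y at hA
  unfold e1_X
  rw [Finset.mem_filter] at hA ⊢
  obtain ⟨h0, h1, h2⟩ := hA
  have h0' := e1_mem_pats.mp h0
  refine ⟨e1_mem_pats.mpr ⟨?_, ?_⟩, ?_, ?_⟩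
  · intro σ hσ
    unfold e1_ws at hσ
    rw [Finset.mem_insert, Finset.mem_erase] at hσ
    rcases hσ with rfl | hσ
    · omega
    · exact h0'.1 σ hσ.2
  · unfold e1_ws
    rw [Finset.card_insert_of_notMem (by simp [h1]), Finset.card_erase_of_mem h2, h0'.2]
    have : 0 < A.card := Finset.card_pos.mpr ⟨_, h2⟩
    omega
  · unfold e1_ws
    simp
  · unfold e1_ws
    simp

theorem e1_sum_swap (n m τ : ℕ) (hτ : τ + 1 < n * m) (g : Finset ℕ → ℝ) :
    ∑ A ∈ e1_X n m τ, g (e1_sw τ A) = ∑ A ∈ e1_Y n m τ, g A := by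
  apply Finset.sum_bij' (fun A _ => e1_sw τ A) (fun A _ => e1_ws τ A)
  · intro A hA
    exact e1_sw_mem hτ hA
  · intro A hA
    exact e1_ws_mem hτ hA
  · intro A hA
    have := (Finset.mem_filter.mp hA).2
    exact e1_ws_sw this.1 this.2
  · intro A hA
    have := (Finset.mem_filter.mp hA).2
    exact e1_sw_ws this.1 this.2
  · intro A _
    rfl

theorem e1_level {n m : ℕ} (hm : 1 ≤ m) {l w : ℕ} (hl : l < n) (hw : w < m) : l * m + w < n * m := by
  have : (l + 1) * m ≤ n * m := Nat.mul_le_mul_right m hl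
  nlinarith

theorem e1_X_le (κ : ℝ) (hκ : 0 < κ) (n m : ℕ) (hm : 1 ≤ m) (u : ℕ → ℝ) {l w : ℕ} (hl : l < n)
    (hw : w + 1 < m) :
    ∑ A ∈ e1_X n m (l * m + w), pwt κ n m u A ≤
        Real.exp (u w - u (w + 1) + 2 * κ * n / m) *
          ∑ A ∈ e1_Y n m (l * m + w), pwt κ n m u A ∧
      Real.exp (u w - u (w + 1) - 2 * κ * n / m) *
          ∑ A ∈ e1_Y n m (l * m + w), pwt κ n m u A ≤
        ∑ A ∈ e1_X n m (l * m + w), pwt κ n m u A := by
  have hmpos : (0 : ℝ) < m := by exact_mod_cast hm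
  have hτ : l * m + w + 1 < n * m := by
    have := e1_level hm hl hw
    omega
  have e1 : (l * m + w) % m = w := by
    rw [mul_comm, Nat.mul_add_mod]; exact Nat.mod_eq_of_lt (by omega)
  have e2 : (l * m + w + 1) % m = w + 1 := by
    rw [add_assoc, mul_comm, Nat.mul_add_mod]; exact Nat.mod_eq_of_lt hw
  have key : ∀ A ∈ e1_X n m (l * m + w),
      pwt κ n m u A ≤ Real.exp (u w - u (w + 1) + 2 * κ * n / m) *
        pwt κ n m u (e1_sw (l * m + w) A) ∧
      Real.exp (u w - u (w + 1) - 2 * κ * n / m) * pwt κ n m u (e1_sw (l * m + w) A) ≤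
        pwt κ n m u A := by
    intro A hA
    have hA1 := (Finset.mem_filter.mp hA).2
    have h3 := e1_pwt_sw κ n m u hA1.1 hA1.2 hτ
    rw [e1, e2] at h3
    have hY := e1_sw_mem hτ hA
    have hYc := (e1_mem_pats.mp (Finset.mem_filter.mp hY).1).2
    have h4 := e1_posn_abs hm hYc.le hτ
    rw [abs_le] at h4
    have h5 : 0 < pwt κ n m u (e1_sw (l * m + w) A) := e1_pwt_pos _ _ _ _ _
    have h6 : 2 * κ / m * (posn m (e1_sw (l * m + w) A) (l * m + w + 1) : ℝ) ≤ 2 * κ * n / m := by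
      have : 2 * κ * n / m = 2 * κ / m * n := by ring
      rw [this]
      have h7 : 0 ≤ 2 * κ / m := by positivity
      exact mul_le_mul_of_nonneg_left h4.2 h7
    have h8 : -(2 * κ * n / m) ≤ 2 * κ / m * (posn m (e1_sw (l * m + w) A) (l * m + w + 1) : ℝ) := by
      have : -(2 * κ * n / m) = 2 * κ / m * (-n) := by ring
      rw [this]
      have h7 : 0 ≤ 2 * κ / m := by positivity
      exact mul_le_mul_of_nonneg_left h4.1 h7
    rw [h3]
    constructor
    · rw [mul_comm]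
      apply mul_le_mul_of_nonneg_right _ h5.le
      apply Real.exp_le_exp.mpr
      linarith
    · rw [mul_comm]
      apply mul_le_mul_of_nonneg_left _ h5.le
      apply Real.exp_le_exp.mpr
      linarith
  have hsum := e1_sum_swap n m (l * m + w) hτ (fun A => pwt κ n m u A)
  rw [← hsum, Finset.mul_sum, Finset.mul_sum]
  exact ⟨Finset.sum_le_sum (fun A hA => (key A hA).1), Finset.sum_le_sum (fun A hA => (key A hA).2)⟩

theorem e1_diff (κ : ℝ) (n m : ℕ) (hm : 1 ≤ m) (u : ℕ → ℝ) {w : ℕ} (hw : w + 1 < m) :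
    ∑ A ∈ pats n m, pwt κ n m u A * kw m A w - ∑ A ∈ pats n m, pwt κ n m u A * kw m A (w + 1) =
      ∑ l ∈ Finset.range n, ∑ A ∈ e1_X n m (l * m + w), pwt κ n m u A -
        ∑ l ∈ Finset.range n, ∑ A ∈ e1_Y n m (l * m + w), pwt κ n m u A := by
  rw [← Finset.sum_sub_distrib, ← Finset.sum_sub_distrib]
  have h1 : ∀ A ∈ pats n m, pwt κ n m u A * kw m A w - pwt κ n m u A * kw m A (w + 1) =
      ∑ l ∈ Finset.range n, ((if (l * m + w ∈ A ∧ l * m + w + 1 ∉ A) then pwt κ n m u A else 0) -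
        (if (l * m + w ∉ A ∧ l * m + w + 1 ∈ A) then pwt κ n m u A else 0)) := by
    intro A hA
    rw [e1_kw_eq hm hA (by omega : w < m), e1_kw_eq hm hA hw, ← mul_sub, ← Finset.sum_sub_distrib,
      Finset.mul_sum]
    refine Finset.sum_congr rfl (fun l _ => ?_)
    rw [← add_assoc]
    by_cases h2 : l * m + w ∈ A <;> by_cases h3 : l * m + w + 1 ∈ A <;> simp [h2, h3]
  rw [Finset.sum_congr rfl h1, Finset.sum_comm]
  refine Finset.sum_congr rfl (fun l _ => ?_)
  rw [Finset.sum_sub_distrib]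
  unfold e1_X e1_Y
  rw [Finset.sum_filter, Finset.sum_filter]

/-! ### patterns with one step per level -/

/-- one step per level -/
def e1_pt (n m : ℕ) (f : Fin n → Fin m) : Finset ℕ :=
  Finset.univ.map ⟨fun l : Fin n => (l : ℕ) * m + f l, by
    intro l l' h
    have h' : (l : ℕ) * m + f l = (l' : ℕ) * m + f l' := h
    have h1 := (f l).2
    have h2 := (f l').2
    have hm : 0 < m := by omega
    have h3 : ((l : ℕ) * m + f l) / m = l := by
      rw [mul_comm, Nat.mul_add_div hm, Nat.div_eq_of_lt h1, add_zero]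
    have h4 : ((l' : ℕ) * m + f l') / m = l' := by
      rw [mul_comm, Nat.mul_add_div hm, Nat.div_eq_of_lt h2, add_zero]
    apply Fin.ext
    rw [← h3, ← h4, h']⟩

theorem e1_mem_pt {n m : ℕ} (f : Fin n → Fin m) (x : ℕ) :
    x ∈ e1_pt n m f ↔ ∃ l : Fin n, (l : ℕ) * m + f l = x := by
  unfold e1_pt
  simp

theorem e1_pt_mem {n m : ℕ} (f : Fin n → Fin m) : e1_pt n m f ∈ pats n m := by
  rw [e1_mem_pats]
  constructor
  · intro τ hτ
    obtain ⟨l, rfl⟩ := (e1_mem_pt f τ).mp hτ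
    exact e1_level (by have := (f l).2; omega) l.2 (f l).2
  · unfold e1_pt
    rw [Finset.card_map, Finset.card_univ, Fintype.card_fin]

theorem e1_mem_pt' {n m : ℕ} (f : Fin n → Fin m) (l : Fin n) {w : ℕ} (hw : w < m) :
    (l : ℕ) * m + w ∈ e1_pt n m f ↔ w = f l := by
  rw [e1_mem_pt]
  constructor
  · rintro ⟨l', h⟩
    have h1 := (f l').2
    have hm : 0 < m := by omega
    have h3 : ((l' : ℕ) * m + f l') / m = l' := by
      rw [mul_comm, Nat.mul_add_div hm, Nat.div_eq_of_lt h1, add_zero]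
    have h4 : ((l : ℕ) * m + w) / m = l := by
      rw [mul_comm, Nat.mul_add_div hm, Nat.div_eq_of_lt hw, add_zero]
    have h5 : l' = l := by
      apply Fin.ext
      rw [← h3, ← h4, h]
    subst h5
    omega
  · rintro rfl
    exact ⟨l, rfl⟩

theorem e1_pt_inj {n m : ℕ} : Function.Injective (e1_pt n m) := by
  intro f g h
  funext l
  have h1 : (l : ℕ) * m + f l ∈ e1_pt n m g := by
    rw [← h]
    exact (e1_mem_pt' f l (f l).2).mpr rfl
  exact Fin.ext ((e1_mem_pt' g l (f l).2).mp h1)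

theorem e1_posn_pt {n m : ℕ} (hm : 1 ≤ m) (f : Fin n → Fin m) {τ : ℕ} (hτ : τ < n * m) :
    posn m (e1_pt n m f) τ = 0 ∨ posn m (e1_pt n m f) τ = 1 := by
  set l := τ / m with hl
  have hln : l < n := Nat.div_lt_of_lt_mul (by rw [mul_comm]; exact hτ)
  have hdm := Nat.div_add_mod τ m
  have hmod := Nat.mod_lt τ (show 0 < m by omega)
  rw [← hl] at hdm
  obtain ⟨r, hr⟩ : ∃ r, r = τ % m := ⟨_, rfl⟩
  rw [← hr] at hdm hmod
  -- the count
  have hcard : ((e1_pt n m f).filter (fun σ => σ < τ)).card =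
      (Finset.univ.filter (fun k : Fin n => (k : ℕ) * m + f k < τ)).card := by
    unfold e1_pt
    rw [Finset.filter_map, Finset.card_map]
    rfl
  have hlow : l ≤ (Finset.univ.filter (fun k : Fin n => (k : ℕ) * m + f k < τ)).card := by
    have h1 : (Finset.univ.filter (fun k : Fin n => (k : ℕ) < l)).card = l := by
      rw [Fin.card_filter_val_lt]
      exact min_eq_right hln.le
    rw [← h1]
    conv_lhs => rw [h1]
    conv_lhs => rw [← h1]
    apply Finset.card_le_card
    intro k hk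
    rw [Finset.mem_filter] at hk ⊢
    refine ⟨Finset.mem_univ _, ?_⟩
    have h2 := (f k).2
    have h3 : ((k : ℕ) + 1) * m ≤ l * m := Nat.mul_le_mul_right m hk.2
    nlinarith
  have hup : (Finset.univ.filter (fun k : Fin n => (k : ℕ) * m + f k < τ)).card ≤ l + 1 := by
    have h1 : (Finset.univ.filter (fun k : Fin n => (k : ℕ) < l + 1)).card = l + 1 := by
      rw [Fin.card_filter_val_lt]
      exact min_eq_right hln
    rw [← h1]
    apply Finset.card_le_card
    intro k hk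
    rw [Finset.mem_filter] at hk ⊢
    refine ⟨Finset.mem_univ _, ?_⟩
    by_contra hcon
    push Not at hcon
    have h3 : (l + 1) * m ≤ (k : ℕ) * m := Nat.mul_le_mul_right m hcon
    nlinarith [hk.2]
  unfold posn
  rw [hcard, ← hl]
  omega

theorem e1_pwt_pt (κ : ℝ) {n m : ℕ} (hm : 1 ≤ m) (u : ℕ → ℝ) (f : Fin n → Fin m) :
    pwt κ n m u (e1_pt n m f) = ∏ l : Fin n, Real.exp (u (f l)) / m := by
  have hmpos : (0 : ℝ) < m := by exact_mod_cast hm
  unfold pwt
  have h1 : ∑ τ ∈ Finset.range (n * m), (posn m (e1_pt n m f) τ : ℝ) *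
      ((posn m (e1_pt n m f) τ : ℝ) - 1) = 0 := by
    apply Finset.sum_eq_zero
    intro τ hτ
    rcases e1_posn_pt hm f (Finset.mem_range.mp hτ) with h | h <;> rw [h] <;> simp
  rw [h1, mul_zero, sub_zero]
  have h2 : ∑ τ ∈ e1_pt n m f, (u (τ % m) - Real.log m) = ∑ l : Fin n, (u (f l) - Real.log m) := by
    unfold e1_pt
    rw [Finset.sum_map]
    refine Finset.sum_congr rfl (fun l _ => ?_)
    have : ((l : ℕ) * m + f l) % m = f l := by
      rw [mul_comm, Nat.mul_add_mod]; exact Nat.mod_eq_of_lt (f l).2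
    simp only [Function.Embedding.coeFn_mk, this]
  rw [h2, Real.exp_sum]
  refine Finset.prod_congr rfl (fun l _ => ?_)
  rw [Real.exp_sub, Real.exp_log hmpos]

theorem e1_ZZ_ge (κ : ℝ) (n m : ℕ) (hm : 1 ≤ m) (u : ℕ → ℝ) :
    (∑ w ∈ Finset.range m, Real.exp (u w) / m) ^ n ≤ ZZ κ n m u := by
  have h1 : (∑ w ∈ Finset.range m, Real.exp (u w) / m) ^ n =
      ∑ f : Fin n → Fin m, pwt κ n m u (e1_pt n m f) := by
    rw [Finset.sum_range (fun w => Real.exp (u w) / m)]
    have h2 := Finset.prod_univ_sum (fun _ : Fin n => (Finset.univ : Finset (Fin m)))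
      (fun _ w => Real.exp (u w) / m)
    rw [Finset.prod_const, Finset.card_univ, Fintype.card_fin] at h2
    rw [h2]
    rw [Fintype.piFinset_univ]
    refine Finset.sum_congr rfl (fun f _ => ?_)
    rw [e1_pwt_pt κ hm u f]
  rw [h1]
  unfold ZZ
  rw [← Finset.sum_image (f := fun A => pwt κ n m u A) (g := e1_pt n m)
    (fun f _ g _ h => e1_pt_inj h)]
  apply Finset.sum_le_sum_of_subset_of_nonneg
  · intro A hA
    obtain ⟨f, _, rfl⟩ := Finset.mem_image.mp hA
    exact e1_pt_mem f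
  · intro A _ _
    exact (e1_pwt_pos _ _ _ _ _).le

theorem e1_ZZ_zero (κ : ℝ) (hκ : 0 < κ) (n m : ℕ) (hm : 1 ≤ m) :
    ZZ κ n m (fun _ => 0) ≤ Real.exp n := by
  have hmpos : (0 : ℝ) < m := by exact_mod_cast hm
  have h1 : ZZ κ n m (fun _ => 0) ≤ ∑ A ∈ pats n m, ((m : ℝ) ^ n)⁻¹ := by
    unfold ZZ
    apply Finset.sum_le_sum
    intro A hA
    have hA' := (e1_mem_pats.mp hA).2
    unfold pwt
    have h2 : ∑ τ ∈ A, ((fun _ : ℕ => (0 : ℝ)) (τ % m) - Real.log m) = -(n * Real.log m) := by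
      simp [hA']
    rw [h2]
    have h3 : 0 ≤ κ / m * ∑ τ ∈ Finset.range (n * m), (posn m A τ : ℝ) * ((posn m A τ : ℝ) - 1) := by
      have : 0 ≤ ∑ τ ∈ Finset.range (n * m), (posn m A τ : ℝ) * ((posn m A τ : ℝ) - 1) :=
        Finset.sum_nonneg (fun τ _ => e1_int_nonneg _)
      positivity
    calc Real.exp (-(n * Real.log m) - κ / m * ∑ τ ∈ Finset.range (n * m),
          (posn m A τ : ℝ) * ((posn m A τ : ℝ) - 1)) ≤ Real.exp (-(n * Real.log m)) := by
            apply Real.exp_le_exp.mpr; linarith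
      _ = ((m : ℝ) ^ n)⁻¹ := by
          rw [Real.exp_neg, ← Real.log_pow, Real.exp_log (by positivity)]
  refine h1.trans ?_
  rw [Finset.sum_const, nsmul_eq_mul]
  have h4 : ((pats n m).card : ℝ) ≤ ((n : ℝ) * m) ^ n / n.factorial := by
    unfold pats
    rw [Finset.card_powersetCard, Finset.card_range]
    have := Nat.choose_le_pow_div (α := ℝ) n (n * m)
    push_cast at this
    exact this
  calc ((pats n m).card : ℝ) * ((m : ℝ) ^ n)⁻¹ ≤ ((n : ℝ) * m) ^ n / n.factorial * ((m : ℝ) ^ n)⁻¹ := by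
        gcongr
    _ = (n : ℝ) ^ n / n.factorial := by
        rw [mul_pow]
        field_simp
    _ ≤ Real.exp n := Real.pow_div_factorial_le_exp _ (by positivity) n

/-! ### the minimiser -/

/-- extension by zero -/
noncomputable def e1_ext (m : ℕ) (v : Fin m → ℝ) : ℕ → ℝ := fun w => if h : w < m then v ⟨w, h⟩ else 0

theorem e1_ext_fin {m : ℕ} (v : Fin m → ℝ) (w : Fin m) : e1_ext m v w = v w := by
  unfold e1_ext
  rw [dif_pos w.2]

theorem e1_ext_sum {m : ℕ} (v : Fin m → ℝ) : ∑ w ∈ Finset.range m, e1_ext m v w = ∑ w, v w := by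
  rw [Finset.sum_range]
  exact Finset.sum_congr rfl (fun w _ => e1_ext_fin v w)

theorem e1_ext_cont {m : ℕ} (w : ℕ) : Continuous (fun v : Fin m → ℝ => e1_ext m v w) := by
  unfold e1_ext
  split_ifs with h
  · exact continuous_apply _
  · exact continuous_const

theorem e1_ZZ_cont (κ : ℝ) (n m : ℕ) : Continuous (fun v : Fin m → ℝ => ZZ κ n m (e1_ext m v)) := by
  unfold ZZ pwt
  refine continuous_finset_sum _ (fun A _ => ?_)
  refine Real.continuous_exp.comp ?_
  refine Continuous.sub ?_ continuous_const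
  refine continuous_finset_sum _ (fun τ _ => ?_)
  exact (e1_ext_cont _).sub continuous_const

theorem e1_minimizer (κ : ℝ) (hκ : 0 < κ) (n m : ℕ) (hn : 1 ≤ n) (hm : 1 ≤ m) :
    ∃ v : Fin m → ℝ, ∑ w, v w = 0 ∧
      ∀ v' : Fin m → ℝ, ∑ w, v' w = 0 → ZZ κ n m (e1_ext m v) ≤ ZZ κ n m (e1_ext m v') := by
  have hmpos : (0 : ℝ) < m := by exact_mod_cast hm
  have hlog : 0 ≤ Real.log m := Real.log_nonneg (by exact_mod_cast hm)
  set b : ℝ := 1 + Real.log m with hb
  have hbpos : 0 < b := by linarith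
  set K : Set (Fin m → ℝ) := {v | ∑ w, v w = 0 ∧ ∀ w, v w ≤ b} with hK
  have hclosed : IsClosed K := by
    have h1 : IsClosed {v : Fin m → ℝ | ∑ w, v w = 0} :=
      isClosed_eq (continuous_finset_sum _ (fun w _ => continuous_apply w)) continuous_const
    have h2 : IsClosed {v : Fin m → ℝ | ∀ w, v w ≤ b} := by
      have : {v : Fin m → ℝ | ∀ w, v w ≤ b} = ⋂ w, {v | v w ≤ b} := by ext v; simp
      rw [this]
      exact isClosed_iInter (fun w => isClosed_le (continuous_apply w) continuous_const)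
    exact h1.inter h2
  have hsub : K ⊆ Set.Icc (fun _ => -(m * b)) (fun _ => b) := by
    rintro v ⟨h1, h2⟩
    refine ⟨fun w => ?_, fun w => h2 w⟩
    have h3 := Finset.add_sum_erase Finset.univ v (Finset.mem_univ w)
    have h4 : ∑ x ∈ Finset.univ.erase w, v x ≤ ∑ _x ∈ (Finset.univ : Finset (Fin m)).erase w, b :=
      Finset.sum_le_sum (fun x _ => h2 x)
    rw [Finset.sum_const, nsmul_eq_mul] at h4
    have h5 : (((Finset.univ : Finset (Fin m)).erase w).card : ℝ) ≤ m := by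
      have := Finset.card_erase_le (s := (Finset.univ : Finset (Fin m))) (a := w)
      rw [Finset.card_univ, Fintype.card_fin] at this
      exact_mod_cast this
    have h6 : (((Finset.univ : Finset (Fin m)).erase w).card : ℝ) * b ≤ m * b := by gcongr
    show -(m * b) ≤ v w
    linarith
  have hcomp : IsCompact K := isCompact_Icc.of_isClosed_subset hclosed hsub
  have h0 : (fun _ => (0 : ℝ)) ∈ K := ⟨by simp, fun _ => hbpos.le⟩
  obtain ⟨v, hvK, hv⟩ := hcomp.exists_isMinOn ⟨_, h0⟩ (e1_ZZ_cont κ n m).continuousOn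
  refine ⟨v, hvK.1, fun v' hv' => ?_⟩
  by_cases h : v' ∈ K
  · exact hv h
  · have h1 : ∃ w, b < v' w := by
      by_contra hcon
      push Not at hcon
      exact h ⟨hv', hcon⟩
    obtain ⟨w, hw⟩ := h1
    have h2 : ZZ κ n m (e1_ext m v) ≤ ZZ κ n m (e1_ext m (fun _ => 0)) := hv h0
    have h3 : e1_ext m (fun _ => (0 : ℝ)) = fun _ => 0 := by
      funext x
      unfold e1_ext
      split_ifs <;> rfl
    rw [h3] at h2
    have h4 := e1_ZZ_zero κ hκ n m hm
    have h5 := e1_ZZ_ge κ n m hm (e1_ext m v')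
    have h6 : Real.exp 1 ≤ ∑ x ∈ Finset.range m, Real.exp (e1_ext m v' x) / m := by
      have h7 : Real.exp (e1_ext m v' w) / m ≤ ∑ x ∈ Finset.range m, Real.exp (e1_ext m v' x) / m :=
        Finset.single_le_sum (f := fun x => Real.exp (e1_ext m v' x) / m)
          (fun x _ => by positivity) (Finset.mem_range.mpr w.2)
      refine le_trans ?_ h7
      rw [e1_ext_fin, le_div_iff₀ hmpos]
      calc Real.exp 1 * m = Real.exp b := by rw [hb, Real.exp_add, Real.exp_log hmpos]
        _ ≤ _ := Real.exp_le_exp.mpr hw.le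
    have h8 : Real.exp n ≤ (∑ x ∈ Finset.range m, Real.exp (e1_ext m v' x) / m) ^ n := by
      calc Real.exp n = Real.exp 1 ^ n := by rw [← Real.exp_nat_mul, mul_one]
        _ ≤ _ := by gcongr
    linarith

theorem e1_line (κ : ℝ) (n m : ℕ) (u d : ℕ → ℝ) (t : ℝ) (A : Finset ℕ) :
    pwt κ n m (fun w => u w + t * d w) A = pwt κ n m u A * Real.exp (t * ∑ τ ∈ A, d (τ % m)) := by
  unfold pwt
  rw [← Real.exp_add]
  congr 1
  have : ∑ τ ∈ A, (u (τ % m) + t * d (τ % m) - Real.log m) =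
      ∑ τ ∈ A, (u (τ % m) - Real.log m) + t * ∑ τ ∈ A, d (τ % m) := by
    rw [Finset.mul_sum, ← Finset.sum_add_distrib]
    exact Finset.sum_congr rfl (fun τ _ => by ring)
  rw [this]
  ring

theorem e1_deriv (κ : ℝ) (n m : ℕ) (u d : ℕ → ℝ) :
    HasDerivAt (fun t => ZZ κ n m (fun w => u w + t * d w))
      (∑ A ∈ pats n m, pwt κ n m u A * ∑ τ ∈ A, d (τ % m)) 0 := by
  unfold ZZ
  refine HasDerivAt.fun_sum (fun A _ => ?_)
  have h1 : (fun t => pwt κ n m (fun w => u w + t * d w) A) =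
      fun t => pwt κ n m u A * Real.exp (t * ∑ τ ∈ A, d (τ % m)) := by
    funext t
    exact e1_line κ n m u d t A
  rw [h1]
  have h2 : HasDerivAt (fun t : ℝ => t * ∑ τ ∈ A, d (τ % m)) (∑ τ ∈ A, d (τ % m)) 0 := by
    simpa using (hasDerivAt_id (0 : ℝ)).mul_const (∑ τ ∈ A, d (τ % m))
  have h3 := (h2.exp).const_mul (pwt κ n m u A)
  simpa using h3

theorem e1_kw_sum {m : ℕ} (A : Finset ℕ) (w : ℕ) :
    ∑ τ ∈ A, (if τ % m = w then (1 : ℝ) else 0) = kw m A w := by
  unfold kw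
  rw [← Finset.sum_filter, Finset.sum_const, nsmul_eq_mul, mul_one]

theorem exists_min (κ : ℝ) (hκ : 0 < κ) (n m : ℕ) (hn : 1 ≤ n) (hm : 1 ≤ m) :
    ∃ u : ℕ → ℝ, ∑ w ∈ Finset.range m, u w = 0 ∧
      (∀ w < m, ∑ A ∈ pats n m, pwt κ n m u A * kw m A w = (n : ℝ) / m * ZZ κ n m u) ∧
      (∀ w, w + 1 < m → |u (w + 1) - u w| ≤ 2 * κ * n / m) ∧
      (∀ w < m, |u w| ≤ 2 * κ * n) ∧
      1 ≤ ∑ w ∈ Finset.range m, Real.exp (u w) / m ∧
      ∑ w ∈ Finset.range m, Real.exp (u w) / m ≤ Real.exp 1 ∧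
      1 ≤ ZZ κ n m u ∧ ZZ κ n m u ≤ Real.exp n := by
  have hmpos : (0 : ℝ) < m := by exact_mod_cast hm
  have hnpos : (0 : ℝ) < n := by exact_mod_cast hn
  obtain ⟨v, hv0, hv⟩ := e1_minimizer κ hκ n m hn hm
  set u := e1_ext m v with hu
  have hu0 : ∑ w ∈ Finset.range m, u w = 0 := by rw [hu, e1_ext_sum, hv0]
  -- stationarity
  have hgrad : ∀ w < m, ∑ A ∈ pats n m, pwt κ n m u A * kw m A w = (n : ℝ) / m * ZZ κ n m u := by
    intro w hw
    set d : ℕ → ℝ := fun x => (if x = w then (1 : ℝ) else 0) - 1 / m with hd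
    have h1 := e1_deriv κ n m u d
    have h2 : ∀ t : ℝ, ZZ κ n m (fun x => u x + 0 * d x) ≤ ZZ κ n m (fun x => u x + t * d x) := by
      intro t
      have h3 := hv (fun x : Fin m => v x + t * d x) (by
        rw [Finset.sum_add_distrib, hv0, ← Finset.mul_sum]
        have h4 : ∑ x : Fin m, d x = 0 := by
          rw [← Finset.sum_range d]
          simp only [hd]
          rw [Finset.sum_sub_distrib, Finset.sum_ite_eq' (Finset.range m) w,
            if_pos (Finset.mem_range.mpr hw), Finset.sum_const, Finset.card_range, nsmul_eq_mul]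
          field_simp
          simp
        rw [h4]
        ring)
      have h5 : ∀ u' u'' : ℕ → ℝ, (∀ x < m, u' x = u'' x) → ZZ κ n m u' = ZZ κ n m u'' := by
        intro u' u'' h
        unfold ZZ pwt
        refine Finset.sum_congr rfl (fun A _ => ?_)
        have : ∑ τ ∈ A, (u' (τ % m) - Real.log m) = ∑ τ ∈ A, (u'' (τ % m) - Real.log m) :=
          Finset.sum_congr rfl (fun τ _ => by rw [h _ (Nat.mod_lt τ (by omega))])
        rw [this]
      have h6 : ZZ κ n m (e1_ext m (fun x : Fin m => v x + t * d x)) =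
          ZZ κ n m (fun x => u x + t * d x) := by
        apply h5
        intro x hx
        have h7 := e1_ext_fin (fun x : Fin m => v x + t * d x) ⟨x, hx⟩
        have h8 := e1_ext_fin v ⟨x, hx⟩
        simp only at h7 h8
        rw [h7, hu, h8]
      have h7 : ZZ κ n m (fun x => u x + 0 * d x) = ZZ κ n m u := by
        apply h5
        intro x _
        ring
      rw [h7, ← h6]
      exact h3
    have h3 : IsLocalMin (fun t => ZZ κ n m (fun x => u x + t * d x)) 0 :=
      Filter.Eventually.of_forall h2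
    have h4 := h3.hasDerivAt_eq_zero h1
    have h5 : ∀ A ∈ pats n m, ∑ τ ∈ A, d (τ % m) = kw m A w - n / m := by
      intro A hA
      simp only [hd]
      rw [Finset.sum_sub_distrib, e1_kw_sum, Finset.sum_const, (e1_mem_pats.mp hA).2, nsmul_eq_mul]
      ring
    rw [Finset.sum_congr rfl (fun A hA => by rw [h5 A hA])] at h4
    unfold ZZ
    rw [Finset.mul_sum]
    have h6 : ∑ A ∈ pats n m, pwt κ n m u A * ((kw m A w : ℝ) - n / m) =
        ∑ A ∈ pats n m, pwt κ n m u A * kw m A w - ∑ A ∈ pats n m, (n : ℝ) / m * pwt κ n m u A := by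
      rw [← Finset.sum_sub_distrib]
      exact Finset.sum_congr rfl (fun A _ => by ring)
    rw [h6] at h4
    linarith
  -- neighbouring windows
  have hlip : ∀ w, w + 1 < m → |u (w + 1) - u w| ≤ 2 * κ * n / m := by
    intro w hw
    have h1 := e1_diff κ n m hm u hw
    rw [hgrad w (by omega), hgrad (w + 1) hw, sub_self] at h1
    set SX := ∑ l ∈ Finset.range n, ∑ A ∈ e1_X n m (l * m + w), pwt κ n m u A with hSX
    set SY := ∑ l ∈ Finset.range n, ∑ A ∈ e1_Y n m (l * m + w), pwt κ n m u A with hSY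
    have h2 : SX ≤ Real.exp (u w - u (w + 1) + 2 * κ * n / m) * SY := by
      rw [hSX, hSY, Finset.mul_sum]
      exact Finset.sum_le_sum (fun l hl =>
        (e1_X_le κ hκ n m hm u (Finset.mem_range.mp hl) hw).1)
    have h3 : Real.exp (u w - u (w + 1) - 2 * κ * n / m) * SY ≤ SX := by
      rw [hSX, hSY, Finset.mul_sum]
      exact Finset.sum_le_sum (fun l hl =>
        (e1_X_le κ hκ n m hm u (Finset.mem_range.mp hl) hw).2)
    have hSYpos : 0 < SY := by
      rw [hSY]
      have hmem : e1_pt n m (fun _ => ⟨w + 1, hw⟩) ∈ e1_Y n m (0 * m + w) := by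
        unfold e1_Y
        rw [Finset.mem_filter]
        have hA1 := e1_mem_pt' (m := m) (fun _ : Fin n => (⟨w + 1, hw⟩ : Fin m)) ⟨0, hn⟩
          (w := w) (by omega)
        have hA2 := e1_mem_pt' (m := m) (fun _ : Fin n => (⟨w + 1, hw⟩ : Fin m)) ⟨0, hn⟩
          (w := w + 1) hw
        simp only at hA1 hA2
        refine ⟨e1_pt_mem _, ?_, ?_⟩
        · rw [hA1]
          omega
        · rw [add_assoc]
          exact hA2.mpr trivial
      calc 0 < pwt κ n m u (e1_pt n m (fun _ => ⟨w + 1, hw⟩)) := e1_pwt_pos _ _ _ _ _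
        _ ≤ ∑ A ∈ e1_Y n m (0 * m + w), pwt κ n m u A :=
            Finset.single_le_sum (f := fun A => pwt κ n m u A)
              (fun A _ => (e1_pwt_pos _ _ _ _ _).le) hmem
        _ ≤ _ := Finset.single_le_sum
              (f := fun l => ∑ A ∈ e1_Y n m (l * m + w), pwt κ n m u A)
              (fun l _ => Finset.sum_nonneg (fun A _ => (e1_pwt_pos _ _ _ _ _).le))
              (Finset.mem_range.mpr hn)
    have h4 : SX = SY := by linarith
    rw [h4] at h2 h3
    have h5 : 1 ≤ Real.exp (u w - u (w + 1) + 2 * κ * n / m) := by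
      by_contra hcon
      push Not at hcon
      nlinarith
    have h6 : Real.exp (u w - u (w + 1) - 2 * κ * n / m) ≤ 1 := by
      by_contra hcon
      push Not at hcon
      nlinarith
    have h7 := Real.one_le_exp_iff.mp h5
    have h8 := Real.exp_le_one_iff.mp h6
    rw [abs_le]
    constructor <;> linarith
  -- telescoping
  have htel : ∀ k w, w + k < m → |u (w + k) - u w| ≤ 2 * κ * n / m * k := by
    intro k
    induction k with
    | zero => intro w _; simp
    | succ k ih =>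
      intro w hw
      have h1 := ih w (by omega)
      have h2 := hlip (w + k) (by omega)
      rw [abs_le] at h1 h2 ⊢
      push_cast
      rw [← add_assoc]
      constructor <;> nlinarith [h1.1, h1.2, h2.1, h2.2]
  have hdist : ∀ w < m, ∀ w' < m, u w - u w' ≤ 2 * κ * n := by
    have hb : ∀ k : ℕ, k < m → 2 * κ * n / m * k ≤ 2 * κ * n := by
      intro k hk
      have : (k : ℝ) ≤ m := by exact_mod_cast hk.le
      calc 2 * κ * n / m * k ≤ 2 * κ * n / m * m := by gcongr
        _ = 2 * κ * n := by field_simp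
    intro w hw w' hw'
    rcases le_total w w' with h | h
    · have h1 := htel (w' - w) w (by omega)
      have h2 := hb (w' - w) (by omega)
      rw [Nat.add_sub_cancel' h, abs_le] at h1
      linarith [h1.1]
    · have h1 := htel (w - w') w' (by omega)
      have h2 := hb (w - w') (by omega)
      rw [Nat.add_sub_cancel' h, abs_le] at h1
      linarith [h1.2]
  have hne : (Finset.range m).Nonempty := ⟨0, Finset.mem_range.mpr hm⟩
  have habs : ∀ w < m, |u w| ≤ 2 * κ * n := by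
    intro w hw
    obtain ⟨x, hx, hx'⟩ : ∃ x ∈ Finset.range m, u x ≤ 0 := by
      by_contra hcon
      push Not at hcon
      have := Finset.sum_pos hcon hne
      linarith
    obtain ⟨y, hy, hy'⟩ : ∃ y ∈ Finset.range m, 0 ≤ u y := by
      by_contra hcon
      push Not at hcon
      have := Finset.sum_neg hcon hne
      linarith
    have h1 := hdist w hw x (Finset.mem_range.mp hx)
    have h2 := hdist y (Finset.mem_range.mp hy) w hw
    rw [abs_le]
    constructor <;> linarith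
  -- the sums
  have hge := e1_ZZ_ge κ n m hm u
  have hZ0 : ZZ κ n m u ≤ Real.exp n := by
    have h1 := hv (fun _ => 0) (by simp)
    have h3 : e1_ext m (fun _ => (0 : ℝ)) = fun _ => 0 := by
      funext x
      unfold e1_ext
      split_ifs <;> rfl
    rw [h3] at h1
    exact h1.trans (e1_ZZ_zero κ hκ n m hm)
  have hone : 1 ≤ ∑ w ∈ Finset.range m, Real.exp (u w) / m := by
    calc (1 : ℝ) = ∑ w ∈ Finset.range m, (1 + u w) / m := by
          rw [← Finset.sum_div, Finset.sum_add_distrib, hu0]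
          simp
          field_simp
      _ ≤ _ := by
          apply Finset.sum_le_sum
          intro w _
          have := Real.add_one_le_exp (u w)
          gcongr
          linarith
  have hZ1 : 1 ≤ ZZ κ n m u := (one_le_pow₀ hone).trans hge
  have hE : ∑ w ∈ Finset.range m, Real.exp (u w) / m ≤ Real.exp 1 := by
    have h1 : (∑ w ∈ Finset.range m, Real.exp (u w) / m) ^ n ≤ Real.exp 1 ^ n := by
      rw [← Real.exp_nat_mul, mul_one]
      exact hge.trans hZ0
    exact le_of_pow_le_pow_left₀ (by omega) (Real.exp_pos 1).le h1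
  exact ⟨u, hu0, hgrad, hlip, habs, hone, hE, hZ1, hZ0⟩

end Pool.Agent.Lib.MP_8501c9_pr.Wide
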