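import Pool.Agent.Lib.MP_8501c9_pr.Wide.DefsE

/-!
# Lower bounds for certificates: the value is nonnegative, and near one for small penalties
-/

set_option autoImplicit false
open Set

namespace Pool.Agent.Lib.MP_8501c9_pr.Wide

open Pool.Agent.Lib.MP_8501c9_pr Pool.Agent.Lib.MP_8501c9_pr.Mid

lemma e6a_pow (a b : ℝ) (hb : 0 ≤ b) (hab : b ≤ a) (n : ℕ) :
    a ^ (n + 1) ≤ b ^ (n + 1) + (n + 1) * (a - b) * a ^ n := by
  have ha : 0 ≤ a := hb.trans hab
  induction n with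
  | zero => simp
  | succ n ih =>
    have h2 : b ^ (n + 1) ≤ a ^ (n + 1) := pow_le_pow_left₀ hb hab _
    have h3 : (a - b) * b ^ (n + 1) ≤ (a - b) * a ^ (n + 1) :=
      mul_le_mul_of_nonneg_left h2 (by linarith)
    have h4 : a * a ^ (n + 1) ≤ a * (b ^ (n + 1) + (n + 1) * (a - b) * a ^ n) :=
      mul_le_mul_of_nonneg_left ih ha
    have h5 : a * (b ^ (n + 1) + (n + 1) * (a - b) * a ^ n)
        = b ^ (n + 1 + 1) + (a - b) * b ^ (n + 1) + (n + 1) * (a - b) * a ^ (n + 1) := by ring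
    have h6 : a ^ (n + 1 + 1) = a * a ^ (n + 1) := by ring
    push_cast
    rw [h6]
    calc a * a ^ (n + 1) ≤ _ := h4
      _ = b ^ (n + 1 + 1) + (a - b) * b ^ (n + 1) + (n + 1) * (a - b) * a ^ (n + 1) := h5
      _ ≤ b ^ (n + 1 + 1) + (a - b) * a ^ (n + 1) + (n + 1) * (a - b) * a ^ (n + 1) := by
          linarith
      _ = _ := by ring

lemma e6a_G (S x η : ℝ) (b : ℕ) (hx : 0 ≤ x) (hxη : x ≤ η) :
    (max 0 (x + S - (b + 1 : ℕ) * η)) ^ (b + 1) / ((b + 1).factorial : ℝ) ≤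
      (max 0 (S - (b + 1 : ℕ) * η)) ^ (b + 1) / ((b + 1).factorial : ℝ) +
        x * ((max 0 (S - b * η)) ^ b / (b.factorial : ℝ)) := by
  set a := max 0 (x + S - (b + 1 : ℕ) * η) with ha
  set c := max 0 (S - (b + 1 : ℕ) * η) with hc
  set q := max 0 (S - b * η) with hq
  have hc0 : 0 ≤ c := le_max_left _ _
  have hca : c ≤ a := max_le_max le_rfl (by linarith)
  have hac : a - c ≤ x := by
    rcases le_total (x + S - (b + 1 : ℕ) * η) 0 with h | h
    · rw [ha, max_eq_left h]; linarith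
    · rw [ha, max_eq_right h]
      have : S - (b + 1 : ℕ) * η ≤ c := le_max_right _ _
      linarith
  have haq : a ≤ q := by
    apply max_le_max le_rfl
    push_cast
    linarith
  have ha0 : 0 ≤ a := hc0.trans hca
  have h1 := e6a_pow a c hc0 hca b
  have h2 : (b + 1 : ℝ) * (a - c) * a ^ b ≤ (b + 1) * x * q ^ b := by
    apply mul_le_mul
    · exact mul_le_mul_of_nonneg_left hac (by positivity)
    · exact pow_le_pow_left₀ ha0 haq b
    · exact pow_nonneg ha0 b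
    · positivity
  have hf : (((b + 1).factorial : ℕ) : ℝ) = (b + 1) * b.factorial := by
    rw [Nat.factorial_succ]; push_cast; ring
  have hfp : (0 : ℝ) < b.factorial := by exact_mod_cast b.factorial_pos
  have h3 : x * (q ^ b / (b.factorial : ℝ)) = ((b + 1) * x * q ^ b) / ((b + 1).factorial : ℝ) := by
    rw [hf]
    field_simp
  rw [h3, ← add_div]
  apply div_le_div_of_nonneg_right _ (by positivity)
  linarith

lemma e6a_step {κ V R P h₀ : ℝ} {m : ℕ} {f : ℝ → ℤ → ℝ} {y : ℝ → ℝ} {ρ : ℝ}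
    (hc : UCert κ V R P h₀ m f y ρ) (K s h : ℝ) (j : ℤ) (hK : κ * (j * (j - 1)) ≤ K)
    (hs : 0 ≤ s) (hh : 0 < h) (hh₀ : h ≤ h₀) (hsh : s + h ≤ 1) :
    Real.exp (-(h * (ρ + K))) * (f (s + h) j + h * y s * f (s + h) (j + 1)) ≤ f s j := by
  have h1 := hc.step s h j hs hh hh₀ hsh
  have hf1 : 0 < f (s + h) j := lt_of_lt_of_le one_pos (hc.f_ge _ _)
  have hf0 : 0 < f s j := lt_of_lt_of_le one_pos (hc.f_ge _ _)
  have h2 : f (s + h) j + h * y s * f (s + h) (j + 1) ≤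
      f (s + h) j * Real.exp (h * y s * (f (s + h) (j + 1) / f (s + h) j)) := by
    have h3 := Real.add_one_le_exp (h * y s * (f (s + h) (j + 1) / f (s + h) j))
    have h4 := mul_le_mul_of_nonneg_left h3 hf1.le
    have h5 : f (s + h) j * (h * y s * (f (s + h) (j + 1) / f (s + h) j) + 1) =
        f (s + h) j + h * y s * f (s + h) (j + 1) := by
      field_simp
      ring
    linarith
  have h3 : Real.exp (h * (ρ + min (κ * (j * (j - 1))) P)) ≤ Real.exp (h * (ρ + K)) := by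
    apply Real.exp_le_exp.2
    apply mul_le_mul_of_nonneg_left _ hh.le
    have := min_le_left (κ * ((j : ℝ) * (j - 1))) P
    linarith
  have h4 : f (s + h) j + h * y s * f (s + h) (j + 1) ≤ Real.exp (h * (ρ + K)) * f s j :=
    h2.trans (h1.trans (mul_le_mul_of_nonneg_right h3 hf0.le))
  calc Real.exp (-(h * (ρ + K))) * (f (s + h) j + h * y s * f (s + h) (j + 1))
      ≤ Real.exp (-(h * (ρ + K))) * (Real.exp (h * (ρ + K)) * f s j) :=
        mul_le_mul_of_nonneg_left h4 (Real.exp_pos _).le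
    _ = f s j := by rw [← mul_assoc, ← Real.exp_add, neg_add_cancel, Real.exp_zero, one_mul]

lemma e6a_main {κ V R P h₀ : ℝ} {m : ℕ} {f : ℝ → ℤ → ℝ} {y : ℝ → ℝ} {ρ : ℝ}
    (hc : UCert κ V R P h₀ m f y ρ) (M N : ℕ) (hN : 1 ≤ N) (K : ℝ)
    (hK : ∀ j : ℤ, 1 - (M : ℤ) ≤ j → j ≤ M → κ * (j * (j - 1)) ≤ K)
    (hh : 1 / (N : ℝ) ≤ h₀) (i : ℕ) : ∀ t : ℕ, t + i = M * N → ∀ b ≤ M,
      Real.exp (-((i : ℝ) * (1 / (N : ℝ) * (ρ + K)))) *
        ((max 0 (∑ k ∈ Finset.Ico t (M * N), 1 / (N : ℝ) * y (((k % N : ℕ) : ℝ) / N) -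
          b * (1 / (N : ℝ) * R))) ^ b / (b.factorial : ℝ)) * f 0 0 ≤
        f (((t % N : ℕ) : ℝ) / N) ((M : ℤ) - b - ((t / N : ℕ) : ℤ)) := by
  have hN0 : (0 : ℝ) < N := by exact_mod_cast hN
  have hR1 : (1 : ℝ) ≤ R := (hc.f_ge 0 0).trans (hc.f_le 0 0)
  have hf00 : (0 : ℝ) ≤ f 0 0 := zero_le_one.trans (hc.f_ge 0 0)
  have hypos : ∀ s, 0 ≤ y s := fun s => le_trans (by positivity) (hc.y_ge s)
  induction i with
  | zero =>
    intro t ht b hb
    rw [add_zero] at ht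
    subst ht
    rw [Finset.Ico_self, Finset.sum_empty, Nat.mul_mod_left, Nat.mul_div_cancel _ hN]
    simp only [Nat.cast_zero, zero_mul, neg_zero, Real.exp_zero, one_mul, zero_div, zero_sub]
    rcases Nat.eq_zero_or_pos b with rfl | hb0
    · simp
    · have h1 : max 0 (-((b : ℝ) * (1 / (N : ℝ) * R))) = 0 := by
        apply max_eq_left
        have : 0 ≤ (b : ℝ) * (1 / (N : ℝ) * R) := by positivity
        linarith
      rw [h1, zero_pow hb0.ne', zero_div, zero_mul]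
      exact zero_le_one.trans (hc.f_ge _ _)
  | succ i ih =>
    intro t ht b hb
    have htlt : t < M * N := by omega
    have hlam : t / N < M := (Nat.div_lt_iff_lt_mul hN).2 htlt
    have hk : t % N < N := Nat.mod_lt _ hN
    have hdm := Nat.div_add_mod t N
    set lam := t / N with hlamdef
    set k := t % N with hkdef
    have hIH := ih (t + 1) (by omega)
    set h : ℝ := 1 / (N : ℝ) with hhdef
    have hh0 : 0 < h := by positivity
    set s : ℝ := (k : ℝ) / N with hsdef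
    have hs0 : 0 ≤ s := by positivity
    have hsh : s + h = ((k + 1 : ℕ) : ℝ) / N := by
      rw [hsdef, hhdef]; push_cast; ring
    have hsh1 : s + h ≤ 1 := by
      rw [hsh, div_le_one hN0]
      exact_mod_cast hk
    have link : ∀ j : ℤ, f ((((t + 1) % N : ℕ) : ℝ) / N) (j - (((t + 1) / N : ℕ) : ℤ)) ≤
        f (s + h) (j - (lam : ℤ)) := by
      intro j
      rcases Nat.lt_or_ge (k + 1) N with h1 | h1
      · have e1 : (t + 1) % N = k + 1 := by
          have : t + 1 = N * lam + (k + 1) := by omega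
          rw [this, Nat.mul_add_mod, Nat.mod_eq_of_lt h1]
        have e2 : (t + 1) / N = lam := by
          have : t + 1 = N * lam + (k + 1) := by omega
          rw [this, Nat.mul_add_div hN, Nat.div_eq_of_lt h1, add_zero]
        rw [e1, e2, hsh]
      · have h2 : k + 1 = N := by omega
        have e0 : t + 1 = N * (lam + 1) := by
          rw [Nat.mul_add, mul_one]; omega
        have e1 : (t + 1) % N = 0 := by rw [e0, Nat.mul_mod_right]
        have e2 : (t + 1) / N = lam + 1 := by rw [e0, Nat.mul_div_cancel_left _ hN]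
        rw [e1, e2, hsh, h2, div_self hN0.ne', Nat.cast_zero, zero_div]
        have h3 := hc.shift (j - ((lam + 1 : ℕ) : ℤ))
        have h4 : j - ((lam + 1 : ℕ) : ℤ) + 1 = j - (lam : ℤ) := by push_cast; ring
        rwa [h4] at h3
    have hl0 : (0 : ℤ) ≤ (lam : ℤ) := Int.natCast_nonneg _
    have hl1 : (lam : ℤ) + 1 ≤ (M : ℤ) := by exact_mod_cast hlam
    have hb0 : (0 : ℤ) ≤ (b : ℤ) := Int.natCast_nonneg _
    have hb1 : (b : ℤ) ≤ (M : ℤ) := by exact_mod_cast hb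
    have hj1 : 1 - (M : ℤ) ≤ (M : ℤ) - b - (lam : ℤ) := by linarith
    have hj2 : (M : ℤ) - b - (lam : ℤ) ≤ M := by linarith
    have hstep := e6a_step hc K s h ((M : ℤ) - b - (lam : ℤ)) (hK _ hj1 hj2) hs0 hh0 hh hsh1
    refine le_trans ?_ hstep
    have hsum : ∑ k' ∈ Finset.Ico t (M * N), h * y (((k' % N : ℕ) : ℝ) / N) =
        h * y s + ∑ k' ∈ Finset.Ico (t + 1) (M * N), h * y (((k' % N : ℕ) : ℝ) / N) := by
      rw [Finset.sum_eq_sum_Ico_succ_bot htlt]
    rw [hsum]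
    set S := ∑ k' ∈ Finset.Ico (t + 1) (M * N), h * y (((k' % N : ℕ) : ℝ) / N) with hSdef
    have hexp : Real.exp (-(((i + 1 : ℕ) : ℝ) * (h * (ρ + K)))) =
        Real.exp (-(h * (ρ + K))) * Real.exp (-((i : ℝ) * (h * (ρ + K)))) := by
      rw [← Real.exp_add]; congr 1; push_cast; ring
    rw [hexp]
    set E := Real.exp (-((i : ℝ) * (h * (ρ + K)))) with hE
    have hE0 : 0 < E := Real.exp_pos _
    have hIHb := (hIH b hb).trans (link ((M : ℤ) - b))
    have hy0 : 0 ≤ h * y s := mul_nonneg hh0.le (hypos s)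
    rw [mul_assoc, mul_assoc]
    apply mul_le_mul_of_nonneg_left _ (Real.exp_pos _).le
    rcases b with _ | b
    · have h5 : 0 ≤ h * y s * f (s + h) ((M : ℤ) - ((0 : ℕ) : ℤ) - (lam : ℤ) + 1) :=
        mul_nonneg hy0 (zero_le_one.trans (hc.f_ge _ _))
      have h6 : E * ((max 0 (S - ((0 : ℕ) : ℝ) * (h * R))) ^ 0 / (((0 : ℕ).factorial : ℕ) : ℝ)) * f 0 0
          = E * ((max 0 (h * y s + S - ((0 : ℕ) : ℝ) * (h * R))) ^ 0 /
            (((0 : ℕ).factorial : ℕ) : ℝ) * f 0 0) := by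
        rw [pow_zero, pow_zero]; ring
      rw [← h6]
      exact hIHb.trans (le_add_of_nonneg_right h5)
    · have hIHb' := (hIH b (by omega)).trans (link ((M : ℤ) - b))
      have h7 : (M : ℤ) - ((b + 1 : ℕ) : ℤ) - (lam : ℤ) + 1 = (M : ℤ) - (b : ℤ) - (lam : ℤ) := by
        push_cast; ring
      rw [h7]
      have hG := e6a_G S (h * y s) (h * R) b hy0 (mul_le_mul_of_nonneg_left (hc.y_le s) hh0.le)
      have h8 : h * y s * (E * ((max 0 (S - (b : ℝ) * (h * R))) ^ b / ((b.factorial : ℕ) : ℝ)) *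
          f 0 0) ≤ h * y s * f (s + h) ((M : ℤ) - (b : ℤ) - (lam : ℤ)) :=
        mul_le_mul_of_nonneg_left hIHb' hy0
      have h9 := mul_le_mul_of_nonneg_left hG (mul_nonneg hE0.le hf00)
      calc E * ((max 0 (h * y s + S - ((b + 1 : ℕ) : ℝ) * (h * R))) ^ (b + 1) /
            (((b + 1).factorial : ℕ) : ℝ) * f 0 0)
          = E * f 0 0 * ((max 0 (h * y s + S - ((b + 1 : ℕ) : ℝ) * (h * R))) ^ (b + 1) /
            (((b + 1).factorial : ℕ) : ℝ)) := by ring
        _ ≤ _ := h9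
        _ = E * ((max 0 (S - ((b + 1 : ℕ) : ℝ) * (h * R))) ^ (b + 1) /
              (((b + 1).factorial : ℕ) : ℝ)) * f 0 0 +
            h * y s * (E * ((max 0 (S - (b : ℝ) * (h * R))) ^ b / ((b.factorial : ℕ) : ℝ)) *
              f 0 0) := by ring
        _ ≤ _ := add_le_add hIHb h8

lemma e6a_sum_mod (g : ℕ → ℝ) (N M : ℕ) :
    ∑ i ∈ Finset.range (M * N), g (i % N) = M * ∑ k ∈ Finset.range N, g k := by
  induction M with
  | zero => simp
  | succ M ih =>
    rw [Nat.succ_mul, Finset.sum_range_add, ih]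
    have : ∑ x ∈ Finset.range N, g ((M * N + x) % N) = ∑ k ∈ Finset.range N, g k := by
      refine Finset.sum_congr rfl fun x hx => ?_
      rw [Nat.mul_add_mod', Nat.mod_eq_of_lt (Finset.mem_range.1 hx)]
    rw [this]
    push_cast
    ring

lemma e6a_sum_mul (g : ℕ → ℝ) (m r : ℕ) :
    ∑ k ∈ Finset.range (m * r), g k =
      ∑ w ∈ Finset.range m, ∑ i ∈ Finset.range r, g (w * r + i) := by
  induction m with
  | zero => simp
  | succ m ih => rw [Nat.succ_mul, Finset.sum_range_add, ih, Finset.sum_range_succ]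

lemma e6a_sum {κ V R P h₀ : ℝ} {m : ℕ} {f : ℝ → ℤ → ℝ} {y : ℝ → ℝ} {ρ : ℝ}
    (hc : UCert κ V R P h₀ m f y ρ) (M r : ℕ) (hr : 1 ≤ r) :
    ∑ k ∈ Finset.range (M * (m * r)), 1 / ((m * r : ℕ) : ℝ) *
        y (((k % (m * r) : ℕ) : ℝ) / ((m * r : ℕ) : ℝ)) =
      M * ((∑ w ∈ Finset.range m, y ((w : ℝ) / m)) / m) := by
  have hm : 1 ≤ m := hc.m_pos
  have hm0 : (0 : ℝ) < m := by exact_mod_cast hm
  have hr0 : (0 : ℝ) < r := by exact_mod_cast hr
  rw [e6a_sum_mod (fun k => 1 / ((m * r : ℕ) : ℝ) * y ((k : ℝ) / ((m * r : ℕ) : ℝ)))]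
  congr 1
  rw [e6a_sum_mul, Finset.sum_div]
  refine Finset.sum_congr rfl fun w _ => ?_
  have h1 : ∀ i ∈ Finset.range r, 1 / ((m * r : ℕ) : ℝ) *
      y (((w * r + i : ℕ) : ℝ) / ((m * r : ℕ) : ℝ)) = 1 / ((m * r : ℕ) : ℝ) * y ((w : ℝ) / m) := by
    intro i hi
    have hi' : (i : ℝ) < r := by exact_mod_cast Finset.mem_range.1 hi
    congr 1
    apply hc.y_const
    have e1 : (m : ℝ) * ((w : ℝ) / m) = ((w : ℤ) : ℝ) := by
      push_cast
      field_simp
    have e2 : ⌊(m : ℝ) * (((w * r + i : ℕ) : ℝ) / ((m * r : ℕ) : ℝ))⌋ = (w : ℤ) := by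
      rw [Int.floor_eq_iff]
      have e3 : (m : ℝ) * (((w * r + i : ℕ) : ℝ) / ((m * r : ℕ) : ℝ)) = (w : ℝ) + (i : ℝ) / r := by
        push_cast
        field_simp
      rw [e3]
      constructor
      · push_cast
        have : 0 ≤ (i : ℝ) / r := by positivity
        linarith
      · push_cast
        have : (i : ℝ) / r < 1 := (div_lt_one hr0).2 hi'
        linarith
    rw [e1, e2, Int.floor_intCast]
  rw [Finset.sum_congr rfl h1, Finset.sum_const, Finset.card_range, nsmul_eq_mul]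
  push_cast
  field_simp

lemma e6a_key {κ V R P h₀ : ℝ} {m : ℕ} {f : ℝ → ℤ → ℝ} {y : ℝ → ℝ} {ρ : ℝ}
    (hc : UCert κ V R P h₀ m f y ρ) (M r : ℕ) (hr : 1 ≤ r) (K : ℝ)
    (hK : ∀ j : ℤ, 1 - (M : ℤ) ≤ j → j ≤ M → κ * (j * (j - 1)) ≤ K)
    (hh : 1 / ((m * r : ℕ) : ℝ) ≤ h₀) :
    (max 0 (M * ((∑ w ∈ Finset.range m, y ((w : ℝ) / m)) / m) -
      M * (1 / ((m * r : ℕ) : ℝ) * R))) ^ M / (M.factorial : ℝ) ≤ Real.exp (M * (ρ + K)) := by
  have hm : 1 ≤ m := hc.m_pos
  have hN : 1 ≤ m * r := Nat.one_le_iff_ne_zero.2 (by positivity)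
  have hN0 : (0 : ℝ) < ((m * r : ℕ) : ℝ) := by exact_mod_cast hN
  have hf00 : (0 : ℝ) < f 0 0 := lt_of_lt_of_le one_pos (hc.f_ge 0 0)
  have h1 := e6a_main hc M (m * r) hN K hK hh (M * (m * r)) 0 (by omega) M le_rfl
  rw [← Finset.range_eq_Ico, e6a_sum hc M r hr] at h1
  have e1 : (M : ℤ) - M - (((0 : ℕ) / (m * r) : ℕ) : ℤ) = 0 := by simp
  have e2 : (((0 % (m * r) : ℕ) : ℝ) / ((m * r : ℕ) : ℝ)) = 0 := by simp
  rw [e1, e2] at h1
  have e3 : ((M * (m * r) : ℕ) : ℝ) * (1 / ((m * r : ℕ) : ℝ) * (ρ + K)) = M * (ρ + K) := by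
    have : ((M * (m * r) : ℕ) : ℝ) = M * ((m * r : ℕ) : ℝ) := by push_cast; ring
    rw [this]
    field_simp
  rw [e3] at h1
  set G := (max 0 (M * ((∑ w ∈ Finset.range m, y ((w : ℝ) / m)) / m) -
      M * (1 / ((m * r : ℕ) : ℝ) * R))) ^ M / (M.factorial : ℝ) with hG
  have h2 : Real.exp (-(M * (ρ + K))) * G ≤ 1 := by
    have h3 : Real.exp (-(M * (ρ + K))) * G * f 0 0 ≤ 1 * f 0 0 := by rwa [one_mul]
    exact le_of_mul_le_mul_right h3 hf00
  rw [Real.exp_neg] at h2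
  have h4 := mul_le_mul_of_nonneg_left h2 (Real.exp_pos (M * (ρ + K))).le
  rwa [← mul_assoc, mul_inv_cancel₀ (Real.exp_pos _).ne', one_mul, mul_one] at h4

lemma e6a_lim {κ V R P h₀ : ℝ} {m : ℕ} {f : ℝ → ℤ → ℝ} {y : ℝ → ℝ} {ρ : ℝ}
    (hc : UCert κ V R P h₀ m f y ρ) (M : ℕ) (K : ℝ)
    (hK : ∀ j : ℤ, 1 - (M : ℤ) ≤ j → j ≤ M → κ * (j * (j - 1)) ≤ K) :
    (M * ((∑ w ∈ Finset.range m, y ((w : ℝ) / m)) / m)) ^ M / (M.factorial : ℝ) ≤
      Real.exp (M * (ρ + K)) := by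
  have hm : 1 ≤ m := hc.m_pos
  set Y := (∑ w ∈ Finset.range m, y ((w : ℝ) / m)) / m with hY
  have hR1 : (1 : ℝ) ≤ R := (hc.f_ge 0 0).trans (hc.f_le 0 0)
  have hY0 : 0 ≤ Y := by
    apply div_nonneg _ (Nat.cast_nonneg _)
    exact Finset.sum_nonneg fun w _ => le_trans (by positivity) (hc.y_ge _)
  have ht : Filter.Tendsto (fun r : ℕ => 1 / ((m * r : ℕ) : ℝ)) Filter.atTop (nhds 0) := by
    have h1 : Filter.Tendsto (fun r : ℕ => m * r) Filter.atTop Filter.atTop :=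
      Filter.tendsto_atTop_mono (fun r => Nat.le_mul_of_pos_left r hm) Filter.tendsto_id
    exact tendsto_one_div_atTop_nhds_zero_nat.comp h1
  have h2 : Filter.Tendsto (fun r : ℕ => (max 0 (M * Y - M * (1 / ((m * r : ℕ) : ℝ) * R))) ^ M /
      (M.factorial : ℝ)) Filter.atTop (nhds ((max 0 (M * Y - M * (0 * R))) ^ M /
      (M.factorial : ℝ))) := by
    apply Filter.Tendsto.div_const
    apply Filter.Tendsto.pow
    apply Filter.Tendsto.max tendsto_const_nhds
    exact tendsto_const_nhds.sub (tendsto_const_nhds.mul (ht.mul tendsto_const_nhds))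
  have h3 : max 0 ((M : ℝ) * Y - M * (0 * R)) = M * Y := by
    rw [zero_mul, mul_zero, sub_zero]
    exact max_eq_right (by positivity)
  rw [h3] at h2
  refine le_of_tendsto h2 ?_
  filter_upwards [ht.eventually_lt_const hc.h_pos, Filter.eventually_ge_atTop 1] with r h4 h5
  exact e6a_key hc M r h5 K hK h4.le

lemma e6a_jensen {m : ℕ} (hm : 1 ≤ m) (z : ℕ → ℝ) (hz : ∀ w, 0 < z w) :
    (∑ w ∈ Finset.range m, Real.log (z w)) / m ≤ Real.log ((∑ w ∈ Finset.range m, z w) / m) := by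
  have hm0 : (0 : ℝ) < m := by exact_mod_cast hm
  set Y := (∑ w ∈ Finset.range m, z w) / m with hY
  have hS : 0 < ∑ w ∈ Finset.range m, z w :=
    Finset.sum_pos (fun w _ => hz w) (Finset.nonempty_range_iff.2 (by omega))
  have hY0 : 0 < Y := div_pos hS hm0
  rw [div_le_iff₀ hm0]
  have h1 : ∀ w ∈ Finset.range m, Real.log (z w) ≤ z w / Y - 1 + Real.log Y := by
    intro w _
    have h2 := Real.log_le_sub_one_of_pos (div_pos (hz w) hY0)
    rw [Real.log_div (hz w).ne' hY0.ne'] at h2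
    linarith
  calc ∑ w ∈ Finset.range m, Real.log (z w)
      ≤ ∑ w ∈ Finset.range m, (z w / Y - 1 + Real.log Y) := Finset.sum_le_sum h1
    _ = (∑ w ∈ Finset.range m, z w) / Y - m + m * Real.log Y := by
        rw [Finset.sum_add_distrib, Finset.sum_sub_distrib, Finset.sum_const, Finset.sum_const,
          Finset.card_range, ← Finset.sum_div]
        simp
    _ = Real.log Y * m := by
        have : (∑ w ∈ Finset.range m, z w) / Y = m := by
          rw [hY]
          field_simp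
        rw [this]
        ring

theorem uach_nonneg {κ V : ℝ} (h : UAch κ V) : 0 ≤ V := by
  apply le_of_forall_pos_le_add
  intro ε hε
  obtain ⟨R, P, h₀, m, f, y, ρ, hc⟩ := h ε hε
  have hK : ∀ j : ℤ, 1 - ((1 : ℕ) : ℤ) ≤ j → j ≤ ((1 : ℕ) : ℤ) →
      κ * ((j : ℝ) * (j - 1)) ≤ (0 : ℝ) := by
    intro j h1 h2
    have h3 : j = 0 ∨ j = 1 := by
      push_cast at h1 h2
      omega
    rcases h3 with rfl | rfl <;> simp
  have hR1 : (1 : ℝ) ≤ R := (hc.f_ge 0 0).trans (hc.f_le 0 0)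
  have hypos : ∀ s, 0 < y s := fun s => lt_of_lt_of_le (by positivity) (hc.y_ge s)
  have h1 := e6a_lim hc 1 0 hK
  simp only [Nat.cast_one, one_mul, pow_one, Nat.factorial_one, div_one, add_zero] at h1
  have hm0 : (0 : ℝ) < m := by exact_mod_cast hc.m_pos
  have hY0 : 0 < (∑ w ∈ Finset.range m, y ((w : ℝ) / m)) / m :=
    div_pos (Finset.sum_pos (fun w _ => hypos _)
      (Finset.nonempty_range_iff.2 (by have := hc.m_pos; omega))) hm0
  have h2 := Real.log_le_log hY0 h1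
  rw [Real.log_exp] at h2
  have h3 := e6a_jensen hc.m_pos (fun w => y ((w : ℝ) / m)) (fun w => hypos _)
  have h4 := hc.value
  linarith

lemma e6a_fact (n : ℕ) (hn : 1 ≤ n) :
    Real.log (n.factorial : ℝ) ≤ 1 + Real.log n + n * Real.log n - n := by
  induction n, hn using Nat.le_induction with
  | base => simp
  | succ n hn ih =>
    have hn0 : (0 : ℝ) < n := by exact_mod_cast hn
    have hn1 : (0 : ℝ) < (n : ℝ) + 1 := by positivity
    rw [Nat.factorial_succ]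
    push_cast
    rw [Real.log_mul hn1.ne' (by positivity)]
    have h1 : Real.log ((n : ℝ) / (n + 1)) ≤ (n : ℝ) / (n + 1) - 1 :=
      Real.log_le_sub_one_of_pos (div_pos hn0 hn1)
    rw [Real.log_div hn0.ne' hn1.ne'] at h1
    have h2 : ((n : ℝ) + 1) * (Real.log n - Real.log (n + 1)) ≤ -1 := by
      have h3 := mul_le_mul_of_nonneg_left h1 hn1.le
      have h4 : ((n : ℝ) + 1) * ((n : ℝ) / (n + 1) - 1) = -1 := by
        field_simp
        ring
      linarith
    nlinarith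

lemma e6a_exists (ε : ℝ) (hε : 0 < ε) : ∃ M : ℕ, 1 ≤ M ∧
    (M : ℝ) * (1 - ε) ≤ M * Real.log M - Real.log (M.factorial : ℝ) := by
  have h1 : Real.log =o[Filter.atTop] (id : ℝ → ℝ) := Real.isLittleO_log_id_atTop
  have h2 := (h1.def (half_pos hε))
  have h3 := (tendsto_natCast_atTop_atTop (R := ℝ)).eventually h2
  have h4 : ∀ᶠ M : ℕ in Filter.atTop, 2 / ε ≤ (M : ℝ) :=
    tendsto_natCast_atTop_atTop.eventually (Filter.eventually_ge_atTop (2 / ε))
  obtain ⟨M, h5, h6, h7⟩ := (h3.and (h4.and (Filter.eventually_ge_atTop 1))).exists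
  refine ⟨M, h7, ?_⟩
  have hM0 : (0 : ℝ) < M := by exact_mod_cast h7
  have h8 := e6a_fact M h7
  have h9 : Real.log M ≤ ε / 2 * M := by
    have h10 := le_trans (le_abs_self (Real.log M)) h5
    simpa [abs_of_pos hM0] using h10
  have h10 : 1 ≤ ε / 2 * M := by
    have := mul_le_mul_of_nonneg_left h6 (half_pos hε).le
    have h11 : ε / 2 * (2 / ε) = 1 := by field_simp
    linarith
  nlinarith

theorem uach_near_one (ε : ℝ) (hε : 0 < ε) : ∃ κ₀ : ℝ, 0 < κ₀ ∧ ∀ κ V : ℝ, 0 ≤ κ → κ ≤ κ₀ →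
    UAch κ V → 1 - ε ≤ V := by
  obtain ⟨M, hM, hfac⟩ := e6a_exists (ε / 2) (half_pos hε)
  have hM0 : (0 : ℝ) < M := by exact_mod_cast hM
  refine ⟨ε / (2 * M * (M + 1)), by positivity, ?_⟩
  intro κ V hκ0 hκ hV
  apply le_of_forall_pos_le_add
  intro ε' hε'
  obtain ⟨R, P, h₀, m, f, y, ρ, hc⟩ := hV ε' hε'
  have hK : ∀ j : ℤ, 1 - (M : ℤ) ≤ j → j ≤ M → κ * ((j : ℝ) * (j - 1)) ≤ ε / 2 := by
    intro j h1 h2
    have h3 : ((j : ℝ) * (j - 1)) ≤ M * (M + 1) := by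
      have h4 : (1 : ℝ) - M ≤ j := by exact_mod_cast h1
      have h5 : (j : ℝ) ≤ M := by exact_mod_cast h2
      nlinarith
    calc κ * ((j : ℝ) * (j - 1)) ≤ κ * (M * (M + 1)) := mul_le_mul_of_nonneg_left h3 hκ0
      _ ≤ ε / (2 * M * (M + 1)) * (M * (M + 1)) := mul_le_mul_of_nonneg_right hκ (by positivity)
      _ = ε / 2 := by field_simp
  have hR1 : (1 : ℝ) ≤ R := (hc.f_ge 0 0).trans (hc.f_le 0 0)
  have hypos : ∀ s, 0 < y s := fun s => lt_of_lt_of_le (by positivity) (hc.y_ge s)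
  have h1 := e6a_lim hc M (ε / 2) hK
  have hm0 : (0 : ℝ) < m := by exact_mod_cast hc.m_pos
  set Y := (∑ w ∈ Finset.range m, y ((w : ℝ) / m)) / m with hY
  have hY0 : 0 < Y :=
    div_pos (Finset.sum_pos (fun w _ => hypos _)
      (Finset.nonempty_range_iff.2 (by have := hc.m_pos; omega))) hm0
  have hfp : (0 : ℝ) < (M.factorial : ℝ) := by exact_mod_cast M.factorial_pos
  have h2 := Real.log_le_log (by positivity) h1
  rw [Real.log_exp, Real.log_div (by positivity) hfp.ne', Real.log_pow,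
    Real.log_mul hM0.ne' hY0.ne'] at h2
  have h3 := e6a_jensen hc.m_pos (fun w => y ((w : ℝ) / m)) (fun w => hypos _)
  have h4 := hc.value
  have h5 : (M : ℝ) * (Real.log Y + (1 - ε / 2)) ≤ M * (ρ + ε / 2) := by
    have h6 : (M : ℝ) * (Real.log M + Real.log Y) - Real.log (M.factorial : ℝ) =
      M * Real.log Y + (M * Real.log M - Real.log (M.factorial : ℝ)) := by ring
    rw [h6] at h2
    linarith
  have h6 := le_of_mul_le_mul_left h5 hM0
  linarith

end Pool.Agent.Lib.MP_8501c9_pr.Wide
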