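import Pool.Agent.Lib.MP_8501c9_pr.Wide.DefsE

/-!
# E5: a supersolution from a bound of the iterated kernel
-/

set_option autoImplicit false
open Set

namespace Pool.Agent.Lib.MP_8501c9_pr.Wide

open Pool.Agent.Lib.MP_8501c9_pr Pool.Agent.Lib.MP_8501c9_pr.Mid

/-- piecewise linear interpolation -/
noncomputable def e5lin (b : ℕ → ℝ) (x : ℝ) : ℝ :=
  b ⌊x⌋₊ + (x - ⌊x⌋₊) * (b (⌊x⌋₊ + 1) - b ⌊x⌋₊)

theorem e5lin_eq (b : ℕ → ℝ) (k : ℕ) {x : ℝ} (h0 : (k : ℝ) ≤ x) (h1 : x ≤ k + 1) :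
    e5lin b x = b k + (x - k) * (b (k + 1) - b k) := by
  rcases eq_or_lt_of_le h1 with h | h
  · have h2 : ⌊x⌋₊ = k + 1 := by
      rw [h]
      exact_mod_cast Nat.floor_natCast (R := ℝ) (k + 1)
    unfold e5lin
    rw [h2, h]
    push_cast
    ring
  · have h2 : ⌊x⌋₊ = k := by
      rw [Nat.floor_eq_iff (le_trans (Nat.cast_nonneg k) h0)]
      exact ⟨h0, h⟩
    unfold e5lin
    rw [h2]

theorem e5lin_nat (b : ℕ → ℝ) (k : ℕ) : e5lin b k = b k := by
  rw [e5lin_eq b k le_rfl (by linarith)]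
  ring

theorem e5lin_bd (b : ℕ → ℝ) {c C : ℝ} (hc : ∀ k, c ≤ b k) (hC : ∀ k, b k ≤ C) {x : ℝ}
    (hx : 0 ≤ x) : c ≤ e5lin b x ∧ e5lin b x ≤ C := by
  unfold e5lin
  have h0 : 0 ≤ x - ⌊x⌋₊ := sub_nonneg.2 (Nat.floor_le hx)
  have h1 : x - ⌊x⌋₊ ≤ 1 := by linarith [Nat.lt_floor_add_one x]
  have e1 := hc ⌊x⌋₊
  have e2 := hC ⌊x⌋₊
  have e3 := hc (⌊x⌋₊ + 1)
  have e4 := hC (⌊x⌋₊ + 1)
  set t := x - ⌊x⌋₊
  constructor
  · nlinarith
  · nlinarith

theorem e5seq (b : ℕ → ℝ) {g : ℝ} (hg : ∀ k, b (k + 1) - b k ≤ g) (k k' : ℕ) (h : k ≤ k') :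
    b k' - b k ≤ ((k' : ℝ) - k) * g := by
  induction k', h using Nat.le_induction with
  | base => simp
  | succ n _ ih =>
    have := hg n
    push_cast
    linarith

/-- upper Lipschitz bound -/
theorem e5lin_lip (b : ℕ → ℝ) {g : ℝ} (hg : ∀ k, b (k + 1) - b k ≤ g) {x x' : ℝ}
    (hx : 0 ≤ x) (hxx : x ≤ x') : e5lin b x' - e5lin b x ≤ (x' - x) * g := by
  have hx' : 0 ≤ x' := hx.trans hxx
  have a0 := Nat.floor_le hx
  have a1 := Nat.lt_floor_add_one x
  have c0 := Nat.floor_le hx'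
  have c1 := Nat.lt_floor_add_one x'
  rcases (Nat.floor_le_floor hxx).eq_or_lt with h | h
  · rw [e5lin_eq b ⌊x⌋₊ a0 a1.le, e5lin_eq b ⌊x⌋₊ (by rw [h]; exact c0) (by rw [h]; exact c1.le)]
    have := mul_le_mul_of_nonneg_left (hg ⌊x⌋₊) (sub_nonneg.2 hxx)
    linarith
  · rw [e5lin_eq b ⌊x⌋₊ a0 a1.le, e5lin_eq b ⌊x'⌋₊ c0 c1.le]
    have e1 := mul_le_mul_of_nonneg_left (hg ⌊x'⌋₊) (sub_nonneg.2 c0)
    have e2 := e5seq b hg (⌊x⌋₊ + 1) ⌊x'⌋₊ h
    have e3 := mul_le_mul_of_nonneg_left (hg ⌊x⌋₊) (sub_nonneg.2 a1.le)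
    push_cast at e2
    nlinarith

/-- two consecutive pieces -/
theorem e5lin_two (b : ℕ → ℝ) {g : ℝ} (k : ℕ) {x x' : ℝ} (h0 : (k : ℝ) ≤ x)
    (h1 : x ≤ k + 1) (hxx : x ≤ x') (hx' : x' ≤ k + 2) (hg0 : b (k + 1) - b k ≤ g)
    (hg1 : (k : ℝ) + 1 < x' → b (k + 2) - b (k + 1) ≤ g) :
    e5lin b x' - e5lin b x ≤ (x' - x) * g := by
  rw [e5lin_eq b k h0 h1]
  rcases le_or_gt x' (k + 1) with h | h
  · rw [e5lin_eq b k (h0.trans hxx) h]
    have := mul_le_mul_of_nonneg_left hg0 (sub_nonneg.2 hxx)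
    linarith
  · have hk : ((k + 1 : ℕ) : ℝ) = k + 1 := by push_cast; ring
    rw [e5lin_eq b (k + 1) (by rw [hk]; exact h.le) (by rw [hk]; linarith), hk]
    have e1 := mul_le_mul_of_nonneg_left (hg1 h) (sub_nonneg.2 h.le)
    have e2 := mul_le_mul_of_nonneg_left hg0 (sub_nonneg.2 h1)
    have e3 : b (k + 1 + 1) = b (k + 2) := rfl
    rw [e3]
    nlinarith

/-! ### the kernel -/

theorem e5Kw_lin (P : ℤ → ℝ) (m : ℕ) (c : ℕ → ℝ) (r : ℕ) (a : ℝ) (f g : ℤ → ℝ) (j : ℤ) :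
    Kw P m c r (fun i => f i + a * g i) j = Kw P m c r f j + a * Kw P m c r g j := by
  induction r generalizing j with
  | zero => rfl
  | succ r ih =>
    simp only [Kw, Tw]
    rw [ih, ih]
    ring

theorem e5Kw_nonneg (P : ℤ → ℝ) (m : ℕ) (c : ℕ → ℝ) (hc : ∀ w < m, 0 ≤ c w) (f : ℤ → ℝ)
    (hf : ∀ i, 0 ≤ f i) (r : ℕ) (hr : r ≤ m) (j : ℤ) : 0 ≤ Kw P m c r f j := by
  induction r generalizing j with
  | zero => exact hf _
  | succ r ih =>
    simp only [Kw, Tw]
    have h1 := ih (by omega) j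
    have h2 := ih (by omega) (j + 1)
    have h3 := hc (m - (r + 1)) (by omega)
    positivity

theorem e5Kw_le (P : ℤ → ℝ) (hP : ∀ j, 0 ≤ P j) (m : ℕ) (c : ℕ → ℝ) (R : ℝ)
    (hc : ∀ w < m, 0 ≤ c w) (hcR : ∀ w < m, c w ≤ R / m) (f : ℤ → ℝ)
    (hf : ∀ i, 0 ≤ f i) (G : ℝ) (hG : ∀ i, f i ≤ G) (r : ℕ) (hr : r ≤ m) (j : ℤ) :
    Kw P m c r f j ≤ Real.exp (R * r / m) * G := by
  induction r generalizing j with
  | zero => simpa [Kw] using hG _
  | succ r ih =>
    simp only [Kw, Tw]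
    have h1 := ih (by omega) j
    have h2 := ih (by omega) (j + 1)
    have h3 := hc (m - (r + 1)) (by omega)
    have h3' := hcR (m - (r + 1)) (by omega)
    have h4 := e5Kw_nonneg P m c hc f hf r (by omega) j
    have h5 := e5Kw_nonneg P m c hc f hf r (by omega) (j + 1)
    set A := Kw P m c r f j
    set B := Kw P m c r f (j + 1)
    set cc := c (m - (r + 1))
    have hE : Real.exp (-(P j / m)) ≤ 1 := by
      rw [Real.exp_le_one_iff]
      have : 0 ≤ P j / m := div_nonneg (hP j) (Nat.cast_nonneg m)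
      linarith
    have hX : 0 ≤ Real.exp (R * r / m) * G := h4.trans h1
    calc Real.exp (-(P j / m)) * (A + cc * B) ≤ 1 * (A + cc * B) :=
          mul_le_mul_of_nonneg_right hE (by positivity)
      _ = A + cc * B := one_mul _
      _ ≤ Real.exp (R * r / m) * G + (R / m) * (Real.exp (R * r / m) * G) :=
          add_le_add h1 (mul_le_mul h3' h2 h5 (h3.trans h3'))
      _ = (R / m + 1) * (Real.exp (R * r / m) * G) := by ring
      _ ≤ Real.exp (R / m) * (Real.exp (R * r / m) * G) :=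
          mul_le_mul_of_nonneg_right (Real.add_one_le_exp _) hX
      _ = Real.exp (R * ((r + 1 : ℕ) : ℝ) / m) * G := by
          rw [← mul_assoc, ← Real.exp_add]
          congr 2
          push_cast
          ring


/-- partial resolvent -/
noncomputable def e5S (P : ℤ → ℝ) (m : ℕ) (c : ℕ → ℝ) (ρ : ℝ) (n : ℕ) (i : ℤ) : ℝ :=
  ∑ r ∈ Finset.range n, Real.exp (-(ρ * r)) * ((Kop P m c)^[r] (fun _ => 1)) i

theorem e5Kop_S (P : ℤ → ℝ) (m : ℕ) (c : ℕ → ℝ) (ρ : ℝ) (n : ℕ) (i : ℤ) :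
    Kop P m c (e5S P m c ρ n) i =
      ∑ r ∈ Finset.range n, Real.exp (-(ρ * r)) * ((Kop P m c)^[r + 1] (fun _ => 1)) i := by
  induction n with
  | zero =>
    have h0 : (e5S P m c ρ 0) = fun _ => 0 := by
      funext i
      simp [e5S]
    have h1 := e5Kw_lin P m c m (-1) (fun _ => 0) (fun _ => 0) i
    rw [h0]
    simp only [Kop, Finset.range_zero, Finset.sum_empty]
    simp only [mul_zero, add_zero] at h1
    linarith
  | succ n ih =>
    have h0 : (e5S P m c ρ (n + 1)) = fun i => e5S P m c ρ n i +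
        Real.exp (-(ρ * n)) * ((Kop P m c)^[n] (fun _ => 1)) i := by
      funext i
      simp only [e5S, Finset.sum_range_succ]
    rw [h0, Finset.sum_range_succ, ← ih]
    simp only [Kop]
    rw [e5Kw_lin, Function.iterate_succ_apply']
    rfl

theorem e5iter (P : ℤ → ℝ) (hP : ∀ j, 0 ≤ P j) (m : ℕ) (hm : 1 ≤ m) (c : ℕ → ℝ) (R : ℝ)
    (hc : ∀ w < m, 0 ≤ c w) (hcR : ∀ w < m, c w ≤ R / m) (r : ℕ) (i : ℤ) :
    0 ≤ ((Kop P m c)^[r] (fun _ => 1)) i ∧
      ((Kop P m c)^[r] (fun _ => 1)) i ≤ Real.exp (R * r) := by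
  induction r generalizing i with
  | zero => simp
  | succ r ih =>
    rw [Function.iterate_succ_apply']
    have hm0 : (m : ℝ) ≠ 0 := by
      have : (0 : ℝ) < m := by exact_mod_cast hm
      exact this.ne'
    constructor
    · exact e5Kw_nonneg P m c hc _ (fun i => (ih i).1) m le_rfl i
    · have h := e5Kw_le P hP m c R hc hcR _ (fun i => (ih i).1) _ (fun i => (ih i).2) m le_rfl i
      refine h.trans (le_of_eq ?_)
      rw [← Real.exp_add]
      congr 1
      push_cast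
      field_simp
      ring

/-- values at the ends of the windows -/
noncomputable def e5b (P : ℤ → ℝ) (m : ℕ) (c : ℕ → ℝ) (ρ : ℝ) (f : ℤ → ℝ) (j : ℤ) (w : ℕ) : ℝ :=
  Real.exp (-(ρ * ((m - w : ℕ) : ℝ) / m)) * Kw P m c (m - w) f j

theorem e5b_step (P : ℤ → ℝ) (m : ℕ) (c : ℕ → ℝ) (ρ : ℝ) (f : ℤ → ℝ) (j : ℤ) (w : ℕ)
    (hw : w < m) : e5b P m c ρ f j w = Real.exp (-((ρ + P j) / m)) *
      (e5b P m c ρ f j (w + 1) + c w * e5b P m c ρ f (j + 1) (w + 1)) := by
  obtain ⟨r, hr⟩ : ∃ r, m = w + 1 + r := ⟨m - (w + 1), by omega⟩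
  have h1 : m - w = r + 1 := by omega
  have h2 : m - (w + 1) = r := by omega
  have h3 : m - (r + 1) = w := by omega
  unfold e5b
  rw [h1, h2]
  simp only [Kw, Tw]
  rw [h3]
  have h4 : Real.exp (-(ρ * ((r + 1 : ℕ) : ℝ) / m)) =
      Real.exp (-(ρ * (r : ℝ) / m)) * Real.exp (-(ρ / m)) := by
    rw [← Real.exp_add]
    congr 1
    push_cast
    ring
  have h5 : Real.exp (-((ρ + P j) / m)) = Real.exp (-(ρ / m)) * Real.exp (-(P j / m)) := by
    rw [← Real.exp_add]
    congr 1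
    ring
  rw [h4, h5]
  ring

theorem e5b_top (P : ℤ → ℝ) (m : ℕ) (c : ℕ → ℝ) (ρ : ℝ) (f : ℤ → ℝ) (j : ℤ) (w : ℕ)
    (hw : m ≤ w) : e5b P m c ρ f j w = f (j - 1) := by
  have h1 : m - w = 0 := by omega
  unfold e5b
  rw [h1]
  simp [Kw]

theorem e5b_bd (P : ℤ → ℝ) (Pc : ℝ) (hP : ∀ j, 0 ≤ P j) (hPc : ∀ j, P j ≤ Pc) (m : ℕ)
    (hm : 1 ≤ m) (c : ℕ → ℝ) (R ρ : ℝ) (hρ : 0 ≤ ρ) (hR : 0 ≤ R)
    (hc : ∀ w < m, 0 ≤ c w) (hcR : ∀ w < m, c w ≤ R / m) (f : ℤ → ℝ)
    (hf : ∀ i, 1 ≤ f i) (G : ℝ) (hG : ∀ i, f i ≤ G) (j : ℤ) (w : ℕ) :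
    Real.exp (-(ρ + Pc)) ≤ e5b P m c ρ f j w ∧ e5b P m c ρ f j w ≤ Real.exp R * G := by
  have hm0 : (0 : ℝ) < m := by exact_mod_cast hm
  have hG1 : 1 ≤ G := (hf 0).trans (hG 0)
  have hPc0 : 0 ≤ Pc := (hP 0).trans (hPc 0)
  have hf0 : ∀ i, 0 ≤ f i := fun i => zero_le_one.trans (hf i)
  constructor
  · -- induction on the number of windows
    have key : ∀ r : ℕ, r ≤ m → Real.exp (-(Pc * r / m)) ≤ Kw P m c r f j := by
      intro r
      induction r with
      | zero =>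
        intro _
        simpa [Kw] using hf _
      | succ r ih =>
        intro hr
        have h1 := ih (by omega)
        have h2 := e5Kw_nonneg P m c hc f hf0 r (by omega) (j + 1)
        have h3 := hc (m - (r + 1)) (by omega)
        simp only [Kw, Tw]
        have h4 : Real.exp (-(Pc * ((r + 1 : ℕ) : ℝ) / m)) =
            Real.exp (-(Pc / m)) * Real.exp (-(Pc * r / m)) := by
          rw [← Real.exp_add]
          congr 1
          push_cast
          ring
        rw [h4]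
        apply mul_le_mul
        · apply Real.exp_le_exp.2
          have := div_le_div_of_nonneg_right (hPc j) hm0.le
          linarith
        · have : 0 ≤ c (m - (r + 1)) * Kw P m c r f (j + 1) := mul_nonneg h3 h2
          linarith
        · positivity
        · positivity
    have h1 := key (m - w) (by omega)
    have hq : ((m - w : ℕ) : ℝ) / m ≤ 1 := by
      rw [div_le_one hm0]
      exact_mod_cast Nat.sub_le m w
    have hq0 : 0 ≤ ((m - w : ℕ) : ℝ) / m := by positivity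
    unfold e5b
    calc Real.exp (-(ρ + Pc)) = Real.exp (-ρ) * Real.exp (-Pc) := by
          rw [← Real.exp_add]
          congr 1
          ring
      _ ≤ Real.exp (-(ρ * ((m - w : ℕ) : ℝ) / m)) * Real.exp (-(Pc * ((m - w : ℕ) : ℝ) / m)) := by
          apply mul_le_mul
          · apply Real.exp_le_exp.2
            rw [mul_div_assoc]
            nlinarith
          · apply Real.exp_le_exp.2
            rw [mul_div_assoc]
            nlinarith
          · positivity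
          · positivity
      _ ≤ _ := mul_le_mul_of_nonneg_left h1 (Real.exp_pos _).le
  · have h1 := e5Kw_le P hP m c R hc hcR f hf0 G hG (m - w) (by omega) j
    have hq : ((m - w : ℕ) : ℝ) / m ≤ 1 := by
      rw [div_le_one hm0]
      exact_mod_cast Nat.sub_le m w
    have hq0 : 0 ≤ ((m - w : ℕ) : ℝ) / m := by positivity
    unfold e5b
    calc Real.exp (-(ρ * ((m - w : ℕ) : ℝ) / m)) * Kw P m c (m - w) f j
        ≤ 1 * (Real.exp (R * ((m - w : ℕ) : ℝ) / m) * G) := by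
          apply mul_le_mul _ h1 (e5Kw_nonneg P m c hc f hf0 _ (by omega) j) zero_le_one
          rw [Real.exp_le_one_iff, mul_div_assoc]
          nlinarith
      _ = Real.exp (R * ((m - w : ℕ) : ℝ) / m) * G := one_mul _
      _ ≤ Real.exp R * G := by
          apply mul_le_mul_of_nonneg_right _ (by linarith)
          apply Real.exp_le_exp.2
          rw [mul_div_assoc]
          nlinarith


/-- the data of the certificate -/
structure E5H (P : ℤ → ℝ) (m : ℕ) (y : ℕ → ℝ) (ρ Pc R cF CF : ℝ) (b : ℤ → ℕ → ℝ) : Prop where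
  hm : 1 ≤ m
  hP : ∀ j, 0 ≤ P j
  hPc : ∀ j, P j ≤ Pc
  hR : 1 ≤ R
  hρ : 0 ≤ ρ
  cF_pos : 0 < cF
  y0 : ∀ w < m, 0 ≤ y w
  yR : ∀ w < m, y w ≤ R
  yy : ∀ w, w + 1 < m → |y (w + 1) - y w| ≤ R / m
  bge : ∀ j w, cF ≤ b j w
  ble : ∀ j w, b j w ≤ CF
  stp : ∀ j w, w < m → b j w = Real.exp (-((ρ + P j) / m)) *
    (b j (w + 1) + y w / m * b (j + 1) (w + 1))
  top : ∀ j w, m ≤ w → b j (w + 1) = b j w

section
variable {P : ℤ → ℝ} {m : ℕ} {y : ℕ → ℝ} {ρ Pc R cF CF : ℝ} {b : ℤ → ℕ → ℝ}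

theorem E5H.m_pos (H : E5H P m y ρ Pc R cF CF b) : (0 : ℝ) < m := by
  exact_mod_cast H.hm

theorem E5H.CF_pos (H : E5H P m y ρ Pc R cF CF b) : 0 < CF :=
  H.cF_pos.trans_le ((H.bge 0 0).trans (H.ble 0 0))

theorem E5H.Pc_nonneg (H : E5H P m y ρ Pc R cF CF b) : 0 ≤ Pc := (H.hP 0).trans (H.hPc 0)

theorem E5H.slope (H : E5H P m y ρ Pc R cF CF b) (j : ℤ) (w : ℕ) (hw : w < m) :
    b j (w + 1) - b j w ≤ ((ρ + P j) * b j (w + 1) - y w * b (j + 1) (w + 1) +
      (ρ + Pc) * R * CF / m) / m := by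
  have hm0 := H.m_pos
  rw [H.stp j w hw]
  have hX := H.bge j (w + 1)
  have hX' := H.ble j (w + 1)
  have hY := H.bge (j + 1) (w + 1)
  have hY' := H.ble (j + 1) (w + 1)
  have hc := H.cF_pos
  have hy0 := H.y0 w hw
  have hyR := H.yR w hw
  have hP := H.hP j
  have hPc := H.hPc j
  have hρ := H.hρ
  set X := b j (w + 1)
  set Y := b (j + 1) (w + 1)
  have ht : 0 ≤ (ρ + P j) / m := by positivity
  have hE : 1 - (ρ + P j) / m ≤ Real.exp (-((ρ + P j) / m)) := by
    have := Real.add_one_le_exp (-((ρ + P j) / m))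
    linarith
  have hZ : 0 ≤ X + y w / m * Y := by
    have : 0 ≤ y w / m * Y := mul_nonneg (by positivity) (by linarith)
    linarith
  have h1 := mul_le_mul_of_nonneg_right hE hZ
  have h2 : (ρ + P j) / m * (y w / m * Y) ≤ (ρ + Pc) * R * CF / m / m := by
    have e1 : (ρ + P j) * (y w * Y) ≤ (ρ + Pc) * (R * CF) := by
      apply mul_le_mul (by linarith) _ (by apply mul_nonneg hy0; linarith)
        (by linarith)
      exact mul_le_mul hyR hY' (by linarith) (by linarith [H.hR])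
    calc (ρ + P j) / m * (y w / m * Y) = ((ρ + P j) * (y w * Y)) / m / m := by
          field_simp
      _ ≤ ((ρ + Pc) * (R * CF)) / m / m := by
          apply div_le_div_of_nonneg_right _ hm0.le
          exact div_le_div_of_nonneg_right e1 hm0.le
      _ = _ := by ring
  have h3 : ((ρ + P j) * X - y w * Y + (ρ + Pc) * R * CF / m) / m =
      (ρ + P j) / m * X - y w / m * Y + (ρ + Pc) * R * CF / m / m := by
    ring
  rw [h3]
  nlinarith

theorem E5H.up (H : E5H P m y ρ Pc R cF CF b) (j : ℤ) (w : ℕ) :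
    b j (w + 1) - b j w ≤ (ρ + Pc + R) * CF / m := by
  have hm0 := H.m_pos
  have hCF := H.CF_pos
  have hPc0 := H.Pc_nonneg
  have hρ := H.hρ
  have hR := H.hR
  rcases lt_or_ge w m with hw | hw
  · rw [H.stp j w hw]
    have hX := H.bge j (w + 1)
    have hX' := H.ble j (w + 1)
    have hY := H.bge (j + 1) (w + 1)
    have hc := H.cF_pos
    have hy0 := H.y0 w hw
    have hP := H.hP j
    have hPc := H.hPc j
    set X := b j (w + 1)
    set Y := b (j + 1) (w + 1)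
    have hE : 1 - (ρ + P j) / m ≤ Real.exp (-((ρ + P j) / m)) := by
      have := Real.add_one_le_exp (-((ρ + P j) / m))
      linarith
    have h1 := mul_le_mul_of_nonneg_right hE (by linarith : 0 ≤ X)
    have h2 : 0 ≤ Real.exp (-((ρ + P j) / m)) * (y w / m * Y) :=
      mul_nonneg (Real.exp_pos _).le (mul_nonneg (by positivity) (by linarith))
    have h3 : (ρ + P j) / m * X ≤ (ρ + Pc + R) * CF / m := by
      rw [div_mul_eq_mul_div]
      apply div_le_div_of_nonneg_right _ hm0.le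
      exact mul_le_mul (by linarith) hX' (by linarith) (by linarith)
    nlinarith
  · rw [H.top j w hw, sub_self]
    positivity

theorem E5H.down (H : E5H P m y ρ Pc R cF CF b) (j : ℤ) (w : ℕ) :
    b j w - b j (w + 1) ≤ (ρ + Pc + R) * CF / m := by
  have hm0 := H.m_pos
  have hCF := H.CF_pos
  have hPc0 := H.Pc_nonneg
  have hρ := H.hρ
  have hR := H.hR
  rcases lt_or_ge w m with hw | hw
  · rw [H.stp j w hw]
    have hX := H.bge j (w + 1)
    have hX' := H.ble j (w + 1)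
    have hY := H.bge (j + 1) (w + 1)
    have hY' := H.ble (j + 1) (w + 1)
    have hc := H.cF_pos
    have hy0 := H.y0 w hw
    have hyR := H.yR w hw
    have hP := H.hP j
    set X := b j (w + 1)
    set Y := b (j + 1) (w + 1)
    have hE : Real.exp (-((ρ + P j) / m)) ≤ 1 := by
      rw [Real.exp_le_one_iff]
      have : 0 ≤ (ρ + P j) / m := by positivity
      linarith
    have hyY : 0 ≤ y w / m * Y := mul_nonneg (by positivity) (by linarith)
    have h1 := mul_le_mul_of_nonneg_right hE (by linarith : 0 ≤ X + y w / m * Y)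
    have h3 : y w / m * Y ≤ (ρ + Pc + R) * CF / m := by
      rw [div_mul_eq_mul_div]
      apply div_le_div_of_nonneg_right _ hm0.le
      exact mul_le_mul (by linarith) hY' (by linarith) (by linarith)
    linarith
  · rw [H.top j w hw, sub_self]
    positivity

theorem E5H.lipU (H : E5H P m y ρ Pc R cF CF b) (j : ℤ) {x x' : ℝ} (hx : 0 ≤ x)
    (hxx : x ≤ x') : e5lin (b j) x' - e5lin (b j) x ≤ (x' - x) * ((ρ + Pc + R) * CF / m) :=
  e5lin_lip (b j) (H.up j) hx hxx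

theorem e5lin_neg (b : ℕ → ℝ) (x : ℝ) : e5lin (fun k => -b k) x = -e5lin b x := by
  unfold e5lin
  ring

theorem E5H.lipD (H : E5H P m y ρ Pc R cF CF b) (j : ℤ) {x x' : ℝ} (hx : 0 ≤ x)
    (hxx : x ≤ x') : e5lin (b j) x - e5lin (b j) x' ≤ (x' - x) * ((ρ + Pc + R) * CF / m) := by
  have h := e5lin_lip (fun k => -b j k) (g := (ρ + Pc + R) * CF / m)
    (fun k => by linarith [H.down j k]) hx hxx
  rw [e5lin_neg, e5lin_neg] at h
  linarith

/-- the error constant -/
noncomputable def e5C (ρ Pc R CF : ℝ) : ℝ :=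
  2 * (ρ + Pc) * ((ρ + Pc + R) * CF) + 2 * R * ((ρ + Pc + R) * CF) + (ρ + Pc) * R * CF + R * CF

theorem E5H.slopeG (H : E5H P m y ρ Pc R cF CF b) (j : ℤ) {x : ℝ} (w k : ℕ) (hw : (w : ℝ) ≤ x)
    (hw' : x ≤ w + 1) (hk : k = w ∨ k = w + 1) (hkm : k < m) :
    b j (k + 1) - b j k ≤ ((ρ + P j) * e5lin (b j) x - y w * e5lin (b (j + 1)) x +
      e5C ρ Pc R CF / m) / m := by
  have hm0 := H.m_pos
  have hCF := H.CF_pos
  have hPc0 := H.Pc_nonneg
  have hρ := H.hρ
  have hR := H.hR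
  have hx : 0 ≤ x := le_trans (Nat.cast_nonneg w) hw
  have hkx : x ≤ ((k + 1 : ℕ) : ℝ) := by
    rcases hk with h | h <;> rw [h] <;> push_cast <;> linarith
  have hkx' : ((k + 1 : ℕ) : ℝ) - x ≤ 2 := by
    rcases hk with h | h <;> rw [h] <;> push_cast <;> linarith
  refine (H.slope j k hkm).trans ?_
  apply div_le_div_of_nonneg_right _ hm0.le
  have h1 := H.lipU j hx hkx
  rw [e5lin_nat] at h1
  have h2 := H.lipD (j + 1) hx hkx
  rw [e5lin_nat] at h2
  have hL : 0 ≤ (ρ + Pc + R) * CF / m := by positivity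
  have h3 : b j (k + 1) ≤ e5lin (b j) x + 2 * ((ρ + Pc + R) * CF / m) := by
    nlinarith
  have h4 : e5lin (b (j + 1)) x ≤ b (j + 1) (k + 1) + 2 * ((ρ + Pc + R) * CF / m) := by
    nlinarith
  have hbd := e5lin_bd (b (j + 1)) (H.bge (j + 1)) (H.ble (j + 1)) hx
  have hc := H.cF_pos
  have hPj := H.hP j
  have hPcj := H.hPc j
  have hyk : y w ≤ y k + R / m := by
    rcases hk with h | h
    · rw [h]
      have : 0 ≤ R / m := by positivity
      linarith
    · subst h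
      have := (abs_le.1 (H.yy w hkm)).1
      linarith
  have hyk0 := H.y0 k hkm
  have hykR := H.yR k hkm
  have hb0 := H.bge (j + 1) (k + 1)
  set Fx := e5lin (b j) x
  set Fy := e5lin (b (j + 1)) x
  set X := b j (k + 1)
  set Y := b (j + 1) (k + 1)
  set L := (ρ + Pc + R) * CF / m with hLdef
  have e1 : (ρ + P j) * X ≤ (ρ + P j) * Fx + 2 * (ρ + Pc) * L := by
    have a1 := mul_le_mul_of_nonneg_left h3 (by linarith : 0 ≤ ρ + P j)
    have a2 := mul_le_mul_of_nonneg_right (by linarith : ρ + P j ≤ ρ + Pc) hL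
    nlinarith
  have e2 : y w * Fy ≤ y k * Y + 2 * R * L + R / m * CF := by
    have a1 : y w * Fy ≤ (y k + R / m) * Fy := mul_le_mul_of_nonneg_right hyk (by linarith)
    have a2 : y k * Fy ≤ y k * (Y + 2 * L) := mul_le_mul_of_nonneg_left h4 hyk0
    have a3 : y k * L ≤ R * L := mul_le_mul_of_nonneg_right hykR hL
    have a4 : R / m * Fy ≤ R / m * CF := mul_le_mul_of_nonneg_left hbd.2 (by positivity)
    nlinarith
  have e3 : e5C ρ Pc R CF / m = 2 * (ρ + Pc) * L + 2 * R * L + (ρ + Pc) * R * CF / m +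
      R / m * CF := by
    rw [hLdef]
    unfold e5C
    ring
  rw [e3]
  linarith

theorem E5H.step (H : E5H P m y ρ Pc R cF CF b) (ε h₀ : ℝ) (hh1 : h₀ * m ≤ 1)
    (hh2 : h₀ * (R * CF / cF) ≤ 1)
    (hh3 : e5C ρ Pc R CF / m + h₀ * (CF * (R * CF / cF) ^ 2 + R * ((ρ + Pc + R) * CF)) ≤ ε * cF)
    (s h : ℝ) (j : ℤ) (hs : 0 ≤ s) (hh : 0 < h) (hh0 : h ≤ h₀) (hsh : s + h ≤ 1) :
    e5lin (b j) (m * (s + h)) * Real.exp (h * y ⌊(m : ℝ) * s⌋₊ *
      (e5lin (b (j + 1)) (m * (s + h)) / e5lin (b j) (m * (s + h)))) ≤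
      Real.exp (h * (ρ + ε + P j)) * e5lin (b j) (m * s) := by
  have hm0 := H.m_pos
  have hCF := H.CF_pos
  have hPc0 := H.Pc_nonneg
  have hρ := H.hρ
  have hR := H.hR
  have hcF := H.cF_pos
  have hPj := H.hP j
  have hx : 0 ≤ (m : ℝ) * s := by positivity
  have hxx : (m : ℝ) * s ≤ m * (s + h) := by nlinarith
  have hx' : 0 ≤ (m : ℝ) * (s + h) := hx.trans hxx
  set w := ⌊(m : ℝ) * s⌋₊ with hwdef
  have hw0 : (w : ℝ) ≤ m * s := Nat.floor_le hx
  have hw1 : (m : ℝ) * s < w + 1 := Nat.lt_floor_add_one _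
  have hwm : w < m := by
    have : (w : ℝ) < m := by nlinarith
    exact_mod_cast this
  have hmh : (m : ℝ) * h ≤ 1 := by nlinarith
  have hb1 := e5lin_bd (b j) (H.bge j) (H.ble j) hx
  have hb2 := e5lin_bd (b (j + 1)) (H.bge (j + 1)) (H.ble (j + 1)) hx
  have hb3 := e5lin_bd (b j) (H.bge j) (H.ble j) hx'
  have hb4 := e5lin_bd (b (j + 1)) (H.bge (j + 1)) (H.ble (j + 1)) hx'
  have h1 := e5lin_two (b j) (g := ((ρ + P j) * e5lin (b j) (m * s) -
      y w * e5lin (b (j + 1)) (m * s) + e5C ρ Pc R CF / m) / m) w hw0 hw1.le hxx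
      (by nlinarith)
      (H.slopeG j w w hw0 hw1.le (Or.inl rfl) hwm)
      (fun hlt => by
        have hk : w + 1 < m := by
          have : ((w + 1 : ℕ) : ℝ) < m := by
            push_cast
            nlinarith
          exact_mod_cast this
        exact H.slopeG j w (w + 1) hw0 hw1.le (Or.inr rfl) hk)
  have h2 := H.lipU (j + 1) hx hxx
  have hy0 := H.y0 w hwm
  have hyR := H.yR w hwm
  set X := e5lin (b j) (m * (s + h))
  set Y := e5lin (b (j + 1)) (m * (s + h))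
  set a := e5lin (b j) (m * s)
  set c := e5lin (b (j + 1)) (m * s)
  have h1' : X - a ≤ h * ((ρ + P j) * a - y w * c + e5C ρ Pc R CF / m) := by
    refine h1.trans (le_of_eq ?_)
    field_simp
    ring
  have h2' : Y - c ≤ h * ((ρ + Pc + R) * CF) := by
    refine h2.trans (le_of_eq ?_)
    field_simp
    ring
  have hX0 : 0 < X := hcF.trans_le hb3.1
  have hY0 : 0 < Y := hcF.trans_le hb4.1
  have hYX : Y / X ≤ CF / cF := by
    apply div_le_div₀ hCF.le hb4.2 hcF hb3.1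
  have ht0 : 0 ≤ h * y w * (Y / X) := by positivity
  have ht1 : h * y w * (Y / X) ≤ h * (R * CF / cF) := by
    have e1 : y w * (Y / X) ≤ R * (CF / cF) :=
      mul_le_mul hyR hYX (by positivity) (by linarith)
    calc h * y w * (Y / X) = h * (y w * (Y / X)) := by ring
      _ ≤ h * (R * (CF / cF)) := mul_le_mul_of_nonneg_left e1 hh.le
      _ = _ := by ring
  have hq : 0 ≤ R * CF / cF := by positivity
  have ht2 : h * (R * CF / cF) ≤ 1 := (mul_le_mul_of_nonneg_right hh0 hq).trans hh2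
  set t := h * y w * (Y / X) with htdef
  have hexp : Real.exp t ≤ 1 + t + t ^ 2 := by
    have := (abs_le.1 (Real.abs_exp_sub_one_sub_id_le
      (abs_le.2 ⟨by linarith, ht1.trans ht2⟩ : |t| ≤ 1))).2
    linarith
  have hXt : X * t = h * (y w * Y) := by
    rw [htdef]
    field_simp
  have hXt2 : X * t ^ 2 ≤ h * (h₀ * (CF * (R * CF / cF) ^ 2)) := by
    have e1 : t ^ 2 ≤ (h * (R * CF / cF)) ^ 2 := pow_le_pow_left₀ ht0 ht1 2
    calc X * t ^ 2 ≤ CF * (h * (R * CF / cF)) ^ 2 :=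
          mul_le_mul hb3.2 e1 (by positivity) hCF.le
      _ = h * (h * (CF * (R * CF / cF) ^ 2)) := by ring
      _ ≤ h * (h₀ * (CF * (R * CF / cF) ^ 2)) := by
          apply mul_le_mul_of_nonneg_left _ hh.le
          exact mul_le_mul_of_nonneg_right hh0 (by positivity)
  have hyY : y w * Y ≤ y w * c + h₀ * (R * ((ρ + Pc + R) * CF)) := by
    have e1 : y w * (Y - c) ≤ y w * (h * ((ρ + Pc + R) * CF)) :=
      mul_le_mul_of_nonneg_left h2' hy0
    have e2 : y w * (h * ((ρ + Pc + R) * CF)) ≤ R * (h₀ * ((ρ + Pc + R) * CF)) := by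
      apply mul_le_mul hyR _ (by positivity) (by linarith)
      exact mul_le_mul_of_nonneg_right hh0 (by positivity)
    linarith
  have hε : ε * cF ≤ ε * a := by
    have : 0 ≤ ε := by
      have e1 : 0 ≤ e5C ρ Pc R CF / m + h₀ * (CF * (R * CF / cF) ^ 2 +
          R * ((ρ + Pc + R) * CF)) := by
        have : 0 ≤ h₀ := hh.le.trans hh0
        have h3 : 0 ≤ e5C ρ Pc R CF := by
          unfold e5C
          positivity
        positivity
      by_contra hneg
      push Not at hneg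
      have := mul_neg_of_neg_of_pos hneg hcF
      linarith
    exact mul_le_mul_of_nonneg_left hb1.1 this
  have hfin : X * Real.exp t ≤ (1 + h * (ρ + ε + P j)) * a := by
    have e0 : X * Real.exp t ≤ X * (1 + t + t ^ 2) := mul_le_mul_of_nonneg_left hexp hX0.le
    have e1 : h * (y w * Y) ≤ h * (y w * c + h₀ * (R * ((ρ + Pc + R) * CF))) :=
      mul_le_mul_of_nonneg_left hyY hh.le
    have e2 := mul_le_mul_of_nonneg_left (hh3.trans hε) hh.le
    nlinarith
  refine hfin.trans ?_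
  apply mul_le_mul_of_nonneg_right _ (hcF.le.trans hb1.1)
  have := Real.add_one_le_exp (h * (ρ + ε + P j))
  linarith

end

/-- the certificate from the data -/
theorem e5_cert {κ Pc R cF CF ρ ε : ℝ} {m : ℕ} {y : ℕ → ℝ} {b : ℤ → ℕ → ℝ} (hε : 0 < ε)
    (H : E5H (Pcap κ Pc) m y ρ Pc R cF CF b) (hyR : ∀ w < m, 1 / R ≤ y w)
    (hC : e5C ρ Pc R CF / m ≤ ε * cF / 2) (hb : ∀ j, b j 0 ≤ b (j + 1) m) :
    ∃ (R₂ h₀ : ℝ) (f : ℝ → ℤ → ℝ) (yy : ℝ → ℝ) (ρ' : ℝ),
        UCert κ (ρ - (∑ w ∈ Finset.range m, Real.log (y w)) / m + ε) R₂ Pc h₀ m f yy ρ' := by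
  have hm0 := H.m_pos
  have hCF := H.CF_pos
  have hPc0 := H.Pc_nonneg
  have hρ := H.hρ
  have hR := H.hR
  have hcF := H.cF_pos
  have hcC : cF ≤ CF := (H.bge 0 0).trans (H.ble 0 0)
  set C₂ : ℝ := CF * (R * CF / cF) ^ 2 + R * ((ρ + Pc + R) * CF) with hC₂
  have hC₂0 : 0 < C₂ := by positivity
  set h₀ : ℝ := min (1 / m) (min (cF / (R * CF)) (ε * cF / (2 * C₂))) with hh₀
  have hh₀0 : 0 < h₀ := by
    apply lt_min (by positivity)
    apply lt_min (by positivity) (by positivity)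
  have hh1 : h₀ * m ≤ 1 := by
    have : h₀ ≤ 1 / m := min_le_left _ _
    rwa [le_div_iff₀ hm0] at this
  have hh2 : h₀ * (R * CF / cF) ≤ 1 := by
    have h1 : h₀ ≤ cF / (R * CF) := (min_le_right _ _).trans (min_le_left _ _)
    calc h₀ * (R * CF / cF) ≤ cF / (R * CF) * (R * CF / cF) :=
          mul_le_mul_of_nonneg_right h1 (by positivity)
      _ = 1 := by field_simp
  have hh3' : h₀ * C₂ ≤ ε * cF / 2 := by
    have h1 : h₀ ≤ ε * cF / (2 * C₂) := (min_le_right _ _).trans (min_le_right _ _)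
    calc h₀ * C₂ ≤ ε * cF / (2 * C₂) * C₂ := mul_le_mul_of_nonneg_right h1 hC₂0.le
      _ = ε * cF / 2 := by field_simp
  have hh3 : e5C ρ Pc R CF / m + h₀ * C₂ ≤ ε * cF := by linarith
  set L : ℝ := (ρ + Pc + R) * CF with hL
  have hL0 : 0 < L := by positivity
  set R₂ : ℝ := CF / cF + R + (ρ + ε) + L / cF with hR₂
  have q1 : 0 < CF / cF := by positivity
  have q2 : 0 < L / cF := by positivity
  have hR₂R : R ≤ R₂ := by linarith
  have hR₂0 : 0 < R₂ := by linarith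
  -- the functions
  set F : ℝ → ℤ → ℝ := fun s j => e5lin (b j) (max 0 (m * s)) with hF
  have hFbd : ∀ s j, cF ≤ F s j ∧ F s j ≤ CF := fun s j =>
    e5lin_bd (b j) (H.bge j) (H.ble j) (le_max_left _ _)
  have hFpos : ∀ s, 0 ≤ s → ∀ j, F s j = e5lin (b j) (m * s) := by
    intro s hs j
    simp only [hF]
    rw [max_eq_right (by positivity)]
  refine ⟨R₂, h₀, fun s j => cF⁻¹ * F s j,
    fun s => y (min ⌊(m : ℝ) * s⌋.toNat (m - 1)), ρ + ε, ?_⟩
  have hidx : ∀ s : ℝ, min ⌊(m : ℝ) * s⌋.toNat (m - 1) < m := by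
    intro s
    have h1 := H.hm
    have h2 : min ⌊(m : ℝ) * s⌋.toNat (m - 1) ≤ m - 1 := min_le_right _ _
    omega
  refine ⟨H.hm, hh₀0, hPc0, ?_, ?_, ?_, ?_, ?_, ?_, ?_, ?_, ?_, ?_, ?_⟩
  · intro s j
    have h1 := (hFbd s j).1
    have h2 : cF⁻¹ * cF ≤ cF⁻¹ * F s j := mul_le_mul_of_nonneg_left h1 (by positivity)
    rwa [inv_mul_cancel₀ hcF.ne'] at h2
  · intro s j
    have h1 := (hFbd s j).2
    have h2 : cF⁻¹ * F s j ≤ cF⁻¹ * CF := mul_le_mul_of_nonneg_left h1 (by positivity)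
    have h3 : cF⁻¹ * CF = CF / cF := by ring
    linarith
  · intro s
    refine le_trans ?_ (hyR _ (hidx s))
    exact one_div_le_one_div_of_le (by linarith) hR₂R
  · intro s
    exact (H.yR _ (hidx s)).trans hR₂R
  · intro s s' h
    rw [h]
  · linarith
  · linarith
  · intro s h j hs hh hsh
    rw [hFpos (s + h) (by linarith), hFpos s hs]
    have hx : 0 ≤ (m : ℝ) * s := by positivity
    have hxx : (m : ℝ) * s ≤ m * (s + h) := by nlinarith
    have h1 := H.lipU j hx hxx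
    have hb1 := e5lin_bd (b j) (H.bge j) (H.ble j) hx
    have h2 : e5lin (b j) (m * (s + h)) ≤ e5lin (b j) (m * s) + h * L := by
      have : ((m : ℝ) * (s + h) - m * s) * ((ρ + Pc + R) * CF / m) = h * L := by
        rw [hL]
        field_simp
        ring
      linarith
    have h3 : h * L ≤ (R₂ * h) * e5lin (b j) (m * s) := by
      have e1 : L / cF ≤ R₂ := by linarith
      have e2 : h * L = (L / cF * h) * cF := by field_simp
      rw [e2]
      apply mul_le_mul (mul_le_mul_of_nonneg_right e1 hh) hb1.1 hcF.le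
      positivity
    have h4 : e5lin (b j) (m * (s + h)) ≤ Real.exp (R₂ * h) * e5lin (b j) (m * s) := by
      have := mul_le_mul_of_nonneg_right (Real.add_one_le_exp (R₂ * h))
        (hcF.le.trans hb1.1)
      linarith
    calc cF⁻¹ * e5lin (b j) (m * (s + h))
        ≤ cF⁻¹ * (Real.exp (R₂ * h) * e5lin (b j) (m * s)) :=
          mul_le_mul_of_nonneg_left h4 (by positivity)
      _ = _ := by ring
  · intro s h j hs hh hh0 hsh
    rw [hFpos (s + h) (by linarith), hFpos (s + h) (by linarith), hFpos s hs]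
    have hw : min ⌊(m : ℝ) * s⌋.toNat (m - 1) = ⌊(m : ℝ) * s⌋₊ := by
      rw [Int.floor_toNat]
      apply min_eq_left
      have h1 : ((⌊(m : ℝ) * s⌋₊ : ℕ) : ℝ) ≤ m * s := Nat.floor_le (by positivity)
      have h2 : ((⌊(m : ℝ) * s⌋₊ : ℕ) : ℝ) < m := by nlinarith
      have h3 : ⌊(m : ℝ) * s⌋₊ < m := by exact_mod_cast h2
      omega
    rw [hw, mul_div_mul_left _ _ (inv_ne_zero hcF.ne')]
    have h1 := H.step ε h₀ hh1 hh2 hh3 s h j hs hh hh0 hsh
    have hPj : Pcap κ Pc j = min (κ * ((j : ℝ) * ((j : ℝ) - 1))) Pc := rfl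
    rw [hPj] at h1
    calc cF⁻¹ * e5lin (b j) (m * (s + h)) * Real.exp (h * y ⌊(m : ℝ) * s⌋₊ *
          (e5lin (b (j + 1)) (m * (s + h)) / e5lin (b j) (m * (s + h))))
        = cF⁻¹ * (e5lin (b j) (m * (s + h)) * Real.exp (h * y ⌊(m : ℝ) * s⌋₊ *
          (e5lin (b (j + 1)) (m * (s + h)) / e5lin (b j) (m * (s + h))))) := by ring
      _ ≤ cF⁻¹ * (Real.exp (h * (ρ + ε + min (κ * ((j : ℝ) * ((j : ℝ) - 1))) Pc)) *
          e5lin (b j) (m * s)) := mul_le_mul_of_nonneg_left h1 (by positivity)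
      _ = _ := by ring
  · intro j
    rw [hFpos 0 le_rfl, hFpos 1 zero_le_one]
    apply mul_le_mul_of_nonneg_left _ (by positivity)
    have e1 : e5lin (b j) ((m : ℝ) * 0) = b j 0 := by
      rw [mul_zero]
      exact_mod_cast e5lin_nat (b j) 0
    have e2 : e5lin (b (j + 1)) ((m : ℝ) * 1) = b (j + 1) m := by
      rw [mul_one]
      exact e5lin_nat (b (j + 1)) m
    rw [e1, e2]
    exact hb j
  · have hsum : ∑ w ∈ Finset.range m, Real.log (y (min ⌊(m : ℝ) * ((w : ℝ) / m)⌋.toNat (m - 1))) =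
        ∑ w ∈ Finset.range m, Real.log (y w) := by
      apply Finset.sum_congr rfl
      intro w hw
      have hw' := Finset.mem_range.1 hw
      have h1 : (m : ℝ) * ((w : ℝ) / m) = w := by field_simp
      rw [h1, Int.floor_natCast, Int.toNat_natCast, min_eq_left (by omega)]
    rw [hsum]
    linarith

theorem ucert_of_kernel (κ Pc R ε : ℝ) (hκ : 0 ≤ κ) (hPc : 0 ≤ Pc) (hR : 1 ≤ R) (hε : 0 < ε)
    (n : ℕ) (hn : 1 ≤ n) : ∃ m₀ : ℕ, ∀ (m : ℕ) (y : ℕ → ℝ) (Z' : ℝ), m₀ ≤ m →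
      (∀ w < m, 1 / R ≤ y w ∧ y w ≤ R) →
      (∀ w, w + 1 < m → |y (w + 1) - y w| ≤ R / m) → 1 ≤ Z' → Z' ≤ R →
      (∀ i : ℤ, ((Kop (Pcap κ Pc) m (fun w => y w / m))^[n] (fun _ => 1)) i ≤ Z') →
      ∃ (R₂ h₀ : ℝ) (f : ℝ → ℤ → ℝ) (yy : ℝ → ℝ) (ρ : ℝ),
        UCert κ (Real.log (2 * Z') / n - (∑ w ∈ Finset.range m, Real.log (y w)) / m + ε)
          R₂ Pc h₀ m f yy ρ := by
  set ρm : ℝ := Real.log (2 * R) with hρm
  have hρm0 : 0 ≤ ρm := Real.log_nonneg (by linarith)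
  set G : ℝ := n * Real.exp (R * n) with hG
  set CF : ℝ := Real.exp R * G with hCF
  set cF : ℝ := Real.exp (-(ρm + Pc)) with hcF
  have hn0 : (0 : ℝ) < n := by exact_mod_cast hn
  have hG0 : 0 < G := by positivity
  have hCF0 : 0 < CF := by positivity
  have hcF0 : 0 < cF := Real.exp_pos _
  refine ⟨⌈2 * e5C ρm Pc R CF / (ε * cF)⌉₊ + 1, ?_⟩
  intro m y Z' hm hy hyy hZ1 hZR hK
  have hm1 : 1 ≤ m := by omega
  have hm0 : (0 : ℝ) < m := by exact_mod_cast hm1
  set P := Pcap κ Pc with hPdef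
  have hP : ∀ j, 0 ≤ P j := by
    intro j
    rw [hPdef]
    unfold Pcap
    apply le_min _ hPc
    apply mul_nonneg hκ
    rcases le_or_gt j 0 with h | h
    · have h1 : (j : ℝ) ≤ 0 := by exact_mod_cast h
      nlinarith
    · have h1 : (1 : ℝ) ≤ (j : ℝ) := by exact_mod_cast h
      nlinarith
  have hPPc : ∀ j, P j ≤ Pc := fun j => min_le_right _ _
  set c : ℕ → ℝ := fun w => y w / m with hc
  have hc0 : ∀ w < m, 0 ≤ c w := by
    intro w hw
    have h1 := (hy w hw).1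
    have h2 : 0 < 1 / R := by positivity
    exact div_nonneg (by linarith) hm0.le
  have hcR : ∀ w < m, c w ≤ R / m := fun w hw =>
    div_le_div_of_nonneg_right (hy w hw).2 hm0.le
  set ρ : ℝ := Real.log (2 * Z') / n with hρdef
  have hρ0 : 0 ≤ ρ := div_nonneg (Real.log_nonneg (by linarith)) hn0.le
  have hρρm : ρ ≤ ρm := by
    have h1 : Real.log (2 * Z') ≤ ρm := Real.log_le_log (by linarith) (by linarith)
    have h2 : ρ ≤ Real.log (2 * Z') := by
      rw [hρdef, div_le_iff₀ hn0]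
      have h3 : 0 ≤ Real.log (2 * Z') := Real.log_nonneg (by linarith)
      have h4 : (1 : ℝ) ≤ n := by exact_mod_cast hn
      nlinarith
    linarith
  -- the resolvent
  set f₀ : ℤ → ℝ := e5S P m c ρ n with hf₀
  have hit := e5iter P hP m hm1 c R hc0 hcR
  have hf1 : ∀ i, 1 ≤ f₀ i := by
    intro i
    have h1 : Real.exp (-(ρ * ((0 : ℕ) : ℝ))) * ((Kop P m c)^[0] (fun _ => 1)) i ≤ f₀ i := by
      rw [hf₀]
      unfold e5S
      exact Finset.single_le_sum
        (f := fun r : ℕ => Real.exp (-(ρ * r)) * ((Kop P m c)^[r] (fun _ => 1)) i)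
        (fun r _ => mul_nonneg (Real.exp_pos _).le (hit r i).1) (Finset.mem_range.2 hn)
    simpa using h1
  have hfG : ∀ i, f₀ i ≤ G := by
    intro i
    rw [hf₀]
    unfold e5S
    calc ∑ r ∈ Finset.range n, Real.exp (-(ρ * r)) * ((Kop P m c)^[r] (fun _ => 1)) i
        ≤ ∑ _r ∈ Finset.range n, Real.exp (R * n) := by
          apply Finset.sum_le_sum
          intro r hr
          have hr' : (r : ℝ) ≤ n := by exact_mod_cast (Finset.mem_range.1 hr).le
          calc Real.exp (-(ρ * r)) * ((Kop P m c)^[r] (fun _ => 1)) i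
              ≤ 1 * Real.exp (R * r) := by
                apply mul_le_mul _ (hit r i).2 (hit r i).1 zero_le_one
                rw [Real.exp_le_one_iff]
                have : 0 ≤ ρ * r := by positivity
                linarith
            _ = Real.exp (R * r) := one_mul _
            _ ≤ Real.exp (R * n) := by
                apply Real.exp_le_exp.2
                nlinarith
      _ = G := by
          rw [Finset.sum_const, Finset.card_range, nsmul_eq_mul]
  have hKf : ∀ i, Real.exp (-ρ) * Kop P m c f₀ i ≤ f₀ i := by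
    intro i
    rw [hf₀, e5Kop_S]
    have h1 : Real.exp (-ρ) * ∑ r ∈ Finset.range n, Real.exp (-(ρ * r)) *
        ((Kop P m c)^[r + 1] (fun _ => 1)) i =
        ∑ r ∈ Finset.range n, Real.exp (-(ρ * ((r + 1 : ℕ) : ℝ))) *
        ((Kop P m c)^[r + 1] (fun _ => 1)) i := by
      rw [Finset.mul_sum]
      apply Finset.sum_congr rfl
      intro r _
      rw [← mul_assoc, ← Real.exp_add]
      congr 2
      push_cast
      ring
    rw [h1]
    have h2 := Finset.sum_range_succ' (fun r : ℕ => Real.exp (-(ρ * r)) *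
      ((Kop P m c)^[r] (fun _ => 1)) i) n
    have h3 := Finset.sum_range_succ (fun r : ℕ => Real.exp (-(ρ * r)) *
      ((Kop P m c)^[r] (fun _ => 1)) i) n
    have h4 : Real.exp (-(ρ * n)) * ((Kop P m c)^[n] (fun _ => 1)) i ≤ 1 := by
      have h5 : Real.exp (-(ρ * n)) = (2 * Z')⁻¹ := by
        rw [hρdef, div_mul_cancel₀ _ hn0.ne', Real.exp_neg, Real.exp_log (by linarith)]
      rw [h5]
      calc (2 * Z')⁻¹ * ((Kop P m c)^[n] (fun _ => 1)) i ≤ (2 * Z')⁻¹ * (2 * Z') := by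
            apply mul_le_mul_of_nonneg_left _ (by positivity)
            have := hK i
            linarith
        _ = 1 := inv_mul_cancel₀ (by positivity)
    have h6 : Real.exp (-(ρ * ((0 : ℕ) : ℝ))) * ((Kop P m c)^[0] (fun _ => 1)) i = 1 := by simp
    unfold e5S
    linarith
  -- the data
  have H : E5H P m y ρ Pc R cF CF (e5b P m c ρ f₀) := by
    refine ⟨hm1, hP, hPPc, hR, hρ0, hcF0, ?_, fun w hw => (hy w hw).2, hyy, ?_, ?_, ?_, ?_⟩
    · intro w hw
      have h1 := (hy w hw).1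
      have h2 : 0 < 1 / R := by positivity
      linarith
    · intro j w
      refine le_trans ?_ (e5b_bd P Pc hP hPPc m hm1 c R ρ hρ0 (by linarith) hc0 hcR f₀ hf1 G hfG
        j w).1
      apply Real.exp_le_exp.2
      linarith
    · intro j w
      exact (e5b_bd P Pc hP hPPc m hm1 c R ρ hρ0 (by linarith) hc0 hcR f₀ hf1 G hfG j w).2
    · intro j w hw
      exact e5b_step P m c ρ f₀ j w hw
    · intro j w hw
      rw [e5b_top P m c ρ f₀ j (w + 1) (by omega), e5b_top P m c ρ f₀ j w hw]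
  apply e5_cert hε H (fun w hw => (hy w hw).1)
  · -- the choice of `m₀`
    have h1 : e5C ρ Pc R CF ≤ e5C ρm Pc R CF := by
      unfold e5C
      gcongr
    have h2 : 2 * e5C ρm Pc R CF / (ε * cF) ≤ m := by
      refine (Nat.le_ceil _).trans ?_
      exact_mod_cast (by omega : ⌈2 * e5C ρm Pc R CF / (ε * cF)⌉₊ ≤ m)
    rw [div_le_iff₀ (by positivity)] at h2
    rw [div_le_iff₀ hm0]
    linarith
  · intro j
    rw [e5b_top P m c ρ f₀ (j + 1) m le_rfl]
    have h1 : e5b P m c ρ f₀ j 0 = Real.exp (-ρ) * Kop P m c f₀ j := by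
      unfold e5b Kop
      rw [Nat.sub_zero]
      congr 2
      field_simp
    rw [h1]
    have h2 := hKf j
    have h3 : j + 1 - 1 = j := by ring
    rw [h3]
    exact h2

end Pool.Agent.Lib.MP_8501c9_pr.Wide
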