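import Pool.Agent.Lib.MP_8501c9_pr.Wide.CertBD
import Pool.Agent.Lib.MP_8501c9_pr.Wide.MinU
import Pool.Agent.Lib.MP_8501c9_pr.Wide.MinCert
import Pool.Agent.Lib.MP_8501c9_pr.Wide.KopZZ
import Pool.Agent.Lib.MP_8501c9_pr.Wide.Kernel
import Pool.Agent.Lib.MP_8501c9_pr.Wide.ResCert
import Pool.Agent.Lib.MP_8501c9_pr.Wide.NearOne

/-!
# Duality for the one-direction problem

Schedules and supersolutions give the same value `Vst κ`.
-/

set_option autoImplicit false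
open Set

namespace Pool.Agent.Lib.MP_8501c9_pr.Wide

open Pool.Agent.Lib.MP_8501c9_pr Pool.Agent.Lib.MP_8501c9_pr.Mid

theorem e6_ucert_mono {κ V V' R P h₀ : ℝ} {m : ℕ} {f : ℝ → ℤ → ℝ} {y : ℝ → ℝ} {ρ : ℝ}
    (h : UCert κ V R P h₀ m f y ρ) (hV : V ≤ V') : UCert κ V' R P h₀ m f y ρ :=
  ⟨h.m_pos, h.h_pos, h.P_nonneg, h.f_ge, h.f_le, h.y_ge, h.y_le, h.y_const, h.ρ_nonneg, h.ρ_le,
    h.lip, h.step, h.shift, h.value.trans hV⟩

theorem e6_lcert_mono {κ V V' : ℝ} {M W J den : ℕ} {N q : ℕ → ℤ → ℕ} {lm tp : ℕ → ℤ}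
    (h : LCert κ V M W J den N q lm tp) (hV : V' ≤ V) : LCert κ V' M W J den N q lm tp :=
  ⟨h.M_pos, h.M_even, h.J_even, h.den_pos, h.supp, h.q_le, h.flow, h.per, h.tot, h.tp_ge,
    h.tp_le, h.lm_le, (mul_le_mul_of_nonneg_right hV (Nat.cast_nonneg M)).trans h.value⟩

theorem e6_exp_sub {a b B : ℝ} (ha : a ≤ B) (hb : b ≤ B) :
    |Real.exp a - Real.exp b| ≤ Real.exp B * |a - b| := by
  wlog hab : b ≤ a generalizing a b
  · rw [abs_sub_comm, abs_sub_comm a b]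
    exact this hb ha (le_of_lt (not_le.1 hab))
  rw [abs_of_nonneg (sub_nonneg.2 (Real.exp_le_exp.2 hab)), abs_of_nonneg (sub_nonneg.2 hab)]
  have h1 : 1 - (a - b) ≤ Real.exp (-(a - b)) := by
    have := Real.add_one_le_exp (-(a - b))
    linarith
  have h2 : Real.exp b = Real.exp a * Real.exp (-(a - b)) := by
    rw [← Real.exp_add]; congr 1; ring
  have h3 : Real.exp a - Real.exp b ≤ Real.exp a * (a - b) := by
    rw [h2]
    nlinarith [Real.exp_pos a]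
  exact h3.trans (mul_le_mul_of_nonneg_right (Real.exp_le_exp.2 ha) (sub_nonneg.2 hab))

theorem exists_value (κ ε : ℝ) (hκ : 0 < κ) (hε : 0 < ε) : ∃ v : ℝ, UAch κ (v + ε) ∧
    ∃ (M W J den : ℕ) (N q : ℕ → ℤ → ℕ) (lm tp : ℕ → ℤ),
      LCert κ (v - ε) M W J den N q lm tp := by
  obtain ⟨C, hC1, P₀, c₀, hc₀, hker⟩ := kernel_bound κ hκ
  obtain ⟨n, hn, hnε⟩ : ∃ n : ℕ, 1 ≤ n ∧ Real.log (2 * C) / n ≤ ε / 4 := by
    obtain ⟨n, hn⟩ := exists_nat_ge (4 * Real.log (2 * C) / ε)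
    refine ⟨n + 1, by omega, ?_⟩
    rw [div_le_iff₀ (by positivity)]
    rw [div_le_iff₀ hε] at hn
    push_cast
    linarith
  have hn0 : (0 : ℝ) < n := by exact_mod_cast hn
  set Pc : ℝ := max P₀ (κ * (n * (n + 1))) with hPcdef
  have hPc1 : P₀ ≤ Pc := le_max_left _ _
  have hPc2 : κ * (n * (n + 1)) ≤ Pc := le_max_right _ _
  have hPc0 : 0 ≤ Pc := le_trans (by positivity) hPc2
  set B : ℝ := 2 * κ * n with hB
  have hB0 : 0 ≤ B := by positivity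
  have hexpB : 1 ≤ Real.exp B := Real.one_le_exp hB0
  set R : ℝ := Real.exp B * (1 + B) + C * Real.exp n with hR
  have hR0 : 0 ≤ C * Real.exp n := by positivity
  have hR1 : Real.exp B ≤ R := by nlinarith
  have hR2 : Real.exp B * B ≤ R := by nlinarith
  have hR3 : C * Real.exp n ≤ R := by
    have : 0 ≤ Real.exp B * (1 + B) := by positivity
    linarith
  have hR4 : 1 ≤ R := hexpB.trans hR1
  obtain ⟨m₀, hm₀⟩ := ucert_of_kernel κ Pc R (ε / 4) hκ.le hPc0 hR4 (by linarith) n hn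
  obtain ⟨m, hmm₀, hm, hmc, hmε⟩ : ∃ m : ℕ, m₀ ≤ m ∧ 1 ≤ m ∧ Real.exp B / m ≤ c₀ ∧
      κ * (n + 1) / m ≤ ε / 4 := by
    obtain ⟨m₁, hm₁⟩ := exists_nat_ge (Real.exp B / c₀)
    obtain ⟨m₂, hm₂⟩ := exists_nat_ge (4 * (κ * (n + 1)) / ε)
    refine ⟨m₀ + 1 + m₁ + m₂, by omega, by omega, ?_, ?_⟩
    · rw [div_le_iff₀ (by positivity)]
      rw [div_le_iff₀ hc₀] at hm₁
      push_cast
      nlinarith [Nat.cast_nonneg (α := ℝ) m₀, Nat.cast_nonneg (α := ℝ) m₂]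
    · rw [div_le_iff₀ (by positivity)]
      rw [div_le_iff₀ hε] at hm₂
      push_cast
      nlinarith [Nat.cast_nonneg (α := ℝ) m₀, Nat.cast_nonneg (α := ℝ) m₁]
  have hm0 : (0 : ℝ) < m := by exact_mod_cast hm
  obtain ⟨u, hu, hr, hstep, hbd, hs1, hs2, hZ1, hZ2⟩ := exists_min κ hκ n m hn hm
  have hZ0 : 0 < ZZ κ n m u := by linarith
  have hub : ∀ w < m, u w ≤ B := fun w hw => (abs_le.1 (hbd w hw)).2
  have hlb : ∀ w < m, -B ≤ u w := fun w hw => (abs_le.1 (hbd w hw)).1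
  obtain ⟨R₂, h₀, f, yy, ρ, hU⟩ := hm₀ m (fun w => Real.exp (u w)) (C * ZZ κ n m u) hmm₀
    (fun w hw => by
      constructor
      · have h1 : 1 / R ≤ 1 / Real.exp B := one_div_le_one_div_of_le (Real.exp_pos _) hR1
        have h2 : 1 / Real.exp B = Real.exp (-B) := by rw [Real.exp_neg, one_div]
        rw [h2] at h1
        exact h1.trans (Real.exp_le_exp.2 (hlb w hw))
      · exact (Real.exp_le_exp.2 (hub w hw)).trans hR1)
    (fun w hw => by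
      have h1 := e6_exp_sub (hub (w + 1) hw) (hub w (by omega))
      have h2 := hstep w hw
      calc |Real.exp (u (w + 1)) - Real.exp (u w)| ≤ Real.exp B * |u (w + 1) - u w| := h1
        _ ≤ Real.exp B * (B / m) := by gcongr
        _ = Real.exp B * B / m := by ring
        _ ≤ R / m := by gcongr)
    (by nlinarith)
    (by
      calc C * ZZ κ n m u ≤ C * Real.exp n := by gcongr
        _ ≤ R := hR3)
    (fun i => by
      have h1 := hker Pc n m (fun w => Real.exp (u w) / m) hPc1 hm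
        (fun w _ => by positivity)
        (fun w hw => by
          refine le_trans ?_ hmc
          have := Real.exp_le_exp.2 (hub w hw)
          gcongr) hs1 hs2 i
      rwa [kop_eq_ZZ κ Pc hκ.le n m hm hPc2 u] at h1)
  refine ⟨Real.log (ZZ κ n m u) / n, fun ε' hε' => ⟨R₂, Pc, h₀, m, f, yy, ρ, ?_⟩, ?_⟩
  · refine e6_ucert_mono hU ?_
    have h1 : ∑ w ∈ Finset.range m, Real.log (Real.exp (u w)) = 0 := by
      rw [← hu]
      exact Finset.sum_congr rfl fun w _ => Real.log_exp _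
    have h2 : Real.log (2 * (C * ZZ κ n m u)) / n =
        Real.log (2 * C) / n + Real.log (ZZ κ n m u) / n := by
      rw [← mul_assoc, Real.log_mul (by positivity) hZ0.ne', add_div]
    rw [h1, h2]
    simp only [zero_div, sub_zero]
    linarith
  · obtain ⟨J, den, N, q, lm, tp, hL⟩ := lcert_of_min κ (ε / 4) hκ (by linarith) n m hn hm u hu hr
    exact ⟨2, 2 * m, J, den, N, q, lm, tp, e6_lcert_mono hL (by linarith)⟩

theorem e6_bdd {κ : ℝ} : BddBelow {V : ℝ | UAch κ V} := ⟨0, fun _ hV => uach_nonneg hV⟩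

theorem e6_nonempty {κ : ℝ} (hκ : 0 ≤ κ) : {V : ℝ | UAch κ V}.Nonempty := ⟨1, uach_one hκ⟩

theorem uach_Vst {κ : ℝ} (hκ : 0 ≤ κ) : UAch κ (Vst κ) := by
  intro ε hε
  have h1 : sInf {V : ℝ | UAch κ V} < Vst κ + ε / 2 := by
    show Vst κ < Vst κ + ε / 2
    linarith
  obtain ⟨V, hV, hlt⟩ := exists_lt_of_csInf_lt (e6_nonempty hκ) h1
  obtain ⟨R, P, h₀, m, f, y, ρ, hc⟩ := hV (ε / 2) (by linarith)
  exact ⟨R, P, h₀, m, f, y, ρ, e6_ucert_mono hc (by linarith)⟩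

theorem lach_Vst {κ : ℝ} (hκ : 0 < κ) : LAch κ (Vst κ) := by
  intro ε hε
  obtain ⟨v, hU, M, W, J, den, N, q, lm, tp, hL⟩ := exists_value κ (ε / 2) hκ (by linarith)
  have h1 : Vst κ ≤ v + ε / 2 := csInf_le e6_bdd hU
  exact ⟨M, W, J, den, N, q, lm, tp, e6_lcert_mono hL (by linarith)⟩

theorem Vst_mem {κ : ℝ} (hκ : 0 ≤ κ) : 0 ≤ Vst κ ∧ Vst κ ≤ 1 :=
  ⟨le_csInf (e6_nonempty hκ) fun _ hV => uach_nonneg hV, csInf_le e6_bdd (uach_one hκ)⟩

theorem Vst_anti {κ κ' : ℝ} (hκ : 0 ≤ κ) (h : κ ≤ κ') : Vst κ' ≤ Vst κ :=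
  csInf_le_csInf e6_bdd (e6_nonempty hκ) fun _ hV => UAch.mono hV h le_rfl

theorem Vst_large (ε : ℝ) (hε : 0 < ε) : ∃ κ₀ : ℝ, 0 < κ₀ ∧ ∀ κ, κ₀ ≤ κ → Vst κ ≤ ε := by
  obtain ⟨κ₀, hκ₀, hU⟩ := uach_small ε hε
  exact ⟨κ₀ + 1, by linarith, fun κ hκ => csInf_le e6_bdd (UAch.mono hU (by linarith) le_rfl)⟩

theorem Vst_small (ε : ℝ) (hε : 0 < ε) : ∃ κ₀ : ℝ, 0 < κ₀ ∧ ∀ κ, 0 ≤ κ → κ ≤ κ₀ →
    1 - ε ≤ Vst κ := by
  obtain ⟨κ₀, hκ₀, h⟩ := uach_near_one ε hε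
  exact ⟨κ₀, hκ₀, fun κ h0 h1 => le_csInf (e6_nonempty h0) fun V hV => h κ V h0 h1 hV⟩

end Pool.Agent.Lib.MP_8501c9_pr.Wide
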