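import Pool.Agent.Lib.MP_8501c9_pr.Wide.DefsV
import Pool.Agent.Lib.MP_8501c9_pr.Wide.Dual

/-!
# The value of the one-direction problem is the limit of the free energies
-/

set_option autoImplicit false
open Set

namespace Pool.Agent.Lib.MP_8501c9_pr.Wide

open Pool.Agent.Lib.MP_8501c9_pr Pool.Agent.Lib.MP_8501c9_pr.Mid

/-! ### the free energy is attained at the stationary point -/

theorem vl_log_ge {κ : ℝ} {n m : ℕ} (hn : 1 ≤ n) (hm : 1 ≤ m) {u : ℕ → ℝ}
    (hu : ∑ w ∈ Finset.range m, u w = 0)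
    (hr : ∀ w < m, ∑ A ∈ pats n m, pwt κ n m u A * kw m A w = (n : ℝ) / m * ZZ κ n m u)
    (v : ℕ → ℝ) :
    Real.log (ZZ κ n m u) / n ≤
      Real.log (ZZ κ n m v) / n - (∑ w ∈ Finset.range m, v w) / m := by
  have hn0 : (0 : ℝ) < n := by exact_mod_cast hn
  have hm0 : (0 : ℝ) < m := by exact_mod_cast hm
  have hZ := e3_ZZ_pos κ n m hm u
  have hZv := e3_ZZ_pos κ n m hm v
  set s : ℝ := (n : ℝ) / m * ∑ w ∈ Finset.range m, v w with hs
  have h1 : ∑ A ∈ pats n m, pwt κ n m u A * ∑ τ ∈ A, (v (τ % m) - u (τ % m)) =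
      s * ZZ κ n m u := by
    have h2 : ∀ A ∈ pats n m, pwt κ n m u A * ∑ τ ∈ A, (v (τ % m) - u (τ % m)) =
        ∑ w ∈ Finset.range m, (v w - u w) * (pwt κ n m u A * kw m A w) := by
      intro A _
      rw [e3_sum_mod hm A (fun w => v w - u w), Finset.mul_sum]
      exact Finset.sum_congr rfl fun w _ => by ring
    rw [Finset.sum_congr rfl h2, Finset.sum_comm]
    have h3 : ∀ w ∈ Finset.range m, ∑ A ∈ pats n m, (v w - u w) * (pwt κ n m u A * kw m A w) =
        (v w - u w) * ((n : ℝ) / m * ZZ κ n m u) := by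
      intro w hw
      rw [← Finset.mul_sum, hr w (Finset.mem_range.mp hw)]
    rw [Finset.sum_congr rfl h3, ← Finset.sum_mul, Finset.sum_sub_distrib, hu, hs]
    ring
  have h4 : ∀ A ∈ pats n m, pwt κ n m u A * Real.exp s *
      (1 + (∑ τ ∈ A, (v (τ % m) - u (τ % m)) - s)) ≤ pwt κ n m v A := by
    intro A _
    have h5 := e1_line κ n m u (fun w => v w - u w) 1 A
    have h6 : (fun w => u w + 1 * (v w - u w)) = v := by funext w; ring
    rw [h6, one_mul] at h5
    rw [h5, mul_assoc]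
    apply mul_le_mul_of_nonneg_left _ (e1_pwt_pos κ n m u A).le
    have h7 := Real.add_one_le_exp (∑ τ ∈ A, (v (τ % m) - u (τ % m)) - s)
    calc Real.exp s * (1 + (∑ τ ∈ A, (v (τ % m) - u (τ % m)) - s))
        ≤ Real.exp s * Real.exp (∑ τ ∈ A, (v (τ % m) - u (τ % m)) - s) :=
          mul_le_mul_of_nonneg_left (by linarith) (Real.exp_pos _).le
      _ = Real.exp (∑ τ ∈ A, (v (τ % m) - u (τ % m))) := by
          rw [← Real.exp_add]; congr 1; ring
  have h8 : ZZ κ n m u * Real.exp s ≤ ZZ κ n m v := by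
    have h9 := Finset.sum_le_sum h4
    have h10 : ∑ A ∈ pats n m, pwt κ n m u A * Real.exp s *
        (1 + (∑ τ ∈ A, (v (τ % m) - u (τ % m)) - s)) = ZZ κ n m u * Real.exp s := by
      have h12 : ∀ A ∈ pats n m, pwt κ n m u A * Real.exp s *
          (1 + (∑ τ ∈ A, (v (τ % m) - u (τ % m)) - s)) =
          Real.exp s * (1 - s) * pwt κ n m u A +
            Real.exp s * (pwt κ n m u A * ∑ τ ∈ A, (v (τ % m) - u (τ % m))) := by
        intro A _; ring
      rw [Finset.sum_congr rfl h12, Finset.sum_add_distrib, ← Finset.mul_sum, ← Finset.mul_sum, h1]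
      show Real.exp s * (1 - s) * ZZ κ n m u + Real.exp s * (s * ZZ κ n m u) =
        ZZ κ n m u * Real.exp s
      ring
    rw [h10] at h9
    exact h9
  have h11 := Real.log_le_log (mul_pos hZ (Real.exp_pos s)) h8
  rw [Real.log_mul hZ.ne' (Real.exp_pos _).ne', Real.log_exp] at h11
  rw [le_sub_iff_add_le]
  have h12 : (∑ w ∈ Finset.range m, v w) / m = s / n := by rw [hs]; field_simp
  rw [h12, ← add_div]
  exact div_le_div_of_nonneg_right h11 hn0.le

theorem vl_fe {κ : ℝ} {n m : ℕ} (hn : 1 ≤ n) (hm : 1 ≤ m) {u : ℕ → ℝ}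
    (hu : ∑ w ∈ Finset.range m, u w = 0)
    (hr : ∀ w < m, ∑ A ∈ pats n m, pwt κ n m u A * kw m A w = (n : ℝ) / m * ZZ κ n m u) :
    fe κ n m = Real.log (ZZ κ n m u) / n := by
  have h1 := vl_log_ge hn hm hu hr
  unfold fe
  apply le_antisymm
  · have h2 : BddBelow (Set.range fun v : ℕ → ℝ =>
        (Real.log (ZZ κ n m v) / n - (∑ w ∈ Finset.range m, v w) / m)) :=
      ⟨Real.log (ZZ κ n m u) / n, by rintro _ ⟨v, rfl⟩; exact h1 v⟩
    refine (ciInf_le h2 u).trans (le_of_eq ?_)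
    simp only [hu, zero_div, sub_zero]
  · exact le_ciInf h1

theorem vl_fe_le {κ : ℝ} (hκ : 0 < κ) {n m : ℕ} (hn : 1 ≤ n) (hm : 1 ≤ m) (v : ℕ → ℝ) :
    fe κ n m ≤ Real.log (ZZ κ n m v) / n - (∑ w ∈ Finset.range m, v w) / m := by
  obtain ⟨u, hu, hr, -⟩ := exists_min κ hκ n m hn hm
  rw [vl_fe hn hm hu hr]
  exact vl_log_ge hn hm hu hr v

theorem vl_fe_mem {κ : ℝ} (hκ : 0 < κ) {n m : ℕ} (hn : 1 ≤ n) (hm : 1 ≤ m) :
    0 ≤ fe κ n m ∧ fe κ n m ≤ 1 := by
  obtain ⟨u, hu, hr, -, -, -, -, hZ1, hZ2⟩ := exists_min κ hκ n m hn hm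
  have hn0 : (0 : ℝ) < n := by exact_mod_cast hn
  rw [vl_fe hn hm hu hr]
  constructor
  · exact div_nonneg (Real.log_nonneg hZ1) hn0.le
  · rw [div_le_one hn0]
    have h1 := Real.log_le_log (by linarith) hZ2
    rwa [Real.log_exp] at h1

/-! ### Riemann sums of step functions -/

theorem vl_riemann {F : ℝ → ℝ} {B : ℝ} {k m : ℕ} (hk : 1 ≤ k) (hm : 1 ≤ m)
    (hF : ∀ s s' : ℝ, ⌊(k : ℝ) * s⌋ = ⌊(k : ℝ) * s'⌋ → F s = F s') (hB : ∀ s, |F s| ≤ B) :
    |(∑ w ∈ Finset.range m, F ((w : ℝ) / m)) / m -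
      (∑ i ∈ Finset.range k, F ((i : ℝ) / k)) / k| ≤ k * B / m := by
  have hk0 : (0 : ℝ) < k := by exact_mod_cast hk
  have hm0 : (0 : ℝ) < m := by exact_mod_cast hm
  set a : ℕ → ℕ := fun i => ⌈(i : ℝ) * m / k⌉₊ with ha
  have ha1 : ∀ i : ℕ, (i : ℝ) * m / k ≤ a i := fun i => Nat.le_ceil _
  have ha2 : ∀ i : ℕ, (a i : ℝ) < (i : ℝ) * m / k + 1 := fun i =>
    Nat.ceil_lt_add_one (by positivity)
  have ha3 : ∀ i, a i ≤ a (i + 1) := by
    intro i
    apply Nat.ceil_le_ceil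
    have h1 : (i : ℝ) ≤ ((i + 1 : ℕ) : ℝ) := by push_cast; linarith
    gcongr
  have key : ∀ i, ∑ w ∈ Finset.range (a i), F ((w : ℝ) / m) =
      ∑ j ∈ Finset.range i, ((a (j + 1) : ℝ) - a j) * F ((j : ℝ) / k) := by
    intro i
    induction i with
    | zero => simp [ha]
    | succ i ih =>
      rw [Finset.sum_range_succ, ← ih, ← Finset.sum_range_add_sum_Ico _ (ha3 i)]
      congr 1
      have h1 : ∀ w ∈ Finset.Ico (a i) (a (i + 1)), F ((w : ℝ) / m) = F ((i : ℝ) / k) := by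
        intro w hw
        rw [Finset.mem_Ico] at hw
        have h2 : (i : ℝ) * m / k ≤ w := Nat.ceil_le.mp hw.1
        have h3 : (w : ℝ) < ((i + 1 : ℕ) : ℝ) * m / k := Nat.lt_ceil.mp hw.2
        apply hF
        have h4 : (k : ℝ) * ((i : ℝ) / k) = i := by field_simp
        rw [h4, Int.floor_natCast, Int.floor_eq_iff]
        rw [div_le_iff₀ hk0] at h2
        rw [lt_div_iff₀ hk0] at h3
        push_cast at h3 ⊢
        rw [← mul_div_assoc, le_div_iff₀ hm0, div_lt_iff₀ hm0]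
        constructor <;> linarith
      rw [Finset.sum_congr rfl h1, Finset.sum_const, Nat.card_Ico, nsmul_eq_mul,
        Nat.cast_sub (ha3 i)]
  have hak : a k = m := by
    have h1 : (k : ℝ) * m / k = m := by field_simp
    simp only [ha]
    rw [h1, Nat.ceil_natCast]
  have hkey := key k
  rw [hak] at hkey
  rw [hkey, Finset.sum_div, Finset.sum_div, ← Finset.sum_sub_distrib]
  refine (Finset.abs_sum_le_sum_abs _ _).trans ?_
  have h1 : ∀ i ∈ Finset.range k, |((a (i + 1) : ℝ) - a i) * F ((i : ℝ) / k) / m -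
      F ((i : ℝ) / k) / k| ≤ B / m := by
    intro i _
    have h2 : ((a (i + 1) : ℝ) - a i) * F ((i : ℝ) / k) / m - F ((i : ℝ) / k) / k =
        (((a (i + 1) : ℝ) - a i) - m / k) / m * F ((i : ℝ) / k) := by
      field_simp
    rw [h2, abs_mul, abs_div, abs_of_pos hm0]
    have h3 : |((a (i + 1) : ℝ) - a i) - m / k| ≤ 1 := by
      have h4 := ha1 i
      have h5 := ha2 i
      have h6 := ha1 (i + 1)
      have h7 := ha2 (i + 1)
      push_cast at h6 h7
      have h8 : ((i : ℝ) + 1) * m / k = (i : ℝ) * m / k + m / k := by ring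
      rw [h8] at h6 h7
      rw [abs_le]
      constructor <;> linarith
    have h9 : 0 ≤ B := (abs_nonneg _).trans (hB 0)
    calc |((a (i + 1) : ℝ) - a i) - m / k| / m * |F ((i : ℝ) / k)| ≤ 1 / m * B := by
          apply mul_le_mul _ (hB _) (abs_nonneg _) (by positivity)
          exact div_le_div_of_nonneg_right h3 hm0.le
      _ = B / m := by ring
  refine (Finset.sum_le_sum h1).trans (le_of_eq ?_)
  rw [Finset.sum_const, Finset.card_range, nsmul_eq_mul]
  ring

/-! ### the upper bound -/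

theorem vl_upper {κ V R P h₀ : ℝ} {k : ℕ} {f : ℝ → ℤ → ℝ} {y : ℝ → ℝ} {ρ : ℝ} (hκ : 0 < κ)
    (h : UCert κ V R P h₀ k f y ρ) {n m : ℕ} (hn : 1 ≤ n) (hm : 1 ≤ m) (hmh : 1 / (m : ℝ) ≤ h₀) :
    fe κ n m ≤ V + Real.log R / n + k * Real.log R / m := by
  have hn0 : (0 : ℝ) < n := by exact_mod_cast hn
  have hm0 : (0 : ℝ) < m := by exact_mod_cast hm
  have hR : 1 ≤ R := (h.f_ge 0 0).trans (h.f_le 0 0)
  have hR0 : 0 < R := by linarith
  have hy0 : ∀ s, 0 < y s := fun s => lt_of_lt_of_le (by positivity) (h.y_ge s)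
  set u : ℕ → ℝ := fun w => Real.log (y ((w : ℝ) / m)) with hudef
  set Pc : ℝ := max P (κ * (n * (n + 1))) with hPc
  have hPc1 : P ≤ Pc := le_max_left _ _
  have hPc2 : κ * (n * (n + 1)) ≤ Pc := le_max_right _ _
  set c : ℕ → ℝ := fun w => Real.exp (u w) / m with hc
  have hceq : ∀ w, c w = 1 / m * y ((w : ℝ) / m) := by
    intro w
    simp only [hc, hudef]
    rw [Real.exp_log (hy0 _)]
    ring
  have hc0 : ∀ s, 0 ≤ c (m - (s + 1)) := fun s => by
    rw [hceq]
    have := hy0 (((m - (s + 1) : ℕ) : ℝ) / m)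
    positivity
  have hKw : ∀ r, r ≤ m → ∀ j, Kw (Pcap κ Pc) m c r (f 0) j ≤
      Real.exp ((r : ℝ) / m * ρ) * f (((m : ℝ) - r) / m) j := by
    intro r
    induction r with
    | zero =>
      intro _ j
      have h1 := h.shift (j - 1)
      have h2 : ((m : ℝ) - (0 : ℕ)) / m = 1 := by
        rw [Nat.cast_zero, sub_zero, div_self hm0.ne']
      rw [h2]
      rw [sub_add_cancel] at h1
      simpa [Kw] using h1
    | succ r ih =>
      intro hr j
      have ih' := ih (by omega)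
      have hE : 0 < Real.exp ((r : ℝ) / m * ρ) := Real.exp_pos _
      set s : ℝ := ((m - (r + 1) : ℕ) : ℝ) / m with hs
      have hs1 : s = ((m : ℝ) - (r + 1 : ℕ)) / m := by
        rw [hs, Nat.cast_sub hr]
      have hs2 : s + 1 / m = ((m : ℝ) - r) / m := by
        rw [hs1]
        push_cast
        field_simp
        ring
      have hs0 : 0 ≤ s := by positivity
      have hs3 : s + 1 / m ≤ 1 := by
        rw [hs2, div_le_one hm0]
        have : (0 : ℝ) ≤ r := Nat.cast_nonneg r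
        linarith
      have hst := h.step s (1 / m) j hs0 (by positivity) hmh hs3
      rw [hs2] at hst
      set G : ℤ → ℝ := f (((m : ℝ) - r) / m) with hG
      have hG0 : ∀ i, 0 < G i := fun i => lt_of_lt_of_le one_pos (h.f_ge _ i)
      show Real.exp (-(Pcap κ Pc j / m)) * (Kw (Pcap κ Pc) m c r (f 0) j +
        c (m - (r + 1)) * Kw (Pcap κ Pc) m c r (f 0) (j + 1)) ≤ _
      rw [← hs1, hceq (m - (r + 1)), ← hs]
      have h3 : Kw (Pcap κ Pc) m c r (f 0) j +
          1 / m * y s * Kw (Pcap κ Pc) m c r (f 0) (j + 1) ≤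
          Real.exp ((r : ℝ) / m * ρ) * (G j + 1 / m * y s * G (j + 1)) := by
        have h4 := ih' j
        have h5 := mul_le_mul_of_nonneg_left (ih' (j + 1))
          (by have := hy0 s; positivity : (0 : ℝ) ≤ 1 / m * y s)
        calc _ ≤ Real.exp ((r : ℝ) / m * ρ) * G j +
              1 / m * y s * (Real.exp ((r : ℝ) / m * ρ) * G (j + 1)) := add_le_add h4 h5
          _ = _ := by ring
      have h6 : G j + 1 / m * y s * G (j + 1) ≤
          G j * Real.exp (1 / m * y s * (G (j + 1) / G j)) := by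
        have h7 := Real.add_one_le_exp (1 / m * y s * (G (j + 1) / G j))
        calc G j + 1 / m * y s * G (j + 1) = G j * (1 / m * y s * (G (j + 1) / G j) + 1) := by
              have := (hG0 j).ne'
              field_simp
              ring
          _ ≤ _ := mul_le_mul_of_nonneg_left h7 (hG0 j).le
      have h8 : min (κ * (j * (j - 1))) P ≤ Pcap κ Pc j := by
        unfold Pcap
        exact min_le_min le_rfl hPc1
      calc Real.exp (-(Pcap κ Pc j / m)) * (Kw (Pcap κ Pc) m c r (f 0) j +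
            1 / m * y s * Kw (Pcap κ Pc) m c r (f 0) (j + 1))
          ≤ Real.exp (-(Pcap κ Pc j / m)) * (Real.exp ((r : ℝ) / m * ρ) *
            (Real.exp (1 / m * (ρ + min (κ * (j * (j - 1))) P)) * f s j)) := by
            apply mul_le_mul_of_nonneg_left _ (Real.exp_pos _).le
            refine h3.trans (mul_le_mul_of_nonneg_left (h6.trans hst) hE.le)
        _ = Real.exp (-(Pcap κ Pc j / m) + (r : ℝ) / m * ρ +
            1 / m * (ρ + min (κ * (j * (j - 1))) P)) * f s j := by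
            rw [Real.exp_add, Real.exp_add]
            ring
        _ ≤ Real.exp (((r + 1 : ℕ) : ℝ) / m * ρ) * f s j := by
            apply mul_le_mul_of_nonneg_right _ (by linarith [h.f_ge s j])
            apply Real.exp_le_exp.mpr
            have h9 : 1 / m * min (κ * (j * (j - 1))) P ≤ 1 / m * Pcap κ Pc j :=
              mul_le_mul_of_nonneg_left h8 (by positivity)
            have h10 : ((r + 1 : ℕ) : ℝ) / m * ρ = (r : ℝ) / m * ρ + 1 / m * ρ := by
              push_cast; ring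
            have h11 : Pcap κ Pc j / m = 1 / m * Pcap κ Pc j := by ring
            rw [h10, h11]
            linarith
  have hKop : ∀ j, Kop (Pcap κ Pc) m c (f 0) j ≤ Real.exp ρ * f 0 j := by
    intro j
    have h1 := hKw m le_rfl j
    rw [div_self hm0.ne', one_mul, sub_self, zero_div] at h1
    exact h1
  have hmono : ∀ g g' : ℤ → ℝ, (∀ j, g j ≤ g' j) →
      ∀ j, Kop (Pcap κ Pc) m c g j ≤ Kop (Pcap κ Pc) m c g' j := fun g g' hg j =>
    e4b_Kw_mono _ m c hc0 g g' hg m j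
  have hscale : ∀ (b : ℝ) (g : ℤ → ℝ) (j : ℤ),
      Kop (Pcap κ Pc) m c (fun i => b * g i) j = b * Kop (Pcap κ Pc) m c g j := by
    intro b g j
    have h1 := congrFun (e4b_Kw_lin (Pcap κ Pc) m c b 0 g g m) j
    have h2 : (fun i => b * g i + 0 * g i) = fun i => b * g i := by funext i; ring
    rw [h2] at h1
    show Kw (Pcap κ Pc) m c m (fun i => b * g i) j = b * Kw (Pcap κ Pc) m c m g j
    rw [h1]
    ring
  have hiter : ∀ N : ℕ, ∀ j, ((Kop (Pcap κ Pc) m c)^[N] (fun j => if j = 0 then 1 else 0)) j ≤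
      Real.exp (N * ρ) * f 0 j := by
    intro N
    induction N with
    | zero =>
      intro j
      rw [Function.iterate_zero, id, Nat.cast_zero, zero_mul, Real.exp_zero, one_mul]
      have := h.f_ge 0 j
      split_ifs <;> linarith
    | succ N ih =>
      intro j
      rw [Function.iterate_succ_apply']
      refine (hmono _ _ ih j).trans ?_
      rw [hscale]
      calc Real.exp (N * ρ) * Kop (Pcap κ Pc) m c (f 0) j
          ≤ Real.exp (N * ρ) * (Real.exp ρ * f 0 j) :=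
            mul_le_mul_of_nonneg_left (hKop j) (Real.exp_pos _).le
        _ = Real.exp (((N + 1 : ℕ) : ℝ) * ρ) * f 0 j := by
            rw [← mul_assoc, ← Real.exp_add]
            push_cast
            ring_nf
  have hZ : ZZ κ n m u ≤ Real.exp (n * ρ) * R := by
    rw [← kop_eq_ZZ κ Pc hκ.le n m hm hPc2 u]
    refine (hiter n 0).trans (mul_le_mul_of_nonneg_left (h.f_le 0 0) (Real.exp_pos _).le)
  have hlog : Real.log (ZZ κ n m u) ≤ n * ρ + Real.log R := by
    have h1 := Real.log_le_log (e3_ZZ_pos κ n m hm u) hZ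
    rwa [Real.log_mul (Real.exp_pos _).ne' hR0.ne', Real.log_exp] at h1
  have hfe := vl_fe_le hκ hn hm u
  have hrie := vl_riemann (F := fun s => Real.log (y s)) (B := Real.log R) h.m_pos hm
    (fun s s' hss => by
      show Real.log (y s) = Real.log (y s')
      rw [h.y_const s s' hss])
    (fun s => by
      show |Real.log (y s)| ≤ Real.log R
      rw [abs_le]
      constructor
      · have h1 := Real.log_le_log (by positivity) (h.y_ge s)
        rw [one_div, Real.log_inv] at h1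
        exact h1
      · exact Real.log_le_log (hy0 s) (h.y_le s))
  rw [abs_le] at hrie
  have hval := h.value
  have h1 : Real.log (ZZ κ n m u) / n ≤ ρ + Real.log R / n := by
    rw [div_le_iff₀ hn0]
    refine hlog.trans (le_of_eq ?_)
    field_simp
  have h2 := hrie.1
  have h3 : (∑ w ∈ Finset.range m, u w) / m =
      (∑ w ∈ Finset.range m, Real.log (y ((w : ℝ) / m))) / m := rfl
  rw [h3] at hfe
  linarith

/-! ### the lower bound -/

theorem vl_lower (κ ε : ℝ) (hκ : 0 < κ) (hε : 0 < ε) : ∃ n₀ : ℕ, 1 ≤ n₀ ∧ ∀ n, n₀ ≤ n →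
    ∃ m₀ : ℕ, ∀ m, m₀ ≤ m → Vst κ ≤ fe κ n m + ε := by
  obtain ⟨C, hC1, P₀, c₀, hc₀, hker⟩ := kernel_bound κ hκ
  obtain ⟨N, hN⟩ := exists_nat_ge (4 * Real.log (2 * C) / ε)
  refine ⟨N + 1, by omega, fun n hnN => ?_⟩
  have hn : 1 ≤ n := by omega
  have hn0 : (0 : ℝ) < n := by exact_mod_cast hn
  have hnε : Real.log (2 * C) / n ≤ ε / 4 := by
    rw [div_le_iff₀ hn0]
    rw [div_le_iff₀ hε] at hN
    have h1 : (N : ℝ) + 1 ≤ n := by exact_mod_cast hnN
    have h2 : (N : ℝ) * ε ≤ n * ε := mul_le_mul_of_nonneg_right (by linarith) hε.le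
    linarith
  set Pc : ℝ := max P₀ (κ * (n * (n + 1))) with hPcdef
  have hPc1 : P₀ ≤ Pc := le_max_left _ _
  have hPc2 : κ * (n * (n + 1)) ≤ Pc := le_max_right _ _
  have hPc0 : 0 ≤ Pc := le_trans (by positivity) hPc2
  set B : ℝ := 2 * κ * n with hB
  have hB0 : 0 ≤ B := by positivity
  have hexpB : 1 ≤ Real.exp B := Real.one_le_exp hB0
  set R : ℝ := Real.exp B * (1 + B) + C * Real.exp n with hR
  have hR0 : 0 ≤ C * Real.exp n := by positivity
  have hR1 : Real.exp B ≤ R := by nlinarith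
  have hR2 : Real.exp B * B ≤ R := by nlinarith
  have hR3 : C * Real.exp n ≤ R := by
    have : 0 ≤ Real.exp B * (1 + B) := by positivity
    linarith
  have hR4 : 1 ≤ R := hexpB.trans hR1
  obtain ⟨m₀, hm₀⟩ := ucert_of_kernel κ Pc R (ε / 4) hκ.le hPc0 hR4 (by linarith) n hn
  obtain ⟨m₁, hm₁⟩ := exists_nat_ge (Real.exp B / c₀)
  refine ⟨m₀ + 1 + m₁, fun m hmm => ?_⟩
  have hmm₀ : m₀ ≤ m := by omega
  have hm : 1 ≤ m := by omega
  have hm0 : (0 : ℝ) < m := by exact_mod_cast hm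
  have hmc : Real.exp B / m ≤ c₀ := by
    rw [div_le_iff₀ hm0]
    rw [div_le_iff₀ hc₀] at hm₁
    have h1 : (m₁ : ℝ) ≤ m := by exact_mod_cast (by omega : m₁ ≤ m)
    have h2 : (m₁ : ℝ) * c₀ ≤ m * c₀ := mul_le_mul_of_nonneg_right h1 hc₀.le
    linarith
  obtain ⟨u, hu, hr, hstep, hbd, hs1, hs2, hZ1, hZ2⟩ := exists_min κ hκ n m hn hm
  have hZ0 : 0 < ZZ κ n m u := by linarith
  have hub : ∀ w < m, u w ≤ B := fun w hw => (abs_le.1 (hbd w hw)).2
  have hlb : ∀ w < m, -B ≤ u w := fun w hw => (abs_le.1 (hbd w hw)).1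
  obtain ⟨R₂, h₀, f, yy, ρ, hU⟩ := hm₀ m (fun w => Real.exp (u w)) (C * ZZ κ n m u) hmm₀
    (fun w hw => by
      constructor
      · have h1 : 1 / R ≤ 1 / Real.exp B := one_div_le_one_div_of_le (Real.exp_pos _) hR1
        have h2 : 1 / Real.exp B = Real.exp (-B) := by rw [Real.exp_neg, one_div]
        rw [h2] at h1
        exact h1.trans (Real.exp_le_exp.2 (hlb w hw))
      · exact (Real.exp_le_exp.2 (hub w hw)).trans hR1)
    (fun w hw => by
      have h1 := e6_exp_sub (hub (w + 1) hw) (hub w (by omega))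
      have h2 := hstep w hw
      calc |Real.exp (u (w + 1)) - Real.exp (u w)| ≤ Real.exp B * |u (w + 1) - u w| := h1
        _ ≤ Real.exp B * (B / m) := by gcongr
        _ = Real.exp B * B / m := by ring
        _ ≤ R / m := by gcongr)
    (by nlinarith)
    (by
      calc C * ZZ κ n m u ≤ C * Real.exp n := by gcongr
        _ ≤ R := hR3)
    (fun i => by
      have h1 := hker Pc n m (fun w => Real.exp (u w) / m) hPc1 hm
        (fun w _ => by positivity)
        (fun w hw => by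
          refine le_trans ?_ hmc
          have := Real.exp_le_exp.2 (hub w hw)
          gcongr) hs1 hs2 i
      rwa [kop_eq_ZZ κ Pc hκ.le n m hm hPc2 u] at h1)
  rw [vl_fe hn hm hu hr]
  refine csInf_le e6_bdd ?_
  intro ε' hε'
  refine ⟨R₂, Pc, h₀, m, f, yy, ρ, e6_ucert_mono hU ?_⟩
  have h1 : ∑ w ∈ Finset.range m, Real.log (Real.exp (u w)) = 0 := by
    rw [← hu]
    exact Finset.sum_congr rfl fun w _ => Real.log_exp _
  have h2 : Real.log (2 * (C * ZZ κ n m u)) / n =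
      Real.log (2 * C) / n + Real.log (ZZ κ n m u) / n := by
    rw [← mul_assoc, Real.log_mul (by positivity) hZ0.ne', add_div]
  rw [h1, h2]
  simp only [zero_div, sub_zero]
  linarith

/-! ### the limit -/

theorem vl_limsup {g : ℕ → ℝ} {A B : ℝ} (hA : ∀ᶠ n in Filter.atTop, A ≤ g n)
    (hB : ∀ᶠ n in Filter.atTop, g n ≤ B) :
    A ≤ Filter.limsup g Filter.atTop ∧ Filter.limsup g Filter.atTop ≤ B := by
  have h1 : Filter.IsBoundedUnder (· ≤ ·) Filter.atTop g := ⟨B, Filter.eventually_map.2 hB⟩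
  have h2 : Filter.IsBoundedUnder (· ≥ ·) Filter.atTop g := ⟨A, Filter.eventually_map.2 hA⟩
  constructor
  · refine Filter.le_limsup_of_le h1 fun b hb => ?_
    obtain ⟨n, hn1, hn2⟩ := (hA.and hb).exists
    exact hn1.trans hn2
  · exact Filter.limsup_le_of_le h2.isCoboundedUnder_le hB

theorem vl_inner_mem {κ : ℝ} (hκ : 0 < κ) {n : ℕ} (hn : 1 ≤ n) :
    0 ≤ Filter.limsup (fun m : ℕ => fe κ n m) Filter.atTop ∧
      Filter.limsup (fun m : ℕ => fe κ n m) Filter.atTop ≤ 1 :=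
  vl_limsup (Filter.eventually_atTop.2 ⟨1, fun _ hm => (vl_fe_mem hκ hn hm).1⟩)
    (Filter.eventually_atTop.2 ⟨1, fun _ hm => (vl_fe_mem hκ hn hm).2⟩)

theorem Vlim_eq {κ : ℝ} (hκ : 0 < κ) : Vlim κ = Vst κ := by
  apply le_antisymm
  · apply le_of_forall_pos_le_add
    intro ε hε
    obtain ⟨R, P, h₀, k, f, y, ρ, hc⟩ := uach_Vst hκ.le (ε / 3) (by linarith)
    have hR : 1 ≤ R := (hc.f_ge 0 0).trans (hc.f_le 0 0)
    have hlR : 0 ≤ Real.log R := Real.log_nonneg hR
    have hh := hc.h_pos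
    obtain ⟨N, hN⟩ := exists_nat_ge (3 * Real.log R / ε)
    refine (vl_limsup (A := 0) (B := Vst κ + ε)
      (Filter.eventually_atTop.2 ⟨1, fun n hn => (vl_inner_mem hκ hn).1⟩)
      (Filter.eventually_atTop.2 ⟨N + 1, fun n hnN => ?_⟩)).2
    have hn : 1 ≤ n := by omega
    have hn0 : (0 : ℝ) < n := by exact_mod_cast hn
    have h1 : Real.log R / n ≤ ε / 3 := by
      rw [div_le_iff₀ hn0]
      rw [div_le_iff₀ hε] at hN
      have h2 : (N : ℝ) ≤ n := by exact_mod_cast (by omega : N ≤ n)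
      have h3 : (N : ℝ) * ε ≤ n * ε := mul_le_mul_of_nonneg_right h2 hε.le
      linarith
    obtain ⟨M₁, hM₁⟩ := exists_nat_ge (1 / h₀)
    obtain ⟨M₂, hM₂⟩ := exists_nat_ge (3 * (k * Real.log R) / ε)
    refine (vl_limsup (A := 0) (B := Vst κ + ε)
      (Filter.eventually_atTop.2 ⟨1, fun m hm => (vl_fe_mem hκ hn hm).1⟩)
      (Filter.eventually_atTop.2 ⟨M₁ + M₂ + 1, fun m hmM => ?_⟩)).2
    have hm : 1 ≤ m := by omega
    have hm0 : (0 : ℝ) < m := by exact_mod_cast hm
    have h4 : 1 / (m : ℝ) ≤ h₀ := by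
      rw [div_le_iff₀ hm0]
      rw [div_le_iff₀ hh] at hM₁
      have h2 : (M₁ : ℝ) ≤ m := by exact_mod_cast (by omega : M₁ ≤ m)
      have h3 : (M₁ : ℝ) * h₀ ≤ m * h₀ := mul_le_mul_of_nonneg_right h2 hh.le
      linarith
    have h5 : k * Real.log R / m ≤ ε / 3 := by
      rw [div_le_iff₀ hm0]
      rw [div_le_iff₀ hε] at hM₂
      have h2 : (M₂ : ℝ) ≤ m := by exact_mod_cast (by omega : M₂ ≤ m)
      have h3 : (M₂ : ℝ) * ε ≤ m * ε := mul_le_mul_of_nonneg_right h2 hε.le
      linarith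
    have h6 := vl_upper hκ hc hn hm h4
    linarith
  · apply le_of_forall_pos_le_add
    intro ε hε
    obtain ⟨n₀, hn₀, hlow⟩ := vl_lower κ ε hκ hε
    have h1 : Vst κ - ε ≤ Vlim κ := by
      refine (vl_limsup (A := Vst κ - ε) (B := 1)
        (Filter.eventually_atTop.2 ⟨n₀, fun n hn => ?_⟩)
        (Filter.eventually_atTop.2 ⟨1, fun n hn => (vl_inner_mem hκ hn).2⟩)).1
      obtain ⟨m₀, hm₀⟩ := hlow n hn
      refine (vl_limsup (A := Vst κ - ε) (B := 1)
        (Filter.eventually_atTop.2 ⟨m₀, fun m hm => ?_⟩)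
        (Filter.eventually_atTop.2 ⟨1, fun m hm => (vl_fe_mem hκ (hn₀.trans hn) hm).2⟩)).1
      have := hm₀ m hm
      linarith
    linarith

end Pool.Agent.Lib.MP_8501c9_pr.Wide
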