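import Pool.Agent.Lib.MP_8501c9_pr.Wide.Dual
import Pool.Agent.Lib.MP_8501c9_pr.Wide.PcLower
import Pool.Agent.Lib.MP_8501c9_pr.Wide.PcUpper

/-!
# The critical probability for `1 ≪ a ≪ d`

Task E7 of the wide window of `MP_8501c9_pr`: approximation of the value function by step
functions.
-/

set_option autoImplicit false
open Set

namespace Pool.Agent.Lib.MP_8501c9_pr.Wide

open Pool.Agent.Lib.MP_8501c9_pr Pool.Agent.Lib.MP_8501c9_pr.Mid

/-! ## The index of the step function -/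

theorem e7_gidx (J : ℕ) (γ : ℕ → ℝ) (hγ : Monotone γ) (g : ℝ) :
    gidx J γ g ≤ J ∧ ∀ i < J, (γ i < g ↔ i < gidx J γ g) := by
  classical
  have hex : ∃ k, k = J ∨ (k < J ∧ g ≤ γ k) := ⟨J, Or.inl rfl⟩
  obtain ⟨k, hk, hmin⟩ : ∃ k, (k = J ∨ (k < J ∧ g ≤ γ k)) ∧
      ∀ q < k, ¬ (q = J ∨ (q < J ∧ g ≤ γ q)) :=
    ⟨Nat.find hex, Nat.find_spec hex, fun q hq => Nat.find_min hex hq⟩
  have hkJ : k ≤ J := by rcases hk with h | h <;> omega
  have key : ∀ i < J, (γ i < g ↔ i < k) := by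
    intro i hi
    constructor
    · intro h
      by_contra hcon
      rcases hk with hk | ⟨hk1, hk2⟩
      · omega
      · exact absurd (le_trans hk2 (hγ (not_lt.mp hcon))) (not_le.mpr h)
    · intro h
      by_contra hcon
      exact hmin i h (Or.inr ⟨hi, not_lt.mp hcon⟩)
  have hcard : gidx J γ g = k := by
    unfold gidx
    have : (Finset.range J).filter (fun i => γ i < g) = Finset.range k := by
      ext i
      simp only [Finset.mem_filter, Finset.mem_range]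
      constructor
      · rintro ⟨h1, h2⟩
        exact (key i h1).mp h2
      · intro h
        have h1 : i < J := by omega
        exact ⟨h1, (key i h1).mpr h⟩
    convert Finset.card_range k using 2
  rw [hcard]
  exact ⟨hkJ, key⟩

theorem e7_gidx_mono (J : ℕ) (γ : ℕ → ℝ) {g g' : ℝ} (h : g ≤ g') :
    gidx J γ g ≤ gidx J γ g' := by
  unfold gidx
  apply Finset.card_le_card
  intro i hi
  rw [Finset.mem_filter] at hi ⊢
  exact ⟨hi.1, lt_of_lt_of_le hi.2 h⟩

theorem e7_gidx_le (J : ℕ) (γ : ℕ → ℝ) (g : ℝ) : gidx J γ g ≤ J := by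
  unfold gidx
  refine (Finset.card_filter_le _ _).trans ?_
  rw [Finset.card_range]

theorem e7_VU_mono (J : ℕ) (γ V : ℕ → ℝ) (hV : Monotone V) (hV1 : ∀ i, V i ≤ 1) :
    Monotone (VU J γ V) := by
  intro g g' h
  have h1 := e7_gidx_mono J γ h
  unfold VU
  split_ifs with h2 h3 h3
  · exact hV h1
  · exact hV1 _
  · omega
  · exact le_refl _

theorem e7_VU_mem (J : ℕ) (γ V : ℕ → ℝ) (hV0 : ∀ i, 0 ≤ V i) (hV1 : ∀ i, V i ≤ 1) (g : ℝ) :
    0 ≤ VU J γ V g ∧ VU J γ V g ≤ 1 := by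
  unfold VU
  split_ifs with h
  · exact ⟨hV0 _, hV1 _⟩
  · exact ⟨zero_le_one, le_refl _⟩

theorem e7_VL_mono (J : ℕ) (γ V : ℕ → ℝ) (hV : Monotone V) (hV0 : ∀ i, 0 ≤ V i) :
    Monotone (VL J γ V) := by
  intro g g' h
  have h1 := e7_gidx_mono J γ h
  unfold VL
  split_ifs with h2 h3 h3
  · exact le_refl _
  · exact hV0 _
  · omega
  · exact hV (by omega)

theorem e7_VL_mem (J : ℕ) (γ V : ℕ → ℝ) (hV0 : ∀ i, 0 ≤ V i) (hV1 : ∀ i, V i ≤ 1) (g : ℝ) :
    0 ≤ VL J γ V g ∧ VL J γ V g ≤ 1 := by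
  unfold VL
  split_ifs with h
  · exact ⟨le_refl _, zero_le_one⟩
  · exact ⟨hV0 _, hV1 _⟩

/-! ## Averages under dilation -/

theorem e7_dil (F G : ℝ → ℝ) (hF : Monotone F) (hG : Monotone G)
    (hG0 : ∀ x, 0 ≤ G x) (hG1 : ∀ x, G x ≤ 1) (lam θ : ℝ) (hlam : 1 ≤ lam)
    (hFG : ∀ g, 0 < g → F g ≤ G (lam * g) + θ) (a s : ℝ) (ha : 0 < a) (hs : 0 < s) :
    (∫ u in (0 : ℝ)..a, F (u / s)) / a ≤ (∫ u in (0 : ℝ)..a, G (u / s)) / a + (lam - 1) + θ := by
  have hlam0 : 0 < lam := by linarith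
  have hmF : Monotone (fun u : ℝ => F (u / s)) :=
    fun x y h => hF (div_le_div_of_nonneg_right h hs.le)
  have hmG : Monotone (fun u : ℝ => G (u / s)) :=
    fun x y h => hG (div_le_div_of_nonneg_right h hs.le)
  have hmG2 : Monotone (fun u : ℝ => G (lam * u / s)) :=
    fun x y h => hG (div_le_div_of_nonneg_right (mul_le_mul_of_nonneg_left h hlam0.le) hs.le)
  have hiF : ∀ x y : ℝ, IntervalIntegrable (fun u : ℝ => F (u / s)) MeasureTheory.volume x y :=
    fun x y => hmF.intervalIntegrable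
  have hiG : ∀ x y : ℝ, IntervalIntegrable (fun u : ℝ => G (u / s)) MeasureTheory.volume x y :=
    fun x y => hmG.intervalIntegrable
  have hiG2 : ∀ x y : ℝ,
      IntervalIntegrable (fun u : ℝ => G (lam * u / s)) MeasureTheory.volume x y :=
    fun x y => hmG2.intervalIntegrable
  have h1 : (∫ u in (0 : ℝ)..a, F (u / s)) ≤ ∫ u in (0 : ℝ)..a, (G (lam * u / s) + θ) := by
    apply intervalIntegral.integral_mono_on_of_le_Ioo ha.le (hiF _ _)
      ((hiG2 _ _).add intervalIntegrable_const)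
    intro u hu
    have h := hFG (u / s) (div_pos hu.1 hs)
    rw [← mul_div_assoc] at h
    exact h
  have h2 : (∫ u in (0 : ℝ)..a, (G (lam * u / s) + θ)) =
      (∫ u in (0 : ℝ)..a, G (lam * u / s)) + θ * a := by
    rw [intervalIntegral.integral_add (hiG2 _ _) intervalIntegrable_const,
      intervalIntegral.integral_const, sub_zero, smul_eq_mul, mul_comm a θ]
  have h3 : (∫ u in (0 : ℝ)..a, G (lam * u / s)) =
      lam⁻¹ * ∫ u in (0 : ℝ)..(lam * a), G (u / s) := by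
    have h := intervalIntegral.integral_comp_mul_left (a := 0) (b := a)
      (fun u : ℝ => G (u / s)) (ne_of_gt hlam0)
    rw [mul_zero, smul_eq_mul] at h
    exact h
  have h4 : (∫ u in (0 : ℝ)..(lam * a), G (u / s)) =
      (∫ u in (0 : ℝ)..a, G (u / s)) + ∫ u in a..(lam * a), G (u / s) :=
    (intervalIntegral.integral_add_adjacent_intervals (hiG _ _) (hiG _ _)).symm
  have hala : a ≤ lam * a := by nlinarith
  have h5 : (∫ u in a..(lam * a), G (u / s)) ≤ (lam - 1) * a := by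
    have h := intervalIntegral.integral_mono_on hala (hiG a (lam * a))
      (intervalIntegrable_const (c := (1 : ℝ))) (fun u _ => hG1 (u / s))
    rw [intervalIntegral.integral_const, smul_eq_mul, mul_one] at h
    linarith
  have h6 : 0 ≤ ∫ u in (0 : ℝ)..(lam * a), G (u / s) :=
    intervalIntegral.integral_nonneg (by positivity) (fun u _ => hG0 _)
  have h7 : lam⁻¹ * (∫ u in (0 : ℝ)..(lam * a), G (u / s)) ≤
      ∫ u in (0 : ℝ)..(lam * a), G (u / s) := by
    have : lam⁻¹ ≤ 1 := inv_le_one_of_one_le₀ hlam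
    exact mul_le_of_le_one_left h6 this
  have h8 : (∫ u in (0 : ℝ)..a, F (u / s)) ≤
      (∫ u in (0 : ℝ)..a, G (u / s)) + ((lam - 1) + θ) * a := by
    rw [h2, h3] at h1
    linarith
  rw [div_le_iff₀ ha]
  have h9 : ((∫ u in (0 : ℝ)..a, G (u / s)) / a + (lam - 1) + θ) * a =
      (∫ u in (0 : ℝ)..a, G (u / s)) + ((lam - 1) + θ) * a := by
    field_simp
    ring
  rw [h9]
  exact h8

/-- the value function on the positive reals -/
noncomputable def e7_W (g : ℝ) : ℝ := if g ≤ 0 then 0 else Vst (1 / (4 * g ^ 2))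

theorem e7_W_pos {g : ℝ} (hg : 0 < g) : e7_W g = Vst (1 / (4 * g ^ 2)) := by
  unfold e7_W
  rw [if_neg (not_le.mpr hg)]

theorem e7_W_mem (g : ℝ) : 0 ≤ e7_W g ∧ e7_W g ≤ 1 := by
  unfold e7_W
  split_ifs
  · exact ⟨le_refl _, zero_le_one⟩
  · exact Vst_mem (by positivity)

theorem e7_W_mono : Monotone e7_W := by
  intro x y h
  rcases le_or_gt x 0 with hx | hx
  · have h1 : e7_W x = 0 := by unfold e7_W; rw [if_pos hx]
    rw [h1]
    exact (e7_W_mem y).1
  · have hy : 0 < y := lt_of_lt_of_le hx h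
    rw [e7_W_pos hx, e7_W_pos hy]
    apply Vst_anti (by positivity)
    apply one_div_le_one_div_of_le (by positivity)
    have : x ^ 2 ≤ y ^ 2 := pow_le_pow_left₀ hx.le h 2
    linarith

theorem e7_avW_eq (a : ℝ) (ha : 0 < a) (d : ℕ) (hd : 1 ≤ d) :
    avW (fun g => Vst (1 / (4 * g ^ 2))) a d = (∫ u in (0 : ℝ)..a, e7_W (u / Real.sqrt d)) / a := by
  unfold avW
  congr 1
  rw [intervalIntegral.integral_of_le ha.le, intervalIntegral.integral_of_le ha.le]
  apply MeasureTheory.setIntegral_congr_fun measurableSet_Ioc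
  intro u hu
  have hs : 0 < Real.sqrt d := Real.sqrt_pos.mpr (by exact_mod_cast hd)
  dsimp only
  rw [e7_W_pos (div_pos hu.1 hs)]

/-! ## The grid -/

theorem e7_grid (θ δ : ℝ) (hθ : 0 < θ) (hδ0 : 0 < δ) (hδ1 : δ ≤ 1 / 4) :
    ∃ (J : ℕ) (γ : ℕ → ℝ), (∀ i, 0 < γ i) ∧ StrictMono γ ∧
      (∀ g, 0 < g → VU J γ (fun i => Vst ((1 - 2 * δ) / (4 * γ i ^ 2))) g ≤
        e7_W ((1 + 8 * δ) * g) + θ) ∧
      (∀ g, 0 < g → e7_W g ≤
        VL J γ (fun i => Vst ((1 + δ) / (4 * γ i ^ 2))) ((1 + 8 * δ) * g) + θ) := by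
  obtain ⟨κ₁, hκ₁, hlarge⟩ := Vst_large θ hθ
  obtain ⟨κ₂, hκ₂, hsmall⟩ := Vst_small θ hθ
  set g₀ : ℝ := 1 / (8 * κ₁ + 1) with hg₀
  have hg₀0 : 0 < g₀ := by positivity
  have hg₀1 : g₀ ≤ 1 := by
    rw [hg₀, div_le_one (by positivity)]
    linarith
  have hg₀2 : 8 * g₀ ^ 2 * κ₁ ≤ 1 := by
    have h1 : g₀ ^ 2 ≤ g₀ := by
      rw [sq]
      exact mul_le_of_le_one_left hg₀0.le hg₀1
    have h2 : g₀ * (8 * κ₁ + 1) = 1 := by rw [hg₀]; field_simp
    have h3 := mul_le_mul_of_nonneg_right h1 (by positivity : (0 : ℝ) ≤ 8 * κ₁)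
    linarith
  obtain ⟨N, hN⟩ := pow_unbounded_of_one_lt ((1 / (2 * κ₂) + 1) / g₀) (by linarith : 1 < 1 + δ)
  set γ : ℕ → ℝ := fun i => g₀ * (1 + δ) ^ i with hγdef
  have hγ0 : ∀ i, 0 < γ i := fun i => by positivity
  have hγs : ∀ i, γ (i + 1) = (1 + δ) * γ i := fun i => by
    simp only [hγdef]
    ring
  have hγm : StrictMono γ := by
    apply strictMono_nat_of_lt_succ
    intro i
    rw [hγs]
    nlinarith [hγ0 i]
  have hγN : 1 ≤ 2 * γ N ^ 2 * κ₂ := by
    have h1 : 1 / (2 * κ₂) + 1 ≤ γ N := by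
      rw [div_lt_iff₀ hg₀0] at hN
      simp only [hγdef]
      linarith
    have h0 : 0 < 1 / (2 * κ₂) := by positivity
    have h2 : γ N ≤ γ N ^ 2 := by
      rw [sq]
      exact le_mul_of_one_le_left (hγ0 N).le (by linarith)
    have h3 : 1 / (2 * κ₂) ≤ γ N ^ 2 := by linarith
    rw [div_le_iff₀ (by positivity)] at h3
    linarith
  have hγ00 : γ 0 = g₀ := by simp [hγdef]
  refine ⟨N + 1, γ, hγ0, hγm, ?_, ?_⟩
  · intro g hg
    obtain ⟨hle, hidx⟩ := e7_gidx (N + 1) γ hγm.monotone g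
    set k := gidx (N + 1) γ g with hk
    have hlg : 0 < (1 + 8 * δ) * g := by positivity
    have hW := e7_W_mem ((1 + 8 * δ) * g)
    unfold VU
    rw [← hk]
    split_ifs with h
    · have h1 : g ≤ γ k := by
        by_contra hcon
        exact absurd ((hidx k h).mp (not_le.mp hcon)) (lt_irrefl k)
      rcases Nat.eq_zero_or_pos k with hk0 | hk0
      · dsimp only
        rw [hk0, hγ00]
        have h2 : κ₁ ≤ (1 - 2 * δ) / (4 * g₀ ^ 2) := by
          rw [le_div_iff₀ (by positivity)]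
          linarith
        linarith [hlarge _ h2]
      · obtain ⟨q, hq⟩ : ∃ q, q + 1 = k := ⟨k - 1, by omega⟩
        have h2 : γ q < g := (hidx q (by omega)).mpr (by omega)
        rw [e7_W_pos hlg, ← hq]
        dsimp only
        have h3 : Vst ((1 - 2 * δ) / (4 * γ (q + 1) ^ 2)) ≤
            Vst (1 / (4 * ((1 + 8 * δ) * g) ^ 2)) := by
          apply Vst_anti (by positivity)
          rw [div_le_div_iff₀ (by positivity) (by have := hγ0 (q + 1); positivity), hγs]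
          have h4 : (γ q) ^ 2 ≤ g ^ 2 := pow_le_pow_left₀ (hγ0 q).le h2.le 2
          have h5 : (1 + δ) ^ 2 ≤ (1 - 2 * δ) * (1 + 8 * δ) ^ 2 := by
            nlinarith [mul_nonneg hδ0.le hδ0.le,
              mul_nonneg (mul_nonneg hδ0.le hδ0.le) (by linarith : 0 ≤ 1 / 4 - δ)]
          calc 1 * (4 * ((1 + δ) * γ q) ^ 2) = 4 * ((1 + δ) ^ 2 * (γ q) ^ 2) := by ring
            _ ≤ 4 * (((1 - 2 * δ) * (1 + 8 * δ) ^ 2) * g ^ 2) := by
                apply mul_le_mul_of_nonneg_left _ (by norm_num)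
                exact mul_le_mul h5 h4 (by positivity) (by
                  have : 0 ≤ 1 - 2 * δ := by linarith
                  positivity)
            _ = (1 - 2 * δ) * (4 * ((1 + 8 * δ) * g) ^ 2) := by ring
        linarith
    · have h1 : γ N < g := (hidx N (by omega)).mpr (by omega)
      rw [e7_W_pos hlg]
      have h2 : 1 / (4 * ((1 + 8 * δ) * g) ^ 2) ≤ κ₂ := by
        rw [div_le_iff₀ (by positivity)]
        have h3 : (γ N) ^ 2 ≤ g ^ 2 := pow_le_pow_left₀ (hγ0 N).le h1.le 2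
        have h4 : g ^ 2 ≤ ((1 + 8 * δ) * g) ^ 2 := by
          apply pow_le_pow_left₀ hg.le
          nlinarith
        have h5 : γ N ^ 2 * κ₂ ≤ ((1 + 8 * δ) * g) ^ 2 * κ₂ :=
          mul_le_mul_of_nonneg_right (h3.trans h4) hκ₂.le
        nlinarith
      linarith [hsmall _ (by positivity) h2]
  · intro g hg
    have hlg : 0 < (1 + 8 * δ) * g := by positivity
    obtain ⟨hle, hidx⟩ := e7_gidx (N + 1) γ hγm.monotone ((1 + 8 * δ) * g)
    set k := gidx (N + 1) γ ((1 + 8 * δ) * g) with hk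
    have hW := e7_W_mem g
    have hgl : g ≤ (1 + 8 * δ) * g := by nlinarith
    unfold VL
    rw [← hk]
    split_ifs with h
    · have h1 : (1 + 8 * δ) * g ≤ γ 0 := by
        by_contra hcon
        have := (hidx 0 (by omega)).mp (not_le.mp hcon)
        omega
      rw [e7_W_pos hg]
      have h2 : κ₁ ≤ 1 / (4 * g ^ 2) := by
        rw [le_div_iff₀ (by positivity)]
        have h3 : g ^ 2 ≤ g₀ ^ 2 := by
          apply pow_le_pow_left₀ hg.le
          rw [← hγ00]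
          linarith
        have h4 := mul_le_mul_of_nonneg_left h3 hκ₁.le
        nlinarith
      linarith [hlarge _ h2]
    · rcases Nat.lt_or_ge k (N + 1) with hkN | hkN
      · obtain ⟨q, hq⟩ : ∃ q, q + 1 = k := ⟨k - 1, by omega⟩
        have h1 : (1 + 8 * δ) * g ≤ γ (q + 1) := by
          rw [hq]
          by_contra hcon
          exact absurd ((hidx k hkN).mp (not_le.mp hcon)) (lt_irrefl k)
        have hkq : k - 1 = q := by omega
        dsimp only
        rw [hkq, e7_W_pos hg]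
        have h3 : Vst (1 / (4 * g ^ 2)) ≤ Vst ((1 + δ) / (4 * γ q ^ 2)) := by
          apply Vst_anti (by have := hγ0 q; positivity)
          rw [div_le_div_iff₀ (by have := hγ0 q; positivity) (by positivity)]
          rw [hγs] at h1
          have h4 : ((1 + 8 * δ) * g) ^ 2 ≤ ((1 + δ) * γ q) ^ 2 :=
            pow_le_pow_left₀ hlg.le h1 2
          have h5 : (1 + δ) ^ 3 ≤ (1 + 8 * δ) ^ 2 := by
            nlinarith [mul_nonneg hδ0.le hδ0.le,
              mul_nonneg (mul_nonneg hδ0.le hδ0.le) (by linarith : 0 ≤ 1 / 4 - δ)]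
          -- (1+δ) g² ≤ γ², as (1+δ)³ g² ≤ (1+8δ)² g² ≤ (1+δ)² γ²
          have h6 : (1 + δ) ^ 2 * ((1 + δ) * (4 * g ^ 2)) ≤ (1 + δ) ^ 2 * (1 * (4 * γ q ^ 2)) := by
            calc (1 + δ) ^ 2 * ((1 + δ) * (4 * g ^ 2)) = 4 * ((1 + δ) ^ 3 * g ^ 2) := by ring
              _ ≤ 4 * ((1 + 8 * δ) ^ 2 * g ^ 2) := by
                  apply mul_le_mul_of_nonneg_left _ (by norm_num)
                  exact mul_le_mul_of_nonneg_right h5 (by positivity)
              _ = 4 * ((1 + 8 * δ) * g) ^ 2 := by ring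
              _ ≤ 4 * ((1 + δ) * γ q) ^ 2 := by linarith
              _ = (1 + δ) ^ 2 * (1 * (4 * γ q ^ 2)) := by ring
          exact le_of_mul_le_mul_left h6 (by positivity)
        linarith
      · have hkq : k - 1 = N := by omega
        dsimp only
        rw [hkq]
        have h2 : (1 + δ) / (4 * γ N ^ 2) ≤ κ₂ := by
          rw [div_le_iff₀ (by have := hγ0 N; positivity)]
          nlinarith
        linarith [hsmall _ (by have := hγ0 N; positivity) h2]

/-- `1 ≪ a ≪ d` -/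
theorem pc_wide (ε : ℝ) (hε : 0 < ε) : ∃ A c : ℝ, 0 < A ∧ 0 < c ∧ ∃ D₀ : ℕ, ∀ n d : ℕ,
    D₀ ≤ d → A ≤ aopt (Real.log n / d) → aopt (Real.log n / d) ≤ c * d →
    Real.exp (-(Lw (fun g => Vst (1 / (4 * g ^ 2))) n d + ε)) ≤ pc n d 2 ∧
      pc n d 2 ≤ Real.exp (-(Lw (fun g => Vst (1 / (4 * g ^ 2))) n d - ε)) := by
  obtain ⟨δ, hδ⟩ : ∃ δ : ℝ, δ = min (1 / 4) (ε / 64) := ⟨_, rfl⟩
  have hδ0 : 0 < δ := by rw [hδ]; exact lt_min (by norm_num) (by positivity)
  have hδ1 : δ ≤ 1 / 4 := by rw [hδ]; exact min_le_left _ _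
  have hδε : δ ≤ ε / 64 := by rw [hδ]; exact min_le_right _ _
  obtain ⟨J, γ, hγ0, hγm, hU, hL⟩ := e7_grid (ε / 8) δ (by positivity) hδ0 hδ1
  obtain ⟨A₁, c₁, hA₁, hc₁, D₁, h1⟩ := pc_wide_lower J γ
    (fun i => Vst ((1 - 2 * δ) / (4 * γ i ^ 2))) hγ0 hγm δ (ε / 2) hδ0 hδ1 (by positivity)
    (fun i _ => uach_Vst (by
      have := hγ0 i
      have h2 : 0 ≤ 1 - 2 * δ := by linarith
      positivity))
  obtain ⟨A₂, c₂, hA₂, hc₂, D₂, h2⟩ := pc_wide_upper J γ
    (fun i => Vst ((1 + δ) / (4 * γ i ^ 2))) hγ0 hγm δ (ε / 2) hδ0 (by positivity)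
    (fun i _ => lach_Vst (by have := hγ0 i; positivity))
  have hsq : ∀ {i j : ℕ}, i ≤ j → 4 * γ i ^ 2 ≤ 4 * γ j ^ 2 := fun {i j} hij => by
    have := pow_le_pow_left₀ (hγ0 i).le (hγm.monotone hij) 2
    linarith
  have hVUm : Monotone (VU J γ (fun i => Vst ((1 - 2 * δ) / (4 * γ i ^ 2)))) := by
    apply e7_VU_mono
    · intro i j hij
      apply Vst_anti
      · have := hγ0 j
        have h2 : 0 ≤ 1 - 2 * δ := by linarith
        positivity
      · exact div_le_div_of_nonneg_left (by linarith) (by have := hγ0 i; positivity) (hsq hij)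
    · intro i
      exact (Vst_mem (by
        have := hγ0 i
        have h2 : 0 ≤ 1 - 2 * δ := by linarith
        positivity)).2
  have hVLmem : ∀ i, 0 ≤ Vst ((1 + δ) / (4 * γ i ^ 2)) ∧ Vst ((1 + δ) / (4 * γ i ^ 2)) ≤ 1 :=
    fun i => Vst_mem (by have := hγ0 i; positivity)
  have hVLm : Monotone (VL J γ (fun i => Vst ((1 + δ) / (4 * γ i ^ 2)))) := by
    apply e7_VL_mono
    · intro i j hij
      apply Vst_anti (by have := hγ0 j; positivity)
      exact div_le_div_of_nonneg_left (by linarith) (by have := hγ0 i; positivity) (hsq hij)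
    · exact fun i => (hVLmem i).1
  have hVL01 := e7_VL_mem J γ (fun i => Vst ((1 + δ) / (4 * γ i ^ 2)))
    (fun i => (hVLmem i).1) (fun i => (hVLmem i).2)
  refine ⟨max A₁ A₂, min c₁ c₂, lt_max_of_lt_left hA₁, lt_min hc₁ hc₂, max (max D₁ D₂) 1, ?_⟩
  intro n d hd hA hc
  have hd1 : 1 ≤ d := le_trans (le_max_right _ _) hd
  have hdD₁ : D₁ ≤ d := le_trans (le_trans (le_max_left _ _) (le_max_left _ _)) hd
  have hdD₂ : D₂ ≤ d := le_trans (le_trans (le_max_right _ _) (le_max_left _ _)) hd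
  have ha : 0 < aopt (Real.log n / d) := lt_of_lt_of_le (lt_max_of_lt_left hA₁) hA
  have hd0 : (0 : ℝ) ≤ d := Nat.cast_nonneg d
  have hs : 0 < Real.sqrt d := Real.sqrt_pos.mpr (by exact_mod_cast hd1)
  have h1' := h1 n d hdD₁ (le_trans (le_max_left _ _) hA)
    (le_trans hc (mul_le_mul_of_nonneg_right (min_le_left _ _) hd0))
  have h2' := h2 n d hdD₂ (le_trans (le_max_right _ _) hA)
    (le_trans hc (mul_le_mul_of_nonneg_right (min_le_right _ _) hd0))
  set a := aopt (Real.log n / d) with hadef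
  have hUa : avW (VU J γ (fun i => Vst ((1 - 2 * δ) / (4 * γ i ^ 2)))) a d ≤
      avW (fun g => Vst (1 / (4 * g ^ 2))) a d + ε / 4 := by
    rw [e7_avW_eq a ha d hd1]
    have h := e7_dil _ e7_W hVUm e7_W_mono (fun x => (e7_W_mem x).1) (fun x => (e7_W_mem x).2)
      (1 + 8 * δ) (ε / 8) (by linarith) hU a (Real.sqrt d) ha hs
    unfold avW
    linarith
  have hLa : avW (fun g => Vst (1 / (4 * g ^ 2))) a d ≤
      avW (VL J γ (fun i => Vst ((1 + δ) / (4 * γ i ^ 2)))) a d + ε / 4 := by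
    rw [e7_avW_eq a ha d hd1]
    have h := e7_dil e7_W _ e7_W_mono hVLm (fun x => (hVL01 x).1) (fun x => (hVL01 x).2)
      (1 + 8 * δ) (ε / 8) (by linarith) hL a (Real.sqrt d) ha hs
    unfold avW
    linarith
  constructor
  · refine le_trans (Real.exp_le_exp.mpr ?_) h1'
    unfold Lw
    rw [← hadef]
    linarith
  · refine le_trans h2' (Real.exp_le_exp.mpr ?_)
    unfold Lw
    rw [← hadef]
    linarith

end Pool.Agent.Lib.MP_8501c9_pr.Wide
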