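import Pool.Agent.Lib.MP_8501c9_pr.Wide.Beta
import Pool.Agent.Lib.MP_8501c9_pr.Ell

/-!
# Potentials of product form from families of supersolutions (task V7b)
-/

set_option autoImplicit false
open Set

namespace Pool.Agent.Lib.MP_8501c9_pr.Wide

open Pool.Agent.Lib.MP_8501c9_pr Pool.Agent.Lib.MP_8501c9_pr.Mid

/-! ### levels -/

theorem p7_lev_same {d t r : ℕ} (hd : 1 ≤ d) (h : t % d + r < d) :
    lev d (t + r) = lev d t ∧ (t + r) % d = t % d + r := by
  have h1 : (t + r) / d = t / d ∧ (t + r) % d = t % d + r := by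
    rw [Nat.div_mod_unique (by omega)]
    refine ⟨?_, h⟩
    have := Nat.div_add_mod t d
    omega
  exact ⟨by unfold lev; rw [h1.1], h1.2⟩

theorem p7_lev_next {d t r : ℕ} (hd : 1 ≤ d) (h1 : d ≤ t % d + r) (h2 : t % d + r < 2 * d) :
    lev d (t + r) = lev d t + 1 ∧ (t + r) % d = t % d + r - d := by
  have h3 : (t + r) / d = t / d + 1 ∧ (t + r) % d = t % d + r - d := by
    rw [Nat.div_mod_unique (by omega)]
    refine ⟨?_, by omega⟩
    have := Nat.div_add_mod t d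
    rw [mul_add]
    omega
  exact ⟨by unfold lev; rw [h3.1], h3.2⟩

theorem p7_lev_mono (d : ℕ) : Monotone (lev d) := by
  intro s t h
  unfold lev
  have := Nat.div_le_div_right (c := d) h
  omega

theorem p7_lev_two {d : ℕ} (hd : 1 ≤ d) (k : ℕ) : lev d (k + 2) ≤ lev d k + 2 := by
  unfold lev
  have h1 : (k + 2) / d ≤ (k + 2 * d) / d := Nat.div_le_div_right (by nlinarith)
  rw [Nat.add_mul_div_right _ _ (by omega)] at h1
  omega

theorem p7_lev_two' {d : ℕ} (hd : 2 ≤ d) (k : ℕ) : lev d (k + 2) ≤ lev d k + 1 := by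
  unfold lev
  have h1 : (k + 2) / d ≤ (k + 1 * d) / d := Nat.div_le_div_right (by omega)
  rw [Nat.add_mul_div_right _ _ (by omega)] at h1
  omega

theorem p7_lev_le_lt {d : ℕ} (hd : 1 ≤ d) (t : ℕ) : (lev d t : ℝ) ≤ lt d t := by
  unfold lev lt
  have hd0 : (0 : ℝ) < d := by exact_mod_cast hd
  push_cast
  have : ((t / d : ℕ) : ℝ) ≤ (t : ℝ) / d := Nat.cast_div_le
  linarith

theorem p7_lev_pos (d t : ℕ) : 1 ≤ lev d t := Nat.le_add_left 1 _

theorem p7_exp4 (a b c d : ℝ) :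
    Real.exp (a + b + c + d) = Real.exp a * Real.exp b * Real.exp c * Real.exp d := by
  rw [Real.exp_add, Real.exp_add, Real.exp_add]

theorem p7_one_le_lev (d t : ℕ) : (1 : ℝ) ≤ lev d t := by
  unfold lev
  push_cast
  have : (0 : ℝ) ≤ ((t / d : ℕ) : ℝ) := by positivity
  linarith

theorem p7_one_le_lt (d t : ℕ) : (1 : ℝ) ≤ lt d t := by
  unfold lt
  have : (0 : ℝ) ≤ (t : ℝ) / d := by positivity
  linarith

theorem p7_lt_add (d t r : ℕ) : lt d (t + r) = lt d t + (r : ℝ) / d := by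
  unfold lt
  push_cast
  ring

/-- phase within the level -/
noncomputable def p7s (d t : ℕ) : ℝ := ((t % d : ℕ) : ℝ) / d

theorem p7s_nonneg (d t : ℕ) : 0 ≤ p7s d t := by unfold p7s; positivity

theorem p7s_le {d : ℕ} (hd : 1 ≤ d) (t : ℕ) : p7s d t ≤ 1 := by
  unfold p7s
  have hd0 : (0 : ℝ) < d := by exact_mod_cast hd
  rw [div_le_one hd0]
  exact_mod_cast (Nat.mod_lt t (by omega)).le

/-! ### the rest of the exponent -/

/-- the additive part of the exponent -/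
noncomputable def p7E (d k : ℕ) (ρ ς e : ℕ → ℝ) (C1 : ℝ) (t : ℕ) : ℝ :=
  ∑ τ ∈ Finset.Ico t (k + 2), (ρ (lev d τ) + e (lev d τ)) / d +
    ∑ l ∈ Finset.Ico (lev d t) (lev d k + 2), (ς l + C1 / d)

section E

variable {d k : ℕ} {ρ ς e : ℕ → ℝ} {C1 : ℝ}

theorem p7E_nonneg (hρ : ∀ l, 0 ≤ ρ l) (hς : ∀ l, 0 ≤ ς l) (he : ∀ l, 0 ≤ e l) (hC : 0 ≤ C1)
    (t : ℕ) : 0 ≤ p7E d k ρ ς e C1 t := by
  unfold p7E
  refine add_nonneg (Finset.sum_nonneg fun τ _ => ?_) (Finset.sum_nonneg fun l _ => ?_)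
  · exact div_nonneg (add_nonneg (hρ _) (he _)) (by positivity)
  · exact add_nonneg (hς _) (by positivity)

theorem p7E_split (hd : 1 ≤ d) {t t' : ℕ} (h1 : t ≤ t') (h2 : t' ≤ k + 2) :
    p7E d k ρ ς e C1 t = ∑ τ ∈ Finset.Ico t t', (ρ (lev d τ) + e (lev d τ)) / d +
      ∑ l ∈ Finset.Ico (lev d t) (lev d t'), (ς l + C1 / d) + p7E d k ρ ς e C1 t' := by
  unfold p7E
  have h3 : lev d t' ≤ lev d k + 2 := (p7_lev_mono d h2).trans (p7_lev_two hd k)
  rw [← Finset.sum_Ico_consecutive _ h1 h2, ← Finset.sum_Ico_consecutive _ (p7_lev_mono d h1) h3]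
  ring

end E

/-! ### the potential -/

/-- the potential of one side -/
noncomputable def p7G (d k : ℕ) (c ℓ : ℝ) (f : ℕ → ℝ → ℤ → ℝ) (ρ ς e : ℕ → ℝ) (C1 : ℝ)
    (t x : ℕ) : ℝ :=
  Real.exp (p7E d k ρ ς e C1 t) * f (lev d t) (p7s d t) ((x : ℤ) - lev d t) * bet c ℓ d t x

/-- ratio of the values of the family -/
noncomputable def p7r (d : ℕ) (f : ℕ → ℝ → ℤ → ℝ) (t x : ℕ) : ℝ :=
  f (lev d t) (p7s d t) ((x : ℤ) + 1 - lev d t) / f (lev d t) (p7s d t) ((x : ℤ) - lev d t)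

theorem p7_qt_pos (c ℓ : ℝ) (d t m : ℕ) : 0 < qt c ℓ d t m := by
  unfold qt
  exact lt_of_lt_of_le zero_lt_one (le_max_left _ _)

theorem p7_one_le_qt (c ℓ : ℝ) (d t m : ℕ) : 1 ≤ qt c ℓ d t m := le_max_left _ _

section G

variable {d k m : ℕ} {c ℓ ε R : ℝ} {f : ℕ → ℝ → ℤ → ℝ} {y : ℕ → ℝ → ℝ} {ρ ς e : ℕ → ℝ} {C1 : ℝ}

theorem p7G_pos (hU : UF d k m ε R f y ρ ς) (t x : ℕ) : 0 < p7G d k c ℓ f ρ ς e C1 t x := by
  unfold p7G
  refine mul_pos (mul_pos (Real.exp_pos _) ?_) ?_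
  · exact lt_of_lt_of_le zero_lt_one (hU.f_ge _ _ _)
  · exact lt_of_lt_of_le zero_lt_one (one_le_bet _ _ _ _ _)

theorem p7G_ge (hU : UF d k m ε R f y ρ ς) (he : ∀ l, 0 ≤ e l) (hC : 0 ≤ C1) (t x : ℕ) :
    1 ≤ p7G d k c ℓ f ρ ς e C1 t x := by
  unfold p7G
  have h1 : 1 ≤ Real.exp (p7E d k ρ ς e C1 t) :=
    Real.one_le_exp (p7E_nonneg hU.ρ_nonneg hU.ς_nonneg he hC t)
  exact one_le_mul_of_one_le_of_one_le (one_le_mul_of_one_le_of_one_le h1 (hU.f_ge _ _ _))
    (one_le_bet _ _ _ _ _)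

theorem p7G_ratio (hU : UF d k m ε R f y ρ ς) (hc : 0 ≤ c) (hℓ : 0 ≤ ℓ) (hd : 1 ≤ d) (t x : ℕ)
    (hx : 1 ≤ x) : p7G d k c ℓ f ρ ς e C1 t (x + 1) / p7G d k c ℓ f ρ ς e C1 t x =
      p7r d f t x / qt c ℓ d t x := by
  unfold p7G p7r
  rw [bet_succ hc hℓ hd t x hx]
  have h1 : 0 < f (lev d t) (p7s d t) ((x : ℤ) - lev d t) :=
    lt_of_lt_of_le zero_lt_one (hU.f_ge _ _ _)
  have h2 : 0 < bet c ℓ d t (x + 1) := lt_of_lt_of_le zero_lt_one (one_le_bet _ _ _ _ _)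
  have h3 := p7_qt_pos c ℓ d t x
  have h4 := Real.exp_pos (p7E d k ρ ς e C1 t)
  push_cast
  field_simp

theorem p7r_nonneg (hU : UF d k m ε R f y ρ ς) (t x : ℕ) : 0 ≤ p7r d f t x := by
  unfold p7r
  exact div_nonneg (zero_le_one.trans (hU.f_ge _ _ _)) (zero_le_one.trans (hU.f_ge _ _ _))

theorem p7r_le (hU : UF d k m ε R f y ρ ς) (t x : ℕ) : p7r d f t x ≤ R := by
  unfold p7r
  have h1 := hU.f_ge (lev d t) (p7s d t) ((x : ℤ) - lev d t)
  rw [div_le_iff₀ (by linarith)]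
  have h2 := hU.f_le (lev d t) (p7s d t) ((x : ℤ) + 1 - lev d t)
  have h3 := hU.f_ge (lev d t) (p7s d t) ((x : ℤ) + 1 - lev d t)
  nlinarith

/-- value of the speed function -/
noncomputable def p7h (d : ℕ) (y : ℕ → ℝ → ℝ) (t : ℕ) : ℝ := y (lev d t) (p7s d t)

/-- the parameter `y` of the potential -/
noncomputable def p7y (d : ℕ) (c ℓ : ℝ) (y : ℕ → ℝ → ℝ) (t : ℕ) : ℝ :=
  p7h d y t / (d * Wt c ℓ d t)

theorem p7_Wt_pos (c ℓ : ℝ) (d t : ℕ) : 0 < Wt c ℓ d t := by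
  unfold Wt
  have := p7_one_le_lt d (t + 2)
  exact div_pos (Real.exp_pos _) (by linarith)

theorem p7h_nonneg (hU : UF d k m ε R f y ρ ς) (hR : 1 ≤ R) (t : ℕ) : 0 ≤ p7h d y t := by
  have h1 := hU.y_ge (lev d t) (p7s d t)
  have h2 : 0 ≤ 1 / R := by positivity
  exact h2.trans h1

theorem p7h_le (hU : UF d k m ε R f y ρ ς) (t : ℕ) : p7h d y t ≤ R := hU.y_le _ _

/-- the weight for two units -/
theorem p7_w2 (hU : UF d k m ε R f y ρ ς) (hR : 1 ≤ R) (hc : 0 ≤ c) (hℓ : 0 ≤ ℓ) (hd : 1 ≤ d)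
    (t x : ℕ) (hx : 1 ≤ x) :
    p7y d c ℓ y t * (Real.exp (c * lamt ℓ d t / x) / x *
      (p7G d k c ℓ f ρ ς e C1 (t + 2) (x + 1) / p7G d k c ℓ f ρ ς e C1 (t + 2) x)) ≤
      p7h d y t / d * p7r d f (t + 2) x := by
  rw [p7G_ratio hU hc hℓ hd _ x hx]
  have h1 := weight_two c ℓ hc hℓ (t := t) hd hx
  have h2 := p7_qt_pos c ℓ d (t + 2) x
  have h3 := p7_Wt_pos c ℓ d t
  have h4 := p7r_nonneg hU (t + 2) x
  have h5 := p7h_nonneg hU hR t
  have hd0 : (0 : ℝ) < d := by exact_mod_cast hd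
  have h6 : 0 ≤ p7r d f (t + 2) x / qt c ℓ d (t + 2) x := div_nonneg h4 h2.le
  have h7 : 0 ≤ p7y d c ℓ y t := by unfold p7y; positivity
  calc p7y d c ℓ y t * (Real.exp (c * lamt ℓ d t / x) / x *
      (p7r d f (t + 2) x / qt c ℓ d (t + 2) x)) ≤ p7y d c ℓ y t *
        (Wt c ℓ d t * qt c ℓ d (t + 2) x * (p7r d f (t + 2) x / qt c ℓ d (t + 2) x)) :=
        mul_le_mul_of_nonneg_left (mul_le_mul_of_nonneg_right h1 h6) h7
    _ = p7h d y t / d * p7r d f (t + 2) x := by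
        unfold p7y
        field_simp

/-- the weight for one unit -/
theorem p7_w1 (hU : UF d k m ε R f y ρ ς) (hR : 1 ≤ R) (hc : 0 ≤ c) (hℓ : 0 ≤ ℓ) (hd : 1 ≤ d)
    (t x : ℕ) (hx : 1 ≤ x)
    (hw : Real.exp (c * lamt ℓ d t / x) / x ≤ 3 * (Wt c ℓ d t * qt c ℓ d (t + 1) x)) :
    p7y d c ℓ y t * (Real.exp (c * lamt ℓ d t / x) / x *
      (p7G d k c ℓ f ρ ς e C1 (t + 1) (x + 1) / p7G d k c ℓ f ρ ς e C1 (t + 1) x)) ≤
      3 * (p7h d y t / d * p7r d f (t + 1) x) := by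
  rw [p7G_ratio hU hc hℓ hd _ x hx]
  have h2 := p7_qt_pos c ℓ d (t + 1) x
  have h3 := p7_Wt_pos c ℓ d t
  have h4 := p7r_nonneg hU (t + 1) x
  have h5 := p7h_nonneg hU hR t
  have hd0 : (0 : ℝ) < d := by exact_mod_cast hd
  have h6 : 0 ≤ p7r d f (t + 1) x / qt c ℓ d (t + 1) x := div_nonneg h4 h2.le
  have h7 : 0 ≤ p7y d c ℓ y t := by unfold p7y; positivity
  calc p7y d c ℓ y t * (Real.exp (c * lamt ℓ d t / x) / x *
      (p7r d f (t + 1) x / qt c ℓ d (t + 1) x)) ≤ p7y d c ℓ y t *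
        (3 * (Wt c ℓ d t * qt c ℓ d (t + 1) x) * (p7r d f (t + 1) x / qt c ℓ d (t + 1) x)) :=
        mul_le_mul_of_nonneg_left (mul_le_mul_of_nonneg_right hw h6) h7
    _ = 3 * (p7h d y t / d * p7r d f (t + 1) x) := by
        unfold p7y
        field_simp

/-- the weight of long sides -/
theorem p7_wl (hU : UF d k m ε R f y ρ ς) (hR : 1 ≤ R) (hc : 0 ≤ c) (hℓ : 0 ≤ ℓ) (hd : 1 ≤ d)
    (t s x : ℕ) (hx : 1 ≤ x)
    (hw : Real.exp (c * lamt ℓ d t / x) ≤ 3 * ((lev d t : ℝ) * Wt c ℓ d t)) :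
    p7y d c ℓ y t * (Real.exp (c * lamt ℓ d t / x) / x *
      (p7G d k c ℓ f ρ ς e C1 s (x + 1) / p7G d k c ℓ f ρ ς e C1 s x)) * x ≤
      3 * (p7h d y t * lev d t / d * p7r d f s x) := by
  rw [p7G_ratio hU hc hℓ hd _ x hx]
  have h2 := p7_one_le_qt c ℓ d s x
  have h3 := p7_Wt_pos c ℓ d t
  have h4 := p7r_nonneg hU s x
  have h5 := p7h_nonneg hU hR t
  have hd0 : (0 : ℝ) < d := by exact_mod_cast hd
  have hx0 : (0 : ℝ) < x := by exact_mod_cast hx
  have h6 : p7r d f s x / qt c ℓ d s x ≤ p7r d f s x := div_le_self h4 h2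
  have h6' : 0 ≤ p7r d f s x / qt c ℓ d s x := div_nonneg h4 (by linarith)
  have h7 : 0 ≤ p7y d c ℓ y t := by unfold p7y; positivity
  have h8 := p7_one_le_lev d t
  calc p7y d c ℓ y t * (Real.exp (c * lamt ℓ d t / x) / x *
      (p7r d f s x / qt c ℓ d s x)) * x
      = p7y d c ℓ y t * (Real.exp (c * lamt ℓ d t / x) * (p7r d f s x / qt c ℓ d s x)) := by
        field_simp
    _ ≤ p7y d c ℓ y t * (3 * ((lev d t : ℝ) * Wt c ℓ d t) * p7r d f s x) := by
        refine mul_le_mul_of_nonneg_left ?_ h7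
        exact mul_le_mul hw h6 h6' (by positivity)
    _ = 3 * (p7h d y t * lev d t / d * p7r d f s x) := by
        unfold p7y
        field_simp

/-! ### steps of the family -/

theorem p7s_same (hd : 1 ≤ d) {t r : ℕ} (h : t % d + r < d) :
    p7s d (t + r) = p7s d t + (r : ℝ) / d := by
  unfold p7s
  rw [(p7_lev_same hd h).2]
  push_cast
  ring

theorem p7_f_same (hU : UF d k m ε R f y ρ ς) (hd : 1 ≤ d) {t r : ℕ} (j : ℤ)
    (h : t % d + r < d) :
    f (lev d t) (p7s d (t + r)) j ≤ Real.exp (R * (r / d)) * f (lev d t) (p7s d t) j := by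
  rw [p7s_same hd h]
  refine hU.lip _ _ _ _ (p7s_nonneg d t) (by positivity) ?_
  rw [← p7s_same hd h]
  exact p7s_le hd _

theorem p7_f_next (hU : UF d k m ε R f y ρ ς) (hd : 1 ≤ d) {t r x : ℕ} (h1 : d ≤ t % d + r)
    (h2 : t % d + r < 2 * d) (hl : lev d t ≤ lev d k + 2) (hx : 1 ≤ x) :
    f (lev d (t + r)) (p7s d (t + r)) ((x : ℤ) - lev d (t + r)) ≤
      Real.exp (R * (r / d) + ς (lev d t)) * f (lev d t) (p7s d t) ((x : ℤ) - lev d t) := by
  obtain ⟨e1, e2⟩ := p7_lev_next hd h1 h2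
  have hd0 : (0 : ℝ) < d := by exact_mod_cast hd
  have hs' : p7s d (t + r) + (1 - p7s d t) = (r : ℝ) / d := by
    unfold p7s
    rw [e2, Nat.cast_sub h1]
    push_cast
    field_simp
    ring
  have a1 := hU.lip (lev d t + 1) 0 (p7s d (t + r)) ((x : ℤ) - (lev d t + 1)) le_rfl
    (p7s_nonneg d _) (by rw [zero_add]; exact p7s_le hd _)
  rw [zero_add] at a1
  have a2 := hU.shift (lev d t) x (p7_lev_pos d t) hl hx
  have a3 := hU.lip (lev d t) (p7s d t) (1 - p7s d t) ((x : ℤ) - lev d t) (p7s_nonneg d t)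
    (by have := p7s_le hd t; linarith) (by linarith)
  rw [show p7s d t + (1 - p7s d t) = 1 by ring] at a3
  rw [e1]
  have e3 : (x : ℤ) - ((lev d t + 1 : ℕ) : ℤ) = (x : ℤ) - ((lev d t : ℤ) + 1) := by push_cast; ring
  rw [e3]
  have hF : 0 ≤ f (lev d t) (p7s d t) ((x : ℤ) - lev d t) := zero_le_one.trans (hU.f_ge _ _ _)
  calc f (lev d t + 1) (p7s d (t + r)) ((x : ℤ) - ((lev d t : ℤ) + 1))
      ≤ Real.exp (R * p7s d (t + r)) * f (lev d t + 1) 0 ((x : ℤ) - ((lev d t : ℤ) + 1)) := a1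
    _ ≤ Real.exp (R * p7s d (t + r)) * (Real.exp (ς (lev d t)) *
        f (lev d t) 1 ((x : ℤ) - lev d t)) :=
        mul_le_mul_of_nonneg_left a2 (Real.exp_pos _).le
    _ ≤ Real.exp (R * p7s d (t + r)) * (Real.exp (ς (lev d t)) *
        (Real.exp (R * (1 - p7s d t)) * f (lev d t) (p7s d t) ((x : ℤ) - lev d t))) :=
        mul_le_mul_of_nonneg_left (mul_le_mul_of_nonneg_left a3 (Real.exp_pos _).le)
          (Real.exp_pos _).le
    _ = Real.exp (R * (r / d) + ς (lev d t)) * f (lev d t) (p7s d t) ((x : ℤ) - lev d t) := by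
        rw [← mul_assoc, ← mul_assoc, ← Real.exp_add, ← Real.exp_add, ← hs']
        congr 2
        ring

/-- one unit of size -/
theorem p7_step (hU : UF d k m ε R f y ρ ς) (hd : 2 ≤ d)
    (he : ∀ l, 0 ≤ e l) (hC : 0 ≤ C1) {t x : ℕ} (ht : t < k + 2) (hx : 1 ≤ x) {B : ℝ}
    (hb : bet c ℓ d (t + 1) x ≤ bet c ℓ d t x * Real.exp B) :
    p7G d k c ℓ f ρ ς e C1 (t + 1) x ≤
      p7G d k c ℓ f ρ ς e C1 t x * Real.exp (R * (1 / d) + B) := by
  have hd1 : 1 ≤ d := by omega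
  have hd0 : (0 : ℝ) < d := by exact_mod_cast hd1
  have hS : 0 ≤ ∑ τ ∈ Finset.Ico t (t + 1), (ρ (lev d τ) + e (lev d τ)) / d :=
    Finset.sum_nonneg fun τ _ => div_nonneg (add_nonneg (hU.ρ_nonneg _) (he _)) hd0.le
  have hsp := p7E_split (d := d) (k := k) (ρ := ρ) (ς := ς) (e := e) (C1 := C1) hd1
    (show t ≤ t + 1 by omega) (show t + 1 ≤ k + 2 by omega)
  have hmod : t % d < d := Nat.mod_lt _ (by omega)
  have key : Real.exp (p7E d k ρ ς e C1 (t + 1)) *
      f (lev d (t + 1)) (p7s d (t + 1)) ((x : ℤ) - lev d (t + 1)) ≤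
      Real.exp (p7E d k ρ ς e C1 t) * f (lev d t) (p7s d t) ((x : ℤ) - lev d t) *
        Real.exp (R * (1 / d)) := by
    have hF : 0 ≤ f (lev d t) (p7s d t) ((x : ℤ) - lev d t) := zero_le_one.trans (hU.f_ge _ _ _)
    by_cases h : t % d + 1 < d
    · have h1 := (p7_lev_same hd1 h).1
      have h2 := p7_f_same hU hd1 ((x : ℤ) - lev d t) h
      rw [h1, Finset.Ico_self, Finset.sum_empty, add_zero] at hsp
      rw [h1]
      push_cast at h2
      have h3 : p7E d k ρ ς e C1 (t + 1) ≤ p7E d k ρ ς e C1 t := by linarith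
      calc _ ≤ Real.exp (p7E d k ρ ς e C1 t) * (Real.exp (R * (1 / d)) *
            f (lev d t) (p7s d t) ((x : ℤ) - lev d t)) :=
            mul_le_mul (Real.exp_le_exp.2 h3) h2 (zero_le_one.trans (hU.f_ge _ _ _))
              (Real.exp_pos _).le
        _ = _ := by ring
    · have h1 : lev d (t + 1) = lev d t + 1 := (p7_lev_next hd1 (by omega) (by omega)).1
      have hl : lev d t ≤ lev d k + 2 :=
        (p7_lev_mono d (show t ≤ k + 2 by omega)).trans (p7_lev_two hd1 k)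
      have h2 := p7_f_next hU hd1 (t := t) (r := 1) (x := x) (by omega) (by omega) hl hx
      have hSig : ∑ l ∈ Finset.Ico (lev d t) (lev d t + 1), (ς l + C1 / d) =
          ς (lev d t) + C1 / d := by
        rw [Nat.Ico_succ_singleton, Finset.sum_singleton]
      rw [h1, hSig] at hsp
      push_cast at h2
      have hC1 : 0 ≤ C1 / d := by positivity
      have h3 : p7E d k ρ ς e C1 (t + 1) + ς (lev d t) ≤ p7E d k ρ ς e C1 t := by linarith
      calc _ ≤ Real.exp (p7E d k ρ ς e C1 (t + 1)) * (Real.exp (R * (1 / d) + ς (lev d t)) *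
            f (lev d t) (p7s d t) ((x : ℤ) - lev d t)) :=
            mul_le_mul_of_nonneg_left h2 (Real.exp_pos _).le
        _ = Real.exp (p7E d k ρ ς e C1 (t + 1) + ς (lev d t)) *
            (Real.exp (R * (1 / d)) * f (lev d t) (p7s d t) ((x : ℤ) - lev d t)) := by
            rw [Real.exp_add, Real.exp_add]; ring
        _ ≤ Real.exp (p7E d k ρ ς e C1 t) *
            (Real.exp (R * (1 / d)) * f (lev d t) (p7s d t) ((x : ℤ) - lev d t)) :=
            mul_le_mul_of_nonneg_right (Real.exp_le_exp.2 h3)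
              (mul_nonneg (Real.exp_pos _).le hF)
        _ = _ := by ring
  unfold p7G
  have hb0 : 0 ≤ bet c ℓ d (t + 1) x := zero_le_one.trans (one_le_bet _ _ _ _ _)
  have hF : 0 ≤ f (lev d t) (p7s d t) ((x : ℤ) - lev d t) := zero_le_one.trans (hU.f_ge _ _ _)
  calc _ ≤ (Real.exp (p7E d k ρ ς e C1 t) * f (lev d t) (p7s d t) ((x : ℤ) - lev d t) *
        Real.exp (R * (1 / d))) * (bet c ℓ d t x * Real.exp B) :=
        mul_le_mul key hb hb0 (by positivity)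
    _ = _ := by rw [Real.exp_add]; ring

/-- two units of size -/
theorem p7_sd (hU : UF d k m ε R f y ρ ς) (hR : 1 ≤ R) (hε1 : ε ≤ 1) (hc : 0 ≤ c)
    (hℓ : 0 ≤ ℓ) (hd : 2 ≤ d) (he : ∀ l, 0 ≤ e l) {E₀ : ℝ} (he1 : ∀ l, e l ≤ E₀)
    (hC : 3 * R + 2 * R ^ 2 + 2 * E₀ ≤ C1) {t x : ℕ} (ht : t < k) (hx : 1 ≤ x)
    (hb : bet c ℓ d (t + 2) x ≤ bet c ℓ d t x *
      Real.exp (ε * gapl (lev d t) x + 2 * e (lev d t) / d)) :
    p7G d k c ℓ f ρ ς e C1 (t + 2) x * Real.exp (-(gapl (lev d t) x) +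
      2 * (p7y d c ℓ y t * (Real.exp (c * lamt ℓ d t / x) / x *
        (p7G d k c ℓ f ρ ς e C1 (t + 2) (x + 1) / p7G d k c ℓ f ρ ς e C1 (t + 2) x)))) ≤
      p7G d k c ℓ f ρ ς e C1 t x := by
  have hd1 : 1 ≤ d := by omega
  have hd0 : (0 : ℝ) < d := by exact_mod_cast hd1
  have hlev : 1 ≤ lev d t := p7_lev_pos d t
  have hgap : 0 ≤ gapl (lev d t) x := gapl_nonneg hlev hx
  have hW := p7_w2 (e := e) (C1 := C1) hU hR hc hℓ hd1 t x hx
  set W := p7y d c ℓ y t * (Real.exp (c * lamt ℓ d t / x) / x *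
    (p7G d k c ℓ f ρ ς e C1 (t + 2) (x + 1) / p7G d k c ℓ f ρ ς e C1 (t + 2) x)) with hWdef
  have hmod : t % d < d := Nat.mod_lt _ (by omega)
  have hl : lev d t ≤ lev d k + 2 := (p7_lev_mono d ht.le).trans (by omega)
  have hsp := p7E_split (d := d) (k := k) (ρ := ρ) (ς := ς) (e := e) (C1 := C1) hd1
    (show t ≤ t + 2 by omega) (show t + 2 ≤ k + 2 by omega)
  have hF : 0 ≤ f (lev d t) (p7s d t) ((x : ℤ) - lev d t) := zero_le_one.trans (hU.f_ge _ _ _)
  have hb0 : 0 ≤ bet c ℓ d (t + 2) x := zero_le_one.trans (one_le_bet _ _ _ _ _)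
  have hb1 : 0 ≤ bet c ℓ d t x := zero_le_one.trans (one_le_bet _ _ _ _ _)
  by_cases h : t % d + 2 < d
  · have h1 := (p7_lev_same hd1 h).1
    have h1' := (p7_lev_same hd1 (show t % d + 1 < d by omega)).1
    have h2 := p7s_same hd1 h
    push_cast at h2
    have hstep := hU.step (lev d t) (p7s d t) x hlev hl hx (p7s_nonneg d t)
      (by rw [← h2]; exact p7s_le hd1 _)
    have hS : ∑ τ ∈ Finset.Ico t (t + 2), (ρ (lev d τ) + e (lev d τ)) / d =
        2 / d * ρ (lev d t) + 2 * e (lev d t) / d := by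
      rw [Finset.sum_Ico_succ_top (by omega), Finset.sum_Ico_succ_top (by omega),
        Finset.Ico_self, Finset.sum_empty, h1']
      ring
    rw [h1, Finset.Ico_self, Finset.sum_empty, add_zero, hS] at hsp
    have hr : p7h d y t / d * p7r d f (t + 2) x = 1 / 2 * (2 / (d : ℝ) * y (lev d t) (p7s d t) *
        (f (lev d t) (p7s d t + 2 / (d : ℝ)) ((x : ℤ) + 1 - lev d t) /
          f (lev d t) (p7s d t + 2 / (d : ℝ)) ((x : ℤ) - lev d t))) := by
      unfold p7h p7r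
      rw [h1, h2]
      ring
    rw [hr] at hW
    set V := 2 / (d : ℝ) * y (lev d t) (p7s d t) *
        (f (lev d t) (p7s d t + 2 / (d : ℝ)) ((x : ℤ) + 1 - lev d t) /
          f (lev d t) (p7s d t + 2 / (d : ℝ)) ((x : ℤ) - lev d t)) with hV
    unfold p7G
    rw [h1, h2]
    have hF2 : 0 ≤ f (lev d t) (p7s d t + 2 / (d : ℝ)) ((x : ℤ) - lev d t) :=
      zero_le_one.trans (hU.f_ge _ _ _)
    calc Real.exp (p7E d k ρ ς e C1 (t + 2)) *
          f (lev d t) (p7s d t + 2 / (d : ℝ)) ((x : ℤ) - lev d t) * bet c ℓ d (t + 2) x *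
          Real.exp (-(gapl (lev d t) x) + 2 * W)
        ≤ Real.exp (p7E d k ρ ς e C1 (t + 2)) *
          f (lev d t) (p7s d t + 2 / (d : ℝ)) ((x : ℤ) - lev d t) * bet c ℓ d (t + 2) x *
          Real.exp (-(gapl (lev d t) x) + V) := by
          refine mul_le_mul_of_nonneg_left (Real.exp_le_exp.2 (by linarith)) (by positivity)
      _ = Real.exp (p7E d k ρ ς e C1 (t + 2)) *
          (f (lev d t) (p7s d t + 2 / (d : ℝ)) ((x : ℤ) - lev d t) * Real.exp V) *
          bet c ℓ d (t + 2) x * Real.exp (-(gapl (lev d t) x)) := by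
          rw [Real.exp_add]; ring
      _ ≤ Real.exp (p7E d k ρ ς e C1 (t + 2)) *
          (Real.exp (2 / (d : ℝ) * ρ (lev d t) + (1 - ε) * gapl (lev d t) x) *
            f (lev d t) (p7s d t) ((x : ℤ) - lev d t)) *
          (bet c ℓ d t x * Real.exp (ε * gapl (lev d t) x + 2 * e (lev d t) / d)) *
          Real.exp (-(gapl (lev d t) x)) := by
          refine mul_le_mul_of_nonneg_right ?_ (Real.exp_pos _).le
          exact mul_le_mul (mul_le_mul_of_nonneg_left hstep (Real.exp_pos _).le) hb hb0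
            (by positivity)
      _ = Real.exp (p7E d k ρ ς e C1 t) * f (lev d t) (p7s d t) ((x : ℤ) - lev d t) *
          bet c ℓ d t x := by
          rw [hsp]
          have e1 : 2 / (d : ℝ) * ρ (lev d t) + 2 * e (lev d t) / d + p7E d k ρ ς e C1 (t + 2) =
            p7E d k ρ ς e C1 (t + 2) + (2 / (d : ℝ) * ρ (lev d t) + (1 - ε) * gapl (lev d t) x) +
              (ε * gapl (lev d t) x + 2 * e (lev d t) / d) + (-(gapl (lev d t) x)) := by ring
          rw [e1, p7_exp4]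
          ring
  · have h1 : lev d (t + 2) = lev d t + 1 := (p7_lev_next hd1 (by omega) (by omega)).1
    have h2 := p7_f_next hU hd1 (t := t) (r := 2) (x := x) (by omega) (by omega) hl hx
    have hS : 0 ≤ ∑ τ ∈ Finset.Ico t (t + 2), (ρ (lev d τ) + e (lev d τ)) / d :=
      Finset.sum_nonneg fun τ _ => div_nonneg (add_nonneg (hU.ρ_nonneg _) (he _)) hd0.le
    have hW2 : W ≤ R ^ 2 / d := by
      refine hW.trans ?_
      have a1 := p7h_le hU t
      have a2 := p7r_le hU (t + 2) x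
      have a3 := p7h_nonneg hU hR t
      have a4 := p7r_nonneg hU (t + 2) x
      calc p7h d y t / d * p7r d f (t + 2) x ≤ R / d * R := by gcongr
        _ = R ^ 2 / d := by ring
    rw [h1, Nat.Ico_succ_singleton, Finset.sum_singleton] at hsp
    have hE0 := he1 (lev d t)
    have hCd : (3 * R + 2 * R ^ 2 + 2 * e (lev d t)) / d ≤ C1 / d := by
      gcongr
      linarith
    have hCd' : (3 * R + 2 * R ^ 2 + 2 * e (lev d t)) / d =
      3 * R / d + 2 * (R ^ 2 / d) + 2 * e (lev d t) / d := by ring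
    have h3R : R * (((2 : ℕ) : ℝ) / d) ≤ 3 * R / d := by
      push_cast
      rw [mul_div_assoc', div_le_div_iff_of_pos_right hd0]
      linarith
    have hgε : ε * gapl (lev d t) x ≤ gapl (lev d t) x := by nlinarith
    unfold p7G
    calc Real.exp (p7E d k ρ ς e C1 (t + 2)) *
          f (lev d (t + 2)) (p7s d (t + 2)) ((x : ℤ) - lev d (t + 2)) * bet c ℓ d (t + 2) x *
          Real.exp (-(gapl (lev d t) x) + 2 * W)
        ≤ Real.exp (p7E d k ρ ς e C1 (t + 2)) *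
          (Real.exp (R * (((2 : ℕ) : ℝ) / d) + ς (lev d t)) *
            f (lev d t) (p7s d t) ((x : ℤ) - lev d t)) *
          (bet c ℓ d t x * Real.exp (ε * gapl (lev d t) x + 2 * e (lev d t) / d)) *
          Real.exp (-(gapl (lev d t) x) + 2 * W) := by
          refine mul_le_mul_of_nonneg_right ?_ (Real.exp_pos _).le
          exact mul_le_mul (mul_le_mul_of_nonneg_left h2 (Real.exp_pos _).le) hb hb0
            (by positivity)
      _ = Real.exp (p7E d k ρ ς e C1 (t + 2) + (R * (((2 : ℕ) : ℝ) / d) + ς (lev d t)) +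
          (ε * gapl (lev d t) x + 2 * e (lev d t) / d) + (-(gapl (lev d t) x) + 2 * W)) *
          (f (lev d t) (p7s d t) ((x : ℤ) - lev d t) * bet c ℓ d t x) := by
          rw [p7_exp4]; ring
      _ ≤ Real.exp (p7E d k ρ ς e C1 t) *
          (f (lev d t) (p7s d t) ((x : ℤ) - lev d t) * bet c ℓ d t x) := by
          refine mul_le_mul_of_nonneg_right (Real.exp_le_exp.2 ?_) (by positivity)
          rw [hsp]
          linarith
      _ = _ := by ring

end G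

/-! ### the constants `C` -/

theorem p7_log_sub {a b : ℝ} (ha : 0 < a) (hb : 0 < b) : Real.log b - Real.log a ≤ (b - a) / a := by
  rw [← Real.log_div hb.ne' ha.ne']
  have := Real.log_le_sub_one_of_pos (div_pos hb ha)
  have e : b / a - 1 = (b - a) / a := by field_simp
  linarith

theorem p7_lamt_pos {ℓ : ℝ} (hℓ : 0 ≤ ℓ) (d t : ℕ) : 0 < lamt ℓ d t := by
  unfold lamt
  have := p7_one_le_lt d t
  linarith

theorem p7_log_Wt (c ℓ : ℝ) (d t : ℕ) : Real.log (Wt c ℓ d t) =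
    c / 2 + c * ℓ / (2 * lt d (t + 2)) - Real.log (lt d (t + 2)) := by
  have h := p7_one_le_lt d (t + 2)
  unfold Wt lamt
  rw [Real.log_div (Real.exp_ne_zero _) (by linarith), Real.log_exp]
  field_simp

/-- half of the logarithm of the factor in the recursion of `C` -/
noncomputable def p7a (d : ℕ) (c ℓ η L : ℝ) (y : ℕ → ℝ → ℝ) (t : ℕ) : ℝ :=
  (Real.log 2 - L + sfun d t + 4 * η - Real.log (lamt ℓ d t) - 2) / 2 - Real.log (p7h d y t) +
    Real.log d + Real.log (Wt c ℓ d t)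

section A

variable {d k m : ℕ} {c ℓ ε R η L : ℝ} {f : ℕ → ℝ → ℤ → ℝ} {y : ℕ → ℝ → ℝ} {ρ ς : ℕ → ℝ}

theorem p7h_pos (hU : UF d k m ε R f y ρ ς) (hR : 1 ≤ R) (t : ℕ) : 0 < p7h d y t := by
  have h1 := hU.y_ge (lev d t) (p7s d t)
  have h2 : 0 < 1 / R := by positivity
  exact h2.trans_le h1

theorem p7_exp_a (hU : UF d k m ε R f y ρ ς) (hR : 1 ≤ R) (hℓ : 0 ≤ ℓ) (hd : 1 ≤ d) (t : ℕ) :
    2 * Real.exp (-L + sfun d t + 4 * η) / (lamt ℓ d t * Real.exp 2 * p7y d c ℓ y t ^ 2) =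
      Real.exp (2 * p7a d c ℓ η L y t) := by
  have hd0 : (0 : ℝ) < d := by exact_mod_cast hd
  have h1 := p7h_pos hU hR t
  have h2 := p7_lamt_pos hℓ d t
  have h3 := p7_Wt_pos c ℓ d t
  have h4 : 0 < p7y d c ℓ y t := by unfold p7y; positivity
  have h5 : Real.log (p7y d c ℓ y t) = Real.log (p7h d y t) -
      (Real.log d + Real.log (Wt c ℓ d t)) := by
    unfold p7y
    rw [Real.log_div h1.ne' (by positivity), Real.log_mul hd0.ne' h3.ne']
  have h6 : 0 < 2 * Real.exp (-L + sfun d t + 4 * η) /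
      (lamt ℓ d t * Real.exp 2 * p7y d c ℓ y t ^ 2) := by positivity
  rw [← Real.exp_log h6]
  congr 1
  rw [Real.log_div (by positivity) (by positivity), Real.log_mul (by norm_num) (Real.exp_ne_zero _),
    Real.log_exp, Real.log_mul (by positivity) (by positivity), Real.log_mul h2.ne'
    (Real.exp_ne_zero _), Real.log_exp, Real.log_pow, h5]
  unfold p7a
  push_cast
  ring

/-- the factors increase, up to the jumps -/
theorem p7_a_succ (hU : UF d k m ε R f y ρ ς) (hR : 1 ≤ R) (hℓ : 0 ≤ ℓ) (hc : 0 ≤ c)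
    (hc2 : c ≤ 2) (hd : 6 + 4 * ℓ ≤ (d : ℝ)) (t : ℕ) :
    p7a d c ℓ η L y t ≤ p7a d c ℓ η L y (t + 1) +
      if p7h d y t = p7h d y (t + 1) then 0 else 2 * Real.log R := by
  have hd0 : (0 : ℝ) < d := by linarith
  have hd1 : 1 ≤ d := by
    have : (1 : ℝ) ≤ d := by linarith
    exact_mod_cast this
  have hlt := p7_one_le_lt d t
  have hlev := p7_lev_le_lt hd1 t
  have hlev1 := p7_one_le_lev d t
  have e2 : lt d (t + 2) = lt d t + 2 / d := by
    have := p7_lt_add d t 2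
    push_cast at this
    exact this
  have e3 : lt d (t + 1 + 2) = lt d (t + 2) + 1 / d := by
    have := p7_lt_add d (t + 2) 1
    push_cast at this
    rw [show t + 1 + 2 = t + 2 + 1 by ring]
    exact this
  have e1 : lt d (t + 1) = lt d t + 1 / d := by
    have := p7_lt_add d t 1
    push_cast at this
    exact this
  have hinv : 0 < 1 / (d : ℝ) := by positivity
  have h2d : 0 < 2 / (d : ℝ) := by positivity
  set A := lt d t with hA
  set A2 := lt d (t + 2) with hA2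
  set u := 1 / (d : ℝ) with hu
  have hAA2 : A ≤ A2 := by linarith
  -- volume
  have hs : sfun d (t + 1) = sfun d t + vslope (t / d) := sfun_succ' d t hd1
  have hv : 1 / (2 * A) ≤ vslope (t / d) := by
    refine le_trans ?_ (vslope_ge (t / d))
    have hq : ((t / d : ℕ) : ℝ) + 2 = lev d t + 1 := by unfold lev; push_cast; ring
    rw [hq]
    exact one_div_le_one_div_of_le (by linarith) (by linarith)
  -- lam
  have hl1 : Real.log (lamt ℓ d (t + 1)) - Real.log (lamt ℓ d t) ≤ u / A := by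
    have h1 := p7_log_sub (p7_lamt_pos hℓ d t) (p7_lamt_pos hℓ d (t + 1))
    refine h1.trans ?_
    unfold lamt
    rw [e1]
    have e4 : ((A + u + ℓ) / 2 - (A + ℓ) / 2) / ((A + ℓ) / 2) = u / (A + ℓ) := by
      field_simp
      ring
    rw [e4]
    exact div_le_div_of_nonneg_left hinv.le (by linarith) (by linarith)
  -- W
  have hW : Real.log (Wt c ℓ d t) - Real.log (Wt c ℓ d (t + 1)) ≤ (c * ℓ / 2 + 1) * (u / A) := by
    rw [p7_log_Wt, p7_log_Wt, e3]
    have h1 := p7_log_sub (a := A2) (b := A2 + u) (by linarith) (by linarith)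
    have h2 : (A2 + u - A2) / A2 ≤ u / A := by
      rw [add_sub_cancel_left]
      exact div_le_div_of_nonneg_left hinv.le (by linarith) hAA2
    have h3 : c * ℓ / (2 * A2) - c * ℓ / (2 * (A2 + u)) ≤ c * ℓ / 2 * (u / A) := by
      have e5 : c * ℓ / (2 * A2) - c * ℓ / (2 * (A2 + u)) = c * ℓ / 2 * (u / (A2 * (A2 + u))) := by
        have : 0 < A2 + u := by linarith
        have : 0 < A2 := by linarith
        field_simp
        ring
      rw [e5]
      refine mul_le_mul_of_nonneg_left ?_ (by positivity)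
      refine div_le_div_of_nonneg_left hinv.le (by linarith) ?_
      nlinarith
    have h4 : (c * ℓ / 2 + 1) * (u / A) = c * ℓ / 2 * (u / A) + u / A := by ring
    rw [h4]
    linarith
  -- total
  have hcl : c * ℓ ≤ 2 * ℓ := mul_le_mul_of_nonneg_right hc2 hℓ
  have hmain : 1 / 2 * (u / A) + (c * ℓ / 2 + 1) * (u / A) ≤ 1 / 2 * (1 / (2 * A)) := by
    have hA0 : 0 < A := by linarith
    have h5 : (3 / 2 + c * ℓ / 2) * u ≤ 1 / 4 := by
      rw [hu, mul_one_div, div_le_iff₀ hd0]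
      linarith
    have e6 : 1 / 2 * (u / A) + (c * ℓ / 2 + 1) * (u / A) = (3 / 2 + c * ℓ / 2) * u * (1 / A) := by
      ring
    have e7 : 1 / 2 * (1 / (2 * A)) = 1 / 4 * (1 / A) := by ring
    rw [e6, e7]
    exact mul_le_mul_of_nonneg_right h5 (by positivity)
  -- h
  have hh : Real.log (p7h d y (t + 1)) - Real.log (p7h d y t) ≤
      if p7h d y t = p7h d y (t + 1) then 0 else 2 * Real.log R := by
    split_ifs with h
    · rw [h, sub_self]
    · have h6 : Real.log (p7h d y (t + 1)) ≤ Real.log R :=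
        Real.log_le_log (p7h_pos hU hR _) (p7h_le hU _)
      have h7 : -Real.log R ≤ Real.log (p7h d y t) := by
        rw [← Real.log_inv, ← one_div]
        exact Real.log_le_log (by positivity) (hU.y_ge _ _)
      linarith
  unfold p7a
  rw [hs]
  linarith

theorem p7_a_le (hℓ : 0 ≤ ℓ) (hη : 0 ≤ η) (hη1 : η ≤ 1 / 10) (hd : 1 ≤ d) (t : ℕ) :
    p7a d (1 + 3 * η) ℓ η L y t ≤ Bx d t - L / 2 - Real.log (p7h d y t) + 7 / 2 * η +
      ℓ / lev d t := by
  have hd0 : (0 : ℝ) < d := by exact_mod_cast hd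
  have hlt := p7_one_le_lt d t
  have hlev := p7_lev_le_lt hd t
  have hlev1 := p7_one_le_lev d t
  have e2 : lt d (t + 2) = lt d t + 2 / d := by
    have := p7_lt_add d t 2
    push_cast at this
    exact this
  have h2d : 0 < 2 / (d : ℝ) := by positivity
  have hA2 : (lev d t : ℝ) ≤ lt d (t + 2) := by linarith
  have h1 : Real.log (lev d t) ≤ Real.log (lt d (t + 2)) := Real.log_le_log (by linarith) hA2
  have h2 : Real.log (lev d t) ≤ Real.log 2 + Real.log (lamt ℓ d t) := by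
    rw [← Real.log_mul (by norm_num) (p7_lamt_pos hℓ d t).ne']
    refine Real.log_le_log (by linarith) ?_
    unfold lamt
    linarith
  have h3 : (1 + 3 * η) * ℓ / (2 * lt d (t + 2)) ≤ ℓ / lev d t := by
    rw [div_le_div_iff₀ (by linarith) (by linarith)]
    have h4 : (1 + 3 * η) * ℓ * lev d t ≤ 2 * ℓ * lev d t := by
      have : (1 + 3 * η) * ℓ ≤ 2 * ℓ := mul_le_mul_of_nonneg_right (by linarith) hℓ
      exact mul_le_mul_of_nonneg_right this (by linarith)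
    have h5 : 2 * ℓ * lev d t ≤ 2 * ℓ * lt d (t + 2) :=
      mul_le_mul_of_nonneg_left hA2 (by linarith)
    linarith
  have h6 : Real.log (4 * (d : ℝ) ^ 2 / (Real.exp 1 * (lev d t : ℝ) ^ 3)) =
      2 * Real.log 2 + 2 * Real.log d - (1 + 3 * Real.log (lev d t)) := by
    rw [Real.log_div (by positivity) (by positivity), Real.log_mul (by norm_num) (by positivity),
      Real.log_mul (Real.exp_ne_zero _) (by positivity), Real.log_exp, Real.log_pow, Real.log_pow,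
      show (4 : ℝ) = 2 ^ 2 by norm_num, Real.log_pow]
    push_cast
    ring
  unfold p7a Bx
  rw [p7_log_Wt, h6]
  linarith

theorem p7_neg_a (hU : UF d k m ε R f y ρ ς) (hR : 1 ≤ R) (hℓ : 0 ≤ ℓ) (hη : 0 ≤ η)
    (hc : 0 ≤ c) {c₁ : ℝ} (hc₁ : 10 + 4 * R + 4 * ℓ ≤ c₁) (hd : 4 ≤ d) {t : ℕ}
    (ht : (t : ℝ) ≤ (d : ℝ) ^ 2 / 2) :
    -p7a d c ℓ η L y t ≤ (L - sfun d t) / 2 + c₁ * Real.log d := by
  have hd4 : (4 : ℝ) ≤ d := by exact_mod_cast hd
  have hd0 : (0 : ℝ) < d := by linarith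
  have hlt2 := p7_one_le_lt d (t + 2)
  have hlogd : 1 / 2 ≤ Real.log d := by
    have h1 : Real.log 2 ≤ Real.log d := Real.log_le_log (by norm_num) (by linarith)
    have h2 := Real.log_two_gt_d9
    linarith
  have htd : (t : ℝ) / d ≤ d / 2 := by
    rw [div_le_iff₀ hd0]
    nlinarith
  have hltd : lt d (t + 2) ≤ d := by
    have e : lt d (t + 2) = 1 + (t : ℝ) / d + 2 / d := by
      unfold lt
      push_cast
      ring
    have h2d : 2 / (d : ℝ) ≤ 1 / 2 := by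
      rw [div_le_iff₀ hd0]
      linarith
    rw [e]
    linarith
  have h1 : Real.log (lt d (t + 2)) ≤ Real.log d := Real.log_le_log (by linarith) hltd
  have h2 : Real.log (lamt ℓ d t) ≤ Real.log d + ℓ := by
    have h3 : lamt ℓ d t ≤ d * (1 + ℓ) := by
      unfold lamt lt
      nlinarith
    have h4 : Real.log (lamt ℓ d t) ≤ Real.log (d * (1 + ℓ)) :=
      Real.log_le_log (p7_lamt_pos hℓ d t) h3
    rw [Real.log_mul hd0.ne' (by linarith)] at h4
    have h5 := Real.log_le_sub_one_of_pos (show 0 < 1 + ℓ by linarith)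
    linarith
  have h3 : Real.log (p7h d y t) ≤ R := by
    have h4 : Real.log (p7h d y t) ≤ Real.log R :=
      Real.log_le_log (p7h_pos hU hR _) (p7h_le hU _)
    have h5 := Real.log_le_sub_one_of_pos (show 0 < R by linarith)
    linarith
  have h4 : 0 ≤ c * ℓ / (2 * lt d (t + 2)) := by positivity
  have h5 : 0 < Real.log 2 := Real.log_pos (by norm_num)
  have h6 : (10 + 4 * R + 4 * ℓ) * Real.log d ≤ c₁ * Real.log d :=
    mul_le_mul_of_nonneg_right hc₁ (by linarith)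
  have h7 : (9 + 4 * R + 4 * ℓ) * (1 / 2) ≤ (9 + 4 * R + 4 * ℓ) * Real.log d :=
    mul_le_mul_of_nonneg_left hlogd (by linarith)
  unfold p7a
  rw [p7_log_Wt]
  nlinarith

/-! ### jumps -/

theorem p7_floor {d m t : ℕ} : ⌊(m : ℝ) * p7s d t⌋ = (((m * (t % d)) / d : ℕ) : ℤ) := by
  have e : (m : ℝ) * p7s d t = ((m * (t % d) : ℕ) : ℝ) / d := by
    unfold p7s
    push_cast
    ring
  rw [e, ← Nat.floor_div_eq_div (K := ℝ), Int.natCast_floor_eq_floor (by positivity)]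

theorem p7_h_eq (hU : UF d k m ε R f y ρ ς) (hm : 1 ≤ m) (hd : 1 ≤ d) {s : ℕ}
    (h : (m * (s + 1)) / d = (m * s) / d) : p7h d y s = p7h d y (s + 1) := by
  have hdm := Nat.div_add_mod s d
  have hmod : s % d < d := Nat.mod_lt _ (by omega)
  have e0 : (m * s) / d = m * (s / d) + (m * (s % d)) / d := by
    conv_lhs => rw [← hdm]
    rw [mul_add, show m * (d * (s / d)) = d * (m * (s / d)) by ring,
      Nat.mul_add_div (by omega)]
  by_cases h1 : s % d + 1 < d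
  · obtain ⟨h2, h3⟩ := p7_lev_same hd h1
    have e1 : (m * (s + 1)) / d = m * (s / d) + (m * (s % d + 1)) / d := by
      conv_lhs => rw [← hdm]
      rw [show m * (d * (s / d) + s % d + 1) = d * (m * (s / d)) + m * (s % d + 1) by ring,
        Nat.mul_add_div (by omega)]
    rw [e0, e1] at h
    unfold p7h
    rw [h2]
    refine hU.y_const _ _ _ ?_
    rw [p7_floor, p7_floor, h3]
    have : (m * (s % d)) / d = (m * (s % d + 1)) / d := by omega
    rw [this]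
  · exfalso
    have e1 : s % d + 1 = d := by omega
    have e2 : (m * (s + 1)) / d = m * (s / d) + m := by
      conv_lhs => rw [← hdm]
      rw [add_assoc, e1, show m * (d * (s / d) + d) = (m * (s / d) + m) * d by ring,
        Nat.mul_div_cancel _ (by omega)]
    rw [e0, e2] at h
    have h3 : (m * (s % d)) / d < m := by
      rw [Nat.div_lt_iff_lt_mul (by omega)]
      exact Nat.mul_lt_mul_of_pos_left hmod hm
    omega

theorem p7_jump_sum (hU : UF d k m ε R f y ρ ς) (hR : 1 ≤ R) (hm : 1 ≤ m) (hd : 1 ≤ d) (n : ℕ) :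
    ∑ s ∈ Finset.range n, (if p7h d y s = p7h d y (s + 1) then (0 : ℝ) else 2 * Real.log R) ≤
      2 * Real.log R * (m * (n / d)) := by
  have hlog : 0 ≤ Real.log R := Real.log_nonneg hR
  have hd0 : (0 : ℝ) < d := by exact_mod_cast hd
  have h1 : ∀ s ∈ Finset.range n,
      (if p7h d y s = p7h d y (s + 1) then (0 : ℝ) else 2 * Real.log R) ≤
      2 * Real.log R * ((((m * (s + 1)) / d : ℕ) : ℝ) - (((m * s) / d : ℕ) : ℝ)) := by
    intro s _
    have hle : (m * s) / d ≤ (m * (s + 1)) / d :=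
      Nat.div_le_div_right (Nat.mul_le_mul_left _ (by omega))
    split_ifs with h
    · have : (((m * s) / d : ℕ) : ℝ) ≤ (((m * (s + 1)) / d : ℕ) : ℝ) := by exact_mod_cast hle
      exact mul_nonneg (by positivity) (by linarith)
    · have hlt : (m * s) / d + 1 ≤ (m * (s + 1)) / d := by
        rcases Nat.lt_or_ge ((m * s) / d) ((m * (s + 1)) / d) with h2 | h2
        · exact h2
        · exact absurd (p7_h_eq hU hm hd (le_antisymm h2 hle)) h
      have : (((m * s) / d : ℕ) : ℝ) + 1 ≤ (((m * (s + 1)) / d : ℕ) : ℝ) := by exact_mod_cast hlt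
      nlinarith
  refine (Finset.sum_le_sum h1).trans ?_
  rw [← Finset.mul_sum, Finset.sum_range_sub (fun s => (((m * s) / d : ℕ) : ℝ))]
  refine mul_le_mul_of_nonneg_left ?_ (by positivity)
  have h2 : (((m * n) / d : ℕ) : ℝ) ≤ ((m * n : ℕ) : ℝ) / d := Nat.cast_div_le
  push_cast at h2
  simp only [mul_zero, Nat.zero_div, Nat.cast_zero, sub_zero]
  calc (((m * n) / d : ℕ) : ℝ) ≤ (m : ℝ) * n / d := h2
    _ = m * (n / d) := by ring

theorem p7_count {d : ℕ} (hd : 1 ≤ d) {A : ℝ} (hA : 0 ≤ A) (l₀ n : ℕ) :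
    ∑ t ∈ Finset.range n, (if lev d t < l₀ then A else 0) ≤ A * (l₀ * d) := by
  rw [← Finset.sum_filter, Finset.sum_const, nsmul_eq_mul, mul_comm]
  refine mul_le_mul_of_nonneg_left ?_ hA
  have h1 : (Finset.range n).filter (fun t => lev d t < l₀) ⊆ Finset.range (l₀ * d) := by
    intro t ht
    rw [Finset.mem_filter] at ht
    rw [Finset.mem_range]
    have h2 : t / d < l₀ := by
      have := ht.2
      unfold lev at this
      omega
    exact (Nat.div_lt_iff_lt_mul (by omega)).1 h2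
  have h3 := Finset.card_le_card h1
  rw [Finset.card_range] at h3
  exact_mod_cast h3

/-! ### the constants `C`, definition and properties -/

/-- one term of the exponent of `C` -/
noncomputable def p7b (d : ℕ) (c ℓ η L R Lam : ℝ) (m1 : ℕ) (y : ℕ → ℝ → ℝ) (s : ℕ) : ℝ :=
  p7a d c ℓ η L y s + (if p7h d y s = p7h d y (s + 1) then 0 else 2 * Real.log R) +
    if s < m1 then Lam else 0

/-- the constants `C` -/
noncomputable def p7C (d k : ℕ) (c ℓ η L R Lam : ℝ) (m1 : ℕ) (y : ℕ → ℝ → ℝ) (B : ℝ)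
    (t : ℕ) : ℝ :=
  Real.exp (B + ∑ s ∈ Finset.Ico t k, p7b d c ℓ η L R Lam m1 y s)

theorem p7_a_le_b {Lam : ℝ} {m1 : ℕ} (hR : 1 ≤ R) (s : ℕ) :
    p7a d c ℓ η L y s + (if s < m1 then Lam else 0) ≤ p7b d c ℓ η L R Lam m1 y s := by
  unfold p7b
  have h : 0 ≤ if p7h d y s = p7h d y (s + 1) then (0 : ℝ) else 2 * Real.log R := by
    split_ifs
    · exact le_rfl
    · have := Real.log_nonneg hR
      linarith
  linarith

theorem p7_a_le_b' {Lam : ℝ} (hLam : 0 ≤ Lam) {m1 : ℕ} (hR : 1 ≤ R) (s : ℕ) :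
    p7a d c ℓ η L y s ≤ p7b d c ℓ η L R Lam m1 y s := by
  have h1 := p7_a_le_b (d := d) (c := c) (ℓ := ℓ) (η := η) (L := L) (y := y) (Lam := Lam)
    (m1 := m1) hR s
  have h2 : 0 ≤ if s < m1 then Lam else 0 := by
    split_ifs
    · exact hLam
    · exact le_rfl
  linarith

theorem p7_recC (hU : UF d k m ε R f y ρ ς) (hR : 1 ≤ R) (hℓ : 0 ≤ ℓ) (hc : 0 ≤ c)
    (hc2 : c ≤ 2) (hd : 6 + 4 * ℓ ≤ (d : ℝ)) {Lam : ℝ} (hLam : 0 ≤ Lam) {m1 : ℕ} {B : ℝ} {t : ℕ}
    (ht : t + 2 < k) :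
    p7C d k c ℓ η L R Lam m1 y B (t + 2) * (2 * Real.exp (-L + sfun d t + 4 * η) /
      (lamt ℓ d t * Real.exp 2 * p7y d c ℓ y t ^ 2)) ≤ p7C d k c ℓ η L R Lam m1 y B t := by
  have hd1 : 1 ≤ d := by
    have : (1 : ℝ) ≤ d := by linarith
    exact_mod_cast this
  rw [p7_exp_a hU hR hℓ hd1]
  unfold p7C
  rw [← Real.exp_add, Real.exp_le_exp, Finset.sum_eq_sum_Ico_succ_bot (show t < k by omega),
    Finset.sum_eq_sum_Ico_succ_bot (show t + 1 < k by omega)]
  have h1 := p7_a_succ (η := η) (L := L) hU hR hℓ hc hc2 hd t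
  have h2 := p7_a_le_b' (d := d) (c := c) (ℓ := ℓ) (η := η) (L := L) (y := y) (m1 := m1) hLam hR
    (t + 1)
  have h3 : p7a d c ℓ η L y t + (if p7h d y t = p7h d y (t + 1) then 0 else 2 * Real.log R) ≤
      p7b d c ℓ η L R Lam m1 y t := by
    unfold p7b
    have : 0 ≤ if t < m1 then Lam else 0 := by
      split_ifs
      · exact hLam
      · exact le_rfl
    linarith
  linarith

theorem p7_ratioC (hU : UF d k m ε R f y ρ ς) (hR : 1 ≤ R) (hℓ : 0 ≤ ℓ) (hη : 0 ≤ η)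
    (hc : 0 ≤ c) {c₁ : ℝ} (hc₁ : 10 + 4 * R + 4 * ℓ ≤ c₁) (hd : 4 ≤ d)
    (hk : (k : ℝ) ≤ (d : ℝ) ^ 2 / 2) {Lam : ℝ} {m1 : ℕ} (hm1 : ∀ t : ℕ, (t : ℝ) < Lam → t < m1)
    (hLam : 0 ≤ Lam) {B : ℝ} {t : ℕ} (ht : t + 1 < k) :
    p7C d k c ℓ η L R Lam m1 y B (t + 1) ≤ p7C d k c ℓ η L R Lam m1 y B t *
      Real.exp ((L - sfun d t) / 2 + c₁ * Real.log d - if (t : ℝ) < Lam then Lam else 0) := by
  unfold p7C
  rw [← Real.exp_add, Real.exp_le_exp, Finset.sum_eq_sum_Ico_succ_bot (show t < k by omega)]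
  have htk : (t : ℝ) ≤ k := by exact_mod_cast (show t ≤ k by omega)
  have h1 := p7_neg_a (η := η) (L := L) hU hR hℓ hη hc hc₁ hd (htk.trans hk)
  have h2 := p7_a_le_b (d := d) (c := c) (ℓ := ℓ) (η := η) (L := L) (y := y) (Lam := Lam)
    (m1 := m1) hR t
  have h3 : (if (t : ℝ) < Lam then Lam else 0) ≤ if t < m1 then Lam else 0 := by
    by_cases h : (t : ℝ) < Lam
    · rw [if_pos h, if_pos (hm1 t h)]
    · rw [if_neg h]
      split_ifs
      · exact hLam
      · exact le_rfl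
  linarith

theorem p7_endC (hU : UF d k m ε R f y ρ ς) (hR : 1 ≤ R) (hℓ : 0 ≤ ℓ) (hη : 0 ≤ η)
    (hc : 0 ≤ c) {c₁ : ℝ} (hc₁ : 10 + 4 * R + 4 * ℓ ≤ c₁) (hd : 4 ≤ d)
    (hk : (k : ℝ) ≤ (d : ℝ) ^ 2 / 2) (hL : sfun d k ≤ L) {Lam : ℝ} {m1 : ℕ}
    (hLam : 0 ≤ Lam) {t : ℕ} (ht : t + 1 = k ∨ t + 2 = k) :
    1 ≤ p7C d k c ℓ η L R Lam m1 y ((L - sfun d k) + 2 * (c₁ * Real.log d) + 2) t := by
  have hd4 : (4 : ℝ) ≤ d := by exact_mod_cast hd
  have hlog2 := Real.log_two_lt_d9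
  have hlogd : 0 ≤ Real.log d := Real.log_nonneg (by linarith)
  have hc₁0 : 0 ≤ c₁ * Real.log d := mul_nonneg (by linarith) hlogd
  have hbd : ∀ s, s < k → -p7b d c ℓ η L R Lam m1 y s ≤
      (L - sfun d s) / 2 + c₁ * Real.log d := by
    intro s hs
    have hsk : (s : ℝ) ≤ k := by exact_mod_cast hs.le
    have h1 := p7_neg_a (η := η) (L := L) hU hR hℓ hη hc hc₁ hd (hsk.trans hk)
    have h2 := p7_a_le_b' (d := d) (c := c) (ℓ := ℓ) (η := η) (L := L) (y := y) (m1 := m1) hLam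
      hR s
    linarith
  unfold p7C
  refine Real.one_le_exp ?_
  rcases ht with ht | ht
  · subst ht
    rw [Finset.sum_eq_sum_Ico_succ_bot (by omega), Finset.Ico_self, Finset.sum_empty]
    have h1 := hbd t (by omega)
    have h2 := sfun_add_le d t 1 (by omega)
    push_cast at h2
    linarith
  · subst ht
    rw [Finset.sum_eq_sum_Ico_succ_bot (by omega), Finset.sum_eq_sum_Ico_succ_bot (by omega),
      Finset.Ico_self, Finset.sum_empty]
    have h1 := hbd t (by omega)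
    have h1' := hbd (t + 1) (by omega)
    have h2 := sfun_add_le d t 2 (by omega)
    have h3 := sfun_add_le d (t + 1) 1 (by omega)
    push_cast at h2 h3
    rw [show t + 1 + 1 = t + 2 by ring] at h3
    linarith

/-! ### the total exponent -/

theorem p7_sum_a (hℓ : 0 ≤ ℓ) (hη : 0 < η) (hη1 : η ≤ 1 / 10) (hd : 1 ≤ d) {l₁ : ℕ}
    (hl₁ : ℓ / η ≤ l₁) :
    ∑ t ∈ Finset.range k, p7a d (1 + 3 * η) ℓ η L y t ≤
      ∑ t ∈ Finset.range k, (Bx d t - L / 2) - ∑ t ∈ Finset.range k, Real.log (p7h d y t) +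
        9 / 2 * η * k + ℓ * (l₁ * d) := by
  have h1 : ∀ t ∈ Finset.range k, p7a d (1 + 3 * η) ℓ η L y t ≤
      (Bx d t - L / 2) - Real.log (p7h d y t) + 9 / 2 * η + if lev d t < l₁ then ℓ else 0 := by
    intro t _
    have h2 := p7_a_le (L := L) (y := y) hℓ hη.le hη1 hd t
    have h3 := p7_one_le_lev d t
    have h4 : ℓ / lev d t ≤ η + if lev d t < l₁ then ℓ else 0 := by
      split_ifs with h
      · have : ℓ / lev d t ≤ ℓ := div_le_self hℓ h3
        linarith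
      · have h5 : (l₁ : ℝ) ≤ lev d t := by exact_mod_cast not_lt.1 h
        rw [add_zero, div_le_iff₀ (by linarith)]
        rw [div_le_iff₀ hη] at hl₁
        nlinarith
    linarith
  refine (Finset.sum_le_sum h1).trans ?_
  rw [Finset.sum_add_distrib, Finset.sum_add_distrib, Finset.sum_sub_distrib, Finset.sum_const,
    Finset.card_range, nsmul_eq_mul]
  have h5 := p7_count hd hℓ l₁ k
  linarith

theorem p7_sum_Lam {Lam : ℝ} (hLam : 0 ≤ Lam) (m1 n : ℕ) :
    ∑ s ∈ Finset.range n, (if s < m1 then Lam else 0) ≤ Lam * m1 := by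
  rw [← Finset.sum_filter, Finset.sum_const, nsmul_eq_mul, mul_comm]
  refine mul_le_mul_of_nonneg_left ?_ hLam
  have h1 : (Finset.range n).filter (fun s => s < m1) ⊆ Finset.range m1 := by
    intro s hs
    rw [Finset.mem_filter] at hs
    exact Finset.mem_range.2 hs.2
  have h2 := Finset.card_le_card h1
  rw [Finset.card_range] at h2
  exact_mod_cast h2

theorem p7_E_zero (hU : UF d k m ε R f y ρ ς) (hd : 1 ≤ d) {C₀ C1 : ℝ} (hC₀ : 0 ≤ C₀)
    (hη : 0 ≤ η) (l₀ : ℕ) :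
    d * p7E d k ρ ς (fun l => if l < l₀ then C₀ else η) C1 0 ≤
      ∑ t ∈ Finset.range k, ρ (lev d t) + d * ∑ l ∈ Finset.range (lev d k + 2), ς l +
        2 * R + η * k + 2 * η + C₀ * (l₀ * d) + C1 * (lev d k + 1) := by
  have hd0 : (0 : ℝ) < d := by exact_mod_cast hd
  have hl0 : lev d 0 = 1 := by unfold lev; simp
  unfold p7E
  rw [hl0, mul_add, Finset.mul_sum, Finset.mul_sum, ← Finset.range_eq_Ico]
  have e1 : ∀ τ ∈ Finset.range (k + 2), (d : ℝ) * ((ρ (lev d τ) +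
      (fun l => if l < l₀ then C₀ else η) (lev d τ)) / d) ≤
      ρ (lev d τ) + η + if lev d τ < l₀ then C₀ else 0 := by
    intro τ _
    rw [mul_div_cancel₀ _ hd0.ne']
    simp only
    split_ifs <;> linarith
  have e2 : ∀ l ∈ Finset.Ico 1 (lev d k + 2), (d : ℝ) * (ς l + C1 / d) = d * ς l + C1 := by
    intro l _
    rw [mul_add, mul_div_cancel₀ _ hd0.ne']
  rw [Finset.sum_congr rfl e2, Finset.sum_add_distrib, Finset.sum_const, Nat.card_Ico,
    nsmul_eq_mul]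
  have h1 := Finset.sum_le_sum e1
  have hρ2 : ∑ τ ∈ Finset.range (k + 2), ρ (lev d τ) =
      ∑ τ ∈ Finset.range k, ρ (lev d τ) + ρ (lev d k) + ρ (lev d (k + 1)) := by
    rw [Finset.sum_range_succ, Finset.sum_range_succ]
  have hη2 : ∑ _τ ∈ Finset.range (k + 2), η = ((k : ℝ) + 2) * η := by
    rw [Finset.sum_const, Finset.card_range, nsmul_eq_mul]
    push_cast
    ring
  have hsplit : ∑ τ ∈ Finset.range (k + 2), (ρ (lev d τ) + η + if lev d τ < l₀ then C₀ else 0) =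
      ∑ τ ∈ Finset.range (k + 2), ρ (lev d τ) + ∑ _τ ∈ Finset.range (k + 2), η +
        ∑ τ ∈ Finset.range (k + 2), if lev d τ < l₀ then C₀ else 0 := by
    rw [Finset.sum_add_distrib, Finset.sum_add_distrib]
  rw [hsplit, hρ2, hη2] at h1
  have h2 := p7_count hd hC₀ l₀ (k + 2)
  have h3 := hU.ρ_le (lev d k)
  have h4 := hU.ρ_le (lev d (k + 1))
  have h5 : ∑ l ∈ Finset.Ico 1 (lev d k + 2), (d : ℝ) * ς l ≤
      d * ∑ l ∈ Finset.range (lev d k + 2), ς l := by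
    rw [← Finset.mul_sum]
    refine mul_le_mul_of_nonneg_left ?_ hd0.le
    refine Finset.sum_le_sum_of_subset_of_nonneg ?_ (fun l _ _ => hU.ς_nonneg l)
    intro l hl
    rw [Finset.mem_Ico] at hl
    exact Finset.mem_range.2 hl.2
  have h6 : ((lev d k + 2 - 1 : ℕ) : ℝ) = lev d k + 1 := by
    rw [Nat.cast_sub (by omega)]
    push_cast
    ring
  rw [h6]
  linarith

theorem p7_hr_le (hU : UF d k m ε R f y ρ ς) (hR : 1 ≤ R) (t s x : ℕ) :
    p7h d y t * p7r d f s x ≤ R ^ 2 := by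
  have a1 := p7h_le hU t
  have a2 := p7r_le hU s x
  have a3 := p7h_nonneg hU hR t
  have a4 := p7r_nonneg hU s x
  calc p7h d y t * p7r d f s x ≤ R * R := by gcongr
    _ = R ^ 2 := by ring

theorem p7_y_ge (hU : UF d k m ε R f y ρ ς) (hR : 1 ≤ R) (hℓ : 0 ≤ ℓ) (hc : 0 ≤ c)
    (hc2 : c ≤ 2) {c₁ : ℝ} (hc₁ : 10 + 4 * R + 4 * ℓ ≤ c₁) (hd : 2 ≤ d) (t : ℕ) :
    Real.exp (-(c₁ * Real.log d)) ≤ p7y d c ℓ y t := by
  have hd2 : (2 : ℝ) ≤ d := by exact_mod_cast hd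
  have hd0 : (0 : ℝ) < d := by linarith
  have hlogd : 1 / 2 ≤ Real.log d := by
    have h1 : Real.log 2 ≤ Real.log d := Real.log_le_log (by norm_num) hd2
    have h2 := Real.log_two_gt_d9
    linarith
  have h1 := p7h_pos hU hR t
  have h3 := p7_Wt_pos c ℓ d t
  have h4 : 0 < p7y d c ℓ y t := by unfold p7y; positivity
  have h5 : Real.log (p7y d c ℓ y t) = Real.log (p7h d y t) -
      (Real.log d + Real.log (Wt c ℓ d t)) := by
    unfold p7y
    rw [Real.log_div h1.ne' (by positivity), Real.log_mul hd0.ne' h3.ne']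
  have h6 : -R ≤ Real.log (p7h d y t) := by
    have h7 : Real.log (1 / R) ≤ Real.log (p7h d y t) :=
      Real.log_le_log (by positivity) (hU.y_ge _ _)
    rw [one_div, Real.log_inv] at h7
    have h8 := Real.log_le_sub_one_of_pos (show 0 < R by linarith)
    linarith
  have hlt := p7_one_le_lt d (t + 2)
  have h9 : 0 ≤ Real.log (lt d (t + 2)) := Real.log_nonneg hlt
  have h10 : c * ℓ / (2 * lt d (t + 2)) ≤ ℓ := by
    rw [div_le_iff₀ (by linarith)]
    have : c * ℓ ≤ 2 * ℓ := mul_le_mul_of_nonneg_right hc2 hℓ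
    nlinarith
  rw [← Real.exp_log h4]
  refine Real.exp_le_exp.2 ?_
  rw [h5, p7_log_Wt]
  have h11 : (10 + 4 * R + 4 * ℓ) * Real.log d ≤ c₁ * Real.log d :=
    mul_le_mul_of_nonneg_right hc₁ (by linarith)
  have h12 : (9 + 4 * R + 4 * ℓ) * (1 / 2) ≤ (9 + 4 * R + 4 * ℓ) * Real.log d :=
    mul_le_mul_of_nonneg_left hlogd (by linarith)
  nlinarith

end A

theorem p7_log_sq (c₃ : ℝ) : ∃ D : ℕ, ∀ d : ℕ, D ≤ d →
    c₃ * Real.log d * (c₃ * Real.log d + 1) ≤ d := by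
  have h1 : (fun x : ℝ => Real.log x ^ 2) =o[Filter.atTop] (fun x : ℝ => x) :=
    Real.isLittleO_pow_log_id_atTop
  have h2 : (fun x : ℝ => Real.log x) =o[Filter.atTop] (fun x : ℝ => x) :=
    Real.isLittleO_log_id_atTop
  have h3 : (fun x : ℝ => c₃ ^ 2 * Real.log x ^ 2 + c₃ * Real.log x) =o[Filter.atTop]
      (fun x : ℝ => x) :=
    (h1.const_mul_left _).add (h2.const_mul_left _)
  obtain ⟨D, hD⟩ := Filter.eventually_atTop.1
    ((h3.bound zero_lt_one).and (Filter.eventually_ge_atTop 0))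
  refine ⟨⌈D⌉₊, fun d hd => ?_⟩
  have h4 := (hD d ((Nat.le_ceil D).trans (by exact_mod_cast hd))).1
  rw [Real.norm_eq_abs, Real.norm_eq_abs, abs_of_nonneg (show (0 : ℝ) ≤ (d : ℝ) from
    Nat.cast_nonneg d), one_mul] at h4
  have h5 := (le_abs_self _).trans h4
  calc c₃ * Real.log d * (c₃ * Real.log d + 1) = c₃ ^ 2 * Real.log d ^ 2 + c₃ * Real.log d := by
        ring
    _ ≤ d := h5

theorem p7_final {Sa Sj Sl dE H Sρ Sς SB ε η k d X R C₀ l₀ l₁ ℓ c₁ lg C1 CA CB D Lm lv G : ℝ}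
    (ha : Sa ≤ SB - H + 9 / 2 * η * k + ℓ * (l₁ * d)) (hj : Sj ≤ G) (hj2 : G ≤ 2 * R * X)
    (hl : Sl ≤ Lm) (hLm : Lm ≤ d)
    (hE : dE ≤ Sρ + Sς + 2 * R + η * k + 2 * η + C₀ * (l₀ * d) + C1 * (lv + 1))
    (hC1X : C1 * (lv + 1) ≤ C1 * (3 * X)) (hc1d : c₁ * lg ≤ c₁ * d) (hd1 : 1 ≤ d)
    (hηk : (9 / 2 * η + η) * k ≤ ε * k) (hR : 0 ≤ R) (hη : 0 ≤ η)
    (hCA : CA = 2 * c₁ + 3 + ℓ * l₁ + 3 * R + 2 * η + C₀ * l₀) (hCB : CB = 2 * R + 3 * C1)
    (hAX : 0 ≤ CA * X) (hBd : 0 ≤ CB * d) :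
    D + 2 * (c₁ * lg) + 2 + (Sa + Sj + Sl) + (dE + d * R) ≤
      SB + (Sρ - H + Sς) + ε * k + (CA + CB) * (d + X) + D := by
  have hRd : (2 * R + 2 * η) * 1 ≤ (2 * R + 2 * η) * d :=
    mul_le_mul_of_nonneg_left hd1 (by linarith)
  have e1 : CA * d = 2 * (c₁ * d) + 3 * d + ℓ * (l₁ * d) + 3 * R * d + 2 * η * d +
      C₀ * (l₀ * d) := by rw [hCA]; ring
  have e2 : CB * X = 2 * R * X + C1 * (3 * X) := by rw [hCB]; ring
  have e3 : (CA + CB) * (d + X) = CA * d + CA * X + CB * d + CB * X := by ring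
  rw [e3, e1, e2]
  linarith

/-- the potential given by a family -/
theorem exists_PF (ε R : ℝ) (hε0 : 0 < ε) (hε1 : ε ≤ 1) (hR : 1 ≤ R) :
    ∃ η R' c₁ : ℝ, 0 < η ∧ η ≤ 1 / 10 ∧ η ≤ ε ∧ 1 ≤ R' ∧ 0 ≤ c₁ ∧ ∀ c₃ : ℝ, 0 ≤ c₃ →
      ∃ c₂ : ℝ, 0 < c₂ ∧ ∃ C : ℝ, 0 ≤ C ∧ ∃ D₀ : ℕ, ∀ (d k m : ℕ) (L : ℝ)
        (f : ℕ → ℝ → ℤ → ℝ) (y : ℕ → ℝ → ℝ) (ρ ς : ℕ → ℝ),
        D₀ ≤ d → d ≤ k → (k : ℝ) ≤ c₂ * d ^ 2 → 1 ≤ m → sfun d k ≤ L →
        UF d k m ε R f y ρ ς →
        ∃ (lam y' C' : ℕ → ℝ) (F : ℕ → ℕ → ℝ), PF d k L η R' c₁ c₃ lam y' C' F ∧ lam 0 ≤ C ∧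
          C' 0 * F 0 1 ^ d ≤ Real.exp (∑ t ∈ Finset.range k, (Bx d t - L / 2) +
            Vsum d k y ρ ς + ε * k + C * (d + m * (k / d)) + (L - sfun d k)) := by
  obtain ⟨η, hη⟩ : ∃ η : ℝ, η = ε / 100 := ⟨_, rfl⟩
  have hη0 : 0 < η := by rw [hη]; positivity
  have hη1 : η ≤ 1 / 10 := by linarith
  obtain ⟨ℓ, hℓ⟩ : ∃ ℓ : ℝ, ℓ = 10 / η := ⟨_, rfl⟩
  have hηℓ : η * ℓ = 10 := by rw [hℓ]; field_simp
  have hℓ1 : 1 ≤ ℓ := by
    rw [hℓ, le_div_iff₀ hη0]
    linarith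
  have hℓ0 : 0 ≤ ℓ := by linarith
  have hc0 : 0 ≤ 1 + 3 * η := by linarith
  have hc2 : 1 + 3 * η ≤ 2 := by linarith
  obtain ⟨Cb, hCb0, hCb⟩ := bet_add_one (1 + 3 * η) ℓ hc0 hc2 hℓ1
  obtain ⟨c₁, hc₁⟩ : ∃ c₁ : ℝ, c₁ = 10 + 4 * R + 4 * ℓ + Cb := ⟨_, rfl⟩
  have hc₁' : 10 + 4 * R + 4 * ℓ ≤ c₁ := by linarith
  have hR2 : 1 ≤ R ^ 2 := one_le_pow₀ hR
  refine ⟨η, 3 * R ^ 2, c₁, hη0, hη1, by linarith, by linarith, by linarith, fun c₃ hc₃ => ?_⟩
  obtain ⟨C₀, hC₀, l₀, c₂, hc₂, D₁, hb2⟩ := bet_add_two η ε (1 + 3 * η) ℓ hη0 hε0 hc0 hc2 hℓ1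
  obtain ⟨D₂, hw1⟩ := weight_one (1 + 3 * η) ℓ hc0 hc2 hℓ0
  obtain ⟨D₃, hwl⟩ := weight_long (1 + 3 * η) ℓ hc0 hℓ0
  obtain ⟨D₄, hlog2⟩ := p7_log_sq c₃
  obtain ⟨l₁, hl₁⟩ : ∃ l₁ : ℕ, ℓ / η ≤ l₁ := ⟨⌈ℓ / η⌉₊, Nat.le_ceil _⟩
  obtain ⟨C1, hC1⟩ : ∃ C1 : ℝ, C1 = 3 * R + 2 * R ^ 2 + 2 * (C₀ + η) := ⟨_, rfl⟩
  have hC10 : 0 ≤ C1 := by rw [hC1]; positivity
  obtain ⟨CA, hCA⟩ : ∃ CA : ℝ, CA = 2 * c₁ + 3 + ℓ * l₁ + 3 * R + 2 * η + C₀ * l₀ := ⟨_, rfl⟩
  obtain ⟨CB, hCB⟩ : ∃ CB : ℝ, CB = 2 * R + 3 * C1 := ⟨_, rfl⟩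
  have hCA0 : 0 ≤ CA := by
    have h1 : 0 ≤ ℓ * l₁ := by positivity
    have h2 : 0 ≤ C₀ * l₀ := by positivity
    linarith
  have hCB0 : 0 ≤ CB := by linarith
  refine ⟨min c₂ (1 / 4), lt_min hc₂ (by norm_num), CA + CB, by linarith,
    max (max D₁ D₂) (max (max D₃ D₄) (max 4 ⌈6 + 4 * ℓ⌉₊)), ?_⟩
  intro d k m L f y ρ ς hd hdk hk hm hL hU
  have hD1 : D₁ ≤ d := (le_max_left D₁ D₂).trans ((le_max_left _ _).trans hd)
  have hD2 : D₂ ≤ d := (le_max_right D₁ D₂).trans ((le_max_left _ _).trans hd)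
  have hD34 : max D₃ D₄ ≤ d := (le_max_left _ _).trans ((le_max_right _ _).trans hd)
  have hD3 : D₃ ≤ d := (le_max_left D₃ D₄).trans hD34
  have hD4 : D₄ ≤ d := (le_max_right D₃ D₄).trans hD34
  have hD56 : max 4 ⌈6 + 4 * ℓ⌉₊ ≤ d := (le_max_right _ _).trans ((le_max_right _ _).trans hd)
  have hd4 : 4 ≤ d := (le_max_left _ _).trans hD56
  have hd6 : 6 + 4 * ℓ ≤ (d : ℝ) :=
    (Nat.le_ceil _).trans (by exact_mod_cast (le_max_right 4 _).trans hD56)
  have hd1 : 1 ≤ d := by omega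
  have hd4' : (4 : ℝ) ≤ d := by exact_mod_cast hd4
  have hd0 : (0 : ℝ) < d := by linarith
  have hdsq : (0 : ℝ) ≤ (d : ℝ) ^ 2 := by positivity
  have hk2 : (k : ℝ) ≤ c₂ * d ^ 2 := hk.trans (mul_le_mul_of_nonneg_right (min_le_left _ _) hdsq)
  have hk4 : (k : ℝ) ≤ 1 / 4 * d ^ 2 :=
    hk.trans (mul_le_mul_of_nonneg_right (min_le_right _ _) hdsq)
  have hkd2 : (k : ℝ) ≤ (d : ℝ) ^ 2 / 2 := by linarith
  have hlogd : 1 / 2 ≤ Real.log d := by
    have h1 : Real.log 2 ≤ Real.log d := Real.log_le_log (by norm_num) (by linarith)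
    have h2 := Real.log_two_gt_d9
    linarith
  have he0 : ∀ l, 0 ≤ (fun l => if l < l₀ then C₀ else η) l := by
    intro l
    simp only
    split_ifs <;> linarith
  have he1 : ∀ l, (fun l => if l < l₀ then C₀ else η) l ≤ C₀ + η := by
    intro l
    simp only
    split_ifs <;> linarith
  have hLam0 : 0 ≤ c₃ * Real.log d := mul_nonneg hc₃ (by linarith)
  have hm1 : ∀ t : ℕ, (t : ℝ) < c₃ * Real.log d → t < ⌈c₃ * Real.log d⌉₊ :=
    fun t ht => Nat.lt_ceil.2 ht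
  have hPFw : ∀ t s x : ℕ, t < k → s = t + 1 ∨ s = t + 2 → 1 ≤ x →
      p7y d (1 + 3 * η) ℓ y t * (Real.exp ((1 + 3 * η) * lamt ℓ d t / x) / x *
        (p7G d k (1 + 3 * η) ℓ f ρ ς (fun l => if l < l₀ then C₀ else η) C1 s (x + 1) /
          p7G d k (1 + 3 * η) ℓ f ρ ς (fun l => if l < l₀ then C₀ else η) C1 s x)) ≤
      3 * R ^ 2 / d := by
    intro t s x ht hs hx
    rcases hs with rfl | rfl
    · refine (p7_w1 hU hR hc0 hℓ0 hd1 t x hx (hw1 d t x hD2 hx)).trans ?_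
      have h1 := p7_hr_le hU hR t (t + 1) x
      have e1 : 3 * (p7h d y t / d * p7r d f (t + 1) x) =
        3 * (p7h d y t * p7r d f (t + 1) x) / d := by ring
      rw [e1]
      gcongr
    · refine (p7_w2 hU hR hc0 hℓ0 hd1 t x hx).trans ?_
      have h1 := p7_hr_le hU hR t (t + 2) x
      have e1 : p7h d y t / d * p7r d f (t + 2) x = (p7h d y t * p7r d f (t + 2) x) / d := by ring
      rw [e1]
      exact div_le_div_of_nonneg_right (by linarith) hd0.le
  refine ⟨fun t => lamt ℓ d t, fun t => p7y d (1 + 3 * η) ℓ y t,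
    p7C d k (1 + 3 * η) ℓ η L R (c₃ * Real.log d) ⌈c₃ * Real.log d⌉₊ y
      ((L - sfun d k) + 2 * (c₁ * Real.log d) + 2),
    fun t x => p7G d k (1 + 3 * η) ℓ f ρ ς (fun l => if l < l₀ then C₀ else η) C1
      (min t (k + 2)) x, ?_, ?_, ?_⟩
  · refine
      { F_ge := fun t x => p7G_ge hU he0 hC10 _ _
        C_pos := fun t => Real.exp_pos _
        y_ge := fun t => p7_y_ge hU hR hℓ0 hc0 hc2 hc₁' (by omega) t
        lam_ge := ?_
        lam_le := ?_
        lam_mono := ?_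
        lam_lip := ?_
        sdF := ?_
        w_le := ?_
        w_lex := ?_
        stepF := ?_
        recC := ?_
        ratioC := ?_
        endC := ?_ }
    · intro t
      unfold lamt
      have := p7_one_le_lt d t
      linarith
    · intro t
      unfold lamt lt
      have : (0 : ℝ) ≤ (t : ℝ) / d := by positivity
      linarith
    · intro s t hst
      have h1 : (s : ℝ) / d ≤ (t : ℝ) / d := by
        have : (s : ℝ) ≤ t := by exact_mod_cast hst
        gcongr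
      show lamt ℓ d s ≤ lamt ℓ d t
      unfold lamt lt
      linarith
    · intro t
      have h1 : lt d (t + 4 * d + 4) = lt d t + 4 + 4 / d := by
        unfold lt
        push_cast
        field_simp
        ring
      unfold lamt
      rw [h1]
      have h2 := p7_one_le_lt d t
      have h3 : 4 / (d : ℝ) ≤ 1 := by
        rw [div_le_one hd0]
        exact hd4'
      have h4 : 0 ≤ η * lt d t := by positivity
      have e1 : (1 + η) * ((lt d t + ℓ) / 2) = (lt d t + ℓ) / 2 + η * lt d t / 2 + η * ℓ / 2 := by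
        ring
      rw [e1, hηℓ]
      linarith
    · intro t x ht hx
      have e1 : min t (k + 2) = t := min_eq_left (by omega)
      have e2 : min (t + 2) (k + 2) = t + 2 := min_eq_left (by omega)
      have htk : (t : ℝ) ≤ k := by exact_mod_cast ht.le
      have h := p7_sd (e := fun l => if l < l₀ then C₀ else η) (C1 := C1) hU hR hε1 hc0 hℓ0
        (by omega) he0 he1 (by rw [hC1]) ht hx (hb2 d t x hD1 (htk.trans hk2) hx)
      unfold wP
      simp only [e1, e2]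
      rw [mul_assoc 2]
      exact h
    · intro t s x ht hs hx
      have e2 : min s (k + 2) = s := min_eq_left (by omega)
      unfold wP
      simp only [e2]
      exact hPFw t s x ht hs hx
    · intro t s x ht hs hx
      have e2 : min s (k + 2) = s := min_eq_left (by omega)
      unfold wP
      simp only [e2]
      rcases Nat.lt_or_ge (lev d t) x with hxl | hxl
      · refine (p7_wl hU hR hc0 hℓ0 hd1 t s x hx (hwl d t x hD3 hxl)).trans ?_
        have h1 := p7_hr_le hU hR t s x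
        have e1 : 3 * (p7h d y t * lev d t / d * p7r d f s x) =
          3 * (p7h d y t * p7r d f s x) * lev d t / d := by ring
        rw [e1]
        gcongr
      · have h1 := hPFw t s x ht hs hx
        have h2 : (x : ℝ) ≤ lev d t := by exact_mod_cast hxl
        have h3 : (0 : ℝ) ≤ 3 * R ^ 2 / d := by positivity
        calc _ ≤ 3 * R ^ 2 / d * x := mul_le_mul_of_nonneg_right h1 (by positivity)
          _ ≤ 3 * R ^ 2 / d * lev d t := mul_le_mul_of_nonneg_left h2 h3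
          _ = 3 * R ^ 2 * lev d t / d := by ring
    · intro t x hx
      rcases Nat.lt_or_ge t (k + 2) with ht | ht
      · have e1 : min t (k + 2) = t := min_eq_left (by omega)
        have e2 : min (t + 1) (k + 2) = t + 1 := min_eq_left (by omega)
        rw [e1, e2]
        have ht' : (t : ℝ) ≤ (d : ℝ) ^ 2 := by
          have h1 : (t : ℝ) ≤ k + 1 := by exact_mod_cast (show t ≤ k + 1 by omega)
          nlinarith
        have h := p7_step (c := 1 + 3 * η) (ℓ := ℓ) (e := fun l => if l < l₀ then C₀ else η)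
          (C1 := C1) hU (by omega) he0 hC10 ht hx
          (hCb d t x (by omega) (by exact_mod_cast ht') hx)
        refine h.trans (mul_le_mul_of_nonneg_left (Real.exp_le_exp.2 ?_)
          (p7G_pos hU _ _).le)
        have e3 : R * (1 / d) + Cb * Real.log d / d = (R + Cb * Real.log d) / d := by ring
        rw [e3]
        refine div_le_div_of_nonneg_right ?_ hd0.le
        have h5 : (10 + 4 * R + 4 * ℓ) * (1 / 2) ≤ (10 + 4 * R + 4 * ℓ) * Real.log d :=
          mul_le_mul_of_nonneg_left hlogd (by linarith)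
        rw [hc₁]
        linarith
      · have e1 : min t (k + 2) = k + 2 := min_eq_right ht
        have e2 : min (t + 1) (k + 2) = k + 2 := min_eq_right (by omega)
        rw [e1, e2]
        have h1 : 1 ≤ Real.exp (c₁ * Real.log d / d) := by
          refine Real.one_le_exp (div_nonneg (mul_nonneg (by linarith) (by linarith)) hd0.le)
        exact le_mul_of_one_le_right (p7G_pos hU _ _).le h1
    · intro t ht
      exact p7_recC hU hR hℓ0 hc0 hc2 hd6 hLam0 ht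
    · intro t ht
      exact p7_ratioC hU hR hℓ0 hη0.le hc0 hc₁' hd4 hkd2 hm1 hLam0 ht
    · intro t ht
      exact p7_endC hU hR hℓ0 hη0.le hc0 hc₁' hd4 hkd2 hL hLam0 ht
  · have e1 : lamt ℓ d 0 = (1 + ℓ) / 2 := by unfold lamt lt; simp
    show lamt ℓ d 0 ≤ CA + CB
    rw [e1]
    have h1 : 0 ≤ ℓ * l₁ := by positivity
    have h2 : 0 ≤ C₀ * l₀ := by positivity
    linarith
  · simp only
    rw [min_eq_left (Nat.zero_le _)]
    have hG : p7G d k (1 + 3 * η) ℓ f ρ ς (fun l => if l < l₀ then C₀ else η) C1 0 1 ≤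
        Real.exp (p7E d k ρ ς (fun l => if l < l₀ then C₀ else η) C1 0 + R) := by
      unfold p7G
      rw [bet_zero hd1, mul_one, Real.exp_add]
      refine mul_le_mul_of_nonneg_left ?_ (Real.exp_pos _).le
      refine (hU.f_le _ _ _).trans ?_
      have := Real.add_one_le_exp R
      linarith
    have hGd : p7G d k (1 + 3 * η) ℓ f ρ ς (fun l => if l < l₀ then C₀ else η) C1 0 1 ^ d ≤
        Real.exp (d * (p7E d k ρ ς (fun l => if l < l₀ then C₀ else η) C1 0 + R)) := by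
      rw [Real.exp_nat_mul]
      exact pow_le_pow_left₀ (p7G_pos hU _ _).le hG d
    unfold p7C
    refine (mul_le_mul_of_nonneg_left hGd (Real.exp_pos _).le).trans ?_
    rw [← Real.exp_add, Real.exp_le_exp, mul_add (d : ℝ)]
    have hE := p7_E_zero (C1 := C1) hU hd1 hC₀ hη0.le l₀
    have hb : ∑ s ∈ Finset.Ico 0 k, p7b d (1 + 3 * η) ℓ η L R (c₃ * Real.log d)
        ⌈c₃ * Real.log d⌉₊ y s = ∑ s ∈ Finset.range k, p7a d (1 + 3 * η) ℓ η L y s +
        ∑ s ∈ Finset.range k, (if p7h d y s = p7h d y (s + 1) then (0 : ℝ) else 2 * Real.log R) +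
        ∑ s ∈ Finset.range k, (if s < ⌈c₃ * Real.log d⌉₊ then c₃ * Real.log d else 0) := by
      unfold p7b
      rw [← Finset.range_eq_Ico, Finset.sum_add_distrib, Finset.sum_add_distrib]
    have ha := p7_sum_a (k := k) (L := L) (y := y) hℓ0 hη0 hη1 hd1 hl₁
    have hj := p7_jump_sum hU hR hm hd1 k
    have hlam := p7_sum_Lam hLam0 ⌈c₃ * Real.log d⌉₊ k
    have hceil : c₃ * Real.log d * ⌈c₃ * Real.log d⌉₊ ≤ d :=
      (mul_le_mul_of_nonneg_left (Nat.ceil_lt_add_one hLam0).le hLam0).trans (hlog2 d hD4)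
    have hlogR : Real.log R ≤ R := by
      have := Real.log_le_sub_one_of_pos (show 0 < R by linarith)
      linarith
    have hlogd' : Real.log d ≤ d := by
      have := Real.log_le_sub_one_of_pos hd0
      linarith
    have hkd : (1 : ℝ) ≤ (k : ℝ) / d := by
      rw [le_div_iff₀ hd0, one_mul]
      exact_mod_cast hdk
    have hm' : (1 : ℝ) ≤ m := by exact_mod_cast hm
    have hlevk : (lev d k : ℝ) ≤ 1 + (k : ℝ) / d := p7_lev_le_lt hd1 k
    obtain ⟨X, hX⟩ : ∃ X : ℝ, X = (m : ℝ) * (k / d) := ⟨_, rfl⟩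
    have hX1 : (k : ℝ) / d ≤ X := by
      rw [hX]
      nlinarith
    have hj2 : 2 * Real.log R * X ≤ 2 * R * X := by
      refine mul_le_mul_of_nonneg_right ?_ (by linarith)
      linarith
    have hC1X : C1 * (lev d k + 1) ≤ C1 * (3 * X) := by
      refine mul_le_mul_of_nonneg_left ?_ hC10
      linarith
    have hc1d : c₁ * Real.log d ≤ c₁ * d := mul_le_mul_of_nonneg_left hlogd' (by linarith)
    have hV : Vsum d k y ρ ς = ∑ t ∈ Finset.range k, ρ (lev d t) -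
        ∑ t ∈ Finset.range k, Real.log (p7h d y t) +
        d * ∑ l ∈ Finset.range (lev d k + 2), ς l := by
      unfold Vsum
      rw [Finset.sum_sub_distrib]
      rfl
    rw [hb, hV, ← hX]
    rw [← hX] at hj
    have hd1' : (1 : ℝ) ≤ d := by linarith
    have hηk : (9 / 2 * η + η) * k ≤ ε * k := by
      refine mul_le_mul_of_nonneg_right ?_ (by positivity)
      linarith
    have hAX : 0 ≤ CA * X := mul_nonneg hCA0 (by linarith)
    have hBd : 0 ≤ CB * d := mul_nonneg hCB0 hd0.le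
    exact p7_final ha hj hj2 hlam hceil hE hC1X hc1d hd1' hηk (by linarith) hη0.le hCA hCB hAX hBd

end Pool.Agent.Lib.MP_8501c9_pr.Wide
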