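import Pool.Agent.Lib.MP_8501c9_pr.Wide.BrunWin
import Pool.Agent.Lib.MP_8501c9_pr.Wide.Pairs

/-!
# The balanced schedule
-/

set_option autoImplicit false
open Set

namespace Pool.Agent.Lib.MP_8501c9_pr.Wide

open Pool.Agent.Lib.MP_8501c9_pr Pool.Agent.Lib.MP_8501c9_pr.Mid

variable {n d : ℕ}

theorem brun_room {w w' : ℕ} {z : Vtx n d} (h : Room w z) (hw : w' ≤ w) : Room w' z :=
  fun i => ⟨hw.trans (h i).1, by have := (h i).2; omega⟩

theorem brun_sfun_mul {d : ℕ} (hd : 1 ≤ d) (l : ℕ) :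
    sfun d (l * d) = d * Real.log (l + 1) := by
  rw [sfun_eq d (l * d) hd l le_rfl (Nat.mul_le_mul_right d (Nat.le_succ l))]
  push_cast
  ring

theorem brun_fch {d : ℕ} {L S : ℝ} {y : ℕ} (hd : 4 ≤ d) (hy1 : 1 ≤ y) (hy : y ≤ 2 * d)
    (hL : S + 6 * Real.log d ≤ L) :
    Real.exp (S - L - 4 * Real.log d) ≤ fch (Real.exp (-L)) (Real.exp S) y := by
  have hd' : (4 : ℝ) ≤ d := by exact_mod_cast hd
  have hd0 : (0 : ℝ) < d := by linarith
  have hy1' : (1 : ℝ) ≤ y := by exact_mod_cast hy1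
  have hy' : (y : ℝ) ≤ 2 * d := by exact_mod_cast hy
  have hlog : 0 ≤ Real.log d := Real.log_nonneg (by linarith)
  set w : ℝ := Real.exp (S - L) with hw
  have hw0 : 0 < w := Real.exp_pos _
  have hw1 : w ≤ 1 / 4 := by
    have h1 : w ≤ Real.exp (-Real.log d) := Real.exp_le_exp.2 (by linarith)
    rw [Real.exp_neg, Real.exp_log hd0] at h1
    have h2 : (d : ℝ)⁻¹ ≤ 4⁻¹ := inv_anti₀ (by norm_num) hd'
    linarith
  have hmul : 4 * Real.exp (-L) * Real.exp S = 4 * w := by
    rw [mul_assoc, ← Real.exp_add, hw]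
    congr 2
    ring
  unfold fch
  rw [hmul]
  set u : ℝ := 4 * w / (y : ℝ) ^ 3 with hu
  have hy3 : (1 : ℝ) ≤ (y : ℝ) ^ 3 := one_le_pow₀ hy1'
  have hu0 : 0 ≤ u := by positivity
  have hu1 : u ≤ 1 := by
    rw [hu, div_le_one (by positivity)]
    linarith
  have h3 : Real.exp (-u) ≤ 1 - u / 2 := by
    have h4 : 1 + u ≤ Real.exp u := by linarith [Real.add_one_le_exp u]
    have h5 : Real.exp (-u) ≤ (1 + u)⁻¹ := by
      rw [Real.exp_neg]
      exact inv_anti₀ (by linarith) h4
    have h6 : (1 + u)⁻¹ ≤ 1 - u / 2 := by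
      rw [inv_le_iff_one_le_mul₀ (by linarith)]
      nlinarith
    linarith
  have h7 : Real.exp (S - L - 4 * Real.log d) ≤ u / 2 := by
    have e1 : Real.exp (S - L - 4 * Real.log d) = w / (d : ℝ) ^ 4 := by
      rw [Real.exp_sub, ← hw]
      congr 1
      rw [show (4 : ℝ) * Real.log d = Real.log d * (4 : ℕ) by push_cast; ring,
        Real.exp_mul, Real.exp_log hd0, Real.rpow_natCast]
    rw [e1, hu, div_div, div_le_div_iff₀ (by positivity) (by positivity)]
    have h8 : (y : ℝ) ^ 3 ≤ (2 * d) ^ 3 := by gcongr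
    have h9 : (2 * (d : ℝ)) ^ 3 * 2 ≤ 4 * (d : ℝ) ^ 4 := by
      nlinarith [pow_pos hd0 3, mul_le_mul_of_nonneg_right hd' (pow_pos hd0 3).le]
    nlinarith
  linarith

theorem brun_term {d t : ℕ} {L S : ℝ} (hd : 4 ≤ d) (hS : sfun d t ≤ S) :
    Bx d t - L / 2 ≤ (S - L) / 2 + 2 * Real.log d := by
  have hd' : (4 : ℝ) ≤ d := by exact_mod_cast hd
  have hd0 : (0 : ℝ) < d := by linarith
  unfold Bx
  have hlev : (1 : ℝ) ≤ lev d t := by
    have : 1 ≤ lev d t := Nat.le_add_left 1 (t / d)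
    exact_mod_cast this
  have hlev3 : (1 : ℝ) ≤ (lev d t : ℝ) ^ 3 := one_le_pow₀ hlev
  have he : (1 : ℝ) ≤ Real.exp 1 := by linarith [Real.add_one_le_exp (1 : ℝ)]
  have h1 : Real.log (4 * (d : ℝ) ^ 2 / (Real.exp 1 * (lev d t : ℝ) ^ 3)) ≤ 4 * Real.log d := by
    have h2 : 4 * (d : ℝ) ^ 2 / (Real.exp 1 * (lev d t : ℝ) ^ 3) ≤ (d : ℝ) ^ 4 := by
      rw [div_le_iff₀ (by positivity)]
      have h3 : 4 * (d : ℝ) ^ 2 ≤ (d : ℝ) ^ 4 := by
        have h30 : (4 : ℝ) ≤ (d : ℝ) ^ 2 := by nlinarith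
        nlinarith [mul_le_mul_of_nonneg_right h30 (pow_pos hd0 2).le]
      have h4 : (1 : ℝ) ≤ Real.exp 1 * (lev d t : ℝ) ^ 3 := one_le_mul_of_one_le_of_one_le he hlev3
      have h5 : (d : ℝ) ^ 4 * 1 ≤ (d : ℝ) ^ 4 * (Real.exp 1 * (lev d t : ℝ) ^ 3) := by gcongr
      linarith
    have h6 := Real.log_le_log (by positivity) h2
    rw [Real.log_pow] at h6
    push_cast at h6
    exact h6
  linarith

theorem brun_full {E U : Finset (Fin d)} (h : Disjoint U E) (hc : U.card = d - E.card) :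
    U = Eᶜ := by
  refine Finset.eq_of_subset_of_card_le ?_ ?_
  · intro m hm
    rw [Finset.mem_compl]
    exact fun hE => Finset.disjoint_left.1 h hm hE
  · rw [Finset.card_compl, Fintype.card_fin, hc]

theorem brun_window {ε C₁ : ℝ} {D₁ : ℕ}
    (h1 : ∀ (n d l e q k : ℕ)
    (L : ℝ) (z : Vtx n d) (E : Finset (Fin d)), D₁ ≤ d → (E.card = 2 ∨ E.card = 3) → 1 ≤ l →
    (e = l + 1 ∨ e = l + 2) → Even q → q ≤ d - E.card →
    (l - 1) * d + (e - l) * E.card + q ≤ k → k ≤ d ^ 2 → sfun d k + 6 * Real.log d ≤ L →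
    Room (l + 4) z →
    Reach (Real.exp (-L)) z (fun x => ∀ m, x m = if m ∈ E then e else l)
      (fun x => ∃ U : Finset (Fin d), Disjoint U E ∧ U.card = q ∧
        ∀ m, x m = (if m ∈ E then e else l) + if m ∈ U then 1 else 0)
      (Real.exp (∑ t ∈ Finset.Ico ((l - 1) * d) ((l - 1) * d + q), (Bx d t - L / 2) -
        ε * q - C₁ * (d / l + Real.log d))))
    {n d X k : ℕ} {L : ℝ} {z : Vtx n d} {E : Finset (Fin d)} (hd : D₁ ≤ d) (hd6 : 6 ≤ d)
    (hE : E.card = 2 ∨ E.card = 3) (hev : Even (d - E.card)) (hX : 1 ≤ X)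
    (hk : X * d + E.card ≤ k)
    (hkd : k ≤ d ^ 2) (hL : sfun d k + 6 * Real.log d ≤ L) (hroom : Room (X + 4) z) :
    Reach (Real.exp (-L)) z (fun x => ∀ m, x m = X + if m ∈ E then 2 else 0)
      (fun x => ∀ m, x m = if m ∈ E then X + 2 else X + 1)
      (Real.exp (∑ t ∈ Finset.Ico ((X - 1) * d) ((X - 1) * d + (d - E.card)), (Bx d t - L / 2) -
        ε * ((d - E.card : ℕ) : ℝ) - C₁ * (d / X + Real.log d))) := by
  have hXe : (X - 1) * d + d = X * d := by
    obtain ⟨Y, rfl⟩ : ∃ Y, X = Y + 1 := ⟨X - 1, by omega⟩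
    rw [Nat.add_sub_cancel]
    ring
  refine reach_mono ?_ ?_ le_rfl (h1 n d X (X + 2) (d - E.card) k L z E hd hE hX (Or.inr rfl) hev
    le_rfl ?_ hkd hL hroom)
  · intro x hx m
    rw [hx m]
    split_ifs <;> rfl
  · rintro x ⟨U, hU, hc, hx⟩ m
    have hUE := brun_full hU hc
    rw [hx m, hUE]
    by_cases hm : m ∈ E
    · simp [hm]
    · simp [hm]
  · have : X + 2 - X = 2 := by omega
    rw [this]
    omega

theorem brun_window' {ε C₁ : ℝ} {D₁ : ℕ}
    (h1 : ∀ (n d l e q k : ℕ)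
    (L : ℝ) (z : Vtx n d) (E : Finset (Fin d)), D₁ ≤ d → (E.card = 2 ∨ E.card = 3) → 1 ≤ l →
    (e = l + 1 ∨ e = l + 2) → Even q → q ≤ d - E.card →
    (l - 1) * d + (e - l) * E.card + q ≤ k → k ≤ d ^ 2 → sfun d k + 6 * Real.log d ≤ L →
    Room (l + 4) z →
    Reach (Real.exp (-L)) z (fun x => ∀ m, x m = if m ∈ E then e else l)
      (fun x => ∃ U : Finset (Fin d), Disjoint U E ∧ U.card = q ∧
        ∀ m, x m = (if m ∈ E then e else l) + if m ∈ U then 1 else 0)
      (Real.exp (∑ t ∈ Finset.Ico ((l - 1) * d) ((l - 1) * d + q), (Bx d t - L / 2) -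
        ε * q - C₁ * (d / l + Real.log d))))
    {n d X k : ℕ} {L : ℝ} {z : Vtx n d} {E : Finset (Fin d)} (hd : D₁ ≤ d)
    (hE : E.card = 2 ∨ E.card = 3) (hev : Even (d - E.card))
    (hk : (X + 1) * d ≤ k)
    (hkd : k ≤ d ^ 2) (hL : sfun d k + 6 * Real.log d ≤ L) (hroom : Room (X + 5) z) :
    Reach (Real.exp (-L)) z (fun x => ∀ m, x m = if m ∈ E then X + 2 else X + 1)
      (fun x => ∀ m, x m = X + 2)
      (Real.exp (∑ t ∈ Finset.Ico (X * d) (X * d + (d - E.card)), (Bx d t - L / 2) -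
        ε * ((d - E.card : ℕ) : ℝ) - C₁ * (d / (X + 1 : ℕ) + Real.log d))) := by
  have hEd : E.card ≤ d := by
    have := Finset.card_le_univ E
    simpa using this
  have h2 := h1 n d (X + 1) (X + 2) (d - E.card) k L z E hd hE (by omega) (Or.inl rfl) hev
    le_rfl (by
      have e1 : X + 2 - (X + 1) = 1 := by omega
      have e2 : (X + 1) * d = X * d + d := by ring
      rw [e1, Nat.add_sub_cancel]
      omega) hkd hL hroom
  rw [Nat.add_sub_cancel] at h2
  refine reach_mono (fun x hx => hx) ?_ le_rfl h2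
  rintro x ⟨U, hU, hc, hx⟩ m
  have hUE := brun_full hU hc
  rw [hx m, hUE]
  by_cases hm : m ∈ E
  · simp [hm]
  · simp [hm]

/-- sum over an interval of length `2 d`, lower bound by the two main parts -/
theorem brun_sum {f : ℕ → ℝ} {a q e d : ℕ} {B : ℝ} (hq : q + e = d)
    (hf : ∀ t < a + 2 * d, f t ≤ B) :
    ∑ t ∈ Finset.Ico a (a + 2 * d), f t ≤ ∑ t ∈ Finset.Ico a (a + q), f t +
      ∑ t ∈ Finset.Ico (a + d) (a + d + q), f t + 2 * e * B := by
  have h1 := Finset.sum_Ico_consecutive f (m := a) (n := a + q) (k := a + 2 * d) (by omega) (by omega)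
  have h2 := Finset.sum_Ico_consecutive f (m := a + q) (n := a + d) (k := a + 2 * d) (by omega) (by omega)
  have h3 := Finset.sum_Ico_consecutive f (m := a + d) (n := a + d + q) (k := a + 2 * d) (by omega)
    (by omega)
  have h4 : ∑ t ∈ Finset.Ico (a + q) (a + d), f t ≤ e * B := by
    have h := Finset.sum_le_card_nsmul (Finset.Ico (a + q) (a + d)) f B (fun t ht => hf t (by
      rw [Finset.mem_Ico] at ht; omega))
    rw [Nat.card_Ico, show a + d - (a + q) = e by omega, nsmul_eq_mul] at h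
    exact h
  have h5 : ∑ t ∈ Finset.Ico (a + d + q) (a + 2 * d), f t ≤ e * B := by
    have h := Finset.sum_le_card_nsmul (Finset.Ico (a + d + q) (a + 2 * d)) f B (fun t ht => hf t (by
      rw [Finset.mem_Ico] at ht; omega))
    rw [Nat.card_Ico, show a + 2 * d - (a + d + q) = e by omega, nsmul_eq_mul] at h
    exact h
  linarith

/-- two levels of the balanced schedule -/
theorem brun_block (ε : ℝ) (hε : 0 < ε) : ∃ C : ℝ, 0 ≤ C ∧ ∃ D₀ : ℕ, ∀ (n d X k : ℕ)
    (L : ℝ) (z : Vtx n d) (E : Finset (Fin d)), D₀ ≤ d → (E.card = 2 ∨ E.card = 3) →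
    Even (d - E.card) → 1 ≤ X → (X + 1) * d ≤ k → k ≤ d ^ 2 →
    sfun d k + 6 * Real.log d ≤ L → Room (X + 5) z →
    Reach (Real.exp (-L)) z (fun x => ∀ m, x m = X + if m ∈ E then 2 else 0)
      (fun x => ∀ m, x m = X + 2 + if m ∈ E then 2 else 0)
      (Real.exp (∑ t ∈ Finset.Ico ((X - 1) * d) ((X + 1) * d), (Bx d t - L / 2) -
        ε * (2 * d) - C * (d / X + Real.log d))) := by
  obtain ⟨C₁, hC₁, D₁, h1⟩ := reach_bwin ε hε
  refine ⟨2 * C₁ + 24, by positivity, max D₁ 6, fun n d X k L z E hd hE hev hX hk hkd hL hroom => ?_⟩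
  have hd6 : 6 ≤ d := (le_max_right _ _).trans hd
  have hdD : D₁ ≤ d := (le_max_left _ _).trans hd
  have hE3 : E.card ≤ 3 := by omega
  have hd' : (6 : ℝ) ≤ d := by exact_mod_cast hd6
  have hlog : 0 ≤ Real.log d := Real.log_nonneg (by linarith)
  have hXe : (X - 1) * d + d = X * d := by
    obtain ⟨Y, rfl⟩ : ∃ Y, X = Y + 1 := ⟨X - 1, by omega⟩
    rw [Nat.add_sub_cancel]
    ring
  have hXe' : (X + 1) * d = X * d + d := by ring
  have hXd : X + 1 ≤ d := by
    have h : (X + 1) * d ≤ d * d := by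
      rw [← sq]; exact hk.trans hkd
    exact Nat.le_of_mul_le_mul_right h (by omega)
  have hL0 : 0 ≤ L := by
    have h := sfun_mono d (by omega) (Nat.zero_le k)
    rw [sfun_zero] at h
    linarith
  have hp1 : Real.exp (-L) ≤ 1 := Real.exp_le_one_iff.2 (by linarith)
  have w1 := brun_window h1 hdD hd6 hE hev hX (k := k) (L := L) (z := z) (by omega) hkd hL
    (brun_room hroom (by omega))
  have w2 := brun_window' h1 hdD hE hev (X := X) (k := k) (L := L) (z := z) hk hkd hL hroom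
  have w3 := reach_cycle (x₀ := fun _ => X + 2) (y := X + 4) (Real.exp_pos (-L)).le hp1 hE
    (fun _ => by omega) (fun _ => by omega) (fun _ _ => le_rfl) (z := z) hroom
  set S : ℝ := sfun d ((X + 1) * d) with hS
  have hprod : ∏ _m : Fin d, (((fun _ => X + 2 : Fin d → ℕ) _m : ℕ) : ℝ) = Real.exp S := by
    rw [Finset.prod_const, Finset.card_univ, Fintype.card_fin, hS, brun_sfun_mul (by omega)]
    rw [mul_comm, Real.exp_mul, Real.rpow_natCast, Real.exp_log (by positivity)]
    push_cast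
    ring
  rw [hprod] at w3
  have hSk : S ≤ sfun d k := sfun_mono d (by omega) hk
  have hfch := brun_fch (d := d) (L := L) (S := S) (y := X + 4) (by omega) (by omega) (by omega)
    (by linarith)
  have w4 := reach_trans (pow_nonneg (l9_fch_nonneg (Real.exp_pos (-L)).le (Real.exp_pos S).le _) _)
    (reach_mono (fun x hx => hx) (P₁' := fun x => x = fun _ => X + 2) (fun x hx => funext hx)
      le_rfl w2) w3
  have w5 := reach_trans (by
    have := pow_nonneg (l9_fch_nonneg (Real.exp_pos (-L)).le (Real.exp_pos S).le (X + 4)) E.card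
    positivity) w1 w4
  refine reach_mono (fun x hx => hx) ?_ ?_ w5
  · intro x hx m
    rw [hx]
  · have hpow : Real.exp (E.card * (S - L - 4 * Real.log d)) ≤
        fch (Real.exp (-L)) (Real.exp S) (X + 4) ^ E.card := by
      rw [mul_comm, Real.exp_mul, Real.rpow_natCast]
      exact pow_le_pow_left₀ (Real.exp_pos _).le hfch _
    have hsum := brun_sum (f := fun t => Bx d t - L / 2) (a := (X - 1) * d) (q := d - E.card)
      (e := E.card) (d := d) (B := (S - L) / 2 + 2 * Real.log d) (by omega) (fun t ht =>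
        brun_term (by omega) (sfun_mono d (by omega) (by omega)))
    rw [show (X - 1) * d + 2 * d = (X + 1) * d by omega, hXe] at hsum
    refine le_trans ?_ (mul_le_mul_of_nonneg_left (mul_le_mul_of_nonneg_left hpow
      (Real.exp_pos _).le) (Real.exp_pos _).le)
    rw [← Real.exp_add, ← Real.exp_add]
    apply Real.exp_le_exp.2
    have hq : ((d - E.card : ℕ) : ℝ) ≤ d := by
      exact_mod_cast Nat.sub_le _ _
    have hdiv : (d : ℝ) / ((X + 1 : ℕ) : ℝ) ≤ d / X := by
      have hX0 : (0 : ℝ) < X := by exact_mod_cast hX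
      apply div_le_div_of_nonneg_left (by positivity) hX0
      push_cast
      linarith
    have hE3' : (E.card : ℝ) ≤ 3 := by exact_mod_cast hE3
    have hdX : (0 : ℝ) ≤ (d : ℝ) / X := by positivity
    have hεq : ε * ((d - E.card : ℕ) : ℝ) ≤ ε * d := by gcongr
    have hCd : C₁ * ((d : ℝ) / ((X + 1 : ℕ) : ℝ) + Real.log d) ≤ C₁ * (d / X + Real.log d) := by
      gcongr
    have hEl : (E.card : ℝ) * Real.log d ≤ 3 * Real.log d := by gcongr
    nlinarith

/-- the last block of the balanced schedule -/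
theorem brun_last (ε : ℝ) (hε : 0 < ε) : ∃ C : ℝ, 0 ≤ C ∧ ∃ D₀ : ℕ, ∀ (n d X k : ℕ)
    (L : ℝ) (z : Vtx n d) (E : Finset (Fin d)), D₀ ≤ d → (E.card = 2 ∨ E.card = 3) →
    Even (d - E.card) → Odd X → Even k → (X - 1) * d + 2 * E.card ≤ k → k ≤ (X + 1) * d →
    k ≤ d ^ 2 → sfun d k + 6 * Real.log d ≤ L → Room (lev d k + 6) z →
    Reach (Real.exp (-L)) z (fun x => ∀ m, x m = X + if m ∈ E then 2 else 0) (Bst E k)
      (Real.exp (∑ t ∈ Finset.Ico ((X - 1) * d) k, (Bx d t - L / 2) -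
        ε * (2 * d) - C * (d / X + Real.log d))) := by
  obtain ⟨C₁, hC₁, D₁, h1⟩ := reach_bwin ε hε
  refine ⟨2 * C₁, by positivity, max D₁ 6,
    fun n d X k L z E hd hE hev hX hke hk0 hk1 hkd hL hroom => ?_⟩
  have hd6 : 6 ≤ d := (le_max_right _ _).trans hd
  have hdD : D₁ ≤ d := (le_max_left _ _).trans hd
  have hX1 : 1 ≤ X := hX.pos
  have hE3 : E.card ≤ 3 := by omega
  have hd' : (6 : ℝ) ≤ d := by exact_mod_cast hd6
  have hlog : 0 ≤ Real.log d := Real.log_nonneg (by linarith)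
  have hXe : (X - 1) * d + d = X * d := by
    obtain ⟨Y, rfl⟩ : ∃ Y, X = Y + 1 := ⟨X - 1, by omega⟩
    rw [Nat.add_sub_cancel]
    ring
  have hXe' : (X + 1) * d = X * d + d := by ring
  have hXev : Even ((X - 1) * d) := by
    obtain ⟨Y, rfl⟩ := hX
    rw [Nat.add_sub_cancel]
    exact ⟨Y * d, by ring⟩
  have hlev1 : X ≤ lev d k := by
    have h : X - 1 ≤ k / d := (Nat.le_div_iff_mul_le (by omega)).2 (by omega)
    have : lev d k = k / d + 1 := rfl
    omega
  have hneg : ∀ t < k, Bx d t - L / 2 ≤ 0 := by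
    intro t ht
    have h := brun_term (L := L) (d := d) (by omega) (sfun_mono d (by omega) ht.le)
    linarith
  have hX0 : (0 : ℝ) < X := by exact_mod_cast hX1
  have hdX : (0 : ℝ) ≤ (d : ℝ) / X := by positivity
  have hsumE : ∀ a : ℕ, ∑ m : Fin d, (if m ∈ E then a else 0) = E.card * a := by
    intro a
    rw [Finset.sum_ite_mem, Finset.univ_inter, Finset.sum_const, smul_eq_mul]
  have hsumU : ∀ U : Finset (Fin d), ∑ m : Fin d, (if m ∈ U then 1 else 0) = U.card := by
    intro U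
    rw [Finset.sum_ite_mem, Finset.univ_inter, Finset.sum_const, smul_eq_mul, mul_one]
  by_cases hA : k ≤ X * d + E.card
  · obtain ⟨q, hq⟩ : ∃ q, k = (X - 1) * d + 2 * E.card + q := ⟨k - ((X - 1) * d + 2 * E.card), by omega⟩
    have hqe : Even q := by
      have h2 : Even ((X - 1) * d + 2 * E.card) := hXev.add (even_two_mul _)
      rw [hq] at hke
      exact (Nat.even_add.1 hke).1 h2
    have w := h1 n d X (X + 2) q k L z E hdD hE hX1 (Or.inr rfl) hqe (by omega) (by
      rw [show X + 2 - X = 2 by omega]; omega) hkd hL (brun_room hroom (by omega))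
    refine reach_mono ?_ ?_ ?_ w
    · intro x hx m
      rw [hx m]
      split_ifs <;> rfl
    · rintro x ⟨U, hU, hc, hx⟩
      refine ⟨X, U, hX, hU, by rwa [hc], Or.inl ?_, ?_⟩
      · intro m
        rw [hx m]
        by_cases hm : m ∈ E <;> simp [hm]
      · have h3 : ∀ m, x m = X + (if m ∈ E then 2 else 0) + (if m ∈ U then 1 else 0) := by
          intro m
          rw [hx m]
          by_cases hm : m ∈ E <;> simp [hm]
        rw [Finset.sum_congr rfl fun m _ => h3 m, Finset.sum_add_distrib, Finset.sum_add_distrib,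
          hsumE, hsumU, hc, Finset.sum_const, Finset.card_univ, Fintype.card_fin, smul_eq_mul,
          mul_comm d X]
        omega
    · apply Real.exp_le_exp.2
      have h4 := Finset.sum_Ico_consecutive (fun t => Bx d t - L / 2) (m := (X - 1) * d)
        (n := (X - 1) * d + q) (k := k) (by omega) (by omega)
      have h5 : ∑ t ∈ Finset.Ico ((X - 1) * d + q) k, (Bx d t - L / 2) ≤ 0 :=
        Finset.sum_nonpos fun t ht => hneg t (Finset.mem_Ico.1 ht).2
      have h6 : ε * (q : ℝ) ≤ ε * (2 * d) := by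
        have : (q : ℝ) ≤ 2 * d := by
          have : q ≤ 2 * d := by omega
          exact_mod_cast this
        gcongr
      have h7 : 0 ≤ C₁ * ((d : ℝ) / X + Real.log d) := by positivity
      linarith
  · push Not at hA
    obtain ⟨q, hq⟩ : ∃ q, k = X * d + E.card + q := ⟨k - (X * d + E.card), by omega⟩
    have hqe : Even q := by
      have h2 : Even (X * d + E.card) := by
        have h3 : X * d + E.card = (X - 1) * d + (d - E.card) + 2 * E.card := by omega
        rw [h3]
        exact (hXev.add hev).add (even_two_mul _)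
      rw [hq] at hke
      exact (Nat.even_add.1 hke).1 h2
    have hlev2 : X + 1 ≤ lev d k := by
      have h : X ≤ k / d := (Nat.le_div_iff_mul_le (by omega)).2 (by omega)
      have : lev d k = k / d + 1 := rfl
      omega
    have w1 := brun_window h1 hdD hd6 hE hev hX1 (k := k) (L := L) (z := z) hA.le hkd hL
      (brun_room hroom (by omega))
    have w2 := h1 n d (X + 1) (X + 2) q k L z E hdD hE (by omega) (Or.inl rfl) hqe (by omega) (by
      rw [show X + 2 - (X + 1) = 1 by omega, Nat.add_sub_cancel]; omega) hkd hL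
      (brun_room hroom (by omega))
    rw [Nat.add_sub_cancel] at w2
    refine reach_mono (fun x hx => hx) ?_ ?_ (reach_trans (Real.exp_pos _).le w1 w2)
    · rintro x ⟨U, hU, hc, hx⟩
      have h3 : ∀ m, x m = X + 1 + (if m ∈ E then 1 else 0) + (if m ∈ U then 1 else 0) := by
        intro m
        rw [hx m]
        by_cases hm : m ∈ E <;> simp [hm]
      refine ⟨X, U, hX, hU, by rwa [hc], Or.inr h3, ?_⟩
      rw [Finset.sum_congr rfl fun m _ => h3 m, Finset.sum_add_distrib, Finset.sum_add_distrib,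
        hsumE, hsumU, hc, Finset.sum_const, Finset.card_univ, Fintype.card_fin, smul_eq_mul,
        mul_comm d (X + 1), hXe']
      omega
    · rw [← Real.exp_add]
      apply Real.exp_le_exp.2
      have h4 := Finset.sum_Ico_consecutive (fun t => Bx d t - L / 2) (m := (X - 1) * d)
        (n := (X - 1) * d + (d - E.card)) (k := k) (by omega) (by omega)
      have h40 := Finset.sum_Ico_consecutive (fun t => Bx d t - L / 2)
        (m := (X - 1) * d + (d - E.card)) (n := X * d) (k := k) (by omega) (by omega)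
      have h41 := Finset.sum_Ico_consecutive (fun t => Bx d t - L / 2)
        (m := X * d) (n := X * d + q) (k := k) (by omega) (by omega)
      have h5 : ∑ t ∈ Finset.Ico ((X - 1) * d + (d - E.card)) (X * d), (Bx d t - L / 2) ≤ 0 :=
        Finset.sum_nonpos fun t ht => hneg t (by have := (Finset.mem_Ico.1 ht).2; omega)
      have h50 : ∑ t ∈ Finset.Ico (X * d + q) k, (Bx d t - L / 2) ≤ 0 :=
        Finset.sum_nonpos fun t ht => hneg t (Finset.mem_Ico.1 ht).2
      have h6 : ε * ((d - E.card : ℕ) : ℝ) ≤ ε * d := by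
        have : ((d - E.card : ℕ) : ℝ) ≤ d := by exact_mod_cast Nat.sub_le _ _
        gcongr
      have h60 : ε * (q : ℝ) ≤ ε * d := by
        have : (q : ℝ) ≤ d := by
          have : q ≤ d := by omega
          exact_mod_cast this
        gcongr
      have hdiv : C₁ * ((d : ℝ) / ((X + 1 : ℕ) : ℝ) + Real.log d) ≤
          C₁ * ((d : ℝ) / X + Real.log d) := by
        have : (d : ℝ) / ((X + 1 : ℕ) : ℝ) ≤ d / X := by
          apply div_le_div_of_nonneg_left (by positivity) hX0
          push_cast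
          linarith
        gcongr
      linarith

theorem brun_harm (δ : ℝ) (hδ : 0 < δ) : ∃ J₀ : ℕ, ∀ X b : ℕ, 1 ≤ X →
    ∑ j ∈ Finset.range b, 1 / ((X + 2 * j : ℕ) : ℝ) ≤ δ * b + J₀ := by
  refine ⟨⌈1 / δ⌉₊, fun X b hX => ?_⟩
  have h1 : ∀ j ∈ Finset.range b, 1 / ((X + 2 * j : ℕ) : ℝ) ≤
      δ + (if j < ⌈1 / δ⌉₊ then 1 else 0) := by
    intro j _
    have hX' : (1 : ℝ) ≤ X := by exact_mod_cast hX
    split_ifs with hj
    · have : 1 / ((X + 2 * j : ℕ) : ℝ) ≤ 1 := by
        rw [div_le_one (by push_cast; positivity)]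
        push_cast
        linarith [(Nat.cast_nonneg j : (0 : ℝ) ≤ j)]
      linarith
    · rw [not_lt] at hj
      have h2 : 1 / δ ≤ j := (Nat.le_ceil _).trans (by exact_mod_cast hj)
      rw [add_zero, div_le_iff₀ (by push_cast; positivity)]
      rw [div_le_iff₀ hδ] at h2
      push_cast
      nlinarith [(Nat.cast_nonneg j : (0 : ℝ) ≤ j)]
  refine (Finset.sum_le_sum h1).trans ?_
  rw [Finset.sum_add_distrib, Finset.sum_const, Finset.card_range, nsmul_eq_mul]
  have h3 : ∑ j ∈ Finset.range b, (if j < ⌈1 / δ⌉₊ then (1 : ℝ) else 0) ≤ (⌈1 / δ⌉₊ : ℕ) := by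
    rw [← Finset.sum_filter, Finset.sum_const, nsmul_eq_mul, mul_one]
    have h4 : ((Finset.range b).filter (fun j => j < ⌈1 / δ⌉₊)).card ≤ ⌈1 / δ⌉₊ := by
      refine (Finset.card_le_card (t := Finset.range ⌈1 / δ⌉₊) ?_).trans_eq (Finset.card_range _)
      intro j hj
      exact Finset.mem_range.2 (Finset.mem_filter.1 hj).2
    exact_mod_cast h4
  linarith

/-- the schedule, `b` full blocks and the last one -/
theorem brun_ind (ε : ℝ) (hε : 0 < ε) : ∃ C : ℝ, 0 ≤ C ∧ ∃ D₀ : ℕ, ∀ (b n d X k : ℕ)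
    (L : ℝ) (z : Vtx n d) (E : Finset (Fin d)), D₀ ≤ d → (E.card = 2 ∨ E.card = 3) →
    Even (d - E.card) → Odd X → Even k → (X - 1) * d + 2 * d * b + 2 * E.card ≤ k →
    k ≤ (X + 1) * d + 2 * d * b →
    k ≤ d ^ 2 → sfun d k + 6 * Real.log d ≤ L → Room (lev d k + 6) z →
    Reach (Real.exp (-L)) z (fun x => ∀ m, x m = X + if m ∈ E then 2 else 0) (Bst E k)
      (Real.exp (∑ t ∈ Finset.Ico ((X - 1) * d) k, (Bx d t - L / 2) -
        ε * (2 * d) * (b + 1) - ∑ j ∈ Finset.range (b + 1),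
          C * (d / ((X + 2 * j : ℕ) : ℝ) + Real.log d))) := by
  obtain ⟨C₁, hC₁, D₁, h1⟩ := brun_block ε hε
  obtain ⟨C₂, hC₂, D₂, h2⟩ := brun_last ε hε
  refine ⟨max C₁ C₂, le_max_of_le_left hC₁, max (max D₁ D₂) 6, fun b => ?_⟩
  induction b with
  | zero =>
    intro n d X k L z E hd hE hev hX hke hk0 hk1 hkd hL hroom
    have hd6 : 6 ≤ d := (le_max_right _ _).trans hd
    have hdD : D₂ ≤ d := (le_max_right D₁ D₂).trans ((le_max_left _ _).trans hd)
    have hd' : (6 : ℝ) ≤ d := by exact_mod_cast hd6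
    have hlog : 0 ≤ Real.log d := Real.log_nonneg (by linarith)
    have w := h2 n d X k L z E hdD hE hev hX hke (by simpa using hk0) (by simpa using hk1) hkd hL
      hroom
    refine reach_mono (fun x hx => hx) (fun x hx => hx) ?_ w
    apply Real.exp_le_exp.2
    have hX0 : (0 : ℝ) < X := by exact_mod_cast hX.pos
    have h3 : C₂ * ((d : ℝ) / X + Real.log d) ≤ max C₁ C₂ * ((d : ℝ) / X + Real.log d) := by
      gcongr
      exact le_max_right _ _
    simp only [zero_add, Finset.range_one, Finset.sum_singleton, mul_zero, add_zero,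
      Nat.cast_zero, mul_one]
    linarith
  | succ b ih =>
    intro n d X k L z E hd hE hev hX hke hk0 hk1 hkd hL hroom
    have hd6 : 6 ≤ d := (le_max_right _ _).trans hd
    have hdD : D₁ ≤ d := (le_max_left D₁ D₂).trans ((le_max_left _ _).trans hd)
    have hd' : (6 : ℝ) ≤ d := by exact_mod_cast hd6
    have hlog : 0 ≤ Real.log d := Real.log_nonneg (by linarith)
    have hX1 : 1 ≤ X := hX.pos
    have hXe : (X - 1) * d + d = X * d := by
      obtain ⟨Y, rfl⟩ : ∃ Y, X = Y + 1 := ⟨X - 1, by omega⟩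
      rw [Nat.add_sub_cancel]
      ring
    have hXe' : (X + 1) * d = X * d + d := by ring
    have hXe3 : (X + 2 + 1) * d = X * d + 3 * d := by ring
    have hb : 2 * d * (b + 1) = 2 * d * b + 2 * d := by ring
    have hlev : X + 2 ≤ lev d k := by
      have h : X + 1 ≤ k / d := (Nat.le_div_iff_mul_le (by omega)).2 (by omega)
      have : lev d k = k / d + 1 := rfl
      omega
    have w1 := h1 n d X k L z E hdD hE hev hX1 (by omega) hkd hL (brun_room hroom (by omega))
    have w2 := ih n d (X + 2) k L z E hd hE hev (by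
      obtain ⟨Y, rfl⟩ := hX
      exact ⟨Y + 1, by ring⟩) hke (by
        rw [show X + 2 - 1 = X + 1 by omega]; omega) (by omega) hkd hL hroom
    refine reach_mono (fun x hx => hx) (fun x hx => hx) ?_ (reach_trans (Real.exp_pos _).le w1 w2)
    rw [← Real.exp_add]
    apply Real.exp_le_exp.2
    rw [show X + 2 - 1 = X + 1 by omega]
    have h4 := Finset.sum_Ico_consecutive (fun t => Bx d t - L / 2) (m := (X - 1) * d)
        (n := (X + 1) * d) (k := k) (by omega) (by omega)
    rw [Finset.sum_range_succ' _ (b + 1)]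
    have h5 : ∑ j ∈ Finset.range (b + 1), max C₁ C₂ *
        (d / ((X + 2 * (j + 1) : ℕ) : ℝ) + Real.log d) = ∑ j ∈ Finset.range (b + 1), max C₁ C₂ *
        (d / ((X + 2 + 2 * j : ℕ) : ℝ) + Real.log d) := by
      refine Finset.sum_congr rfl fun j _ => ?_
      rw [show X + 2 * (j + 1) = X + 2 + 2 * j by ring]
    rw [h5]
    have hX0 : (0 : ℝ) < X := by exact_mod_cast hX1
    have h3 : C₁ * ((d : ℝ) / X + Real.log d) ≤ max C₁ C₂ * ((d : ℝ) / X + Real.log d) := by
      gcongr
      exact le_max_left _ _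
    simp only [mul_zero, add_zero]
    push_cast at h4 ⊢
    linarith

/-- the balanced schedule -/
theorem reach_brun (ε : ℝ) (hε : 0 < ε) : ∃ C : ℝ, 0 ≤ C ∧ ∃ D₀ : ℕ, ∀ (n d X k : ℕ)
    (L : ℝ) (z : Vtx n d) (E : Finset (Fin d)), D₀ ≤ d → (E.card = 2 ∨ E.card = 3) →
    Even (d - E.card) → Odd X → (X - 1) * d + 2 * E.card ≤ k → Adm d E.card k → k ≤ d ^ 2 →
    sfun d k + 6 * Real.log d ≤ L → Room (lev d k + 6) z →
    Reach (Real.exp (-L)) z (fun x => ∀ m, x m = X + if m ∈ E then 2 else 0) (Bst E k)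
      (Real.exp (∑ t ∈ Finset.Ico ((X - 1) * d) k, (Bx d t - L / 2) -
        ε * (k - ((X - 1) * d : ℕ)) - C * d)) := by
  obtain ⟨C, hC, D₁, h1⟩ := brun_ind (ε / 2) (by positivity)
  set δ : ℝ := ε / (2 * (C + 1)) with hδ
  have hδ0 : 0 < δ := by positivity
  have hCδ : C * δ ≤ ε / 2 := by
    rw [hδ]
    rw [← mul_div_assoc, div_le_div_iff₀ (by positivity) (by positivity)]
    nlinarith
  obtain ⟨J₀, hJ⟩ := brun_harm δ hδ0
  obtain ⟨D₂, hD₂⟩ : ∃ D₂ : ℕ, ∀ d : ℕ, D₂ ≤ d → Real.log d ≤ δ * d := by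
    have h := (Real.isLittleO_log_id_atTop.def hδ0)
    have h' := tendsto_natCast_atTop_atTop (R := ℝ) |>.eventually h
    obtain ⟨D, hD⟩ := Filter.eventually_atTop.1 h'
    refine ⟨D, fun d hd => ?_⟩
    have h2 := hD d hd
    simp only [id, Real.norm_eq_abs] at h2
    rw [abs_of_nonneg (a := (d : ℝ)) (Nat.cast_nonneg d)] at h2
    exact (le_abs_self _).trans h2
  refine ⟨2 * ε + C * J₀, by positivity, max (max D₁ D₂) 6,
    fun n d X k L z E hd hE hev hX hk0 hadm hkd hL hroom => ?_⟩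
  have hd6 : 6 ≤ d := (le_max_right _ _).trans hd
  have hdD : D₁ ≤ d := (le_max_left D₁ D₂).trans ((le_max_left _ _).trans hd)
  have hdD2 : D₂ ≤ d := (le_max_right D₁ D₂).trans ((le_max_left _ _).trans hd)
  have hE3 : E.card ≤ 3 := by omega
  have hE2 : 2 ≤ E.card := by omega
  obtain ⟨Y, hY⟩ := hX
  obtain ⟨b, hb1, hb2⟩ : ∃ b : ℕ, (X - 1) * d + 2 * d * b + 2 * E.card ≤ k ∧
      k ≤ (X + 1) * d + 2 * d * b := by
    have e1 : (X - 1) * d = 2 * d * Y := by
      rw [hY, Nat.add_sub_cancel]; ring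
    have e2 : (X + 1) * d = 2 * d * Y + 2 * d := by
      rw [hY]; ring
    have hdiv := Nat.div_add_mod k (2 * d)
    have hmod := Nat.mod_lt k (show 0 < 2 * d by omega)
    set m := k / (2 * d) with hm
    rcases hadm.2.2 with h0 | h0
    · have hYm : Y < m := by
        by_contra hcon
        push Not at hcon
        have := Nat.mul_le_mul_left (2 * d) hcon
        omega
      refine ⟨m - Y - 1, ?_, ?_⟩
      · have e3 : 2 * d * Y + 2 * d * (m - Y - 1) + 2 * d = 2 * d * m := by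
          have : Y + (m - Y - 1) + 1 = m := by omega
          calc 2 * d * Y + 2 * d * (m - Y - 1) + 2 * d = 2 * d * (Y + (m - Y - 1) + 1) := by ring
            _ = _ := by rw [this]
        omega
      · have e3 : 2 * d * Y + 2 * d * (m - Y - 1) + 2 * d = 2 * d * m := by
          have : Y + (m - Y - 1) + 1 = m := by omega
          calc 2 * d * Y + 2 * d * (m - Y - 1) + 2 * d = 2 * d * (Y + (m - Y - 1) + 1) := by ring
            _ = _ := by rw [this]
        omega
    · have hYm : Y ≤ m := by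
        by_contra hcon
        push Not at hcon
        have := Nat.mul_le_mul_left (2 * d) (Nat.succ_le_of_lt hcon)
        have e4 : 2 * d * (m.succ) = 2 * d * m + 2 * d := Nat.mul_succ _ _
        omega
      have e3 : 2 * d * Y + 2 * d * (m - Y) = 2 * d * m := by
        have : Y + (m - Y) = m := by omega
        calc 2 * d * Y + 2 * d * (m - Y) = 2 * d * (Y + (m - Y)) := by ring
          _ = _ := by rw [this]
      exact ⟨m - Y, by omega, by omega⟩
  have w := h1 b n d X k L z E hdD hE hev ⟨Y, hY⟩ hadm.1 hb1 hb2 hkd hL hroom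
  refine reach_mono (fun x hx => hx) (fun x hx => hx) ?_ w
  apply Real.exp_le_exp.2
  have hX1 : 1 ≤ X := by omega
  have hharm := hJ X (b + 1) hX1
  have hlogd := hD₂ d hdD2
  have hd0 : (0 : ℝ) < d := by
    have : 0 < d := by omega
    exact_mod_cast this
  have hsum : ∑ j ∈ Finset.range (b + 1), C * (d / ((X + 2 * j : ℕ) : ℝ) + Real.log d) =
      C * d * (∑ j ∈ Finset.range (b + 1), 1 / ((X + 2 * j : ℕ) : ℝ)) +
        C * ((b + 1 : ℕ) : ℝ) * Real.log d := by
    rw [Finset.mul_sum]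
    have : ∀ j ∈ Finset.range (b + 1), C * (d / ((X + 2 * j : ℕ) : ℝ) + Real.log d) =
        C * d * (1 / ((X + 2 * j : ℕ) : ℝ)) + C * Real.log d := by
      intro j _
      ring
    rw [Finset.sum_congr rfl this, Finset.sum_add_distrib, Finset.sum_const, Finset.card_range,
      nsmul_eq_mul]
    ring
  have h2 : C * d * (∑ j ∈ Finset.range (b + 1), 1 / ((X + 2 * j : ℕ) : ℝ)) ≤
      C * d * (δ * ((b + 1 : ℕ) : ℝ) + J₀) := by gcongr
  have h3 : C * ((b + 1 : ℕ) : ℝ) * Real.log d ≤ C * ((b + 1 : ℕ) : ℝ) * (δ * d) := by gcongr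
  have h4 : C * δ * ((b + 1 : ℕ) : ℝ) * d ≤ ε / 2 * ((b + 1 : ℕ) : ℝ) * d := by gcongr
  have h5 : 2 * (d : ℝ) * b ≤ k - (((X - 1) * d : ℕ) : ℝ) := by
    have h6 : (X - 1) * d + 2 * d * b ≤ k := by omega
    have h7 : (((X - 1) * d + 2 * d * b : ℕ) : ℝ) ≤ k := by exact_mod_cast h6
    push_cast at h7 ⊢
    linarith
  have h8 : ε * (2 * (d : ℝ) * b) ≤ ε * (k - (((X - 1) * d : ℕ) : ℝ)) := by gcongr
  rw [hsum]
  push_cast at h2 h3 h4 h8 ⊢
  nlinarith

theorem bst_balanced {E : Finset (Fin d)} (hE : E.card = 2 ∨ E.card = 3) (hd : 4 ≤ d) {X : ℕ}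
    (hX : Odd X) (hX3 : 3 ≤ X) {x : Fin d → ℕ} (h : Bst E ((X - 1) * d) x) :
    ∀ m, x m = X := by
  obtain ⟨X', U, hX', hU, hUe, hx, hsum⟩ := h
  have hXe : (X - 1) * d + d = X * d := by
    obtain ⟨Y, rfl⟩ : ∃ Y, X = Y + 1 := ⟨X - 1, by omega⟩
    rw [Nat.add_sub_cancel]
    ring
  have hcard : U.card + E.card ≤ d := by
    have h1 := Finset.card_union_of_disjoint hU
    have h2 := Finset.card_le_univ (U ∪ E)
    rw [Fintype.card_fin] at h2
    omega
  have hsumE : ∀ a : ℕ, ∑ m : Fin d, (if m ∈ E then a else 0) = E.card * a := by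
    intro a
    rw [Finset.sum_ite_mem, Finset.univ_inter, Finset.sum_const, smul_eq_mul]
  have hsumU : ∑ m : Fin d, (if m ∈ U then 1 else 0) = U.card := by
    rw [Finset.sum_ite_mem, Finset.univ_inter, Finset.sum_const, smul_eq_mul, mul_one]
  rcases hx with hx | hx
  · exfalso
    rw [Finset.sum_congr rfl fun m _ => hx m, Finset.sum_add_distrib, Finset.sum_add_distrib,
      hsumE, hsumU, Finset.sum_const, Finset.card_univ, Fintype.card_fin, smul_eq_mul,
      hXe, mul_comm d X'] at hsum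
    have h1 : X' < X := by
      by_contra hcon
      push Not at hcon
      have := Nat.mul_le_mul_right d hcon
      omega
    have h2 : X < X' + 2 := by
      by_contra hcon
      push Not at hcon
      have h3 := Nat.mul_le_mul_right d hcon
      have h4 : (X' + 2) * d = X' * d + 2 * d := by ring
      omega
    obtain ⟨a, ha⟩ := hX
    obtain ⟨b, hb⟩ := hX'
    omega
  · rw [Finset.sum_congr rfl fun m _ => hx m, Finset.sum_add_distrib, Finset.sum_add_distrib,
      hsumE, hsumU, Finset.sum_const, Finset.card_univ, Fintype.card_fin, smul_eq_mul,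
      hXe, mul_comm d (X' + 1)] at hsum
    have e1 : (X' + 1) * d = X' * d + d := by ring
    have h1 : X' + 1 < X := by
      by_contra hcon
      push Not at hcon
      have := Nat.mul_le_mul_right d hcon
      omega
    have h2 : X < X' + 3 := by
      by_contra hcon
      push Not at hcon
      have h3 := Nat.mul_le_mul_right d hcon
      have h4 : (X' + 3) * d = X' * d + 3 * d := by ring
      omega
    have h3 : X = X' + 2 := by omega
    have e2 : X * d = X' * d + 2 * d := by rw [h3]; ring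
    have hUc : U = Eᶜ := brun_full hU (by omega)
    intro m
    rw [hx m, hUc, h3]
    by_cases hm : m ∈ E <;> simp [hm]

end Pool.Agent.Lib.MP_8501c9_pr.Wide
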