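import Pool.Agent.Lib.MP_8501c9_pr.Wide.Defs

/-!
# Definitions for the lower bound of the critical probability: one-direction certificates
-/

set_option autoImplicit false
open Set

namespace Pool.Agent.Lib.MP_8501c9_pr.Wide

open Pool.Agent.Lib.MP_8501c9_pr Pool.Agent.Lib.MP_8501c9_pr.Mid

/-- exponent per unit of size, balanced growth -/
noncomputable def Bx (d t : ℕ) : ℝ :=
  (sfun d t + Real.log (4 * (d : ℝ) ^ 2 / (Real.exp 1 * (lev d t : ℝ) ^ 3))) / 2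

/-- deficit of the volume caused by one side of length `x`, level `l` -/
noncomputable def gapl (l x : ℕ) : ℝ :=
  Real.log l + ((x : ℝ) - l) * Real.log (((l : ℝ) + 1) / l) - Real.log x

/-- real level -/
noncomputable def lt (d t : ℕ) : ℝ := 1 + (t : ℝ) / d

/-- weight of a new layer -/
noncomputable def lamt (ℓ : ℝ) (d t : ℕ) : ℝ := (lt d t + ℓ) / 2

/-- correction for the sides much shorter than the average -/
noncomputable def qt (c ℓ : ℝ) (d t m : ℕ) : ℝ :=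
  max 1 (lt d t / m * Real.exp (c * lamt ℓ d t * (1 / m - 1 / lt d t)))

/-- product of the corrections -/
noncomputable def bet (c ℓ : ℝ) (d t x : ℕ) : ℝ := ∏ m ∈ Finset.Icc x (lev d t), qt c ℓ d t m

/-- typical weight of a direction -/
noncomputable def Wt (c ℓ : ℝ) (d t : ℕ) : ℝ :=
  Real.exp (c * lamt ℓ d (t + 2) / lt d (t + 2)) / lt d (t + 2)

/-- families, one function for each level `l`, of supersolutions of the one-direction problem: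
`f l s j` with `s` the phase within the level and `j` the offset of the side length -/
structure UF (d k m : ℕ) (ε R : ℝ) (f : ℕ → ℝ → ℤ → ℝ) (y : ℕ → ℝ → ℝ) (ρ ς : ℕ → ℝ) :
    Prop where
  f_ge : ∀ l s j, 1 ≤ f l s j
  f_le : ∀ l s j, f l s j ≤ R
  y_ge : ∀ l s, 1 / R ≤ y l s
  y_le : ∀ l s, y l s ≤ R
  y_const : ∀ l s s', ⌊(m : ℝ) * s⌋ = ⌊(m : ℝ) * s'⌋ → y l s = y l s'
  ρ_nonneg : ∀ l, 0 ≤ ρ l
  ρ_le : ∀ l, ρ l ≤ R
  ς_nonneg : ∀ l, 0 ≤ ς l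
  lip : ∀ l s h j, 0 ≤ s → 0 ≤ h → s + h ≤ 1 → f l (s + h) j ≤ Real.exp (R * h) * f l s j
  step : ∀ (l : ℕ) (s : ℝ) (x : ℕ), 1 ≤ l → l ≤ lev d k + 2 → 1 ≤ x → 0 ≤ s →
    s + 2 / (d : ℝ) ≤ 1 →
    f l (s + 2 / (d : ℝ)) ((x : ℤ) - l) * Real.exp (2 / (d : ℝ) * y l s *
        (f l (s + 2 / (d : ℝ)) ((x : ℤ) + 1 - l) / f l (s + 2 / (d : ℝ)) ((x : ℤ) - l))) ≤
      Real.exp (2 / (d : ℝ) * ρ l + (1 - ε) * gapl l x) * f l s ((x : ℤ) - l)
  shift : ∀ (l x : ℕ), 1 ≤ l → l ≤ lev d k + 2 → 1 ≤ x →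
    f (l + 1) 0 ((x : ℤ) - (l + 1)) ≤ Real.exp (ς l) * f l 1 ((x : ℤ) - l)

/-- total exponent given by a family -/
noncomputable def Vsum (d k : ℕ) (y : ℕ → ℝ → ℝ) (ρ ς : ℕ → ℝ) : ℝ :=
  ∑ t ∈ Finset.range k, (ρ (lev d t) - Real.log (y (lev d t) (((t % d : ℕ) : ℝ) / d))) +
    d * ∑ l ∈ Finset.range (lev d k + 2), ς l

/-- a supersolution of the one-direction problem with penalty `κ j (j - 1)`, capped at `P` -/
structure UCert (κ V R P h₀ : ℝ) (m : ℕ) (f : ℝ → ℤ → ℝ) (y : ℝ → ℝ) (ρ : ℝ) : Prop where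
  m_pos : 1 ≤ m
  h_pos : 0 < h₀
  P_nonneg : 0 ≤ P
  f_ge : ∀ s j, 1 ≤ f s j
  f_le : ∀ s j, f s j ≤ R
  y_ge : ∀ s, 1 / R ≤ y s
  y_le : ∀ s, y s ≤ R
  y_const : ∀ s s', ⌊(m : ℝ) * s⌋ = ⌊(m : ℝ) * s'⌋ → y s = y s'
  ρ_nonneg : 0 ≤ ρ
  ρ_le : ρ ≤ R
  lip : ∀ s h j, 0 ≤ s → 0 ≤ h → s + h ≤ 1 → f (s + h) j ≤ Real.exp (R * h) * f s j
  step : ∀ s h j, 0 ≤ s → 0 < h → h ≤ h₀ → s + h ≤ 1 →
    f (s + h) j * Real.exp (h * y s * (f (s + h) (j + 1) / f (s + h) j)) ≤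
      Real.exp (h * (ρ + min (κ * (j * (j - 1))) P)) * f s j
  shift : ∀ j, f 0 j ≤ f 1 (j + 1)
  value : ρ - (∑ w ∈ Finset.range m, Real.log (y ((w : ℝ) / m))) / m ≤ V

/-- the value `V` can be certified, from above, for the penalty `κ j (j - 1)` -/
def UAch (κ V : ℝ) : Prop :=
  ∀ ε : ℝ, 0 < ε → ∃ (R P h₀ : ℝ) (m : ℕ) (f : ℝ → ℤ → ℝ) (y : ℝ → ℝ) (ρ : ℝ),
    UCert κ (V + ε) R P h₀ m f y ρ

open Classical in
/-- index of the slice containing the level `l`, the slices end at `γ i * √d` -/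
noncomputable def sidx (J : ℕ) (γ : ℕ → ℝ) (d l : ℕ) : ℕ :=
  ((Finset.range J).filter (fun i => γ i * Real.sqrt d < l)).card

/-- value on the slices, `1` beyond the last one -/
noncomputable def sval (J : ℕ) (γ V : ℕ → ℝ) (d l : ℕ) : ℝ :=
  if sidx J γ d l < J then V (sidx J γ d l) else 1

end Pool.Agent.Lib.MP_8501c9_pr.Wide
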