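import Pool.Agent.Lib.MP_8501c9_pr.Wide.DefsL
import Pool.Agent.Lib.MP_8501c9_pr.Wide.DefsU

/-!
# Definitions for the upper bound of the critical probability: schedules
-/

set_option autoImplicit false
open Set

namespace Pool.Agent.Lib.MP_8501c9_pr.Wide

open Pool.Agent.Lib.MP_8501c9_pr Pool.Agent.Lib.MP_8501c9_pr.Mid

variable {d : ℕ}

/-- sizes at which the balanced schedule may stop -/
def Adm (d e k : ℕ) : Prop := Even k ∧ 2 * e ≤ k ∧ (k % (2 * d) = 0 ∨ 2 * e ≤ k % (2 * d))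

/-- side lengths reached by the balanced schedule, total size `k` -/
def Bst (E : Finset (Fin d)) (k : ℕ) (x : Fin d → ℕ) : Prop :=
  ∃ (X : ℕ) (U : Finset (Fin d)), Odd X ∧ Disjoint U E ∧ Even U.card ∧
    ((∀ m, x m = X + (if m ∈ E then 2 else 0) + (if m ∈ U then 1 else 0)) ∨
      (∀ m, x m = X + 1 + (if m ∈ E then 1 else 0) + (if m ∈ U then 1 else 0))) ∧
    ∑ m, x m = k + d

/-- the directions `E` have side length `e`, the others are distributed according to `cls` -/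
def Dst (E : Finset (Fin d)) (e : ℕ) (cls : ℕ → ℕ) (x : Fin d → ℕ) : Prop :=
  (∀ m ∈ E, x m = e) ∧ ∀ c, ((Eᶜ).filter (fun m => x m = c)).card = cls c

/-- `a log a - b log b - (a - b) log (a - b)` -/
noncomputable def ent (a b : ℕ) : ℝ :=
  a * Real.log a - b * Real.log b - ((a - b : ℕ) : ℝ) * Real.log ((a - b : ℕ) : ℝ)

/-- number of directions enlarged in the window `w` -/
noncomputable def fsum (J : ℕ) (q : ℕ → ℤ → ℕ) (w : ℕ) : ℕ := ∑ j ∈ Finset.Icc (-(J : ℤ)) J, q w j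

/-- schedules for one direction, `M` levels divided into `W` windows: `N w j` of the `den`
directions have offset `j` at the beginning of the window `w`, and `q w j` of them are enlarged in
the window; `lm w` is the reference level and `tp w` bounds the offsets of the enlarged
directions -/
structure LCert (κ V : ℝ) (M W J den : ℕ) (N q : ℕ → ℤ → ℕ) (lm tp : ℕ → ℤ) : Prop where
  M_pos : 1 ≤ M
  M_even : Even M
  J_even : Even J
  den_pos : 1 ≤ den
  supp : ∀ w ≤ W, ∀ j, N w j ≠ 0 → -(J : ℤ) ≤ j ∧ j ≤ J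
  q_le : ∀ w j, q w j ≤ N w j
  flow : ∀ w < W, ∀ j, N (w + 1) j + q w j = N w j + q w (j - 1)
  per : ∀ j, N W j = N 0 (j - M)
  tot : ∑ j ∈ Finset.Icc (-(J : ℤ)) J, N 0 j = den
  tp_ge : ∀ w < W, ∀ j, q w j ≠ 0 → j ≤ tp w
  tp_le : ∀ w < W, -(J : ℤ) ≤ tp w ∧ tp w ≤ J
  lm_le : ∀ w < W, -(J : ℤ) ≤ lm w ∧ lm w ≤ J
  value : V * M ≤ ∑ w ∈ Finset.range W,
    ((∑ j ∈ Finset.Icc (-(J : ℤ)) J, ent (N w j) (q w j)) / den +
      (fsum J q w : ℝ) / den * (Real.log ((fsum J q w : ℝ) / den) -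
        κ * ((∑ j ∈ Finset.Icc (-(J : ℤ)) J, (N w j : ℝ) * ((j - lm w) * (j - lm w - 1))) / den +
          (fsum J q w : ℝ) / den * max 0 ((tp w : ℝ) - lm w))))

/-- the value `V` can be achieved, from below, for the penalty `κ j (j - 1)` -/
def LAch (κ V : ℝ) : Prop :=
  ∀ ε : ℝ, 0 < ε → ∃ (M W J den : ℕ) (N q : ℕ → ℤ → ℕ) (lm tp : ℕ → ℤ),
    LCert κ (V - ε) M W J den N q lm tp

/-- value on the slices, `0` before the first one -/
noncomputable def svalL (J : ℕ) (γ V : ℕ → ℝ) (d l : ℕ) : ℝ :=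
  if sidx J γ d l = 0 then 0 else V (sidx J γ d l - 1)

end Pool.Agent.Lib.MP_8501c9_pr.Wide
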