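import Pool.Agent.Lib.MP_8501c9_pr.Wide.DefsE
import Mathlib.Order.LiminfLimsup
import Mathlib.Topology.Order.Basic

/-!
# The value of the one-direction problem as a limit of free energies
-/

set_option autoImplicit false
open Set

namespace Pool.Agent.Lib.MP_8501c9_pr.Wide

open Pool.Agent.Lib.MP_8501c9_pr Pool.Agent.Lib.MP_8501c9_pr.Mid

/-- free energy of `n` levels with `m` windows each, minimised over the weights `u` of the
windows -/
noncomputable def fe (κ : ℝ) (n m : ℕ) : ℝ :=
  ⨅ u : ℕ → ℝ, (Real.log (ZZ κ n m u) / n - (∑ w ∈ Finset.range m, u w) / m)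

/-- limit of the free energies, first `m → ∞`, then `n → ∞` -/
noncomputable def Vlim (κ : ℝ) : ℝ :=
  Filter.limsup (fun n : ℕ => Filter.limsup (fun m : ℕ => fe κ n m) Filter.atTop) Filter.atTop

end Pool.Agent.Lib.MP_8501c9_pr.Wide
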