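import Pool.Agent.Lib.MP_8501c9_pr.Wide.Defs
import Pool.Agent.Lib.MP_8501c9_pr.Mid.MergeMid

/-!
# Task V5: mergers and the crossing are negligible against potentials of product form
-/

set_option autoImplicit false
open Set

namespace Pool.Agent.Lib.MP_8501c9_pr.Wide

open Pool.Agent.Lib.MP_8501c9_pr Pool.Agent.Lib.MP_8501c9_pr.Mid

variable {n d : ℕ}

/-! ### the gain of the volume -/

theorem v5_gain (hd : 1 ≤ d) {m h : ℕ} (hh : h ≤ m) :
    (h : ℝ) * (((min m d : ℕ) : ℝ) / 12 - 1) ≤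
      (∑ j ∈ Finset.range h, (sfun d m - sfun d (j + 2))) / 2 := by
  have hd0 : (0 : ℝ) < d := by exact_mod_cast hd
  have hden : (0 : ℝ) < (m : ℝ) + 2 * d := by positivity
  have h1 : ∀ j ∈ Finset.range h, ((m : ℝ) - 2 - j) * (d / (m + 2 * d)) - 1 ≤
      sfun d m - sfun d (j + 2) := by
    intro j hj
    rw [Finset.mem_range] at hj
    rcases Nat.lt_or_ge m (j + 2) with h2 | h2
    · have e1 : m = j + 1 := by omega
      have e2 := sfun_add_le d m 1 hd
      have e3 : m + 1 = j + 2 := by omega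
      rw [e3] at e2
      have e4 := Real.log_two_lt_d9
      have e5 : (m : ℝ) = j + 1 := by exact_mod_cast e1
      have e6 : 0 ≤ (d : ℝ) / (m + 2 * d) := by positivity
      have e7 : (m : ℝ) - 2 - j = -1 := by linarith
      rw [e7]
      push_cast at e2
      linarith
    · obtain ⟨r, hr⟩ := Nat.exists_eq_add_of_le h2
      have e1 := le_sfun_add d (j + 2) r hd
      rw [← hr] at e1
      have e2 : (m : ℝ) = j + 2 + r := by
        rw [hr]; push_cast; ring
      have e3 : (((j + 2 : ℕ) : ℝ) + r + 2 * d) = (m : ℝ) + 2 * d := by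
        rw [e2]; push_cast; ring
      rw [e3] at e1
      have e4 : (m : ℝ) - 2 - j = r := by linarith
      rw [e4]
      linarith
  have h2 := Finset.sum_le_sum h1
  have h3 : ∀ h : ℕ, ∑ j ∈ Finset.range h, (((m : ℝ) - 2 - j) * (d / (m + 2 * d)) - 1) =
      (h * ((m : ℝ) - 2) - h * (h - 1) / 2) * (d / (m + 2 * d)) - h := by
    intro h
    induction h with
    | zero => simp
    | succ h ih =>
      rw [Finset.sum_range_succ, ih]
      push_cast
      ring
  rw [h3] at h2
  have hh' : (h : ℝ) ≤ m := by exact_mod_cast hh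
  have hh0 : (0 : ℝ) ≤ h := Nat.cast_nonneg h
  have hm0 : (0 : ℝ) ≤ m := Nat.cast_nonneg m
  have h4 : (h : ℝ) * (((m : ℝ) - 3) / 2) ≤ h * ((m : ℝ) - 2) - h * (h - 1) / 2 := by
    nlinarith
  have h5 : (h : ℝ) * (((m : ℝ) - 3) / 2) * (d / (m + 2 * d)) - h ≤
      (h * ((m : ℝ) - 2) - h * (h - 1) / 2) * (d / (m + 2 * d)) - h := by
    have := mul_le_mul_of_nonneg_right h4 (by positivity : 0 ≤ (d : ℝ) / (m + 2 * d))
    linarith
  have h6 : ((min m d : ℕ) : ℝ) / 12 - 1 ≤ (((m : ℝ) - 3) / 2 * (d / (m + 2 * d)) - 1) / 2 := by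
    have e1 : (((m : ℝ) - 3) / 2 * (d / (m + 2 * d)) - 1) / 2 =
        (((m : ℝ) - 3) * d / (m + 2 * d)) / 4 - 1 / 2 := by
      field_simp
      ring
    rw [e1]
    have e2 : ((min m d : ℕ) : ℝ) / 3 - 2 ≤ ((m : ℝ) - 3) * d / (m + 2 * d) := by
      rw [le_div_iff₀ hden]
      rcases le_total m d with h | h
      · rw [min_eq_left h]
        have h' : (m : ℝ) ≤ d := by exact_mod_cast h
        nlinarith [mul_nonneg hm0 (sub_nonneg.2 h')]
      · rw [min_eq_right h]
        have h' : (d : ℝ) ≤ m := by exact_mod_cast h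
        nlinarith [mul_nonneg hd0.le (sub_nonneg.2 h')]
    linarith
  have h7 := mul_le_mul_of_nonneg_left h6 hh0
  linarith

/-! ### the potential along a chain of unit steps -/

/-- the factor of one unit in the bad layer -/
noncomputable def v5_bad (d : ℕ) (c₃ : ℝ) (t : ℕ) : ℝ :=
  if (t : ℝ) < c₃ * Real.log d then c₃ * Real.log d else 0

theorem v5_bad_nonneg (d : ℕ) {c₃ : ℝ} (hc₃ : 0 ≤ c₃) (_hl : 0 ≤ Real.log (d : ℝ)) (t : ℕ) :
    0 ≤ v5_bad d c₃ t := by
  unfold v5_bad
  split_ifs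
  · positivity
  · exact le_rfl

section PF

variable {k : ℕ} {L η R c₁ c₃ : ℝ} {lam y C : ℕ → ℝ} {F : ℕ → ℕ → ℝ}

theorem v5_ratio (H : PF d k L η R c₁ c₃ lam y C F) (hd : 1 ≤ d) (hR0 : 0 ≤ R)
    (hR : R * 2 ≤ d) (hkd : k ≤ d * d) (hη : 0 ≤ η) {t : ℕ} (ht : t < k) {x : ℕ} (hx : 1 ≤ x) :
    F (t + 1) (x + 1) ≤ F (t + 1) x * Real.exp ((c₁ + 1) * Real.log d) := by
  have hd0 : (0 : ℝ) < d := by exact_mod_cast hd
  have hF : 0 < F (t + 1) x := lt_of_lt_of_le one_pos (H.F_ge _ _)
  have hF' : 0 < F (t + 1) (x + 1) := lt_of_lt_of_le one_pos (H.F_ge _ _)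
  have hx0 : (0 : ℝ) < x := by exact_mod_cast hx
  have h1 := H.w_lex t (t + 1) x ht (Or.inl rfl) hx
  have h2 := H.y_ge t
  have h3 := H.lam_ge t
  have h4 : wP lam η F t (t + 1) x * x =
      Real.exp ((1 + 3 * η) * lam t / x) * (F (t + 1) (x + 1) / F (t + 1) x) := by
    unfold wP
    field_simp
  have h5 : 1 ≤ Real.exp ((1 + 3 * η) * lam t / x) := by
    apply Real.one_le_exp
    positivity
  have h6 : F (t + 1) (x + 1) / F (t + 1) x ≤ wP lam η F t (t + 1) x * x := by
    rw [h4]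
    exact le_mul_of_one_le_left (by positivity) h5
  have h7 : Real.exp (-(c₁ * Real.log d)) * (F (t + 1) (x + 1) / F (t + 1) x) ≤
      R * lev d t / d := by
    refine le_trans ?_ h1
    rw [mul_assoc]
    apply mul_le_mul h2 h6 (by positivity) ((Real.exp_pos _).le.trans h2)
  have h8 : R * lev d t / d ≤ d := by
    have e1 : lev d t ≤ 2 * d := by
      unfold lev
      have : t / d < d := Nat.div_lt_of_lt_mul (by omega)
      omega
    have e2 : (lev d t : ℝ) ≤ 2 * d := by exact_mod_cast e1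
    rw [div_le_iff₀ hd0]
    calc R * lev d t ≤ R * (2 * d) := mul_le_mul_of_nonneg_left e2 hR0
      _ = (R * 2) * d := by ring
      _ ≤ d * d := mul_le_mul_of_nonneg_right hR hd0.le
  have h9 : F (t + 1) (x + 1) / F (t + 1) x ≤ Real.exp ((c₁ + 1) * Real.log d) := by
    have e1 : Real.exp ((c₁ + 1) * Real.log d) = Real.exp (c₁ * Real.log d) * d := by
      rw [add_mul, one_mul, Real.exp_add, Real.exp_log hd0]
    have e2 := mul_le_mul_of_nonneg_left (h7.trans h8) (Real.exp_pos (c₁ * Real.log d)).le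
    rw [← mul_assoc, ← Real.exp_add, add_neg_cancel, Real.exp_zero, one_mul] at e2
    rw [e1]
    exact e2
  rw [div_le_iff₀ hF] at h9
  linarith

theorem v5_unit (H : PF d k L η R c₁ c₃ lam y C F) (hd : 1 ≤ d) (hR0 : 0 ≤ R)
    (hR : R * 2 ≤ d) (hkd : k ≤ d * d) (hη : 0 ≤ η) {t : ℕ} (ht : t + 1 < k) (x x' : Fin d → ℕ)
    (hx : ∀ i, 1 ≤ x i) (i : Fin d) (hi : x' i = x i + 1) (hj : ∀ j, j ≠ i → x' j = x j) :
    C (t + 1) * ∏ j, F (t + 1) (x' j) ≤ (C t * ∏ j, F t (x j)) *
      Real.exp ((L - sfun d t) / 2 - v5_bad d c₃ t + (3 * c₁ + 1) * Real.log d) := by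
  have hd0 : (0 : ℝ) < d := by exact_mod_cast hd
  have hF0 : ∀ t x, 0 < F t x := fun t x => lt_of_lt_of_le one_pos (H.F_ge _ _)
  have h1 : ∏ j, F (t + 1) (x' j) ≤
      (∏ j, F (t + 1) (x j)) * Real.exp ((c₁ + 1) * Real.log d) := by
    rw [← Finset.mul_prod_erase _ _ (Finset.mem_univ i),
      ← Finset.mul_prod_erase Finset.univ (fun j => F (t + 1) (x j)) (Finset.mem_univ i), hi]
    have e1 : ∏ j ∈ Finset.univ.erase i, F (t + 1) (x' j) =
        ∏ j ∈ Finset.univ.erase i, F (t + 1) (x j) :=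
      Finset.prod_congr rfl fun j hj' => by rw [hj j (Finset.ne_of_mem_erase hj')]
    rw [e1]
    have e2 : 0 ≤ ∏ j ∈ Finset.univ.erase i, F (t + 1) (x j) :=
      Finset.prod_nonneg fun j _ => (hF0 _ _).le
    have e3 := v5_ratio H hd hR0 hR hkd hη (by omega : t < k) (hx i)
    calc F (t + 1) (x i + 1) * ∏ j ∈ Finset.univ.erase i, F (t + 1) (x j) ≤
        F (t + 1) (x i) * Real.exp ((c₁ + 1) * Real.log d) *
          ∏ j ∈ Finset.univ.erase i, F (t + 1) (x j) := mul_le_mul_of_nonneg_right e3 e2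
      _ = _ := by ring
  have h2 : ∏ j, F (t + 1) (x j) ≤ (∏ j, F t (x j)) * Real.exp (c₁ * Real.log d) := by
    have e1 : Real.exp (c₁ * Real.log d) = ∏ _j : Fin d, Real.exp (c₁ * Real.log d / d) := by
      rw [Finset.prod_const, Finset.card_univ, Fintype.card_fin, ← Real.exp_nat_mul]
      congr 1
      field_simp
    rw [e1, ← Finset.prod_mul_distrib]
    exact Finset.prod_le_prod (fun j _ => (hF0 _ _).le) fun j _ => H.stepF t (x j) (hx j)
  have h3 := H.ratioC t ht
  have hC : 0 < C t := H.C_pos t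
  have hP : 0 ≤ ∏ j, F t (x j) := Finset.prod_nonneg fun j _ => (hF0 _ _).le
  calc C (t + 1) * ∏ j, F (t + 1) (x' j) ≤
      (C t * Real.exp ((L - sfun d t) / 2 + c₁ * Real.log d - v5_bad d c₃ t)) *
        ((∏ j, F t (x j)) * Real.exp (c₁ * Real.log d) * Real.exp ((c₁ + 1) * Real.log d)) := by
        apply mul_le_mul h3 _ (Finset.prod_nonneg fun j _ => (hF0 _ _).le) (by positivity)
        exact h1.trans (mul_le_mul_of_nonneg_right h2 (Real.exp_pos _).le)
    _ = (C t * ∏ j, F t (x j)) * (Real.exp ((L - sfun d t) / 2 + c₁ * Real.log d - v5_bad d c₃ t) *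
        Real.exp (c₁ * Real.log d) * Real.exp ((c₁ + 1) * Real.log d)) := by ring
    _ = _ := by
        rw [← Real.exp_add, ← Real.exp_add]
        congr 2
        ring

theorem v5_chain (H : PF d k L η R c₁ c₃ lam y C F) (hd : 1 ≤ d) (hR0 : 0 ≤ R)
    (hR : R * 2 ≤ d) (hkd : k ≤ d * d) (hη : 0 ≤ η) (m c : ℕ) (x : Fin d → ℕ)
    (hx : ∀ i, 1 ≤ x i) :
    ∀ x' : Fin d → ℕ, (∀ i, x i ≤ x' i) → ∑ i, x' i = ∑ i, x i + c → m + c < k →
      C (m + c) * ∏ j, F (m + c) (x' j) ≤ (C m * ∏ j, F m (x j)) *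
        Real.exp (∑ r ∈ Finset.range c, ((L - sfun d (m + r)) / 2 - v5_bad d c₃ (m + r)) +
          c * ((3 * c₁ + 1) * Real.log d)) := by
  induction c with
  | zero =>
    intro x' hxx hs _
    have h1 : x' = x := by
      have e1 : ∀ i ∈ Finset.univ, x i = x' i := by
        rw [← Finset.sum_eq_sum_iff_of_le fun i _ => hxx i]
        omega
      exact funext fun i => (e1 i (Finset.mem_univ i)).symm
    rw [h1]
    simp
  | succ c ih =>
    intro x' hxx hs hk
    have h1 : ∃ i, x i < x' i := by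
      by_contra hno
      push Not at hno
      have := Finset.sum_le_sum fun i (_ : i ∈ Finset.univ) => hno i
      omega
    obtain ⟨i, hi⟩ := h1
    set z : Fin d → ℕ := fun j => if j = i then x' j - 1 else x' j with hz
    have hzi : z i = x' i - 1 := by simp [hz]
    have hzj : ∀ j, j ≠ i → z j = x' j := fun j hj => by simp [hz, hj]
    have hxz : ∀ j, x j ≤ z j := by
      intro j
      rcases eq_or_ne j i with h | h
      · subst h; rw [hzi]; omega
      · rw [hzj j h]; exact hxx j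
    have hsz : ∑ j, z j = ∑ j, x j + c := by
      have e1 := Finset.add_sum_erase Finset.univ z (Finset.mem_univ i)
      have e2 := Finset.add_sum_erase Finset.univ x' (Finset.mem_univ i)
      have e3 : ∑ j ∈ Finset.univ.erase i, z j = ∑ j ∈ Finset.univ.erase i, x' j :=
        Finset.sum_congr rfl fun j hj => hzj j (Finset.ne_of_mem_erase hj)
      omega
    have h2 := ih z hxz hsz (by omega)
    have h3 := v5_unit (t := m + c) H hd hR0 hR hkd hη (by omega) z x'
      (fun j => (hx j).trans (hxz j)) i (by rw [hzi]; omega) (fun j hj => (hzj j hj).symm)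
    refine h3.trans ?_
    refine (mul_le_mul_of_nonneg_right h2 (Real.exp_pos _).le).trans_eq ?_
    rw [mul_assoc, ← Real.exp_add, Finset.sum_range_succ]
    congr 2
    push_cast
    ring

theorem v5_low (H : PF d k L η R c₁ c₃ lam y C F) (m e : ℕ) (he : m + e < k) :
    C (m + e) ≤ C m * Real.exp (∑ r ∈ Finset.range e,
      ((L - sfun d (m + r)) / 2 - v5_bad d c₃ (m + r)) + e * (c₁ * Real.log d)) := by
  induction e with
  | zero => simp
  | succ e ih =>
    have h1 := ih (by omega)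
    have h2 := H.ratioC (m + e) (by omega)
    refine h2.trans ((mul_le_mul_of_nonneg_right h1 (Real.exp_pos _).le).trans_eq ?_)
    rw [mul_assoc, ← Real.exp_add, Finset.sum_range_succ]
    congr 2
    unfold v5_bad
    push_cast
    ring

end PF

/-! ### exponents -/

theorem v5_exp {m h c e : ℕ} {L s l : ℝ} (hd : 2 ≤ d) (hl : Real.log d = l) (hl1 : 1 ≤ l)
    (hh : h ≤ m) (hec : e ≤ c) (hch : c ≤ h + 2) (hL : sfun d m + s ≤ L) :
    c * Real.log (2 * d) + h * Real.log d + sfun (d - 1) (m + c) +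
      (-(L * (1 + (h : ℝ) / 2)) + (∑ j ∈ Finset.range h, sfun d (j + 2)) / 2 + 100 * l * h) +
      ∑ r ∈ Finset.range e, (L - sfun d (m + r)) / 2 ≤
    -(((h : ℝ) + 2 - e) / 2 * s) - h * (((min m d : ℕ) : ℝ) / 12 - 1) + 3 * c * l +
      101 * h * l := by
  have hd0 : (0 : ℝ) < d := by
    have : 0 < d := by omega
    exact_mod_cast this
  have hlog2 := Real.log_two_lt_d9
  have h1 : ∑ r ∈ Finset.range e, (L - sfun d (m + r)) / 2 ≤ e * ((L - sfun d m) / 2) := by
    have e1 : ∀ r ∈ Finset.range e, (L - sfun d (m + r)) / 2 ≤ (L - sfun d m) / 2 := by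
      intro r _
      have := sfun_mono d (by omega) (Nat.le_add_right m r)
      linarith
    have := Finset.sum_le_card_nsmul _ _ _ e1
    rwa [Finset.card_range, nsmul_eq_mul] at this
  have h2 : sfun (d - 1) (m + c) ≤ sfun d m + c * Real.log 2 := by
    have e1 := sfun_le_sfun_succ (d - 1) (m + c) (by omega)
    rw [Nat.sub_add_cancel (by omega)] at e1
    have e2 := sfun_add_le d m c (by omega)
    linarith
  have h3 : Real.log (2 * d) = Real.log 2 + l := by
    rw [Real.log_mul (by norm_num) hd0.ne', hl]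
  have h4 := v5_gain (by omega : 1 ≤ d) hh
  have h5 : ∑ j ∈ Finset.range h, (sfun d m - sfun d (j + 2)) =
      h * sfun d m - ∑ j ∈ Finset.range h, sfun d (j + 2) := by
    rw [Finset.sum_sub_distrib, Finset.sum_const, Finset.card_range, nsmul_eq_mul]
  have hc0 : (0 : ℝ) ≤ c := Nat.cast_nonneg c
  have h6 : (c : ℝ) * Real.log 2 ≤ c * l := mul_le_mul_of_nonneg_left (by linarith) hc0
  have h7 : 0 ≤ ((h : ℝ) + 2 - e) / 2 := by
    have e1 : e ≤ h + 2 := by omega
    have e2 : (e : ℝ) ≤ h + 2 := by exact_mod_cast e1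
    linarith
  have h8 : ((h : ℝ) + 2 - e) / 2 * s ≤ ((h : ℝ) + 2 - e) / 2 * (L - sfun d m) :=
    mul_le_mul_of_nonneg_left (by linarith) h7
  rw [h3, hl]
  rw [h5] at h4
  linarith

theorem v5_final {c₁ c₃ l μ s B : ℝ} {m h c e : ℕ} (hc₁ : 0 ≤ c₁)
    (hc₃ : c₃ = 36 * (131 + 12 * c₁)) (hl1 : 1 ≤ l) (hh1 : 1 ≤ h) (hch : c ≤ h + 2)
    (hec : e ≤ c) (hs : 2 * c₃ * l ≤ s) (hdl : (119 + 12 * c₁) * l ≤ d / 20) (hB : 0 ≤ B)
    (hμA : d ≤ m → μ ≤ d / 100 + c₁ + 1) (hμB : m ≤ d → μ ≤ 5 + c₁)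
    (hC : (m : ℝ) < c₃ * l / 3 → m ≤ d ∧ e = c ∧ B = c * (c₃ * l)) :
    -(((h : ℝ) + 2 - e) / 2 * s) - h * (((min m d : ℕ) : ℝ) / 12 - 1) + 3 * c * l +
      101 * h * l + c * ((3 * c₁ + 1) * l + μ) - B ≤ -(2 * (h : ℝ) * l) := by
  have hl0 : 0 < l := by linarith
  have hh : (1 : ℝ) ≤ h := by exact_mod_cast hh1
  have hc0 : (0 : ℝ) ≤ c := Nat.cast_nonneg c
  have hch' : (c : ℝ) ≤ 3 * h := by
    have : c ≤ 3 * h := by omega
    exact_mod_cast this
  have hch2 : (c : ℝ) ≤ h + 2 := by exact_mod_cast hch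
  have hec' : (e : ℝ) ≤ c := by exact_mod_cast hec
  have hs0 : 0 ≤ s := by
    have : 0 ≤ 2 * c₃ * l := by rw [hc₃]; positivity
    linarith
  have hq : 0 ≤ ((h : ℝ) + 2 - e) / 2 * s := by
    apply mul_nonneg _ hs0
    linarith
  have hcl : (c : ℝ) * ((3 * c₁ + 1) * l) ≤ 3 * h * ((3 * c₁ + 1) * l) :=
    mul_le_mul_of_nonneg_right hch' (by positivity)
  have h3cl : 3 * (c : ℝ) * l ≤ 9 * h * l := by
    have := mul_le_mul_of_nonneg_right hch' hl0.le
    linarith
  have hhl : (h : ℝ) ≤ h * l := by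
    have := mul_le_mul_of_nonneg_left hl1 (by linarith : (0 : ℝ) ≤ h)
    linarith
  have hc1h : 0 ≤ c₁ * h := by positivity
  have hc1hl : c₁ * h ≤ c₁ * (h * l) := mul_le_mul_of_nonneg_left hhl hc₁
  rcases Nat.lt_or_ge m d with hmd | hmd
  · -- `m < d`
    have hμ := hμB hmd.le
    have hcμ : (c : ℝ) * μ ≤ 3 * h * (5 + c₁) := by
      calc (c : ℝ) * μ ≤ c * (5 + c₁) := mul_le_mul_of_nonneg_left hμ hc0
        _ ≤ 3 * h * (5 + c₁) := mul_le_mul_of_nonneg_right hch' (by positivity)
    rw [min_eq_left hmd.le]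
    rcases lt_or_ge (m : ℝ) (c₃ * l / 3) with hm | hm
    · obtain ⟨-, he, hB'⟩ := hC hm
      rw [hB', he]
      have h1 : ((h : ℝ) + 2 - c) / 2 * (2 * c₃ * l) ≤ ((h : ℝ) + 2 - c) / 2 * s :=
        mul_le_mul_of_nonneg_left hs (by linarith)
      have h2 : (0 : ℝ) ≤ h * (m : ℝ) := by positivity
      have h3 : (131 + 12 * c₁) * (h * l) ≤ (h + 2) * (c₃ * l) := by
        rw [hc₃]
        have e1 : 0 ≤ (131 + 12 * c₁) * (h * l) := by positivity
        have e2 : 0 ≤ (131 + 12 * c₁) * l := by positivity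
        nlinarith
      nlinarith
    · have h1 : (h : ℝ) * (c₃ * l / 3) ≤ h * m := mul_le_mul_of_nonneg_left hm (by linarith)
      have h2 : (h : ℝ) * (c₃ * l / 3) / 12 = (131 + 12 * c₁) * (h * l) := by
        rw [hc₃]; ring
      nlinarith
  · have hμ := hμA hmd
    have hcμ : (c : ℝ) * μ ≤ 3 * h * (d / 100 + c₁ + 1) := by
      calc (c : ℝ) * μ ≤ c * (d / 100 + c₁ + 1) := mul_le_mul_of_nonneg_left hμ hc0
        _ ≤ 3 * h * (d / 100 + c₁ + 1) := mul_le_mul_of_nonneg_right hch' (by positivity)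
    rw [min_eq_right hmd]
    have h1 := mul_le_mul_of_nonneg_left hdl (by linarith : (0 : ℝ) ≤ h)
    have h2 : (0 : ℝ) ≤ h * d := by positivity
    nlinarith

/-! ### boxes -/

theorem v5_hull_ne {Q P : BoxT n d} (hQ : Q.1 ≤ Q.2) (hne : hull Q P ≠ Q)
    (hle : phi P ≤ phi Q) : hull Q P ≠ P := by
  intro he
  have h1 : P.1 ≤ Q.1 := by rw [← he]; exact inf_le_left
  have h2 : Q.2 ≤ P.2 := by rw [← he]; exact le_sup_left
  have h3 : ∀ i ∈ Finset.univ, (Q.2 i : ℕ) - Q.1 i ≤ (P.2 i : ℕ) - P.1 i := by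
    intro i _
    have e1 : (P.1 i : ℕ) ≤ Q.1 i := Fin.le_def.1 (h1 i)
    have e2 : (Q.2 i : ℕ) ≤ P.2 i := Fin.le_def.1 (h2 i)
    omega
  have h4 : ∑ i, ((Q.2 i : ℕ) - Q.1 i) = ∑ i, ((P.2 i : ℕ) - P.1 i) :=
    le_antisymm (Finset.sum_le_sum h3) hle
  have h5 := (Finset.sum_eq_sum_iff_of_le h3).1 h4
  apply hne
  rw [he]
  refine Prod.ext (funext fun i => Fin.ext ?_) (funext fun i => Fin.ext ?_)
  · have e0 := h5 i (Finset.mem_univ i)
    have e1 : (P.1 i : ℕ) ≤ Q.1 i := Fin.le_def.1 (h1 i)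
    have e2 : (Q.2 i : ℕ) ≤ P.2 i := Fin.le_def.1 (h2 i)
    have e3 : (Q.1 i : ℕ) ≤ Q.2 i := Fin.le_def.1 (hQ i)
    omega
  · have e0 := h5 i (Finset.mem_univ i)
    have e1 : (P.1 i : ℕ) ≤ Q.1 i := Fin.le_def.1 (h1 i)
    have e2 : (Q.2 i : ℕ) ≤ P.2 i := Fin.le_def.1 (h2 i)
    have e3 : (Q.1 i : ℕ) ≤ Q.2 i := Fin.le_def.1 (hQ i)
    omega

theorem v5_sd_le (Q P : BoxT n d) (hQ : Q.1 ≤ Q.2) (i : Fin d) : sd Q i ≤ sd (hull Q P) i := by
  unfold sd
  have h1 : ((hull Q P).1 i : ℕ) ≤ Q.1 i := Fin.le_def.1 ((inf_le_left : Q.1 ⊓ P.1 ≤ Q.1) i)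
  have h2 : (Q.2 i : ℕ) ≤ (hull Q P).2 i := Fin.le_def.1 ((le_sup_left : Q.2 ≤ Q.2 ⊔ P.2) i)
  have h3 : (Q.1 i : ℕ) ≤ Q.2 i := Fin.le_def.1 (hQ i)
  omega

theorem v5_sum_sd (Q : BoxT n d) : ∑ i, sd Q i = phi Q + d := by
  unfold sd phi
  rw [Finset.sum_add_distrib]
  simp

theorem v5_sd_pos (Q : BoxT n d) (i : Fin d) : 1 ≤ sd Q i := by
  unfold sd; omega

theorem v5_cP {lam : ℕ → ℝ} {η : ℝ} {Q Q' : BoxT n d} {c : ℕ} (h1 : ∀ i, sd Q i ≤ sd Q' i)
    (hc : phi Q' = phi Q + c) (hlam : 0 ≤ lam (phi Q')) :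
    cP lam η Q Q' ≤ c * (lam (phi Q') + η) := by
  unfold cP
  have h2 : ∀ i ∈ Finset.univ, ((sd Q' i : ℝ) - sd Q i) * (lam (phi Q') / sd Q' i + η) ≤
      ((sd Q' i : ℝ) - sd Q i) * (lam (phi Q') + η) := by
    intro i _
    have e1 : (sd Q i : ℝ) ≤ sd Q' i := by exact_mod_cast h1 i
    have e2 : (1 : ℝ) ≤ sd Q' i := by exact_mod_cast v5_sd_pos Q' i
    apply mul_le_mul_of_nonneg_left _ (by linarith)
    have := div_le_self hlam e2
    linarith
  refine (Finset.sum_le_sum h2).trans_eq ?_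
  rw [← Finset.sum_mul]
  congr 1
  rw [Finset.sum_sub_distrib]
  have e1 := v5_sum_sd Q
  have e2 := v5_sum_sd Q'
  have e3 : ∑ i, (sd Q i : ℝ) = phi Q + d := by exact_mod_cast e1
  have e4 : ∑ i, (sd Q' i : ℝ) = phi Q' + d := by exact_mod_cast e2
  rw [e3, e4, hc]
  push_cast
  ring

/-- one class of partners -/
theorem v5_class {Q : BoxT n d} {h c : ℕ} {L l V : ℝ} (hd : 2 ≤ d) (hl : Real.log d = l)
    (hQ : Q.1 ≤ Q.2) (hh : 1 ≤ h)
    (hX : c * Real.log (2 * d) + h * Real.log d + sfun (d - 1) (phi Q + c) +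
      (-(L * (1 + (h : ℝ) / 2)) + (∑ j ∈ Finset.range h, sfun d (j + 2)) / 2 + 100 * l * h) + V ≤
        -(2 * (h : ℝ) * l)) :
    ((gCl Q h c).card : ℝ) * Real.exp (-(L * (1 + (h : ℝ) / 2)) +
      (∑ j ∈ Finset.range h, sfun d (j + 2)) / 2 + 100 * l * h) * Real.exp V ≤
      Real.exp (-(2 * (max h 1 : ℕ) * Real.log d)) := by
  have hd0 : (0 : ℝ) < d := by
    have : 0 < d := by omega
    exact_mod_cast this
  have hcard := g_card_cl hd hQ h c
  have e1 : (2 * d : ℝ) ^ c * d ^ h * Real.exp (sfun (d - 1) (phi Q + c)) =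
      Real.exp (c * Real.log (2 * d) + h * Real.log d + sfun (d - 1) (phi Q + c)) := by
    rw [Real.exp_add, Real.exp_add, Real.exp_nat_mul, Real.exp_log (by positivity),
      Real.exp_nat_mul, Real.exp_log hd0]
  rw [e1] at hcard
  refine (mul_le_mul_of_nonneg_right (mul_le_mul_of_nonneg_right hcard (Real.exp_pos _).le)
    (Real.exp_pos _).le).trans ?_
  rw [← Real.exp_add, ← Real.exp_add, max_eq_left hh]
  apply Real.exp_le_exp.2
  rw [hl] at hX ⊢
  exact hX

/-! ### the main statement -/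

open Classical in
/-- mergers and the crossing of the size `k` are negligible -/
theorem pf_N2 (η R c₁ : ℝ) (hη0 : 0 < η) (hη1 : η ≤ 1 / 10) (hR : 1 ≤ R) (hc₁ : 0 ≤ c₁) :
    ∃ c₃ : ℝ, 0 ≤ c₃ ∧ ∃ c₂ : ℝ, 0 < c₂ ∧ ∃ D₀ : ℕ, ∀ n d k : ℕ,
      ∀ (L : ℝ) (lam y C : ℕ → ℝ) (F : ℕ → ℕ → ℝ),
      D₀ ≤ d → (d : ℝ) ≤ k → (k : ℝ) ≤ c₂ * d ^ 2 → sfun d k + Real.sqrt (η * d) ≤ L →
      PF d k L η R c₁ c₃ lam y C F → ∀ Q : BoxT n d, Q.1 ≤ Q.2 → phi Q < k →
      TT (Real.exp (-L)) k Q + ∑ P : BoxT n d with FarBox Q P, wt (Real.exp (-L)) P *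
        (Real.exp (cP lam η Q (hull Q P)) * GP k C F (hull Q P)) ≤ GP k C F Q := by
  set c₃ : ℝ := 36 * (131 + 12 * c₁) with hc₃
  have hc₃0 : 0 < c₃ := by rw [hc₃]; positivity
  obtain ⟨D₁, hD₁⟩ := exists_log_le (2 * (2 * c₃)) 0 (Real.sqrt η) (Real.sqrt_pos.2 hη0)
  refine ⟨c₃, hc₃0.le, 1 / 100, by norm_num, ⌈D₁ ^ 2⌉₊ + ⌈R * 2⌉₊ + 16, ?_⟩
  intro n d k L lam y C F hdD hdk hk hL H Q hQ hQk
  have hd16 : 16 ≤ d := by omega
  have hd16' : (16 : ℝ) ≤ d := by exact_mod_cast hd16
  have hd0 : (0 : ℝ) < d := by linarith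
  have hdR : R * 2 ≤ d := (Nat.le_ceil _).trans (by
    have : ⌈R * 2⌉₊ ≤ d := by omega
    exact_mod_cast this)
  have hdD1 : D₁ ^ 2 ≤ d := (Nat.le_ceil _).trans (by
    have : ⌈D₁ ^ 2⌉₊ ≤ d := by omega
    exact_mod_cast this)
  set l := Real.log d with hl
  have hl1 : 1 ≤ l := by
    rw [hl, Real.le_log_iff_exp_le hd0]
    have := Real.exp_one_lt_d9
    linarith
  set s := Real.sqrt (η * d) with hs
  have hs0 : 0 ≤ s := Real.sqrt_nonneg _
  have hsl : 2 * c₃ * l ≤ s := by
    have h1 : D₁ ≤ Real.sqrt d := by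
      refine (le_abs_self D₁).trans ?_
      rw [← Real.sqrt_sq_eq_abs]
      exact Real.sqrt_le_sqrt hdD1
    have h2 := hD₁ (Real.sqrt d) h1
    have h3 : 0 < Real.sqrt d := Real.sqrt_pos.2 hd0
    have h4 : l ≤ 2 * Real.log (4 * Real.sqrt d) := by
      have e1 : Real.log (Real.sqrt d) ≤ Real.log (4 * Real.sqrt d) :=
        Real.log_le_log h3 (by linarith)
      have e2 : Real.log (Real.sqrt d) = l / 2 := Real.log_sqrt hd0.le
      linarith
    have h5 : s = Real.sqrt η * Real.sqrt d := Real.sqrt_mul hη0.le _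
    rw [h5]
    have h6 := mul_le_mul_of_nonneg_left h4 (by positivity : 0 ≤ 2 * c₃)
    linarith
  have hsd : s ≤ d / 3 := by
    rw [hs]
    apply Real.sqrt_le_iff.2
    refine ⟨by positivity, ?_⟩
    nlinarith
  have hcl : (131 + 12 * c₁) * l ≤ d / 216 := by
    have : 2 * c₃ * l = 72 * ((131 + 12 * c₁) * l) := by rw [hc₃]; ring
    linarith
  have hcl0 : 0 ≤ c₁ * l := by positivity
  have hdl : (119 + 12 * c₁) * l ≤ d / 20 := by linarith
  have hsl' : 9000 * l ≤ s := by
    have : 2 * c₃ * l = 72 * (131 * l + 12 * (c₁ * l)) := by rw [hc₃]; ring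
    linarith
  have hkd : k ≤ d * d := by
    have h1 : (k : ℝ) ≤ d * d := by nlinarith
    exact_mod_cast h1
  -- the weights
  set m0 : ℕ := ⌈80 * Real.log (4 * d) + 1⌉₊ with hm0
  have hm0a : 80 * Real.log (4 * d) + 1 ≤ m0 := Nat.le_ceil _
  have hlog4 : 0 ≤ Real.log (4 * d) := by
    apply Real.log_nonneg
    linarith
  have hlog4' := log_four_mul_le (by omega : 2 ≤ d)
  have hm0b : (m0 : ℝ) < 80 * Real.log (4 * d) + 1 + 1 := Nat.ceil_lt_add_one (by positivity)
  have hm0d : m0 + 2 ≤ d := by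
    have h2 : (m0 : ℝ) + 2 ≤ d := by linarith
    exact_mod_cast h2
  have hm0l : ((m0 : ℝ) + 3) * Real.log 2 ≤ 2 * (100 * l) := by
    have h2 : (m0 : ℝ) + 3 ≤ 245 * l := by linarith
    have h3 := Real.log_two_lt_d9
    have h4 : 0 ≤ Real.log 2 := Real.log_nonneg (by norm_num)
    calc ((m0 : ℝ) + 3) * Real.log 2 ≤ 245 * l * 0.7 := by
          apply mul_le_mul h2 (by linarith) h4 (by positivity)
      _ ≤ _ := by linarith
  have hcost : cost d m0 k ≤ L / 2 := by
    unfold cost
    have h1 := sfun_le_sfun_succ (d - 1) (k + 1) (by omega)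
    rw [Nat.sub_add_cancel (by omega)] at h1
    have h2 := sfun_add_le d k 1 (by omega)
    have h3 : ((min k m0 + 3 : ℕ) : ℝ) ≤ (m0 : ℝ) + 3 := by
      have : min k m0 + 3 ≤ m0 + 3 := by omega
      exact_mod_cast this
    have h4 : 0 ≤ Real.log 2 := Real.log_nonneg (by norm_num)
    have h5 := mul_le_mul_of_nonneg_right h3 h4
    have h6 := Real.log_two_lt_d9
    push_cast at h2
    linarith
  have hwt : ∀ P : BoxT n d, P.1 ≤ P.2 → phi P ≤ phi Q →
      wt (Real.exp (-L)) P ≤ Real.exp (-(L * (1 + (phi P : ℝ) / 2)) +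
      (∑ j ∈ Finset.range (phi P), sfun d (j + 2)) / 2 + 100 * l * phi P) :=
    fun P hP hPQ => g_wt (by omega : 2 ≤ d) hm0a hm0d hcost hm0l P hP (by omega)
  -- the potential at `Q`
  have hLm : sfun d (phi Q) + s ≤ L := by
    have := sfun_mono d (by omega) hQk.le
    linarith
  set B := GP k C F Q with hB
  have hprod1 : 1 ≤ ∏ i, F (phi Q) (sd Q i) := by
    have := Finset.prod_le_prod (s := Finset.univ) (f := fun _ : Fin d => (1 : ℝ))
      (g := fun i => F (phi Q) (sd Q i)) (fun _ _ => zero_le_one) (fun i _ => H.F_ge _ _)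
    simpa using this
  have hBe : B = C (phi Q) * ∏ i, F (phi Q) (sd Q i) := by
    rw [hB]; unfold GP; rw [if_pos hQk]
  have hCB : C (phi Q) ≤ B := by
    rw [hBe]
    exact le_mul_of_one_le_right (H.C_pos _).le hprod1
  have hB0 : 0 ≤ B := (H.C_pos _).le.trans hCB
  have hbad0 : ∀ t, 0 ≤ v5_bad d c₃ t := v5_bad_nonneg d hc₃0.le (by linarith)
  -- the crossing
  have hTT : TT (Real.exp (-L)) k Q ≤ B * (8 / d) := by
    unfold TT
    refine g_sum (by omega : 4 ≤ d) hQ _ _ B hB0 ?_ ?_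
    · intro P hP
      rw [Finset.mem_filter] at hP
      obtain ⟨-, a1, a2, a3, a4⟩ := hP
      refine ⟨a1, a2, ?_, ?_, a3⟩
      · intro h; rw [h] at a4; omega
      · intro h; rw [h] at a4; omega
    · intro h c hc1 hch hhm hne
      obtain ⟨P₀, hP₀⟩ := hne
      have hmem : ∀ P ∈ ((Finset.univ.filter (fun P => Cross k Q P)).filter
          (fun P => (phi P, phi (hull Q P) - phi Q) = (h, c))), P ∈ gCl Q h c ∧
          phi P = h ∧ k ≤ phi Q + c ∧ P.1 ≤ P.2 ∧ phi P ≤ phi Q := by
        intro P hP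
        rw [Finset.mem_filter, Finset.mem_filter] at hP
        obtain ⟨⟨-, a1, a2, a3, a4⟩, hPe⟩ := hP
        have e1 : phi P = h := (Prod.mk.inj hPe).1
        have e2 : phi (hull Q P) - phi Q = c := (Prod.mk.inj hPe).2
        refine ⟨?_, e1, by omega, a1, a3⟩
        rw [gCl, Finset.mem_filter]
        refine ⟨Finset.mem_univ _, a1, a2, ?_, ?_, e1, by omega⟩
        · intro h; rw [h] at a4; omega
        · intro h; rw [h] at a4; omega
      have hkc := (hmem P₀ hP₀).2.2.1
      rcases Nat.eq_zero_or_pos h with h0 | h0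
      · -- single points
        subst h0
        have hc12 : c = 1 ∨ c = 2 := by omega
        have hCm : 1 ≤ C (phi Q) := H.endC _ (by omega)
        have hcard := g_card_pt (by omega : 1 ≤ d) hQ c hc12
        have hvol := vol_pos Q
        have hlv := log_vol_le (by omega : 1 ≤ d) hQ (lev d (phi Q)) rfl
        have hlv' : Real.log (vol Q) ≤ sfun d (phi Q) := by
          have e1 : 0 ≤ Real.log (1 + 1 / ((lev d (phi Q) : ℝ) * (lev d (phi Q) + 2))) *
              ((Exc (lev d (phi Q)) Q : ℝ) + Lag (lev d (phi Q)) Q) := by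
            apply mul_nonneg _ (by positivity)
            apply Real.log_nonneg
            have : 0 ≤ 1 / ((lev d (phi Q) : ℝ) * (lev d (phi Q) + 2)) := by positivity
            linarith
          linarith
        have e1 : 2 * (d : ℝ) ^ 2 * vol Q =
            Real.exp (Real.log 2 + 2 * l + Real.log (vol Q)) := by
          rw [Real.exp_add, Real.exp_add, Real.exp_log hvol, Real.exp_log (by norm_num),
            show 2 * l = ((2 : ℕ) : ℝ) * Real.log d by rw [hl]; norm_num, Real.exp_nat_mul,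
            Real.exp_log hd0]
        rw [e1] at hcard
        have h1 : ∑ P ∈ ((Finset.univ.filter (fun P => Cross k Q P)).filter
          (fun P => (phi P, phi (hull Q P) - phi Q) = (0, c))), wt (Real.exp (-L)) P ≤
            1 * Real.exp (-(2 * (max 0 1 : ℕ) * l)) := by
          refine g_class_sum (W := -L) (V := 0) _ (fun P hP => (hmem P hP).1) _ zero_le_one ?_ ?_
          · intro P hP
            obtain ⟨b1, b2, b3, b4, b5⟩ := hmem P hP
            have w1 := hwt P b4 b5
            rw [b2] at w1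
            simpa using w1
          · rw [Real.exp_zero, mul_one]
            refine (mul_le_mul_of_nonneg_right hcard (Real.exp_pos _).le).trans ?_
            rw [← Real.exp_add]
            apply Real.exp_le_exp.2
            have hlog2 := Real.log_two_lt_d9
            have e2 : ((max 0 1 : ℕ) : ℝ) = 1 := by norm_num
            rw [e2]
            linarith
        refine h1.trans ?_
        exact mul_le_mul_of_nonneg_right (hCm.trans hCB) (Real.exp_pos _).le
      · -- larger boxes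
        have he : k - 1 - phi Q ≤ c := by omega
        set e := k - 1 - phi Q with hedef
        have hlow := v5_low H (phi Q) e (by omega)
        have hend : 1 ≤ C (phi Q + e) := H.endC _ (by omega)
        have hone : 1 ≤ B * Real.exp (∑ r ∈ Finset.range e,
            ((L - sfun d (phi Q + r)) / 2 - v5_bad d c₃ (phi Q + r)) + e * (c₁ * Real.log d)) :=
          (hend.trans hlow).trans (mul_le_mul_of_nonneg_right hCB (Real.exp_pos _).le)
        have hX := v5_exp (e := e) (by omega : 2 ≤ d) hl.symm hl1 hhm he hch hLm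
        have hBsum : 0 ≤ ∑ r ∈ Finset.range e, v5_bad d c₃ (phi Q + r) :=
          Finset.sum_nonneg fun _ _ => hbad0 _
        have hF := v5_final (d := d) (m := phi Q) (h := h) (c := c) (e := e) (μ := 0) (s := s)
          (B := ∑ r ∈ Finset.range e, v5_bad d c₃ (phi Q + r)) hc₁ hc₃ hl1 h0 hch he hsl hdl hBsum
          (fun _ => by positivity) (fun _ => by positivity) (by
            intro hm
            exfalso
            have e1 : d ≤ 2 * phi Q + 2 := by
              have : d ≤ k := by exact_mod_cast hdk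
              omega
            have e2 : (d : ℝ) ≤ 2 * phi Q + 2 := by exact_mod_cast e1
            linarith)
        have hcls := v5_class (V := ∑ r ∈ Finset.range e,
            ((L - sfun d (phi Q + r)) / 2 - v5_bad d c₃ (phi Q + r)) + e * (c₁ * Real.log d))
          (L := L) (c := c) (by omega : 2 ≤ d) hl.symm hQ h0 (by
            rw [Finset.sum_sub_distrib]
            have e1 : (e : ℝ) * (c₁ * Real.log d) ≤ c * ((3 * c₁ + 1) * l + 0) := by
              have e2 : (e : ℝ) ≤ c := by exact_mod_cast he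
              rw [← hl]
              apply mul_le_mul e2 _ (by positivity) (by positivity)
              nlinarith
            linarith)
        refine g_class_sum _ (fun P hP => (hmem P hP).1) _ hB0 ?_ hcls
        intro P hP
        obtain ⟨b1, b2, b3, b4, b5⟩ := hmem P hP
        have w1 := hwt P b4 b5
        rw [b2] at w1
        exact (w1.trans_eq (mul_one _).symm).trans
          (mul_le_mul_of_nonneg_left hone (Real.exp_pos _).le)
  -- the mergers
  have hFar : ∑ P : BoxT n d with FarBox Q P, wt (Real.exp (-L)) P *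
        (Real.exp (cP lam η Q (hull Q P)) * GP k C F (hull Q P)) ≤ B * (8 / d) := by
    refine g_sum (by omega : 4 ≤ d) hQ _ _ B hB0 ?_ ?_
    · intro P hP
      rw [Finset.mem_filter] at hP
      obtain ⟨-, a1, a2, a3, a4, a5⟩ := hP
      exact ⟨a1, a2, a5, v5_hull_ne hQ a5 a4, a4⟩
    · intro h c hc1 hch hhm hne
      obtain ⟨P₀, hP₀⟩ := hne
      have hmem : ∀ P ∈ ((Finset.univ.filter (fun P => FarBox Q P)).filter
          (fun P => (phi P, phi (hull Q P) - phi Q) = (h, c))), P ∈ gCl Q h c ∧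
          phi P = h ∧ phi (hull Q P) = phi Q + c ∧ P.1 ≤ P.2 ∧ phi P ≤ phi Q ∧ 1 ≤ h := by
        intro P hP
        rw [Finset.mem_filter, Finset.mem_filter] at hP
        obtain ⟨⟨-, a1, a2, a3, a4, a5⟩, hPe⟩ := hP
        have e1 : phi P = h := (Prod.mk.inj hPe).1
        have e2 : phi (hull Q P) - phi Q = c := (Prod.mk.inj hPe).2
        refine ⟨?_, e1, by omega, a1, a4, by omega⟩
        rw [gCl, Finset.mem_filter]
        exact ⟨Finset.mem_univ _, a1, a2, a5, v5_hull_ne hQ a5 a4, e1, by omega⟩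
      have h0 : 1 ≤ h := (hmem P₀ hP₀).2.2.2.2.2
      rcases Nat.lt_or_ge (phi Q + c) k with hck | hck
      · -- not crossing
        set W := lam (phi Q + c) + η with hW
        have hlam0 : 0 ≤ lam (phi Q + c) := by
          have := H.lam_ge (phi Q + c)
          linarith
        have hlam := H.lam_le (phi Q + c)
        have hX := v5_exp (e := c) (by omega : 2 ≤ d) hl.symm hl1 hhm le_rfl hch hLm
        have hBsum : 0 ≤ ∑ r ∈ Finset.range c, v5_bad d c₃ (phi Q + r) :=
          Finset.sum_nonneg fun _ _ => hbad0 _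
        have hF := v5_final (d := d) (m := phi Q) (h := h) (c := c) (e := c) (μ := W) (s := s)
          (B := ∑ r ∈ Finset.range c, v5_bad d c₃ (phi Q + r)) hc₁ hc₃ hl1 h0 hch le_rfl hsl hdl
          hBsum
          (by
            intro _
            have e1 : ((phi Q + c : ℕ) : ℝ) ≤ k := by exact_mod_cast hck.le
            have e2 : ((phi Q + c : ℕ) : ℝ) / d ≤ d / 100 := by
              rw [div_le_iff₀ hd0]
              have : (d : ℝ) / 100 * d = 1 / 100 * d ^ 2 := by ring
              rw [this]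
              exact e1.trans hk
            rw [hW]
            linarith)
          (by
            intro hmd
            have e1 : phi Q + c ≤ 4 * d := by omega
            have e2 : ((phi Q + c : ℕ) : ℝ) ≤ 4 * d := by exact_mod_cast e1
            have e3 : ((phi Q + c : ℕ) : ℝ) / d ≤ 4 := by
              rw [div_le_iff₀ hd0]
              exact e2
            rw [hW]
            linarith)
          (by
            intro hm
            have hcl3 : 3 ≤ c₃ * l := by
              have e1 : c₃ * 1 ≤ c₃ * l := mul_le_mul_of_nonneg_left hl1 hc₃0.le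
              have e2 : 36 * 131 ≤ c₃ := by rw [hc₃]; linarith
              linarith
            refine ⟨?_, rfl, ?_⟩
            · have e1 : (phi Q : ℝ) ≤ d := by linarith
              exact_mod_cast e1
            · have e1 : ∀ r ∈ Finset.range c, v5_bad d c₃ (phi Q + r) = c₃ * l := by
                intro r hr
                rw [Finset.mem_range] at hr
                unfold v5_bad
                rw [if_pos]
                have e2 : phi Q + r ≤ 2 * phi Q + 1 := by omega
                have e3 : ((phi Q + r : ℕ) : ℝ) ≤ 2 * phi Q + 1 := by exact_mod_cast e2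
                rw [← hl]
                linarith
              rw [Finset.sum_congr rfl e1, Finset.sum_const, Finset.card_range, nsmul_eq_mul])
        have hcls := v5_class (V := ∑ r ∈ Finset.range c,
            ((L - sfun d (phi Q + r)) / 2 - v5_bad d c₃ (phi Q + r)) +
              c * ((3 * c₁ + 1) * Real.log d) + c * W)
          (L := L) (c := c) (by omega : 2 ≤ d) hl.symm hQ h0 (by
            rw [Finset.sum_sub_distrib, ← hl]
            linarith)
        refine g_class_sum _ (fun P hP => (hmem P hP).1) _ hB0 ?_ hcls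
        intro P hP
        obtain ⟨b1, b2, b3, b4, b5, b6⟩ := hmem P hP
        have w1 := hwt P b4 b5
        rw [b2] at w1
        have w2 := v5_chain H (by omega : 1 ≤ d) (by linarith) hdR hkd hη0.le (phi Q) c
          (fun i => sd Q i) (fun i => v5_sd_pos Q i) (fun i => sd (hull Q P) i)
          (fun i => v5_sd_le Q P hQ i) (by rw [v5_sum_sd, v5_sum_sd, b3]; ring) hck
        have w3 : GP k C F (hull Q P) ≤ B * Real.exp (∑ r ∈ Finset.range c,
            ((L - sfun d (phi Q + r)) / 2 - v5_bad d c₃ (phi Q + r)) +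
              c * ((3 * c₁ + 1) * Real.log d)) := by
          rw [hBe]
          unfold GP
          rw [b3, if_pos hck]
          exact w2
        have w4 : cP lam η Q (hull Q P) ≤ c * W := by
          have := v5_cP (lam := lam) (η := η) (fun i => v5_sd_le Q P hQ i) b3
            (by rw [b3]; exact hlam0)
          rw [b3] at this
          exact this
        have w5 : 0 ≤ Real.exp (cP lam η Q (hull Q P)) * GP k C F (hull Q P) := by
          apply mul_nonneg (Real.exp_pos _).le
          unfold GP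
          rw [b3, if_pos hck]
          apply mul_nonneg (H.C_pos _).le
          exact Finset.prod_nonneg fun i _ => zero_le_one.trans (H.F_ge _ _)
        apply mul_le_mul w1 _ w5 (Real.exp_pos _).le
        calc Real.exp (cP lam η Q (hull Q P)) * GP k C F (hull Q P) ≤
            Real.exp (c * W) * (B * Real.exp (∑ r ∈ Finset.range c,
            ((L - sfun d (phi Q + r)) / 2 - v5_bad d c₃ (phi Q + r)) +
              c * ((3 * c₁ + 1) * Real.log d))) := by
              apply mul_le_mul (Real.exp_le_exp.2 w4) w3 _ (Real.exp_pos _).le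
              unfold GP
              rw [b3, if_pos hck]
              apply mul_nonneg (H.C_pos _).le
              exact Finset.prod_nonneg fun i _ => zero_le_one.trans (H.F_ge _ _)
          _ = _ := by
              rw [mul_left_comm, ← Real.exp_add]
              congr 2
              ring
      · -- crossing: the potential vanishes
        have hzero : ∑ P ∈ ((Finset.univ.filter (fun P => FarBox Q P)).filter
          (fun P => (phi P, phi (hull Q P) - phi Q) = (h, c))), wt (Real.exp (-L)) P *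
            (Real.exp (cP lam η Q (hull Q P)) * GP k C F (hull Q P)) = 0 := by
          apply Finset.sum_eq_zero
          intro P hP
          obtain ⟨b1, b2, b3, b4, b5, b6⟩ := hmem P hP
          have : GP k C F (hull Q P) = 0 := by
            unfold GP
            rw [b3, if_neg (by omega)]
          rw [this, mul_zero, mul_zero]
        rw [hzero]
        positivity
  have hfin : 8 / (d : ℝ) + 8 / d ≤ 1 := by
    rw [← add_div, div_le_one hd0]
    linarith
  calc _ ≤ B * (8 / d) + B * (8 / d) := add_le_add hTT hFar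
    _ = B * (8 / d + 8 / d) := by ring
    _ ≤ B * 1 := mul_le_mul_of_nonneg_left hfin hB0
    _ = B := mul_one B

end Pool.Agent.Lib.MP_8501c9_pr.Wide
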