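import Pool.Agent.Lib.MP_8501c9_pr.Basic
import Pool.Agent.Lib.MP_8501c9_pr.Wide.NewCount

/-!
# Task V4: the births inequality for potentials of product form
-/

set_option autoImplicit false
open Set

namespace Pool.Agent.Lib.MP_8501c9_pr.Wide

open Pool.Agent.Lib.MP_8501c9_pr Pool.Agent.Lib.MP_8501c9_pr.Mid

variable {n d : ℕ}

/-- the summand as a function of the side lengths -/
noncomputable def v4_G (k : ℕ) (L η : ℝ) (lam C : ℕ → ℝ) (F : ℕ → ℕ → ℝ) (x x' : Fin d → ℕ) : ℝ :=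
  Real.exp (-L) * Real.exp (∑ i, ((x' i : ℝ) - x i) * (lam (∑ i, x' i - d) / x' i + η)) *
    (if ∑ i, x' i - d < k then C (∑ i, x' i - d) * ∏ i, F (∑ i, x' i - d) (x' i) else 0)

theorem v4_phi (Q : BoxT n d) : ∑ i, sd Q i - d = phi Q := by
  rw [E_sum_sd]
  omega

theorem v4_eq (k : ℕ) (L η : ℝ) (lam C : ℕ → ℝ) (F : ℕ → ℕ → ℝ) (X Y : BoxT n d) :
    Real.exp (-L) * Real.exp (cP lam η X Y) * GP k C F Y = v4_G k L η lam C F (sd X) (sd Y) := by
  unfold v4_G cP GP
  rw [v4_phi]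

theorem v4_G_nonneg (k : ℕ) (L η : ℝ) (lam C : ℕ → ℝ) (F : ℕ → ℕ → ℝ) (hC : ∀ t, 0 < C t)
    (hF : ∀ t x, 1 ≤ F t x) (x x' : Fin d → ℕ) : 0 ≤ v4_G k L η lam C F x x' := by
  unfold v4_G
  split_ifs
  · have h1 := (hC (∑ i, x' i - d)).le
    have h2 : 0 ≤ ∏ i, F (∑ i, x' i - d) (x' i) :=
      Finset.prod_nonneg fun i _ => zero_le_one.trans (hF _ _)
    positivity
  · simp

theorem v4_G_two {k : ℕ} {L η : ℝ} {lam C : ℕ → ℝ} {F : ℕ → ℕ → ℝ} (hF : ∀ t x, 1 ≤ F t x)
    {x : Fin d → ℕ} {t : ℕ} (hx : ∑ i, x i = t + d) {i j : Fin d} (hij : i ≠ j) :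
    v4_G k L η lam C F x (x + Pi.single i 1 + Pi.single j 1) =
      Real.exp (-L) * Real.exp ((lam (t + 2) / ((x i : ℝ) + 1) + η) +
        (lam (t + 2) / ((x j : ℝ) + 1) + η)) *
      (if t + 2 < k then C (t + 2) * ((∏ m, F (t + 2) (x m)) *
        (F (t + 2) (x i + 1) / F (t + 2) (x i)) * (F (t + 2) (x j + 1) / F (t + 2) (x j)))
        else 0) := by
  obtain ⟨x', hx'⟩ : ∃ x' : Fin d → ℕ, x' = x + Pi.single i 1 + Pi.single j 1 := ⟨_, rfl⟩
  rw [← hx']
  have hv : ∀ m, x' m = x m + (if m = i then 1 else 0) + (if m = j then 1 else 0) := by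
    intro m
    rw [hx']
    simp [Pi.single_apply]
  have hs : ∑ m, x' m - d = t + 2 := by
    simp only [hv, Finset.sum_add_distrib, Finset.sum_ite_eq', Finset.mem_univ, if_true, hx]
    omega
  unfold v4_G
  rw [hs]
  have he : ∑ m, ((x' m : ℝ) - x m) * (lam (t + 2) / (x' m : ℝ) + η) =
      (lam (t + 2) / ((x i : ℝ) + 1) + η) + (lam (t + 2) / ((x j : ℝ) + 1) + η) := by
    rw [show (lam (t + 2) / ((x i : ℝ) + 1) + η) + (lam (t + 2) / ((x j : ℝ) + 1) + η) =
      ∑ m, ((if m = i then (lam (t + 2) / ((x i : ℝ) + 1) + η) else 0) +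
        (if m = j then (lam (t + 2) / ((x j : ℝ) + 1) + η) else 0)) by
      rw [Finset.sum_add_distrib]; simp]
    refine Finset.sum_congr rfl fun m _ => ?_
    rw [hv m]
    by_cases h1 : m = i
    · subst h1
      simp [hij]
    · by_cases h2 : m = j
      · subst h2
        simp [h1]
      · simp [h1, h2]
  have hp : ∏ m, F (t + 2) (x' m) =
      (∏ m, F (t + 2) (x m)) *
        (F (t + 2) (x i + 1) / F (t + 2) (x i)) * (F (t + 2) (x j + 1) / F (t + 2) (x j)) := by
    rw [show (∏ m, F (t + 2) (x m)) *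
        (F (t + 2) (x i + 1) / F (t + 2) (x i)) * (F (t + 2) (x j + 1) / F (t + 2) (x j)) =
      ∏ m, (F (t + 2) (x m) * (if m = i then (F (t + 2) (x i + 1) / F (t + 2) (x i)) else 1) *
        (if m = j then (F (t + 2) (x j + 1) / F (t + 2) (x j)) else 1)) by
      rw [Finset.prod_mul_distrib, Finset.prod_mul_distrib]; simp]
    refine Finset.prod_congr rfl fun m _ => ?_
    have hne : F (t + 2) (x m) ≠ 0 := by have := hF (t + 2) (x m); linarith
    rw [hv m]
    by_cases h1 : m = i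
    · subst h1
      simp [hij]
      field_simp
    · by_cases h2 : m = j
      · subst h2
        simp [h1]
        field_simp
      · simp [h1, h2]
  rw [he, hp]

theorem v4_G_st {k : ℕ} {L η : ℝ} {lam C : ℕ → ℝ} {F : ℕ → ℕ → ℝ} (hF : ∀ t x, 1 ≤ F t x)
    {x : Fin d → ℕ} {t : ℕ} (hx : ∑ i, x i = t + d) (a : ℕ) (i : Fin d) :
    v4_G k L η lam C F x (x + Pi.single i a) =
      Real.exp (-L) * Real.exp (a * (lam (t + a) / ((x i : ℝ) + a) + η)) *
      (if t + a < k then C (t + a) * ((∏ m, F (t + a) (x m)) *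
        (F (t + a) (x i + a) / F (t + a) (x i))) else 0) := by
  obtain ⟨x', hx'⟩ : ∃ x' : Fin d → ℕ, x' = x + Pi.single i a := ⟨_, rfl⟩
  rw [← hx']
  have hv : ∀ m, x' m = x m + (if m = i then a else 0) := by
    intro m
    rw [hx']
    simp [Pi.single_apply]
  have hs : ∑ m, x' m - d = t + a := by
    simp only [hv, Finset.sum_add_distrib, Finset.sum_ite_eq', Finset.mem_univ, if_true, hx]
    omega
  unfold v4_G
  rw [hs]
  have he : ∑ m, ((x' m : ℝ) - x m) * (lam (t + a) / (x' m : ℝ) + η) =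
      a * (lam (t + a) / ((x i : ℝ) + a) + η) := by
    rw [show a * (lam (t + a) / ((x i : ℝ) + a) + η) =
      ∑ m, (if m = i then a * (lam (t + a) / ((x i : ℝ) + a) + η) else 0) by simp]
    refine Finset.sum_congr rfl fun m _ => ?_
    rw [hv m]
    by_cases h1 : m = i
    · subst h1
      simp
    · simp [h1]
  have hp : ∏ m, F (t + a) (x' m) =
      (∏ m, F (t + a) (x m)) * (F (t + a) (x i + a) / F (t + a) (x i)) := by
    rw [show (∏ m, F (t + a) (x m)) * (F (t + a) (x i + a) / F (t + a) (x i)) =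
      ∏ m, (F (t + a) (x m) *
        (if m = i then (F (t + a) (x i + a) / F (t + a) (x i)) else 1)) by
      rw [Finset.prod_mul_distrib]; simp]
    refine Finset.prod_congr rfl fun m _ => ?_
    have hne : F (t + a) (x m) ≠ 0 := by have := hF (t + a) (x m); linarith
    rw [hv m]
    by_cases h1 : m = i
    · subst h1
      simp
      field_simp
    · simp [h1]
  rw [he, hp]

/-! ### the weights -/

theorem v4_w {lam : ℕ → ℝ} {η : ℝ} {F : ℕ → ℕ → ℝ} (hF : ∀ t x, 1 ≤ F t x) (t s x : ℕ)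
    (hx : 1 ≤ x) {c : ℝ} (hc : c ≤ (1 + 3 * η) * lam t / x) :
    Real.exp c * (F s (x + 1) / F s x) / x ≤ wP lam η F t s x := by
  unfold wP
  have h1 : (0 : ℝ) < x := by exact_mod_cast hx
  have h2 : 0 < F s (x + 1) / F s x :=
    div_pos (by linarith [hF s (x + 1)]) (by linarith [hF s x])
  have h3 := Real.exp_le_exp.2 hc
  have h4 : Real.exp ((1 + 3 * η) * lam t / x) / x * (F s (x + 1) / F s x) =
      Real.exp ((1 + 3 * η) * lam t / x) * (F s (x + 1) / F s x) / x := by ring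
  rw [h4]
  gcongr

theorem v4_wnonneg {lam : ℕ → ℝ} {η : ℝ} {F : ℕ → ℕ → ℝ} (hF : ∀ t x, 1 ≤ F t x) (t s x : ℕ) :
    0 ≤ wP lam η F t s x := by
  unfold wP
  have h2 : 0 < F s (x + 1) / F s x :=
    div_pos (by linarith [hF s (x + 1)]) (by linarith [hF s x])
  positivity

theorem v4_lam {lam : ℕ → ℝ} {η : ℝ} (hη0 : 0 < η) {d t s x x' : ℕ} (h1 : ∀ t, 1 ≤ lam t)
    (hm : Monotone lam)
    (hl : ∀ t, lam (t + 4 * d + 4) ≤ (1 + η) * lam t) (hs : s ≤ t + 2) (hx : 1 ≤ x)
    (hx' : x ≤ x') : lam s / x' ≤ (1 + 3 * η) * lam t / x := by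
  have h2 : lam s ≤ (1 + η) * lam t := (hm (by omega)).trans (hl t)
  have h3 : (0 : ℝ) < x := by exact_mod_cast hx
  have h4 : (x : ℝ) ≤ x' := by exact_mod_cast hx'
  have h5 := h1 t
  have h6 := h1 s
  calc lam s / x' ≤ lam s / x := div_le_div_of_nonneg_left (by linarith) h3 h4
    _ ≤ (1 + 3 * η) * lam t / x := by
      apply div_le_div_of_nonneg_right _ h3.le
      nlinarith

theorem v4_main {d k : ℕ} {L η R c₁ c₃ : ℝ} {lam y C : ℕ → ℝ} {F : ℕ → ℕ → ℝ} (hη0 : 0 < η)
    (h : PF d k L η R c₁ c₃ lam y C F) {x : Fin d → ℕ} {t : ℕ} (hx : ∑ i, x i = t + d)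
    (hx1 : ∀ i, 1 ≤ x i) (ht : t < k)
    (hV : Real.log (∏ i, (x i : ℝ)) = sfun d t - ∑ i, gap d t (x i)) :
    ∃ P2 : ℝ, 0 ≤ P2 ∧
      P2 ≤ lam t * Real.exp (2 - 2 * η - 2 * ∑ i, y t * wP lam η F t (t + 2) (x i)) *
        (C t * ∏ i, F t (x i)) ∧
      (∀ i j, i ≠ j → 4 * ((∏ i, (x i : ℝ)) / ((x i : ℝ) * x j)) *
        v4_G k L η lam C F x (x + Pi.single i 1 + Pi.single j 1) ≤
        2 * P2 * ((y t * wP lam η F t (t + 2) (x i)) * (y t * wP lam η F t (t + 2) (x j)))) ∧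
      (∀ i, 2 * ((∏ i, (x i : ℝ)) / (x i : ℝ)) * v4_G k L η lam C F x (x + Pi.single i 2) ≤
        P2 * ((y t * wP lam η F t (t + 2) (x i)) * (R * lev d t / d))) := by
  have hF := h.F_ge
  have hx0 : ∀ i, (0 : ℝ) < x i := fun i => by exact_mod_cast hx1 i
  have hVpos : 0 < ∏ i, (x i : ℝ) := Finset.prod_pos fun i _ => hx0 i
  have hy : 0 < y t := (Real.exp_pos _).trans_le (h.y_ge t)
  have hFt : 0 ≤ ∏ i, F t (x i) := Finset.prod_nonneg fun i _ => zero_le_one.trans (hF _ _)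
  have hCt := h.C_pos t
  have hlam := h.lam_ge t
  by_cases hk : t + 2 < k
  · have hF2 : 0 ≤ ∏ i, F (t + 2) (x i) :=
      Finset.prod_nonneg fun i _ => zero_le_one.trans (hF _ _)
    have hC2 := h.C_pos (t + 2)
    obtain ⟨M, hM⟩ : ∃ M, M = Real.exp (-L) * Real.exp (2 * η) * C (t + 2) *
      ((∏ i, (x i : ℝ)) * ∏ i, F (t + 2) (x i)) := ⟨_, rfl⟩
    have hM0 : 0 ≤ M := by rw [hM]; positivity
    refine ⟨2 * M / y t ^ 2, by positivity, ?_, ?_, ?_⟩
    · -- the upper bound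
      have h1 : (∏ i, F (t + 2) (x i)) *
          Real.exp (∑ i, (-(gap d t (x i)) + 2 * y t * wP lam η F t (t + 2) (x i))) ≤
          ∏ i, F t (x i) := by
        rw [Real.exp_sum, ← Finset.prod_mul_distrib]
        apply Finset.prod_le_prod
        · intro i _
          have := hF (t + 2) (x i)
          positivity
        · intro i _
          exact h.sdF t (x i) ht (hx1 i)
      have h2 : (∏ i, (x i : ℝ)) = Real.exp (sfun d t - ∑ i, gap d t (x i)) := by
        rw [← hV, Real.exp_log hVpos]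
      have h3 : (∏ i, (x i : ℝ)) * ∏ i, F (t + 2) (x i) ≤
          Real.exp (sfun d t - 2 * ∑ i, y t * wP lam η F t (t + 2) (x i)) *
            ∏ i, F t (x i) := by
        have h4 : Real.exp (sfun d t - 2 * ∑ i, y t * wP lam η F t (t + 2) (x i)) *
            ((∏ i, F (t + 2) (x i)) *
          Real.exp (∑ i, (-(gap d t (x i)) + 2 * y t * wP lam η F t (t + 2) (x i)))) =
            (∏ i, (x i : ℝ)) * ∏ i, F (t + 2) (x i) := by
          rw [h2, mul_comm (∏ i, F (t + 2) (x i)), ← mul_assoc, ← Real.exp_add]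
          have e5 : ∑ i, (-(gap d t (x i)) + 2 * y t * wP lam η F t (t + 2) (x i)) =
              -(∑ i, gap d t (x i)) + 2 * ∑ i, y t * wP lam η F t (t + 2) (x i) := by
            rw [Finset.mul_sum, ← Finset.sum_neg_distrib, ← Finset.sum_add_distrib]
            refine Finset.sum_congr rfl fun i _ => ?_
            ring
          rw [e5]
          congr 2
          ring
        rw [← h4]
        exact mul_le_mul_of_nonneg_left h1 (Real.exp_pos _).le
      have h5 := h.recC t hk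
      have h6 : 2 * M / y t ^ 2 ≤ 2 * (Real.exp (-L) * Real.exp (2 * η) * C (t + 2) *
          (Real.exp (sfun d t - 2 * ∑ i, y t * wP lam η F t (t + 2) (x i)) *
            ∏ i, F t (x i))) / y t ^ 2 := by
        rw [hM]
        gcongr
      have h7 : 2 * (Real.exp (-L) * Real.exp (2 * η) * C (t + 2) *
          (Real.exp (sfun d t - 2 * ∑ i, y t * wP lam η F t (t + 2) (x i)) *
            ∏ i, F t (x i))) / y t ^ 2 =
          (C (t + 2) * (2 * Real.exp (-L + sfun d t + 4 * η) /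
            (lam t * Real.exp 2 * y t ^ 2))) *
          (lam t * Real.exp (2 - 2 * η - 2 * ∑ i, y t * wP lam η F t (t + 2) (x i)) *
            ∏ i, F t (x i)) := by
        have e1 : Real.exp (-L + sfun d t + 4 * η) *
            Real.exp (2 - 2 * η - 2 * ∑ i, y t * wP lam η F t (t + 2) (x i)) =
            Real.exp 2 * (Real.exp (-L) * Real.exp (2 * η) *
              Real.exp (sfun d t - 2 * ∑ i, y t * wP lam η F t (t + 2) (x i))) := by
          rw [← Real.exp_add, ← Real.exp_add, ← Real.exp_add, ← Real.exp_add]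
          congr 1
          ring
        have hl0 : lam t ≠ 0 := by linarith
        have e2 : Real.exp 2 ≠ 0 := (Real.exp_pos 2).ne'
        have e3 : (C (t + 2) * (2 * Real.exp (-L + sfun d t + 4 * η) /
            (lam t * Real.exp 2 * y t ^ 2))) *
          (lam t * Real.exp (2 - 2 * η - 2 * ∑ i, y t * wP lam η F t (t + 2) (x i)) *
            ∏ i, F t (x i)) = 2 * C (t + 2) * (∏ i, F t (x i)) *
            (Real.exp (-L + sfun d t + 4 * η) *
            Real.exp (2 - 2 * η - 2 * ∑ i, y t * wP lam η F t (t + 2) (x i))) /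
            (Real.exp 2 * y t ^ 2) := by
          field_simp
        rw [e3, e1]
        field_simp
      refine h6.trans ?_
      rw [h7]
      have h8 : 0 ≤ lam t * Real.exp (2 - 2 * η - 2 * ∑ i, y t * wP lam η F t (t + 2) (x i)) *
            ∏ i, F t (x i) := by positivity
      calc _ ≤ C t * (lam t * Real.exp (2 - 2 * η -
            2 * ∑ i, y t * wP lam η F t (t + 2) (x i)) * ∏ i, F t (x i)) :=
            mul_le_mul_of_nonneg_right h5 h8
        _ = _ := by ring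
    · intro i j hij
      rw [v4_G_two hF hx hij, if_pos hk]
      have hi := v4_w (lam := lam) (η := η) hF t (t + 2) (x i) (hx1 i)
        (v4_lam hη0 (x' := x i + 1) h.lam_ge h.lam_mono h.lam_lip le_rfl (hx1 i) (by omega))
      have hj := v4_w (lam := lam) (η := η) hF t (t + 2) (x j) (hx1 j)
        (v4_lam hη0 (x' := x j + 1) h.lam_ge h.lam_mono h.lam_lip le_rfl (hx1 j) (by omega))
      push_cast at hi hj
      have hwi := v4_wnonneg (lam := lam) (η := η) hF t (t + 2) (x i)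
      have hwj := v4_wnonneg (lam := lam) (η := η) hF t (t + 2) (x j)
      have hri : 0 < F (t + 2) (x i + 1) / F (t + 2) (x i) :=
        div_pos (by linarith [hF (t + 2) (x i + 1)]) (by linarith [hF (t + 2) (x i)])
      have hrj : 0 < F (t + 2) (x j + 1) / F (t + 2) (x j) :=
        div_pos (by linarith [hF (t + 2) (x j + 1)]) (by linarith [hF (t + 2) (x j)])
      have e1 : 4 * ((∏ i, (x i : ℝ)) / ((x i : ℝ) * x j)) *
          (Real.exp (-L) * Real.exp ((lam (t + 2) / ((x i : ℝ) + 1) + η) +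
            (lam (t + 2) / ((x j : ℝ) + 1) + η)) *
            (C (t + 2) * ((∏ m, F (t + 2) (x m)) *
            (F (t + 2) (x i + 1) / F (t + 2) (x i)) *
            (F (t + 2) (x j + 1) / F (t + 2) (x j))))) =
          4 * M * ((Real.exp (lam (t + 2) / ((x i : ℝ) + 1)) *
            (F (t + 2) (x i + 1) / F (t + 2) (x i)) / x i) *
            (Real.exp (lam (t + 2) / ((x j : ℝ) + 1)) *
            (F (t + 2) (x j + 1) / F (t + 2) (x j)) / x j)) := by
        rw [hM, show (lam (t + 2) / ((x i : ℝ) + 1) + η) +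
            (lam (t + 2) / ((x j : ℝ) + 1) + η) =
            2 * η + lam (t + 2) / ((x i : ℝ) + 1) + lam (t + 2) / ((x j : ℝ) + 1) by ring,
          Real.exp_add, Real.exp_add]
        generalize F (t + 2) (x i + 1) / F (t + 2) (x i) = r1
        generalize F (t + 2) (x j + 1) / F (t + 2) (x j) = r2
        have hi0 := (hx0 i).ne'
        have hj0 := (hx0 j).ne'
        field_simp
      rw [e1]
      have e2 : 2 * (2 * M / y t ^ 2) *
          ((y t * wP lam η F t (t + 2) (x i)) * (y t * wP lam η F t (t + 2) (x j))) =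
          4 * M * (wP lam η F t (t + 2) (x i) * wP lam η F t (t + 2) (x j)) := by
        field_simp
        ring
      rw [e2]
      have hx0i := hx0 i
      have hx0j := hx0 j
      refine mul_le_mul_of_nonneg_left ?_ (by positivity)
      exact mul_le_mul hi hj (by positivity) hwi
    · intro i
      have e0 : (x + Pi.single i 2) = x + Pi.single i (2 : ℕ) := rfl
      rw [v4_G_st hF hx 2 i, if_pos hk]
      have hi := v4_w (lam := lam) (η := η) hF t (t + 2) (x i) (hx1 i)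
        (v4_lam hη0 (x' := x i + 2) h.lam_ge h.lam_mono h.lam_lip le_rfl (hx1 i) (by omega))
      have hj := v4_w (lam := lam) (η := η) hF t (t + 2) (x i + 1) (by omega)
        (v4_lam hη0 (x' := x i + 2) h.lam_ge h.lam_mono h.lam_lip le_rfl (by omega) (by omega))
      have hlex := h.w_lex t (t + 2) (x i + 1) ht (Or.inr rfl) (by omega)
      push_cast at hi hj hlex
      have hwi := v4_wnonneg (lam := lam) (η := η) hF t (t + 2) (x i)
      have hwj := v4_wnonneg (lam := lam) (η := η) hF t (t + 2) (x i + 1)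
      have hri : 0 < F (t + 2) (x i + 1) / F (t + 2) (x i) :=
        div_pos (by linarith [hF (t + 2) (x i + 1)]) (by linarith [hF (t + 2) (x i)])
      have hrj : 0 < F (t + 2) (x i + 1 + 1) / F (t + 2) (x i + 1) :=
        div_pos (by linarith [hF (t + 2) (x i + 1 + 1)]) (by linarith [hF (t + 2) (x i + 1)])
      have hx0i := hx0 i
      have e1 : 2 * ((∏ i, (x i : ℝ)) / (x i : ℝ)) *
          (Real.exp (-L) * Real.exp ((2 : ℕ) * (lam (t + 2) / ((x i : ℝ) + (2 : ℕ)) + η)) *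
            (C (t + 2) * ((∏ m, F (t + 2) (x m)) *
            (F (t + 2) (x i + 2) / F (t + 2) (x i))))) =
          2 * M * ((Real.exp (lam (t + 2) / ((x i : ℝ) + 2)) *
            (F (t + 2) (x i + 1) / F (t + 2) (x i)) / x i) *
            ((Real.exp (lam (t + 2) / ((x i : ℝ) + 2)) *
            (F (t + 2) (x i + 1 + 1) / F (t + 2) (x i + 1)) / (x i + 1)) * (x i + 1))) := by
        push_cast
        rw [hM, show 2 * (lam (t + 2) / ((x i : ℝ) + 2) + η) =
            2 * η + lam (t + 2) / ((x i : ℝ) + 2) + lam (t + 2) / ((x i : ℝ) + 2) by ring,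
          Real.exp_add, Real.exp_add]
        have h3 : F (t + 2) (x i + 2) / F (t + 2) (x i) =
            (F (t + 2) (x i + 1) / F (t + 2) (x i)) *
            (F (t + 2) (x i + 1 + 1) / F (t + 2) (x i + 1)) := by
          have a1 : F (t + 2) (x i) ≠ 0 := by linarith [hF (t + 2) (x i)]
          have a2 : F (t + 2) (x i + 1) ≠ 0 := by linarith [hF (t + 2) (x i + 1)]
          field_simp
        rw [h3]
        generalize F (t + 2) (x i + 1) / F (t + 2) (x i) = r1
        generalize F (t + 2) (x i + 1 + 1) / F (t + 2) (x i + 1) = r2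
        have hi0 := (hx0 i).ne'
        have hi1 : (x i : ℝ) + 1 ≠ 0 := by positivity
        field_simp
      rw [e1]
      have e2 : 2 * M / y t ^ 2 *
          ((y t * wP lam η F t (t + 2) (x i)) *
            (y t * wP lam η F t (t + 2) (x i + 1) * (x i + 1))) =
          2 * M * (wP lam η F t (t + 2) (x i) *
            (wP lam η F t (t + 2) (x i + 1) * (x i + 1))) := by
        field_simp
      calc _ ≤ 2 * M * (wP lam η F t (t + 2) (x i) *
            (wP lam η F t (t + 2) (x i + 1) * (x i + 1))) := by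
            refine mul_le_mul_of_nonneg_left ?_ (by positivity)
            refine mul_le_mul hi ?_ (by positivity) hwi
            exact mul_le_mul_of_nonneg_right hj (by positivity)
        _ ≤ _ := by
            rw [← e2]
            refine mul_le_mul_of_nonneg_left ?_ (by positivity)
            refine mul_le_mul_of_nonneg_left hlex ?_
            positivity
  · refine ⟨0, le_rfl, by positivity, ?_, ?_⟩
    · intro i j hij
      rw [v4_G_two hF hx hij, if_neg hk]
      simp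
    · intro i
      rw [v4_G_st hF hx 2 i, if_neg hk]
      simp

/-- one unit -/
theorem v4_one {d k : ℕ} {L η R c₁ c₃ : ℝ} {lam y C : ℕ → ℝ} {F : ℕ → ℕ → ℝ} (hη0 : 0 < η)
    (hd : 1 ≤ d) (hR : 1 ≤ R) (hc₃ : 0 ≤ c₃)
    (h : PF d k L η R c₁ c₃ lam y C F) {x : Fin d → ℕ} {t : ℕ} (hx : ∑ i, x i = t + d)
    (hx1 : ∀ i, 1 ≤ x i) (ht : t < k) (hV : ∏ i, (x i : ℝ) ≤ Real.exp (sfun d t)) (i : Fin d) :
    (∏ i, (x i : ℝ)) * v4_G k L η lam C F x (x + Pi.single i 1) ≤
      Real.exp (-(L - sfun d t) / 2) * Real.exp η * Real.exp (3 * c₁ * Real.log d) *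
        (R * lev d t / d) * (C t * ∏ i, F t (x i)) := by
  have hF := h.F_ge
  have hx0 : ∀ i, (0 : ℝ) < x i := fun i => by exact_mod_cast hx1 i
  have hVpos : 0 < ∏ i, (x i : ℝ) := Finset.prod_pos fun i _ => hx0 i
  have hy : 0 < y t := (Real.exp_pos _).trans_le (h.y_ge t)
  have hFt : 0 ≤ ∏ i, F t (x i) := Finset.prod_nonneg fun i _ => zero_le_one.trans (hF _ _)
  have hCt := h.C_pos t
  have hd0 : (0 : ℝ) < d := by exact_mod_cast hd
  have hlog : 0 ≤ Real.log d := Real.log_nonneg (by exact_mod_cast hd)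
  have hR0 : 0 ≤ R := by linarith
  rw [v4_G_st hF hx 1 i]
  by_cases hk : t + 1 < k
  · rw [if_pos hk]
    have hC1 := h.C_pos (t + 1)
    have hi := v4_w (lam := lam) (η := η) hF t (t + 1) (x i) (hx1 i)
      (v4_lam hη0 (t := t) (s := t + 1) (x' := x i + 1) h.lam_ge h.lam_mono h.lam_lip (by omega) (hx1 i)
        (by omega))
    have hlex := h.w_lex t (t + 1) (x i) ht (Or.inl rfl) (hx1 i)
    push_cast at hi ⊢
    have hri : 0 < F (t + 1) (x i + 1) / F (t + 1) (x i) :=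
      div_pos (by linarith [hF (t + 1) (x i + 1)]) (by linarith [hF (t + 1) (x i)])
    have hx0i := hx0 i
    -- the exponential of the weight
    have h1 : Real.exp (lam (t + 1) / ((x i : ℝ) + 1)) *
        (F (t + 1) (x i + 1) / F (t + 1) (x i)) ≤
        R * lev d t / d * Real.exp (c₁ * Real.log d) := by
      rw [div_le_iff₀ hx0i] at hi
      refine hi.trans ?_
      have h2 : wP lam η F t (t + 1) (x i) * x i = (y t * wP lam η F t (t + 1) (x i) * x i) / y t := by
        field_simp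
      rw [h2, div_le_iff₀ hy]
      refine hlex.trans ?_
      have h3 : 1 ≤ Real.exp (c₁ * Real.log d) * y t := by
        have h4 := mul_le_mul_of_nonneg_left (h.y_ge t) (Real.exp_pos (c₁ * Real.log d)).le
        rwa [← Real.exp_add, add_neg_cancel, Real.exp_zero] at h4
      rw [mul_assoc]
      exact le_mul_of_one_le_right (by positivity) h3
    -- the product
    have h5 : ∏ m, F (t + 1) (x m) ≤ (∏ m, F t (x m)) * Real.exp (c₁ * Real.log d) := by
      have h6 : Real.exp (c₁ * Real.log d) = ∏ _m : Fin d, Real.exp (c₁ * Real.log d / d) := by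
        rw [Finset.prod_const, Finset.card_univ, Fintype.card_fin, ← Real.exp_nat_mul]
        congr 1
        field_simp
      rw [h6, ← Finset.prod_mul_distrib]
      apply Finset.prod_le_prod
      · intro m _
        exact zero_le_one.trans (hF _ _)
      · intro m _
        exact h.stepF t (x m) (hx1 m)
    -- the constant
    have h7 : C (t + 1) ≤ C t * Real.exp ((L - sfun d t) / 2 + c₁ * Real.log d) := by
      refine (h.ratioC t hk).trans ?_
      refine mul_le_mul_of_nonneg_left ?_ hCt.le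
      apply Real.exp_le_exp.2
      have : 0 ≤ (if (t : ℝ) < c₃ * Real.log d then c₃ * Real.log d else 0) := by
        split_ifs <;> positivity
      linarith
    have h8 : 0 ≤ ∏ m, F (t + 1) (x m) :=
      Finset.prod_nonneg fun i _ => zero_le_one.trans (hF _ _)
    calc (∏ i, (x i : ℝ)) * (Real.exp (-L) *
          Real.exp (1 * (lam (t + 1) / ((x i : ℝ) + 1) + η)) *
          (C (t + 1) * ((∏ m, F (t + 1) (x m)) * (F (t + 1) (x i + 1) / F (t + 1) (x i)))))
        = (∏ i, (x i : ℝ)) * Real.exp (-L) * Real.exp η * C (t + 1) *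
          (∏ m, F (t + 1) (x m)) * (Real.exp (lam (t + 1) / ((x i : ℝ) + 1)) *
            (F (t + 1) (x i + 1) / F (t + 1) (x i))) := by
          rw [one_mul, Real.exp_add]
          ring
      _ ≤ Real.exp (sfun d t) * Real.exp (-L) * Real.exp η *
          (C t * Real.exp ((L - sfun d t) / 2 + c₁ * Real.log d)) *
          ((∏ m, F t (x m)) * Real.exp (c₁ * Real.log d)) *
          (R * lev d t / d * Real.exp (c₁ * Real.log d)) := by
          gcongr
      _ = _ := by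
          have e1 : Real.exp (sfun d t) * Real.exp (-L) *
              Real.exp ((L - sfun d t) / 2 + c₁ * Real.log d) * Real.exp (c₁ * Real.log d) *
              Real.exp (c₁ * Real.log d) =
              Real.exp (-(L - sfun d t) / 2) * Real.exp (3 * c₁ * Real.log d) := by
            rw [← Real.exp_add, ← Real.exp_add, ← Real.exp_add, ← Real.exp_add, ← Real.exp_add]
            congr 1
            ring
          linear_combination (Real.exp η * (R * lev d t / d) * (C t * ∏ i, F t (x i))) * e1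
  · rw [if_neg hk]
    simp only [mul_zero]
    positivity

/-- zero units -/
theorem v4_zero {d k : ℕ} {L η R c₁ c₃ : ℝ} {lam y C : ℕ → ℝ} {F : ℕ → ℕ → ℝ}
    (h : PF d k L η R c₁ c₃ lam y C F) {x : Fin d → ℕ} {t : ℕ} (hx : ∑ i, x i = t + d)
    (ht : t < k) (hV : ∏ i, (x i : ℝ) ≤ Real.exp (sfun d t)) :
    (∏ i, (x i : ℝ)) * v4_G k L η lam C F x x ≤
      Real.exp (-(L - sfun d t)) * (C t * ∏ i, F t (x i)) := by
  have hF := h.F_ge
  have hFt : 0 ≤ ∏ i, F t (x i) := Finset.prod_nonneg fun i _ => zero_le_one.trans (hF _ _)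
  have hCt := h.C_pos t
  unfold v4_G
  have hs : ∑ m, x m - d = t := by rw [hx]; omega
  rw [hs, if_pos ht]
  have he : ∑ i, ((x i : ℝ) - x i) * (lam t / x i + η) = 0 := by simp
  rw [he, Real.exp_zero, mul_one]
  calc (∏ i, (x i : ℝ)) * (Real.exp (-L) * (C t * ∏ i, F t (x i)))
      = (∏ i, (x i : ℝ)) * Real.exp (-L) * (C t * ∏ i, F t (x i)) := by ring
    _ ≤ Real.exp (sfun d t) * Real.exp (-L) * (C t * ∏ i, F t (x i)) := by gcongr
    _ = _ := by
        rw [← Real.exp_add]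
        congr 2
        ring

/-! ### sums over pairs -/

theorem v4_pairs (a e : Fin d → ℝ) (κ : ℝ) (ha : ∀ i, 0 ≤ a i) (he : ∀ i, 0 ≤ e i)
    (hκ : 0 ≤ κ) :
    ∑ P : Fin d × Fin d with P.1 < P.2, 2 * (a P.1 * a P.2) * (κ + e P.1 + e P.2) ≤
      κ * (∑ i, a i) ^ 2 + 2 * (∑ i, a i) * ∑ i, e i * a i := by
  have h1 : ∑ P : Fin d × Fin d with P.1 < P.2, (a P.1 * a P.2) * (κ + e P.1 + e P.2) =
      ∑ P : Fin d × Fin d with P.2 < P.1, (a P.1 * a P.2) * (κ + e P.1 + e P.2) := by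
    refine Finset.sum_bij' (fun P _ => (P.2, P.1)) (fun P _ => (P.2, P.1)) ?_ ?_ ?_ ?_ ?_
    · intro P hP
      simpa using hP
    · intro P hP
      simpa using hP
    · intro P _
      rfl
    · intro P _
      rfl
    · intro P _
      simp only
      ring
  have h2 : ∑ P : Fin d × Fin d with P.1 < P.2, 2 * (a P.1 * a P.2) * (κ + e P.1 + e P.2) =
      ∑ P : Fin d × Fin d with P.1 < P.2, (a P.1 * a P.2) * (κ + e P.1 + e P.2) +
      ∑ P : Fin d × Fin d with P.2 < P.1, (a P.1 * a P.2) * (κ + e P.1 + e P.2) := by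
    rw [← h1, ← Finset.sum_add_distrib]
    refine Finset.sum_congr rfl fun P _ => ?_
    ring
  have hdis : Disjoint (Finset.univ.filter (fun P : Fin d × Fin d => P.1 < P.2))
      (Finset.univ.filter (fun P : Fin d × Fin d => P.2 < P.1)) := by
    rw [Finset.disjoint_left]
    intro P hP hP'
    simp only [Finset.mem_filter, Finset.mem_univ, true_and] at hP hP'
    exact absurd hP (not_lt.2 hP'.le)
  rw [h2, ← Finset.sum_union hdis]
  calc _ ≤ ∑ P : Fin d × Fin d, (a P.1 * a P.2) * (κ + e P.1 + e P.2) := by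
        refine Finset.sum_le_sum_of_subset_of_nonneg (Finset.subset_univ _) ?_
        intro P _ _
        have := ha P.1
        have := ha P.2
        have := he P.1
        have := he P.2
        positivity
    _ = _ := by
        rw [Fintype.sum_prod_type]
        have e1 : ∀ i, ∑ j, (a i * a j) * (κ + e i + e j) =
            κ * a i * (∑ j, a j) + e i * a i * (∑ j, a j) + a i * ∑ j, e j * a j := by
          intro i
          rw [Finset.mul_sum, Finset.mul_sum, Finset.mul_sum, ← Finset.sum_add_distrib,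
            ← Finset.sum_add_distrib]
          refine Finset.sum_congr rfl fun j _ => ?_
          ring
        simp only [e1]
        rw [Finset.sum_add_distrib, Finset.sum_add_distrib, ← Finset.sum_mul, ← Finset.sum_mul,
          ← Finset.sum_mul, ← Finset.mul_sum]
        ring

/-! ### cross sections -/

theorem v4_cross0 {f g : Fin d → ℝ} (hf : ∀ i, 1 ≤ f i) (hfg : ∀ i, f i ≤ g i) :
    ∏ i, f i ≤ ∏ i, g i :=
  Finset.prod_le_prod (fun i _ => by linarith [hf i]) fun i _ => hfg i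

theorem v4_cross1 {f g : Fin d → ℝ} (hf : ∀ i, 1 ≤ f i) (hfg : ∀ i, f i ≤ g i) (i : Fin d) :
    (∏ i, f i) / f i ≤ (∏ i, g i) / g i := by
  rw [← Finset.mul_prod_erase _ f (Finset.mem_univ i),
    ← Finset.mul_prod_erase _ g (Finset.mem_univ i), mul_div_cancel_left₀ _ (by linarith [hf i]),
    mul_div_cancel_left₀ _ (by linarith [hf i, hfg i])]
  exact Finset.prod_le_prod (fun i _ => by linarith [hf i]) fun i _ => hfg i

theorem v4_cross2 {f g : Fin d → ℝ} (hf : ∀ i, 1 ≤ f i) (hfg : ∀ i, f i ≤ g i) {i j : Fin d}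
    (hij : i ≠ j) : (∏ i, f i) / (f i * f j) ≤ (∏ i, g i) / (g i * g j) := by
  have hj : j ∈ Finset.univ.erase i := Finset.mem_erase.2 ⟨hij.symm, Finset.mem_univ j⟩
  have h1 := hf i
  have h2 := hf j
  have h3 := hfg i
  have h4 := hfg j
  rw [← Finset.mul_prod_erase _ f (Finset.mem_univ i),
    ← Finset.mul_prod_erase _ g (Finset.mem_univ i),
    ← Finset.mul_prod_erase _ f hj, ← Finset.mul_prod_erase _ g hj, ← mul_assoc, ← mul_assoc,
    mul_div_cancel_left₀ _ (by positivity), mul_div_cancel_left₀ _ (by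
      have : 0 < g i := by linarith
      have : 0 < g j := by linarith
      positivity)]
  exact Finset.prod_le_prod (fun i _ => by linarith [hf i]) fun i _ => hfg i

/-! ### numerical inequalities -/

theorem v4_exp1 {z : ℝ} (hz : 0 ≤ z) : z ^ 2 * Real.exp (2 - 2 * z) ≤ 1 := by
  have h1 : z * Real.exp (1 - z) ≤ 1 := by
    have h2 : z ≤ Real.exp (z - 1) := by
      have := Real.add_one_le_exp (z - 1)
      linarith
    calc z * Real.exp (1 - z) ≤ Real.exp (z - 1) * Real.exp (1 - z) :=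
          mul_le_mul_of_nonneg_right h2 (Real.exp_pos _).le
      _ = 1 := by rw [← Real.exp_add]; simp
  have h3 : z ^ 2 * Real.exp (2 - 2 * z) = (z * Real.exp (1 - z)) ^ 2 := by
    rw [mul_pow, ← Real.exp_nat_mul]
    congr 2
    push_cast
    ring
  rw [h3]
  exact pow_le_one₀ (mul_nonneg hz (Real.exp_pos _).le) h1

theorem v4_exp2 (z : ℝ) : 2 * z * Real.exp (2 - 2 * z) ≤ Real.exp 1 := by
  have h2 : 2 * z ≤ Real.exp (2 * z - 1) := by
    have := Real.add_one_le_exp (2 * z - 1)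
    linarith
  calc 2 * z * Real.exp (2 - 2 * z) ≤ Real.exp (2 * z - 1) * Real.exp (2 - 2 * z) :=
        mul_le_mul_of_nonneg_right h2 (Real.exp_pos _).le
    _ = Real.exp 1 := by rw [← Real.exp_add]; congr 1; ring

theorem v4_eta {η : ℝ} (hη0 : 0 < η) (hη1 : η ≤ 1 / 10) :
    (1 + η) * (Real.exp (-2 * η) + η / 20) ≤ 1 := by
  have h1 : Real.exp (-2 * η) ≤ 1 / (1 + 2 * η) := by
    rw [show -2 * η = -(2 * η) by ring, Real.exp_neg, ← one_div]
    apply one_div_le_one_div_of_le (by linarith)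
    have := Real.add_one_le_exp (2 * η)
    linarith
  have h2 : (1 + η) * (1 / (1 + 2 * η) + η / 20) ≤ 1 := by
    have h3 : (0 : ℝ) < 1 + 2 * η := by linarith
    have h4 : (1 + η) * (1 / (1 + 2 * η) + η / 20) =
        (1 + η) * (20 + η * (1 + 2 * η)) / (20 * (1 + 2 * η)) := by
      field_simp
    rw [h4, div_le_one (by linarith)]
    have h5 : η * η ≤ η * (1 / 10) := mul_le_mul_of_nonneg_left hη1 hη0.le
    have h6 : η * (η * η) ≤ η * (η * (1 / 10)) := mul_le_mul_of_nonneg_left h5 hη0.le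
    nlinarith
  refine le_trans ?_ h2
  gcongr

theorem v4_num {η R lt lq κ N z r1 D : ℝ} (hη0 : 0 < η) (hη1 : η ≤ 1 / 10) (hR : 1 ≤ R)
    (hz : 0 ≤ z) (hκ : 0 ≤ κ) (hN : 0 ≤ N) (hlt : 0 ≤ lt) (hlq : 0 ≤ lq)
    (hl : lt ≤ (1 + η) * lq) (hr1 : 0 ≤ r1) (hD : 0 < D) (h1 : R * r1 ≤ η / 30)
    (h2 : R * (lt / D) ≤ η / 30) :
    lt * Real.exp (2 - 2 * η - 2 * z) *
      (κ * z ^ 2 + 2 * z * (N * (R / D)) + (R * r1) * (κ * z + N * (R / D))) ≤
      κ * lq + η / 4 * N := by
  have e1 := v4_exp1 hz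
  have e2 := v4_exp2 z
  have e3 := v4_eta hη0 hη1
  have e4 := Real.exp_one_lt_d9
  have e5 : Real.exp (2 - 2 * z) ≤ 8 := by
    have e6 : Real.exp (2 - 2 * z) ≤ Real.exp 2 := Real.exp_le_exp.2 (by linarith)
    have e7 : Real.exp 2 = Real.exp 1 ^ 2 := by rw [← Real.exp_nat_mul]; norm_num
    have e8 := Real.exp_pos 1
    rw [e7] at e6
    nlinarith
  have e9 : Real.exp (2 - 2 * η - 2 * z) = Real.exp (-2 * η) * Real.exp (2 - 2 * z) := by
    rw [← Real.exp_add]; congr 1; ring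
  have f1 : 0 < Real.exp (2 - 2 * z) := Real.exp_pos _
  have f2 : 0 < Real.exp (-2 * η) := Real.exp_pos _
  have f3 : Real.exp (-2 * η) ≤ 1 := by
    rw [Real.exp_le_one_iff]; linarith
  rw [e9]
  obtain ⟨X, hX⟩ : ∃ X, X = Real.exp (2 - 2 * z) := ⟨_, rfl⟩
  obtain ⟨Y, hY⟩ : ∃ Y, Y = Real.exp (-2 * η) := ⟨_, rfl⟩
  obtain ⟨ρ, hρ⟩ : ∃ ρ, ρ = R * (lt / D) := ⟨_, rfl⟩
  obtain ⟨σ, hσ⟩ : ∃ σ, σ = R * r1 := ⟨_, rfl⟩
  rw [← hX] at e1 e2 e5 f1 ⊢
  rw [← hY] at e3 f2 f3 ⊢
  rw [← hρ] at h2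
  rw [← hσ] at h1 ⊢
  have hρ0 : 0 ≤ ρ := by rw [hρ]; positivity
  have hσ0 : 0 ≤ σ := by rw [hσ]; positivity
  have e10 : lt * (Y * X) * (κ * z ^ 2 + 2 * z * (N * (R / D)) + σ * (κ * z + N * (R / D))) =
      lt * κ * Y * (z ^ 2 * X) + Y * (2 * z * X) * (N * ρ) +
      lt * κ * (σ * (Y * (z * X))) + Y * X * (σ * (N * ρ)) := by
    rw [hρ]
    field_simp
    ring
  rw [e10]
  have g1 : lt * κ * Y * (z ^ 2 * X) ≤ lt * κ * Y := mul_le_of_le_one_right (by positivity) e1
  have g2 : Y * (2 * z * X) * (N * ρ) ≤ 3 * (N * (η / 30)) := by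
    have a1 : Y * (2 * z * X) ≤ 3 := by
      have : 0 ≤ 2 * z * X := by positivity
      nlinarith
    exact mul_le_mul a1 (mul_le_mul_of_nonneg_left h2 hN) (by positivity) (by norm_num)
  have g3 : lt * κ * (σ * (Y * (z * X))) ≤ lt * κ * (η / 20) := by
    refine mul_le_mul_of_nonneg_left ?_ (by positivity)
    have a1 : Y * (z * X) ≤ 3 / 2 := by
      have : 0 ≤ z * X := by positivity
      nlinarith
    calc σ * (Y * (z * X)) ≤ (η / 30) * (3 / 2) := mul_le_mul h1 a1 (by positivity) (by linarith)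
      _ = η / 20 := by ring
  have g4 : Y * X * (σ * (N * ρ)) ≤ 8 * ((η / 30) * (N * (η / 30))) := by
    have a1 : Y * X ≤ 8 := by nlinarith
    exact mul_le_mul a1 (mul_le_mul h1 (mul_le_mul_of_nonneg_left h2 hN) (by positivity)
      (by linarith)) (by positivity) (by norm_num)
  have g5 : lt * κ * Y + lt * κ * (η / 20) ≤ κ * lq := by
    have a1 : 0 ≤ Y + η / 20 := by linarith
    calc lt * κ * Y + lt * κ * (η / 20) = κ * (lt * (Y + η / 20)) := by ring
      _ ≤ κ * ((1 + η) * lq * (Y + η / 20)) :=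
          mul_le_mul_of_nonneg_left (mul_le_mul_of_nonneg_right hl a1) hκ
      _ = κ * (lq * ((1 + η) * (Y + η / 20))) := by ring
      _ ≤ κ * (lq * 1) := mul_le_mul_of_nonneg_left (mul_le_mul_of_nonneg_left e3 hlq) hκ
      _ = κ * lq := by ring
  have g6 : 3 * (N * (η / 30)) + 8 * ((η / 30) * (N * (η / 30))) ≤ η / 4 * N := by
    have : 8 * ((η / 30) * (N * (η / 30))) ≤ 8 * ((1 / 300) * (N * (η / 30))) :=
      mul_le_mul_of_nonneg_left (mul_le_mul_of_nonneg_right (by linarith) (by positivity))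
        (by norm_num)
    have : 0 ≤ N * η := by positivity
    linarith
  linarith

theorem v4_ev (A B c' : ℝ) (hc : 0 < c') (hA : 0 ≤ A) :
    ∀ᶠ d : ℕ in Filter.atTop, A * Real.log d + B ≤ c' * Real.sqrt d := by
  obtain ⟨D, hD⟩ := exists_log_le (2 * A) B c' hc
  have h1 : Filter.Tendsto (fun d : ℕ => Real.sqrt d) Filter.atTop Filter.atTop :=
    Real.tendsto_sqrt_atTop.comp tendsto_natCast_atTop_atTop
  filter_upwards [h1.eventually_ge_atTop D, h1.eventually_ge_atTop 1] with d h2 h3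
  have h4 := hD _ h2
  have h5 : Real.log d = 2 * Real.log (Real.sqrt d) := by
    rw [Real.log_sqrt (Nat.cast_nonneg d)]
    ring
  have h6 : Real.log (Real.sqrt d) ≤ Real.log (4 * Real.sqrt d) :=
    Real.log_le_log (by linarith) (by linarith)
  rw [h5]
  have h7 := mul_le_mul_of_nonneg_left h6 hA
  linarith

/-- the choice of the constants -/
theorem v4_const (η R c₁ : ℝ) (hη0 : 0 < η) (hR : 1 ≤ R) (hc₁ : 0 ≤ c₁) :
    ∃ D₀ : ℕ, ∀ d : ℕ, D₀ ≤ d → 1 ≤ d ∧ 1 / (d : ℝ) ≤ η / (60 * R) ∧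
      c₁ / (d : ℝ) ≤ η / (60 * R) ∧
      (3 * c₁ + 2) * Real.log d + Real.log (64 / η) ≤ Real.sqrt (η * d) / 2 := by
  have h1 := v4_ev (3 * c₁ + 2) (Real.log (64 / η)) (Real.sqrt η / 2)
    (by have := Real.sqrt_pos.2 hη0; positivity) (by positivity)
  have h2 : ∀ᶠ d : ℕ in Filter.atTop, (60 * R / η) * (c₁ + 1) ≤ (d : ℝ) :=
    tendsto_natCast_atTop_atTop.eventually_ge_atTop _
  have h3 := (h1.and (h2.and (Filter.eventually_ge_atTop 1)))
  rw [Filter.eventually_atTop] at h3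
  obtain ⟨D₀, hD⟩ := h3
  refine ⟨D₀, fun d hd => ?_⟩
  obtain ⟨a1, a2, a3⟩ := hD d hd
  have hd0 : (0 : ℝ) < d := by exact_mod_cast a3
  have hR0 : 0 < R := by linarith
  have a4 : c₁ + 1 ≤ η / (60 * R) * d := by
    have a5 : η / (60 * R) * ((60 * R / η) * (c₁ + 1)) = c₁ + 1 := by
      field_simp
    rw [← a5]
    exact mul_le_mul_of_nonneg_left a2 (by positivity)
  refine ⟨a3, ?_, ?_, ?_⟩
  · rw [div_le_iff₀ hd0]
    linarith
  · rw [div_le_iff₀ hd0]
    linarith
  · rw [Real.sqrt_mul hη0.le]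
    linarith

/-- negligible terms -/
theorem v4_tiny {η c₁ r Δ : ℝ} {d : ℕ} (hη0 : 0 < η) (hη1 : η ≤ 1 / 10) (hd : 1 ≤ d)
    (hc₁ : 0 ≤ c₁) (hr0 : 0 ≤ r) (hr : r ≤ 1)
    (h : (3 * c₁ + 2) * Real.log d + Real.log (64 / η) ≤ Real.sqrt (η * d) / 2)
    (hΔ : Real.sqrt (η * d) ≤ Δ) :
    4 * ((d : ℝ) + 1) * d * (Real.exp (-Δ / 2) * Real.exp η * Real.exp (3 * c₁ * Real.log d) * r) +
      4 * ((d : ℝ) + 1) ^ 2 * Real.exp (-Δ) ≤ η / 2 := by
  have hd1 : (1 : ℝ) ≤ d := by exact_mod_cast hd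
  have hd0 : (0 : ℝ) < d := by linarith
  have hlog : 0 ≤ Real.log d := Real.log_nonneg hd1
  have h64 : 0 < 64 / η := by positivity
  have h1 : Real.exp (Real.log (64 / η)) = 64 / η := Real.exp_log h64
  have h2 : Real.exp (2 * Real.log d) = (d : ℝ) ^ 2 := by
    rw [two_mul, Real.exp_add, Real.exp_log hd0]; ring
  have h3 : Real.exp η ≤ 2 := by
    have h31 : Real.exp η ≤ Real.exp (1 / 10) := Real.exp_le_exp.2 hη1
    have h32 : Real.exp (1 / 10) ≤ 2 := by
      have h33 : Real.exp (1 / 10) ^ 10 = Real.exp 1 := by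
        rw [← Real.exp_nat_mul]; norm_num
      by_contra h34
      push Not at h34
      have h35 : (2 : ℝ) ^ 10 ≤ Real.exp (1 / 10) ^ 10 := by
        apply pow_le_pow_left₀ (by norm_num) h34.le
      rw [h33] at h35
      have := Real.exp_one_lt_d9
      norm_num at h35
      linarith
    linarith
  -- first term
  have h4 : 4 * ((d : ℝ) + 1) * d *
      (Real.exp (-Δ / 2) * Real.exp η * Real.exp (3 * c₁ * Real.log d) * r) ≤ η / 4 := by
    have a1 : Real.exp (-Δ / 2) * Real.exp (3 * c₁ * Real.log d) * (d : ℝ) ^ 2 * (64 / η) ≤ 1 := by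
      rw [← h2, ← h1, ← Real.exp_add, ← Real.exp_add, ← Real.exp_add, Real.exp_le_one_iff]
      linarith
    have a2 : 4 * ((d : ℝ) + 1) * d ≤ 8 * (d : ℝ) ^ 2 := by nlinarith
    have a3 : Real.exp (-Δ / 2) * Real.exp (3 * c₁ * Real.log d) * (d : ℝ) ^ 2 ≤ η / 64 := by
      rw [le_div_iff₀ (by norm_num)]
      have a4 : Real.exp (-Δ / 2) * Real.exp (3 * c₁ * Real.log d) * (d : ℝ) ^ 2 * 64 =
          (Real.exp (-Δ / 2) * Real.exp (3 * c₁ * Real.log d) * (d : ℝ) ^ 2 * (64 / η)) * η := by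
        field_simp
      rw [a4]
      nlinarith
    calc 4 * ((d : ℝ) + 1) * d *
        (Real.exp (-Δ / 2) * Real.exp η * Real.exp (3 * c₁ * Real.log d) * r)
        ≤ (8 * (d : ℝ) ^ 2) *
          (Real.exp (-Δ / 2) * 2 * Real.exp (3 * c₁ * Real.log d) * 1) := by gcongr
      _ = 16 * (Real.exp (-Δ / 2) * Real.exp (3 * c₁ * Real.log d) * (d : ℝ) ^ 2) := by ring
      _ ≤ 16 * (η / 64) := by gcongr
      _ = η / 4 := by ring
  have h5 : 4 * ((d : ℝ) + 1) ^ 2 * Real.exp (-Δ) ≤ η / 4 := by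
    have a1 : Real.exp (-Δ) * (d : ℝ) ^ 2 * (64 / η) ≤ 1 := by
      rw [← h2, ← h1, ← Real.exp_add, ← Real.exp_add, Real.exp_le_one_iff]
      have : 0 ≤ Real.sqrt (η * d) := Real.sqrt_nonneg _
      have : 0 ≤ c₁ * Real.log d := by positivity
      linarith
    have a2 : 4 * ((d : ℝ) + 1) ^ 2 ≤ 16 * (d : ℝ) ^ 2 := by nlinarith
    have a3 : Real.exp (-Δ) * (d : ℝ) ^ 2 ≤ η / 64 := by
      rw [le_div_iff₀ (by norm_num)]
      have a4 : Real.exp (-Δ) * (d : ℝ) ^ 2 * 64 =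
          (Real.exp (-Δ) * (d : ℝ) ^ 2 * (64 / η)) * η := by
        field_simp
      rw [a4]
      nlinarith
    calc 4 * ((d : ℝ) + 1) ^ 2 * Real.exp (-Δ) ≤ 16 * (d : ℝ) ^ 2 * Real.exp (-Δ) := by gcongr
      _ = 16 * (Real.exp (-Δ) * (d : ℝ) ^ 2) := by ring
      _ ≤ 16 * (η / 64) := by gcongr
      _ = η / 4 := by ring
  linarith

/-! ### boxes -/

theorem v4_sd_mono {Q R : BoxT n d} (h : Sub Q R) (i : Fin d) : sd Q i ≤ sd R i := by
  have h1 : (R.1 i : ℕ) ≤ Q.1 i := h.1 i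
  have h2 : (Q.2 i : ℕ) ≤ R.2 i := h.2 i
  unfold sd
  omega

theorem v4_phi_thick {Q R : BoxT n d} (h : Thick Q R) : phi R ≤ phi Q + 4 * d := by
  unfold phi
  have h1 : ∑ i : Fin d, ((R.2 i : ℕ) - R.1 i) ≤ ∑ i : Fin d, (((Q.2 i : ℕ) - Q.1 i) + 4) := by
    refine Finset.sum_le_sum fun i _ => ?_
    have := h i
    omega
  refine h1.trans ?_
  rw [Finset.sum_add_distrib]
  simp [mul_comm]

theorem v4_phi_mono {Q R : BoxT n d} (h : Sub Q R) : phi Q ≤ phi R := by
  unfold phi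
  refine Finset.sum_le_sum fun i _ => ?_
  have h1 : (R.1 i : ℕ) ≤ Q.1 i := h.1 i
  have h2 : (Q.2 i : ℕ) ≤ R.2 i := h.2 i
  omega

theorem v4_eq_or {Q R : BoxT n d} (hQ : Q.1 ≤ Q.2) (h : Sub Q R) :
    Q = R ∨ ∃ i, sd Q i < sd R i := by
  by_cases h0 : Q = R
  · exact Or.inl h0
  right
  by_contra hc
  push Not at hc
  apply h0
  have h3 : ∀ i, Q.1 i = R.1 i ∧ Q.2 i = R.2 i := by
    intro i
    have h1 : (R.1 i : ℕ) ≤ Q.1 i := h.1 i
    have h2 : (Q.2 i : ℕ) ≤ R.2 i := h.2 i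
    have h4 : (Q.1 i : ℕ) ≤ Q.2 i := hQ i
    have h5 := hc i
    unfold sd at h5
    constructor <;> apply Fin.ext <;> omega
  apply Prod.ext
  · funext i
    exact (h3 i).1
  · funext i
    exact (h3 i).2

theorem v4_cP (lam : ℕ → ℝ) (η : ℝ) (Q Q' : BoxT n d) : cP lam η Q Q' =
    (∑ m, ((sd Q' m : ℝ) - sd Q m) / sd Q' m) * lam (phi Q') +
      η * ∑ m, ((sd Q' m : ℝ) - sd Q m) := by
  unfold cP
  rw [Finset.sum_mul, Finset.mul_sum, ← Finset.sum_add_distrib]
  refine Finset.sum_congr rfl fun m _ => ?_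
  ring

/-- the final bound, common to both inequalities -/
theorem v4_final {k : ℕ} {L η R c₁ c₃ : ℝ} {lam y C : ℕ → ℝ} {F : ℕ → ℕ → ℝ} (hη0 : 0 < η)
    (hη1 : η ≤ 1 / 10) (hR : 1 ≤ R) (hc₁ : 0 ≤ c₁) (hc₃ : 0 ≤ c₃) (hd : 1 ≤ d)
    (h1d : 1 / (d : ℝ) ≤ η / (60 * R)) (hcd : c₁ / (d : ℝ) ≤ η / (60 * R))
    (hlogd : (3 * c₁ + 2) * Real.log d + Real.log (64 / η) ≤ Real.sqrt (η * d) / 2)
    (hk : (k : ℝ) ≤ η / (60 * R) * d ^ 2) (hL : sfun d k + Real.sqrt (η * d) ≤ L)
    (h : PF d k L η R c₁ c₃ lam y C F) (X : BoxT n d) (ht : phi X < k) (v : Fin d → ℝ) (κ lq : ℝ)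
    (hv1 : ∀ i, 1 ≤ v i) (hvX : ∀ i, v i ≤ sd X i) (hκ : 0 ≤ κ) (e : Fin d → ℝ)
    (he : ∀ i, 0 ≤ e i) (hlq : lam (phi X) ≤ (1 + η) * lq) (hlq0 : 0 ≤ lq) :
    ∑ P : Fin d × Fin d with P.1 < P.2,
        4 * ((∏ i, v i) / (v P.1 * v P.2)) * (κ + e P.1 + e P.2) *
          v4_G k L η lam C F (sd X) (sd X + Pi.single P.1 1 + Pi.single P.2 1) +
      ∑ i, 2 * ((∏ i, v i) / v i) * (κ + e i) * v4_G k L η lam C F (sd X) (sd X + Pi.single i 2) +
      ∑ i, 4 * ((d : ℝ) + 1) * (∏ i, v i) * v4_G k L η lam C F (sd X) (sd X + Pi.single i 1) +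
      4 * ((d : ℝ) + 1) ^ 2 * (∏ i, v i) * v4_G k L η lam C F (sd X) (sd X) ≤
    (κ * lq + η / 4 * ∑ i, e i + η / 2) * GP k C F X := by
  have hx := E_sum_sd X
  have hx1 : ∀ i, 1 ≤ sd X i := fun i => E_sd_pos X i
  have hF := h.F_ge
  have hx0 : ∀ i, (0 : ℝ) < sd X i := fun i => by exact_mod_cast hx1 i
  have hVpos : 0 < ∏ i, (sd X i : ℝ) := Finset.prod_pos fun i _ => hx0 i
  have hd0 : (0 : ℝ) < d := by exact_mod_cast hd
  have hR0 : 0 < R := by linarith
  have hV : Real.log (∏ i, (sd X i : ℝ)) =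
      sfun d (phi X) - ∑ i, gap d (phi X) (sd X i) := log_vol_eq hd X
  have hV2 : ∏ i, (sd X i : ℝ) ≤ Real.exp (sfun d (phi X)) := by
    rw [← Real.log_le_iff_le_exp hVpos, hV]
    have : 0 ≤ ∑ i, gap d (phi X) (sd X i) :=
      Finset.sum_nonneg fun i _ => gap_nonneg d (phi X) (sd X i) (hx1 i)
    linarith
  obtain ⟨P2, hP0, hP1, hP2, hP3⟩ := v4_main hη0 h hx hx1 ht hV
  obtain ⟨t, htt⟩ : ∃ t, t = phi X := ⟨_, rfl⟩
  obtain ⟨W, hW⟩ : ∃ W : Fin d → ℝ, W = fun i => y t * wP lam η F t (t + 2) (sd X i) := ⟨_, rfl⟩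
  obtain ⟨z, hz⟩ : ∃ z, z = ∑ i, W i := ⟨_, rfl⟩
  have hy : 0 < y t := (Real.exp_pos _).trans_le (h.y_ge t)
  have hW0 : ∀ i, 0 ≤ W i := by
    intro i
    rw [hW]
    exact mul_nonneg hy.le (v4_wnonneg hF _ _ _)
  have hz0 : 0 ≤ z := by rw [hz]; exact Finset.sum_nonneg fun i _ => hW0 i
  have hWR : ∀ i, W i ≤ R / d := by
    intro i
    rw [hW]
    exact h.w_le t (t + 2) (sd X i) (by rw [htt]; exact ht) (Or.inr rfl) (hx1 i)
  rw [← htt] at hx ht hV2 hP1 hP2 hP3 hlq
  have hG : GP k C F X = C t * ∏ i, F t (sd X i) := by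
    unfold GP
    rw [← htt, if_pos ht]
  rw [hG]
  obtain ⟨G, hGG⟩ : ∃ G, G = C t * ∏ i, F t (sd X i) := ⟨_, rfl⟩
  have hG0 : 0 ≤ G := by
    rw [hGG]
    have := h.C_pos t
    have : 0 ≤ ∏ i, F t (sd X i) := Finset.prod_nonneg fun i _ => zero_le_one.trans (hF _ _)
    positivity
  rw [← hGG] at hP1 ⊢
  have hP2' : ∀ i j, i ≠ j → 4 * ((∏ i, (sd X i : ℝ)) / ((sd X i : ℝ) * sd X j)) *
        v4_G k L η lam C F (sd X) (sd X + Pi.single i 1 + Pi.single j 1) ≤
        2 * P2 * (W i * W j) := by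
    intro i j hij
    rw [hW]
    exact hP2 i j hij
  have hP3' : ∀ i, 2 * ((∏ i, (sd X i : ℝ)) / (sd X i : ℝ)) *
      v4_G k L η lam C F (sd X) (sd X + Pi.single i 2) ≤ P2 * (W i * (R * lev d t / d)) := by
    intro i
    rw [hW]
    exact hP3 i
  have hP1' : P2 ≤ lam t * Real.exp (2 - 2 * η - 2 * z) * G := by
    rw [hz, hW]
    exact hP1
  have hv0 : ∀ i, 0 < v i := fun i => by linarith [hv1 i]
  have hGn := v4_G_nonneg k L η lam C F h.C_pos hF (sd X)
  have hlt := h.lam_ge t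
  -- levels
  have hlev : R * ((lev d t : ℝ) / d) ≤ η / 30 := by
    have a1 : (lev d t : ℝ) ≤ (t : ℝ) / d + 1 := by
      unfold lev
      push_cast
      have := Nat.cast_div_le (α := ℝ) (m := t) (n := d)
      linarith
    have a2 : (t : ℝ) ≤ η / (60 * R) * d ^ 2 := by
      have : (t : ℝ) ≤ k := by exact_mod_cast ht.le
      linarith
    have a3 : (t : ℝ) / d ≤ η / (60 * R) * d := by
      rw [div_le_iff₀ hd0]
      nlinarith
    have a4 : (lev d t : ℝ) / d ≤ η / (60 * R) + 1 / d := by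
      rw [div_le_iff₀ hd0, add_mul, one_div, inv_mul_cancel₀ hd0.ne']
      linarith
    have a5 : (lev d t : ℝ) / d ≤ η / (60 * R) + η / (60 * R) := by linarith
    calc R * ((lev d t : ℝ) / d) ≤ R * (η / (60 * R) + η / (60 * R)) := by gcongr
      _ = η / 30 := by field_simp; norm_num
  have hlamd : R * (lam t / d) ≤ η / 30 := by
    have a2 : (t : ℝ) ≤ η / (60 * R) * d ^ 2 := by
      have : (t : ℝ) ≤ k := by exact_mod_cast ht.le
      linarith
    have a3 : (t : ℝ) / d ≤ η / (60 * R) * d := by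
      rw [div_le_iff₀ hd0]
      nlinarith
    have a4 : lam t / d ≤ η / (60 * R) + c₁ / d := by
      rw [div_le_iff₀ hd0, add_mul, div_mul_cancel₀ _ hd0.ne']
      have := h.lam_le t
      linarith
    calc R * (lam t / d) ≤ R * (η / (60 * R) + η / (60 * R)) := by
          apply mul_le_mul_of_nonneg_left _ hR0.le
          linarith
      _ = η / 30 := by field_simp; norm_num
  -- pairs
  have s1 : ∑ P : Fin d × Fin d with P.1 < P.2,
        4 * ((∏ i, v i) / (v P.1 * v P.2)) * (κ + e P.1 + e P.2) *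
          v4_G k L η lam C F (sd X) (sd X + Pi.single P.1 1 + Pi.single P.2 1) ≤
      P2 * (κ * z ^ 2 + 2 * z * ((∑ i, e i) * (R / d))) := by
    calc _ ≤ ∑ P : Fin d × Fin d with P.1 < P.2,
          P2 * (2 * (W P.1 * W P.2) * (κ + e P.1 + e P.2)) := by
          refine Finset.sum_le_sum fun P hP => ?_
          have hne : P.1 ≠ P.2 := (Finset.mem_filter.1 hP).2.ne
          have b1 := v4_cross2 hv1 hvX hne
          have b2 := hP2' P.1 P.2 hne
          have b3 := hGn (sd X + Pi.single P.1 1 + Pi.single P.2 1)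
          have b4 : 0 ≤ κ + e P.1 + e P.2 := by
            have := he P.1
            have := he P.2
            linarith
          calc 4 * ((∏ i, v i) / (v P.1 * v P.2)) * (κ + e P.1 + e P.2) *
              v4_G k L η lam C F (sd X) (sd X + Pi.single P.1 1 + Pi.single P.2 1)
              ≤ 4 * ((∏ i, (sd X i : ℝ)) / ((sd X P.1 : ℝ) * sd X P.2)) *
                (κ + e P.1 + e P.2) *
                v4_G k L η lam C F (sd X) (sd X + Pi.single P.1 1 + Pi.single P.2 1) := by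
                gcongr
            _ = (4 * ((∏ i, (sd X i : ℝ)) / ((sd X P.1 : ℝ) * sd X P.2)) *
                v4_G k L η lam C F (sd X) (sd X + Pi.single P.1 1 + Pi.single P.2 1)) *
                (κ + e P.1 + e P.2) := by ring
            _ ≤ (2 * P2 * (W P.1 * W P.2)) * (κ + e P.1 + e P.2) :=
                mul_le_mul_of_nonneg_right b2 b4
            _ = _ := by ring
      _ = P2 * ∑ P : Fin d × Fin d with P.1 < P.2,
          2 * (W P.1 * W P.2) * (κ + e P.1 + e P.2) := by rw [Finset.mul_sum]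
      _ ≤ P2 * (κ * (∑ i, W i) ^ 2 + 2 * (∑ i, W i) * ∑ i, e i * W i) :=
          mul_le_mul_of_nonneg_left (v4_pairs W e κ hW0 he hκ) hP0
      _ ≤ _ := by
          rw [← hz]
          refine mul_le_mul_of_nonneg_left ?_ hP0
          have b5 : ∑ i, e i * W i ≤ (∑ i, e i) * (R / d) := by
            rw [Finset.sum_mul]
            exact Finset.sum_le_sum fun i _ => mul_le_mul_of_nonneg_left (hWR i) (he i)
          have b6 := mul_le_mul_of_nonneg_left b5 (show 0 ≤ 2 * z by linarith)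
          linarith
  -- straight
  have s2 : ∑ i, 2 * ((∏ i, v i) / v i) * (κ + e i) *
      v4_G k L η lam C F (sd X) (sd X + Pi.single i 2) ≤
      P2 * ((R * (lev d t / d)) * (κ * z + (∑ i, e i) * (R / d))) := by
    calc _ ≤ ∑ i, P2 * ((R * (lev d t / d)) * (κ * W i + e i * (R / d))) := by
          refine Finset.sum_le_sum fun i _ => ?_
          have b1 := v4_cross1 hv1 hvX i
          have b2 := hP3' i
          have b3 := hGn (sd X + Pi.single i 2)
          have b4 : 0 ≤ κ + e i := by have := he i; linarith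
          have b5 : 0 ≤ R * (lev d t / d) := by positivity
          calc 2 * ((∏ i, v i) / v i) * (κ + e i) *
              v4_G k L η lam C F (sd X) (sd X + Pi.single i 2)
              ≤ 2 * ((∏ i, (sd X i : ℝ)) / (sd X i : ℝ)) * (κ + e i) *
                v4_G k L η lam C F (sd X) (sd X + Pi.single i 2) := by gcongr
            _ = (2 * ((∏ i, (sd X i : ℝ)) / (sd X i : ℝ)) *
                v4_G k L η lam C F (sd X) (sd X + Pi.single i 2)) * (κ + e i) := by ring
            _ ≤ (P2 * (W i * (R * lev d t / d))) * (κ + e i) :=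
                mul_le_mul_of_nonneg_right b2 b4
            _ = P2 * ((R * (lev d t / d)) * (κ * W i + e i * W i)) := by ring
            _ ≤ _ := by
                refine mul_le_mul_of_nonneg_left ?_ hP0
                refine mul_le_mul_of_nonneg_left ?_ b5
                have := mul_le_mul_of_nonneg_left (hWR i) (he i)
                linarith
      _ = _ := by
          rw [← Finset.mul_sum, ← Finset.mul_sum, Finset.sum_add_distrib, ← Finset.mul_sum,
            ← Finset.sum_mul, ← hz]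
  -- one unit and zero units
  have hvV := v4_cross0 hv1 hvX
  have hv00 : 0 ≤ ∏ i, v i := Finset.prod_nonneg fun i _ => (hv0 i).le
  have s3 : ∑ i, 4 * ((d : ℝ) + 1) * (∏ i, v i) *
      v4_G k L η lam C F (sd X) (sd X + Pi.single i 1) ≤
      4 * ((d : ℝ) + 1) * d * (Real.exp (-(L - sfun d t) / 2) * Real.exp η *
        Real.exp (3 * c₁ * Real.log d) * (R * (lev d t / d))) * G := by
    calc _ ≤ ∑ _i : Fin d, 4 * ((d : ℝ) + 1) * (Real.exp (-(L - sfun d t) / 2) * Real.exp η *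
        Real.exp (3 * c₁ * Real.log d) * (R * (lev d t / d)) * G) := by
          refine Finset.sum_le_sum fun i _ => ?_
          have b1 := v4_one hη0 hd hR hc₃ h hx hx1 ht hV2 i
          have b3 := hGn (sd X + Pi.single i 1)
          rw [← hGG] at b1
          calc 4 * ((d : ℝ) + 1) * (∏ i, v i) *
              v4_G k L η lam C F (sd X) (sd X + Pi.single i 1)
              ≤ 4 * ((d : ℝ) + 1) * (∏ i, (sd X i : ℝ)) *
              v4_G k L η lam C F (sd X) (sd X + Pi.single i 1) := by gcongr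
            _ = 4 * ((d : ℝ) + 1) * ((∏ i, (sd X i : ℝ)) *
              v4_G k L η lam C F (sd X) (sd X + Pi.single i 1)) := by ring
            _ ≤ 4 * ((d : ℝ) + 1) * (Real.exp (-(L - sfun d t) / 2) * Real.exp η *
              Real.exp (3 * c₁ * Real.log d) * (R * lev d t / d) * G) := by gcongr
            _ = _ := by ring
      _ = _ := by
          rw [Finset.sum_const, Finset.card_univ, Fintype.card_fin, nsmul_eq_mul]
          ring
  have s4 : 4 * ((d : ℝ) + 1) ^ 2 * (∏ i, v i) * v4_G k L η lam C F (sd X) (sd X) ≤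
      4 * ((d : ℝ) + 1) ^ 2 * Real.exp (-(L - sfun d t)) * G := by
    have b1 := v4_zero h hx ht hV2
    rw [← hGG] at b1
    have b3 := hGn (sd X)
    calc 4 * ((d : ℝ) + 1) ^ 2 * (∏ i, v i) * v4_G k L η lam C F (sd X) (sd X)
        ≤ 4 * ((d : ℝ) + 1) ^ 2 * (∏ i, (sd X i : ℝ)) *
          v4_G k L η lam C F (sd X) (sd X) := by gcongr
      _ = 4 * ((d : ℝ) + 1) ^ 2 * ((∏ i, (sd X i : ℝ)) *
          v4_G k L η lam C F (sd X) (sd X)) := by ring
      _ ≤ 4 * ((d : ℝ) + 1) ^ 2 * (Real.exp (-(L - sfun d t)) * G) := by gcongr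
      _ = _ := by ring
  have hΔ : Real.sqrt (η * d) ≤ L - sfun d t := by
    have := sfun_mono d hd ht.le
    linarith
  have s5 := v4_tiny hη0 hη1 hd hc₁ (r := R * (lev d t / d)) (by positivity) (by linarith)
    hlogd hΔ
  have s6 := mul_le_mul_of_nonneg_right s5 hG0
  have hN0 : 0 ≤ ∑ i, e i := Finset.sum_nonneg fun i _ => he i
  have s7 := v4_num (z := z) (κ := κ) (N := ∑ i, e i) (r1 := (lev d t : ℝ) / d) (D := d) hη0 hη1
    hR hz0 hκ hN0 (by linarith : (0 : ℝ) ≤ lam t) hlq0 hlq (by positivity) hd0 hlev hlamd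
  have s8 : P2 * (κ * z ^ 2 + 2 * z * ((∑ i, e i) * (R / d)) +
      (R * (lev d t / d)) * (κ * z + (∑ i, e i) * (R / d))) ≤
      (κ * lq + η / 4 * ∑ i, e i) * G := by
    calc _ ≤ (lam t * Real.exp (2 - 2 * η - 2 * z) * G) *
          (κ * z ^ 2 + 2 * z * ((∑ i, e i) * (R / d)) +
          (R * (lev d t / d)) * (κ * z + (∑ i, e i) * (R / d))) :=
          mul_le_mul_of_nonneg_right hP1' (by positivity)
      _ = (lam t * Real.exp (2 - 2 * η - 2 * z) *
          (κ * z ^ 2 + 2 * z * ((∑ i, e i) * (R / d)) +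
          (R * (lev d t / d)) * (κ * z + (∑ i, e i) * (R / d)))) * G := by ring
      _ ≤ _ := mul_le_mul_of_nonneg_right s7 hG0
  linarith

/-- the births inequality for potentials of product form -/
theorem pf_N1 (η R c₁ c₃ : ℝ) (hη0 : 0 < η) (hη1 : η ≤ 1 / 10) (hR : 1 ≤ R) (hc₁ : 0 ≤ c₁)
    (hc₃ : 0 ≤ c₃) :
    ∃ c₂ : ℝ, 0 < c₂ ∧ ∃ D₀ : ℕ, ∀ n d k : ℕ, ∀ (L : ℝ) (lam y C : ℕ → ℝ) (F : ℕ → ℕ → ℝ),
      D₀ ≤ d → (k : ℝ) ≤ c₂ * d ^ 2 → sfun d k + Real.sqrt (η * d) ≤ L →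
      PF d k L η R c₁ c₃ lam y C F →
      ∀ Q Q' X : BoxT n d, Q.1 ≤ Q.2 → Sub Q Q' → Sub Q' X → Thick Q' X → phi X < k →
        ∑ b ∈ cov Q' \ cov Q, Real.exp (-L) * Real.exp (cP lam η X (ext X b)) *
          GP k C F (ext X b) ≤ cP lam η Q Q' * GP k C F X := by
  obtain ⟨D₀, hD⟩ := v4_const η R c₁ hη0 hR hc₁
  refine ⟨η / (60 * R), by positivity, D₀, ?_⟩
  intro n d k L lam y C F hd hk hL h Q Q' X hQ h1 h2 h3 ht
  obtain ⟨hd1, h1d, hcd, hlogd⟩ := hD d hd
  rcases v4_eq_or hQ h1 with h0 | ⟨i0, hi0⟩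
  · subst h0
    rw [Finset.sdiff_self]
    simp [cP]
  have hb := birth_sum_le hQ h1 h2 (v4_G k L η lam C F (sd X))
    (v4_G_nonneg k L η lam C F h.C_pos h.F_ge (sd X))
  have hlhs : ∑ b ∈ cov Q' \ cov Q, Real.exp (-L) * Real.exp (cP lam η X (ext X b)) *
      GP k C F (ext X b) = ∑ b ∈ cov Q' \ cov Q, v4_G k L η lam C F (sd X) (sd (ext X b)) :=
    Finset.sum_congr rfl fun b _ => v4_eq k L η lam C F X (ext X b)
  rw [hlhs]
  refine hb.trans ?_
  have hq1 : ∀ i, (1 : ℝ) ≤ sd Q' i := fun i => by exact_mod_cast E_sd_pos Q' i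
  have hq0 : ∀ i, (sd Q i : ℝ) ≤ sd Q' i := fun i => by exact_mod_cast v4_sd_mono h1 i
  have hqX : ∀ i, (sd Q' i : ℝ) ≤ sd X i := fun i => by exact_mod_cast v4_sd_mono h2 i
  have hκ : 0 ≤ ∑ m, ((sd Q' m : ℝ) - sd Q m) / sd Q' m :=
    Finset.sum_nonneg fun i _ => div_nonneg (by linarith [hq0 i]) (by linarith [hq1 i])
  have hlq : lam (phi X) ≤ (1 + η) * lam (phi Q') :=
    (h.lam_mono (by have := v4_phi_thick h3; omega)).trans (h.lam_lip (phi Q'))
  have hlq0 : 0 ≤ lam (phi Q') := zero_le_one.trans (h.lam_ge _)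
  have hfin := v4_final hη0 hη1 hR hc₁ hc₃ hd1 h1d hcd hlogd hk hL h X ht
    (fun i => (sd Q' i : ℝ)) (∑ m, ((sd Q' m : ℝ) - sd Q m) / sd Q' m) (lam (phi Q')) hq1 hqX hκ
    (fun i => if sd Q i < sd Q' i then 1 else 0) (fun i => by split_ifs <;> norm_num) hlq hlq0
  have hG0 : 0 ≤ GP k C F X := by
    unfold GP
    split_ifs
    · have := h.C_pos (phi X)
      have : 0 ≤ ∏ i, F (phi X) (sd X i) :=
        Finset.prod_nonneg fun i _ => zero_le_one.trans (h.F_ge _ _)
      positivity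
  refine le_trans (le_of_eq ?_) (hfin.trans ?_)
  · unfold n2 n1 vol
    rfl
  · rw [v4_cP]
    refine mul_le_mul_of_nonneg_right ?_ hG0
    have c1 : ∀ i, (if sd Q i < sd Q' i then (1 : ℝ) else 0) ≤ (sd Q' i : ℝ) - sd Q i := by
      intro i
      split_ifs with hi
      · have : ((sd Q i + 1 : ℕ) : ℝ) ≤ sd Q' i := by exact_mod_cast hi
        push_cast at this
        linarith
      · linarith [hq0 i]
    have c2 : ∑ i, (if sd Q i < sd Q' i then (1 : ℝ) else 0) ≤
        ∑ i, ((sd Q' i : ℝ) - sd Q i) := Finset.sum_le_sum fun i _ => c1 i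
    have c3 : (1 : ℝ) ≤ ∑ i, ((sd Q' i : ℝ) - sd Q i) := by
      refine le_trans ?_ (Finset.single_le_sum (f := fun i => (sd Q' i : ℝ) - sd Q i)
        (fun i _ => by linarith [hq0 i]) (Finset.mem_univ i0))
      have := c1 i0
      rwa [if_pos hi0] at this
    nlinarith

theorem pf_N0 (η R c₁ c₃ : ℝ) (hη0 : 0 < η) (hη1 : η ≤ 1 / 10) (hR : 1 ≤ R) (hc₁ : 0 ≤ c₁)
    (hc₃ : 0 ≤ c₃) :
    ∃ c₂ : ℝ, 0 < c₂ ∧ ∃ D₀ : ℕ, ∀ n d k : ℕ, ∀ (L : ℝ) (lam y C : ℕ → ℝ) (F : ℕ → ℕ → ℝ),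
      D₀ ≤ d → (k : ℝ) ≤ c₂ * d ^ 2 → sfun d k + Real.sqrt (η * d) ≤ L →
      PF d k L η R c₁ c₃ lam y C F →
      ∀ (z : Vtx n d) (X : BoxT n d), Sub (z, z) X → Thick (z, z) X → phi X < k →
        ∑ b ∈ cov (z, z), Real.exp (-L) * Real.exp (cP lam η X (ext X b)) *
          GP k C F (ext X b) ≤ (2 * lam 0 + 1) * GP k C F X := by
  obtain ⟨D₀, hD⟩ := v4_const η R c₁ hη0 hR hc₁
  refine ⟨η / (60 * R), by positivity, D₀, ?_⟩
  intro n d k L lam y C F hd hk hL h z X h2 h3 ht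
  obtain ⟨hd1, h1d, hcd, hlogd⟩ := hD d hd
  have hb := birth_sum_zero_le h2 (v4_G k L η lam C F (sd X))
    (v4_G_nonneg k L η lam C F h.C_pos h.F_ge (sd X))
  have hlhs : ∑ b ∈ cov (z, z), Real.exp (-L) * Real.exp (cP lam η X (ext X b)) *
      GP k C F (ext X b) = ∑ b ∈ cov (z, z), v4_G k L η lam C F (sd X) (sd (ext X b)) :=
    Finset.sum_congr rfl fun b _ => v4_eq k L η lam C F X (ext X b)
  rw [hlhs]
  refine hb.trans ?_
  have hphi : phi ((z, z) : BoxT n d) = 0 := by unfold phi; simp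
  have hlq : lam (phi X) ≤ (1 + η) * lam 0 := by
    have h4 := v4_phi_thick h3
    rw [hphi] at h4
    have h5 := h.lam_lip 0
    exact (h.lam_mono (by omega)).trans h5
  have hl0 := h.lam_ge 0
  have hX1 : ∀ i, (1 : ℝ) ≤ sd X i := fun i => by exact_mod_cast E_sd_pos X i
  have hfin := v4_final hη0 hη1 hR hc₁ hc₃ hd1 h1d hcd hlogd hk hL h X ht
    (fun _ => 1) 1 (lam 0) (fun _ => le_rfl) hX1 zero_le_one
    (fun _ => 0) (fun _ => le_rfl) hlq (by linarith)
  have hG0 : 0 ≤ GP k C F X := by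
    unfold GP
    split_ifs
    · have := h.C_pos (phi X)
      have : 0 ≤ ∏ i, F (phi X) (sd X i) :=
        Finset.prod_nonneg fun i _ => zero_le_one.trans (h.F_ge _ _)
      positivity
  refine le_trans (le_of_eq ?_) (hfin.trans ?_)
  · simp
  · refine mul_le_mul_of_nonneg_right ?_ hG0
    simp only [Finset.sum_const_zero]
    linarith

end Pool.Agent.Lib.MP_8501c9_pr.Wide
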