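import Pool.Agent.Lib.MP_8501c9_pr.Wide.Births
import Pool.Agent.Lib.MP_8501c9_pr.Wide.StepPF
import Pool.Agent.Lib.MP_8501c9_pr.Wide.MergePF
import Pool.Agent.Lib.MP_8501c9_pr.Mid.Func

/-!
# Assembly of the upper bound for potentials of product form (task V6)
-/

set_option autoImplicit false
open Set

namespace Pool.Agent.Lib.MP_8501c9_pr.Wide

open Pool.Agent.Lib.MP_8501c9_pr Pool.Agent.Lib.MP_8501c9_pr.Mid

variable {n d : ℕ}

theorem v6_cP_nonneg {lam : ℕ → ℝ} {η : ℝ} (hlam : ∀ t, 0 ≤ lam t) (hη : 0 ≤ η)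
    {Q Q' : BoxT n d} (hQ : Q.1 ≤ Q.2) (h : Sub Q Q') : 0 ≤ cP lam η Q Q' := by
  unfold cP
  refine Finset.sum_nonneg fun i _ => ?_
  have h1 := v3_sd_le hQ h i
  have h2 := v3_sd_pos Q' i
  have h3 : 0 ≤ lam (phi Q') / sd Q' i := div_nonneg (hlam _) (by linarith)
  exact mul_nonneg (by linarith) (by linarith)

theorem wide_le (η R c₁ : ℝ) (hη0 : 0 < η) (hη1 : η ≤ 1 / 10) (hR : 1 ≤ R) (hc₁ : 0 ≤ c₁) :
    ∃ c₃ : ℝ, 0 ≤ c₃ ∧ ∃ c₂ : ℝ, 0 < c₂ ∧ ∃ D₀ : ℕ, ∀ n d k : ℕ,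
      ∀ (L : ℝ) (lam y C : ℕ → ℝ) (F : ℕ → ℕ → ℝ),
      D₀ ≤ d → (d : ℝ) ≤ k → (k : ℝ) ≤ c₂ * d ^ 2 → k ≤ d * (n - 1) →
      sfun d k + Real.sqrt (η * d) ≤ L → PF d k L η R c₁ c₃ lam y C F →
      percProb n d 2 (Real.exp (-L)) ≤
        Real.exp (d * Real.log n - L + 2 * lam 0 + 2) * C 0 * F 0 1 ^ d := by
  classical
  obtain ⟨c₃, hc₃, c₂, hc₂, D₀, hN2⟩ := pf_N2 η R c₁ hη0 hη1 hR hc₁
  obtain ⟨c₂', hc₂', D₀', hN1⟩ := pf_N1 η R c₁ c₃ hη0 hη1 hR hc₁ hc₃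
  obtain ⟨c₂'', hc₂'', D₀'', hN0⟩ := pf_N0 η R c₁ c₃ hη0 hη1 hR hc₁ hc₃
  refine ⟨c₃, hc₃, min c₂ (min c₂' c₂''), lt_min hc₂ (lt_min hc₂' hc₂''),
    max (max D₀ 1) (max D₀' D₀''), fun n d k L lam y C F hd hdk hk hkn hL hPF => ?_⟩
  have hd1 : 1 ≤ d := (le_max_right D₀ 1).trans ((le_max_left _ _).trans hd)
  have hD0 : D₀ ≤ d := (le_max_left D₀ 1).trans ((le_max_left _ _).trans hd)
  have hD1 : D₀' ≤ d := (le_max_left D₀' D₀'').trans ((le_max_right _ _).trans hd)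
  have hD2 : D₀'' ≤ d := (le_max_right D₀' D₀'').trans ((le_max_right _ _).trans hd)
  have hdsq : (0 : ℝ) ≤ (d : ℝ) ^ 2 := by positivity
  have hk0 : (k : ℝ) ≤ c₂ * d ^ 2 := hk.trans (mul_le_mul_of_nonneg_right (min_le_left _ _) hdsq)
  have hk1 : (k : ℝ) ≤ c₂' * d ^ 2 := hk.trans (mul_le_mul_of_nonneg_right
    ((min_le_right _ _).trans (min_le_left _ _)) hdsq)
  have hk2 : (k : ℝ) ≤ c₂'' * d ^ 2 := hk.trans (mul_le_mul_of_nonneg_right
    ((min_le_right _ _).trans (min_le_right _ _)) hdsq)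
  have hdk' : d ≤ k := by exact_mod_cast hdk
  have hkpos : 1 ≤ k := hd1.trans hdk'
  have hn1 : 1 ≤ n := by
    by_contra hc
    have : n - 1 = 0 := by omega
    rw [this, Nat.mul_zero] at hkn
    omega
  have hn0 : (0 : ℝ) < n := by exact_mod_cast hn1
  have hS : 0 ≤ sfun d k := by
    have := sfun_mono d hd1 (Nat.zero_le k)
    rwa [sfun_zero] at this
  have hL0 : 0 ≤ L := by
    have := Real.sqrt_nonneg (η * d)
    linarith
  set p := Real.exp (-L) with hp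
  have hp0 : 0 ≤ p := (Real.exp_pos _).le
  have hp1 : p ≤ 1 := by
    rw [hp]
    exact Real.exp_le_one_iff.2 (by linarith)
  have hlam0 : ∀ t, 0 ≤ lam t := fun t => zero_le_one.trans (hPF.lam_ge t)
  have hG0 : ∀ Q : BoxT n d, 0 ≤ GP k C F Q := by
    intro Q
    unfold GP
    split_ifs
    · refine mul_nonneg (hPF.C_pos _).le (Finset.prod_nonneg fun i _ => ?_)
      exact zero_le_one.trans (hPF.F_ge _ _)
    · exact le_rfl
  have h1 := percProb_le_TT hd1 p hp0 hp1 k hkpos hkn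
  have h2 := wt_le_of_births hp0 k (TT p k) (GP k C F) (cP lam η) (2 * lam 0 + 1)
    (fun R => cTT_nonneg hp0 k R) hG0
    (fun R hR => by
      unfold GP
      rw [if_neg (not_lt.2 hR)])
    (fun Q => by
      unfold cP
      refine Finset.sum_eq_zero fun i _ => ?_
      rw [sub_self, zero_mul])
    (fun Q Q' hQ hQQ' => v6_cP_nonneg hlam0 hη0.le hQ hQQ')
    (fun Q Q' X hQ hs1 hs2 ht hX => hN1 n d k L lam y C F hD1 hk1 hL hPF Q Q' X hQ hs1 hs2 ht hX)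
    (fun z X hs ht hX => hN0 n d k L lam y C F hD2 hk2 hL hPF z X hs ht hX)
    (fun Q hQ hQk => hN2 n d k L lam y C F hD0 hdk hk0 hL hPF Q hQ hQk)
  have h3 : ∀ x : Vtx n d, GP k C F ((x, x) : BoxT n d) = C 0 * F 0 1 ^ d := by
    intro x
    have hphi : phi ((x, x) : BoxT n d) = 0 := by simp [phi]
    have hsd : ∀ m, sd ((x, x) : BoxT n d) m = 1 := by
      intro m
      simp [sd]
    unfold GP
    rw [hphi, if_pos (by omega)]
    simp [hsd]
  have h4 : ∑ x : Vtx n d, GP k C F ((x, x) : BoxT n d) = (n : ℝ) ^ d * (C 0 * F 0 1 ^ d) := by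
    rw [Finset.sum_congr rfl fun x _ => h3 x, Finset.sum_const, Finset.card_univ,
      Fintype.card_fun, Fintype.card_fin, Fintype.card_fin, nsmul_eq_mul]
    push_cast
    rfl
  have h5 : (n : ℝ) ^ d = Real.exp (d * Real.log n) := by
    rw [mul_comm, Real.exp_mul, Real.exp_log hn0, Real.rpow_natCast]
  have hCF : 0 ≤ C 0 * F 0 1 ^ d := by
    refine mul_nonneg (hPF.C_pos _).le (pow_nonneg (zero_le_one.trans (hPF.F_ge _ _)) _)
  have he : (2 : ℝ) ≤ Real.exp 1 := by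
    have := Real.add_one_le_exp (1 : ℝ)
    linarith
  calc percProb n d 2 p ≤ 2 * ∑ Q : BoxT n d with (Q.1 ≤ Q.2 ∧ phi Q < k),
        wt p Q * TT p k Q := h1
    _ ≤ 2 * (p * Real.exp (2 * lam 0 + 1) * ∑ x : Vtx n d, GP k C F (x, x)) := by linarith
    _ = 2 * (Real.exp (-L) * Real.exp (2 * lam 0 + 1) * Real.exp (d * Real.log n)) *
        (C 0 * F 0 1 ^ d) := by
        rw [h4, h5, hp]
        ring
    _ ≤ Real.exp 1 * (Real.exp (-L) * Real.exp (2 * lam 0 + 1) * Real.exp (d * Real.log n)) *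
        (C 0 * F 0 1 ^ d) := by
        refine mul_le_mul_of_nonneg_right ?_ hCF
        exact mul_le_mul_of_nonneg_right he (by positivity)
    _ = Real.exp (d * Real.log n - L + 2 * lam 0 + 2) * C 0 * F 0 1 ^ d := by
        rw [← Real.exp_add, ← Real.exp_add, ← Real.exp_add]
        have : 1 + (-L + (2 * lam 0 + 1) + d * Real.log n) =
            d * Real.log n - L + 2 * lam 0 + 2 := by ring
        rw [this]
        ring

end Pool.Agent.Lib.MP_8501c9_pr.Wide
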