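import Pool.Agent.Lib.MP_8501c9_pr.Wide.Defs
import Pool.Agent.Lib.MP_8501c9_pr.Mid.Func
import Pool.Agent.Lib.MP_8501c9_pr.Mid.Ext2

/-!
# Exploration of spanning sets (Wide, V1)
-/

set_option autoImplicit false
open Set

namespace Pool.Agent.Lib.MP_8501c9_pr.Wide

open Pool.Agent.Lib.MP_8501c9_pr Pool.Agent.Lib.MP_8501c9_pr.Mid

variable {n d : ℕ}

/-! ### boxes -/

theorem v1_mem_ins {Q : BoxT n d} {x : Vtx n d} : x ∈ ins Q ↔ Q.1 ≤ x ∧ x ≤ Q.2 := by
  simp only [ins, Finset.mem_filter, Finset.mem_univ, true_and, Finset.sum_eq_zero_iff,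
    forall_const, out]
  constructor
  · intro h
    refine ⟨fun i => ?_, fun i => ?_⟩
    · have := h i
      exact Fin.le_def.mpr (by omega)
    · have := h i
      exact Fin.le_def.mpr (by omega)
  · rintro ⟨h1, h2⟩ i
    have h3 := Fin.le_def.mp (h1 i)
    have h4 := Fin.le_def.mp (h2 i)
    omega

theorem v1_mem_cov {Q : BoxT n d} {x : Vtx n d} : x ∈ cov Q ↔ Near Q (x, x) := by
  simp only [cov, Finset.mem_filter, Finset.mem_univ, true_and, Near, out]
  have h : ∀ i : Fin d, ((Q.1 i : ℕ) - x i) + ((x i : ℕ) - Q.2 i)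
      = ((x i : ℕ) - Q.2 i) + ((Q.1 i : ℕ) - x i) := fun i => add_comm _ _
  simp only [h]

theorem v1_sub_refl (Q : BoxT n d) : Sub Q Q := ⟨le_rfl, le_rfl⟩

theorem v1_sub_trans {Q R S : BoxT n d} (h1 : Sub Q R) (h2 : Sub R S) : Sub Q S :=
  ⟨h2.1.trans h1.1, h1.2.trans h2.2⟩

theorem v1_sub_hull_left (Q P : BoxT n d) : Sub Q (hull Q P) := ⟨inf_le_left, le_sup_left⟩

theorem v1_sub_hull_right (Q P : BoxT n d) : Sub P (hull Q P) := ⟨inf_le_right, le_sup_right⟩

theorem v1_hull_sub {Q P R : BoxT n d} (h1 : Sub Q R) (h2 : Sub P R) : Sub (hull Q P) R :=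
  ⟨le_inf h1.1 h2.1, sup_le h1.2 h2.2⟩

theorem v1_near_of_sub {R₁ Q' R₂ : BoxT n d} (h : Sub R₁ Q') (hn : Near R₁ R₂) :
    Near Q' R₂ := by
  unfold Near at *
  refine le_trans (Finset.sum_le_sum fun i _ => ?_) hn
  have h1 := Fin.le_def.mp (h.1 i)
  have h2 := Fin.le_def.mp (h.2 i)
  omega

theorem v1_cov_mono {Q Q' : BoxT n d} (h : Sub Q Q') : cov Q ⊆ cov Q' := fun _ hx =>
  v1_mem_cov.mpr (v1_near_of_sub h (v1_mem_cov.mp hx))

theorem v1_ins_mono {Q Q' : BoxT n d} (h : Sub Q Q') : ins Q ⊆ ins Q' := fun x hx => by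
  have := v1_mem_ins.mp hx
  exact v1_mem_ins.mpr ⟨h.1.trans this.1, this.2.trans h.2⟩

theorem v1_ins_sub_cov (Q : BoxT n d) : ins Q ⊆ cov Q := by
  intro x hx
  simp only [ins, cov, Finset.mem_filter, Finset.mem_univ, true_and] at *
  omega

theorem v1_phi_mono {Q Q' : BoxT n d} (h : Sub Q Q') : phi Q ≤ phi Q' := by
  unfold phi
  refine Finset.sum_le_sum fun i _ => ?_
  have h1 := Fin.le_def.mp (h.1 i)
  have h2 := Fin.le_def.mp (h.2 i)
  omega

theorem v1_phi_lt {Q Q' : BoxT n d} (hQ : Q.1 ≤ Q.2) (h : Sub Q Q') (hne : ¬ Sub Q' Q) :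
    phi Q < phi Q' := by
  have hex : ∃ i, (Q'.1 i : ℕ) < Q.1 i ∨ (Q.2 i : ℕ) < Q'.2 i := by
    by_contra hcon
    push Not at hcon
    exact hne ⟨fun i => Fin.le_def.mpr (hcon i).1, fun i => Fin.le_def.mpr (hcon i).2⟩
  obtain ⟨i, hi⟩ := hex
  unfold phi
  refine Finset.sum_lt_sum (fun j _ => ?_) ⟨i, Finset.mem_univ i, ?_⟩
  · have h1 := Fin.le_def.mp (h.1 j)
    have h2 := Fin.le_def.mp (h.2 j)
    omega
  · have h1 := Fin.le_def.mp (h.1 i)
    have h2 := Fin.le_def.mp (h.2 i)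
    have h3 := Fin.le_def.mp (hQ i)
    omega

theorem v1_sub_antisymm {Q R : BoxT n d} (h1 : Sub Q R) (h2 : Sub R Q) : Q = R :=
  Prod.ext (le_antisymm h2.1 h1.1) (le_antisymm h1.2 h2.2)

theorem v1_span_least {W : Finset (Vtx n d)} {P R : BoxT n d} (h : Span W P)
    (hW : ∀ v ∈ W, R.1 ≤ v ∧ v ≤ R.2) : Sub P R := by
  induction h with
  | single x => exact ⟨(hW x (Finset.mem_singleton_self x)).1, (hW x (Finset.mem_singleton_self x)).2⟩
  | @merge W₁ W₂ R₁ R₂ h₁ h₂ hd hn hne₁ hne₂ ih₁ ih₂ =>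
    exact v1_hull_sub (ih₁ fun v hv => hW v (Finset.mem_union_left _ hv))
      (ih₂ fun v hv => hW v (Finset.mem_union_right _ hv))

/-! ### descent -/

theorem v1_near_of_mem {Q' R : BoxT n d} {w : Vtx n d} (h1 : w ∈ ins Q')
    (h2 : R.1 ≤ w ∧ w ≤ R.2) : Near Q' R := by
  unfold Near
  rw [Finset.sum_eq_zero]
  · omega
  · intro i _
    have h3 := v1_mem_ins.mp h1
    have h4 := Fin.le_def.mp (h3.1 i)
    have h5 := Fin.le_def.mp (h3.2 i)
    have h6 := Fin.le_def.mp (h2.1 i)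
    have h7 := Fin.le_def.mp (h2.2 i)
    omega

/-- what is found outside a box -/
def Fnd (V : Finset (Vtx n d)) (Q' : BoxT n d) (m : ℕ) : Prop :=
  ∃ (V' : Finset (Vtx n d)) (P' : BoxT n d), V' ⊆ V ∧ (∀ v ∈ V', v ∉ ins Q') ∧ Span V' P' ∧
    Near Q' P' ∧ ¬ Sub P' Q' ∧ phi P' ≤ m

theorem Fnd.mono {V W : Finset (Vtx n d)} {Q' : BoxT n d} {m m' : ℕ} (h : Fnd V Q' m)
    (hV : V ⊆ W) (hm : m ≤ m') : Fnd W Q' m' := by
  obtain ⟨V', P', h1, h2, h3, h4, h5, h6⟩ := h
  exact ⟨V', P', h1.trans hV, h2, h3, h4, h5, h6.trans hm⟩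

theorem v1_descent {W : Finset (Vtx n d)} {P Q' : BoxT n d} (h : Span W P)
    (hn : Near Q' P) (hP : ¬ Sub P Q') : Fnd W Q' (phi P) := by
  induction h with
  | single x =>
    refine ⟨{x}, (x, x), Finset.Subset.refl _, ?_, Span.single x, hn, hP, le_rfl⟩
    intro v hv hvi
    rw [Finset.mem_singleton] at hv
    subst hv
    exact hP (v1_mem_ins.mp hvi)
  | @merge W₁ W₂ R₁ R₂ h₁ h₂ hd hn' hne₁ hne₂ ih₁ ih₂ =>
    by_cases hout : ∀ v ∈ W₁ ∪ W₂, v ∉ ins Q'
    · exact ⟨W₁ ∪ W₂, hull R₁ R₂, Finset.Subset.refl _, hout,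
        Span.merge h₁ h₂ hd hn' hne₁ hne₂, hn, hP, le_rfl⟩
    · push Not at hout
      obtain ⟨w, hw, hwi⟩ := hout
      have key : ∀ (A B : Finset (Vtx n d)) (S T : BoxT n d), Span A S → Near S T → w ∈ A →
          A ⊆ W₁ ∪ W₂ → B ⊆ W₁ ∪ W₂ → Sub S (hull R₁ R₂) → Sub T (hull R₁ R₂) →
          (¬ (Sub S Q' ∧ Sub T Q')) →
          (Near Q' S → ¬ Sub S Q' → Fnd A Q' (phi S)) →
          (Near Q' T → ¬ Sub T Q' → Fnd B Q' (phi T)) → Fnd (W₁ ∪ W₂) Q' (phi (hull R₁ R₂)) := by
        intro A B S T hA hST hwA hAW hBW hS hT hnot ihA ihB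
        have hnS : Near Q' S := v1_near_of_mem hwi (hA.subset w hwA)
        by_cases hSQ : Sub S Q'
        · have hTQ : ¬ Sub T Q' := fun e => hnot ⟨hSQ, e⟩
          exact (ihB (v1_near_of_sub hSQ hST) hTQ).mono hBW (v1_phi_mono hT)
        · exact (ihA hnS hSQ).mono hAW (v1_phi_mono hS)
      rcases Finset.mem_union.mp hw with hw | hw
      · exact key W₁ W₂ R₁ R₂ h₁ hn' hw Finset.subset_union_left Finset.subset_union_right
          (v1_sub_hull_left _ _) (v1_sub_hull_right _ _) (fun e => hP (v1_hull_sub e.1 e.2)) ih₁ ih₂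
      · exact key W₂ W₁ R₂ R₁ h₂ (near_comm' hn') hw Finset.subset_union_right
          Finset.subset_union_left (v1_sub_hull_right _ _) (v1_sub_hull_left _ _)
          (fun e => hP (v1_hull_sub e.2 e.1)) ih₂ ih₁

/-- the state of the exploration: `Q` is the current box, `V` the points not used yet, `R` the
final box -/
structure Good (Q : BoxT n d) (V : Finset (Vtx n d)) (R : BoxT n d) : Prop where
  pts : ∀ v ∈ V, R.1 ≤ v ∧ v ≤ R.2
  sub : Sub Q R
  ex : ∀ Q' : BoxT n d, Q'.1 ≤ Q'.2 → Sub Q Q' → ¬ Sub R Q' → Fnd V Q' (phi Q')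

theorem Good.move {Q Q₁ R : BoxT n d} {V W : Finset (Vtx n d)} (h : Good Q V R)
    (h1 : Sub Q Q₁) (h2 : Sub Q₁ R) (hW : W ⊆ V) (hVW : ∀ v ∈ V, v ∉ ins Q₁ → v ∈ W) :
    Good Q₁ W R := by
  refine ⟨fun v hv => h.pts v (hW hv), h2, fun Q' hQ' hs hn => ?_⟩
  obtain ⟨V', P', a1, a2, a3, a4, a5, a6⟩ := h.ex Q' hQ' (v1_sub_trans h1 hs) hn
  exact ⟨V', P', fun v hv => hVW v (a1 hv) fun e => a2 v hv (v1_ins_mono hs e), a2, a3, a4, a5,
    a6⟩

theorem v1_good {W : Finset (Vtx n d)} {R : BoxT n d} (h : Span W R) :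
    ∃ z ∈ W, Good (z, z) (W.erase z) R := by
  induction h with
  | single x =>
    refine ⟨x, Finset.mem_singleton_self x, ?_, v1_sub_refl _, ?_⟩
    · intro v hv
      simp at hv
    · intro Q' _ h1 h2
      exact absurd h1 h2
  | @merge W₁ W₂ R₁ R₂ h₁ h₂ hd hn' hne₁ hne₂ ih₁ ih₂ =>
    have key : ∀ (A B : Finset (Vtx n d)) (S T : BoxT n d), Span A S → Span B T → Near S T →
        hull S T = hull R₁ R₂ → A ∪ B = W₁ ∪ W₂ → phi T ≤ phi S →
        (∃ z ∈ A, Good (z, z) (A.erase z) S) →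
        ∃ z ∈ W₁ ∪ W₂, Good (z, z) ((W₁ ∪ W₂).erase z) (hull R₁ R₂) := by
      intro A B S T hA hB hST hh hAB hle ⟨z, hz, hg⟩
      rw [← hh, ← hAB]
      refine ⟨z, Finset.mem_union_left _ hz, ?_, v1_sub_trans hg.sub (v1_sub_hull_left _ _), ?_⟩
      · intro v hv
        have hv' := Finset.mem_of_mem_erase hv
        rcases Finset.mem_union.mp hv' with hv' | hv'
        · have := hA.subset v hv'
          exact ⟨inf_le_left.trans this.1, this.2.trans le_sup_left⟩
        · have := hB.subset v hv'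
          exact ⟨inf_le_right.trans this.1, this.2.trans le_sup_right⟩
      · intro Q' hQ' hs hn
        by_cases hSQ : Sub S Q'
        · have hTQ : ¬ Sub T Q' := fun e => hn (v1_hull_sub hSQ e)
          obtain ⟨V', P', a1, a2, a3, a4, a5, a6⟩ :=
            v1_descent hB (v1_near_of_sub hSQ hST) hTQ
          refine ⟨V', P', ?_, a2, a3, a4, a5, a6.trans (hle.trans (v1_phi_mono hSQ))⟩
          intro v hv
          rw [Finset.mem_erase]
          refine ⟨?_, Finset.mem_union_right _ (a1 hv)⟩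
          rintro rfl
          exact a2 _ hv (v1_mem_ins.mpr hs)
        · refine (hg.ex Q' hQ' hs hSQ).mono ?_ le_rfl
          exact Finset.erase_subset_erase _ Finset.subset_union_left
    rcases le_total (phi R₂) (phi R₁) with hle | hle
    · exact key W₁ W₂ R₁ R₂ h₁ h₂ hn' rfl rfl hle ih₁
    · exact key W₂ W₁ R₂ R₁ h₂ h₁ (near_comm' hn') (hull_comm' _ _) (Finset.union_comm _ _) hle ih₂

/-! ### the value of a state -/

open Classical in
/-- contribution of the final box `R` to the value of the state `(Q, A)` -/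
noncomputable def VR (p : ℝ) (Q : BoxT n d) (A : Finset (Vtx n d)) (R : BoxT n d) : ℝ :=
  ∑ V : Finset (Vtx n d) with (Disjoint V (cov Q) ∧ Good Q (A ∪ V) R), p ^ V.card

open Classical in
/-- the value of the state `(Q, A)` -/
noncomputable def VV (p : ℝ) (k : ℕ) (g : BoxT n d → ℝ) (Q : BoxT n d)
    (A : Finset (Vtx n d)) : ℝ :=
  ∑ R : BoxT n d with (R.1 ≤ R.2 ∧ phi R < k), VR p Q A R * g R

theorem VR_nonneg {p : ℝ} (hp : 0 ≤ p) (Q : BoxT n d) (A : Finset (Vtx n d)) (R : BoxT n d) :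
    0 ≤ VR p Q A R := by
  unfold VR
  exact Finset.sum_nonneg fun V _ => by positivity

theorem VR_visible {p : ℝ} (hp : 0 ≤ p) {Q : BoxT n d} {A : Finset (Vtx n d)} {a : Vtx n d}
    (ha : a ∈ A) (R : BoxT n d) :
    VR p Q A R ≤ ∑ B ∈ (cov (ext Q a) \ cov Q).powerset,
      p ^ B.card * VR p (ext Q a) ((A ∪ B) \ ins (ext Q a)) R := by
  classical
  set Q₁ := ext Q a with hQ₁
  have hsub : Sub Q Q₁ := v1_sub_hull_left _ _
  set T : Finset ((_ : Finset (Vtx n d)) × Finset (Vtx n d)) :=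
    ((cov Q₁ \ cov Q).powerset).sigma (fun B => Finset.univ.filter (fun V =>
      Disjoint V (cov Q₁) ∧ Good Q₁ (((A ∪ B) \ ins Q₁) ∪ V) R)) with hT
  have h1 : ∑ B ∈ (cov Q₁ \ cov Q).powerset, p ^ B.card * VR p Q₁ ((A ∪ B) \ ins Q₁) R
      = ∑ t ∈ T, p ^ t.1.card * p ^ t.2.card := by
    rw [hT, Finset.sum_sigma]
    refine Finset.sum_congr rfl fun B _ => ?_
    unfold VR
    rw [Finset.mul_sum]
  rw [h1]
  unfold VR
  apply sum_le_of_inj _ T _ (fun t => p ^ t.1.card * p ^ t.2.card)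
    (fun V => ⟨V ∩ cov Q₁, V \ cov Q₁⟩)
  · intro V hV
    simp only [Finset.mem_filter, Finset.mem_univ, true_and] at hV
    obtain ⟨hd, hg⟩ := hV
    rw [hT, Finset.mem_sigma, Finset.mem_powerset, Finset.mem_filter]
    have hQR : Sub Q₁ R := by
      have hpa := hg.pts a (Finset.mem_union_left _ ha)
      exact v1_hull_sub hg.sub hpa
    refine ⟨?_, Finset.mem_univ _, Finset.sdiff_disjoint, ?_⟩
    · intro v hv
      rw [Finset.mem_inter] at hv
      rw [Finset.mem_sdiff]
      exact ⟨hv.2, fun e => (Finset.disjoint_left.mp hd hv.1) e⟩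
    · apply hg.move hsub hQR
      · intro v hv
        simp only [Finset.mem_union, Finset.mem_sdiff, Finset.mem_inter] at hv ⊢
        tauto
      · intro v hv hvi
        simp only [Finset.mem_union, Finset.mem_sdiff, Finset.mem_inter] at hv ⊢
        tauto
  · intro V _ V' _ he
    simp only [Sigma.mk.injEq, heq_eq_eq] at he
    rw [← Finset.sdiff_union_inter V (cov Q₁), ← Finset.sdiff_union_inter V' (cov Q₁), he.1, he.2]
  · intro V _
    rw [← pow_add, Finset.card_inter_add_card_sdiff]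
  · intro t _
    positivity

theorem VR_self {p : ℝ} {Q : BoxT n d} : VR p Q ∅ Q ≤ 1 := by
  classical
  unfold VR
  have h1 : (Finset.univ.filter (fun V : Finset (Vtx n d) =>
      Disjoint V (cov Q) ∧ Good Q (∅ ∪ V) Q)) ⊆ {∅} := by
    intro V hV
    simp only [Finset.mem_filter, Finset.mem_univ, true_and] at hV
    rw [Finset.mem_singleton, Finset.eq_empty_iff_forall_notMem]
    intro v hv
    have h2 := hV.2.pts v (Finset.mem_union_right _ hv)
    exact Finset.disjoint_left.mp hV.1 hv (v1_ins_sub_cov Q (v1_mem_ins.mpr h2))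
  have h3 : ∑ V : Finset (Vtx n d) with (Disjoint V (cov Q) ∧ Good Q (∅ ∪ V) Q), p ^ V.card
      = ∑ V : Finset (Vtx n d) with (Disjoint V (cov Q) ∧ Good Q (∅ ∪ V) Q), (1:ℝ) := by
    refine Finset.sum_congr rfl fun V hV => ?_
    have := Finset.mem_singleton.mp (h1 hV)
    rw [this]
    simp
  rw [h3, Finset.sum_const, nsmul_eq_mul, mul_one]
  have h4 := Finset.card_le_card h1
  rw [Finset.card_singleton] at h4
  exact_mod_cast h4

open Classical in
theorem VR_merge {p : ℝ} (hp : 0 ≤ p) {Q R : BoxT n d} (hQ : Q.1 ≤ Q.2) (hR : R ≠ Q) :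
    VR p Q ∅ R ≤ ∑ P : BoxT n d with FarBox Q P, wt p P *
      ∑ B ∈ (cov (hull Q P) \ cov Q).powerset,
        p ^ B.card * VR p (hull Q P) (B \ ins (hull Q P)) R := by
  set T : Finset ((_ : BoxT n d) × ((_ : Finset (Vtx n d)) × ((_ : Finset (Vtx n d)) ×
      Finset (Vtx n d)))) :=
    (Finset.univ.filter (fun P : BoxT n d => FarBox Q P)).sigma (fun P =>
      (Finset.univ.filter (fun W : Finset (Vtx n d) => Span W P)).sigma (fun _ =>
        ((cov (hull Q P) \ cov Q).powerset).sigma (fun B =>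
          Finset.univ.filter (fun V => Disjoint V (cov (hull Q P)) ∧
            Good (hull Q P) ((B \ ins (hull Q P)) ∪ V) R)))) with hT
  have h1 : ∑ P : BoxT n d with FarBox Q P, wt p P *
      ∑ B ∈ (cov (hull Q P) \ cov Q).powerset,
        p ^ B.card * VR p (hull Q P) (B \ ins (hull Q P)) R
      = ∑ t ∈ T, p ^ t.2.1.card * (p ^ t.2.2.1.card * p ^ t.2.2.2.card) := by
    rw [hT, Finset.sum_sigma]
    refine Finset.sum_congr rfl fun P _ => ?_
    rw [Finset.sum_sigma]
    unfold wt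
    rw [Finset.sum_mul]
    refine Finset.sum_congr rfl fun W _ => ?_
    rw [Finset.sum_sigma, Finset.mul_sum]
    refine Finset.sum_congr rfl fun B _ => ?_
    unfold VR
    rw [Finset.mul_sum, Finset.mul_sum]
  rw [h1]
  have hex : ∀ V : Finset (Vtx n d), (Disjoint V (cov Q) ∧ Good Q (∅ ∪ V) R) →
      ∃ u : (_ : BoxT n d) × Finset (Vtx n d), FarBox Q u.1 ∧ Span u.2 u.1 ∧ u.2 ⊆ V ∧
        Good (hull Q u.1) (((V \ u.2) ∩ cov (hull Q u.1)) \ ins (hull Q u.1) ∪
          ((V \ u.2) \ cov (hull Q u.1))) R := by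
    rintro V ⟨hd, hg⟩
    rw [Finset.empty_union] at hg
    have hnsub : ¬ Sub R Q := fun e => hR (v1_sub_antisymm e hg.sub)
    obtain ⟨V', P', a1, a2, a3, a4, a5, a6⟩ := hg.ex Q hQ (v1_sub_refl Q) hnsub
    have hPR : Sub P' R := v1_span_least a3 fun v hv => hg.pts v (a1 hv)
    have hQR : Sub (hull Q P') R := v1_hull_sub hg.sub hPR
    refine ⟨⟨P', V'⟩, ⟨a3.le, a4, ?_, a6, ?_⟩, a3, a1, ?_⟩
    · by_contra hcon
      have hcon' : ¬ 1 ≤ phi P' := hcon
      have h0 : phi P' = 0 := by omega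
      have h00 := eq_of_phi_zero a3.le h0
      obtain ⟨x, y⟩ := P'
      simp only at h00
      subst h00
      have hV' : V' = {x} := span_point a3
      subst hV'
      exact Finset.disjoint_left.mp hd (a1 (Finset.mem_singleton_self x)) (v1_mem_cov.mpr a4)
    · intro e
      apply a5
      have := v1_sub_hull_right Q P'
      rw [e] at this
      exact this
    · apply hg.move (v1_sub_hull_left _ _) hQR
      · intro v hv
        simp only [Finset.mem_union, Finset.mem_sdiff, Finset.mem_inter] at hv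
        tauto
      · intro v hv hvi
        have hvV' : v ∉ V' := by
          intro e
          apply hvi
          have h5 := a3.subset v e
          have h6 := v1_sub_hull_right Q P'
          exact v1_mem_ins.mpr ⟨h6.1.trans h5.1, h5.2.trans h6.2⟩
        simp only [Finset.mem_union, Finset.mem_sdiff, Finset.mem_inter]
        tauto
  have hinh : Nonempty ((_ : BoxT n d) × Finset (Vtx n d)) := ⟨⟨Q, ∅⟩⟩
  choose! φ hφ using hex
  unfold VR
  apply sum_le_of_inj _ T _ (fun t => p ^ t.2.1.card * (p ^ t.2.2.1.card * p ^ t.2.2.2.card))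
    (fun V => ⟨(φ V).1, ⟨(φ V).2, ⟨(V \ (φ V).2) ∩ cov (hull Q (φ V).1),
      (V \ (φ V).2) \ cov (hull Q (φ V).1)⟩⟩⟩)
  · intro V hV
    have hV' := (Finset.mem_filter.mp hV).2
    obtain ⟨b1, b2, b3, b4⟩ := hφ V hV'
    rw [hT]
    simp only [Finset.mem_sigma, Finset.mem_filter, Finset.mem_univ, true_and,
      Finset.mem_powerset]
    refine ⟨b1, b2, ?_, Finset.sdiff_disjoint, b4⟩
    intro v hv
    rw [Finset.mem_inter, Finset.mem_sdiff] at hv
    rw [Finset.mem_sdiff]
    exact ⟨hv.2, fun e => (Finset.disjoint_left.mp hV'.1 hv.1.1) e⟩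
  · intro V hV W hW he
    have hV' := (Finset.mem_filter.mp (Finset.mem_coe.mp hV)).2
    have hW' := (Finset.mem_filter.mp (Finset.mem_coe.mp hW)).2
    obtain ⟨b1, b2, b3, b4⟩ := hφ V hV'
    obtain ⟨c1, c2, c3, c4⟩ := hφ W hW'
    simp only [Sigma.mk.injEq, heq_eq_eq] at he
    obtain ⟨e1, e2, e3, e4⟩ := he
    rw [← Finset.sdiff_union_of_subset b3, ← Finset.sdiff_union_of_subset c3, e2,
      ← Finset.sdiff_union_inter (V \ (φ W).2) (cov (hull Q (φ W).1)),
      ← Finset.sdiff_union_inter (W \ (φ W).2) (cov (hull Q (φ W).1))]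
    rw [e1, e2] at e3 e4
    rw [e3, e4]
  · intro V hV
    have hV' := (Finset.mem_filter.mp hV).2
    obtain ⟨b1, b2, b3, b4⟩ := hφ V hV'
    rw [← pow_add, ← pow_add, Finset.card_inter_add_card_sdiff, add_comm,
      Finset.card_sdiff_add_card_eq_card b3]
  · intro t _
    positivity

open Classical in
theorem wt_le_VR {p : ℝ} (hp : 0 ≤ p) (R : BoxT n d) :
    wt p R ≤ p * ∑ x : Vtx n d, ∑ B ∈ (cov (x, x) \ {x}).powerset, p ^ B.card *
      VR p (x, x) B R := by
  set T : Finset ((_ : Vtx n d) × ((_ : Finset (Vtx n d)) × Finset (Vtx n d))) :=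
    (Finset.univ : Finset (Vtx n d)).sigma (fun x =>
      ((cov (x, x) \ {x}).powerset).sigma (fun B =>
        Finset.univ.filter (fun V => Disjoint V (cov (x, x)) ∧ Good (x, x) (B ∪ V) R))) with hT
  have h1 : p * ∑ x : Vtx n d, ∑ B ∈ (cov (x, x) \ {x}).powerset, p ^ B.card *
      VR p (x, x) B R = ∑ t ∈ T, p * (p ^ t.2.1.card * p ^ t.2.2.card) := by
    rw [hT, Finset.sum_sigma, Finset.mul_sum]
    refine Finset.sum_congr rfl fun x _ => ?_
    rw [Finset.sum_sigma, Finset.mul_sum]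
    refine Finset.sum_congr rfl fun B _ => ?_
    unfold VR
    rw [Finset.mul_sum, Finset.mul_sum]
  rw [h1]
  rcases (Finset.univ : Finset (Vtx n d)).eq_empty_or_nonempty with hemp | ⟨x₀, _⟩
  · have hz : wt p R = 0 := by
      unfold wt
      rw [Finset.sum_eq_zero]
      intro W hW
      obtain ⟨z, _, _⟩ := v1_good (Finset.mem_filter.mp hW).2
      exact absurd (Finset.mem_univ z) (by rw [hemp]; exact Finset.notMem_empty z)
    rw [hz]
    exact Finset.sum_nonneg fun t _ => by positivity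
  have hex : ∀ W : Finset (Vtx n d), Span W R → ∃ z : Vtx n d, z ∈ W ∧
      Good (z, z) (W.erase z) R := fun W hW => v1_good hW
  have hinh : Nonempty (Vtx n d) := ⟨x₀⟩
  choose! φ hφ using hex
  unfold wt
  apply sum_le_of_inj _ T _ (fun t => p * (p ^ t.2.1.card * p ^ t.2.2.card))
    (fun W => ⟨φ W, ⟨(W.erase (φ W)) ∩ cov (φ W, φ W), (W.erase (φ W)) \ cov (φ W, φ W)⟩⟩)
  · intro W hW
    obtain ⟨b1, b2⟩ := hφ W (Finset.mem_filter.mp hW).2
    rw [hT]
    simp only [Finset.mem_sigma, Finset.mem_filter, Finset.mem_univ, true_and,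
      Finset.mem_powerset]
    refine ⟨?_, Finset.sdiff_disjoint, ?_⟩
    · intro v hv
      rw [Finset.mem_inter, Finset.mem_erase] at hv
      rw [Finset.mem_sdiff, Finset.mem_singleton]
      exact ⟨hv.2, hv.1.1⟩
    · rw [Finset.union_comm, Finset.sdiff_union_inter]
      exact b2
  · intro V hV W hW he
    obtain ⟨b1, b2⟩ := hφ V (Finset.mem_filter.mp (Finset.mem_coe.mp hV)).2
    obtain ⟨c1, c2⟩ := hφ W (Finset.mem_filter.mp (Finset.mem_coe.mp hW)).2
    simp only [Sigma.mk.injEq, heq_eq_eq] at he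
    obtain ⟨e1, e2, e3⟩ := he
    rw [← Finset.insert_erase b1, ← Finset.insert_erase c1,
      ← Finset.sdiff_union_inter (V.erase (φ V)) (cov (φ V, φ V)),
      ← Finset.sdiff_union_inter (W.erase (φ W)) (cov (φ W, φ W)), e2, e3, e1]
  · intro W hW
    obtain ⟨b1, b2⟩ := hφ W (Finset.mem_filter.mp hW).2
    rw [← pow_add, Finset.card_inter_add_card_sdiff, ← pow_succ', Finset.card_erase_add_one b1]
  · intro t _
    positivity

open Classical in
theorem VV_le {p : ℝ} (hp : 0 ≤ p) (k : ℕ) (g : BoxT n d → ℝ) (hg : ∀ R, 0 ≤ g R)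
    (U : BoxT n d → Finset (Vtx n d) → ℝ) (hU : ∀ Q A, 0 ≤ U Q A)
    (h1 : ∀ (Q : BoxT n d) (A : Finset (Vtx n d)), Q.1 ≤ Q.2 → phi Q < k → A ⊆ cov Q \ ins Q →
      A.Nonempty → ∃ a ∈ A, ∑ B ∈ (cov (ext Q a) \ cov Q).powerset,
        p ^ B.card * U (ext Q a) ((A ∪ B) \ ins (ext Q a)) ≤ U Q A)
    (h2 : ∀ Q : BoxT n d, Q.1 ≤ Q.2 → phi Q < k →
      g Q + ∑ P : BoxT n d with FarBox Q P, wt p P *
        ∑ B ∈ (cov (hull Q P) \ cov Q).powerset,
          p ^ B.card * U (hull Q P) (B \ ins (hull Q P)) ≤ U Q ∅) (m : ℕ) :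
    ∀ (Q : BoxT n d) (A : Finset (Vtx n d)), k ≤ phi Q + m → Q.1 ≤ Q.2 → A ⊆ cov Q \ ins Q →
      VV p k g Q A ≤ U Q A := by
  have hzero : ∀ (Q : BoxT n d) (A : Finset (Vtx n d)), k ≤ phi Q → VV p k g Q A = 0 := by
    intro Q A hQ
    unfold VV
    refine Finset.sum_eq_zero fun R hR => ?_
    have hRk := (Finset.mem_filter.mp hR).2.2
    unfold VR
    rw [Finset.sum_eq_zero, zero_mul]
    intro V hV
    have := v1_phi_mono (Finset.mem_filter.mp hV).2.2.sub
    omega
  induction m with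
  | zero =>
    intro Q A hQ _ _
    rw [hzero Q A (by omega)]
    exact hU Q A
  | succ m ih =>
    intro Q A hQm hQ hA
    by_cases hk : k ≤ phi Q
    · rw [hzero Q A hk]
      exact hU Q A
    push Not at hk
    rcases A.eq_empty_or_nonempty with hAe | hAn
    · subst hAe
      refine le_trans ?_ (h2 Q hQ hk)
      have hstep : VV p k g Q ∅ ≤ g Q + ∑ P : BoxT n d with FarBox Q P, wt p P *
          ∑ B ∈ (cov (hull Q P) \ cov Q).powerset,
            p ^ B.card * VV p k g (hull Q P) (B \ ins (hull Q P)) := by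
        have e1 : ∑ P : BoxT n d with FarBox Q P, wt p P *
            ∑ B ∈ (cov (hull Q P) \ cov Q).powerset,
              p ^ B.card * VV p k g (hull Q P) (B \ ins (hull Q P)) =
            ∑ R : BoxT n d with (R.1 ≤ R.2 ∧ phi R < k),
              (∑ P : BoxT n d with FarBox Q P, wt p P *
                ∑ B ∈ (cov (hull Q P) \ cov Q).powerset,
                  p ^ B.card * VR p (hull Q P) (B \ ins (hull Q P)) R) * g R := by
          simp only [Finset.sum_mul, Finset.mul_sum]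
          rw [Finset.sum_comm]
          refine Finset.sum_congr rfl fun P _ => ?_
          rw [Finset.sum_comm]
          refine Finset.sum_congr rfl fun B _ => ?_
          unfold VV
          rw [Finset.mul_sum, Finset.mul_sum]
          refine Finset.sum_congr rfl fun R _ => ?_
          ring
        have e2 : VV p k g Q ∅ ≤ ∑ R : BoxT n d with (R.1 ≤ R.2 ∧ phi R < k),
            ((if R = Q then g Q else 0) + (∑ P : BoxT n d with FarBox Q P, wt p P *
                ∑ B ∈ (cov (hull Q P) \ cov Q).powerset,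
                  p ^ B.card * VR p (hull Q P) (B \ ins (hull Q P)) R) * g R) := by
          unfold VV
          refine Finset.sum_le_sum fun R _ => ?_
          have hnn : 0 ≤ ∑ P : BoxT n d with FarBox Q P, wt p P *
                ∑ B ∈ (cov (hull Q P) \ cov Q).powerset,
                  p ^ B.card * VR p (hull Q P) (B \ ins (hull Q P)) R := by
            refine Finset.sum_nonneg fun P _ => mul_nonneg (wt_nonneg hp P)
              (Finset.sum_nonneg fun B _ => mul_nonneg (by positivity) (VR_nonneg hp _ _ _))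
          by_cases hRQ : R = Q
          · subst hRQ
            rw [if_pos rfl]
            have := mul_le_mul_of_nonneg_right (VR_self (p := p) (Q := R)) (hg R)
            have h3 := mul_nonneg hnn (hg R)
            linarith
          · rw [if_neg hRQ, zero_add]
            exact mul_le_mul_of_nonneg_right (VR_merge hp hQ hRQ) (hg R)
        refine e2.trans ?_
        rw [Finset.sum_add_distrib, e1]
        refine add_le_add ?_ le_rfl
        rw [Finset.sum_ite_eq']
        split_ifs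
        · exact le_rfl
        · exact hg Q
      refine hstep.trans (add_le_add le_rfl (Finset.sum_le_sum fun P hP => ?_))
      have hPF := (Finset.mem_filter.mp hP).2
      refine mul_le_mul_of_nonneg_left (Finset.sum_le_sum fun B hB => ?_) (wt_nonneg hp P)
      refine mul_le_mul_of_nonneg_left ?_ (by positivity)
      have hlt : phi Q < phi (hull Q P) := by
        apply v1_phi_lt hQ (v1_sub_hull_left _ _)
        intro e
        exact hPF.2.2.2.2 (v1_sub_antisymm e (v1_sub_hull_left _ _))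
      apply ih
      · omega
      · exact cHull_le hPF.1
      · intro v hv
        rw [Finset.mem_sdiff] at hv ⊢
        exact ⟨(Finset.mem_sdiff.mp (Finset.mem_powerset.mp hB hv.1)).1, hv.2⟩
    · obtain ⟨a, ha, hle⟩ := h1 Q A hQ hk hA hAn
      refine le_trans ?_ hle
      have hstep : VV p k g Q A ≤ ∑ B ∈ (cov (ext Q a) \ cov Q).powerset,
          p ^ B.card * VV p k g (ext Q a) ((A ∪ B) \ ins (ext Q a)) := by
        have e1 : ∑ B ∈ (cov (ext Q a) \ cov Q).powerset,
            p ^ B.card * VV p k g (ext Q a) ((A ∪ B) \ ins (ext Q a)) =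
            ∑ R : BoxT n d with (R.1 ≤ R.2 ∧ phi R < k),
              (∑ B ∈ (cov (ext Q a) \ cov Q).powerset,
                p ^ B.card * VR p (ext Q a) ((A ∪ B) \ ins (ext Q a)) R) * g R := by
          simp only [Finset.sum_mul]
          rw [Finset.sum_comm]
          refine Finset.sum_congr rfl fun B _ => ?_
          unfold VV
          rw [Finset.mul_sum]
          refine Finset.sum_congr rfl fun R _ => ?_
          ring
        rw [e1]
        unfold VV
        exact Finset.sum_le_sum fun R _ => mul_le_mul_of_nonneg_right (VR_visible hp ha R) (hg R)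
      refine hstep.trans (Finset.sum_le_sum fun B hB => ?_)
      refine mul_le_mul_of_nonneg_left ?_ (by positivity)
      have hsub : Sub Q (ext Q a) := v1_sub_hull_left _ _
      have hlt : phi Q < phi (ext Q a) := by
        apply v1_phi_lt hQ hsub
        intro e
        have h5 : Sub (a, a) (ext Q a) := v1_sub_hull_right _ _
        have h6 : Sub (a, a) Q := v1_sub_trans h5 e
        exact (Finset.mem_sdiff.mp (hA ha)).2 (v1_mem_ins.mpr h6)
      apply ih
      · omega
      · exact ext_le hQ a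
      · intro v hv
        rw [Finset.mem_sdiff, Finset.mem_union] at hv
        rw [Finset.mem_sdiff]
        refine ⟨?_, hv.2⟩
        rcases hv.1 with hv | hv
        · exact v1_cov_mono hsub (Finset.mem_sdiff.mp (hA hv)).1
        · exact (Finset.mem_sdiff.mp (Finset.mem_powerset.mp hB hv)).1

open Classical in
/-- exploration of spanning sets: use a visible point if there is one, else merge -/
theorem explore {p : ℝ} (hp : 0 ≤ p) (k : ℕ) (g : BoxT n d → ℝ) (hg : ∀ R, 0 ≤ g R)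
    (U : BoxT n d → Finset (Vtx n d) → ℝ) (hU : ∀ Q A, 0 ≤ U Q A)
    (h1 : ∀ (Q : BoxT n d) (A : Finset (Vtx n d)), Q.1 ≤ Q.2 → phi Q < k → A ⊆ cov Q \ ins Q →
      A.Nonempty → ∃ a ∈ A, ∑ B ∈ (cov (ext Q a) \ cov Q).powerset,
        p ^ B.card * U (ext Q a) ((A ∪ B) \ ins (ext Q a)) ≤ U Q A)
    (h2 : ∀ Q : BoxT n d, Q.1 ≤ Q.2 → phi Q < k →
      g Q + ∑ P : BoxT n d with FarBox Q P, wt p P *
        ∑ B ∈ (cov (hull Q P) \ cov Q).powerset,
          p ^ B.card * U (hull Q P) (B \ ins (hull Q P)) ≤ U Q ∅) :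
    ∑ R : BoxT n d with (R.1 ≤ R.2 ∧ phi R < k), wt p R * g R ≤
      p * ∑ x : Vtx n d, ∑ B ∈ (cov (x, x) \ {x}).powerset, p ^ B.card * U (x, x) B := by
  have e1 : p * ∑ x : Vtx n d, ∑ B ∈ (cov (x, x) \ {x}).powerset, p ^ B.card *
      VV p k g (x, x) B = ∑ R : BoxT n d with (R.1 ≤ R.2 ∧ phi R < k),
        (p * ∑ x : Vtx n d, ∑ B ∈ (cov (x, x) \ {x}).powerset, p ^ B.card *
          VR p (x, x) B R) * g R := by
    simp only [Finset.sum_mul, Finset.mul_sum]
    rw [Finset.sum_comm]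
    refine Finset.sum_congr rfl fun x _ => ?_
    rw [Finset.sum_comm]
    refine Finset.sum_congr rfl fun B _ => ?_
    unfold VV
    rw [Finset.mul_sum, Finset.mul_sum]
    refine Finset.sum_congr rfl fun R _ => ?_
    ring
  have e2 : ∑ R : BoxT n d with (R.1 ≤ R.2 ∧ phi R < k), wt p R * g R ≤
      p * ∑ x : Vtx n d, ∑ B ∈ (cov (x, x) \ {x}).powerset, p ^ B.card *
        VV p k g (x, x) B := by
    rw [e1]
    exact Finset.sum_le_sum fun R _ => mul_le_mul_of_nonneg_right (wt_le_VR hp R) (hg R)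
  refine e2.trans (mul_le_mul_of_nonneg_left (Finset.sum_le_sum fun x _ =>
    Finset.sum_le_sum fun B hB => mul_le_mul_of_nonneg_left ?_ (by positivity)) hp)
  apply VV_le hp k g hg U hU h1 h2 k (x, x) B (by omega) le_rfl
  intro v hv
  have h3 := Finset.mem_sdiff.mp (Finset.mem_powerset.mp hB hv)
  rw [Finset.mem_sdiff]
  refine ⟨h3.1, fun e => h3.2 ?_⟩
  have := v1_mem_ins.mp e
  rw [Finset.mem_singleton]
  exact le_antisymm this.2 this.1

end Pool.Agent.Lib.MP_8501c9_pr.Wide
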