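import Pool.Agent.Lib.MP_8501c9_pr.Wide.Defs
import Pool.Agent.Lib.MP_8501c9_pr.Wide.Explore
import Pool.Agent.Lib.MP_8501c9_pr.Mid.Ext2

/-!
# Potentials with a queue: the births of visible points (task V2)
-/

set_option autoImplicit false
open Set

namespace Pool.Agent.Lib.MP_8501c9_pr.Wide

open Pool.Agent.Lib.MP_8501c9_pr Pool.Agent.Lib.MP_8501c9_pr.Mid

variable {n d : ℕ}

/-! ### orders of the queue -/

/-- product of the factors along a list of points -/
noncomputable def v2E (c : BoxT n d → BoxT n d → ℝ) : List (Vtx n d) → BoxT n d → ℝ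
  | [], _ => 1
  | a :: l, X => Real.exp (c X (ext X a)) * v2E c l (ext X a)

/-- the last box -/
def v2X : List (Vtx n d) → BoxT n d → BoxT n d
  | [], X => X
  | a :: l, X => v2X l (ext X a)

/-- value of an order -/
noncomputable def v2W (c : BoxT n d → BoxT n d → ℝ) (G : BoxT n d → ℝ) (l : List (Vtx n d))
    (X : BoxT n d) : ℝ := v2E c l X * G (v2X l X)

theorem v2E_pos (c : BoxT n d → BoxT n d → ℝ) (l : List (Vtx n d)) (X : BoxT n d) :
    0 < v2E c l X := by
  induction l generalizing X with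
  | nil => exact one_pos
  | cons a l ih => exact mul_pos (Real.exp_pos _) (ih _)

theorem v2W_nonneg (c : BoxT n d → BoxT n d → ℝ) {G : BoxT n d → ℝ} (hG : ∀ R, 0 ≤ G R)
    (l : List (Vtx n d)) (X : BoxT n d) : 0 ≤ v2W c G l X :=
  mul_nonneg (v2E_pos c l X).le (hG _)

theorem v2W_cons (c : BoxT n d → BoxT n d → ℝ) (G : BoxT n d → ℝ) (a : Vtx n d)
    (l : List (Vtx n d)) (X : BoxT n d) :
    v2W c G (a :: l) X = Real.exp (c X (ext X a)) * v2W c G l (ext X a) := by
  unfold v2W
  rw [← mul_assoc]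
  rfl

theorem v2W_append (c : BoxT n d → BoxT n d → ℝ) (G : BoxT n d → ℝ) (l m : List (Vtx n d))
    (X : BoxT n d) : v2W c G (l ++ m) X = v2E c l X * v2W c G m (v2X l X) := by
  induction l generalizing X with
  | nil => simp [v2E, v2X]
  | cons a l ih =>
    rw [List.cons_append, v2W_cons, ih]
    simp only [v2E, v2X]
    ring

theorem v2_ext_ins {Q X : BoxT n d} (h : Sub Q X) {b : Vtx n d} (hb : b ∈ ins Q) :
    ext X b = X := by
  unfold ins at hb
  rw [Finset.mem_filter, Finset.sum_eq_zero_iff] at hb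
  have h1 : Q.1 ≤ b := by
    intro i
    have := hb.2 i (Finset.mem_univ i)
    unfold out at this
    have h2 : (Q.1 i : ℕ) ≤ b i := by omega
    exact h2
  have h2 : b ≤ Q.2 := by
    intro i
    have := hb.2 i (Finset.mem_univ i)
    unfold out at this
    have h2 : (b i : ℕ) ≤ Q.2 i := by omega
    exact h2
  unfold Mid.ext hull
  exact Prod.ext (inf_eq_left.2 (h.1.trans h1)) (sup_eq_left.2 (h2.trans h.2))

theorem v2_sub_ext (Q : BoxT n d) (b : Vtx n d) : Sub Q (ext Q b) :=
  ⟨inf_le_left, le_sup_left⟩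

theorem v2_sub_trans {Q R S : BoxT n d} (h1 : Sub Q R) (h2 : Sub R S) : Sub Q S :=
  ⟨h2.1.trans h1.1, h1.2.trans h2.2⟩

/-- the points of `Q` can be dropped -/
theorem v2_filter {c : BoxT n d → BoxT n d → ℝ} (hcc : ∀ Q, c Q Q = 0) (G : BoxT n d → ℝ)
    (Q : BoxT n d) (l : List (Vtx n d)) {X : BoxT n d} (hX : Sub Q X) :
    v2W c G (l.filter (fun x => x ∉ ins Q)) X = v2W c G l X := by
  induction l generalizing X with
  | nil => rfl
  | cons a l ih =>
    by_cases ha : a ∈ ins Q
    · rw [List.filter_cons_of_neg (by simpa using ha), v2W_cons, v2_ext_ins hX ha, hcc,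
        Real.exp_zero, one_mul]
      exact ih hX
    · rw [List.filter_cons_of_pos (by simpa using ha), v2W_cons, v2W_cons,
        ih (v2_sub_trans hX (v2_sub_ext X a))]

/-- `l` is an order of `A` -/
def v2Ord (l : List (Vtx n d)) (A : Finset (Vtx n d)) : Prop := l.Nodup ∧ ∀ x, x ∈ l ↔ x ∈ A

theorem v2_exists_min (c : BoxT n d → BoxT n d → ℝ) (G : BoxT n d → ℝ) (A : Finset (Vtx n d))
    (X : BoxT n d) : ∃ l, v2Ord l A ∧ ∀ m, v2Ord m A → v2W c G l X ≤ v2W c G m X := by
  have h0 : v2Ord A.toList A := ⟨A.nodup_toList, fun x => Finset.mem_toList⟩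
  have hperm : ∀ l, v2Ord l A ↔ l ∈ A.toList.permutations.toFinset := by
    intro l
    rw [List.mem_toFinset, List.mem_permutations]
    constructor
    · intro h
      exact (List.perm_ext_iff_of_nodup h.1 h0.1).2 fun x => by rw [h.2, h0.2]
    · intro h
      exact ⟨h.nodup_iff.2 h0.1, fun x => by rw [h.mem_iff, h0.2]⟩
  obtain ⟨l, hl, hmin⟩ := Finset.exists_min_image A.toList.permutations.toFinset
    (fun l => v2W c G l X) ⟨A.toList, (hperm _).1 h0⟩
  exact ⟨l, (hperm l).2 hl, fun m hm => hmin m ((hperm m).1 hm)⟩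

/-- minimum over the orders -/
noncomputable def v2U (c : BoxT n d → BoxT n d → ℝ) (G : BoxT n d → ℝ) (A : Finset (Vtx n d))
    (X : BoxT n d) : ℝ := v2W c G (Classical.choose (v2_exists_min c G A X)) X

theorem v2U_spec (c : BoxT n d → BoxT n d → ℝ) (G : BoxT n d → ℝ) (A : Finset (Vtx n d))
    (X : BoxT n d) : ∃ l, v2Ord l A ∧ v2U c G A X = v2W c G l X :=
  ⟨_, (Classical.choose_spec (v2_exists_min c G A X)).1, rfl⟩

theorem v2U_le (c : BoxT n d → BoxT n d → ℝ) (G : BoxT n d → ℝ) {A : Finset (Vtx n d)}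
    (X : BoxT n d) {l : List (Vtx n d)} (hl : v2Ord l A) : v2U c G A X ≤ v2W c G l X :=
  (Classical.choose_spec (v2_exists_min c G A X)).2 l hl

theorem v2U_nonneg (c : BoxT n d → BoxT n d → ℝ) {G : BoxT n d → ℝ} (hG : ∀ R, 0 ≤ G R)
    (A : Finset (Vtx n d)) (X : BoxT n d) : 0 ≤ v2U c G A X := by
  obtain ⟨l, -, h⟩ := v2U_spec c G A X
  rw [h]
  exact v2W_nonneg c hG l X

theorem v2Ord_empty {l : List (Vtx n d)} (h : v2Ord l ∅) : l = [] := by
  cases l with
  | nil => rfl
  | cons a l => exact absurd ((h.2 a).1 List.mem_cons_self) (Finset.notMem_empty a)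

theorem v2U_empty (c : BoxT n d → BoxT n d → ℝ) (G : BoxT n d → ℝ) (X : BoxT n d) :
    v2U c G ∅ X = G X := by
  obtain ⟨l, hl, h⟩ := v2U_spec c G ∅ X
  rw [h, v2Ord_empty hl]
  simp [v2W, v2E, v2X]

theorem v2Ord_cons {l : List (Vtx n d)} {A : Finset (Vtx n d)} {a : Vtx n d} (ha : a ∈ A)
    (h : v2Ord l (A.erase a)) : v2Ord (a :: l) A := by
  refine ⟨List.nodup_cons.2 ⟨fun h' => ?_, h.1⟩, fun x => ?_⟩
  · have := (h.2 a).1 h'
    exact absurd rfl (Finset.mem_erase.1 this).1
  · rw [List.mem_cons, h.2, Finset.mem_erase]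
    constructor
    · rintro (rfl | h')
      · exact ha
      · exact h'.2
    · intro hx
      by_cases hxa : x = a
      · exact Or.inl hxa
      · exact Or.inr ⟨hxa, hx⟩

theorem v2Ord_tail {l : List (Vtx n d)} {A : Finset (Vtx n d)} {a : Vtx n d}
    (h : v2Ord (a :: l) A) : a ∈ A ∧ v2Ord l (A.erase a) := by
  obtain ⟨h1, h2⟩ := List.nodup_cons.1 h.1
  refine ⟨(h.2 a).1 List.mem_cons_self, h2, fun x => ?_⟩
  rw [Finset.mem_erase, ← h.2, List.mem_cons]
  constructor
  · intro hx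
    refine ⟨?_, Or.inr hx⟩
    rintro rfl
    exact h1 hx
  · rintro ⟨hxa, hx | hx⟩
    · exact absurd hx hxa
    · exact hx

theorem v2U_step (c : BoxT n d → BoxT n d → ℝ) (G : BoxT n d → ℝ) {B : Finset (Vtx n d)}
    {b : Vtx n d} (hb : b ∈ B) (X : BoxT n d) :
    v2U c G B X ≤ Real.exp (c X (ext X b)) * v2U c G (B.erase b) (ext X b) := by
  obtain ⟨l, hl, h⟩ := v2U_spec c G (B.erase b) (ext X b)
  rw [h, ← v2W_cons]
  exact v2U_le c G X (v2Ord_cons hb hl)

/-- inside points can be dropped from the queue -/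
theorem v2U_sdiff {c : BoxT n d → BoxT n d → ℝ} (hcc : ∀ Q, c Q Q = 0) (G : BoxT n d → ℝ)
    (B : Finset (Vtx n d)) (X : BoxT n d) : v2U c G (B \ ins X) X ≤ v2U c G B X := by
  obtain ⟨l, hl, h⟩ := v2U_spec c G B X
  rw [h, ← v2_filter hcc G X l ⟨le_rfl, le_rfl⟩]
  refine v2U_le c G X ⟨hl.1.filter _, fun x => ?_⟩
  rw [List.mem_filter, hl.2, Finset.mem_sdiff]
  simp

/-! ### the births lemma -/

theorem v2_layer {p : ℝ} (hp : 0 ≤ p) {c : BoxT n d → BoxT n d → ℝ} {G : BoxT n d → ℝ}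
    (hG : ∀ R, 0 ≤ G R) (N : Finset (Vtx n d)) (Cl : BoxT n d → Prop)
    (hCl : ∀ X, Cl X → ∀ b ∈ N, Cl (ext X b)) {C : ℝ} (hC : 0 ≤ C)
    (hstep : ∀ X, Cl X → ∑ b ∈ N, p * Real.exp (c X (ext X b)) * G (ext X b) ≤ C * G X) (m : ℕ) :
    ∀ X, Cl X → p ^ m * ∑ B ∈ N.powersetCard m, v2U c G B X ≤
      C ^ m / (m.factorial : ℝ) * G X := by
  induction m with
  | zero =>
    intro X _
    rw [Finset.powersetCard_zero, Finset.sum_singleton, v2U_empty]
    simp
  | succ m ih =>
    intro X hX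
    -- the combinatorial step
    have h1 : ((m : ℝ) + 1) * ∑ B ∈ N.powersetCard (m + 1), v2U c G B X ≤
        ∑ b ∈ N, Real.exp (c X (ext X b)) * ∑ B ∈ N.powersetCard m, v2U c G B (ext X b) := by
      calc ((m : ℝ) + 1) * ∑ B ∈ N.powersetCard (m + 1), v2U c G B X
          = ∑ B ∈ N.powersetCard (m + 1), ∑ b ∈ B, v2U c G B X := by
            rw [Finset.mul_sum]
            refine Finset.sum_congr rfl fun B hB => ?_
            rw [Finset.sum_const, (Finset.mem_powersetCard.1 hB).2, nsmul_eq_mul]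
            push_cast
            ring
        _ ≤ ∑ B ∈ N.powersetCard (m + 1), ∑ b ∈ B,
              Real.exp (c X (ext X b)) * v2U c G (B.erase b) (ext X b) :=
            Finset.sum_le_sum fun B _ => Finset.sum_le_sum fun b hb => v2U_step c G hb X
        _ = ∑ b ∈ N, ∑ B ∈ (N.powersetCard (m + 1)).filter (fun B => b ∈ B),
              Real.exp (c X (ext X b)) * v2U c G (B.erase b) (ext X b) := by
            refine Finset.sum_comm' fun B b => ?_
            rw [Finset.mem_filter]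
            constructor
            · rintro ⟨hB, hb⟩
              exact ⟨⟨hB, hb⟩, (Finset.mem_powersetCard.1 hB).1 hb⟩
            · rintro ⟨⟨hB, hb⟩, -⟩
              exact ⟨hB, hb⟩
        _ ≤ _ := by
            refine Finset.sum_le_sum fun b _ => ?_
            rw [← Finset.mul_sum]
            refine mul_le_mul_of_nonneg_left ?_ (Real.exp_pos _).le
            refine b_sum_le_of_inj _ _ _ (fun B => v2U c G B (ext X b)) (fun B => B.erase b)
              ?_ ?_ (fun _ _ => rfl) (fun B _ => v2U_nonneg c hG B _)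
            · intro B hB
              obtain ⟨hB1, hB2⟩ := Finset.mem_filter.1 hB
              obtain ⟨hB3, hB4⟩ := Finset.mem_powersetCard.1 hB1
              rw [Finset.mem_powersetCard]
              refine ⟨(Finset.erase_subset _ _).trans hB3, ?_⟩
              rw [Finset.card_erase_of_mem hB2, hB4]
              rfl
            · intro B hB B' hB' he
              have hb1 := (Finset.mem_filter.1 (Finset.mem_coe.1 hB)).2
              have hb2 := (Finset.mem_filter.1 (Finset.mem_coe.1 hB')).2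
              have he' : B.erase b = B'.erase b := he
              rw [← Finset.insert_erase hb1, he', Finset.insert_erase hb2]
    have h2 : p ^ (m + 1) * (((m : ℝ) + 1) * ∑ B ∈ N.powersetCard (m + 1), v2U c G B X) ≤
        C ^ m / (m.factorial : ℝ) * (C * G X) := by
      calc p ^ (m + 1) * (((m : ℝ) + 1) * ∑ B ∈ N.powersetCard (m + 1), v2U c G B X)
          ≤ p ^ (m + 1) * ∑ b ∈ N, Real.exp (c X (ext X b)) *
              ∑ B ∈ N.powersetCard m, v2U c G B (ext X b) :=
            mul_le_mul_of_nonneg_left h1 (pow_nonneg hp _)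
        _ = ∑ b ∈ N, p * Real.exp (c X (ext X b)) *
              (p ^ m * ∑ B ∈ N.powersetCard m, v2U c G B (ext X b)) := by
            rw [Finset.mul_sum]
            refine Finset.sum_congr rfl fun b _ => ?_
            rw [pow_succ]
            ring
        _ ≤ ∑ b ∈ N, p * Real.exp (c X (ext X b)) *
              (C ^ m / (m.factorial : ℝ) * G (ext X b)) :=
            Finset.sum_le_sum fun b hb => mul_le_mul_of_nonneg_left (ih _ (hCl X hX b hb))
              (mul_nonneg hp (Real.exp_pos _).le)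
        _ = C ^ m / (m.factorial : ℝ) *
              ∑ b ∈ N, p * Real.exp (c X (ext X b)) * G (ext X b) := by
            rw [Finset.mul_sum]
            exact Finset.sum_congr rfl fun b _ => by ring
        _ ≤ C ^ m / (m.factorial : ℝ) * (C * G X) :=
            mul_le_mul_of_nonneg_left (hstep X hX) (by positivity)
    have h3 : (0 : ℝ) < (m : ℝ) + 1 := by positivity
    have h4 : C ^ (m + 1) / ((m + 1).factorial : ℝ) * G X =
        C ^ m / (m.factorial : ℝ) * (C * G X) / ((m : ℝ) + 1) := by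
      rw [Nat.factorial_succ, pow_succ]
      push_cast
      field_simp
    rw [h4, le_div_iff₀ h3]
    calc _ = p ^ (m + 1) * (((m : ℝ) + 1) * ∑ B ∈ N.powersetCard (m + 1), v2U c G B X) := by ring
      _ ≤ _ := h2

theorem v2_births {p : ℝ} (hp : 0 ≤ p) {c : BoxT n d → BoxT n d → ℝ} {G : BoxT n d → ℝ}
    (hG : ∀ R, 0 ≤ G R) (N : Finset (Vtx n d)) (Cl : BoxT n d → Prop)
    (hCl : ∀ X, Cl X → ∀ b ∈ N, Cl (ext X b)) {C : ℝ} (hC : 0 ≤ C)
    (hstep : ∀ X, Cl X → ∑ b ∈ N, p * Real.exp (c X (ext X b)) * G (ext X b) ≤ C * G X)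
    {X : BoxT n d} (hX : Cl X) :
    ∑ B ∈ N.powerset, p ^ B.card * v2U c G B X ≤ Real.exp C * G X := by
  rw [Finset.sum_powerset]
  calc ∑ j ∈ Finset.range (N.card + 1), ∑ B ∈ N.powersetCard j, p ^ B.card * v2U c G B X
      = ∑ j ∈ Finset.range (N.card + 1), p ^ j * ∑ B ∈ N.powersetCard j, v2U c G B X := by
        refine Finset.sum_congr rfl fun j _ => ?_
        rw [Finset.mul_sum]
        refine Finset.sum_congr rfl fun B hB => ?_
        rw [(Finset.mem_powersetCard.1 hB).2]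
    _ ≤ ∑ j ∈ Finset.range (N.card + 1), C ^ j / (j.factorial : ℝ) * G X :=
        Finset.sum_le_sum fun j _ => v2_layer hp hG N Cl hCl hC hstep j X hX
    _ = (∑ j ∈ Finset.range (N.card + 1), C ^ j / (j.factorial : ℝ)) * G X := by
        rw [Finset.sum_mul]
    _ ≤ Real.exp C * G X :=
        mul_le_mul_of_nonneg_right (Real.sum_le_exp_of_nonneg hC _) (hG X)

theorem v2_cov {Q : BoxT n d} {b : Vtx n d} (hb : b ∈ cov Q) (i : Fin d) : out Q b i ≤ 2 := by
  unfold cov at hb
  rw [Finset.mem_filter] at hb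
  exact (Finset.single_le_sum (f := fun i => out Q b i) (fun _ _ => Nat.zero_le _)
    (Finset.mem_univ i)).trans hb.2

/-- the class of the boxes which occur is closed -/
theorem v2_class {Q X : BoxT n d} (h : Sub Q X ∧ Thick Q X) {b : Vtx n d} (hb : b ∈ cov Q) :
    Sub Q (ext X b) ∧ Thick Q (ext X b) := by
  refine ⟨v2_sub_trans h.1 (v2_sub_ext X b), fun i => ?_⟩
  have h1 := v2_cov hb i
  have h2 := h.2 i
  unfold out at h1
  rw [b_ext_fst, b_ext_snd]
  omega

theorem v2_class_list {Q X : BoxT n d} (h : Sub Q X ∧ Thick Q X) {l : List (Vtx n d)}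
    (hl : ∀ b ∈ l, b ∈ cov Q) : Sub Q (v2X l X) ∧ Thick Q (v2X l X) := by
  induction l generalizing X with
  | nil => exact h
  | cons a l ih =>
    exact ih (v2_class h (hl a List.mem_cons_self)) fun b hb => hl b (List.mem_cons_of_mem _ hb)

theorem v2_cov_mono {Q R : BoxT n d} (h : Sub Q R) : cov Q ⊆ cov R := by
  intro x hx
  unfold cov at hx ⊢
  rw [Finset.mem_filter] at hx ⊢
  exact ⟨hx.1, (Finset.sum_le_sum fun i _ => b_out_mono h.1 h.2 x i).trans hx.2⟩

theorem v2_thick_self (Q : BoxT n d) : Thick Q Q := fun i => ⟨by omega, by omega⟩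

theorem v2_honest {Q R : BoxT n d} (hQ : Q.1 ≤ Q.2) (h : Sub Q R) : R.1 ≤ R.2 :=
  (h.1.trans hQ).trans h.2

/-- the hypothesis for all boxes of the class -/
theorem v2_all {p : ℝ} {k : ℕ} {c : BoxT n d → BoxT n d → ℝ} {G : BoxT n d → ℝ}
    (hGk : ∀ R, k ≤ phi R → G R = 0) (N : Finset (Vtx n d)) {C : ℝ}
    {X : BoxT n d} (hX : X.1 ≤ X.2)
    (h : phi X < k → ∑ b ∈ N, p * Real.exp (c X (ext X b)) * G (ext X b) ≤ C * G X) :
    ∑ b ∈ N, p * Real.exp (c X (ext X b)) * G (ext X b) ≤ C * G X := by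
  by_cases hk : phi X < k
  · exact h hk
  · push Not at hk
    rw [hGk X hk, mul_zero]
    refine (Finset.sum_eq_zero fun b _ => ?_).le
    rw [hGk (ext X b), mul_zero]
    rw [phi_ext hX]
    omega

theorem v2_mem_ins_ext {Q : BoxT n d} (a : Vtx n d) : a ∈ ins (ext Q a) := by
  unfold ins
  rw [Finset.mem_filter]
  refine ⟨Finset.mem_univ _, Finset.sum_eq_zero fun i _ => ?_⟩
  unfold out
  rw [b_ext_fst, b_ext_snd]
  omega

open Classical in
/-- potentials: `G` on boxes, `c` exponents for the points which become visible -/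
theorem wt_le_of_births {p : ℝ} (hp : 0 ≤ p) (k : ℕ) (g G : BoxT n d → ℝ)
    (c : BoxT n d → BoxT n d → ℝ) (c₀ : ℝ) (hg : ∀ R, 0 ≤ g R) (hG : ∀ R, 0 ≤ G R)
    (hGk : ∀ R, k ≤ phi R → G R = 0) (hcc : ∀ Q, c Q Q = 0)
    (hc : ∀ Q Q', Q.1 ≤ Q.2 → Sub Q Q' → 0 ≤ c Q Q')
    (hN1 : ∀ Q Q' X : BoxT n d, Q.1 ≤ Q.2 → Sub Q Q' → Sub Q' X → Thick Q' X → phi X < k →
      ∑ b ∈ cov Q' \ cov Q, p * Real.exp (c X (ext X b)) * G (ext X b) ≤ c Q Q' * G X)
    (hN0 : ∀ (z : Vtx n d) (X : BoxT n d), Sub (z, z) X → Thick (z, z) X → phi X < k →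
      ∑ b ∈ cov (z, z), p * Real.exp (c X (ext X b)) * G (ext X b) ≤ c₀ * G X)
    (hN2 : ∀ Q : BoxT n d, Q.1 ≤ Q.2 → phi Q < k →
      g Q + ∑ P : BoxT n d with FarBox Q P,
        wt p P * (Real.exp (c Q (hull Q P)) * G (hull Q P)) ≤ G Q) :
    ∑ R : BoxT n d with (R.1 ≤ R.2 ∧ phi R < k), wt p R * g R ≤
      p * Real.exp c₀ * ∑ x : Vtx n d, G (x, x) := by
  -- the births lemma for two boxes
  have hb : ∀ Q Q' X : BoxT n d, Q.1 ≤ Q.2 → Sub Q Q' → Sub Q' X → Thick Q' X →
      ∑ B ∈ (cov Q' \ cov Q).powerset, p ^ B.card * v2U c G B X ≤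
        Real.exp (c Q Q') * G X := by
    intro Q Q' X hQ h1 h2 h3
    refine v2_births hp hG (cov Q' \ cov Q) (fun X => Sub Q' X ∧ Thick Q' X)
      (fun X hX b hb => v2_class hX (Finset.mem_sdiff.1 hb).1) (hc Q Q' hQ h1)
      (fun X hX => ?_) ⟨h2, h3⟩
    exact v2_all hGk _ (v2_honest hQ (v2_sub_trans h1 hX.1))
      (hN1 Q Q' X hQ h1 hX.1 hX.2)
  have hwt : ∀ P : BoxT n d, 0 ≤ wt p P := fun P =>
    Finset.sum_nonneg fun W _ => pow_nonneg hp _
  have hmain := explore hp k g hg (fun Q A => v2U c G A Q) (fun Q A => v2U_nonneg c hG A Q)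
    (by
      intro Q A hQ hk hA hne
      obtain ⟨l, hl, hU⟩ := v2U_spec c G A Q
      cases l with
      | nil =>
        obtain ⟨a, ha⟩ := hne
        exact absurd ((hl.2 a).2 ha) (by simp)
      | cons a l =>
        obtain ⟨ha, hl'⟩ := v2Ord_tail hl
        refine ⟨a, ha, ?_⟩
        have hcl : Sub (ext Q a) (v2X l (ext Q a)) ∧ Thick (ext Q a) (v2X l (ext Q a)) := by
          refine v2_class_list ⟨⟨le_rfl, le_rfl⟩, v2_thick_self _⟩ fun b hb => ?_
          have h1 := Finset.mem_of_mem_erase ((hl'.2 b).1 hb)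
          exact v2_cov_mono (v2_sub_ext Q a) (Finset.mem_sdiff.1 (hA h1)).1
        have hterm : ∀ B ∈ (cov (ext Q a) \ cov Q).powerset,
            p ^ B.card * v2U c G ((A ∪ B) \ ins (ext Q a)) (ext Q a) ≤
              v2E c l (ext Q a) * (p ^ B.card * v2U c G B (v2X l (ext Q a))) := by
          intro B hB
          rw [Finset.mem_powerset] at hB
          obtain ⟨m, hm, hUm⟩ := v2U_spec c G B (v2X l (ext Q a))
          have h1 : v2U c G ((A ∪ B) \ ins (ext Q a)) (ext Q a) ≤
              v2E c l (ext Q a) * v2U c G B (v2X l (ext Q a)) := by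
            rw [hUm, ← v2W_append, ← v2_filter hcc G (ext Q a) (l ++ m) ⟨le_rfl, le_rfl⟩]
            refine v2U_le c G _ ⟨List.Nodup.filter _ ?_, fun x => ?_⟩
            · rw [List.nodup_append]
              refine ⟨hl'.1, hm.1, ?_⟩
              intro x hx y hy hxy
              subst hxy
              have h2 := Finset.mem_of_mem_erase ((hl'.2 x).1 hx)
              have h3 := hB ((hm.2 x).1 hy)
              exact (Finset.mem_sdiff.1 h3).2 (Finset.mem_sdiff.1 (hA h2)).1
            · rw [List.mem_filter, List.mem_append, hl'.2, hm.2, Finset.mem_sdiff,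
                Finset.mem_union, Finset.mem_erase]
              simp only [decide_eq_true_eq]
              constructor
              · rintro ⟨h2 | h2, h3⟩
                · exact ⟨Or.inl h2.2, h3⟩
                · exact ⟨Or.inr h2, h3⟩
              · rintro ⟨h2 | h2, h3⟩
                · refine ⟨Or.inl ⟨?_, h2⟩, h3⟩
                  rintro rfl
                  exact h3 (v2_mem_ins_ext _)
                · exact ⟨Or.inr h2, h3⟩
          calc p ^ B.card * v2U c G ((A ∪ B) \ ins (ext Q a)) (ext Q a)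
              ≤ p ^ B.card * (v2E c l (ext Q a) * v2U c G B (v2X l (ext Q a))) :=
                mul_le_mul_of_nonneg_left h1 (pow_nonneg hp _)
            _ = _ := by ring
        refine (Finset.sum_le_sum hterm).trans ?_
        rw [← Finset.mul_sum]
        have h2 := hb Q (ext Q a) (v2X l (ext Q a)) hQ (v2_sub_ext Q a) hcl.1 hcl.2
        calc v2E c l (ext Q a) * ∑ B ∈ (cov (ext Q a) \ cov Q).powerset,
              p ^ B.card * v2U c G B (v2X l (ext Q a))
            ≤ v2E c l (ext Q a) * (Real.exp (c Q (ext Q a)) * G (v2X l (ext Q a))) :=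
              mul_le_mul_of_nonneg_left h2 (v2E_pos c l _).le
          _ = v2U c G A Q := by
              rw [hU, v2W_cons, v2W]
              ring)
    (by
      intro Q hQ hk
      refine le_trans ?_ ((hN2 Q hQ hk).trans (v2U_empty c G Q).ge)
      refine add_le_add le_rfl (Finset.sum_le_sum fun P _ => ?_)
      refine mul_le_mul_of_nonneg_left ?_ (hwt P)
      have hsub : Sub Q (hull Q P) := ⟨inf_le_left, le_sup_left⟩
      refine le_trans (Finset.sum_le_sum fun B _ => ?_)
        (hb Q (hull Q P) (hull Q P) hQ hsub ⟨le_rfl, le_rfl⟩ (v2_thick_self _))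
      exact mul_le_mul_of_nonneg_left (v2U_sdiff hcc G B _) (pow_nonneg hp _))
  refine hmain.trans ?_
  rw [mul_assoc]
  refine mul_le_mul_of_nonneg_left ?_ hp
  rw [Finset.mul_sum]
  refine Finset.sum_le_sum fun z _ => ?_
  have hsub : (cov ((z, z) : BoxT n d) \ {z}).powerset ⊆ (cov ((z, z) : BoxT n d)).powerset :=
    Finset.powerset_mono.2 Finset.sdiff_subset
  refine (Finset.sum_le_sum_of_subset_of_nonneg hsub fun B _ _ =>
    mul_nonneg (pow_nonneg hp _) (v2U_nonneg c hG B _)).trans ?_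
  have hcl0 : Sub (z, z) ((z, z) : BoxT n d) ∧ Thick (z, z) ((z, z) : BoxT n d) :=
    ⟨⟨le_rfl, le_rfl⟩, v2_thick_self _⟩
  have hst : ∀ C : ℝ, c₀ ≤ C → ∀ X : BoxT n d, Sub (z, z) X ∧ Thick (z, z) X →
      ∑ b ∈ cov ((z, z) : BoxT n d), p * Real.exp (c X (ext X b)) * G (ext X b) ≤ C * G X := by
    intro C hC X hX
    refine v2_all hGk _ (v2_honest (Q := (z, z)) le_rfl hX.1) fun hk => ?_
    exact (hN0 z X hX.1 hX.2 hk).trans (mul_le_mul_of_nonneg_right hC (hG X))
  rcases le_or_gt 0 c₀ with h0 | h0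
  · exact v2_births hp hG (cov ((z, z) : BoxT n d)) (fun X => Sub (z, z) X ∧ Thick (z, z) X)
      (fun X hX b hb => v2_class hX hb) h0 (hst c₀ le_rfl) hcl0
  · have hz : G (z, z) = 0 := by
      by_cases hk : phi ((z, z) : BoxT n d) < k
      · have h1 := hN0 z (z, z) hcl0.1 hcl0.2 hk
        have h2 : 0 ≤ ∑ b ∈ cov ((z, z) : BoxT n d),
            p * Real.exp (c (z, z) (ext (z, z) b)) * G (ext (z, z) b) :=
          Finset.sum_nonneg fun b _ => mul_nonneg (mul_nonneg hp (Real.exp_pos _).le) (hG _)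
        have h3 := hG (z, z)
        nlinarith
      · exact hGk _ (not_lt.1 hk)
    have h1 := v2_births hp hG (cov ((z, z) : BoxT n d))
      (fun X => Sub (z, z) X ∧ Thick (z, z) X) (fun X hX b hb => v2_class hX hb) le_rfl
      (hst 0 h0.le) hcl0
    rw [hz, mul_zero] at h1 ⊢
    exact h1

end Pool.Agent.Lib.MP_8501c9_pr.Wide
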