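import Pool.Agent.Lib.MP_8501c9_pr.Wide.DefsN

/-!
# Definitions: the one-direction problem with finitely many windows
-/

set_option autoImplicit false
open Set

namespace Pool.Agent.Lib.MP_8501c9_pr.Wide

open Pool.Agent.Lib.MP_8501c9_pr Pool.Agent.Lib.MP_8501c9_pr.Mid

/-- offset before the window `τ`, there are `m` windows per level, `A` the set of windows in which
the direction is enlarged -/
def posn (m : ℕ) (A : Finset ℕ) (τ : ℕ) : ℤ := ((A.filter (fun σ => σ < τ)).card : ℤ) - (τ / m : ℕ)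

/-- weight of a pattern: `exp (u w) / m` for each step in a window of type `w`, penalty
`κ j (j - 1) / m` per window -/
noncomputable def pwt (κ : ℝ) (n m : ℕ) (u : ℕ → ℝ) (A : Finset ℕ) : ℝ :=
  Real.exp (∑ τ ∈ A, (u (τ % m) - Real.log m) -
    κ / m * ∑ τ ∈ Finset.range (n * m), (posn m A τ : ℝ) * ((posn m A τ : ℝ) - 1))

/-- patterns on `n` levels returning to the offset `0` -/
def pats (n m : ℕ) : Finset (Finset ℕ) := (Finset.range (n * m)).powersetCard n

/-- partition function -/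
noncomputable def ZZ (κ : ℝ) (n m : ℕ) (u : ℕ → ℝ) : ℝ := ∑ A ∈ pats n m, pwt κ n m u A

/-- number of steps in windows of type `w` -/
def kw (m : ℕ) (A : Finset ℕ) (w : ℕ) : ℕ := (A.filter (fun τ => τ % m = w)).card

/-- capped penalty -/
noncomputable def Pcap (κ Pc : ℝ) (j : ℤ) : ℝ := min (κ * (j * (j - 1))) Pc

/-- one window, backwards -/
noncomputable def Tw (P : ℤ → ℝ) (m : ℕ) (c : ℝ) (f : ℤ → ℝ) (j : ℤ) : ℝ :=
  Real.exp (-(P j / m)) * (f j + c * f (j + 1))

/-- the windows `w, …, m - 1` and the shift at the end of the level, backwards;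
`r` is the number of windows -/
noncomputable def Kw (P : ℤ → ℝ) (m : ℕ) (c : ℕ → ℝ) : ℕ → (ℤ → ℝ) → ℤ → ℝ
  | 0, f => fun j => f (j - 1)
  | r + 1, f => Tw P m (c (m - (r + 1))) (Kw P m c r f)

/-- one level, backwards -/
noncomputable def Kop (P : ℤ → ℝ) (m : ℕ) (c : ℕ → ℝ) (f : ℤ → ℝ) : ℤ → ℝ := Kw P m c m f

end Pool.Agent.Lib.MP_8501c9_pr.Wide
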