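import Pool.Agent.Lib.MP_8501c9_pr.Mid.Defs3

/-!
# Definitions for `d` much smaller than `log n`: exploration with a queue
-/

set_option autoImplicit false
open Set

namespace Pool.Agent.Lib.MP_8501c9_pr.Wide

open Pool.Agent.Lib.MP_8501c9_pr Pool.Agent.Lib.MP_8501c9_pr.Mid

variable {n d : ℕ}

/-- points at distance at most two from the box -/
def cov (Q : BoxT n d) : Finset (Vtx n d) := Finset.univ.filter (fun x => ∑ i, out Q x i ≤ 2)

/-- points of the box -/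
def ins (Q : BoxT n d) : Finset (Vtx n d) := Finset.univ.filter (fun x => ∑ i, out Q x i = 0)

/-- the first box is contained in the second -/
def Sub (Q R : BoxT n d) : Prop := R.1 ≤ Q.1 ∧ Q.2 ≤ R.2

/-- the second box exceeds the first one by at most two on each side -/
def Thick (Q R : BoxT n d) : Prop := ∀ i, (Q.1 i : ℕ) ≤ R.1 i + 2 ∧ (R.2 i : ℕ) ≤ Q.2 i + 2

/-- boxes which can be merged when no point is near -/
def FarBox (Q P : BoxT n d) : Prop :=
  P.1 ≤ P.2 ∧ Near Q P ∧ 1 ≤ phi P ∧ phi P ≤ phi Q ∧ hull Q P ≠ Q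

/-- deficit of the volume caused by one side of length `x`, boxes of size `t` -/
noncomputable def gap (d t x : ℕ) : ℝ :=
  Real.log (lev d t) + ((x : ℝ) - lev d t) * Real.log (((lev d t : ℝ) + 1) / lev d t) - Real.log x

/-- potential of product form -/
noncomputable def GP (k : ℕ) (C : ℕ → ℝ) (F : ℕ → ℕ → ℝ) (Q : BoxT n d) : ℝ :=
  if phi Q < k then C (phi Q) * ∏ i, F (phi Q) (sd Q i) else 0

/-- exponent of the factor gained by the points which become visible -/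
noncomputable def cP (lam : ℕ → ℝ) (e : ℝ) (Q Q' : BoxT n d) : ℝ :=
  ∑ i, ((sd Q' i : ℝ) - sd Q i) * (lam (phi Q') / sd Q' i + e)

/-- weight of a direction of side length `x`, with the potential `F s` -/
noncomputable def wP (lam : ℕ → ℝ) (η : ℝ) (F : ℕ → ℕ → ℝ) (t s x : ℕ) : ℝ :=
  Real.exp ((1 + 3 * η) * lam t / x) / x * (F s (x + 1) / F s x)

/-- data of a potential of product form -/
structure PF (d k : ℕ) (L η R c₁ c₃ : ℝ) (lam y C : ℕ → ℝ) (F : ℕ → ℕ → ℝ) : Prop where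
  F_ge : ∀ t x, 1 ≤ F t x
  C_pos : ∀ t, 0 < C t
  y_ge : ∀ t, Real.exp (-(c₁ * Real.log d)) ≤ y t
  lam_ge : ∀ t, 1 ≤ lam t
  lam_le : ∀ t, lam t ≤ (t : ℝ) / d + c₁
  lam_mono : Monotone lam
  lam_lip : ∀ t, lam (t + 4 * d + 4) ≤ (1 + η) * lam t
  sdF : ∀ t x, t < k → 1 ≤ x →
    F (t + 2) x * Real.exp (-(gap d t x) + 2 * y t * wP lam η F t (t + 2) x) ≤ F t x
  w_le : ∀ t s x, t < k → s = t + 1 ∨ s = t + 2 → 1 ≤ x → y t * wP lam η F t s x ≤ R / d
  w_lex : ∀ t s x, t < k → s = t + 1 ∨ s = t + 2 → 1 ≤ x →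
    y t * wP lam η F t s x * x ≤ R * lev d t / d
  stepF : ∀ t x, 1 ≤ x → F (t + 1) x ≤ F t x * Real.exp (c₁ * Real.log d / d)
  recC : ∀ t, t + 2 < k →
    C (t + 2) * (2 * Real.exp (-L + sfun d t + 4 * η) / (lam t * Real.exp 2 * y t ^ 2)) ≤ C t
  ratioC : ∀ t, t + 1 < k → C (t + 1) ≤ C t * Real.exp ((L - sfun d t) / 2 + c₁ * Real.log d -
    if (t : ℝ) < c₃ * Real.log d then c₃ * Real.log d else 0)
  endC : ∀ t, t + 1 = k ∨ t + 2 = k → 1 ≤ C t

end Pool.Agent.Lib.MP_8501c9_pr.Wide
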