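import Pool.Agent.Lib.MP_8501c9_pr.Wide.Defs

/-!
# Definitions for the upper bound of the critical probability: trees, queues, quotas
-/

set_option autoImplicit false
open Set

namespace Pool.Agent.Lib.MP_8501c9_pr.Wide

open Pool.Agent.Lib.MP_8501c9_pr Pool.Agent.Lib.MP_8501c9_pr.Mid

/-! ### binary decision trees -/

/-- binary decision trees -/
inductive BT (V : Type) : Type
  | win : BT V
  | lose : BT V
  | ask (x : V) (yes no : BT V) : BT V

namespace BT

variable {V : Type} [DecidableEq V]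

/-- no site is asked twice, and the sites of `Z` are never asked -/
def Valid : BT V → Finset V → Prop
  | win, _ => True
  | lose, _ => True
  | ask x a b, Z => x ∉ Z ∧ a.Valid (insert x Z) ∧ b.Valid (insert x Z)

/-- expectation of the payoff `g`, a function of the set of sites found so far -/
noncomputable def ev (p : ℝ) (g : Finset V → ℝ) : BT V → Finset V → ℝ
  | win, T => g T
  | lose, _ => 0
  | ask x a b, T => p * a.ev p g (insert x T) + (1 - p) * b.ev p g T

end BT

/-- expected payoff `v` can be achieved when the sites `Z` have been asked and `T` found -/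
def Ach {V : Type} [DecidableEq V] (p : ℝ) (g : Finset V → ℝ) (Z T : Finset V) (v : ℝ) : Prop :=
  ∃ t : BT V, t.Valid Z ∧ v ≤ t.ev p g T

open Classical in
/-- indicator function -/
noncomputable def ind {α : Type*} (P : α → Prop) (x : α) : ℝ := if P x then 1 else 0

/-! ### corner points -/

variable {n d : ℕ}

/-- points sticking out by one in the two directions `i` and `j` -/
def Cor (Q : BoxT n d) (i j : Fin d) : Finset (Vtx n d) :=
  Finset.univ.filter (fun x => ∀ m, out Q x m = if m = i ∨ m = j then 1 else 0)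

/-- directions in which `x` sticks out of `Q` -/
def supp (Q : BoxT n d) (x : Vtx n d) : Finset (Fin d) :=
  Finset.univ.filter (fun m => out Q x m ≠ 0)

/-- corner points of `Q` which are not covered by `Q'` -/
def NewC (Q' Q : BoxT n d) (i j : Fin d) : Finset (Vtx n d) := Cor Q i j \ cov Q'

/-- corner points of `Q` avoiding the directions `U`, not covered by `Q'` -/
def NewU (Q' Q : BoxT n d) (U : Finset (Fin d)) : Finset (Vtx n d) :=
  Finset.univ.filter (fun b => (∀ m, out Q b m ≤ 1) ∧ (supp Q b).card = 2 ∧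
    Disjoint (supp Q b) U ∧ b ∉ cov Q')

/-! ### states of the growth -/

/-- the points `A` can be used, in any order, to enlarge the box by two at each step -/
structure Que (Q : BoxT n d) (A : Finset (Vtx n d)) : Prop where
  two : ∀ b ∈ A, ∑ m, out Q b m = 2
  dis : (A : Set (Vtx n d)).PairwiseDisjoint (supp Q)

/-- the box `Q` is filled by the used points `T \ A`; everything asked is covered by `Q'` -/
structure Inv (z : Vtx n d) (Q' Q : BoxT n d) (A Z T : Finset (Vtx n d)) : Prop where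
  le : Q'.1 ≤ Q'.2
  sub : Sub Q' Q
  mem : Q.1 ≤ z ∧ z ≤ Q.2
  cov : Z ⊆ cov Q'
  AT : A ⊆ T
  TZ : T ⊆ Z
  inside : ∀ y ∈ T \ A, Q.1 ≤ y ∧ y ≤ Q.2
  fill : ∀ x, Q.1 ≤ x → x ≤ Q.2 →
    x ∈ bclosure 2 ((T : Set (Vtx n d)) ∩ {y | Q.1 ≤ y ∧ y ≤ Q.2})
  card : 2 * (T \ A).card = phi Q + 2
  seed : ∀ K, 2 * K ≤ phi Q → ∃ S ⊆ T \ A, z ∈ S ∧ S.card = K + 1 ∧
    ∀ y ∈ S, ∑ i, (((y i : ℕ) - z i) + ((z i : ℕ) - y i)) ≤ 2 * K

/-- states inside a window: `x₀` the side lengths at the beginning of the window, `U` the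
directions enlarged since then (including the directions of the queue `A`) -/
structure Mst (z : Vtx n d) (x₀ : Fin d → ℕ) (Q' Q : BoxT n d) (A : Finset (Vtx n d))
    (U : Finset (Fin d)) (Z T : Finset (Vtx n d)) : Prop where
  inv : Inv z Q' Q A Z T
  two : ∀ b ∈ A, (∀ m, out Q b m ≤ 1) ∧ (supp Q b).card = 2 ∧ supp Q b ⊆ U ∧
    ∀ m ∈ supp Q b, sd Q m ≤ sd Q' m
  dis : (A : Set (Vtx n d)).PairwiseDisjoint (supp Q)
  sides : ∀ m, sd Q m + (if ∃ b ∈ A, m ∈ supp Q b then 1 else 0) =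
    x₀ m + (if m ∈ U then 1 else 0)
  thin : ∀ m, sd Q m ≤ sd Q' m + 1
  grow : ∃ i j, i ≠ j ∧ sd Q' i < sd Q i ∧ sd Q' j < sd Q j

/-- states between windows, with side lengths `x` -/
def Cst (z : Vtx n d) (x : Fin d → ℕ) (Z T : Finset (Vtx n d)) : Prop :=
  ∃ Q' Q, Mst z x Q' Q ∅ ∅ Z T

/-- from every state in `P₀` a state in `P₁` is reached with probability at least `θ` -/
def Reach (p : ℝ) (z : Vtx n d) (P₀ P₁ : (Fin d → ℕ) → Prop) (θ : ℝ) : Prop :=
  ∀ (g : Finset (Vtx n d) → ℝ) (v : ℝ), 0 ≤ v →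
    (∀ x Z T, P₁ x → Cst z x Z T → Ach p g Z T v) →
    ∀ x Z T, P₀ x → Cst z x Z T → Ach p g Z T (θ * v)

/-! ### quotas -/

/-- number of elements of `U` with side length `c` -/
def cnt (x₀ : Fin d → ℕ) (U : Finset (Fin d)) (c : ℕ) : ℕ := (U.filter (fun m => x₀ m = c)).card

/-- sum of the quotas -/
def qtot (qu : ℕ → ℕ) (X : ℕ) : ℕ := ∑ c ∈ Finset.range X, qu c

open Classical in
/-- number of ways to complete the window -/
noncomputable def WW (x₀ : Fin d → ℕ) (qu : ℕ → ℕ) (X : ℕ) (U : Finset (Fin d)) : ℝ :=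
  if ∀ c < X, cnt x₀ U c ≤ qu c then
    ((qtot qu X - U.card).factorial : ℝ) * ∏ c ∈ Finset.range X,
      (Nat.choose (cnt x₀ Finset.univ c - cnt x₀ U c) (qu c - cnt x₀ U c) : ℝ)
  else 0

/-- one step of the main strategy, `u` directions enlarged in the window so far: `x` bounds the
side lengths which are enlarged, `y` all side lengths, `v` is the volume at the beginning -/
noncomputable def hst (K x y : ℕ) (p v : ℝ) (u : ℕ) : ℝ :=
  2 * Real.exp 1 * p * v * (1 + 1 / (x : ℝ)) ^ u / (1 + 1 / (x : ℝ)) ^ (2 * K) *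
    (2 * y - 1) / ((y : ℝ) ^ 2 * (x : ℝ) ^ 2)

/-- value of a state inside a window, `j` the length of the queue -/
noncomputable def vz (K x y X : ℕ) (s : ℕ → ℝ) (ε p v : ℝ) (x₀ : Fin d → ℕ) (qu : ℕ → ℕ)
    (j : ℕ) (U : Finset (Fin d)) : ℝ :=
  Real.exp (-(ε * ((qtot qu X : ℝ) + 2 * j - U.card))) * Real.exp j * s j * WW x₀ qu X U *
    ∏ i ∈ Finset.range ((qtot qu X - U.card) / 2), hst K x y p v (U.card + 2 * i)

/-- properties of the weights of the queue length -/
structure SW (K : ℕ) (s : ℕ → ℝ) (ε : ℝ) : Prop where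
  one : 1 ≤ K
  pos : ∀ j < K, 0 < s j
  nonneg : ∀ j, 0 ≤ s j
  le_one : ∀ j, s j ≤ 1
  zero : ∀ j, K ≤ j → s j = 0
  sum : ∀ j < K, Real.exp (1 - ε) * s j ≤
    ∑ r ∈ Finset.range (K + 1 - j), (if 1 ≤ j + r then s (j + r - 1) else 0) / (r.factorial : ℝ)

/-- probability of a step with prescribed directions -/
noncomputable def fch (p v : ℝ) (y : ℕ) : ℝ := 1 - Real.exp (-(4 * p * v / (y : ℝ) ^ 3))

end Pool.Agent.Lib.MP_8501c9_pr.Wide
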