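import Pool.Agent.Lib.MP_8501c9_pr.Wide.DefsC

/-!
# Definitions: exponents of the critical probability
-/

set_option autoImplicit false
open Set

namespace Pool.Agent.Lib.MP_8501c9_pr.Wide

open Pool.Agent.Lib.MP_8501c9_pr Pool.Agent.Lib.MP_8501c9_pr.Mid

open Classical in
/-- number of the first `J` breakpoints below `g` -/
noncomputable def gidx (J : ℕ) (γ : ℕ → ℝ) (g : ℝ) : ℕ :=
  ((Finset.range J).filter (fun i => γ i < g)).card

/-- step function for the lower bound of the critical probability -/
noncomputable def VU (J : ℕ) (γ V : ℕ → ℝ) (g : ℝ) : ℝ :=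
  if gidx J γ g < J then V (gidx J γ g) else 1

/-- step function for the upper bound of the critical probability -/
noncomputable def VL (J : ℕ) (γ V : ℕ → ℝ) (g : ℝ) : ℝ :=
  if gidx J γ g = 0 then 0 else V (gidx J γ g - 1)

/-- average of `W (u / √d)` over `[0, a]` -/
noncomputable def avW (W : ℝ → ℝ) (a : ℝ) (d : ℕ) : ℝ :=
  (∫ u in (0 : ℝ)..a, W (u / Real.sqrt d)) / a

/-- the exponent of the critical probability for `1 ≪ a ≪ d` -/
noncomputable def Lw (W : ℝ → ℝ) (n d : ℕ) : ℝ :=
  d * ell (Real.log n / d) + 2 * Real.log d - 3 * Real.log (aopt (Real.log n / d)) + 2 +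
    Real.log 4 + 2 * avW W (aopt (Real.log n / d)) d

/-- the value function of the one-direction problem with penalty `κ j (j - 1)` -/
noncomputable def Vst (κ : ℝ) : ℝ := sInf {V : ℝ | UAch κ V}

end Pool.Agent.Lib.MP_8501c9_pr.Wide
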