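import Pool.Agent.Lib.MP_8501c9_pr.Wide.DefsU
import Pool.Agent.Lib.MP_8501c9_pr.Wide.FramePF
import Pool.Agent.Lib.MP_8501c9_pr.Wide.PotPF

/-!
# The upper bound of the percolation probability given by a family of supersolutions
-/

set_option autoImplicit false
open Set

namespace Pool.Agent.Lib.MP_8501c9_pr.Wide

open Pool.Agent.Lib.MP_8501c9_pr Pool.Agent.Lib.MP_8501c9_pr.Mid

theorem wide_upper (ε R : ℝ) (hε0 : 0 < ε) (hε1 : ε ≤ 1) (hR : 1 ≤ R) :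
    ∃ c₂ : ℝ, 0 < c₂ ∧ ∃ C : ℝ, 0 ≤ C ∧ ∃ D₀ : ℕ, ∀ (n d k m : ℕ) (L : ℝ)
      (f : ℕ → ℝ → ℤ → ℝ) (y : ℕ → ℝ → ℝ) (ρ ς : ℕ → ℝ),
      D₀ ≤ d → d ≤ k → (k : ℝ) ≤ c₂ * d ^ 2 → k ≤ d * (n - 1) → 1 ≤ m →
      sfun d k + Real.sqrt (ε * d) ≤ L → UF d k m ε R f y ρ ς →
      percProb n d 2 (Real.exp (-L)) ≤ Real.exp (d * Real.log n - ((k : ℝ) / 2 + 1) * L +
        ∑ t ∈ Finset.range k, Bx d t + Vsum d k y ρ ς + ε * k + C * (d + m * (k / d)) +
        (L - sfun d k)) := by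
  obtain ⟨η, R', c₁, hη0, hη1, hηε, hR', hc₁, hE⟩ := exists_PF ε R hε0 hε1 hR
  obtain ⟨c₃, hc₃, c₂, hc₂, D₀, hW⟩ := wide_le η R' c₁ hη0 hη1 hR' hc₁
  obtain ⟨c₂', hc₂', C, hC, D₀', hP⟩ := hE c₃ hc₃
  refine ⟨min c₂ c₂', lt_min hc₂ hc₂', 3 * C + 2, by positivity, max (max D₀ D₀') 1,
    fun n d k m L f y ρ ς hd hdk hk hkn hm hL hUF => ?_⟩
  have hd1 : 1 ≤ d := (le_max_right _ _).trans hd
  have hdD : D₀ ≤ d := (le_max_left D₀ D₀').trans ((le_max_left _ _).trans hd)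
  have hdD' : D₀' ≤ d := (le_max_right D₀ D₀').trans ((le_max_left _ _).trans hd)
  have hd0 : (1 : ℝ) ≤ d := by exact_mod_cast hd1
  have hdk' : (d : ℝ) ≤ k := by exact_mod_cast hdk
  have hk1 : (k : ℝ) ≤ c₂ * d ^ 2 := hk.trans (by gcongr; exact min_le_left _ _)
  have hk2 : (k : ℝ) ≤ c₂' * d ^ 2 := hk.trans (by gcongr; exact min_le_right _ _)
  have hsL : sfun d k ≤ L := le_trans (le_add_of_nonneg_right (Real.sqrt_nonneg _)) hL
  have hL' : sfun d k + Real.sqrt (η * d) ≤ L := by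
    refine le_trans ?_ hL
    have : Real.sqrt (η * d) ≤ Real.sqrt (ε * d) := Real.sqrt_le_sqrt (by gcongr)
    linarith
  obtain ⟨lam, y', C', F, hPF, hlam, hCF⟩ := hP d k m L f y ρ ς hdD' hdk hk2 hm hsL hUF
  have h1 := hW n d k L lam y' C' F hdD hdk' hk1 hkn hL' hPF
  have hmk : (0 : ℝ) ≤ m * (k / d) := by positivity
  have hF0 : (0 : ℝ) ≤ F 0 1 := le_trans zero_le_one (hPF.F_ge 0 1)
  have hC0 : 0 ≤ C' 0 := (hPF.C_pos 0).le
  calc percProb n d 2 (Real.exp (-L))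
      ≤ Real.exp (d * Real.log n - L + 2 * lam 0 + 2) * C' 0 * F 0 1 ^ d := h1
    _ = Real.exp (d * Real.log n - L + 2 * lam 0 + 2) * (C' 0 * F 0 1 ^ d) := by ring
    _ ≤ Real.exp (d * Real.log n - L + 2 * C + 2) *
        Real.exp (∑ t ∈ Finset.range k, (Bx d t - L / 2) +
            Vsum d k y ρ ς + ε * k + C * (d + m * (k / d)) + (L - sfun d k)) := by
        refine mul_le_mul (Real.exp_le_exp.2 ?_) hCF (by positivity) (Real.exp_pos _).le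
        linarith
    _ = Real.exp ((d * Real.log n - L + 2 * C + 2) + (∑ t ∈ Finset.range k, (Bx d t - L / 2) +
            Vsum d k y ρ ς + ε * k + C * (d + m * (k / d)) + (L - sfun d k))) := by
        rw [← Real.exp_add]
    _ ≤ _ := by
        refine Real.exp_le_exp.2 ?_
        rw [Finset.sum_sub_distrib, Finset.sum_const, Finset.card_range, nsmul_eq_mul]
        have h2 : 0 ≤ (2 * C + 2) * (m * ((k : ℝ) / d)) := by positivity
        have h3 : (2 * C + 2) * 1 ≤ (2 * C + 2) * (d : ℝ) := by gcongr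
        nlinarith [h2, h3]

end Pool.Agent.Lib.MP_8501c9_pr.Wide
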